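import Pool.Agent.Mg.F14ad9d.G10c727
import Pool.Agent.MP_14ad9d_nt.Full.Inst

set_option autoImplicit false

open NumberField Polynomial

namespace Pool.Agent.MP_14ad9d_nt.Full

namespace SchMAux

theorem int_nat {A : Type} [CommRing A] (k : ℕ) : IsIntegral ℤ (k : A) := by
  simpa using isIntegral_algebraMap (R := ℤ) (A := A) (x := (k : ℤ))

theorem norm_int {E : Type} [NormedField E] [IsUltrametricDist E] {x : E} (h : IsIntegral ℤ x) :
    ‖x‖ ≤ 1 := by
  have h1 : IsIntegral (NormedField.valuation (K := E)).integer x := h.tower_top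
  have h2 := (Valuation.integer.integers (NormedField.valuation (K := E))).mem_of_integral h1
  exact h2

theorem norm_of_comb {E : Type} [NormedField E] [IsUltrametricDist E] {a b x y : E}
    (ha : ‖a‖ ≤ 1) (hb : ‖b‖ ≤ 1) (hx : ‖x‖ ≤ 1) (hy : ‖y‖ < 1) (e : a * x + b * y = 1) :
    ‖x‖ = 1 := by
  refine le_antisymm hx (not_lt.1 fun h => ?_)
  have h1 := IsUltrametricDist.norm_add_le_max (a * x) (b * y)
  rw [e, norm_one, norm_mul, norm_mul] at h1
  have h2 : ‖a‖ * ‖x‖ < 1 := mul_lt_one_of_nonneg_of_lt_one_right ha (norm_nonneg _) h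
  have h3 : ‖b‖ * ‖y‖ < 1 := mul_lt_one_of_nonneg_of_lt_one_right hb (norm_nonneg _) hy
  exact absurd h1 (not_le.2 (max_lt h2 h3))

theorem norm_ell' (l : ℕ) [Fact l.Prime] : 0 < ‖(l : ℂ_[l])‖ ∧ ‖(l : ℂ_[l])‖ < 1 := by
  have hp : l.Prime := Fact.out
  refine ⟨norm_pos_iff.2 (Nat.cast_ne_zero.2 hp.ne_zero), ?_⟩
  have e : (l : ℂ_[l]) = algebraMap ℚ_[l] ℂ_[l] (l : ℚ_[l]) := by simp
  rw [e, norm_algebraMap']
  exact Padic.norm_p_lt_one

end SchMAux

open SchMAux

section LI

variable {l : ℕ} {A A' : Type} [CommRing A] [CommRing A']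

theorem exists_lint (l : ℕ) (A : Type) [CommRing A] : ∃ R : Subring A, ∀ x, x ∈ R ↔ LInt l x := by
  refine ⟨{ carrier := {x | LInt l x}
            mul_mem' := ?_
            one_mem' := ⟨1, Nat.coprime_one_left l, by simpa using isIntegral_one⟩
            add_mem' := SchWAux.lint_add
            zero_mem' := SchWAux.lint_zero
            neg_mem' := ?_ }, fun x => Iff.rfl⟩
  · rintro x y ⟨d, hd, hi⟩ ⟨e, he, hj⟩
    refine ⟨d * e, Nat.Coprime.mul_left hd he, ?_⟩
    have : ((d * e : ℕ) : A) * (x * y) = ((d : A) * x) * ((e : A) * y) := by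
      push_cast; ring
    rw [this]
    exact hi.mul hj
  · rintro x ⟨d, hd, hi⟩
    exact ⟨d, hd, by rw [mul_neg]; exact hi.neg⟩

theorem LInt.map {x : A} (h : LInt l x) (f : A →+* A') : LInt l (f x) :=
  SchWAux.lint_map f h

theorem LInt.of_map {x : A} (f : A →+* A') (hf : Function.Injective f) (h : LInt l (f x)) :
    LInt l x := by
  obtain ⟨d, hd, hi⟩ := h
  refine ⟨d, hd, (isIntegral_algHom_iff f.toIntAlgHom hf).1 ?_⟩
  have e : f.toIntAlgHom ((d : A) * x) = (d : A') * f x := by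
    change f _ = _
    rw [map_mul, map_natCast]
  rwa [e]

theorem LInt.norm_le [Fact l.Prime] {x : ℂ_[l]} (h : LInt l x) : ‖x‖ ≤ 1 := by
  obtain ⟨d, hd, hi⟩ := h
  obtain ⟨a, b, e⟩ := Nat.isCoprime_iff_coprime.2 hd
  have e' : (a : ℂ_[l]) * (d : ℂ_[l]) + (b : ℂ_[l]) * (l : ℂ_[l]) = 1 := by
    exact_mod_cast congrArg (Int.cast : ℤ → ℂ_[l]) e
  have h1 : ‖(d : ℂ_[l])‖ = 1 :=
    norm_of_comb (IsUltrametricDist.norm_intCast_le_one _ a)
      (IsUltrametricDist.norm_intCast_le_one _ b) (IsUltrametricDist.norm_natCast_le_one _ d)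
      (norm_ell' l).2 e'
  have h2 := norm_int hi
  rwa [norm_mul, h1, one_mul] at h2

end LI

theorem norm_ell (l : ℕ) [Fact l.Prime] : 0 < ‖(l : ℂ_[l])‖ ∧ ‖(l : ℂ_[l])‖ < 1 :=
  norm_ell' l

namespace SchMAux

theorem norm_ri {l : ℕ} [Fact l.Prime] {F : Type} [Field F] (j : F →+* ℂ_[l]) (a : 𝓞 F) :
    ‖j (a : F)‖ ≤ 1 :=
  norm_int (map_isIntegral_int j a.isIntegral_coe)

end SchMAux

theorem norm_coprime {l : ℕ} [Fact l.Prime] {F : Type} [Field F] (j : F →+* ℂ_[l]) {a : 𝓞 F}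
    (h : IsCoprime a (l : 𝓞 F)) : ‖j (a : F)‖ = 1 := by
  obtain ⟨x, y, e⟩ := h
  refine norm_of_comb (norm_ri j x) (norm_ri j y) (norm_ri j a) (norm_ell' l).2 ?_
  have e' := congrArg (fun t : 𝓞 F => j (algebraMap (𝓞 F) F t)) e
  simpa using e'

namespace SchMAux

theorem exists_prime {l : ℕ} [Fact l.Prime] {K : Type} [Field K] [NumberField K]
    (j : K →+* ℂ_[l]) : ∃ v : Pr K, ∀ a : 𝓞 K, a ∈ v.asIdeal ↔ ‖j (a : K)‖ < 1 := by
  have hp : l.Prime := Fact.out
  let I : Ideal (𝓞 K) :=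
    { carrier := {a | ‖j (a : K)‖ < 1}
      add_mem' := by
        intro a b ha hb
        change ‖j (algebraMap (𝓞 K) K (a + b))‖ < 1
        rw [map_add, map_add]
        exact (IsUltrametricDist.norm_add_le_max _ _).trans_lt (max_lt ha hb)
      zero_mem' := by
        change ‖j (algebraMap (𝓞 K) K 0)‖ < 1
        simp
      smul_mem' := by
        intro c a ha
        change ‖j (algebraMap (𝓞 K) K (c * a))‖ < 1
        rw [map_mul, map_mul, norm_mul]
        exact mul_lt_one_of_nonneg_of_lt_one_right (norm_ri j c) (norm_nonneg _) ha }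
  have hI : ∀ a : 𝓞 K, a ∈ I ↔ ‖j (algebraMap (𝓞 K) K a)‖ < 1 := fun a => Iff.rfl
  refine ⟨⟨I, ⟨?_, ?_⟩, ?_⟩, fun a => Iff.rfl⟩
  · rw [Ne, Ideal.eq_top_iff_one, hI]
    simp
  · intro a b hab
    rw [hI, map_mul, map_mul, norm_mul] at hab
    by_contra hn
    rw [not_or, hI, hI, not_lt, not_lt] at hn
    exact absurd hab (not_lt.2 (one_le_mul_of_one_le_of_one_le hn.1 hn.2))
  · intro h
    have h1 : (l : 𝓞 K) ∈ I := by
      rw [hI]
      simpa using (norm_ell' l).2
    rw [h, Ideal.mem_bot] at h1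
    exact hp.ne_zero (Nat.cast_eq_zero.1 h1)

theorem lint_of_val {l : ℕ} (hp : l.Prime) {K : Type} [Field K] [NumberField K] {x : K}
    (h : ∀ w : Pr K, ¬Tm l w → w.valuation K x ≤ 1) : LInt l x := by
  let D : Ideal (𝓞 K) :=
    { carrier := {d | ∃ n : 𝓞 K, x * algebraMap (𝓞 K) K d = algebraMap (𝓞 K) K n}
      add_mem' := by
        rintro a b ⟨n, hn⟩ ⟨m, hm⟩
        exact ⟨n + m, by rw [map_add, map_add, mul_add, hn, hm]⟩
      zero_mem' := ⟨0, by simp⟩
      smul_mem' := by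
        rintro c a ⟨n, hn⟩
        refine ⟨c * n, ?_⟩
        rw [smul_eq_mul, map_mul, map_mul, ← hn]
        ring }
  have hl : Prime (l : ℤ) := Nat.prime_iff_prime_int.1 hp
  have : (Ideal.span {(l : ℤ)}).IsPrime := (Ideal.span_singleton_prime hl.ne_zero).2 hl
  have hD : ¬D.comap (algebraMap ℤ (𝓞 K)) ≤ Ideal.span {(l : ℤ)} := by
    intro hle
    obtain ⟨Q, hQ, hQp, hQc⟩ := Ideal.exists_ideal_over_prime_of_isIntegral _ D hle
    have h1 : (l : 𝓞 K) ∈ Q := by
      have : (l : ℤ) ∈ Q.comap (algebraMap ℤ (𝓞 K)) := hQc ▸ Ideal.mem_span_singleton_self _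
      simpa using this
    have h2 : Q ≠ ⊥ := by
      intro h0
      rw [h0, Ideal.mem_bot] at h1
      exact hp.ne_zero (Nat.cast_eq_zero.1 h1)
    let w : Pr K := ⟨Q, hQp, h2⟩
    obtain ⟨n, d, e⟩ := w.exists_primeCompl_mul_eq_of_integer x (h w fun h' => h' h1)
    exact d.2 (hQ ⟨n, e⟩)
  obtain ⟨d, ⟨n, hn⟩, hd⟩ := SetLike.not_le_iff_exists.1 hD
  rw [Ideal.mem_span_singleton, Int.natCast_dvd] at hd
  refine ⟨d.natAbs, ((Nat.Prime.coprime_iff_not_dvd hp).2 hd).symm, ?_⟩
  have e : (d : K) * x = algebraMap (𝓞 K) K n := by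
    rw [← hn, mul_comm]
    simp
  have hi : IsIntegral ℤ ((d : K) * x) := e ▸ n.isIntegral_coe
  rcases Int.natAbs_eq d with h0 | h0
  · rw [h0] at hi
    simpa using hi
  · rw [h0] at hi
    simpa using hi.neg

end SchMAux

/-- an embedding that detects integrality of invariant elements -/
theorem exists_emb {l : ℕ} [Fact l.Prime] {F K : Type} [Field F] [NumberField F] [Field K]
    [NumberField K] [Algebra F K] (S : Setup l F K) : ∃ j : K →+* ℂ_[l],
      ∀ x : K, (∀ g : K ≃ₐ[F] K, g x = x) → ‖j x‖ ≤ 1 → LInt l x := by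
  let j : K →+* ℂ_[l] := (IsAlgClosed.lift : K →ₐ[ℚ] ℂ_[l]).toRingHom
  refine ⟨j, fun x hx hn => lint_of_val Fact.out fun w hw => ?_⟩
  obtain ⟨v, hv⟩ := exists_prime j
  have hvw : ¬Tm l v := fun h => h (by
    rw [hv]
    simpa using (norm_ell' l).2)
  have h1 : v.valuation K x ≤ 1 := by
    obtain ⟨n, d, e | e⟩ := v.exists_primeCompl_mul_eq_or_mul_eq x
    · have e' := congrArg (v.valuation K) e
      rw [map_mul, (v.valuation_eq_one_iff_notMem (K := K)).2 d.2, mul_one] at e'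
      rw [e']
      exact v.valuation_le_one n
    · have hd : 1 ≤ ‖j (algebraMap (𝓞 K) K d)‖ := not_lt.1 fun h => d.2 ((hv _).2 h)
      have hn' : n ∉ v.asIdeal := by
        intro h
        have h' : ‖j (algebraMap (𝓞 K) K n)‖ < 1 := (hv _).1 h
        rw [← e, map_mul, norm_mul] at hd
        exact absurd hd (not_le.2 (mul_lt_one_of_nonneg_of_lt_one_right hn (norm_nonneg _) h'))
      have e' := congrArg (v.valuation K) e
      rw [map_mul, (v.valuation_eq_one_iff_notMem (K := K)).2 d.2,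
        (v.valuation_eq_one_iff_notMem (K := K)).2 hn', mul_one] at e'
      exact e'.le
  obtain ⟨g, rfl⟩ := S.trans w hw
  obtain ⟨g', rfl⟩ := S.trans v hvw
  have e₁ := val_act (g : K ≃+* K) S.v₀ x
  have e₂ := val_act (g' : K ≃+* K) S.v₀ x
  rw [show (g : K ≃+* K) x = x from hx g] at e₁
  rw [show (g' : K ≃+* K) x = x from hx g'] at e₂
  rw [e₁, ← e₂]
  exact h1

namespace SchMAux

section Pl

variable {A B : Type} [CommRing A] [CommRing B]

/-- the polynomial with given coefficients -/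
noncomputable def pl {n : ℕ} (c : Fin n → A) : A[X] := ∑ i : Fin n, monomial (i : ℕ) (c i)

theorem pl_map {n : ℕ} (c : Fin n → A) (f : A →+* B) : (pl c).map f = pl fun i => f (c i) := by
  simp [pl, Polynomial.map_sum]

theorem pl_coeff {n : ℕ} (c : Fin n → A) (i : Fin n) : (pl c).coeff i = c i := by
  rw [pl, finsetSum_coeff, Finset.sum_eq_single i]
  · simp
  · intro k _ hk
    rw [coeff_monomial, if_neg fun h => hk (Fin.ext h)]
  · intro h
    exact absurd (Finset.mem_univ i) h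

theorem pl_degree {n : ℕ} (c : Fin n → A) : (pl c).degree < n := by
  rw [pl]
  refine (degree_sum_le _ _).trans_lt ((Finset.sup_lt_iff (WithBot.bot_lt_coe n)).2 fun i _ => ?_)
  exact (degree_monomial_le _ _).trans_lt (WithBot.coe_lt_coe.2 i.2)

theorem pl_mem {n : ℕ} (c : Fin n → A) (P : A → Prop) (h0 : P 0) (h : ∀ i, P (c i)) (k : ℕ) :
    P ((pl c).coeff k) := by
  by_cases hk : k < n
  · have := pl_coeff c ⟨k, hk⟩
    rw [show (pl c).coeff k = c ⟨k, hk⟩ from this]
    exact h _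
  · rw [coeff_eq_zero_of_degree_lt ((pl_degree c).trans_le (by exact_mod_cast not_lt.1 hk))]
    exact h0

theorem pl_eq {n : ℕ} {p : A[X]} (hp : p.degree < n) : (pl fun i : Fin n => p.coeff i) = p := by
  ext k
  by_cases hk : k < n
  · exact pl_coeff (fun i : Fin n => p.coeff i) ⟨k, hk⟩
  · have h : (n : WithBot ℕ) ≤ k := by exact_mod_cast not_lt.1 hk
    rw [coeff_eq_zero_of_degree_lt ((pl_degree _).trans_le h),
      coeff_eq_zero_of_degree_lt (hp.trans_le h)]

theorem pl_mul {n : ℕ} (a : A) (c : Fin n → A) : C a * pl c = pl fun i => a * c i := by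
  simp [pl, Finset.mul_sum, C_mul_monomial]

theorem quot_mem (R : Subring A) {u v Φ h : A[X]} (hu : u.Monic) (e : u * h = v ^ 2 - Φ)
    (h₁ : ∀ i, u.coeff i ∈ R) (h₂ : ∀ i, v.coeff i ∈ R) (h₃ : ∀ i, Φ.coeff i ∈ R) (i : ℕ) :
    h.coeff i ∈ R := by
  have key : ∀ p : A[X], (∀ i, p.coeff i ∈ R) → p ∈ lifts R.subtype := fun p hp =>
    (lifts_iff_coeff_lifts p).2 fun n => ⟨⟨_, hp n⟩, rfl⟩
  obtain ⟨u', rfl, -, hu'⟩ := lifts_and_natDegree_eq_and_monic (key u h₁) hu
  obtain ⟨v', rfl⟩ := (mem_lifts v).1 (key v h₂)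
  obtain ⟨Φ', rfl⟩ := (mem_lifts Φ).1 (key Φ h₃)
  have e' : h = ((v' ^ 2 - Φ') /ₘ u').map R.subtype := by
    rw [map_divByMonic _ hu', Polynomial.map_sub, Polynomial.map_pow, ← e,
      mul_divByMonic_cancel_left _ hu]
  rw [e', coeff_map]
  exact Subtype.coe_prop _

end Pl

/-- the index set of the coordinates -/
abbrev Ix (g N : ℕ) : Type := Fin g ⊕ Fin g ⊕ Fin N

/-- the equation in Mumford coordinates -/
noncomputable def eqn {A : Type} [CommRing A] (l : ℕ) {g N : ℕ} (u₀ v₀ Φ : A[X])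
    (η : Ix g N → A) : A[X] :=
  (u₀ + C (l : A) * pl fun i => η (.inl i)) * (pl fun i => η (.inr (.inr i))) -
    ((v₀ + C (l : A) * pl fun i => η (.inr (.inl i))) ^ 2 - Φ)

theorem eqn_map {A B : Type} [CommRing A] [CommRing B] (l : ℕ) {g N : ℕ} (u₀ v₀ Φ : A[X])
    (η : Ix g N → A) (f : A →+* B) :
    (eqn l u₀ v₀ Φ η).map f = eqn l (u₀.map f) (v₀.map f) (Φ.map f) fun i => f (η i) := by
  simp only [eqn, Polynomial.map_sub, Polynomial.map_mul, Polynomial.map_add, Polynomial.map_pow,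
    pl_map, map_C, map_natCast f]

theorem eqn_iff {F L : Type} [Field F] [Field L] [Algebra F L] (l : ℕ) {g N : ℕ} (u₀ v₀ Φ : F[X])
    (η : Ix g N → L) :
    (∀ q ∈ Set.range fun i => (eqn l (u₀.map MvPolynomial.C) (v₀.map MvPolynomial.C)
      (Φ.map MvPolynomial.C) (MvPolynomial.X : Ix g N → MvPolynomial (Ix g N) F)).coeff i,
        MvPolynomial.aeval η q = 0) ↔
      eqn l (u₀.map (algebraMap F L)) (v₀.map (algebraMap F L)) (Φ.map (algebraMap F L)) η = 0 := by
  let φ : MvPolynomial (Ix g N) F →+* L := (MvPolynomial.aeval η).toRingHom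
  have hφ : φ.comp MvPolynomial.C = algebraMap F L := by
    ext a
    simp [φ]
  have e := eqn_map l (u₀.map MvPolynomial.C) (v₀.map MvPolynomial.C)
    (Φ.map MvPolynomial.C) (MvPolynomial.X : Ix g N → MvPolynomial (Ix g N) F) φ
  have hη : (fun i => φ (MvPolynomial.X i)) = η := by
    ext i
    simp [φ]
  rw [Polynomial.map_map, Polynomial.map_map, Polynomial.map_map, hφ, hη] at e
  rw [← e, Set.forall_mem_range, Polynomial.ext_iff]
  simp only [coeff_map, coeff_zero]
  rfl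

end SchMAux

/-- the scheme of Mumford coordinates -/
theorem schM (l : ℕ) (hl : l.Prime) (K₀ F K : Type) [Field K₀] [NumberField K₀] [Field F]
    [NumberField F] [Field K] [NumberField K] [Algebra F K] (f : K₀ →+* K)
    (hli : ∀ (n : ℕ) (b : Fin n → F), LinearIndependent ℚ b → ∀ c : Fin n → K₀,
      ∑ i, f (c i) * algebraMap F K (b i) = 0 → ∀ i, c i = 0)
    (u₀ v₀ Φ : F[X]) (hm : u₀.Monic) (hv : v₀.degree < u₀.degree) (h₁ : ∀ i, LInt l (u₀.coeff i))
    (h₂ : ∀ i, LInt l (v₀.coeff i)) (h₃ : ∀ i, LInt l (Φ.coeff i))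
    (hA : {p : F[X] × F[X] | p.1.Monic ∧ p.1.natDegree = u₀.natDegree ∧
      p.2.degree < p.1.degree ∧ p.1 ∣ p.2 ^ 2 - Φ ∧ (∀ i, LInt l ((p.1 - u₀).coeff i / l)) ∧
      ∀ i, LInt l ((p.2 - v₀).coeff i / l)}.Infinite)
    (hB : ∀ u v : K[X], u.Monic → u.natDegree = u₀.natDegree → v.degree < u.degree →
      u ∣ v ^ 2 - Φ.map (algebraMap F K) →
      (∀ i, LInt l ((u - u₀.map (algebraMap F K)).coeff i / l)) →
      (∀ i, LInt l ((v - v₀.map (algebraMap F K)).coeff i / l)) →
      (∃ u' : F[X], u'.map (algebraMap F K) = u) ∧ ∃ v' : F[X], v'.map (algebraMap F K) = v) :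
    ConcS K₀ := by
  have hd₀ : u₀.degree = u₀.natDegree := degree_eq_natDegree hm.ne_zero
  refine schW l hl K₀ F K f hli (Ix u₀.natDegree (Φ.natDegree + 2 * u₀.natDegree + 1))
    (Set.range fun i => (eqn l (u₀.map MvPolynomial.C) (v₀.map MvPolynomial.C)
      (Φ.map MvPolynomial.C) MvPolynomial.X).coeff i) ?_ ?_
  · have hl0 : (l : F) ≠ 0 := Nat.cast_ne_zero.2 hl.ne_zero
    refine Set.Infinite.of_image (fun η => (u₀ + C (l : F) * pl fun i => η (.inl i),
      v₀ + C (l : F) * pl fun i => η (.inr (.inl i)))) (hA.mono ?_)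
    rintro ⟨u, v⟩ ⟨hu, hg, hvu, ⟨h, e⟩, hu₁, hv₁⟩
    dsimp only at hu hg hvu e hu₁ hv₁
    have hd : u.degree = u₀.natDegree := by rw [degree_eq_natDegree hu.ne_zero, hg]
    have d₁ : (u - u₀).degree < u₀.natDegree := by
      rw [← hd]
      exact degree_sub_lt_left (hd.trans hd₀.symm) hu.ne_zero (by rw [hu.leadingCoeff, hm.leadingCoeff])
    have d₂ : (v - v₀).degree < u₀.natDegree :=
      (degree_sub_le _ _).trans_lt (max_lt (hvu.trans_eq hd) (hv.trans_eq hd₀))
    have d₃ : h.degree < (Φ.natDegree + 2 * u₀.natDegree + 1 : ℕ) := by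
      have a₁ : v.natDegree ≤ u₀.natDegree := natDegree_le_of_degree_le (hvu.trans_eq hd).le
      have a₂ : (v ^ 2).natDegree ≤ 2 * v.natDegree := natDegree_pow_le
      have a₃ := natDegree_sub_le (v ^ 2) Φ
      have a₄ : h.natDegree ≤ (u * h).natDegree := by
        rcases eq_or_ne h 0 with rfl | h0
        · simp
        · rw [hu.natDegree_mul' h0]
          omega
      rw [← e] at a₄
      refine degree_le_natDegree.trans_lt ?_
      have : h.natDegree < Φ.natDegree + 2 * u₀.natDegree + 1 := by omega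
      exact_mod_cast this
    have e₁ : u₀ + C (l : F) * (pl fun i : Fin u₀.natDegree => (u - u₀).coeff i / l) = u := by
      rw [pl_mul]
      simp only [mul_div_cancel₀ _ hl0]
      rw [pl_eq d₁]
      ring
    have e₂ : v₀ + C (l : F) * (pl fun i : Fin u₀.natDegree => (v - v₀).coeff i / l) = v := by
      rw [pl_mul]
      simp only [mul_div_cancel₀ _ hl0]
      rw [pl_eq d₂]
      ring
    obtain ⟨R, hR⟩ := exists_lint l F
    have key : ∀ p p₀ : F[X], (∀ i, LInt l (p₀.coeff i)) → (∀ i, LInt l ((p - p₀).coeff i / l)) →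
        ∀ i, p.coeff i ∈ R := by
      intro p p₀ a b i
      have : p.coeff i = p₀.coeff i + (l : F) * ((p - p₀).coeff i / l) := by
        rw [mul_div_cancel₀ _ hl0, coeff_sub]
        ring
      rw [this]
      exact R.add_mem ((hR _).2 (a i)) (R.mul_mem (natCast_mem R l) ((hR _).2 (b i)))
    have hh := quot_mem R hu e.symm (key u u₀ h₁ hu₁) (key v v₀ h₂ hv₁) fun i => (hR _).2 (h₃ i)
    refine ⟨Sum.elim (fun i => (u - u₀).coeff i / l) (Sum.elim (fun i => (v - v₀).coeff i / l)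
      fun i => h.coeff i), ⟨?_, ?_⟩, ?_⟩
    · rw [eqn_iff]
      simp only [eqn, Algebra.algebraMap_self, Polynomial.map_id, Sum.elim_inl, Sum.elim_inr]
      rw [e₁, e₂, pl_eq d₃, e, sub_self]
    · rintro (i | i | i)
      · exact hu₁ i
      · exact hv₁ i
      · exact (hR _).1 (hh i)
    · simp only [Sum.elim_inl, Sum.elim_inr]
      rw [e₁, e₂]
  · intro η he hη
    have hl0 : (l : K) ≠ 0 := Nat.cast_ne_zero.2 hl.ne_zero
    rw [eqn_iff, eqn, sub_eq_zero] at he
    set a : K[X] := pl fun i => η (.inl i) with ha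
    set b : K[X] := pl fun i => η (.inr (.inl i)) with hb
    have hm' : (u₀.map (algebraMap F K)).Monic := hm.map _
    have dm : (u₀.map (algebraMap F K)).degree = u₀.natDegree := by rw [degree_map, hd₀]
    have da : (C (l : K) * a).degree < u₀.natDegree := by
      rw [degree_C_mul hl0]
      exact pl_degree _
    have db : (C (l : K) * b).degree < u₀.natDegree := by
      rw [degree_C_mul hl0]
      exact pl_degree _
    have hu : (u₀.map (algebraMap F K) + C (l : K) * a).Monic :=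
      hm'.add_of_left (da.trans_eq dm.symm)
    have du : (u₀.map (algebraMap F K) + C (l : K) * a).degree = u₀.natDegree := by
      rw [degree_add_eq_left_of_degree_lt (da.trans_eq dm.symm), dm]
    have dv : (v₀.map (algebraMap F K) + C (l : K) * b).degree < u₀.natDegree := by
      refine (degree_add_le _ _).trans_lt (max_lt ?_ db)
      rw [degree_map]
      exact hv.trans_eq hd₀
    have cf : ∀ p q : K[X], ∀ i, (p + C (l : K) * q - p).coeff i / l = q.coeff i := by
      intro p q i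
      rw [add_sub_cancel_left, coeff_C_mul, mul_div_cancel_left₀ _ hl0]
    obtain ⟨⟨u', hu'⟩, v', hv'⟩ := hB _ _ hu (natDegree_eq_of_degree_eq_some du)
      (dv.trans_eq du.symm) ⟨_, he.symm⟩
      (fun i => by
        rw [cf]
        exact pl_mem _ (LInt l) SchWAux.lint_zero (fun i => hη _) i)
      (fun i => by
        rw [cf]
        exact pl_mem _ (LInt l) SchWAux.lint_zero (fun i => hη _) i)
    have key : ∀ (p p' : F[X]) (q : K[X]),
        p'.map (algebraMap F K) = p.map (algebraMap F K) + C (l : K) * q →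
        ∀ i, q.coeff i ∈ Set.range (algebraMap F K) := by
      intro p p' q e i
      refine ⟨(p' - p).coeff i / l, ?_⟩
      rw [← cf (p.map (algebraMap F K)) q i, ← e, ← Polynomial.map_sub, coeff_map, map_div₀,
        map_natCast]
    rintro (i | i | i)
    · rw [← pl_coeff (fun i => η (.inl i)) i]
      exact key _ _ _ hu' i
    · rw [← pl_coeff (fun i => η (.inr (.inl i))) i]
      exact key _ _ _ hv' i
    · rw [← pl_coeff (fun i => η (.inr (.inr i))) i]
      refine quot_mem (algebraMap F K).range hu he (fun i => ?_) (fun i => ?_) (fun i => ?_) i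
      · rw [← hu', coeff_map]
        exact ⟨_, rfl⟩
      · rw [← hv', coeff_map]
        exact ⟨_, rfl⟩
      · rw [coeff_map]
        exact ⟨_, rfl⟩

end Pool.Agent.MP_14ad9d_nt.Full
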