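import Pool.Agent.Mg.F14ad9d.Ga323a0
import Pool.Agent.MP_14ad9d_nt.Full.Herb

section

set_option autoImplicit false
set_option linter.unusedSectionVars false

open Polynomial

namespace Pool.Agent.MP_14ad9d_nt.Full

variable {l : ℕ} [Fact l.Prime] [Fact (2 < l)] {k k' : Type} [Field k] [CharZero k]
  [Field k'] [CharZero k'] {s : kˣ} {s' : k'ˣ} {ζ : k}

namespace J2Aux

/-- the norm of an ideal -/
noncomputable def NI (hζ : IsPrimitiveRoot ζ l) (I : Ideal (CR l s)) : Ideal (CR l s) :=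
  ∏ j ∈ Finset.range l, I.map (sg l s hζ ^ j)

/-- the norm of an element -/
noncomputable def NE (hζ : IsPrimitiveRoot ζ l) (z : CR l s) : CR l s :=
  ∏ j ∈ Finset.range l, (sg l s hζ ^ j) z

theorem l_pos : 0 < l := (Fact.out : l.Prime).pos

theorem NI_mul (hζ : IsPrimitiveRoot ζ l) (I J : Ideal (CR l s)) :
    NI hζ (I * J) = NI hζ I * NI hζ J := by
  simp only [NI, Ideal.map_mul, Finset.prod_mul_distrib]

theorem NI_span (hζ : IsPrimitiveRoot ζ l) (z : CR l s) :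
    NI hζ (Ideal.span {z}) = Ideal.span {NE hζ z} := by
  simp only [NI, NE, Ideal.map_span, Set.image_singleton, Ideal.prod_span_singleton]

theorem NI_top (hζ : IsPrimitiveRoot ζ l) : NI hζ (⊤ : Ideal (CR l s)) = Ideal.span {1} := by
  simp only [NI, Ideal.map_top, Ideal.span_singleton_one]
  rw [← Ideal.one_eq_top, Finset.prod_const_one]

theorem sg_pow_inj (hζ : IsPrimitiveRoot ζ l) (j : ℕ) : Function.Injective (sg l s hζ ^ j) := by
  rw [RingHom.coe_pow]
  exact (sg_inj l s hζ).iterate j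

theorem on_pos : (s : k) ^ 2 = 0 ^ l + (s : k) ^ 2 := by rw [zero_pow l_pos.ne', zero_add]

theorem on_neg : (-(s : k)) ^ 2 = 0 ^ l + (s : k) ^ 2 := by
  rw [zero_pow l_pos.ne', zero_add, neg_sq]

theorem evp_sg_pow (hζ : IsPrimitiveRoot ζ l) (b : k) (j : ℕ) (z : CR l s) :
    evp l 0 b ((sg l s hζ ^ j) z) = evp l 0 b z := by
  induction j with
  | zero => rfl
  | succ j ih => rw [pow_succ', RingHom.mul_def, RingHom.comp_apply, evp_sg, mul_zero, ih]

theorem evp_NE (hζ : IsPrimitiveRoot ζ l) {b : k} (hb : b ^ 2 = 0 ^ l + (s : k) ^ 2)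
    (z : CR l s) : evp l 0 b (NE hζ z) = evp l 0 b z ^ l := by
  obtain ⟨φ, hφ⟩ := exists_evHom hb
  rw [← hφ, NE, map_prod]
  simp only [hφ, evp_sg_pow, Finset.prod_const, Finset.card_range]

theorem avoid (hζ : IsPrimitiveRoot ζ l) {b : k} (hb : b ^ 2 = 0 ^ l + (s : k) ^ 2)
    {I : Ideal (CR l s)} {m : CR l s} (h : NI hζ I = Ideal.span {m}) :
    evp l 0 b m ≠ 0 ↔ ∃ z ∈ I, evp l 0 b z ≠ 0 := by
  constructor
  · refine fun hm => ⟨m, ?_, hm⟩
    have h1 : NI hζ I ≤ I.map (sg l s hζ ^ 0) :=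
      Ideal.prod_le_inf.trans (Finset.inf_le (Finset.mem_range.2 l_pos))
    rw [h, pow_zero, RingHom.one_def, Ideal.map_id] at h1
    exact h1 (Ideal.mem_span_singleton_self m)
  · rintro ⟨z, hz, h0⟩ hm
    have h1 : NE hζ z ∈ NI hζ I :=
      Ideal.prod_mem_prod fun j _ => Ideal.mem_map_of_mem _ hz
    rw [h, Ideal.mem_span_singleton'] at h1
    obtain ⟨c, hc⟩ := h1
    have h2 := evp_NE hζ hb z
    rw [← hc, evp_mul hb, hm, mul_zero] at h2
    exact pow_ne_zero l h0 h2.symm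

theorem ne_bot (hζ : IsPrimitiveRoot ζ l) {I : Ideal (CR l s)} {m : CR l s}
    (h : NI hζ I = Ideal.span {m}) (hm : evp l 0 (s : k) m ≠ 0) : I ≠ ⊥ := by
  rintro rfl
  obtain ⟨z, hz, h0⟩ := (avoid hζ on_pos h).1 hm
  rw [Ideal.mem_bot.1 hz] at h0
  exact h0 (by simp [evp])

theorem NI_map (hζ : IsPrimitiveRoot ζ l) {ζ' : k'} (hζ' : IsPrimitiveRoot ζ' l)
    (φ : CR l s →+* CR l s') (hφ : ∀ z, φ (sg l s hζ z) = sg l s' hζ' (φ z)) (I : Ideal (CR l s)) :
    NI hζ' (I.map φ) = (NI hζ I).map φ := by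
  have e : ∀ j : ℕ, (sg l s' hζ' ^ j).comp φ = φ.comp (sg l s hζ ^ j) := fun j => by
    induction j with
    | zero => rfl
    | succ j ih =>
      refine RingHom.ext fun z => ?_
      have := RingHom.congr_fun ih z
      simp only [pow_succ', RingHom.mul_def, RingHom.comp_apply, hφ] at this ⊢
      rw [this]
  have := map_prod (Ideal.mapHom φ) (fun j => I.map (sg l s hζ ^ j)) (Finset.range l)
  simp only [Ideal.mapHom_apply] at this
  rw [NI, NI, this]
  simp only [Ideal.map_map, e]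

theorem map_pt_pow (hζ : IsPrimitiveRoot ζ l) (a b : k) (j : ℕ) :
    (pt l s a b).map (sg l s hζ ^ j) = pt l s (ζ⁻¹ ^ j * a) b := by
  induction j with
  | zero => rw [pow_zero, pow_zero, one_mul, RingHom.one_def, Ideal.map_id]
  | succ j ih =>
    rw [pow_succ', RingHom.mul_def, ← Ideal.map_map, ih, map_sg_pt, pow_succ', mul_assoc]

end J2Aux

open J2Aux

theorem norm_pt (hζ : IsPrimitiveRoot ζ l) {a b : k} (h : b ^ 2 = a ^ l + (s : k) ^ 2) :
    ∏ j ∈ Finset.range l, (pt l s a b).map (sg l s hζ ^ j) = Ideal.span {⟨-C b, 1⟩} := by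
  have e : (((Finset.range l).val.map fun j => ζ⁻¹ ^ j * a).map fun a => X - C a).prod =
      -(C b ^ 2 - FF l s) := by
    rw [Multiset.map_map, ← C_pow, h, FF, C_add]
    refine (X_pow_sub_C_eq_prod hζ.inv l_pos rfl).symm.trans ?_
    ring
  have h1 := mum_split (l := l) (s := s) ((Finset.range l).val.map fun j => ζ⁻¹ ^ j * a)
    (v := C b) (by rw [e]; exact neg_dvd.2 dvd_rfl)
  rw [e, mum_assoc (Associated.refl _).neg_left, mum_full, Multiset.map_map] at h1
  simp only [map_pt_pow]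
  rw [h1]
  simp only [Function.comp_def, eval_C]
  rfl

theorem jsg_iter (hζ : IsPrimitiveRoot ζ l) (j : ℕ) (I : Ideal (CR l s)) :
    (jsg l s hζ)^[j] (cl l I) = cl l (I.map (sg l s hζ ^ j)) := by
  induction j with
  | zero => rw [pow_zero, RingHom.one_def, Ideal.map_id]; rfl
  | succ j ih =>
    rw [Function.iterate_succ_apply', ih, jsg_cl, Ideal.map_map, pow_succ', RingHom.mul_def]

namespace J2Aux

theorem prod_jsg_cl (hζ : IsPrimitiveRoot ζ l) {I : Ideal (CR l s)} (hI : I ≠ ⊥) :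
    ∏ j ∈ Finset.range l, (jsg l s hζ)^[j] (cl l I) = cl l (NI hζ I) := by
  rw [NI, cl_prod _ _ fun j _ => (Ideal.map_eq_bot_iff_of_injective (sg_pow_inj hζ j)).not.2 hI]
  simp only [jsg_iter]

theorem prod_jsg_closed [IsAlgClosed k] (hζ : IsPrimitiveRoot ζ l) (x : Jac l s) :
    ∏ j ∈ Finset.range l, (jsg l s hζ)^[j] x = 1 := by
  obtain ⟨I, hI, rfl, -⟩ := exists_cl_coprime x (N := ⊤) top_ne_bot
  obtain ⟨R, hR, rfl⟩ := ideal_eq_prod_pt hI
  have : ∃ m, NI hζ (R.map fun p => pt l s p.1 p.2).prod = Ideal.span {m} := by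
    clear hI
    induction R using Multiset.induction_on with
    | empty => exact ⟨1, by simpa using NI_top hζ⟩
    | cons p R ih =>
      obtain ⟨m, hm⟩ := ih fun q hq => hR q (Multiset.mem_cons_of_mem hq)
      refine ⟨⟨-C p.2, 1⟩ * m, ?_⟩
      rw [Multiset.map_cons, Multiset.prod_cons, NI_mul, hm, NI,
        norm_pt hζ (hR p (Multiset.mem_cons_self _ _)), Ideal.span_singleton_mul_span_singleton]
  obtain ⟨m, hm⟩ := this
  rw [prod_jsg_cl hζ hI, hm, cl_span]

end J2Aux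

/-- the cyclotomic relation -/
theorem prod_jsg (hζ : IsPrimitiveRoot ζ l) (x : Jac l s) :
    ∏ j ∈ Finset.range l, (jsg l s hζ)^[j] x = 1 := by
  set f := algebraMap k (AlgebraicClosure k)
  have hf : f s = (Units.map (f : k →* AlgebraicClosure k) s : (AlgebraicClosure k)ˣ) := rfl
  have hζ' := hζ.map_of_injective f.injective
  have e : ∀ j : ℕ, jcf l f hf ((jsg l s hζ)^[j] x) = (jsg l _ hζ')^[j] (jcf l f hf x) := fun j => by
    induction j with
    | zero => rfl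
    | succ j ih =>
      rw [Function.iterate_succ_apply', Function.iterate_succ_apply', jcf_jsg f hf hζ hζ' rfl, ih]
  apply jcf_inj f hf
  rw [map_prod, map_one]
  simp only [e]
  exact prod_jsg_closed hζ' _

theorem exists_del (hζ : IsPrimitiveRoot ζ l) (x : Jac l s) : ∃ d, Del l s hζ x d := by
  obtain ⟨I, hI, rfl, h1⟩ := exists_cl_coprime x (N := Ideal.span {⟨X, 0⟩}) (by
    rw [Ne, Ideal.span_singleton_eq_bot]
    exact fun e => X_ne_zero (congrArg QuadraticAlgebra.re e))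
  have h2 := prod_jsg hζ (cl l I)
  have h3 : NI hζ I ≠ ⊥ := Finset.prod_ne_zero_iff.2 fun j _ =>
    (Ideal.map_eq_bot_iff_of_injective (sg_pow_inj hζ j)).not.2 hI
  rw [prod_jsg_cl hζ hI, cl_eq_one_iff h3] at h2
  obtain ⟨m, hm⟩ := h2
  rw [sup_X_iff] at h1
  have h4 := (avoid hζ on_neg hm).2 h1.2
  exact ⟨evp l 0 (s : k) m / evp l 0 (-(s : k)) m, I, m, 1, rfl, one_ne_zero, hm,
    (avoid hζ on_pos hm).2 h1.1, h4, by rw [div_mul_cancel₀ _ h4, one_pow, mul_one]⟩

theorem Del.ne_zero {hζ : IsPrimitiveRoot ζ l} {x : Jac l s} {d : k} (h : Del l s hζ x d) :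
    d ≠ 0 := by
  obtain ⟨I, m, e, -, he, -, h1, -, h2⟩ := h
  rintro rfl
  exact mul_ne_zero h1 (pow_ne_zero l he) (by rw [← h2, zero_mul])

theorem Del.unique {hζ : IsPrimitiveRoot ζ l} {x : Jac l s} {d d' : k} (h : Del l s hζ x d)
    (h' : Del l s hζ x d') : ∃ e : k, e ≠ 0 ∧ d' = d * e ^ l := by
  obtain ⟨I, m, e, hI, he, hm, a1, a2, a3⟩ := h
  obtain ⟨I', m', e', hI', he', hm', b1, b2, b3⟩ := h'
  have n1 := ne_bot hζ hm a1
  have n2 := ne_bot hζ hm' b1
  have h1 := (sup_X_iff I').2 ⟨(avoid hζ on_pos hm').1 b1, (avoid hζ on_neg hm').1 b2⟩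
  obtain ⟨g, hg, w, hw, hgw⟩ := Submodule.mem_sup.1 ((Ideal.eq_top_iff_one _).1 h1)
  obtain ⟨c, rfl⟩ := Ideal.mem_span_singleton'.1 hw
  have g1 : ∀ b : k, b ^ 2 = 0 ^ l + (s : k) ^ 2 → evp l 0 b g = 1 := fun b hb => by
    have := congrArg (evp l 0 b) hgw
    rw [evp_add, evp_mul hb] at this
    simpa [evp, QuadraticAlgebra.re_one, QuadraticAlgebra.im_one] using this
  obtain ⟨A, hA⟩ := Ideal.dvd_iff_le.2 ((Ideal.span_singleton_le_iff_mem _).2 hg)
  have n3 : A ≠ ⊥ := by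
    rintro rfl
    rw [Ideal.mul_bot, Ideal.span_singleton_eq_bot] at hA
    have := g1 _ on_pos
    rw [hA] at this
    simp [evp] at this
  have h2 : cl l (I * A) = 1 := by
    rw [cl_mul n1 n3, hI, ← hI', ← cl_mul n2 n3, ← hA, cl_span]
  obtain ⟨f, hf⟩ := (cl_eq_one_iff (mul_ne_zero n1 n3)).1 h2
  have h3 : Ideal.span {g} * I = Ideal.span {f} * I' := by rw [hA, ← hf]; ring
  have h4 := congrArg (NI hζ) h3
  rw [NI_mul, NI_mul, NI_span, NI_span, NI, NI, hm, hm', Ideal.span_singleton_mul_span_singleton,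
    Ideal.span_singleton_mul_span_singleton, Ideal.span_singleton_eq_span_singleton] at h4
  obtain ⟨u, hu⟩ := h4
  obtain ⟨c', hc', hu'⟩ := unit_const u.isUnit
  have key : ∀ b : k, b ^ 2 = 0 ^ l + (s : k) ^ 2 →
      evp l 0 b m * c' = evp l 0 b f ^ l * evp l 0 b m' := fun b hb => by
    have := congrArg (evp l 0 b) hu
    rw [evp_mul hb, evp_mul hb, evp_mul hb, evp_NE hζ hb, evp_NE hζ hb, g1 b hb, one_pow, one_mul,
      hu'] at this
    simpa [evp] using this
  have k1 := key _ on_pos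
  have k2 := key _ on_neg
  have f1 : evp l 0 (s : k) f ≠ 0 := fun h0 => by
    rw [h0, zero_pow l_pos.ne', zero_mul] at k1
    exact mul_ne_zero a1 hc' k1
  have f2 : evp l 0 (-(s : k)) f ≠ 0 := fun h0 => by
    rw [h0, zero_pow l_pos.ne', zero_mul] at k2
    exact mul_ne_zero a2 hc' k2
  refine ⟨e' * evp l 0 (-(s : k)) f / (e * evp l 0 (s : k) f), by positivity, ?_⟩
  have p1 := pow_ne_zero l he
  have p2 := pow_ne_zero l f1
  rw [div_pow, mul_pow, mul_pow, ← mul_div_assoc, eq_div_iff (mul_ne_zero p1 p2)]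
  apply mul_right_cancel₀ b2
  linear_combination (e ^ l * evp l 0 (s : k) f ^ l) * b3 - e ^ l * e' ^ l * k1 -
    e' ^ l * c' * a3 + d * e' ^ l * k2

theorem Del.scale {hζ : IsPrimitiveRoot ζ l} {x : Jac l s} {d : k} (h : Del l s hζ x d) {e : k}
    (he : e ≠ 0) : Del l s hζ x (d * e ^ l) := by
  obtain ⟨I, m, e', hI, he', hm, a1, a2, a3⟩ := h
  refine ⟨I, m, e' * e, hI, mul_ne_zero he' he, hm, a1, a2, ?_⟩
  rw [mul_pow]
  linear_combination e ^ l * a3

theorem del_one (hζ : IsPrimitiveRoot ζ l) : Del l s hζ 1 1 := by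
  have e : ∀ b : k, evp l 0 b (1 : CR l s) = 1 := fun b => by
    simp [evp, QuadraticAlgebra.re_one, QuadraticAlgebra.im_one]
  exact ⟨⊤, 1, 1, cl_top, one_ne_zero, NI_top hζ, by simp [e], by simp [e], by simp [e]⟩

theorem Del.mul {hζ : IsPrimitiveRoot ζ l} {x y : Jac l s} {d d' : k} (h : Del l s hζ x d)
    (h' : Del l s hζ y d') : Del l s hζ (x * y) (d * d') := by
  obtain ⟨I, m, e, hI, he, hm, a1, a2, a3⟩ := h
  obtain ⟨I', m', e', hI', he', hm', b1, b2, b3⟩ := h'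
  refine ⟨I * I', m * m', e * e', ?_, mul_ne_zero he he', (NI_mul hζ I I').trans ?_, ?_, ?_, ?_⟩
  · rw [cl_mul (ne_bot hζ hm a1) (ne_bot hζ hm' b1), hI, hI']
  · rw [NI, NI, hm, hm', Ideal.span_singleton_mul_span_singleton]
  · rw [evp_mul on_pos]; exact mul_ne_zero a1 b1
  · rw [evp_mul on_neg]; exact mul_ne_zero a2 b2
  · rw [evp_mul on_pos, evp_mul on_neg, mul_pow, mul_mul_mul_comm, a3, b3]; ring

theorem Del.inv {hζ : IsPrimitiveRoot ζ l} {x : Jac l s} {d : k} (h : Del l s hζ x d) :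
    Del l s hζ x⁻¹ d⁻¹ := by
  obtain ⟨d', h'⟩ := exists_del hζ x⁻¹
  have h1 := h.mul h'
  rw [mul_inv_cancel] at h1
  obtain ⟨e, he, h2⟩ := h1.unique (del_one hζ)
  rw [inv_eq_of_mul_eq_one_right (a := d) (b := d' * e ^ l) (by rw [h2, mul_assoc])]
  exact h'.scale he

theorem Del.pow {hζ : IsPrimitiveRoot ζ l} {x : Jac l s} {d : k} (h : Del l s hζ x d) (n : ℕ) :
    Del l s hζ (x ^ n) (d ^ n) := by
  induction n with
  | zero => simpa using del_one hζ
  | succ n ih => rw [pow_succ, pow_succ]; exact ih.mul h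

theorem Del.prod {hζ : IsPrimitiveRoot ζ l} {ι : Type} (T : Finset ι) {x : ι → Jac l s}
    {d : ι → k} (h : ∀ i ∈ T, Del l s hζ (x i) (d i)) :
    Del l s hζ (∏ i ∈ T, x i) (∏ i ∈ T, d i) := by
  induction T using Finset.cons_induction with
  | empty => simpa using del_one hζ
  | cons i T hi ih =>
    rw [Finset.prod_cons, Finset.prod_cons]
    exact (h i (Finset.mem_cons_self _ _)).mul (ih fun j hj => h j (Finset.mem_cons_of_mem hj))

theorem Del.sg {hζ : IsPrimitiveRoot ζ l} {x : Jac l s} {d : k} (h : Del l s hζ x d) :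
    Del l s hζ (jsg l s hζ x) d := by
  obtain ⟨I, m, e, rfl, he, hm, a1, a2, a3⟩ := h
  refine ⟨I.map (Full.sg l s hζ), Full.sg l s hζ m, e, (jsg_cl hζ I).symm, he,
    (NI_map hζ hζ _ (fun _ => rfl) I).trans ?_, ?_, ?_, ?_⟩
  · rw [NI, hm, Ideal.map_span, Set.image_singleton]
  all_goals simpa only [evp_sg, mul_zero]

theorem Del.cf {hζ : IsPrimitiveRoot ζ l} {x : Jac l s} {d : k} (h : Del l s hζ x d)
    (f : k →+* k') (hf : f s = s') {ζ' : k'} (hζ' : IsPrimitiveRoot ζ' l) (e : f ζ = ζ') :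
    Del l s' hζ' (jcf l f hf x) (f d) := by
  obtain ⟨I, m, c, rfl, hc, hm, a1, a2, a3⟩ := h
  have e1 := evp_cf f hf 0 (s : k) m
  have e2 := evp_cf f hf 0 (-(s : k)) m
  rw [map_zero, hf] at e1
  rw [map_zero, map_neg, hf] at e2
  refine ⟨I.map (Full.cf l f hf), Full.cf l f hf m, f c, (jcf_cl f hf I).symm,
    (map_ne_zero f).2 hc, (NI_map hζ hζ' _ (cf_sg f hf hζ hζ' e) I).trans ?_, ?_, ?_, ?_⟩
  · rw [NI, hm, Ideal.map_span, Set.image_singleton]
  · rw [e1]; exact (map_ne_zero f).2 a1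
  · rw [e2]; exact (map_ne_zero f).2 a2
  · rw [e1, e2, ← map_mul, a3, map_mul, map_pow]

theorem del_pt (hζ : IsPrimitiveRoot ζ l) {a b : k} (h : b ^ 2 = a ^ l + (s : k) ^ 2)
    (ha : a ≠ 0) : Del l s hζ (cl l (pt l s a b)) ((b - s) / (b + s)) := by
  have h1 : (b - s) * (b + s) ≠ 0 := by
    rw [show (b - s) * (b + s) = a ^ l by linear_combination h]
    exact pow_ne_zero l ha
  have h2 := left_ne_zero_of_mul h1
  have h3 := right_ne_zero_of_mul h1
  have e : ∀ c : k, evp l 0 c (⟨-C b, 1⟩ : CR l s) = -(b - c) := fun c => by simp [evp]; ring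
  refine ⟨pt l s a b, ⟨-C b, 1⟩, 1, rfl, one_ne_zero, norm_pt hζ h, ?_, ?_, ?_⟩
  · rw [e]; exact neg_ne_zero.2 h2
  · rw [e, sub_neg_eq_add]; exact neg_ne_zero.2 h3
  · rw [e, e, sub_neg_eq_add, mul_neg, div_mul_cancel₀ _ h3, one_pow, mul_one]

namespace J2Aux

theorem NE_line (hζ : IsPrimitiveRoot ζ l) :
    NE hζ (⟨-(X - C (s : k)), 1⟩ : CR l s) =
      ⟨-C (-(s : k)), 1⟩ * (⟨C (s : k), 1⟩ ^ (l - 1) - ⟨-C (s : k), 1⟩) := by
  have h1 : ∀ j : ℕ, (sg l s hζ ^ j) (⟨-(X - C (s : k)), 1⟩ : CR l s) =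
      ⟨C (s : k), 1⟩ - algebraMap k[X] (CR l s) (C ζ) ^ j * ⟨X, 0⟩ := fun j => by
    rw [← map_pow, QuadraticAlgebra.algebraMap_eq]
    induction j with
    | zero => ext1 <;> simp
    | succ j ih =>
      rw [pow_succ', RingHom.mul_def, RingHom.comp_apply, ih]
      ext1 <;> simp [sg, rmap_re, rmap_im, pow_succ, mul_assoc]
  have h2 : IsPrimitiveRoot (algebraMap k[X] (CR l s) (C ζ)) l :=
    (hζ.map_of_injective C_injective).map_of_injective QuadraticAlgebra.algebraMap_injective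
  have h3 := congrArg (eval (⟨C (s : k), 1⟩ : CR l s))
    (X_pow_sub_C_eq_prod h2 l_pos (α := ⟨X, 0⟩) rfl)
  simp only [eval_sub, eval_pow, eval_X, eval_C, eval_prod] at h3
  have h4 : (⟨X, 0⟩ : CR l s) ^ l = ⟨C (s : k), 1⟩ * ⟨-C (s : k), 1⟩ := by
    rw [← QuadraticAlgebra.algebraMap_eq, ← map_pow, QuadraticAlgebra.algebraMap_eq]
    ext1
    · rw [QuadraticAlgebra.re_mul]; simp [FF]; ring
    · rw [QuadraticAlgebra.im_mul]; simp
  rw [NE]
  simp only [h1]
  rw [← h3, h4, C_neg, neg_neg, mul_sub, ← pow_succ', Nat.sub_add_cancel l_pos]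

end J2Aux

theorem del_T (hζ : IsPrimitiveRoot ζ l) : Del l s hζ (jT l s) ((2 * (s : k)) ^ 2)⁻¹ := by
  have hl : 2 < l := Fact.out
  have hs : 2 * (s : k) ≠ 0 := mul_ne_zero two_ne_zero s.ne_zero
  have e1 : (X - C (0 : k)) * -(X ^ (l - 1) - X + C (2 * (s : k))) =
      (X - C (s : k)) ^ 2 - FF l s := by
    have : (X : k[X]) ^ l = X * X ^ (l - 1) := by rw [← pow_succ', Nat.sub_add_cancel l_pos]
    rw [FF, this, C_mul, C_pow, C_0, map_ofNat]; ring
  have h1 := mum_mul (l := l) (s := s) e1.dvd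
  rw [e1, mum_full, mum_congr (v' := C (-(s : k))) (by simp), ← pt] at h1
  have h2 := congrArg (cl l) h1
  rw [cl_mul (I := pt l s 0 (-(s : k))) (mum_ne_bot _ _) (mum_ne_bot _ _), cl_span,
    cl_pt_neg on_pos, inv_mul_eq_one] at h2
  have h3 := congrArg (NI hζ) h1
  rw [NI_mul, NI_span, NE_line, NI, norm_pt hζ on_neg,
    ← Ideal.span_singleton_mul_span_singleton] at h3
  have h4 := mul_left_cancel₀ (by
    rw [Ne, Ideal.zero_eq_bot, Ideal.span_singleton_eq_bot]
    exact fun e => one_ne_zero (congrArg QuadraticAlgebra.im e)) h3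
  have e : ∀ b : k, b ^ 2 = 0 ^ l + (s : k) ^ 2 →
      evp l 0 b (⟨C (s : k), 1⟩ ^ (l - 1) - ⟨-C (s : k), 1⟩ : CR l s) =
        (s + b) ^ (l - 1) - (b - s) := fun b hb => by
    obtain ⟨φ, hφ⟩ := exists_evHom hb
    rw [← hφ, map_sub, map_pow, hφ, hφ]
    simp [evp]; ring
  have e2 := e _ on_pos
  have e3 := e _ on_neg
  rw [sub_self, sub_zero, ← two_mul] at e2
  rw [add_neg_cancel, zero_pow (by omega), show (0 : k) - (-s - s) = 2 * s by ring] at e3
  refine ⟨_, _, (2 * (s : k))⁻¹, h2.symm, inv_ne_zero hs, h4, e2 ▸ pow_ne_zero _ hs, e3 ▸ hs, ?_⟩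
  rw [e2, e3, inv_pow, show (2 * (s : k)) ^ l = (2 * s) ^ (l - 1) * (2 * s) by
    rw [← pow_succ, Nat.sub_add_cancel l_pos]]
  have := pow_ne_zero (l - 1) hs
  field_simp

end Pool.Agent.MP_14ad9d_nt.Full

end

section

set_option autoImplicit false

open Polynomial

namespace Pool.Agent.MP_14ad9d_nt.Full

namespace J3Aux

section Height

variable {k σ : Type} [Field k] [DecidableEq σ]

/-- kill the variables in `T` -/
noncomputable def kill (k : Type) [Field k] (T : Finset σ) :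
    MvPolynomial σ k →ₐ[k] MvPolynomial σ k :=
  MvPolynomial.aeval fun i => if i ∈ T then 0 else MvPolynomial.X i

theorem kill_comp {T T' : Finset σ} (h : T ⊆ T') : (kill k T').comp (kill k T) = kill k T' := by
  refine MvPolynomial.algHom_ext fun i => ?_
  by_cases hi : i ∈ T
  · simp [kill, hi, h hi]
  · simp [kill, hi]

theorem card_le_height (T : Finset σ) :
    (T.card : ℕ∞) ≤ (RingHom.ker (kill k T)).height := by
  induction T using Finset.induction_on with
  | empty => simp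
  | insert a T ha ih =>
    have := RingHom.ker_isPrime (kill k T)
    have := RingHom.ker_isPrime (kill k (insert a T))
    have hlt : RingHom.ker (kill k T) < RingHom.ker (kill k (insert a T)) := by
      refine lt_of_le_of_ne (fun p hp => ?_) fun he => ?_
      · rw [RingHom.mem_ker] at hp ⊢
        rw [← kill_comp (Finset.subset_insert a T), AlgHom.comp_apply, hp, map_zero]
      · have h1 : MvPolynomial.X a ∈ RingHom.ker (kill k (insert a T)) := by
          simp [RingHom.mem_ker, kill]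
        rw [← he] at h1
        simp [RingHom.mem_ker, kill, ha] at h1
    rw [Finset.card_insert_of_notMem ha, Nat.cast_add, Nat.cast_one]
    exact (add_le_add_left ih 1).trans (Ideal.height_add_one_le_of_lt_of_isPrime hlt)

end Height

theorem prod_shift {M : Type*} [CommMonoid M] (f : ℕ → M) {n : ℕ} (hn : n ≠ 0) (h : f n = f 0) :
    ∏ j ∈ Finset.range n, f (j + 1) = ∏ j ∈ Finset.range n, f j := by
  obtain ⟨m, rfl⟩ := Nat.exists_eq_succ_of_ne_zero hn
  rw [Finset.prod_range_succ, Finset.prod_range_succ' f, h]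

theorem iter_eq {G : Type*} [CommGroup G] (φ : G →* G) (x : G) (n : ℕ) :
    ∃ w, φ^[n] x = x * (φ w / w) := by
  induction n with
  | zero => exact ⟨1, by simp⟩
  | succ n ih =>
    obtain ⟨w, hw⟩ := ih
    refine ⟨w * φ^[n] x, ?_⟩
    rw [Function.iterate_succ_apply', map_mul, mul_div_mul_comm, ← mul_assoc, ← hw,
      mul_div_cancel]

section Pol

variable {k σ : Type} [Field k]

/-- polynomial functions -/
noncomputable def PF (k σ : Type) [Field k] : Subring ((σ → k) → k) :=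
  (RingHom.pi fun c : σ → k => MvPolynomial.eval c).range

theorem PF_const (r : k) : (fun _ => r) ∈ PF k σ :=
  ⟨MvPolynomial.C r, funext fun c => MvPolynomial.eval_C (f := c) r⟩

theorem PF_var (v : σ) : (fun c => c v) ∈ PF k σ :=
  ⟨MvPolynomial.X v, funext fun c => MvPolynomial.eval_X (f := c) v⟩

/-- families of polynomials with polynomial coefficients -/
def PP (Φ : (σ → k) → k[X]) : Prop := ∀ n, (fun c => (Φ c).coeff n) ∈ PF k σ

theorem PP.const (p : k[X]) : PP fun _ : σ → k => p := fun _ => PF_const _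

theorem PP.add {Φ Ψ : (σ → k) → k[X]} (h : PP Φ) (h' : PP Ψ) : PP fun c => Φ c + Ψ c := by
  intro n
  simp only [coeff_add]
  exact (PF k σ).add_mem (h n) (h' n)

theorem PP.sub {Φ Ψ : (σ → k) → k[X]} (h : PP Φ) (h' : PP Ψ) : PP fun c => Φ c - Ψ c := by
  intro n
  simp only [coeff_sub]
  exact (PF k σ).sub_mem (h n) (h' n)

theorem PP.mul {Φ Ψ : (σ → k) → k[X]} (h : PP Φ) (h' : PP Ψ) : PP fun c => Φ c * Ψ c := by
  intro n
  have : (fun c => (Φ c * Ψ c).coeff n) = ∑ x ∈ Finset.HasAntidiagonal.antidiagonal n,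
      (fun c => (Φ c).coeff x.1) * fun c => (Ψ c).coeff x.2 := by
    funext c
    rw [coeff_mul, Finset.sum_apply]
    rfl
  rw [this]
  exact (PF k σ).sum_mem fun x _ => (PF k σ).mul_mem (h _) (h' _)

theorem PP.comp {Φ : (σ → k) → k[X]} (h : PP Φ) (r : k) :
    PP fun c => (Φ c).comp (C r * X) := by
  intro n
  simp only [comp_C_mul_X_coeff]
  exact (PF k σ).mul_mem (h n) (PF_const _)

/-- the generic polynomial -/
noncomputable def gen {τ : Type} {D : ℕ} (t : τ) (c : τ × Fin (D + 1) → k) : k[X] :=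
  ∑ i : Fin (D + 1), C (c (t, i)) * X ^ (i : ℕ)

theorem gen_coeff {τ : Type} {D : ℕ} (t : τ) (c : τ × Fin (D + 1) → k) (n : ℕ) :
    (gen t c).coeff n = if h : n < D + 1 then c (t, ⟨n, h⟩) else 0 := by
  simp only [gen, finsetSum_coeff, coeff_C_mul_X_pow]
  split_ifs with h
  · rw [Finset.sum_eq_single ⟨n, h⟩ (fun i _ hi => if_neg fun e => hi (Fin.ext e.symm))
      (by simp), if_pos rfl]
  · exact Finset.sum_eq_zero fun i _ => if_neg fun e : n = i => h (e ▸ i.2)

theorem gen_PP {τ : Type} {D : ℕ} (t : τ) : PP (gen (k := k) (D := D) t) := by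
  intro n
  simp only [gen_coeff]
  split_ifs with h
  · exact PF_var _
  · exact PF_const _

theorem gen_deg {τ : Type} {D : ℕ} (t : τ) (c : τ × Fin (D + 1) → k) :
    (gen t c).natDegree ≤ D :=
  natDegree_le_iff_coeff_eq_zero.2 fun n hn => by rw [gen_coeff, dif_neg (by omega)]

theorem gen_eq_zero {τ : Type} {D : ℕ} {t : τ} {c : τ × Fin (D + 1) → k} (h : gen t c = 0)
    (i : Fin (D + 1)) : c (t, i) = 0 := by
  have := gen_coeff t c i
  rw [h, coeff_zero, dif_pos i.2] at this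
  exact this.symm

theorem gen_zero {τ : Type} {D : ℕ} (t : τ) : gen (k := k) (D := D) t 0 = 0 := by
  simp [gen]

theorem inv_eq_zero {l : ℕ} {ζ : k} (hζ : IsPrimitiveRoot ζ l) {p : k[X]} {E : ℕ}
    (h1 : p.comp (C ζ * X) = p) (h2 : p.natDegree ≤ l * E) (hl : 0 < l)
    (h3 : ∀ i < E + 1, p.coeff (l * i) = 0) : p = 0 := by
  ext n
  rw [coeff_zero]
  by_cases hn : l ∣ n
  · obtain ⟨i, rfl⟩ := hn
    by_cases hi : i < E + 1
    · exact h3 i hi
    · exact coeff_eq_zero_of_natDegree_lt (h2.trans_lt (Nat.mul_lt_mul_of_pos_left (by omega) hl))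
  · have h4 := comp_C_mul_X_coeff (p := p) (r := ζ) (n := n)
    rw [h1] at h4
    have h5 : ζ ^ n ≠ 1 := fun e => hn ((hζ.pow_eq_one_iff_dvd n).1 e)
    by_contra h6
    exact h5 (mul_left_cancel₀ h6 (h4.symm.trans (mul_one _).symm))

end Pol

variable {l : ℕ} [Fact l.Prime] [Fact (2 < l)] {k : Type} [Field k] [CharZero k] {s : kˣ} {ζ : k}

/-- families of functions with polynomial coefficients -/
def PC {σ : Type} (Φ : (σ → k) → CR l s) : Prop := PP (fun c => (Φ c).re) ∧ PP fun c => (Φ c).im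

omit [Fact l.Prime] [Fact (2 < l)] [CharZero k] in
theorem PC.const {σ : Type} (z : CR l s) : PC fun _ : σ → k => z := ⟨PP.const _, PP.const _⟩

omit [Fact l.Prime] [Fact (2 < l)] [CharZero k] in
theorem PC.sub {σ : Type} {Φ Ψ : (σ → k) → CR l s} (h : PC Φ) (h' : PC Ψ) :
    PC fun c => Φ c - Ψ c := ⟨h.1.sub h'.1, h.2.sub h'.2⟩

omit [Fact l.Prime] [Fact (2 < l)] [CharZero k] in
theorem PC.mul {σ : Type} {Φ Ψ : (σ → k) → CR l s} (h : PC Φ) (h' : PC Ψ) :
    PC fun c => Φ c * Ψ c := by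
  constructor
  · simp only [QuadraticAlgebra.re_mul]
    exact (h.1.mul h'.1).add (((PP.const _).mul h.2).mul h'.2)
  · simp only [QuadraticAlgebra.im_mul]
    exact ((h.1.mul h'.2).add (h.2.mul h'.1)).add (((PP.const _).mul h.2).mul h'.2)

omit [Fact l.Prime] [Fact (2 < l)] [CharZero k] in
theorem PC.sg (hζ : IsPrimitiveRoot ζ l) {σ : Type} {Φ : (σ → k) → CR l s} (h : PC Φ) (j : ℕ) :
    PC fun c => (sg l s hζ ^ j) (Φ c) := by
  induction j with
  | zero => exact h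
  | succ j ih =>
    simp only [pow_succ', RingHom.mul_def, RingHom.comp_apply]
    exact ⟨ih.1.comp ζ, ih.2.comp ζ⟩

/-- the norm of a function -/
noncomputable def nf (hζ : IsPrimitiveRoot ζ l) (n : ℕ) (z : CR l s) : CR l s :=
  ∏ j ∈ Finset.range n, (sg l s hζ ^ j) z

omit [Fact l.Prime] [Fact (2 < l)] [CharZero k] in
theorem PC.nf (hζ : IsPrimitiveRoot ζ l) {σ : Type} {Φ : (σ → k) → CR l s} (h : PC Φ) (n : ℕ) :
    PC fun c => nf hζ n (Φ c) := by
  induction n with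
  | zero => exact PC.const 1
  | succ n ih =>
    simp only [J3Aux.nf, Finset.prod_range_succ]
    exact ih.mul (h.sg hζ n)

/-- degree bound -/
def Dg (d : ℕ) (z : CR l s) : Prop := z.re.natDegree ≤ d ∧ z.im.natDegree ≤ d

omit [Fact (2 < l)] [CharZero k] in
theorem Dg.mul {d e : ℕ} {z w : CR l s} (h : Dg d z) (h' : Dg e w) : Dg (d + e + l) (z * w) := by
  have hF := (FF_natDegree l s).le
  constructor
  · rw [QuadraticAlgebra.re_mul]
    refine natDegree_add_le_of_degree_le ((natDegree_mul_le_of_le h.1 h'.1).trans (by omega))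
      ((natDegree_mul_le_of_le (natDegree_mul_le_of_le hF h.2) h'.2).trans (by omega))
  · rw [QuadraticAlgebra.im_mul, zero_mul, zero_mul, add_zero]
    exact natDegree_add_le_of_degree_le ((natDegree_mul_le_of_le h.1 h'.2).trans (by omega))
      ((natDegree_mul_le_of_le h.2 h'.1).trans (by omega))

omit [Fact l.Prime] [Fact (2 < l)] [CharZero k] in
theorem Dg.sg (hζ : IsPrimitiveRoot ζ l) {d : ℕ} {z : CR l s} (h : Dg d z) (j : ℕ) :
    Dg d ((sg l s hζ ^ j) z) := by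
  have key : ∀ p : k[X], (p.comp (C ζ * X)).natDegree ≤ p.natDegree := fun p =>
    natDegree_le_iff_coeff_eq_zero.2 fun n hn => by
      rw [comp_C_mul_X_coeff, coeff_eq_zero_of_natDegree_lt hn, zero_mul]
  induction j with
  | zero => exact h
  | succ j ih =>
    rw [pow_succ', RingHom.mul_def, RingHom.comp_apply]
    exact ⟨(key _).trans ih.1, (key _).trans ih.2⟩

omit [Fact (2 < l)] [CharZero k] in
theorem Dg.nf (hζ : IsPrimitiveRoot ζ l) {d : ℕ} {z : CR l s} (h : Dg d z) (n : ℕ) :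
    Dg (n * (d + l)) (nf hζ n z) := by
  induction n with
  | zero => constructor <;> simp [J3Aux.nf, QuadraticAlgebra.re_one, QuadraticAlgebra.im_one]
  | succ n ih =>
    rw [J3Aux.nf, Finset.prod_range_succ, Nat.succ_mul, ← add_assoc]
    exact ih.mul (h.sg hζ n)

theorem sg_nf (hζ : IsPrimitiveRoot ζ l) (z : CR l s) : sg l s hζ (nf hζ l z) = nf hζ l z := by
  rw [nf, map_prod, ← prod_shift (fun j => (sg l s hζ ^ j) z) (Fact.out : l.Prime).ne_zero
    (by simp only [sg_pow, pow_zero])]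
  refine Finset.prod_congr rfl fun j _ => ?_
  rw [pow_succ', RingHom.mul_def, RingHom.comp_apply]

omit [Fact (2 < l)] [CharZero k] in
theorem sg_pow_inj (hζ : IsPrimitiveRoot ζ l) (j : ℕ) :
    Function.Injective (sg l s hζ ^ j : CR l s →+* CR l s) := by
  rw [RingHom.coe_pow]
  exact (sg_inj l s hζ).iterate j

omit [CharZero k] in
theorem nf_eq_zero (hζ : IsPrimitiveRoot ζ l) {z : CR l s} : nf hζ l z = 0 ↔ z = 0 := by
  rw [nf, Finset.prod_eq_zero_iff]
  constructor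
  · rintro ⟨j, _, hj⟩
    exact (map_eq_zero_iff _ (sg_pow_inj hζ j)).1 hj
  · rintro rfl
    exact ⟨0, Finset.mem_range.2 (Fact.out : l.Prime).pos, map_zero _⟩

/-- the norm of an ideal -/
noncomputable def nm (hζ : IsPrimitiveRoot ζ l) (I : Ideal (CR l s)) : Ideal (CR l s) :=
  ∏ j ∈ Finset.range l, I.map (sg l s hζ ^ j)

omit [Fact l.Prime] [Fact (2 < l)] [CharZero k] in
theorem nm_mul (hζ : IsPrimitiveRoot ζ l) (I J : Ideal (CR l s)) :
    nm hζ (I * J) = nm hζ I * nm hζ J := by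
  simp only [nm, Ideal.map_mul, Finset.prod_mul_distrib]

omit [Fact l.Prime] [Fact (2 < l)] [CharZero k] in
theorem nm_span (hζ : IsPrimitiveRoot ζ l) (z : CR l s) :
    nm hζ (Ideal.span {z}) = Ideal.span {nf hζ l z} := by
  simp only [nm, nf, Ideal.map_span, Set.image_singleton, Ideal.prod_span_singleton]

theorem nm_map (hζ : IsPrimitiveRoot ζ l) (I : Ideal (CR l s)) (n : ℕ) :
    nm hζ (I.map (sg l s hζ ^ n)) = nm hζ I := by
  induction n with
  | zero => rw [pow_zero, RingHom.one_def, Ideal.map_id]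
  | succ n ih =>
    rw [← ih, nm, nm, ← prod_shift (fun j => (I.map (sg l s hζ ^ n)).map (sg l s hζ ^ j))
      (Fact.out : l.Prime).ne_zero (by simp only [sg_pow, pow_zero])]
    refine Finset.prod_congr rfl fun j _ => ?_
    rw [Ideal.map_map, Ideal.map_map, ← RingHom.mul_def, ← RingHom.mul_def, ← pow_add, ← pow_add]
    congr 2
    omega

omit [CharZero k] in
theorem nm_ne_zero (hζ : IsPrimitiveRoot ζ l) {I : Ideal (CR l s)} (hI : I ≠ ⊥) :
    nm hζ I ≠ 0 :=
  Finset.prod_ne_zero_iff.2 fun j _ =>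
    (Ideal.map_eq_bot_iff_of_injective (sg_pow_inj hζ j)).not.2 hI

end J3Aux

open J3Aux

variable {l : ℕ} [Fact l.Prime] [Fact (2 < l)] {k : Type} [Field k] [CharZero k] {s : kˣ} {ζ : k}

/-- fewer equations than unknowns have a second solution -/
theorem exists_ne_zero [IsAlgClosed k] {σ ι : Type} [Fintype σ] [Fintype ι]
    (h : Fintype.card ι < Fintype.card σ) (p : ι → MvPolynomial σ k)
    (h0 : ∀ i, MvPolynomial.eval 0 (p i) = 0) :
    ∃ c : σ → k, c ≠ 0 ∧ ∀ i, MvPolynomial.eval c (p i) = 0 := by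
  classical
  by_contra hcon
  push Not at hcon
  set I : Ideal (MvPolynomial σ k) := Ideal.span (Finset.univ.image p : Finset _) with hI
  have hz : MvPolynomial.zeroLocus k I = {0} := by
    rw [hI, MvPolynomial.zeroLocus_span]
    ext c
    simp only [Finset.coe_image, Finset.coe_univ, Set.image_univ, Set.forall_mem_range,
      Set.mem_ofPred_eq, Set.mem_singleton_iff, MvPolynomial.aeval_eq_eval]
    constructor
    · intro hc
      by_contra hne
      obtain ⟨i, hi⟩ := hcon c hne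
      exact hi (hc i)
    · rintro rfl
      exact h0
  have hr := MvPolynomial.vanishingIdeal_zeroLocus_eq_radical (K := k) I
  rw [hz] at hr
  have hm : MvPolynomial.vanishingIdeal k {(0 : σ → k)} ∈ I.minimalPrimes := by
    refine ⟨⟨inferInstance, hr ▸ Ideal.le_radical⟩, fun q hq _ => ?_⟩
    rw [hr]
    exact hq.1.radical_le_iff.2 hq.2
  have h1 := Ideal.height_le_card_of_mem_minimalPrimes_span_finset hm
  have h2 : RingHom.ker (kill k (Finset.univ : Finset σ)) ≤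
      MvPolynomial.vanishingIdeal k {(0 : σ → k)} := by
    intro q hq
    rw [MvPolynomial.mem_vanishingIdeal_singleton_iff]
    have e : (MvPolynomial.aeval (0 : σ → k)).comp (kill k (Finset.univ : Finset σ)) =
        MvPolynomial.aeval (0 : σ → k) := MvPolynomial.algHom_ext fun i => by simp [kill]
    rw [← e, AlgHom.comp_apply, RingHom.mem_ker.1 hq, map_zero]
  have h3 := ((card_le_height (k := k) (Finset.univ : Finset σ)).trans
    (Ideal.height_mono h2)).trans h1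
  have h4 : (Finset.univ : Finset σ).card ≤ (Finset.univ.image p).card := by exact_mod_cast h3
  have h5 := Finset.card_image_le (s := Finset.univ) (f := p)
  simp only [Finset.card_univ] at h4 h5
  omega

/-- ideals with the same norm -/
theorem cl_of_norm_eq (hζ : IsPrimitiveRoot ζ l) {I J : Ideal (CR l s)} (hI : I ≠ ⊥)
    (h : ∏ j ∈ Finset.range l, I.map (sg l s hζ ^ j) =
      ∏ j ∈ Finset.range l, J.map (sg l s hζ ^ j)) :
    ∃ z : Jac l s, cl l I = cl l J * (jsg l s hζ z / z) := by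
  change nm hζ I = nm hζ J at h
  induction I using UniqueFactorizationMonoid.induction_on_prime generalizing J with
  | h₁ => exact absurd rfl hI
  | h₂ I hu =>
    have h1 : I = ⊤ := Ideal.isUnit_iff.1 hu
    have h2 : nm hζ J = ⊤ := by
      rw [← h, h1, nm]
      simp [Ideal.map_top]
    have h3 : J.map (sg l s hζ ^ 0) ∣ nm hζ J :=
      Finset.dvd_prod_of_mem (fun j => J.map (sg l s hζ ^ j))
        (Finset.mem_range.2 (Fact.out : l.Prime).pos)
    rw [h2, pow_zero, RingHom.one_def, Ideal.map_id, Ideal.dvd_iff_le, top_le_iff] at h3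
    exact ⟨1, by simp [h1, h3]⟩
  | h₃ I P hI0 hP ih =>
    have h1 : P ∣ nm hζ J := by
      rw [← h]
      refine (dvd_mul_right P I).trans ?_
      have := Finset.dvd_prod_of_mem (fun j => (P * I).map (sg l s hζ ^ j))
        (Finset.mem_range.2 (Fact.out : l.Prime).pos)
      rwa [pow_zero, RingHom.one_def, Ideal.map_id] at this
    obtain ⟨j, hj, K, hK⟩ := hP.exists_mem_finset_dvd h1
    have h2 : J = P.map (sg l s hζ ^ (l - j)) * K.map (sg l s hζ ^ (l - j)) := by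
      rw [← Ideal.map_mul, ← hK, Ideal.map_map, ← RingHom.mul_def, ← pow_add,
        Nat.sub_add_cancel (Finset.mem_range.1 hj).le, sg_pow, RingHom.one_def, Ideal.map_id]
    have hP0 : P ≠ ⊥ := hP.ne_zero
    have h3 : nm hζ I = nm hζ (K.map (sg l s hζ ^ (l - j))) := by
      rw [h2, nm_mul, nm_mul, nm_map hζ P] at h
      exact mul_left_cancel₀ (nm_ne_zero hζ hP0) h
    have hK0 : K.map (sg l s hζ ^ (l - j)) ≠ ⊥ := by
      intro e
      refine nm_ne_zero hζ hI0 ?_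
      rw [h3, e, nm]
      exact Finset.prod_eq_zero (Finset.mem_range.2 (Fact.out : l.Prime).pos) Ideal.map_bot
    obtain ⟨z, hz⟩ := ih hI0 h3
    obtain ⟨w, hw⟩ := iter_eq (jsg l s hζ) (cl l P) (l - j)
    refine ⟨z / w, ?_⟩
    rw [h2, cl_mul hP0 hI0, cl_mul ((Ideal.map_eq_bot_iff_of_injective
      (sg_pow_inj hζ _)).not.2 hP0) hK0, ← jsg_iter, hw, hz, _root_.map_div]
    simp only [div_eq_mul_inv, mul_inv_rev, inv_inv]
    generalize jsg l s hζ w = a
    generalize jsg l s hζ z = b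
    generalize cl l (K.map (sg l s hζ ^ (l - j))) = c
    generalize cl l P = d
    calc d * (c * (b * z⁻¹)) = d * (c * (b * z⁻¹)) * ((a * a⁻¹) * (w * w⁻¹)) := by simp
      _ = _ := by ac_rfl

theorem J3Aux.tsen [IsAlgClosed k] (hζ : IsPrimitiveRoot ζ l) (b : k) :
    ∃ f g : CR l s, g ≠ 0 ∧ nf hζ l f = ⟨-C b, 1⟩ * nf hζ l g := by
  have hl := (Fact.out : l.Prime).pos
  let f : (Fin 4 × Fin (l + 1 + 1) → k) → CR l s := fun c => ⟨gen 0 c, gen 1 c⟩
  let g : (Fin 4 × Fin (l + 1 + 1) → k) → CR l s := fun c => ⟨gen 2 c, gen 3 c⟩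
  let H : (Fin 4 × Fin (l + 1 + 1) → k) → CR l s := fun c =>
    nf hζ l (f c) - ⟨-C b, 1⟩ * nf hζ l (g c)
  have hf : PC f := ⟨gen_PP 0, gen_PP 1⟩
  have hg : PC g := ⟨gen_PP 2, gen_PP 3⟩
  have hH : PC H := (hf.nf hζ l).sub ((PC.const _).mul (hg.nf hζ l))
  choose P1 hP1 using hH.1
  choose P2 hP2 using hH.2
  have e1 : ∀ n c, MvPolynomial.eval c (P1 n) = (H c).re.coeff n := fun n c => congrFun (hP1 n) c
  have e2 : ∀ n c, MvPolynomial.eval c (P2 n) = (H c).im.coeff n := fun n c => congrFun (hP2 n) c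
  have hH0 : H 0 = 0 := by
    have a1 : f 0 = 0 := QuadraticAlgebra.ext (gen_zero 0) (gen_zero 1)
    have a2 : g 0 = 0 := QuadraticAlgebra.ext (gen_zero 2) (gen_zero 3)
    simp only [H, a1, a2, (nf_eq_zero hζ).2 rfl, mul_zero, sub_zero]
  obtain ⟨c, hc0, hc⟩ := exists_ne_zero (σ := Fin 4 × Fin (l + 1 + 1))
    (ι := Fin (2 * l + 2 + 1) ⊕ Fin (2 * l + 2 + 1)) (by simp; omega)
    (Sum.elim (fun i => P1 (l * i)) fun i => P2 (l * i)) (by
      rintro (i | i)
      · rw [Sum.elim_inl, e1, hH0]; rfl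
      · rw [Sum.elim_inr, e2, hH0]; rfl)
  have hinv : sg l s hζ (H c) = H c := by
    have : sg l s hζ ⟨-C b, 1⟩ = ⟨-C b, 1⟩ := by
      refine QuadraticAlgebra.ext ?_ ?_
      · change (-C b).comp (C ζ * X) = -C b
        simp
      · change (1 : k[X]).comp (C ζ * X) = 1
        simp
    simp only [H, map_sub, map_mul, sg_nf, this]
  have d1 := Dg.nf hζ (z := f c) ⟨gen_deg 0 c, gen_deg 1 c⟩ l
  have d2 := Dg.mul (d := 0) (z := ⟨-C b, 1⟩) ⟨by simp, by simp⟩
    (Dg.nf hζ (z := g c) ⟨gen_deg 2 c, gen_deg 3 c⟩ l)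
  have b1 : l * (l + 1 + l) ≤ l * (2 * l + 2) := Nat.mul_le_mul_left _ (by omega)
  have b2 : 0 + l * (l + 1 + l) + l ≤ l * (2 * l + 2) := le_of_eq (by ring)
  have hHc : H c = 0 := by
    refine QuadraticAlgebra.ext ?_ ?_
    · refine inv_eq_zero hζ (E := 2 * l + 2) (congrArg QuadraticAlgebra.re hinv)
        ((natDegree_sub_le_of_le (d1.1.trans b1) (d2.1.trans b2)).trans (max_self _).le) hl
        fun i hi => ?_
      rw [← e1]
      exact hc (Sum.inl ⟨i, hi⟩)
    · refine inv_eq_zero hζ (E := 2 * l + 2) (congrArg QuadraticAlgebra.im hinv)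
        ((natDegree_sub_le_of_le (d1.2.trans b1) (d2.2.trans b2)).trans (max_self _).le) hl
        fun i hi => ?_
      rw [← e2]
      exact hc (Sum.inr ⟨i, hi⟩)
  have hfg := sub_eq_zero.1 hHc
  refine ⟨f c, g c, fun hg0 => hc0 ?_, hfg⟩
  rw [hg0, (nf_eq_zero hζ).2 rfl, mul_zero, nf_eq_zero] at hfg
  funext ⟨t, i⟩
  fin_cases t
  · exact gen_eq_zero (congrArg QuadraticAlgebra.re hfg) i
  · exact gen_eq_zero (congrArg QuadraticAlgebra.im hfg) i
  · exact gen_eq_zero (congrArg QuadraticAlgebra.re hg0) i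
  · exact gen_eq_zero (congrArg QuadraticAlgebra.im hg0) i

/-- the isogeny is onto over an algebraically closed field -/
theorem phi_surj [IsAlgClosed k] (hζ : IsPrimitiveRoot ζ l) (x : Jac l s) :
    ∃ z : Jac l s, x = jsg l s hζ z / z := by
  obtain ⟨I, hI, rfl, -⟩ := exists_cl_coprime x (N := ⊤) top_ne_bot
  obtain ⟨R, hR, rfl⟩ := ideal_eq_prod_pt hI
  rw [cl_mprod _ (by
    intro J hJ
    obtain ⟨p, _, rfl⟩ := Multiset.mem_map.1 hJ
    exact mum_ne_bot _ _)]
  clear hI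
  induction R using Multiset.induction_on with
  | empty => exact ⟨1, by simp⟩
  | cons p R ih =>
    obtain ⟨z, hz⟩ := ih fun q hq => hR q (Multiset.mem_cons_of_mem hq)
    obtain ⟨f, g, hg, hfg⟩ := tsen (s := s) hζ p.2
    have hp0 : pt l s p.1 p.2 ≠ ⊥ := mum_ne_bot _ _
    have hg0 : Ideal.span {g} ≠ ⊥ := Ideal.span_singleton_eq_bot.not.2 hg
    have h1 : nm hζ (pt l s p.1 p.2 * Ideal.span {g}) = nm hζ (Ideal.span {f}) := by
      rw [nm_mul, nm_span, nm_span, hfg, ← Ideal.span_singleton_mul_span_singleton]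
      congr 1
      exact norm_pt hζ (hR p (Multiset.mem_cons_self _ _))
    obtain ⟨w, hw⟩ := cl_of_norm_eq hζ (mul_ne_zero hp0 hg0) h1
    rw [cl_mul hp0 hg0, cl_span, cl_span, mul_one, one_mul] at hw
    refine ⟨w * z, ?_⟩
    rw [Multiset.map_cons, Multiset.map_cons, Multiset.prod_cons, hz, hw, map_mul,
      mul_div_mul_comm]

end Pool.Agent.MP_14ad9d_nt.Full

end

section

set_option autoImplicit false
set_option linter.unusedSectionVars false

open Polynomial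

namespace Pool.Agent.MP_14ad9d_nt.Full

namespace J3cAux

variable {l : ℕ} [Fact l.Prime] [Fact (2 < l)] {k k' : Type} [Field k] [CharZero k]
  [Field k'] [CharZero k'] {s : kˣ} {s' : k'ˣ} {ζ : k}

/-- the quotient of the values at the two points above zero -/
noncomputable def rr (z : CR l s) : k := evp l 0 (s : k) z / evp l 0 (-(s : k)) z

/-- prime to the first coordinate -/
def Cop (I : Ideal (CR l s)) : Prop := I ⊔ Ideal.span {⟨X, 0⟩} = ⊤

theorem onp : (s : k) ^ 2 = (0 : k) ^ l + (s : k) ^ 2 := by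
  rw [zero_pow (Fact.out : l.Prime).ne_zero, zero_add]

theorem onm : (-(s : k)) ^ 2 = (0 : k) ^ l + (s : k) ^ 2 := by
  rw [zero_pow (Fact.out : l.Prime).ne_zero, zero_add, neg_sq]

theorem rr_mul (z w : CR l s) : rr (z * w) = rr z * rr w := by
  rw [rr, rr, rr, evp_mul onp, evp_mul onm, mul_div_mul_comm]

theorem rr_C {c : k} (hc : c ≠ 0) : rr (⟨C c, 0⟩ : CR l s) = 1 := by
  simp [rr, evp, hc]

theorem rr_one : rr (1 : CR l s) = 1 := by
  simp [rr, evp, QuadraticAlgebra.re_one, QuadraticAlgebra.im_one]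

theorem rr_sg (hζ : IsPrimitiveRoot ζ l) (z : CR l s) : rr (sg l s hζ z) = rr z := by
  rw [rr, rr, evp_sg, evp_sg, mul_zero]

theorem rr_sg_pow (hζ : IsPrimitiveRoot ζ l) (j : ℕ) (z : CR l s) :
    rr ((sg l s hζ ^ j) z) = rr z := by
  induction j with
  | zero => rfl
  | succ j ih =>
    rw [pow_succ']
    exact (rr_sg hζ _).trans ih

theorem rr_cf (f : k →+* k') (h : f s = s') (z : CR l s) : rr (cf l f h z) = f (rr z) := by
  have h1 := evp_cf f h 0 (s : k) z
  have h2 := evp_cf f h 0 (-(s : k)) z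
  rw [map_zero, h] at h1
  rw [map_zero, map_neg, h] at h2
  rw [rr, rr, h1, h2, map_div₀]

theorem rr_prod {ι : Type} (T : Finset ι) (z : ι → CR l s) :
    rr (∏ i ∈ T, z i) = ∏ i ∈ T, rr (z i) := by
  classical
  induction T using Finset.induction_on with
  | empty => simpa using rr_one
  | insert a T ha ih => rw [Finset.prod_insert ha, Finset.prod_insert ha, rr_mul, ih]

theorem rr_span {a b : CR l s} (h : Ideal.span {a} = Ideal.span {b}) : rr a = rr b := by
  obtain ⟨u, hu⟩ := Ideal.span_singleton_eq_span_singleton.1 h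
  obtain ⟨c, hc, e⟩ := unit_const u.isUnit
  rw [← hu, rr_mul, e, rr_C hc, mul_one]

theorem cop_span {h : CR l s} : Cop (Ideal.span {h}) ↔ rr h ≠ 0 := by
  rw [Cop, sup_X_iff, rr, div_ne_zero_iff]
  refine and_congr ⟨?_, fun h0 => ⟨h, Ideal.mem_span_singleton_self h, h0⟩⟩
    ⟨?_, fun h0 => ⟨h, Ideal.mem_span_singleton_self h, h0⟩⟩
  · rintro ⟨z, hz, h0⟩
    obtain ⟨a, rfl⟩ := Ideal.mem_span_singleton'.1 hz
    rw [evp_mul onp] at h0
    exact right_ne_zero_of_mul h0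
  · rintro ⟨z, hz, h0⟩
    obtain ⟨a, rfl⟩ := Ideal.mem_span_singleton'.1 hz
    rw [evp_mul onm] at h0
    exact right_ne_zero_of_mul h0

theorem Cop.mono {I J : Ideal (CR l s)} (h : Cop I) (hIJ : I ≤ J) : Cop J :=
  top_le_iff.1 (h.ge.trans (sup_le_sup_right hIJ _))

theorem Cop.mul {I J : Ideal (CR l s)} (h : Cop I) (h' : Cop J) : Cop (I * J) :=
  Ideal.isCoprime_iff_sup_eq.1
    ((Ideal.isCoprime_iff_sup_eq.2 h).mul_left (Ideal.isCoprime_iff_sup_eq.2 h'))

theorem Cop.ne_bot {I : Ideal (CR l s)} (h : Cop I) : I ≠ ⊥ := by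
  rintro rfl
  obtain ⟨z, hz, h0⟩ := ((sup_X_iff _).1 h).1
  rw [Ideal.mem_bot.1 hz] at h0
  simp [evp] at h0

theorem Cop.exists_mem {I : Ideal (CR l s)} (h : Cop I) : ∃ z ∈ I, rr z ≠ 0 := by
  obtain ⟨z, hz, w, hw, e⟩ := Submodule.mem_sup.1 (h.ge (Submodule.mem_top (x := 1)))
  obtain ⟨a, rfl⟩ := Ideal.mem_span_singleton'.1 hw
  have h1 := congrArg (evp l 0 (s : k)) e
  have h2 := congrArg (evp l 0 (-(s : k))) e
  rw [evp_add, evp_mul onp] at h1
  rw [evp_add, evp_mul onm] at h2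
  have h3 : ∀ b : k, evp l 0 b (⟨X, 0⟩ : CR l s) = 0 := fun b => by simp [evp]
  have h4 : ∀ b : k, evp l 0 b (1 : CR l s) = 1 := fun b => by
    simp [evp, QuadraticAlgebra.re_one, QuadraticAlgebra.im_one]
  rw [h3, h4, mul_zero, add_zero] at h1 h2
  exact ⟨z, hz, by rw [rr, h1, h2]; simp⟩

theorem cop_of_mem {I : Ideal (CR l s)} {z : CR l s} (hz : z ∈ I) (h : rr z ≠ 0) : Cop I :=
  (cop_span.2 h).mono ((Ideal.span_singleton_le_iff_mem _).2 hz)

theorem Cop.sg (hζ : IsPrimitiveRoot ζ l) {I : Ideal (CR l s)} (h : Cop I) :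
    Cop (I.map (sg l s hζ)) := by
  obtain ⟨z, hz, h0⟩ := h.exists_mem
  exact cop_of_mem (Ideal.mem_map_of_mem _ hz) (by rwa [rr_sg])

theorem Cop.cf (f : k →+* k') (hf : f s = s') {I : Ideal (CR l s)} (h : Cop I) :
    Cop (I.map (cf l f hf)) := by
  obtain ⟨z, hz, h0⟩ := h.exists_mem
  exact cop_of_mem (Ideal.mem_map_of_mem _ hz) (by rw [rr_cf]; exact (map_ne_zero f).2 h0)

theorem span_ne_bot {h : CR l s} (h0 : rr h ≠ 0) : (Ideal.span {h} : Ideal (CR l s)) ≠ ⊥ :=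
  (cop_span.2 h0).ne_bot

/-- equivalent ideals prime to the first coordinate -/
theorem moving {J J' : Ideal (CR l s)} (hJ : Cop J) (hJ' : Cop J') (e : cl l J = cl l J') :
    ∃ h h' : CR l s, rr h ≠ 0 ∧ rr h' ≠ 0 ∧ Ideal.span {h'} * J = Ideal.span {h} * J' := by
  obtain ⟨h, hh, h0⟩ := hJ.exists_mem
  obtain ⟨B, hB⟩ := Ideal.dvd_iff_le.2 ((Ideal.span_singleton_le_iff_mem J).2 hh)
  have hBc : Cop B := (cop_span.2 h0).mono (Ideal.le_of_dvd ⟨J, by rw [hB, mul_comm]⟩)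
  have h1 : cl l (B * J') = 1 := by
    rw [cl_mul hBc.ne_bot hJ'.ne_bot, ← e, ← cl_mul hBc.ne_bot hJ.ne_bot, mul_comm, ← hB, cl_span]
  obtain ⟨h', hh'⟩ := (cl_eq_one_iff (hBc.mul hJ').ne_bot).1 h1
  refine ⟨h, h', h0, cop_span.1 (hh' ▸ hBc.mul hJ'), ?_⟩
  rw [← hh', hB]
  ring

/-- the value of the function with divisor the isogeny relation -/
def Rho (hζ : IsPrimitiveRoot ζ l) (I : Ideal (CR l s)) (z : Jac l s) (ρ : k) : Prop :=
  ∃ (J : Ideal (CR l s)) (f1 f2 : CR l s), Cop J ∧ cl l J = z ∧ rr f1 ≠ 0 ∧ rr f2 ≠ 0 ∧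
    Ideal.span {f1} * J.map (sg l s hζ) = Ideal.span {f2} * (I * J) ∧ ρ = rr f1 / rr f2

theorem rho_exists (hζ : IsPrimitiveRoot ζ l) {I : Ideal (CR l s)} (hI : Cop I) {z : Jac l s}
    (e : cl l I = jsg l s hζ z / z) : ∃ ρ, Rho hζ I z ρ := by
  have hX : (Ideal.span {⟨X, 0⟩} : Ideal (CR l s)) ≠ ⊥ := by
    rw [Ne, Ideal.span_singleton_eq_bot]
    exact fun h => X_ne_zero (congrArg QuadraticAlgebra.re h)
  obtain ⟨J, -, hJ, hc⟩ := exists_cl_coprime z hX
  have hc' : Cop J := hc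
  obtain ⟨f2, f1, h2, h1, e'⟩ := moving (hc'.sg hζ) (hI.mul hc') (by
    rw [cl_mul hI.ne_bot hc'.ne_bot, ← jsg_cl, hJ, e, div_mul_cancel])
  exact ⟨_, J, f1, f2, hc', hJ, h1, h2, e', rfl⟩

theorem rho_unique {hζ : IsPrimitiveRoot ζ l} {I : Ideal (CR l s)} (hI : I ≠ ⊥) {z : Jac l s}
    {ρ ρ' : k} (h : Rho hζ I z ρ) (h' : Rho hζ I z ρ') : ρ = ρ' := by
  obtain ⟨J, f1, f2, hJ, hz, h1, h2, e, rfl⟩ := h
  obtain ⟨J', g1, g2, hJ', hz', h1', h2', e', rfl⟩ := h'
  obtain ⟨a, b, ha, hb, eab⟩ := moving hJ hJ' (hz.trans hz'.symm)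
  have es := congrArg (Ideal.map (sg l s hζ)) eab
  rw [Ideal.map_mul, Ideal.map_mul, Ideal.map_span, Ideal.map_span, Set.image_singleton,
    Set.image_singleton] at es
  have key : Ideal.span {f1 * sg l s hζ a * b * g2} * (I * J') =
      Ideal.span {f2 * sg l s hζ b * g1 * a} * (I * J') := by
    simp only [← Ideal.span_singleton_mul_span_singleton]
    calc Ideal.span {f1} * Ideal.span {sg l s hζ a} * Ideal.span {b} * Ideal.span {g2} * (I * J')
        = Ideal.span {f1} * Ideal.span {sg l s hζ a} * Ideal.span {b} *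
            (Ideal.span {g2} * (I * J')) := by ring
      _ = Ideal.span {f1} * Ideal.span {b} * Ideal.span {g1} *
            (Ideal.span {sg l s hζ a} * J'.map (sg l s hζ)) := by rw [← e']; ring
      _ = Ideal.span {b} * Ideal.span {g1} * Ideal.span {sg l s hζ b} *
            (Ideal.span {f1} * J.map (sg l s hζ)) := by rw [← es]; ring
      _ = Ideal.span {g1} * Ideal.span {sg l s hζ b} * Ideal.span {f2} * I *
            (Ideal.span {b} * J) := by rw [e]; ring
      _ = _ := by rw [eab]; ring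
  have h3 := rr_span (mul_right_cancel₀ (mul_ne_zero hI hJ'.ne_bot) key)
  simp only [rr_mul, rr_sg] at h3
  rw [div_eq_div_iff h2 h2']
  apply mul_right_cancel₀ (mul_ne_zero ha hb)
  linear_combination h3

theorem map_prod' {R S ι : Type} [CommRing R] [CommRing S] (f : R →+* S) (T : Finset ι)
    (I : ι → Ideal R) : (∏ i ∈ T, I i).map f = ∏ i ∈ T, (I i).map f :=
  map_prod (Ideal.mapHom f) I T

theorem rho_pow {hζ : IsPrimitiveRoot ζ l} {I : Ideal (CR l s)} {z : Jac l s} {ρ : k}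
    (h : Rho hζ I z ρ) {m : CR l s}
    (hm : ∏ j ∈ Finset.range l, I.map (sg l s hζ ^ j) = Ideal.span {m}) : ρ ^ l = rr m := by
  obtain ⟨J, f1, f2, hJ, -, -, h2, e, rfl⟩ := h
  have hinj : ∀ j : ℕ, Function.Injective (sg l s hζ ^ j : CR l s →+* CR l s) := fun j => by
    rw [RingHom.coe_pow]
    exact (sg_inj l s hζ).iterate j
  have hne : ∏ j ∈ Finset.range l, J.map (sg l s hζ ^ j) ≠ 0 :=
    Finset.prod_ne_zero_iff.2 fun j _ =>
      (Ideal.map_eq_bot_iff_of_injective (hinj j)).not.2 hJ.ne_bot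
  have hshift : ∏ j ∈ Finset.range l, (J.map (sg l s hζ)).map (sg l s hζ ^ j) =
      ∏ j ∈ Finset.range l, J.map (sg l s hζ ^ j) := by
    have h3 := Finset.prod_range_succ (fun j => J.map (sg l s hζ ^ j)) l
    rw [Finset.prod_range_succ', sg_pow, pow_zero] at h3
    have h4 : J.map (1 : CR l s →+* CR l s) ≠ 0 := by
      rw [RingHom.one_def, Ideal.map_id]
      exact hJ.ne_bot
    rw [← mul_right_cancel₀ h4 h3]
    refine Finset.prod_congr rfl fun j _ => ?_
    rw [Ideal.map_map, pow_succ]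
    rfl
  have hsp : ∀ f : CR l s, ∏ j ∈ Finset.range l, (Ideal.span {f}).map (sg l s hζ ^ j) =
      Ideal.span {∏ j ∈ Finset.range l, (sg l s hζ ^ j) f} := fun f => by
    rw [← Ideal.prod_span_singleton]
    exact Finset.prod_congr rfl fun j _ => by rw [Ideal.map_span, Set.image_singleton]
  have hr : ∀ f : CR l s, rr (∏ j ∈ Finset.range l, (sg l s hζ ^ j) f) = rr f ^ l := fun f => by
    rw [rr_prod, Finset.prod_congr rfl fun j _ => rr_sg_pow hζ j f, Finset.prod_const,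
      Finset.card_range]
  have e1 := congrArg (fun A : Ideal (CR l s) => ∏ j ∈ Finset.range l, A.map (sg l s hζ ^ j)) e
  simp only [Ideal.map_mul, Finset.prod_mul_distrib] at e1
  rw [hshift, hsp, hsp, hm, ← mul_assoc, Ideal.span_singleton_mul_span_singleton] at e1
  have e2 := rr_span (mul_right_cancel₀ hne e1)
  rw [rr_mul, hr, hr] at e2
  rw [div_pow, e2, mul_div_cancel_left₀ _ (pow_ne_zero l h2)]

theorem rho_cf {hζ : IsPrimitiveRoot ζ l} {I : Ideal (CR l s)} {z : Jac l s} {ρ : k}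
    (h : Rho hζ I z ρ) (f : k →+* k') (hf : f s = s') {ζ' : k'} (hζ' : IsPrimitiveRoot ζ' l)
    (eζ : f ζ = ζ') : Rho hζ' (I.map (cf l f hf)) (jcf l f hf z) (f ρ) := by
  obtain ⟨J, f1, f2, hJ, hz, h1, h2, e, rfl⟩ := h
  refine ⟨J.map (cf l f hf), cf l f hf f1, cf l f hf f2, hJ.cf f hf, by rw [← jcf_cl, hz], ?_, ?_,
    ?_, by rw [rr_cf, rr_cf, map_div₀]⟩
  · rw [rr_cf]
    exact (map_ne_zero f).2 h1
  · rw [rr_cf]
    exact (map_ne_zero f).2 h2
  · have e1 := congrArg (Ideal.map (cf l f hf)) e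
    rw [Ideal.map_mul, Ideal.map_mul, Ideal.map_mul, Ideal.map_span, Ideal.map_span,
      Set.image_singleton, Set.image_singleton, Ideal.map_map] at e1
    have e2 : (cf l f hf).comp (sg l s hζ) = (sg l s' hζ').comp (cf l f hf) :=
      RingHom.ext fun w => cf_sg f hf hζ hζ' eζ w
    rw [← e1, e2, Ideal.map_map]

/-- a representative of the point of order `l` and its function -/
theorem exists_JT (hζ : IsPrimitiveRoot ζ l) : ∃ (J : Ideal (CR l s)) (g1 g2 : CR l s),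
    Cop J ∧ cl l J = jT l s ∧ rr g1 = 1 ∧ rr g2 = ζ⁻¹ ∧
      Ideal.span {g1} * J.map (sg l s hζ) = Ideal.span {g2} * J := by
  have hl : l.Prime := Fact.out
  have h2l : 2 < l := Fact.out
  have hs0 : (s : k) ≠ 0 := s.ne_zero
  have hζ0 : ζ ≠ 0 := hζ.ne_zero hl.ne_zero
  obtain ⟨n, hn⟩ : ∃ n, l = n + 2 := ⟨l - 2, by omega⟩
  set v : k[X] := X - C (s : k) with hv
  set u : k[X] := X ^ (n + 1) - X + 2 * C (s : k) with hu
  have hF : FF l s = X ^ (n + 2) + C (s : k) ^ 2 := by rw [FF, C_pow, ← hn]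
  have hvu : v ^ 2 - FF l s = -(X * u) := by
    rw [hF, hv, hu]
    ring
  have hru : rr (⟨u, 0⟩ : CR l s) = 1 := by
    simp [rr, evp, hu, hs0]
  have hcop : Cop (mum l s u v) :=
    cop_of_mem (z := ⟨u, 0⟩) (Ideal.subset_span (by simp)) (by rw [hru]; exact one_ne_zero)
  have hP : pt l s 0 (-(s : k)) = mum l s X v := by
    rw [pt, C_0, sub_zero]
    exact mum_congr ⟨-1, by rw [hv, C_neg]; ring⟩
  have hh : Ideal.span {(⟨-v, 1⟩ : CR l s)} = pt l s 0 (-(s : k)) * mum l s u v := by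
    rw [hP, mum_mul ⟨-1, by rw [hvu]; ring⟩, ← mum_full, hvu]
    exact mum_assoc (Associated.neg_left (Associated.refl _)) v
  have hPne : pt l s 0 (-(s : k)) ≠ ⊥ := mum_ne_bot _ _
  have hcl : cl l (mum l s u v) = jT l s := by
    have h1 := cl_span (l := l) (s := s) ⟨-v, 1⟩
    rw [hh, cl_mul hPne hcop.ne_bot, cl_pt_neg onp] at h1
    exact (inv_mul_eq_one.1 h1).symm
  have hsh := congrArg (Ideal.map (sg l s hζ)) hh
  rw [Ideal.map_mul, map_sg_pt, mul_zero, Ideal.map_span, Set.image_singleton] at hsh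
  have hsv : sg l s hζ (⟨-v, 1⟩ : CR l s) = ⟨-(C ζ * X - C (s : k)), 1⟩ := by
    ext1
    · change (-v).comp (C ζ * X) = _
      simp [hv]
    · change (1 : k[X]).comp (C ζ * X) = _
      simp
  rw [hsv] at hsh
  refine ⟨mum l s u v, ⟨u, 0⟩,
    ⟨X ^ (n + 1) + C (s : k) + C ζ * C (s : k) - C ζ * X, 1 - C ζ⟩, hcop, hcl, hru, ?_, ?_⟩
  · simp only [rr, evp, eval_sub, eval_add, eval_pow, eval_X, eval_C, eval_mul, eval_one,
      zero_pow (Nat.succ_ne_zero n)]
    rw [div_eq_iff, eq_comm, inv_mul_eq_iff_eq_mul₀ hζ0]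
    · ring
    · have : (0 : k) + s + ζ * s - ζ * 0 + -s * (1 - ζ) = 2 * s * ζ := by ring
      rw [this]
      exact mul_ne_zero (mul_ne_zero two_ne_zero hs0) hζ0
  · have hX : (Ideal.span {⟨X, 0⟩} : Ideal (CR l s)) ≠ 0 := by
      rw [Ne, Ideal.zero_eq_bot, Ideal.span_singleton_eq_bot]
      exact fun h => X_ne_zero (congrArg QuadraticAlgebra.re h)
    have e1 : (⟨X, 0⟩ : CR l s) * ⟨u, 0⟩ = ⟨v, 1⟩ * ⟨-v, 1⟩ := by
      ext1
      · simp only [QuadraticAlgebra.re_mul]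
        linear_combination hvu
      · simp only [QuadraticAlgebra.im_mul]
        ring
    have e2 : (⟨X, 0⟩ : CR l s) *
        ⟨X ^ (n + 1) + C (s : k) + C ζ * C (s : k) - C ζ * X, 1 - C ζ⟩ =
        ⟨v, 1⟩ * ⟨-(C ζ * X - C (s : k)), 1⟩ := by
      ext1
      · simp only [QuadraticAlgebra.re_mul]
        rw [hF, hv]
        ring
      · simp only [QuadraticAlgebra.im_mul]
        rw [hv]
        ring
    apply mul_left_cancel₀ hX
    rw [← mul_assoc, ← mul_assoc, Ideal.span_singleton_mul_span_singleton,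
      Ideal.span_singleton_mul_span_singleton, e1, e2, ← Ideal.span_singleton_mul_span_singleton,
      ← Ideal.span_singleton_mul_span_singleton, hh, hsh]
    ring

theorem rho_T {hζ : IsPrimitiveRoot ζ l} {I : Ideal (CR l s)} {z : Jac l s} {ρ : k}
    (h : Rho hζ I z ρ) : Rho hζ I (z * jT l s) (ρ * ζ) := by
  obtain ⟨J, f1, f2, hJ, hz, h1, h2, e, rfl⟩ := h
  obtain ⟨JT, g1, g2, hc, hcl, r1, r2, eT⟩ := exists_JT (s := s) hζ
  have hζ0 : ζ ≠ 0 := hζ.ne_zero (Fact.out : l.Prime).ne_zero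
  refine ⟨J * JT, f1 * g1, f2 * g2, hJ.mul hc, by rw [cl_mul hJ.ne_bot hc.ne_bot, hz, hcl], ?_, ?_,
    ?_, ?_⟩
  · rwa [rr_mul, r1, mul_one]
  · rw [rr_mul, r2]
    exact mul_ne_zero h2 (inv_ne_zero hζ0)
  · rw [Ideal.map_mul, ← Ideal.span_singleton_mul_span_singleton,
      ← Ideal.span_singleton_mul_span_singleton, mul_mul_mul_comm, e, eT]
    ring
  · rw [rr_mul, rr_mul, r1, r2]
    field_simp

theorem rho_T_pow {hζ : IsPrimitiveRoot ζ l} {I : Ideal (CR l s)} {z : Jac l s} {ρ : k}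
    (h : Rho hζ I z ρ) (i : ℕ) : Rho hζ I (z * jT l s ^ i) (ρ * ζ ^ i) := by
  induction i with
  | zero => simpa using h
  | succ i ih =>
    rw [pow_succ, pow_succ, ← mul_assoc, ← mul_assoc]
    exact rho_T ih

theorem cf_sg_pow (f : k →+* k') (hf : f s = s') (hζ : IsPrimitiveRoot ζ l) {ζ' : k'}
    (hζ' : IsPrimitiveRoot ζ' l) (eζ : f ζ = ζ') (j : ℕ) (w : CR l s) :
    cf l f hf ((sg l s hζ ^ j) w) = (sg l s' hζ' ^ j) (cf l f hf w) := by
  induction j with
  | zero => rfl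
  | succ j ih =>
    rw [pow_succ', pow_succ']
    change cf l f hf (sg l s hζ ((sg l s hζ ^ j) w)) =
      sg l s' hζ' ((sg l s' hζ' ^ j) (cf l f hf w))
    rw [cf_sg f hf hζ hζ' eζ, ih]

end J3cAux

open J3cAux in
/-- the kernel of the descent map is the image of the isogeny -/
theorem kummer {l : ℕ} [Fact l.Prime] [Fact (2 < l)] {k : Type} [Field k] [CharZero k] {s : kˣ}
    {ζ : k} (hζ : IsPrimitiveRoot ζ l) {x : Jac l s} (h : Del l s hζ x 1) :
    ∃ z : Jac l s, x = jsg l s hζ z / z := by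
  have hl : l.Prime := Fact.out
  have : NeZero l := ⟨hl.ne_zero⟩
  obtain ⟨I, m, e, hI, he, hm, hp, hn, hd⟩ := h
  obtain ⟨s', hf⟩ : ∃ s' : (AlgebraicClosure k)ˣ, algebraMap k (AlgebraicClosure k) s = s' :=
    ⟨Units.map (algebraMap k (AlgebraicClosure k) : k →* AlgebraicClosure k) s, rfl⟩
  set f := algebraMap k (AlgebraicClosure k) with hfdef
  have hζ' : IsPrimitiveRoot (f ζ) l := hζ.map_of_injective f.injective
  have hrm : rr m * e ^ l = 1 := by
    rw [rr, div_mul_eq_mul_div, ← hd, one_mul, div_self hn]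
  have hrm0 : rr m ≠ 0 := left_ne_zero_of_mul_eq_one hrm
  have hIc : Cop I := by
    refine (cop_span.2 hrm0).mono ?_
    rw [← hm]
    refine (Ideal.prod_le_inf.trans (Finset.inf_le (Finset.mem_range.2 hl.pos))).trans ?_
    rw [pow_zero, RingHom.one_def, Ideal.map_id]
  have hm' : ∏ j ∈ Finset.range l, (I.map (cf l f hf)).map (sg l s' hζ' ^ j) =
      Ideal.span {cf l f hf m} := by
    have h1 := congrArg (Ideal.map (cf l f hf)) hm
    rw [map_prod', Ideal.map_span, Set.image_singleton] at h1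
    rw [← h1]
    refine Finset.prod_congr rfl fun j _ => ?_
    rw [Ideal.map_map, Ideal.map_map]
    congr 1
    exact RingHom.ext fun w => (cf_sg_pow f hf hζ hζ' rfl j w).symm
  obtain ⟨z, hz⟩ := phi_surj hζ' (jcf l f hf x)
  obtain ⟨ρ, hρ⟩ := rho_exists hζ' (hIc.cf f hf) (z := z) (by rw [← jcf_cl, hI, hz])
  have hρl := rho_pow hρ hm'
  rw [rr_cf] at hρl
  obtain ⟨i, -, hi⟩ := hζ'.eq_pow_of_pow_eq_one (ξ := ρ * f e) (by
    rw [mul_pow, hρl, ← map_pow, ← map_mul, hrm, map_one])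
  have hfe : f e ≠ 0 := (map_ne_zero f).2 he
  have hρk : ρ = f (ζ ^ i / e) := by
    rw [map_div₀, map_pow, hi, mul_div_cancel_right₀ _ hfe]
  have hρ0 : ρ ≠ 0 := by
    rw [hρk]
    exact (map_ne_zero f).2 (div_ne_zero (pow_ne_zero _ (hζ.ne_zero hl.ne_zero)) he)
  obtain ⟨z0, hz0⟩ := descend hf z (fun τ hτ => by
    have hτf : ∀ a, (τ : AlgebraicClosure k →+* AlgebraicClosure k) (f a) = f a :=
      fun a => τ.commutes a
    have h1 := rho_cf hρ (τ : AlgebraicClosure k →+* AlgebraicClosure k) hτ hζ' (hτf ζ)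
    have h2 : (I.map (cf l f hf)).map (cf l (τ : AlgebraicClosure k →+* AlgebraicClosure k) hτ) =
        I.map (cf l f hf) := by
      rw [Ideal.map_map]
      congr 1
      exact RingHom.ext fun w => cf_cf f hf _ hτ f hf hτf w
    have h3 : (τ : AlgebraicClosure k →+* AlgebraicClosure k) ρ = ρ := by rw [hρk, hτf]
    rw [h2, h3] at h1
    have h4 := jcf_jcf f hf _ hτ f hf hτf x
    rw [hz, _root_.map_div, jcf_jsg _ hτ hζ' hζ' (hτf ζ)] at h4
    set z' := jcf l (τ : AlgebraicClosure k →+* AlgebraicClosure k) hτ z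
    obtain ⟨j, hj⟩ := ker_phi hζ' (x := z' / z) (by
      rw [_root_.map_div, div_eq_div_iff_div_eq_div, h4])
    have h5 : z' = z * jT l s' ^ j := by rw [← hj, mul_div_cancel]
    have h6 := rho_T_pow hρ j
    rw [← h5] at h6
    have h7 := rho_unique (hIc.cf f hf).ne_bot h1 h6
    have h8 : f ζ ^ j = 1 := (mul_eq_left₀ hρ0).1 h7.symm
    have h9 : jT l s' ^ j = 1 :=
      orderOf_dvd_iff_pow_eq_one.1 (by rw [orderOf_jT]; exact (hζ'.pow_eq_one_iff_dvd j).1 h8)
    rw [h5, h9, mul_one])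
  refine ⟨z0, jcf_inj f hf ?_⟩
  rw [hz, _root_.map_div, jcf_jsg f hf hζ hζ' rfl, hz0]

end Pool.Agent.MP_14ad9d_nt.Full

end

section

set_option autoImplicit false

open Polynomial

namespace Pool.Agent.MP_14ad9d_nt.Full

namespace J4Aux

theorem mul_pow_mem (l : ℕ) [Fact l.Prime] {A : Type} [CommGroup A] (σ : A →* A)
    (B : Subgroup A) (hB : ∀ b ∈ B, σ b ∈ B) (b : A) (hb : b ∈ B)
    (h0 : ∏ i ∈ Finset.range l, σ^[i] b = 1) :
    ∃ c ∈ B, (fun z => σ z / z)^[l - 1] b = c ^ l := by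
  have h1 := HerbAux.pow_mem l (A := Additive A) (MonoidHom.toAdditive σ)
    (Subgroup.toAddSubgroup B) (fun b hb => hB _ hb) (Additive.ofMul b) hb h0
  obtain ⟨c, hc, e⟩ := h1
  exact ⟨Additive.toMul c, hc, (congrArg Additive.toMul e).symm⟩

theorem iter_surj {A : Type} (φ : A → A) (B : Set A) (h : ∀ x ∈ B, ∃ z ∈ B, x = φ z) (n : ℕ) :
    ∀ x ∈ B, ∃ z ∈ B, x = φ^[n] z := by
  induction n with
  | zero => exact fun x hx => ⟨x, hx, rfl⟩
  | succ n ih =>
    intro x hx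
    obtain ⟨z, hz, e⟩ := ih x hx
    obtain ⟨w, hw, e'⟩ := h z hz
    exact ⟨w, hw, by rw [Function.iterate_succ_apply, ← e', ← e]⟩

theorem killed (l : ℕ) [Fact l.Prime] {A : Type} [CommGroup A] (σ : A →* A)
    (h0 : ∀ b, ∏ i ∈ Finset.range l, σ^[i] b = 1) (j : ℕ) :
    ∀ y : A, y ^ l ^ j = 1 → ∃ N : ℕ, (fun z => σ z / z)^[N] y = 1 := by
  induction j with
  | zero => exact fun y hy => ⟨0, by simpa using hy⟩
  | succ j ih =>
    intro y hy
    obtain ⟨c, hc, e⟩ := mul_pow_mem l σ (powMonoidHom (l ^ (j + 1)) : A →* A).ker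
      (fun b hb => by
        have h1 : b ^ l ^ (j + 1) = 1 := hb
        change σ b ^ l ^ (j + 1) = 1
        rw [← map_pow, h1, map_one]) y hy (h0 y)
    have hc' : c ^ l ^ (j + 1) = 1 := hc
    obtain ⟨N, hN⟩ := ih (c ^ l) (by rw [← pow_mul, ← pow_succ', hc'])
    exact ⟨N + (l - 1), by rw [Function.iterate_add_apply, e, hN]⟩

end J4Aux

variable {l : ℕ} [Fact l.Prime] [Fact (2 < l)] {K : Type} [Field K] [CharZero K] {s : Kˣ} {ζ : K}

/-- the new part of the Jacobian is divisible by `l` -/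
theorem divis {F : Type} [Field F] [Algebra F K] [FiniteDimensional F K]
    (hζ : IsPrimitiveRoot ζ l) (hs : ∀ g : K ≃ₐ[F] K, (g : K →+* K) s = s)
    (hz : ∀ g : K ≃ₐ[F] K, g ζ = ζ) (hG : ¬l ∣ Fintype.card (K ≃ₐ[F] K))
    (sel : ∀ (x : Jac l s) (d : K), Del l s hζ x d → (∃ e : K, ∏ g : K ≃ₐ[F] K, g d = e ^ l) →
      ∃ e : K, d = e ^ l)
    (x : Jac l s) (hx : ∏ g : K ≃ₐ[F] K, jcf l (g : K →+* K) (hs g) x = 1) :
    ∃ y : Jac l s, ∏ g : K ≃ₐ[F] K, jcf l (g : K →+* K) (hs g) y = 1 ∧ y ^ l = x := by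
  have hl : l.Prime := Fact.out
  obtain ⟨Nm, hNm⟩ : ∃ Nm : Jac l s →* Jac l s,
      ∀ y, Nm y = ∏ g : K ≃ₐ[F] K, jcf l (g : K →+* K) (hs g) y :=
    ⟨∏ g : K ≃ₐ[F] K, jcf l (g : K →+* K) (hs g), fun y => MonoidHom.finsetProd_apply _ _ _⟩
  have hcomm : ∀ y, Nm (jsg l s hζ y) = jsg l s hζ (Nm y) := fun y => by
    rw [hNm, hNm, map_prod]
    exact Finset.prod_congr rfl fun g _ => jcf_jsg _ _ hζ hζ (hz g) y
  have hT : Nm (jT l s) = jT l s ^ Fintype.card (K ≃ₐ[F] K) := by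
    rw [hNm, Finset.prod_congr rfl fun (g : K ≃ₐ[F] K) _ => jcf_T (g : K →+* K) (hs g),
      Finset.prod_const,
      Finset.card_univ]
  have hB : ∀ b ∈ Nm.ker, jsg l s hζ b ∈ Nm.ker := fun b hb => by
    rw [MonoidHom.mem_ker] at hb ⊢
    rw [hcomm, hb, map_one]
  have hsurj : ∀ y ∈ (Nm.ker : Set (Jac l s)), ∃ z ∈ (Nm.ker : Set (Jac l s)),
      y = (fun z => jsg l s hζ z / z) z := fun y hy => by
    have hy' : Nm y = 1 := hy
    obtain ⟨d, hd⟩ := exists_del hζ y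
    have h1 : Del l s hζ (∏ g : K ≃ₐ[F] K, jcf l (g : K →+* K) (hs g) y)
        (∏ g : K ≃ₐ[F] K, g d) :=
      Del.prod Finset.univ fun g _ => hd.cf (g : K →+* K) (hs g) hζ (hz g)
    rw [← hNm, hy'] at h1
    obtain ⟨e, -, he⟩ := (del_one hζ).unique h1
    obtain ⟨e', he'⟩ := sel y d hd ⟨e, by rw [he, one_mul]⟩
    have he0 : e' ≠ 0 := fun h0 => hd.ne_zero (by rw [he', h0, zero_pow hl.ne_zero])
    have h2 := hd.scale (inv_ne_zero he0)
    rw [he', ← mul_pow, mul_inv_cancel₀ he0, one_pow] at h2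
    obtain ⟨z, hz'⟩ := kummer hζ h2
    have h3 : jsg l s hζ (Nm z) = Nm z := by
      rw [hz', _root_.map_div, hcomm] at hy'
      exact div_eq_one.1 hy'
    obtain ⟨i, hi⟩ := ker_phi hζ h3
    have hco : Nat.Coprime (Fintype.card (K ≃ₐ[F] K)) (orderOf (jT l s)) := by
      rw [orderOf_jT]
      exact ((Nat.Prime.coprime_iff_not_dvd hl).2 hG).symm
    obtain ⟨c, hc⟩ := exists_pow_eq_self_of_coprime hco
    refine ⟨z / jT l s ^ (c * i), ?_, ?_⟩
    · change Nm (z / jT l s ^ (c * i)) = 1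
      rw [_root_.map_div, map_pow, hT, pow_mul, hc, hi, div_self']
    · change y = jsg l s hζ (z / jT l s ^ (c * i)) / (z / jT l s ^ (c * i))
      rw [_root_.map_div, map_pow, jsg_T, div_div_div_cancel_right, hz']
  obtain ⟨z, hz1, hz2⟩ := J4Aux.iter_surj _ _ hsurj (l - 1) x (by
    change Nm x = 1
    rw [hNm, hx])
  obtain ⟨c, hc, e⟩ := J4Aux.mul_pow_mem l (jsg l s hζ) Nm.ker hB z hz1 (prod_jsg hζ z)
  refine ⟨c, ?_, by rw [hz2, e]⟩
  rw [← hNm]
  exact hc

/-- a point of infinite order -/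
theorem nontors (hζ : IsPrimitiveRoot ζ l) {x : Jac l s} {d : K} (h : Del l s hζ x d)
    (ind : ∀ (m j : ℤ) (e : K), d ^ m * (2 * (s : K)) ^ j = e ^ l → (l : ℤ) ∣ m ∧ (l : ℤ) ∣ j) :
    ¬IsOfFinOrder x := by
  intro hfin
  have hl : l.Prime := Fact.out
  have h2l : 2 < l := Fact.out
  have hs0 : (2 * (s : K)) ≠ 0 := mul_ne_zero two_ne_zero s.ne_zero
  have key : ∀ (m j : ℕ), Del l s hζ (jT l s ^ j) (d ^ m) → l ∣ m ∧ l ∣ j := fun m j hd => by
    obtain ⟨e, -, he⟩ := ((del_T hζ).pow j).unique hd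
    have h1 := ind m (2 * j) e (by
      rw [zpow_natCast, he, zpow_mul, zpow_natCast, zpow_ofNat, mul_right_comm, ← mul_pow,
        inv_mul_cancel₀ (pow_ne_zero 2 hs0), one_pow, one_mul])
    refine ⟨Int.natCast_dvd_natCast.1 h1.1, ?_⟩
    have h2 : l ∣ 2 * j := Int.natCast_dvd_natCast.1 (by exact_mod_cast h1.2)
    exact ((Nat.Prime.dvd_mul hl).1 h2).resolve_left fun h3 =>
      absurd (Nat.le_of_dvd two_pos h3) (by omega)
  have hker : ∀ (N : ℕ) (Q : Jac l s), (fun z => jsg l s hζ z / z)^[N] Q = 1 →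
      ∃ j : ℕ, Q = jT l s ^ j := by
    intro N
    induction N with
    | zero => exact fun Q hQ => ⟨0, by simpa using hQ⟩
    | succ N ih =>
      intro Q hQ
      rw [Function.iterate_succ_apply] at hQ
      obtain ⟨j, hj⟩ := ih _ hQ
      obtain ⟨e, he⟩ := exists_del hζ Q
      have h1 := he.sg.mul he.inv
      rw [mul_inv_cancel₀ he.ne_zero, ← div_eq_mul_inv, hj, ← pow_zero d] at h1
      have h2 := (key 0 j h1).2
      have h3 : jT l s ^ j = 1 := orderOf_dvd_iff_pow_eq_one.1 (by rw [orderOf_jT]; exact h2)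
      rw [h3] at hj
      exact ker_phi hζ (div_eq_one.1 hj)
  obtain ⟨j, m, hm, e⟩ := Nat.exists_eq_pow_mul_and_not_dvd hfin.orderOf_pos.ne' l hl.ne_one
  obtain ⟨N, hN⟩ := J4Aux.killed l (jsg l s hζ) (prod_jsg hζ) j (x ^ m) (by
    rw [← pow_mul, mul_comm, ← e, pow_orderOf_eq_one])
  obtain ⟨i, hi⟩ := hker N _ hN
  have h1 := h.pow m
  rw [hi] at h1
  exact hm (key m i h1).1

/-- divisibility passes to a subgroup of finite index -/
theorem divis_inf {A : Type} [CommGroup A] (n : ℕ) (M H : Subgroup A) [H.FiniteIndex]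
    (h : ∀ x ∈ M, ∃ y ∈ M, y ^ n = x) : ∀ x ∈ M ⊓ H, ∃ y ∈ M ⊓ H, y ^ n = x := by
  intro x hx
  obtain ⟨y, hy, e⟩ := h x hx.1
  refine ⟨y, ⟨hy, ?_⟩, e⟩
  have hsurj : Function.Surjective (fun a : M.map (QuotientGroup.mk' H) => a ^ n) := by
    rintro ⟨_, a, ha, rfl⟩
    obtain ⟨b, hb, e'⟩ := h a ha
    exact ⟨⟨QuotientGroup.mk' H b, b, hb, rfl⟩, Subtype.ext (by
      change QuotientGroup.mk' H b ^ n = QuotientGroup.mk' H a
      rw [← map_pow, e'])⟩
  have hinj := Finite.injective_iff_surjective.2 hsurj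
  have h1 : (⟨QuotientGroup.mk' H y, y, hy, rfl⟩ : M.map (QuotientGroup.mk' H)) = 1 :=
    hinj (Subtype.ext (by
      change QuotientGroup.mk' H y ^ n = ((1 ^ n : M.map (QuotientGroup.mk' H)) : A ⧸ H)
      rw [← map_pow, e, one_pow]
      exact (QuotientGroup.eq_one_iff x).2 hx.2))
  exact (QuotientGroup.eq_one_iff y).1 (congrArg Subtype.val h1)

end Pool.Agent.MP_14ad9d_nt.Full

end

section

set_option autoImplicit false

open Polynomial

namespace Pool.Agent.MP_14ad9d_nt.Full.J5Aux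

/-- the splitting field of a polynomial of small degree has degree prime to `l` -/
theorem not_dvd_finrank {l : ℕ} (hl : l.Prime) {K : Type} [Field K] [CharZero K] (h : K[X])
    (hd : h.natDegree < l) : ¬l ∣ Module.finrank K h.SplittingField := by
  have : Fact ((h.map (algebraMap K h.SplittingField)).Splits) := ⟨SplittingField.splits h⟩
  have : IsGalois K h.SplittingField := {}
  have h1 : Nat.card h.Gal ∣ Nat.card (Equiv.Perm (h.rootSet h.SplittingField)) :=
    Subgroup.card_dvd_of_injective _ (Gal.galActionHom_injective h h.SplittingField)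
  have h2 : Nat.card h.Gal = Module.finrank K h.SplittingField :=
    IsGalois.card_aut_eq_finrank K h.SplittingField
  rw [h2, Nat.card_perm] at h1
  intro hd'
  have h3 := (Nat.Prime.dvd_factorial hl).1 (hd'.trans h1)
  have h4 := ncard_rootSet_le h h.SplittingField
  rw [← Nat.card_coe_set_eq] at h4
  omega

/-- if a composition splits then the outer polynomial splits, with roots in the image -/
theorem split_of_comp {E : Type} [Field E] {q : E[X]} (hq : q.natDegree ≠ 0) (n : ℕ) :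
    ∀ u : E[X], u.Monic → u.natDegree = n → (u.comp q).Splits →
      ∃ R : Multiset E, (∀ a ∈ R, ∃ t, a = q.eval t) ∧ u = (R.map fun a => X - C a).prod := by
  induction n with
  | zero =>
    intro u hu hn _
    exact ⟨0, by simp, by simpa using hu.natDegree_eq_zero.1 hn⟩
  | succ n ih =>
    intro u hu hn hs
    have h0 : (u.comp q).natDegree ≠ 0 := by
      rw [natDegree_comp, hn]
      exact mul_ne_zero n.succ_ne_zero hq
    have h1 : u.comp q ≠ 0 := fun e => h0 (by rw [e, natDegree_zero])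
    obtain ⟨t, ht⟩ := hs.exists_eval_eq_zero (degree_ne_of_natDegree_ne h0)
    rw [eval_comp] at ht
    obtain ⟨u', hu'⟩ := dvd_iff_isRoot.2 ht
    have m' : u'.Monic := (monic_X_sub_C _).of_mul_monic_left (hu' ▸ hu)
    have d' : u'.natDegree = n := by
      have := (monic_X_sub_C (q.eval t)).natDegree_mul m'
      rw [← hu', hn, natDegree_X_sub_C] at this
      omega
    have s' : (u'.comp q).Splits := by
      refine hs.of_dvd h1 ?_
      conv_rhs => rw [hu', mul_comp]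
      exact dvd_mul_left _ _
    obtain ⟨R, hR, e⟩ := ih u' m' d' s'
    refine ⟨q.eval t ::ₘ R, fun a ha => ?_, ?_⟩
    · rcases Multiset.mem_cons.1 ha with rfl | ha
      · exact ⟨t, rfl⟩
      · exact hR a ha
    · rw [Multiset.map_cons, Multiset.prod_cons, ← e]
      exact hu'

variable {l : ℕ} [Fact l.Prime] [Fact (2 < l)]

/-- a property of nonzero elements that is closed under the operations used by the descent map -/
structure Clo (l : ℕ) {E : Type} [Field E] (s s0 : E) (P : E → Prop) : Prop where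
  mul : ∀ a b, a ≠ 0 → b ≠ 0 → P a → P b → P (a * b)
  pow : ∀ e, e ≠ 0 → P (e ^ l)
  two : P ((2 * s) ^ 2)
  two' : P ((2 * s) ^ 2)⁻¹
  pt : ∀ a b t, a ≠ 0 → b ^ 2 = a ^ l + s ^ 2 → a = s0 ^ 2 * (t ^ 2 - 1) → P ((b - s) / (b + s))

theorem del_point {E : Type} [Field E] [CharZero E] {s : Eˣ} {ζ : E} (hζ : IsPrimitiveRoot ζ l)
    {s0 : E} {P : E → Prop} (hP : Clo l (s : E) s0 P) {a b t : E}
    (hb : b ^ 2 = a ^ l + (s : E) ^ 2) (ht : a = s0 ^ 2 * (t ^ 2 - 1)) :
    ∃ d, Del l s hζ (cl l (pt l s a b)) d ∧ P d := by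
  rcases eq_or_ne a 0 with rfl | ha
  · rw [zero_pow (Fact.out : l.Prime).ne_zero, zero_add] at hb
    rcases sq_eq_sq_iff_eq_or_eq_neg.1 hb with rfl | rfl
    · exact ⟨_, del_T hζ, hP.two'⟩
    · refine ⟨_, ?_, hP.two⟩
      rw [cl_pt_neg (by rw [zero_pow (Fact.out : l.Prime).ne_zero, zero_add])]
      have := (del_T (s := s) hζ).inv
      rwa [inv_inv] at this
  · exact ⟨_, del_pt hζ hb ha, hP.pt a b t ha hb ht⟩

theorem del_points {E : Type} [Field E] [CharZero E] {s : Eˣ} {ζ : E} (hζ : IsPrimitiveRoot ζ l)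
    {s0 : E} {P : E → Prop} (hP : Clo l (s : E) s0 P) (f : E → E) (R : Multiset E)
    (hR : ∀ a ∈ R, f a ^ 2 = a ^ l + (s : E) ^ 2 ∧ ∃ t, a = s0 ^ 2 * (t ^ 2 - 1)) :
    ∃ d, Del l s hζ (R.map fun a => cl l (pt l s a (f a))).prod d ∧ P d := by
  induction R using Multiset.induction_on with
  | empty =>
    refine ⟨1, del_one hζ, ?_⟩
    simpa using hP.pow 1 one_ne_zero
  | cons a R ih =>
    obtain ⟨d, h1, h2⟩ := ih fun b hb => hR b (Multiset.mem_cons_of_mem hb)
    obtain ⟨h3, t, h4⟩ := hR a (Multiset.mem_cons_self a R)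
    obtain ⟨d', h5, h6⟩ := del_point hζ hP h3 h4
    rw [Multiset.map_cons, Multiset.prod_cons]
    exact ⟨d' * d, h5.mul h1, hP.mul _ _ h5.ne_zero h1.ne_zero h6 h2⟩

omit [Fact l.Prime] [Fact (2 < l)] in
theorem root_eq {E : Type} [Field E] {s : Eˣ} {a : E} {v : E[X]} (h4 : X - C a ∣ v ^ 2 - FF l s) :
    v.eval a ^ 2 = a ^ l + (s : E) ^ 2 := by
  have h5 := dvd_iff_isRoot.1 h4
  rw [IsRoot.def, FF, eval_sub, eval_pow, eval_add, eval_pow, eval_X, eval_C] at h5
  exact sub_eq_zero.1 h5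

theorem cl_split {E : Type} [Field E] [CharZero E] {s : Eˣ} (R : Multiset E) {v : E[X]}
    (hdv : (R.map fun a => X - C a).prod ∣ v ^ 2 - FF l s) :
    cl l (mum l s (R.map fun a => X - C a).prod v) =
      (R.map fun a => cl l (pt l s a (v.eval a))).prod := by
  have h : ∀ I ∈ R.map fun a => pt l s a (v.eval a), I ≠ ⊥ := fun I hI => by
    obtain ⟨a, -, rfl⟩ := Multiset.mem_map.1 hI
    exact mum_ne_bot (X - C a) (C (v.eval a))
  rw [mum_split R hdv, cl_mprod _ h, Multiset.map_map]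
  rfl

theorem del_split {E : Type} [Field E] [CharZero E] {s : Eˣ} {ζ : E} {hζ : IsPrimitiveRoot ζ l}
    {s0 : E} (h0 : s0 ≠ 0) {P : E → Prop} (hP : Clo l (s : E) s0 P) {u v : E[X]}
    (hm : IsMum l s u v) (hsp : (u.comp (C (s0 ^ 2) * (X ^ 2 - C 1))).Splits) {d : E}
    (h1 : Del l s hζ (cl l (mum l s u v)) d) : P d := by
  obtain ⟨R, hR, e⟩ := split_of_comp (q := C (s0 ^ 2) * (X ^ 2 - C 1))
    (by rw [natDegree_C_mul (pow_ne_zero 2 h0), natDegree_X_pow_sub_C]; norm_num) _ u hm.1 rfl hsp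
  have hdv := hm.2.2
  rw [e] at hdv h1
  rw [cl_split R hdv] at h1
  have hR' : ∀ a ∈ R, v.eval a ^ 2 = a ^ l + (s : E) ^ 2 ∧ ∃ t, a = s0 ^ 2 * (t ^ 2 - 1) := by
    intro a ha
    have h4 : X - C a ∣ (R.map fun a => X - C a).prod :=
      Multiset.dvd_prod (Multiset.mem_map_of_mem (fun a => X - C a) ha)
    refine ⟨root_eq (h4.trans hdv), ?_⟩
    obtain ⟨t, ht⟩ := hR a ha
    refine ⟨t, ?_⟩
    rw [ht, eval_mul, eval_C, eval_sub, eval_pow, eval_X, eval_C]
  obtain ⟨d', h2, h3⟩ := del_points hζ hP (fun a => v.eval a) R hR'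
  obtain ⟨c, hc, e'⟩ := h2.unique h1
  rw [e']
  exact hP.mul _ _ h2.ne_zero (pow_ne_zero _ hc) h3 (hP.pow c hc)

theorem del_ext {K E : Type} [Field K] [CharZero K] [Field E] [CharZero E] (f : K →+* E) {s : Kˣ}
    {ζ : K} {hζ : IsPrimitiveRoot ζ l} {s0 : K} (h0 : s0 ≠ 0) {u v : K[X]} (hm : IsMum l s u v)
    (hsp : ((u.comp (C (s0 ^ 2) * (X ^ 2 - C 1))).map f).Splits) {d : K}
    (h : Del l s hζ (cl l (mum l s u v)) d) {P : E → Prop} (hP : Clo l (f s) (f s0) P) :
    P (f d) := by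
  have hs : f s = (Units.map (f : K →* E) s : Eˣ) := rfl
  have hζ' : IsPrimitiveRoot (f ζ) l := hζ.map_of_injective f.injective
  have h1 := h.cf f hs hζ' rfl
  rw [jcf_mum] at h1
  refine del_split ((map_ne_zero f).2 h0) hP (hm.map f hs) ?_ h1
  simpa [map_comp] using hsp

/-- the reduction to points over an extension of degree prime to `l` -/
theorem reduce {K : Type} [Field K] [NumberField K] {s : Kˣ} {ζ : K} {hζ : IsPrimitiveRoot ζ l}
    {x : Jac l s} {d : K} (h : Del l s hζ x d) {s0 : K} (h0 : s0 ≠ 0) :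
    ∃ (E : Type) (_ : Field E) (_ : NumberField E) (_ : Algebra K E), IsGalois K E ∧
      ¬l ∣ Module.finrank K E ∧ ∀ P : E → Prop,
        Clo l (algebraMap K E s) (algebraMap K E s0) P → P (algebraMap K E d) := by
  have hl : l.Prime := Fact.out
  have hl2 : 2 < l := Fact.out
  obtain ⟨u, v, hm, hd, rfl⟩ := exists_red x
  have hdeg : (u.comp (C (s0 ^ 2) * (X ^ 2 - C 1))).natDegree < l := by
    rw [natDegree_comp, natDegree_C_mul (pow_ne_zero 2 h0), natDegree_X_pow_sub_C]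
    obtain ⟨k, hk⟩ := hl.odd_of_ne_two (by omega)
    omega
  have hsp := SplittingField.splits (u.comp (C (s0 ^ 2) * (X ^ 2 - C 1)))
  have hnd := not_dvd_finrank hl _ hdeg
  have hN : NumberField (u.comp (C (s0 ^ 2) * (X ^ 2 - C 1))).SplittingField :=
    NumberField.of_module_finite K _
  exact ⟨_, inferInstance, hN, inferInstance, {}, hnd, fun P hP => del_ext _ h0 hm hsp h hP⟩

end Pool.Agent.MP_14ad9d_nt.Full.J5Aux

end
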