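import Pool.Agent.MP_14ad9d_nt.Full.Sym11
import Pool.Agent.MP_14ad9d_nt.Full.Sym2
import Pool.Agent.Mg.F14ad9d.G45722e

section

set_option autoImplicit false

namespace Pool.Agent.MP_14ad9d_nt.Full.J5aAux

open Sym1Aux

variable {l : ℕ} {E Γ : Type} [Field E] [LinearOrderedCommGroupWithZero Γ] (w : Valuation E Γ)

theorem val_nat (n : ℕ) : w (n : E) ≤ 1 := by
  induction n with
  | zero => simp
  | succ n ih =>
    rw [Nat.cast_succ]
    exact w.map_add_le ih (by simp)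

theorem val_two (ho : Odd l) (hw : w l < 1) : w (2 : E) = 1 := by
  obtain ⟨m, rfl⟩ := ho
  refine le_antisymm (by simpa using val_nat w 2) (not_lt.1 fun h => ?_)
  have h1 : w (2 * (m : E)) < 1 := by
    rw [map_mul]
    exact (mul_le_of_le_one_right' (val_nat w m)).trans_lt h
  have h2 := w.map_sub_lt hw h1
  push_cast at h2
  rw [add_sub_cancel_left, map_one] at h2
  exact lt_irrefl _ h2

/-- the binomial estimate -/
theorem binom (hl : l.Prime) {u v : E} {M : Γ} (hu : w u ≤ M) (hv : w v ≤ M) :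
    w ((u + v) ^ l - u ^ l - v ^ l) ≤ w l * w u * w v * M ^ (l - 2) := by
  rw [add_pow_prime_eq hl, sub_sub, add_sub_cancel_left, map_mul, map_mul, map_mul]
  refine mul_le_mul_right (w.map_sum_le fun k hk => ?_) _
  obtain ⟨h1, h2⟩ := Finset.mem_Ioo.1 hk
  rw [map_mul, map_mul, map_pow, map_pow]
  refine (mul_le_of_le_one_right' (val_nat w _)).trans ?_
  rw [show l - 2 = (k - 1) + (l - k - 1) by omega, pow_add]
  exact mul_le_mul' (pow_le_pow_left' hu _) (pow_le_pow_left' hv _)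

/-- closeness to an `l`-th power -/
def Cl (l : ℕ) (z : E) : Prop := ∃ γ : E, γ ≠ 0 ∧ w (z / γ ^ l - 1) ^ 2 < w l

theorem lt_one_of_sq {a b : Γ} (h : a ^ 2 < b) (hb : b < 1) : a < 1 := by
  by_contra hc
  exact absurd (h.trans hb) (not_lt.2 (one_le_pow_of_one_le' (not_lt.1 hc) _))

theorem sq_lt {a b : Γ} (h : a ≤ b) (h0 : 0 < b) (hb : b < 1) : a ^ 2 < b := by
  refine (pow_le_pow_left' h 2).trans_lt ?_
  rw [sq]
  exact mul_lt_of_lt_one_right h0 hb

theorem Cl.inv {z : E} (hw : w l < 1) (h : Cl w l z) : Cl w l z⁻¹ := by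
  obtain ⟨γ, h0, h⟩ := h
  have h1 : w (z / γ ^ l) = 1 :=
    val_eq_one_of w (map_one w) (val_symm w (lt_one_of_sq h hw))
  have hz : z ≠ 0 := by
    rintro rfl
    simp at h1
  refine ⟨γ⁻¹, inv_ne_zero h0, ?_⟩
  have e : z⁻¹ / γ⁻¹ ^ l - 1 = -(z / γ ^ l - 1) / (z / γ ^ l) := by
    rw [inv_pow]
    field_simp
    ring
  rwa [e, map_div₀, h1, div_one, Valuation.map_neg]

theorem both_eq {a b M : Γ} (h0 : 0 < M) (ha : a ≤ M) (hb : b ≤ M) (h : a * b = M * M) :
    a = M := by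
  refine le_antisymm ha (not_lt.1 fun hc => ?_)
  have : a * b < M * M := (mul_le_mul_right hb a).trans_lt (mul_lt_mul_of_pos_right hc h0)
  exact absurd h this.ne

/-- the criterion for the main choice of the root -/
theorem crit {t y : E} (h1 : t - 1 ≠ 0) (h2 : t + 1 ≠ 0) (h3 : y + 1 ≠ 0) (h4 : w 2 = 1) {B : Γ}
    (a1 : w (y - t ^ l) ≤ B) (a2 : w (y - 1) * w ((t + 1) ^ l - t ^ l - 1) ≤ B)
    (a3 : w (y + 1) * w ((t - 1) ^ l - t ^ l + 1) ≤ B)
    (a4 : B ^ 2 < w l * (w (y + 1) * w (t - 1) ^ l) ^ 2) : Cl w l ((y - 1) / (y + 1)) := by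
  refine ⟨(t - 1) / (t + 1), div_ne_zero h1 h2, ?_⟩
  have e : (y - 1) / (y + 1) / ((t - 1) / (t + 1)) ^ l - 1 =
      (2 * (y - t ^ l) + (y - 1) * ((t + 1) ^ l - t ^ l - 1) -
        (y + 1) * ((t - 1) ^ l - t ^ l + 1)) / ((y + 1) * (t - 1) ^ l) := by
    rw [div_pow]
    field_simp
    ring
  have hD : 0 < w (y + 1) * w (t - 1) ^ l :=
    mul_pos (w.pos_iff.2 h3) (pow_pos (w.pos_iff.2 h1) _)
  rw [e, map_div₀, map_mul, map_pow, div_pow, div_lt_iff₀ (pow_pos hD _)]
  refine (pow_le_pow_left' ?_ 2).trans_lt a4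
  refine w.map_sub_le (w.map_add_le ?_ ?_) ?_
  · rwa [map_mul, h4, one_mul]
  · rwa [map_mul]
  · rwa [map_mul]

theorem le_of_two {a b c : E} (h4 : w 2 = 1) (h : w a ≤ w b) (e : b - a = 2 * c) : w c ≤ w b := by
  have := w.map_sub_le le_rfl h
  rwa [e, map_mul, h4, one_mul] at this

/-- the standing assumptions -/
structure Hyp (l : ℕ) (x y t ε : E) : Prop where
  hl : l.Prime
  h2 : 2 < l
  hw : w l < 1
  hx : x ≠ 0
  ht : t ^ 2 = 1 + x
  hy : y ^ 2 = x ^ l * (1 + ε) + 1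
  hε : w ε < w l

variable {w} {x y t ε : E}

namespace Hyp

theorem odd (H : Hyp w l x y t ε) : Odd l := H.hl.odd_of_ne_two H.h2.ne'

theorem two (H : Hyp w l x y t ε) : w 2 = 1 := val_two w H.odd H.hw

theorem pos (H : Hyp w l x y t ε) : 0 < w l := zero_le.trans_lt H.hε

theorem xpos (H : Hyp w l x y t ε) : 0 < w x := w.pos_iff.2 H.hx

theorem eps (H : Hyp w l x y t ε) : w (1 + ε) = 1 := w.map_one_add_of_lt (H.hε.trans H.hw)

theorem negt (H : Hyp w l x y t ε) : Hyp w l x y (-t) ε :=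
  { H with ht := by rw [neg_sq, H.ht] }

theorem negy (H : Hyp w l x y t ε) : Hyp w l x (-y) t ε :=
  { H with hy := by rw [neg_sq, H.hy] }

theorem hT (H : Hyp w l x y t ε) : w (t - 1) * w (t + 1) = w x := by
  rw [← map_mul]
  congr 1
  linear_combination H.ht

theorem hY (H : Hyp w l x y t ε) : w (y - 1) * w (y + 1) = w x ^ l := by
  rw [← map_mul, ← mul_one (w x ^ l), ← H.eps, ← map_pow, ← map_mul]
  congr 1
  linear_combination H.hy

theorem t1 (H : Hyp w l x y t ε) : t - 1 ≠ 0 := fun h => H.xpos.ne (by simp [← H.hT, h])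

theorem t2 (H : Hyp w l x y t ε) : t + 1 ≠ 0 := fun h => H.xpos.ne (by simp [← H.hT, h])

theorem y1 (H : Hyp w l x y t ε) : y - 1 ≠ 0 := fun h =>
  (pow_pos H.xpos l).ne (by simp [← H.hY, h])

theorem y2 (H : Hyp w l x y t ε) : y + 1 ≠ 0 := fun h =>
  (pow_pos H.xpos l).ne (by simp [← H.hY, h])

theorem hAB (H : Hyp w l x y t ε) :
    w (y - t ^ l) * w (y + t ^ l) = w (x ^ l * ε - ((1 + x) ^ l - 1 ^ l - x ^ l)) := by
  rw [← map_mul, ← H.ht, ← pow_mul, mul_comm 2 l, pow_mul, one_pow]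
  congr 1
  linear_combination H.hy

theorem ylep (H : Hyp w l x y t ε) {M : Γ} (h1 : 1 ≤ M) (h : w x ^ l ≤ M ^ 2) : w y ≤ M := by
  refine (pow_le_pow_iff_left₀ zero_le zero_le two_ne_zero).1 ?_
  rw [← map_pow, H.hy]
  refine w.map_add_le ?_ ?_
  · rwa [map_mul, H.eps, mul_one, map_pow]
  · rw [map_one]
    exact one_le_pow_of_one_le' h1 _

theorem ha (H : Hyp w l x y t ε) {M : Γ} (h1 : 1 ≤ M) (h : w t ≤ M) :
    w ((t + 1) ^ l - t ^ l - 1) ≤ w l * M ^ l := by
  have := binom w H.hl (u := t) (v := 1) h (by rwa [map_one])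
  rw [one_pow, map_one, mul_one, mul_assoc] at this
  refine this.trans (mul_le_mul_right ?_ _)
  refine (mul_le_mul_left h _).trans ?_
  rw [← pow_succ']
  exact pow_le_pow_right' h1 (by have := H.h2; omega)

theorem hb (H : Hyp w l x y t ε) {M : Γ} (h1 : 1 ≤ M) (h : w t ≤ M) :
    w ((t - 1) ^ l - t ^ l + 1) ≤ w l * M ^ l := by
  have := H.negt.ha h1 (by rwa [Valuation.map_neg])
  rw [← Valuation.map_neg, H.odd.neg_pow, show -t + 1 = -(t - 1) by ring, H.odd.neg_pow] at this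
  convert this using 2
  ring

theorem caseA (H : Hyp w l x y t ε) (h1 : 1 ≤ w t) (h2 : w x = w t * w t)
    (h3 : w (y - t ^ l) ≤ w (y + t ^ l)) : Cl w l ((y - 1) / (y + 1)) := by
  have T0 : 0 < w t := zero_lt_one.trans_le h1
  have Tl : 1 ≤ w t ^ l := one_le_pow_of_one_le' h1 _
  have Tl0 : 0 < w t ^ l := pow_pos T0 _
  have X1 : 1 ≤ w x := h2 ▸ one_le_mul h1 h1
  have Xl : w x ^ l = w t ^ l * w t ^ l := by rw [h2, mul_pow]
  have b1 : w (t - 1) = w t :=
    both_eq T0 (w.map_sub_le le_rfl (by rwa [map_one])) (w.map_add_le le_rfl (by rwa [map_one]))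
      (H.hT.trans h2)
  have b2 : w y ≤ w t ^ l := H.ylep Tl (by rw [Xl, sq])
  have b3 : w (y - 1) ≤ w t ^ l := w.map_sub_le b2 (by rwa [map_one])
  have b4 : w (y + 1) = w t ^ l :=
    both_eq Tl0 (w.map_add_le b2 (by rwa [map_one])) b3 (by rw [mul_comm, H.hY, Xl])
  have b5 : w t ^ l ≤ w (y + t ^ l) := by
    rw [← map_pow]
    exact le_of_two w H.two h3 (by ring)
  have b6 : w (y - t ^ l) * w t ^ l ≤ w l * w t ^ l * w t ^ l := by
    refine (mul_le_mul_right b5 _).trans ?_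
    rw [H.hAB, mul_assoc, ← Xl]
    refine w.map_sub_le ?_ ?_
    · rw [map_mul, map_pow, mul_comm]
      exact mul_le_mul_left H.hε.le _
    · refine (binom w H.hl (by rwa [map_one]) le_rfl).trans ?_
      rw [map_one, mul_one, mul_assoc, ← pow_succ']
      exact mul_le_mul_right (pow_le_pow_right' X1 (by have := H.h2; omega)) _
  refine crit w H.t1 H.t2 H.y2 H.two (B := w l * (w t ^ l * w t ^ l)) ?_ ?_ ?_ ?_
  · refine (le_of_mul_le_mul_right b6 Tl0).trans (mul_le_mul_right ?_ _)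
    exact le_mul_of_one_le_left' Tl
  · rw [mul_left_comm]
    exact mul_le_mul' b3 (H.ha h1 le_rfl)
  · rw [mul_left_comm]
    exact mul_le_mul' b4.le (H.hb h1 le_rfl)
  · rw [b4, b1, mul_pow]
    exact mul_lt_mul_of_pos_right (sq_lt le_rfl H.pos H.hw) (pow_pos (mul_pos Tl0 Tl0) _)

theorem caseB (H : Hyp w l x y t ε) (h1 : w t < 1)
    (h3 : w (y - t ^ l) ≤ w (y + t ^ l)) : Cl w l ((y - 1) / (y + 1)) := by
  have b0 : w (t + 1) = 1 := by rw [add_comm, w.map_one_add_of_lt h1]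
  have b1 : w (t - 1) = 1 := by rw [w.map_sub_swap, w.map_one_sub_of_lt h1]
  have h2 : w x = 1 := by rw [← H.hT, b0, b1, mul_one]
  have b2 : w y ≤ 1 := H.ylep le_rfl (by simp [h2])
  have b3 : w (y - 1) ≤ 1 := w.map_sub_le b2 (by simp)
  have b4 : w (y + 1) = 1 :=
    both_eq zero_lt_one (w.map_add_le b2 (by simp)) b3 (by rw [mul_comm, H.hY, h2]; simp)
  have tt : w (t ^ 2) < 1 := by
    rw [map_pow]
    exact pow_lt_one' h1 two_ne_zero
  have b6 : w (y - t ^ l) ^ 2 < w l := by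
    rw [sq]
    refine (mul_le_mul_right h3 _).trans_lt ?_
    rw [H.hAB]
    refine w.map_sub_lt ?_ ?_
    · rw [map_mul, map_pow, h2, one_pow, one_mul]
      exact H.hε
    · have := binom w H.hl (u := t ^ 2) (v := -1) tt.le (by simp)
      rw [one_pow, Valuation.map_neg, map_one, mul_one, mul_one, H.odd.neg_one_pow,
        ← Valuation.map_neg, H.ht, add_neg_cancel_comm] at this
      refine lt_of_le_of_lt (le_of_eq_of_le ?_ this) ?_
      · congr 1
        ring
      · exact mul_lt_of_lt_one_right H.pos (H.ht ▸ tt)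
  refine crit w H.t1 H.t2 H.y2 H.two (B := max (w (y - t ^ l)) (w l)) (le_max_left _ _) ?_ ?_ ?_
  · refine le_max_of_le_right ((mul_le_of_le_one_left' b3).trans ?_)
    simpa using H.ha le_rfl h1.le
  · refine le_max_of_le_right ((mul_le_of_le_one_left' b4.le).trans ?_)
    simpa using H.hb le_rfl h1.le
  · rw [b4, b1, one_pow, mul_one, one_pow, mul_one]
    rcases max_choice (w (y - t ^ l)) (w l) with e | e <;> rw [e]
    · exact b6
    · exact sq_lt le_rfl H.pos H.hw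

theorem small (H : Hyp w l x y t ε) (h1 : w x < 1) (h3 : w (y - 1) ≤ w (y + 1)) :
    w (y + 1) = 1 ∧ w (y - 1) = w x ^ l := by
  have b2 : w y ≤ 1 := H.ylep le_rfl (by rw [one_pow]; exact pow_le_one' h1.le _)
  have b4 : w (y + 1) = 1 := by
    refine le_antisymm (w.map_add_le b2 (by simp)) ?_
    rw [← map_one w]
    exact le_of_two w H.two h3 (by ring)
  exact ⟨b4, by rw [← H.hY, b4, mul_one]⟩

theorem caseC (H : Hyp w l x y t ε) (h1 : w x < 1) (h3 : w (y - 1) ≤ w (y + 1))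
    (h4 : (w x ^ l) ^ 2 < w l) : Cl w l ((y - 1) / (y + 1)) := by
  obtain ⟨b4, b5⟩ := H.small h1 h3
  have two0 : (2 : E) ≠ 0 := w.pos_iff.1 (H.two ▸ zero_lt_one)
  have xl : x ^ l ≠ 0 := pow_ne_zero _ H.hx
  have y2 := H.y2
  refine ⟨x / 2 ^ 2, div_ne_zero H.hx (pow_ne_zero _ two0), ?_⟩
  have e : (y - 1) / (y + 1) / (x / 2 ^ 2) ^ l - 1 =
      (ε * (2 ^ l) ^ 2 + (2 ^ l - 2) * (2 ^ l + 2) - (y - 1) * (y - 1 + 2 ^ 2)) / (y + 1) ^ 2 := by
    rw [div_pow, ← pow_mul, mul_comm 2 l, pow_mul]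
    field_simp
    linear_combination (2 ^ l) ^ 2 * H.hy
  have c1 : w (2 ^ l - 2) ≤ w l := by
    have := binom w H.hl (u := 1) (v := 1) (M := 1) (by simp) (by simp)
    rw [one_add_one_eq_two, one_pow, sub_sub, one_add_one_eq_two] at this
    simpa using this
  have c2 : w (2 ^ l + 2) ≤ 1 := w.map_add_le (by rw [map_pow, H.two, one_pow]) H.two.le
  have c3 : w (y - 1 + 2 ^ 2) ≤ 1 :=
    w.map_add_le (h3.trans b4.le) (by rw [map_pow, H.two, one_pow])
  rw [e, map_div₀, map_pow, b4, one_pow, div_one]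
  refine (pow_le_pow_left' (b := max (w x ^ l) (w l)) ?_ 2).trans_lt ?_
  · refine w.map_sub_le (le_max_of_le_right (w.map_add_le ?_ ?_)) (le_max_of_le_left ?_)
    · rw [map_mul, map_pow, map_pow, H.two, one_pow, one_pow, mul_one]
      exact H.hε.le
    · rw [map_mul]
      exact (mul_le_of_le_one_right' c2).trans c1
    · rw [map_mul, b5]
      exact mul_le_of_le_one_right' c3
  · rcases max_choice (w x ^ l) (w l) with e | e <;> rw [e]
    · exact h4
    · exact sq_lt le_rfl H.pos H.hw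

theorem tone (H : Hyp w l x y t ε) (h1 : w x < 1) : w t = 1 := by
  have : w t ^ 2 = 1 := by rw [← map_pow, H.ht, w.map_one_add_of_lt h1]
  exact (pow_eq_one_iff_left two_ne_zero).1 this

theorem caseD (H : Hyp w l x y t ε) (h1 : w x < 1) (h3 : w (y - 1) ≤ w (y + 1))
    (h2 : w (t - 1) ≤ w (t + 1)) (h4 : w l ≤ (w x ^ l) ^ 2) : Cl w l ((y - 1) / (y + 1)) := by
  obtain ⟨b4, b5⟩ := H.small h1 h3
  have T1 := H.tone h1
  have b0 : w (t + 1) = 1 := by
    refine le_antisymm (w.map_add_le T1.le (by simp)) ?_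
    rw [← map_one w]
    exact le_of_two w H.two h2 (by ring)
  have b1 : w (t - 1) = w x := by rw [← H.hT, b0, mul_one]
  have xl : w x ^ l ≤ w x := pow_le_of_le_one zero_le h1.le H.hl.ne_zero
  have c1 : w (y + t ^ l) = 1 := by
    have e : y + t ^ l = 2 + ((y - 1) + (t ^ l - 1 ^ l)) := by
      rw [one_pow]
      ring
    rw [e, w.map_add_eq_of_lt_left, H.two]
    rw [H.two]
    refine w.map_add_lt (b5 ▸ xl.trans_lt h1) ?_
    exact (val_pow_sub_pow_le w T1.le (by simp) l).trans_lt (b1 ▸ h1)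
  refine crit w H.t1 H.t2 H.y2 H.two (B := w l * w x) ?_ ?_ ?_ ?_
  · rw [← mul_one (w (y - t ^ l)), ← c1, H.hAB]
    refine w.map_sub_le ?_ ?_
    · rw [map_mul, map_pow, mul_comm]
      exact mul_le_mul' H.hε.le xl
    · simpa using binom w H.hl (u := 1) (v := x) (M := 1) (by simp) h1.le
  · rw [mul_comm, b5]
    exact mul_le_mul' (by simpa using H.ha le_rfl T1.le) xl
  · have := binom w H.hl (u := t - 1) (v := 1) (M := 1) (b1 ▸ h1.le) (by simp)
    rw [sub_add_cancel, one_pow, one_pow, map_one, mul_one, mul_one, b1,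
      ← Valuation.map_neg] at this
    rw [b4, one_mul]
    convert this using 2
    ring
  · rw [b4, b1, one_mul, mul_pow, sq, mul_assoc]
    refine mul_lt_mul_of_pos_left (lt_of_lt_of_le ?_ h4) H.pos
    exact mul_lt_of_lt_one_right H.pos (pow_lt_one' h1 two_ne_zero)

theorem flip (H : Hyp w l x y t ε) (h : Cl w l ((-y - 1) / (-y + 1))) :
    Cl w l ((y - 1) / (y + 1)) := by
  have := h.inv w H.hw
  rwa [inv_div, show -y + 1 = -(y - 1) by ring, show -y - 1 = -(y + 1) by ring,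
    neg_div_neg_eq] at this

theorem big (H : Hyp w l x y t ε) (h1 : 1 ≤ w x) (h3 : w (y - t ^ l) ≤ w (y + t ^ l)) :
    Cl w l ((y - 1) / (y + 1)) := by
  rcases lt_or_ge (w t) 1 with h | h
  · exact H.caseB h h3
  refine H.caseA h ?_ h3
  rw [← sq]
  rcases h1.eq_or_lt with h2 | h2
  · refine le_antisymm (h2 ▸ one_le_pow_of_one_le' h _) ?_
    rw [← map_pow, H.ht]
    exact w.map_add_le (by rwa [map_one]) le_rfl
  · rw [← map_pow, H.ht, w.map_add_eq_of_lt_right (by rwa [map_one])]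

theorem sml (H : Hyp w l x y t ε) (h1 : w x < 1) (h3 : w (y - 1) ≤ w (y + 1)) :
    Cl w l ((y - 1) / (y + 1)) := by
  rcases lt_or_ge ((w x ^ l) ^ 2) (w l) with h4 | h4
  · exact H.caseC h1 h3 h4
  rcases le_total (w (t - 1)) (w (t + 1)) with h2 | h2
  · exact H.caseD h1 h3 h2 h4
  · refine H.negt.caseD h1 h3 ?_ h4
    rwa [show -t + 1 = -(t - 1) by ring, show -t - 1 = -(t + 1) by ring, Valuation.map_neg,
      Valuation.map_neg]

theorem main (H : Hyp w l x y t ε) : Cl w l ((y - 1) / (y + 1)) := by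
  rcases lt_or_ge (w x) 1 with h1 | h1
  · rcases le_total (w (y - 1)) (w (y + 1)) with h3 | h3
    · exact H.sml h1 h3
    · refine H.flip (H.negy.sml h1 ?_)
      rwa [show -y + 1 = -(y - 1) by ring, show -y - 1 = -(y + 1) by ring, Valuation.map_neg,
        Valuation.map_neg]
  · rcases le_total (w (y - t ^ l)) (w (y + t ^ l)) with h3 | h3
    · exact H.big h1 h3
    · refine H.negt.big h1 ?_
      rwa [H.odd.neg_pow, sub_neg_eq_add, ← sub_eq_add_neg]

end Hyp

end Pool.Agent.MP_14ad9d_nt.Full.J5aAux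

end

section

set_option autoImplicit false

open NumberField IsDedekindDomain

namespace Pool.Agent.MP_14ad9d_nt.Full

open Sym1Aux

/-- the image of a point under the descent map is close to an `l`-th power -/
theorem wild_pt {l : ℕ} [Fact l.Prime] (hl : 2 < l) {E Γ : Type} [Field E]
    [LinearOrderedCommGroupWithZero Γ] (w : Valuation E Γ) (hw : w l < 1) {x y t ε : E}
    (hx : x ≠ 0) (ht : t ^ 2 = 1 + x) (hy : y ^ 2 = x ^ l * (1 + ε) + 1) (hε : w ε < w l) :
    ∃ γ : E, γ ≠ 0 ∧ w ((y - 1) / (y + 1) / γ ^ l - 1) ^ 2 < w l :=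
  J5aAux.Hyp.main ⟨Fact.out, hl, hw, hx, ht, hy, hε⟩

/-- every unit at a prime above `l` is an `l`-th power in the residue field -/
theorem J5aAux.res_root {l : ℕ} [Fact l.Prime] {K : Type} [Field K] [NumberField K] {v : Pr K}
    (hv : v.valuation K (l : K) < 1) {d : K} (hd : v.valuation K d = 1) :
    ∃ u : K, v.valuation K u = 1 ∧ v.valuation K (d - u ^ l) < 1 := by
  have := v.isMaximal
  let := Ideal.Quotient.field v.asIdeal
  have := finite_res v
  have hl : (l : 𝓞 K) ∈ v.asIdeal := (val_int_lt v _).1 (by simpa using hv)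
  have : CharP (𝓞 K ⧸ v.asIdeal) l := (CharP.charP_iff_prime_eq_zero Fact.out).2 (by
    rw [← map_natCast (Ideal.Quotient.mk v.asIdeal)]
    exact Ideal.Quotient.eq_zero_iff_mem.2 hl)
  obtain ⟨a, ha⟩ := exists_approx v hd.le
  obtain ⟨b, hb⟩ := surjective_frobenius (𝓞 K ⧸ v.asIdeal) l (Ideal.Quotient.mk _ a)
  obtain ⟨u, rfl⟩ := Ideal.Quotient.mk_surjective b
  rw [frobenius_def, ← map_pow, eq_comm, Ideal.Quotient.eq, ← val_int_lt] at hb
  have h1 : v.valuation K (d - (u : K) ^ l) < 1 := val_trans _ ha (by simpa using hb)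
  refine ⟨u, ?_, h1⟩
  have h2 := val_eq_one_of _ hd h1
  rw [map_pow] at h2
  exact (pow_eq_one_iff_left (Fact.out : l.Prime).ne_zero).1 h2

/-- the key comparison of valuations -/
theorem J5aAux.key {l : ℕ} (hl : l.Prime) {E Γ : Type} [Field E]
    [LinearOrderedCommGroupWithZero Γ] (w : Valuation E Γ) {d γ : E} (hγ : γ ≠ 0)
    (h1 : w (d - 1) < 1) (h2 : w (d / γ ^ l - 1) < w (d - 1)) (h3 : w l < w (d - 1)) :
    w (γ - 1) ^ l = w (d - 1) := by
  have a1 : w d = 1 := val_eq_one_of w (map_one w) (val_symm w h1)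
  have a2 : w (d / γ ^ l) = 1 := val_eq_one_of w (map_one w) (val_symm w (h2.trans h1))
  have a3 : w (γ ^ l) = 1 := by rwa [map_div₀, a1, one_div, inv_eq_one] at a2
  have a4 : w γ = 1 := by
    rw [map_pow] at a3
    exact (pow_eq_one_iff_left hl.ne_zero).1 a3
  have a5 : w (d - γ ^ l) < w (d - 1) := by
    have e : d - γ ^ l = (d / γ ^ l - 1) * γ ^ l := by field_simp
    rwa [e, map_mul, a3, mul_one]
  have a6 : w (γ - 1) ≤ 1 := w.map_sub_le a4.le (by simp)
  have a7 := J5aAux.binom w hl (u := γ - 1) (v := 1) a6 (by simp)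
  rw [sub_add_cancel, one_pow, one_pow, map_one, mul_one, mul_one] at a7
  have a8 := (a7.trans (mul_le_of_le_one_right' a6)).trans_lt h3
  rw [← map_pow]
  apply w.map_eq_of_sub_lt
  have e : (γ - 1) ^ l - (d - 1) = -((d - γ ^ l) + (γ ^ l - (γ - 1) ^ l - 1)) := by ring
  rw [e, Valuation.map_neg]
  exact w.map_add_lt a5 a8

/-- descent of closeness along an extension whose ramification index is prime to `l` -/
theorem wild_down {l : ℕ} [Fact l.Prime] (hl : 2 < l) {K E : Type} [Field K] [NumberField K]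
    [Field E] [NumberField E] [Algebra K E] {ζ : K} (hζ : IsPrimitiveRoot ζ l) {v : Pr K}
    (h1 : ord v (1 - ζ) = 1) {w : Pr E} (hw : w.asIdeal.LiesOver v.asIdeal)
    (he : ¬l ∣ w.asIdeal.ramificationIdx (𝓞 K)) {d : K} (hd : d ≠ 0) {γ : E} (hγ : γ ≠ 0)
    (h : w.valuation E (algebraMap K E d / γ ^ l - 1) ^ 2 < w.valuation E (l : E)) :
    NearAt l ζ ((l + 1) / 2) v d := by
  have hp : l.Prime := Fact.out
  have hodd : Odd l := hp.odd_of_ne_two hl.ne'
  have inj := (algebraMap K E).injective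
  set e := w.asIdeal.ramificationIdx (𝓞 K) with hedef
  have e0 : e ≠ 0 := fun h0 => he (h0 ▸ dvd_zero l)
  have π0 : 1 - ζ ≠ 0 := sub_ne_zero.2 (hζ.ne_one hp.one_lt).symm
  have vπ : v.valuation K (1 - ζ) = WithZero.exp (-1) := by rw [val_eq_exp v π0, h1]
  have vπ1 : v.valuation K (1 - ζ) < 1 := (val_lt_one_iff v π0).2 (by omega)
  have vl : v.valuation K (l : K) < 1 := by
    rw [val_ell hζ]
    exact pow_lt_one' vπ1 (by omega)
  have wl : w.valuation E (l : E) = v.valuation K (l : K) ^ e := by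
    rw [← Sym2Aux.val_over hw, map_natCast (algebraMap K E)]
  have wl1 : w.valuation E (l : E) < 1 := wl ▸ pow_lt_one' vl e0
  have d0 : algebraMap K E d ≠ 0 := by simpa using hd
  have a1 : ord w (algebraMap K E d / γ ^ l) = 0 :=
    (val_eq_one_iff w (div_ne_zero d0 (pow_ne_zero _ hγ))).1
      (val_eq_one_of _ (map_one _) (val_symm _ (J5aAux.lt_one_of_sq h wl1)))
  rw [div_eq_mul_inv, ord_mul w d0 (inv_ne_zero (pow_ne_zero _ hγ)), ord_inv, ord_pow,
    ord_over hw, ← hedef] at a1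
  have hpz : Prime (l : ℤ) := Nat.prime_iff_prime_int.1 hp
  have he' : ¬(l : ℤ) ∣ (e : ℤ) := fun h => he (Int.natCast_dvd_natCast.1 h)
  obtain ⟨k, hk⟩ : (l : ℤ) ∣ ord v d :=
    (hpz.dvd_or_dvd (⟨ord w γ, by linear_combination a1⟩ : (l : ℤ) ∣ e * ord v d)).resolve_left he'
  have πk : (1 - ζ) ^ k ≠ 0 := zpow_ne_zero _ π0
  have a2 : v.valuation K (d / ((1 - ζ) ^ k) ^ l) = 1 := by
    rw [val_eq_one_iff v (div_ne_zero hd (pow_ne_zero _ πk)), div_eq_mul_inv,
      ord_mul v hd (inv_ne_zero (pow_ne_zero _ πk)), ord_inv, ord_pow, ord_zpow, h1, hk]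
    ring
  obtain ⟨u, hu, hu'⟩ := J5aAux.res_root vl a2
  have u0 : u ≠ 0 := by
    rintro rfl
    simp at hu
  have δ0 : (1 - ζ) ^ k * u ≠ 0 := mul_ne_zero πk u0
  have a3 : v.valuation K (d / ((1 - ζ) ^ k * u) ^ l - 1) < 1 := by
    have e1 : d / ((1 - ζ) ^ k * u) ^ l - 1 = (d / ((1 - ζ) ^ k) ^ l - u ^ l) / u ^ l := by
      rw [mul_pow]
      field_simp
    rwa [e1, map_div₀, map_pow, hu, one_pow, div_one]
  refine ⟨_, δ0, not_lt.1 fun hc => ?_⟩
  generalize (1 - ζ) ^ k * u = δ at δ0 a3 hc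
  have δ0' : algebraMap K E δ ≠ 0 := by simpa using δ0
  have c0 : d / δ ^ l - 1 ≠ 0 := (Valuation.pos_iff _).1 (zero_le.trans_lt hc)
  have i0 := (val_lt_one_iff v c0).1 a3
  rw [vπ, val_eq_exp v c0, ← WithZero.exp_nsmul, WithZero.exp_lt_exp] at hc
  have wd : w.valuation E (algebraMap K E (d / δ ^ l) - 1) =
      WithZero.exp (e • -ord v (d / δ ^ l - 1)) := by
    rw [← map_one (algebraMap K E), ← map_sub, Sym2Aux.val_over hw, val_eq_exp v c0,
      WithZero.exp_nsmul]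
  rw [val_ell hζ, vπ, ← WithZero.exp_nsmul, ← WithZero.exp_nsmul] at wl
  generalize ord v (d / δ ^ l - 1) = i at i0 hc wd
  obtain ⟨m, hm⟩ := hodd
  have m1 : (l + 1) / 2 = m + 1 := by omega
  have m2 : l - 1 = 2 * m := by omega
  have epos : (0 : ℤ) < e := by omega
  simp only [m1, m2, nsmul_eq_mul] at hc wd wl
  push_cast at hc wl
  have im : i ≤ m := by omega
  have key := J5aAux.key hp (w.valuation E) (d := algebraMap K E (d / δ ^ l))
    (γ := γ / algebraMap K E δ) (div_ne_zero hγ δ0') ?_ ?_ ?_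
  · have g0 : γ / algebraMap K E δ - 1 ≠ 0 := by
      intro h0
      rw [h0, map_zero, zero_pow hp.ne_zero, wd] at key
      exact WithZero.exp_ne_zero key.symm
    rw [wd, val_eq_exp w g0, ← WithZero.exp_nsmul, WithZero.exp_inj, nsmul_eq_mul] at key
    have : (l : ℤ) ∣ i := (hpz.dvd_or_dvd
      (⟨ord w (γ / algebraMap K E δ - 1), by linear_combination key⟩ :
        (l : ℤ) ∣ e * i)).resolve_left he'
    have := Int.le_of_dvd i0 this
    omega
  · rw [wd, ← WithZero.exp_zero, WithZero.exp_lt_exp]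
    nlinarith
  · have e1 : algebraMap K E (d / δ ^ l) / (γ / algebraMap K E δ) ^ l =
        algebraMap K E d / γ ^ l := by
      rw [map_div₀, map_pow, div_pow]
      field_simp
    rw [e1]
    refine lt_of_pow_lt_pow_left₀ 2 zero_le (h.trans_le ?_)
    rw [wd, wl, ← WithZero.exp_nsmul, WithZero.exp_le_exp, nsmul_eq_mul]
    push_cast
    nlinarith
  · rw [wd, wl, WithZero.exp_lt_exp]
    nlinarith

end Pool.Agent.MP_14ad9d_nt.Full

end

section

set_option autoImplicit false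

open NumberField IsDedekindDomain

namespace Pool.Agent.MP_14ad9d_nt.Full

namespace J5Aux

theorem ne_of_pt {l : ℕ} {E : Type} [Field E] {a b s : E} (ha : a ≠ 0)
    (hb : b ^ 2 = a ^ l + s ^ 2) : b - s ≠ 0 ∧ b + s ≠ 0 ∧ (b - s) * (b + s) = a ^ l := by
  have e : (b - s) * (b + s) = a ^ l := by linear_combination hb
  have h := mul_ne_zero_iff.1 (e ▸ pow_ne_zero l ha)
  exact ⟨h.1, h.2, e⟩

theorem clo_ord {l : ℕ} {E : Type} [Field E] [NumberField E] (w : Pr E) {s : E}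
    (s0 : E) (hc : (l : ℤ) ∣ ord w (2 * s)) : Clo l s s0 fun z => (l : ℤ) ∣ ord w z where
  mul a b ha hb h1 h2 := by
    rw [ord_mul w ha hb]
    exact dvd_add h1 h2
  pow e _ := by
    rw [ord_pow]
    exact dvd_mul_right _ _
  two := by
    rw [ord_pow]
    exact hc.mul_left _
  two' := by
    rw [ord_inv, ord_pow]
    exact (hc.mul_left _).neg_right
  pt a b t ha hb _ := by
    obtain ⟨h1, h2, e⟩ := ne_of_pt ha hb
    have h3 : ord w (b - s) + ord w (b + s) = l * ord w a := by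
      rw [← ord_mul w h1 h2, e, ord_pow]
    have h4 : (2 * s) = (b + s) - (b - s) := by ring
    rw [div_eq_mul_inv, ord_mul w h1 (inv_ne_zero h2), ord_inv]
    rcases lt_trichotomy (w.valuation E (b - s)) (w.valuation E (b + s)) with h | h | h
    · have h5 : ord w (2 * s) = ord w (b + s) := by
        rw [ord, ord, h4, Valuation.map_sub_eq_of_lt_left _ h]
      have h6 : ord w (b - s) + -ord w (b + s) = l * ord w a - 2 * ord w (2 * s) := by
        rw [h5, ← h3]; ring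
      rw [h6]
      exact dvd_sub (dvd_mul_right _ _) (hc.mul_left _)
    · rw [ord, ord, h, add_neg_cancel]
      exact dvd_zero _
    · have h5 : ord w (2 * s) = ord w (b - s) := by
        rw [ord, ord, h4, Valuation.map_sub_eq_of_lt_right _ h]
      have h6 : ord w (b - s) + -ord w (b + s) = 2 * ord w (2 * s) - l * ord w a := by
        rw [h5, ← h3]; ring
      rw [h6]
      exact dvd_sub (hc.mul_left _) (dvd_mul_right _ _)

theorem two_ne {l : ℕ} [Fact l.Prime] (hl : 2 < l) : (2 : ZMod l) ≠ 0 := by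
  intro h
  have : ((2 : ℕ) : ZMod l) = 0 := by simpa using h
  rw [ZMod.natCast_eq_zero_iff] at this
  have := Nat.le_of_dvd two_pos this
  omega

theorem clo_tame {l : ℕ} [Fact l.Prime] (hl : 2 < l) {E : Type} [Field E] [NumberField E] {ζ : E}
    (hζ : IsPrimitiveRoot ζ l) {w : Pr E} (hw : Tm l w) {s : E} (hs : s ≠ 0) (s0 : E) :
    Clo l s s0 fun z => tame l ζ w z (2 * s) = 0 := by
  have h2s : 2 * s ≠ 0 := mul_ne_zero two_ne_zero hs
  refine ⟨fun a b ha hb h1 h2 => ?_, fun e he => ?_, ?_, ?_, fun a b t ha hb _ => ?_⟩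
  · rw [tame_mul_left hl hζ hw ha hb h2s, h1, h2, add_zero]
  · rw [← zpow_natCast, tame_zpow_left hl hζ hw he h2s]
    simp
  · rw [← zpow_natCast, tame_zpow_left hl hζ hw h2s h2s, tame_self hl hζ hw, mul_zero]
  · rw [← zpow_natCast, ← zpow_neg, tame_zpow_left hl hζ hw h2s h2s, tame_self hl hζ hw, mul_zero]
  · obtain ⟨h1, h2, e⟩ := ne_of_pt ha hb
    have hz : (b - s) / (b + s) ≠ 0 := div_ne_zero h1 h2
    have e1 : 1 - (b - s) / (b + s) = 2 * s / (b + s) := by
      field_simp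
      ring
    have e2 : (b + s) ^ (2 : ℤ) = a ^ (l : ℤ) * ((b - s) / (b + s)) ^ (-1 : ℤ) := by
      rw [zpow_natCast, ← e, zpow_neg_one]
      field_simp
    have e3 : 2 * s = (1 - (b - s) / (b + s)) * (b + s) := by
      rw [e1]
      field_simp
    have hz1 : (b - s) / (b + s) ≠ 1 := by
      intro h
      rw [h, sub_self, zero_mul] at e3
      exact h2s e3
    generalize (b - s) / (b + s) = z at hz e2 e3 hz1
    have k1 := tame_steinberg hl hζ hw hz hz1
    have k2 := tame_zpow_right hl hζ hw hz h2 2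
    rw [e2, tame_mul_right hl hζ hw hz (zpow_ne_zero _ ha) (zpow_ne_zero _ hz),
      tame_zpow_right hl hζ hw hz ha, tame_zpow_right hl hζ hw hz hz, tame_self hl hζ hw] at k2
    have k3 : tame l ζ w z (b + s) = 0 := by
      refine (mul_eq_zero.1 ?_).resolve_left (two_ne hl)
      simpa using k2.symm
    rw [e3, tame_mul_right hl hζ hw hz (sub_ne_zero.2 hz1.symm) h2, k1, k3, add_zero]

section Near

variable {E Γ : Type} [Field E] [LinearOrderedCommGroupWithZero Γ] (V : Valuation E Γ)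

theorem lt_one_of_sq {c x : Γ} (hc : c < 1) (h : x ^ 2 < c) : x < 1 := by
  by_contra h1
  exact absurd (h.trans hc) (not_lt.2 (one_le_pow₀ (not_lt.1 h1)))

theorem sq_lt_of_lt {c x : Γ} (hc : c < 1) (h : x < c) : x ^ 2 < c := by
  rw [sq]
  exact (mul_le_of_le_one_left' (h.trans hc).le).trans_lt h

theorem near_mul {c : Γ} (hc : c < 1) {x y : E} (hx : V (x - 1) ^ 2 < c) (hy : V (y - 1) ^ 2 < c) :
    V (x * y - 1) ^ 2 < c := by
  have e : x * y - 1 = (x - 1) * y + (y - 1) := by ring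
  have h1 : V y ≤ 1 := by
    have : y = 1 + (y - 1) := by ring
    rw [this]
    exact V.map_add_le (map_one V).le (lt_one_of_sq hc hy).le
  have h2 : V ((x - 1) * y) ≤ V (x - 1) := by
    rw [map_mul]
    exact mul_le_of_le_one_right' h1
  rw [e]
  rcases le_total (V (x - 1)) (V (y - 1)) with h | h
  · exact (pow_le_pow_left₀ zero_le (V.map_add_le (h2.trans h) le_rfl) 2).trans_lt hy
  · exact (pow_le_pow_left₀ zero_le (V.map_add_le h2 h) 2).trans_lt hx

theorem val_one {x : E} (hx : V (x - 1) < 1) : V x = 1 := by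
  have : x = 1 + (x - 1) := by ring
  rw [this]
  exact V.map_one_add_of_lt hx

theorem val_inv {x : E} (hx : V (x - 1) < 1) : V (x⁻¹ - 1) = V (x - 1) := by
  have h1 := val_one V hx
  have h0 : x ≠ 0 := by
    rintro rfl
    simp at h1
  have e : x⁻¹ - 1 = -(x - 1) * x⁻¹ := by
    field_simp
    ring
  rw [e, map_mul, map_inv₀, h1, inv_one, mul_one, Valuation.map_neg]

/-- close to an `l`-th power -/
def Nr (l : ℕ) (z : E) : Prop := ∃ γ : E, γ ≠ 0 ∧ V (z / γ ^ l - 1) ^ 2 < V l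

theorem Nr.mul {l : ℕ} (hw : V l < 1) {x y : E} (hx : Nr V l x) (hy : Nr V l y) :
    Nr V l (x * y) := by
  obtain ⟨γ, h1, h2⟩ := hx
  obtain ⟨δ, h3, h4⟩ := hy
  refine ⟨γ * δ, mul_ne_zero h1 h3, ?_⟩
  rw [mul_pow, ← div_mul_div_comm]
  exact near_mul V hw h2 h4

theorem Nr.inv {l : ℕ} (hw : V l < 1) {x : E} (hx : Nr V l x) : Nr V l x⁻¹ := by
  obtain ⟨γ, h1, h2⟩ := hx
  refine ⟨γ⁻¹, inv_ne_zero h1, ?_⟩
  rw [inv_pow, inv_div_inv, ← inv_div, val_inv V (lt_one_of_sq hw h2)]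
  exact h2

theorem val_nat (n : ℕ) : V (n : E) ≤ 1 := by
  induction n with
  | zero => simp
  | succ n ih =>
    rw [Nat.cast_succ]
    exact V.map_add_le ih (map_one V).le

theorem nr_two [CharZero E] {l : ℕ} (hp : l.Prime) (hl : 2 < l) (hw : V l < 1) : Nr V l 2 := by
  have h0 : 0 < V l := zero_lt_iff.2 ((Valuation.ne_zero_iff _).2 (Nat.cast_ne_zero.2 hp.ne_zero))
  have h1 : 2 ^ (l - 1) ≡ 1 [MOD l] := by
    have := Nat.ModEq.pow_totient (x := 2) (n := l)
      ((Nat.coprime_primes Nat.prime_two hp).2 (by omega))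
    rwa [Nat.totient_prime hp] at this
  obtain ⟨m, hm⟩ := (Nat.modEq_iff_dvd' (Nat.one_le_two_pow)).1 h1.symm
  have h2 : (2 : E) ^ (l - 1) - 1 = l * m := by
    have := congrArg (Nat.cast : ℕ → E) hm
    rwa [Nat.cast_sub Nat.one_le_two_pow, Nat.cast_pow, Nat.cast_mul, Nat.cast_ofNat,
      Nat.cast_one] at this
  have h3 : V ((2 : E) ^ (l - 1) - 1) ≤ V l := by
    rw [h2, map_mul]
    exact mul_le_of_le_one_right' (val_nat V m)
  refine ⟨2, two_ne_zero, ?_⟩
  have e : (2 : E) / 2 ^ l = (2 ^ (l - 1))⁻¹ := by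
    obtain ⟨k, rfl⟩ : ∃ k, l = k + 1 := ⟨l - 1, by omega⟩
    rw [Nat.add_sub_cancel, pow_succ]
    field_simp
  rw [e, val_inv V (h3.trans_lt hw)]
  refine (pow_le_pow_left₀ zero_le h3 2).trans_lt ?_
  rw [sq]
  exact mul_lt_of_lt_one_left h0 hw

theorem clo_near [CharZero E] {l : ℕ} [Fact l.Prime] (hl : 2 < l) (hw : V l < 1) {s γ : E}
    (hs : s ≠ 0) (hγ : γ ≠ 0) (h : V (s / γ ^ l - 1) < V l) : Clo l s γ (Nr V l) := by
  have hp : l.Prime := Fact.out
  have h0 : 0 < V l := zero_lt_iff.2 ((Valuation.ne_zero_iff _).2 (Nat.cast_ne_zero.2 hp.ne_zero))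
  have n1 : Nr V l (2 * s) := (nr_two V hp hl hw).mul V hw ⟨γ, hγ, sq_lt_of_lt hw h⟩
  have n2 : Nr V l ((2 * s) ^ 2) := by
    rw [sq]
    exact n1.mul V hw n1
  refine ⟨fun a b _ _ h1 h2 => h1.mul V hw h2, fun e he => ⟨e, he, ?_⟩, n2, n2.inv V hw,
    fun a b t ha hb ht => ?_⟩
  · rw [div_self (pow_ne_zero _ he), sub_self, map_zero, zero_pow two_ne_zero]
    exact h0
  · have e1 : t ^ 2 = 1 + a / γ ^ 2 := by
      rw [ht]
      field_simp
      ring
    have e2 : (b / s) ^ 2 = (a / γ ^ 2) ^ l * (1 + ((s / γ ^ l)⁻¹ ^ 2 - 1)) + 1 := by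
      rw [div_pow, div_pow, hb, ← pow_mul, mul_comm 2 l, pow_mul]
      field_simp
      ring
    have e3 : V ((s / γ ^ l)⁻¹ ^ 2 - 1) < V l := by
      have k1 := val_inv V (h.trans hw)
      have k2 : V (s / γ ^ l)⁻¹ = 1 := by rw [map_inv₀, val_one V (h.trans hw), inv_one]
      generalize (s / γ ^ l)⁻¹ = y at k1 k2
      have e : y ^ 2 - 1 = (y - 1) * (y + 1) := by ring
      rw [e, map_mul, k1]
      exact (mul_le_of_le_one_right' (V.map_add_le k2.le (map_one V).le)).trans_lt h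
    obtain ⟨δ, d0, hd⟩ := wild_pt hl V hw (div_ne_zero ha (pow_ne_zero 2 hγ)) e1 e2 e3
    refine ⟨δ, d0, ?_⟩
    have e4 : (b / s - 1) / (b / s + 1) = (b - s) / (b + s) := by
      rw [div_sub_one hs, div_add_one hs, div_div_div_cancel_right₀ hs]
    rwa [e4] at hd

end Near

theorem ef_not {l : ℕ} {K E : Type} [Field K] [NumberField K] [Field E] [NumberField E]
    [Algebra K E] [IsGalois K E] (hn : ¬l ∣ Module.finrank K E) {v : Pr K} {w : Pr E}
    (h : w.asIdeal.LiesOver v.asIdeal) :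
    ¬l ∣ w.asIdeal.ramificationIdx (𝓞 K) * w.asIdeal.inertiaDeg (𝓞 K) :=
  fun hd => hn (hd.trans (ef_dvd h))

end J5Aux

open J5Aux

variable {l : ℕ} [Fact l.Prime] [Fact (2 < l)] {K : Type} [Field K] [NumberField K] {s : Kˣ}
  {ζ : K} {hζ : IsPrimitiveRoot ζ l} {x : Jac l s} {d : K}

theorem Del.ord_dvd (h : Del l s hζ x d) {v : Pr K} (hv : Tm l v)
    (hc : (l : ℤ) ∣ ord v (2 * (s : K))) : (l : ℤ) ∣ ord v d := by
  obtain ⟨E, _, _, _, _, hn, hP⟩ := reduce h (s0 := 1) one_ne_zero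
  obtain ⟨w, hw⟩ := exists_over (E' := E) v
  have he : ¬l ∣ w.asIdeal.ramificationIdx (𝓞 K) := fun hd => ef_not hn hw (hd.mul_right _)
  have h1 := hP _ (clo_ord w _ (by
    have := ord_over hw (2 * (s : K))
    rw [map_mul, map_ofNat] at this
    rw [this]
    exact hc.mul_left _))
  rw [ord_over hw] at h1
  exact ((Nat.prime_iff_prime_int.1 Fact.out).dvd_or_dvd h1).resolve_left
    fun hd => he (Int.natCast_dvd_natCast.1 hd)

theorem Del.tame_eq (h : Del l s hζ x d) {v : Pr K} (hv : Tm l v) :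
    tame l ζ v d (2 * (s : K)) = 0 := by
  have hl : 2 < l := Fact.out
  obtain ⟨E, _, _, _, _, hn, hP⟩ := reduce h (s0 := 1) one_ne_zero
  obtain ⟨w, hw⟩ := exists_over (E' := E) v
  have h1 := hP _ (clo_tame hl (hζ.map_of_injective (algebraMap K E).injective)
    ((tm_over hw).2 hv) ((map_ne_zero _).2 s.ne_zero) _)
  have h2 := tame_over hl hζ hv hw h.ne_zero (mul_ne_zero two_ne_zero s.ne_zero)
  rw [map_mul, map_ofNat, h1] at h2
  refine (mul_eq_zero.1 h2.symm).resolve_left fun h3 => ef_not hn hw ?_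
  rw [← ZMod.natCast_eq_zero_iff, Nat.cast_mul]
  exact h3

theorem Del.nearAt (h : Del l s hζ x d) {v : Pr K} (h1 : ord v (1 - ζ) = 1)
    (hs : NearAt l ζ (l + 1) v (s : K)) : NearAt l ζ ((l + 1) / 2) v d := by
  have hl : 2 < l := Fact.out
  have hp : l.Prime := Fact.out
  obtain ⟨γ, hγ, hs⟩ := hs
  obtain ⟨E, _, _, _, _, hn, hP⟩ := reduce h hγ
  obtain ⟨w, hw⟩ := exists_over (E' := E) v
  have he : ¬l ∣ w.asIdeal.ramificationIdx (𝓞 K) := fun hd => ef_not hn hw (hd.mul_right _)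
  have he0 : w.asIdeal.ramificationIdx (𝓞 K) ≠ 0 := fun e => he (e ▸ dvd_zero l)
  have z1 : 1 - ζ ≠ 0 := sub_ne_zero.2 (hζ.ne_one hp.one_lt).symm
  have a0 : 0 < v.valuation K (1 - ζ) := zero_lt_iff.2 ((Valuation.ne_zero_iff _).2 z1)
  have a1 : v.valuation K (1 - ζ) < 1 := (Sym1Aux.val_lt_one_iff v z1).2 (by omega)
  have a2 : v.valuation K (l : K) < 1 := by
    rw [val_ell hζ]
    exact pow_lt_one₀ zero_le a1 (by omega)
  have a3 : v.valuation K (s / γ ^ l - 1) < v.valuation K (l : K) := by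
    rw [val_ell hζ]
    exact hs.trans_lt (pow_lt_pow_right_of_lt_one₀ a0 a1 (by omega))
  have b2 : w.valuation E (l : E) < 1 := by
    rw [← map_natCast (algebraMap K E), Sym2Aux.val_over hw]
    exact pow_lt_one₀ zero_le a2 he0
  have b3 : w.valuation E (algebraMap K E s / algebraMap K E γ ^ l - 1) < w.valuation E (l : E) := by
    rw [← map_natCast (algebraMap K E), ← map_pow, ← map_div₀, ← map_one (algebraMap K E),
      ← map_sub, Sym2Aux.val_over hw, Sym2Aux.val_over hw]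
    exact pow_lt_pow_left₀ a3 zero_le he0
  obtain ⟨δ, d0, hd⟩ := hP _ (clo_near (w.valuation E) hl b2 ((map_ne_zero _).2 s.ne_zero)
    ((map_ne_zero _).2 hγ) b3)
  exact wild_down hl hζ h1 hw he h.ne_zero d0 hd

end Pool.Agent.MP_14ad9d_nt.Full

end
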