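import Mathlib
import Pool.Agent.GT.Basic
import Pool.Agent.MP_357fb4_an.Basic
import Pool.Agent.MP_357fb4_an.Defs
import Pool.Agent.MP_357fb4_an.FL

section

/-!
Products over cubes and the Gowers-Cauchy-Schwarz inequality.
-/

open scoped BigOperators Classical ComplexConjugate Polynomial
open Finset Filter MeasureTheory Topology

noncomputable section

namespace Pool.Agent.MP_357fb4_an

variable {Y : Type} [MeasurableSpace Y] {μ : Measure Y} [IsProbabilityMeasure μ]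

theorem Cube_cj_mul {r : ℕ} (ε : Fin r → Bool) (z w : ℂ) : cj ε (z * w) = cj ε z * cj ε w := by
  unfold cj; split_ifs <;> simp

theorem Cube_cj_one {r : ℕ} (ε : Fin r → Bool) : cj ε 1 = 1 := by
  unfold cj; split_ifs <;> simp

theorem Cube_cj_conj {r : ℕ} (ε : Fin r → Bool) (z : ℂ) : cj ε (conj z) = conj (cj ε z) := by
  unfold cj; split_ifs <;> simp

theorem Cube_norm_cj {r : ℕ} (ε : Fin r → Bool) (z : ℂ) : ‖cj ε z‖ = ‖z‖ := by
  unfold cj; split_ifs <;> simp

theorem Cube_cj_false {r : ℕ} (z : ℂ) : cj (fun _ : Fin r => false) z = z := by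
  simp [cj]

theorem Cube_B1_cj {r : ℕ} (ε : Fin r → Bool) {f : Y → ℂ} (hf : B1 f) :
    B1 fun y => cj ε (f y) := by
  unfold cj
  split_ifs
  · exact hf
  · exact hf.conj

theorem Cube_cj_cons_false {r : ℕ} (ε : Fin r → Bool) (z : ℂ) :
    cj (Fin.cons false ε : Fin (r + 1) → Bool) z = cj ε z := by
  unfold cj
  rw [Fin.card_filter_univ_succ']
  simp

theorem Cube_cj_cons_true {r : ℕ} (ε : Fin r → Bool) (z : ℂ) :
    cj (Fin.cons true ε : Fin (r + 1) → Bool) z = cj ε (conj z) := by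
  unfold cj
  rw [Fin.card_filter_univ_succ']
  simp only [Fin.cons_zero, Fin.cons_succ, if_true, add_comm 1, Nat.even_add_one]
  split_ifs <;> simp_all

theorem Cube_mix_cons {r : ℕ} (b : Bool) (ε : Fin r → Bool) (h₀ k₀ : ℕ) (h k : Fin r → ℕ) :
    mix (Fin.cons b ε : Fin (r + 1) → Bool) (Fin.cons h₀ h) (Fin.cons k₀ k) =
      Fin.cons (if b then k₀ else h₀) (mix ε h k) := by
  funext i
  refine Fin.cases ?_ (fun j => ?_) i <;> simp [mix]

theorem Cube_cons {r : ℕ} (Γ : (Fin (r + 1) → ℕ) → ℂ) (h₀ k₀ : ℕ) (h k : Fin r → ℕ) :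
    cube Γ (Fin.cons h₀ h) (Fin.cons k₀ k) =
      cube (fun v => Γ (Fin.cons h₀ v) * conj (Γ (Fin.cons k₀ v))) h k := by
  unfold cube
  rw [← (Fin.consEquiv fun _ => Bool).prod_comp, Fintype.prod_prod_type, Fintype.prod_bool,
    ← prod_mul_distrib]
  refine prod_congr rfl fun ε _ => ?_
  change cj (Fin.cons true ε) (Γ (mix (Fin.cons true ε) _ _)) *
    cj (Fin.cons false ε) (Γ (mix (Fin.cons false ε) _ _)) = _
  rw [Cube_mix_cons, Cube_mix_cons, Cube_cj_cons_true, Cube_cj_cons_false, Cube_cj_mul, mul_comm]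
  rfl

theorem Cube_zero (Γ : (Fin 0 → ℕ) → ℂ) (h k : Fin 0 → ℕ) : cube Γ h k = Γ h := by
  unfold cube
  rw [Fintype.prod_subsingleton _ fun _ => false, Cube_cj_false]
  exact congrArg Γ (Subsingleton.elim _ _)

theorem Cube_expect_zero {M : Type} [AddCommMonoid M] [Module ℚ≥0 M] (H : ℕ)
    (f : (Fin 0 → ℕ) → M) : 𝔼 h ∈ pb 0 H, f h = f fun _ => 0 := by
  have : pb 0 H = {fun _ => 0} := by
    ext h
    simp only [pb, Fintype.mem_piFinset, IsEmpty.forall_iff, mem_singleton, true_iff]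
    exact Subsingleton.elim _ _
  rw [this]
  simp [expect]

theorem Cube_expect_succ {M : Type} [AddCommMonoid M] [Module ℚ≥0 M] (r H : ℕ)
    (f : (Fin (r + 1) → ℕ) → M) :
    𝔼 h ∈ pb (r + 1) H, f h = 𝔼 h₀ ∈ range H, 𝔼 h ∈ pb r H, f (Fin.cons h₀ h) := by
  rw [← expect_product']
  refine expect_nbij' (fun h => (h 0, Fin.tail h)) (fun p => Fin.cons p.1 p.2) ?_ ?_ ?_ ?_ ?_
  · intro h hh
    simp only [pb, Fintype.mem_piFinset, mem_product] at hh ⊢
    exact ⟨hh 0, fun i => hh i.succ⟩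
  · intro p hp
    simp only [pb, Fintype.mem_piFinset, mem_product] at hp ⊢
    intro i
    refine Fin.cases ?_ (fun j => ?_) i
    · simpa using hp.1
    · simpa using hp.2 j
  · intro h _
    simp
  · intro p _
    simp
  · intro h _
    simp

theorem Cube_expect_two {M : Type} [AddCommMonoid M] [Module ℚ≥0 M] (r H : ℕ)
    (f : (Fin (r + 1) → ℕ) → (Fin (r + 1) → ℕ) → M) :
    𝔼 h ∈ pb (r + 1) H, 𝔼 k ∈ pb (r + 1) H, f h k = 𝔼 h₀ ∈ range H, 𝔼 k₀ ∈ range H,
      𝔼 h ∈ pb r H, 𝔼 k ∈ pb r H, f (Fin.cons h₀ h) (Fin.cons k₀ k) := by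
  rw [Cube_expect_succ]
  refine expect_congr rfl fun h₀ _ => ?_
  rw [expect_comm (range H)]
  exact expect_congr rfl fun h _ => Cube_expect_succ r H fun k => f (Fin.cons h₀ h) k

theorem Cube_step {r : ℕ} (H : ℕ) (Γ : (Fin (r + 1) → ℕ) → ℂ)
    (b : Fin (r + 1) → (Fin (r + 1) → ℕ) → ℂ) (hb : ∀ i h, ‖b i h‖ ≤ 1)
    (hb' : ∀ i h t, b i (Function.update h i t) = b i h) :
    ‖𝔼 h ∈ pb (r + 1) H, Γ h * ∏ i, b i h‖ ^ 2 ≤ 𝔼 h₀ ∈ range H, 𝔼 k₀ ∈ range H,
      (𝔼 h ∈ pb r H, (Γ (Fin.cons h₀ h) * conj (Γ (Fin.cons k₀ h))) *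
        ∏ i : Fin r, (b i.succ (Fin.cons h₀ h) * conj (b i.succ (Fin.cons k₀ h)))).re := by
  set G : ℕ → (Fin r → ℕ) → ℂ := fun h₀ h =>
    Γ (Fin.cons h₀ h) * ∏ i : Fin r, b i.succ (Fin.cons h₀ h) with hG
  have e₁ : 𝔼 h ∈ pb (r + 1) H, Γ h * ∏ i, b i h =
      𝔼 h ∈ pb r H, b 0 (Fin.cons 0 h) * 𝔼 h₀ ∈ range H, G h₀ h := by
    rw [Cube_expect_succ, expect_comm]
    refine expect_congr rfl fun h _ => ?_
    rw [mul_expect]
    refine expect_congr rfl fun h₀ _ => ?_
    have : b 0 (Fin.cons h₀ h) = b 0 (Fin.cons 0 h) := by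
      rw [← hb' 0 (Fin.cons 0 h) h₀, Fin.update_cons_zero]
    rw [Fin.prod_univ_succ, this, hG]
    ring
  have e₂ : ‖𝔼 h ∈ pb r H, b 0 (Fin.cons 0 h) * 𝔼 h₀ ∈ range H, G h₀ h‖ ≤
      𝔼 h ∈ pb r H, ‖𝔼 h₀ ∈ range H, G h₀ h‖ := by
    refine (norm_expect_le' _ _).trans (expect_le_expect fun h _ => ?_)
    rw [norm_mul]
    exact mul_le_of_le_one_left (norm_nonneg _) (hb _ _)
  rw [e₁]
  refine (pow_le_pow_left₀ (norm_nonneg _) e₂ 2).trans
    ((pow_expect_le _ (fun _ _ => norm_nonneg _) two_ne_zero).trans (le_of_eq ?_))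
  simp only [sq_norm_expect]
  rw [expect_comm]
  refine expect_congr rfl fun h₀ _ => ?_
  rw [expect_comm]
  refine expect_congr rfl fun k₀ _ => ?_
  rw [re_expect]
  refine expect_congr rfl fun h _ => ?_
  congr 1
  rw [hG]
  simp only [map_mul, map_prod, prod_mul_distrib]
  ring

theorem cube_eq {r : ℕ} (Γ : (Fin r → ℕ) → ℂ) (h k : Fin r → ℕ) :
    cube Γ h k = Γ h * ∏ i, cfac Γ k i h := by
  unfold cube cfac
  rw [← mul_prod_erase univ _ (mem_univ fun _ => false), Cube_cj_false, ← prod_biUnion]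
  · congr 1
    refine prod_congr ?_ fun _ _ => rfl
    ext ε
    simp only [mem_erase, mem_univ, and_true, mem_biUnion, mem_filter, true_and]
    constructor
    · intro hε
      have hne : (univ.filter fun i => ε i = true).Nonempty := by
        by_contra hn
        refine hε (funext fun i => ?_)
        by_contra hi
        exact hn ⟨i, by simpa using hi⟩
      obtain ⟨i, hi, hmin⟩ := exists_min_image _ id hne
      refine ⟨i, by simpa using hi, fun j hj => ?_⟩
      by_contra hj'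
      exact absurd (hmin j (by simpa using hj')) (not_le.2 hj)
    · rintro ⟨i, hi, -⟩ rfl
      simp at hi
  · intro i _ j _ hij
    refine disjoint_left.2 fun ε hi hj => ?_
    simp only [mem_filter, mem_univ, true_and] at hi hj
    rcases lt_or_gt_of_ne hij with h' | h'
    · have := hj.2 i h'
      simp [hi.1] at this
    · have := hi.2 j h'
      simp [hj.1] at this

theorem cfac_update {r : ℕ} (Γ : (Fin r → ℕ) → ℂ) (k : Fin r → ℕ) (i : Fin r) (h : Fin r → ℕ)
    (t : ℕ) : cfac Γ k i (Function.update h i t) = cfac Γ k i h := by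
  unfold cfac
  refine prod_congr rfl fun ε hε => ?_
  simp only [mem_filter, mem_univ, true_and] at hε
  congr 2
  funext j
  rcases eq_or_ne j i with rfl | hj
  · simp [mix, hε.1]
  · simp [mix, Function.update_of_ne hj]

theorem norm_cfac_le {r : ℕ} {Γ : (Fin r → ℕ) → ℂ} (hΓ : ∀ v, ‖Γ v‖ ≤ 1) (k : Fin r → ℕ)
    (i : Fin r) (h : Fin r → ℕ) : ‖cfac Γ k i h‖ ≤ 1 := by
  unfold cfac
  rw [norm_prod]
  exact prod_le_one (fun _ _ => norm_nonneg _) fun ε _ => (Cube_norm_cj _ _).trans_le (hΓ _)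

theorem norm_cube_le {r : ℕ} {Γ : (Fin r → ℕ) → ℂ} (hΓ : ∀ v, ‖Γ v‖ ≤ 1) (h k : Fin r → ℕ) :
    ‖cube Γ h k‖ ≤ 1 := by
  unfold cube
  rw [norm_prod]
  exact prod_le_one (fun _ _ => norm_nonneg _) fun ε _ => (Cube_norm_cj _ _).trans_le (hΓ _)

theorem cube_mul {r : ℕ} (Γ Γ' : (Fin r → ℕ) → ℂ) (h k : Fin r → ℕ) :
    cube (fun v => Γ v * Γ' v) h k = cube Γ h k * cube Γ' h k := by
  simp only [cube, Cube_cj_mul, prod_mul_distrib]

theorem cube_prod {r : ℕ} {ι : Type} (s : Finset ι) (Γ : ι → (Fin r → ℕ) → ℂ) (h k : Fin r → ℕ) :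
    cube (fun v => ∏ i ∈ s, Γ i v) h k = ∏ i ∈ s, cube (Γ i) h k := by
  induction s using Finset.induction_on with
  | empty => simp [cube, Cube_cj_one]
  | insert a s ha ih =>
    simp only [prod_insert ha]
    rw [cube_mul, ih]

theorem cube_conj {r : ℕ} (Γ : (Fin r → ℕ) → ℂ) (h k : Fin r → ℕ) :
    cube (fun v => conj (Γ v)) h k = conj (cube Γ h k) := by
  simp only [cube, Cube_cj_conj, map_prod]

theorem cube_const {r : ℕ} (hr : 1 ≤ r) {c : ℂ} (hc : ‖c‖ = 1) (h k : Fin r → ℕ) :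
    cube (fun _ => c) h k = 1 := by
  obtain ⟨r, rfl⟩ : ∃ s, r = s + 1 := ⟨r - 1, by omega⟩
  rw [← Fin.cons_self_tail h, ← Fin.cons_self_tail k, Cube_cons, Complex.mul_conj,
    Complex.normSq_eq_norm_sq, hc]
  simp [cube, Cube_cj_one]

theorem cube_ec {r : ℕ} (β : (Fin r → ℕ) → ℝ) (h k : Fin r → ℕ) (t : ℝ) :
    cube (fun v => ec (β v * t)) h k = ec (calt β h k * t) := by
  rw [cube, calt, sum_mul, ec_sum]
  refine prod_congr rfl fun ε _ => ?_
  unfold cj
  split_ifs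
  · rfl
  · rw [conj_ec, neg_mul]

/-- The Gowers-Cauchy-Schwarz inequality. -/
theorem gcs {r : ℕ} (hr : 1 ≤ r) (H : ℕ) (Γ : (Fin r → ℕ) → ℂ) (b : Fin r → (Fin r → ℕ) → ℂ)
    (hb : ∀ i h, ‖b i h‖ ≤ 1) (hb' : ∀ i h t, b i (Function.update h i t) = b i h) :
    ‖𝔼 h ∈ pb r H, Γ h * ∏ i, b i h‖ ^ 2 ^ r ≤ (𝔼 h ∈ pb r H, 𝔼 k ∈ pb r H, cube Γ h k).re := by
  obtain ⟨r, rfl⟩ : ∃ s, r = s + 1 := ⟨r - 1, by omega⟩
  clear hr
  induction r with
  | zero =>
    refine (Cube_step H Γ b hb hb').trans (le_of_eq ?_)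
    rw [Cube_expect_two, re_expect]
    refine expect_congr rfl fun h₀ _ => ?_
    rw [re_expect]
    refine expect_congr rfl fun k₀ _ => ?_
    simp only [Cube_expect_zero, Cube_cons, Cube_zero, univ_eq_empty, prod_empty, mul_one]
  | succ r ih =>
    have e₁ := (Cube_step H Γ b hb hb').trans (expect_le_expect fun h₀ _ =>
      expect_le_expect fun k₀ _ => Complex.re_le_norm _)
    rw [pow_succ' 2 (r + 1), pow_mul]
    refine (pow_le_pow_left₀ (by positivity) e₁ _).trans ?_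
    refine (pow_expect_le _ (fun _ _ => expect_nonneg fun _ _ => norm_nonneg _)
      (by positivity)).trans ?_
    rw [Cube_expect_two, re_expect]
    refine expect_le_expect fun h₀ _ => ?_
    refine (pow_expect_le _ (fun _ _ => norm_nonneg _) (by positivity)).trans ?_
    rw [re_expect]
    refine expect_le_expect fun k₀ _ => ?_
    simp only [Cube_cons]
    refine ih (fun v => Γ (Fin.cons h₀ v) * conj (Γ (Fin.cons k₀ v)))
      (fun i v => b i.succ (Fin.cons h₀ v) * conj (b i.succ (Fin.cons k₀ v))) (fun i h => ?_)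
      fun i h t => ?_
    · rw [norm_mul, Complex.norm_conj]
      exact mul_le_one₀ (hb _ _) (norm_nonneg _) (hb _ _)
    · simp only [Fin.cons_update, hb']

theorem B1.cfac {r : ℕ} {Γ : (Fin r → ℕ) → Y → ℂ} (hΓ : ∀ v, B1 (Γ v)) (k : Fin r → ℕ) (i : Fin r)
    (h : Fin r → ℕ) : B1 fun y => cfac (fun v => Γ v y) k i h := by
  unfold Pool.Agent.MP_357fb4_an.cfac
  exact B1.prod _ fun ε _ => Cube_B1_cj ε (hΓ _)

theorem B1.cube {r : ℕ} {Γ : (Fin r → ℕ) → Y → ℂ} (hΓ : ∀ v, B1 (Γ v)) (h k : Fin r → ℕ) :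
    B1 fun y => cube (fun v => Γ v y) h k := by
  unfold Pool.Agent.MP_357fb4_an.cube
  exact B1.prod _ fun ε _ => Cube_B1_cj ε (hΓ _)

theorem B1.dc (S : Sys ℤ Y μ) {r : ℕ} (h k : Fin r → ℕ) {f : Y → ℂ} (hf : B1 f) :
    B1 (dc S h k f) := by
  exact B1.cube (Γ := fun v y => f (S.act ((∑ i, v i : ℕ) : ℤ) y)) (fun v => hf.act S _) h k

theorem dc_act (S : Sys ℤ Y μ) {r : ℕ} (h k : Fin r → ℕ) (f : Y → ℂ) (n : ℤ) (y : Y) :
    dc S h k (fun x => f (S.act n x)) y = dc S h k f (S.act n y) := by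
  simp only [dc, act_act, add_comm n]

theorem box_cube (S : Sys ℤ Y μ) (r H : ℕ) (l : List ℕ) (f : Y → ℂ) :
    box S (List.replicate r H ++ l) f = 𝔼 h ∈ pb r H, 𝔼 k ∈ pb r H, box S l (dc S h k f) := by
  induction r generalizing f with
  | zero =>
    simp only [List.replicate_zero, List.nil_append, Cube_expect_zero]
    congr 1
    funext y
    simp [dc, Cube_zero, S.act_zero]
  | succ r ih =>
    rw [List.replicate_succ, List.cons_append, box, Cube_expect_two]
    refine expect_congr rfl fun h₀ _ => expect_congr rfl fun k₀ _ => ?_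
    rw [ih]
    refine expect_congr rfl fun h _ => expect_congr rfl fun k _ => ?_
    congr 1
    funext y
    simp only [dc, dl, Cube_cons, act_act, Fin.sum_univ_succ, Fin.cons_zero, Fin.cons_succ,
      Nat.cast_add]

theorem Eig.conj {S : Sys ℤ Y μ} {β : ℝ} {χ : Y → ℂ} (h : Eig S β χ) :
    Eig S (-β) fun y => conj (χ y) := by
  refine ⟨h.1.conj, fun n => (h.2 n).mono fun y hy => ?_⟩
  dsimp only at hy ⊢
  rw [hy, map_mul, conj_ec, neg_mul]

theorem Eig.zero (S : Sys ℤ Y μ) (β : ℝ) : Eig S β fun _ => 0 := by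
  exact ⟨B1.const (by simp), fun n => Eventually.of_forall fun y => by simp⟩

theorem Eig.cube {S : Sys ℤ Y μ} {r : ℕ} {β : (Fin r → ℕ) → ℝ} {χ : (Fin r → ℕ) → Y → ℂ}
    (hχ : ∀ v, Eig S (β v) (χ v)) (h k : Fin r → ℕ) :
    Eig S (calt β h k) fun y => cube (fun v => χ v y) h k := by
  refine ⟨B1.cube (fun v => (hχ v).1) h k, fun n => ?_⟩
  have hall : ∀ᵐ y ∂μ, ∀ v, χ v (S.act n y) = ec (β v * n) * χ v y :=
    ae_all_iff.2 fun v => (hχ v).2 n
  refine hall.mono fun y hy => ?_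
  dsimp only
  simp only [hy]
  rw [cube_mul, cube_ec]

end Pool.Agent.MP_357fb4_an

end
end

section

/-!
Equidistribution with integer parts.
-/

open scoped BigOperators Classical ComplexConjugate Polynomial
open Finset Filter MeasureTheory Topology

noncomputable section

namespace Pool.Agent.MP_357fb4_an

lemma Floor_bound {c : ℕ → ℕ → ℝ} (hc : ∀ j n, 0 ≤ c j n) (h1 : ∀ j, ∑ n ∈ range j, c j n ≤ 1)
    (v : ℕ → ℂ) {B : ℝ} (hB : 0 ≤ B) (hv : ∀ n, ‖v n‖ ≤ B) (j : ℕ) :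
    ‖∑ n ∈ range j, (c j n : ℂ) * v n‖ ≤ B := by
  refine (norm_sum_le _ _).trans ?_
  calc ∑ n ∈ range j, ‖(c j n : ℂ) * v n‖ ≤ ∑ n ∈ range j, c j n * B :=
        sum_le_sum fun n _ => by
          rw [norm_mul, Complex.norm_real, Real.norm_of_nonneg (hc j n)]
          exact mul_le_mul_of_nonneg_left (hv n) (hc j n)
    _ = (∑ n ∈ range j, c j n) * B := (sum_mul _ _ _).symm
    _ ≤ B := mul_le_of_le_one_left hB (h1 j)

lemma Floor_cont {c : ℕ → ℕ → ℝ} (hc : ∀ j n, 0 ≤ c j n) (h1 : ∀ j, ∑ n ∈ range j, c j n ≤ 1)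
    (u : ℕ → ℂ) (hu : ∀ n, ‖u n‖ ≤ 1) (x : ℕ → ℝ)
    (h : ∀ l : ℤ, Tendsto (fun j => ∑ n ∈ range j, (c j n : ℂ) * (u n * ec (l * x n))) atTop (𝓝 0))
    (φ : C(UnitAddCircle, ℂ)) :
    Tendsto (fun j => ∑ n ∈ range j, (c j n : ℂ) * (u n * φ (x n))) atTop (𝓝 0) := by
  have hs : ∀ ψ ∈ Submodule.span ℂ (Set.range (fourier (T := 1))),
      Tendsto (fun j => ∑ n ∈ range j, (c j n : ℂ) * (u n * ψ (x n))) atTop (𝓝 0) := by
    intro ψ hψ
    induction hψ using Submodule.span_induction with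
    | mem ψ hψ =>
      obtain ⟨l, rfl⟩ := hψ
      refine (h l).congr fun j => sum_congr rfl fun n _ => ?_
      rw [fourier_coe_apply, ec]
      congr 3
      push_cast
      ring
    | zero => simp
    | add f g _ _ hf hg =>
      simpa only [ContinuousMap.add_apply, mul_add, sum_add_distrib, add_zero] using hf.add hg
    | smul a f _ hf =>
      have := hf.const_mul a
      rw [mul_zero] at this
      refine this.congr fun j => ?_
      rw [mul_sum]
      refine sum_congr rfl fun n _ => ?_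
      rw [ContinuousMap.smul_apply, smul_eq_mul]
      ring
  have hφ : φ ∈ closure (Submodule.span ℂ (Set.range (fourier (T := 1))) :
      Set C(UnitAddCircle, ℂ)) := by
    rw [← Submodule.topologicalClosure_coe, span_fourier_closure_eq_top]
    trivial
  rw [NormedAddGroup.tendsto_nhds_zero]
  intro ε hε
  obtain ⟨ψ, hψ, hd⟩ := Metric.mem_closure_iff.1 hφ (ε / 2) (half_pos hε)
  filter_upwards [NormedAddGroup.tendsto_nhds_zero.1 (hs ψ hψ) (ε / 2) (half_pos hε)] with j hj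
  have e : ∑ n ∈ range j, (c j n : ℂ) * (u n * φ (x n)) =
      ∑ n ∈ range j, (c j n : ℂ) * (u n * ψ (x n)) +
        ∑ n ∈ range j, (c j n : ℂ) * (u n * (φ - ψ) (x n)) := by
    rw [← sum_add_distrib]
    refine sum_congr rfl fun n _ => ?_
    rw [ContinuousMap.sub_apply]
    ring
  have hb := Floor_bound hc h1 (fun n => u n * (φ - ψ) (x n)) (norm_nonneg (φ - ψ)) (fun n => by
    rw [norm_mul]
    exact (mul_le_of_le_one_left (norm_nonneg _) (hu n)).trans ((φ - ψ).norm_coe_le_norm _)) j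
  rw [dist_eq_norm] at hd
  rw [e]
  linarith [norm_add_le (∑ n ∈ range j, (c j n : ℂ) * (u n * ψ (x n)))
    (∑ n ∈ range j, (c j n : ℂ) * (u n * (φ - ψ) (x n)))]

lemma Floor_fejer {K : ℕ} (hK : 1 ≤ K) {x : ℝ} (hx : 1 - 1 / (14 * K : ℝ) < Int.fract x) :
    (1 : ℝ) ≤ 4 * ‖𝔼 k ∈ range K, ec (k * x)‖ ^ 2 := by
  have hK0 : (0 : ℝ) < K := by exact_mod_cast hK
  have hne : (range K).Nonempty := nonempty_range_iff.2 (by omega)
  have h1 : ‖𝔼 k ∈ range K, (ec (k * x) - 1)‖ ≤ 1 / 2 := by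
    refine (norm_expect_le' _ _).trans (expect_le hne fun k hk => ?_)
    have hk' : (k : ℝ) ≤ K := by exact_mod_cast (mem_range.1 hk).le
    have e : ec (k * x) = ec (k * (Int.fract x - 1)) := by
      rw [← ec_add_int (k * (Int.fract x - 1)) (k * (⌊x⌋ + 1)), Int.fract]
      congr 1
      push_cast
      ring
    rw [e]
    refine (norm_ec_sub_one _).trans ?_
    have h2 : |Int.fract x - 1| ≤ 1 / (14 * K) := by
      rw [abs_sub_comm, abs_of_pos (sub_pos.2 (Int.fract_lt_one x))]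
      linarith
    rw [abs_mul, Nat.abs_cast]
    calc 7 * (k * |Int.fract x - 1|) ≤ 7 * (K * (1 / (14 * K))) := by gcongr
      _ = 1 / 2 := by field_simp; norm_num
  rw [expect_sub_distrib, expect_const hne] at h1
  have h3 := norm_sub_norm_le (1 : ℂ) (𝔼 k ∈ range K, ec (k * x))
  rw [norm_sub_rev, norm_one] at h3
  nlinarith

lemma Floor_mass {c : ℕ → ℕ → ℝ} (hc : ∀ j n, 0 ≤ c j n) (h1 : ∀ j, ∑ n ∈ range j, c j n ≤ 1)
    (x : ℕ → ℝ) (h : ∀ l : ℤ, l ≠ 0 →
      Tendsto (fun j => ∑ n ∈ range j, (c j n : ℂ) * ec (l * x n)) atTop (𝓝 0))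
    {ε : ℝ} (hε : 0 < ε) : ∃ δ : ℝ, 0 < δ ∧ ∀ᶠ j in atTop,
      ∑ n ∈ range j, c j n * (if 1 - δ < Int.fract (x n) then 1 else 0) ≤ ε := by
  obtain ⟨K0, hK0⟩ := exists_nat_one_div_lt (show 0 < ε / 8 by positivity)
  set K := K0 + 1 with hK
  have hK1 : 1 ≤ K := by omega
  have hKp : (0 : ℝ) < K := by exact_mod_cast hK1
  have hne : (range K).Nonempty := nonempty_range_iff.2 (by omega)
  have hKe : 1 / (K : ℝ) < ε / 8 := by rw [hK]; push_cast; exact hK0
  refine ⟨1 / (14 * K), by positivity, ?_⟩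
  have hev : ∀ᶠ j in atTop, ∀ k ∈ range K, ∀ k' ∈ range K, k ≠ k' →
      ‖∑ n ∈ range j, (c j n : ℂ) * ec ((((k : ℤ) - k' : ℤ) : ℝ) * x n)‖ < ε / 8 := by
    refine (eventually_all_finset _).2 fun k _ => (eventually_all_finset _).2 fun k' _ => ?_
    by_cases hk : k = k'
    · exact Eventually.of_forall fun _ h => absurd hk h
    · filter_upwards [NormedAddGroup.tendsto_nhds_zero.1 (h ((k : ℤ) - k') (by omega)) (ε / 8)
        (by positivity)] with j hj _ using hj
  filter_upwards [hev] with j hj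
  have h2 : ∀ k ∈ range K, ∀ k' ∈ range K,
      ∑ n ∈ range j, c j n * (ec (k * x n) * conj (ec (k' * x n))).re ≤
        ε / 8 + if k' = k then 1 else 0 := by
    intro k hk k' hk'
    have e : ∑ n ∈ range j, c j n * (ec (k * x n) * conj (ec (k' * x n))).re =
        (∑ n ∈ range j, (c j n : ℂ) * ec ((((k : ℤ) - k' : ℤ) : ℝ) * x n)).re := by
      rw [Complex.re_sum]
      refine sum_congr rfl fun n _ => ?_
      rw [Complex.re_ofReal_mul, ← ec_sub]
      congr 3
      push_cast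
      ring
    rw [e]
    refine (Complex.re_le_norm _).trans ?_
    split_ifs with hkk
    · linarith [Floor_bound hc h1 (fun n => ec ((((k : ℤ) - k' : ℤ) : ℝ) * x n)) zero_le_one
        (fun n => (norm_ec _).le) j]
    · linarith [hj k hk k' hk' (Ne.symm hkk)]
  calc ∑ n ∈ range j, c j n * (if 1 - 1 / (14 * K : ℝ) < Int.fract (x n) then 1 else 0)
      ≤ ∑ n ∈ range j, c j n * (4 * ‖𝔼 k ∈ range K, ec (k * x n)‖ ^ 2) :=
        sum_le_sum fun n _ => mul_le_mul_of_nonneg_left (by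
          split_ifs with hx
          · exact Floor_fejer hK1 hx
          · positivity) (hc j n)
    _ = 4 * 𝔼 k ∈ range K, 𝔼 k' ∈ range K,
          ∑ n ∈ range j, c j n * (ec (k * x n) * conj (ec (k' * x n))).re := by
        simp only [sq_norm_expect, expect_sum_comm, ← mul_expect, mul_sum]
        exact sum_congr rfl fun n _ => by ring
    _ ≤ 4 * (ε / 8 + 1 / K) := by
        refine mul_le_mul_of_nonneg_left (expect_le hne fun k hk => ?_) (by norm_num)
        refine (expect_le_expect (h2 k hk)).trans (le_of_eq ?_)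
        rw [expect_add_distrib, expect_const hne, expect_eq_sum_div_card, sum_ite_eq' _ k,
          if_pos hk, card_range]
    _ ≤ ε := by linarith

lemma Floor_one {c : ℕ → ℕ → ℝ} (hc : ∀ j n, 0 ≤ c j n) (h1 : ∀ j, ∑ n ∈ range j, c j n ≤ 1)
    (u : ℕ → ℂ) (hu : ∀ n, ‖u n‖ ≤ 1) (x : ℕ → ℝ)
    (h : ∀ l : ℤ, Tendsto (fun j => ∑ n ∈ range j, (c j n : ℂ) * (u n * ec (l * x n))) atTop (𝓝 0))
    (h' : ∀ l : ℤ, l ≠ 0 →
      Tendsto (fun j => ∑ n ∈ range j, (c j n : ℂ) * ec (l * x n)) atTop (𝓝 0)) (t : ℝ) :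
    Tendsto (fun j => ∑ n ∈ range j, (c j n : ℂ) * (u n * ec (-t * Int.fract (x n)))) atTop
      (𝓝 0) := by
  rw [NormedAddGroup.tendsto_nhds_zero]
  intro ε hε
  obtain ⟨δ, hδ, hm⟩ := Floor_mass hc h1 x h' (show 0 < ε / 4 by positivity)
  set g : ℝ → ℂ := fun y => ec (-t * min y ((1 - y) / δ)) with hg
  have hgc : Continuous (AddCircle.liftIco (1 : ℝ) 0 g) :=
    AddCircle.liftIco_continuous (by
      simp [hg, hδ.le])
      (continuous_ec.comp (by fun_prop)).continuousOn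
  have hv : ∀ y : ℝ, AddCircle.liftIco (1 : ℝ) 0 g (y : UnitAddCircle) = g (Int.fract y) := by
    intro y
    rw [← AddCircle.coe_fract y]
    exact AddCircle.liftIco_coe_apply ⟨Int.fract_nonneg y, by simpa using Int.fract_lt_one y⟩
  filter_upwards [hm, NormedAddGroup.tendsto_nhds_zero.1
    (Floor_cont hc h1 u hu x h ⟨_, hgc⟩) (ε / 2) (half_pos hε)] with j hj hj'
  simp only [ContinuousMap.coe_mk, hv] at hj'
  have e : ∑ n ∈ range j, (c j n : ℂ) * (u n * ec (-t * Int.fract (x n))) =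
      ∑ n ∈ range j, (c j n : ℂ) * (u n * g (Int.fract (x n))) +
        ∑ n ∈ range j, (c j n : ℂ) * (u n * (ec (-t * Int.fract (x n)) - g (Int.fract (x n)))) := by
    rw [← sum_add_distrib]
    exact sum_congr rfl fun n _ => by ring
  have hb : ‖∑ n ∈ range j, (c j n : ℂ) *
      (u n * (ec (-t * Int.fract (x n)) - g (Int.fract (x n))))‖ ≤
      2 * ∑ n ∈ range j, c j n * (if 1 - δ < Int.fract (x n) then 1 else 0) := by
    rw [mul_sum]
    refine (norm_sum_le _ _).trans (sum_le_sum fun n _ => ?_)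
    rw [norm_mul, Complex.norm_real, Real.norm_of_nonneg (hc j n), mul_left_comm, norm_mul]
    refine mul_le_mul_of_nonneg_left
      ((mul_le_of_le_one_left (norm_nonneg _) (hu n)).trans ?_) (hc j n)
    split_ifs with hx
    · refine (norm_sub_le _ _).trans (le_of_eq ?_)
      rw [hg]
      simp only [norm_ec]
      norm_num
    · have h2 : Int.fract (x n) ≤ (1 - Int.fract (x n)) / δ := by
        rw [le_div_iff₀ hδ]
        nlinarith [Int.fract_lt_one (x n), Int.fract_nonneg (x n), not_lt.1 hx]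
      rw [hg]
      simp only [min_eq_left h2, sub_self, norm_zero, mul_zero, le_refl]
  rw [e]
  linarith [norm_add_le (∑ n ∈ range j, (c j n : ℂ) * (u n * g (Int.fract (x n))))
    (∑ n ∈ range j, (c j n : ℂ) * (u n * (ec (-t * Int.fract (x n)) - g (Int.fract (x n)))))]

theorem eqfloor {ι : Type} [Fintype ι] (a : ι → ℕ → ℝ) (c : ℕ → ℕ → ℝ) (hc : ∀ j n, 0 ≤ c j n)
    (h1 : ∀ j, ∑ n ∈ range j, c j n ≤ 1)
    (h : ∀ α : ι → ℝ, α ≠ 0 →
      Tendsto (fun j => ∑ n ∈ range j, (c j n : ℂ) * ec (∑ i, α i * a i n)) atTop (𝓝 0))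
    (α : ι → ℝ) (hα : ∃ i, ∀ n : ℤ, α i ≠ n) :
    Tendsto (fun j => ∑ n ∈ range j, (c j n : ℂ) * ec (∑ i, α i * (⌊a i n⌋ : ℤ))) atTop (𝓝 0) := by
  have key : ∀ T : Finset ι, ∀ α : ι → ℝ,
      ((∃ i, i ∉ T ∧ α i ≠ 0) ∨ ∃ i ∈ T, ∀ n : ℤ, α i ≠ n) →
      Tendsto (fun j => ∑ n ∈ range j, (c j n : ℂ) *
        ec (∑ i, α i * if i ∈ T then ((⌊a i n⌋ : ℤ) : ℝ) else a i n)) atTop (𝓝 0) := by
    intro T
    induction T using Finset.induction_on with
    | empty =>
      rintro α (⟨i, -, hi⟩ | ⟨i, hi, -⟩)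
      · simpa using h α fun e => hi (congrFun e i)
      · simp at hi
    | insert k T hk ih =>
      intro α hα
      have := Floor_one hc h1
        (fun n => ec (∑ i, α i * if i ∈ T then ((⌊a i n⌋ : ℤ) : ℝ) else a i n))
        (fun n => (norm_ec _).le) (a k) (fun l => ?_) (fun l hl => ?_) (α k)
      · refine this.congr fun j => sum_congr rfl fun n _ => ?_
        rw [← ec_add, ← add_sum_erase _ _ (mem_univ k), ← add_sum_erase _ _ (mem_univ k),
          if_neg hk, if_pos (mem_insert_self k T), Int.fract]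
        congr 2
        rw [sum_congr rfl (g := fun i => α i * if i ∈ insert k T then ((⌊a i n⌋ : ℤ) : ℝ)
          else a i n) fun i hi => by simp only [mem_insert, (mem_erase.1 hi).1, false_or]]
        ring
      · have := ih (fun i => α i + if i = k then (l : ℝ) else 0) ?_
        · refine this.congr fun j => sum_congr rfl fun n _ => ?_
          rw [← ec_add]
          congr 2
          simp only [add_mul, sum_add_distrib, ite_mul, zero_mul, sum_ite_eq', mem_univ, if_true,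
            if_neg hk]
        · rcases hα with ⟨i, hi, hi'⟩ | ⟨i, hi, hi'⟩
          · have hik : i ≠ k := fun e => hi (e ▸ mem_insert_self k T)
            exact Or.inl ⟨i, fun e => hi (mem_insert_of_mem e), by simpa [hik] using hi'⟩
          · rcases mem_insert.1 hi with rfl | hi
            · refine Or.inl ⟨i, hk, fun e => hi' (-l) ?_⟩
              simp only [if_true] at e
              push_cast
              linarith
            · have hik : i ≠ k := fun e => hk (e ▸ hi)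
              exact Or.inr ⟨i, hi, by simpa [hik] using hi'⟩
      · have := h (fun i => if i = k then (l : ℝ) else 0) fun e => by
          have := congrFun e k
          simp only [if_true, Pi.zero_apply, Int.cast_eq_zero] at this
          exact hl this
        simpa only [ite_mul, zero_mul, sum_ite_eq', mem_univ, if_true] using this
  obtain ⟨i, hi⟩ := hα
  simpa only [mem_univ, if_true] using key univ α (Or.inr ⟨i, mem_univ i, hi⟩)

end Pool.Agent.MP_357fb4_an

end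
end

section

/-!
Van der Corput differencing for scalar sequences.
-/

open scoped BigOperators Classical ComplexConjugate Polynomial
open Finset Filter MeasureTheory Topology

noncomputable section

namespace Pool.Agent.MP_357fb4_an

theorem weyl_shift {u : ℕ → ℂ} (hu : ∀ n, ‖u n‖ ≤ 1) (L h : ℕ) :
    ‖𝔼 x ∈ range L, u x - 𝔼 x ∈ range L, u (x + h)‖ ≤ 2 * h / L := by
  have e1 := sum_range_add u L h
  have e2 := sum_range_add u h L
  rw [add_comm h L, e1] at e2
  have e3 : ∑ x ∈ range L, u x - ∑ x ∈ range L, u (x + h) =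
      ∑ x ∈ range h, u x - ∑ x ∈ range h, u (L + x) := by
    simp only [add_comm _ h]
    linear_combination e2
  have b : ∀ v : ℕ → ℂ, (∀ n, ‖v n‖ ≤ 1) → ‖∑ x ∈ range h, v x‖ ≤ h := fun v hv =>
    (norm_sum_le _ _).trans (by simpa using sum_le_card_nsmul (range h) _ 1 fun x _ => hv x)
  rw [expect_eq_sum_div_card, expect_eq_sum_div_card, ← sub_div, e3, norm_div, card_range,
    Complex.norm_natCast]
  refine div_le_div_of_nonneg_right ((norm_sub_le _ _).trans ?_) (Nat.cast_nonneg _)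
  linarith [b u hu, b (fun x => u (L + x)) fun n => hu _]

theorem weyl_vdc {u : ℕ → ℂ} (hu : ∀ n, ‖u n‖ ≤ 1) {L M : ℕ} (hM : 1 ≤ M) {τ : ℝ} (hτ : 0 ≤ τ)
    (h : 𝔼 a ∈ range M, 𝔼 b ∈ range M, ‖𝔼 x ∈ range L, u (x + a) * conj (u (x + b))‖ ≤ τ ^ 2) :
    ‖𝔼 x ∈ range L, u x‖ ≤ τ + 2 * M / L := by
  have hne : (range M).Nonempty := nonempty_range_iff.2 (by omega)
  have h1 : ‖𝔼 x ∈ range L, u x - 𝔼 a ∈ range M, 𝔼 x ∈ range L, u (x + a)‖ ≤ 2 * M / L := by
    rw [← expect_const hne (𝔼 x ∈ range L, u x), ← expect_sub_distrib]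
    refine (norm_expect_le' _ _).trans (expect_le hne fun a ha => (weyl_shift hu L a).trans ?_)
    have : (a : ℝ) ≤ M := by exact_mod_cast (mem_range.1 ha).le
    gcongr
  have h2 : ‖𝔼 a ∈ range M, 𝔼 x ∈ range L, u (x + a)‖ ≤ τ := by
    refine (pow_le_pow_iff_left₀ (norm_nonneg _) hτ two_ne_zero).1 (le_trans ?_ h)
    rw [expect_comm]
    refine (pow_le_pow_left₀ (norm_nonneg _) (norm_expect_le' _ _) 2).trans
      ((pow_expect_le _ (fun _ _ => norm_nonneg _) two_ne_zero).trans ?_)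
    simp only [sq_norm_expect]
    rw [expect_comm]
    refine expect_le_expect fun a _ => ?_
    rw [expect_comm]
    refine expect_le_expect fun b _ => ?_
    rw [← re_expect]
    exact Complex.re_le_norm _
  have := norm_le_norm_sub_add (𝔼 x ∈ range L, u x) (𝔼 a ∈ range M, 𝔼 x ∈ range L, u (x + a))
  linarith

theorem weyl_pairs {F : ℕ → ℕ → ℝ} (h1 : ∀ a b, F a b ≤ 1) {M m : ℕ} (hM : 1 ≤ M) {ε : ℝ}
    (hε : 0 ≤ ε) (h : ∀ a b, a < M → b < M → a + m < b ∨ b + m < a → F a b ≤ ε) :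
    𝔼 a ∈ range M, 𝔼 b ∈ range M, F a b ≤ ε + (2 * m + 1) / M := by
  have hne : (range M).Nonempty := nonempty_range_iff.2 (by omega)
  have hM0 : (0 : ℝ) < M := by exact_mod_cast hM
  refine expect_le hne fun a ha => ?_
  have h2 : ∀ b ∈ range M, F a b ≤ ε + if b ∈ Icc (a - m) (a + m) then 1 else 0 := by
    intro b hb
    split_ifs with hc
    · linarith [h1 a b]
    · rw [mem_Icc] at hc
      simpa using h a b (mem_range.1 ha) (mem_range.1 hb) (by omega)
  refine (expect_le_expect h2).trans ?_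
  rw [expect_add_distrib, expect_const hne, expect_eq_sum_div_card, card_range, sum_boole]
  gcongr
  have h3 : ((range M).filter fun b => b ∈ Icc (a - m) (a + m)).card ≤ 2 * m + 1 := by
    refine (card_le_card fun b hb => (mem_filter.1 hb).2).trans ?_
    rw [Nat.card_Icc]
    omega
  exact_mod_cast h3

theorem weyl_diff {d : ℕ} {Q : ℝ[X]} (hQ : Q.natDegree ≤ d + 1) (a b : ℝ) :
    (Polynomial.taylor a Q - Polynomial.taylor b Q).natDegree ≤ d ∧
      (Polynomial.taylor a Q - Polynomial.taylor b Q).coeff d =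
        (d + 1) * (a - b) * Q.coeff (d + 1) := by
  constructor
  · rw [Polynomial.natDegree_le_iff_coeff_eq_zero]
    intro n hn
    have := Polynomial.eq_C_of_natDegree_le_zero
      ((Polynomial.natDegree_hasseDeriv_le Q n).trans (show Q.natDegree - n ≤ 0 by omega))
    rw [Polynomial.coeff_sub, Polynomial.taylor_coeff, Polynomial.taylor_coeff, this,
      Polynomial.eval_C, Polynomial.eval_C, sub_self]
  · have := Polynomial.eq_X_add_C_of_natDegree_le_one
      ((Polynomial.natDegree_hasseDeriv_le Q d).trans (show Q.natDegree - d ≤ 1 by omega))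
    rw [Polynomial.coeff_sub, Polynomial.taylor_coeff, Polynomial.taylor_coeff, this,
      Polynomial.hasseDeriv_coeff d Q 1, add_comm 1 d, Nat.choose_succ_self_right]
    simp only [Polynomial.eval_add, Polynomial.eval_mul, Polynomial.eval_C, Polynomial.eval_X]
    push_cast
    ring

/-- One differencing step for polynomial phases. -/
theorem weyl_step (Q : ℝ[X]) {L M m : ℕ} (hM : 1 ≤ M) {ε : ℝ} (hε : 0 ≤ ε)
    (h1 : 2 * (M : ℝ) / L ≤ ε / 2) (h2 : (2 * m + 1 : ℝ) / M ≤ ε ^ 2 / 8)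
    (h : ∀ a b : ℕ, a < M → b < M → a + m < b ∨ b + m < a →
      ‖𝔼 x ∈ range L, ec ((Polynomial.taylor (a : ℝ) Q - Polynomial.taylor (b : ℝ) Q).eval
        (x : ℝ))‖ ≤ ε ^ 2 / 8) :
    ‖𝔼 x ∈ range L, ec (Q.eval (x : ℝ))‖ ≤ ε := by
  have := weyl_vdc (u := fun x : ℕ => ec (Q.eval (x : ℝ))) (fun n => (norm_ec _).le) (L := L) hM
    (τ := ε / 2) (by positivity) (by
      refine (weyl_pairs (m := m) (ε := ε ^ 2 / 8) (fun a b => ?_) hM (by positivity)
        fun a b ha hb hab => ?_).trans (by linarith)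
      · exact norm_expect_le_one _ fun x _ => by simp
      · refine le_of_eq_of_le ?_ (h a b ha hb hab)
        congr 1
        refine expect_congr rfl fun x _ => ?_
        rw [← ec_sub, Polynomial.eval_sub, Polynomial.taylor_eval, Polynomial.taylor_eval]
        push_cast
        rfl)
  linarith

theorem weyl_lower {c : ℝ} (hc : |c| ≤ 1 / 2) : 4 * |c| ≤ ‖ec c - 1‖ := by
  rw [ec, show (2 * Real.pi * Complex.I * c : ℂ) = Complex.I * ((2 * Real.pi * c : ℝ) : ℂ) by
    push_cast; ring, Complex.norm_exp_I_mul_ofReal_sub_one, Real.norm_eq_abs, abs_mul,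
    show 2 * Real.pi * c / 2 = Real.pi * c by ring, abs_two]
  have hp := Real.pi_pos
  have := Real.mul_abs_le_abs_sin (x := Real.pi * c) (by
    rw [abs_mul, abs_of_pos hp]; nlinarith)
  rw [abs_mul, abs_of_pos hp, ← mul_assoc, div_mul_cancel₀ _ hp.ne'] at this
  linarith

theorem weyl_geo {c : ℝ} (hc : |c| ≤ 1 / 2) (b : ℝ) (L : ℕ) :
    |c| * L * ‖𝔼 x ∈ range L, ec (c * x + b)‖ ≤ 1 := by
  have e : ∀ L : ℕ, (ec c - 1) * ∑ x ∈ range L, ec (c * x + b) = ec (c * L + b) - ec b := by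
    intro L
    induction L with
    | zero => simp
    | succ L ih =>
      rw [sum_range_succ, mul_add, ih, show c * (L + 1 : ℕ) + b = c + (c * L + b) by
        push_cast; ring, ec_add c]
      ring
  have h1 := congrArg norm (e L)
  have h2 := norm_sub_le (ec (c * L + b)) (ec b)
  rw [norm_mul] at h1
  rw [norm_ec, norm_ec, ← h1] at h2
  have h3 := mul_le_mul_of_nonneg_right (weyl_lower hc)
    (norm_nonneg (∑ x ∈ range L, ec (c * x + b)))
  rcases Nat.eq_zero_or_pos L with rfl | hL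
  · simp
  · have hL0 : (L : ℝ) ≠ 0 := by exact_mod_cast hL.ne'
    rw [expect_eq_sum_div_card, norm_div, card_range, Complex.norm_natCast, mul_assoc,
      mul_div_cancel₀ _ hL0]
    linarith

theorem weyl_lin {Q : ℝ[X]} (hQ : Q.natDegree ≤ 1) (n : ℤ) (hc : |Q.coeff 1 - n| ≤ 1 / 2) {L : ℕ}
    {ε : ℝ} (hε : 0 < ε) (h : ε⁻¹ ≤ |Q.coeff 1 - n| * L) :
    ‖𝔼 x ∈ range L, ec (Q.eval (x : ℝ))‖ ≤ ε := by
  have h1 := weyl_geo hc (Q.coeff 0) L
  have e : 𝔼 x ∈ range L, ec (Q.eval (x : ℝ)) =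
      𝔼 x ∈ range L, ec ((Q.coeff 1 - n) * x + Q.coeff 0) := by
    refine expect_congr rfl fun x _ => ?_
    rw [← ec_add_int ((Q.coeff 1 - n) * x + Q.coeff 0) (n * x)]
    conv_lhs => rw [Polynomial.eq_X_add_C_of_natDegree_le_one hQ]
    simp only [Polynomial.eval_add, Polynomial.eval_mul, Polynomial.eval_C, Polynomial.eval_X]
    congr 1
    push_cast
    ring
  rw [← e] at h1
  have h2 := (mul_le_mul_of_nonneg_right h (norm_nonneg _)).trans h1
  rwa [inv_mul_le_iff₀ hε, mul_one] at h2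

end Pool.Agent.MP_357fb4_an

end
end

section

/-!
Extension of Hardy fields.
-/

open scoped BigOperators Classical ComplexConjugate Polynomial
open Finset Filter MeasureTheory Topology

noncomputable section

namespace Pool.Agent.MP_357fb4_an

/-- Germs at infinity of real functions. -/
abbrev HExtG : Type := Germ (atTop : Filter ℝ) ℝ

lemma HExt_nhds {f g : ℝ → ℝ} (h : f =ᶠ[atTop] g) : ∀ᶠ t in atTop, f =ᶠ[𝓝 t] g := by
  obtain ⟨T, hT⟩ := eventually_atTop.1 h
  filter_upwards [eventually_gt_atTop T] with t ht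
  filter_upwards [Ioi_mem_nhds ht] with s hs
  exact hT s (le_of_lt hs)

lemma HExt_deriv_congr {f g : ℝ → ℝ} (h : f =ᶠ[atTop] g) : deriv f =ᶠ[atTop] deriv g := by
  filter_upwards [HExt_nhds h] with t ht
  exact ht.deriv_eq

lemma HExt_diff_congr {f g : ℝ → ℝ} (h : f =ᶠ[atTop] g)
    (hf : ∀ᶠ t in atTop, DifferentiableAt ℝ f t) : ∀ᶠ t in atTop, DifferentiableAt ℝ g t := by
  filter_upwards [HExt_nhds h, hf] with t ht h2
  exact h2.congr_of_eventuallyEq ht.symm

/-- The derivative on germs. -/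
def HExtD (g : HExtG) : HExtG :=
  g.liftOn (fun f => (↑(deriv f) : HExtG)) (fun _ _ h => Germ.coe_eq.2 (HExt_deriv_congr h))

lemma HExtD_coe (f : ℝ → ℝ) : HExtD (↑f) = ↑(deriv f) := rfl

/-- Germs of eventually differentiable functions. -/
def HExtE (g : HExtG) : Prop :=
  ∀ f : ℝ → ℝ, (↑f : HExtG) = g → ∀ᶠ t in atTop, DifferentiableAt ℝ f t

lemma HExtE_coe (f : ℝ → ℝ) : HExtE (↑f) ↔ ∀ᶠ t in atTop, DifferentiableAt ℝ f t :=
  ⟨fun h => h f rfl, fun h _ hk => HExt_diff_congr (Germ.coe_eq.1 hk).symm h⟩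

lemma HExt_unit_coe (f : ℝ → ℝ) : IsUnit (↑f : HExtG) ↔ ∀ᶠ t in atTop, f t ≠ 0 := by
  constructor
  · intro h
    obtain ⟨k, hk⟩ := h.exists_right_inv
    induction k using Germ.inductionOn with
    | h k =>
      rw [← Germ.coe_mul, ← Germ.coe_one, Germ.coe_eq] at hk
      filter_upwards [hk] with t ht h0
      simp [h0] at ht
  · intro h
    refine IsUnit.of_mul_eq_one (↑(fun t => (f t)⁻¹) : HExtG) ?_
    rw [← Germ.coe_mul, ← Germ.coe_one, Germ.coe_eq]
    filter_upwards [h] with t ht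
    simp [ht]

lemma HExtE_add {a b : HExtG} (ha : HExtE a) (hb : HExtE b) :
    HExtE (a + b) ∧ HExtD (a + b) = HExtD a + HExtD b := by
  induction a using Germ.inductionOn with
  | h f =>
  induction b using Germ.inductionOn with
  | h g =>
  rw [HExtE_coe] at ha hb
  rw [← Germ.coe_add, HExtE_coe, HExtD_coe, HExtD_coe, HExtD_coe, ← Germ.coe_add, Germ.coe_eq]
  refine ⟨?_, ?_⟩
  · filter_upwards [ha, hb] with t h1 h2 using h1.add h2
  · filter_upwards [ha, hb] with t h1 h2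
    exact deriv_add h1 h2

lemma HExtE_mul {a b : HExtG} (ha : HExtE a) (hb : HExtE b) :
    HExtE (a * b) ∧ HExtD (a * b) = HExtD a * b + a * HExtD b := by
  induction a using Germ.inductionOn with
  | h f =>
  induction b using Germ.inductionOn with
  | h g =>
  rw [HExtE_coe] at ha hb
  rw [← Germ.coe_mul, HExtE_coe, HExtD_coe, HExtD_coe, HExtD_coe, ← Germ.coe_mul,
    ← Germ.coe_mul, ← Germ.coe_add, Germ.coe_eq]
  refine ⟨?_, ?_⟩
  · filter_upwards [ha, hb] with t h1 h2 using h1.mul h2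
  · filter_upwards [ha, hb] with t h1 h2
    exact deriv_mul h1 h2

lemma HExtE_const (c : ℝ) :
    HExtE (↑(fun _ : ℝ => c) : HExtG) ∧ HExtD (↑(fun _ : ℝ => c) : HExtG) = 0 := by
  rw [HExtE_coe, HExtD_coe, ← Germ.coe_zero, Germ.coe_eq]
  refine ⟨Eventually.of_forall fun t => differentiableAt_const c, Eventually.of_forall fun t => ?_⟩
  simp

lemma HExtE_zero : HExtE 0 ∧ HExtD 0 = 0 := HExtE_const 0

lemma HExtE_one : HExtE 1 ∧ HExtD 1 = 0 := HExtE_const 1

lemma HExtE_pow {y : HExtG} (hy : HExtE y) (n : ℕ) :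
    HExtE (y ^ (n + 1)) ∧ HExtD (y ^ (n + 1)) = ((n + 1 : ℕ) : HExtG) * HExtD y * y ^ n := by
  induction n with
  | zero => simpa using hy
  | succ n ih =>
    have := HExtE_mul ih.1 hy
    rw [← pow_succ] at this
    refine ⟨this.1, ?_⟩
    rw [this.2, ih.2]
    push_cast
    ring

lemma HExtE_div {g p q : HExtG} (hp : HExtE p) (hq : HExtE q) (hu : IsUnit q) (h : g * q = p) :
    HExtE g := by
  induction g using Germ.inductionOn with
  | h f =>
  induction p using Germ.inductionOn with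
  | h p =>
  induction q using Germ.inductionOn with
  | h q =>
  rw [HExtE_coe] at hp hq ⊢
  rw [HExt_unit_coe] at hu
  rw [← Germ.coe_mul, Germ.coe_eq] at h
  refine HExt_diff_congr (f := fun t => p t / q t) ?_ ?_
  · filter_upwards [h, hu] with t h1 h2
    rw [div_eq_iff h2]
    exact h1.symm
  · filter_upwards [hp, hq, hu] with t h1 h2 h3
    exact h1.div h2 h3

/-- Rolle: an invertible derivative makes the germ invertible. -/
lemma HExt_rolle {g : HExtG} (hg : HExtE g) (hu : IsUnit (HExtD g)) : IsUnit g := by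
  induction g using Germ.inductionOn with
  | h f =>
  rw [HExtE_coe] at hg
  rw [HExtD_coe, HExt_unit_coe] at hu
  rw [HExt_unit_coe]
  obtain ⟨T, hT⟩ := eventually_atTop.1 (hg.and hu)
  by_cases h0 : ∃ a, T ≤ a ∧ f a = 0
  · obtain ⟨a, ha, hfa⟩ := h0
    filter_upwards [eventually_gt_atTop a] with b hb hfb
    have hc : ContinuousOn f (Set.Icc a b) := fun x hx =>
      (hT x (ha.trans hx.1)).1.continuousAt.continuousWithinAt
    obtain ⟨c, hc1, hc2⟩ := exists_deriv_eq_zero hb hc (hfa.trans hfb.symm)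
    exact (hT c (ha.trans hc1.1.le)).2 hc2
  · filter_upwards [eventually_ge_atTop T] with b hb hfb
    exact h0 ⟨b, hb, hfb⟩

/-- A germ with zero derivative is zero or invertible. -/
lemma HExt_flat {g : HExtG} (hg : HExtE g) (hu : HExtD g = 0) : g = 0 ∨ IsUnit g := by
  induction g using Germ.inductionOn with
  | h f =>
  rw [HExtE_coe] at hg
  rw [HExtD_coe, ← Germ.coe_zero, Germ.coe_eq] at hu
  rw [HExt_unit_coe, ← Germ.coe_zero, Germ.coe_eq]
  obtain ⟨T, hT⟩ := eventually_atTop.1 (hg.and hu)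
  have hc : ∀ b, T + 1 ≤ b → f b = f (T + 1) := by
    intro b hb
    refine IsOpen.is_const_of_deriv_eq_zero (s := Set.Ioi T) isOpen_Ioi isPreconnected_Ioi
      (fun x hx => (hT x (le_of_lt hx)).1.differentiableWithinAt)
      (fun x hx => (hT x (le_of_lt hx)).2) ?_ ?_
    · show T < b
      linarith
    · show T < T + 1
      linarith
  by_cases h0 : f (T + 1) = 0
  · left
    filter_upwards [eventually_ge_atTop (T + 1)] with b hb
    rw [hc b hb, h0]; rfl
  · right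
    filter_upwards [eventually_ge_atTop (T + 1)] with b hb
    rw [hc b hb]; exact h0

/-- Subrings of germs that are Hardy fields. -/
def HExtGood (M : Subring HExtG) : Prop :=
  (∀ g ∈ M, g ≠ 0 → ∃ h ∈ M, g * h = 1) ∧ ∀ g ∈ M, HExtE g ∧ HExtD g ∈ M

/-- Polynomials of degree below n in y with coefficients in M. -/
def HExtN (M : Subring HExtG) (y : HExtG) (n : ℕ) : Submodule M HExtG :=
  Submodule.span M {z | ∃ i < n, z = y ^ i}

lemma HExtN_pow (M : Subring HExtG) (y : HExtG) {i n : ℕ} (h : i < n) : y ^ i ∈ HExtN M y n :=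
  Submodule.subset_span ⟨i, h, rfl⟩

lemma HExtN_mul (M : Subring HExtG) (y : HExtG) {n : ℕ} {c z : HExtG} (hc : c ∈ M)
    (hz : z ∈ HExtN M y n) : c * z ∈ HExtN M y n :=
  (HExtN M y n).smul_mem (⟨c, hc⟩ : M) hz

lemma HExtN_mono (M : Subring HExtG) (y : HExtG) {m n : ℕ} (h : m ≤ n) :
    HExtN M y m ≤ HExtN M y n :=
  Submodule.span_mono fun _ ⟨i, hi, hz⟩ => ⟨i, lt_of_lt_of_le hi h, hz⟩

lemma HExtN_succ (M : Subring HExtG) (y : HExtG) {n : ℕ} {z : HExtG}
    (hz : z ∈ HExtN M y (n + 1)) : ∃ c ∈ M, ∃ w ∈ HExtN M y n, z = c * y ^ n + w := by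
  have hs : {z | ∃ i < n + 1, z = y ^ i} = insert (y ^ n) {z | ∃ i < n, z = y ^ i} := by
    ext z
    simp only [Set.mem_ofPred_eq, Set.mem_insert_iff]
    constructor
    · rintro ⟨i, hi, rfl⟩
      rcases Nat.lt_succ_iff_lt_or_eq.1 hi with h | h
      · exact Or.inr ⟨i, h, rfl⟩
      · exact Or.inl (by rw [h])
    · rintro (rfl | ⟨i, hi, rfl⟩)
      · exact ⟨n, Nat.lt_succ_self n, rfl⟩
      · exact ⟨i, Nat.lt_succ_of_lt hi, rfl⟩
  unfold HExtN at hz
  rw [hs, Submodule.mem_span_insert] at hz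
  obtain ⟨c, w, hw, rfl⟩ := hz
  exact ⟨c, c.2, w, hw, rfl⟩

lemma HExtN_Dpow {M : Subring HExtG} {y : HExtG} (hy : HExtE y) (hy' : HExtD y ∈ M) (n : ℕ) :
    HExtE (y ^ n) ∧ HExtD (y ^ n) ∈ HExtN M y n := by
  cases n with
  | zero =>
    rw [pow_zero, HExtE_one.2]
    exact ⟨HExtE_one.1, Submodule.zero_mem _⟩
  | succ n =>
    refine ⟨(HExtE_pow hy n).1, ?_⟩
    rw [(HExtE_pow hy n).2]
    exact HExtN_mul M y (M.mul_mem (natCast_mem M _) hy') (HExtN_pow M y (Nat.lt_succ_self n))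

lemma HExtN_D {M : Subring HExtG} (hM : HExtGood M) {y : HExtG} (hy : HExtE y)
    (hy' : HExtD y ∈ M) {n : ℕ} {z : HExtG} (hz : z ∈ HExtN M y n) :
    HExtE z ∧ HExtD z ∈ HExtN M y n := by
  induction hz using Submodule.span_induction with
  | mem z hz =>
    obtain ⟨i, hi, rfl⟩ := hz
    exact ⟨(HExtN_Dpow hy hy' i).1, HExtN_mono M y hi.le (HExtN_Dpow hy hy' i).2⟩
  | zero =>
    rw [HExtE_zero.2]
    exact ⟨HExtE_zero.1, Submodule.zero_mem _⟩
  | add a b _ _ ha hb =>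
    rw [(HExtE_add ha.1 hb.1).2]
    exact ⟨(HExtE_add ha.1 hb.1).1, Submodule.add_mem _ ha.2 hb.2⟩
  | smul c a ha' ha =>
    have hc := hM.2 c c.2
    have := HExtE_mul hc.1 ha.1
    change HExtE ((c : HExtG) * a) ∧ HExtD ((c : HExtG) * a) ∈ _
    rw [this.2]
    exact ⟨this.1, Submodule.add_mem _ (HExtN_mul M y hc.2 ha') (HExtN_mul M y c.2 ha.2)⟩

lemma HExtN_unit {M : Subring HExtG} (hM : HExtGood M) {y : HExtG} (hy : HExtE y)
    (hy' : HExtD y ∈ M) (n : ℕ) : ∀ z ∈ HExtN M y n, z = 0 ∨ IsUnit z := by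
  induction n with
  | zero =>
    intro z hz
    left
    have : {z | ∃ i < 0, z = y ^ i} = (∅ : Set HExtG) := by
      ext z; simp
    unfold HExtN at hz
    rw [this, Submodule.span_empty] at hz
    exact (Submodule.mem_bot _).1 hz
  | succ n ih =>
    intro z hz
    obtain ⟨c, hc, w, hw, rfl⟩ := HExtN_succ M y hz
    by_cases hc0 : c = 0
    · rw [hc0, zero_mul, zero_add]
      exact ih w hw
    obtain ⟨d, hd, hcd⟩ := hM.1 c hc hc0
    have hdw : d * w ∈ HExtN M y n := HExtN_mul M y hd hw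
    have h1 := HExtN_Dpow (M := M) hy hy' n
    have h2 := HExtN_D hM hy hy' hdw
    have h3 := HExtE_add h1.1 h2.1
    have h4 : HExtD (y ^ n + d * w) ∈ HExtN M y n := by
      rw [h3.2]; exact Submodule.add_mem _ h1.2 h2.2
    have h5 : y ^ n + d * w = 0 ∨ IsUnit (y ^ n + d * w) := by
      rcases ih _ h4 with h | h
      · exact HExt_flat h3.1 h
      · exact Or.inr (HExt_rolle h3.1 h)
    have h6 : c * y ^ n + w = c * (y ^ n + d * w) := by
      rw [mul_add, ← mul_assoc, hcd, one_mul]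
    rw [h6]
    rcases h5 with h | h
    · left; rw [h, mul_zero]
    · right; exact (IsUnit.of_mul_eq_one d hcd).mul h

lemma HExt_adjoin_iff (M : Subring HExtG) (y z : HExtG) :
    z ∈ Algebra.adjoin M {y} ↔ ∃ n, z ∈ HExtN M y n := by
  constructor
  · intro hz
    rw [Algebra.adjoin_singleton_eq_range_aeval] at hz
    obtain ⟨P, rfl⟩ := hz
    refine ⟨P.natDegree + 1, ?_⟩
    change Polynomial.aeval y P ∈ _
    rw [Polynomial.aeval_eq_sum_range]
    exact Submodule.sum_mem _ fun i hi =>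
      Submodule.smul_mem _ _ (HExtN_pow M y (Finset.mem_range.1 hi))
  · rintro ⟨n, hz⟩
    have : HExtN M y n ≤ Subalgebra.toSubmodule (Algebra.adjoin M {y}) := by
      refine Submodule.span_le.2 ?_
      rintro _ ⟨i, _, rfl⟩
      exact Subalgebra.pow_mem _ (Algebra.self_mem_adjoin_singleton M y) i
    exact this hz

/-- The invertible fractions of a subring of germs. -/
def HExtFr (A : Subring HExtG) : Subring HExtG where
  carrier := {g | ∃ p ∈ A, ∃ q ∈ A, IsUnit q ∧ g * q = p}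
  mul_mem' := by
    rintro a b ⟨p, hp, q, hq, hu, h⟩ ⟨p', hp', q', hq', hu', h'⟩
    exact ⟨p * p', A.mul_mem hp hp', q * q', A.mul_mem hq hq', hu.mul hu', by
      rw [← h, ← h']; ring⟩
  one_mem' := ⟨1, A.one_mem, 1, A.one_mem, isUnit_one, one_mul 1⟩
  add_mem' := by
    rintro a b ⟨p, hp, q, hq, hu, h⟩ ⟨p', hp', q', hq', hu', h'⟩
    exact ⟨p * q' + p' * q, A.add_mem (A.mul_mem hp hq') (A.mul_mem hp' hq), q * q',
      A.mul_mem hq hq', hu.mul hu', by rw [← h, ← h']; ring⟩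
  zero_mem' := ⟨0, A.zero_mem, 1, A.one_mem, isUnit_one, zero_mul 1⟩
  neg_mem' := by
    rintro a ⟨p, hp, q, hq, hu, h⟩
    exact ⟨-p, A.neg_mem hp, q, hq, hu, by rw [← h]; ring⟩

lemma HExtFr_le (A : Subring HExtG) : A ≤ HExtFr A := fun g hg =>
  ⟨g, hg, 1, A.one_mem, isUnit_one, mul_one g⟩

lemma HExtFr_good {A : Subring HExtG} (h1 : ∀ g ∈ A, g = 0 ∨ IsUnit g)
    (h2 : ∀ g ∈ A, HExtE g ∧ HExtD g ∈ A) : HExtGood (HExtFr A) := by
  constructor
  · rintro g ⟨p, hp, q, hq, hu, h⟩ hg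
    have hp0 : IsUnit p := by
      rcases h1 p hp with h0 | h0
      · exact absurd ((hu.mul_left_eq_zero).1 (h.trans h0)) hg
      · exact h0
    obtain ⟨r, hr⟩ := hp0.exists_right_inv
    refine ⟨q * r, ⟨q, hq, p, hp, hp0, ?_⟩, ?_⟩
    · rw [mul_assoc, mul_comm r p, hr, mul_one]
    · rw [← mul_assoc, h, hr]
  · rintro g ⟨p, hp, q, hq, hu, h⟩
    have hg : HExtE g := HExtE_div (h2 p hp).1 (h2 q hq).1 hu h
    refine ⟨hg, HExtD p * q - p * HExtD q,
      A.sub_mem (A.mul_mem (h2 p hp).2 hq) (A.mul_mem hp (h2 q hq).2), q * q, A.mul_mem hq hq,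
      hu.mul hu, ?_⟩
    have := (HExtE_mul hg (h2 q hq).1).2
    rw [h] at this
    rw [this, ← h]
    ring

lemma HExt_adj {M : Subring HExtG} (hM : HExtGood M) {y : HExtG} (hy : HExtE y)
    (hy' : HExtD y ∈ M) : ∃ M', HExtGood M' ∧ M ≤ M' ∧ y ∈ M' := by
  refine ⟨HExtFr (Algebra.adjoin M {y}).toSubring, HExtFr_good ?_ ?_, ?_, ?_⟩
  · intro g hg
    obtain ⟨n, hn⟩ := (HExt_adjoin_iff M y g).1 hg
    exact HExtN_unit hM hy hy' n g hn
  · intro g hg
    obtain ⟨n, hn⟩ := (HExt_adjoin_iff M y g).1 hg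
    exact ⟨(HExtN_D hM hy hy' hn).1, (HExt_adjoin_iff M y _).2 ⟨n, (HExtN_D hM hy hy' hn).2⟩⟩
  · intro g hg
    exact HExtFr_le _ ((Algebra.adjoin M {y}).algebraMap_mem (⟨g, hg⟩ : M))
  · exact HExtFr_le _ (Algebra.self_mem_adjoin_singleton M y)

lemma HExt_max {R : Subring HExtG} (hR : HExtGood R) :
    ∃ M, HExtGood M ∧ R ≤ M ∧ ∀ y, HExtE y → HExtD y ∈ M → y ∈ M := by
  obtain ⟨M, hRM, hM⟩ := zorn_le_nonempty₀ {M | HExtGood M} (by
    intro c hc hch M0 hM0
    have hd : DirectedOn (· ≤ ·) c := hch.directedOn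
    have hm : ∀ g, g ∈ sSup c ↔ ∃ s ∈ c, g ∈ s := fun g =>
      Subring.mem_sSup_of_directedOn ⟨M0, hM0⟩ hd
    refine ⟨sSup c, ⟨?_, ?_⟩, fun z hz => le_sSup hz⟩
    · intro g hg hg0
      obtain ⟨s, hs, hgs⟩ := (hm g).1 hg
      obtain ⟨h, hh, hgh⟩ := (hc hs).1 g hgs hg0
      exact ⟨h, (hm h).2 ⟨s, hs, hh⟩, hgh⟩
    · intro g hg
      obtain ⟨s, hs, hgs⟩ := (hm g).1 hg
      exact ⟨((hc hs).2 g hgs).1, (hm _).2 ⟨s, hs, ((hc hs).2 g hgs).2⟩⟩) R hR
  refine ⟨M, hM.prop, hRM, fun y hy hy' => ?_⟩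
  obtain ⟨M', h1, h2, h3⟩ := HExt_adj hM.prop hy hy'
  exact hM.le_of_ge h1 h2 h3

lemma HExt_sign {f : ℝ → ℝ} (hd : ∀ᶠ t in atTop, DifferentiableAt ℝ f t)
    (hu : ∀ᶠ t in atTop, f t ≠ 0) : (∀ᶠ t in atTop, 0 < f t) ∨ ∀ᶠ t in atTop, f t < 0 := by
  obtain ⟨T, hT⟩ := eventually_atTop.1 (hd.and hu)
  have hc : ∀ b, ContinuousOn f (Set.Icc T b) := fun b x hx =>
    (hT x hx.1).1.continuousAt.continuousWithinAt
  rcases lt_or_gt_of_ne (hT T le_rfl).2 with h | h
  · right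
    filter_upwards [eventually_ge_atTop T] with b hb
    by_contra hneg
    obtain ⟨x, hx, hx0⟩ := intermediate_value_Icc hb (hc b) ⟨h.le, not_lt.1 hneg⟩
    exact (hT x hx.1).2 hx0
  · left
    filter_upwards [eventually_ge_atTop T] with b hb
    by_contra hneg
    obtain ⟨x, hx, hx0⟩ := intermediate_value_Icc' hb (hc b) ⟨not_lt.1 hneg, h.le⟩
    exact (hT x hx.1).2 hx0

lemma HExt_inv {M : Subring HExtG} (hM : HExtGood M) {f : ℝ → ℝ} (hf : (↑f : HExtG) ∈ M) :
    (↑(fun t => (f t)⁻¹) : HExtG) ∈ M := by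
  by_cases h0 : (↑f : HExtG) = 0
  · have : (↑(fun t => (f t)⁻¹) : HExtG) = 0 := by
      rw [← Germ.coe_zero, Germ.coe_eq] at h0 ⊢
      filter_upwards [h0] with t ht
      simp [ht]
    rw [this]; exact M.zero_mem
  · obtain ⟨k, hk, hfk⟩ := hM.1 _ hf h0
    induction k using Germ.inductionOn with
    | h k =>
    have : (↑(fun t => (f t)⁻¹) : HExtG) = ↑k := by
      rw [← Germ.coe_mul, ← Germ.coe_one, Germ.coe_eq] at hfk
      rw [Germ.coe_eq]
      filter_upwards [hfk] with t ht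
      exact (eq_inv_of_mul_eq_one_right ht).symm
    rw [this]; exact hk

lemma HExt_unit_of_ne {M : Subring HExtG} (hM : HExtGood M) {f : ℝ → ℝ} (hf : (↑f : HExtG) ∈ M)
    (h0 : (↑f : HExtG) ≠ 0) : ∀ᶠ t in atTop, f t ≠ 0 := by
  obtain ⟨k, _, hfk⟩ := hM.1 _ hf h0
  exact (HExt_unit_coe f).1 (IsUnit.of_mul_eq_one k hfk)

theorem hext (R : Subring (Germ (atTop : Filter ℝ) ℝ)) (h1 : ∀ g ∈ R, g ≠ 0 → ∃ h ∈ R, g * h = 1)
    (h2 : ∀ f : ℝ → ℝ, (↑f : Germ (atTop : Filter ℝ) ℝ) ∈ R →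
      (∀ᶠ t in atTop, DifferentiableAt ℝ f t) ∧ (↑(deriv f) : Germ (atTop : Filter ℝ) ℝ) ∈ R) :
    ∃ H : HF, ∀ f : ℝ → ℝ, (↑f : Germ (atTop : Filter ℝ) ℝ) ∈ R → f ∈ H.car := by
  have hR : HExtGood R := by
    refine ⟨h1, fun g hg => ?_⟩
    induction g using Germ.inductionOn with
    | h f => exact ⟨(HExtE_coe f).2 (h2 f hg).1, (h2 f hg).2⟩
  obtain ⟨M, hM, hRM, hmax⟩ := HExt_max hR
  refine ⟨⟨{f | (↑f : HExtG) ∈ M}, ?_, ?_, ?_, ?_, ?_, ?_, ?_, ?_, ?_, ?_⟩, fun f hf => hRM hf⟩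
  · intro f g hf hfg
    have : (↑g : HExtG) = ↑f := Germ.coe_eq.2 hfg.symm
    show (↑g : HExtG) ∈ M
    rw [this]; exact hf
  · intro f g hf hg
    exact M.add_mem hf hg
  · intro f g hf hg
    exact M.mul_mem hf hg
  · intro f hf
    exact HExt_inv hM hf
  · intro c
    refine hmax _ (HExtE_const c).1 ?_
    rw [(HExtE_const c).2]; exact M.zero_mem
  · refine hmax _ ((HExtE_coe _).2 (Eventually.of_forall fun t => differentiableAt_id)) ?_
    have : HExtD (↑(fun t : ℝ => t) : HExtG) = 1 := by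
      rw [HExtD_coe, ← Germ.coe_one, Germ.coe_eq]
      exact Eventually.of_forall fun t => by simp
    rw [this]; exact M.one_mem
  · intro f hf
    exact (hM.2 _ hf).2
  · intro f hf
    by_cases h0 : (↑f : HExtG) = 0
    · have : (↑(fun t => Real.log (f t)) : HExtG) = 0 := by
        rw [← Germ.coe_zero, Germ.coe_eq] at h0 ⊢
        filter_upwards [h0] with t ht
        simp [ht]
      show (↑(fun t => Real.log (f t)) : HExtG) ∈ M
      rw [this]; exact M.zero_mem
    · have hu := HExt_unit_of_ne hM hf h0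
      have hd := (HExtE_coe f).1 (hM.2 _ hf).1
      refine hmax _ ((HExtE_coe _).2 ?_) ?_
      · filter_upwards [hu, hd] with t a b using b.log a
      · have : HExtD (↑(fun t => Real.log (f t)) : HExtG) =
            HExtD (↑f) * (↑(fun t => (f t)⁻¹) : HExtG) := by
          rw [HExtD_coe, HExtD_coe, ← Germ.coe_mul, Germ.coe_eq]
          filter_upwards [hu, hd] with t a b
          rw [deriv.log b a, div_eq_mul_inv]
          rfl
        rw [this]
        exact M.mul_mem (hM.2 _ hf).2 (HExt_inv hM hf)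
  · intro f hf
    exact (HExtE_coe f).1 (hM.2 _ hf).1
  · intro f hf
    by_cases h0 : (↑f : HExtG) = 0
    · left
      rw [← Germ.coe_zero, Germ.coe_eq] at h0
      exact h0
    · right
      exact HExt_sign ((HExtE_coe f).1 (hM.2 _ hf).1) (HExt_unit_of_ne hM hf h0)

end Pool.Agent.MP_357fb4_an

end
end
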