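import Pool.Agent.Mg.F14ad9d.G85b896
import Pool.Agent.Mg.F14ad9d.Gf5c998

/-!
Cube sums of the balanced indicator of rough numbers.
-/

open scoped BigOperators Classical ComplexConjugate Polynomial
open Finset Filter MeasureTheory Topology

noncomputable section

namespace Pool.Agent.MP_357fb4_an

theorem VVEst_expand (M s : ℕ) (w : ℤ → ℝ) : VV M s w = 𝔼 h ∈ pb s M, 𝔼 k ∈ pb s M,
    ∑' x : ℤ, ∏ e : Fin s → Bool, w (x + ((∑ i, mix e h k i : ℕ) : ℤ)) := by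
  induction s generalizing w with
  | zero =>
    simp only [VV, Cube_expect_zero]
    simp
  | succ s ih =>
    rw [VV, Cube_expect_two]
    refine expect_congr rfl fun h₀ _ => expect_congr rfl fun k₀ _ => ?_
    rw [ih]
    refine expect_congr rfl fun h _ => expect_congr rfl fun k _ => ?_
    refine tsum_congr fun x => ?_
    rw [← (Fin.consEquiv fun _ => Bool).prod_comp, Fintype.prod_prod_type, Fintype.prod_bool,
      ← prod_mul_distrib]
    refine prod_congr rfl fun e _ => ?_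
    change _ = w (x + ((∑ i, mix (Fin.cons true e) (Fin.cons h₀ h) (Fin.cons k₀ k) i : ℕ) : ℤ)) *
      w (x + ((∑ i, mix (Fin.cons false e) (Fin.cons h₀ h) (Fin.cons k₀ k) i : ℕ) : ℤ))
    rw [Cube_mix_cons, Cube_mix_cons, Fin.sum_univ_succ, Fin.sum_univ_succ, mul_comm]
    simp only [Fin.cons_zero, Fin.cons_succ, if_true, Bool.false_eq_true, if_false, Nat.cast_add]
    congr 2 <;> ring

open Pool.Agent.GT in
theorem VVEst_av (M s : ℕ) (f : (Fin s → ℕ) → ℝ) :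
    𝔼 h ∈ pb s M, f h = av fun h : Fin s → Fin M => f fun i => h i := by
  rw [av_eq]
  symm
  refine expect_bij (fun (h : Fin s → Fin M) _ => fun i => (h i : ℕ)) ?_ (fun _ _ => rfl) ?_ ?_
  · intro h _
    simp only [pb, Fintype.mem_piFinset, mem_range]
    exact fun i => (h i).2
  · intro h _ h' _ e
    funext i
    exact Fin.ext (congrFun e i)
  · intro h hh
    simp only [pb, Fintype.mem_piFinset, mem_range] at hh
    exact ⟨fun i => ⟨h i, hh i⟩, mem_univ _, rfl⟩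

theorem VVEst_sum_le {M s : ℕ} {h k : Fin s → ℕ} (hh : h ∈ pb s M) (hk : k ∈ pb s M)
    (e : Fin s → Bool) : ∑ i, mix e h k i ≤ s * M := by
  simp only [pb, Fintype.mem_piFinset, mem_range] at hh hk
  calc ∑ i, mix e h k i ≤ ∑ _i : Fin s, M := sum_le_sum fun i _ => by
        unfold mix
        split_ifs
        · exact (hk i).le
        · exact (hh i).le
    _ = s * M := by simp

theorem VVEst_shift {ι Ω : Type} [Fintype ι] (P : Finset Ω)
    (g : ι → Ω → Ω → ℝ) {η c : ℝ} (hc : |c| ≤ 1)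
    (H : ∀ I : Finset ι, |(𝔼 h ∈ P, 𝔼 k ∈ P, ∏ e ∈ I, g e h k) - 1| ≤ η) :
    |(𝔼 h ∈ P, 𝔼 k ∈ P, ∏ e, (g e h k + c)) - ∏ _e : ι, (1 + c)| ≤
      2 ^ Fintype.card ι * η := by
  have h1 : (𝔼 h ∈ P, 𝔼 k ∈ P, ∏ e, (g e h k + c)) = ∑ I ∈ (univ : Finset ι).powerset,
      (𝔼 h ∈ P, 𝔼 k ∈ P, ∏ e ∈ I, g e h k) * ∏ _e ∈ univ \ I, c := by
    simp only [prod_add, expect_sum_comm, expect_mul]
  have h2 : ∏ _e : ι, (1 + c) = ∑ I ∈ (univ : Finset ι).powerset, 1 * ∏ _e ∈ univ \ I, c := by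
    rw [prod_add]
    simp only [prod_const_one]
  rw [h1, h2, ← sum_sub_distrib]
  refine (abs_sum_le_sum_abs _ _).trans ?_
  refine (sum_le_card_nsmul _ _ η fun I _ => ?_).trans ?_
  · rw [← sub_mul, abs_mul, abs_prod]
    refine (mul_le_of_le_one_right (abs_nonneg _) ?_).trans (H I)
    exact prod_le_one (fun _ _ => abs_nonneg _) fun _ _ => hc
  · rw [card_powerset, card_univ, nsmul_eq_mul]
    push_cast
    exact le_rfl

theorem VVEst_main {M s L : ℕ} (ν : ℤ → ℝ) (hν : ∀ x, 0 ≤ ν x) {η : ℝ}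
    (H : ∀ (x : ℤ) (I : Finset (Fin s → Bool)), |(𝔼 h ∈ pb s M, 𝔼 k ∈ pb s M,
      ∏ e ∈ I, ν (x + ((∑ i, mix e h k i : ℕ) : ℤ))) - 1| ≤ η) (a : ℤ) :
    VV M s (fun x => if a ≤ x ∧ x < a + L then ν x - 1 else 0) ≤
      2 ^ 2 ^ s * η * L + 2 ^ 2 ^ s * (1 + η) * (2 * (s * M)) := by
  have hη : 0 ≤ η := (abs_nonneg _).trans (H 0 ∅)
  have hcard : Fintype.card (Fin s → Bool) = 2 ^ s := by simp
  obtain ⟨w, hw⟩ : ∃ w : ℤ → ℝ, w = fun x => if a ≤ x ∧ x < a + L then ν x - 1 else 0 :=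
    ⟨_, rfl⟩
  rw [← hw, VVEst_expand]
  obtain ⟨D, hD⟩ : ∃ D : ℕ, D = s * M := ⟨_, rfl⟩
  have hsum : ∀ h ∈ pb s M, ∀ k ∈ pb s M,
      ∑' x : ℤ, ∏ e : Fin s → Bool, w (x + ((∑ i, mix e h k i : ℕ) : ℤ)) =
        ∑ x ∈ Ico (a - D) (a + L), ∏ e : Fin s → Bool, w (x + ((∑ i, mix e h k i : ℕ) : ℤ)) := by
    intro h hh k hk
    refine tsum_eq_sum fun x hx => ?_
    refine prod_eq_zero (mem_univ fun _ => false) ?_
    have h1 := VVEst_sum_le hh hk fun _ => false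
    rw [← hD] at h1
    rw [hw]
    refine if_neg ?_
    rw [mem_Ico] at hx
    omega
  rw [expect_congr rfl fun h hh => expect_congr rfl fun k hk => hsum h hh k hk]
  simp only [expect_sum_comm]
  obtain ⟨E, hE⟩ : ∃ E : ℤ → ℝ, E = fun x => 𝔼 h ∈ pb s M, 𝔼 k ∈ pb s M,
    ∏ e : Fin s → Bool, w (x + ((∑ i, mix e h k i : ℕ) : ℤ)) := ⟨_, rfl⟩
  have hall : ∀ x, E x ≤ 2 ^ 2 ^ s * (1 + η) := by
    intro x
    have h1 := VVEst_shift (pb s M) (fun e h k => ν (x + ((∑ i, mix e h k i : ℕ) : ℤ)))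
      (c := 1) (by simp) (H x)
    rw [hcard, prod_const, card_univ, hcard, one_add_one_eq_two] at h1
    have h2 : E x ≤ 𝔼 h ∈ pb s M, 𝔼 k ∈ pb s M,
        ∏ e : Fin s → Bool, (ν (x + ((∑ i, mix e h k i : ℕ) : ℤ)) + 1) := by
      rw [hE]
      refine expect_le_expect fun h _ => expect_le_expect fun k _ => ?_
      refine (le_abs_self _).trans ?_
      rw [abs_prod]
      refine prod_le_prod (fun _ _ => abs_nonneg _) fun e _ => ?_
      have h3 := hν (x + ((∑ i, mix e h k i : ℕ) : ℤ))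
      rw [hw]
      dsimp only
      split_ifs
      · rw [abs_le]
        constructor <;> linarith
      · rw [abs_zero]
        linarith
    have h3 := (abs_le.mp h1).2
    linarith
  have hin : ∀ x, a ≤ x → x + D < a + L → E x ≤ 2 ^ 2 ^ s * η := by
    intro x hx1 hx2
    have h1 := VVEst_shift (pb s M) (fun e h k => ν (x + ((∑ i, mix e h k i : ℕ) : ℤ)))
      (c := -1) (by simp) (H x)
    rw [hcard, prod_const, card_univ, hcard, add_neg_cancel, zero_pow (by positivity),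
      sub_zero] at h1
    refine le_trans (le_of_eq ?_) (le_of_abs_le h1)
    rw [hE]
    refine expect_congr rfl fun h hh => expect_congr rfl fun k hk => ?_
    refine prod_congr rfl fun e _ => ?_
    have h2 := VVEst_sum_le hh hk e
    rw [← hD] at h2
    rw [hw]
    dsimp only
    rw [if_pos (by omega)]
    ring
  change ∑ x ∈ Ico (a - D) (a + L), (fun x => 𝔼 h ∈ pb s M, 𝔼 k ∈ pb s M,
    ∏ e : Fin s → Bool, w (x + ((∑ i, mix e h k i : ℕ) : ℤ))) x ≤ _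
  rw [← hE, ← sum_filter_add_sum_filter_not _ fun x => a ≤ x ∧ x + D < a + L]
  have c1 : ((Ico (a - D) (a + L)).filter fun x => a ≤ x ∧ x + D < a + L).card ≤ L := by
    refine (card_le_card (t := Ico a (a + L)) fun x hx => ?_).trans (by simp)
    simp only [mem_filter, mem_Ico] at hx ⊢
    omega
  have c2 : ((Ico (a - D) (a + L)).filter fun x => ¬ (a ≤ x ∧ x + D < a + L)).card ≤ 2 * D := by
    refine (card_le_card (t := Ico (a - D) a ∪ Ico (a + L - D) (a + L)) fun x hx => ?_).trans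
      ((card_union_le _ _).trans ?_)
    · simp only [mem_filter, mem_Ico, mem_union] at hx ⊢
      omega
    · simp only [Int.card_Ico]
      omega
  have c1' : (((Ico (a - D) (a + L)).filter fun x => a ≤ x ∧ x + D < a + L).card : ℝ) ≤ L := by
    exact_mod_cast c1
  have c2' : (((Ico (a - D) (a + L)).filter fun x => ¬ (a ≤ x ∧ x + D < a + L)).card : ℝ) ≤
      2 * (s * M) := by
    rw [hD] at c2 ⊢
    exact_mod_cast c2
  refine add_le_add ?_ ?_
  · refine (sum_le_card_nsmul _ _ (2 ^ 2 ^ s * η) fun x hx => ?_).trans ?_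
    · exact hin x (mem_filter.1 hx).2.1 (mem_filter.1 hx).2.2
    · rw [nsmul_eq_mul, mul_comm]
      exact mul_le_mul_of_nonneg_left c1' (by positivity)
  · refine (sum_le_card_nsmul _ _ (2 ^ 2 ^ s * (1 + η)) fun x _ => hall x).trans ?_
    rw [nsmul_eq_mul, mul_comm]
    exact mul_le_mul_of_nonneg_left c2' (by positivity)

/-- The coefficients of the cube forms. -/
def VVEst_c {s : ℕ} (e : Fin s → Bool) : Fin s ⊕ Fin s → ℤ :=
  Sum.elim (fun i => if e i then 0 else 1) fun i => if e i then 1 else 0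

open Pool.Agent.GT in
theorem VVEst_sep {s : ℕ} (hs : 1 ≤ s) (I : Finset (Fin s → Bool)) :
    Sep (fun e : I => VVEst_c e.1) 1 := by
  refine ⟨fun e v => ?_, fun e => ?_, fun e e' hne => ?_⟩
  · rcases v with i | i <;> simp only [VVEst_c, Sum.elim_inl, Sum.elim_inr] <;> split_ifs <;> simp
  · by_cases h : e.1 ⟨0, hs⟩ = true
    · exact ⟨Sum.inr ⟨0, hs⟩, by simp [VVEst_c, h]⟩
    · exact ⟨Sum.inl ⟨0, hs⟩, by simp [VVEst_c, h]⟩
  · obtain ⟨i, hi⟩ := Function.ne_iff.mp fun h => hne (Subtype.ext h)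
    by_cases h : e.1 i = true
    · have h' : ¬ e'.1 i = true := fun h' => hi (h.trans h'.symm)
      exact ⟨Sum.inr i, by simp [VVEst_c, h], by simp [VVEst_c, h']⟩
    · have h' : e'.1 i = true := by
        by_contra h'
        exact hi (by rw [Bool.eq_false_iff.mpr h, Bool.eq_false_iff.mpr h'])
      exact ⟨Sum.inl i, by simp [VVEst_c, h], by simp [VVEst_c, h']⟩

open Pool.Agent.GT in
theorem VVEst_form {M s : ℕ} (f : ℤ → ℝ) (W b x : ℤ) (I : Finset (Fin s → Bool)) :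
    (𝔼 h ∈ pb s M, 𝔼 k ∈ pb s M, ∏ e ∈ I, f (W * (x + ((∑ i, mix e h k i : ℕ) : ℤ)) + b)) =
      av fun t : Fin s ⊕ Fin s → Fin M =>
        ∏ e : I, f (W * ∑ v, VVEst_c e.1 v * ((t v : ℕ) : ℤ) + (W * x + b)) := by
  rw [av_sum_arrow, VVEst_av]
  refine av_congr fun h => ?_
  rw [VVEst_av]
  refine av_congr fun k => ?_
  rw [← prod_coe_sort I]
  refine prod_congr rfl fun e _ => ?_
  congr 1
  have : ∑ v, VVEst_c e.1 v * (((Sum.elim h k v : Fin M) : ℕ) : ℤ) =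
      ((∑ i, mix e.1 (fun i => (h i : ℕ)) (fun i => (k i : ℕ)) i : ℕ) : ℤ) := by
    rw [Fintype.sum_sum_type, ← sum_add_distrib, Nat.cast_sum]
    refine sum_congr rfl fun i _ => ?_
    simp only [VVEst_c, Sum.elim_inl, Sum.elim_inr, mix]
    split_ifs <;> simp
  rw [this]
  ring

theorem VVEst_k (m k₀ : ℕ) {θ : ℝ} (hθ : 0 < θ) :
    ∃ k : ℕ, k₀ ≤ k ∧ ((k : ℝ) + 1) ^ m / 2 ^ k ≤ θ := by
  have h1 := (tendsto_pow_const_div_const_pow_of_one_lt m (r := 2) one_lt_two).comp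
    (tendsto_add_atTop_nat 1)
  obtain ⟨k, hk1, hk2⟩ := ((eventually_ge_atTop k₀).and
    (h1.eventually (ge_mem_nhds (half_pos hθ)))).exists
  refine ⟨k, hk1, ?_⟩
  simp only [Function.comp, Nat.cast_add, Nat.cast_one, pow_succ] at hk2
  rw [← div_div] at hk2
  linarith

theorem vv_est {s : ℕ} (hs : 1 ≤ s) {δ ε : ℝ} (hδ : 0 < δ) (hε : 0 < ε) : ∃ u w : ℕ, 1 ≤ u ∧
    1 ≤ δ * u ∧ ∀ᶠ N : ℕ in atTop, ∀ L : ℕ, (N : ℝ) ^ δ ≤ L → ∃ M : ℕ, 1 ≤ M ∧ M ≤ L ∧ ∀ a b : ℤ,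
      VV M s (fun x => if a ≤ x ∧ x < a + L then
        nuI w ⌊(N : ℝ) ^ (1 / u : ℝ)⌋₊ (primorial w * x + b) - 1 else 0) ≤
          (ε / u ^ 2) ^ 2 ^ s * L := by
  obtain ⟨A, k₀, hA⟩ := box_fl (2 ^ s) 1
  obtain ⟨c, hc⟩ := exists_nat_ge ((2 * A + 1) / δ + 1)
  have hq : 0 < (2 * (A : ℝ) + 1) / δ := by positivity
  have hc1 : (1 : ℝ) ≤ c := by linarith
  have hc2 : 2 * (A : ℝ) + 1 ≤ δ * c := by
    have : (2 * (A : ℝ) + 1) / δ ≤ c := by linarith
    rwa [div_le_iff₀ hδ, mul_comm (c : ℝ)] at this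
  obtain ⟨B, hB⟩ : ∃ B : ℝ, B = 2 ^ 2 ^ s := ⟨_, rfl⟩
  have hB0 : 0 < B := by rw [hB]; positivity
  obtain ⟨k, hk, hk2⟩ := VVEst_k (2 * 2 ^ s) k₀
    (θ := (ε / (c : ℝ) ^ 2) ^ 2 ^ s / (96 * B)) (by positivity)
  obtain ⟨u, hu⟩ : ∃ u : ℕ, u = c * (k + 1) := ⟨_, rfl⟩
  have hu' : (u : ℝ) = c * (k + 1) := by rw [hu]; push_cast; ring
  have hk0 : (0 : ℝ) ≤ k := Nat.cast_nonneg k
  have hA0 : (0 : ℝ) ≤ A := Nat.cast_nonneg A
  have hu1 : (1 : ℝ) ≤ u := by rw [hu']; nlinarith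
  obtain ⟨τ, hτ⟩ : ∃ τ : ℝ, τ = (ε / u ^ 2) ^ 2 ^ s := ⟨_, rfl⟩
  have hτ0 : 0 < τ := by rw [hτ]; positivity
  obtain ⟨η, hη⟩ : ∃ η : ℝ, η = τ / (2 * B) := ⟨_, rfl⟩
  have hη0 : 0 < η := by rw [hη]; positivity
  have hk3 : 16 / (2 : ℝ) ^ k ≤ η / 3 := by
    have h1 : τ = (ε / (c : ℝ) ^ 2) ^ 2 ^ s / ((k : ℝ) + 1) ^ (2 * 2 ^ s) := by
      rw [hτ, hu', pow_mul, ← div_pow, mul_pow, div_div]
    obtain ⟨X, hX⟩ : ∃ X : ℝ, X = (ε / (c : ℝ) ^ 2) ^ 2 ^ s := ⟨_, rfl⟩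
    obtain ⟨Z, hZ⟩ : ∃ Z : ℝ, Z = ((k : ℝ) + 1) ^ (2 * 2 ^ s) := ⟨_, rfl⟩
    have hZ0 : 0 < Z := by rw [hZ]; positivity
    rw [← hX, ← hZ] at h1 hk2
    have h2 : (0 : ℝ) < 2 ^ k := by positivity
    rw [div_le_div_iff₀ h2 (by positivity)] at hk2
    rw [hη, h1, div_div, div_div, div_le_div_iff₀ h2 (by positivity)]
    nlinarith
  obtain ⟨w, hw⟩ := hA (η / 3) (by positivity)
  obtain ⟨J, hJ⟩ := exists_nat_ge (4 * s * B * (1 + η) / τ + 1)
  have hq2 : 0 ≤ 4 * s * B * (1 + η) / τ := by positivity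
  have hJ1 : (1 : ℝ) ≤ J := by linarith
  have hJ2 : 4 * s * B * (1 + η) ≤ τ * J := by
    have : 4 * s * B * (1 + η) / τ ≤ J := by linarith
    rwa [div_le_iff₀ hτ0, mul_comm (J : ℝ)] at this
  have hJn : 1 ≤ J := by exact_mod_cast hJ1
  refine ⟨u, w, by exact_mod_cast hu1, by rw [hu']; nlinarith, ?_⟩
  have e1 := ((tendsto_rpow_atTop (half_pos hδ)).comp tendsto_natCast_atTop_atTop).eventually
    (eventually_ge_atTop ((J : ℝ) + 12 * s * J / η))
  have e2 := ((tendsto_rpow_atTop (show 0 < (1 / u : ℝ) by positivity)).comp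
    tendsto_natCast_atTop_atTop).eventually (eventually_ge_atTop (2 : ℝ))
  filter_upwards [e1, e2, eventually_ge_atTop 1] with N hN1 hN2 hN3 L hL
  simp only [Function.comp] at hN1 hN2
  have hN : (1 : ℝ) ≤ N := by exact_mod_cast hN3
  obtain ⟨R, hR⟩ : ∃ R : ℝ, R = (N : ℝ) ^ (δ / 2) := ⟨_, rfl⟩
  have hRR : (N : ℝ) ^ δ = R * R := by
    rw [hR, ← Real.rpow_add (by linarith), add_halves]
  rw [← hR] at hN1
  rw [hRR] at hL
  have hq3 : 0 ≤ 12 * s * (J : ℝ) / η := by positivity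
  have hRJ : (J : ℝ) ≤ R := by linarith
  have hR1 : 1 ≤ R := by linarith
  have hR2 : 12 * s * (J : ℝ) ≤ η * R := by
    have : 12 * s * (J : ℝ) / η ≤ R := by linarith
    rwa [div_le_iff₀ hη0, mul_comm R] at this
  have hJL : J ≤ L := by
    have : (J : ℝ) ≤ L := by nlinarith
    exact_mod_cast this
  obtain ⟨M, hM⟩ : ∃ M : ℕ, M = L / J := ⟨_, rfl⟩
  have hM1 : 1 ≤ M := by rw [hM]; exact Nat.div_pos hJL hJn
  have hM2 : J * M ≤ L := by rw [hM]; exact Nat.mul_div_le L J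
  have hM3 : L ≤ 2 * (J * M) := by
    have h1 : L < J * M + J := by
      rw [hM]
      have := Nat.div_add_mod L J
      have := Nat.mod_lt L hJn
      omega
    nlinarith
  have hM1' : (1 : ℝ) ≤ M := by exact_mod_cast hM1
  have hM2' : (J : ℝ) * M ≤ L := by exact_mod_cast hM2
  have hM3' : (L : ℝ) ≤ 2 * (J * M) := by exact_mod_cast hM3
  refine ⟨M, hM1, by rw [hM]; exact Nat.div_le_self _ _, fun a b => ?_⟩
  obtain ⟨z, hz⟩ : ∃ z : ℕ, z = ⌊(N : ℝ) ^ (1 / u : ℝ)⌋₊ := ⟨_, rfl⟩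
  rw [← hz, ← hτ]
  have hz2 : 2 ≤ z := by rw [hz]; exact Nat.le_floor (by exact_mod_cast hN2)
  have hz3 : (z : ℝ) ^ (A * (k + 1)) ≤ R := by
    have h1 : (z : ℝ) ≤ (N : ℝ) ^ (1 / u : ℝ) := by rw [hz]; exact Nat.floor_le (by positivity)
    refine (pow_le_pow_left₀ (Nat.cast_nonneg _) h1 _).trans ?_
    rw [← Real.rpow_natCast, ← Real.rpow_mul (by linarith), hR]
    refine Real.rpow_le_rpow_of_exponent_le hN ?_
    rw [div_mul_eq_mul_div, one_mul, div_le_div_iff₀ (by linarith) two_pos, hu']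
    push_cast
    nlinarith
  have hrem : (Fintype.card (Fin s ⊕ Fin s) : ℝ) * (z : ℝ) ^ (A * (k + 1)) / M ≤ η / 3 := by
    have h1 : (Fintype.card (Fin s ⊕ Fin s) : ℝ) = 2 * s := by simp [two_mul]
    rw [h1, div_le_div_iff₀ (by linarith) three_pos]
    have hs0 : (0 : ℝ) ≤ s := Nat.cast_nonneg s
    have h2 : 2 * s * (z : ℝ) ^ (A * (k + 1)) * 3 ≤ 6 * s * R := by nlinarith
    refine h2.trans ?_
    have h3 : (6 * s * R) * (2 * J) ≤ (η * M) * (2 * J) := by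
      calc (6 * s * R) * (2 * J) = (12 * s * J) * R := by ring
        _ ≤ (η * R) * R := by gcongr
        _ = η * (R * R) := by ring
        _ ≤ η * (2 * (J * M)) := mul_le_mul_of_nonneg_left (hL.trans hM3') hη0.le
        _ = (η * M) * (2 * J) := by ring
    exact le_of_mul_le_mul_right h3 (by linarith)
  have hW : ∀ p : ℕ, p.Prime → w < p → ¬ (p : ℤ) ∣ (primorial w : ℕ) := fun p hp hwp hd =>
    absurd (hp.dvd_primorial_iff.1 (Int.natCast_dvd_natCast.1 hd)) (not_le.2 hwp)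
  have hmain := VVEst_main (M := M) (s := s) (L := L) (fun x => nuI w z (primorial w * x + b))
    (fun x => nuI_nonneg _ _ _) (η := η) (fun x I => by
      rw [VVEst_form (nuI w z)]
      have h1 := hw w z M k le_rfl hk hz2 hM1 I (Fin s ⊕ Fin s)
        (by rw [Fintype.card_coe]; exact (card_le_univ I).trans (by simp)) _ (VVEst_sep hs I)
        (primorial w : ℕ) hW fun _ => (primorial w : ℕ) * x + b
      linarith) a
  refine hmain.trans ?_
  rw [← hB]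
  have h1 : B * η = τ / 2 := by rw [hη]; field_simp
  have h2 : B * (1 + η) * (2 * (s * M)) ≤ τ / 2 * L := by
    calc B * (1 + η) * (2 * (s * M)) = (4 * s * B * (1 + η)) * M / 2 := by ring
      _ ≤ (τ * J) * M / 2 := by gcongr
      _ = τ / 2 * (J * M) := by ring
      _ ≤ τ / 2 * L := by gcongr
  rw [h1]
  linarith

end Pool.Agent.MP_357fb4_an
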