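import Pool.Agent.MP_14ad9d_nt.Defs
import Mathlib
import Pool.Agent.MP_14ad9d_nt.Full.ODefs
import Pool.Agent.MP_14ad9d_nt.Full.HDefs

section

set_option autoImplicit false

open AlgebraicGeometry CategoryTheory TopologicalSpace

namespace Pool.Agent.MP_14ad9d_nt.Sch

/-- a locally closed subset carries a subscheme through which reduced schemes factor -/
theorem exists_sub (P : Scheme.{0}) (π : P ⟶ Spec (CommRingCat.of ℤ)) [LocallyOfFiniteType π]
    [QuasiCompact π] (Z : Closeds P) (U : P.Opens) :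
    ∃ (X : Scheme.{0}) (κ : X ⟶ P), Mono κ ∧ LocallyOfFiniteType (κ ≫ π) ∧
      QuasiCompact (κ ≫ π) ∧ (∀ x, κ x ∈ Z ∧ κ x ∈ U) ∧
      ∀ (T : Scheme.{0}) [IsReduced T] (g : T ⟶ P), (∀ t, g t ∈ Z ∧ g t ∈ U) →
        ∃ g' : T ⟶ X, g' ≫ κ = g := by
  let I := Scheme.IdealSheafData.vanishingIdeal Z
  let ι := I.subschemeι
  have hι : Set.range ι = Z := by
    rw [Scheme.IdealSheafData.range_subschemeι,
      Scheme.IdealSheafData.coe_support_vanishingIdeal]
  have hN : IsLocallyNoetherian I.subscheme := LocallyOfFiniteType.isLocallyNoetherian (ι ≫ π)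
  refine ⟨(ι ⁻¹ᵁ U).toScheme, (ι ⁻¹ᵁ U).ι ≫ ι, inferInstance, inferInstance, inferInstance, ?_, ?_⟩
  · intro x
    refine ⟨?_, ?_⟩
    · rw [← SetLike.mem_coe, ← hι, Scheme.Hom.comp_apply]
      exact ⟨_, rfl⟩
    · rw [Scheme.Hom.comp_apply]
      exact x.2
  · intro T _ g hg
    have H : ι.ker ≤ g.ker := by
      rw [Scheme.IdealSheafData.ker_subschemeι, ← Scheme.IdealSheafData.map_bot,
        ← Scheme.nilradical_eq_bot, ← Scheme.IdealSheafData.vanishingIdeal_top,
        Scheme.IdealSheafData.map_vanishingIdeal]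
      apply Scheme.IdealSheafData.vanishingIdeal_antimono
      rw [Closeds.closure_le]
      rintro _ ⟨t, -, rfl⟩
      exact (hg t).1
    let g1 := IsClosedImmersion.lift ι g H
    have hg1 : g1 ≫ ι = g := IsClosedImmersion.lift_fac _ _ _
    have H2 : Set.range g1 ⊆ Set.range (ι ⁻¹ᵁ U).ι := by
      rintro _ ⟨t, rfl⟩
      rw [Scheme.Opens.range_ι]
      have := (hg t).2
      rw [← hg1, Scheme.Hom.comp_apply] at this
      exact this
    refine ⟨IsOpenImmersion.lift _ g1 H2, ?_⟩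
    rw [IsOpenImmersion.lift_fac_assoc, hg1]

/-- a point of `Proj` given by global sections, read in a chart -/
theorem comp_fromOfGlobalSections {σ A : Type} [CommRing A] [SetLike σ A] [AddSubgroupClass σ A]
    (𝒜 : ℕ → σ) [GradedRing 𝒜] {X : Scheme.{0}} (f : A →+* Γ(X, ⊤))
    (hf : (HomogeneousIdeal.irrelevant 𝒜).toIdeal.map f = ⊤) {t : A} {d : ℕ} (hd : 0 < d)
    (ht : t ∈ 𝒜 d) {S : Type} [CommRing S] (g : Spec (CommRingCat.of S) ⟶ X)
    (γ : Γ(X, ⊤) →+* S) (hγ : g ≫ X.toSpecΓ = Spec.map (CommRingCat.ofHom γ))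
    (hu : IsUnit ((γ.comp f) t)) :
    g ≫ Proj.fromOfGlobalSections 𝒜 f hf =
      Spec.map (CommRingCat.ofHom ((IsLocalization.Away.lift (S := Localization.Away t) t hu).comp
        (algebraMap (HomogeneousLocalization.Away 𝒜 t) (Localization.Away t)))) ≫
        Proj.awayι 𝒜 t ht hd := by
  have H : Set.range g ⊆ Set.range (X.basicOpen (f t)).ι := by
    rintro _ ⟨x, rfl⟩
    rw [Scheme.Opens.range_ι, ← X.toSpecΓ_preimage_basicOpen]
    change X.toSpecΓ (g x) ∈ PrimeSpectrum.basicOpen (f t)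
    rw [← Scheme.Hom.comp_apply, hγ]
    change γ (f t) ∉ x.asIdeal
    intro h
    exact x.2.ne_top (Ideal.eq_top_of_isUnit_mem _ h hu)
  let u := IsOpenImmersion.lift _ g H
  have hu1 : u ≫ (X.basicOpen (f t)).ι = g := IsOpenImmersion.lift_fac _ _ _
  have h1 : (X.basicOpen (f t)).ι ≫ Proj.fromOfGlobalSections 𝒜 f hf =
      Proj.toBasicOpenOfGlobalSections 𝒜 f rfl hd ht ≫ (Proj.basicOpen 𝒜 t).ι := by
    rw [← Proj.fromOfGlobalSections_resLE 𝒜 f hf hd ht, Scheme.Hom.resLE_comp_ι]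
  have hu' : IsUnit (γ (f t)) := hu
  have h2 : u ≫ (X.isoOfEq (X.toSpecΓ_preimage_basicOpen (f t))).inv ≫
      X.toSpecΓ ∣_ (PrimeSpectrum.basicOpen (f t)) ≫ (basicOpenIsoSpecAway (f t)).hom =
      Spec.map (CommRingCat.ofHom
        (IsLocalization.Away.lift (S := Localization.Away (f t)) (f t) hu')) := by
    rw [← cancel_mono (Spec.map (CommRingCat.ofHom (algebraMap Γ(X, ⊤)
      (Localization.Away (f t)))))]
    simp only [Category.assoc, basicOpenIsoSpecAway_hom_SpecMap, morphismRestrict_ι,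
      Scheme.isoOfEq_inv_ι_assoc]
    rw [reassoc_of% hu1, hγ, ← Spec.map_comp, ← CommRingCat.ofHom_comp,
      IsLocalization.Away.lift_comp]
  rw [← hu1, Category.assoc, h1, Proj.toBasicOpenOfGlobalSections]
  simp only [Category.assoc, Proj.basicOpenIsoSpec_inv_ι]
  rw [reassoc_of% h2, ← Category.assoc, ← Spec.map_comp, ← CommRingCat.ofHom_comp]
  congr 3
  rw [← RingHom.comp_assoc]
  congr 1
  apply IsLocalization.ringHom_ext (M := .powers t)
  ext a
  simp

end Pool.Agent.MP_14ad9d_nt.Sch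

end

section

set_option autoImplicit false

open AlgebraicGeometry CategoryTheory TopologicalSpace MvPolynomial

namespace Pool.Agent.MP_14ad9d_nt.Sch

attribute [local instance] MvPolynomial.gradedAlgebra

variable (m : ℕ)

/-- the homogeneous coordinate ring -/
abbrev RA : Type := MvPolynomial (Option (Fin m)) ℤ

/-- its grading -/
noncomputable abbrev gr : ℕ → Submodule ℤ (RA m) := homogeneousSubmodule (Option (Fin m)) ℤ

theorem hX (o : Option (Fin m)) : (X o : RA m) ∈ gr m 1 := isHomogeneous_X ℤ o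

/-- projective space -/
noncomputable abbrev PP : Scheme.{0} := Proj (gr m)

/-- the coordinate ring of the standard chart -/
abbrev RB : Type := HomogeneousLocalization.Away (gr m) (X none)

/-- the standard chart -/
noncomputable abbrev jj : Spec (CommRingCat.of (RB m)) ⟶ PP m :=
  Proj.awayι (gr m) (X none) (hX m none) Nat.one_pos

/-- affine coordinates -/
noncomputable def yy (l : Fin m) : RB m :=
  HomogeneousLocalization.Away.mk (gr m) (hX m none) 1 (X (some l)) (by simpa using hX m (some l))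

/-- the structure map -/
noncomputable def pp : PP m ⟶ Spec (CommRingCat.of ℤ) :=
  Proj.toSpecZero (gr m) ≫ Spec.map (CommRingCat.ofHom (algebraMap ℤ (gr m 0)))

theorem alg_surj : Function.Surjective (algebraMap ℤ (gr m 0)) := by
  rintro ⟨a, ha⟩
  have ha' : a ∈ homogeneousSubmodule (Option (Fin m)) ℤ 0 := ha
  rw [homogeneousSubmodule_zero, Submodule.mem_one] at ha'
  obtain ⟨r, hr⟩ := ha'
  refine ⟨r, Subtype.ext ?_⟩
  have h := RingHom.ext_int ((algebraMap (gr m 0) (RA m)).comp (algebraMap ℤ (gr m 0)))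
    (algebraMap ℤ (RA m))
  exact (congr($h r)).trans hr

instance ft : Algebra.FiniteType (gr m 0) (RA m) := by
  have := IsScalarTower.of_algebraMap_eq' (R := ℤ) (S := gr m 0) (A := RA m) (RingHom.ext_int _ _)
  exact Algebra.FiniteType.of_restrictScalars_finiteType ℤ _ _

instance : LocallyOfFiniteType (pp m) := by
  have := IsClosedImmersion.spec_of_surjective (CommRingCat.ofHom (algebraMap ℤ (gr m 0)))
    (alg_surj m)
  unfold pp
  infer_instance

instance : QuasiCompact (pp m) := by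
  unfold pp
  infer_instance

/-- evaluation of integral polynomials -/
noncomputable abbrev ev {S σ : Type*} [CommRing S] (v : σ → S) : MvPolynomial σ ℤ →+* S :=
  eval₂Hom (Int.castRingHom S) v

theorem ev_ext {S σ : Type*} [CommRing S] {φ φ' : MvPolynomial σ ℤ →+* S}
    (h : ∀ i, φ (X i) = φ' (X i)) : φ = φ' :=
  ringHom_ext' (RingHom.ext_int _ _) h

theorem aeval_eq_ev {S σ : Type*} [CommRing S] [Algebra ℤ S] (v : σ → S) (p : MvPolynomial σ ℤ) :
    aeval v p = ev v p := by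
  rw [aeval_def, coe_eval₂Hom, RingHom.ext_int (algebraMap ℤ S) (Int.castRingHom S)]

theorem eval_homog {S σ : Type*} [CommRing S] {a : MvPolynomial σ ℤ} {n : ℕ}
    (ha : a.IsHomogeneous n) (c : S) (v : σ → S) :
    ev (fun o => c * v o) a = c ^ n * ev v a := by
  conv_lhs => rw [a.as_sum]
  conv_rhs => rw [a.as_sum]
  rw [map_sum, map_sum, Finset.mul_sum]
  refine Finset.sum_congr rfl fun s hs => ?_
  rw [eval₂Hom_monomial, eval₂Hom_monomial, ha.degree_eq_sum_deg_support hs]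
  simp only [Finsupp.prod, mul_pow, Finset.prod_mul_distrib, Finset.prod_pow_eq_pow_sum]
  ring

theorem psi_surj : Function.Surjective (ev (yy m)) := by
  intro z
  obtain ⟨n, a, ha, rfl⟩ := HomogeneousLocalization.Away.mk_surjective (gr m) (hX m none) z
  have ha' : a.IsHomogeneous n := by simpa using ha
  let L := Localization.Away (X none : RA m)
  let w : Option (Fin m) → MvPolynomial (Fin m) ℤ := fun o => o.elim 1 X
  refine ⟨ev w a, ?_⟩
  apply HomogeneousLocalization.val_injective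
  let c : L := Localization.mk 1 ⟨X none, Submonoid.mem_powers _⟩
  let F : RB m →+* L := algebraMap (RB m) L
  have h1 : (F.comp ((ev (yy m)).comp (ev w))) =
      ev (fun o => c * algebraMap (RA m) L (X o)) := by
    apply ev_ext
    intro o
    cases o with
    | none =>
      simp only [RingHom.comp_apply, eval₂Hom_X', w, Option.elim, map_one, c]
      rw [← Localization.mk_one_eq_algebraMap, Localization.mk_mul, ← Localization.mk_one,
        Localization.mk_eq_mk_iff, Localization.r_iff_exists]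
      exact ⟨1, by simp⟩
    | some l =>
      simp only [RingHom.comp_apply, eval₂Hom_X', w, Option.elim, c]
      change (yy m l).val = _
      rw [yy, HomogeneousLocalization.Away.val_mk,
        ← Localization.mk_one_eq_algebraMap, Localization.mk_mul,
        Localization.mk_eq_mk_iff, Localization.r_iff_exists]
      exact ⟨1, by simp⟩
  have h2 : ev (fun o => algebraMap (RA m) L (X o)) = algebraMap (RA m) L := by
    apply ev_ext
    intro o
    simp
  have h3 := congr($h1 a)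
  rw [eval_homog ha', h2] at h3
  change (F.comp ((ev (yy m)).comp (ev w))) a = _
  rw [h3, HomogeneousLocalization.Away.val_mk,
    ← Localization.mk_one_eq_algebraMap, Localization.mk_pow, Localization.mk_mul,
    Localization.mk_eq_mk_iff, Localization.r_iff_exists]
  exact ⟨1, by simp⟩

theorem hom_ev {S : Type*} [CommRing S] (φ : RB m →+* S) (p : MvPolynomial (Fin m) ℤ) :
    φ (ev (yy m) p) = ev (fun l => φ (yy m l)) p := by
  have : φ.comp (ev (yy m)) = ev (fun l => φ (yy m l)) := by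
    apply ev_ext
    intro l
    simp
  exact congr($this p)

theorem hom_ext {S : Type*} [CommRing S] {φ φ' : RB m →+* S} (h : ∀ l, φ (yy m l) = φ' (yy m l)) :
    φ = φ' := by
  ext z
  obtain ⟨p, rfl⟩ := psi_surj m z
  rw [hom_ev, hom_ev, funext h]

/-- the integral point attached to a primitive vector -/
theorem exists_point (n c : Option (Fin m) → ℤ) (hc : ∑ o, n o * c o = 1) :
    ∃ s : Spec (CommRingCat.of ℤ) ⟶ PP m,
      (∀ x, n none ∉ x.asIdeal → s x ∈ Proj.basicOpen (gr m) (X none)) ∧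
      ∀ (S : Type) [CommRing S], IsUnit (n none : S) → ∃ φ : RB m →+* S,
        (∀ l, (n none : S) * φ (yy m l) = n (some l)) ∧
        Spec.map (CommRingCat.ofHom (algebraMap ℤ S)) ≫ s =
          Spec.map (CommRingCat.ofHom φ) ≫ jj m := by
  let f : RA m →+* Γ(Spec (CommRingCat.of ℤ), ⊤) :=
    (Scheme.ΓSpecIso (CommRingCat.of ℤ)).inv.hom.comp (eval n)
  have hf : (HomogeneousIdeal.irrelevant (gr m)).toIdeal.map f = ⊤ := by
    rw [Ideal.eq_top_iff_one]
    have h1 : f (∑ o, X o * C (c o)) = 1 := by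
      simp only [f, RingHom.comp_apply, map_sum (eval n), map_mul (eval n), eval_X, eval_C, hc,
        map_one]
    rw [← h1]
    refine Ideal.mem_map_of_mem _ (Ideal.sum_mem _ fun o _ => Ideal.mul_mem_right _ _ ?_)
    exact HomogeneousIdeal.mem_irrelevant_of_mem _ Nat.one_pos (hX m o)
  refine ⟨Proj.fromOfGlobalSections (gr m) f hf, ?_, ?_⟩
  · intro x hx
    change x ∈ Proj.fromOfGlobalSections (gr m) f hf ⁻¹ᵁ Proj.basicOpen (gr m) (X none)
    rw [Proj.fromOfGlobalSections_preimage_basicOpen _ _ _ Nat.one_pos (hX m none)]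
    simp only [f, RingHom.comp_apply, eval_X]
    erw [basicOpen_eq_of_affine]
    exact hx
  · intro S _ hS
    let γ : Γ(Spec (CommRingCat.of ℤ), ⊤) →+* S :=
      (algebraMap ℤ S).comp (Scheme.ΓSpecIso (CommRingCat.of ℤ)).hom.hom
    have hγf : ∀ o, (γ.comp f) (X o) = (n o : S) := by
      intro o
      simp [γ, f]
    have hu : IsUnit ((γ.comp f) (X none)) := by rw [hγf]; exact hS
    have hγ : Spec.map (CommRingCat.ofHom (algebraMap ℤ S)) ≫ (Spec (CommRingCat.of ℤ)).toSpecΓ =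
        Spec.map (CommRingCat.ofHom γ) := by
      rw [← SpecMap_ΓSpecIso_hom, ← Spec.map_comp]
      rfl
    refine ⟨_, ?_, comp_fromOfGlobalSections (gr m) f hf Nat.one_pos (hX m none) _ γ hγ hu⟩
    intro l
    rw [← hγf, ← hγf, ← IsLocalization.Away.lift_eq (S := Localization.Away (X none : RA m))
      (X none) hu, ← IsLocalization.Away.lift_eq (S := Localization.Away (X none : RA m))
      (X none) hu (X (some l)), RingHom.comp_apply, ← map_mul]
    congr 1
    simp only [HomogeneousLocalization.algebraMap_apply, yy, HomogeneousLocalization.Away.val_mk]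
    rw [← Localization.mk_one_eq_algebraMap, ← Localization.mk_one_eq_algebraMap,
      Localization.mk_mul, Localization.mk_eq_mk_iff, Localization.r_iff_exists]
    exact ⟨1, by simp⟩

/-- clearing odd denominators -/
theorem exists_vec (η : Fin m → ℚ) (h : ∀ l, TwoInt (η l)) :
    ∃ n c : Option (Fin m) → ℤ, ∑ o, n o * c o = 1 ∧ Odd (n none) ∧
      ∀ l, (n (some l) : ℚ) = n none * η l := by
  classical
  choose d hd hi using h
  have hi' : ∀ l, ∃ z : ℤ, (z : ℚ) = (d l : ℚ) * η l := fun l => by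
    simpa using (IsIntegrallyClosed.isIntegral_iff (R := ℤ) (K := ℚ)).mp (hi l)
  choose z hz using hi'
  let D : ℤ := ∏ l, (d l : ℤ)
  have hD : Odd D := by
    apply Finset.prod_induction _ Odd (fun a b => Odd.mul) odd_one
    intro l _
    exact_mod_cast hd l
  let v : Option (Fin m) → ℤ := fun o =>
    o.elim D (fun l => (∏ k ∈ Finset.univ.erase l, (d k : ℤ)) * z l)
  have hv : ∀ l, (v (some l) : ℚ) = v none * η l := by
    intro l
    simp only [v, Option.elim, D]
    rw [← Finset.mul_prod_erase _ _ (Finset.mem_univ l)]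
    push_cast
    rw [hz]
    ring
  obtain ⟨n, hn, hg⟩ := Finset.extract_gcd (s := Finset.univ) v ⟨none, Finset.mem_univ _⟩
  obtain ⟨c, hc⟩ := Finset.gcd_eq_sum_mul Finset.univ n
  have h0 : D = Finset.univ.gcd v * n none := hn none (Finset.mem_univ _)
  have hg0 : (Finset.univ.gcd v : ℤ) ≠ 0 := by
    intro h
    rw [h, zero_mul] at h0
    rw [h0] at hD
    simp at hD
  refine ⟨n, c, by rw [← hc, hg], ?_, ?_⟩
  · rw [h0] at hD
    exact (Int.odd_mul.mp hD).2
  · intro l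
    have h1 := hv l
    rw [hn (some l) (Finset.mem_univ _), hn none (Finset.mem_univ _)] at h1
    push_cast at h1
    have : ((Finset.univ.gcd v : ℤ) : ℚ) ≠ 0 := by exact_mod_cast hg0
    apply mul_left_cancel₀ this
    rw [h1]
    ring

end Pool.Agent.MP_14ad9d_nt.Sch

end

section

set_option autoImplicit false

namespace Pool.Agent.MP_14ad9d_nt.Full

/-- `u` is integral over the localisation of the integers at `l` -/
def LInt (l : ℕ) {A : Type} [CommRing A] (u : A) : Prop :=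
  ∃ d : ℕ, d.Coprime l ∧ IsIntegral ℤ ((d : A) * u)

open NumberField AlgebraicGeometry CategoryTheory in
/-- the conclusion of the question for the number field `K`, with a separated scheme -/
def ConcS (K : Type) [Field K] [NumberField K] : Prop :=
  ∃ (X : Scheme.{0}) (f : X ⟶ Spec (CommRingCat.of ℤ)),
    LocallyOfFiniteType f ∧ QuasiCompact f ∧ IsSeparated f ∧
    Infinite (Spec (CommRingCat.of ℤ) ⟶ X) ∧
    Function.Bijective (fun g : Spec (CommRingCat.of ℤ) ⟶ X =>
      Spec.map (CommRingCat.ofHom (algebraMap ℤ (𝓞 K))) ≫ g)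

end Pool.Agent.MP_14ad9d_nt.Full

end

section

set_option autoImplicit false

open NumberField

namespace Pool.Agent.MP_14ad9d_nt

namespace Sch

open AlgebraicGeometry CategoryTheory TopologicalSpace MvPolynomial

attribute [local instance] MvPolynomial.gradedAlgebra

theorem dom {R S : Type} [CommRing R] [CommRing S] (f : R →+* S) (hf : Function.Injective f) :
    IsDominant (Spec.map (CommRingCat.ofHom f)) := by
  refine ⟨?_⟩
  change DenseRange (PrimeSpectrum.comap f)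
  rw [PrimeSpectrum.denseRange_comap_iff_ker_le_nilRadical,
    (RingHom.injective_iff_ker_eq_bot f).mp hf]
  exact bot_le

variable (m : ℕ) (𝓕 : Set (MvPolynomial (Fin m) ℤ))

/-- the closed set: everything outside the chart, and the common zeros inside the chart -/
noncomputable def ZZ : Closeds (PP m) :=
  ⟨((jj m) '' (PrimeSpectrum.zeroLocus (ev (yy m) '' 𝓕))ᶜ)ᶜ,
    ((jj m).isOpenEmbedding.isOpenMap _
      (PrimeSpectrum.isClosed_zeroLocus _).isOpen_compl).isClosed_compl⟩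

theorem mem_ZZ (x : Spec (CommRingCat.of (RB m))) :
    jj m x ∈ ZZ m 𝓕 ↔ ∀ f ∈ 𝓕, ev (yy m) f ∈ x.asIdeal := by
  change jj m x ∉ (jj m) '' (PrimeSpectrum.zeroLocus (ev (yy m) '' 𝓕))ᶜ ↔ _
  rw [(jj m).isOpenEmbedding.injective.mem_set_image, Set.mem_compl_iff, not_not]
  erw [PrimeSpectrum.mem_zeroLocus]
  rw [Set.image_subset_iff]
  rfl

/-- the open set: remove the hyperplane at infinity in the fibre over two -/
noncomputable def UU : (PP m).Opens :=
  Proj.basicOpen (gr m) (X none) ⊔ (pp m) ⁻¹ᵁ (PrimeSpectrum.basicOpen (2 : ℤ))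

theorem mem_UU {R : Type} [CommRing R] (g : Spec (CommRingCat.of R) ⟶ PP m)
    (x : Spec (CommRingCat.of R)) :
    g x ∈ UU m ↔ g x ∈ Proj.basicOpen (gr m) (X none) ∨ (2 : R) ∉ x.asIdeal := by
  have h : g ≫ pp m = Spec.map (CommRingCat.ofHom (Int.castRingHom R)) :=
    specZIsTerminal.hom_ext _ _
  rw [UU, Opens.mem_sup]
  refine or_congr Iff.rfl ?_
  change pp m (g x) ∈ PrimeSpectrum.basicOpen (2 : ℤ) ↔ _
  rw [← Scheme.Hom.comp_apply, h]
  change Int.castRingHom R 2 ∉ x.asIdeal ↔ _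
  simp

/-- the integral point attached to a rational point with odd denominators -/
theorem exists_section (η : Fin m → ℚ) (h1 : ∀ f ∈ 𝓕, aeval η f = 0) (h2 : ∀ l, TwoInt (η l)) :
    ∃ s : Spec (CommRingCat.of ℤ) ⟶ PP m, (∀ x, s x ∈ ZZ m 𝓕 ∧ s x ∈ UU m) ∧
      ∀ (S : Type) [Field S] [CharZero S], ∃ φ : RB m →+* S,
        (∀ l, φ (yy m l) = (η l : S)) ∧
        Spec.map (CommRingCat.ofHom (algebraMap ℤ S)) ≫ s =
          Spec.map (CommRingCat.ofHom φ) ≫ jj m := by
  obtain ⟨n, c, hc, hodd, hn⟩ := exists_vec m η h2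
  obtain ⟨s, hs1, hs2⟩ := exists_point m n c hc
  have h0 : n none ≠ 0 := by
    rintro h
    rw [h] at hodd
    simp at hodd
  have key : ∀ (S : Type) [Field S] [CharZero S], ∃ φ : RB m →+* S,
        (∀ l, φ (yy m l) = (η l : S)) ∧
        Spec.map (CommRingCat.ofHom (algebraMap ℤ S)) ≫ s =
          Spec.map (CommRingCat.ofHom φ) ≫ jj m := by
    intro S _ _
    have hS : (n none : S) ≠ 0 := by exact_mod_cast h0
    obtain ⟨φ, hφ, h⟩ := hs2 S hS.isUnit
    refine ⟨φ, fun l => ?_, h⟩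
    apply mul_left_cancel₀ hS
    rw [hφ]
    have := congrArg (fun q : ℚ => (q : S)) (hn l)
    simpa using this
  refine ⟨s, fun x => ⟨?_, ?_⟩, key⟩
  · obtain ⟨φ, hφ, h⟩ := key ℚ
    have hd := dom (algebraMap ℤ ℚ) (algebraMap ℤ ℚ).injective_int
    have hcl : IsClosed (s ⁻¹' (ZZ m 𝓕 : Set (PP m))) := (ZZ m 𝓕).isClosed.preimage s.continuous
    have hsub : Set.range (Spec.map (CommRingCat.ofHom (algebraMap ℤ ℚ))) ⊆
        s ⁻¹' (ZZ m 𝓕 : Set (PP m)) := by
      rintro _ ⟨y, rfl⟩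
      rw [Set.mem_preimage, ← Scheme.Hom.comp_apply, h, Scheme.Hom.comp_apply, SetLike.mem_coe,
        mem_ZZ]
      intro f hf
      change φ (ev (yy m) f) ∈ y.asIdeal
      rw [hom_ev, funext hφ]
      have := h1 f hf
      rw [aeval_eq_ev] at this
      simp only [Rat.cast_eq_id, id_eq]
      rw [this]
      exact zero_mem _
    have := closure_minimal hsub hcl
    rw [hd.denseRange.closure_range] at this
    exact this (Set.mem_univ x)
  · rw [mem_UU]
    by_cases hx : n none ∈ x.asIdeal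
    · right
      intro h2
      obtain ⟨k, hk⟩ := hodd
      apply x.2.ne_top
      rw [Ideal.eq_top_iff_one]
      have : (1 : ℤ) = n none - 2 * k := by rw [hk]; ring
      rw [this]
      exact sub_mem hx (Ideal.mul_mem_right _ _ h2)
    · exact Or.inl (hs1 x hx)

/-- the generic point of an integral point has coordinates that are integral at two -/
theorem exists_coords (K : Type) [Field K] [NumberField K]
    (g : Spec (CommRingCat.of (𝓞 K)) ⟶ PP m) (hg : ∀ x, g x ∈ UU m) :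
    ∃ φ : RB m →+* K, (∀ l, TwoInt (φ (yy m l))) ∧
      Spec.map (CommRingCat.ofHom (algebraMap (𝓞 K) K)) ≫ g =
        Spec.map (CommRingCat.ofHom φ) ≫ jj m := by
  let M : Submonoid (𝓞 K) :=
    { carrier := {a | ∃ d : ℕ, Odd d ∧ a = d}
      mul_mem' := by
        rintro _ _ ⟨d, hd, rfl⟩ ⟨e, he, rfl⟩
        exact ⟨d * e, hd.mul he, by push_cast; rfl⟩
      one_mem' := ⟨1, odd_one, by simp⟩ }
  let R := Localization M
  have hM : ∀ y : M, IsUnit (algebraMap (𝓞 K) K y) := by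
    rintro ⟨_, d, hd, rfl⟩
    have : (d : K) ≠ 0 := by exact_mod_cast hd.pos.ne'
    simpa using this
  let β : R →+* K := IsLocalization.lift hM
  have hβ : β.comp (algebraMap (𝓞 K) R) = algebraMap (𝓞 K) K := IsLocalization.lift_comp hM
  have H : Set.range (Spec.map (CommRingCat.ofHom (algebraMap (𝓞 K) R)) ≫ g) ⊆
      Set.range (jj m) := by
    rintro _ ⟨y, rfl⟩
    rw [Scheme.Hom.comp_apply]
    have hy : (Spec.map (CommRingCat.ofHom (algebraMap (𝓞 K) R))) y ∈
        Set.range (PrimeSpectrum.comap (algebraMap (𝓞 K) R)) := ⟨y, rfl⟩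
    rw [PrimeSpectrum.localization_comap_range R M] at hy
    set q : PrimeSpectrum (𝓞 K) := (Spec.map (CommRingCat.ofHom (algebraMap (𝓞 K) R))) y with hq
    have hle : q.asIdeal.comap (algebraMap ℤ (𝓞 K)) ≤ Ideal.span {(2 : ℤ)} := by
      intro a ha
      rw [Ideal.mem_span_singleton]
      by_contra hodd
      have hodd' : Odd a.natAbs := by
        rw [Int.natAbs_odd, ← Int.not_even_iff_odd, even_iff_two_dvd]
        exact hodd
      have ha' : ((a.natAbs : ℕ) : 𝓞 K) ∈ q.asIdeal := by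
        have h1 : ((a : ℤ) : 𝓞 K) ∈ q.asIdeal := by simpa using ha
        rcases Int.natAbs_eq a with h | h
        · rw [h] at h1
          simpa using h1
        · rw [h] at h1
          simpa using h1
      exact Set.disjoint_left.mp hy ⟨a.natAbs, hodd', rfl⟩ ha'
    have hp : (Ideal.span {(2 : ℤ)}).IsPrime :=
      (Ideal.span_singleton_prime two_ne_zero).mpr Int.prime_two
    obtain ⟨Q, hQ1, hQ2, hQ3⟩ := Ideal.exists_ideal_over_prime_of_isIntegral _ _ hle
    have h2 : (2 : 𝓞 K) ∈ Q := by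
      have : (2 : ℤ) ∈ Q.comap (algebraMap ℤ (𝓞 K)) := by
        rw [hQ3]; exact Ideal.mem_span_singleton_self _
      simpa using this
    let Q' : Spec (CommRingCat.of (𝓞 K)) := (⟨Q, hQ2⟩ : PrimeSpectrum (𝓞 K))
    have h3 : g Q' ∈ Proj.basicOpen (gr m) (X none) := by
      rcases (mem_UU m g Q').mp (hg Q') with h | h
      · exact h
      · exact absurd h2 h
    have h4 : (q : Spec (CommRingCat.of (𝓞 K))) ⤳ Q' :=
      (PrimeSpectrum.le_iff_specializes _ _).mp hQ1
    have h5 := (h4.map g.continuous).mem_open (Proj.basicOpen (gr m) (X none)).isOpen h3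
    rw [← Proj.opensRange_awayι (gr m) (X none) (hX m none) Nat.one_pos] at h5
    exact h5
  let u := IsOpenImmersion.lift _ _ H
  have hu : u ≫ jj m = _ := IsOpenImmersion.lift_fac _ _ H
  obtain ⟨φ, hφ⟩ := Spec.map_surjective u
  refine ⟨β.comp φ.hom, fun l => ?_, ?_⟩
  · obtain ⟨⟨a, ⟨_, d, hd, rfl⟩⟩, h⟩ := IsLocalization.surj M (φ.hom (yy m l))
    refine ⟨d, hd, ?_⟩
    have h1 := congrArg β h
    simp only [map_mul, map_natCast] at h1
    rw [RingHom.comp_apply, mul_comm, h1, ← RingHom.comp_apply, hβ]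
    exact a.2
  · rw [← hβ, CommRingCat.ofHom_comp, Spec.map_comp, Category.assoc, ← hu, ← hφ,
      CommRingCat.ofHom_comp, Spec.map_comp, Category.assoc]
    rfl

end Sch

attribute [local instance] MvPolynomial.gradedAlgebra

open AlgebraicGeometry CategoryTheory Sch in
/-- from points that are integral at `2` to a scheme of finite type -/
theorem sch (K : Type) [Field K] [NumberField K] (m : ℕ) (𝓕 : Set (MvPolynomial (Fin m) ℤ))
    (hA : {η : Fin m → ℚ | (∀ f ∈ 𝓕, MvPolynomial.aeval η f = 0) ∧ ∀ l, TwoInt (η l)}.Infinite)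
    (hB : ∀ η : Fin m → K, (∀ f ∈ 𝓕, MvPolynomial.aeval η f = 0) → (∀ l, TwoInt (η l)) →
      ∀ l, η l ∈ Set.range (algebraMap ℚ K)) : Conc K := by
  obtain ⟨Y, κ, hmono, hft, hqc, hκ, hlift⟩ := exists_sub (PP m) (pp m) (ZZ m 𝓕) (UU m)
  have hsec : ∀ η : Fin m → ℚ, (∀ f ∈ 𝓕, MvPolynomial.aeval η f = 0) → (∀ l, TwoInt (η l)) →
      ∃ t : Spec (CommRingCat.of ℤ) ⟶ Y, ∀ (S : Type) [Field S] [CharZero S],
        ∃ φ : RB m →+* S, (∀ l, φ (yy m l) = (η l : S)) ∧
        Spec.map (CommRingCat.ofHom (algebraMap ℤ S)) ≫ t ≫ κ =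
          Spec.map (CommRingCat.ofHom φ) ≫ jj m := by
    intro η h1 h2
    obtain ⟨s, hs1, hs2⟩ := exists_section m 𝓕 η h1 h2
    obtain ⟨t, ht⟩ := hlift _ s hs1
    exact ⟨t, by rw [ht]; exact hs2⟩
  refine ⟨Y, κ ≫ pp m, hft, hqc, ?_, ?_, ?_⟩
  · choose t ht using hsec
    have := hA.to_subtype
    refine Infinite.of_injective (fun η : {η : Fin m → ℚ |
      (∀ f ∈ 𝓕, MvPolynomial.aeval η f = 0) ∧ ∀ l, TwoInt (η l)} => t η.1 η.2.1 η.2.2) ?_
    intro η η' h
    obtain ⟨φ, hφ, h1⟩ := ht η.1 η.2.1 η.2.2 ℚ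
    obtain ⟨φ', hφ', h2⟩ := ht η'.1 η'.2.1 η'.2.2 ℚ
    simp only at h
    rw [h, h2, cancel_mono] at h1
    have h3 : φ' = φ := congrArg CommRingCat.Hom.hom (Spec.map_injective h1)
    ext l
    have h4 := hφ l
    rw [← h3, hφ'] at h4
    simpa using h4.symm
  · intro g g' h
    have := dom (algebraMap ℤ (𝓞 K)) (algebraMap ℤ (𝓞 K)).injective_int
    rw [← cancel_mono κ]
    apply ext_of_isDominant (Spec.map (CommRingCat.ofHom (algebraMap ℤ (𝓞 K))))
    simp only at h
    rw [reassoc_of% h]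
  · intro g
    obtain ⟨φ, hφ1, hφ2⟩ := exists_coords m K (g ≫ κ) fun x => by
      rw [Scheme.Hom.comp_apply]; exact (hκ _).2
    have hz : ∀ f ∈ 𝓕, MvPolynomial.aeval (fun l => φ (yy m l)) f = 0 := by
      intro f hf
      let x : Spec (CommRingCat.of K) := (⊥ : PrimeSpectrum K)
      have h1 : jj m (Spec.map (CommRingCat.ofHom φ) x) ∈ ZZ m 𝓕 := by
        rw [← Scheme.Hom.comp_apply, ← hφ2, Scheme.Hom.comp_apply, Scheme.Hom.comp_apply]
        exact (hκ _).1
      have h2 : φ (ev (yy m) f) ∈ (⊥ : Ideal K) := (mem_ZZ m 𝓕 _).mp h1 f hf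
      rw [aeval_eq_ev, ← hom_ev]
      exact h2
    choose η hη using hB _ hz hφ1
    have hη1 : ∀ f ∈ 𝓕, MvPolynomial.aeval η f = 0 := by
      intro f hf
      apply (algebraMap ℚ K).injective
      have h1 := hz f hf
      rw [← funext hη] at h1
      rw [map_zero, ← h1, aeval_eq_ev, aeval_eq_ev]
      have : (algebraMap ℚ K).comp (ev η) = ev fun l => algebraMap ℚ K (η l) := by
        apply ev_ext
        intro l
        simp
      exact congr($this f)
    have hη2 : ∀ l, TwoInt (η l) := by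
      intro l
      obtain ⟨d, hd, hi⟩ := hφ1 l
      refine ⟨d, hd, ?_⟩
      rw [← isIntegral_algebraMap_iff (algebraMap ℚ K).injective, map_mul, map_natCast, hη]
      exact hi
    obtain ⟨t, ht⟩ := hsec η hη1 hη2
    obtain ⟨φ', hφ', h⟩ := ht K
    have hφφ : φ' = φ := hom_ext m fun l => by rw [hφ', ← hη]; simp
    refine ⟨t, ?_⟩
    have := dom (algebraMap (𝓞 K) K) (RingOfIntegers.coe_injective)
    rw [← cancel_mono κ]
    apply ext_of_isDominant (Spec.map (CommRingCat.ofHom (algebraMap (𝓞 K) K)))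
    simp only [Category.assoc]
    rw [hφ2, ← hφφ, ← h, ← Category.assoc, ← Spec.map_comp, ← CommRingCat.ofHom_comp,
      RingHom.ext_int ((algebraMap (𝓞 K) K).comp (algebraMap ℤ (𝓞 K))) (algebraMap ℤ K)]

end Pool.Agent.MP_14ad9d_nt

end

section

set_option autoImplicit false

open NumberField

namespace Pool.Agent.MP_14ad9d_nt.Full.SchWAux

open AlgebraicGeometry CategoryTheory TopologicalSpace MvPolynomial
open Pool.Agent.MP_14ad9d_nt.Sch

attribute [local instance] MvPolynomial.gradedAlgebra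

variable (p : ℕ) (m : ℕ) (𝓕 : Set (MvPolynomial (Fin m) ℤ))

/-- clearing denominators prime to `p` -/
theorem exists_vecL (hp : p.Prime) (η : Fin m → ℚ) (h : ∀ l, LInt p (η l)) :
    ∃ n c : Option (Fin m) → ℤ, ∑ o, n o * c o = 1 ∧ IsCoprime (n none) (p : ℤ) ∧
      ∀ l, (n (some l) : ℚ) = n none * η l := by
  classical
  choose d hd hi using h
  have hi' : ∀ l, ∃ z : ℤ, (z : ℚ) = (d l : ℚ) * η l := fun l => by
    simpa using (IsIntegrallyClosed.isIntegral_iff (R := ℤ) (K := ℚ)).mp (hi l)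
  choose z hz using hi'
  let D : ℤ := ∏ l, (d l : ℤ)
  have hD : IsCoprime D (p : ℤ) := by
    apply IsCoprime.prod_left
    intro l _
    exact Nat.isCoprime_iff_coprime.mpr (hd l)
  let v : Option (Fin m) → ℤ := fun o =>
    o.elim D (fun l => (∏ k ∈ Finset.univ.erase l, (d k : ℤ)) * z l)
  have hv : ∀ l, (v (some l) : ℚ) = v none * η l := by
    intro l
    simp only [v, Option.elim, D]
    rw [← Finset.mul_prod_erase _ _ (Finset.mem_univ l)]
    push_cast
    rw [hz]
    ring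
  obtain ⟨n, hn, hg⟩ := Finset.extract_gcd (s := Finset.univ) v ⟨none, Finset.mem_univ _⟩
  obtain ⟨c, hc⟩ := Finset.gcd_eq_sum_mul Finset.univ n
  have h0 : D = Finset.univ.gcd v * n none := hn none (Finset.mem_univ _)
  have hg0 : (Finset.univ.gcd v : ℤ) ≠ 0 := by
    intro h
    rw [h, zero_mul] at h0
    rw [h0, isCoprime_zero_left, Int.isUnit_iff_natAbs_eq, Int.natAbs_natCast] at hD
    exact hp.one_lt.ne' hD
  refine ⟨n, c, by rw [← hc, hg], ?_, ?_⟩
  · rw [h0] at hD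
    exact hD.of_mul_left_right
  · intro l
    have h1 := hv l
    rw [hn (some l) (Finset.mem_univ _), hn none (Finset.mem_univ _)] at h1
    push_cast at h1
    have : ((Finset.univ.gcd v : ℤ) : ℚ) ≠ 0 := by exact_mod_cast hg0
    apply mul_left_cancel₀ this
    rw [h1]
    ring

/-- the open set: remove the hyperplane at infinity in the fibre over `p` -/
noncomputable def UL : (PP m).Opens :=
  Proj.basicOpen (gr m) (X none) ⊔ (pp m) ⁻¹ᵁ (PrimeSpectrum.basicOpen (p : ℤ))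

theorem mem_UL {R : Type} [CommRing R] (g : Spec (CommRingCat.of R) ⟶ PP m)
    (x : Spec (CommRingCat.of R)) :
    g x ∈ UL p m ↔ g x ∈ Proj.basicOpen (gr m) (X none) ∨ (p : R) ∉ x.asIdeal := by
  have h : g ≫ pp m = Spec.map (CommRingCat.ofHom (Int.castRingHom R)) :=
    specZIsTerminal.hom_ext _ _
  rw [UL, Opens.mem_sup]
  refine or_congr Iff.rfl ?_
  change pp m (g x) ∈ PrimeSpectrum.basicOpen (p : ℤ) ↔ _
  rw [← Scheme.Hom.comp_apply, h]
  change Int.castRingHom R (p : ℤ) ∉ x.asIdeal ↔ _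
  simp

/-- the integral point attached to a rational point with denominators prime to `p` -/
theorem exists_sectionL (hp : p.Prime) (η : Fin m → ℚ) (h1 : ∀ f ∈ 𝓕, aeval η f = 0) (h2 : ∀ l, LInt p (η l)) :
    ∃ s : Spec (CommRingCat.of ℤ) ⟶ PP m, (∀ x, s x ∈ ZZ m 𝓕 ∧ s x ∈ UL p m) ∧
      ∀ (S : Type) [Field S] [CharZero S], ∃ φ : RB m →+* S,
        (∀ l, φ (yy m l) = (η l : S)) ∧
        Spec.map (CommRingCat.ofHom (algebraMap ℤ S)) ≫ s =
          Spec.map (CommRingCat.ofHom φ) ≫ jj m := by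
  obtain ⟨n, c, hc, hodd, hn⟩ := exists_vecL p m hp η h2
  obtain ⟨s, hs1, hs2⟩ := exists_point m n c hc
  have h0 : n none ≠ 0 := by
    rintro h
    rw [h, isCoprime_zero_left, Int.isUnit_iff_natAbs_eq, Int.natAbs_natCast] at hodd
    exact hp.one_lt.ne' hodd
  have key : ∀ (S : Type) [Field S] [CharZero S], ∃ φ : RB m →+* S,
        (∀ l, φ (yy m l) = (η l : S)) ∧
        Spec.map (CommRingCat.ofHom (algebraMap ℤ S)) ≫ s =
          Spec.map (CommRingCat.ofHom φ) ≫ jj m := by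
    intro S _ _
    have hS : (n none : S) ≠ 0 := by exact_mod_cast h0
    obtain ⟨φ, hφ, h⟩ := hs2 S hS.isUnit
    refine ⟨φ, fun l => ?_, h⟩
    apply mul_left_cancel₀ hS
    rw [hφ]
    have := congrArg (fun q : ℚ => (q : S)) (hn l)
    simpa using this
  refine ⟨s, fun x => ⟨?_, ?_⟩, key⟩
  · obtain ⟨φ, hφ, h⟩ := key ℚ
    have hd := dom (algebraMap ℤ ℚ) (algebraMap ℤ ℚ).injective_int
    have hcl : IsClosed (s ⁻¹' (ZZ m 𝓕 : Set (PP m))) := (ZZ m 𝓕).isClosed.preimage s.continuous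
    have hsub : Set.range (Spec.map (CommRingCat.ofHom (algebraMap ℤ ℚ))) ⊆
        s ⁻¹' (ZZ m 𝓕 : Set (PP m)) := by
      rintro _ ⟨y, rfl⟩
      rw [Set.mem_preimage, ← Scheme.Hom.comp_apply, h, Scheme.Hom.comp_apply, SetLike.mem_coe,
        mem_ZZ]
      intro f hf
      change φ (ev (yy m) f) ∈ y.asIdeal
      rw [hom_ev, funext hφ]
      have := h1 f hf
      rw [aeval_eq_ev] at this
      simp only [Rat.cast_eq_id, id_eq]
      rw [this]
      exact zero_mem _
    have := closure_minimal hsub hcl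
    rw [hd.denseRange.closure_range] at this
    exact this (Set.mem_univ x)
  · rw [mem_UL]
    by_cases hx : n none ∈ x.asIdeal
    · right
      intro h2
      obtain ⟨k, k', hk⟩ := hodd
      apply x.2.ne_top
      rw [Ideal.eq_top_iff_one, ← hk]
      exact add_mem (Ideal.mul_mem_left _ _ hx) (Ideal.mul_mem_left _ _ h2)
    · exact Or.inl (hs1 x hx)

/-- the generic point of an integral point has coordinates that are integral at `p` -/
theorem exists_coordsL (hp : p.Prime) (K : Type) [Field K] [NumberField K]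
    (g : Spec (CommRingCat.of (𝓞 K)) ⟶ PP m) (hg : ∀ x, g x ∈ UL p m) :
    ∃ φ : RB m →+* K, (∀ l, LInt p (φ (yy m l))) ∧
      Spec.map (CommRingCat.ofHom (algebraMap (𝓞 K) K)) ≫ g =
        Spec.map (CommRingCat.ofHom φ) ≫ jj m := by
  let M : Submonoid (𝓞 K) :=
    { carrier := {a | ∃ d : ℕ, d.Coprime p ∧ a = d}
      mul_mem' := by
        rintro _ _ ⟨d, hd, rfl⟩ ⟨e, he, rfl⟩
        exact ⟨d * e, Nat.Coprime.mul_left hd he, by push_cast; rfl⟩
      one_mem' := ⟨1, Nat.coprime_one_left p, by simp⟩ }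
  let R := Localization M
  have hM : ∀ y : M, IsUnit (algebraMap (𝓞 K) K y) := by
    rintro ⟨_, d, hd, rfl⟩
    have hd0 : d ≠ 0 := by
      rintro rfl
      rw [Nat.coprime_zero_left] at hd
      exact hp.one_lt.ne' hd
    have : (d : K) ≠ 0 := by exact_mod_cast hd0
    simpa using this
  let β : R →+* K := IsLocalization.lift hM
  have hβ : β.comp (algebraMap (𝓞 K) R) = algebraMap (𝓞 K) K := IsLocalization.lift_comp hM
  have H : Set.range (Spec.map (CommRingCat.ofHom (algebraMap (𝓞 K) R)) ≫ g) ⊆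
      Set.range (jj m) := by
    rintro _ ⟨y, rfl⟩
    rw [Scheme.Hom.comp_apply]
    have hy : (Spec.map (CommRingCat.ofHom (algebraMap (𝓞 K) R))) y ∈
        Set.range (PrimeSpectrum.comap (algebraMap (𝓞 K) R)) := ⟨y, rfl⟩
    rw [PrimeSpectrum.localization_comap_range R M] at hy
    set q : PrimeSpectrum (𝓞 K) := (Spec.map (CommRingCat.ofHom (algebraMap (𝓞 K) R))) y with hq
    have hle : q.asIdeal.comap (algebraMap ℤ (𝓞 K)) ≤ Ideal.span {(p : ℤ)} := by
      intro a ha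
      rw [Ideal.mem_span_singleton]
      by_contra hodd
      have hodd' : a.natAbs.Coprime p := by
        rw [Nat.coprime_comm, hp.coprime_iff_not_dvd, ← Int.natCast_dvd]
        exact hodd
      have ha' : ((a.natAbs : ℕ) : 𝓞 K) ∈ q.asIdeal := by
        have h1 : ((a : ℤ) : 𝓞 K) ∈ q.asIdeal := by simpa using ha
        rcases Int.natAbs_eq a with h | h
        · rw [h] at h1
          simpa using h1
        · rw [h] at h1
          simpa using h1
      exact Set.disjoint_left.mp hy ⟨a.natAbs, hodd', rfl⟩ ha'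
    have hp' : (Ideal.span {(p : ℤ)}).IsPrime :=
      (Ideal.span_singleton_prime (by exact_mod_cast hp.ne_zero)).mpr (Nat.prime_iff_prime_int.mp hp)
    obtain ⟨Q, hQ1, hQ2, hQ3⟩ := Ideal.exists_ideal_over_prime_of_isIntegral _ _ hle
    have h2 : (p : 𝓞 K) ∈ Q := by
      have : (p : ℤ) ∈ Q.comap (algebraMap ℤ (𝓞 K)) := by
        rw [hQ3]; exact Ideal.mem_span_singleton_self _
      simpa using this
    let Q' : Spec (CommRingCat.of (𝓞 K)) := (⟨Q, hQ2⟩ : PrimeSpectrum (𝓞 K))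
    have h3 : g Q' ∈ Proj.basicOpen (gr m) (X none) := by
      rcases (mem_UL p m g Q').mp (hg Q') with h | h
      · exact h
      · exact absurd h2 h
    have h4 : (q : Spec (CommRingCat.of (𝓞 K))) ⤳ Q' :=
      (PrimeSpectrum.le_iff_specializes _ _).mp hQ1
    have h5 := (h4.map g.continuous).mem_open (Proj.basicOpen (gr m) (X none)).isOpen h3
    rw [← Proj.opensRange_awayι (gr m) (X none) (hX m none) Nat.one_pos] at h5
    exact h5
  let u := IsOpenImmersion.lift _ _ H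
  have hu : u ≫ jj m = _ := IsOpenImmersion.lift_fac _ _ H
  obtain ⟨φ, hφ⟩ := Spec.map_surjective u
  refine ⟨β.comp φ.hom, fun l => ?_, ?_⟩
  · obtain ⟨⟨a, ⟨_, d, hd, rfl⟩⟩, h⟩ := IsLocalization.surj M (φ.hom (yy m l))
    refine ⟨d, hd, ?_⟩
    have h1 := congrArg β h
    simp only [map_mul, map_natCast] at h1
    rw [RingHom.comp_apply, mul_comm, h1, ← RingHom.comp_apply, hβ]
    exact a.2
  · rw [← hβ, CommRingCat.ofHom_comp, Spec.map_comp, Category.assoc, ← hu, ← hφ,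
      CommRingCat.ofHom_comp, Spec.map_comp, Category.assoc]
    rfl

/-- from points that are integral at `p` to a scheme of finite type -/
theorem schL' (hp : p.Prime) (K : Type) [Field K] [NumberField K]
    (hA : {η : Fin m → ℚ | (∀ f ∈ 𝓕, MvPolynomial.aeval η f = 0) ∧ ∀ l, LInt p (η l)}.Infinite)
    (hB : ∀ η : Fin m → K, (∀ f ∈ 𝓕, MvPolynomial.aeval η f = 0) → (∀ l, LInt p (η l)) →
      ∀ l, η l ∈ Set.range (algebraMap ℚ K)) : ConcS K := by
  obtain ⟨Y, κ, hmono, hft, hqc, hκ, hlift⟩ := exists_sub (PP m) (pp m) (ZZ m 𝓕) (UL p m)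
  have hsec : ∀ η : Fin m → ℚ, (∀ f ∈ 𝓕, MvPolynomial.aeval η f = 0) → (∀ l, LInt p (η l)) →
      ∃ t : Spec (CommRingCat.of ℤ) ⟶ Y, ∀ (S : Type) [Field S] [CharZero S],
        ∃ φ : RB m →+* S, (∀ l, φ (yy m l) = (η l : S)) ∧
        Spec.map (CommRingCat.ofHom (algebraMap ℤ S)) ≫ t ≫ κ =
          Spec.map (CommRingCat.ofHom φ) ≫ jj m := by
    intro η h1 h2
    obtain ⟨s, hs1, hs2⟩ := exists_sectionL p m 𝓕 hp η h1 h2
    obtain ⟨t, ht⟩ := hlift _ s hs1
    exact ⟨t, by rw [ht]; exact hs2⟩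
  have hsep : IsSeparated (pp m) := by
    unfold pp
    infer_instance
  refine ⟨Y, κ ≫ pp m, hft, hqc, inferInstance, ?_, ?_, ?_⟩
  · choose t ht using hsec
    have := hA.to_subtype
    refine Infinite.of_injective (fun η : {η : Fin m → ℚ |
      (∀ f ∈ 𝓕, MvPolynomial.aeval η f = 0) ∧ ∀ l, LInt p (η l)} => t η.1 η.2.1 η.2.2) ?_
    intro η η' h
    obtain ⟨φ, hφ, h1⟩ := ht η.1 η.2.1 η.2.2 ℚ
    obtain ⟨φ', hφ', h2⟩ := ht η'.1 η'.2.1 η'.2.2 ℚ
    simp only at h
    rw [h, h2, cancel_mono] at h1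
    have h3 : φ' = φ := congrArg CommRingCat.Hom.hom (Spec.map_injective h1)
    ext l
    have h4 := hφ l
    rw [← h3, hφ'] at h4
    simpa using h4.symm
  · intro g g' h
    have := dom (algebraMap ℤ (𝓞 K)) (algebraMap ℤ (𝓞 K)).injective_int
    rw [← cancel_mono κ]
    apply ext_of_isDominant (Spec.map (CommRingCat.ofHom (algebraMap ℤ (𝓞 K))))
    simp only at h
    rw [reassoc_of% h]
  · intro g
    obtain ⟨φ, hφ1, hφ2⟩ := exists_coordsL p m hp K (g ≫ κ) fun x => by
      rw [Scheme.Hom.comp_apply]; exact (hκ _).2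
    have hz : ∀ f ∈ 𝓕, MvPolynomial.aeval (fun l => φ (yy m l)) f = 0 := by
      intro f hf
      let x : Spec (CommRingCat.of K) := (⊥ : PrimeSpectrum K)
      have h1 : jj m (Spec.map (CommRingCat.ofHom φ) x) ∈ ZZ m 𝓕 := by
        rw [← Scheme.Hom.comp_apply, ← hφ2, Scheme.Hom.comp_apply, Scheme.Hom.comp_apply]
        exact (hκ _).1
      have h2 : φ (ev (yy m) f) ∈ (⊥ : Ideal K) := (mem_ZZ m 𝓕 _).mp h1 f hf
      rw [aeval_eq_ev, ← hom_ev]
      exact h2
    choose η hη using hB _ hz hφ1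
    have hη1 : ∀ f ∈ 𝓕, MvPolynomial.aeval η f = 0 := by
      intro f hf
      apply (algebraMap ℚ K).injective
      have h1 := hz f hf
      rw [← funext hη] at h1
      rw [map_zero, ← h1, aeval_eq_ev, aeval_eq_ev]
      have : (algebraMap ℚ K).comp (ev η) = ev fun l => algebraMap ℚ K (η l) := by
        apply ev_ext
        intro l
        simp
      exact congr($this f)
    have hη2 : ∀ l, LInt p (η l) := by
      intro l
      obtain ⟨d, hd, hi⟩ := hφ1 l
      refine ⟨d, hd, ?_⟩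
      rw [← isIntegral_algebraMap_iff (algebraMap ℚ K).injective, map_mul, map_natCast, hη]
      exact hi
    obtain ⟨t, ht⟩ := hsec η hη1 hη2
    obtain ⟨φ', hφ', h⟩ := ht K
    have hφφ : φ' = φ := hom_ext m fun l => by rw [hφ', ← hη]; simp
    refine ⟨t, ?_⟩
    have := dom (algebraMap (𝓞 K) K) (RingOfIntegers.coe_injective)
    rw [← cancel_mono κ]
    apply ext_of_isDominant (Spec.map (CommRingCat.ofHom (algebraMap (𝓞 K) K)))
    simp only [Category.assoc]
    rw [hφ2, ← hφφ, ← h, ← Category.assoc, ← Spec.map_comp, ← CommRingCat.ofHom_comp,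
      RingHom.ext_int ((algebraMap (𝓞 K) K).comp (algebraMap ℤ (𝓞 K))) (algebraMap ℤ K)]

end Pool.Agent.MP_14ad9d_nt.Full.SchWAux

end

section

set_option autoImplicit false
set_option maxHeartbeats 400000

open NumberField

namespace Pool.Agent.MP_14ad9d_nt.Full

/-- from points that are integral at `l` to a scheme of finite type -/
theorem schL (l : ℕ) (hl : l.Prime) (K : Type) [Field K] [NumberField K] (m : ℕ)
    (𝓕 : Set (MvPolynomial (Fin m) ℤ))
    (hA : {η : Fin m → ℚ | (∀ f ∈ 𝓕, MvPolynomial.aeval η f = 0) ∧ ∀ i, LInt l (η i)}.Infinite)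
    (hB : ∀ η : Fin m → K, (∀ f ∈ 𝓕, MvPolynomial.aeval η f = 0) → (∀ i, LInt l (η i)) →
      ∀ i, η i ∈ Set.range (algebraMap ℚ K)) : ConcS K :=
  SchWAux.schL' l m 𝓕 hl K hA hB

namespace SchWAux

open MvPolynomial

theorem schT (l : ℕ) (hl : l.Prime) (K : Type) [Field K] [NumberField K] (τ : Type) [Fintype τ]
    (𝓕 : Set (MvPolynomial τ ℤ))
    (hA : {η : τ → ℚ | (∀ f ∈ 𝓕, aeval η f = 0) ∧ ∀ i, LInt l (η i)}.Infinite)
    (hB : ∀ η : τ → K, (∀ f ∈ 𝓕, aeval η f = 0) → (∀ i, LInt l (η i)) →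
      ∀ i, η i ∈ Set.range (algebraMap ℚ K)) : ConcS K := by
  let e := Fintype.equivFin τ
  refine schL l hl K (Fintype.card τ) (rename e '' 𝓕) ?_ ?_
  · refine Set.Infinite.of_image (fun η => η ∘ e) (hA.mono ?_)
    rintro η ⟨h1, h2⟩
    refine ⟨η ∘ e.symm, ⟨?_, fun i => h2 _⟩, ?_⟩
    · rintro _ ⟨f, hf, rfl⟩
      rw [aeval_rename]
      have : (η ∘ e.symm) ∘ e = η := by ext i; simp
      rw [this]
      exact h1 f hf
    · ext i; simp
  · intro η h1 h2 i
    have := hB (η ∘ e) (fun f hf => by rw [← aeval_rename]; exact h1 _ ⟨f, hf, rfl⟩)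
      (fun j => h2 _) (e.symm i)
    simpa using this

theorem lint_add {l : ℕ} {A : Type} [CommRing A] {u v : A} (hu : LInt l u) (hv : LInt l v) :
    LInt l (u + v) := by
  obtain ⟨d, hd, hi⟩ := hu
  obtain ⟨e, he, hj⟩ := hv
  refine ⟨d * e, Nat.Coprime.mul_left hd he, ?_⟩
  have : ((d * e : ℕ) : A) * (u + v) = (e : A) * ((d : A) * u) + (d : A) * ((e : A) * v) := by
    push_cast; ring
  rw [this]
  have hn : ∀ k : ℕ, IsIntegral ℤ (k : A) := fun k => by
    simpa using isIntegral_algebraMap (R := ℤ) (A := A) (x := (k : ℤ))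
  exact ((hn e).mul hi).add ((hn d).mul hj)

theorem lint_zero {l : ℕ} {A : Type} [CommRing A] : LInt l (0 : A) :=
  ⟨1, Nat.coprime_one_left l, by simpa using isIntegral_zero⟩

theorem lint_sum {l : ℕ} {A ι : Type} [CommRing A] (s : Finset ι) (u : ι → A)
    (hu : ∀ i ∈ s, LInt l (u i)) : LInt l (∑ i ∈ s, u i) :=
  Finset.sum_induction u (LInt l) (fun _ _ => lint_add) lint_zero hu

theorem lint_mul {l : ℕ} {A : Type} [CommRing A] {u w : A} (hu : LInt l u)
    (hw : IsIntegral ℤ w) : LInt l (u * w) := by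
  obtain ⟨d, hd, hi⟩ := hu
  exact ⟨d, hd, by rw [← mul_assoc]; exact hi.mul hw⟩

theorem lint_map {l : ℕ} {A B : Type} [CommRing A] [CommRing B] (f : A →+* B) {u : A}
    (hu : LInt l u) : LInt l (f u) := by
  obtain ⟨d, hd, hi⟩ := hu
  refine ⟨d, hd, ?_⟩
  have := map_isIntegral_int f hi
  rwa [map_mul, map_natCast] at this

/-- coordinates of a polynomial in a basis, with denominators cleared -/
theorem exists_decomp {F τ : Type} [Field F] [NumberField F] {n : ℕ}
    (b : Module.Basis (Fin n) ℚ F) (Q : MvPolynomial τ F) :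
    ∃ d : ℤ, d ≠ 0 ∧ ∃ P : Fin n → MvPolynomial τ ℤ,
      C (d : F) * Q = ∑ j, C (b j) * map (Int.castRingHom F) (P j) := by
  classical
  let S : MvPolynomial τ F → Prop := fun Q => ∃ d : ℤ, d ≠ 0 ∧ ∃ P : Fin n → MvPolynomial τ ℤ,
      C (d : F) * Q = ∑ j, C (b j) * map (Int.castRingHom F) (P j)
  have hadd : ∀ Q R, S Q → S R → S (Q + R) := by
    rintro Q R ⟨d, hd, P, hP⟩ ⟨d', hd', P', hP'⟩
    refine ⟨d * d', mul_ne_zero hd hd', fun j => C d' * P j + C d * P' j, ?_⟩
    have : C (((d * d' : ℤ)) : F) * (Q + R) =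
        C (d' : F) * (C (d : F) * Q) + C (d : F) * (C (d' : F) * R) := by
      rw [Int.cast_mul, map_mul]; ring
    rw [this, hP, hP', Finset.mul_sum, Finset.mul_sum, ← Finset.sum_add_distrib]
    refine Finset.sum_congr rfl fun j _ => ?_
    rw [map_add, map_mul, map_mul, map_C, map_C, eq_intCast (Int.castRingHom F),
      eq_intCast (Int.castRingHom F)]
    ring
  have hzero : S 0 := ⟨1, one_ne_zero, fun _ => 0, by simp⟩
  change S Q
  induction Q using MvPolynomial.induction_on with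
  | C a =>
    rw [← b.sum_repr a, map_sum]
    refine Finset.sum_induction _ S hadd hzero fun j _ => ?_
    refine ⟨(b.repr a j).den, by exact_mod_cast (b.repr a j).den_nz,
      Pi.single j (C (b.repr a j).num), ?_⟩
    rw [Finset.sum_eq_single j]
    · rw [Pi.single_eq_same, map_C, ← map_mul, ← map_mul]
      congr 1
      rw [Algebra.smul_def, eq_intCast, eq_ratCast, ← mul_assoc, mul_comm (b j)]
      congr 1
      rw [← Rat.cast_intCast (α := F), ← Rat.cast_intCast (α := F), ← Rat.cast_mul,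
        Int.cast_natCast, Rat.den_mul_eq_num]
    · intro k _ hk
      rw [Pi.single_eq_of_ne hk, map_zero, mul_zero]
    · intro h
      exact absurd (Finset.mem_univ j) h
  | add Q R hQ hR => exact hadd Q R hQ hR
  | mul_X Q i hQ =>
    obtain ⟨d, hd, P, hP⟩ := hQ
    refine ⟨d, hd, fun j => P j * X i, ?_⟩
    rw [← mul_assoc, hP, Finset.sum_mul]
    refine Finset.sum_congr rfl fun j _ => ?_
    rw [map_mul, map_X, mul_assoc]

/-- substitution of the basis expansion -/
noncomputable def subst {F σ : Type} [Field F] {n : ℕ} (b : Fin n → F) (q : MvPolynomial σ F) :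
    MvPolynomial (σ × Fin n) F :=
  aeval (fun i => ∑ j, X (i, j) * C (b j)) q

theorem eval_decomp {F σ L : Type} [Field F] [Field L] [Algebra F L] {n : ℕ} (b : Fin n → F)
    (q : MvPolynomial σ F) (d : ℤ) (P : Fin n → MvPolynomial (σ × Fin n) ℤ)
    (h : C (d : F) * subst b q = ∑ j, C (b j) * map (Int.castRingHom F) (P j))
    (v : σ × Fin n → L) :
    (d : L) * aeval (fun i => ∑ j, v (i, j) * algebraMap F L (b j)) q =
      ∑ j, aeval v (P j) * algebraMap F L (b j) := by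
  have h1 := congrArg (aeval v : MvPolynomial (σ × Fin n) F →ₐ[F] L) h
  rw [map_mul, aeval_C, map_intCast, subst, ← AlgHom.comp_apply, comp_aeval, map_sum] at h1
  simp only [map_sum, map_mul, aeval_X, aeval_C] at h1
  rw [h1]
  refine Finset.sum_congr rfl fun j _ => ?_
  rw [mul_comm]
  congr 1
  rw [aeval_def, aeval_def, eval₂_map]
  congr 1
  exact RingHom.ext_int _ _

theorem map_aeval_int {A B τ : Type} [CommRing A] [CommRing B] (f : A →+* B) (v : τ → A)
    (P : MvPolynomial τ ℤ) : f (aeval v P) = aeval (fun i => f (v i)) P := by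
  rw [Sch.aeval_eq_ev, Sch.aeval_eq_ev]
  have : f.comp (Sch.ev v) = Sch.ev fun i => f (v i) := by
    apply Sch.ev_ext
    intro l
    simp
  exact congr($this P)

end SchWAux

theorem SchWAux.exists_basis (l : ℕ) (F : Type) [Field F] [NumberField F] :
    ∃ (n : ℕ) (b : Module.Basis (Fin n) ℚ F), (∀ j, IsIntegral ℤ (b j)) ∧
      ∀ x : F, LInt l x → ∀ j, LInt l (b.repr x j) := by
  classical
  let ι := Module.Free.ChooseBasisIndex ℤ (𝓞 F)
  let e : ι ≃ Fin (Fintype.card ι) := Fintype.equivFin ι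
  refine ⟨Fintype.card ι, (integralBasis F).reindex e, ?_, ?_⟩
  · intro j
    rw [Module.Basis.reindex_apply, integralBasis_apply]
    exact RingOfIntegers.isIntegral_coe _
  · rintro x ⟨d, hd, hi⟩ j
    refine ⟨d, hd, ?_⟩
    rw [Module.Basis.repr_reindex_apply]
    have h1 : (d : ℚ) * (integralBasis F).repr x (e.symm j) =
        (integralBasis F).repr ((d : F) * x) (e.symm j) := by
      rw [← nsmul_eq_mul, ← nsmul_eq_mul, map_nsmul]
      rfl
    let y : 𝓞 F := ⟨(d : F) * x, hi⟩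
    have h2 : (d : F) * x = algebraMap (𝓞 F) F y := rfl
    rw [h1, h2, integralBasis_repr_apply]
    exact isIntegral_algebraMap

open MvPolynomial SchWAux in
/-- restriction of scalars -/
theorem schW (l : ℕ) (hl : l.Prime) (K₀ F K : Type) [Field K₀] [NumberField K₀] [Field F]
    [NumberField F] [Field K] [NumberField K] [Algebra F K] (f : K₀ →+* K)
    (hli : ∀ (n : ℕ) (b : Fin n → F), LinearIndependent ℚ b → ∀ c : Fin n → K₀,
      ∑ i, f (c i) * algebraMap F K (b i) = 0 → ∀ i, c i = 0)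
    (σ : Type) [Fintype σ] (𝓖 : Set (MvPolynomial σ F))
    (hA : {η : σ → F | (∀ q ∈ 𝓖, MvPolynomial.aeval η q = 0) ∧ ∀ i, LInt l (η i)}.Infinite)
    (hB : ∀ η : σ → K, (∀ q ∈ 𝓖, MvPolynomial.aeval η q = 0) → (∀ i, LInt l (η i)) →
      ∀ i, η i ∈ Set.range (algebraMap F K)) : ConcS K₀ := by
  classical
  obtain ⟨n, b, hbint, hrepr⟩ := exists_basis l F
  have hsum : ∀ x : F, ∑ j, ((b.repr x j : ℚ) : F) * b j = x := by
    intro x
    conv_rhs => rw [← b.sum_repr x]
    refine Finset.sum_congr rfl fun j _ => ?_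
    rw [Algebra.smul_def, eq_ratCast]
  let 𝓕 : Set (MvPolynomial (σ × Fin n) ℤ) := {p | ∃ q ∈ 𝓖, ∃ d : ℤ, d ≠ 0 ∧
    ∃ P : Fin n → MvPolynomial (σ × Fin n) ℤ,
      C (d : F) * subst b q = ∑ j, C (b j) * map (Int.castRingHom F) (P j) ∧ ∃ j, p = P j}
  refine schT l hl K₀ (σ × Fin n) 𝓕 ?_ ?_
  · refine Set.Infinite.of_image (fun c : σ × Fin n → ℚ => fun i => ∑ j, (c (i, j) : F) * b j)
      (hA.mono ?_)
    rintro η ⟨h1, h2⟩
    refine ⟨fun k => b.repr (η k.1) k.2, ⟨?_, fun k => hrepr _ (h2 _) _⟩, ?_⟩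
    · rintro _ ⟨q, hq, d, hd, P, hP, j, rfl⟩
      have h3 := eval_decomp (L := F) b q d P hP fun k => ((b.repr (η k.1) k.2 : ℚ) : F)
      simp only [Algebra.algebraMap_self, RingHom.id_apply, hsum] at h3
      rw [h1 q hq, mul_zero] at h3
      have h4 : ∑ j, (aeval (fun k : σ × Fin n => b.repr (η k.1) k.2) (P j)) • b j = 0 := by
        rw [h3]
        refine Finset.sum_congr rfl fun j _ => ?_
        rw [Algebra.smul_def, map_aeval_int (algebraMap ℚ F)]
        simp only [eq_ratCast]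
      exact Fintype.linearIndependent_iff.mp b.linearIndependent _ h4 j
    · ext i
      exact hsum (η i)
  · intro c h1 h2 k
    let η : σ → K := fun i => ∑ j, f (c (i, j)) * algebraMap F K (b j)
    have hη1 : ∀ q ∈ 𝓖, aeval η q = 0 := by
      intro q hq
      obtain ⟨d, hd, P, hP⟩ := exists_decomp b (subst b q)
      have h3 := eval_decomp (L := K) b q d P hP fun k => f (c k)
      have h4 : ∀ j, aeval (fun k => f (c k)) (P j) = 0 := by
        intro j
        rw [← map_aeval_int, h1 (P j) ⟨q, hq, d, hd, P, hP, j, rfl⟩, map_zero]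
      simp only [h4, zero_mul, Finset.sum_const_zero] at h3
      have hd' : (d : K) ≠ 0 := by exact_mod_cast hd
      exact (mul_eq_zero.mp h3).resolve_left hd'
    have hη2 : ∀ i, LInt l (η i) := fun i =>
      lint_sum _ _ fun j _ => lint_mul (lint_map f (h2 _)) (map_isIntegral_int _ (hbint j))
    obtain ⟨x, hx⟩ := hB η hη1 hη2 k.1
    have h5 := hli n b b.linearIndependent
      (fun j => c (k.1, j) - ((b.repr x j : ℚ) : K₀)) (by
        simp only [map_sub, sub_mul, Finset.sum_sub_distrib, map_ratCast]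
        rw [sub_eq_zero]
        change η k.1 = _
        rw [← hx]
        conv_lhs => rw [← hsum x]
        simp only [map_sum, map_mul, map_ratCast]) k.2
    exact ⟨b.repr x k.2, by rw [eq_ratCast]; exact (sub_eq_zero.mp h5).symm⟩

end Pool.Agent.MP_14ad9d_nt.Full

end

section

/- Basic calculus of tame symbols, and pairs of auxiliary primes. -/

set_option autoImplicit false

namespace Pool.Agent.MP_14ad9d_nt.Full.MachineAux

open Classical

variable {k G H P : Type} [Field k] [Group G] [AddCommGroup H] [Module k H] [MulAction G P]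
  (M : Mach k G H P)

theorem tame_anti (p : P) (x y : H) : M.tame p x y = -M.tame p y x := by
  have h := M.tame_self p (x + y)
  simp only [map_add, LinearMap.add_apply, M.tame_self] at h
  linear_combination h

theorem tame_eq {p : P} {w : H} (hw : M.ord p w = 1) (x y : H) :
    M.tame p x y = M.ord p y * M.tame p x w - M.ord p x * M.tame p y w := by
  have h := M.tame_unr p (x - M.ord p x • w) (y - M.ord p y • w) (by simp [hw]) (by simp [hw])
  simp only [map_sub, map_smul, LinearMap.sub_apply, LinearMap.smul_apply, smul_eq_mul,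
    M.tame_self, tame_anti M p w y] at h
  linear_combination h

theorem tame_chi (p : P) (x y : H) :
    M.tame p x y = M.ord p y * M.chi p x - M.ord p x * M.chi p y :=
  tame_eq M (M.ord_unif p) x y

theorem act_act (g h : G) (x : H) : M.ρ g (M.ρ h x) = M.ρ (g * h) x := by
  rw [map_mul]; rfl

theorem act_one (x : H) : M.ρ 1 x = x := by rw [map_one]; rfl

theorem ord_act' (g : G) (p : P) (x : H) : M.ord p (M.ρ g x) = M.ord (g⁻¹ • p) x := by
  rw [← M.ord_act g (g⁻¹ • p), smul_inv_smul]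

theorem chi_act (g : G) {p : P} {x : H} (h : M.ord p x = 0) :
    M.chi (g • p) (M.ρ g x) = M.chi p x := by
  have := tame_chi M (g • p) (M.ρ g x) (M.ρ g (M.unif p))
  rw [M.tame_act, M.ord_act, M.ord_act, M.ord_unif, h, one_mul, zero_mul, sub_zero] at this
  exact this.symm

theorem chi_act' (g : G) {p : P} {x : H} (h : M.ord (g⁻¹ • p) x = 0) :
    M.chi p (M.ρ g x) = M.chi (g⁻¹ • p) x := by
  rw [← chi_act M g h, smul_inv_smul]

theorem chi_add (p : P) (x y : H) : M.chi p (x + y) = M.chi p x + M.chi p y := by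
  simp only [Mach.chi, map_add, LinearMap.add_apply]

theorem chi_sub (p : P) (x y : H) : M.chi p (x - y) = M.chi p x - M.chi p y := by
  simp only [Mach.chi, map_sub, LinearMap.sub_apply]

theorem chi_comb [Fintype G] (p : P) (t : G → k) (x : H) :
    M.chi p (∑ g, t g • M.ρ g x) = ∑ g, t g * M.chi p (M.ρ g x) := by
  simp only [Mach.chi, map_sum, map_smul, LinearMap.sum_apply, LinearMap.smul_apply, smul_eq_mul]

/-- the valuation is the indicator of one prime -/
def Ind (p : P) (π : H) : Prop := ∀ q, M.ord q π = if q = p then 1 else 0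

variable {M}

theorem Ind.act {p : P} {π : H} (h : Ind M p π) (g : G) : Ind M (g • p) (M.ρ g π) := by
  intro q
  rw [ord_act', h]
  simp only [inv_smul_eq_iff]

theorem Ind.self {p : P} {π : H} (h : Ind M p π) : M.ord p π = 1 := by rw [h, if_pos rfl]

theorem Ind.ne {p q : P} {π : H} (h : Ind M p π) (hq : q ≠ p) : M.ord q π = 0 := by
  rw [h, if_neg hq]

variable (M)

theorem fin_D (x y : H) : Function.HasFiniteSupport fun q => M.ord q x * M.chi q y :=
  (M.ord_fin x).subset fun _ hq => left_ne_zero_of_mul hq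

theorem Phi_eq (x y : H) :
    M.Phi x y = ∑ᶠ q, M.ord q y * M.chi q x - ∑ᶠ q, M.ord q x * M.chi q y := by
  simp only [Mach.Phi, tame_chi]
  exact finsum_sub_distrib (fin_D M y x) (fin_D M x y)

theorem fin_tame (x y : H) : Function.HasFiniteSupport fun q => M.tame q x y :=
  ((M.ord_fin x).union (M.ord_fin y)).subset fun q hq => by
    by_contra h
    simp only [Set.mem_union, Set.mem_ofPred_eq, not_or, not_not] at h
    exact hq (M.tame_unr q x y h.1 h.2)

theorem Phi_add_left (x x' y : H) : M.Phi (x + x') y = M.Phi x y + M.Phi x' y := by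
  simp only [Mach.Phi, map_add, LinearMap.add_apply]
  exact finsum_add_distrib (fin_tame M x y) (fin_tame M x' y)

theorem Phi_add_right (x y y' : H) : M.Phi x (y + y') = M.Phi x y + M.Phi x y' := by
  simp only [Mach.Phi, map_add]
  exact finsum_add_distrib (fin_tame M x y) (fin_tame M x y')

theorem Phi_act (g : G) (x y : H) : M.Phi (M.ρ g x) (M.ρ g y) = M.Phi x y := by
  unfold Mach.Phi
  rw [← finsum_comp_equiv (MulAction.toPerm g)]
  simp only [MulAction.toPerm_apply, M.tame_act]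

theorem Phi_inv [Fintype G] (hG : (Fintype.card G : k) ≠ 0) {x α : H} (hx : nrm M.ρ x = 0)
    (hα : ∀ g, M.ρ g α = α) : M.Phi x α = 0 := by
  have h := map_sum (AddMonoidHom.mk' (fun z => M.Phi z α) fun a b => Phi_add_left M a b α)
    (fun g => M.ρ g x) Finset.univ
  have h0 := map_zero (AddMonoidHom.mk' (fun z => M.Phi z α) fun a b => Phi_add_left M a b α)
  have h1 : ∀ g, M.Phi (M.ρ g x) α = M.Phi x α := fun g => by
    rw [← Phi_act M g x α, hα]
  rw [nrm, LinearMap.sum_apply] at hx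
  rw [hx, h0] at h
  simp only [AddMonoidHom.mk'_apply, h1, Finset.sum_const, Finset.card_univ, nsmul_eq_mul] at h
  exact (mul_eq_zero.1 h.symm).resolve_left hG

variable {M}

theorem D_ind {p : P} {π : H} (h : Ind M p π) (y : H) :
    ∑ᶠ q, M.ord q π * M.chi q y = M.chi p y := by
  rw [finsum_eq_single _ p fun q hq => by rw [h.ne hq, zero_mul], h.self, one_mul]

theorem recip_ind {a p : P} {x π : H} (hx : Ind M a x) (hπ : Ind M p π) (hP : π ∈ M.Prim) :
    M.chi p x = M.chi a π := by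
  have h : M.Phi x π = 0 := M.recip x π hP
  rw [Phi_eq, D_ind hx, D_ind hπ] at h
  exact sub_eq_zero.1 h

theorem good_act {p : P} (h : M.Good p) (g : G) : M.Good (g • p) := by
  refine ⟨fun a ha => ?_, fun μ => ?_⟩
  · have := h.1 (g⁻¹ * a * g) (by rw [mul_smul, mul_smul, ha, inv_smul_smul])
    rw [mul_assoc, inv_mul_eq_one] at this
    exact right_eq_mul.1 this
  · obtain ⟨u, h1, h2, h3⟩ := h.2 μ
    exact ⟨u, h1, by rw [← h1 g, M.ord_act, h2], by rw [← h1 g, chi_act M g h2, h3]⟩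

theorem smul_inj {p : P} (h : ∀ g : G, g • p = p → g = 1) {g g' : G} :
    g • p = g' • p ↔ g = g' :=
  ⟨fun e => (inv_mul_eq_one.1 (h (g'⁻¹ * g) (by rw [mul_smul, e, inv_smul_smul]))).symm,
    fun e => e ▸ rfl⟩

variable [Fintype G]

theorem nrm_apply (x : H) : nrm M.ρ x = ∑ g, M.ρ g x := by rw [nrm, LinearMap.sum_apply]

theorem act_nrm (g : G) (x : H) : M.ρ g (nrm M.ρ x) = nrm M.ρ x := by
  simp only [nrm_apply, map_sum, act_act]
  exact Equiv.sum_comp (Equiv.mulLeft g) fun h => M.ρ h x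

theorem nrm_act (g : G) (x : H) : nrm M.ρ (M.ρ g x) = nrm M.ρ x := by
  simp only [nrm_apply, act_act]
  exact Equiv.sum_comp (Equiv.mulRight g) fun h => M.ρ h x

theorem sum_ord {x : H} (hx : nrm M.ρ x = 0) (p : P) : ∑ g : G, M.ord (g • p) x = 0 := by
  have := congrArg (M.ord p) hx
  rw [nrm_apply, map_sum, map_zero] at this
  rw [← this, ← Equiv.sum_comp (Equiv.inv G)]
  simp only [ord_act', Equiv.inv_apply]

theorem ord_comb {p : P} {π : H} (h : Ind M p π) (hp : ∀ g : G, g • p = p → g = 1) (t : G → k)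
    (g : G) : M.ord (g • p) (∑ a, t a • M.ρ a π) = t g := by
  simp only [map_sum, map_smul, h.act _ _, smul_inj hp, smul_eq_mul, mul_ite, mul_one, mul_zero,
    Finset.sum_ite_eq, Finset.mem_univ, if_true]

theorem ord_comb_ne {p q : P} {π : H} (h : Ind M p π) (hq : ∀ g : G, g • p ≠ q) (t : G → k) :
    M.ord q (∑ a, t a • M.ρ a π) = 0 := by
  simp only [map_sum, map_smul, (h.act _).ne (hq _).symm, smul_zero, Finset.sum_const_zero]

theorem ord_nrm {p : P} {π : H} (h : Ind M p π) (hp : ∀ g : G, g • p = p → g = 1) (g : G) :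
    M.ord (g • p) (nrm M.ρ π) = 1 := by
  simpa only [one_smul, ← nrm_apply] using ord_comb h hp (fun _ => 1) g

theorem ord_nrm_ne {p q : P} {π : H} (h : Ind M p π) (hq : ∀ g : G, g • p ≠ q) :
    M.ord q (nrm M.ρ π) = 0 := by
  simpa only [one_smul, ← nrm_apply] using ord_comb_ne h hq (fun _ => 1)

theorem exists_mu [Fintype k] (hcard : Fintype.card G < Fintype.card k) (σ : G → k) :
    ∃ μ : k, ∀ y : G → k,
      (∀ h, ∑ g, y g * (σ (h⁻¹ * g) - if h⁻¹ * g = 1 then μ else 0) = 0) → y = 0 := by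
  let T : Module.End k (G → k) := Matrix.toLin' (Matrix.of fun h g => σ (h⁻¹ * g))
  obtain ⟨μ, hμ⟩ := T.charpoly.exists_eval_ne_zero_of_natDegree_lt_card T.charpoly_monic.ne_zero
    (by rw [LinearMap.charpoly_natDegree, Module.finrank_fintype_fun_eq_card, Cardinal.mk_fintype]
        exact_mod_cast hcard)
  refine ⟨μ, fun y hy => by_contra fun h0 => hμ ?_⟩
  refine (Module.End.hasEigenvalue_iff_isRoot_charpoly T μ).1
    (Module.End.hasEigenvalue_of_hasEigenvector (x := y) ⟨?_, h0⟩)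
  rw [Module.End.mem_eigenspace_iff]
  funext h
  have := hy h
  simp only [mul_sub, Finset.sum_sub_distrib, inv_mul_eq_one, mul_ite, mul_zero,
    Finset.sum_ite_eq, Finset.mem_univ, if_true] at this
  simp only [T, Matrix.toLin'_apply, Matrix.mulVec, dotProduct, Matrix.of_apply, Pi.smul_apply,
    smul_eq_mul, mul_comm (σ _)]
  linear_combination this

variable (M) in
/-- an auxiliary prime, trivial on `T` -/
structure Ok (T : Finset P) (p : P) (π : H) : Prop where
  notMem : p ∉ T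
  good : M.Good p
  prim : π ∈ M.Prim
  ind : Ind M p π
  chi : ∀ q ∈ T, M.chi q π = 0

variable (M) in
/-- the self-symbols of a prime element -/
def sig (d : P × H) (g : G) : k := M.tame d.1 (M.ρ g d.2) (nrm M.ρ d.2)

theorem exists_pair [Fintype k] (hR : M.AxR) {T : Finset P} (hT : ∀ g : G, ∀ p ∈ T, g • p ∈ T)
    (κ : (G → k) → G → k) :
    ∃ p π p' π', Ok M T p π ∧ Ok M T p' π' ∧ (∀ g : G, g • p ≠ p') ∧
      sig M (p, π) = sig M (p', π') ∧ ∀ g : G, M.chi (g⁻¹ • p) π' = κ (sig M (p, π)) g := by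
  by_contra hno
  have key : ∀ n : ℕ, ∃ F : Finset (P × H), F.card = n ∧ (∀ d ∈ F, Ok M T d.1 d.2) ∧
      (∀ d ∈ F, ∀ d' ∈ F, ∀ g : G, g • d.1 = d'.1 → d = d') ∧ Set.InjOn (sig M) F := by
    intro n
    induction n with
    | zero => exact ⟨∅, rfl, by simp, by simp, by simp⟩
    | succ n ih =>
      obtain ⟨F, h1, h2, h3, h4⟩ := ih
      obtain ⟨p, hp, hg, π, hπ, ho, hb⟩ := hR
        (T ∪ (F ×ˢ (Finset.univ : Finset G)).image fun e => e.2 • e.1.1)
        fun q => ∑ d ∈ F, ∑ g : G, if q = g⁻¹ • d.1 then κ (sig M d) g else 0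
      have hmem : ∀ d ∈ F, ∀ g : G, g • d.1 ∈
          T ∪ (F ×ˢ (Finset.univ : Finset G)).image fun e => e.2 • e.1.1 := fun d hd g =>
        Finset.mem_union_right _ (Finset.mem_image.2 ⟨(d, g), by simp [hd], rfl⟩)
      have hne : ∀ d ∈ F, ∀ g : G, g • d.1 ≠ p := fun d hd g e => hp (e ▸ hmem d hd g)
      have hok : Ok M T p π := by
        refine ⟨fun h => hp (Finset.mem_union_left _ h), hg, hπ, ho, fun q hq => ?_⟩
        rw [hb q (Finset.mem_union_left _ hq)]
        refine Finset.sum_eq_zero fun d hd => Finset.sum_eq_zero fun g _ => if_neg fun e => ?_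
        exact (h2 d hd).notMem (by simpa [e] using hT g q hq)
      have hF : (p, π) ∉ F := fun h => hne _ h 1 (one_smul _ _)
      refine ⟨insert (p, π) F, by rw [Finset.card_insert_of_notMem hF, h1], ?_, ?_, ?_⟩
      · intro d hd
        rcases Finset.mem_insert.1 hd with rfl | hd
        exacts [hok, h2 d hd]
      · intro d hd d' hd' g e
        rcases Finset.mem_insert.1 hd with rfl | hd <;>
          rcases Finset.mem_insert.1 hd' with rfl | hd'
        · rfl
        · exact absurd (inv_smul_eq_iff.2 e.symm) (hne d' hd' g⁻¹)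
        · exact absurd e (hne d hd g)
        · exact h3 d hd d' hd' g e
      · rw [Finset.coe_insert, Set.injOn_insert (by exact_mod_cast hF)]
        refine ⟨h4, ?_⟩
        rintro ⟨d, hd, e⟩
        refine hno ⟨d.1, d.2, p, π, h2 d hd, hok, hne d hd, e, fun g => ?_⟩
        rw [hb _ (hmem d hd _), Finset.sum_eq_single_of_mem d hd, Finset.sum_eq_single g,
          if_pos rfl]
        · intro g' _ hg'
          exact if_neg fun e' => hg' (inv_injective ((smul_inj (h2 d hd).good.1).1 e')).symm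
        · simp
        · intro d' hd' hne'
          refine Finset.sum_eq_zero fun g' _ => if_neg fun e' => hne' ?_
          exact h3 d' hd' d hd (g * g'⁻¹) (by rw [mul_smul, ← e', smul_inv_smul])
  obtain ⟨F, h1, -, -, h4⟩ := key (Fintype.card (G → k) + 1)
  have := Finset.card_le_card_of_injOn (t := Finset.univ) (sig M) (fun _ _ => by simp) h4
  rw [h1, Finset.card_univ] at this
  omega

end Pool.Agent.MP_14ad9d_nt.Full.MachineAux

end

section

/- Raising a Selmer structure at a pair of primes. -/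

set_option autoImplicit false

namespace Pool.Agent.MP_14ad9d_nt.Full.MachineAux

open Classical

variable {k G H P : Type} [Field k] [Group G] [Fintype G] [AddCommGroup H] [Module k H]
  [MulAction G P] {M : Mach k G H P}

variable (M) in
/-- a Selmer structure -/
structure Bas (S : Finset P) (γ : P → H) (ϖ : H) : Prop where
  stab : ∀ g : G, ∀ p ∈ S, g • p ∈ S
  good : ∀ p ∈ S, M.Good p
  gam : ∀ p ∈ S, M.ord p (γ p) = 1 ∧ ∀ g : G, M.ρ g (γ p) = γ p ∧ γ (g • p) = γ p
  mem : ϖ ∈ M.UL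
  inv : ∀ g, M.ρ g ϖ = ϖ
  ord : ∀ q, M.ord q ϖ = if q ∈ S then 1 else 0

omit [Fintype G] in
theorem notMem_act {S : Finset P} (h : ∀ g : G, ∀ p ∈ S, g • p ∈ S) {p : P} (hp : p ∉ S) (g : G) :
    g • p ∉ S := fun e => hp (by simpa using h g⁻¹ _ e)

theorem Bas.ext {S : Finset P} {γ : P → H} {ϖ : H} (h : Bas M S γ ϖ) {p : P} {π w : H}
    (hp : p ∉ S) (hg : M.Good p) (hπ : π ∈ M.Prim) (hi : Ind M p π) (hw : M.ord p w = 1)
    (hw' : ∀ g, M.ρ g w = w) : ∃ S' γ' ϖ', Bas M S' γ' ϖ' ∧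
      (∀ q, q ∈ S' ↔ q ∈ S ∨ ∃ g : G, g • p = q) ∧ (∀ q ∈ S, γ' q = γ q) ∧
      ∀ g : G, γ' (g • p) = w := by
  have hn := notMem_act h.stab hp
  have hm : ∀ q, q ∈ S ∪ Finset.univ.image (fun g : G => g • p) ↔ q ∈ S ∨ ∃ g : G, g • p = q := by
    simp
  refine ⟨S ∪ Finset.univ.image (fun g : G => g • p), fun q => if q ∈ S then γ q else w,
    ϖ + nrm M.ρ π, ⟨?_, ?_, ?_, ?_, ?_, ?_⟩, hm, fun q hq => if_pos hq, fun g => if_neg (hn g)⟩
  · intro g q hq
    rw [hm] at hq ⊢
    rcases hq with hq | ⟨a, rfl⟩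
    exacts [Or.inl (h.stab g q hq), Or.inr ⟨g * a, mul_smul _ _ _⟩]
  · intro q hq
    rcases (hm q).1 hq with hq | ⟨a, rfl⟩
    exacts [h.good q hq, good_act hg a]
  · intro q hq
    rcases (hm q).1 hq with hq | ⟨a, rfl⟩
    · simp only [if_pos hq, if_pos (h.stab _ q hq)]
      exact h.gam q hq
    · simp only [← mul_smul, if_neg (hn _)]
      exact ⟨by rw [← hw' a, M.ord_act, hw], fun g => ⟨hw' g, trivial⟩⟩
  · refine add_mem h.mem (M.Prim_le ?_)
    rw [nrm_apply]
    exact sum_mem fun g _ => M.Prim_stab g π hπ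
  · intro g
    rw [map_add, h.inv, act_nrm]
  · intro q
    rw [map_add, h.ord]
    by_cases hq : ∃ g : G, g • p = q
    · obtain ⟨a, rfl⟩ := hq
      rw [if_neg (hn a), if_pos ((hm _).2 (Or.inr ⟨a, rfl⟩)), ord_nrm hi hg.1, zero_add]
    · rw [ord_nrm_ne hi fun g e => hq ⟨g, e⟩, add_zero]
      simp only [hm, hq, or_false]

omit [Fintype G] in
theorem Ok.ord_zero {T : Finset P} {p : P} {π : H} (h : Ok M T p π)
    (hT : ∀ g : G, ∀ p ∈ T, g • p ∈ T) (g : G) {q : P} (hq : q ∈ T) : M.ord q (M.ρ g π) = 0 :=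
  (h.ind.act g).ne fun e => notMem_act hT h.notMem g (e ▸ hq)

omit [Fintype G] in
theorem Ok.chi_zero {T : Finset P} {p : P} {π : H} (h : Ok M T p π)
    (hT : ∀ g : G, ∀ p ∈ T, g • p ∈ T) (g : G) {q : P} (hq : q ∈ T) : M.chi q (M.ρ g π) = 0 := by
  rw [chi_act' M g (h.ind.ne fun e => h.notMem (e ▸ hT _ q hq)), h.chi _ (hT _ q hq)]

omit [Fintype G] in
theorem Ok.tame_zero {T : Finset P} {p : P} {π : H} (h : Ok M T p π)
    (hT : ∀ g : G, ∀ p ∈ T, g • p ∈ T) (g : G) {q : P} (hq : q ∈ T) (y : H) :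
    M.tame q (M.ρ g π) y = 0 := by
  rw [tame_chi, h.ord_zero hT g hq, h.chi_zero hT g hq, mul_zero, zero_mul, sub_zero]

theorem Ok.sig_inv {T : Finset P} {p : P} {π : H} (h : Ok M T p π) (g : G) :
    sig M (p, π) g⁻¹ = sig M (p, π) g := by
  by_cases hg : g = 1
  · rw [hg, inv_one]
  have h1 : ∀ g : G, g ≠ 1 → M.ord p (M.ρ g π) = 0 := fun g hg =>
    (h.ind.act g).ne fun e => hg (h.good.1 g e.symm)
  have h2 : M.ord p (nrm M.ρ π) = 1 := by simpa using ord_nrm h.ind h.good.1 1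
  have h3 := chi_act M g (h1 g⁻¹ (inv_ne_one.2 hg))
  rw [act_act, mul_inv_cancel, act_one] at h3
  simp only [sig]
  rw [tame_chi, tame_chi, h1 g hg, h1 g⁻¹ (inv_ne_one.2 hg), h2, ← h3,
    recip_ind (h.ind.act g) h.ind h.prim]

theorem Ok.tame_gam {T : Finset P} {p : P} {π u : H} (h : Ok M T p π) (hu : M.ord p u = 0)
    (g : G) : M.tame p (M.ρ g π) (nrm M.ρ π + u) =
      sig M (p, π) g - if g = 1 then M.chi p u else 0 := by
  rw [map_add, tame_chi M p _ u, hu, h.ind.act g, zero_mul, zero_sub, sub_eq_add_neg]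
  congr 2
  by_cases hg : g = 1
  · simp [hg]
  · rw [if_neg hg, if_neg fun e => hg (h.good.1 g e.symm), zero_mul]

variable (M) in
/-- the outcome of raising at a pair of primes -/
structure Pair (S S' : Finset P) (γ γ' : P → H) (p p' : P) (π π' : H) : Prop where
  ok : Ok M S p π
  ok' : Ok M S p' π'
  ne : ∀ g : G, g • p ≠ p'
  mem : ∀ q, q ∈ S' ↔ q ∈ S ∨ (∃ g : G, g • p = q) ∨ ∃ g : G, g • p' = q
  eq : ∀ q ∈ S, γ' q = γ q
  tame : ∀ q ∈ S', ∀ g, M.tame q (M.ρ g (π - π')) (γ' q) = 0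
  inj : ∀ y : G → k, (∀ h : G, ∑ g, y g * M.chi (h • p) (M.ρ g π') = 0) → y = 0

theorem Bas.pair [Fintype k] (hcard : Fintype.card G < Fintype.card k) (hR : M.AxR)
    {S : Finset P} {γ : P → H} {ϖ : H} (h : Bas M S γ ϖ) :
    ∃ S' γ' ϖ' p p' π π', Bas M S' γ' ϖ' ∧ Pair M S S' γ γ' p p' π π' := by
  choose μ hμ using exists_mu (G := G) hcard
  obtain ⟨p, π, p', π', h1, h2, h3, h4, h5⟩ :=
    exists_pair hR h.stab fun σ g => σ g - if g = 1 then μ σ else 0
  have h3' : ∀ g : G, g • p' ≠ p := fun g e => h3 g⁻¹ (inv_smul_eq_iff.2 e.symm)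
  obtain ⟨u, u1, u2, u3⟩ := h1.good.2 (μ (sig M (p, π)))
  obtain ⟨u', u1', u2', u3'⟩ := h2.good.2 (μ (sig M (p, π)))
  have w1 : M.ord p (nrm M.ρ π + u) = 1 := by
    simpa [u2] using ord_nrm h1.ind h1.good.1 1
  have w1' : M.ord p' (nrm M.ρ π' + u') = 1 := by
    simpa [u2'] using ord_nrm h2.ind h2.good.1 1
  have w2 : ∀ g, M.ρ g (nrm M.ρ π + u) = nrm M.ρ π + u := fun g => by rw [map_add, act_nrm, u1]
  have w2' : ∀ g, M.ρ g (nrm M.ρ π' + u') = nrm M.ρ π' + u' := fun g => by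
    rw [map_add, act_nrm, u1']
  obtain ⟨S₁, γ₁, ϖ₁, b1, m1, e1, f1⟩ := h.ext h1.notMem h1.good h1.prim h1.ind w1 w2
  obtain ⟨S₂, γ₂, ϖ₂, b2, m2, e2, f2⟩ := b1.ext (p := p')
    (fun e => ((m1 _).1 e).elim h2.notMem fun ⟨g, hg⟩ => h3 g hg) h2.good h2.prim h2.ind w1' w2'
  have c1 : ∀ g : G, M.chi p (M.ρ g π') =
      sig M (p, π) g - if g = 1 then μ (sig M (p, π)) else 0 := fun g => by
    rw [chi_act' M g (h2.ind.ne (h3 _)), h5]
  refine ⟨S₂, γ₂, ϖ₂, p, p', π, π', b2, h1, h2, h3, fun q => by rw [m2, m1, or_assoc],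
    fun q hq => by rw [e2 q ((m1 q).2 (Or.inl hq)), e1 q hq], ?_,
    fun y hy => hμ (sig M (p, π)) y fun a => ?_⟩
  · intro q hq g
    rcases (m2 q).1 hq with hq | ⟨a, rfl⟩
    · rw [e2 q hq]
      rcases (m1 q).1 hq with hq | ⟨a, rfl⟩
      · rw [map_sub, map_sub, LinearMap.sub_apply, h1.tame_zero h.stab g hq,
          h2.tame_zero h.stab g hq, sub_zero]
      · rw [f1, ← w2 a, ← mul_inv_cancel_left a g, ← act_act, M.tame_act, map_sub, map_sub,
          LinearMap.sub_apply, h1.tame_gam u2, u3, tame_chi, w1, (h2.ind.act _).ne (h3' _).symm,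
          c1]
        ring
    · rw [f2, ← w2' a, ← mul_inv_cancel_left a g, ← act_act, M.tame_act, map_sub, map_sub,
        LinearMap.sub_apply, h2.tame_gam u2', u3', tame_chi, w1', (h1.ind.act _).ne (h3 _).symm,
        recip_ind (h1.ind.act _) h2.ind h2.prim, ← inv_inv (a⁻¹ * g), h5, h1.sig_inv, inv_inv,
        ← h4]
      simp only [inv_eq_one]
      ring
  · refine (Finset.sum_congr rfl fun g _ => ?_).trans (hy a)
    rw [← c1, ← chi_act M a ((h2.ind.act _).ne (h3' _).symm), act_act, mul_inv_cancel_left]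

end Pool.Agent.MP_14ad9d_nt.Full.MachineAux

end

section

set_option autoImplicit false

open NumberField

namespace Pool.Agent.MP_14ad9d_nt.Full.AddKAux

variable {F K : Type} [Field F] [NumberField F] [Field K] [NumberField K] [Algebra F K]

omit [NumberField K] in
theorem mk_eq (m a b : 𝓞 K) :
    Ideal.Quotient.mk (Ideal.span {m}) a = Ideal.Quotient.mk (Ideal.span {m}) b ↔ m ∣ a - b := by
  rw [Ideal.Quotient.eq, Ideal.mem_span_singleton]

theorem norm_prod [IsGalois F K] (x : 𝓞 K) :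
    algebraMap (𝓞 F) (𝓞 K) (RingOfIntegers.norm F x) =
      ∏ σ : K ≃ₐ[F] K, RingOfIntegers.mapRingHom (σ : K →+* K) x := by
  ext
  rw [RingOfIntegers.coe_algebraMap_norm, Algebra.norm_eq_prod_automorphisms]
  simp

theorem norm_coprime [IsGalois F K] {x : 𝓞 K} {m : ℕ} (h : IsCoprime x (m : 𝓞 K)) :
    IsCoprime (algebraMap (𝓞 F) (𝓞 K) (RingOfIntegers.norm F x)) (m : 𝓞 K) := by
  rw [norm_prod]
  refine IsCoprime.prod_left fun σ _ => ?_
  simpa using h.map (RingOfIntegers.mapRingHom (σ : K →+* K))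

theorem norm_congr [IsGalois F K] {x y : 𝓞 K} {m : ℕ} (h : (m : 𝓞 K) ∣ x - y) :
    (m : 𝓞 K) ∣ algebraMap (𝓞 F) (𝓞 K) (RingOfIntegers.norm F x) -
      algebraMap (𝓞 F) (𝓞 K) (RingOfIntegers.norm F y) := by
  rw [norm_prod, norm_prod, ← mk_eq, map_prod, map_prod]
  refine Finset.prod_congr rfl fun σ _ => (mk_eq _ _ _).2 ?_
  simpa using map_dvd (RingOfIntegers.mapRingHom (σ : K →+* K)) h

theorem finite_quot {m : ℕ} (hm : m ≠ 0) : Finite (𝓞 K ⧸ Ideal.span {(m : 𝓞 K)}) :=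
  Ideal.finiteQuotientOfFreeOfNeBot _ (by simpa using hm)

theorem pow_card {m : ℕ} (hm : m ≠ 0) : ∃ E : ℕ, E ≠ 0 ∧ ∀ x : 𝓞 K, IsCoprime x (m : 𝓞 K) →
    Ideal.Quotient.mk (Ideal.span {(m : 𝓞 K)}) x ^ E = 1 := by
  have := finite_quot (K := K) hm
  refine ⟨Nat.card (𝓞 K ⧸ Ideal.span {(m : 𝓞 K)})ˣ, Nat.card_pos.ne', fun x hx => ?_⟩
  have hu : IsUnit (Ideal.Quotient.mk (Ideal.span {(m : 𝓞 K)}) x) := by
    obtain ⟨a, b, e⟩ := hx
    refine IsUnit.of_mul_eq_one (Ideal.Quotient.mk _ a) ?_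
    rw [← map_mul, ← map_one (Ideal.Quotient.mk _), mk_eq]
    exact ⟨-b, by rw [← e]; ring⟩
  obtain ⟨u, hu⟩ := hu
  rw [← hu, ← Units.val_pow_eq_pow_val, pow_card_eq_one', Units.val_one]

theorem lift_coprime {x : 𝓞 K} {M m : ℕ} (hm : m ≠ 0) (h : IsCoprime x (M : 𝓞 K)) :
    ∃ x' : 𝓞 K, (M : 𝓞 K) ∣ x' - x ∧ IsCoprime x' (m : 𝓞 K) := by
  have := finite_quot (K := K) hm
  obtain ⟨i, j, hij, e⟩ : ∃ i j : ℕ, i < j ∧ (m : 𝓞 K) ∣ x ^ i - x ^ j := by
    obtain ⟨i, j, ne, e⟩ := Finite.exists_ne_map_eq_of_infinite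
      fun i : ℕ => Ideal.Quotient.mk (Ideal.span {(m : 𝓞 K)}) (x ^ i)
    rcases lt_or_gt_of_ne ne with l | l
    · exact ⟨i, j, l, (mk_eq _ _ _).1 e⟩
    · exact ⟨j, i, l, (mk_eq _ _ _).1 e.symm⟩
  obtain ⟨d, rfl⟩ := Nat.exists_eq_add_of_lt hij
  refine ⟨x + M * (1 - x ^ (d + 1)), ⟨1 - x ^ (d + 1), by ring⟩, ?_⟩
  rw [← Ideal.isCoprime_span_singleton_iff, Ideal.isCoprime_iff_sup_eq]
  by_contra c
  obtain ⟨P, hP, le⟩ := Ideal.exists_le_maximal _ c
  rw [sup_le_iff, Ideal.span_singleton_le_iff_mem, Ideal.span_singleton_le_iff_mem] at le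
  have h1 : x ^ i * (1 - x ^ (d + 1)) ∈ P := by
    rw [show x ^ i * (1 - x ^ (d + 1)) = x ^ i - x ^ (i + d + 1) by ring]
    exact P.mem_of_dvd e le.2
  have hx : x ∈ P := by
    rcases hP.isPrime.mem_or_mem h1 with a | a
    · exact hP.isPrime.mem_of_pow_mem _ a
    · have := P.sub_mem le.1 (P.mul_mem_left M a)
      rwa [add_sub_cancel_right] at this
  have hM : (M : 𝓞 K) ∈ P := by
    have := P.add_mem (P.sub_mem le.1 hx) (P.mul_mem_left (M * x ^ d) hx)
    rwa [show x + M * (1 - x ^ (d + 1)) - x + M * x ^ d * x = M by ring] at this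
  obtain ⟨a, b, e⟩ := h
  exact hP.ne_top ((Ideal.eq_top_iff_one _).2
    (e ▸ P.add_mem (P.mul_mem_left a hx) (P.mul_mem_left b hM)))

theorem exists_theta0 [IsGalois F K] {M : ℕ} (hM : M ≠ 0) {θ ξ : 𝓞 K}
    (hθ : IsCoprime θ (M : 𝓞 K)) (h : IsCoprime ξ (M : 𝓞 K)) :
    ∃ θ₀ : 𝓞 K, θ₀ ≠ 0 ∧ IsCoprime θ₀ (M : 𝓞 K) ∧
      (M : 𝓞 K) ∣ θ₀ * algebraMap (𝓞 F) (𝓞 K) (RingOfIntegers.norm F ξ) - θ := by
  obtain ⟨a, b, e⟩ := norm_coprime (F := F) h
  have ca : IsCoprime (θ * a) (M : 𝓞 K) := hθ.mul_left ⟨_, b, by rwa [mul_comm] at e⟩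
  have da : (M : 𝓞 K) ∣ θ * a * algebraMap (𝓞 F) (𝓞 K) (RingOfIntegers.norm F ξ) - θ :=
    ⟨-(θ * b), by linear_combination θ * e⟩
  by_cases c : θ * a = 0
  · refine ⟨θ * a + M * 1, by simpa [c] using hM, ca.add_mul_left_left 1, ?_⟩
    have := da.add (dvd_mul_right (M : 𝓞 K) (algebraMap (𝓞 F) (𝓞 K) (RingOfIntegers.norm F ξ)))
    convert this using 1
    ring
  · exact ⟨_, c, ca, da⟩

theorem alg [IsGalois F K] {l : ℕ} (hl : l.Prime) (hl2 : 2 < l) {M : ℕ} (hM : M ≠ 0)
    {ξ₁ ξ₂ : 𝓞 K} (h₁ : IsCoprime ξ₁ (M : 𝓞 K)) (h₂ : IsCoprime ξ₂ (M : 𝓞 K)) (θ : 𝓞 K) :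
    ∃ θ' s : 𝓞 K, IsCoprime s (M : 𝓞 K) ∧
      (M : 𝓞 K) ∣ θ' * (ξ₁ ^ Module.finrank F K *
          algebraMap (𝓞 F) (𝓞 K) (RingOfIntegers.norm F ξ₂)) -
        θ * s ^ l * (ξ₂ ^ Module.finrank F K *
          algebraMap (𝓞 F) (𝓞 K) (RingOfIntegers.norm F ξ₁)) ∧
      ∀ m : ℕ, m ≠ 0 → ∃ η₁ η₂ : 𝓞 K, IsCoprime η₁ (m : 𝓞 K) ∧
        IsCoprime η₂ (m : 𝓞 K) ∧ RingOfIntegers.norm F η₁ = RingOfIntegers.norm F η₂ ∧
        (M : 𝓞 K) ∣ θ' * η₂ - θ * η₁ ∧ ∃ n : ℕ, Odd n ∧ (m : 𝓞 K) ∣ η₁ ^ n - η₂ ^ n := by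
  obtain ⟨E, hE, pE⟩ := pow_card (K := K) hM
  obtain ⟨j, w, hw, rfl⟩ := Nat.exists_eq_pow_mul_and_not_dvd hE l hl.ne_one
  set n := Module.finrank F K
  let α : 𝓞 K → 𝓞 K → 𝓞 K := fun x y =>
    y ^ n * algebraMap (𝓞 F) (𝓞 K) (RingOfIntegers.norm F x)
  have cα : ∀ {m : ℕ} {x y : 𝓞 K}, IsCoprime x (m : 𝓞 K) → IsCoprime y (m : 𝓞 K) →
      IsCoprime (α x y) (m : 𝓞 K) := fun hx hy => hy.pow_left.mul_left (norm_coprime hx)
  let q := Ideal.Quotient.mk (Ideal.span {(M : 𝓞 K)})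
  obtain ⟨E', hE'⟩ := Nat.exists_eq_add_one_of_ne_zero hE
  let η := α ξ₁ ξ₂ * α ξ₂ ξ₁ ^ E'
  have cη : IsCoprime η (M : 𝓞 K) := (cα h₁ h₂).mul_left (cα h₂ h₁).pow_left
  have e1 : q η * q (α ξ₂ ξ₁) = q (α ξ₁ ξ₂) := by
    simp only [η, map_mul, map_pow]
    rw [mul_assoc, ← pow_succ, ← hE', pE _ (cα h₂ h₁), mul_one]
  let k : ℕ → ℕ := fun a => (w * 2 ^ a) ^ Nat.totient (l ^ (j + 1))
  have tp : Nat.totient (l ^ (j + 1)) ≠ 0 := (Nat.totient_pos.2 (pow_pos hl.pos _)).ne'
  have cw : w.Coprime l := ((Nat.Prime.coprime_iff_not_dvd hl).2 hw).symm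
  have k1 : ∀ a, k a ≡ 1 [MOD l ^ (j + 1)] := fun a =>
    Nat.ModEq.pow_totient (Nat.Coprime.pow_right _ (cw.mul_left
      (Nat.Coprime.pow_left _ ((Nat.coprime_primes Nat.prime_two hl).2 hl2.ne))))
  have k2 : ∀ a, w * 2 ^ a ∣ k a := fun a => dvd_pow_self _ tp
  have k3 : ∀ a, k a ≡ k 0 [MOD l ^ j * w] := fun a =>
    (Nat.modEq_and_modEq_iff_modEq_mul (cw.symm.pow_left j)).1
      ⟨((k1 a).trans (k1 0).symm).of_dvd (pow_dvd_pow l j.le_succ),
        ((Nat.modEq_zero_iff_dvd.2 ((dvd_mul_right _ _).trans (k2 a))).trans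
          (Nat.modEq_zero_iff_dvd.2 ((dvd_mul_right _ _).trans (k2 0))).symm)⟩
  have k0 : 1 ≤ k 0 := Nat.pos_of_ne_zero (pow_ne_zero _ (by
    rw [pow_zero, mul_one]
    exact right_ne_zero_of_mul hE))
  obtain ⟨s, hs⟩ := (Nat.modEq_iff_dvd' k0).1
    ((k1 0).of_dvd (dvd_pow_self l j.succ_ne_zero)).symm
  have hs' : k 0 = s * l + 1 := by rw [mul_comm, ← hs]; omega
  refine ⟨θ * η ^ k 0, η ^ s, cη.pow_left, (mk_eq _ _ _).1 ?_, fun m hm => ?_⟩
  · change q (θ * η ^ k 0 * α ξ₂ ξ₁) = q (θ * (η ^ s) ^ l * α ξ₁ ξ₂)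
    rw [map_mul q _ (α ξ₂ ξ₁), map_mul q _ (α ξ₁ ξ₂), ← e1, hs', pow_succ, pow_mul, ← mul_assoc θ,
      map_mul q _ η, mul_assoc (q _) (q η)]
  · obtain ⟨x₁, d₁, c₁⟩ := lift_coprime hm h₁
    obtain ⟨x₂, d₂, c₂⟩ := lift_coprime hm h₂
    obtain ⟨e, he, pe⟩ := pow_card (K := K) hm
    obtain ⟨a, o, ho, rfl⟩ := Nat.exists_eq_two_pow_mul_odd he
    have qα : ∀ {x y x' y' : 𝓞 K}, (M : 𝓞 K) ∣ x' - x → (M : 𝓞 K) ∣ y' - y →
        q (α x' y') = q (α x y) := fun hx hy => by
      simp only [α, map_mul, map_pow]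
      rw [(mk_eq _ _ _).2 hy, (mk_eq _ _ _).2 (norm_congr hx)]
    refine ⟨α x₁ x₂ ^ k a, α x₂ x₁ ^ k a, (cα c₁ c₂).pow_left, (cα c₂ c₁).pow_left, ?_,
      (mk_eq _ _ _).1 ?_, o, ho, (mk_eq _ _ _).1 ?_⟩
    · simp only [α, map_mul, map_pow, RingOfIntegers.norm_algebraMap]
      rw [mul_comm]
    · change q _ = q _
      rw [map_mul, map_mul, map_mul, map_pow, map_pow, map_pow, qα d₁ d₂, qα d₂ d₁, ← e1,
        pow_eq_pow_mod (k 0) (pE _ cη), ← k3 a, ← pow_eq_pow_mod (k a) (pE _ cη), mul_pow,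
        mul_assoc]
    · obtain ⟨c, hc⟩ : 2 ^ a * o ∣ k a * o :=
        Nat.mul_dvd_mul_right ((dvd_mul_left _ _).trans (k2 a)) o
      rw [← pow_mul, ← pow_mul, hc, map_pow, map_pow, pow_mul _ _ c, pow_mul _ _ c,
        pe _ (cα c₁ c₂), pe _ (cα c₂ c₁)]

theorem units_sub (F : Type) [Field F] [NumberField F] [Algebra F K] {M : ℕ} (hM : M ≠ 0) :
    ∃ U : Subgroup (𝓞 F)ˣ, U.FiniteIndex ∧ ∀ (l : ℕ) (B : Ideal (𝓞 K)) (θ : 𝓞 K) (v : Pr K),
      ∀ u ∈ U, ∀ a ∈ NSet F l M B θ v, (u : 𝓞 F) * a ∈ NSet F l M B θ v := by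
  obtain ⟨E, hE, pE⟩ := pow_card (K := K) hM
  have : Group.FG (𝓞 F)ˣ := Group.fg_iff_monoid_fg.2 inferInstance
  refine ⟨(powMonoidHom (Module.finrank F K * E)).range,
    Subgroup.finiteIndex_range_powMonoidHom_of_fg _ (mul_ne_zero Module.finrank_pos.ne' hE), ?_⟩
  rintro l B θ v _ ⟨w, rfl⟩ _ ⟨π, h1, h2, rfl⟩
  have hu : IsUnit (algebraMap (𝓞 F) (𝓞 K) w) := w.isUnit.map _
  refine ⟨algebraMap (𝓞 F) (𝓞 K) w ^ E * π, ?_, ?_, ?_⟩
  · rw [Ideal.span_singleton_mul_left_unit (hu.pow E), h1]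
  · have h3 : (M : 𝓞 K) ∣ algebraMap (𝓞 F) (𝓞 K) w ^ E - 1 := by
      rw [← mk_eq, map_pow, pE _ (by simpa using (isCoprime_mul_unit_left_left hu 1 (M : 𝓞 K)).2 isCoprime_one_left), map_one]
    have := (h3.mul_right π).add h2
    convert this using 1
    ring
  · rw [map_mul, map_pow, RingOfIntegers.norm_algebraMap, powMonoidHom_apply,
      Units.val_pow_eq_pow_val, pow_mul]

end Pool.Agent.MP_14ad9d_nt.Full.AddKAux

end
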