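import Pool.Agent.Mg.F14ad9d.Gfcb572
import Pool.Agent.Mg.F14ad9d.Gf5c998

section

/-!
The van der Corput step with a target function.
-/

open scoped BigOperators Classical ComplexConjugate Polynomial
open Finset Filter MeasureTheory Topology

noncomputable section

namespace Pool.Agent.MP_357fb4_an

variable {Y : Type} [MeasurableSpace Y] {μ : Measure Y} [IsProbabilityMeasure μ]

lemma pt2_keep {C Ω C' Ω' L : ℝ} {Q Z : ℝ[X]} (h : Cls C Ω L Q) (hC : C ≤ C') (hΩ : Ω' ≤ Ω) (t : ℝ)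
    (hZ : Z.natDegree < Q.natDegree) : Cls C' Ω' L (Polynomial.taylor t Q + Z) := by
  have h1 : Z.natDegree < (Polynomial.taylor t Q).natDegree := by
    rwa [Polynomial.natDegree_taylor]
  have h2 : (Polynomial.taylor t Q + Z).natDegree = Q.natDegree := by
    rw [Polynomial.natDegree_add_eq_left_of_natDegree_lt h1, Polynomial.natDegree_taylor]
  have h3 : (Polynomial.taylor t Q + Z).leadingCoeff = Q.leadingCoeff := by
    rw [Polynomial.leadingCoeff_add_of_degree_lt' (Polynomial.degree_lt_degree h1),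
      Polynomial.leadingCoeff_taylor]
  unfold Cls
  rw [h2, h3]
  exact ⟨h.1, h.2.1.trans hC, h.2.2.1.trans hC, hΩ.trans h.2.2.2⟩

lemma pt2_coeff {Q : ℝ[X]} {e : ℕ} (h : Q.natDegree ≤ e) (t : ℝ) :
    (Polynomial.taylor t Q).coeff e = Q.coeff e := by
  rcases h.eq_or_lt with rfl | h
  · rw [Polynomial.coeff_taylor_natDegree]; rfl
  · rw [Polynomial.coeff_eq_zero_of_natDegree_lt h,
      Polynomial.coeff_eq_zero_of_natDegree_lt (by rwa [Polynomial.natDegree_taylor])]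

lemma pt2_new {C' Ω' L m : ℝ} {Q Z : ℝ[X]} {e : ℕ} (he : 1 ≤ e) (heC : (e : ℝ) ≤ C') (t : ℝ)
    (hQ : Q.natDegree ≤ e) (hZ : Z.natDegree ≤ e) (hm : 0 < m)
    (h1 : m ≤ |Q.coeff e + Z.coeff e|) (h2 : |Q.coeff e + Z.coeff e| ≤ C') (hL : 0 ≤ L)
    (h3 : Ω' ≤ m * L ^ e) : Cls C' Ω' L (Polynomial.taylor t Q + Z) := by
  have h4 : (Polynomial.taylor t Q + Z).coeff e = Q.coeff e + Z.coeff e := by
    rw [Polynomial.coeff_add, pt2_coeff hQ]
  have h5 : (Polynomial.taylor t Q + Z).natDegree = e :=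
    Polynomial.natDegree_eq_of_le_of_coeff_ne_zero
      ((Polynomial.natDegree_add_le _ _).trans (max_le (by rwa [Polynomial.natDegree_taylor]) hZ))
      (by rw [h4]; exact abs_pos.1 (hm.trans_le h1))
  unfold Cls Polynomial.leadingCoeff
  rw [h5, h4]
  exact ⟨he, heC, h2, h3.trans (mul_le_mul_of_nonneg_right h1 (by positivity))⟩

lemma pt2_top {C Ω L : ℝ} {Q : ℝ[X]} (h : Cls C Ω L Q) {e : ℕ} (he : Q.natDegree ≤ e) :
    |Q.coeff e| ≤ C := by
  rcases he.eq_or_lt with rfl | he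
  · exact h.2.2.1
  · rw [Polynomial.coeff_eq_zero_of_natDegree_lt he, abs_zero]
    exact (abs_nonneg _).trans h.2.2.1

/-- The doubled family of functions. -/
def pt2G {ι : Type} (P : ι → ℝ[X]) (G : ι → Y → ℂ) (q : {i // (P i).natDegree ≠ 0} × Bool) :
    Y → ℂ := fun y => if q.2 then conj (G q.1 y) else G q.1 y

/-- The doubled family of exponents. -/
def pt2a {ι : Type} (P : ι → ℝ[X]) (a : ι → ℕ → ℤ) (i₀ : ι) (h h' : ℕ)
    (q : {i // (P i).natDegree ≠ 0} × Bool) (x : ℕ) : ℤ :=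
  if q.2 then a q.1 (x + h') + (a i₀ (x + h) - a i₀ (x + h')) else a q.1 (x + h)

/-- The doubled family of polynomials. -/
def pt2P {ι : Type} (P : ι → ℝ[X]) (h h' : ℕ) (q : {i // (P i).natDegree ≠ 0} × Bool) : ℝ[X] :=
  if q.2 then Polynomial.taylor (h' : ℝ) (P q.1) else Polynomial.taylor (h : ℝ) (P q.1)

lemma pt2G_B1 {ι : Type} (P : ι → ℝ[X]) {G : ι → Y → ℂ} (hG : ∀ i, B1 (G i))
    (q : {i // (P i).natDegree ≠ 0} × Bool) : B1 (pt2G P G q) := by
  unfold pt2G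
  rcases q with ⟨i, _ | _⟩
  · simpa using hG i
  · simpa using (hG i).conj

lemma pt2_reduce (S : Sys ℤ Y μ) {r : ℕ} {ι : Type} [Fintype ι] (hι : Fintype.card ι ≤ r)
    {P : ι → ℝ[X]} {p : ℝ[X]} {F : Y → ℂ} {G : ι → Y → ℂ} {a : ι → ℕ → ℤ} (hF : B1 F)
    (hG : ∀ i, B1 (G i)) {C : ℝ} (ha : ∀ i x, |(a i x : ℝ) - (P i - p).eval (x : ℝ)| ≤ C) {i₀ : ι}
    (h0 : (P i₀).natDegree = 0) {L M : ℕ} (hL : 1 ≤ L) (hM : 1 ≤ M) :
    𝔼 x ∈ range L, ‖corr S F G fun i => a i x‖ ≤ ((⌊4 * C⌋₊ + 1) ^ r : ℕ) *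
      (Real.sqrt (𝔼 h ∈ range M, 𝔼 h' ∈ range M, 𝔼 x ∈ range L,
        ‖corr S (dl S 0 (a i₀ (x + h) - a i₀ (x + h')) F) (pt2G P G)
          fun q => pt2a P a i₀ h h' q x‖) + 2 * M / L) := by
  set cl : ι → Prop := fun i => (P i).natDegree = 0
  set κ : ι → ℝ := fun i => (P i - P i₀).eval 0
  set V : Finset ({i // cl i} → ℤ) :=
    Fintype.piFinset fun i => Icc ⌈κ i - 2 * C⌉ ⌊κ i + 2 * C⌋ with hV
  have hVc : V.card ≤ (⌊4 * C⌋₊ + 1) ^ r := by
    rw [hV, Fintype.card_piFinset]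
    calc ∏ i : {i // cl i}, (Icc ⌈κ i - 2 * C⌉ ⌊κ i + 2 * C⌋).card ≤
          ∏ _i : {i // cl i}, (⌊4 * C⌋₊ + 1) := by
          refine prod_le_prod' fun i _ => ?_
          rw [Int.card_Icc, Int.toNat_le]
          have h1 := Int.le_ceil (κ i - 2 * C)
          have h2 := Int.floor_le (κ i + 2 * C)
          have h3 := Nat.lt_floor_add_one (4 * C)
          have : ((⌊κ i + 2 * C⌋ - ⌈κ i - 2 * C⌉ : ℤ) : ℝ) < ((⌊4 * C⌋₊ + 1 : ℕ) : ℤ) := by
            push_cast; linarith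
          have := Int.cast_lt.1 this
          omega
      _ = (⌊4 * C⌋₊ + 1) ^ Fintype.card {i // cl i} := by simp
      _ ≤ _ := Nat.pow_le_pow_right (by omega) ((Fintype.card_subtype_le _).trans hι)
  have hpat : ∀ x, (fun i : {i // cl i} => a i x - a i₀ x) ∈ V := fun x => by
    simp only [hV, Fintype.mem_piFinset, mem_Icc, Int.ceil_le, Int.le_floor]
    intro i
    have e : (P i - P i₀).eval (x : ℝ) = κ i := by
      simp only [κ]
      rw [Polynomial.eq_C_of_natDegree_eq_zero i.2, Polynomial.eq_C_of_natDegree_eq_zero h0]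
      simp
    have h1 := abs_le.1 (ha i x)
    have h2 := abs_le.1 (ha i₀ x)
    simp only [Polynomial.eval_sub] at e h1 h2
    push_cast
    constructor <;> linarith [h1.1, h1.2, h2.1, h2.2]
  have key := vdc (μ := μ) hL hM
    (fun x y => F (S.act (-a i₀ x) y) * ∏ i : {i // ¬ cl i}, G i (S.act (a i x - a i₀ x) y))
    (fun x y => ∏ i : {i // cl i}, G i (S.act (a i x - a i₀ x) y))
    (fun x => (hF.act S _).mul (B1.prod _ fun i _ => (hG i).act S _))
    (fun x => B1.prod _ fun i _ => (hG i).act S _) V _ hpat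
    (fun x x' h => funext fun y => prod_congr rfl fun i _ => by rw [congrFun h i])
  have e1 : ∀ x, (corr S F G fun i => a i x) = ∫ y,
      (∏ i : {i // cl i}, G i (S.act (a i x - a i₀ x) y)) *
        (F (S.act (-a i₀ x) y) * ∏ i : {i // ¬ cl i}, G i (S.act (a i x - a i₀ x) y)) ∂μ := by
    intro x
    rw [corr_shift S hF hG _ (-a i₀ x)]
    refine integral_congr_ae (Eventually.of_forall fun y => ?_)
    simp only [← sub_eq_add_neg]
    rw [← Fintype.prod_subtype_mul_prod_subtype cl]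
    ring
  have e2 : ∀ h h' x, ∫ y, (F (S.act (-a i₀ (x + h)) y) *
      ∏ i : {i // ¬ cl i}, G i (S.act (a i (x + h) - a i₀ (x + h)) y)) *
        conj (F (S.act (-a i₀ (x + h')) y) *
          ∏ i : {i // ¬ cl i}, G i (S.act (a i (x + h') - a i₀ (x + h')) y)) ∂μ =
      corr S (dl S 0 (a i₀ (x + h) - a i₀ (x + h')) F) (pt2G P G)
        fun q => pt2a P a i₀ h h' q x := by
    intro h h' x
    rw [corr_shift S (hF.dl S _ _) (pt2G_B1 P hG) _ (-a i₀ (x + h))]
    refine integral_congr_ae (Eventually.of_forall fun y => ?_)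
    simp only [dl, act_act, Fintype.prod_prod_type, Fintype.prod_bool, pt2G, pt2a, if_true,
      Bool.false_eq_true, if_false, prod_mul_distrib, map_mul, map_prod, zero_add]
    have u1 : a i₀ (x + h) - a i₀ (x + h') + -a i₀ (x + h) = -a i₀ (x + h') := by ring
    have u2 : ∀ i, a i (x + h') + (a i₀ (x + h) - a i₀ (x + h')) + -a i₀ (x + h) =
        a i (x + h') - a i₀ (x + h') := fun i => by ring
    simp only [u1, u2, ← sub_eq_add_neg]
    ring
  simp only [e1]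
  simp only [e2] at key
  exact key.trans (mul_le_mul_of_nonneg_right (by exact_mod_cast hVc) (by positivity))

lemma pt2_err {ι : Type} {P : ι → ℝ[X]} {p : ℝ[X]} {a : ι → ℕ → ℤ} {C : ℝ}
    (ha : ∀ i x, |(a i x : ℝ) - (P i - p).eval (x : ℝ)| ≤ C) {i₀ : ι}
    (h0 : (P i₀).natDegree = 0) (h h' x : ℕ) :
    |((a i₀ (x + h) - a i₀ (x + h') : ℤ) : ℝ) -
      (Polynomial.taylor (h' : ℝ) p - Polynomial.taylor (h : ℝ) p).eval (x : ℝ)| ≤ 2 * C ∧
    ∀ q, |(pt2a P a i₀ h h' q x : ℝ) -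
      (pt2P P h h' q - Polynomial.taylor (h : ℝ) p).eval (x : ℝ)| ≤ 3 * C := by
  have h1 := abs_le.1 (ha i₀ (x + h))
  have h2 := abs_le.1 (ha i₀ (x + h'))
  rw [Polynomial.eq_C_of_natDegree_eq_zero h0] at h1 h2
  simp only [Polynomial.eval_sub, Polynomial.eval_C, Nat.cast_add] at h1 h2
  constructor
  · simp only [Polynomial.eval_sub, Polynomial.taylor_eval]
    push_cast
    rw [abs_le]
    constructor <;> linarith [h1.1, h1.2, h2.1, h2.2]
  · rintro ⟨i, _ | _⟩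
    · have h3 := abs_le.1 (ha i (x + h))
      simp only [Polynomial.eval_sub, Nat.cast_add] at h3
      simp only [pt2a, pt2P, Bool.false_eq_true, if_false, Polynomial.eval_sub,
        Polynomial.taylor_eval]
      rw [abs_le]
      constructor <;> linarith [h1.1, h1.2, h3.1, h3.2]
    · have h3 := abs_le.1 (ha i (x + h'))
      simp only [Polynomial.eval_sub, Nat.cast_add] at h3
      simp only [pt2a, pt2P, if_true, Polynomial.eval_sub, Polynomial.taylor_eval]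
      push_cast
      rw [abs_le]
      constructor <;> linarith [h1.1, h1.2, h2.1, h2.2, h3.1, h3.2]

lemma pt2_mem {ι : Type} [Fintype ι] (P : ι → ℝ[X]) (h h' : ℕ)
    (q : {i // (P i).natDegree ≠ 0} × Bool) : ∃ Q ∈ univ.image P, 1 ≤ Q.natDegree ∧
      (pt2P P h h' q = Polynomial.taylor (h : ℝ) Q ∨
        pt2P P h h' q = Polynomial.taylor (h' : ℝ) Q) := by
  refine ⟨P q.1, mem_image_of_mem _ (mem_univ _), Nat.one_le_iff_ne_zero.2 q.1.2, ?_⟩
  rcases q with ⟨i, _ | _⟩ <;> simp [pt2P]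

lemma pt2_sub {ι : Type} (P : ι → ℝ[X]) (p : ℝ[X]) (h h' : ℕ)
    (i : {i // (P i).natDegree ≠ 0}) :
    pt2P P h h' (i, false) - Polynomial.taylor (h : ℝ) p =
      Polynomial.taylor (h : ℝ) (P i - p) + 0 ∧
    pt2P P h h' (i, true) - Polynomial.taylor (h : ℝ) p = Polynomial.taylor (h' : ℝ) (P i - p) +
      (Polynomial.taylor (h' : ℝ) p - Polynomial.taylor (h : ℝ) p) := by
  simp [pt2P]

lemma pt2_count {ι : Type} [Fintype ι] (γ : ι → ℝ) {c η : ℝ} (hc : c ≠ 0) (hη : 0 ≤ η) {d : ℕ}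
    (hd : 1 ≤ d) {M : ℕ} (hM : 1 ≤ η * M) :
    (((range M ×ˢ range M).filter fun q : ℕ × ℕ =>
      ∃ i, |γ i + d * c * ((q.2 : ℝ) - q.1)| < η * |c| * M).card : ℝ) ≤
        Fintype.card ι * (3 * η) * M ^ 2 := by
  have h1 : ((range M ×ˢ range M).filter fun q : ℕ × ℕ =>
      ∃ i, |γ i + d * c * ((q.2 : ℝ) - q.1)| < η * |c| * M) ⊆
      (univ ×ˢ range M).biUnion fun s : ι × ℕ => ((range M).filter fun h' : ℕ =>
        |γ s.1 + d * c * ((h' : ℝ) - s.2)| < η * |c| * M).image fun h' => (s.2, h') := by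
    intro q hq
    obtain ⟨hq, i, hi⟩ := mem_filter.1 hq
    obtain ⟨h1, h2⟩ := mem_product.1 hq
    exact mem_biUnion.2 ⟨(i, q.1), mem_product.2 ⟨mem_univ _, h1⟩,
      mem_image.2 ⟨q.2, mem_filter.2 ⟨h2, hi⟩, rfl⟩⟩
  refine le_trans (Nat.cast_le.2 ((card_le_card h1).trans card_biUnion_le)) ?_
  push_cast
  refine (sum_le_card_nsmul _ _ (3 * η * M) fun s _ => ?_).trans ?_
  · refine le_trans (Nat.cast_le.2 card_image_le) ((count_lin _ hc hη hd M s.2).trans ?_)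
    linarith
  · simp only [card_product, card_univ, card_range, nsmul_eq_mul]
    push_cast
    exact le_of_eq (by ring)

theorem ctrlT_step (S : Sys ℤ Y μ) (r : ℕ) (Φ Φ' : Finset ℝ[X] → ℝ[X] → Prop)
    (h : ∀ A p, Φ A p → 1 ≤ p.natDegree ∧ (∃ P ∈ A, P.natDegree = 0) ∧
      ∀ (h h' : ℝ) (A' : Finset ℝ[X]),
        (∀ Q ∈ A', (∃ P ∈ A, 1 ≤ P.natDegree ∧
          (Q = Polynomial.taylor h P ∨ Q = Polynomial.taylor h' P)) ∨
            (True ∧ Q = Polynomial.taylor h' p)) → Φ' A' (Polynomial.taylor h p))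
    (h' : CtrlT S (2 * r + 1) Φ') : CtrlT S r Φ := by
  obtain ⟨s, hs, h'⟩ := h'
  refine ⟨s + 1, by omega, fun C ε hε => ?_⟩
  obtain ⟨R, hR⟩ : ∃ R : ℝ, R = ((⌊4 * C⌋₊ + 1) ^ r : ℕ) := ⟨_, rfl⟩
  obtain ⟨R', hR'⟩ : ∃ R' : ℝ, R' = (⌊4 * C⌋₊ + 1 : ℕ) := ⟨_, rfl⟩
  have hR0 : 0 < R := by rw [hR]; positivity
  have hR'1 : 1 ≤ R' := by rw [hR']; exact_mod_cast Nat.le_add_left 1 _
  obtain ⟨τ, hτ⟩ : ∃ τ : ℝ, τ = ε / (4 * R) := ⟨_, rfl⟩
  have hτ0 : 0 < τ := by rw [hτ]; positivity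
  obtain ⟨η, hη⟩ : ∃ η : ℝ, η = min (min τ 1) (τ ^ 2 / (6 * (r + 1))) := ⟨_, rfl⟩
  have hη0 : 0 < η := by rw [hη]; positivity
  have hη1 : η ≤ τ := by rw [hη]; exact (min_le_left _ _).trans (min_le_left _ _)
  have hη1' : η ≤ 1 := by rw [hη]; exact (min_le_left _ _).trans (min_le_right _ _)
  have hη2 : (r + 1) * (3 * η) ≤ τ ^ 2 / 2 := by
    have : η ≤ τ ^ 2 / (6 * (r + 1)) := by rw [hη]; exact min_le_right _ _
    rw [le_div_iff₀ (by positivity)] at this
    linarith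
  obtain ⟨C₀, hC₀⟩ := chooseM C hη0
  obtain ⟨C', hC'1, hC'2⟩ : ∃ C' : ℝ, 3 * |C| ≤ C' ∧ |C| + |C| * |C₀| ≤ C' :=
    ⟨_, le_max_left _ _, le_max_right _ _⟩
  have hCC' : C ≤ C' := by linarith [le_abs_self C, abs_nonneg C]
  have hCC3 : 3 * C ≤ C' := by linarith [le_abs_self C]
  obtain ⟨δ', hδ', h'⟩ := h' C' (τ ^ 2 / (2 * R')) (by positivity)
  obtain ⟨δ₁, hδ₁, hm⟩ := count_merge S hs C (η := τ ^ 2 / 2) (by positivity) hδ'
  refine ⟨min (δ' ^ 2) δ₁, by positivity, fun K hK => ?_⟩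
  obtain ⟨Ω', h'⟩ := h' K hK
  obtain ⟨Ω₀, hΩ₀⟩ := hC₀ Ω'
  obtain ⟨Ω₁, hm⟩ := hm K hK
  refine ⟨max (max Ω' Ω₀) (max (2 / η) (2 * Ω₁ / η)),
    fun L hL ι _ hι P p hΦ hcl F G a hF hG ha hb => ?_⟩
  obtain ⟨Ω, hΩ⟩ : ∃ Ω, Ω = max (max Ω' Ω₀) (max (2 / η) (2 * Ω₁ / η)) := ⟨_, rfl⟩
  rw [← hΩ] at hL hcl
  have g1 : Ω' ≤ Ω := by rw [hΩ]; exact (le_max_left _ _).trans (le_max_left _ _)
  have g2 : Ω₀ ≤ Ω := by rw [hΩ]; exact (le_max_right _ _).trans (le_max_left _ _)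
  have g3 : 2 ≤ η * Ω := by
    rw [mul_comm, ← div_le_iff₀ hη0, hΩ]; exact (le_max_left _ _).trans (le_max_right _ _)
  have g4 : 2 * Ω₁ ≤ η * Ω := by
    rw [mul_comm η, ← div_le_iff₀ hη0, hΩ]; exact (le_max_right _ _).trans (le_max_right _ _)
  have g5 : 2 ≤ η * L := g3.trans (mul_le_mul_of_nonneg_left hL hη0.le)
  have hL0 : (0 : ℝ) < L := by nlinarith
  have hL1 : 1 ≤ L := by exact_mod_cast hL0
  have hΩ0 : 0 < Ω := by nlinarith
  obtain ⟨hd, ⟨_, hP0, h0⟩, hnext⟩ := h _ p hΦ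
  obtain ⟨i₀, -, rfl⟩ := mem_image.1 hP0
  have hlt : (P i₀).natDegree < p.natDegree := by omega
  have k0 := hcl i₀
  unfold Cls at k0
  rw [Polynomial.natDegree_sub_eq_right_of_natDegree_lt hlt,
    Polynomial.leadingCoeff_sub_of_degree_lt' (Polynomial.degree_lt_degree hlt), abs_neg] at k0
  obtain ⟨-, k1, k2, k3⟩ := k0
  have hc0 : p.leadingCoeff ≠ 0 := fun e => by
    rw [e, abs_zero, zero_mul] at k3; linarith
  have hC0 : 0 ≤ C := (abs_nonneg _).trans k2
  obtain ⟨e, he⟩ : ∃ e, p.natDegree = e + 1 := ⟨p.natDegree - 1, by omega⟩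
  have hY := fun h h' : ℕ => weyl_diff (d := e) he.le (h' : ℝ) (h : ℝ)
  have hlc : p.coeff (e + 1) = p.leadingCoeff := by rw [← he]; rfl
  have hcard : Fintype.card ({i // (P i).natDegree ≠ 0} × Bool) ≤ 2 * r := by
    rw [Fintype.card_prod, Fintype.card_bool, mul_comm]
    exact Nat.mul_le_mul_left 2 ((Fintype.card_subtype_le _).trans hι)
  have hone : ∀ h h' : ℕ, 𝔼 x ∈ range L, ‖corr S (dl S 0 (a i₀ (x + h) - a i₀ (x + h')) F)
      (pt2G P G) fun q => pt2a P a i₀ h h' q x‖ ≤ 1 := fun h h' =>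
    expect_le (nonempty_range_iff.2 (by omega)) fun x _ =>
      norm_corr_le S (hF.dl S _ _) (pt2G_B1 P hG) _
  suffices H : ∃ M : ℕ, 1 ≤ M ∧ (M : ℝ) ≤ η * L ∧ 𝔼 h ∈ range M, 𝔼 h' ∈ range M, 𝔼 x ∈ range L,
      ‖corr S (dl S 0 (a i₀ (x + h) - a i₀ (x + h')) F) (pt2G P G)
        fun q => pt2a P a i₀ h h' q x‖ ≤ τ ^ 2 / 2 + τ ^ 2 / 2 by
    obtain ⟨M, m1, m2, m3⟩ := H
    refine (pt2_reduce S hι hF hG ha h0 hL1 m1).trans ?_
    rw [← hR]
    have m4 := Real.sqrt_le_sqrt m3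
    rw [add_halves, Real.sqrt_sq hτ0.le] at m4
    have m5 : 2 * (M : ℝ) / L ≤ 2 * τ := by
      rw [div_le_iff₀ hL0]; nlinarith
    have : ε = R * (4 * τ) := by rw [hτ]; field_simp
    rw [this]
    exact mul_le_mul_of_nonneg_left (by linarith) hR0.le
  rcases Nat.eq_zero_or_pos e with rfl | he0
  · have m1 := Nat.floor_le (show 0 ≤ η * L by linarith)
    have m2 := Nat.lt_floor_add_one (η * L)
    set M := ⌊η * L⌋₊
    have m3 : η * L / 2 ≤ M := by linarith
    refine ⟨M, by exact_mod_cast (show (1 : ℝ) ≤ M by linarith), m1, ?_⟩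
    rw [he, zero_add, pow_one] at k3
    refine expect_pairs_le _ _ (by positivity) (by positivity) hone
      (hm M p.leadingCoeff k2 (by nlinarith [abs_nonneg p.leadingCoeff]) F hF
        (hb.trans (min_le_right _ _))) fun h h'' _ _ hgood => ?_
    set t := p.leadingCoeff * ((h'' : ℝ) - h) with ht
    have hZ : ∀ x : ℝ,
        (Polynomial.taylor (h'' : ℝ) p - Polynomial.taylor (h : ℝ) p).eval x = t := fun x => by
      rw [Polynomial.eq_C_of_natDegree_le_zero (hY h h'').1, (hY h h'').2, hlc, Polynomial.eval_C]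
      simp only [ht]; push_cast; ring
    have hVc : ((Icc ⌈t - 2 * C⌉ ⌊t + 2 * C⌋).card : ℝ) ≤ R' := by
      rw [hR', Nat.cast_le, Int.card_Icc, Int.toNat_le]
      have h1 := Int.le_ceil (t - 2 * C)
      have h2 := Int.floor_le (t + 2 * C)
      have h3 := Nat.lt_floor_add_one (4 * C)
      have : ((⌊t + 2 * C⌋ - ⌈t - 2 * C⌉ : ℤ) : ℝ) < ((⌊4 * C⌋₊ + 1 : ℕ) : ℤ) := by
        push_cast; linarith
      have := Int.cast_lt.1 this
      omega
    refine (pat_split L (Icc ⌈t - 2 * C⌉ ⌊t + 2 * C⌋) (fun x => a i₀ (x + h) - a i₀ (x + h''))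
      (fun x _ => ?_) (fun k x => ‖corr S (dl S 0 k F) (pt2G P G) fun q => pt2a P a i₀ h h'' q x‖)
      fun _ _ => norm_nonneg _).trans ?_
    · have := abs_le.1 (pt2_err ha h0 h h'' x).1
      rw [hZ] at this
      rw [mem_Icc, Int.ceil_le, Int.le_floor]
      constructor <;> linarith [this.1, this.2]
    refine (sum_le_card_nsmul _ _ (τ ^ 2 / (2 * R')) fun k hk => ?_).trans ?_
    · rw [mem_Icc, Int.ceil_le, Int.le_floor] at hk
      refine h' L (g1.trans hL) _ (hcard.trans (Nat.le_succ _)) (pt2P P h h'') _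
        (hnext h h'' _ fun Q hQ => ?_) (fun q => ?_) _ _ _ (hF.dl S _ _) (pt2G_B1 P hG)
        (fun q x => ((pt2_err ha h0 h h'' x).2 q).trans hCC3) ?_
      · obtain ⟨q, -, rfl⟩ := mem_image.1 hQ
        exact Or.inl (pt2_mem P h h'' q)
      · rcases q with ⟨i, _ | _⟩
        · rw [(pt2_sub P p h h'' i).1]
          exact pt2_keep (hcl i) hCC' g1 _ (by rw [Polynomial.natDegree_zero]; exact (hcl i).1)
        · rw [(pt2_sub P p h h'' i).2]
          exact pt2_keep (hcl i) hCC' g1 _ ((hY h h'').1.trans_lt (hcl i).1)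
      · exact not_lt.1 fun hlt => hgood ⟨k, abs_le.2 ⟨by linarith [hk.1], by linarith [hk.2]⟩, hlt⟩
    · rw [nsmul_eq_mul]
      calc _ ≤ R' * (τ ^ 2 / (2 * R')) := mul_le_mul_of_nonneg_right hVc (by positivity)
        _ = _ := by field_simp
  · obtain ⟨M, m1, m2, m3, m4⟩ := hΩ₀ L p.natDegree p.leadingCoeff (g2.trans hL) (by omega) k2
      (g2.trans k3)
    have hM0 : (0 : ℝ) < M := by nlinarith
    rw [he, Nat.add_sub_cancel] at m4
    rw [he] at k1
    push_cast at k1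
    have hcnt := pt2_count (fun o : Option ι => o.elim 0 fun i => (P i - p).coeff e) hc0 hη0.le
      (d := e + 1) (by omega) m1
    have hcnt2 : (Fintype.card (Option ι) : ℝ) * (3 * η) * M ^ 2 ≤ τ ^ 2 / 2 * M ^ 2 := by
      refine mul_le_mul_of_nonneg_right (le_trans ?_ hη2) (by positivity)
      rw [Fintype.card_option]
      push_cast
      have : (Fintype.card ι : ℝ) ≤ r := by exact_mod_cast hι
      gcongr
    refine ⟨M, by exact_mod_cast hM0, m2, expect_pairs_le _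
      (fun q : ℕ × ℕ => ∃ o : Option ι, |o.elim 0 (fun i => (P i - p).coeff e) +
        ((e + 1 : ℕ) : ℝ) * p.leadingCoeff * ((q.2 : ℝ) - q.1)| < η * |p.leadingCoeff| * M)
      (by positivity) (by positivity) hone
      (le_trans (le_of_eq (by congr)) (hcnt.trans hcnt2)) fun h h'' hh hh'' hgood => ?_⟩
    have hnew : ∀ (o : Option ι) (Q : ℝ[X]), Q.natDegree ≤ e →
        Q.coeff e = o.elim 0 (fun i => (P i - p).coeff e) → |Q.coeff e| ≤ C →
        Cls C' Ω' L (Polynomial.taylor (h'' : ℝ) Q +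
          (Polynomial.taylor (h'' : ℝ) p - Polynomial.taylor (h : ℝ) p)) := by
      intro o Q q1 q2 q3
      have q4 : (Polynomial.taylor (h'' : ℝ) p - Polynomial.taylor (h : ℝ) p).coeff e =
          ((e + 1 : ℕ) : ℝ) * p.leadingCoeff * ((h'' : ℝ) - h) := by
        rw [(hY h h'').2, hlc]; push_cast; ring
      refine pt2_new he0 (by linarith) _ q1 (hY h h'').1 (m := η * |p.leadingCoeff| * M)
        (by positivity) ?_ ?_ hL0.le m4
      · rw [q4, q2]
        exact not_lt.1 fun hlt => hgood ⟨o, hlt⟩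
      · rw [q4]
        refine (abs_add_le _ _).trans (le_trans (add_le_add (q3.trans (le_abs_self C)) ?_) hC'2)
        have u1 : |(h'' : ℝ) - h| ≤ M := by
          have : (h : ℝ) < M := by exact_mod_cast hh
          have : (h'' : ℝ) < M := by exact_mod_cast hh''
          rw [abs_le]
          constructor <;> linarith [(h.cast_nonneg : (0 : ℝ) ≤ h), (h''.cast_nonneg : (0 : ℝ) ≤ h'')]
        rw [mul_assoc, abs_mul, abs_mul]
        refine mul_le_mul ?_ ?_ (by positivity) (abs_nonneg _)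
        · rw [Nat.abs_cast]; push_cast; linarith [le_abs_self C]
        · exact (mul_le_mul_of_nonneg_left u1 (abs_nonneg _)).trans (m3.trans (le_abs_self _))
    have key := h' L (g1.trans hL) (Option ({i // (P i).natDegree ≠ 0} × Bool))
      (by rw [Fintype.card_option]; omega)
      (fun o => o.elim (Polynomial.taylor (h'' : ℝ) p) (pt2P P h h'')) _
      (hnext h h'' _ fun Q hQ => by
        obtain ⟨o, -, rfl⟩ := mem_image.1 hQ
        cases o with
        | none => exact Or.inr ⟨trivial, rfl⟩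
        | some q => exact Or.inl (pt2_mem P h h'' q))
      (fun o => by
        rcases o with _ | ⟨i, _ | _⟩
        · simpa using hnew none 0 (by simp) (by simp) (by simpa using hC0)
        · simp only [Option.elim]
          rw [(pt2_sub P p h h'' i).1]
          exact pt2_keep (hcl i) hCC' g1 _ (by rw [Polynomial.natDegree_zero]; exact (hcl i).1)
        · simp only [Option.elim]
          rw [(pt2_sub P p h h'' i).2]
          rcases le_or_gt (P i - p).natDegree e with u | u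
          · exact hnew (some i) _ u rfl (pt2_top (hcl i) u)
          · exact pt2_keep (hcl i) hCC' g1 _ ((hY h h'').1.trans_lt u))
      F (fun o => o.elim (fun y => conj (F y)) (pt2G P G))
      (fun o x => o.elim (a i₀ (x + h) - a i₀ (x + h'')) fun q => pt2a P a i₀ h h'' q x) hF
      (fun o => by
        cases o with
        | none => exact hF.conj
        | some q => exact pt2G_B1 P hG q)
      (fun o x => by
        cases o with
        | none => exact (pt2_err ha h0 h h'' x).1.trans (by linarith)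
        | some q => exact ((pt2_err ha h0 h h'' x).2 q).trans hCC3)
      (abs_le_of_sq_le_sq' ((box_sq_le S hK _ hF).trans (hb.trans (min_le_left _ _))) hδ'.le).2
    refine le_trans (le_of_eq (expect_congr rfl fun x _ => ?_)) (key.trans ?_)
    · simp only [corr, dl, Fintype.prod_option, Option.elim, S.act_zero, mul_assoc]
    · exact div_le_div_of_nonneg_left (by positivity) (by norm_num) (by linarith)

end Pool.Agent.MP_357fb4_an

end
end

section

/-!
Local control by box averages.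
-/

open scoped BigOperators Classical ComplexConjugate Polynomial
open Finset Filter MeasureTheory Topology

noncomputable section

namespace Pool.Agent.MP_357fb4_an

variable {Y : Type} [MeasurableSpace Y] {μ : Measure Y} [IsProbabilityMeasure μ]

lemma loc_cls {C C' Ω Ω' L : ℝ} {Q : ℝ[X]} (hC : C ≤ C') (hΩ : Ω' ≤ Ω) (h : Cls C Ω L Q) :
    Cls C' Ω' L Q := ⟨h.1, h.2.1.trans hC, h.2.2.1.trans hC, hΩ.trans h.2.2.2⟩

/-- Control by the box average of a given order. -/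
def locBody (S : Sys ℤ Y μ) (r : ℕ) (Φ : Finset ℝ[X] → ℝ[X] → Prop) (s : ℕ) : Prop :=
  ∀ C ε : ℝ, 0 < ε → ∃ δ : ℝ, 0 < δ ∧ ∀ K : ℕ, 1 ≤ K → ∃ Ω : ℝ, ∀ L : ℕ, Ω ≤ L →
    ∀ (ι : Type) [Fintype ι], Fintype.card ι ≤ r → ∀ (P : ι → ℝ[X]) (p : ℝ[X]),
      Φ (univ.image P) p → (∀ i, Cls C Ω L (P i - p)) →
      ∀ (F : Y → ℂ) (G : ι → Y → ℂ) (a : ι → ℕ → ℤ), B1 F → (∀ i, B1 (G i)) →
        (∀ i x, |(a i x : ℝ) - (P i - p).eval (x : ℝ)| ≤ C) → box S (List.replicate s K) F ≤ δ →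
          𝔼 x ∈ range L, ‖corr S F G fun i => a i x‖ ≤ ε

lemma loc_succ {S : Sys ℤ Y μ} {r : ℕ} {Φ : Finset ℝ[X] → ℝ[X] → Prop} {s : ℕ}
    (h : locBody S r Φ s) : locBody S r Φ (s + 1) := by
  intro C ε hε
  obtain ⟨δ, hδ, h⟩ := h C ε hε
  refine ⟨δ ^ 2, by positivity, fun K hK => ?_⟩
  obtain ⟨Ω, h⟩ := h K hK
  refine ⟨Ω, fun L hL ι _ hι P p hΦ hcl F G a hF hG ha hb => h L hL ι hι P p hΦ hcl F G a hF hG ha ?_⟩
  have := (box_sq_le S hK (List.replicate s K) hF).trans hb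
  exact (abs_le_of_sq_le_sq' this hδ.le).2

lemma loc_mono {S : Sys ℤ Y μ} {r : ℕ} {Φ : Finset ℝ[X] → ℝ[X] → Prop} {s s' : ℕ} (hs : s ≤ s')
    (h : locBody S r Φ s) : locBody S r Φ s' := by
  induction hs with
  | refl => exact h
  | step _ ih => exact loc_succ ih

theorem petAx_T (S : Sys ℤ Y μ) : PetAx True (CtrlT S) := by
  refine ⟨fun r Φ Φ' h h' => ?_, fun r Φ₁ Φ₂ h₁ h₂ => ?_, fun r Φ Φ' h h' => ctrlT_step S r Φ Φ' h h'⟩
  · obtain ⟨s, hs, h'⟩ := h'
    refine ⟨s, hs, fun C ε hε => ?_⟩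
    obtain ⟨δ, hδ, h'⟩ := h' C ε hε
    refine ⟨δ, hδ, fun K hK => ?_⟩
    obtain ⟨Ω, h'⟩ := h' K hK
    refine ⟨Ω, fun L hL ι _ hι P p hΦ hcl F G a hF hG ha hb => ?_⟩
    obtain ⟨Z, hZ⟩ := h _ p (card_image_le.trans (by simpa using hι)) hΦ
    rw [image_image] at hZ
    exact h' L hL ι hι (fun i => P i - Z) (p - Z) hZ
      (by simpa only [sub_sub_sub_cancel_right] using hcl) F G a hF hG
      (by simpa only [sub_sub_sub_cancel_right] using ha) hb
  · obtain ⟨s₁, hs₁, h₁⟩ := h₁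
    obtain ⟨s₂, -, h₂⟩ := h₂
    have g₁ := loc_mono (le_max_left s₁ s₂) (show locBody S r Φ₁ s₁ from h₁)
    have g₂ := loc_mono (le_max_right s₁ s₂) (show locBody S r Φ₂ s₂ from h₂)
    refine ⟨max s₁ s₂, hs₁.trans (le_max_left _ _), fun C ε hε => ?_⟩
    obtain ⟨δ₁, hδ₁, g₁⟩ := g₁ C ε hε
    obtain ⟨δ₂, hδ₂, g₂⟩ := g₂ C ε hε
    refine ⟨min δ₁ δ₂, lt_min hδ₁ hδ₂, fun K hK => ?_⟩
    obtain ⟨Ω₁, g₁⟩ := g₁ K hK
    obtain ⟨Ω₂, g₂⟩ := g₂ K hK
    refine ⟨max Ω₁ Ω₂, fun L hL ι _ hι P p hΦ hcl F G a hF hG ha hb => ?_⟩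
    rcases hΦ with hΦ | hΦ
    · exact g₁ L ((le_max_left _ _).trans hL) ι hι P p hΦ
        (fun i => loc_cls le_rfl (le_max_left _ _) (hcl i)) F G a hF hG ha
        (hb.trans (min_le_left _ _))
    · exact g₂ L ((le_max_right _ _).trans hL) ι hι P p hΦ
        (fun i => loc_cls le_rfl (le_max_right _ _) (hcl i)) F G a hF hG ha
        (hb.trans (min_le_right _ _))

theorem base_T (S : Sys ℤ Y μ) (r : ℕ) :
    CtrlT S r fun A p => ∀ Q ∈ A, (Q - p).natDegree = 0 := by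
  refine ⟨1, le_rfl, fun C ε hε => ⟨ε ^ 2, by positivity, fun K hK => ⟨1,
    fun L hL ι _ hι P p hΦ hcl F G a hF hG ha hb => ?_⟩⟩⟩
  have hι0 : IsEmpty ι := ⟨fun i => by
    have h1 := hΦ (P i) (mem_image_of_mem P (mem_univ i))
    have h2 := (hcl i).1
    omega⟩
  have hL1 : 1 ≤ L := by exact_mod_cast hL
  refine expect_le (nonempty_range_iff.2 (by omega)) fun x _ => ?_
  have h1 : corr S F G (fun i => a i x) = ∫ y, F y ∂μ := by simp [corr]
  rw [h1]
  exact (pow_le_pow_iff_left₀ (norm_nonneg _) hε.le two_ne_zero).1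
    ((sq_norm_integral_le_box S hK hF).trans hb)

theorem loc (S : Sys ℤ Y μ) (r D : ℕ) : ∃ s : ℕ, 1 ≤ s ∧ ∀ C ε : ℝ, 0 < ε → ∃ C₁ : ℝ, 0 ≤ C₁ ∧
    ∀ K : ℕ, 1 ≤ K → ∃ Ω : ℝ, ∀ L : ℕ, Ω ≤ L → ∀ (ι : Type) [Fintype ι], Fintype.card ι ≤ r →
      ∀ (cl : ι → Prop) (Q : ι → ℝ[X]), (∀ i, (Q i).natDegree ≤ D) →
        (∀ i, cl i → (Q i).natDegree = 0) → (∀ i, ¬ cl i → Cls C Ω L (Q i)) →
        ∀ (F : Y → ℂ) (G : ι → Y → ℂ) (a : ι → ℕ → ℤ), B1 F → (∀ i, B1 (G i)) →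
          (∀ i x, x < L → |(a i x : ℝ) - (Q i).eval (x : ℝ)| ≤ C) →
            ∃ v : {i // cl i} → ℤ, (∀ i, |(v i : ℝ) - (Q i).eval 0| ≤ C) ∧
              𝔼 x ∈ range L, ‖corr S F G fun i => a i x‖ ≤ ε + C₁ * box S (List.replicate s K)
                fun y => F y * ∏ i : {i // cl i}, G i (S.act (v i) y) := by
  obtain ⟨s, hs, h⟩ := pet_target (petAx_T S) (base_T S) r D
  refine ⟨s, hs, fun C ε hε => ?_⟩
  set R : ℕ := (⌊2 * C⌋₊ + 1) ^ r with hR
  have hR0 : (0 : ℝ) < R := by rw [hR]; positivity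
  obtain ⟨δ, hδ, h⟩ := h (max C 1) (ε / R) (by positivity)
  refine ⟨R / δ, by positivity, fun K hK => ?_⟩
  obtain ⟨Ω, h⟩ := h K hK
  refine ⟨max Ω 1, fun L hL ι _ hι cl Q hD hcl hncl F G a hF hG ha => ?_⟩
  have hL1 : 1 ≤ L := by exact_mod_cast (le_max_right _ _).trans hL
  set V : Finset ({i // cl i} → ℤ) :=
    Fintype.piFinset fun i => Icc ⌈(Q i).eval 0 - C⌉ ⌊(Q i).eval 0 + C⌋ with hV
  have hVm : ∀ v : {i // cl i} → ℤ, v ∈ V ↔ ∀ i, |(v i : ℝ) - (Q i).eval 0| ≤ C := fun v => by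
    simp only [hV, Fintype.mem_piFinset, mem_Icc, Int.ceil_le, Int.le_floor, abs_le]
    exact forall_congr' fun i => ⟨fun h => ⟨by linarith [h.1], by linarith [h.2]⟩,
      fun h => ⟨by linarith [h.1], by linarith [h.2]⟩⟩
  have hVc : V.card ≤ R := by
    rw [hV, Fintype.card_piFinset]
    calc ∏ i : {i // cl i}, (Icc ⌈(Q i).eval 0 - C⌉ ⌊(Q i).eval 0 + C⌋).card ≤
          ∏ _i : {i // cl i}, (⌊2 * C⌋₊ + 1) := by
          refine prod_le_prod' fun i _ => ?_
          rw [Int.card_Icc, Int.toNat_le]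
          have h1 := Int.floor_le ((Q i).eval 0 + C)
          have h2 := Int.le_ceil ((Q i).eval 0 - C)
          have h3 := Nat.lt_floor_add_one (2 * C)
          have h4 : ((⌊(Q i).eval 0 + C⌋ - ⌈(Q i).eval 0 - C⌉ : ℤ) : ℝ) <
              ((⌊2 * C⌋₊ + 1 : ℤ) : ℝ) := by
            push_cast; linarith
          have h5 := Int.cast_lt.1 h4
          push_cast
          omega
      _ = (⌊2 * C⌋₊ + 1) ^ Fintype.card {i // cl i} := by simp
      _ ≤ R := Nat.pow_le_pow_right (Nat.succ_pos _) ((Fintype.card_subtype_le _).trans hι)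
  set pat : ℕ → {i // cl i} → ℤ := fun x i => a i x with hpat
  have hpV : ∀ x, x < L → pat x ∈ V := fun x hx => (hVm _).2 fun i => by
    have h1 := ha i x hx
    rw [Polynomial.eq_C_of_natDegree_eq_zero (hcl i i.2)] at h1 ⊢
    simpa using h1
  set Fv : ({i // cl i} → ℤ) → Y → ℂ := fun v y => F y * ∏ i : {i // cl i}, G i (S.act (v i) y)
    with hFv
  have hFv1 : ∀ v, B1 (Fv v) := fun v => corr_B1 S hF (fun i : {i // cl i} => hG i) v
  set a' : {i // ¬ cl i} → ℕ → ℤ := fun i x => if x < L then a i x else ⌊(Q i).eval (x : ℝ)⌋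
    with ha'
  set Φ : ({i // cl i} → ℤ) → ℕ → ℝ := fun v x =>
    ‖corr S (Fv v) (fun i : {i // ¬ cl i} => G i) fun i => a' i x‖ with hΦ
  have hne : List.replicate s K ≠ [] := by
    rw [Ne, List.replicate_eq_nil_iff]; omega
  have hb0 : ∀ v, 0 ≤ box S (List.replicate s K) (Fv v) := fun v => box_nonneg S hne (hFv1 v)
  have key : ∀ v, 𝔼 x ∈ range L, Φ v x ≤ ε / R + box S (List.replicate s K) (Fv v) / δ := fun v => by
    by_cases hb : box S (List.replicate s K) (Fv v) ≤ δ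
    · refine le_trans (h L ((le_max_left _ _).trans hL) {i // ¬ cl i}
        ((Fintype.card_subtype_le _).trans hι) (fun i => Q i) 0 ?_ ?_ (Fv v) (fun i => G i) a'
        (hFv1 v) (fun i => hG i) ?_ hb) (le_add_of_nonneg_right (div_nonneg (hb0 v) hδ.le))
      · intro P hP
        obtain ⟨i, -, rfl⟩ := mem_image.1 hP
        rw [sub_zero]; exact hD i
      · intro i
        rw [sub_zero]
        exact loc_cls (le_max_left _ _) (le_max_left _ _) (hncl i i.2)
      · intro i x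
        rw [sub_zero]
        simp only [ha']
        split_ifs with hx
        · exact (ha i x hx).trans (le_max_left _ _)
        · refine le_trans ?_ (le_max_right _ _)
          rw [abs_le]
          constructor <;>
            linarith [Int.floor_le ((Q i).eval (x : ℝ)), Int.lt_floor_add_one ((Q i).eval (x : ℝ))]
    · have h1 : 𝔼 x ∈ range L, Φ v x ≤ 1 := expect_le (nonempty_range_iff.2 (by omega)) fun x _ =>
        norm_corr_le S (hFv1 v) (fun i : {i // ¬ cl i} => hG i) _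
      have h2 : 1 ≤ box S (List.replicate s K) (Fv v) / δ := by
        rw [le_div_iff₀ hδ]; linarith
      have h3 : 0 ≤ ε / R := by positivity
      linarith
  obtain ⟨v, hv, hmax⟩ := exists_max_image V (fun v => box S (List.replicate s K) (Fv v))
    ⟨_, hpV 0 hL1⟩
  refine ⟨v, (hVm v).1 hv, ?_⟩
  have e1 : 𝔼 x ∈ range L, ‖corr S F G fun i => a i x‖ = 𝔼 x ∈ range L, Φ (pat x) x := by
    refine expect_congr rfl fun x hx => ?_
    simp only [hΦ, hFv, hpat, ha', corr, if_pos (mem_range.1 hx), mul_assoc]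
    congr 2
    funext y
    rw [Fintype.prod_subtype_mul_prod_subtype cl fun i => G i (S.act (a i x) y)]
  rw [e1]
  refine (pat_split L V pat hpV Φ fun _ _ => norm_nonneg _).trans ?_
  have hVR : (V.card : ℝ) ≤ R := by exact_mod_cast hVc
  calc ∑ k ∈ V, 𝔼 x ∈ range L, Φ k x ≤
        ∑ _k ∈ V, (ε / R + box S (List.replicate s K) (Fv v) / δ) :=
        sum_le_sum fun k hk => (key k).trans (by gcongr; exact hmax k hk)
    _ = V.card * (ε / R + box S (List.replicate s K) (Fv v) / δ) := by simp [mul_add]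
    _ ≤ R * (ε / R + box S (List.replicate s K) (Fv v) / δ) :=
        mul_le_mul_of_nonneg_right hVR (add_nonneg (by positivity) (div_nonneg (hb0 v) hδ.le))
    _ = ε + R / δ * box S (List.replicate s K) (Fv v) := by field_simp

end Pool.Agent.MP_357fb4_an

end
end
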