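import Pool.Agent.Mg.F14ad9d.Gf5c998

section

/-!
Box averages.
-/

open scoped BigOperators Classical ComplexConjugate Polynomial
open Finset Filter MeasureTheory Topology

noncomputable section

namespace Pool.Agent.MP_357fb4_an

variable {Y : Type} [MeasurableSpace Y] {μ : Measure Y} [IsProbabilityMeasure μ]

lemma Box_abs_expect {ι : Type*} (s : Finset ι) {f : ι → ℝ} (hf : ∀ i ∈ s, |f i| ≤ 1) :
    |𝔼 i ∈ s, f i| ≤ 1 := by
  rcases s.eq_empty_or_nonempty with rfl | hs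
  · simp
  · rw [abs_le]
    exact ⟨le_expect hs fun i hi => (abs_le.1 (hf i hi)).1,
      expect_le hs fun i hi => (abs_le.1 (hf i hi)).2⟩

lemma Box_expect_add {ι : Type*} (s : Finset ι) {f g : ι → ℝ} {c : ℝ} (hc : 0 ≤ c)
    (h : ∀ i ∈ s, f i ≤ g i + c) : 𝔼 i ∈ s, f i ≤ 𝔼 i ∈ s, g i + c := by
  rcases s.eq_empty_or_nonempty with rfl | hs
  · simpa using hc
  · calc 𝔼 i ∈ s, f i ≤ 𝔼 i ∈ s, (g i + c) := expect_le_expect h
      _ = _ := by rw [expect_add_distrib, expect_const hs]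

lemma Box_sq_expect {ι : Type*} (s : Finset ι) (f : ι → ℝ) :
    (𝔼 i ∈ s, f i) ^ 2 ≤ 𝔼 i ∈ s, f i ^ 2 := by
  have h1 : |𝔼 i ∈ s, f i| ≤ 𝔼 i ∈ s, |f i| := by
    rw [abs_le]
    refine ⟨?_, expect_le_expect fun i _ => le_abs_self _⟩
    rw [← expect_neg_distrib]
    exact expect_le_expect fun i _ => neg_abs_le _
  calc (𝔼 i ∈ s, f i) ^ 2 = |𝔼 i ∈ s, f i| ^ 2 := (sq_abs _).symm
    _ ≤ (𝔼 i ∈ s, |f i|) ^ 2 := pow_le_pow_left₀ (abs_nonneg _) h1 2
    _ ≤ 𝔼 i ∈ s, |f i| ^ 2 := pow_expect_le s (fun _ _ => abs_nonneg _) two_ne_zero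
    _ = _ := by simp only [sq_abs]

lemma Box_comm4 (s t : Finset ℕ) (F : ℕ → ℕ → ℕ → ℕ → ℝ) :
    𝔼 a ∈ s, 𝔼 b ∈ s, 𝔼 c ∈ t, 𝔼 d ∈ t, F a b c d =
      𝔼 c ∈ t, 𝔼 d ∈ t, 𝔼 a ∈ s, 𝔼 b ∈ s, F a b c d := by
  calc 𝔼 a ∈ s, 𝔼 b ∈ s, 𝔼 c ∈ t, 𝔼 d ∈ t, F a b c d
      = 𝔼 a ∈ s, 𝔼 c ∈ t, 𝔼 d ∈ t, 𝔼 b ∈ s, F a b c d := by
        refine expect_congr rfl fun a _ => ?_
        rw [expect_comm]
        exact expect_congr rfl fun c _ => expect_comm _ _ _
    _ = _ := by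
        rw [expect_comm]
        exact expect_congr rfl fun c _ => expect_comm _ _ _

lemma Box_shift_sum (u : ℕ → ℂ) (hu : ∀ n, ‖u n‖ ≤ 1) (N k : ℕ) :
    ‖∑ h ∈ range N, u h - ∑ h ∈ range N, u (k + h)‖ ≤ 2 * k := by
  have h1 := sum_range_add u N k
  have h2 := sum_range_add u k N
  rw [add_comm k N] at h2
  have h3 : ∑ h ∈ range N, u h - ∑ h ∈ range N, u (k + h) =
      ∑ j ∈ range k, u j - ∑ j ∈ range k, u (N + j) := by
    linear_combination h2 - h1
  have h4 : ∀ v : ℕ → ℂ, (∀ n, ‖v n‖ ≤ 1) → ‖∑ j ∈ range k, v j‖ ≤ k := fun v hv =>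
    (norm_sum_le _ _).trans (by
      simpa using sum_le_card_nsmul (range k) (fun j => ‖v j‖) 1 fun j _ => hv j)
  rw [h3]
  have := h4 u hu
  have := h4 (fun j => u (N + j)) fun j => hu _
  linarith [norm_sub_le (∑ j ∈ range k, u j) (∑ j ∈ range k, u (N + j))]

lemma Box_avg_diff (u : ℕ → ℂ) (hu : ∀ n, ‖u n‖ ≤ 1) {K K' : ℕ} (hK : 1 ≤ K) (hK' : 1 ≤ K') :
    ‖𝔼 h ∈ range K', u h - 𝔼 h ∈ range K', 𝔼 k ∈ range K, u (k + h)‖ ≤ 2 * K / K' := by
  have hs : (range K).Nonempty := nonempty_range_iff.2 (by omega)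
  have hp : (0 : ℝ) < K' := by exact_mod_cast hK'
  rw [expect_comm, ← expect_const hs (𝔼 h ∈ range K', u h), ← expect_sub_distrib]
  refine (norm_expect_le' _ _).trans (expect_le hs fun k hk => ?_)
  simp only [expect_eq_sum_div_card, card_range]
  rw [← sub_div, norm_div, Complex.norm_natCast]
  refine div_le_div_of_nonneg_right ((Box_shift_sum u hu K' k).trans ?_) hp.le
  have : (k : ℝ) ≤ K := by exact_mod_cast (mem_range.1 hk).le
  linarith

lemma Box_int_sq {g : Y → ℂ} (hg : B1 g) : Integrable (fun y => ‖g y‖ ^ 2) μ :=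
  Integrable.of_bound (hg.1.norm.pow_const 2).aestronglyMeasurable 1
    (Eventually.of_forall fun y => by
      rw [Real.norm_of_nonneg (by positivity)]
      exact pow_le_one₀ (norm_nonneg _) (hg.2 y))

omit [IsProbabilityMeasure μ] in
lemma Box_avg_B1 (S : Sys ℤ Y μ) (K : ℕ) {f : Y → ℂ} (hf : B1 f) :
    B1 fun y => 𝔼 h ∈ range K, f (S.act (h : ℕ) y) :=
  B1.expect (range K) (f := fun (h : ℕ) y => f (S.act (h : ℕ) y)) fun h _ => hf.act S _

theorem abs_box_le (S : Sys ℤ Y μ) (l : List ℕ) {f : Y → ℂ} (hf : B1 f) : |box S l f| ≤ 1 := by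
  induction l generalizing f with
  | nil => exact (Complex.abs_re_le_norm _).trans hf.norm_integral
  | cons K l ih =>
    exact Box_abs_expect _ fun h _ => Box_abs_expect _ fun h' _ => ih (hf.dl S _ _)

theorem box_shift (S : Sys ℤ Y μ) (l : List ℕ) (n : ℤ) {f : Y → ℂ} (hf : B1 f) :
    box S l (fun y => f (S.act n y)) = box S l f := by
  induction l generalizing f with
  | nil => simp only [box]; rw [integral_act S n hf.1]
  | cons K l ih =>
    simp only [box]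
    refine expect_congr rfl fun h _ => expect_congr rfl fun h' _ => ?_
    rw [← ih (hf.dl S _ _)]
    congr 1
    funext y
    simp only [dl, act_act, add_comm n]

theorem box_conj (S : Sys ℤ Y μ) (l : List ℕ) {f : Y → ℂ} (hf : B1 f) :
    box S l (fun y => conj (f y)) = box S l f := by
  induction l generalizing f with
  | nil => simp only [box]; rw [integral_conj, Complex.conj_re]
  | cons K l ih =>
    simp only [box]
    refine expect_congr rfl fun h _ => expect_congr rfl fun h' _ => ?_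
    rw [← ih (hf.dl S _ _)]
    congr 1
    funext y
    simp only [dl, map_mul]

theorem box_dl (S : Sys ℤ Y μ) (l : List ℕ) (h h' : ℤ) {f : Y → ℂ} (hf : B1 f) :
    box S l (dl S h h' f) = box S l (dl S 0 (h' - h) f) := by
  rw [← box_shift S l h (hf.dl S 0 (h' - h))]
  congr 1
  funext y
  simp only [dl, act_act, zero_add, sub_add_cancel]

theorem box_perm (S : Sys ℤ Y μ) {l l' : List ℕ} (h : l.Perm l') {f : Y → ℂ} (hf : B1 f) :
    box S l f = box S l' f := by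
  induction h generalizing f with
  | nil => rfl
  | cons K _ ih =>
    simp only [box]
    exact expect_congr rfl fun h _ => expect_congr rfl fun h' _ => ih (hf.dl S _ _)
  | swap K K' l =>
    simp only [box]
    rw [Box_comm4]
    refine expect_congr rfl fun a _ => expect_congr rfl fun b _ => expect_congr rfl fun c _ =>
      expect_congr rfl fun d _ => ?_
    congr 1
    funext y
    simp only [dl, act_act, map_mul, Complex.conj_conj, add_comm (c : ℤ), add_comm (d : ℤ)]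
    ring
  | trans _ _ ih1 ih2 => exact (ih1 hf).trans (ih2 hf)

theorem box_one (S : Sys ℤ Y μ) (K : ℕ) {f : Y → ℂ} (hf : B1 f) :
    box S [K] f = ∫ y, ‖𝔼 h ∈ range K, f (S.act (h : ℕ) y)‖ ^ 2 ∂μ := by
  have hi : ∀ h h' : ℕ, Integrable
      (fun y => (f (S.act (h : ℕ) y) * conj (f (S.act (h' : ℕ) y))).re) μ := fun h h' =>
    (hf.dl S h h').integrable.re
  simp only [sq_norm_expect]
  rw [integral_expect_real _ fun h _ => ?_]
  · simp only [box]
    refine expect_congr rfl fun h _ => ?_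
    rw [integral_expect_real _ fun h' _ => hi h h']
    refine expect_congr rfl fun h' _ => ?_
    exact (integral_re (hf.dl S h h').integrable).symm
  · simp only [expect_eq_sum_div_card]
    exact (integrable_finsetSum _ fun h' _ => hi h h').div_const _

lemma Box_nonneg_last (S : Sys ℤ Y μ) (K : ℕ) (l : List ℕ) {f : Y → ℂ} (hf : B1 f) :
    0 ≤ box S (l ++ [K]) f := by
  induction l generalizing f with
  | nil => rw [List.nil_append, box_one S K hf]; positivity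
  | cons L l ih =>
    simp only [List.cons_append, box]
    exact expect_nonneg fun h _ => expect_nonneg fun h' _ => ih (hf.dl S _ _)

theorem box_nonneg (S : Sys ℤ Y μ) {l : List ℕ} (hl : l ≠ []) {f : Y → ℂ} (hf : B1 f) :
    0 ≤ box S l f := by
  obtain ⟨K, l, rfl⟩ := List.exists_cons_of_ne_nil hl
  rw [← box_perm S (List.perm_append_singleton K l) hf]
  exact Box_nonneg_last S K l hf

lemma Box_mono_one (S : Sys ℤ Y μ) {K K' : ℕ} (hK : 1 ≤ K) (hK' : 1 ≤ K') {f : Y → ℂ}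
    (hf : B1 f) : box S [K'] f ≤ box S [K] f + 4 * K / K' := by
  rw [box_one S K hf, box_one S K' hf]
  set g : Y → ℂ := fun y => 𝔼 h ∈ range K, f (S.act (h : ℕ) y) with hgd
  have hg : B1 g := Box_avg_B1 S K hf
  have hs : (range K').Nonempty := nonempty_range_iff.2 (by omega)
  have hi : ∀ h : ℕ, Integrable (fun y => ‖g (S.act (h : ℕ) y)‖ ^ 2) μ := fun h =>
    Box_int_sq (hg.act S _)
  have hi' : Integrable (fun y => 𝔼 h ∈ range K', ‖g (S.act (h : ℕ) y)‖ ^ 2) μ := by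
    simp only [expect_eq_sum_div_card]
    exact (integrable_finsetSum _ fun h _ => hi h).div_const _
  have h1 : ∀ y, ‖𝔼 h ∈ range K', f (S.act (h : ℕ) y)‖ ^ 2 ≤
      𝔼 h ∈ range K', ‖g (S.act (h : ℕ) y)‖ ^ 2 + 4 * K / K' := by
    intro y
    have e1 := Box_avg_diff (fun n => f (S.act (n : ℕ) y)) (fun n => hf.2 _) hK hK'
    have e2 : 𝔼 h ∈ range K', 𝔼 k ∈ range K, f (S.act ((k + h : ℕ) : ℤ) y) =
        𝔼 h ∈ range K', g (S.act (h : ℕ) y) := by
      simp only [hgd, act_act, Nat.cast_add]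
    rw [e2] at e1
    have e3 := (Box_avg_B1 S K' hf).2 y
    have e4 := (Box_avg_B1 S K' hg).2 y
    have e5 : ‖𝔼 h ∈ range K', g (S.act (h : ℕ) y)‖ ^ 2 ≤
        𝔼 h ∈ range K', ‖g (S.act (h : ℕ) y)‖ ^ 2 :=
      (pow_le_pow_left₀ (norm_nonneg _) (norm_expect_le' _ _) 2).trans (Box_sq_expect _ _)
    have e6 := norm_sub_norm_le (𝔼 h ∈ range K', f (S.act (h : ℕ) y))
      (𝔼 h ∈ range K', g (S.act (h : ℕ) y))
    have e7 : (0 : ℝ) ≤ 2 * K / K' := by positivity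
    have e8 : (4 * K / K' : ℝ) = 2 * (2 * K / K') := by ring
    rw [e8]
    generalize (2 * K / K' : ℝ) = t at *
    have e9 := norm_nonneg (𝔼 h ∈ range K', f (S.act (h : ℕ) y))
    have e10 := norm_nonneg (𝔼 h ∈ range K', g (S.act (h : ℕ) y))
    generalize ‖𝔼 h ∈ range K', f (S.act (h : ℕ) y)‖ = a at *
    generalize ‖𝔼 h ∈ range K', g (S.act (h : ℕ) y)‖ = b at *
    have e11 : a - b ≤ t := e6.trans e1
    nlinarith [mul_nonneg (sub_nonneg.2 e11) (add_nonneg e9 e10),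
      mul_nonneg e7 (sub_nonneg.2 e3), mul_nonneg e7 (sub_nonneg.2 e4)]
  calc ∫ y, ‖𝔼 h ∈ range K', f (S.act (h : ℕ) y)‖ ^ 2 ∂μ
      ≤ ∫ y, (𝔼 h ∈ range K', ‖g (S.act (h : ℕ) y)‖ ^ 2 + 4 * K / K') ∂μ :=
        integral_mono (Box_int_sq (Box_avg_B1 S K' hf)) (hi'.add (integrable_const _)) h1
    _ = ∫ y, ‖g y‖ ^ 2 ∂μ + 4 * K / K' := by
        rw [integral_add hi' (integrable_const _), integral_expect_real _ fun h _ => hi h]
        simp only [integral_const, probReal_univ, one_smul]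
        congr 1
        rw [expect_congr rfl fun (h : ℕ) _ =>
          integral_act_real S (h : ℤ) (f := fun y => ‖g y‖ ^ 2) (hg.1.norm.pow_const 2),
          expect_const hs]

lemma Box_mono_last (S : Sys ℤ Y μ) {K K' : ℕ} (hK : 1 ≤ K) (hK' : 1 ≤ K') (l : List ℕ)
    {f : Y → ℂ} (hf : B1 f) : box S (l ++ [K']) f ≤ box S (l ++ [K]) f + 4 * K / K' := by
  induction l generalizing f with
  | nil => exact Box_mono_one S hK hK' hf
  | cons L l ih =>
    simp only [List.cons_append, box]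
    exact Box_expect_add _ (by positivity) fun h _ =>
      Box_expect_add _ (by positivity) fun h' _ => ih (hf.dl S _ _)

theorem box_mono (S : Sys ℤ Y μ) {K K' : ℕ} (hK : 1 ≤ K) (hK' : 1 ≤ K') (l : List ℕ) {f : Y → ℂ}
    (hf : B1 f) : box S (K' :: l) f ≤ box S (K :: l) f + 4 * K / K' := by
  rw [← box_perm S (List.perm_append_singleton K l) hf,
    ← box_perm S (List.perm_append_singleton K' l) hf]
  exact Box_mono_last S hK hK' l hf

lemma Box_sq_one (S : Sys ℤ Y μ) {K : ℕ} (hK : 1 ≤ K) {f : Y → ℂ} (hf : B1 f) :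
    ‖∫ y, f y ∂μ‖ ^ 2 ≤ box S [K] f := by
  have hs : (range K).Nonempty := nonempty_range_iff.2 (by omega)
  have hg := Box_avg_B1 S K hf
  have e : ∫ y, f y ∂μ = ∫ y, 1 * 𝔼 h ∈ range K, f (S.act (h : ℕ) y) ∂μ := by
    simp only [one_mul]
    rw [integral_expect (range K) (f := fun (h : ℕ) y => f (S.act (h : ℕ) y))
      fun h _ => (hf.act S _).integrable,
      expect_congr rfl fun (h : ℕ) _ => integral_act S (h : ℤ) hf.1, expect_const hs]
  rw [box_one S K hf, e]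
  exact sq_norm_integral_mul_le (g := fun _ => 1) hg.1 hg.2 fun _ => by simp

lemma Box_sq_last (S : Sys ℤ Y μ) {K : ℕ} (hK : 1 ≤ K) (l : List ℕ) {f : Y → ℂ} (hf : B1 f) :
    box S l f ^ 2 ≤ box S (l ++ [K]) f := by
  induction l generalizing f with
  | nil =>
    refine le_trans ?_ (Box_sq_one S hK hf)
    simp only [box]
    rw [← sq_abs]
    exact pow_le_pow_left₀ (abs_nonneg _) (Complex.abs_re_le_norm _) 2
  | cons L l ih =>
    simp only [List.cons_append, box]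
    exact (Box_sq_expect _ _).trans (expect_le_expect fun h _ =>
      (Box_sq_expect _ _).trans (expect_le_expect fun h' _ => ih (hf.dl S _ _)))

theorem box_sq_le (S : Sys ℤ Y μ) {K : ℕ} (hK : 1 ≤ K) (l : List ℕ) {f : Y → ℂ} (hf : B1 f) :
    box S l f ^ 2 ≤ box S (K :: l) f := by
  rw [← box_perm S (List.perm_append_singleton K l) hf]
  exact Box_sq_last S hK l hf

theorem sq_norm_integral_le_box (S : Sys ℤ Y μ) {K : ℕ} (hK : 1 ≤ K) {f : Y → ℂ} (hf : B1 f) :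
    ‖∫ y, f y ∂μ‖ ^ 2 ≤ box S [K] f := by
  exact Box_sq_one S hK hf

lemma Box_repl (S : Sys ℤ Y μ) {K' : ℕ} (hK' : 1 ≤ K') (l : List ℕ) (hl : ∀ K ∈ l, 1 ≤ K)
    (m : List ℕ) {f : Y → ℂ} (hf : B1 f) :
    box S (List.replicate l.length K' ++ m) f ≤ box S (l ++ m) f + 4 * (l.sum : ℝ) / K' := by
  induction l generalizing m with
  | nil => simp
  | cons K l ih =>
    have h1 := box_mono S (hl K (by simp)) hK' (List.replicate l.length K' ++ m) hf
    have h2 := ih (fun k hk => hl k (by simp [hk])) (K :: m)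
    rw [box_perm S List.perm_middle hf, box_perm S (l := l ++ K :: m) List.perm_middle hf] at h2
    simp only [List.length_cons, List.replicate_succ, List.cons_append, List.sum_cons,
      Nat.cast_add]
    rw [mul_add, add_div]
    linarith

lemma Box_bdd (S : Sys ℤ Y μ) (s : ℕ) {f : Y → ℂ} (hf : B1 f) :
    BddBelow (Set.range fun K : ℕ => box S (List.replicate s (K + 1)) f) :=
  ⟨-1, by rintro _ ⟨K, rfl⟩; exact (abs_le.1 (abs_box_le S _ hf)).1⟩

theorem nrm_le (S : Sys ℤ Y μ) (l : List ℕ) (hl : ∀ K ∈ l, 1 ≤ K) {f : Y → ℂ} (hf : B1 f) :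
    nrm S l.length f ≤ box S l f := by
  have h1 : Tendsto (fun K : ℕ => box S l f + 4 * (l.sum : ℝ) / ((K + 1 : ℕ) : ℝ)) atTop
      (𝓝 (box S l f + 0)) :=
    tendsto_const_nhds.add (tendsto_const_nhds.div_atTop
      (tendsto_natCast_atTop_atTop.comp (tendsto_add_atTop_nat 1)))
  rw [add_zero] at h1
  refine ge_of_tendsto' h1 fun K => (ciInf_le (Box_bdd S _ hf) K).trans ?_
  simpa using Box_repl S (K' := K + 1) (by omega) l hl [] hf

theorem tendsto_nrm (S : Sys ℤ Y μ) (s : ℕ) {f : Y → ℂ} (hf : B1 f) :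
    Tendsto (fun K => box S (List.replicate s K) f) atTop (𝓝 (nrm S s f)) := by
  refine tendsto_order.2 ⟨fun a ha => ?_, fun a ha => ?_⟩
  · filter_upwards [eventually_ge_atTop 1] with K hK
    refine ha.trans_le ?_
    simpa using nrm_le S (List.replicate s K) (fun k hk => by
      rw [List.eq_of_mem_replicate hk]; exact hK) hf
  · obtain ⟨K₀, hK₀⟩ := exists_lt_of_ciInf_lt ha
    have h1 : Tendsto (fun K : ℕ => box S (List.replicate s (K₀ + 1)) f +
        4 * ((List.replicate s (K₀ + 1)).sum : ℝ) / (K : ℝ)) atTop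
        (𝓝 (box S (List.replicate s (K₀ + 1)) f + 0)) :=
      tendsto_const_nhds.add (tendsto_const_nhds.div_atTop tendsto_natCast_atTop_atTop)
    rw [add_zero] at h1
    filter_upwards [eventually_ge_atTop 1, (tendsto_order.1 h1).2 a hK₀] with K hK h2
    refine lt_of_le_of_lt ?_ h2
    have := Box_repl S hK (List.replicate s (K₀ + 1)) (fun k hk => by
      rw [List.eq_of_mem_replicate hk]; omega) [] hf
    rwa [List.length_replicate, List.append_nil, List.append_nil] at this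

theorem nrm_nonneg (S : Sys ℤ Y μ) {s : ℕ} (hs : 1 ≤ s) {f : Y → ℂ} (hf : B1 f) :
    0 ≤ nrm S s f := by
  refine le_ciInf fun K => box_nonneg S (fun h => ?_) hf
  have := congrArg List.length h
  simp at this
  omega

theorem nrm_le_one (S : Sys ℤ Y μ) (s : ℕ) {f : Y → ℂ} (hf : B1 f) : nrm S s f ≤ 1 := by
  exact (ciInf_le (Box_bdd S s hf) 0).trans (abs_le.1 (abs_box_le S _ hf)).2

theorem nrm_sq_le (S : Sys ℤ Y μ) (s : ℕ) {f : Y → ℂ} (hf : B1 f) :
    nrm S s f ^ 2 ≤ nrm S (s + 1) f := by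
  refine le_of_tendsto_of_tendsto ((tendsto_nrm S s hf).pow 2) (tendsto_nrm S (s + 1) hf) ?_
  filter_upwards [eventually_ge_atTop 1] with K hK
  exact box_sq_le S hK _ hf

theorem nrm_conj (S : Sys ℤ Y μ) (s : ℕ) {f : Y → ℂ} (hf : B1 f) :
    nrm S s (fun y => conj (f y)) = nrm S s f := by
  simp only [nrm, box_conj S _ hf]

end Pool.Agent.MP_357fb4_an

end
end

section

/-!
The abstract polynomial exhaustion induction.
-/

open scoped BigOperators Classical ComplexConjugate Polynomial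
open Finset Filter MeasureTheory Topology

noncomputable section

namespace Pool.Agent.MP_357fb4_an

/-- Degree and leading coefficient. -/
def PetAbs_tau (Q : ℝ[X]) : ℕ × ℝ := (Q.natDegree, Q.leadingCoeff)

lemma PetAbs_tau_taylor (h : ℝ) (Q : ℝ[X]) :
    PetAbs_tau (Polynomial.taylor h Q) = PetAbs_tau Q := by
  simp only [PetAbs_tau, Polynomial.natDegree_taylor, Polynomial.leadingCoeff_taylor]

lemma PetAbs_tau_sub {Q Z : ℝ[X]} (h : Z.natDegree < Q.natDegree) :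
    PetAbs_tau (Q - Z) = PetAbs_tau Q := by
  simp only [PetAbs_tau, Polynomial.natDegree_sub_eq_left_of_natDegree_lt h,
    Polynomial.leadingCoeff_sub_of_degree_lt (Polynomial.degree_lt_degree h)]

lemma PetAbs_lc {Q : ℝ[X]} {n : ℕ} (h : Q.natDegree = n) : Q.leadingCoeff = Q.coeff n := by
  rw [Polynomial.leadingCoeff, h]

lemma PetAbs_lc_ne {Q : ℝ[X]} {n : ℕ} (h : Q.natDegree = n + 1) : Q.coeff (n + 1) ≠ 0 := by
  rw [← PetAbs_lc h]
  intro h0
  rw [Polynomial.leadingCoeff_eq_zero] at h0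
  rw [h0] at h
  simp at h

/-- The types of the elements of large degree lie in an allowed set. -/
def PetAbs_Phi (flag : Prop) (e : ℕ) (Ψ : Finset (ℕ × ℝ) → ℕ × ℝ → Prop) (A : Finset ℝ[X])
    (p : ℝ[X]) : Prop :=
  e < p.natDegree ∧ ∃ Sig, Ψ Sig (PetAbs_tau p) ∧
    (∀ Q ∈ A, e < Q.natDegree → PetAbs_tau Q ∈ Sig) ∧ (flag → PetAbs_tau p ∈ Sig)

/-- The same, with all elements of large degree. -/
def PetAbs_PhiP (flag : Prop) (e : ℕ) (Ψ : Finset (ℕ × ℝ) → ℕ × ℝ → Prop) (A : Finset ℝ[X])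
    (p : ℝ[X]) : Prop :=
  PetAbs_Phi flag e Ψ A p ∧ ∀ Q ∈ A, e < Q.natDegree

lemma PetAbs_mono {flag : Prop} {Ctrl : ℕ → (Finset ℝ[X] → ℝ[X] → Prop) → Prop}
    (h : PetAx flag Ctrl) (r : ℕ) (Φ Φ' : Finset ℝ[X] → ℝ[X] → Prop)
    (hΦ : ∀ A p, A.card ≤ r → Φ A p → Φ' A p) (hc : Ctrl r Φ') : Ctrl r Φ := by
  refine h.recenter r Φ Φ' (fun A p hA hp => ⟨0, ?_⟩) hc
  simpa using hΦ A p hA hp

lemma PetAbs_S0 {flag : Prop} {Ctrl : ℕ → (Finset ℝ[X] → ℝ[X] → Prop) → Prop}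
    (h : PetAx flag Ctrl) (Ψ : Finset (ℕ × ℝ) → ℕ × ℝ → Prop)
    (H : ∀ r, Ctrl r (PetAbs_PhiP flag 0 Ψ)) (r : ℕ) : Ctrl r (PetAbs_Phi flag 0 Ψ) := by
  have h2 : Ctrl r fun A p => PetAbs_Phi flag 0 Ψ A p ∧ ∃ P ∈ A, P.natDegree = 0 := by
    refine h.step r _ (PetAbs_PhiP flag 0 Ψ) ?_ (H _)
    rintro A p ⟨⟨hp, Sig, hΨ, hA, hf⟩, hP⟩
    refine ⟨hp, hP, fun x x' A' hA' => ⟨⟨?_, Sig, ?_, ?_, ?_⟩, ?_⟩⟩
    · rwa [Polynomial.natDegree_taylor]
    · rwa [PetAbs_tau_taylor]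
    · intro Q hQ _
      rcases hA' Q hQ with ⟨P, hPA, hP1, rfl | rfl⟩ | ⟨hfl, rfl⟩
      · rw [PetAbs_tau_taylor]; exact hA P hPA hP1
      · rw [PetAbs_tau_taylor]; exact hA P hPA hP1
      · rw [PetAbs_tau_taylor]; exact hf hfl
    · rw [PetAbs_tau_taylor]; exact hf
    · intro Q hQ
      rcases hA' Q hQ with ⟨P, hPA, hP1, rfl | rfl⟩ | ⟨hfl, rfl⟩
      · rw [Polynomial.natDegree_taylor]; exact hP1
      · rw [Polynomial.natDegree_taylor]; exact hP1
      · rw [Polynomial.natDegree_taylor]; exact hp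
  refine PetAbs_mono h r _ _ ?_ (h.union r _ _ (H r) h2)
  intro A p _ hp
  by_cases hc : ∃ P ∈ A, P.natDegree = 0
  · exact Or.inr ⟨hp, hc⟩
  · refine Or.inl ⟨hp, fun Q hQ => ?_⟩
    by_contra hn
    exact hc ⟨Q, hQ, by omega⟩

/-- Few leading coefficients in the lowest degree. -/
def PetAbs_Theta (flag : Prop) (e : ℕ) (Ψ : Finset (ℕ × ℝ) → ℕ × ℝ → Prop) (t : ℕ)
    (A : Finset ℝ[X]) (p : ℝ[X]) : Prop :=
  PetAbs_Phi flag (e + 1) Ψ A p ∧ ∃ Lam : Finset ℝ, Lam.card ≤ t ∧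
    ∀ Q ∈ A, Q.natDegree = e + 1 → Q.leadingCoeff ∈ Lam

/-- The allowed sets one degree lower. -/
def PetAbs_Psi (flag : Prop) (e : ℕ) (Ψ : Finset (ℕ × ℝ) → ℕ × ℝ → Prop) (t : ℕ)
    (Sig' : Finset (ℕ × ℝ)) (τ : ℕ × ℝ) : Prop :=
  e + 1 < τ.1 ∧ ∃ (Sig : Finset (ℕ × ℝ)) (Lam : Finset ℝ), Ψ Sig τ ∧ Lam.card ≤ t ∧
    (flag → τ ∈ Sig) ∧ ∀ s ∈ Sig', (s.1 = e + 1 → s.2 ∈ Lam) ∧ (e + 1 < s.1 → s ∈ Sig)

lemma PetAbs_theta_phi {flag : Prop} {e t : ℕ} {Ψ : Finset (ℕ × ℝ) → ℕ × ℝ → Prop}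
    {A : Finset ℝ[X]} {p : ℝ[X]} (hθ : PetAbs_Theta flag e Ψ t A p) :
    PetAbs_Phi flag e (PetAbs_Psi flag e Ψ t) A p := by
  obtain ⟨⟨hp, Sig, hΨ, hA, hf⟩, Lam, hL, hLA⟩ := hθ
  refine ⟨by omega, A.image PetAbs_tau ∪ (if flag then {PetAbs_tau p} else ∅),
    ⟨hp, Sig, Lam, hΨ, hL, hf, ?_⟩, ?_, ?_⟩
  · intro s hs
    rcases mem_union.1 hs with hs | hs
    · obtain ⟨Q, hQ, rfl⟩ := mem_image.1 hs
      exact ⟨hLA Q hQ, hA Q hQ⟩
    · by_cases hfl : flag
      · rw [if_pos hfl, mem_singleton] at hs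
        subst hs
        refine ⟨fun h1 => ?_, fun _ => hf hfl⟩
        have h2 : p.natDegree = e + 1 := h1
        omega
      · rw [if_neg hfl] at hs
        simp at hs
  · intro Q hQ _
    exact mem_union_left _ (mem_image_of_mem _ hQ)
  · intro hfl
    rw [if_pos hfl]
    exact mem_union_right _ (mem_singleton_self _)

lemma PetAbs_split {flag : Prop} {e t : ℕ} {Ψ : Finset (ℕ × ℝ) → ℕ × ℝ → Prop}
    {A : Finset ℝ[X]} {p : ℝ[X]} (hθ : PetAbs_PhiP flag e (PetAbs_Psi flag e Ψ t) A p) :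
    PetAbs_PhiP flag (e + 1) Ψ A p ∨ ∃ t', t = t' + 1 ∧
      ∃ Z, PetAbs_Theta flag e Ψ t' (A.image fun Q => Q - Z) (p - Z) := by
  obtain ⟨⟨_, Sig', ⟨hp, Sig, Lam, hΨ, hL, hf, hS⟩, hA, _⟩, hall⟩ := hθ
  have hp' : e + 1 < p.natDegree := hp
  have hbig : ∀ Q ∈ A, e + 1 < Q.natDegree → PetAbs_tau Q ∈ Sig := fun Q hQ h1 =>
    (hS _ (hA Q hQ (hall Q hQ))).2 h1
  have hlam : ∀ Q ∈ A, Q.natDegree = e + 1 → Q.leadingCoeff ∈ Lam := fun Q hQ h1 =>
    (hS _ (hA Q hQ (hall Q hQ))).1 h1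
  by_cases hc : ∃ Z ∈ A, Z.natDegree = e + 1
  · obtain ⟨Z, hZ, hZd⟩ := hc
    have hZL := hlam Z hZ hZd
    have hpos : 0 < Lam.card := card_pos.2 ⟨_, hZL⟩
    refine Or.inr ⟨t - 1, by omega, Z, ⟨?_, Sig, ?_, ?_, ?_⟩,
      (Lam.erase Z.leadingCoeff).image fun x => x - Z.leadingCoeff, ?_, ?_⟩
    · rw [Polynomial.natDegree_sub_eq_left_of_natDegree_lt (by omega)]; exact hp'
    · rw [PetAbs_tau_sub (by omega)]; exact hΨ
    · intro Q' hQ' h1
      obtain ⟨Q, hQ, rfl⟩ := mem_image.1 hQ'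
      have h2 := Polynomial.natDegree_sub_le Q Z
      have h3 : e + 1 < Q.natDegree := by
        rcases le_total Q.natDegree Z.natDegree with h4 | h4
        · rw [max_eq_right h4] at h2; omega
        · rw [max_eq_left h4] at h2; omega
      rw [PetAbs_tau_sub (by omega)]
      exact hbig Q hQ h3
    · rw [PetAbs_tau_sub (by omega)]; exact hf
    · refine card_image_le.trans ?_
      rw [card_erase_of_mem hZL]
      omega
    · intro Q' hQ' h1
      obtain ⟨Q, hQ, rfl⟩ := mem_image.1 hQ'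
      have h3 : Q.natDegree = e + 1 := by
        have h4 := hall Q hQ
        by_contra h5
        rw [Polynomial.natDegree_sub_eq_left_of_natDegree_lt (by omega)] at h1
        exact h5 h1
      have h6 := PetAbs_lc_ne h1
      rw [Polynomial.coeff_sub, ← PetAbs_lc h3, ← PetAbs_lc hZd] at h6
      refine mem_image.2 ⟨Q.leadingCoeff, mem_erase.2 ⟨sub_ne_zero.1 h6, hlam Q hQ h3⟩, ?_⟩
      rw [PetAbs_lc h1, Polynomial.coeff_sub, ← PetAbs_lc h3, ← PetAbs_lc hZd]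
  · refine Or.inl ⟨⟨hp', Sig, hΨ, hbig, hf⟩, fun Q hQ => ?_⟩
    have h4 := hall Q hQ
    have h5 : Q.natDegree ≠ e + 1 := fun h6 => hc ⟨Q, hQ, h6⟩
    omega

lemma PetAbs_S {flag : Prop} {Ctrl : ℕ → (Finset ℝ[X] → ℝ[X] → Prop) → Prop}
    (h : PetAx flag Ctrl) (e : ℕ) : ∀ (Ψ : Finset (ℕ × ℝ) → ℕ × ℝ → Prop),
    (∀ r, Ctrl r (PetAbs_PhiP flag e Ψ)) → ∀ r, Ctrl r (PetAbs_Phi flag e Ψ) := by
  induction e with
  | zero => exact fun Ψ H r => PetAbs_S0 h Ψ H r
  | succ e ih =>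
    intro Ψ H
    have key : ∀ t r, Ctrl r (PetAbs_Theta flag e Ψ t) := by
      intro t
      induction t with
      | zero =>
        intro r
        refine PetAbs_mono h r _ _ (fun A p _ hθ => PetAbs_theta_phi hθ) (ih _ (fun r => ?_) r)
        refine PetAbs_mono h r _ _ (fun A p _ hθ => ?_) (H r)
        rcases PetAbs_split hθ with h1 | ⟨t', ht, _⟩
        · exact h1
        · omega
      | succ t iht =>
        intro r
        refine PetAbs_mono h r _ _ (fun A p _ hθ => PetAbs_theta_phi hθ) (ih _ (fun r => ?_) r)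
        refine h.recenter r _ _ (fun A p _ hθ => ?_) (h.union r _ _ (H r) (iht r))
        rcases PetAbs_split hθ with h1 | ⟨t', ht, Z, hZ⟩
        · exact ⟨0, Or.inl (by simpa using h1)⟩
        · obtain rfl : t = t' := by omega
          exact ⟨Z, Or.inr hZ⟩
    intro r
    refine PetAbs_mono h r _ _ (fun A p hA hp => ⟨hp, A.image Polynomial.leadingCoeff,
      card_image_le.trans hA, fun Q hQ _ => mem_image_of_mem _ hQ⟩) (key r r)

theorem pet_all {Ctrl : ℕ → (Finset ℝ[X] → ℝ[X] → Prop) → Prop} (h : PetAx False Ctrl)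
    (base : ∀ r, Ctrl r fun A _ => A = ∅) (r D : ℕ) :
    Ctrl r fun A p => D < p.natDegree ∧ ∀ Q ∈ A, Q.natDegree ≤ D := by
  have key := PetAbs_S h D (fun Sig _ => Sig = ∅) (fun r => ?_) r
  · refine PetAbs_mono h r _ _ (fun A p _ hp => ⟨hp.1, ∅, rfl, fun Q hQ h1 => ?_, False.elim⟩) key
    have := hp.2 Q hQ
    omega
  · refine PetAbs_mono h r _ _ ?_ (base r)
    rintro A p _ ⟨⟨_, Sig, rfl, hA, _⟩, hall⟩
    refine eq_empty_of_forall_notMem fun Q hQ => ?_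
    simpa using hA Q hQ (hall Q hQ)

/-- Few leading coefficients of the differences of top degree. -/
def PetAbs_Eta (D t : ℕ) (A : Finset ℝ[X]) (p : ℝ[X]) : Prop :=
  (∀ Q ∈ A, (Q - p).natDegree ≤ D + 1) ∧ ∃ Lam : Finset ℝ, Lam.card ≤ t ∧
    ∀ Q ∈ A, (Q - p).natDegree = D + 1 → (Q - p).leadingCoeff ∈ Lam

/-- The allowed sets for the differences of top degree. -/
def PetAbs_Xi (D t : ℕ) (Sig : Finset (ℕ × ℝ)) (τ : ℕ × ℝ) : Prop :=
  τ.1 = D + 1 ∧ ∃ Lam : Finset ℝ, Lam.card ≤ t ∧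
    ∀ s ∈ Sig, s.1 = D + 1 ∧ (s.2 = τ.2 ∨ s.2 - τ.2 ∈ Lam)

lemma PetAbs_xi_eta {D t : ℕ} {A : Finset ℝ[X]} {p : ℝ[X]}
    (hp : PetAbs_PhiP True D (PetAbs_Xi D t) A p) : PetAbs_Eta D t A p := by
  obtain ⟨⟨_, Sig, ⟨hp, Lam, hL, hS⟩, hA, _⟩, hall⟩ := hp
  have hp' : p.natDegree = D + 1 := hp
  have hQd : ∀ Q ∈ A, Q.natDegree = D + 1 := fun Q hQ => (hS _ (hA Q hQ (hall Q hQ))).1
  refine ⟨fun Q hQ => ?_, Lam, hL, fun Q hQ h1 => ?_⟩
  · refine (Polynomial.natDegree_sub_le Q p).trans ?_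
    rw [hQd Q hQ, hp', max_self]
  · have h6 := PetAbs_lc_ne h1
    rw [Polynomial.coeff_sub, ← PetAbs_lc (hQd Q hQ), ← PetAbs_lc hp'] at h6
    rw [PetAbs_lc h1, Polynomial.coeff_sub, ← PetAbs_lc (hQd Q hQ), ← PetAbs_lc hp']
    rcases (hS _ (hA Q hQ (hall Q hQ))).2 with h2 | h2
    · exact absurd h2 (sub_ne_zero.1 h6)
    · exact h2

lemma PetAbs_split2 {D t : ℕ} {A : Finset ℝ[X]} {p : ℝ[X]} (hη : PetAbs_Eta D t A p) :
    (∀ Q ∈ A, (Q - p).natDegree ≤ D) ∨ ∃ t', t = t' + 1 ∧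
      ∃ Z, PetAbs_Phi True D (PetAbs_Xi D t') (A.image fun Q => Q - Z) (p - Z) := by
  obtain ⟨hd, Lam, hL, hA⟩ := hη
  by_cases hc : ∃ Z ∈ A, (Z - p).natDegree = D + 1
  · obtain ⟨Z, hZ, hZd⟩ := hc
    have hZL := hA Z hZ hZd
    have hpos : 0 < Lam.card := card_pos.2 ⟨_, hZL⟩
    have hpZ : (p - Z).natDegree = D + 1 := by rw [Polynomial.natDegree_sub, hZd]
    refine Or.inr ⟨t - 1, by omega, Z, by omega,
      insert (PetAbs_tau (p - Z))
        (((A.image fun Q => Q - Z).filter fun Q => D < Q.natDegree).image PetAbs_tau),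
      ⟨hpZ, Lam.erase (Z - p).leadingCoeff, ?_, ?_⟩, ?_, fun _ => mem_insert_self _ _⟩
    · rw [card_erase_of_mem hZL]
      omega
    · intro s hs
      rcases mem_insert.1 hs with rfl | hs
      · exact ⟨hpZ, Or.inl rfl⟩
      · obtain ⟨Q', hQ', rfl⟩ := mem_image.1 hs
        obtain ⟨hQ'', h1⟩ := mem_filter.1 hQ'
        obtain ⟨Q, hQ, rfl⟩ := mem_image.1 hQ''
        have e1 : Q - Z = (Q - p) - (Z - p) := by ring
        have h2 : (Q - Z).natDegree = D + 1 := by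
          have h3 := Polynomial.natDegree_sub_le (Q - p) (Z - p)
          rw [← e1, hZd, max_eq_right (hd Q hQ)] at h3
          omega
        refine ⟨h2, ?_⟩
        change (Q - Z).leadingCoeff = (p - Z).leadingCoeff ∨
          (Q - Z).leadingCoeff - (p - Z).leadingCoeff ∈ Lam.erase (Z - p).leadingCoeff
        have e2 : (Q - Z).leadingCoeff - (p - Z).leadingCoeff = (Q - p).coeff (D + 1) := by
          rw [PetAbs_lc h2, PetAbs_lc hpZ]
          simp only [Polynomial.coeff_sub]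
          ring
        by_cases h4 : (Q - p).coeff (D + 1) = 0
        · left
          rw [← e2] at h4
          exact sub_eq_zero.1 h4
        · right
          have h5 : (Q - p).natDegree = D + 1 :=
            le_antisymm (hd Q hQ) (Polynomial.le_natDegree_of_ne_zero h4)
          rw [e2]
          refine mem_erase.2 ⟨fun h6 => ?_, ?_⟩
          · apply PetAbs_lc_ne h2
            rw [e1, Polynomial.coeff_sub, h6, PetAbs_lc hZd, sub_self]
          · rw [← PetAbs_lc h5]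
            exact hA Q hQ h5
    · intro Q hQ h1
      exact mem_insert_of_mem (mem_image_of_mem _ (mem_filter.2 ⟨hQ, h1⟩))
  · refine Or.inl fun Q hQ => ?_
    have h4 := hd Q hQ
    have h5 : (Q - p).natDegree ≠ D + 1 := fun h6 => hc ⟨Q, hQ, h6⟩
    omega

theorem pet_target {Ctrl : ℕ → (Finset ℝ[X] → ℝ[X] → Prop) → Prop} (h : PetAx True Ctrl)
    (base : ∀ r, Ctrl r fun A p => ∀ Q ∈ A, (Q - p).natDegree = 0) (r D : ℕ) :
    Ctrl r fun A p => ∀ Q ∈ A, (Q - p).natDegree ≤ D := by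
  induction D generalizing r with
  | zero =>
    exact PetAbs_mono h r _ _ (fun A p _ hp Q hQ => Nat.le_zero.1 (hp Q hQ)) (base r)
  | succ D ih =>
    have key : ∀ t r, Ctrl r (PetAbs_Eta D t) := by
      intro t
      induction t with
      | zero =>
        intro r
        refine PetAbs_mono h r _ _ (fun A p _ hη => ?_) (ih r)
        rcases PetAbs_split2 hη with h1 | ⟨t', ht, _⟩
        · exact h1
        · omega
      | succ t iht =>
        intro r
        have h1 : Ctrl r (PetAbs_Phi True D (PetAbs_Xi D t)) :=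
          PetAbs_S h D _ (fun r => PetAbs_mono h r _ _ (fun A p _ hp => PetAbs_xi_eta hp) (iht r)) r
        refine h.recenter r _ _ (fun A p _ hη => ?_) (h.union r _ _ (ih r) h1)
        rcases PetAbs_split2 hη with h1 | ⟨t', ht, Z, hZ⟩
        · exact ⟨0, Or.inl (by simpa using h1)⟩
        · obtain rfl : t = t' := by omega
          exact ⟨Z, Or.inr hZ⟩
    refine PetAbs_mono h r _ _ (fun A p hA hp => ⟨hp, A.image fun Q => (Q - p).leadingCoeff,
      card_image_le.trans hA, fun Q hQ _ => mem_image_of_mem _ hQ⟩) (key r r)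

end Pool.Agent.MP_357fb4_an

end
end

section

/-!
Control by the cube sums of the weight.
-/

open scoped BigOperators Classical ComplexConjugate Polynomial
open Finset Filter MeasureTheory Topology

noncomputable section

namespace Pool.Agent.MP_357fb4_an

/-- A sum over the integers of a function supported in a shifted interval. -/
lemma PetW_tsum {E : Type} [AddCommMonoid E] [TopologicalSpace E] {u : ℤ → E} {a : ℤ} {L h : ℕ}
    (hh : h ≤ L) (hu : ∀ x, u x ≠ 0 → a ≤ x + h ∧ x + h < a + L) :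
    ∑' x, u x = ∑ x ∈ Ico (a - L) (a + L), u x :=
  tsum_eq_sum fun x hx => by
    by_contra h0
    have := hu x h0
    exact hx (mem_Ico.2 ⟨by omega, by omega⟩)

/-- The van der Corput inequality for finitely supported sequences. -/
lemma PetW_key {u : ℤ → ℂ} {a : ℤ} {L M : ℕ} (h1 : 1 ≤ M) (hM : M ≤ L)
    (hu : ∀ x, u x ≠ 0 → a ≤ x ∧ x < a + L) :
    ‖∑' x, u x‖ ^ 2 ≤ 2 * L * (𝔼 h ∈ range M, 𝔼 h' ∈ range M,
      ∑ x ∈ Ico (a - L) (a + L), u (x + (h : ℕ)) * conj (u (x + (h' : ℕ)))).re := by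
  have hne : (range M).Nonempty := nonempty_range_iff.2 (by omega)
  have e1 : ∑' x, u x = ∑ x ∈ Ico (a - L) (a + L), 𝔼 h ∈ range M, u (x + (h : ℕ)) := by
    rw [← expect_sum_comm, ← expect_const hne (∑' x, u x)]
    refine expect_congr rfl fun h hh => ?_
    rw [← (Equiv.addRight ((h : ℕ) : ℤ)).tsum_eq u]
    exact PetW_tsum (h := h) (by have := mem_range.1 hh; omega) fun x hx => hu _ hx
  have e2 : ((Ico (a - L) (a + L)).card : ℝ) = 2 * L := by
    rw [Int.card_Ico, show a + L - (a - L) = ((2 * L : ℕ) : ℤ) by push_cast; ring, Int.toNat_natCast]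
    push_cast
    rfl
  rw [e1]
  refine (pow_le_pow_left₀ (norm_nonneg _) (norm_sum_le _ _) 2).trans
    (sq_sum_le_card_mul_sum_sq.trans (le_of_eq ?_))
  rw [e2]
  congr 1
  simp only [sq_norm_expect, re_expect, Complex.re_sum]
  rw [← expect_sum_comm]
  exact expect_congr rfl fun h _ => (expect_sum_comm _ _ _).symm

lemma PetW_sup {w : ℤ → ℝ} {a : ℤ} {L : ℕ} (hw : ∀ x, w x ≠ 0 → a ≤ x ∧ x < a + L) (h h' : ℤ) :
    ∀ x, w (x + h) * w (x + h') ≠ 0 → a - h ≤ x ∧ x < a - h + L := fun x hx => by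
  have := hw _ (left_ne_zero_of_mul hx)
  omega

lemma PetW_sq {ι : Type} (s : Finset ι) (f : ι → ℝ) :
    (𝔼 i ∈ s, f i) ^ 2 ≤ 𝔼 i ∈ s, f i ^ 2 := by
  rcases s.eq_empty_or_nonempty with rfl | hs
  · simp
  · simpa [expect_const hs] using expect_mul_sq_le_sq_mul_sq s f fun _ => 1

lemma PetW_VV {L M : ℕ} (h1 : 1 ≤ M) (hM : M ≤ L) (s : ℕ) : ∀ (a : ℤ) (w : ℤ → ℝ),
    (∀ x, w x ≠ 0 → a ≤ x ∧ x < a + L) → VV M s w ^ 2 ≤ 2 * L * VV M (s + 1) w := by
  induction s with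
  | zero =>
    intro a w hw
    have h := PetW_key (u := fun x => (w x : ℂ)) h1 hM fun x hx => hw x (by simpa using hx)
    rw [← Complex.ofReal_tsum, Complex.norm_real, Real.norm_eq_abs, sq_abs] at h
    refine h.trans (le_of_eq ?_)
    simp only [VV, re_expect, Complex.re_sum, Complex.conj_ofReal, ← Complex.ofReal_mul,
      Complex.ofReal_re]
    congr 1
    refine expect_congr rfl fun h hh => expect_congr rfl fun h' _ => ?_
    exact (PetW_tsum (h := h) (by have := mem_range.1 hh; omega)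
      fun x hx => hw _ (left_ne_zero_of_mul hx)).symm
  | succ s ih =>
    intro a w hw
    rw [VV, VV, mul_expect]
    refine (PetW_sq _ _).trans (expect_le_expect fun h _ => ?_)
    rw [mul_expect]
    exact (PetW_sq _ _).trans (expect_le_expect fun h' _ => ih _ _ (PetW_sup hw _ _))

lemma PetW_raise {L M : ℕ} (h1 : 1 ≤ M) (hM : M ≤ L) {a : ℤ} {w : ℤ → ℝ}
    (hw : ∀ x, w x ≠ 0 → a ≤ x ∧ x < a + L) {X : ℝ} (hX : 0 ≤ X) {s t : ℕ} (hst : s ≤ t)
    (h : X ^ 2 ^ s ≤ (2 * L : ℝ) ^ (2 ^ s - 1) * VV M s w) :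
    X ^ 2 ^ t ≤ (2 * L : ℝ) ^ (2 ^ t - 1) * VV M t w := by
  induction t, hst using Nat.le_induction with
  | base => exact h
  | succ t _ ih =>
    have e : 2 ^ (t + 1) - 1 = (2 ^ t - 1) * 2 + 1 := by
      have := Nat.one_le_two_pow (n := t)
      omega
    rw [pow_succ 2 t, pow_mul, ← pow_succ 2 t, e, pow_succ _ ((2 ^ t - 1) * 2), pow_mul, mul_assoc]
    refine (pow_le_pow_left₀ (pow_nonneg hX _) ih 2).trans ?_
    rw [mul_pow]
    exact mul_le_mul_of_nonneg_left (PetW_VV h1 hM t a w hw) (sq_nonneg _)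

/-- Cauchy-Schwarz and van der Corput under the integral. -/
lemma PetW_cs {Y : Type} [MeasurableSpace Y] {μ : Measure Y} [IsProbabilityMeasure μ]
    {F : Y → ℂ} (hF : B1 F) {v : ℤ → Y → ℂ} (hv : ∀ x, B1 (v x)) {L M : ℕ} (h1 : 1 ≤ M)
    (hM : M ≤ L) {a : ℤ} {w : ℤ → ℝ} (hw : ∀ x, w x ≠ 0 → a ≤ x ∧ x < a + L) :
    ‖∑' x, (w x : ℂ) * ∫ y, F y * v x y ∂μ‖ ^ 2 ≤ 2 * L * 𝔼 h ∈ range M, 𝔼 h' ∈ range M,
      ‖∑' x : ℤ, ((w (x + (h : ℕ)) * w (x + (h' : ℕ)) : ℝ) : ℂ) *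
        ∫ y, v (x + (h : ℕ)) y * conj (v (x + (h' : ℕ)) y) ∂μ‖ := by
  have hs : ∀ c : ℤ → ℂ, ∀ x, (w x : ℂ) * c x ≠ 0 → a ≤ x ∧ x < a + L := fun c x hx =>
    hw x (by simpa using left_ne_zero_of_mul hx)
  have ht : ∀ c : ℤ → ℂ, ∑' x, (w x : ℂ) * c x = ∑ x ∈ Ico (a - L) (a + L), (w x : ℂ) * c x :=
    fun c => PetW_tsum (h := 0) (Nat.zero_le _) fun x hx => by simpa using hs c x hx
  have e1 : ∑' x, (w x : ℂ) * ∫ y, F y * v x y ∂μ =
      ∫ y, F y * ∑ x ∈ Ico (a - L) (a + L), (w x : ℂ) * v x y ∂μ := by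
    simp only [ht, mul_sum, mul_left_comm (F _)]
    rw [integral_finsetSum _ fun x _ => ((hF.mul (hv x)).integrable).const_mul _]
    simp only [integral_const_mul]
  have hm : Measurable fun y => ∑ x ∈ Ico (a - L) (a + L), (w x : ℂ) * v x y :=
    Finset.measurable_sum _ fun x _ => (hv x).1.const_mul _
  have hb : ∀ y, ‖∑ x ∈ Ico (a - L) (a + L), (w x : ℂ) * v x y‖ ≤
      ∑ x ∈ Ico (a - L) (a + L), ‖(w x : ℂ)‖ := fun y =>
    (norm_sum_le _ _).trans (sum_le_sum fun x _ => by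
      rw [norm_mul]; exact mul_le_of_le_one_right (norm_nonneg _) ((hv x).2 y))
  have i1 : ∀ h h' : ℕ, ∀ x ∈ Ico (a - L) (a + L), Integrable (fun y =>
      ((w (x + h) * w (x + h') : ℝ) : ℂ) * (v (x + h) y * conj (v (x + h') y))) μ :=
    fun h h' x _ => (((hv _).mul (hv _).conj).integrable).const_mul _
  have i2 : ∀ h : ℕ, ∀ h' ∈ range M, Integrable (fun y => ∑ x ∈ Ico (a - L) (a + L),
      ((w (x + h) * w (x + h') : ℝ) : ℂ) * (v (x + h) y * conj (v (x + h') y))) μ :=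
    fun h h' _ => integrable_finsetSum _ (i1 h h')
  have ie : ∀ {f : ℕ → Y → ℂ}, (∀ h ∈ range M, Integrable (f h) μ) →
      Integrable (fun y => 𝔼 h ∈ range M, f h y) μ := fun hf => by
    simp only [expect_eq_sum_div_card]
    exact (integrable_finsetSum _ hf).div_const _
  have i3 := ie fun h _ => ie (i2 h)
  rw [e1]
  refine (sq_norm_integral_mul_le hm hb hF.2).trans ?_
  refine (integral_mono_of_nonneg (Eventually.of_forall fun y => sq_nonneg _)
    (i3.re.const_mul (2 * L : ℝ)) (Eventually.of_forall fun y => ?_)).trans ?_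
  · have := PetW_key h1 hM (hs fun x => v x y)
    rw [ht] at this
    refine this.trans (le_of_eq ?_)
    simp only [RCLike.re_to_complex, map_mul, Complex.conj_ofReal, Complex.ofReal_mul]
    congr 2
    refine expect_congr rfl fun h _ => expect_congr rfl fun h' _ => sum_congr rfl fun x _ => ?_
    ring
  · rw [integral_const_mul, integral_re i3]
    refine mul_le_mul_of_nonneg_left ((RCLike.re_le_norm _).trans ?_) (by positivity)
    rw [integral_expect _ fun h _ => ie (i2 h)]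
    refine (norm_expect_le' _ _).trans (expect_le_expect fun h hh => ?_)
    rw [integral_expect _ (i2 h)]
    refine (norm_expect_le' _ _).trans (expect_le_expect fun h' _ => le_of_eq ?_)
    rw [integral_finsetSum _ (i1 h h'), PetW_tsum (h := h) (a := a) (L := L)
      (by have := mem_range.1 hh; omega) fun x hx => hw _
        (left_ne_zero_of_mul (b := w (x + h')) (by simpa using left_ne_zero_of_mul hx))]
    simp only [integral_const_mul]

lemma PetW_base (r : ℕ) : CtrlW r fun A _ => A = ∅ := by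
  refine ⟨1, le_rfl, fun Y _ μ _ S ι _ _ P p hP G _ L M a w h1 hM hw => ?_⟩
  have : IsEmpty ι := ⟨fun i => by
    have : P i ∈ univ.image P := mem_image_of_mem P (mem_univ i)
    rw [hP] at this
    simp at this⟩
  have h := PetW_VV h1 hM 0 a w hw
  simp only [corr, univ_eq_empty, prod_empty, mul_one, integral_const, probReal_univ, one_smul,
    pow_one, ← Complex.ofReal_tsum, Complex.norm_real, Real.norm_eq_abs, sq_abs,
    Nat.add_one_sub_one]
  exact h

lemma PetW_recenter (r : ℕ) (Φ Φ' : Finset ℝ[X] → ℝ[X] → Prop)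
    (h : ∀ A p, A.card ≤ r → Φ A p → ∃ Z, Φ' (A.image fun Q => Q - Z) (p - Z))
    (h' : CtrlW r Φ') : CtrlW r Φ := by
  obtain ⟨s, hs, H⟩ := h'
  refine ⟨s, hs, fun Y _ μ _ S ι _ hι P p hP G hG L M a w h1 hM hw => ?_⟩
  obtain ⟨Z, hZ⟩ := h _ p (card_image_le.trans hι) hP
  rw [image_image] at hZ
  have := H Y μ S ι hι (fun i => P i - Z) (p - Z) hZ G hG L M a w h1 hM hw
  have e : ∀ x : ℤ, (corr S (fun _ => 1) G fun i => (P i - Z).eval (x : ℝ)) =
      corr S (fun _ => 1) G fun i => (P i).eval (x : ℝ) := fun x => by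
    rw [corr_shift S B1.one hG _ (Z.eval (x : ℝ))]
    simp only [Polynomial.eval_sub, sub_add_cancel, corr]
  simpa only [e] using this

lemma PetW_union (r : ℕ) (Φ₁ Φ₂ : Finset ℝ[X] → ℝ[X] → Prop) (h₁ : CtrlW r Φ₁)
    (h₂ : CtrlW r Φ₂) : CtrlW r fun A p => Φ₁ A p ∨ Φ₂ A p := by
  obtain ⟨s, hs, H⟩ := h₁
  obtain ⟨t, _, H'⟩ := h₂
  refine ⟨max s t, hs.trans (le_max_left _ _),
    fun Y _ μ _ S ι _ hι P p hP G hG L M a w h1 hM hw => ?_⟩
  rcases hP with hP | hP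
  · exact PetW_raise h1 hM hw (norm_nonneg _) (le_max_left _ _)
      (H Y μ S ι hι P p hP G hG L M a w h1 hM hw)
  · exact PetW_raise h1 hM hw (norm_nonneg _) (le_max_right _ _)
      (H' Y μ S ι hι P p hP G hG L M a w h1 hM hw)

lemma PetW_step (r : ℕ) (Φ Φ' : Finset ℝ[X] → ℝ[X] → Prop)
    (h : ∀ A p, Φ A p → 1 ≤ p.natDegree ∧ (∃ P ∈ A, P.natDegree = 0) ∧
      ∀ (h h' : ℝ) (A' : Finset ℝ[X]),
        (∀ Q ∈ A', (∃ P ∈ A, 1 ≤ P.natDegree ∧
          (Q = Polynomial.taylor h P ∨ Q = Polynomial.taylor h' P)) ∨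
            (False ∧ Q = Polynomial.taylor h' p)) → Φ' A' (Polynomial.taylor h p))
    (h' : CtrlW (2 * r + 1) Φ') : CtrlW r Φ := by
  obtain ⟨s, -, H⟩ := h'
  refine ⟨s + 1, by omega, fun Y _ μ _ S ι _ hι P p hP G hG L M a w h1 hM hw => ?_⟩
  obtain ⟨-, -, hΦ⟩ := h _ p hP
  have hF : B1 fun y => ∏ i : {i // (P i).natDegree = 0}, G i (S.act ((P i).coeff 0) y) :=
    B1.prod _ fun i _ => (hG i).act S _
  have hv : ∀ x : ℤ, B1 fun y => ∏ i : {i // ¬(P i).natDegree = 0},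
      G i (S.act ((P i).eval (x : ℝ)) y) := fun x => B1.prod _ fun i _ => (hG i).act S _
  have e1 : ∀ x : ℤ, (corr S (fun _ => 1) G fun i => (P i).eval (x : ℝ)) =
      ∫ y, (∏ i : {i // (P i).natDegree = 0}, G i (S.act ((P i).coeff 0) y)) *
        ∏ i : {i // ¬(P i).natDegree = 0}, G i (S.act ((P i).eval (x : ℝ)) y) ∂μ := fun x => by
    simp only [corr, one_mul]
    refine integral_congr_ae (Eventually.of_forall fun y => ?_)
    simp only
    rw [← Fintype.prod_subtype_mul_prod_subtype (fun i => (P i).natDegree = 0)]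
    congr 1
    refine prod_congr rfl fun i _ => ?_
    conv_lhs => rw [Polynomial.eq_C_of_natDegree_eq_zero i.2, Polynomial.eval_C]
  have hc := PetW_cs (μ := μ) hF hv h1 hM hw
  simp only [← e1] at hc
  have hn : 2 ^ s ≠ 0 := by positivity
  have e : 2 ^ (s + 1) - 1 = 2 ^ s + (2 ^ s - 1) := by
    have := Nat.one_le_two_pow (n := s)
    omega
  rw [pow_succ' 2 s, pow_mul, ← pow_succ' 2 s, e, pow_add, mul_assoc]
  refine (pow_le_pow_left₀ (sq_nonneg _) hc _).trans ?_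
  rw [mul_pow]
  refine mul_le_mul_of_nonneg_left ?_ (by positivity)
  rw [VV, mul_expect]
  refine (pow_expect_le _ (fun _ _ => expect_nonneg fun _ _ => norm_nonneg _) hn).trans
    (expect_le_expect fun k _ => ?_)
  rw [mul_expect]
  refine (pow_expect_le _ (fun _ _ => norm_nonneg _) hn).trans (expect_le_expect fun k' _ => ?_)
  have hcard : Fintype.card ({i // ¬(P i).natDegree = 0} × Bool) ≤ 2 * r + 1 := by
    have := Fintype.card_subtype_le fun i => ¬(P i).natDegree = 0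
    rw [Fintype.card_prod, Fintype.card_bool]
    omega
  have := H Y μ S _ hcard
    (fun j => Polynomial.taylor (bif j.2 then ((k' : ℕ) : ℝ) else ((k : ℕ) : ℝ)) (P j.1))
    (Polynomial.taylor ((k : ℕ) : ℝ) p)
    (hΦ _ ((k' : ℕ) : ℝ) _ fun Q hQ => by
      obtain ⟨⟨i, b⟩, -, rfl⟩ := mem_image.1 hQ
      refine Or.inl ⟨P i, mem_image_of_mem P (mem_univ _), Nat.one_le_iff_ne_zero.2 i.2, ?_⟩
      cases b
      · exact Or.inl rfl
      · exact Or.inr rfl)
    (fun j y => bif j.2 then conj (G j.1 y) else G j.1 y)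
    (fun j => by
      obtain ⟨i, b⟩ := j
      cases b
      · exact hG i
      · exact (hG i).conj) L M _ _ h1 hM (PetW_sup hw k k')
  refine le_trans (le_of_eq ?_) this
  congr 2
  refine tsum_congr fun x => ?_
  congr 1
  simp only [corr, one_mul, Fintype.prod_prod_type, Fintype.prod_bool, cond_true, cond_false,
    Polynomial.taylor_eval, prod_mul_distrib, map_prod, Int.cast_add, Int.cast_natCast]
  exact integral_congr_ae (Eventually.of_forall fun y => mul_comm _ _)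

theorem wpet (r D : ℕ) : ∃ s : ℕ, 1 ≤ s ∧ ∀ (Y : Type) [MeasurableSpace Y] (μ : Measure Y)
    [IsProbabilityMeasure μ] (S : Sys ℝ Y μ) (ι : Type) [Fintype ι], Fintype.card ι ≤ r →
      ∀ P : ι → ℝ[X], (∀ i, (P i).natDegree ≤ D) → ∀ (F : Y → ℂ) (G : ι → Y → ℂ), B1 F →
        (∀ i, B1 (G i)) → ∀ (L M : ℕ) (a : ℤ) (w : ℤ → ℝ), 1 ≤ M → M ≤ L →
          (∀ x, w x ≠ 0 → a ≤ x ∧ x < a + L) →
            ‖∑' x : ℤ, (w x : ℂ) * corr S F G fun i => (P i).eval (x : ℝ)‖ ^ 2 ^ s ≤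
              (2 * L : ℝ) ^ (2 ^ s - 1) * VV M s w := by
  obtain ⟨s, hs, H⟩ := pet_all ⟨PetW_recenter, PetW_union, PetW_step⟩ PetW_base (r + 1) D
  refine ⟨s, hs, fun Y _ μ _ S ι _ hι P hP F G hF hG L M a w h1 hM hw => ?_⟩
  have := H Y μ S (Option ι) (by rw [Fintype.card_option]; omega) (fun o => o.elim 0 P)
    (Polynomial.X ^ (D + 1))
    ⟨by rw [Polynomial.natDegree_X_pow]; omega, fun Q hQ => by
      obtain ⟨o, -, rfl⟩ := mem_image.1 hQ
      cases o
      · simp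
      · exact hP _⟩
    (fun o => o.elim F G) (fun o => by cases o; exacts [hF, hG _]) L M a w h1 hM hw
  simpa only [corr, one_mul, Fintype.prod_option, Option.elim, Polynomial.eval_zero,
    S.act_zero] using this

end Pool.Agent.MP_357fb4_an

end
end

section

/-!
Passing from one scale to the next.
-/

open scoped BigOperators Classical ComplexConjugate Polynomial
open Finset Filter MeasureTheory Topology

noncomputable section

namespace Pool.Agent.MP_357fb4_an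

variable {Y : Type} [MeasurableSpace Y] {μ : Measure Y} [IsProbabilityMeasure μ]

theorem Ctl.congr {S : Sys ℤ Y μ} {s : ℕ} {ι : Type} [Fintype ι] {ω : ℕ → ℕ → ℝ}
    {g g' : ι → ℕ → ℝ} (h : Ctl S s ω g) {B₀ : ℝ} (hg : ∀ i n, |g i n - g' i n| ≤ B₀) :
    Ctl S s ω g' := by
  intro B ε hε
  obtain ⟨δ, hδ, h1⟩ := h (B + B₀) ε hε
  refine ⟨δ, hδ, fun K hK => ?_⟩
  filter_upwards [h1 K hK] with J hJ F G a hF hG ha hb
  refine hJ F G a hF hG (fun i n => ?_) hb
  have h2 := abs_le.1 (ha i n)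
  have h3 := abs_le.1 (hg i n)
  rw [abs_le]
  constructor <;> linarith [h2.1, h2.2, h3.1, h3.2]

lemma Level_head (f : ℕ → ℝ) (hf : ∀ n, 0 ≤ f n) (n₀ J : ℕ) :
    ∑ n ∈ range J, (if n < n₀ then f n else 0) ≤ ∑ n ∈ range n₀, f n := by
  rw [← sum_filter]
  exact sum_le_sum_of_subset_of_nonneg (fun n hn => mem_range.2 (mem_filter.1 hn).2)
    fun n _ _ => hf n

/-- Comparison of weights, away from finitely many terms. -/
theorem Ctl.le {S : Sys ℤ Y μ} {s : ℕ} {ι : Type} [Fintype ι] {ω ω' : ℕ → ℕ → ℝ}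
    {g : ι → ℕ → ℝ} (h : Ctl S s ω g) (n₀ : ℕ) (C : ℝ) (h0 : ∀ᶠ J in atTop, ∀ n, 0 ≤ ω J n)
    (hle : ∀ᶠ J in atTop, ∀ n, n₀ ≤ n → ω' J n ≤ C * ω J n)
    (hs : ∀ n, n < n₀ → Tendsto (fun J => ω' J n) atTop (𝓝 0)) : Ctl S s ω' g := by
  intro B ε hε
  have hC : 0 < |C| + 1 := by positivity
  obtain ⟨δ, hδ, h1⟩ := h B (ε / (2 * (|C| + 1))) (by positivity)
  have h2 : Tendsto (fun J => ∑ n ∈ range n₀, |ω' J n|) atTop (𝓝 0) := by
    have := tendsto_finsetSum (range n₀) fun n hn => (hs n (mem_range.1 hn)).abs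
    simpa using this
  refine ⟨δ, hδ, fun K hK => ?_⟩
  filter_upwards [h1 K hK, h0, hle, h2.eventually (ge_mem_nhds (half_pos hε))] with J hJ k0 k1 k2
    F G a hF hG ha hb
  have h3 := hJ F G a hF hG ha hb
  have h4 := Level_head (fun n => |ω' J n|) (fun n => abs_nonneg _) n₀ J
  have h5 : ∑ n ∈ range J, ω' J n * ‖corr S F G fun i => a i n‖ ≤
      ∑ n ∈ range J, ((|C| + 1) * (ω J n * ‖corr S F G fun i => a i n‖) +
        if n < n₀ then |ω' J n| else 0) := by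
    refine sum_le_sum fun n _ => ?_
    have c0 := norm_nonneg (corr S F G fun i => a i n)
    have c1 := norm_corr_le S hF hG fun i => a i n
    have c2 := k0 n
    split_ifs with hn
    · have : ω' J n * ‖corr S F G fun i => a i n‖ ≤ |ω' J n| :=
        (mul_le_mul_of_nonneg_right (le_abs_self _) c0).trans
          (mul_le_of_le_one_right (abs_nonneg _) c1)
      have : 0 ≤ (|C| + 1) * (ω J n * ‖corr S F G fun i => a i n‖) := by positivity
      linarith
    · have c3 : ω' J n ≤ (|C| + 1) * ω J n :=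
        (k1 n (not_lt.1 hn)).trans (mul_le_mul_of_nonneg_right (by linarith [le_abs_self C]) c2)
      rw [add_zero, ← mul_assoc]
      exact mul_le_mul_of_nonneg_right c3 c0
  rw [sum_add_distrib, ← mul_sum] at h5
  have h6 := mul_le_mul_of_nonneg_left h3 hC.le
  have h7 : (|C| + 1) * (ε / (2 * (|C| + 1))) = ε / 2 := by field_simp
  linarith

theorem smooth {L : ℕ → ℕ} (hL : Smo L) (y₀ : ℕ) : ∃ n₁ : ℕ, ∀ w ψ : ℕ → ℝ, Antitone w →
    (∀ n, 0 ≤ w n) → (∀ n, 0 ≤ ψ n) → ∀ J : ℕ,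
      ∑ n ∈ Ico n₁ J, w n * ψ n ≤ 2 * ∑ y ∈ Ico y₀ J, w y * 𝔼 x ∈ range (L y), ψ (y + x) := by
  obtain ⟨N, hN⟩ := eventually_atTop.1 hL
  refine ⟨max N (2 * y₀), fun w ψ hw h0 h1 J => ?_⟩
  let T : (Σ _ : ℕ, ℕ) → ℝ := fun p => w p.1 * ψ (p.1 + p.2) / L p.1
  have hT : ∀ p, 0 ≤ T p := fun p => div_nonneg (mul_nonneg (h0 _) (h1 _)) (Nat.cast_nonneg _)
  let A : Finset (Σ _ : ℕ, ℕ) := (Ico (max N (2 * y₀)) J).sigma fun n => range ((L n + 1) / 2)
  let e : (Σ _ : ℕ, ℕ) → (Σ _ : ℕ, ℕ) := fun p => ⟨p.1 - p.2, p.2⟩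
  have hA : ∀ p ∈ A, N ≤ p.1 ∧ 2 * y₀ ≤ p.1 ∧ p.1 < J ∧ 2 * p.2 < L p.1 ∧ L p.1 ≤ p.1 := by
    intro p hp
    rw [mem_sigma, mem_Ico, mem_range, max_le_iff] at hp
    have := hN p.1 hp.1.1.1
    omega
  have e1 : ∑ y ∈ Ico y₀ J, w y * 𝔼 x ∈ range (L y), ψ (y + x) =
      ∑ p ∈ (Ico y₀ J).sigma fun y => range (L y), T p := by
    rw [sum_sigma]
    refine sum_congr rfl fun y _ => ?_
    rw [expect_eq_sum_div_card, card_range, ← mul_div_assoc, mul_sum, sum_div]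
  have e2 : ∑ p ∈ A, T (e p) ≤ ∑ p ∈ (Ico y₀ J).sigma fun y => range (L y), T p := by
    rw [← sum_image (s := A) (g := e) (f := T) (by
      rintro ⟨n, x⟩ hp ⟨n', x'⟩ hp' hpe
      have a1 := hA _ hp
      have a2 := hA _ hp'
      simp only [e, Sigma.mk.injEq, heq_eq_eq] at hpe a1 a2 ⊢
      omega)]
    refine sum_le_sum_of_subset_of_nonneg (fun p hp => ?_) fun p _ _ => hT p
    obtain ⟨q, hq, rfl⟩ := mem_image.1 hp
    have a1 := hA q hq
    have a2 := (hN q.1 a1.1).2.2 (q.1 - q.2) (Nat.sub_le _ _) (by omega)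
    simp only [e, mem_sigma, mem_Ico, mem_range]
    omega
  rw [e1]
  refine le_trans ?_ (mul_le_mul_of_nonneg_left e2 zero_le_two)
  rw [sum_sigma, mul_sum]
  refine sum_le_sum fun n hn => ?_
  have hn1 := hN n (le_trans (le_max_left _ _) (mem_Ico.1 hn).1)
  have hL0 : (0 : ℝ) < L n := by exact_mod_cast hn1.1
  have e3 : ∀ x ∈ range ((L n + 1) / 2), w n * ψ n / L n ≤ T (e ⟨n, x⟩) := by
    intro x hx
    rw [mem_range] at hx
    have a2 := hn1.2.2 (n - x) (Nat.sub_le _ _) (by omega)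
    have a3 : n - x + x = n := by omega
    simp only [T, e, a3]
    have a4 : (0 : ℝ) < L (n - x) := by exact_mod_cast lt_of_le_of_lt (Nat.zero_le _) a2.1
    exact div_le_div₀ (mul_nonneg (h0 _) (h1 _))
      (mul_le_mul_of_nonneg_right (hw (Nat.sub_le _ _)) (h1 n)) a4 (by exact_mod_cast a2.2)
  have e4 := card_nsmul_le_sum _ _ _ e3
  rw [card_range, nsmul_eq_mul] at e4
  have e5 : (L n : ℝ) ≤ 2 * ((L n + 1) / 2 : ℕ) := by
    have : L n ≤ 2 * ((L n + 1) / 2) := by omega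
    exact_mod_cast this
  have e6 : 0 ≤ w n * ψ n / L n := div_nonneg (mul_nonneg (h0 _) (h1 _)) hL0.le
  calc w n * ψ n = L n * (w n * ψ n / L n) := by field_simp
    _ ≤ 2 * ((L n + 1) / 2 : ℕ) * (w n * ψ n / L n) := mul_le_mul_of_nonneg_right e5 e6
    _ ≤ _ := by rw [mul_assoc]; exact mul_le_mul_of_nonneg_left e4 zero_le_two

omit [IsProbabilityMeasure μ] in
lemma Level_dl (S : Sys ℤ Y μ) {ι : Type} [Fintype ι] (F : Y → ℂ) (G : ι → Y → ℂ) (a : ι → ℤ)
    (h h' : ℤ) : dl S h h' (fun y => F y * ∏ i, G i (S.act (a i) y)) =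
      fun y => dl S h h' F y * ∏ i, dl S h h' (G i) (S.act (a i) y) := by
  funext y
  simp only [dl, act_act, map_mul, map_prod, prod_mul_distrib, add_comm (a _)]
  ring

theorem peel {S : Sys ℤ Y μ} {s₂ : ℕ} (hs : 1 ≤ s₂) {ι : Type} [Fintype ι] {ω : ℕ → ℕ → ℝ}
    {g : ι → ℕ → ℝ} (h0 : ∀ᶠ J in atTop, ∀ n, 0 ≤ ω J n)
    (h2 : ∀ᶠ J in atTop, ∑ n ∈ range J, ω J n ≤ 2) (h : Ctl S s₂ ω g) (s₁ : ℕ) (B : ℝ) {ε : ℝ}
    (hε : 0 < ε) : ∃ δ : ℝ, 0 < δ ∧ ∀ K : ℕ, 1 ≤ K → ∀ᶠ J : ℕ in atTop,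
      ∀ (F : Y → ℂ) (G : ι → Y → ℂ) (a : ι → ℕ → ℤ), B1 F → (∀ i, B1 (G i)) →
        (∀ i n, |(a i n : ℝ) - g i n| ≤ B) → box S (List.replicate (s₁ + s₂) K) F ≤ δ →
          ∑ n ∈ range J, ω J n * box S (List.replicate s₁ K)
            (fun y => F y * ∏ i, G i (S.act (a i n) y)) ≤ ε := by
  induction s₁ generalizing ε with
  | zero =>
    obtain ⟨δ, hδ, h1⟩ := h B ε hε
    refine ⟨δ, hδ, fun K hK => ?_⟩
    filter_upwards [h1 K hK, h0] with J hJ k0 F G a hF hG ha hb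
    rw [zero_add] at hb
    refine le_trans (sum_le_sum fun n _ => ?_) (hJ F G a hF hG ha hb)
    exact mul_le_mul_of_nonneg_left (Complex.re_le_norm _) (k0 n)
  | succ s₁ ih =>
    obtain ⟨δ, hδ, h1⟩ := ih (half_pos hε)
    refine ⟨δ * ε / 4, by positivity, fun K hK => ?_⟩
    filter_upwards [h1 K hK, h0, h2] with J hJ k0 k2 F G a hF hG ha hb
    rw [Nat.add_right_comm, List.replicate_succ, box] at hb
    have hne : (range K).Nonempty := nonempty_range_iff.2 (by omega)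
    have key : ∀ h h' : ℕ, ∑ n ∈ range J, ω J n * box S (List.replicate s₁ K)
        (dl S h h' fun y => F y * ∏ i, G i (S.act (a i n) y)) ≤
          ε / 2 + 2 / δ * box S (List.replicate (s₁ + s₂) K) (dl S h h' F) := by
      intro h h'
      have b0 : 0 ≤ box S (List.replicate (s₁ + s₂) K) (dl S h h' F) :=
        box_nonneg S (by simp; omega) (hF.dl S _ _)
      rcases le_total (box S (List.replicate (s₁ + s₂) K) (dl S h h' F)) δ with hb' | hb'
      · simp only [Level_dl]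
        have := hJ _ (fun i => dl S h h' (G i)) a (hF.dl S h h') (fun i => (hG i).dl S h h') ha hb'
        have b1 : 0 ≤ 2 / δ * box S (List.replicate (s₁ + s₂) K) (dl S h h' F) := by positivity
        linarith
      · have b1 : 2 ≤ 2 / δ * box S (List.replicate (s₁ + s₂) K) (dl S h h' F) := by
          rw [div_mul_eq_mul_div, le_div_iff₀ hδ]
          linarith
        have b2 : ∑ n ∈ range J, ω J n * box S (List.replicate s₁ K)
            (dl S h h' fun y => F y * ∏ i, G i (S.act (a i n) y)) ≤ ∑ n ∈ range J, ω J n :=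
          sum_le_sum fun n _ => mul_le_of_le_one_right (k0 n) ((le_abs_self _).trans
            (abs_box_le S _ ((corr_B1 S hF hG fun i => a i n).dl S _ _)))
        linarith
    have e : ∑ n ∈ range J, ω J n * box S (List.replicate (s₁ + 1) K)
        (fun y => F y * ∏ i, G i (S.act (a i n) y)) = 𝔼 h ∈ range K, 𝔼 h' ∈ range K,
          ∑ n ∈ range J, ω J n * box S (List.replicate s₁ K)
            (dl S (h : ℕ) (h' : ℕ) fun y => F y * ∏ i, G i (S.act (a i n) y)) := by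
      simp only [List.replicate_succ, box, mul_expect, expect_sum_comm]
    rw [e]
    refine (expect_le_expect fun h _ => expect_le_expect fun h' _ => key h h').trans ?_
    simp only [expect_add_distrib, expect_const hne, ← mul_expect]
    have b3 := mul_le_mul_of_nonneg_left hb (by positivity : 0 ≤ 2 / δ)
    have b4 : 2 / δ * (δ * ε / 4) = ε / 2 := by field_simp; ring
    linarith

theorem level (S : Sys ℤ Y μ) {ι : Type} [Fintype ι] (cl : ι → Prop) (g : ι → ℕ → ℝ)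
    (w θ Z : ℕ → ℝ) (hw : Antitone w) (hw0 : ∀ n, 0 ≤ w n) (hθ : ∀ n, 0 ≤ θ n)
    (hZ : Tendsto Z atTop atTop) (h2 : ∀ᶠ J in atTop, ∑ n ∈ range J, w n ≤ 2 * Z J)
    {s₁ s₂ : ℕ} (hs₁ : 1 ≤ s₁) (hs₂ : 1 ≤ s₂)
    (hcl : Ctl S s₂ (fun J n => w n / Z J) fun i : {i // cl i} => g i)
    (hloc : ∀ B ε : ℝ, 0 < ε → ∃ C₁ B' : ℝ, 0 ≤ C₁ ∧ ∀ K : ℕ, 1 ≤ K → ∃ L : ℕ → ℕ, Smo L ∧
      ∀ᶠ y : ℕ in atTop, ∀ (F : Y → ℂ) (G : ι → Y → ℂ) (a : ι → ℕ → ℤ), B1 F → (∀ i, B1 (G i)) →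
        (∀ i n, |(a i n : ℝ) - g i n| ≤ B) → ∃ v : {i // cl i} → ℤ,
          (∀ i, |(v i : ℝ) - g i y| ≤ B') ∧
            𝔼 x ∈ range (L y), θ (y + x) * ‖corr S F G fun i => a i (y + x)‖ ≤
              ε + C₁ * box S (List.replicate s₁ K)
                fun z => F z * ∏ i : {i // cl i}, G i (S.act (v i) z)) :
    Ctl S (s₁ + s₂) (fun J n => w n * θ n / Z J) g := by
  intro B ε hε
  obtain ⟨C₁, B', hC, h1⟩ := hloc B (ε / 16) (by positivity)
  have hZ0 : ∀ᶠ J in atTop, 0 < Z J := hZ.eventually_gt_atTop 0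
  obtain ⟨δ, hδ, h3⟩ := peel hs₂ (ω := fun J n => w n / Z J)
    (hZ0.mono fun J hJ n => div_nonneg (hw0 n) hJ.le)
    (by
      filter_upwards [hZ0, h2] with J k0 k1
      rw [← sum_div, div_le_iff₀ k0]
      exact k1) hcl s₁ (max B' 1) (ε := ε / (8 * (C₁ + 1))) (by positivity)
  refine ⟨δ, hδ, fun K hK => ?_⟩
  obtain ⟨L, hL, h4⟩ := h1 K hK
  obtain ⟨y₀, h4⟩ := eventually_atTop.1 h4
  obtain ⟨n₁, h5⟩ := smooth hL y₀
  filter_upwards [h3 K hK, hZ0, h2,
    hZ.eventually_ge_atTop ((∑ n ∈ range n₁, w n * θ n) * 2 / ε)] with J hJ k0 k1 k2 F G a hF hG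
    ha hb
  choose! v hv1 hv2 using fun y hy => h4 y hy F G a hF hG ha
  let a' : {i // cl i} → ℕ → ℤ := fun i y => if y₀ ≤ y then v y i else ⌊g i y⌋
  have ha' : ∀ i n, |(a' i n : ℝ) - g i n| ≤ max B' 1 := by
    intro i n
    by_cases hn : y₀ ≤ n
    · simp only [a', if_pos hn]
      exact (hv1 n hn i).trans (le_max_left _ _)
    · simp only [a', if_neg hn]
      refine le_trans ?_ (le_max_right _ _)
      rw [abs_le]
      constructor <;> linarith [Int.floor_le (g i n), Int.lt_floor_add_one (g i n)]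
  have h6 := hJ F (fun i => G i) a' hF (fun i => hG i) ha' hb
  let b : ℕ → ℝ := fun n => box S (List.replicate s₁ K)
    fun z => F z * ∏ i : {i // cl i}, G i (S.act (a' i n) z)
  have hb0 : ∀ n, 0 ≤ b n := fun n => box_nonneg S (by simp; omega)
    (corr_B1 S hF (fun i : {i // cl i} => hG i) fun i => a' i n)
  let ψ : ℕ → ℝ := fun n => θ n * ‖corr S F G fun i => a i n‖
  have hψ : ∀ n, 0 ≤ ψ n := fun n => mul_nonneg (hθ n) (norm_nonneg _)
  have h7 := h5 w ψ hw hw0 hψ J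
  have h8 : ∑ y ∈ Ico y₀ J, w y * 𝔼 x ∈ range (L y), ψ (y + x) ≤
      ∑ y ∈ range J, w y * (ε / 16 + C₁ * b y) := by
    refine le_trans (sum_le_sum fun y hy => ?_) (sum_le_sum_of_subset_of_nonneg
      (fun y hy => mem_range.2 (mem_Ico.1 hy).2) fun y _ _ =>
        mul_nonneg (hw0 y) (add_nonneg (by positivity) (mul_nonneg hC (hb0 y))))
    refine mul_le_mul_of_nonneg_left ?_ (hw0 y)
    simp only [b, a', if_pos (mem_Ico.1 hy).1]
    exact hv2 y (mem_Ico.1 hy).1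
  have h9 : ∑ y ∈ range J, w y * (ε / 16 + C₁ * b y) =
      ε / 16 * ∑ y ∈ range J, w y + C₁ * Z J * ∑ y ∈ range J, w y / Z J * b y := by
    rw [mul_sum, mul_sum, ← sum_add_distrib]
    refine sum_congr rfl fun y _ => ?_
    field_simp
  have h10 : ∑ n ∈ range J, w n * ψ n ≤
      ∑ n ∈ range n₁, w n * θ n + ∑ n ∈ Ico n₁ J, w n * ψ n := by
    have c1 : ∑ n ∈ range n₁, w n * ψ n ≤ ∑ n ∈ range n₁, w n * θ n :=
      sum_le_sum fun n _ => mul_le_mul_of_nonneg_left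
        (mul_le_of_le_one_right (hθ n) (norm_corr_le S hF hG _)) (hw0 n)
    have c2 : ∑ n ∈ range J, w n * ψ n ≤ ∑ n ∈ range n₁ ∪ Ico n₁ J, w n * ψ n :=
      sum_le_sum_of_subset_of_nonneg (fun n hn => by
        rw [mem_union, mem_range, mem_Ico]
        have := mem_range.1 hn
        omega) fun n _ _ => mul_nonneg (hw0 n) (hψ n)
    rw [sum_union (by
      rw [disjoint_left]
      intro n c3 c4
      have := mem_range.1 c3
      have := (mem_Ico.1 c4).1
      omega)] at c2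
    linarith
  have h11 : ∑ n ∈ range J, w n * θ n / Z J * ‖corr S F G fun i => a i n‖ =
      (∑ n ∈ range J, w n * ψ n) / Z J := by
    rw [sum_div]
    refine sum_congr rfl fun n _ => ?_
    simp only [ψ]
    ring
  have h12 : C₁ * Z J * ∑ y ∈ range J, w y / Z J * b y ≤ ε / 8 * Z J := by
    refine (mul_le_mul_of_nonneg_left h6 (mul_nonneg hC k0.le)).trans ?_
    have c1 : C₁ * (ε / (8 * (C₁ + 1))) ≤ ε / 8 := by
      rw [← mul_div_assoc, div_le_div_iff₀ (by positivity) (by positivity)]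
      nlinarith
    nlinarith
  have h13 : ε / 16 * ∑ y ∈ range J, w y ≤ ε / 16 * (2 * Z J) :=
    mul_le_mul_of_nonneg_left k1 (by positivity)
  rw [div_le_iff₀ hε] at k2
  show ∑ n ∈ range J, w n * θ n / Z J * ‖corr S F G fun i => a i n‖ ≤ ε
  rw [h11, div_le_iff₀ k0]
  linarith

end Pool.Agent.MP_357fb4_an

end
end

section

/-!
Analytic lemmas for the van der Corput step.
-/

open scoped BigOperators Classical ComplexConjugate Polynomial
open Finset Filter MeasureTheory Topology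

noncomputable section

namespace Pool.Agent.MP_357fb4_an

variable {Y : Type} [MeasurableSpace Y] {μ : Measure Y} [IsProbabilityMeasure μ]

lemma petT1_cs {ι : Type*} (s : Finset ι) {v : ι → Y → ℂ} (hv : ∀ i, B1 (v i)) {G : Y → ℂ}
    (hG : B1 G) : (𝔼 i ∈ s, ‖∫ y, G y * v i y ∂μ‖) ^ 2 ≤
      𝔼 i ∈ s, 𝔼 j ∈ s, ‖∫ y, v i y * conj (v j y) ∂μ‖ := by
  choose c hc hc' using fun i => Complex.exists_norm_eq_mul_self (∫ y, G y * v i y ∂μ)
  have hw : ∀ i, B1 fun y => c i * v i y := fun i => (B1.const (hc i).le).mul (hv i)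
  have hE := B1.expect s fun i _ => hw i
  have e₁ : ((𝔼 i ∈ s, ‖∫ y, G y * v i y ∂μ‖ : ℝ) : ℂ) =
      ∫ y, G y * 𝔼 i ∈ s, c i * v i y ∂μ := by
    simp only [mul_expect]
    rw [integral_expect s fun i _ => (hG.mul (hw i)).integrable, Complex.ofReal_expect]
    refine expect_congr rfl fun i _ => ?_
    rw [hc', ← integral_const_mul]
    exact integral_congr_ae (Eventually.of_forall fun y => by ring)
  have e₂ := sq_norm_integral_mul_le (μ := μ) hE.1 hE.2 hG.2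
  rw [← e₁, Complex.norm_real, Real.norm_eq_abs, sq_abs] at e₂
  refine e₂.trans ?_
  have hi : ∀ i j, Integrable (fun y => c i * v i y * conj (c j * v j y)) μ := fun i j =>
    ((hw i).mul (hw j).conj).integrable
  have hi' : ∀ i j, Integrable (fun y => (c i * v i y * conj (c j * v j y)).re) μ :=
    fun i j => (hi i j).re
  simp only [sq_norm_expect]
  rw [integral_expect_real s fun i _ => ?_]
  · refine expect_le_expect fun i _ => ?_
    rw [integral_expect_real s fun j _ => hi' i j]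
    refine expect_le_expect fun j _ => ?_
    have e₃ : ∫ y, c i * v i y * conj (c j * v j y) ∂μ =
        c i * conj (c j) * ∫ y, v i y * conj (v j y) ∂μ := by
      rw [← integral_const_mul]
      exact integral_congr_ae (Eventually.of_forall fun y => by simp only [map_mul]; ring)
    refine (integral_re (hi i j)).le.trans ((Complex.re_le_norm _).trans ?_)
    rw [e₃, norm_mul, norm_mul, Complex.norm_conj, hc, hc, one_mul, one_mul]
  · simp only [expect_eq_sum_div_card]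
    exact (integrable_finsetSum s fun j _ => hi' i j).div_const _

lemma petT1_shift {φ : ℕ → ℝ} (h0 : ∀ x, 0 ≤ φ x) (h1 : ∀ x, φ x ≤ 1) (L h : ℕ) :
    𝔼 x ∈ range L, φ x ≤ 𝔼 x ∈ range L, φ (x + h) + h / L := by
  simp only [expect_eq_sum_div_card, card_range]
  rw [← add_div]
  refine div_le_div_of_nonneg_right ?_ (Nat.cast_nonneg _)
  have h₁ : ∑ x ∈ range L, φ x ≤ ∑ x ∈ range (h + L), φ x :=
    sum_le_sum_of_subset_of_nonneg (range_mono (Nat.le_add_left L h)) fun x _ _ => h0 x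
  have h₂ := sum_le_card_nsmul (range h) φ 1 fun x _ => h1 x
  rw [sum_range_add] at h₁
  simp only [card_range, nsmul_eq_mul, mul_one] at h₂
  simp only [add_comm _ h]
  linarith

lemma petT1_vdc {L M : ℕ} (hL : 1 ≤ L) (hM : 1 ≤ M) {u : ℕ → Y → ℂ} (hu : ∀ x, B1 (u x))
    {G : Y → ℂ} (hG : B1 G) :
    𝔼 x ∈ range L, ‖∫ y, G y * u x y ∂μ‖ ≤ Real.sqrt (𝔼 h ∈ range M, 𝔼 h' ∈ range M,
      𝔼 x ∈ range L, ‖∫ y, u (x + h) y * conj (u (x + h') y) ∂μ‖) + 2 * M / L := by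
  have hL' : (0 : ℝ) < L := by exact_mod_cast hL
  have h₁ : 𝔼 x ∈ range L, ‖∫ y, G y * u x y ∂μ‖ - 2 * M / L ≤
      𝔼 h ∈ range M, 𝔼 x ∈ range L, ‖∫ y, G y * u (x + h) y ∂μ‖ := by
    refine le_expect (nonempty_range_iff.2 (by omega)) fun h hh => ?_
    have h₂ := petT1_shift (φ := fun x => ‖∫ y, G y * u x y ∂μ‖) (fun _ => norm_nonneg _)
      (fun x => (hG.mul (hu x)).norm_integral) L h
    have h₃ : (h : ℝ) / L ≤ 2 * M / L := by
      have : (h : ℝ) ≤ M := by exact_mod_cast (mem_range.1 hh).le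
      gcongr
      linarith [Nat.cast_nonneg (α := ℝ) M]
    linarith
  rw [sub_le_iff_le_add] at h₁
  refine h₁.trans (add_le_add_left (Real.le_sqrt_of_sq_le ?_) _)
  rw [expect_comm]
  refine (pow_expect_le _ (fun _ _ => expect_nonneg fun _ _ => norm_nonneg _) two_ne_zero).trans
    ((expect_le_expect fun x _ => petT1_cs (range M) (fun h => hu (x + h)) hG).trans_eq ?_)
  rw [expect_comm]
  exact expect_congr rfl fun h _ => expect_comm _ _ _

lemma petT1_card (T : Finset ℕ) {D : ℝ} (hD : 0 ≤ D) (h : ∀ a ∈ T, ∀ b ∈ T, (a : ℝ) - b ≤ D) :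
    (T.card : ℝ) ≤ D + 1 := by
  rcases T.eq_empty_or_nonempty with rfl | hT
  · simp only [card_empty, Nat.cast_zero]
    linarith
  have h₁ : T.card ≤ (Icc (T.min' hT) (T.max' hT)).card :=
    card_le_card fun a ha => mem_Icc.2 ⟨T.min'_le a ha, T.le_max' a ha⟩
  have h₂ := T.min'_le_max' hT
  have h₃ : T.card + T.min' hT ≤ T.max' hT + 1 := by
    rw [Nat.card_Icc] at h₁
    omega
  have h₄ : (T.card : ℝ) + T.min' hT ≤ T.max' hT + 1 := by exact_mod_cast h₃
  linarith [h _ (T.max'_mem hT) _ (T.min'_mem hT)]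

theorem pat_split (L : ℕ) {κ : Type} (s : Finset κ) (pat : ℕ → κ)
    (hpat : ∀ x, x < L → pat x ∈ s) (Φ : κ → ℕ → ℝ) (h0 : ∀ k x, 0 ≤ Φ k x) :
    𝔼 x ∈ range L, Φ (pat x) x ≤ ∑ k ∈ s, 𝔼 x ∈ range L, Φ k x := by
  rw [← expect_sum_comm]
  exact expect_le_expect fun x hx =>
    single_le_sum (f := fun k => Φ k x) (fun k _ => h0 k x) (hpat x (mem_range.1 hx))

/-- van der Corput with finitely many bounded multipliers. -/
theorem vdc {L M : ℕ} (hL : 1 ≤ L) (hM : 1 ≤ M) (u g : ℕ → Y → ℂ) (hu : ∀ x, B1 (u x))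
    (hg : ∀ x, B1 (g x)) {κ : Type} (s : Finset κ) (pat : ℕ → κ) (hpat : ∀ x, pat x ∈ s)
    (hgp : ∀ x x', pat x = pat x' → g x = g x') :
    𝔼 x ∈ range L, ‖∫ y, g x y * u x y ∂μ‖ ≤ s.card * (Real.sqrt (𝔼 h ∈ range M, 𝔼 h' ∈ range M,
      𝔼 x ∈ range L, ‖∫ y, u (x + h) y * conj (u (x + h') y) ∂μ‖) + 2 * M / L) := by
  have e : ∀ x, g (Function.invFun pat (pat x)) = g x := fun x =>
    hgp _ _ (Function.invFun_eq ⟨x, rfl⟩)
  have := pat_split L s pat (fun x _ => hpat x)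
    (fun k x => ‖∫ y, g (Function.invFun pat k) y * u x y ∂μ‖) fun _ _ => norm_nonneg _
  simp only [e] at this
  exact this.trans ((sum_le_card_nsmul _ _ _ fun k _ => petT1_vdc hL hM hu (hg _)).trans_eq
    (nsmul_eq_mul _ _))

/-- The choice of the range of the shifts. -/
theorem chooseM (C : ℝ) {η : ℝ} (hη : 0 < η) : ∃ C' : ℝ, ∀ Ω' : ℝ, ∃ Ω : ℝ, ∀ (L d : ℕ) (c : ℝ),
    Ω ≤ L → 2 ≤ d → |c| ≤ C → Ω ≤ |c| * (L : ℝ) ^ d → ∃ M : ℕ, 1 ≤ η * M ∧ (M : ℝ) ≤ η * L ∧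
      |c| * M ≤ C' ∧ Ω' ≤ η * |c| * M * (L : ℝ) ^ (d - 1) := by
  have hA : 0 < 1 / η := by positivity
  have hA' : η * (1 / η) = 1 := by field_simp
  refine ⟨(|C| + 1) * (1 / η + 1), fun Ω' => ⟨(1 / η + 1) / η + 2 * |Ω'| / η ^ 2 + 2 * |Ω'| + 1,
    fun L d c hL hd hc hΩ => ?_⟩⟩
  have p₁ : 0 < (1 / η + 1) / η := by positivity
  have p₂ : 0 ≤ 2 * |Ω'| / η ^ 2 := by positivity
  have p₃ := abs_nonneg Ω'
  have p₄ := abs_nonneg c
  have p₅ := abs_nonneg C
  have hL₁ : (1 : ℝ) ≤ L := by linarith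
  obtain ⟨t, t₁, t₂, t₃, t₄⟩ : ∃ t : ℝ, 1 / η + 1 ≤ t ∧ t ≤ η * L ∧
      |c| * t ≤ (|C| + 1) * (1 / η + 1) ∧ 2 * |Ω'| ≤ η * |c| * t * (L : ℝ) ^ (d - 1) := by
    rcases le_or_gt (|c| * (η * L)) ((|C| + 1) * (1 / η + 1)) with h | h
    · refine ⟨η * L, ?_, le_rfl, h, ?_⟩
      · have := (div_le_iff₀' hη).1 (show (1 / η + 1) / η ≤ L by linarith)
        exact this
      · have := (div_le_iff₀' (pow_pos hη 2)).1
          (show 2 * |Ω'| / η ^ 2 ≤ |c| * (L : ℝ) ^ d by linarith)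
        rw [show d = d - 1 + 1 by omega, pow_succ (L : ℝ)] at this
        linarith
    · have hc0 : 0 < |c| := by
        refine p₄.lt_of_ne' fun e => ?_
        rw [e, zero_mul] at h
        exact absurd h (not_lt.2 (by positivity))
      refine ⟨(|C| + 1) * (1 / η + 1) / |c|, ?_, ?_, by rw [mul_div_cancel₀ _ hc0.ne'], ?_⟩
      · rw [le_div_iff₀' hc0]
        exact mul_le_mul_of_nonneg_right (by linarith [le_abs_self C]) (by positivity)
      · rw [div_le_iff₀' hc0]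
        exact h.le
      · rw [mul_assoc η, mul_div_cancel₀ _ hc0.ne']
        have h₁ : (L : ℝ) ≤ (L : ℝ) ^ (d - 1) := le_self_pow₀ hL₁ (by omega)
        have h₂ : 1 ≤ η * ((|C| + 1) * (1 / η + 1)) := by nlinarith [mul_nonneg p₅ hη.le]
        nlinarith
  have f₁ := Nat.floor_le (show 0 ≤ t by linarith)
  have f₂ := Nat.lt_floor_add_one t
  have f₃ : (1 : ℝ) ≤ ⌊t⌋₊ := by exact_mod_cast Nat.floor_pos.2 (by linarith)
  refine ⟨⌊t⌋₊, by nlinarith, f₁.trans t₂, (mul_le_mul_of_nonneg_left f₁ p₄).trans t₃, ?_⟩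
  have f₄ : η * |c| * t * (L : ℝ) ^ (d - 1) ≤ η * |c| * (2 * ⌊t⌋₊) * (L : ℝ) ^ (d - 1) := by
    gcongr
    linarith
  linarith [le_abs_self Ω']

theorem count_lin (γ : ℝ) {c η : ℝ} (hc : c ≠ 0) (hη : 0 ≤ η) {d : ℕ} (hd : 1 ≤ d) (M h : ℕ) :
    (((range M).filter fun h' : ℕ => |γ + d * c * ((h' : ℝ) - h)| < η * |c| * M).card : ℝ) ≤
      2 * η * M + 1 := by
  refine petT1_card _ (by positivity) fun a ha b hb => ?_
  have h₁ := abs_sub_le (γ + d * c * ((a : ℝ) - h)) 0 (γ + d * c * ((b : ℝ) - h))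
  rw [sub_zero, zero_sub, abs_neg, show γ + d * c * ((a : ℝ) - h) - (γ + d * c * ((b : ℝ) - h)) =
    d * (c * (a - b)) by ring, abs_mul, abs_mul, Nat.abs_cast] at h₁
  have h₂ : (1 : ℝ) ≤ d := by exact_mod_cast hd
  have h₃ := abs_pos.2 hc
  refine (le_abs_self _).trans (le_of_mul_le_mul_left ?_ h₃)
  nlinarith [(mem_filter.1 ha).2, (mem_filter.1 hb).2, mul_nonneg h₃.le (abs_nonneg ((a : ℝ) - b))]

lemma petT1_few (S : Sys ℤ Y μ) {l : List ℕ} (hl : l ≠ []) {K : ℕ} (hK : 1 ≤ K) {δ δ' : ℝ}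
    (hδ : 0 ≤ δ) {F : Y → ℂ} (hF : B1 F) (h : box S (K :: l) F ≤ δ) (N : ℕ) :
    δ' * ((Icc (-N : ℤ) N).filter fun k => δ' < box S l (dl S 0 k F)).card ≤
      9 * (N + 1) * δ + 12 * K := by
  set B := (Icc (-N : ℤ) N).filter fun k => δ' < box S l (dl S 0 k F)
  have h0 : ∀ k, 0 ≤ box S l (dl S 0 k F) := fun k => box_nonneg S hl (hF.dl S 0 k)
  have h₁ := (box_mono S hK (show 1 ≤ 3 * N + 1 by omega) l hF).trans (add_le_add_left h _)
  have hN : (0 : ℝ) < (3 * N + 1 : ℕ) := by positivity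
  simp only [box, box_dl S l (_ : ℕ) (_ : ℕ) hF, expect_eq_sum_div_card, card_range,
    ← sum_div] at h₁
  rw [div_le_iff₀ hN, div_le_iff₀ hN, add_mul, div_mul_cancel₀ _ hN.ne'] at h₁
  have h₂ : ∀ j ∈ Icc N (2 * N), δ' * B.card ≤
      ∑ j' ∈ range (3 * N + 1), box S l (dl S 0 ((j' : ℤ) - (j : ℕ)) F) := fun j hj => by
    have h₃ := card_nsmul_le_sum B _ δ' fun k hk => (mem_filter.1 hk).2.le
    rw [nsmul_eq_mul, mul_comm] at h₃
    refine h₃.trans ((sum_le_sum_of_subset_of_nonneg (t := (range (3 * N + 1)).image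
      fun j' : ℕ => (j' : ℤ) - (j : ℕ)) (fun k hk => ?_) fun k _ _ => h0 k).trans
      (sum_image_le_of_nonneg fun k _ => h0 k))
    have h₄ := mem_Icc.1 (mem_filter.1 hk).1
    have h₅ := mem_Icc.1 hj
    exact mem_image.2 ⟨(k + j).toNat, mem_range.2 (by omega), by omega⟩
  have h₃ := (card_nsmul_le_sum _ _ _ h₂).trans (sum_le_sum_of_subset_of_nonneg
    (t := range (3 * N + 1)) (fun j hj => mem_range.2 (by have := mem_Icc.1 hj; omega))
    fun j _ _ => sum_nonneg fun j' _ => h0 _)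
  rw [nsmul_eq_mul, Nat.card_Icc, show 2 * N + 1 - N = N + 1 by omega] at h₃
  push_cast at h₁ h₃
  refine le_of_mul_le_mul_left (h₃.trans (h₁.trans ?_)) (by positivity)
  have hN' : (0 : ℝ) ≤ N := Nat.cast_nonneg N
  have hK' : (0 : ℝ) ≤ K := Nat.cast_nonneg K
  nlinarith [mul_nonneg hδ hN']

/-- Few pairs of shifts give a derivative with a large box average. -/
theorem count_merge (S : Sys ℤ Y μ) {s : ℕ} (hs : 1 ≤ s) (C : ℝ) {η δ' : ℝ} (hη : 0 < η)
    (hδ' : 0 < δ') : ∃ δ : ℝ, 0 < δ ∧ ∀ K : ℕ, 1 ≤ K → ∃ Ω : ℝ, ∀ (M : ℕ) (c : ℝ), |c| ≤ C →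
      Ω ≤ |c| * M → ∀ F : Y → ℂ, B1 F → box S (List.replicate (s + 1) K) F ≤ δ →
        (((range M ×ˢ range M).filter fun q : ℕ × ℕ => ∃ k : ℤ,
          |(k : ℝ) - c * ((q.2 : ℝ) - q.1)| ≤ 2 * C ∧
            δ' < box S (List.replicate s K) (dl S 0 k F)).card : ℝ) ≤ η * M ^ 2 := by
  obtain ⟨D, hD, hCD⟩ : ∃ D : ℝ, 0 < D ∧ C ≤ D := ⟨|C| + 1, by positivity, by
    linarith [le_abs_self C]⟩
  refine ⟨η * δ' / (180 * D), by positivity, fun K hK =>
    ⟨2 * D + 2 + 120 * K * D / (η * δ'), fun M c hc hΩ F hF hb => ?_⟩⟩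
  have p₁ : 0 ≤ 120 * K * D / (η * δ') := by positivity
  have ha : 0 < |c| := by
    refine (abs_nonneg c).lt_of_ne' fun e => ?_
    rw [e, zero_mul] at hΩ
    linarith
  have hM : (0 : ℝ) ≤ M := Nat.cast_nonneg M
  set N := ⌈|c| * M + 2 * D⌉₊ with hN
  have n₁ : |c| * M + 2 * D ≤ N := Nat.le_ceil _
  have n₂ : (N : ℝ) < |c| * M + 2 * D + 1 := Nat.ceil_lt_add_one (by positivity)
  have h₁ := petT1_few S (l := List.replicate s K) (δ' := δ') (by simp; omega) hK (by positivity)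
    hF hb N
  set B := (Icc (-N : ℤ) N).filter fun k => δ' < box S (List.replicate s K) (dl S 0 k F)
  have h₂ : 5 * D * B.card ≤ |c| * M * η := by
    have h₃ := (div_le_iff₀ (mul_pos hη hδ')).1
      (show 120 * K * D / (η * δ') ≤ |c| * M by linarith)
    have h₄ : 9 * (N + 1) * (η * δ' / (180 * D)) ≤ 9 * (2 * (|c| * M)) * (η * δ' / (180 * D)) := by
      gcongr
      linarith
    have h₅ : D * (9 * (2 * (|c| * M)) * (η * δ' / (180 * D))) = |c| * M * (η * δ') / 10 := by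
      field_simp
      ring
    refine le_of_mul_le_mul_left ?_ hδ'
    nlinarith [mul_le_mul_of_nonneg_left (h₁.trans (add_le_add_left h₄ _)) hD.le]
  let T : ℕ × ℤ → Finset ℕ := fun p =>
    (range M).filter fun h' => |(p.2 : ℝ) - c * ((h' : ℝ) - p.1)| ≤ 2 * C
  have h₃ : ∀ p, ((T p).card : ℝ) ≤ 5 * D / |c| := fun p => by
    refine (petT1_card (D := 4 * D / |c|) _ (by positivity) fun a ha' b hb' => ?_).trans ?_
    · have h₄ := abs_sub_le ((p.2 : ℝ) - c * ((b : ℝ) - p.1)) 0 ((p.2 : ℝ) - c * ((a : ℝ) - p.1))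
      rw [sub_zero, zero_sub, abs_neg, show (p.2 : ℝ) - c * ((b : ℝ) - p.1) -
        ((p.2 : ℝ) - c * ((a : ℝ) - p.1)) = c * (a - b) by ring, abs_mul] at h₄
      refine (le_abs_self _).trans ((le_div_iff₀' ha).2 ?_)
      linarith [(mem_filter.1 ha').2, (mem_filter.1 hb').2]
    · rw [le_div_iff₀ ha, add_mul, div_mul_cancel₀ _ ha.ne']
      linarith
  refine le_trans (b := ∑ p ∈ range M ×ˢ B, ((T p).card : ℝ)) ?_ ?_
  · rw [← Nat.cast_sum, Nat.cast_le]
    refine (card_le_card (t := (range M ×ˢ B).biUnion fun p => (T p).image fun h' => (p.1, h'))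
      fun q hq => ?_).trans (card_biUnion_le.trans (sum_le_sum fun p _ => card_image_le))
    obtain ⟨h₄, k, h₅, h₆⟩ := mem_filter.1 hq
    obtain ⟨h₇, h₈⟩ := mem_product.1 h₄
    refine mem_biUnion.2 ⟨(q.1, k), mem_product.2 ⟨h₇, mem_filter.2 ⟨?_, h₆⟩⟩,
      mem_image.2 ⟨q.2, mem_filter.2 ⟨h₈, h₅⟩, rfl⟩⟩
    have q₁ : (q.1 : ℝ) ≤ M := by exact_mod_cast (mem_range.1 h₇).le
    have q₂ : (q.2 : ℝ) ≤ M := by exact_mod_cast (mem_range.1 h₈).le
    have q₃ : |(q.2 : ℝ) - q.1| ≤ M := abs_le.2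
      ⟨by linarith [Nat.cast_nonneg (α := ℝ) q.2], by linarith [Nat.cast_nonneg (α := ℝ) q.1]⟩
    have q₄ := abs_sub_abs_le_abs_sub (k : ℝ) (c * ((q.2 : ℝ) - q.1))
    rw [abs_mul] at q₄
    have q₅ : |(k : ℝ)| ≤ N := by linarith [mul_le_mul_of_nonneg_left q₃ ha.le]
    exact mem_Icc.2 (abs_le.1 (by exact_mod_cast q₅))
  · refine (sum_le_card_nsmul _ _ _ fun p _ => h₃ p).trans ?_
    rw [nsmul_eq_mul, card_product, card_range, Nat.cast_mul, ← mul_div_assoc, div_le_iff₀ ha]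
    nlinarith [mul_le_mul_of_nonneg_left h₂ hM]

/-- An average over pairs, with a small exceptional set. -/
theorem expect_pairs_le {M : ℕ} (Φ : ℕ → ℕ → ℝ) (bad : ℕ × ℕ → Prop) {η ε : ℝ} (hη : 0 ≤ η)
    (hε : 0 ≤ ε) (h1 : ∀ h h', Φ h h' ≤ 1)
    (hb : (((range M ×ˢ range M).filter bad).card : ℝ) ≤ η * M ^ 2)
    (hg : ∀ h h', h < M → h' < M → ¬ bad (h, h') → Φ h h' ≤ ε) :
    𝔼 h ∈ range M, 𝔼 h' ∈ range M, Φ h h' ≤ η + ε := by
  rcases Nat.eq_zero_or_pos M with rfl | hM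
  · simpa using add_nonneg hη hε
  have h₁ : ∑ q ∈ range M ×ˢ range M, Φ q.1 q.2 ≤
      ∑ q ∈ range M ×ˢ range M, ((if bad q then 1 else 0) + ε) := sum_le_sum fun q hq => by
    split_ifs with h
    · linarith [h1 q.1 q.2]
    · rw [zero_add]
      exact hg _ _ (mem_range.1 (mem_product.1 hq).1) (mem_range.1 (mem_product.1 hq).2) h
  rw [sum_add_distrib, sum_boole, sum_const, card_product, card_range, nsmul_eq_mul] at h₁
  rw [← expect_product', expect_eq_sum_div_card, card_product, card_range,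
    div_le_iff₀ (by positivity)]
  push_cast at h₁ ⊢
  linarith

end Pool.Agent.MP_357fb4_an

end
end
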