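import Pool.Agent.Mg.F14ad9d.G85b896
import Pool.Agent.Mg.F14ad9d.Gf5c998
import Pool.Agent.Mg.F14ad9d.Gfcb572
import Pool.Agent.Mg.F14ad9d.G228e21

section

/-!
From single scales to the weighted averages.
-/

open scoped BigOperators Classical ComplexConjugate Polynomial
open Finset Filter MeasureTheory Topology

noncomputable section

namespace Pool.Agent.MP_357fb4_an

lemma Glob1_three {W : ℝ → ℝ} {T : ℕ} (hW : Wt W T) {t : ℝ} (ht : (T : ℝ) ≤ t) : 3 ≤ t := by
  have : (3 : ℝ) ≤ T := by exact_mod_cast hW.three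
  linarith

theorem Wt.mono {W : ℝ → ℝ} {T : ℕ} (hW : Wt W T) : StrictMonoOn W (Set.Ici (T : ℝ)) := by
  refine strictMonoOn_of_deriv_pos (convex_Ici _) ?_ ?_
  · exact fun t ht => (hW.diff t ht).continuousAt.continuousWithinAt
  · intro t ht
    exact hW.pos t (Set.mem_Ici.1 (interior_subset ht))

theorem Wt.anti1 {W : ℝ → ℝ} {T : ℕ} (hW : Wt W T) :
    AntitoneOn (fun t => t * deriv W t) (Set.Ici (T : ℝ)) := by
  intro s hs t ht hst
  have h3 := Glob1_three hW hs
  have h := hW.anti hs ht hst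
  have hl : 0 < Real.log s := Real.log_pos (by linarith)
  have hl' : Real.log s ≤ Real.log t := Real.log_le_log (by linarith) hst
  have hp : 0 ≤ t * deriv W t := mul_nonneg (by linarith) (hW.pos t ht).le
  simp only at h ⊢
  refine le_of_mul_le_mul_right ?_ hl
  nlinarith [mul_le_mul_of_nonneg_left hl' hp]

theorem Wt.anti0 {W : ℝ → ℝ} {T : ℕ} (hW : Wt W T) : AntitoneOn (deriv W) (Set.Ici (T : ℝ)) := by
  intro s hs t ht hst
  have h3 := Glob1_three hW hs
  have h := hW.anti1 hs ht hst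
  have hp := (hW.pos t ht).le
  simp only at h
  refine le_of_mul_le_mul_left (a := s) ?_ (by linarith)
  nlinarith [mul_le_mul_of_nonneg_right hst hp]

theorem Wt.deriv_le {W : ℝ → ℝ} {T : ℕ} (hW : Wt W T) {s t : ℝ} (hs : T ≤ s) (hst : s ≤ t) :
    (t - s) * deriv W t ≤ W t - W s := by
  rcases hst.eq_or_lt with rfl | hlt
  · simp
  obtain ⟨c, hc, hc'⟩ := exists_deriv_eq_slope W hlt
    (fun x hx => (hW.diff x (hs.trans hx.1)).continuousAt.continuousWithinAt)
    (fun x hx => (hW.diff x (hs.trans hx.1.le)).differentiableWithinAt)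
  have h := hW.anti0 (Set.mem_Ici.2 (hs.trans hc.1.le)) (Set.mem_Ici.2 (hs.trans hst)) hc.2.le
  rw [hc', le_div_iff₀ (by linarith)] at h
  linarith

theorem Wt.later {W : ℝ → ℝ} {T T' : ℕ} (hW : Wt W T) (h : T ≤ T') : Wt W T' := by
  have h' : (T : ℝ) ≤ T' := by exact_mod_cast h
  exact ⟨hW.three.trans h, fun t ht => hW.diff t (h'.trans ht), fun t ht => hW.pos t (h'.trans ht),
    hW.anti.mono (Set.Ici_subset_Ici.2 h'), hW.top,
    hW.nonneg.trans (hW.mono.monotoneOn (Set.mem_Ici.2 le_rfl) (Set.mem_Ici.2 h') h')⟩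

lemma Glob1_th_nonneg (n : ℕ) : 0 ≤ th n := by
  unfold th
  split_ifs
  · exact Real.log_natCast_nonneg n
  · exact le_rfl

theorem lam_nonneg {W : ℝ → ℝ} {T : ℕ} (hW : Wt W T) {j : ℕ} (hj : T ≤ j) (n : ℕ) :
    0 ≤ lam W T j n := by
  unfold lam
  split_ifs with h
  · exact div_nonneg (mul_nonneg (Glob1_th_nonneg n) (hW.pos n (by exact_mod_cast h)).le)
      (mul_nonneg zero_le_two (hW.later hj).nonneg)
  · exact le_rfl

lemma Glob1_top {W : ℝ → ℝ} {T : ℕ} (hW : Wt W T) (c : ℝ) :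
    Tendsto (fun j : ℕ => c / (2 * W j)) atTop (𝓝 0) :=
  ((hW.top.comp tendsto_natCast_atTop_atTop).const_mul_atTop two_pos).const_div_atTop c

/-- The sum without the normalisation. -/
lemma Glob1_split (W : ℝ → ℝ) (φ : ℕ → ℂ) {T N j : ℕ} (h : T ≤ N) (hj : N ≤ j) :
    ∑ n ∈ range j, (lam W T j n : ℂ) * φ n =
      (∑ n ∈ Ico T N, ((th n * deriv W n : ℝ) : ℂ) * φ n +
        ∑ n ∈ Ico N j, ((th n * deriv W n : ℝ) : ℂ) * φ n) / ((2 * W j : ℝ) : ℂ) := by
  rw [Finset.sum_Ico_consecutive _ h hj, Finset.sum_div, Finset.range_eq_Ico,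
    ← Finset.sum_Ico_consecutive _ (Nat.zero_le T) (h.trans hj)]
  rw [Finset.sum_eq_zero (s := Ico 0 T), zero_add]
  · refine Finset.sum_congr rfl fun n hn => ?_
    rw [lam, if_pos (Finset.mem_Ico.1 hn).1]
    push_cast
    ring
  · intro n hn
    rw [lam, if_neg (not_le.2 (Finset.mem_Ico.1 hn).2)]
    simp

/-- Changing the starting point does not change the limit. -/
theorem lam_later {W : ℝ → ℝ} {T T' : ℕ} (hW : Wt W T) (h : T ≤ T') (φ : ℕ → ℂ) :
    Tendsto (fun j => ∑ n ∈ range j, (lam W T j n : ℂ) * φ n -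
      ∑ n ∈ range j, (lam W T' j n : ℂ) * φ n) atTop (𝓝 0) := by
  rw [tendsto_zero_iff_norm_tendsto_zero]
  refine (Glob1_top hW ‖∑ n ∈ Ico T T', ((th n * deriv W n : ℝ) : ℂ) * φ n‖).congr' ?_
  filter_upwards [eventually_ge_atTop T'] with j hj
  rw [Glob1_split W φ h hj, Glob1_split W φ le_rfl hj, ← sub_div]
  simp only [Finset.Ico_self, Finset.sum_empty, zero_add, add_sub_cancel_right, norm_div,
    Complex.norm_real, Real.norm_eq_abs]
  rw [abs_of_nonneg (mul_nonneg zero_le_two (hW.later (h.trans hj)).nonneg)]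

/-- The antitone density. -/
def Glob1_rho (W : ℝ → ℝ) (t : ℝ) : ℝ := t * Real.log t * deriv W t

lemma Glob1_rho_nonneg {W : ℝ → ℝ} {T : ℕ} (hW : Wt W T) {t : ℝ} (ht : (T : ℝ) ≤ t) :
    0 ≤ Glob1_rho W t := by
  have h3 := Glob1_three hW ht
  exact mul_nonneg (mul_nonneg (by linarith) (Real.log_nonneg (by linarith))) (hW.pos t ht).le

lemma Glob1_rho_anti {W : ℝ → ℝ} {T : ℕ} (hW : Wt W T) {s t : ℝ} (hs : (T : ℝ) ≤ s) (h : s ≤ t) :
    Glob1_rho W t ≤ Glob1_rho W s :=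
  hW.anti (Set.mem_Ici.2 hs) (Set.mem_Ici.2 (hs.trans h)) h

lemma Glob1_gain {W : ℝ → ℝ} {T : ℕ} (hW : Wt W T) {s : ℝ} (hs : (T : ℝ) ≤ s) :
    Glob1_rho W (s ^ 2) * Real.log 2 ≤ W (s ^ 2) - W s := by
  have h3 := Glob1_three hW hs
  have hlt : s < s ^ 2 := by nlinarith
  have hd : ∀ x, s ≤ x → HasDerivAt (fun t => Real.log (Real.log t)) (x⁻¹ / Real.log x) x :=
    fun x hx => (Real.hasDerivAt_log (by linarith)).log (Real.log_pos (by linarith)).ne'
  obtain ⟨c, hc, hc'⟩ := exists_ratio_hasDerivAt_eq_ratio_slope W (deriv W) hlt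
    (fun x hx => (hW.diff x (hs.trans hx.1)).continuousAt.continuousWithinAt)
    (fun x hx => (hW.diff x (hs.trans hx.1.le)).hasDerivAt)
    (fun t => Real.log (Real.log t)) (fun x => x⁻¹ / Real.log x)
    (fun x hx => (hd x hx.1).continuousAt.continuousWithinAt) (fun x hx => hd x hx.1.le)
  have hl : 0 < Real.log s := Real.log_pos (by linarith)
  have e : Real.log (Real.log (s ^ 2)) - Real.log (Real.log s) = Real.log 2 := by
    rw [Real.log_pow, Real.log_mul (by norm_num) hl.ne']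
    simp
  rw [e] at hc'
  have hc0 : 0 < c := by linarith [hc.1]
  have hlc : 0 < Real.log c := Real.log_pos (by linarith [hc.1])
  have e2 : W (s ^ 2) - W s = Glob1_rho W c * Real.log 2 := by
    unfold Glob1_rho
    field_simp at hc'
    linarith
  rw [e2]
  exact mul_le_mul_of_nonneg_right (Glob1_rho_anti hW (hs.trans hc.1.le) hc.2.le)
    (Real.log_nonneg one_le_two)

lemma Glob1_primes (W : ℝ → ℝ) (φ : ℕ → ℂ) (s : Finset ℕ) :
    ∑ n ∈ s, ((th n * deriv W n : ℝ) : ℂ) * φ n =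
      ∑ p ∈ s.filter Nat.Prime, (Glob1_rho W p : ℂ) * (φ p / p) := by
  rw [Finset.sum_filter]
  refine Finset.sum_congr rfl fun n _ => ?_
  unfold th Glob1_rho
  split_ifs with h
  · have : (n : ℂ) ≠ 0 := by exact_mod_cast h.ne_zero
    push_cast
    field_simp
  · simp

lemma Glob1_small {φ : ℕ → ℂ} (hφ : ∀ n, ‖φ n‖ ≤ 1) {C : ℝ}
    (hC : ∀ y : ℝ, 1 ≤ y → ∀ s : Finset ℕ,
      (∀ p ∈ s, p.Prime ∧ y < p ∧ (p : ℝ) ≤ y ^ 2) → ∑ p ∈ s, (1 : ℝ) / p ≤ C)
    {N m : ℕ} (hN : 1 ≤ N) (hm : m ≤ N ^ 2) (c : ℕ → ℝ) {B : ℝ} (hB : 0 ≤ B)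
    (hc : ∀ p ∈ Ioc N m, |c p| ≤ B) :
    ‖∑ p ∈ (Ioc N m).filter Nat.Prime, (c p : ℂ) * (φ p / p)‖ ≤ B * C := by
  refine (norm_sum_le _ _).trans (le_trans ?_ (mul_le_mul_of_nonneg_left
    (hC N (by exact_mod_cast hN) ((Ioc N m).filter Nat.Prime) fun p hp => ?_) hB))
  · rw [Finset.mul_sum]
    refine Finset.sum_le_sum fun p hp => ?_
    rw [norm_mul, norm_div, Complex.norm_real, Real.norm_eq_abs, Complex.norm_natCast]
    exact mul_le_mul (hc p (Finset.mem_filter.1 hp).1)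
      (div_le_div_of_nonneg_right (hφ p) (Nat.cast_nonneg p)) (by positivity) hB
  · obtain ⟨h1, h2⟩ := Finset.mem_filter.1 hp
    obtain ⟨h3, h4⟩ := Finset.mem_Ioc.1 h1
    exact ⟨h2, by exact_mod_cast h3, by exact_mod_cast h4.trans hm⟩

lemma Glob1_cell {W : ℝ → ℝ} {T : ℕ} (hW : Wt W T) {φ : ℕ → ℂ} (hφ : ∀ n, ‖φ n‖ ≤ 1) {C : ℝ}
    (hC : ∀ y : ℝ, 1 ≤ y → ∀ s : Finset ℕ,
      (∀ p ∈ s, p.Prime ∧ y < p ∧ (p : ℝ) ≤ y ^ 2) → ∑ p ∈ s, (1 : ℝ) / p ≤ C)
    {N : ℕ} (hN : T ≤ N) {ε : ℝ} (hε : 0 ≤ ε)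
    (h : ‖∑ p ∈ (Ioc N (N ^ 2)).filter Nat.Prime, φ p / p‖ ≤ ε) :
    ‖∑ n ∈ Ioc N (N ^ 2), ((th n * deriv W n : ℝ) : ℂ) * φ n‖ ≤
      (ε / Real.log 2 * W ((N ^ 2 : ℕ) : ℝ) - (C + ε) * Glob1_rho W ((N ^ 2 : ℕ) : ℝ)) -
        (ε / Real.log 2 * W N - (C + ε) * Glob1_rho W N) := by
  have hN' : (T : ℝ) ≤ N := by exact_mod_cast hN
  have h3 := Glob1_three hW hN'
  have hg := Glob1_gain hW hN'
  have h2 : 0 < Real.log 2 := Real.log_pos one_lt_two
  have hle : (N : ℝ) ≤ (N : ℝ) ^ 2 := by nlinarith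
  have e : ∑ p ∈ (Ioc N (N ^ 2)).filter Nat.Prime, (Glob1_rho W p : ℂ) * (φ p / p) =
      (Glob1_rho W N : ℂ) * ∑ p ∈ (Ioc N (N ^ 2)).filter Nat.Prime, φ p / p +
        ∑ p ∈ (Ioc N (N ^ 2)).filter Nat.Prime,
          ((Glob1_rho W p - Glob1_rho W N : ℝ) : ℂ) * (φ p / p) := by
    rw [Finset.mul_sum, ← Finset.sum_add_distrib]
    refine Finset.sum_congr rfl fun p _ => ?_
    push_cast
    ring
  have hs := Glob1_small hφ hC (N := N) (m := N ^ 2) (by have := hW.three; omega) le_rfl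
    (fun p => Glob1_rho W p - Glob1_rho W N)
    (B := Glob1_rho W N - Glob1_rho W ((N : ℝ) ^ 2)) (sub_nonneg.2 (Glob1_rho_anti hW hN' hle))
    (fun p hp => by
      obtain ⟨h4, h5⟩ := Finset.mem_Ioc.1 hp
      have h6 : (N : ℝ) ≤ p := by exact_mod_cast h4.le
      have h7 : (p : ℝ) ≤ (N : ℝ) ^ 2 := by exact_mod_cast h5
      rw [abs_sub_comm, abs_of_nonneg (sub_nonneg.2 (Glob1_rho_anti hW hN' h6))]
      linarith [Glob1_rho_anti hW (hN'.trans h6) h7])
  rw [Glob1_primes, e]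
  refine (norm_add_le _ _).trans ?_
  rw [norm_mul, Complex.norm_real, Real.norm_eq_abs, abs_of_nonneg (Glob1_rho_nonneg hW hN')]
  have h8 := mul_le_mul_of_nonneg_left h (Glob1_rho_nonneg hW hN')
  have h9 : ε * Glob1_rho W ((N : ℝ) ^ 2) ≤ ε / Real.log 2 * (W ((N : ℝ) ^ 2) - W N) := by
    rw [div_mul_eq_mul_div, mul_div_assoc]
    exact mul_le_mul_of_nonneg_left ((le_div_iff₀ h2).2 hg) hε
  push_cast at hs ⊢
  nlinarith

lemma Glob1_total {W : ℝ → ℝ} {T : ℕ} (hW : Wt W T) {φ : ℕ → ℂ} (hφ : ∀ n, ‖φ n‖ ≤ 1) {C : ℝ}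
    (hC : ∀ y : ℝ, 1 ≤ y → ∀ s : Finset ℕ,
      (∀ p ∈ s, p.Prime ∧ y < p ∧ (p : ℝ) ≤ y ^ 2) → ∑ p ∈ s, (1 : ℝ) / p ≤ C)
    {ε : ℝ} (hε : 0 ≤ ε)
    (h : ∀ N, T ≤ N → ‖∑ p ∈ (Ioc N (N ^ 2)).filter Nat.Prime, φ p / p‖ ≤ ε) {m : ℕ} (hm : T ≤ m) :
    ‖∑ n ∈ Ioc T m, ((th n * deriv W n : ℝ) : ℂ) * φ n‖ ≤
      ε / Real.log 2 * W m + (2 * C + ε) * Glob1_rho W T := by
  have hC0 : 0 ≤ C := by simpa using hC 1 le_rfl ∅ (by simp)
  have h2 : 0 ≤ ε / Real.log 2 := div_nonneg hε (Real.log_nonneg one_le_two)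
  have hT := hW.three
  have hge : ∀ i : ℕ, T ≤ T ^ 2 ^ i := fun i => Nat.le_self_pow (by positivity) T
  have hsq : ∀ i : ℕ, T ^ 2 ^ (i + 1) = (T ^ 2 ^ i) ^ 2 := fun i => by rw [pow_succ, pow_mul]
  have P : ∀ i : ℕ, ‖∑ n ∈ Ioc T (T ^ 2 ^ i), ((th n * deriv W n : ℝ) : ℂ) * φ n‖ ≤
      (ε / Real.log 2 * W ((T ^ 2 ^ i : ℕ) : ℝ) - (C + ε) * Glob1_rho W ((T ^ 2 ^ i : ℕ) : ℝ)) -
        (ε / Real.log 2 * W T - (C + ε) * Glob1_rho W T) := by
    intro i
    induction i with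
    | zero => simp
    | succ i ih =>
      rw [hsq, ← Finset.sum_Ioc_consecutive _ (hge i) (Nat.le_self_pow two_ne_zero _)]
      refine (norm_add_le _ _).trans ?_
      linarith [Glob1_cell hW hφ hC (hge i) hε (h _ (hge i))]
  have hr0 := Glob1_rho_nonneg hW (t := T) le_rfl
  have Q : ∀ i : ℕ, m ≤ T ^ 2 ^ i → ‖∑ n ∈ Ioc T m, ((th n * deriv W n : ℝ) : ℂ) * φ n‖ ≤
      ε / Real.log 2 * W m + (2 * C + ε) * Glob1_rho W T := by
    intro i
    induction i with
    | zero =>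
      intro hi
      have : m = T := le_antisymm (by simpa using hi) hm
      subst this
      have := hW.nonneg
      simp only [Finset.Ioc_self, Finset.sum_empty, norm_zero]
      positivity
    | succ i ih =>
      intro hi
      rcases le_total m (T ^ 2 ^ i) with h1 | h1
      · exact ih h1
      have hN' : (T : ℝ) ≤ ((T ^ 2 ^ i : ℕ) : ℝ) := by exact_mod_cast hge i
      have h1' : ((T ^ 2 ^ i : ℕ) : ℝ) ≤ m := by exact_mod_cast h1
      rw [← Finset.sum_Ioc_consecutive _ (hge i) h1]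
      refine (norm_add_le _ _).trans ?_
      have hs := Glob1_small hφ hC (N := T ^ 2 ^ i) (m := m) (by have := hge i; omega)
        (by rw [← hsq]; exact hi) (fun p => Glob1_rho W p) hr0
        (fun p hp => by
          have h6 : (T : ℝ) ≤ p := by exact_mod_cast (hge i).trans (Finset.mem_Ioc.1 hp).1.le
          rw [abs_of_nonneg (Glob1_rho_nonneg hW h6)]
          exact Glob1_rho_anti hW le_rfl h6)
      rw [← Glob1_primes] at hs
      have h4 := mul_le_mul_of_nonneg_left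
        (hW.mono.monotoneOn (Set.mem_Ici.2 hN') (Set.mem_Ici.2 (hN'.trans h1')) h1') h2
      have h5 := mul_nonneg (add_nonneg hC0 hε) (Glob1_rho_nonneg hW hN')
      have h6 := mul_nonneg h2 hW.nonneg
      nlinarith [P i]
  refine Q m ?_
  calc m ≤ 2 ^ m := Nat.lt_two_pow_self.le
    _ ≤ 2 ^ 2 ^ m := Nat.lt_two_pow_self.le
    _ ≤ T ^ 2 ^ m := Nat.pow_le_pow_left (by omega) _

theorem glob1 {W : ℝ → ℝ} {T : ℕ} (hW : Wt W T) {φ : ℕ → ℂ} (hφ : ∀ n, ‖φ n‖ ≤ 1) (h : LocI φ) :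
    Tendsto (fun j => ∑ n ∈ range j, (lam W T j n : ℂ) * φ n) atTop (𝓝 0) := by
  obtain ⟨C, hC⟩ := prime_recip
  rw [NormedAddGroup.tendsto_nhds_zero]
  intro ε hε
  have h2 : 0 < Real.log 2 := Real.log_pos one_lt_two
  obtain ⟨N₀, hN₀⟩ := eventually_atTop.1
    (NormedAddGroup.tendsto_nhds_zero.1 h (ε * Real.log 2) (mul_pos hε h2))
  set N := max T N₀ with hN
  have hTN : T ≤ N := le_max_left _ _
  have hW' := hW.later hTN
  set K := ‖∑ n ∈ Ico T (N + 1), ((th n * deriv W n : ℝ) : ℂ) * φ n‖ +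
    (2 * C + ε * Real.log 2) * Glob1_rho W N with hK
  filter_upwards [eventually_ge_atTop (N + 1),
    (Glob1_top hW K).eventually (gt_mem_nhds (half_pos hε))] with j hj hj'
  obtain ⟨m, rfl⟩ : ∃ m, j = m + 1 := ⟨j - 1, by omega⟩
  have hm : N ≤ m := by omega
  have hm' : (N : ℝ) ≤ m := by exact_mod_cast hm
  have ht := Glob1_total hW' hφ hC (mul_pos hε h2).le
    (fun M hM => (hN₀ M ((le_max_right _ _).trans hM)).le) hm
  have hlt : W m < W ((m + 1 : ℕ) : ℝ) :=
    hW'.mono (Set.mem_Ici.2 hm') (Set.mem_Ici.2 (by push_cast; linarith)) (by push_cast; linarith)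
  have hpos : 0 < 2 * W ((m + 1 : ℕ) : ℝ) := by linarith [(hW'.later hm).nonneg]
  have e : Ico (N + 1) (m + 1) = Ioc N m := by
    ext x
    simp only [Finset.mem_Ico, Finset.mem_Ioc]
    omega
  rw [Glob1_split W φ (N := N + 1) (by omega) hj, e, norm_div, Complex.norm_real, Real.norm_eq_abs,
    abs_of_pos hpos, div_lt_iff₀ hpos]
  rw [div_lt_iff₀ hpos] at hj'
  rw [mul_div_assoc, div_self h2.ne', mul_one] at ht
  refine (norm_add_le _ _).trans_lt ?_
  nlinarith [mul_lt_mul_of_pos_left hlt hε]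

end Pool.Agent.MP_357fb4_an

end
end

section

/-!
Basic calculus in Hardy fields.
-/

open scoped BigOperators Classical ComplexConjugate Polynomial
open Finset Filter MeasureTheory Topology

noncomputable section

namespace Pool.Agent.MP_357fb4_an

theorem HApi_mon {f : ℝ → ℝ} {T : ℝ} (hd : ∀ t, T ≤ t → DifferentiableAt ℝ f t)
    (h0 : ∀ t, T ≤ t → 0 ≤ deriv f t) : MonotoneOn f (Set.Ici T) := by
  refine monotoneOn_of_deriv_nonneg (convex_Ici T) ?_ ?_ ?_
  · exact fun t ht => (hd t ht).continuousAt.continuousWithinAt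
  · exact fun t ht => (hd t (interior_subset ht)).differentiableWithinAt
  · exact fun t ht => h0 t (interior_subset ht)

theorem HApi_ant {f : ℝ → ℝ} {T : ℝ} (hd : ∀ t, T ≤ t → DifferentiableAt ℝ f t)
    (h0 : ∀ t, T ≤ t → deriv f t ≤ 0) : AntitoneOn f (Set.Ici T) := by
  refine antitoneOn_of_deriv_nonpos (convex_Ici T) ?_ ?_ ?_
  · exact fun t ht => (hd t ht).continuousAt.continuousWithinAt
  · exact fun t ht => (hd t (interior_subset ht)).differentiableWithinAt
  · exact fun t ht => h0 t (interior_subset ht)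

theorem HApi_le {f : ℝ → ℝ} (hd : ∀ᶠ t in atTop, DifferentiableAt ℝ f t)
    (h0 : ∀ᶠ t in atTop, deriv f t ≤ 0) : ∃ K, ∀ᶠ t in atTop, f t ≤ K := by
  obtain ⟨T, hT⟩ := eventually_atTop.1 (hd.and h0)
  have ha := HApi_ant (fun t ht => (hT t ht).1) (fun t ht => (hT t ht).2)
  refine ⟨f T, ?_⟩
  filter_upwards [eventually_ge_atTop T] with t ht
  exact ha Set.self_mem_Ici ht ht

theorem HApi_ge {f : ℝ → ℝ} (hd : ∀ᶠ t in atTop, DifferentiableAt ℝ f t)
    (h0 : ∀ᶠ t in atTop, 0 ≤ deriv f t) : ∃ K, ∀ᶠ t in atTop, K ≤ f t := by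
  obtain ⟨T, hT⟩ := eventually_atTop.1 (hd.and h0)
  have ha := HApi_mon (fun t ht => (hT t ht).1) (fun t ht => (hT t ht).2)
  refine ⟨f T, ?_⟩
  filter_upwards [eventually_ge_atTop T] with t ht
  exact ha Set.self_mem_Ici ht ht

theorem HApi_monlim {f : ℝ → ℝ} {T : ℝ} (h : MonotoneOn f (Set.Ici T)) :
    Tendsto f atTop atTop ∨ ∃ c, Tendsto f atTop (𝓝 c) := by
  have hm : Monotone fun t => f (max t T) := fun s t hst =>
    h (le_max_right s T) (le_max_right t T) (max_le_max hst le_rfl)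
  have he : (fun t => f (max t T)) =ᶠ[atTop] f := by
    filter_upwards [eventually_ge_atTop T] with t ht
    rw [max_eq_left ht]
  rcases tendsto_atTop_of_monotone hm with h1 | ⟨c, h1⟩
  · exact Or.inl (h1.congr' he)
  · exact Or.inr ⟨c, h1.congr' he⟩

theorem HApi_top {ι : Type} [Fintype ι] [Nonempty ι] (R : ι → ι → Prop)
    (tot : ∀ i j, R i j ∨ R j i) (tr : ∀ i j k, R i j → R j k → R i k) : ∃ m, ∀ i, R i m := by
  have key : ∀ s : Finset ι, ∃ m, ∀ i ∈ s, R i m := by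
    intro s
    induction s using Finset.induction_on with
    | empty => exact ⟨Classical.arbitrary ι, by simp⟩
    | insert a s _ ih =>
      obtain ⟨m, hm⟩ := ih
      rcases tot a m with h | h
      · refine ⟨m, fun i hi => ?_⟩
        rcases mem_insert.1 hi with rfl | hi
        · exact h
        · exact hm i hi
      · refine ⟨a, fun i hi => ?_⟩
        rcases mem_insert.1 hi with rfl | hi
        · exact (tot i i).elim id id
        · exact tr _ _ _ (hm i hi) h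
  obtain ⟨m, hm⟩ := key univ
  exact ⟨m, fun i => hm i (mem_univ i)⟩

namespace HF

variable (H : HF) {f g : ℝ → ℝ}

theorem neg (hf : f ∈ H.car) : (fun t => -f t) ∈ H.car := by
  simpa using H.mul _ _ (H.const (-1)) hf

theorem sub (hf : f ∈ H.car) (hg : g ∈ H.car) : (fun t => f t - g t) ∈ H.car := by
  simpa [sub_eq_add_neg] using H.add _ _ hf (H.neg hg)

theorem div (hf : f ∈ H.car) (hg : g ∈ H.car) : (fun t => f t / g t) ∈ H.car := by
  simpa [div_eq_mul_inv] using H.mul _ _ hf (H.inv _ hg)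

theorem pow (hf : f ∈ H.car) (n : ℕ) : (fun t => f t ^ n) ∈ H.car := by
  induction n with
  | zero => simpa using H.const 1
  | succ n ih => simpa [pow_succ] using H.mul _ _ ih hf

theorem abs (hf : f ∈ H.car) : (fun t => |f t|) ∈ H.car := by
  rcases H.sign f hf with h | h | h
  · refine H.congr _ _ hf ?_
    filter_upwards [h] with t ht
    simp [ht]
  · refine H.congr _ _ hf ?_
    filter_upwards [h] with t ht
    rw [abs_of_pos ht]
  · refine H.congr _ _ (H.neg hf) ?_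
    filter_upwards [h] with t ht
    rw [abs_of_neg ht]

theorem sum {ι : Type} (s : Finset ι) {a : ι → ℝ → ℝ} (ha : ∀ i ∈ s, a i ∈ H.car) :
    (fun t => ∑ i ∈ s, a i t) ∈ H.car := by
  induction s using Finset.induction_on with
  | empty => simpa using H.const 0
  | insert i s hi ih =>
    simp only [sum_insert hi]
    exact H.add _ _ (ha i (mem_insert_self i s)) (ih fun j hj => ha j (mem_insert_of_mem hj))

theorem poly (P : ℝ[X]) : (fun t => P.eval t) ∈ H.car := by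
  simp only [Polynomial.eval_eq_sum_range]
  exact H.sum (range (P.natDegree + 1)) (a := fun i t => P.coeff i * t ^ i)
    fun i _ => H.mul _ _ (H.const _) (H.pow H.ident i)

theorem iter (hf : f ∈ H.car) (e : ℕ) : deriv^[e] f ∈ H.car := by
  induction e with
  | zero => simpa using hf
  | succ e ih => rw [Function.iterate_succ_apply']; exact H.der _ ih

/-- Eventual monotonicity. -/
theorem mono (hf : f ∈ H.car) : ∃ T : ℝ, (∀ t, T ≤ t → DifferentiableAt ℝ f t) ∧
    ((∀ t, T ≤ t → 0 ≤ deriv f t) ∧ MonotoneOn f (Set.Ici T) ∨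
      (∀ t, T ≤ t → deriv f t ≤ 0) ∧ AntitoneOn f (Set.Ici T)) := by
  have hs : (∀ᶠ t in atTop, 0 ≤ deriv f t) ∨ ∀ᶠ t in atTop, deriv f t ≤ 0 := by
    rcases H.sign _ (H.der f hf) with h | h | h
    · exact Or.inl (h.mono fun t ht => ht.ge)
    · exact Or.inl (h.mono fun t ht => ht.le)
    · exact Or.inr (h.mono fun t ht => ht.le)
  rcases hs with h | h
  · obtain ⟨T, hT⟩ := eventually_atTop.1 ((H.diff f hf).and h)
    exact ⟨T, fun t ht => (hT t ht).1, Or.inl ⟨fun t ht => (hT t ht).2,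
      HApi_mon (fun t ht => (hT t ht).1) (fun t ht => (hT t ht).2)⟩⟩
  · obtain ⟨T, hT⟩ := eventually_atTop.1 ((H.diff f hf).and h)
    exact ⟨T, fun t ht => (hT t ht).1, Or.inr ⟨fun t ht => (hT t ht).2,
      HApi_ant (fun t ht => (hT t ht).1) (fun t ht => (hT t ht).2)⟩⟩

theorem lim3 (hf : f ∈ H.car) :
    (∃ c, Tendsto f atTop (𝓝 c)) ∨ Tendsto f atTop atTop ∨ Tendsto f atTop atBot := by
  obtain ⟨T, -, ⟨-, h⟩ | ⟨-, h⟩⟩ := H.mono hf
  · rcases HApi_monlim h with h1 | h1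
    · exact Or.inr (Or.inl h1)
    · exact Or.inl h1
  · have h' : MonotoneOn (fun t => -f t) (Set.Ici T) := fun s hs t ht hst =>
      neg_le_neg (h hs ht hst)
    rcases HApi_monlim h' with h1 | ⟨c, h1⟩
    · exact Or.inr (Or.inr (tendsto_neg_atTop_iff.1 h1))
    · exact Or.inl ⟨-c, by simpa using h1.neg⟩

theorem lim (hf : f ∈ H.car) :
    (∃ c, Tendsto f atTop (𝓝 c)) ∨ Tendsto (fun t => |f t|) atTop atTop := by
  rcases H.lim3 hf with h | h | h
  · exact Or.inl h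
  · exact Or.inr (tendsto_abs_atTop_atTop.comp h)
  · exact Or.inr (tendsto_abs_atBot_atTop.comp h)

theorem bdd_or (hf : f ∈ H.car) :
    (∃ C, ∀ᶠ t in atTop, |f t| ≤ C) ∨ Tendsto (fun t => |f t|) atTop atTop := by
  rcases H.lim hf with ⟨c, h⟩ | h
  · refine Or.inl ⟨|c| + 1, ?_⟩
    exact (h.abs.eventually (gt_mem_nhds (lt_add_one |c|))).mono fun t ht => ht.le
  · exact Or.inr h

/-- A positive function tending to zero is eventually decreasing. -/
theorem anti (hf : f ∈ H.car) (h0 : ∀ᶠ t in atTop, 0 < f t) (h : Tendsto f atTop (𝓝 0)) :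
    ∃ T : ℝ, AntitoneOn f (Set.Ici T) := by
  obtain ⟨T, -, ⟨-, hm⟩ | ⟨-, hm⟩⟩ := H.mono hf
  · exfalso
    obtain ⟨t₀, ht₀, hT⟩ := (h0.and (eventually_ge_atTop T)).exists
    have : f t₀ ≤ 0 := by
      refine ge_of_tendsto h ?_
      filter_upwards [eventually_ge_atTop t₀] with t ht
      exact hm hT (le_trans hT ht) ht
    linarith
  · exact ⟨T, hm⟩

theorem deriv_ne (hf : f ∈ H.car) (h : Tendsto (fun t => |f t|) atTop atTop) :
    ∀ᶠ t in atTop, deriv f t ≠ 0 := by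
  rcases H.sign _ (H.der f hf) with h1 | h1 | h1
  · exfalso
    obtain ⟨K, hK⟩ := HApi_le (H.diff f hf) (h1.mono fun t ht => ht.le)
    obtain ⟨L, hL⟩ := HApi_ge (H.diff f hf) (h1.mono fun t ht => ht.ge)
    obtain ⟨t, h2, h3, h4⟩ := (hK.and (hL.and (h.eventually_gt_atTop (|K| + |L|)))).exists
    have h5 := le_abs_self K
    have h6 := neg_abs_le L
    have h7 := abs_nonneg K
    have h8 := abs_nonneg L
    have : |f t| ≤ |K| + |L| := abs_le.2 ⟨by linarith, by linarith⟩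
    linarith
  · exact h1.mono fun t ht => ht.ne'
  · exact h1.mono fun t ht => ht.ne

theorem deriv_pos (hf : f ∈ H.car) (h : Tendsto f atTop atTop) : ∀ᶠ t in atTop, 0 < deriv f t := by
  have hn : ¬ ∀ᶠ t in atTop, deriv f t ≤ 0 := by
    intro h1
    obtain ⟨K, hK⟩ := HApi_le (H.diff f hf) h1
    obtain ⟨t, h2, h3⟩ := (hK.and (h.eventually_gt_atTop K)).exists
    linarith
  rcases H.sign _ (H.der f hf) with h1 | h1 | h1
  · exact absurd (h1.mono fun t ht => ht.le) hn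
  · exact h1
  · exact absurd (h1.mono fun t ht => ht.le) hn

theorem HApi_lhop_lo (hf : f ∈ H.car) (hg : g ∈ H.car) (h : Tendsto g atTop atTop) {c : ℝ}
    (hc : Tendsto (fun t => f t / g t) atTop (𝓝 c)) {a : ℝ} (ha : a < c) :
    ∀ᶠ t in atTop, a < deriv f t / deriv g t := by
  have hn : ¬ ∀ᶠ t in atTop, deriv f t / deriv g t - a ≤ 0 := by
    intro h1
    have hd : ∀ᶠ t in atTop, DifferentiableAt ℝ (fun t => f t - a * g t) t := by
      filter_upwards [H.diff f hf, H.diff g hg] with t h2 h3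
      exact h2.sub (h3.const_mul a)
    have h0 : ∀ᶠ t in atTop, deriv (fun t => f t - a * g t) t ≤ 0 := by
      filter_upwards [H.diff f hf, H.diff g hg, h1, H.deriv_pos hg h] with t h2 h3 h4 h5
      have h6 : HasDerivAt (fun t => f t - a * g t) (deriv f t - a * deriv g t) t :=
        h2.hasDerivAt.sub (h3.hasDerivAt.const_mul a)
      rw [h6.deriv]
      have h7 : deriv f t / deriv g t ≤ a := by linarith
      rw [div_le_iff₀ h5] at h7
      linarith
    obtain ⟨K, hK⟩ := HApi_le hd h0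
    have h2 : Tendsto (fun t => a + K / g t) atTop (𝓝 (a + 0)) :=
      tendsto_const_nhds.add (h.const_div_atTop K)
    have h3 : c ≤ a + 0 := by
      refine le_of_tendsto_of_tendsto hc h2 ?_
      filter_upwards [hK, h.eventually_gt_atTop 0] with t h4 h5
      rw [div_le_iff₀ h5, add_mul, div_mul_cancel₀ _ h5.ne']
      linarith
    linarith
  rcases H.sign _ (H.sub (H.div (H.der f hf) (H.der g hg)) (H.const a)) with h1 | h1 | h1
  · exact absurd (h1.mono fun t ht => ht.le) hn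
  · exact h1.mono fun t ht => by linarith
  · exact absurd (h1.mono fun t ht => ht.le) hn

theorem HApi_lhop_pos (hf : f ∈ H.car) (hg : g ∈ H.car) (h : Tendsto g atTop atTop) {c : ℝ}
    (hc : Tendsto (fun t => f t / g t) atTop (𝓝 c)) :
    Tendsto (fun t => deriv f t / deriv g t) atTop (𝓝 c) := by
  refine tendsto_order.2 ⟨fun a ha => H.HApi_lhop_lo hf hg h hc ha, fun a ha => ?_⟩
  have hc' : Tendsto (fun t => -f t / g t) atTop (𝓝 (-c)) := by
    simpa [neg_div] using hc.neg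
  filter_upwards [H.HApi_lhop_lo (H.neg hf) hg h hc' (neg_lt_neg ha)] with t ht
  rw [deriv.fun_neg, neg_div] at ht
  linarith

/-- The converse of the rule of de l Hopital. -/
theorem lhop (hf : f ∈ H.car) (hg : g ∈ H.car) (h : Tendsto (fun t => |g t|) atTop atTop) {c : ℝ}
    (hc : Tendsto (fun t => f t / g t) atTop (𝓝 c)) :
    Tendsto (fun t => deriv f t / deriv g t) atTop (𝓝 c) := by
  have hb : ∀ c', ¬ Tendsto g atTop (𝓝 c') := fun c' h1 =>
    not_tendsto_atTop_of_tendsto_nhds h1.abs h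
  rcases H.lim3 hg with ⟨c', h1⟩ | h1 | h1
  · exact absurd h1 (hb c')
  · exact H.HApi_lhop_pos hf hg h1 hc
  · have hc' : Tendsto (fun t => -f t / -g t) atTop (𝓝 c) := by simpa using hc
    have h2 := H.HApi_lhop_pos (H.neg hf) (H.neg hg) (tendsto_neg_atBot_atTop.comp h1) hc'
    simpa [deriv.fun_neg] using h2

/-- A bounded function has derivative o(1/t). -/
theorem tderiv (hf : f ∈ H.car) {C : ℝ} (h : ∀ᶠ t in atTop, |f t| ≤ C) :
    Tendsto (fun t => t * deriv f t) atTop (𝓝 0) := by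
  have hl : (fun t => Real.log t) ∈ H.car := H.log _ H.ident
  have h1 : Tendsto (fun t => f t / Real.log t) atTop (𝓝 0) := by
    have h2 : Tendsto (fun t => C / Real.log t) atTop (𝓝 0) :=
      Real.tendsto_log_atTop.const_div_atTop C
    refine squeeze_zero_norm' ?_ h2
    filter_upwards [h, eventually_gt_atTop 1] with t ht ht1
    have h3 := Real.log_pos ht1
    rw [Real.norm_eq_abs, abs_div, abs_of_pos h3]
    exact div_le_div_of_nonneg_right ht h3.le
  have h2 := H.HApi_lhop_pos hf hl Real.tendsto_log_atTop h1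
  refine h2.congr fun t => ?_
  rw [show deriv (fun t => Real.log t) t = t⁻¹ from Real.deriv_log t, div_inv_eq_mul, mul_comm]

theorem sm (hf : f ∈ H.car) {A : ℕ} (h : ∀ᶠ t in atTop, |f t| ≤ t ^ A) : Sm f (A + 1) := by
  have key : ∀ e : ℕ, Tendsto (fun t => t ^ e * deriv^[e] f t / t ^ (A + 1)) atTop (𝓝 0) := by
    intro e
    induction e with
    | zero =>
      refine squeeze_zero_norm' ?_ tendsto_inv_atTop_zero
      filter_upwards [h, eventually_gt_atTop 0] with t ht ht0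
      have h3 : 0 < t ^ (A + 1) := pow_pos ht0 _
      simp only [pow_zero, one_mul, Function.iterate_zero, id]
      rw [Real.norm_eq_abs, abs_div, abs_of_pos h3, div_le_iff₀ h3, pow_succ', ← mul_assoc,
        inv_mul_cancel₀ ht0.ne', one_mul]
      exact ht
    | succ e ih =>
      have hm : (fun t => t ^ e * deriv^[e] f t) ∈ H.car :=
        H.mul _ _ (H.pow H.ident e) (H.iter hf e)
      have h1 := H.HApi_lhop_pos hm (H.pow H.ident (A + 1))
        (tendsto_pow_atTop (Nat.succ_ne_zero A)) ih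
      have h2 := (h1.const_mul ((A : ℝ) + 1)).sub (ih.const_mul (e : ℝ))
      simp only [mul_zero, sub_zero] at h2
      refine h2.congr' ?_
      filter_upwards [H.diff _ (H.iter hf e), eventually_gt_atTop 0] with t hd ht0
      have h3 : HasDerivAt (fun t : ℝ => t ^ e * deriv^[e] f t)
          ((e : ℝ) * t ^ (e - 1) * deriv^[e] f t + t ^ e * deriv (deriv^[e] f) t) t :=
        (hasDerivAt_pow e t).mul hd.hasDerivAt
      have h4 : HasDerivAt (fun t : ℝ => t ^ (A + 1)) (((A + 1 : ℕ) : ℝ) * t ^ (A + 1 - 1)) t :=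
        hasDerivAt_pow (A + 1) t
      rw [h3.deriv, h4.deriv, Function.iterate_succ_apply', Nat.add_sub_cancel]
      have h5 : (e : ℝ) * t ^ (e - 1) * t = e * t ^ e := by
        rcases e with _ | e
        · simp
        · rw [Nat.add_sub_cancel, pow_succ]; ring
      have h6 : (A : ℝ) + 1 ≠ 0 := by positivity
      have h7 : t ≠ 0 := ht0.ne'
      push_cast
      field_simp
      linear_combination (t ^ A * deriv^[e] f t) * h5
  intro e
  filter_upwards [H.diff _ (H.iter hf e), eventually_gt_atTop 0,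
    (key e).abs.eventually (gt_mem_nhds (show |(0 : ℝ)| < 1 by simp))] with t hd ht0 ht
  refine ⟨hd, ?_⟩
  have h3 : 0 < t ^ (A + 1) := pow_pos ht0 _
  have h4 : 0 < t ^ e := pow_pos ht0 _
  rw [abs_div, abs_mul, abs_of_pos h3, abs_of_pos h4, div_lt_one h3] at ht
  rw [le_div_iff₀ h4]
  linarith

/-- A fastest member of a finite family. -/
theorem fastest {ι : Type} [Fintype ι] [Nonempty ι] {a : ι → ℝ → ℝ} (ha : ∀ i, a i ∈ H.car)
    (h : ∀ i, Tendsto (fun t => |a i t|) atTop atTop) : ∃ (i₀ : ι) (c : ι → ℝ), c i₀ = 1 ∧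
      ∀ i, Tendsto (fun t => deriv (a i) t / deriv (a i₀) t) atTop (𝓝 (c i)) := by
  have hne : ∀ i, ∀ᶠ t in atTop, deriv (a i) t ≠ 0 := fun i => H.deriv_ne (ha i) (h i)
  obtain ⟨m, hm⟩ := HApi_top
    (fun i j => ∃ c, Tendsto (fun t => deriv (a i) t / deriv (a j) t) atTop (𝓝 c))
    (fun i j => by
      rcases H.lim (H.div (H.der _ (ha i)) (H.der _ (ha j))) with h1 | h1
      · exact Or.inl h1
      · refine Or.inr ⟨0, ?_⟩
        refine squeeze_zero_norm (fun t => ?_) (tendsto_inv_atTop_zero.comp h1)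
        simp only [Function.comp, Real.norm_eq_abs]
        rw [← abs_inv, inv_div])
    (fun i j k ⟨c, hc⟩ ⟨d, hd⟩ => ⟨c * d, (hc.mul hd).congr' (by
      filter_upwards [hne j] with t ht
      rw [div_mul_div_cancel₀ ht])⟩)
  choose c hc using hm
  refine ⟨m, c, ?_, hc⟩
  refine tendsto_nhds_unique (hc m) (tendsto_const_nhds.congr' ?_)
  filter_upwards [hne m] with t ht
  rw [div_self ht]

end HF

end Pool.Agent.MP_357fb4_an

end
end

section

/-!
The choice of the weight.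
-/

open scoped BigOperators Classical ComplexConjugate Polynomial
open Finset Filter MeasureTheory Topology

noncomputable section

namespace Pool.Agent.MP_357fb4_an

theorem ExW_span_mem (H : HF) (s : Set (ℝ → ℝ)) (hs : ∀ v ∈ s, v ∈ H.car) :
    ∀ u ∈ Submodule.span ℝ s, u ∈ H.car := by
  intro u hu
  induction hu using Submodule.span_induction with
  | mem x hx => exact hs x hx
  | zero => exact H.const 0
  | add x y _ _ hx hy => exact H.add x y hx hy
  | smul c x _ hx => exact H.mul _ _ (H.const c) hx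

/-- If the quotient does not tend to zero then the denominator is dominated. -/
theorem ExW_dom (H : HF) {u β : ℝ → ℝ} (hu : u ∈ H.car) (hβ : β ∈ H.car)
    (hβt : Tendsto β atTop atTop) (h : ¬ Tendsto (fun t => u t / β t) atTop (𝓝 0)) :
    ∃ C : ℝ, ∀ᶠ t in atTop, β t ≤ C * |u t| := by
  have hpos : ∀ᶠ t in atTop, 0 < β t := hβt.eventually_gt_atTop 0
  rcases H.lim (H.div hu hβ) with ⟨c, hc⟩ | hc
  · have hc0 : c ≠ 0 := by
      rintro rfl
      exact h hc
    have hca : 0 < |c| := abs_pos.2 hc0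
    have h1 : ∀ᶠ t in atTop, |c| / 2 < |u t / β t| :=
      (hc.abs).eventually (lt_mem_nhds (by linarith))
    refine ⟨2 / |c|, ?_⟩
    filter_upwards [hpos, h1] with t ht h2
    rw [abs_div, abs_of_pos ht, lt_div_iff₀ ht] at h2
    rw [div_mul_eq_mul_div, le_div_iff₀ hca]
    linarith
  · refine ⟨1, ?_⟩
    filter_upwards [hpos, hc.eventually_ge_atTop 1] with t ht h2
    rw [abs_div, abs_of_pos ht, le_div_iff₀ ht] at h2
    linarith

/-- A slowest unbounded growth rate in a finite dimensional space. -/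
theorem ExW_beta (H : HF) (s : Finset (ℝ → ℝ)) (hs : ∀ v ∈ s, v ∈ H.car) :
    ∃ β ∈ H.car, Tendsto β atTop atTop ∧ ∀ u ∈ Submodule.span ℝ (s : Set (ℝ → ℝ)),
      Tendsto (fun t => |u t|) atTop atTop → ∃ C : ℝ, ∀ᶠ t in atTop, β t ≤ C * |u t| := by
  induction s using Finset.induction_on with
  | empty =>
    refine ⟨fun t => t, H.ident, tendsto_id, ?_⟩
    intro u hu ht
    exfalso
    have hu0 : u = 0 := by simpa using hu
    subst hu0
    obtain ⟨t, h1⟩ := (ht.eventually_ge_atTop 1).exists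
    norm_num at h1
  | insert v s hv ih =>
    obtain ⟨β, hβ, hβt, hβd⟩ := ih fun w hw => hs w (mem_insert_of_mem hw)
    have hmem : ∀ u ∈ Submodule.span ℝ ((insert v s : Finset (ℝ → ℝ)) : Set (ℝ → ℝ)),
        u ∈ H.car := ExW_span_mem H _ fun w hw => hs w (by simpa using hw)
    have hmem' : ∀ u ∈ Submodule.span ℝ (s : Set (ℝ → ℝ)), u ∈ H.car :=
      ExW_span_mem H _ fun w hw => hs w (mem_insert_of_mem (by simpa using hw))
    have hpos : ∀ᶠ t in atTop, 0 < β t := hβt.eventually_gt_atTop 0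
    by_cases hA : ∃ u₀ ∈ Submodule.span ℝ ((insert v s : Finset (ℝ → ℝ)) : Set (ℝ → ℝ)),
        Tendsto (fun t => |u₀ t|) atTop atTop ∧ Tendsto (fun t => u₀ t / β t) atTop (𝓝 0)
    · obtain ⟨u₀, hu₀, h1, h2⟩ := hA
      refine ⟨fun t => |u₀ t|, H.abs (hmem u₀ hu₀), h1, ?_⟩
      -- smallness of u₀ against every unbounded member of the smaller space
      have hsmall : ∀ w ∈ Submodule.span ℝ (s : Set (ℝ → ℝ)),
          Tendsto (fun t => |w t|) atTop atTop → ∀ K : ℝ, 0 < K →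
            ∀ᶠ t in atTop, K * |u₀ t| ≤ |w t| := by
        intro w hw hwt K hK
        obtain ⟨C, hC⟩ := hβd w hw hwt
        have hC1 : 0 < |C| + 1 := by positivity
        have h3 : ∀ᶠ t in atTop, |u₀ t / β t| < 1 / (K * (|C| + 1)) := by
          have := h2.abs
          rw [abs_zero] at this
          exact this.eventually (gt_mem_nhds (by positivity))
        filter_upwards [hpos, hC, h3] with t ht h4 h5
        rw [abs_div, abs_of_pos ht, div_lt_div_iff₀ ht (by positivity)] at h5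
        have h6 : C * |w t| ≤ (|C| + 1) * |w t| :=
          mul_le_mul_of_nonneg_right (by linarith [le_abs_self C]) (abs_nonneg _)
        have h7 : (|C| + 1) * (K * |u₀ t|) ≤ (|C| + 1) * |w t| := by nlinarith
        exact le_of_mul_le_mul_left h7 hC1
      rw [coe_insert, Submodule.mem_span_insert] at hu₀
      obtain ⟨a₀, w₀, hw₀, he₀⟩ := hu₀
      have ha₀ : a₀ ≠ 0 := by
        rintro rfl
        have he : u₀ = w₀ := by simpa using he₀
        subst he
        obtain ⟨t, h3, h4⟩ := ((hsmall u₀ hw₀ h1 2 two_pos).and (h1.eventually_ge_atTop 1)).exists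
        linarith
      intro u hu hut
      rw [coe_insert, Submodule.mem_span_insert] at hu
      obtain ⟨a, w, hw, he⟩ := hu
      have hw' : w - (a / a₀) • w₀ ∈ Submodule.span ℝ (s : Set (ℝ → ℝ)) :=
        Submodule.sub_mem _ hw (Submodule.smul_mem _ _ hw₀)
      have hdec : ∀ t, u t = a / a₀ * u₀ t + (w - (a / a₀) • w₀) t := by
        intro t
        rw [he, he₀]
        simp only [Pi.add_apply, Pi.smul_apply, Pi.sub_apply, smul_eq_mul]
        field_simp
        ring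
      set z := w - (a / a₀) • w₀ with hz
      set l := a / a₀ with hl
      rcases H.bdd_or (hmem' z hw') with ⟨B, hB⟩ | hB
      · have hl0 : l ≠ 0 := by
          intro h0
          obtain ⟨t, h3, h4⟩ := (hB.and (hut.eventually_gt_atTop B)).exists
          rw [hdec t, h0] at h4
          simp only [zero_mul, zero_add] at h4
          linarith
        have hla : 0 < |l| := abs_pos.2 hl0
        refine ⟨2 / |l|, ?_⟩
        filter_upwards [hB, hut.eventually_ge_atTop B] with t h3 h4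
        rw [div_mul_eq_mul_div, le_div_iff₀ hla]
        have h5 : l * u₀ t = u t - z t := by rw [hdec t]; ring
        have h6 : |l| * |u₀ t| ≤ |u t| + |z t| := by
          rw [← abs_mul, h5]
          exact abs_sub _ _
        nlinarith
      · refine ⟨1, ?_⟩
        filter_upwards [hsmall z hw' hB (|l| + 1) (by positivity)] with t h3
        have h5 : z t = u t - l * u₀ t := by rw [hdec t]; ring
        have h6 : |z t| ≤ |u t| + |l| * |u₀ t| := by
          rw [← abs_mul, h5]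
          exact abs_sub _ _
        linarith
    · refine ⟨β, hβ, hβt, ?_⟩
      intro u hu hut
      exact ExW_dom H (hmem u hu) hβ hβt fun h => hA ⟨u, hu, hut, h⟩

theorem ExW_log (H : HF) {u β : ℝ → ℝ} (hu : u ∈ H.car) (hβ : β ∈ H.car)
    (hβt : Tendsto β atTop atTop) (hut : Tendsto (fun t => |u t|) atTop atTop) {C : ℝ}
    (hC : ∀ᶠ t in atTop, β t ≤ C * |u t|) :
    Tendsto (fun t => deriv (fun t => Real.log (β t)) t / deriv u t) atTop (𝓝 0) := by
  refine H.lhop (H.log β hβ) hu hut ?_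
  have h1 : (fun t => Real.log (β t)) =o[atTop] β :=
    Real.isLittleO_log_id_atTop.comp_tendsto hβt
  have h2 : β =O[atTop] u := by
    refine Asymptotics.IsBigO.of_bound C ?_
    filter_upwards [hC, hβt.eventually_gt_atTop 0] with t h3 h4
    rw [Real.norm_eq_abs, Real.norm_eq_abs, abs_of_pos h4]
    exact h3
  exact (h1.trans_isBigO h2).tendsto_div_nhds_zero

theorem exW (H : HF) {ι : Type} [Fintype ι] {a : ι → ℝ → ℝ} (ha : ∀ i, a i ∈ H.car) (A : ℕ) :
    ∃ W ∈ H.car, ∃ T : ℕ, Wt W T ∧ ∀ (c : ι → ℝ) (P : ℝ[X]), P.natDegree ≤ A →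
      Tendsto (fun t => |∑ i, c i * a i t - P.eval t|) atTop atTop →
        Adm H W fun t => ∑ i, c i * a i t - P.eval t := by
  set ll : ℝ → ℝ := fun t => Real.log (Real.log t) with hll
  have hllm : ll ∈ H.car := H.log _ (H.log _ H.ident)
  set s : Finset (ℝ → ℝ) := insert ll (univ.image a ∪
    (range (A + 1)).image fun i => fun t : ℝ => t ^ i) with hs
  have hsm : ∀ v ∈ s, v ∈ H.car := by
    intro v hv
    simp only [hs, mem_insert, mem_union, mem_image, mem_univ, true_and] at hv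
    rcases hv with rfl | ⟨i, rfl⟩ | ⟨i, _, rfl⟩
    · exact hllm
    · exact ha i
    · exact H.pow H.ident i
  obtain ⟨β, hβ, hβt, hβd⟩ := ExW_beta H s hsm
  set W : ℝ → ℝ := fun t => Real.log (β t) with hW
  have hWm : W ∈ H.car := H.log β hβ
  have hWt : Tendsto W atTop atTop := Real.tendsto_log_atTop.comp hβt
  have hllt : Tendsto ll atTop atTop := Real.tendsto_log_atTop.comp Real.tendsto_log_atTop
  have hllt' : Tendsto (fun t => |ll t|) atTop atTop := tendsto_abs_atTop_atTop.comp hllt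
  obtain ⟨C, hC⟩ := hβd ll (Submodule.subset_span (by simp [hs])) hllt'
  have h1 := ExW_log H hllm hβ hβt hllt' hC
  have hρm : (fun t => t * Real.log t * deriv W t) ∈ H.car :=
    H.mul _ _ (H.mul _ _ H.ident (H.log _ H.ident)) (H.der W hWm)
  have hρ0 : Tendsto (fun t => t * Real.log t * deriv W t) atTop (𝓝 0) := by
    refine h1.congr' ?_
    filter_upwards [eventually_gt_atTop 1] with t ht
    have ht0 : t ≠ 0 := by linarith
    have hl : Real.log t ≠ 0 := (Real.log_pos ht).ne'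
    have hd : HasDerivAt ll (t⁻¹ / Real.log t) t := (Real.hasDerivAt_log ht0).log hl
    rw [hd.deriv]
    field_simp
    rfl
  have hdp := H.deriv_pos hWm hWt
  have hρp : ∀ᶠ t in atTop, 0 < t * Real.log t * deriv W t := by
    filter_upwards [eventually_gt_atTop 1, hdp] with t ht h2
    have := Real.log_pos ht
    positivity
  obtain ⟨T₁, hT₁⟩ := H.anti hρm hρp hρ0
  obtain ⟨T₂, hT₂⟩ := eventually_atTop.1
    ((H.diff W hWm).and (hdp.and (hWt.eventually_ge_atTop 0)))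
  obtain ⟨T, hT⟩ := exists_nat_ge (max 3 (max T₁ T₂))
  have hT3 : (3 : ℝ) ≤ T := le_trans (le_max_left _ _) hT
  have hTa : T₁ ≤ T := le_trans (le_trans (le_max_left _ _) (le_max_right _ _)) hT
  have hTb : T₂ ≤ T := le_trans (le_trans (le_max_right _ _) (le_max_right _ _)) hT
  refine ⟨W, hWm, T, ⟨by exact_mod_cast hT3, fun t ht => (hT₂ t (hTb.trans ht)).1,
    fun t ht => (hT₂ t (hTb.trans ht)).2.1, hT₁.mono (Set.Ici_subset_Ici.2 hTa), hWt,
    (hT₂ T hTb).2.2⟩, ?_⟩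
  intro c P hP hut
  have hmem : (fun t => ∑ i, c i * a i t - P.eval t) ∈ Submodule.span ℝ (s : Set (ℝ → ℝ)) := by
    have he : (fun t => ∑ i, c i * a i t - P.eval t) =
        ∑ i, c i • a i - ∑ i ∈ range (A + 1), P.coeff i • fun t : ℝ => t ^ i := by
      funext t
      rw [Polynomial.eval_eq_sum_range' (Nat.lt_succ_of_le hP)]
      simp [Finset.sum_apply]
    rw [he]
    refine Submodule.sub_mem _ (Submodule.sum_mem _ fun i _ => Submodule.smul_mem _ _ ?_)
      (Submodule.sum_mem _ fun i hi => Submodule.smul_mem _ _ ?_)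
    · refine Submodule.subset_span ?_
      simp only [hs, coe_insert, coe_union, coe_image, Set.mem_insert_iff, Set.mem_union]
      exact Or.inr (Or.inl ⟨i, by simp, rfl⟩)
    · refine Submodule.subset_span ?_
      simp only [hs, coe_insert, coe_union, coe_image, Set.mem_insert_iff, Set.mem_union]
      exact Or.inr (Or.inr ⟨i, by simpa using hi, rfl⟩)
  have hum := ExW_span_mem H _ (fun v hv => hsm v (by simpa using hv)) _ hmem
  obtain ⟨C', hC'⟩ := hβd _ hmem hut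
  exact ⟨hum, hut, ExW_log H hum hβ hβt hut hC'⟩

theorem caseII_of (H : HF) {W b : ℝ → ℝ} (hW : W ∈ H.car) {P : ℝ[X]} {q : ℕ} (hq : 1 ≤ q)
    (hP : RatAbove P 0 q) (h : Adm H W fun t => b t - P.eval t) {C : ℝ}
    (hC : ∀ᶠ t in atTop, |t * deriv (fun t => b t - P.eval t) t| ≤ C) : CaseII W b := by
  obtain ⟨hr, hrt, hg0⟩ := h
  set r : ℝ → ℝ := fun t => b t - P.eval t with hrd
  set g : ℝ → ℝ := fun t => deriv W t / deriv r t with hgd
  have hgm : g ∈ H.car := H.div (H.der W hW) (H.der r hr)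
  obtain ⟨T₁, hT₁, hmono⟩ := H.mono hgm
  obtain ⟨T₂, hT₂⟩ := eventually_atTop.1
    ((H.diff r hr).and ((H.diff _ (H.der r hr)).and (hC.and (H.deriv_ne hr hrt))))
  refine ⟨P, q, r, deriv r, g, deriv g, max T₁ T₂, C, hq, hP, fun t => rfl, ?_, ?_, ?_, hg0⟩
  · intro t ht
    exact (hT₂ t (le_trans (le_max_right _ _) ht)).2.1.continuousAt.continuousWithinAt
  · intro t ht
    obtain ⟨h1, -, h3, h4⟩ := hT₂ t (le_trans (le_max_right _ _) ht)
    refine ⟨h1.hasDerivAt, h3, (hT₁ t (le_trans (le_max_left _ _) ht)).hasDerivAt, ?_⟩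
    simp only [hgd]
    field_simp
  · rcases hmono with ⟨h1, -⟩ | ⟨h1, -⟩
    · exact Or.inl fun t ht => h1 t (le_trans (le_max_left _ _) ht)
    · exact Or.inr fun t ht => h1 t (le_trans (le_max_left _ _) ht)

end Pool.Agent.MP_357fb4_an

end
end

section

/-!
The four cases.
-/

open scoped BigOperators Classical ComplexConjugate Polynomial
open Finset Filter MeasureTheory Topology

noncomputable section

namespace Pool.Agent.MP_357fb4_an

lemma tri_deriv_congr {f g : ℝ → ℝ} (h : f =ᶠ[atTop] g) : deriv f =ᶠ[atTop] deriv g := by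
  obtain ⟨T, hT⟩ := eventually_atTop.1 h
  filter_upwards [eventually_gt_atTop T] with t ht
  refine Filter.EventuallyEq.deriv_eq ?_
  filter_upwards [Ioi_mem_nhds ht] with s hs using hT s (le_of_lt hs)

lemma tri_rd_mem (H : HF) {f : ℝ → ℝ} (hf : f ∈ H.car) (e : ℕ) : RD f e ∈ H.car :=
  H.mul _ _ (H.pow H.ident e) (H.iter hf e)

lemma tri_rd_deriv (H : HF) {f : ℝ → ℝ} (hf : f ∈ H.car) (e : ℕ) :
    ∀ᶠ t in atTop, t * deriv (RD f e) t = e * RD f e t + RD f (e + 1) t := by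
  filter_upwards [H.diff _ (H.iter hf e)] with t ht
  have h1 : HasDerivAt (RD f e)
      ((e : ℝ) * t ^ (e - 1) * deriv^[e] f t + t ^ e * deriv (deriv^[e] f) t) t :=
    (hasDerivAt_pow e t).mul ht.hasDerivAt
  rw [h1.deriv]
  unfold RD
  rw [Function.iterate_succ_apply']
  rcases e with _ | e
  · simp
  · simp only [Nat.add_sub_cancel]
    ring

lemma tri_log_deriv {h : ℝ → ℝ} {t : ℝ} (γ : ℝ) (ht : t ≠ 0) (hd : DifferentiableAt ℝ h t)
    (h0 : h t ≠ 0) : HasDerivAt (fun s => Real.log (h s) - γ * Real.log s)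
      ((t * deriv h t / h t - γ) / t) t := by
  have h1 : HasDerivAt (fun s => Real.log (h s) - γ * Real.log s)
      (deriv h t / h t - γ * t⁻¹) t :=
    (hd.hasDerivAt.log h0).sub ((Real.hasDerivAt_log ht).const_mul γ)
  have h2 : (t * deriv h t / h t - γ) / t = deriv h t / h t - γ * t⁻¹ := by field_simp
  rw [h2]
  exact h1

lemma tri_exp {x y t t' γ : ℝ} (ht : 0 < t) (ht' : 0 < t') (hx : x ≠ 0) (hy : y ≠ 0) :
    (Real.log x - γ * Real.log t ≤ Real.log y - γ * Real.log t' → (t' / t) ^ γ * |x| ≤ |y|) ∧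
    (Real.log y - γ * Real.log t' ≤ Real.log x - γ * Real.log t → |y| ≤ (t' / t) ^ γ * |x|) := by
  have hq : 0 < t' / t := div_pos ht' ht
  have hax : 0 < |x| := abs_pos.2 hx
  have hay : 0 < |y| := abs_pos.2 hy
  have hp : 0 < (t' / t) ^ γ * |x| := mul_pos (Real.rpow_pos_of_pos hq γ) hax
  have hl : Real.log ((t' / t) ^ γ * |x|) = γ * (Real.log t' - Real.log t) + Real.log x := by
    rw [Real.log_mul (Real.rpow_pos_of_pos hq γ).ne' hax.ne', Real.log_rpow hq,
      Real.log_div ht'.ne' ht.ne', Real.log_abs]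
  constructor
  · intro h
    rw [← Real.log_le_log_iff hp hay, hl, Real.log_abs]
    linarith
  · intro h
    rw [← Real.log_le_log_iff hay hp, hl, Real.log_abs]
    linarith

lemma tri_grow_lo (H : HF) {h : ℝ → ℝ} (hh : h ∈ H.car) (h0 : ∀ᶠ t in atTop, h t ≠ 0) {γ : ℝ}
    (hγ : ∀ᶠ t in atTop, γ ≤ t * deriv h t / h t) :
    ∃ T : ℝ, 1 ≤ T ∧ ∀ t t', T ≤ t → t ≤ t' → h t ≠ 0 ∧ (t' / t) ^ γ * |h t| ≤ |h t'| := by
  obtain ⟨T, hT⟩ := eventually_atTop.1
    ((H.diff h hh).and (h0.and (hγ.and (eventually_ge_atTop (1 : ℝ)))))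
  have hT1 : 1 ≤ T := (hT T le_rfl).2.2.2
  have hd : ∀ t, T ≤ t → HasDerivAt (fun s => Real.log (h s) - γ * Real.log s)
      ((t * deriv h t / h t - γ) / t) t := fun t ht =>
    tri_log_deriv γ (by linarith) (hT t ht).1 (hT t ht).2.1
  have hm : MonotoneOn (fun s => Real.log (h s) - γ * Real.log s) (Set.Ici T) := by
    refine monotoneOn_of_deriv_nonneg (convex_Ici T)
      (fun t ht => (hd t ht).continuousAt.continuousWithinAt)
      (fun t ht => (hd t (interior_subset ht)).differentiableAt.differentiableWithinAt) ?_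
    intro t ht
    have ht' : T ≤ t := interior_subset ht
    rw [(hd t ht').deriv]
    exact div_nonneg (by linarith [(hT t ht').2.2.1]) (by linarith)
  refine ⟨T, hT1, fun t t' ht htt => ⟨(hT t ht).2.1, ?_⟩⟩
  exact (tri_exp (by linarith) (by linarith) (hT t ht).2.1 (hT t' (ht.trans htt)).2.1).1
    (hm ht (ht.trans htt) htt)

lemma tri_grow_hi (H : HF) {h : ℝ → ℝ} (hh : h ∈ H.car) (h0 : ∀ᶠ t in atTop, h t ≠ 0) {γ : ℝ}
    (hγ : ∀ᶠ t in atTop, t * deriv h t / h t ≤ γ) :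
    ∃ T : ℝ, 1 ≤ T ∧ ∀ t t', T ≤ t → t ≤ t' → |h t'| ≤ (t' / t) ^ γ * |h t| := by
  obtain ⟨T, hT⟩ := eventually_atTop.1
    ((H.diff h hh).and (h0.and (hγ.and (eventually_ge_atTop (1 : ℝ)))))
  have hT1 : 1 ≤ T := (hT T le_rfl).2.2.2
  have hd : ∀ t, T ≤ t → HasDerivAt (fun s => Real.log (h s) - γ * Real.log s)
      ((t * deriv h t / h t - γ) / t) t := fun t ht =>
    tri_log_deriv γ (by linarith) (hT t ht).1 (hT t ht).2.1
  have hm : AntitoneOn (fun s => Real.log (h s) - γ * Real.log s) (Set.Ici T) := by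
    refine antitoneOn_of_deriv_nonpos (convex_Ici T)
      (fun t ht => (hd t ht).continuousAt.continuousWithinAt)
      (fun t ht => (hd t (interior_subset ht)).differentiableAt.differentiableWithinAt) ?_
    intro t ht
    have ht' : T ≤ t := interior_subset ht
    rw [(hd t ht').deriv]
    exact div_nonpos_of_nonpos_of_nonneg (by linarith [(hT t ht').2.2.1]) (by linarith)
  refine ⟨T, hT1, fun t t' ht htt => ?_⟩
  exact (tri_exp (by linarith) (by linarith) (hT t ht).2.1 (hT t' (ht.trans htt)).2.1).2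
    (hm ht (ht.trans htt) htt)

/-- Constants are eventually below positive powers. -/
lemma tri_const_le (C : ℝ) {γ : ℝ} (hγ : 0 < γ) : ∀ᶠ t : ℝ in atTop, C ≤ t ^ γ :=
  (tendsto_rpow_atTop hγ).eventually_ge_atTop C

lemma tri_no_fast (H : HF) {h : ℝ → ℝ} (hh : h ∈ H.car) (h0 : ∀ᶠ t in atTop, h t ≠ 0) {B γ : ℝ}
    (hB : ∀ᶠ t in atTop, |h t| ≤ t ^ B) (hγ : ∀ᶠ t in atTop, γ ≤ t * deriv h t / h t) :
    γ ≤ B := by
  by_contra hlt
  push Not at hlt
  obtain ⟨T, hT1, hT⟩ := tri_grow_lo H hh h0 hγ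
  have hTp : 0 < T := by linarith
  have ha : 0 < |h T| := abs_pos.2 (hT T T le_rfl le_rfl).1
  have hTγ : 0 < T ^ γ := Real.rpow_pos_of_pos hTp γ
  obtain ⟨t, h1, h2, h3⟩ := (hB.and ((eventually_ge_atTop T).and
    (tri_const_le (T ^ γ / |h T| + 1) (sub_pos.2 hlt)))).exists
  have ht : 0 < t := by linarith
  have h4 := ((hT T t le_rfl h2).2).trans h1
  rw [Real.div_rpow ht.le hTp.le] at h4
  rw [Real.rpow_sub ht] at h3
  have htB : 0 < t ^ B := Real.rpow_pos_of_pos ht B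
  have h5 : t ^ γ / t ^ B ≤ T ^ γ / |h T| := by
    rw [div_le_div_iff₀ htB ha]
    rw [div_mul_eq_mul_div, div_le_iff₀ hTγ] at h4
    linarith
  linarith

lemma tri_step (H : HF) {f : ℝ → ℝ} (hf : f ∈ H.car) {e : ℕ} {g : ℝ}
    (h0 : ∀ᶠ t in atTop, RD f e t ≠ 0)
    (hl : Tendsto (fun t => t * deriv (RD f e) t / RD f e t) atTop (𝓝 g)) :
    Tendsto (fun t => RD f (e + 1) t / RD f e t) atTop (𝓝 (g - e)) := by
  refine (hl.sub_const (e : ℝ)).congr' ?_
  filter_upwards [h0, tri_rd_deriv H hf e] with t h1 h2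
  rw [h2]
  field_simp
  ring

lemma tri_step2 (H : HF) {f : ℝ → ℝ} (hf : f ∈ H.car) {e : ℕ} {g : ℝ} (hg : g - e ≠ 0)
    (h0 : ∀ᶠ t in atTop, RD f e t ≠ 0)
    (hl : Tendsto (fun t => t * deriv (RD f e) t / RD f e t) atTop (𝓝 g)) :
    (∀ᶠ t in atTop, RD f (e + 1) t ≠ 0) ∧
      Tendsto (fun t => t * deriv (RD f (e + 1)) t / RD f (e + 1) t) atTop (𝓝 g) := by
  have hq := tri_step H hf h0 hl
  have hne : ∀ᶠ t in atTop, RD f (e + 1) t ≠ 0 := by
    filter_upwards [hq.eventually_ne hg] with t ht h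
    exact ht (by rw [h, zero_div])
  refine ⟨hne, ?_⟩
  have hm := H.div (tri_rd_mem H hf (e + 1)) (tri_rd_mem H hf e)
  have hbd : ∀ᶠ t in atTop, |RD f (e + 1) t / RD f e t| ≤ |g - e| + 1 :=
    hq.abs.eventually_le_const (by linarith)
  have h1 := (H.tderiv hm hbd).div hq hg
  rw [zero_div] at h1
  have h2 := h1.add hl
  rw [zero_add] at h2
  refine h2.congr' ?_
  filter_upwards [h0, hne, H.diff _ (tri_rd_mem H hf (e + 1)), H.diff _ (tri_rd_mem H hf e)]
    with t a1 a2 a3 a4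
  have h3 := (a3.hasDerivAt.div a4.hasDerivAt a1).deriv
  simp only [Pi.div_apply]
  have h4 : deriv (fun t => RD f (e + 1) t / RD f e t) t =
      (deriv (RD f (e + 1)) t * RD f e t - RD f (e + 1) t * deriv (RD f e) t) / RD f e t ^ 2 := h3
  rw [h4]
  field_simp
  ring

lemma tri_caseF (H : HF) {b : ℝ → ℝ} (hb : b ∈ H.car) {e₀ : ℕ} {g : ℝ} (hg : 0 < g)
    (hge : g < e₀) (h0 : ∀ᶠ t in atTop, RD b e₀ t ≠ 0)
    (hl : Tendsto (fun t => t * deriv (RD b e₀) t / RD b e₀ t) atTop (𝓝 g)) : CaseF b := by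
  have key : ∀ e, e₀ ≤ e → (∀ᶠ t in atTop, RD b e t ≠ 0) ∧
      Tendsto (fun t => t * deriv (RD b e) t / RD b e t) atTop (𝓝 g) := by
    intro e he
    induction e, he using Nat.le_induction with
    | base => exact ⟨h0, hl⟩
    | succ e he ih =>
      have : (e₀ : ℝ) ≤ e := by exact_mod_cast he
      exact tri_step2 H hb (by linarith) ih.1 ih.2
  refine ⟨e₀, g / 2, g + 1, by linarith, fun e he => ?_⟩
  obtain ⟨k0, kl⟩ := key e he
  obtain ⟨T₁, hT₁, h1⟩ := tri_grow_lo H (tri_rd_mem H hb e) k0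
    (kl.eventually_const_le (show g / 2 < g by linarith))
  obtain ⟨T₂, _, h2⟩ := tri_grow_hi H (tri_rd_mem H hb e) k0
    (kl.eventually_le_const (show g < g + 1 by linarith))
  have hbd : ∀ᶠ t in atTop, |RD b (e + 1) t / RD b e t| ≤ |g - e| + 1 :=
    (tri_step H hb k0 kl).abs.eventually_le_const (by linarith)
  obtain ⟨T₃, h3⟩ := eventually_atTop.1 hbd
  refine ⟨max T₁ (max T₂ T₃), |g - e| + 1, le_max_of_le_left hT₁, fun t t' ht htt => ?_⟩
  have a1 : T₁ ≤ t := le_of_max_le_left ht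
  have a2 : T₂ ≤ t := le_of_max_le_left (le_of_max_le_right ht)
  have a3 : T₃ ≤ t := le_of_max_le_right (le_of_max_le_right ht)
  refine ⟨(h1 t t' a1 htt).1, (h1 t t' a1 htt).2, h2 t t' a2 htt, ?_⟩
  have h4 := h3 t a3
  rwa [abs_div, div_le_iff₀ (abs_pos.2 (h1 t t' a1 htt).1)] at h4

lemma tri_dich (H : HF) {b : ℝ → ℝ} (hb : b ∈ H.car) {A : ℕ}
    (h : ∀ᶠ t in atTop, |b t| ≤ t ^ A) :
    CaseF b ∨ ∀ γ : ℝ, 0 < γ → ∀ᶠ t in atTop, |RD b (A + 2) t| ≤ t ^ γ := by
  have hR := tri_rd_mem H hb (A + 2)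
  have hB : ∀ᶠ t in atTop, |RD b (A + 2) t| ≤ t ^ ((A : ℝ) + 1) := by
    filter_upwards [H.sm hb h (A + 2), eventually_gt_atTop (0 : ℝ)] with t ht h0
    have h1 := ht.2
    have hp : 0 < t ^ (A + 2) := pow_pos h0 _
    rw [le_div_iff₀ hp] at h1
    have h2 : t ^ ((A : ℝ) + 1) = t ^ (A + 1) := by
      rw [← Real.rpow_natCast]; push_cast; rfl
    rw [h2]
    unfold RD
    rw [abs_mul, abs_of_pos hp, mul_comm]
    exact h1
  have hlam : (fun t => t * deriv (RD b (A + 2)) t / RD b (A + 2) t) ∈ H.car :=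
    H.div (H.mul _ _ H.ident (H.der _ hR)) hR
  by_cases h0 : ∀ᶠ t in atTop, RD b (A + 2) t ≠ 0
  swap
  · right
    intro γ _
    rcases H.sign _ hR with h1 | h1 | h1
    · filter_upwards [h1, eventually_ge_atTop (0 : ℝ)] with t ht ht0
      rw [ht, abs_zero]
      exact Real.rpow_nonneg ht0 γ
    · exact absurd (h1.mono fun t ht => ht.ne') h0
    · exact absurd (h1.mono fun t ht => ht.ne) h0
  by_cases h1 : ∃ γ : ℝ, 0 < γ ∧
      ∀ᶠ t in atTop, γ ≤ t * deriv (RD b (A + 2)) t / RD b (A + 2) t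
  · left
    obtain ⟨γ, hγ, h1⟩ := h1
    rcases H.lim3 hlam with ⟨g, hg⟩ | hg | hg
    · have hγg : γ ≤ g := ge_of_tendsto hg h1
      refine tri_caseF H hb (e₀ := A + 2) (g := g) (by linarith) ?_ h0 hg
      by_contra hcon
      push Not at hcon
      push_cast at hcon
      have := tri_no_fast H hR h0 hB
        (hg.eventually_const_le (show (A : ℝ) + 3 / 2 < g by linarith))
      linarith
    · have := tri_no_fast H hR h0 hB (hg.eventually_ge_atTop ((A : ℝ) + 2))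
      linarith
    · obtain ⟨t, a1, a2⟩ := (h1.and (hg.eventually_le_atBot 0)).exists
      linarith
  · right
    intro γ hγ
    have h2 : ∀ᶠ t in atTop, t * deriv (RD b (A + 2)) t / RD b (A + 2) t ≤ γ / 2 := by
      rcases H.sign _ (H.sub hlam (H.const (γ / 2))) with h3 | h3 | h3
      · exact h3.mono fun t ht => by linarith
      · exact absurd ⟨γ / 2, by linarith, h3.mono fun t ht => by linarith⟩ h1
      · exact h3.mono fun t ht => by linarith
    obtain ⟨T, hT1, hT⟩ := tri_grow_hi H hR h0 h2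
    filter_upwards [eventually_ge_atTop T,
      tri_const_le |RD b (A + 2) T| (show 0 < γ / 2 by linarith)] with t a1 a2
    have ht : 0 < t := by linarith
    have a3 : (t / T) ^ (γ / 2) ≤ t ^ (γ / 2) :=
      Real.rpow_le_rpow (by positivity) (div_le_self ht.le hT1) (by linarith)
    calc |RD b (A + 2) t| ≤ (t / T) ^ (γ / 2) * |RD b (A + 2) T| := hT T t le_rfl a1
      _ ≤ t ^ (γ / 2) * t ^ (γ / 2) :=
          mul_le_mul a3 a2 (abs_nonneg _) (Real.rpow_nonneg ht.le _)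
      _ = t ^ γ := by rw [← Real.rpow_add ht]; congr 1; ring

/-- A function whose derivative is dominated by that of a function tending to zero converges. -/
lemma tri_squeeze (H : HF) {g u u' : ℝ → ℝ} (hg : g ∈ H.car)
    (hu : ∀ᶠ t in atTop, HasDerivAt u (u' t) t ∧ |deriv g t| ≤ -u' t)
    (hu0 : Tendsto u atTop (𝓝 0)) :
    ∃ c, Tendsto g atTop (𝓝 c) ∧ ∀ᶠ t in atTop, |g t - c| ≤ u t := by
  obtain ⟨T, hT⟩ := eventually_atTop.1 ((H.diff g hg).and hu)
  have hd1 : ∀ t, T ≤ t → HasDerivAt (fun s => g s + u s) (deriv g t + u' t) t := fun t ht =>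
    (hT t ht).1.hasDerivAt.add (hT t ht).2.1
  have hd2 : ∀ t, T ≤ t → HasDerivAt (fun s => g s - u s) (deriv g t - u' t) t := fun t ht =>
    (hT t ht).1.hasDerivAt.sub (hT t ht).2.1
  have hm1 : AntitoneOn (fun s => g s + u s) (Set.Ici T) := by
    refine antitoneOn_of_deriv_nonpos (convex_Ici T)
      (fun t ht => (hd1 t ht).continuousAt.continuousWithinAt)
      (fun t ht => (hd1 t (interior_subset ht)).differentiableAt.differentiableWithinAt) ?_
    intro t ht
    have ht' : T ≤ t := interior_subset ht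
    rw [(hd1 t ht').deriv]
    linarith [(abs_le.1 (hT t ht').2.2).2]
  have hm2 : MonotoneOn (fun s => g s - u s) (Set.Ici T) := by
    refine monotoneOn_of_deriv_nonneg (convex_Ici T)
      (fun t ht => (hd2 t ht).continuousAt.continuousWithinAt)
      (fun t ht => (hd2 t (interior_subset ht)).differentiableAt.differentiableWithinAt) ?_
    intro t ht
    have ht' : T ≤ t := interior_subset ht
    rw [(hd2 t ht').deriv]
    linarith [(abs_le.1 (hT t ht').2.2).1]
  have key : ∀ t s, T ≤ t → t ≤ s → |g t - g s| ≤ u t - u s := by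
    intro t s ht hts
    have a1 := hm1 ht (ht.trans hts) hts
    have a2 := hm2 ht (ht.trans hts) hts
    simp only at a1 a2
    rw [abs_le]
    constructor <;> linarith
  rcases H.lim hg with ⟨c, hc⟩ | hc
  · refine ⟨c, hc, ?_⟩
    filter_upwards [eventually_ge_atTop T] with t ht
    have a1 : Tendsto (fun s => |g t - g s|) atTop (𝓝 |g t - c|) := (hc.const_sub (g t)).abs
    have a2 : Tendsto (fun s => u t - u s) atTop (𝓝 (u t - 0)) := hu0.const_sub (u t)
    rw [sub_zero] at a2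
    exact le_of_tendsto_of_tendsto a1 a2
      ((eventually_ge_atTop t).mono fun s hs => key t s ht hs)
  · exfalso
    obtain ⟨s, a1, a2, a3⟩ := ((eventually_ge_atTop T).and
      ((hc.eventually_ge_atTop (|g T| + u T + 2)).and
        (hu0.eventually_const_le (show (-1 : ℝ) < 0 by norm_num)))).exists
    have a4 := key T s le_rfl a1
    have a5 := abs_sub_abs_le_abs_sub (g s) (g T)
    rw [abs_sub_comm] at a5
    linarith

lemma tri_iter_sub (H : HF) {f : ℝ → ℝ} (hf : f ∈ H.car) (P : ℝ[X]) (e : ℕ) :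
    deriv^[e] (fun t => f t - P.eval t) =ᶠ[atTop]
      fun t => deriv^[e] f t - (Polynomial.derivative^[e] P).eval t := by
  induction e with
  | zero => exact EventuallyEq.refl _ _
  | succ e ih =>
    rw [Function.iterate_succ_apply', Function.iterate_succ_apply', Function.iterate_succ_apply']
    refine (tri_deriv_congr ih).trans ?_
    filter_upwards [H.diff _ (H.iter hf e)] with t ht
    exact (ht.hasDerivAt.sub ((Polynomial.derivative^[e] P).hasDerivAt t)).deriv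

lemma tri_tail (H : HF) {g : ℝ → ℝ} (hg : g ∈ H.car) (e : ℕ) {γ : ℝ} (hγ : γ ≤ 1 / 2)
    (h : ∀ᶠ t in atTop, |t ^ (e + 2) * deriv g t| ≤ t ^ γ) :
    ∃ c, Tendsto g atTop (𝓝 c) ∧ ∀ᶠ t in atTop, |t ^ (e + 1) * (g t - c)| ≤ 2 * t ^ γ := by
  have he : (0 : ℝ) ≤ e := Nat.cast_nonneg e
  obtain ⟨c, hc, hc'⟩ := tri_squeeze H (u := fun t => 2 * t ^ (γ - (e + 1)))
    (u' := fun t => 2 * ((γ - (e + 1)) * t ^ (γ - (e + 1) - 1))) hg (by
      filter_upwards [h, eventually_gt_atTop (0 : ℝ)] with t h1 h0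
      refine ⟨(Real.hasDerivAt_rpow_const (Or.inl h0.ne')).const_mul 2, ?_⟩
      have hp : 0 < t ^ (e + 2) := pow_pos h0 _
      have h2 : t ^ (γ - (e + 1) - 1) = t ^ γ / t ^ (e + 2) := by
        rw [← Real.rpow_natCast, ← Real.rpow_sub h0]; congr 1; push_cast; ring
      rw [abs_mul, abs_of_pos hp, ← le_div_iff₀' hp, ← h2] at h1
      have h3 : 0 < t ^ (γ - (e + 1) - 1) := Real.rpow_pos_of_pos h0 _
      nlinarith) (by
      have h1 := (tendsto_rpow_neg_atTop (show 0 < (e : ℝ) + 1 - γ by linarith)).const_mul 2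
      rw [mul_zero] at h1
      simpa only [neg_sub] using h1)
  refine ⟨c, hc, ?_⟩
  filter_upwards [hc', eventually_gt_atTop (0 : ℝ)] with t h1 h0
  have hp : 0 < t ^ (e + 1) := pow_pos h0 _
  have h2 : t ^ (γ - (e + 1)) = t ^ γ / t ^ (e + 1) := by
    rw [← Real.rpow_natCast, ← Real.rpow_sub h0]; congr 1; push_cast; ring
  rw [h2, ← mul_div_assoc, le_div_iff₀' hp] at h1
  rw [abs_mul, abs_of_pos hp]
  exact h1

lemma tri_down (H : HF) (e : ℕ) : ∀ f ∈ H.car,
    (∀ γ : ℝ, 0 < γ → ∀ᶠ t in atTop, |RD f (e + 1) t| ≤ t ^ γ) →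
      ∃ P : ℝ[X], P.coeff 0 = 0 ∧ P.natDegree ≤ e ∧ Slow fun t => f t - P.eval t := by
  induction e with
  | zero =>
    intro f hf h
    refine ⟨0, by simp, by simp, fun γ hγ => ?_⟩
    filter_upwards [h γ hγ, H.diff f hf] with t h1 h2
    simpa [RD] using And.intro h2 h1
  | succ e ih =>
    intro f hf h
    have hg := H.iter hf (e + 1)
    have h' : ∀ γ : ℝ, 0 < γ →
        ∀ᶠ t in atTop, |t ^ (e + 2) * deriv (deriv^[e + 1] f) t| ≤ t ^ γ := by
      intro γ hγ
      filter_upwards [h γ hγ] with t ht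
      unfold RD at ht
      rwa [Function.iterate_succ_apply' deriv (e + 1)] at ht
    obtain ⟨c, hc, -⟩ := tri_tail H hg e le_rfl (h' _ (by norm_num))
    set M : ℝ[X] := Polynomial.C (c / (e + 1).factorial) * Polynomial.X ^ (e + 1) with hM
    have hMd : ∀ t : ℝ, (Polynomial.derivative^[e + 1] M).eval t = c := by
      intro t
      have hf0 : ((e + 1).factorial : ℝ) ≠ 0 := by exact_mod_cast Nat.factorial_ne_zero _
      rw [hM, Polynomial.iterate_derivative_C_mul, Polynomial.iterate_derivative_X_pow_eq_C_mul,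
        Nat.descFactorial_self]
      simp only [Nat.sub_self, pow_zero, mul_one, Polynomial.eval_mul, Polynomial.eval_C]
      field_simp
    obtain ⟨P, hP0, hPd, hPs⟩ := ih (fun t => f t - M.eval t) (H.sub hf (H.poly M)) (by
      intro γ hγ
      have hm : 0 < min (γ / 2) (1 / 2) := lt_min (by linarith) (by norm_num)
      obtain ⟨c', hc1, hc2⟩ := tri_tail H hg e (min_le_right (γ / 2) (1 / 2)) (h' _ hm)
      rw [tendsto_nhds_unique hc1 hc] at hc2
      filter_upwards [hc2, tri_iter_sub H hf M (e + 1), eventually_ge_atTop (1 : ℝ),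
        tri_const_le 2 (show 0 < γ / 2 by linarith)] with t a1 a2 a3 a4
      unfold RD
      rw [a2, hMd]
      have ht : 0 < t := by linarith
      have a5 : t ^ min (γ / 2) (1 / 2) ≤ t ^ (γ / 2) :=
        Real.rpow_le_rpow_of_exponent_le a3 (min_le_left _ _)
      calc _ ≤ 2 * t ^ min (γ / 2) (1 / 2) := a1
        _ ≤ t ^ (γ / 2) * t ^ (γ / 2) :=
            mul_le_mul a4 a5 (Real.rpow_nonneg ht.le _) (Real.rpow_nonneg ht.le _)
        _ = t ^ γ := by rw [← Real.rpow_add ht]; congr 1; ring)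
    refine ⟨M + P, ?_, ?_, ?_⟩
    · rw [Polynomial.coeff_add, hP0, hM, Polynomial.coeff_C_mul_X_pow]
      simp
    · exact Polynomial.natDegree_add_le_of_degree_le
        (Polynomial.natDegree_C_mul_X_pow_le _ _) (hPd.trans (Nat.le_succ e))
    · simpa only [Polynomial.eval_add, sub_sub] using hPs

lemma tri_rat (P : ℝ[X]) (j : ℕ) (h : ∀ i, j < i → ¬ Irrational (P.coeff i)) :
    ∃ q : ℕ, 1 ≤ q ∧ RatAbove P j q := by
  have h1 : ∀ i, ∃ x : ℚ, j < i → (x : ℝ) = P.coeff i := by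
    intro i
    by_cases hi : j < i
    · have h2 := h i hi
      unfold Irrational at h2
      push Not at h2
      obtain ⟨x, hx⟩ := h2
      exact ⟨x, fun _ => hx⟩
    · exact ⟨0, fun h => absurd h hi⟩
  choose x hx using h1
  refine ⟨∏ i ∈ range (P.natDegree + 1), (x i).den,
    Finset.prod_pos fun i _ => (x i).den_pos, fun i hi => ?_⟩
  by_cases hd : i ≤ P.natDegree
  · obtain ⟨k, hk⟩ := Finset.dvd_prod_of_mem (fun i => (x i).den)
      (mem_range.2 (Nat.lt_succ_of_le hd))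
    refine ⟨k * (x i).num, ?_⟩
    rw [hk, ← hx i hi]
    have h3 : ((x i).den : ℝ) * (x i : ℝ) = (x i).num := by exact_mod_cast Rat.den_mul_eq_num _
    push_cast
    rw [← h3]
    ring
  · refine ⟨0, ?_⟩
    rw [Polynomial.coeff_eq_zero_of_natDegree_lt (not_le.1 hd)]
    simp

lemma tri_log (H : HF) {b : ℝ → ℝ} (hb : b ∈ H.car) {P : ℝ[X]} {q : ℕ} (hq : 1 ≤ q)
    (hP : RatAbove P 0 q) (hs : Slow fun t => b t - P.eval t)
    (hR : Tendsto (fun t => |t * deriv (fun t => b t - P.eval t) t|) atTop atTop) :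
    CaseLog b := by
  set r : ℝ → ℝ := fun t => b t - P.eval t with hr
  have hrm : r ∈ H.car := H.sub hb (H.poly P)
  set R₁ : ℝ → ℝ := fun t => t * deriv r t with hR₁
  have hRm : R₁ ∈ H.car := H.mul _ _ H.ident (H.der _ hrm)
  set S₁ : ℝ → ℝ := fun t => t * deriv R₁ t with hS₁
  have hSm : S₁ ∈ H.car := H.mul _ _ H.ident (H.der _ hRm)
  have hL : Tendsto (fun t => Real.log t ^ 2 * |S₁ t|) atTop atTop := by
    rcases H.bdd_or (H.mul _ _ (H.pow (H.log _ H.ident) 2) hSm) with ⟨C, hC⟩ | hC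
    · exfalso
      obtain ⟨c, hc, -⟩ := tri_squeeze H (u := fun t => C * (Real.log t)⁻¹)
        (u' := fun t => C * (-t⁻¹ / Real.log t ^ 2)) hRm (by
          filter_upwards [hC, eventually_gt_atTop (1 : ℝ)] with t h1 h0
          have ht : 0 < t := by linarith
          have hl : 0 < Real.log t := Real.log_pos h0
          refine ⟨((Real.hasDerivAt_log ht.ne').inv hl.ne').const_mul C, ?_⟩
          have hp : 0 < Real.log t ^ 2 * t := by positivity
          simp only [hS₁] at h1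
          rw [← mul_assoc, abs_mul, abs_of_pos hp, ← le_div_iff₀' hp] at h1
          refine h1.trans (le_of_eq ?_)
          field_simp) (by
          have h1 := Real.tendsto_log_atTop.inv_tendsto_atTop.const_mul C
          rw [mul_zero] at h1
          exact h1)
      exact not_tendsto_atTop_of_tendsto_nhds hc.abs hR
    · refine hC.congr fun t => ?_
      rw [abs_mul, abs_of_nonneg (sq_nonneg _)]
  have hsign : (∀ᶠ t in atTop, 0 < S₁ t) ∨ ∀ᶠ t in atTop, S₁ t < 0 := by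
    rcases H.sign _ hSm with h1 | h1
    · obtain ⟨t, a1, a2⟩ := (h1.and (hL.eventually_gt_atTop 0)).exists
      rw [a1] at a2
      simp at a2
    · exact h1
  obtain ⟨T₁, -, hT₁⟩ := H.mono hSm
  have hev : ∀ᶠ t in atTop, 1 ≤ t ∧ T₁ ≤ t ∧ HasDerivAt r (R₁ t / t) t ∧
      HasDerivAt R₁ (S₁ t / t) t := by
    filter_upwards [eventually_ge_atTop (1 : ℝ), eventually_ge_atTop T₁, H.diff _ hrm,
      H.diff _ hRm] with t a1 a2 a3 a4
    have ht : t ≠ 0 := by linarith
    refine ⟨a1, a2, ?_, ?_⟩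
    · simpa only [hR₁, mul_div_cancel_left₀ _ ht] using a3.hasDerivAt
    · simpa only [hS₁, mul_div_cancel_left₀ _ ht] using a4.hasDerivAt
  have hfin : ∃ T : ℝ, (∀ t, T ≤ t → 1 ≤ t ∧ T₁ ≤ t ∧ HasDerivAt r (R₁ t / t) t ∧
      HasDerivAt R₁ (S₁ t / t) t) ∧ ((∀ t, T ≤ t → 0 < S₁ t) ∨ ∀ t, T ≤ t → S₁ t < 0) := by
    rcases hsign with h1 | h1
    · obtain ⟨T, hT⟩ := eventually_atTop.1 (hev.and h1)
      exact ⟨T, fun t ht => (hT t ht).1, Or.inl fun t ht => (hT t ht).2⟩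
    · obtain ⟨T, hT⟩ := eventually_atTop.1 (hev.and h1)
      exact ⟨T, fun t ht => (hT t ht).1, Or.inr fun t ht => (hT t ht).2⟩
  obtain ⟨T, hT, hT'⟩ := hfin
  have hsub : Set.Ici T ⊆ Set.Ici T₁ := fun t ht => (hT t ht).2.1
  refine ⟨P, q, r, R₁, S₁, T, hq, hP, fun _ => rfl, hs, (hT T le_rfl).1,
    fun t ht => (hT t ht).2.2, ?_, hT', hR, hL⟩
  rcases hT₁ with h1 | h1
  · exact Or.inl (h1.2.mono hsub)
  · exact Or.inr (h1.2.mono hsub)

theorem tri (H : HF) {b : ℝ → ℝ} (hb : b ∈ H.car) {A : ℕ} (h : ∀ᶠ t in atTop, |b t| ≤ t ^ A) :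
    CaseF b ∨ CaseIrr b ∨ CaseLog b ∨ ∃ (P : ℝ[X]) (q : ℕ) (C : ℝ), 1 ≤ q ∧ RatAbove P 0 q ∧
      P.coeff 0 = 0 ∧ P.natDegree ≤ A + 2 ∧
        ∀ᶠ t in atTop, |t * deriv (fun t => b t - P.eval t) t| ≤ C := by
  rcases tri_dich H hb h with h1 | h1
  · exact Or.inl h1
  right
  obtain ⟨P, hP0, hPd, hPs⟩ := tri_down H (A + 1) b hb h1
  have hex : ∃ j, ∀ i, j < i → ¬ Irrational (P.coeff i) := ⟨P.natDegree, fun i hi => by
    rw [Polynomial.coeff_eq_zero_of_natDegree_lt hi]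
    exact not_irrational_zero⟩
  obtain ⟨q, hq, hPq⟩ := tri_rat P (Nat.find hex) (Nat.find_spec hex)
  rcases Nat.eq_zero_or_pos (Nat.find hex) with hj | hj
  · right
    rw [hj] at hPq
    rcases H.bdd_or (H.mul _ _ H.ident (H.der _ (H.sub hb (H.poly P)))) with ⟨C, hC⟩ | hC
    · exact Or.inr ⟨P, q, C, hq, hPq, hP0, hPd.trans (Nat.le_succ _), hC⟩
    · exact Or.inl (tri_log H hb hq hPq hPs hC)
  · left
    refine ⟨P, Nat.find hex, q, hj, hq, ?_, hPq, hPs⟩
    have h2 := Nat.find_min hex (show Nat.find hex - 1 < Nat.find hex by omega)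
    push Not at h2
    obtain ⟨i, hi, hirr⟩ := h2
    have h3 : ¬ Nat.find hex < i := fun h4 => Nat.find_spec hex i h4 hirr
    have h4 : i = Nat.find hex := by omega
    exact h4 ▸ hirr

end Pool.Agent.MP_357fb4_an

end
end

section

/-!
Seminorm control for slowly growing functions.
-/

open scoped BigOperators Classical ComplexConjugate Polynomial
open Finset Filter MeasureTheory Topology

noncomputable section

namespace Pool.Agent.MP_357fb4_an

variable {Y : Type} [MeasurableSpace Y] {μ : Measure Y} [IsProbabilityMeasure μ]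

/-- The mean value theorem of Cauchy. -/
lemma sl_cauchy {u b : ℝ → ℝ} {x y : ℝ} (hxy : x ≤ y) (hu : ∀ t, x ≤ t → DifferentiableAt ℝ u t)
    (hb : ∀ t, x ≤ t → DifferentiableAt ℝ b t) (hp : ∀ t, x ≤ t → 0 < deriv b t) :
    ∃ ξ, x ≤ ξ ∧ ξ ≤ y ∧ u y - u x = deriv u ξ / deriv b ξ * (b y - b x) := by
  rcases hxy.eq_or_lt with rfl | hlt
  · exact ⟨x, le_rfl, le_rfl, by simp⟩
  obtain ⟨ξ, hξ, h⟩ := exists_ratio_deriv_eq_ratio_slope u hlt
    (fun t ht => (hu t ht.1).continuousAt.continuousWithinAt)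
    (fun t ht => (hu t ht.1.le).differentiableWithinAt) b
    (fun t ht => (hb t ht.1).continuousAt.continuousWithinAt)
    (fun t ht => (hb t ht.1.le).differentiableWithinAt)
  refine ⟨ξ, hξ.1.le, hξ.2.le, ?_⟩
  have := (hp ξ hξ.1.le).ne'
  field_simp
  linarith

/-- Telescoping over an arbitrary finite set. -/
lemma sl_tele {f : ℕ → ℝ} (hf : Monotone f) (lo : ℝ) (A : Finset ℕ) : ∀ hi : ℝ, lo ≤ hi →
    (∀ n ∈ A, lo ≤ f n ∧ f (n + 1) ≤ hi) → ∑ n ∈ A, (f (n + 1) - f n) ≤ hi - lo := by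
  induction A using Finset.induction_on_max with
  | empty => intro hi h _; simpa using h
  | insert a A ha ih =>
    intro hi _ h
    have hn : a ∉ A := fun h => lt_irrefl _ (ha a h)
    have h1 := h a (mem_insert_self _ _)
    have h2 := ih (f a) h1.1 fun n hn' =>
      ⟨(h n (mem_insert_of_mem hn')).1, hf (Nat.succ_le_of_lt (ha n hn'))⟩
    rw [sum_insert hn]
    linarith [h1.2]

lemma sl_block {f : ℕ → ℝ} (hw : Antitone fun n => f (n + 1) - f n) (j N : ℕ) :
    f (j + N) - f j ≤ N * (f (j + 1) - f j) := by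
  induction N with
  | zero => simp
  | succ N ih =>
    have := hw (Nat.le_add_right j N)
    simp only at this
    rw [← add_assoc]
    push_cast
    linarith

/-- Regrouping the terms of a weighted sum. -/
lemma sl_regroup {S : Sys ℤ Y μ} {s : ℕ} {ι : Type} [Fintype ι] {g g' : ι → ℕ → ℝ}
    {w Z u Z' : ℕ → ℝ} (h : Ctl S s (fun J n => w n / Z J) g) (m : ℕ → ℕ) (n₀ : ℕ) (B₁ C : ℝ)
    (hC : 0 ≤ C) (hu : ∀ n, 0 ≤ u n)
    (h1 : ∀ n, n₀ ≤ n → ∀ i, |g' i n - g i (m n)| ≤ B₁)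
    (h2 : ∀ J j, ∑ n ∈ (Ico n₀ J).filter (fun n => m n = j), u n ≤ C * w j)
    (hm : ∀ n J, n₀ ≤ n → n ≤ J → m n ≤ m J) (hmt : Tendsto m atTop atTop)
    (hZ' : Tendsto Z' atTop atTop)
    (hZ : ∀ᶠ J in atTop, 0 < Z (m J + 1) ∧ Z (m J + 1) ≤ 2 * Z' J) :
    Ctl S s (fun J n => u n / Z' J) g' := by
  intro B ε hε
  obtain ⟨δ, hδ, H⟩ := h (|B| + |B₁| + 1) (ε / (4 * C + 4)) (by positivity)
  refine ⟨δ, hδ, fun K hK => ?_⟩
  have H' := ((tendsto_add_atTop_nat 1).comp hmt).eventually (H K hK)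
  have H0 : ∀ᶠ J in atTop, (∑ n ∈ range n₀, u n) / Z' J ≤ ε / 2 :=
    (tendsto_const_nhds.div_atTop hZ').eventually (ge_mem_nhds (by positivity))
  filter_upwards [H', H0, hZ, eventually_ge_atTop n₀, hZ'.eventually_gt_atTop 0] with J H' H0 hZ hJ
    hZ0 F G a hF hG ha hbox
  have hv : ∀ j, ∃ v : ι → ℤ, (∀ i, |(v i : ℝ) - g i j| ≤ |B| + |B₁| + 1) ∧
      ∀ n ∈ (Ico n₀ J).filter (fun n => m n = j),
        ‖corr S F G fun i => a i n‖ ≤ ‖corr S F G v‖ := by
    intro j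
    rcases ((Ico n₀ J).filter fun n => m n = j).eq_empty_or_nonempty with he | hne
    · refine ⟨fun i => ⌊g i j⌋, fun i => ?_, by simp [he]⟩
      have h3 := Int.floor_le (g i j)
      have h4 := Int.lt_floor_add_one (g i j)
      have := abs_nonneg B
      have := abs_nonneg B₁
      rw [abs_le]; constructor <;> linarith
    · obtain ⟨n, hn, hmax⟩ := exists_max_image _ (fun n => ‖corr S F G fun i => a i n‖) hne
      refine ⟨fun i => a i n, fun i => ?_, hmax⟩
      rw [mem_filter, mem_Ico] at hn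
      have h3 := abs_le.1 (h1 n hn.1.1 i)
      have h4 := abs_le.1 (ha i n)
      have := le_abs_self B
      have := le_abs_self B₁
      rw [hn.2] at h3
      rw [abs_le]; constructor <;> linarith [h3.1, h3.2, h4.1, h4.2]
  choose v hv1 hv2 using hv
  have key := H' F G (fun i j => v j i) hF hG (fun i j => hv1 j i) hbox
  simp only [Function.comp] at key
  have key2 : ∑ j ∈ range (m J + 1), w j * ‖corr S F G (v j)‖ ≤ ε / (4 * C + 4) * Z (m J + 1) := by
    rw [← div_le_iff₀ hZ.1, sum_div]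
    refine le_trans (le_of_eq (sum_congr rfl fun j _ => ?_)) key
    ring
  have k3 : ∑ n ∈ Ico n₀ J, u n * ‖corr S F G fun i => a i n‖ ≤
      C * ∑ j ∈ range (m J + 1), w j * ‖corr S F G (v j)‖ := by
    rw [← sum_fiberwise_of_maps_to (s := Ico n₀ J) (t := range (m J + 1)) (g := m)
      fun n hn => mem_range.2 (Nat.lt_succ_of_le (hm n J (mem_Ico.1 hn).1 (mem_Ico.1 hn).2.le)),
      mul_sum]
    refine sum_le_sum fun j _ => ?_
    calc _ ≤ ∑ n ∈ (Ico n₀ J).filter (fun n => m n = j), u n * ‖corr S F G (v j)‖ :=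
          sum_le_sum fun n hn => mul_le_mul_of_nonneg_left (hv2 j n hn) (hu n)
      _ = (∑ n ∈ (Ico n₀ J).filter (fun n => m n = j), u n) * ‖corr S F G (v j)‖ := by
          rw [sum_mul]
      _ ≤ C * w j * ‖corr S F G (v j)‖ := mul_le_mul_of_nonneg_right (h2 J j) (norm_nonneg _)
      _ = _ := by ring
  have k4 : ∑ n ∈ range n₀, u n * ‖corr S F G fun i => a i n‖ ≤ ∑ n ∈ range n₀, u n :=
    sum_le_sum fun n _ => mul_le_of_le_one_right (hu n) (norm_corr_le S hF hG _)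
  have k5 : C * (ε / (4 * C + 4) * Z (m J + 1)) ≤ ε / 2 * Z' J := by
    have e1 : C * (ε / (4 * C + 4)) ≤ ε / 4 := by
      rw [← mul_div_assoc, div_le_div_iff₀ (by positivity) (by positivity)]
      nlinarith
    calc _ = C * (ε / (4 * C + 4)) * Z (m J + 1) := by ring
      _ ≤ ε / 4 * (2 * Z' J) := mul_le_mul e1 hZ.2 hZ.1.le (by positivity)
      _ = _ := by ring
  have k6 : ∑ n ∈ range J, u n / Z' J * ‖corr S F G fun i => a i n‖ =
      (∑ n ∈ range J, u n * ‖corr S F G fun i => a i n‖) / Z' J := by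
    rw [sum_div]; exact sum_congr rfl fun n _ => by ring
  rw [div_le_iff₀ hZ0] at H0
  rw [k6, div_le_iff₀ hZ0, ← sum_range_add_sum_Ico _ hJ]
  have := mul_le_mul_of_nonneg_left key2 hC
  linarith

/-- The case of an empty family. -/
lemma sl_empty {W : ℝ → ℝ} {T : ℕ} (hW : Wt W T) (S : Sys ℤ Y μ) {ι : Type} [Fintype ι]
    [IsEmpty ι] (g : ι → ℕ → ℝ) {t : ℕ → ℝ} (ht : Tendsto t atTop atTop)
    (hT : ∀ n, (T : ℝ) ≤ t n) :
    Ctl S 1 (fun J n => (W (t (n + 1)) - W (t n)) / W (t J)) g := by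
  intro B ε hε
  refine ⟨ε ^ 2, by positivity, fun K hK => ?_⟩
  filter_upwards [(hW.top.comp ht).eventually_gt_atTop 0] with J hJ F G a hF _ _ hbox
  simp only [Function.comp] at hJ
  have h1 : ‖∫ y, F y ∂μ‖ ≤ ε :=
    (pow_le_pow_iff_left₀ (norm_nonneg _) hε.le two_ne_zero).1
      ((sq_norm_integral_le_box S hK hF).trans hbox)
  have h2 : ∀ n, corr S F G (fun i => a i n) = ∫ y, F y ∂μ := fun n => by simp [corr]
  simp only [h2]
  rw [← sum_mul, ← sum_div, sum_range_sub fun n => W (t n)]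
  have h3 : 0 ≤ W (t 0) :=
    hW.nonneg.trans (hW.mono.monotoneOn Set.self_mem_Ici (hT 0) (hT 0))
  have h4 : (W (t J) - W (t 0)) / W (t J) ≤ 1 := by rw [div_le_one hJ]; linarith
  exact (mul_le_of_le_one_left (norm_nonneg _) h4).trans h1

/-- A fastest function, normalised to be increasing. -/
lemma sl_fast (H : HF) {W : ℝ → ℝ} {ι : Type} [Fintype ι] [Nonempty ι] {g : ι → ℝ → ℝ}
    (hg : ∀ i, Adm H W (g i)) : ∃ (b : ℝ → ℝ) (c : ι → ℝ) (i₀ : ι), b ∈ H.car ∧
      Tendsto b atTop atTop ∧ c i₀ ≠ 0 ∧ (∀ x y, |b x - b y| = |g i₀ x - g i₀ y|) ∧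
      Tendsto (fun t => deriv W t / deriv b t) atTop (𝓝 0) ∧
      ∀ i, Tendsto (fun t => deriv (g i) t / deriv b t) atTop (𝓝 (c i)) := by
  obtain ⟨i₀, c, hc, h⟩ := H.fastest (fun i => (hg i).1) fun i => (hg i).2.1
  rcases H.lim3 (hg i₀).1 with ⟨l, hl⟩ | hl | hl
  · exact absurd (hg i₀).2.1 (not_tendsto_atTop_of_tendsto_nhds hl.abs)
  · exact ⟨g i₀, c, i₀, (hg i₀).1, hl, by simp [hc], fun _ _ => rfl, (hg i₀).2.2, h⟩
  · have hd : ∀ t, deriv (fun t => -g i₀ t) t = -deriv (g i₀) t := fun t => deriv.fun_neg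
    refine ⟨fun t => -g i₀ t, fun i => -c i, i₀, H.neg (hg i₀).1, tendsto_neg_atBot_atTop.comp hl,
      by simp [hc], fun x y => ?_, ?_, fun i => ?_⟩
    · rw [← abs_neg]; congr 1; ring
    · simpa only [hd, div_neg, neg_zero] using (hg i₀).2.2.neg
    · simpa only [hd, div_neg] using (h i).neg

/-- The inverse of an increasing function at the integers. -/
lemma sl_tau {b : ℝ → ℝ} {T₁ : ℝ} (hb : ∀ t, T₁ ≤ t → DifferentiableAt ℝ b t)
    (hm : StrictMonoOn b (Set.Ici T₁)) (ht : Tendsto b atTop atTop) :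
    ∃ τ : ℕ → ℝ, (∀ m, T₁ ≤ τ m) ∧ (∀ m, b (τ m) = b T₁ + m) ∧ Monotone τ ∧
      Tendsto τ atTop atTop := by
  have h := isPreconnected_Ici.intermediate_value_Ici (l := atTop) Set.self_mem_Ici
    (le_principal_iff.2 (Ici_mem_atTop T₁))
    (fun t (h : T₁ ≤ t) => (hb t h).continuousAt.continuousWithinAt) ht
  have h' : ∀ m : ℕ, ∃ x, T₁ ≤ x ∧ b x = b T₁ + m := fun m =>
    h (show b T₁ ≤ b T₁ + m from le_add_of_nonneg_right (Nat.cast_nonneg m))
  choose τ h1 h2 using h'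
  refine ⟨τ, h1, h2, fun m n hmn => ?_, ?_⟩
  · rw [← hm.le_iff_le (h1 m) (h1 n), h2, h2]
    exact add_le_add le_rfl (Nat.cast_le.2 hmn)
  · refine tendsto_atTop.2 fun R => ?_
    filter_upwards [tendsto_natCast_atTop_atTop.eventually_ge_atTop (b (max R T₁) - b T₁)] with m hm'
    refine (le_max_left R T₁).trans ?_
    rw [← hm.le_iff_le (le_max_right R T₁) (h1 m), h2]
    linarith

/-- The local estimate along the inverse of the fastest function. -/
lemma sl_loc (S : Sys ℤ Y μ) {ι : Type} [Fintype ι] (cl : ι → Prop) (g : ι → ℕ → ℝ) (c : ι → ℝ)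
    (hcl : ∀ i, cl i ↔ c i = 0)
    (hg : ∀ η : ℝ, 0 < η → ∀ᶠ y : ℕ in atTop, ∀ i (x : ℕ),
      |g i (y + x) - g i y - c i * x| ≤ η * x) :
    ∃ s₁, 1 ≤ s₁ ∧ ∀ B ε : ℝ, 0 < ε → ∃ C₁ B' : ℝ, 0 ≤ C₁ ∧ ∀ K : ℕ, 1 ≤ K → ∃ L : ℕ → ℕ, Smo L ∧
      ∀ᶠ y : ℕ in atTop, ∀ (F : Y → ℂ) (G : ι → Y → ℂ) (a : ι → ℕ → ℤ), B1 F → (∀ i, B1 (G i)) →
        (∀ i n, |(a i n : ℝ) - g i n| ≤ B) → ∃ v : {i // cl i} → ℤ,
          (∀ i, |(v i : ℝ) - g i y| ≤ B') ∧
            𝔼 x ∈ range (L y), (1 : ℝ) * ‖corr S F G fun i => a i (y + x)‖ ≤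
              ε + C₁ * box S (List.replicate s₁ K)
                fun z => F z * ∏ i : {i // cl i}, G i (S.act (v i) z) := by
  obtain ⟨s₁, hs₁, H⟩ := loc S (Fintype.card ι) 1
  refine ⟨s₁, hs₁, fun B ε hε => ?_⟩
  have hsum : ∀ i, |c i| ≤ ∑ j, |c j| := fun i =>
    single_le_sum (f := fun j => |c j|) (fun _ _ => abs_nonneg _) (mem_univ i)
  have hs0 : 0 ≤ ∑ j, |c j| := sum_nonneg fun _ _ => abs_nonneg _
  obtain ⟨C₁, hC₁, H⟩ := H (|B| + 1 + ∑ j, |c j|) ε hε
  refine ⟨C₁, |B| + 1 + ∑ j, |c j|, hC₁, fun K hK => ?_⟩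
  obtain ⟨Ω, H⟩ := H K hK
  have hL : ∀ᶠ L : ℕ in atTop, ∀ i, ¬ cl i → Ω ≤ |c i| * L := by
    refine eventually_all.2 fun i => ?_
    by_cases hi : cl i
    · exact Eventually.of_forall fun _ h => absurd hi h
    · have : 0 < |c i| := abs_pos.2 fun h => hi ((hcl i).2 h)
      filter_upwards [(tendsto_natCast_atTop_atTop.const_mul_atTop this).eventually_ge_atTop Ω]
        with L h _ using h
  obtain ⟨L, hL1, hL2, hL3⟩ := (hL.and ((eventually_ge_atTop 1).and
    ((tendsto_natCast_atTop_atTop (R := ℝ)).eventually_ge_atTop Ω))).exists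
  have hL0 : (0 : ℝ) < L := by exact_mod_cast hL2
  refine ⟨fun _ => L, ?_, ?_⟩
  · filter_upwards [eventually_ge_atTop L] with n hn
    exact ⟨hL2, hn, fun y _ h => ⟨by omega, le_rfl⟩⟩
  filter_upwards [hg (1 / L) (by positivity)] with y hy F G a hF hG ha
  have hB := le_abs_self B
  have hB0 := abs_nonneg B
  obtain ⟨v, hv, hle⟩ := H L hL3 ι le_rfl cl
    (fun i => Polynomial.C (c i) * Polynomial.X + Polynomial.C (g i y))
    (fun i => Polynomial.natDegree_linear_le) (fun i hi => by simp [(hcl i).1 hi])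
    (fun i hi => by
      have h0 : c i ≠ 0 := fun h => hi ((hcl i).2 h)
      refine ⟨?_, ?_, ?_, ?_⟩
      · rw [Polynomial.natDegree_linear h0]
      · rw [Polynomial.natDegree_linear h0]; push_cast; linarith
      · rw [Polynomial.leadingCoeff_linear h0]; linarith [hsum i]
      · rw [Polynomial.natDegree_linear h0, Polynomial.leadingCoeff_linear h0, pow_one]
        exact hL1 i hi)
    F G (fun i x => a i (y + x)) hF hG (fun i x hx => by
      have h1 := abs_le.1 (ha i (y + x))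
      have h2 : 1 / (L : ℝ) * x ≤ 1 := by
        rw [one_div, inv_mul_le_iff₀ hL0, mul_one]; exact_mod_cast hx.le
      have h3 := abs_le.1 ((hy i x).trans h2)
      simp only [Polynomial.eval_add, Polynomial.eval_mul, Polynomial.eval_C, Polynomial.eval_X]
      rw [abs_le]; constructor <;> linarith [h1.1, h1.2, h3.1, h3.2])
  refine ⟨v, fun i => ?_, by simpa only [one_mul] using hle⟩
  simpa using hv i

theorem sl (H : HF) {W : ℝ → ℝ} (hWH : W ∈ H.car) {T : ℕ} (hW : Wt W T) (S : Sys ℤ Y μ) (k : ℕ) :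
    ∀ (ι : Type) [Fintype ι], Fintype.card ι ≤ k → ∀ g : ι → ℝ → ℝ, (∀ i, Adm H W (g i)) →
      ∀ t : ℕ → ℝ, Monotone t → Tendsto t atTop atTop → (∀ n, (T : ℝ) ≤ t n) →
        (∃ B : ℝ, ∀ᶠ n in atTop, ∀ i, |g i (t (n + 1)) - g i (t n)| ≤ B) →
          ∃ s, 1 ≤ s ∧ Ctl S s (fun J n => (W (t (n + 1)) - W (t n)) / W (t J))
            fun i n => g i (t n) := by
  induction k with
  | zero =>
    intro ι _ hc g _ t _ ht hT _
    have : IsEmpty ι := Fintype.card_eq_zero_iff.1 (Nat.le_zero.1 hc)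
    exact ⟨1, le_rfl, sl_empty hW S _ ht hT⟩
  | succ k ih =>
  intro ι _ hc g hg t htm ht hT ⟨B₀, hB₀⟩
  rcases isEmpty_or_nonempty ι with hι | hι
  · exact ⟨1, le_rfl, sl_empty hW S _ ht hT⟩
  obtain ⟨b, c, i₀, hbH, hbt, hc0, hbg, hWb, hgb⟩ := sl_fast H hg
  have hbp := H.deriv_pos hbH hbt
  obtain ⟨T₂, hT₂⟩ := H.anti (H.div (H.der W hWH) (H.der b hbH)) (by
    filter_upwards [hbp, eventually_ge_atTop (T : ℝ)] with x h1 h2 using
      div_pos (hW.pos x h2) h1) hWb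
  have hclose : ∀ η : ℝ, 0 < η → ∀ᶠ x in atTop, ∀ i, |deriv (g i) x / deriv b x - c i| ≤ η :=
    fun η hη => eventually_all.2 fun i => by
      filter_upwards [Metric.tendsto_nhds.1 (hgb i) η hη] with x hx
      exact (Real.dist_eq _ _ ▸ hx).le
  obtain ⟨T₁, hT₁⟩ := eventually_atTop.1 ((eventually_ge_atTop (T : ℝ)).and
    ((eventually_ge_atTop T₂).and (hbp.and ((H.diff b hbH).and ((hclose 1 one_pos).and
      (eventually_all.2 fun i => H.diff (g i) (hg i).1))))))
  have hTT : (T : ℝ) ≤ T₁ := (hT₁ T₁ le_rfl).1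
  have hbd : ∀ x, T₁ ≤ x → DifferentiableAt ℝ b x := fun x hx => (hT₁ x hx).2.2.2.1
  have hbp' : ∀ x, T₁ ≤ x → 0 < deriv b x := fun x hx => (hT₁ x hx).2.2.1
  have hgd : ∀ i x, T₁ ≤ x → DifferentiableAt ℝ (g i) x := fun i x hx => (hT₁ x hx).2.2.2.2.2 i
  have hWd : ∀ x, T₁ ≤ x → DifferentiableAt ℝ W x := fun x hx => hW.diff x (hTT.trans hx)
  have hbm : StrictMonoOn b (Set.Ici T₁) :=
    strictMonoOn_of_deriv_pos (convex_Ici T₁)
      (fun x hx => (hbd x hx).continuousAt.continuousWithinAt)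
      fun x hx => hbp' x (interior_subset hx)
  have hWm : ∀ x y, (T : ℝ) ≤ x → x ≤ y → W x ≤ W y := fun x y hx hxy =>
    hW.mono.monotoneOn hx (hx.trans hxy) hxy
  -- comparison of increments
  have hinc : ∀ η x y, T₁ ≤ x → x ≤ y → (∀ z, x ≤ z → ∀ i, |deriv (g i) z / deriv b z - c i| ≤ η) →
      ∀ i, |g i y - g i x - c i * (b y - b x)| ≤ η * (b y - b x) := by
    intro η x y hx hxy h i
    obtain ⟨ξ, h1, _, h3⟩ := sl_cauchy hxy (fun z hz => hgd i z (hx.trans hz))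
      (fun z hz => hbd z (hx.trans hz)) fun z hz => hbp' z (hx.trans hz)
    have h4 : 0 ≤ b y - b x := sub_nonneg.2 (hbm.monotoneOn hx (hx.trans hxy) hxy)
    rw [h3, ← sub_mul, abs_mul, abs_of_nonneg h4]
    exact mul_le_mul_of_nonneg_right (h ξ h1 i) h4
  have hsum : ∀ i, |c i| ≤ ∑ j, |c j| := fun i =>
    single_le_sum (f := fun j => |c j|) (fun _ _ => abs_nonneg _) (mem_univ i)
  have hinc1 : ∀ x y, T₁ ≤ x → x ≤ y → b y - b x ≤ 1 → ∀ i, |g i y - g i x| ≤ ∑ j, |c j| + 1 := by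
    intro x y hx hxy h i
    have h4 : 0 ≤ b y - b x := sub_nonneg.2 (hbm.monotoneOn hx (hx.trans hxy) hxy)
    have h1 := hinc 1 x y hx hxy (fun z hz => (hT₁ z (hx.trans hz)).2.2.2.2.1) i
    have h2 : |c i * (b y - b x)| ≤ ∑ j, |c j| := by
      rw [abs_mul, abs_of_nonneg h4]
      exact (mul_le_of_le_one_right (abs_nonneg _) h).trans (hsum i)
    have h3 := abs_add_le (g i y - g i x - c i * (b y - b x)) (c i * (b y - b x))
    rw [sub_add_cancel] at h3
    linarith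
  obtain ⟨τ, hτ1, hτ2, hτm, hτt⟩ := sl_tau hbd hbm hbt
  have hτT : ∀ m, (T : ℝ) ≤ τ m := fun m => hTT.trans (hτ1 m)
  have hw : Antitone fun n => W (τ (n + 1)) - W (τ n) := by
    have : ∀ n, ∃ ξ, τ n ≤ ξ ∧ ξ ≤ τ (n + 1) ∧
        W (τ (n + 1)) - W (τ n) = deriv W ξ / deriv b ξ := fun n => by
      obtain ⟨ξ, h1, h2, h3⟩ := sl_cauchy (hτm (Nat.le_succ n))
        (fun z hz => hWd z ((hτ1 n).trans hz)) (fun z hz => hbd z ((hτ1 n).trans hz))
        fun z hz => hbp' z ((hτ1 n).trans hz)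
      refine ⟨ξ, h1, h2, ?_⟩
      rw [h3, hτ2, hτ2]; push_cast; ring
    choose ξ h1 h2 h3 using this
    refine antitone_nat_of_succ_le fun n => ?_
    rw [h3, h3]
    exact hT₂ (hT₁ _ ((hτ1 n).trans (h1 n))).2.1 (hT₁ _ ((hτ1 _).trans (h1 (n + 1)))).2.1
      ((h2 n).trans (h1 (n + 1)))
  have hw0 : ∀ n, 0 ≤ W (τ (n + 1)) - W (τ n) := fun n =>
    sub_nonneg.2 (hWm _ _ (hτT n) (hτm (Nat.le_succ n)))
  have hW0 : ∀ x, (T : ℝ) ≤ x → 0 ≤ W x := fun x hx => hW.nonneg.trans (hWm _ _ le_rfl hx)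
  obtain ⟨cl, hcl⟩ : ∃ cl : ι → Prop, ∀ i, cl i ↔ c i = 0 := ⟨_, fun _ => Iff.rfl⟩
  obtain ⟨s₂, hs₂, hctl⟩ := ih {i // cl i}
    (Nat.le_of_lt_succ ((Fintype.card_subtype_lt (x := i₀) fun h => hc0 ((hcl _).1 h)).trans_le hc))
    (fun i => g i) (fun i => hg i) τ hτm hτt hτT
    ⟨_, Eventually.of_forall fun n i => hinc1 _ _ (hτ1 n) (hτm (Nat.le_succ n))
      (by rw [hτ2, hτ2]; push_cast; linarith) i⟩
  obtain ⟨s₁, hs₁, hloc⟩ := sl_loc S cl (fun i n => g i (τ n)) c hcl fun η hη => by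
    obtain ⟨R, hR⟩ := eventually_atTop.1 (hclose η hη)
    filter_upwards [hτt.eventually_ge_atTop R] with y hy i x
    have := hinc η _ _ (hτ1 y) (hτm (Nat.le_add_right y x)) (fun z hz => hR z (hy.trans hz)) i
    rw [hτ2, hτ2] at this
    push_cast at this
    simpa only [add_sub_add_left_eq_sub, add_sub_cancel_left] using this
  have hlev := level S cl (fun i n => g i (τ n)) (fun n => W (τ (n + 1)) - W (τ n)) (fun _ => 1)
    (fun J => W (τ J)) hw hw0 (fun _ => zero_le_one) (hW.top.comp hτt)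
    (Eventually.of_forall fun J => by
      rw [sum_range_sub fun n => W (τ n)]
      linarith [hW0 _ (hτT 0), hW0 _ (hτT J)]) hs₁ hs₂ hctl hloc
  simp only [mul_one] at hlev
  refine ⟨s₁ + s₂, le_add_right hs₁, ?_⟩
  obtain ⟨n₀, hn₀⟩ := eventually_atTop.1 (hB₀.and (ht.eventually_ge_atTop T₁))
  obtain ⟨m, hm⟩ : ∃ m : ℕ → ℕ, ∀ n, m n = ⌊b (t n) - b T₁⌋₊ := ⟨_, fun _ => rfl⟩
  have hb0 : ∀ n, n₀ ≤ n → 0 ≤ b (t n) - b T₁ := fun n hn =>
    sub_nonneg.2 (hbm.monotoneOn Set.self_mem_Ici (hn₀ n hn).2 (hn₀ n hn).2)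
  have hm1 : ∀ n, n₀ ≤ n → τ (m n) ≤ t n := fun n hn => by
    rw [← hbm.le_iff_le (hτ1 _) (hn₀ n hn).2, hτ2, hm]
    linarith [Nat.floor_le (hb0 n hn)]
  have hm2 : ∀ n, b (t n) - b (τ (m n)) ≤ 1 := fun n => by
    rw [hτ2, hm]
    linarith [Nat.lt_floor_add_one (b (t n) - b T₁)]
  refine sl_regroup hlev m n₀ (∑ j, |c j| + 1) ((⌈B₀⌉₊ + 1 : ℕ) : ℝ) (Nat.cast_nonneg _)
    (fun n => sub_nonneg.2 (hWm _ _ (hT n) (htm (Nat.le_succ n))))
    (fun n hn i => hinc1 _ _ (hτ1 _) (hm1 n hn) (hm2 n) i) (fun J j => ?_) (fun n J hn hJ => ?_) ?_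
    (hW.top.comp ht) ?_
  · refine le_trans ?_ (sl_block (f := fun n => W (τ n)) hw j (⌈B₀⌉₊ + 1))
    refine sl_tele (f := fun n => W (t n)) (fun x y hxy => hWm _ _ (hT x) (htm hxy)) _ _ _
      (hWm _ _ (hτT j) (hτm (Nat.le_add_right _ _))) fun n hn => ?_
    rw [mem_filter, mem_Ico] at hn
    obtain ⟨⟨hn, -⟩, rfl⟩ := hn
    refine ⟨hWm _ _ (hτT _) (hm1 n hn), hWm _ _ (hT _) ?_⟩
    rw [← hbm.le_iff_le (hn₀ _ (Nat.le_succ_of_le hn)).2 (hτ1 _), hτ2]
    have h1 := (hbg _ _).trans_le ((hn₀ n hn).1 i₀)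
    have h2 := hm2 n
    rw [hτ2] at h2
    push_cast
    linarith [le_abs_self (b (t (n + 1)) - b (t n)), Nat.le_ceil B₀]
  · rw [hm, hm]
    exact Nat.floor_mono (sub_le_sub_right
      (hbm.monotoneOn (hn₀ n hn).2 (hn₀ J (hn.trans hJ)).2 (htm hJ)) _)
  · rw [show m = fun n => ⌊b (t n) - b T₁⌋₊ from funext hm]
    exact tendsto_nat_floor_atTop.comp (tendsto_atTop_add_const_right _ (-b T₁) (hbt.comp ht))
  · have hmt : Tendsto (fun J => m J + 1) atTop atTop := by
      rw [show m = fun n => ⌊b (t n) - b T₁⌋₊ from funext hm]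
      exact (tendsto_add_atTop_nat 1).comp
        (tendsto_nat_floor_atTop.comp (tendsto_atTop_add_const_right _ (-b T₁) (hbt.comp ht)))
    filter_upwards [((hW.top.comp hτt).comp hmt).eventually_gt_atTop 0, eventually_ge_atTop n₀,
      (hW.top.comp ht).eventually_ge_atTop (W (τ (0 + 1)) - W (τ 0))] with J h1 h2 h3
    refine ⟨h1, ?_⟩
    have h4 := hw (Nat.zero_le (m J))
    have h5 := hWm _ _ (hτT _) (hm1 J h2)
    simp only [Function.comp] at h3 h4
    linarith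

end Pool.Agent.MP_357fb4_an

end
end
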