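import Pool.Agent.Mg.F14ad9d.G85b896
import Pool.Agent.Mg.F14ad9d.Gf5c998

section

/-!
Weyl sums and covering by short intervals.
-/

open scoped BigOperators Classical ComplexConjugate Polynomial
open Finset Filter MeasureTheory Topology

noncomputable section

namespace Pool.Agent.MP_357fb4_an

theorem w1 {d : ℕ} (hd : 1 ≤ d) {ε : ℝ} (hε : 0 < ε) : ∃ Ω η : ℝ, 0 < η ∧ ∀ L : ℕ, Ω ≤ L →
    ∀ Q : ℝ[X], Q.natDegree ≤ d → Ω ≤ |Q.coeff d| * (L : ℝ) ^ d →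
      |Q.coeff d| * (L : ℝ) ^ (d - 1) ≤ η → ‖𝔼 x ∈ range L, ec (Q.eval (x : ℝ))‖ ≤ ε := by
  induction d, hd using Nat.le_induction generalizing ε with
  | base =>
    refine ⟨ε⁻¹, 1 / 2, by norm_num, fun L _ Q hQ h1 h2 => weyl_lin hQ 0 ?_ hε ?_⟩
    · simpa using h2
    · simpa using h1
  | succ d hd ih =>
    obtain ⟨Ω₁, η₁, hη₁, H⟩ := ih (ε := ε ^ 2 / 8) (by positivity)
    obtain ⟨κ, hκ0, hκ1, hκε⟩ : ∃ κ : ℝ, 0 < κ ∧ κ ≤ 1 ∧ κ ≤ ε / 4 :=
      ⟨min 1 (ε / 4), by positivity, min_le_left _ _, min_le_right _ _⟩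
    obtain ⟨σ, hσ0, hσ⟩ : ∃ σ : ℝ, 0 < σ ∧ σ = ε ^ 2 / 32 := ⟨_, by positivity, rfl⟩
    refine ⟨max (max Ω₁ (2 * |Ω₁| / (σ * κ))) (max (1 / κ) (1 / (σ * κ))), η₁ / (d + 1),
      by positivity, fun L hL Q hQ h1 h2 => ?_⟩
    simp only [max_le_iff] at hL h1
    obtain ⟨⟨hL1, -⟩, hL2, hL3⟩ := hL
    replace h1 := h1.1.2
    rw [div_le_iff₀ (by positivity)] at hL2 hL3 h1
    rw [Nat.add_sub_cancel, le_div_iff₀ (by positivity)] at h2
    have hL0 : (0 : ℝ) < L := by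
      by_contra hc
      nlinarith
    have hM1 : (⌊κ * L⌋₊ : ℝ) ≤ κ * L := Nat.floor_le (by positivity)
    have hM : 1 ≤ ⌊κ * L⌋₊ := Nat.le_floor (by push_cast; linarith)
    have hM2 : κ * L ≤ 2 * ⌊κ * L⌋₊ := by
      have := Nat.lt_floor_add_one (κ * L)
      have h3 : (1 : ℝ) ≤ ⌊κ * L⌋₊ := by exact_mod_cast hM
      linarith
    generalize ⌊κ * L⌋₊ = M at hM hM1 hM2
    have hM0 : (0 : ℝ) < M := by exact_mod_cast hM
    have hm1 : (⌊σ * M⌋₊ : ℝ) ≤ σ * M := Nat.floor_le (by positivity)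
    have hm2 := Nat.lt_floor_add_one (σ * M)
    generalize ⌊σ * M⌋₊ = m at hm1 hm2
    refine weyl_step Q (m := m) hM hε.le ?_ ?_ fun a b ha hb hab => ?_
    · rw [div_le_iff₀ hL0]
      nlinarith
    · rw [div_le_iff₀ hM0, show ε ^ 2 / 8 = 4 * σ by rw [hσ]; ring]
      nlinarith
    · obtain ⟨g1, g2⟩ := weyl_diff hQ (a : ℝ) (b : ℝ)
      have ha' : (a : ℝ) < M := by exact_mod_cast ha
      have hb' : (b : ℝ) < M := by exact_mod_cast hb
      have a0 : (0 : ℝ) ≤ a := Nat.cast_nonneg _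
      have b0 : (0 : ℝ) ≤ b := Nat.cast_nonneg _
      have u1 : |(a : ℝ) - b| ≤ L := by
        rw [abs_le]
        constructor <;> nlinarith
      have u2 : σ * κ * L / 2 ≤ |(a : ℝ) - b| := by
        have : σ * κ * L / 2 ≤ m + 1 := by nlinarith
        rcases hab with hab | hab
        · have h3 : (a : ℝ) + m + 1 ≤ b := by exact_mod_cast hab
          exact le_abs.2 (Or.inr (by linarith))
        · have h3 : (b : ℝ) + m + 1 ≤ a := by exact_mod_cast hab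
          exact le_abs.2 (Or.inl (by linarith))
      have hd1 : (1 : ℝ) ≤ d + 1 := by linarith [(Nat.cast_nonneg d : (0 : ℝ) ≤ d)]
      refine H L hL1 _ g1 ?_ ?_ <;> rw [g2, abs_mul, abs_mul, abs_of_pos (by positivity)]
      · calc Ω₁ ≤ |Ω₁| := le_abs_self _
          _ ≤ 1 * (σ * κ * L / 2) * |Q.coeff (d + 1)| * (L : ℝ) ^ d := by
            rw [pow_succ] at h1
            linarith
          _ ≤ _ := by gcongr
      · calc _ ≤ (d + 1) * (L : ℝ) * |Q.coeff (d + 1)| * (L : ℝ) ^ (d - 1) := by gcongr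
          _ = |Q.coeff (d + 1)| * ((L : ℝ) ^ (d - 1) * L) * (d + 1) := by ring
          _ ≤ η₁ := by rwa [← pow_succ, Nat.sub_add_cancel hd]

theorem w3 {d : ℕ} (hd : 1 ≤ d) {ε : ℝ} (hε : 0 < ε) : ∃ H : ℕ, ∀ δ : ℝ, 0 < δ → ∃ Ω : ℕ,
    ∀ L : ℕ, Ω ≤ L → ∀ Q : ℝ[X], Q.natDegree ≤ d →
      (∀ k : ℕ, 1 ≤ k → k ≤ H → ∀ n : ℤ, δ ≤ |k * Q.coeff d - n|) →
        ‖𝔼 x ∈ range L, ec (Q.eval (x : ℝ))‖ ≤ ε := by
  induction d, hd using Nat.le_induction generalizing ε with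
  | base =>
    refine ⟨1, fun δ hδ => ⟨⌈ε⁻¹ / δ⌉₊, fun L hL Q hQ h => ?_⟩⟩
    refine weyl_lin hQ (round (Q.coeff 1)) (abs_sub_round _) hε ?_
    have h1 := h 1 le_rfl le_rfl (round (Q.coeff 1))
    rw [Nat.cast_one, one_mul] at h1
    have h2 := Nat.ceil_le.1 hL
    rw [div_le_iff₀' hδ] at h2
    exact h2.trans (mul_le_mul_of_nonneg_right h1 (Nat.cast_nonneg _))
  | succ d hd ih =>
    obtain ⟨H₁, H⟩ := ih (ε := ε ^ 2 / 8) (by positivity)
    obtain ⟨M, hM⟩ := exists_nat_gt (8 / ε ^ 2)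
    have hM0 : (0 : ℝ) < M := lt_trans (by positivity) hM
    refine ⟨H₁ * ((d + 1) * M), fun δ hδ => ?_⟩
    obtain ⟨Ω₁, H2⟩ := H δ hδ
    refine ⟨max Ω₁ ⌈4 * M / ε⌉₊, fun L hL Q hQ h => ?_⟩
    obtain ⟨hL1, hL2⟩ := max_le_iff.1 hL
    replace hL2 := Nat.ceil_le.1 hL2
    have hL0 : (0 : ℝ) < L := lt_of_lt_of_le (by positivity) hL2
    rw [div_le_iff₀ hε] at hL2
    rw [div_lt_iff₀ (by positivity)] at hM
    refine weyl_step Q (M := M) (m := 0) (by exact_mod_cast hM0) hε.le ?_ ?_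
      fun a b ha hb hab => ?_
    · rw [div_le_iff₀ hL0]
      linarith
    · rw [div_le_iff₀ hM0]
      push_cast
      linarith
    · obtain ⟨g1, g2⟩ := weyl_diff hQ (a : ℝ) (b : ℝ)
      refine H2 L hL1 _ g1 fun k hk1 hk2 n => ?_
      have key : ∀ j : ℕ, 1 ≤ j → j ≤ M → ∀ n : ℤ,
          δ ≤ |k * ((d + 1) * j * Q.coeff (d + 1)) - n| := fun j hj1 hj2 n => by
        have := h (k * ((d + 1) * j)) (Nat.mul_pos hk1 (Nat.mul_pos d.succ_pos hj1))
          (Nat.mul_le_mul hk2 (Nat.mul_le_mul_left _ hj2)) n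
        push_cast at this
        rwa [mul_assoc] at this
      rw [g2]
      rcases hab with hab | hab
      · have := key (b - a) (by omega) (by omega) (-n)
        rw [Nat.cast_sub (by omega), ← abs_neg] at this
        convert this using 2
        push_cast
        ring
      · have := key (a - b) (by omega) (by omega) n
        rwa [Nat.cast_sub (by omega)] at this

theorem w2 {d : ℕ} (hd : 1 ≤ d) {θ : ℝ} (hθ : Irrational θ) {ε : ℝ} (hε : 0 < ε) : ∃ Ω : ℕ,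
    ∀ L : ℕ, Ω ≤ L → ∀ Q : ℝ[X], Q.natDegree ≤ d → Q.coeff d = θ →
      ‖𝔼 x ∈ range L, ec (Q.eval (x : ℝ))‖ ≤ ε := by
  obtain ⟨H, hH⟩ := w3 hd hε
  have key : ∀ H : ℕ, ∃ δ : ℝ, 0 < δ ∧ ∀ k : ℕ, 1 ≤ k → k ≤ H → ∀ n : ℤ, δ ≤ |k * θ - n| := by
    intro H
    induction H with
    | zero => exact ⟨1, one_pos, fun k h1 h2 => by omega⟩
    | succ H ih =>
      obtain ⟨δ, hδ, h⟩ := ih
      have hi : Irrational (((H + 1 : ℕ) : ℝ) * θ) := hθ.natCast_mul H.succ_ne_zero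
      refine ⟨min δ |((H + 1 : ℕ) : ℝ) * θ - round (((H + 1 : ℕ) : ℝ) * θ)|,
        lt_min hδ (abs_pos.2 (sub_ne_zero.2 (hi.ne_int _))), fun k h1 h2 n => ?_⟩
      rcases Nat.lt_or_ge k (H + 1) with h3 | h3
      · exact (min_le_left _ _).trans (h k h1 (by omega) n)
      · rw [le_antisymm h2 h3]
        exact (min_le_right _ _).trans (round_le _ n)
  obtain ⟨δ, hδ, h⟩ := key H
  obtain ⟨Ω, hΩ⟩ := hH δ hδ
  exact ⟨Ω, fun L hL Q hQ e => hΩ L hL Q hQ (by rwa [e])⟩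

theorem weyl_cover (f : ℕ → ℂ) (hf : ∀ n, ‖f n‖ ≤ 1) (Y₂ : ℕ) {ε η : ℝ} (hε : 0 ≤ ε) (hη : 0 ≤ η)
    (hη1 : η ≤ 1) (k : ℕ) : ∀ Y₁ : ℕ, Y₂ - Y₁ = k →
      (∀ y : ℕ, Y₁ < y → y ≤ Y₂ → ∃ l : ℕ, 1 ≤ l ∧ (l : ℝ) ≤ η * y ∧
        ‖𝔼 x ∈ range l, f (y + x)‖ ≤ ε) →
      ‖∑ n ∈ Ioc Y₁ Y₂, f n / n‖ ≤ 2 * (ε + η) * ∑ n ∈ Ioc Y₁ Y₂, (1 : ℝ) / n + η := by
  induction k using Nat.strong_induction_on with
  | _ k ih =>
    intro Y₁ hk h
    rcases Nat.lt_or_ge Y₁ Y₂ with hY | hY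
    swap
    · simpa [Ioc_eq_empty_of_le hY] using hη
    obtain ⟨l, hl1, hl2, hl3⟩ := h (Y₁ + 1) (by omega) hY
    have hy : (0 : ℝ) < (Y₁ + 1 : ℕ) := by positivity
    have hl0 : (0 : ℝ) < l := by exact_mod_cast hl1
    rcases Nat.lt_or_ge Y₂ (Y₁ + l) with hc | hc
    · have h1 : ‖∑ n ∈ Ioc Y₁ Y₂, f n / n‖ ≤ η := by
        refine (norm_sum_le _ _).trans ((sum_le_card_nsmul _ _ (1 / (Y₁ + 1 : ℕ) : ℝ)
          fun n hn => ?_).trans ?_)
        · rw [norm_div, Complex.norm_natCast]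
          have : ((Y₁ + 1 : ℕ) : ℝ) ≤ n := by exact_mod_cast (mem_Ioc.1 hn).1
          gcongr
          exact hf n
        · rw [Nat.card_Ioc, nsmul_eq_mul, mul_one_div, div_le_iff₀ hy]
          refine le_trans ?_ hl2
          exact_mod_cast (by omega : Y₂ - Y₁ ≤ l)
      have h2 : 0 ≤ 2 * (ε + η) * ∑ n ∈ Ioc Y₁ Y₂, (1 : ℝ) / n := by positivity
      linarith
    · have h1 := ih (Y₂ - (Y₁ + l)) (by omega) (Y₁ + l) rfl fun y h1 h2 => h y (by omega) h2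
      have e : Ioc Y₁ (Y₁ + l) = Ico (Y₁ + 1) (Y₁ + 1 + l) := by
        ext x
        simp only [mem_Ioc, mem_Ico]
        omega
      rw [← sum_Ioc_consecutive _ (Nat.le_add_right Y₁ l) hc,
        ← sum_Ioc_consecutive _ (Nat.le_add_right Y₁ l) hc, e, sum_Ico_eq_sum_range,
        sum_Ico_eq_sum_range, Nat.add_sub_cancel_left, mul_add, add_assoc]
      refine (norm_add_le _ _).trans (add_le_add ?_ h1)
      generalize Y₁ + 1 = y at hl2 hl3 hy
      have e2 : ∑ x ∈ range l, f (y + x) / ((y + x : ℕ) : ℂ) = ∑ x ∈ range l,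
          ((𝔼 x ∈ range l, f (y + x)) / y +
            f (y + x) * ((1 / ((y + x : ℕ) : ℝ) - 1 / y : ℝ) : ℂ)) := by
        have hl : (l : ℂ) ≠ 0 := by exact_mod_cast hl0.ne'
        rw [sum_add_distrib, sum_const, card_range, expect_eq_sum_div_card, card_range,
          nsmul_eq_mul, ← mul_div_assoc, mul_div_cancel₀ _ hl, sum_div, ← sum_add_distrib]
        refine sum_congr rfl fun x _ => ?_
        push_cast
        ring
      rw [e2, mul_sum]
      refine (norm_sum_le _ _).trans (sum_le_sum fun x hx => (norm_add_le _ _).trans ?_)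
      have hx1 : (x : ℝ) ≤ η * y := le_trans (by exact_mod_cast (mem_range.1 hx).le) hl2
      have hx0 : (0 : ℝ) ≤ x := Nat.cast_nonneg _
      have hx2 : (x : ℝ) ≤ y := hx1.trans (mul_le_of_le_one_left hy.le hη1)
      have g1 : ‖(𝔼 x ∈ range l, f (y + x)) / y‖ ≤ 2 * ε * (1 / ((y + x : ℕ) : ℝ)) := by
        rw [norm_div, Complex.norm_natCast, mul_one_div, Nat.cast_add,
          div_le_div_iff₀ hy (by positivity)]
        nlinarith [norm_nonneg (𝔼 x ∈ range l, f (y + x))]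
      have g2 : ‖f (y + x) * ((1 / ((y + x : ℕ) : ℝ) - 1 / y : ℝ) : ℂ)‖ ≤
          η * (1 / ((y + x : ℕ) : ℝ)) := by
        rw [norm_mul, Complex.norm_real, Real.norm_eq_abs]
        refine (mul_le_of_le_one_left (abs_nonneg _) (hf _)).trans ?_
        rw [Nat.cast_add, show 1 / ((y : ℝ) + x) - 1 / y = -(x / y * (1 / (y + x))) by
          field_simp; ring, abs_neg, abs_of_nonneg (by positivity)]
        gcongr
        rwa [div_le_iff₀ hy]
      have g3 : 0 ≤ η * (1 / ((y + x : ℕ) : ℝ)) := by positivity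
      linarith

theorem cover (f : ℕ → ℂ) (hf : ∀ n, ‖f n‖ ≤ 1) (Y₁ Y₂ : ℕ) {ε η : ℝ} (hε : 0 ≤ ε) (hη : 0 ≤ η)
    (hη1 : η ≤ 1) (h : ∀ y : ℕ, Y₁ < y → y ≤ Y₂ → ∃ l : ℕ, 1 ≤ l ∧ (l : ℝ) ≤ η * y ∧
      ‖𝔼 x ∈ range l, f (y + x)‖ ≤ ε) :
    ‖∑ n ∈ Ioc Y₁ Y₂, f n / n‖ ≤ 2 * (ε + η) * (1 + Real.log Y₂) + η := by
  refine (weyl_cover f hf Y₂ hε hη hη1 (Y₂ - Y₁) Y₁ rfl h).trans ?_
  have := harm_le' Y₁ Y₂
  gcongr

/-- Averages over a block split along progressions. -/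
theorem block_ap (f : ℕ → ℂ) {Q : ℕ} (l y : ℕ) {ε : ℝ} (hQ : 1 ≤ Q)
    (h : ∀ c, c < Q → ‖𝔼 x ∈ range l, f (y + c + Q * x)‖ ≤ ε) :
    ‖𝔼 x ∈ range (Q * l), f (y + x)‖ ≤ ε := by
  have e : ∀ l : ℕ, ∑ x ∈ range (Q * l), f (y + x) =
      ∑ c ∈ range Q, ∑ x ∈ range l, f (y + c + Q * x) := by
    intro l
    induction l with
    | zero => simp
    | succ l ih =>
      rw [Nat.mul_succ, sum_range_add, ih, ← sum_add_distrib]
      refine sum_congr rfl fun c _ => ?_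
      rw [sum_range_succ]
      congr 2
      ring
  have e2 : 𝔼 x ∈ range (Q * l), f (y + x) =
      𝔼 c ∈ range Q, 𝔼 x ∈ range l, f (y + c + Q * x) := by
    simp only [expect_eq_sum_div_card, card_range]
    rw [e, ← sum_div, div_div, Nat.cast_mul, mul_comm]
  rw [e2]
  exact (norm_expect_le' _ _).trans
    (expect_le (nonempty_range_iff.2 (by omega)) fun c hc => h c (mem_range.1 hc))

theorem ti_of_loc {φ : ℕ → ℂ} (hφ : ∀ n, ‖φ n‖ ≤ 1)
    (h : ∀ q : ℕ, 1 ≤ q → ∃ Q : ℕ, 1 ≤ Q ∧ q ∣ Q ∧ ∀ ε η : ℝ, 0 < ε → 0 < η → ∀ᶠ y : ℕ in atTop,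
      ∃ l : ℕ, 1 ≤ l ∧ (Q * l : ℝ) ≤ η * y ∧ ∀ c, c < Q →
        ‖𝔼 x ∈ range l, φ (y + c + Q * x)‖ ≤ ε) : TI φ := by
  intro q χ hq hχ hp ε hε
  obtain ⟨Q, hQ, ⟨k, rfl⟩, h⟩ := h q hq
  obtain ⟨η, hη0, hη1, hηε⟩ : ∃ η : ℝ, 0 < η ∧ η ≤ 1 ∧ η ≤ ε / 13 :=
    ⟨min 1 (ε / 13), by positivity, min_le_left _ _, min_le_right _ _⟩
  obtain ⟨y₀, hy⟩ := eventually_atTop.1 (h η η hη0 hη0)
  have hper : ∀ n j : ℕ, χ (n + q * j) = χ n := by
    intro n j
    induction j with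
    | zero => simp
    | succ j ih => rw [Nat.mul_succ, ← add_assoc, hp, ih]
  filter_upwards [eventually_ge_atTop y₀, eventually_ge_atTop 3] with N h1 h2
  have hlog : 1 ≤ Real.log N := by
    rw [Real.le_log_iff_exp_le (by positivity)]
    have : (3 : ℝ) ≤ N := by exact_mod_cast h2
    linarith [Real.exp_one_lt_three]
  refine (cover (fun n => χ n * φ n) (fun n => ?_) N (N ^ 2) hη0.le hη0.le hη1
    fun y hy1 _ => ?_).trans ?_
  · rw [norm_mul]
    exact mul_le_one₀ (hχ n) (norm_nonneg _) (hφ n)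
  · obtain ⟨l, hl, hl2, hl3⟩ := hy y (by omega)
    refine ⟨q * k * l, Nat.mul_pos hQ hl, by exact_mod_cast hl2,
      block_ap (fun n => χ n * φ n) l y hQ fun c hc => ?_⟩
    simp only [mul_assoc q k, hper]
    rw [← mul_expect, norm_mul]
    simp only [← mul_assoc q k]
    exact (mul_le_of_le_one_left (norm_nonneg _) (hχ _)).trans (hl3 c hc)
  · rw [Nat.cast_pow, Real.log_pow]
    push_cast
    nlinarith

theorem rat_split {P : ℝ[X]} {j q : ℕ} (h : RatAbove P j q) : ∃ P₁ P₂ : ℝ[X], P = P₁ + P₂ ∧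
    P₁.natDegree ≤ j ∧ P₁.coeff j = P.coeff j ∧
      ∀ n m : ℤ, ec (P₂.eval ((n + q * m : ℤ) : ℝ)) = ec (P₂.eval (n : ℝ)) := by
  obtain ⟨P₁, hP₁⟩ : ∃ P₁ : ℝ[X], ∀ i, P₁.coeff i = if i ≤ j then P.coeff i else 0 :=
    ⟨∑ i ∈ range (j + 1), Polynomial.monomial i (P.coeff i), fun i => by
      simp [Polynomial.coeff_monomial, Nat.lt_succ_iff]⟩
  refine ⟨P₁, P - P₁, by ring, ?_, by rw [hP₁, if_pos le_rfl], fun n m => ?_⟩
  · rw [Polynomial.natDegree_le_iff_coeff_eq_zero]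
    exact fun i hi => by rw [hP₁, if_neg hi.not_ge]
  · have h1 : ∀ i, ∃ z : ℤ, q * (P - P₁).coeff i = z := fun i => by
      rw [Polynomial.coeff_sub, hP₁]
      split_ifs with hi
      · exact ⟨0, by simp⟩
      · simpa using h i (not_le.1 hi)
    have h2 : ∀ i : ℕ, ∃ s : ℤ, (n + q * m) ^ i = n ^ i + q * s := fun i => by
      obtain ⟨s, hs⟩ := sub_dvd_pow_sub_pow (n + q * m) n i
      exact ⟨m * s, by linear_combination hs⟩
    choose z hz using h1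
    choose s hs using h2
    rw [← ec_add_int ((P - P₁).eval (n : ℝ)) (∑ i ∈ range ((P - P₁).natDegree + 1), z i * s i),
      Polynomial.eval_eq_sum_range, Polynomial.eval_eq_sum_range, Int.cast_sum, ← sum_add_distrib]
    congr 1
    refine sum_congr rfl fun i _ => ?_
    rw [← Int.cast_pow, hs]
    push_cast
    rw [← hz]
    ring

end Pool.Agent.MP_357fb4_an

end
end

section

/-!
Taylor expansions.
-/

open scoped BigOperators Classical ComplexConjugate Polynomial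
open Finset Filter MeasureTheory Topology

noncomputable section

namespace Pool.Agent.MP_357fb4_an

theorem TayAux (y l B : ℝ) (n : ℕ) : ∀ f : ℕ → ℝ → ℝ,
    (∀ j, j < n → ∀ t ∈ Set.Icc y (y + l), HasDerivAt (f j) (f (j + 1) t) t) →
    (∀ t ∈ Set.Icc y (y + l), |f n t| ≤ B) →
    ∀ x ∈ Set.Icc 0 l,
      |f 0 (y + x) - ∑ j ∈ range n, f j y / j.factorial * x ^ j| ≤ B * x ^ n := by
  induction n with
  | zero =>
    intro f _ hB x hx
    simpa using hB (y + x) ⟨by linarith [hx.1], by linarith [hx.2]⟩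
  | succ n ih =>
    intro f hf hB x hx
    have hB0 : 0 ≤ B := (abs_nonneg _).trans (hB y ⟨le_rfl, by linarith [hx.1, hx.2]⟩)
    have ih' := ih (fun j => f (j + 1)) (fun j hj t ht => hf (j + 1) (by omega) t ht) hB
    have hd : ∀ s ∈ Set.Icc 0 x, HasDerivWithinAt
        (fun s => f 0 (y + s) - ∑ j ∈ range (n + 1), f j y / j.factorial * s ^ j)
        (f 1 (y + s) - ∑ j ∈ range n, f (j + 1) y / j.factorial * s ^ j) (Set.Icc 0 x) s := by
      intro s hs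
      have h1 : HasDerivAt (fun s => f 0 (y + s)) (f 1 (y + s)) s :=
        (hf 0 (by omega) (y + s) ⟨by linarith [hs.1], by linarith [hs.2, hx.2]⟩).comp_const_add y s
      have h2 : HasDerivAt (fun s : ℝ => ∑ j ∈ range (n + 1), f j y / j.factorial * s ^ j)
          (∑ j ∈ range (n + 1), f j y / j.factorial * (j * s ^ (j - 1))) s :=
        HasDerivAt.fun_sum fun j _ => (hasDerivAt_pow j s).const_mul _
      have h3 : ∑ j ∈ range (n + 1), f j y / j.factorial * (j * s ^ (j - 1)) =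
          ∑ j ∈ range n, f (j + 1) y / j.factorial * s ^ j := by
        rw [sum_range_succ']
        simp only [Nat.cast_zero, zero_mul, mul_zero, add_zero, Nat.add_sub_cancel]
        refine sum_congr rfl fun j _ => ?_
        rw [Nat.factorial_succ]
        have : (j.factorial : ℝ) ≠ 0 := by positivity
        push_cast
        field_simp
      rw [h3] at h2
      exact (h1.sub h2).hasDerivWithinAt
    have hb : ∀ s ∈ Set.Icc 0 x,
        ‖f 1 (y + s) - ∑ j ∈ range n, f (j + 1) y / j.factorial * s ^ j‖ ≤ B * x ^ n := by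
      intro s hs
      refine (ih' s ⟨hs.1, hs.2.trans hx.2⟩).trans ?_
      exact mul_le_mul_of_nonneg_left (pow_le_pow_left₀ hs.1 hs.2 n) hB0
    have := (convex_Icc 0 x).norm_image_sub_le_of_norm_hasDerivWithin_le hd hb
      (Set.left_mem_Icc.2 hx.1) (Set.right_mem_Icc.2 hx.1)
    have h0 : f 0 (y + 0) - ∑ j ∈ range (n + 1), f j y / j.factorial * (0 : ℝ) ^ j = 0 := by
      rw [sum_range_succ']; simp
    rw [h0, sub_zero, sub_zero, Real.norm_eq_abs, Real.norm_of_nonneg hx.1] at this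
    rw [pow_succ, ← mul_assoc]
    exact this

theorem tay (f : ℕ → ℝ → ℝ) (d : ℕ) (y l B : ℝ)
    (hf : ∀ j, j ≤ d → ∀ t ∈ Set.Icc y (y + l), HasDerivAt (f j) (f (j + 1) t) t)
    (hB : ∀ t ∈ Set.Icc y (y + l), |f (d + 1) t| ≤ B) :
    ∃ Q : ℝ[X], Q.natDegree ≤ d ∧ (∀ j, j ≤ d → Q.coeff j = f j y / j.factorial) ∧
      ∀ x ∈ Set.Icc 0 l, |f 0 (y + x) - Q.eval x| ≤ B * x ^ (d + 1) := by
  refine ⟨∑ j ∈ range (d + 1), Polynomial.monomial j (f j y / j.factorial), ?_, ?_, ?_⟩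
  · refine Polynomial.natDegree_sum_le_of_forall_le _ _ fun j hj => ?_
    exact (Polynomial.natDegree_monomial_le _).trans (by simpa [Nat.lt_succ_iff] using hj)
  · intro j hj
    rw [Polynomial.finsetSum_coeff, sum_eq_single j]
    · simp
    · intro i _ hi
      simp [Polynomial.coeff_monomial, hi]
    · intro h
      exact absurd (mem_range.2 (by omega)) h
  · intro x hx
    rw [Polynomial.eval_finsetSum]
    simp only [Polynomial.eval_monomial]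
    exact TayAux y l B (d + 1) f (fun j hj => hf j (by omega)) hB x hx

/-- All derivatives up to a given order behave well beyond one threshold. -/
theorem Sm.thr {b : ℝ → ℝ} {A : ℕ} (h : Sm b A) (d : ℕ) : ∃ T : ℝ, 1 ≤ T ∧ ∀ e, e ≤ d → ∀ t, T ≤ t →
    HasDerivAt (deriv^[e] b) (deriv^[e + 1] b t) t ∧ |deriv^[e] b t| ≤ t ^ A / t ^ e := by
  have h1 : ∀ᶠ t : ℝ in atTop, ∀ e ∈ range (d + 1),
      DifferentiableAt ℝ (deriv^[e] b) t ∧ |deriv^[e] b t| ≤ t ^ A / t ^ e :=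
    (eventually_all_finset _).2 fun e _ => h e
  obtain ⟨T, hT⟩ := eventually_atTop.1 h1
  refine ⟨max 1 T, le_max_left _ _, fun e he t ht => ?_⟩
  have := hT t ((le_max_right _ _).trans ht) e (mem_range.2 (by omega))
  refine ⟨?_, this.2⟩
  rw [Function.iterate_succ_apply']
  exact this.1.hasDerivAt

/-- Derivatives of a dilate. -/
theorem hasDerivAt_dilate {b : ℝ → ℝ} {e : ℕ} {a c t : ℝ}
    (h : HasDerivAt (deriv^[e] b) (deriv^[e + 1] b (a * t + c)) (a * t + c)) :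
    HasDerivAt (fun s => a ^ e * deriv^[e] b (a * s + c))
      (a ^ (e + 1) * deriv^[e + 1] b (a * t + c)) t := by
  have h1 : HasDerivAt (fun s : ℝ => a * s + c) a t := by
    simpa using ((hasDerivAt_id t).const_mul a).add_const c
  have h2 := (h.comp t h1).const_mul (a ^ e)
  refine h2.congr_deriv ?_
  ring

theorem locpoly {b : ℝ → ℝ} {A : ℕ} (h : Sm b A) : LocPoly b := by
  intro δ hδ
  obtain ⟨m, hm⟩ := exists_nat_ge (2 / δ)
  obtain ⟨D, hD⟩ : ∃ D, D = m * (5 * A + 2) := ⟨_, rfl⟩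
  obtain ⟨T, hT1, hT⟩ := h.thr (D + 1)
  refine ⟨D, ?_⟩
  have hu : Tendsto (fun N : ℕ => (N : ℝ) ^ (δ / 2)) atTop atTop :=
    (tendsto_rpow_atTop (by positivity)).comp tendsto_natCast_atTop_atTop
  filter_upwards [hu.eventually_ge_atTop 2, hu.eventually_ge_atTop T,
    (tendsto_natCast_atTop_atTop (R := ℝ)).eventually_ge_atTop (20 * 2 ^ A * 2 ^ (D + 1)),
    (tendsto_natCast_atTop_atTop (R := ℝ)).eventually_ge_atTop 1] with N hu2 huT hN hN1
  intro a y ha haN hy hyN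
  have hN0 : (0 : ℝ) < N := by linarith
  obtain ⟨u, hudef⟩ : ∃ u, u = (N : ℝ) ^ (δ / 2) := ⟨_, rfl⟩
  have huu : (N : ℝ) ^ δ = u ^ 2 := by
    rw [hudef, ← Real.rpow_natCast, ← Real.rpow_mul hN0.le]; congr 1; push_cast; ring
  have hum : (N : ℝ) ≤ u ^ m := by
    rw [hudef, ← Real.rpow_natCast, ← Real.rpow_mul hN0.le]
    conv_lhs => rw [← Real.rpow_one (N : ℝ)]
    refine Real.rpow_le_rpow_of_exponent_le hN1 ?_
    rw [div_le_iff₀ hδ] at hm
    nlinarith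
  rw [← hudef] at hu2 huT ⊢
  rw [huu] at hy
  have ha1 : (1 : ℝ) ≤ a := by exact_mod_cast ha
  have haN' : (a : ℝ) ≤ (N : ℝ) ^ 2 := by exact_mod_cast haN
  have hyN' : (y : ℝ) ≤ (N : ℝ) ^ 3 := by exact_mod_cast hyN
  have hy0 : (0 : ℝ) < y := by nlinarith
  have hly : u + 1 ≤ y := by nlinarith
  have hTs : ∀ t ∈ Set.Icc (y : ℝ) (y + (u + 1)), T ≤ a * t + 0 := by
    intro t ht
    have := ht.1
    nlinarith
  obtain ⟨Q, hQ, -, hQx⟩ := tay (fun j s => (a : ℝ) ^ j * deriv^[j] b (a * s + 0)) D y (u + 1)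
    ((2 * (N : ℝ) ^ 5) ^ A / (y : ℝ) ^ (D + 1))
    (fun j hj t ht => hasDerivAt_dilate (hT j (by omega) _ (hTs t ht)).1)
    (fun t ht => by
      have h1 := (hT (D + 1) le_rfl _ (hTs t ht)).2
      have ht0 : 0 < t := hy0.trans_le ht.1
      have ha0 : (0 : ℝ) < a := by linarith
      rw [add_zero] at h1 ⊢
      rw [abs_mul, abs_of_pos (pow_pos ha0 _)]
      refine (mul_le_mul_of_nonneg_left h1 (pow_pos ha0 _).le).trans ?_
      have h2 : (a : ℝ) ^ (D + 1) * ((a * t) ^ A / (a * t) ^ (D + 1)) =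
          (a * t) ^ A / t ^ (D + 1) := by
        rw [mul_pow (a : ℝ) t (D + 1)]; field_simp
      rw [h2]
      have h3 : (a : ℝ) * t ≤ 2 * (N : ℝ) ^ 5 := by
        have : t ≤ 2 * (N : ℝ) ^ 3 := by linarith [ht.2]
        calc (a : ℝ) * t ≤ (N : ℝ) ^ 2 * (2 * (N : ℝ) ^ 3) :=
              mul_le_mul haN' this ht0.le (by positivity)
          _ = _ := by ring
      have h4 := ht.1
      gcongr)
  refine ⟨Q, hQ, fun x hx => ?_⟩
  have h1 := hQx x ⟨Nat.cast_nonneg x, hx⟩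
  simp only [pow_zero, one_mul, Function.iterate_zero, id, add_zero] at h1
  push_cast
  refine h1.trans ?_
  have hu0 : 0 < u := by linarith
  have h2 : (x : ℝ) / y ≤ 2 / u := by
    rw [div_le_div_iff₀ hy0 hu0]
    have : (x : ℝ) ≤ 2 * u := by linarith
    nlinarith
  have h3 : (N : ℝ) ^ (5 * A + 2) ≤ u ^ (D + 1) := by
    calc (N : ℝ) ^ (5 * A + 2) ≤ (u ^ m) ^ (5 * A + 2) := pow_le_pow_left₀ hN0.le hum _
      _ = u ^ D := by rw [hD, pow_mul]
      _ ≤ u ^ (D + 1) := pow_le_pow_right₀ (by linarith) (by omega)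
  calc (2 * (N : ℝ) ^ 5) ^ A / (y : ℝ) ^ (D + 1) * (x : ℝ) ^ (D + 1)
      = (2 * (N : ℝ) ^ 5) ^ A * ((x : ℝ) / y) ^ (D + 1) := by rw [div_pow]; ring
    _ ≤ (2 * (N : ℝ) ^ 5) ^ A * (2 / u) ^ (D + 1) := by gcongr
    _ = (2 * (N : ℝ) ^ 5) ^ A * 2 ^ (D + 1) / u ^ (D + 1) := by rw [div_pow]; ring
    _ ≤ (2 * (N : ℝ) ^ 5) ^ A * 2 ^ (D + 1) / (N : ℝ) ^ (5 * A + 2) := by gcongr
    _ = (20 * 2 ^ A * 2 ^ (D + 1) / N) * ((N : ℝ)⁻¹ / 20) := by
        rw [mul_pow, ← pow_mul]; field_simp; ring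
    _ ≤ 1 * ((N : ℝ)⁻¹ / 20) := by
        gcongr
        rwa [div_le_one hN0]
    _ = _ := one_mul _

end Pool.Agent.MP_357fb4_an

end
end

section

/-!
The case of power growth.
-/

open scoped BigOperators Classical ComplexConjugate Polynomial
open Finset Filter MeasureTheory Topology

noncomputable section

namespace Pool.Agent.MP_357fb4_an

lemma CaseF_loc {e : ℕ} (he : 1 ≤ e) {C₀ ε η : ℝ} (hC : 0 < C₀) (hε : 0 < ε) (hη : 0 < η) :
    ∃ Λ θ : ℝ, 0 < θ ∧ ∀ m lam : ℝ, 0 < lam → Λ ≤ lam → lam ≤ θ * m → ∃ l : ℕ, 1 ≤ l ∧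
      (l : ℝ) ≤ η * m ∧ ∀ (f : ℕ → ℝ → ℝ) (y : ℝ),
        (∀ j, j ≤ e → ∀ t ∈ Set.Icc y (y + m), HasDerivAt (f j) (f (j + 1) t) t) →
        1 ≤ C₀ * (lam ^ e * |f e y|) → lam ^ e * |f e y| ≤ C₀ →
        (∀ t ∈ Set.Icc y (y + m), m * lam ^ e * |f (e + 1) t| ≤ C₀) →
          ‖𝔼 x ∈ range l, ec (f 0 (y + x))‖ ≤ ε := by
  obtain ⟨Ω, η₁, hη₁, hw⟩ := w1 he (half_pos hε)
  set K : ℝ := max 1 (C₀ * e.factorial * |Ω|) with hK
  have hK1 : 1 ≤ K := le_max_left _ _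
  have hK0 : 0 < K := by linarith
  have hKe : 1 ≤ K ^ e := one_le_pow₀ hK1
  have hKe' : K ≤ K ^ e := le_self_pow₀ hK1 (by omega)
  set M : ℝ := C₀ * (2 * K) ^ e with hM
  have hM0 : 0 < M := by positivity
  set η₂ : ℝ := min (min η 1) (ε / (14 * M)) with hη₂
  have hη₂0 : 0 < η₂ := lt_min (lt_min hη one_pos) (by positivity)
  refine ⟨max 1 (max Ω (M / η₁)), η₂ / (2 * K), by positivity, fun m lam hlam0 hΛ hθ => ?_⟩
  have hlam1 : 1 ≤ lam := (le_max_left _ _).trans hΛ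
  have hlamΩ : Ω ≤ lam := ((le_max_left _ _).trans (le_max_right _ _)).trans hΛ
  have hlamM : M / η₁ ≤ lam := ((le_max_right _ _).trans (le_max_right _ _)).trans hΛ
  set l : ℕ := ⌈K * lam⌉₊ with hl
  have hKl : 1 ≤ K * lam := one_le_mul_of_one_le_of_one_le hK1 hlam1
  have hl1 : K * lam ≤ l := Nat.le_ceil _
  have hl2 : (l : ℝ) ≤ 2 * K * lam := by
    have := (Nat.ceil_lt_add_one (a := K * lam) (by linarith)).le
    linarith
  have hll : lam ≤ l := le_trans (le_mul_of_one_le_left hlam0.le hK1) hl1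
  have hlpos : (0 : ℝ) < l := by linarith
  have hm0 : 0 < m := by
    have h1 : 0 < η₂ / (2 * K) * m := lt_of_lt_of_le hlam0 hθ
    exact (mul_pos_iff_of_pos_left (by positivity)).1 h1
  have hlm : (l : ℝ) ≤ η₂ * m := by
    have h1 : 2 * K * lam ≤ 2 * K * (η₂ / (2 * K) * m) := by gcongr
    have h2 : 2 * K * (η₂ / (2 * K) * m) = η₂ * m := by field_simp
    linarith
  have hη₂η : η₂ ≤ η := (min_le_left _ _).trans (min_le_left _ _)
  have hη₂1 : η₂ ≤ 1 := (min_le_left _ _).trans (min_le_right _ _)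
  have hη₂ε : η₂ ≤ ε / (14 * M) := min_le_right _ _
  have hlm1 : (l : ℝ) ≤ m := hlm.trans (mul_le_of_le_one_left hm0.le hη₂1)
  refine ⟨l, by exact_mod_cast (hKl.trans hl1), hlm.trans (by gcongr), fun f y hd hlo hup hrem => ?_⟩
  have hle : 0 < lam ^ e := by positivity
  have hsub : Set.Icc y (y + l) ⊆ Set.Icc y (y + m) := Set.Icc_subset_Icc le_rfl (by linarith)
  obtain ⟨Q, hQd, hQc, hQe⟩ := tay f e y l (C₀ / (m * lam ^ e))
    (fun j hj t ht => hd j hj t (hsub ht)) (fun t ht => by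
      rw [le_div_iff₀ (by positivity)]
      have := hrem t (hsub ht)
      linarith)
  have hfac : (1 : ℝ) ≤ e.factorial := by exact_mod_cast Nat.one_le_iff_ne_zero.2 e.factorial_ne_zero
  have hco : |Q.coeff e| = |f e y| / e.factorial := by
    rw [hQc e le_rfl, abs_div, abs_of_pos (by linarith : (0 : ℝ) < e.factorial)]
  have hle2 : (l : ℝ) ^ e ≤ (2 * K) ^ e * lam ^ e := by
    rw [← mul_pow]; exact pow_le_pow_left₀ hlpos.le hl2 e
  have hle1 : K ^ e * lam ^ e ≤ (l : ℝ) ^ e := by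
    rw [← mul_pow]; exact pow_le_pow_left₀ (by positivity) hl1 e
  have hupM : |f e y| * (l : ℝ) ^ e ≤ M := by
    calc |f e y| * (l : ℝ) ^ e ≤ |f e y| * ((2 * K) ^ e * lam ^ e) := by gcongr
      _ = (lam ^ e * |f e y|) * (2 * K) ^ e := by ring
      _ ≤ C₀ * (2 * K) ^ e := by gcongr
  have h1 : ‖𝔼 x ∈ range l, ec (Q.eval (x : ℝ))‖ ≤ ε / 2 := by
    refine hw l (hlamΩ.trans hll) Q hQd ?_ ?_
    · rw [hco, div_mul_eq_mul_div, le_div_iff₀ (by linarith)]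
      have h2 : C₀ * e.factorial * |Ω| ≤ K := le_max_right _ _
      have h3 : K ^ e * (C₀ * (lam ^ e * |f e y|)) ≤ C₀ * (|f e y| * (l : ℝ) ^ e) := by
        calc K ^ e * (C₀ * (lam ^ e * |f e y|)) = C₀ * (|f e y| * (K ^ e * lam ^ e)) := by ring
          _ ≤ C₀ * (|f e y| * (l : ℝ) ^ e) := by gcongr
      have h4 : K ^ e ≤ K ^ e * (C₀ * (lam ^ e * |f e y|)) :=
        le_mul_of_one_le_right (by positivity) hlo
      have h5 : C₀ * (|Ω| * e.factorial) ≤ C₀ * (|f e y| * (l : ℝ) ^ e) := by linarith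
      have h6 := le_of_mul_le_mul_left h5 hC
      have h7 : Ω * e.factorial ≤ |Ω| * e.factorial := by gcongr; exact le_abs_self _
      linarith
    · have h2 : |Q.coeff e| ≤ |f e y| := by
        rw [hco]; exact div_le_self (abs_nonneg _) hfac
      have h3 : (l : ℝ) ^ e = (l : ℝ) ^ (e - 1) * l := by
        rw [← pow_succ]; congr 1; omega
      have h4 : |f e y| * (l : ℝ) ^ (e - 1) * l ≤ η₁ * l := by
        rw [mul_assoc, ← h3]
        refine hupM.trans ?_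
        have := hlamM.trans hll
        rw [div_le_iff₀ hη₁] at this
        linarith
      have h5 := le_of_mul_le_mul_right h4 hlpos
      exact le_trans (by gcongr) h5
  have h2 : ‖𝔼 x ∈ range l, (ec (f 0 (y + x)) - ec (Q.eval (x : ℝ)))‖ ≤ ε / 2 := by
    refine (norm_expect_le' _ _).trans (expect_le ?_ fun x hx => ?_)
    · rw [nonempty_range_iff]; exact_mod_cast hlpos.ne'
    · have hx' : (x : ℝ) ≤ l := by exact_mod_cast (mem_range.1 hx).le
      have h3 := hQe x ⟨by positivity, hx'⟩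
      have h4 : C₀ / (m * lam ^ e) * (x : ℝ) ^ (e + 1) ≤ M * η₂ := by
        calc C₀ / (m * lam ^ e) * (x : ℝ) ^ (e + 1)
            ≤ C₀ / (m * lam ^ e) * (l : ℝ) ^ (e + 1) := by gcongr
          _ = C₀ / (m * lam ^ e) * ((l : ℝ) ^ e * l) := by rw [pow_succ]
          _ ≤ C₀ / (m * lam ^ e) * (((2 * K) ^ e * lam ^ e) * (η₂ * m)) := by gcongr
          _ = M * η₂ := by rw [hM]; field_simp
      have h5 : M * η₂ ≤ ε / 14 := by
        calc M * η₂ ≤ M * (ε / (14 * M)) := by gcongr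
          _ = ε / 14 := by field_simp
      have := norm_ec_sub (f 0 (y + x)) (Q.eval (x : ℝ))
      linarith
  rw [expect_sub_distrib] at h2
  have h3 := norm_add_le (𝔼 x ∈ range l, ec (f 0 (y + x)) - 𝔼 x ∈ range l, ec (Q.eval (x : ℝ)))
    (𝔼 x ∈ range l, ec (Q.eval (x : ℝ)))
  rw [sub_add_cancel] at h3
  linarith

lemma CaseF_locR {e : ℕ} (he : 1 ≤ e) {C₀ ε η : ℝ} (hC : 0 < C₀) (hε : 0 < ε) (hη : 0 < η) :
    ∃ R₀ : ℝ, 1 ≤ R₀ ∧ ∀ m R : ℝ, 0 < m → R₀ ≤ R → R₀ * R ≤ m ^ e → ∃ l : ℕ, 1 ≤ l ∧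
      (l : ℝ) ≤ η * m ∧ ∀ (f : ℕ → ℝ → ℝ) (y : ℝ),
        (∀ j, j ≤ e → ∀ t ∈ Set.Icc y (y + m), HasDerivAt (f j) (f (j + 1) t) t) →
        R ≤ C₀ * (m ^ e * |f e y|) → m ^ e * |f e y| ≤ C₀ * R →
        (∀ t ∈ Set.Icc y (y + m), m ^ (e + 1) * |f (e + 1) t| ≤ C₀ * R) →
          ‖𝔼 x ∈ range l, ec (f 0 (y + x))‖ ≤ ε := by
  obtain ⟨Λ, θ, hθ, h⟩ := CaseF_loc he hC hε hη
  refine ⟨max 1 (max (|Λ| ^ e) ((θ ^ e)⁻¹)), le_max_left _ _, fun m R hm hR hRm => ?_⟩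
  set R₀ := max 1 (max (|Λ| ^ e) ((θ ^ e)⁻¹)) with hR₀
  have hR0 : 0 < R := lt_of_lt_of_le (lt_of_lt_of_le one_pos (le_max_left _ _)) hR
  have he0 : e ≠ 0 := by omega
  set lam : ℝ := m / R ^ ((e : ℝ)⁻¹) with hlam
  have hlam0 : 0 < lam := div_pos hm (Real.rpow_pos_of_pos hR0 _)
  have hle : lam ^ e = m ^ e / R := by
    rw [hlam, div_pow, Real.rpow_inv_natCast_pow hR0.le he0]
  have h1 : Λ ≤ lam := by
    refine (le_abs_self _).trans (le_of_pow_le_pow_left₀ he0 hlam0.le ?_)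
    rw [hle, le_div_iff₀ hR0]
    refine le_trans ?_ hRm
    gcongr
    exact (le_max_left _ _).trans (le_max_right _ _)
  have h2 : lam ≤ θ * m := by
    refine le_of_pow_le_pow_left₀ he0 (by positivity) ?_
    rw [hle, mul_pow, div_le_iff₀ hR0]
    have h3 : (θ ^ e)⁻¹ ≤ R := ((le_max_right _ _).trans (le_max_right _ _)).trans hR
    have h4 : 1 ≤ θ ^ e * R := by
      rw [inv_le_iff_one_le_mul₀' (by positivity)] at h3; exact h3
    have : 0 < m ^ e := by positivity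
    nlinarith
  obtain ⟨l, hl1, hl2, hl⟩ := h m lam hlam0 h1 h2
  refine ⟨l, hl1, hl2, fun f y hd hlo hup hrem => hl f y hd ?_ ?_ fun t ht => ?_⟩
  · rw [hle, div_mul_eq_mul_div, ← mul_div_assoc, le_div_iff₀ hR0, one_mul]; exact hlo
  · rw [hle, div_mul_eq_mul_div, div_le_iff₀ hR0]; exact hup
  · have := hrem t ht
    rw [hle, ← mul_div_assoc, div_mul_eq_mul_div, div_le_iff₀ hR0, ← pow_succ']; exact this

/-- The facts about one normalised derivative that are used below. -/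
lemma CaseF_pack {b : ℝ → ℝ} {A : ℕ} (hs : Sm b A) (h : CaseF b) (e₁ : ℕ) :
    ∃ (e : ℕ) (γ Γ T C : ℝ), e₁ ≤ e ∧ 0 < γ ∧ 0 ≤ Γ ∧ 1 ≤ T ∧ 0 ≤ C ∧
      (∀ j, j ≤ e → ∀ t, T ≤ t → HasDerivAt (deriv^[j] b) (deriv^[j + 1] b t) t) ∧
      (∀ t, T ≤ t → |RD b e t| ≤ t ^ A) ∧
      (∀ t t', T ≤ t → t ≤ t' → (t' / t) ^ γ * |RD b e t| ≤ |RD b e t'|) ∧
      (∀ t t', T ≤ t → t ≤ t' → |RD b e t| ≤ |RD b e t'|) ∧
      (∀ t t' M, T ≤ t → t ≤ t' → t' ≤ M * t → |RD b e t'| ≤ M ^ Γ * |RD b e t|) ∧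
      (∀ t, T ≤ t → |RD b (e + 1) t| ≤ C * |RD b e t|) ∧
      Tendsto (fun t => |RD b e t|) atTop atTop := by
  obtain ⟨e₀, γ, Γ, hγ, h⟩ := h
  obtain ⟨T, C, hT, h⟩ := h (max e₀ e₁) (le_max_left _ _)
  set e := max e₀ e₁ with he
  obtain ⟨T', hT', h'⟩ := hs.thr e
  have hTT : T ≤ max T T' := le_max_left _ _
  have hTT' : T' ≤ max T T' := le_max_right _ _
  refine ⟨e, γ, |Γ|, max T T', |C|, le_max_right _ _, hγ, abs_nonneg _, hT.trans hTT, abs_nonneg _,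
    fun j hj t ht => (h' j hj t (hTT'.trans ht)).1, fun t ht => ?_,
    fun t t' ht htt => (h t t' (hTT.trans ht) htt).2.1, fun t t' ht htt => ?_,
    fun t t' M ht htt hM => ?_, fun t ht => ?_, ?_⟩
  · have ht0 : 0 < t := by linarith [hTT.trans ht]
    have := (h' e le_rfl t (hTT'.trans ht)).2
    rw [RD, abs_mul, abs_of_pos (pow_pos ht0 e)]
    rw [le_div_iff₀ (pow_pos ht0 e)] at this
    linarith
  · have ht0 : 0 < t := by linarith [hTT.trans ht]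
    refine le_trans ?_ (h t t' (hTT.trans ht) htt).2.1
    exact le_mul_of_one_le_left (abs_nonneg _)
      (Real.one_le_rpow ((one_le_div ht0).2 htt) hγ.le)
  · have ht0 : 0 < t := by linarith [hTT.trans ht]
    refine (h t t' (hTT.trans ht) htt).2.2.1.trans ?_
    have h1 : 1 ≤ t' / t := (one_le_div ht0).2 htt
    have h2 : t' / t ≤ M := (div_le_iff₀ ht0).2 hM
    gcongr ?_ * _
    exact (Real.rpow_le_rpow_of_exponent_le h1 (le_abs_self Γ)).trans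
      (Real.rpow_le_rpow (by linarith) h2 (abs_nonneg _))
  · refine (h t t (hTT.trans ht) le_rfl).2.2.2.trans ?_
    gcongr
    exact le_abs_self C
  · have hp : 0 < |RD b e T| := abs_pos.2 (h T T le_rfl le_rfl).1
    have h1 : Tendsto (fun t : ℝ => (t / T) ^ γ * |RD b e T|) atTop atTop :=
      ((tendsto_rpow_atTop hγ).comp (tendsto_id.atTop_div_const (by linarith))).atTop_mul_const hp
    refine tendsto_atTop_mono' _ ?_ h1
    filter_upwards [eventually_ge_atTop T] with t ht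
    exact (h T t le_rfl ht).2.1

lemma CaseF_absRD (b : ℝ → ℝ) (e : ℕ) {t : ℝ} (ht : 0 ≤ t) :
    |RD b e t| = t ^ e * |deriv^[e] b t| := by
  rw [RD, abs_mul, abs_of_nonneg (pow_nonneg ht e)]

theorem ti_F {b : ℝ → ℝ} {A : ℕ} (hs : Sm b A) (h : CaseF b) : TI fun n => ec (b n) := by
  refine ti_of_loc (fun n => (norm_ec _).le) fun q hq => ⟨q, hq, dvd_rfl, fun ε η hε hη => ?_⟩
  obtain ⟨e, γ, Γ, T, C, he, hγ, hΓ, hT, hC, hd, hA, -, hmono, hup, hnext, htop⟩ :=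
    CaseF_pack hs h (A + 1)
  have hq1 : (1 : ℝ) ≤ q := by exact_mod_cast hq
  have hq0 : (0 : ℝ) < q := by linarith
  set G : ℝ := (q + 2 : ℝ) ^ Γ with hG
  have hG1 : 1 ≤ G := Real.one_le_rpow (by linarith) hΓ
  set C₀ : ℝ := 2 ^ e + (q : ℝ) ^ (e + 1) * ((1 + C) * G) with hC₀
  have hC₀0 : 0 < C₀ := by positivity
  obtain ⟨R₀, hR₀, hl⟩ := CaseF_locR (e := e) (by omega) hC₀0 hε (div_pos hη hq0)
  have htop' := (htop.comp tendsto_natCast_atTop_atTop).eventually_ge_atTop R₀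
  filter_upwards [htop', tendsto_natCast_atTop_atTop.eventually_ge_atTop (max T (max R₀ q))]
    with y hy1 hy2
  have hyT : T ≤ y := (le_max_left _ _).trans hy2
  have hyR : R₀ ≤ y := ((le_max_left _ _).trans (le_max_right _ _)).trans hy2
  have hyq : (q : ℝ) ≤ y := ((le_max_right _ _).trans (le_max_right _ _)).trans hy2
  have hy1' : (1 : ℝ) ≤ y := hT.trans hyT
  have hy0 : (0 : ℝ) < y := by linarith
  set R : ℝ := |RD b e y| with hR
  have hR0 : 0 ≤ R := abs_nonneg _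
  obtain ⟨l, hl1, hl2, hl⟩ := hl y R hy0 hy1 (by
    calc R₀ * R ≤ y * (y : ℝ) ^ A := by gcongr; exact hA y hyT
      _ = (y : ℝ) ^ (A + 1) := by ring
      _ ≤ (y : ℝ) ^ e := pow_le_pow_right₀ hy1' he)
  refine ⟨l, hl1, ?_, fun c hc => ?_⟩
  · calc (q * l : ℝ) ≤ q * (η / q * y) := by gcongr
      _ = η * y := by field_simp
  have hc' : (c : ℝ) ≤ y := le_trans (by exact_mod_cast hc.le) hyq
  have hc0 : (0 : ℝ) ≤ c := Nat.cast_nonneg c
  have hrange : ∀ t ∈ Set.Icc (0 : ℝ) (0 + y), (y : ℝ) ≤ q * t + (y + c) ∧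
      q * t + (y + c) ≤ (q + 2) * y := fun t ht => by
    have h1 : 0 ≤ q * t := mul_nonneg hq0.le ht.1
    have h2 : q * t ≤ q * y := by gcongr; simpa using ht.2
    constructor <;> linarith
  have key := hl (fun j s => (q : ℝ) ^ j * deriv^[j] b (q * s + (y + c))) 0
    (fun j hj t ht => hasDerivAt_dilate (hd j hj _ (hyT.trans (hrange t ht).1))) ?_ ?_ ?_
  · convert key using 4 with x
    simp only [pow_zero, one_mul, Function.iterate_zero, id, zero_add]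
    congr 1
    push_cast; ring
  · simp only [mul_zero, zero_add]
    have h1 : R ≤ |RD b e (y + c)| := hmono _ _ hyT (by linarith)
    rw [CaseF_absRD b e (by linarith)] at h1
    rw [abs_mul, abs_of_pos (pow_pos hq0 e)]
    have h2 : ((y : ℝ) + c) ^ e ≤ 2 ^ e * (y : ℝ) ^ e := by
      rw [← mul_pow]; gcongr; linarith
    have h3 : (1 : ℝ) ≤ (q : ℝ) ^ e := one_le_pow₀ hq1
    have h4 : (2 : ℝ) ^ e ≤ C₀ := by rw [hC₀]; exact le_add_of_nonneg_right (by positivity)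
    calc R ≤ ((y : ℝ) + c) ^ e * |deriv^[e] b (y + c)| := h1
      _ ≤ 2 ^ e * (y : ℝ) ^ e * |deriv^[e] b (y + c)| := by gcongr
      _ = 2 ^ e * ((y : ℝ) ^ e * (1 * |deriv^[e] b (y + c)|)) := by ring
      _ ≤ C₀ * ((y : ℝ) ^ e * ((q : ℝ) ^ e * |deriv^[e] b (y + c)|)) := by gcongr
  · simp only [mul_zero, zero_add]
    have h1 : |RD b e (y + c)| ≤ G * R := hup _ _ _ hyT (by linarith)
      (by have := mul_pos hq0 hy0; linarith)
    rw [CaseF_absRD b e (by linarith)] at h1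
    rw [abs_mul, abs_of_pos (pow_pos hq0 e)]
    have h2 : (y : ℝ) ^ e ≤ ((y : ℝ) + c) ^ e := by gcongr; linarith
    have h3 : (q : ℝ) ^ e * G ≤ C₀ := by
      have h5 : (q : ℝ) ^ e ≤ (q : ℝ) ^ (e + 1) := pow_le_pow_right₀ hq1 (by omega)
      have h6 : G ≤ (1 + C) * G := le_mul_of_one_le_left (by linarith) (by linarith)
      have h7 : (q : ℝ) ^ e * G ≤ (q : ℝ) ^ (e + 1) * ((1 + C) * G) := by gcongr
      have h8 : (0 : ℝ) ≤ 2 ^ e := by positivity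
      linarith
    calc (y : ℝ) ^ e * ((q : ℝ) ^ e * |deriv^[e] b (y + c)|)
        ≤ ((y : ℝ) + c) ^ e * ((q : ℝ) ^ e * |deriv^[e] b (y + c)|) := by gcongr
      _ = (q : ℝ) ^ e * (((y : ℝ) + c) ^ e * |deriv^[e] b (y + c)|) := by ring
      _ ≤ (q : ℝ) ^ e * (G * R) := by gcongr
      _ = (q : ℝ) ^ e * G * R := by ring
      _ ≤ C₀ * R := by gcongr
  · intro t ht
    obtain ⟨hr1, hr2⟩ := hrange t ht
    set s : ℝ := q * t + (y + c) with hs'
    have h1 : |RD b e s| ≤ G * R := hup _ _ _ hyT hr1 hr2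
    have h2 := hnext s (hyT.trans hr1)
    rw [CaseF_absRD b (e + 1) (by linarith)] at h2
    rw [abs_mul, abs_of_pos (pow_pos hq0 _)]
    have h3 : (q : ℝ) ^ (e + 1) * (C * G) ≤ C₀ := by
      have h6 : C * G ≤ (1 + C) * G := by gcongr; linarith
      have h7 : (q : ℝ) ^ (e + 1) * (C * G) ≤ (q : ℝ) ^ (e + 1) * ((1 + C) * G) := by gcongr
      have h8 : (0 : ℝ) ≤ 2 ^ e := by positivity
      linarith
    calc (y : ℝ) ^ (e + 1) * ((q : ℝ) ^ (e + 1) * |deriv^[e + 1] b s|)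
        ≤ s ^ (e + 1) * ((q : ℝ) ^ (e + 1) * |deriv^[e + 1] b s|) := by gcongr
      _ = (q : ℝ) ^ (e + 1) * (s ^ (e + 1) * |deriv^[e + 1] b s|) := by ring
      _ ≤ (q : ℝ) ^ (e + 1) * (C * |RD b e s|) := by gcongr
      _ ≤ (q : ℝ) ^ (e + 1) * (C * (G * R)) := by gcongr
      _ = (q : ℝ) ^ (e + 1) * (C * G) * R := by ring
      _ ≤ C₀ * R := by gcongr

theorem far_F {b : ℝ → ℝ} {A : ℕ} (hs : Sm b A) (h : CaseF b) : PairFar fun n => ec (b n) := by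
  intro δ κ ε hδ hκ hε
  obtain ⟨e, γ, Γ, T, C, he, hγ, hΓ, hT, hC, hd, hA, hlow, hmono, hup, hnext, htop⟩ :=
    CaseF_pack hs h (⌈(4 * A + 1 : ℝ) / δ⌉₊ + 1)
  set ε₁ : ℝ := min (ε / 13) 1 with hε₁
  have hε₁0 : 0 < ε₁ := lt_min (by positivity) one_pos
  set G : ℝ := (2 : ℝ) ^ Γ with hG
  have hG1 : 1 ≤ G := Real.one_le_rpow (by norm_num) hΓ
  set C₀ : ℝ := 2 + 2 * (C * G) with hC₀
  have hC₀0 : 0 < C₀ := by positivity
  obtain ⟨R₀, hR₀, hl⟩ := CaseF_locR (e := e) (by omega) hC₀0 hε₁0 hε₁0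
  obtain ⟨t₀, ht₀⟩ := eventually_atTop.1 (htop.eventually_ge_atTop R₀)
  have hδe : (4 * A + 1 : ℝ) ≤ δ * e := by
    have h1 : (4 * A + 1 : ℝ) / δ ≤ e :=
      (Nat.le_ceil _).trans (by exact_mod_cast (Nat.le_succ _).trans he)
    rw [div_le_iff₀ hδ] at h1; linarith
  have e1 := ((tendsto_rpow_atTop hδ).comp tendsto_natCast_atTop_atTop).eventually_ge_atTop
    (max T t₀)
  have e2 := ((tendsto_rpow_atTop hγ).comp ((tendsto_rpow_atTop hκ).comp
    tendsto_natCast_atTop_atTop)).eventually_ge_atTop 2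
  filter_upwards [e1, e2, tendsto_natCast_atTop_atTop.eventually_ge_atTop (max 3 R₀)]
    with N hN1 hN2 hN3 a ha a' ha' haa
  simp only [Function.comp] at hN1 hN2
  have hN3' : (3 : ℝ) ≤ N := (le_max_left _ _).trans hN3
  have hNR : R₀ ≤ N := (le_max_right _ _).trans hN3
  have hN0 : (0 : ℝ) < N := by linarith
  have hNδ : (0 : ℝ) ≤ (N : ℝ) ^ δ := by positivity
  have hTN : T ≤ (N : ℝ) ^ δ := (le_max_left _ _).trans hN1
  have htN : t₀ ≤ (N : ℝ) ^ δ := (le_max_right _ _).trans hN1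
  rw [rg, mem_Ioc, Nat.floor_lt hNδ] at ha ha'
  have ha1 : (1 : ℝ) ≤ a := by linarith [ha.1]
  have ha0 : (0 : ℝ) < a := by linarith
  have hκ1 : (1 : ℝ) ≤ (N : ℝ) ^ κ := Real.one_le_rpow (by linarith) hκ.le
  have haa' : (a : ℝ) ≤ a' := (le_mul_of_one_le_right ha0.le hκ1).trans haa
  have ha'1 : (1 : ℝ) ≤ a' := ha1.trans haa'
  have ha'2 : (a' : ℝ) ≤ (N : ℝ) ^ 2 := by exact_mod_cast ha'.2
  have hlog : 1 ≤ Real.log N := by
    rw [Real.le_log_iff_exp_le hN0]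
    linarith [Real.exp_one_lt_d9]
  have hcov := cover (fun m => ec (b ((a' * m : ℕ) : ℝ)) * conj (ec (b ((a * m : ℕ) : ℝ))))
    (fun n => by rw [norm_mul, Complex.norm_conj, norm_ec, norm_ec, mul_one]) ⌊(N : ℝ) ^ δ⌋₊ (N ^ 2)
    hε₁0.le hε₁0.le (min_le_right _ _) ?_
  · refine hcov.trans ?_
    have h1 : Real.log ((N ^ 2 : ℕ) : ℝ) = 2 * Real.log N := by
      push_cast; rw [Real.log_pow]; norm_num
    have h2 : ε₁ ≤ ε / 13 := min_le_left _ _
    rw [h1]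
    have h3 : ε₁ * 1 ≤ ε₁ * Real.log N := by gcongr
    have h4 : ε₁ * Real.log N ≤ ε / 13 * Real.log N := by gcongr
    linarith
  intro y hy1 hy2
  rw [Nat.floor_lt hNδ] at hy1
  have hy2' : (y : ℝ) ≤ (N : ℝ) ^ 2 := by exact_mod_cast hy2
  have hyT : T ≤ y := by linarith
  have hy1' : (1 : ℝ) ≤ y := hT.trans hyT
  have hy0 : (0 : ℝ) < y := by linarith
  have hbig : ∀ {u t : ℝ}, 1 ≤ u → (y : ℝ) ≤ t → T ≤ u * t := fun {u t} hu ht =>
    hyT.trans (ht.trans (le_mul_of_one_le_left (hy0.le.trans ht) hu))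
  set R : ℝ := |RD b e (a' * y)| with hR
  have hR0 : 0 ≤ R := abs_nonneg _
  obtain ⟨l, hl1, hl2, hl⟩ := hl y R hy0
    (ht₀ _ (by linarith [le_mul_of_one_le_left hy0.le ha'1])) (by
      have h1 : (a' * y : ℝ) ≤ (N : ℝ) ^ 4 := by
        calc (a' * y : ℝ) ≤ (N : ℝ) ^ 2 * (N : ℝ) ^ 2 := by gcongr
          _ = (N : ℝ) ^ 4 := by ring
      calc R₀ * R ≤ N * (a' * y : ℝ) ^ A := by gcongr; exact hA _ (hbig ha'1 le_rfl)
        _ ≤ N * ((N : ℝ) ^ 4) ^ A := by gcongr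
        _ = (N : ℝ) ^ ((4 * A + 1 : ℕ) : ℝ) := by rw [Real.rpow_natCast]; ring
        _ ≤ (N : ℝ) ^ (δ * e) := Real.rpow_le_rpow_of_exponent_le (by linarith) (by
            push_cast; exact hδe)
        _ = ((N : ℝ) ^ δ) ^ e := by rw [Real.rpow_mul hN0.le, Real.rpow_natCast]
        _ ≤ (y : ℝ) ^ e := by gcongr)
  refine ⟨l, hl1, hl2, ?_⟩
  have hid : ∀ (j : ℕ) (t : ℝ), t ^ j * ((a' : ℝ) ^ j * deriv^[j] b (a' * t + 0) -
      (a : ℝ) ^ j * deriv^[j] b (a * t + 0)) = RD b j (a' * t) - RD b j (a * t) := fun j t => by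
    simp only [RD, add_zero, mul_pow]; ring
  have hhalf : |RD b e (a * y)| ≤ R / 2 := by
    have h1 := hlow (a * y) (a' * y) (hbig ha1 le_rfl) (by gcongr)
    have h2 : (N : ℝ) ^ κ ≤ (a' * y) / (a * y) := by
      rw [le_div_iff₀ (by positivity)]
      have := mul_le_mul_of_nonneg_right haa hy0.le
      linarith
    have h3 : ((N : ℝ) ^ κ) ^ γ ≤ ((a' * y : ℝ) / (a * y)) ^ γ :=
      Real.rpow_le_rpow (by linarith) h2 hγ.le
    have h4 : 2 * |RD b e (a * y)| ≤ ((a' * y : ℝ) / (a * y)) ^ γ * |RD b e (a * y)| := by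
      gcongr; linarith
    linarith
  have hmain : (y : ℝ) ^ e * |(a' : ℝ) ^ e * deriv^[e] b (a' * y + 0) -
      (a : ℝ) ^ e * deriv^[e] b (a * y + 0)| = |RD b e (a' * y) - RD b e (a * y)| := by
    rw [← hid, abs_mul, abs_of_pos (pow_pos hy0 e)]
  have hCG : 0 ≤ C * G := by positivity
  have key := hl (fun j s => (a' : ℝ) ^ j * deriv^[j] b (a' * s + 0) -
      (a : ℝ) ^ j * deriv^[j] b (a * s + 0)) y
    (fun j hj t ht => (hasDerivAt_dilate (hd j hj _ (by simpa using hbig ha'1 ht.1))).sub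
      (hasDerivAt_dilate (hd j hj _ (by simpa using hbig ha1 ht.1)))) ?_ ?_ ?_
  · convert key using 3 with x
    simp only [pow_zero, one_mul, Function.iterate_zero, id, add_zero]
    rw [ec_sub]
    push_cast
    rfl
  · rw [hmain]
    have h1 := abs_sub_abs_le_abs_sub (RD b e (a' * y)) (RD b e (a * y))
    have h2 := mul_nonneg hCG (abs_nonneg (RD b e (a' * y) - RD b e (a * y)))
    rw [hC₀]
    linarith
  · rw [hmain]
    have h1 := abs_sub (RD b e (a' * y)) (RD b e (a * y))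
    have h2 := mul_nonneg hCG hR0
    rw [hC₀]
    linarith
  · intro t ht
    have ht0 : 0 < t := hy0.trans_le ht.1
    have h1 : t ^ (e + 1) * |(a' : ℝ) ^ (e + 1) * deriv^[e + 1] b (a' * t + 0) -
        (a : ℝ) ^ (e + 1) * deriv^[e + 1] b (a * t + 0)| =
        |RD b (e + 1) (a' * t) - RD b (e + 1) (a * t)| := by
      rw [← hid, abs_mul, abs_of_pos (pow_pos ht0 _)]
    have h2 := hnext _ (hbig ha'1 ht.1)
    have h3 := hnext _ (hbig ha1 ht.1)
    have h4 : |RD b e (a * t)| ≤ |RD b e (a' * t)| := hmono _ _ (hbig ha1 ht.1) (by gcongr)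
    have h5 : |RD b e (a' * t)| ≤ G * R := hup _ _ _ (hbig ha'1 le_rfl) (by gcongr; exact ht.1)
      (by have := mul_le_mul_of_nonneg_left ht.2 (ha0.le.trans haa'); linarith)
    have h6 := abs_sub (RD b (e + 1) (a' * t)) (RD b (e + 1) (a * t))
    have h7 : C * |RD b e (a * t)| ≤ C * (G * R) := by gcongr; linarith
    have h8 : C * |RD b e (a' * t)| ≤ C * (G * R) := by gcongr
    refine le_trans (mul_le_mul_of_nonneg_right (pow_le_pow_left₀ hy0.le ht.1 _) (abs_nonneg _)) ?_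
    rw [h1, hC₀]
    linarith

end Pool.Agent.MP_357fb4_an

end
end

section

/-!
The case of an irrational polynomial part.
-/

open scoped BigOperators Classical ComplexConjugate Polynomial
open Finset Filter MeasureTheory Topology

noncomputable section

namespace Pool.Agent.MP_357fb4_an

/-- The variation of a slow function. -/
lemma CaseIrr_var {r : ℝ → ℝ} (hr : Slow r) {γ : ℝ} (hγ : 0 < γ) (hγ1 : γ ≤ 1) :
    ∃ T : ℝ, 1 ≤ T ∧ ∀ s₀ s t : ℝ, T ≤ s₀ → s₀ ≤ s → s ≤ t →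
      |r t - r s| ≤ (t - s) * (s₀ ^ γ / s₀) := by
  obtain ⟨T, hT⟩ := eventually_atTop.1 (hr γ hγ)
  refine ⟨max T 1, le_max_right _ _, fun s₀ s t hs₀ hs hst => ?_⟩
  have hs1 : 1 ≤ s₀ := le_trans (le_max_right _ _) hs₀
  have hsT : T ≤ s := (le_trans (le_max_left _ _) hs₀).trans hs
  have key : ∀ x ∈ Set.Icc s t, ‖deriv r x‖ ≤ s₀ ^ γ / s₀ := by
    intro x hx
    have hx0 : 0 < x := by linarith [hx.1]
    have h1 := (hT x (hsT.trans hx.1)).2
    rw [abs_mul, abs_of_pos hx0] at h1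
    have h2 : |deriv r x| ≤ x ^ γ / x := by
      rw [le_div_iff₀ hx0]; linarith
    have h3 : x ^ γ / x ≤ s₀ ^ γ / s₀ := by
      rw [← Real.rpow_sub_one hx0.ne', ← Real.rpow_sub_one (by linarith : s₀ ≠ 0)]
      exact Real.rpow_le_rpow_of_nonpos (by linarith) (hs.trans hx.1) (by linarith)
    exact h2.trans h3
  have := Convex.norm_image_sub_le_of_norm_deriv_le (f := r) (s := Set.Icc s t)
    (C := s₀ ^ γ / s₀) (fun x hx => (hT x (hsT.trans hx.1)).1) key (convex_Icc s t)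
    (Set.left_mem_Icc.2 hst) (Set.right_mem_Icc.2 hst)
  rw [Real.norm_eq_abs, Real.norm_eq_abs, abs_of_nonneg (sub_nonneg.2 hst)] at this
  linarith

/-- An affine change of variables. -/
lemma CaseIrr_comp (P : ℝ[X]) {j : ℕ} (hP : P.natDegree ≤ j) (u v : ℝ) :
    ∃ Q : ℝ[X], Q.natDegree ≤ j ∧ Q.coeff j = P.coeff j * u ^ j ∧
      ∀ x : ℝ, Q.eval x = P.eval (v + u * x) := by
  refine ⟨(Polynomial.taylor v P).comp (Polynomial.C u * Polynomial.X), ?_, ?_, fun x => ?_⟩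
  · refine Polynomial.natDegree_comp_le.trans ?_
    rw [Polynomial.natDegree_taylor]
    have h1 : (Polynomial.C u * Polynomial.X : ℝ[X]).natDegree ≤ 1 := by compute_degree
    calc P.natDegree * (Polynomial.C u * Polynomial.X : ℝ[X]).natDegree ≤ j * 1 :=
          Nat.mul_le_mul hP h1
      _ = j := mul_one j
  · rw [Polynomial.comp_C_mul_X_coeff]
    congr 1
    rcases hP.eq_or_lt with h | h
    · rw [← h, Polynomial.coeff_taylor_natDegree]; rfl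
    · rw [Polynomial.coeff_eq_zero_of_natDegree_lt h,
        Polynomial.coeff_eq_zero_of_natDegree_lt (by rwa [Polynomial.natDegree_taylor])]
  · simp [Polynomial.eval_comp, Polynomial.taylor_eval, add_comm]

/-- The local shape of the phase on progressions. -/
lemma CaseIrr_loc {b : ℝ → ℝ} (h : CaseIrr b) : ∃ (α : ℝ) (j q : ℕ) (r : ℝ → ℝ),
    Irrational α ∧ 1 ≤ j ∧ 1 ≤ q ∧ Slow r ∧ ∀ u v : ℕ, q ∣ u → ∃ Q : ℝ[X], Q.natDegree ≤ j ∧
      Q.coeff j = α * (u : ℝ) ^ j ∧ ∀ x : ℕ, ec (b ((v + u * x : ℕ) : ℝ)) =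
        ec (Q.eval (x : ℝ) + (r ((v + u * x : ℕ) : ℝ) - r v)) := by
  obtain ⟨P, j, q, hj, hq, hirr, hrat, hs⟩ := h
  obtain ⟨P₁, P₂, hP, hd, hc, hper⟩ := rat_split hrat
  refine ⟨P.coeff j, j, q, fun t => b t - P.eval t, hirr, hj, hq, hs, fun u v hu => ?_⟩
  obtain ⟨Q, hQd, hQc, hQe⟩ := CaseIrr_comp P₁ hd u v
  obtain ⟨w, rfl⟩ := hu
  refine ⟨Q + Polynomial.C (P₂.eval (v : ℝ) + (b v - P.eval (v : ℝ))), ?_, ?_, fun x => ?_⟩
  · refine (Polynomial.natDegree_add_le _ _).trans (max_le hQd ?_)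
    rw [Polynomial.natDegree_C]; exact Nat.zero_le _
  · rw [Polynomial.coeff_add, Polynomial.coeff_C, if_neg (by omega), add_zero, hQc, hc]
  · have h1 := hper v (w * x)
    have e1 : (((v : ℤ) + (q : ℤ) * ((w : ℤ) * (x : ℤ)) : ℤ) : ℝ) = ((v + q * w * x : ℕ) : ℝ) := by
      push_cast; ring
    have e2 : (((v : ℕ) : ℤ) : ℝ) = (v : ℝ) := by simp
    rw [e1, e2] at h1
    have e3 : ((v + q * w * x : ℕ) : ℝ) = (v : ℝ) + ((q * w : ℕ) : ℝ) * x := by
      push_cast; ring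
    have e4 : b ((v + q * w * x : ℕ) : ℝ) = P₂.eval ((v + q * w * x : ℕ) : ℝ) +
        (Q.eval (x : ℝ) + (b ((v + q * w * x : ℕ) : ℝ) - P.eval ((v + q * w * x : ℕ) : ℝ))) := by
      rw [hQe, ← e3, hP, Polynomial.eval_add]; ring
    rw [e4, ec_add, h1, ← ec_add]
    congr 1
    simp only [Polynomial.eval_add, Polynomial.eval_C]
    ring

/-- Perturbing the phase. -/
lemma CaseIrr_pert {g ρ : ℕ → ℝ} {l : ℕ} (hl : 1 ≤ l) {ε τ : ℝ} (hρ : ∀ x, x < l → |ρ x| ≤ τ)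
    (hg : ‖𝔼 x ∈ range l, ec (g x)‖ ≤ ε) : ‖𝔼 x ∈ range l, ec (g x + ρ x)‖ ≤ ε + 7 * τ := by
  have e : 𝔼 x ∈ range l, ec (g x + ρ x) =
      𝔼 x ∈ range l, ec (g x) + 𝔼 x ∈ range l, (ec (g x + ρ x) - ec (g x)) := by
    rw [← expect_add_distrib]; exact expect_congr rfl fun x _ => by ring
  rw [e]
  refine (norm_add_le _ _).trans (add_le_add hg ((norm_expect_le' _ _).trans ?_))
  refine expect_le (nonempty_range_iff.2 (by omega)) fun x hx => (norm_ec_sub _ _).trans ?_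
  rw [add_sub_cancel_left]
  linarith [hρ x (mem_range.1 hx)]

theorem ti_Irr {b : ℝ → ℝ} (h : CaseIrr b) : TI fun n => ec (b n) := by
  obtain ⟨α, j, q, r, hα, hj, hq, hr, hloc⟩ := CaseIrr_loc h
  refine ti_of_loc (fun n => (norm_ec _).le) fun q₁ hq₁ => ⟨q₁ * q, Nat.mul_pos hq₁ hq,
    Dvd.intro _ rfl, fun ε η hε hη => ?_⟩
  have hQ0 : q₁ * q ≠ 0 := (Nat.mul_pos hq₁ hq).ne'
  have hθ : Irrational (α * ((q₁ * q : ℕ) : ℝ) ^ j) := by
    have := hα.mul_natCast (pow_ne_zero j hQ0)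
    rwa [Nat.cast_pow] at this
  obtain ⟨Ω, hΩ⟩ := w2 hj hθ (half_pos hε)
  obtain ⟨T, hT1, hT⟩ := CaseIrr_var hr (γ := 1 / 2) (by norm_num) (by norm_num)
  set l := max Ω 1 with hl
  set D : ℝ := ((q₁ * q : ℕ) : ℝ) * l with hD
  have hD0 : 0 ≤ D := by positivity
  have t1 : Tendsto (fun y : ℕ => (y : ℝ)) atTop atTop := tendsto_natCast_atTop_atTop
  have t2 : Tendsto (fun y : ℕ => D * (y : ℝ) ^ (-(1 / 2) : ℝ)) atTop (𝓝 (D * 0)) :=
    ((tendsto_rpow_neg_atTop (by norm_num : (0 : ℝ) < 1 / 2)).comp t1).const_mul D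
  rw [mul_zero] at t2
  filter_upwards [t1.eventually_ge_atTop T, t1.eventually_ge_atTop (D / η),
    t2.eventually_le_const (by positivity : (0 : ℝ) < ε / 14)] with y hy1 hy2 hy3
  refine ⟨l, le_max_right _ _, ?_, fun c _ => ?_⟩
  · rw [div_le_iff₀ hη] at hy2
    linarith
  · obtain ⟨Q, hQd, hQc, hQe⟩ := hloc (q₁ * q) (y + c) (Dvd.intro_left _ rfl)
    simp only [hQe]
    have hy0 : (0 : ℝ) < y := by linarith
    have := CaseIrr_pert (g := fun x : ℕ => Q.eval (x : ℝ))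
      (ρ := fun x : ℕ => r ((y + c + q₁ * q * x : ℕ) : ℝ) - r ((y + c : ℕ) : ℝ)) (l := l)
      (le_max_right _ _) (ε := ε / 2) (τ := ε / 14) (fun x hx => ?_)
      (hΩ l (le_max_left _ _) Q hQd hQc)
    · linarith
    · refine (hT y _ _ hy1 (by push_cast; linarith [Nat.cast_nonneg (α := ℝ) c])
        (by exact_mod_cast Nat.le_add_right _ _)).trans (le_trans ?_ hy3)
      rw [← Real.rpow_sub_one hy0.ne', show (1 / 2 - 1 : ℝ) = -(1 / 2) by norm_num]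
      refine mul_le_mul_of_nonneg_right ?_ (by positivity)
      have : (x : ℝ) ≤ l := by exact_mod_cast hx.le
      rw [hD]
      push_cast
      have h0 : (0 : ℝ) ≤ (q₁ : ℝ) * q := by positivity
      nlinarith

lemma CaseIrr_log : ∀ᶠ N : ℕ in atTop, 1 ≤ Real.log N :=
  (Real.tendsto_log_atTop.comp tendsto_natCast_atTop_atTop).eventually_ge_atTop 1

lemma CaseIrr_harm {N : ℕ} (hN : 1 ≤ Real.log N) (δ : ℝ) :
    ∑ n ∈ rg N δ, (1 : ℝ) / n ≤ 3 * Real.log N := by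
  refine (harm_le' _ _).trans ?_
  rw [Nat.cast_pow, Real.log_pow]
  push_cast
  linarith

lemma CaseIrr_mem {N y : ℕ} {δ : ℝ} (hy : y ∈ rg N δ) : (N : ℝ) ^ δ < y ∧ y ≤ N ^ 2 := by
  rw [rg, mem_Ioc] at hy
  exact ⟨Nat.lt_of_floor_lt hy.1, hy.2⟩

/-- Covering by blocks of constant length. -/
lemma CaseIrr_cover {δ ε : ℝ} (hδ : 0 < δ) (hε : 0 < ε) {L : ℕ} (hL : 1 ≤ L) :
    ∀ᶠ N : ℕ in atTop, ∀ f : ℕ → ℂ, (∀ n, ‖f n‖ ≤ 1) →
      (∀ y ∈ rg N δ, ‖𝔼 x ∈ range L, f (y + x)‖ ≤ ε) →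
        ‖∑ n ∈ rg N δ, f n / n‖ ≤ 13 * ε * Real.log N := by
  have hη : 0 < min ε 1 := lt_min hε one_pos
  have t1 : Tendsto (fun N : ℕ => (N : ℝ) ^ δ) atTop atTop :=
    (tendsto_rpow_atTop hδ).comp tendsto_natCast_atTop_atTop
  filter_upwards [CaseIrr_log, t1.eventually_ge_atTop (L / min ε 1)] with N hN1 hN2 f hf h
  have := cover f hf ⌊(N : ℝ) ^ δ⌋₊ (N ^ 2) hε.le hη.le (min_le_right _ _) fun y hy1 hy2 => ?_
  · refine this.trans ?_
    rw [Nat.cast_pow, Real.log_pow]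
    push_cast
    have h1 : min ε 1 ≤ ε := min_le_left _ _
    have h2 : 2 * (ε + min ε 1) * (1 + 2 * Real.log N) ≤ 2 * (ε + ε) * (3 * Real.log N) :=
      mul_le_mul (by linarith) (by linarith) (by linarith) (by linarith)
    nlinarith
  · have hy : y ∈ rg N δ := mem_Ioc.2 ⟨hy1, hy2⟩
    refine ⟨L, hL, ?_, h y hy⟩
    rw [div_le_iff₀ hη] at hN2
    have := (CaseIrr_mem hy).1
    nlinarith

/-- Logarithmic equidistribution of an irrational monomial. -/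
lemma CaseIrr_equi {θ : ℝ} (hθ : Irrational θ) {j : ℕ} (hj : 1 ≤ j) {δ κ : ℝ} (hδ : 0 < δ)
    (hκ : 0 < κ) : ∀ᶠ N : ℕ in atTop,
      ‖∑ n ∈ rg N δ, ec (θ * (n : ℝ) ^ j) / n‖ ≤ κ * Real.log N := by
  obtain ⟨Ω, hΩ⟩ := w2 hj hθ (by positivity : 0 < κ / 13)
  filter_upwards [CaseIrr_cover hδ (by positivity : 0 < κ / 13) (le_max_right Ω 1)] with N hN
  have := hN (fun n => ec (θ * (n : ℝ) ^ j)) (fun n => (norm_ec _).le) fun y _ => ?_
  · linarith
  · obtain ⟨Q, hQd, hQc, hQe⟩ := CaseIrr_comp (Polynomial.C θ * Polynomial.X ^ j) (j := j)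
      (by compute_degree) 1 y
    have := hΩ (max Ω 1) (le_max_left _ _) Q hQd (by simpa using hQc)
    simpa [hQe] using this

/-- The indicator of being near an integer against a Fejer kernel. -/
lemma CaseIrr_fejer {K : ℕ} (hK : 1 ≤ K) (t : ℝ) :
    (if ∃ m : ℤ, |t - m| < 1 / (14 * K) then (1 : ℝ) else 0) ≤
      4 * 𝔼 l ∈ range K, 𝔼 l' ∈ range K, (ec (((l : ℝ) - l') * t)).re := by
  have e : 𝔼 l ∈ range K, 𝔼 l' ∈ range K, (ec (((l : ℝ) - l') * t)).re =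
      ‖𝔼 l ∈ range K, ec ((l : ℝ) * t)‖ ^ 2 := by
    rw [sq_norm_expect]
    refine expect_congr rfl fun l _ => expect_congr rfl fun l' _ => ?_
    rw [← ec_sub, sub_mul]
  rw [e]
  split_ifs with h
  · obtain ⟨m, hm⟩ := h
    have hK0 : (0 : ℝ) < K := by exact_mod_cast hK
    have hne : (range K).Nonempty := nonempty_range_iff.2 (by omega)
    have h1 : ‖𝔼 l ∈ range K, (ec ((l : ℝ) * t) - 1)‖ ≤ 1 / 2 := by
      refine (norm_expect_le' _ _).trans (expect_le hne fun l hl => ?_)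
      have e2 : ec ((l : ℝ) * t) = ec ((l : ℝ) * (t - m)) := by
        rw [← ec_add_int ((l : ℝ) * (t - m)) (l * m)]
        congr 1; push_cast; ring
      rw [e2]
      refine (norm_ec_sub_one _).trans ?_
      rw [abs_mul, Nat.abs_cast]
      have hl' : (l : ℝ) ≤ K := by exact_mod_cast (mem_range.1 hl).le
      have h3 : (l : ℝ) * |t - m| ≤ K * (1 / (14 * K)) :=
        mul_le_mul hl' hm.le (abs_nonneg _) hK0.le
      have h4 : (K : ℝ) * (1 / (14 * K)) = 1 / 14 := by field_simp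
      linarith
    rw [expect_sub_distrib, expect_const hne] at h1
    have h2 : 1 / 2 ≤ ‖𝔼 l ∈ range K, ec ((l : ℝ) * t)‖ := by
      have := norm_sub_norm_le (1 : ℂ) (𝔼 l ∈ range K, ec ((l : ℝ) * t))
      rw [norm_sub_rev, norm_one] at this
      linarith
    nlinarith
  · positivity

/-- The logarithmic mass of the points where the monomial is close to a given residue. -/
lemma CaseIrr_bad {κ : ℝ} (hκ : 0 < κ) : ∃ δ₀ : ℝ, 0 < δ₀ ∧ ∀ {θ : ℝ}, Irrational θ →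
    ∀ {j : ℕ}, 1 ≤ j → ∀ {δ : ℝ}, 0 < δ → ∀ᶠ N : ℕ in atTop, ∀ c : ℝ,
      ∑ n ∈ rg N δ, (if ∃ m : ℤ, |θ * (n : ℝ) ^ j - c - m| < δ₀ then (1 : ℝ) else 0) / n ≤
        16 * κ * Real.log N := by
  obtain ⟨K, hK⟩ := exists_nat_gt (1 / κ)
  have hK0 : (0 : ℝ) < K := lt_trans (by positivity) hK
  have hK1 : 1 ≤ K := by exact_mod_cast hK0
  have hne : (range K).Nonempty := nonempty_range_iff.2 (by omega)
  refine ⟨1 / (14 * K), by positivity, fun {θ} hθ {j} hj {δ} hδ => ?_⟩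
  have hev : ∀ᶠ N : ℕ in atTop, ∀ l ∈ range K, ∀ l' ∈ range K, l ≠ l' →
      ‖∑ n ∈ rg N δ, ec ((((l : ℝ) - l') * θ) * (n : ℝ) ^ j) / n‖ ≤ κ * Real.log N := by
    refine (eventually_all_finset _).2 fun l _ => (eventually_all_finset _).2 fun l' _ => ?_
    by_cases hll : l = l'
    · exact Eventually.of_forall fun N h => absurd hll h
    · have hi : Irrational (((l : ℝ) - l') * θ) := by
        have := hθ.intCast_mul (m := (l : ℤ) - l') (by omega)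
        push_cast at this
        exact this
      filter_upwards [CaseIrr_equi hi hj hδ hκ] with N hN _ using hN
  filter_upwards [hev, CaseIrr_log] with N hN hN1 c
  have hΛ := CaseIrr_harm hN1 δ
  calc ∑ n ∈ rg N δ, (if ∃ m : ℤ, |θ * (n : ℝ) ^ j - c - m| < 1 / (14 * K) then (1 : ℝ) else 0) / n
      ≤ ∑ n ∈ rg N δ, (4 * 𝔼 l ∈ range K, 𝔼 l' ∈ range K,
          (ec (((l : ℝ) - l') * (θ * (n : ℝ) ^ j - c))).re) / n :=
        sum_le_sum fun n _ => div_le_div_of_nonneg_right (CaseIrr_fejer hK1 _) (Nat.cast_nonneg _)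
    _ = 4 * 𝔼 l ∈ range K, 𝔼 l' ∈ range K, ∑ n ∈ rg N δ,
          (ec (((l : ℝ) - l') * (θ * (n : ℝ) ^ j - c))).re / n := by
        simp only [expect_sum_comm, mul_sum, mul_div_assoc, expect_div]
    _ ≤ 4 * 𝔼 l ∈ range K, 𝔼 l' ∈ range K,
          ((if l = l' then 3 * Real.log N else 0) + κ * Real.log N) := by
        refine mul_le_mul_of_nonneg_left (expect_le_expect fun l hl =>
          expect_le_expect fun l' hl' => ?_) (by norm_num)
        split_ifs with hll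
        · subst hll
          simp only [sub_self, zero_mul, ec_zero, Complex.one_re]
          have : 0 ≤ κ * Real.log N := by positivity
          linarith
        · have e : ∑ n ∈ rg N δ, (ec (((l : ℝ) - l') * (θ * (n : ℝ) ^ j - c))).re / n =
              (ec (-(((l : ℝ) - l') * c)) *
                ∑ n ∈ rg N δ, ec ((((l : ℝ) - l') * θ) * (n : ℝ) ^ j) / n).re := by
            rw [mul_sum, Complex.re_sum]
            refine sum_congr rfl fun n _ => ?_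
            rw [← mul_div_assoc, ← ec_add, Complex.div_natCast_re]
            congr 3; ring
          rw [e, zero_add]
          refine (Complex.re_le_norm _).trans ?_
          rw [norm_mul, norm_ec, one_mul]
          exact hN l hl l' hl' hll
    _ ≤ 4 * (3 * Real.log N / K + κ * Real.log N) := by
        refine mul_le_mul_of_nonneg_left (expect_le hne fun l hl => ?_) (by norm_num)
        rw [expect_add_distrib, expect_const hne, expect_eq_sum_div_card, sum_ite_eq, if_pos hl,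
          card_range]
    _ ≤ 16 * κ * Real.log N := by
        have h1 : 1 / (K : ℝ) ≤ κ := by
          rw [div_lt_iff₀ hκ] at hK
          rw [div_le_iff₀ hK0]; linarith
        have h2 : 3 * Real.log N / K ≤ 3 * Real.log N * κ := by
          rw [div_eq_mul_one_div]
          exact mul_le_mul_of_nonneg_left h1 (by linarith)
        nlinarith

/-- Cancellation for the good pairs of dilates. -/
lemma CaseIrr_good {b : ℝ → ℝ} (h : CaseIrr b) : ∃ (β : ℝ) (j : ℕ), Irrational β ∧ 1 ≤ j ∧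
    ∀ ε : ℝ, 0 < ε → ∃ H : ℕ, ∀ δ₀ δ : ℝ, 0 < δ₀ → 0 < δ → ∀ᶠ N : ℕ in atTop,
      ∀ a ∈ rg N δ, ∀ a' ∈ rg N δ, (∀ k : ℕ, 1 ≤ k → k ≤ H → ∀ n : ℤ,
        δ₀ ≤ |k * β * (a' : ℝ) ^ j - k * β * (a : ℝ) ^ j - n|) →
      ‖∑ m ∈ rg N δ, ec (b ((a' * m : ℕ) : ℝ)) * conj (ec (b ((a * m : ℕ) : ℝ))) / m‖ ≤
        13 * ε * Real.log N := by
  obtain ⟨α, j, q, r, hα, hj, hq, hr, hloc⟩ := CaseIrr_loc h
  have hβ : Irrational (α * (q : ℝ) ^ j) := by
    have := hα.mul_natCast (pow_ne_zero j (by omega : q ≠ 0))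
    rwa [Nat.cast_pow] at this
  refine ⟨α * (q : ℝ) ^ j, j, hβ, hj, fun ε hε => ?_⟩
  obtain ⟨H, hH⟩ := w3 hj (half_pos hε)
  refine ⟨H, fun δ₀ δ hδ₀ hδ => ?_⟩
  obtain ⟨Ω, hΩ⟩ := hH δ₀ hδ₀
  set l := max Ω 1 with hl
  set γ : ℝ := min (δ / 8) 1 with hγ
  have hγ0 : 0 < γ := lt_min (by positivity) one_pos
  obtain ⟨T, hT1, hT⟩ := CaseIrr_var hr hγ0 (min_le_right _ _)
  set D : ℝ := (q : ℝ) * l with hD
  have hD0 : 0 ≤ D := by positivity
  have t1 : Tendsto (fun N : ℕ => (N : ℝ) ^ δ) atTop atTop :=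
    (tendsto_rpow_atTop hδ).comp tendsto_natCast_atTop_atTop
  have t2 : Tendsto (fun N : ℕ => D * (N : ℝ) ^ (-(δ / 2))) atTop (𝓝 (D * 0)) :=
    ((tendsto_rpow_neg_atTop (half_pos hδ)).comp tendsto_natCast_atTop_atTop).const_mul D
  rw [mul_zero] at t2
  filter_upwards [CaseIrr_cover hδ hε (L := q * l) (Nat.mul_pos hq (le_max_right Ω 1)),
    t1.eventually_ge_atTop T, t2.eventually_le_const (by positivity : (0 : ℝ) < ε / 28),
    eventually_ge_atTop 1] with N hcov hN1 hN2 hN3 a ha a' ha' hgood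
  have hN0 : (1 : ℝ) ≤ N := by exact_mod_cast hN3
  have hvar : ∀ a ∈ rg N δ, ∀ y ∈ rg N δ, ∀ c x : ℕ, x < l →
      |r ((a * (y + c) + a * q * x : ℕ) : ℝ) - r ((a * (y + c) : ℕ) : ℝ)| ≤ ε / 28 := by
    intro a ha y hy c x hx
    obtain ⟨ha1, ha2⟩ := CaseIrr_mem ha
    obtain ⟨hy1, hy2⟩ := CaseIrr_mem hy
    have ha3 : (1 : ℝ) ≤ a := by linarith
    have hy3 : (1 : ℝ) ≤ y := by linarith
    have hc0 : (0 : ℝ) ≤ c := Nat.cast_nonneg _
    refine (hT ((a : ℝ) * y) _ _ (by nlinarith) (by push_cast; nlinarith)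
      (by exact_mod_cast Nat.le_add_right _ _)).trans (le_trans ?_ hN2)
    have h1 : ((a : ℝ) * y) ^ γ ≤ (N : ℝ) ^ (δ / 2) := by
      have h2 : (a : ℝ) * y ≤ (N : ℝ) ^ (4 : ℝ) := by
        have h3 : (a : ℝ) ≤ (N : ℝ) ^ 2 := by exact_mod_cast ha2
        have h4 : (y : ℝ) ≤ (N : ℝ) ^ 2 := by exact_mod_cast hy2
        rw [show (4 : ℝ) = ((4 : ℕ) : ℝ) by norm_num, Real.rpow_natCast]
        calc (a : ℝ) * y ≤ (N : ℝ) ^ 2 * (N : ℝ) ^ 2 :=
              mul_le_mul h3 h4 (by linarith) (by positivity)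
          _ = (N : ℝ) ^ 4 := by ring
      calc ((a : ℝ) * y) ^ γ ≤ ((N : ℝ) ^ (4 : ℝ)) ^ γ :=
            Real.rpow_le_rpow (by positivity) h2 hγ0.le
        _ = (N : ℝ) ^ (4 * γ) := by rw [← Real.rpow_mul (by linarith)]
        _ ≤ (N : ℝ) ^ (δ / 2) := Real.rpow_le_rpow_of_exponent_le hN0
            (by have : γ ≤ δ / 8 := min_le_left _ _; linarith)
    have hx' : (x : ℝ) ≤ l := by exact_mod_cast hx.le
    have hpos : 0 < (N : ℝ) ^ δ := by positivity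
    have e1 : (((a * (y + c) + a * q * x : ℕ) : ℝ) - ((a * (y + c) : ℕ) : ℝ)) *
        (((a : ℝ) * y) ^ γ / (a * y)) = q * x * (((a : ℝ) * y) ^ γ / y) := by
      push_cast; field_simp; ring
    have e2 : (N : ℝ) ^ (-(δ / 2)) = (N : ℝ) ^ (δ / 2) / (N : ℝ) ^ δ := by
      rw [← Real.rpow_sub (by linarith)]; congr 1; ring
    rw [e1, e2]
    refine mul_le_mul (mul_le_mul_of_nonneg_left hx' (Nat.cast_nonneg _)) ?_ (by positivity) hD0
    exact div_le_div₀ (by positivity) h1 hpos hy1.le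
  refine hcov (fun m => ec (b ((a' * m : ℕ) : ℝ)) * conj (ec (b ((a * m : ℕ) : ℝ))))
    (fun n => by simp) fun y hy => block_ap
      (fun m => ec (b ((a' * m : ℕ) : ℝ)) * conj (ec (b ((a * m : ℕ) : ℝ)))) l y hq fun c _ => ?_
  obtain ⟨Q, hQd, hQc, hQe⟩ := hloc (a * q) (a * (y + c)) (Dvd.intro_left _ rfl)
  obtain ⟨Q', hQd', hQc', hQe'⟩ := hloc (a' * q) (a' * (y + c)) (Dvd.intro_left _ rfl)
  have e : ∀ x : ℕ, ec (b ((a' * (y + c + q * x) : ℕ) : ℝ)) *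
      conj (ec (b ((a * (y + c + q * x) : ℕ) : ℝ))) = ec ((Q' - Q).eval (x : ℝ) +
        ((r ((a' * (y + c) + a' * q * x : ℕ) : ℝ) - r ((a' * (y + c) : ℕ) : ℝ)) -
          (r ((a * (y + c) + a * q * x : ℕ) : ℝ) - r ((a * (y + c) : ℕ) : ℝ)))) := by
    intro x
    rw [show a' * (y + c + q * x) = a' * (y + c) + a' * q * x by ring,
      show a * (y + c + q * x) = a * (y + c) + a * q * x by ring, hQe, hQe', ← ec_sub,
      Polynomial.eval_sub]
    congr 1; ring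
  simp only [e]
  have := CaseIrr_pert (g := fun x : ℕ => (Q' - Q).eval (x : ℝ))
    (ρ := fun x : ℕ => (r ((a' * (y + c) + a' * q * x : ℕ) : ℝ) - r ((a' * (y + c) : ℕ) : ℝ)) -
      (r ((a * (y + c) + a * q * x : ℕ) : ℝ) - r ((a * (y + c) : ℕ) : ℝ))) (l := l)
    (le_max_right _ _) (ε := ε / 2) (τ := ε / 14) (fun x hx => ?_)
    (hΩ l (le_max_left _ _) (Q' - Q) ((Polynomial.natDegree_sub_le _ _).trans (max_le hQd' hQd))
      fun k hk1 hk2 n => ?_)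
  · linarith
  · refine (abs_sub _ _).trans ?_
    linarith [hvar a ha y hy c x hx, hvar a' ha' y hy c x hx]
  · rw [Polynomial.coeff_sub, hQc, hQc']
    refine (hgood k hk1 hk2 n).trans_eq ?_
    congr 1; push_cast; ring

theorem pair_Irr {b : ℝ → ℝ} (h : CaseIrr b) : Pair fun n => ec (b n) := by
  obtain ⟨β, j, hβ, hj, hgood⟩ := CaseIrr_good h
  intro δ ε hδ hε
  obtain ⟨H, hH⟩ := hgood (ε / 234) (by positivity)
  set κ : ℝ := ε / (288 * (H + 1)) with hκ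
  have hκ0 : 0 < κ := by positivity
  obtain ⟨δ₀, hδ₀, hbad⟩ := CaseIrr_bad hκ0
  have hev : ∀ᶠ N : ℕ in atTop, ∀ k ∈ Icc 1 H, ∀ c : ℝ,
      ∑ n ∈ rg N δ, (if ∃ m : ℤ, |k * β * (n : ℝ) ^ j - c - m| < δ₀ then (1 : ℝ) else 0) / n ≤
        16 * κ * Real.log N :=
    (eventually_all_finset _).2 fun k hk =>
      hbad (hβ.natCast_mul (by have := (mem_Icc.1 hk).1; omega)) hj hδ
  filter_upwards [hH δ₀ δ hδ₀ hδ, hev, CaseIrr_log] with N hN1 hN2 hN3
  have hΛ := CaseIrr_harm hN3 δ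
  set Lg := Real.log N with hLg
  have hS : ∀ a ∈ rg N δ, ∀ a' ∈ rg N δ,
      ‖∑ m ∈ rg N δ, ec (b ((a' * m : ℕ) : ℝ)) * conj (ec (b ((a * m : ℕ) : ℝ))) / m‖ ≤
        13 * (ε / 234) * Lg + 3 * Lg * ∑ k ∈ Icc 1 H,
          (if ∃ m : ℤ, |k * β * (a' : ℝ) ^ j - k * β * (a : ℝ) ^ j - m| < δ₀ then (1 : ℝ)
            else 0) := by
    intro a ha a' ha'
    have hnn : ∀ k ∈ Icc 1 H, (0 : ℝ) ≤
        (if ∃ m : ℤ, |k * β * (a' : ℝ) ^ j - k * β * (a : ℝ) ^ j - m| < δ₀ then (1 : ℝ)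
          else 0) := fun k _ => by split_ifs <;> norm_num
    by_cases hg : ∀ k : ℕ, 1 ≤ k → k ≤ H → ∀ n : ℤ,
        δ₀ ≤ |k * β * (a' : ℝ) ^ j - k * β * (a : ℝ) ^ j - n|
    · have h1 := hN1 a ha a' ha' hg
      have h2 := mul_nonneg (by linarith : 0 ≤ 3 * Lg) (sum_nonneg hnn)
      linarith
    · push Not at hg
      obtain ⟨k, hk1, hk2, n, hn⟩ := hg
      have h1 := single_le_sum hnn (mem_Icc.2 ⟨hk1, hk2⟩)
      rw [if_pos ⟨n, hn⟩] at h1
      have h2 : ‖∑ m ∈ rg N δ, ec (b ((a' * m : ℕ) : ℝ)) * conj (ec (b ((a * m : ℕ) : ℝ))) / m‖ ≤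
          3 * Lg := by
        refine (norm_sum_le _ _).trans (le_trans (sum_le_sum fun m _ => ?_) hΛ)
        simp
      have h3 := mul_le_mul_of_nonneg_left h1 (by linarith : 0 ≤ 3 * Lg)
      have h4 : 0 ≤ 13 * (ε / 234) * Lg := by positivity
      linarith
  have hin : ∀ a ∈ rg N δ, ∑ a' ∈ rg N δ,
      ‖∑ m ∈ rg N δ, ec (b ((a' * m : ℕ) : ℝ)) * conj (ec (b ((a * m : ℕ) : ℝ))) / m‖ / (a * a') ≤
        ε / 3 * Lg ^ 2 * (1 / a) := by
    intro a ha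
    calc _ ≤ ∑ a' ∈ rg N δ, (13 * (ε / 234) * Lg + 3 * Lg * ∑ k ∈ Icc 1 H,
          (if ∃ m : ℤ, |k * β * (a' : ℝ) ^ j - k * β * (a : ℝ) ^ j - m| < δ₀ then (1 : ℝ)
            else 0)) / (a * a') :=
          sum_le_sum fun a' ha' => div_le_div_of_nonneg_right (hS a ha a' ha') (by positivity)
      _ = (13 * (ε / 234) * Lg * ∑ a' ∈ rg N δ, (1 : ℝ) / a' + 3 * Lg * ∑ k ∈ Icc 1 H,
          ∑ a' ∈ rg N δ, (if ∃ m : ℤ, |k * β * (a' : ℝ) ^ j - k * β * (a : ℝ) ^ j - m| < δ₀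
            then (1 : ℝ) else 0) / a') * (1 / a) := by
          rw [sum_comm, mul_sum, mul_sum, ← sum_add_distrib, sum_mul]
          refine sum_congr rfl fun a' _ => ?_
          rw [← sum_div]
          ring
      _ ≤ ε / 3 * Lg ^ 2 * (1 / a) := by
          refine mul_le_mul_of_nonneg_right ?_ (by positivity)
          have h1 : ∑ k ∈ Icc 1 H, ∑ a' ∈ rg N δ,
              (if ∃ m : ℤ, |k * β * (a' : ℝ) ^ j - k * β * (a : ℝ) ^ j - m| < δ₀
                then (1 : ℝ) else 0) / a' ≤ H * (16 * κ * Lg) := by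
            have := sum_le_card_nsmul _ _ _ fun k hk => hN2 k hk (k * β * (a : ℝ) ^ j)
            simpa using this
          have h2 : (H : ℝ) * κ ≤ ε / 288 := by
            rw [hκ, ← mul_div_assoc, div_le_div_iff₀ (by positivity) (by positivity)]
            nlinarith [Nat.cast_nonneg (α := ℝ) H]
          have h3 := mul_le_mul_of_nonneg_left hΛ (by positivity : 0 ≤ 13 * (ε / 234) * Lg)
          have h4 := mul_le_mul_of_nonneg_left h1 (by positivity : 0 ≤ 3 * Lg)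
          have h5 := mul_le_mul_of_nonneg_left h2 (by positivity : 0 ≤ 48 * Lg ^ 2)
          nlinarith
  refine (sum_le_sum hin).trans ?_
  rw [← mul_sum]
  have := mul_le_mul_of_nonneg_left hΛ (by positivity : 0 ≤ ε / 3 * Lg ^ 2)
  nlinarith

end Pool.Agent.MP_357fb4_an

end
end
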