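import Pool.Agent.Mg.F14ad9d.Gc47067
import Pool.Agent.Mg.F14ad9d.Gfcb572
import Pool.Agent.Mg.F14ad9d.G167a1c
import Pool.Agent.Mg.F14ad9d.G3616c9

section

/-!
Removing the prime weight on short intervals.
-/

open scoped BigOperators Classical ComplexConjugate Polynomial
open Finset Filter MeasureTheory Topology

noncomputable section

namespace Pool.Agent.MP_357fb4_an

variable {Y : Type} [MeasurableSpace Y] {μ : Measure Y} [IsProbabilityMeasure μ]

/-- The representative in the unit interval. -/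
def dwRep (s : AddCircle (1 : ℝ)) : ℝ := (AddCircle.equivIco 1 0 s : ℝ)

lemma dwRep_meas : Measurable dwRep :=
  measurable_subtype_coe.comp (AddCircle.measurableEquivIco 1 0).measurable

lemma dwRep_coe (x : ℝ) : dwRep (x : AddCircle (1 : ℝ)) = Int.fract x := by
  simp [dwRep]

lemma dwRep_mem (s : AddCircle (1 : ℝ)) : 0 ≤ dwRep s ∧ dwRep s < 1 := by
  have := (AddCircle.equivIco 1 0 s).2
  simpa [dwRep] using this

lemma dwRep_add (s : AddCircle (1 : ℝ)) (t : ℝ) :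
    dwRep (s + (t : AddCircle (1 : ℝ))) = Int.fract (dwRep s + t) := by
  rw [← dwRep_coe, AddCircle.coe_add]
  congr 2
  exact AddCircle.coe_equivIco.symm

omit [IsProbabilityMeasure μ] in
lemma dw_act_meas (S : Sys ℤ Y μ) {X : Type} [MeasurableSpace X] {n : X → ℤ} {f : X → Y}
    (hn : Measurable n) (hf : Measurable f) : Measurable fun x => S.act (n x) (f x) := by
  have h : Measurable fun p : Y × ℤ => S.act p.2 p.1 :=
    measurable_from_prod_countable_left fun k => (S.mp k).measurable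
  exact h.comp (hf.prodMk hn)

/-- The suspension flow. -/
def dwSusp (S : Sys ℤ Y μ) :
    Sys ℝ (AddCircle (1 : ℝ) × Y) ((AddCircle.haarAddCircle (T := 1)).prod μ) where
  act t p := (p.1 + (t : AddCircle (1 : ℝ)), S.act ⌊dwRep p.1 + t⌋ p.2)
  mp t := MeasurePreserving.skew_product (g := fun s y => S.act ⌊dwRep s + t⌋ y)
    (measurePreserving_add_right _ _)
    (dw_act_meas S ((dwRep_meas.comp measurable_fst).add_const t).floor measurable_snd)
    (ae_of_all _ fun s => (S.mp _).map_eq)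
  act_add g h p := by
    refine Prod.ext ?_ ?_
    · simp only [AddCircle.coe_add]; abel
    · simp only [act_act, dwRep_add]
      congr 1
      have : Int.fract (dwRep p.1 + h) + g = dwRep p.1 + (g + h) - (⌊dwRep p.1 + h⌋ : ℤ) := by
        rw [Int.fract]; ring
      rw [this, Int.floor_sub_intCast]; ring
  act_zero p := by
    have : ⌊dwRep p.1⌋ = 0 := Int.floor_eq_zero_iff.2 (dwRep_mem p.1)
    simp [this, S.act_zero]

/-- The product of a system with itself. -/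
def dwSq {Z : Type} [MeasurableSpace Z] {ν : Measure Z} [IsProbabilityMeasure ν] (S : Sys ℝ Z ν) :
    Sys ℝ (Z × Z) (ν.prod ν) where
  act t := Prod.map (S.act t) (S.act t)
  mp t := (S.mp t).prod (S.mp t)
  act_add g h p := by simp [Prod.map, S.act_add]
  act_zero p := by simp [Prod.map, S.act_zero]

lemma dw_B1_sq {Z : Type} [MeasurableSpace Z] {f : Z → ℂ} (hf : B1 f) :
    B1 fun p : Z × Z => f p.1 * conj (f p.2) :=
  B1.mul ⟨hf.1.comp measurable_fst, fun _ => hf.2 _⟩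
    (B1.conj (f := fun p : Z × Z => f p.2) ⟨hf.1.comp measurable_snd, fun _ => hf.2 _⟩)

lemma dw_corr_sq {Z : Type} [MeasurableSpace Z] {ν : Measure Z} [IsProbabilityMeasure ν]
    (S : Sys ℝ Z ν) {ι : Type} [Fintype ι] (F : Z → ℂ) (G : ι → Z → ℂ) (v : ι → ℝ) :
    corr (dwSq S) (fun p => F p.1 * conj (F p.2)) (fun i p => G i p.1 * conj (G i p.2)) v =
      ((‖corr S F G v‖ ^ 2 : ℝ) : ℂ) := by
  rw [← Complex.normSq_eq_norm_sq, ← Complex.mul_conj, corr, corr, ← integral_conj,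
    ← integral_prod_mul]
  refine integral_congr_ae (ae_of_all _ fun p => ?_)
  simp only [dwSq, Prod.map, prod_mul_distrib, map_mul, map_prod]
  ring

/-- The indicator of the lower half circle. -/
def dwInd (s : AddCircle (1 : ℝ)) : ℝ := if dwRep s < 1 / 2 then 1 else 0

lemma dwInd_meas : Measurable dwInd :=
  Measurable.ite (measurableSet_lt dwRep_meas measurable_const) measurable_const measurable_const

lemma dwInd_mem (s : AddCircle (1 : ℝ)) : 0 ≤ dwInd s ∧ dwInd s ≤ 1 := by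
  unfold dwInd; split_ifs <;> norm_num

/-- The mass of the lower half circle. -/
def dwM : ℝ := ∫ s, dwInd s ∂(AddCircle.haarAddCircle (T := 1))

lemma dwInd_int : Integrable dwInd (AddCircle.haarAddCircle (T := 1)) :=
  Integrable.of_bound dwInd_meas.aestronglyMeasurable 1 (ae_of_all _ fun s => by
    rw [Real.norm_of_nonneg (dwInd_mem s).1]; exact (dwInd_mem s).2)

lemma dwM_pos : 0 < dwM := by
  rw [dwM, integral_pos_iff_support_of_nonneg (fun s => (dwInd_mem s).1) dwInd_int]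
  have ho : IsOpen (((↑) : ℝ → AddCircle (1 : ℝ)) '' Set.Ioo 0 (1 / 2)) :=
    QuotientAddGroup.isOpenMap_coe _ isOpen_Ioo
  refine (ho.measure_pos _ ⟨_, 1 / 4, by norm_num, rfl⟩).trans_le (measure_mono ?_)
  rintro _ ⟨x, hx, rfl⟩
  have : Int.fract x = x := Int.fract_eq_self.2 ⟨hx.1.le, by linarith [hx.2]⟩
  simp only [Function.mem_support, dwInd, dwRep_coe, this, if_pos hx.2]
  norm_num

lemma dwM_le : dwM ≤ 1 := by
  have := integral_mono dwInd_int (integrable_const (1 : ℝ)) fun s => (dwInd_mem s).2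
  simpa [dwM] using this

lemma dw_B1_F {F : Y → ℂ} (hF : B1 F) :
    B1 fun p : AddCircle (1 : ℝ) × Y => (dwInd p.1 : ℂ) * F p.2 :=
  B1.mul ⟨Complex.measurable_ofReal.comp (dwInd_meas.comp measurable_fst), fun p => by
      rw [Complex.norm_real, Real.norm_of_nonneg (dwInd_mem _).1]; exact (dwInd_mem _).2⟩
    ⟨hF.1.comp measurable_snd, fun _ => hF.2 _⟩

lemma dw_B1_G {G : Y → ℂ} (hG : B1 G) : B1 fun p : AddCircle (1 : ℝ) × Y => G p.2 :=
  ⟨hG.1.comp measurable_snd, fun _ => hG.2 _⟩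

/-- The correlation in the suspension. -/
def dwC (S : Sys ℤ Y μ) {ι : Type} [Fintype ι] (F : Y → ℂ) (G : ι → Y → ℂ) (v : ι → ℝ) : ℂ :=
  corr (dwSusp S) (fun p => (dwInd p.1 : ℂ) * F p.2) (fun i p => G i p.2) v

lemma dwC_eq (S : Sys ℤ Y μ) {ι : Type} [Fintype ι] {F : Y → ℂ} {G : ι → Y → ℂ} (hF : B1 F)
    (hG : ∀ i, B1 (G i)) (v : ι → ℝ) : dwC S F G v =
      ∫ s, (dwInd s : ℂ) * corr S F G (fun i => ⌊dwRep s + v i⌋)
        ∂(AddCircle.haarAddCircle (T := 1)) := by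
  rw [dwC, corr, integral_prod _ (corr_B1 (dwSusp S) (dw_B1_F hF) (fun i => dw_B1_G (hG i))
    v).integrable]
  refine integral_congr_ae (ae_of_all _ fun s => ?_)
  simp only [corr, dwSusp, ← integral_const_mul, mul_assoc]

lemma dwC_le (S : Sys ℤ Y μ) {ι : Type} [Fintype ι] {F : Y → ℂ} {G : ι → Y → ℂ} (hF : B1 F)
    (hG : ∀ i, B1 (G i)) (v : ι → ℝ) {B : ℝ}
    (hB : ∀ t : ℝ, 0 ≤ t → t < 1 → ‖corr S F G fun i => ⌊t + v i⌋‖ ≤ B) :
    ‖dwC S F G v‖ ≤ B := by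
  rw [dwC_eq S hF hG]
  have := norm_integral_le_of_norm_le_const (μ := AddCircle.haarAddCircle (T := 1)) (C := B)
    (f := fun s => (dwInd s : ℂ) * corr S F G (fun i => ⌊dwRep s + v i⌋))
    (ae_of_all _ fun s => by
      rw [norm_mul, Complex.norm_real, Real.norm_of_nonneg (dwInd_mem _).1]
      exact (mul_le_of_le_one_left (norm_nonneg _) (dwInd_mem _).2).trans
        (hB _ (dwRep_mem s).1 (dwRep_mem s).2))
  simpa using this

lemma dwC_exact (S : Sys ℤ Y μ) {ι : Type} [Fintype ι] {F : Y → ℂ} {G : ι → Y → ℂ} (hF : B1 F)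
    (hG : ∀ i, B1 (G i)) (v : ι → ℝ) (a : ι → ℤ) (h0 : ∀ i, (a i : ℝ) ≤ v i)
    (h1 : ∀ i, v i < a i + 1 / 2) : ‖dwC S F G v‖ = dwM * ‖corr S F G a‖ := by
  have : dwC S F G v = (dwM : ℂ) * corr S F G a := by
    rw [dwC_eq S hF hG, dwM, ← integral_complex_ofReal, ← integral_mul_const]
    refine integral_congr_ae (ae_of_all _ fun s => ?_)
    by_cases hs : dwRep s < 1 / 2
    · have : (fun i => ⌊dwRep s + v i⌋) = a := funext fun i =>
        Int.floor_eq_iff.2 ⟨by linarith [(dwRep_mem s).1, h0 i], by linarith [h1 i]⟩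
      simp only [this]
    · simp only [dwInd, if_neg hs, Complex.ofReal_zero, zero_mul]
  rw [this, norm_mul, Complex.norm_real, Real.norm_of_nonneg dwM_pos.le]

/-- Reading the conclusion of the majorant theorem for a real function. -/
lemma dw_read {y L z w : ℕ} (hL : 1 ≤ L) {e : ℝ} (φ : ℤ → ℝ)
    (h : ‖∑ x ∈ Ico (y : ℤ) (y + L), ((nuI 0 z x - nuI 0 w x : ℝ) : ℂ) * (φ x : ℂ)‖ ≤ e * L) :
    𝔼 x ∈ range L, nuI 0 z ((y + x : ℕ) : ℤ) * φ ((y + x : ℕ) : ℤ) ≤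
      𝔼 x ∈ range L, nuI 0 w ((y + x : ℕ) : ℤ) * φ ((y + x : ℕ) : ℤ) + e := by
  have hs : ∀ f : ℤ → ℝ, ∑ x ∈ Ico (y : ℤ) (y + L), f x = ∑ x ∈ range L, f ((y + x : ℕ) : ℤ) := by
    intro f
    symm
    refine sum_bij (fun x _ => ((y + x : ℕ) : ℤ)) ?_ ?_ ?_ ?_
    · intro x hx; simp only [mem_range] at hx; simp only [mem_Ico]; omega
    · intro x _ x' _ hxx; omega
    · intro n hn
      simp only [mem_Ico] at hn
      exact ⟨(n - y).toNat, by simp only [mem_range]; omega, by omega⟩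
    · intro x _; rfl
  have hc : ∑ x ∈ Ico (y : ℤ) (y + L), ((nuI 0 z x - nuI 0 w x : ℝ) : ℂ) * (φ x : ℂ) =
      ((∑ x ∈ Ico (y : ℤ) (y + L), (nuI 0 z x - nuI 0 w x) * φ x : ℝ) : ℂ) := by
    push_cast; rfl
  rw [hc, Complex.norm_real, Real.norm_eq_abs, hs] at h
  have h2 := (le_abs_self _).trans h
  have hL' : (0 : ℝ) < L := by exact_mod_cast hL
  simp only [sub_mul, sum_sub_distrib] at h2
  simp only [expect_eq_sum_div_card, card_range]
  rw [div_add' _ _ _ hL'.ne', div_le_div_iff_of_pos_right hL']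
  linarith

lemma dw_mean {y L w : ℕ} (hL : 1 ≤ L) (hw : primorial w ≤ L) :
    𝔼 x ∈ range L, nuI 0 w ((y + x : ℕ) : ℤ) ≤ 2 := by
  have h := nuI_mean w L y
  have hs : ∑ x ∈ Ico (y : ℤ) (y + L), nuI 0 w x = ∑ x ∈ range L, nuI 0 w ((y + x : ℕ) : ℤ) := by
    symm
    refine sum_bij (fun x _ => ((y + x : ℕ) : ℤ)) ?_ ?_ ?_ ?_
    · intro x hx; simp only [mem_range] at hx; simp only [mem_Ico]; omega
    · intro x _ x' _ hxx; omega
    · intro n hn
      simp only [mem_Ico] at hn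
      exact ⟨(n - y).toNat, by simp only [mem_range]; omega, by omega⟩
    · intro x _; rfl
  have hL' : (0 : ℝ) < L := by exact_mod_cast hL
  have hw' : (primorial w : ℝ) ≤ L := by exact_mod_cast hw
  rw [expect_eq_sum_div_card, card_range, div_le_iff₀ hL', ← hs]
  linarith

lemma dw_th {y x u : ℕ} (hy : 2 ≤ y) (hu : 2 ≤ u) (hx : x ≤ y) :
    th (y + x) ≤ 2 * u * nuI 0 ⌊(y : ℝ) ^ (1 / u : ℝ)⌋₊ ((y + x : ℕ) : ℤ) := by
  have hy' : (2 : ℝ) ≤ y := by exact_mod_cast hy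
  have hu' : (2 : ℝ) ≤ u := by exact_mod_cast hu
  unfold th
  split_ifs with hp
  · have hz : ⌊(y : ℝ) ^ (1 / u : ℝ)⌋₊ < y + x := by
      have h1 : (y : ℝ) ^ (1 / u : ℝ) < (y : ℝ) ^ (1 : ℝ) :=
        Real.rpow_lt_rpow_of_exponent_lt (by linarith) (by
          rw [div_lt_one (by linarith)]; linarith)
      rw [Real.rpow_one] at h1
      have := (Nat.floor_lt (by positivity)).2 h1
      omega
    rw [nuI, if_pos (rough_prime hp hz)]
    have hV := Vp_le_div hy (show 1 ≤ u by omega)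
    have hV0 := Vp_pos 0 ⌊(y : ℝ) ^ (1 / u : ℝ)⌋₊
    have hl : 0 < Real.log y := Real.log_pos (by linarith)
    have h3 : Real.log ((y + x : ℕ) : ℝ) ≤ 2 * Real.log y := by
      have hx' : (x : ℝ) ≤ y := by exact_mod_cast hx
      rw [show 2 * Real.log y = Real.log ((y : ℝ) ^ 2) by rw [Real.log_pow]; norm_num]
      refine Real.log_le_log (by push_cast; positivity) ?_
      push_cast; nlinarith
    rw [le_div_iff₀ hl] at hV
    rw [← div_eq_mul_inv, le_div_iff₀ hV0]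
    nlinarith
  · exact mul_nonneg (by positivity) (nuI_nonneg _ _ _)

theorem dw (S : Sys ℤ Y μ) (r D : ℕ) (C : ℝ) {ε : ℝ} (hε : 0 < ε) : ∃ C₁ : ℝ, 0 ≤ C₁ ∧
    ∀ᶠ y : ℕ in atTop, ∀ L : ℕ, Real.sqrt y ≤ L → L ≤ y → ∀ (ι : Type) [Fintype ι],
      Fintype.card ι ≤ r → ∀ Q : ι → ℝ[X], (∀ i, (Q i).natDegree ≤ D) →
        ∀ (F : Y → ℂ) (G : ι → Y → ℂ) (a : ι → ℕ → ℤ), B1 F → (∀ i, B1 (G i)) →
          (∀ i x, x < L → |(a i x : ℝ) - (Q i).eval (x : ℝ)| ≤ C) →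
            ∃ a' : ι → ℕ → ℤ, (∀ i x, |(a' i x : ℝ) - (Q i).eval (x : ℝ)| ≤ C + 3) ∧
              𝔼 x ∈ range L, th (y + x) * ‖corr S F G fun i => a i x‖ ≤
                ε + C₁ * 𝔼 x ∈ range L, ‖corr S F G fun i => a' i x‖ := by
  set k : ℕ := ⌈2 * |C|⌉₊ + 1 with hk
  set R : ℝ := ((2 * k + 1 : ℕ) : ℝ) ^ r with hR
  have hR1 : 1 ≤ R := one_le_pow₀ (by exact_mod_cast (by omega : 1 ≤ 2 * k + 1))
  have hm := dwM_pos
  set e0 : ℝ := min 1 (dwM ^ 2 * ε ^ 2 / (48 * R)) with he0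
  have he0p : 0 < e0 := lt_min one_pos (by positivity)
  obtain ⟨u, w, hu1, hu2, hmaj⟩ := maj r D (δ := 1 / 2) (ε := e0) (by norm_num) he0p
  have hu' : (2 : ℝ) ≤ u := by linarith
  have hu : 2 ≤ u := by exact_mod_cast hu'
  set η : ℝ := ε / (12 * u) with hη
  have hηp : 0 < η := by positivity
  have hV := Vp_pos 0 w
  refine ⟨2 * u * (R * (Vp 0 w)⁻¹ / (dwM ^ 2 * η)), by positivity, ?_⟩
  filter_upwards [hmaj, eventually_ge_atTop 2, eventually_ge_atTop (primorial w ^ 2)] with y hy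
    hy2 hyw L hL hLy ι _ hι Q hQ F G a hF hG ha
  have hy' : (2 : ℝ) ≤ y := by exact_mod_cast hy2
  have hL1 : 1 ≤ L := by
    have : (1 : ℝ) ≤ L := le_trans (Real.one_le_sqrt.2 (by linarith)) hL
    exact_mod_cast this
  have hwL : primorial w ≤ L := by
    have h1 : ((primorial w : ℝ)) ≤ Real.sqrt y :=
      Real.le_sqrt_of_sq_le (by exact_mod_cast hyw)
    exact_mod_cast h1.trans hL
  have hL' : (y : ℝ) ^ (1 / 2 : ℝ) ≤ L := by rwa [← Real.sqrt_eq_rpow]
  have hC : ∀ _ : ι, 0 ≤ C := fun i => (abs_nonneg _).trans (ha i 0 (by omega))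
  set z := ⌊(y : ℝ) ^ (1 / u : ℝ)⌋₊ with hz
  -- the maximising integer vectors
  have hex : ∀ x : ℕ, ∃ v : ι → ℤ, (∀ i, |(v i : ℝ) - (Q i).eval (x : ℝ)| ≤ C + 3) ∧
      ∀ v' : ι → ℤ, (∀ i, |(v' i : ℝ) - (Q i).eval (x : ℝ)| ≤ C + 3) →
        ‖corr S F G v'‖ ≤ ‖corr S F G v‖ := by
    intro x
    have hmem : ∀ v : ι → ℤ, v ∈ Fintype.piFinset (fun i => Icc ⌈(Q i).eval (x : ℝ) - (C + 3)⌉
        ⌊(Q i).eval (x : ℝ) + (C + 3)⌋) ↔ ∀ i, |(v i : ℝ) - (Q i).eval (x : ℝ)| ≤ C + 3 := by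
      intro v
      simp only [Fintype.mem_piFinset, mem_Icc, Int.ceil_le, Int.le_floor, abs_le]
      exact forall_congr' fun i => ⟨fun h => ⟨by linarith [h.1], by linarith [h.2]⟩,
        fun h => ⟨by linarith [h.1], by linarith [h.2]⟩⟩
    obtain ⟨v, hv, hmax⟩ := exists_max_image _ (fun v => ‖corr S F G v‖)
      ⟨fun i => ⌊(Q i).eval (x : ℝ)⌋, (hmem _).2 fun i => by
        have h1 := Int.floor_le ((Q i).eval (x : ℝ))
        have h2 := Int.lt_floor_add_one ((Q i).eval (x : ℝ))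
        have := hC i
        rw [abs_le]; constructor <;> linarith⟩
    exact ⟨v, (hmem v).1 hv, fun v' hv' => hmax v' ((hmem v').2 hv')⟩
  choose a' ha' hmax using hex
  refine ⟨fun i x => a' x i, fun i x => ha' x i, ?_⟩
  set T : Finset (ι → ℤ) := Fintype.piFinset fun _ : ι => Icc (-(k : ℤ)) k with hT
  have hTc : (T.card : ℝ) ≤ R := by
    rw [hT, Fintype.card_piFinset, prod_const, card_univ, Int.card_Icc, hR]
    have : ((k : ℤ) + 1 - -(k : ℤ)).toNat = 2 * k + 1 := by omega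
    rw [this]
    push_cast
    exact pow_le_pow_right₀ (by linarith [(Nat.cast_nonneg k : (0 : ℝ) ≤ k)]) hι
  set c : (ι → ℤ) → ℕ → ℝ := fun n x =>
    ‖dwC S F G fun i => (Q i).eval (x : ℝ) - n i / 2‖ with hc
  set A : ℝ := 𝔼 x ∈ range L, ‖corr S F G (a' x)‖ with hA
  have hkC : ∀ _ : ι, (k : ℝ) ≤ 2 * C + 2 := fun i => by
    have := Nat.ceil_lt_add_one (show 0 ≤ 2 * |C| by positivity)
    rw [abs_of_nonneg (hC i)] at this
    rw [hk, abs_of_nonneg (hC i)]; push_cast; linarith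
  have hca : ∀ n ∈ T, ∀ x, c n x ≤ ‖corr S F G (a' x)‖ := by
    intro n hn x
    refine dwC_le S hF hG _ fun t ht0 ht1 => hmax x _ fun i => ?_
    have hn' := mem_Icc.1 (Fintype.mem_piFinset.1 hn i)
    have h1 : -(k : ℝ) ≤ n i := by exact_mod_cast hn'.1
    have h2 : (n i : ℝ) ≤ k := by exact_mod_cast hn'.2
    have h3 := Int.floor_le (t + ((Q i).eval (x : ℝ) - n i / 2))
    have h4 := Int.lt_floor_add_one (t + ((Q i).eval (x : ℝ) - n i / 2))
    have h5 := hkC i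
    rw [abs_le]; constructor <;> linarith
  -- the mean of the majorant
  have hmean : 𝔼 x ∈ range L, nuI 0 z ((y + x : ℕ) : ℤ) ≤ 3 := by
    have h := hy L y hL' _ _ (dwSusp S) Empty (by simp) (fun _ => 0) (fun i => i.elim)
      (fun _ => 1) (fun _ _ => 1) B1.one (fun i => i.elim)
    have h1 := dw_read hL1 (z := z) (w := w) (e := e0 / u ^ 2) (fun _ => 1) (by
      simpa [corr] using h)
    have h2 := dw_mean (y := y) hL1 hwL
    have h3 : e0 / u ^ 2 ≤ 1 := by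
      rw [div_le_one (by positivity)]; nlinarith [min_le_left 1 (dwM ^ 2 * ε ^ 2 / (48 * R))]
    simp only [mul_one] at h1
    linarith
  -- one pattern
  have hone : ∀ n ∈ T, 𝔼 x ∈ range L, nuI 0 z ((y + x : ℕ) : ℤ) * c n x ^ 2 ≤
      (Vp 0 w)⁻¹ * A + e0 / u ^ 2 := by
    intro n hn
    have h := hy L y hL' _ _ (dwSq (dwSusp S)) ι hι
      (fun i => Polynomial.taylor (-(y : ℝ)) (Q i - Polynomial.C (n i / 2 : ℝ)))
      (fun i => by rw [Polynomial.natDegree_taylor, Polynomial.natDegree_sub_C]; exact hQ i)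
      _ _ (dw_B1_sq (dw_B1_F hF)) (fun i => dw_B1_sq (dw_B1_G (hG i)))
    have h1 := dw_read hL1 (z := z) (w := w) (e := e0 / u ^ 2) (fun x => ‖dwC S F G fun i =>
      (Polynomial.taylor (-(y : ℝ)) (Q i - Polynomial.C (n i / 2 : ℝ))).eval (x : ℝ)‖ ^ 2) (by
        refine le_of_eq_of_le ?_ h
        congr 1
        refine sum_congr rfl fun x _ => ?_
        rw [dwC, ← dw_corr_sq])
    have h2 : ∀ x : ℕ, (fun i => (Polynomial.taylor (-(y : ℝ))
        (Q i - Polynomial.C (n i / 2 : ℝ))).eval ((((y + x : ℕ) : ℤ) : ℝ))) =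
          fun i => (Q i).eval (x : ℝ) - n i / 2 := by
      intro x; funext i
      rw [Polynomial.taylor_eval]
      simp
    simp only [h2] at h1
    refine h1.trans (add_le_add_left ?_ _)
    rw [hA, mul_expect]
    refine expect_le_expect fun x _ => ?_
    have h3 := hca n hn x
    have h4 := norm_corr_le S hF hG (a' x)
    have h5 : 0 ≤ c n x := norm_nonneg _
    exact mul_le_mul (nuI_le _ _ _) (show c n x ^ 2 ≤ _ by nlinarith) (by positivity)
      (by positivity)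
  set pat : ℕ → ι → ℤ := fun x i => ⌊2 * ((Q i).eval (x : ℝ) - a i x)⌋ with hpat
  have hpT : ∀ x, x < L → pat x ∈ T := by
    intro x hx
    refine Fintype.mem_piFinset.2 fun i => mem_Icc.2 ?_
    have h1 := abs_le.1 (ha i x hx)
    have h2 := Nat.le_ceil (2 * |C|)
    rw [abs_of_nonneg (hC i)] at h2
    have h3 : (k : ℝ) = ⌈2 * C⌉₊ + 1 := by rw [hk, abs_of_nonneg (hC i)]; push_cast; rfl
    constructor
    · refine Int.le_floor.2 ?_
      push_cast; linarith [h1.2]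
    · refine Int.floor_le_iff.2 ?_
      push_cast; linarith [h1.1]
  have hsplit := pat_split L T pat hpT (fun n x => nuI 0 z ((y + x : ℕ) : ℤ) * c n x ^ 2)
    fun n x => mul_nonneg (nuI_nonneg _ _ _) (sq_nonneg _)
  have hA0 : 0 ≤ A := expect_nonneg fun _ _ => norm_nonneg _
  have hsum : 𝔼 x ∈ range L, nuI 0 z ((y + x : ℕ) : ℤ) * c (pat x) x ^ 2 ≤
      R * ((Vp 0 w)⁻¹ * A + e0 / u ^ 2) := by
    refine hsplit.trans ((sum_le_card_nsmul _ _ _ hone).trans ?_)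
    rw [nsmul_eq_mul]
    exact mul_le_mul_of_nonneg_right hTc (by positivity)
  have hpt : ∀ x ∈ range L, th (y + x) * ‖corr S F G fun i => a i x‖ ≤
      2 * u * η * nuI 0 z ((y + x : ℕ) : ℤ) +
        2 * u / (dwM ^ 2 * η) * (nuI 0 z ((y + x : ℕ) : ℤ) * c (pat x) x ^ 2) := by
    intro x hx
    have hx' := mem_range.1 hx
    have h1 : c (pat x) x = dwM * ‖corr S F G fun i => a i x‖ := by
      refine dwC_exact S hF hG _ _ (fun i => ?_) fun i => ?_
      · have := Int.floor_le (2 * ((Q i).eval (x : ℝ) - a i x))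
        simp only [hpat]; linarith
      · have := Int.lt_floor_add_one (2 * ((Q i).eval (x : ℝ) - a i x))
        simp only [hpat]; linarith
    have h2 := dw_th hy2 hu (show x ≤ y by omega)
    have h3 := nuI_nonneg 0 z ((y + x : ℕ) : ℤ)
    set t := ‖corr S F G fun i => a i x‖
    have ht : 0 ≤ t := norm_nonneg _
    have h4 : t ≤ η + t ^ 2 / η := by
      rw [add_div' _ _ _ hηp.ne', le_div_iff₀ hηp]; nlinarith [sq_nonneg (t - η)]
    rw [h1]
    calc th (y + x) * t ≤ 2 * u * nuI 0 z ((y + x : ℕ) : ℤ) * (η + t ^ 2 / η) :=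
          mul_le_mul h2 h4 ht (by positivity)
      _ = _ := by field_simp
  refine (expect_le_expect hpt).trans ?_
  rw [expect_add_distrib, ← mul_expect, ← mul_expect]
  have e1 : 2 * u * η * 3 = ε / 2 := by rw [hη]; field_simp; ring
  have e2 : 2 * u / (dwM ^ 2 * η) * (R * (e0 / u ^ 2)) ≤ ε / 2 := by
    have h1 : e0 ≤ dwM ^ 2 * ε ^ 2 / (48 * R) := min_le_right _ _
    rw [le_div_iff₀ (by positivity)] at h1
    have h2 : 2 * u / (dwM ^ 2 * η) * (R * (e0 / u ^ 2)) = e0 * (48 * R) / (2 * dwM ^ 2 * ε) := by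
      rw [hη]; field_simp; ring
    rw [h2, div_le_iff₀ (by positivity)]
    nlinarith
  have e3 := mul_le_mul_of_nonneg_left hmean (show 0 ≤ 2 * u * η by positivity)
  have e4 := mul_le_mul_of_nonneg_left hsum (show 0 ≤ 2 * u / (dwM ^ 2 * η) by positivity)
  have e5 : 2 * u / (dwM ^ 2 * η) * (R * ((Vp 0 w)⁻¹ * A + e0 / u ^ 2)) =
      2 * u * (R * (Vp 0 w)⁻¹ / (dwM ^ 2 * η)) * A +
        2 * u / (dwM ^ 2 * η) * (R * (e0 / u ^ 2)) := by ring
  linarith

end Pool.Agent.MP_357fb4_an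

end
end

section

/-!
The effective degree on short intervals.
-/

open scoped BigOperators Classical ComplexConjugate Polynomial
open Finset Filter MeasureTheory Topology

noncomputable section

namespace Pool.Agent.MP_357fb4_an

lemma Eff_le_Ly (m y : ℕ) : m ≤ Ly y ↔ m ^ 3 ≤ y ^ 2 := by
  have h0 : (0 : ℝ) ≤ (y : ℝ) ^ (2 / 3 : ℝ) := Real.rpow_nonneg (Nat.cast_nonneg _) _
  have h3 : ((y : ℝ) ^ (2 / 3 : ℝ)) ^ 3 = (y : ℝ) ^ 2 := by
    rw [← Real.rpow_natCast, ← Real.rpow_mul (Nat.cast_nonneg _)]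
    norm_num
  rw [Ly, Nat.le_floor_iff h0, ← pow_le_pow_iff_left₀ (Nat.cast_nonneg m) h0 (n := 3) (by norm_num),
    h3]
  exact_mod_cast Iff.rfl

lemma Eff_Ly_cube (y : ℕ) : Ly y ^ 3 ≤ y ^ 2 := (Eff_le_Ly _ _).1 le_rfl

lemma Eff_Ly_succ (y : ℕ) : y ^ 2 < (Ly y + 1) ^ 3 := by
  by_contra h
  have := (Eff_le_Ly (Ly y + 1) y).2 (not_lt.1 h)
  omega

lemma Eff_Ly_le (y : ℕ) : Ly y ≤ y := by
  by_contra h
  have h1 : y + 1 ≤ Ly y := by omega
  have h2 := (Eff_le_Ly _ _).1 h1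
  nlinarith [Nat.zero_le y, Nat.zero_le (y ^ 2), Nat.zero_le (y ^ 3)]

lemma Eff_one_le_Ly {y : ℕ} (hy : 1 ≤ y) : 1 ≤ Ly y :=
  (Eff_le_Ly _ _).2 (by simpa using Nat.one_le_pow 2 y hy)

lemma Eff_Ly_mono {y n : ℕ} (h : y ≤ n) : Ly y ≤ Ly n :=
  (Eff_le_Ly _ _).2 ((Eff_Ly_cube y).trans (Nat.pow_le_pow_left h 2))

theorem smo_Ly : Smo Ly := by
  filter_upwards [eventually_ge_atTop 6] with n hn
  refine ⟨Eff_one_le_Ly (by omega), Eff_Ly_le n, fun y hy h => ⟨?_, Eff_Ly_mono hy⟩⟩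
  obtain ⟨k, rfl⟩ := Nat.exists_eq_add_of_le hy
  have hk : y + k - y = k := by omega
  rw [hk] at h ⊢
  have h1 : 2 * k + 1 ≤ Ly (y + k) := h
  have h2 := (Eff_le_Ly _ _).1 h1
  have h3 : k + 1 ≤ y := by have := Eff_Ly_le (y + k); omega
  have h4 : (y + k) ^ 2 ≤ (2 * y) ^ 2 := Nat.pow_le_pow_left (by omega) 2
  refine (Eff_le_Ly (k + 1) y).2 ?_
  rcases Nat.lt_or_ge k 2 with hk2 | hk2
  · have h5 : 3 ^ 2 ≤ y ^ 2 := Nat.pow_le_pow_left (by omega) 2
    have h6 : (k + 1) ^ 3 ≤ 2 ^ 3 := Nat.pow_le_pow_left (by omega) 3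
    omega
  · obtain ⟨j, rfl⟩ := Nat.exists_eq_add_of_le hk2
    have h7 : 4 * (2 + j + 1) ^ 3 ≤ (2 * (2 + j) + 1) ^ 3 := by
      nlinarith [Nat.zero_le j, Nat.zero_le (j ^ 2), Nat.zero_le (j ^ 3)]
    have h8 : (2 * y) ^ 2 = 4 * y ^ 2 := by ring
    omega

theorem Ly_range : ∀ᶠ y : ℕ in atTop, Real.sqrt y ≤ Ly y ∧ Ly y ≤ y := by
  filter_upwards [eventually_ge_atTop 6] with y hy
  refine ⟨?_, Eff_Ly_le y⟩
  rw [Real.sqrt_le_left (Nat.cast_nonneg _)]
  have h : y ≤ Ly y ^ 2 := by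
    by_contra h
    have h1 : Ly y ^ 2 ≤ y := by omega
    have h2 := Eff_Ly_succ y
    have h3 : (Ly y ^ 2) ^ 2 ≤ y ^ 2 := Nat.pow_le_pow_left h1 2
    have h4 : 6 ^ 2 ≤ y ^ 2 := Nat.pow_le_pow_left hy 2
    rcases Nat.lt_or_ge (Ly y) 3 with h5 | h5
    · have h6 : (Ly y + 1) ^ 3 ≤ 3 ^ 3 := Nat.pow_le_pow_left (by omega) 3
      omega
    · obtain ⟨j, hj⟩ := Nat.exists_eq_add_of_le h5
      rw [hj] at h2 h3
      nlinarith [Nat.zero_le j, Nat.zero_le (j ^ 2), Nat.zero_le (j ^ 3), Nat.zero_le (j ^ 4)]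
  exact_mod_cast h

theorem tendsto_Ly : Tendsto (fun y => (Ly y : ℝ)) atTop atTop := by
  refine tendsto_atTop_mono' atTop (Ly_range.mono fun y hy => hy.1) ?_
  exact Real.tendsto_sqrt_atTop.comp tendsto_natCast_atTop_atTop

lemma Eff_cube_le {a C : ℝ} (h : a ^ 3 ≤ C) : a ≤ max 1 C := by
  by_contra hlt
  rw [not_le, max_lt_iff] at hlt
  have h1 : a ^ 1 ≤ a ^ 3 := pow_le_pow_right₀ hlt.1.le (by norm_num)
  rw [pow_one] at h1
  linarith [hlt.2]

/-- Upper bound at scale Ly. -/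
lemma Eff_up {v t C : ℝ} {e y : ℕ} (h : |v ^ 3 * t ^ (2 * e)| ≤ C) (ht : (y : ℝ) ≤ 2 * t) :
    |v| * (Ly y : ℝ) ^ e ≤ max 1 (4 ^ e * C) := by
  refine Eff_cube_le ?_
  have hy : (0 : ℝ) ≤ y := Nat.cast_nonneg _
  have ht0 : 0 ≤ t := by linarith
  have h1 : (Ly y : ℝ) ^ 3 ≤ (y : ℝ) ^ 2 := by exact_mod_cast Eff_Ly_cube y
  have h2 : (y : ℝ) ^ 2 ≤ 4 * t ^ 2 := by nlinarith
  have h3 : ((Ly y : ℝ) ^ 3) ^ e ≤ (4 * t ^ 2) ^ e :=
    pow_le_pow_left₀ (by positivity) (h1.trans h2) e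
  rw [abs_mul, abs_pow, abs_of_nonneg (pow_nonneg ht0 _)] at h
  calc (|v| * (Ly y : ℝ) ^ e) ^ 3 = |v| ^ 3 * ((Ly y : ℝ) ^ 3) ^ e := by
        rw [mul_pow, ← pow_mul, ← pow_mul, mul_comm e 3]
    _ ≤ |v| ^ 3 * (4 * t ^ 2) ^ e := by gcongr
    _ = 4 ^ e * (|v| ^ 3 * t ^ (2 * e)) := by rw [mul_pow, ← pow_mul]; ring
    _ ≤ 4 ^ e * C := by gcongr

/-- Lower bound at scale Ly. -/
lemma Eff_low {v M : ℝ} {e y : ℕ} (hy : 1 ≤ y)
    (h : 8 ^ e * M ^ 3 ≤ |v ^ 3 * (y : ℝ) ^ (2 * e)|) : M ≤ |v| * (Ly y : ℝ) ^ e := by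
  have hL : (1 : ℝ) ≤ Ly y := by exact_mod_cast Eff_one_le_Ly hy
  have h1 : (y : ℝ) ^ 2 ≤ ((Ly y : ℝ) + 1) ^ 3 := by exact_mod_cast (Eff_Ly_succ y).le
  have h2 : ((Ly y : ℝ) + 1) ^ 3 ≤ (2 * (Ly y : ℝ)) ^ 3 :=
    pow_le_pow_left₀ (by positivity) (by linarith) 3
  have h3 : ((y : ℝ) ^ 2) ^ e ≤ ((2 * (Ly y : ℝ)) ^ 3) ^ e :=
    pow_le_pow_left₀ (by positivity) (h1.trans h2) e
  rw [abs_mul, abs_pow, abs_of_nonneg (by positivity : (0 : ℝ) ≤ (y : ℝ) ^ (2 * e)), pow_mul] at h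
  refine le_of_pow_le_pow_left₀ (n := 3) (by norm_num) (by positivity) ?_
  have h8 : (0 : ℝ) < 8 ^ e := by positivity
  refine le_of_mul_le_mul_left ?_ h8
  calc 8 ^ e * M ^ 3 ≤ |v| ^ 3 * ((y : ℝ) ^ 2) ^ e := h
    _ ≤ |v| ^ 3 * ((2 * (Ly y : ℝ)) ^ 3) ^ e := by gcongr
    _ = 8 ^ e * (|v| * (Ly y : ℝ) ^ e) ^ 3 := by
        rw [mul_pow (2 : ℝ), mul_pow, mul_pow, ← pow_mul (Ly y : ℝ), ← pow_mul (Ly y : ℝ),
          mul_comm e 3]
        norm_num
        ring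

/-- A function with an integrable derivative is bounded. -/
lemma Eff_bdd {f f' : ℝ → ℝ} {T C : ℝ} (hT : 1 ≤ T) (hd : ∀ t, T ≤ t → HasDerivAt f (f' t) t)
    (hC : ∀ t, T ≤ t → |f' t| ^ 3 * t ^ 4 ≤ C) : ∃ K : ℝ, ∀ t, T ≤ t → |f t| ≤ K := by
  set c : ℝ := max 1 C with hc
  have hc0 : 0 ≤ c := le_trans zero_le_one (le_max_left _ _)
  refine ⟨|f T| + 3 * c * T ^ (-1 / 3 : ℝ), fun t ht => ?_⟩
  have hB : ∀ x, T ≤ x → HasDerivAt
      (fun s : ℝ => |f T| + 3 * c * T ^ (-1 / 3 : ℝ) - 3 * c * s ^ (-1 / 3 : ℝ))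
      (c * x ^ (-4 / 3 : ℝ)) x := by
    intro x hx
    have hx0 : x ≠ 0 := by linarith [hT.trans hx] |> ne_of_gt
    have h1 := ((Real.hasDerivAt_rpow_const (p := (-1 / 3 : ℝ)) (Or.inl hx0)).const_mul
      (3 * c)).const_sub (|f T| + 3 * c * T ^ (-1 / 3 : ℝ))
    refine h1.congr_deriv ?_
    rw [show (-1 / 3 - 1 : ℝ) = -4 / 3 by norm_num]
    ring
  have key := image_norm_le_of_norm_deriv_right_le_deriv_boundary' (f := f) (f' := f') (a := T)
    (b := t) (fun x hx => (hd x hx.1).continuousAt.continuousWithinAt)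
    (fun x hx => (hd x hx.1).hasDerivWithinAt)
    (B := fun s : ℝ => |f T| + 3 * c * T ^ (-1 / 3 : ℝ) - 3 * c * s ^ (-1 / 3 : ℝ))
    (B' := fun x => c * x ^ (-4 / 3 : ℝ)) (by simp)
    (fun x hx => (hB x hx.1).continuousAt.continuousWithinAt)
    (fun x hx => (hB x hx.1).hasDerivWithinAt) (fun x hx => ?_) (x := t) ⟨ht, le_rfl⟩
  · have h2 : 0 ≤ 3 * c * t ^ (-1 / 3 : ℝ) :=
      mul_nonneg (by positivity) (Real.rpow_nonneg (by linarith) _)
    rw [Real.norm_eq_abs] at key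
    linarith
  · have hx0 : 0 < x := by linarith [hx.1]
    have h3 : (x ^ (4 / 3 : ℝ)) ^ 3 = x ^ 4 := by
      rw [← Real.rpow_natCast, ← Real.rpow_mul hx0.le]
      norm_num
    have h4 : |f' x| * x ^ (4 / 3 : ℝ) ≤ c := by
      refine Eff_cube_le ?_
      rw [mul_pow, h3]
      exact hC x hx.1
    have h5 : 0 < x ^ (4 / 3 : ℝ) := Real.rpow_pos_of_pos hx0 _
    rw [Real.norm_eq_abs, show (-4 / 3 : ℝ) = -(4 / 3) by norm_num, Real.rpow_neg hx0.le,
      ← div_eq_mul_inv, le_div_iff₀ h5]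
    exact h4

theorem eff (H : HF) {g : ℝ → ℝ} (hg : g ∈ H.car) {A : ℕ} (h : ∀ᶠ t in atTop, |g t| ≤ t ^ A) :
    (∃ C : ℝ, ∀ᶠ y : ℕ in atTop, ∀ s t : ℝ, (y : ℝ) - 1 ≤ s → s ≤ y + Ly y → (y : ℝ) - 1 ≤ t →
      t ≤ y + Ly y → |g s - g t| ≤ C) ∨
    ∃ (D : ℕ) (C : ℝ), ∀ Ω : ℝ, ∀ᶠ y : ℕ in atTop, ∃ Q : ℝ[X], Q.natDegree ≤ D ∧
      Cls C Ω (Ly y) Q ∧ ∀ x : ℕ, x < Ly y → |g ((y + x : ℕ) : ℝ) - Q.eval (x : ℝ)| ≤ C := by
  have hsm := H.sm hg h
  let u : ℕ → ℝ → ℝ := fun e t => deriv^[e] g t ^ 3 * t ^ (2 * e)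
  have hu : ∀ e, u e ∈ H.car := fun e =>
    H.mul _ _ (H.pow (H.iter hg e) 3) (H.pow H.ident (2 * e))
  let P : ℕ → Prop := fun e => ∃ C, ∀ᶠ t in atTop, |u e t| ≤ C
  have hP : ∃ e, P (e + 1) := by
    refine ⟨3 * A + 2, 1, ?_⟩
    filter_upwards [hsm (3 * A + 2 + 1), eventually_ge_atTop 1] with t ht ht1
    have ht0 : 0 < t := by linarith
    have h1 := pow_le_pow_left₀ (abs_nonneg _) ht.2 3
    simp only [u]
    rw [abs_mul, abs_pow, abs_of_nonneg (pow_nonneg ht0.le _)]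
    refine (mul_le_mul_of_nonneg_right h1 (pow_nonneg ht0.le _)).trans (le_of_eq ?_)
    field_simp
    ring
  by_cases h1 : P 1
  · left
    obtain ⟨C, hC⟩ := h1
    obtain ⟨T, hT⟩ := eventually_atTop.1 (hC.and (H.diff g hg))
    refine ⟨2 * max 1 (4 ^ 1 * C), ?_⟩
    filter_upwards [eventually_ge_atTop 2,
      tendsto_natCast_atTop_atTop.eventually_ge_atTop (T + 1)] with y hy2 hyT s t hs hs' ht ht'
    have hy2' : (2 : ℝ) ≤ y := by exact_mod_cast hy2
    have hL : (1 : ℝ) ≤ Ly y := by exact_mod_cast Eff_one_le_Ly (by omega)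
    have hc0 : 0 ≤ max 1 (4 ^ 1 * C) := le_trans zero_le_one (le_max_left _ _)
    have key := Convex.norm_image_sub_le_of_norm_deriv_le (𝕜 := ℝ) (f := g)
      (s := Set.Icc ((y : ℝ) - 1) (y + Ly y)) (C := max 1 (4 ^ 1 * C) / Ly y)
      (fun x hx => (hT x (by linarith [hx.1])).2) (fun x hx => ?_) (convex_Icc _ _)
      (x := t) (y := s) ⟨ht, ht'⟩ ⟨hs, hs'⟩
    · rw [Real.norm_eq_abs, Real.norm_eq_abs] at key
      refine key.trans ?_
      have h2 : |s - t| ≤ 2 * Ly y := by rw [abs_le]; constructor <;> linarith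
      calc max 1 (4 ^ 1 * C) / Ly y * |s - t| ≤ max 1 (4 ^ 1 * C) / Ly y * (2 * Ly y) := by
            gcongr
        _ = 2 * max 1 (4 ^ 1 * C) := by field_simp
    · have h3 := Eff_up (y := y) (hT x (by linarith [hx.1])).1 (by linarith [hx.1])
      rw [Real.norm_eq_abs, le_div_iff₀ (by linarith)]
      simpa using h3
  · right
    obtain ⟨d, hd1, hd, hd'⟩ : ∃ d, 1 ≤ d ∧ ¬ P d ∧ P (d + 1) := by
      have h0 : Nat.find hP ≠ 0 := fun h0 => h1 (by simpa [h0] using Nat.find_spec hP)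
      refine ⟨Nat.find hP, by omega, ?_, Nat.find_spec hP⟩
      have h2 := Nat.find_min hP (m := Nat.find hP - 1) (by omega)
      rwa [show Nat.find hP - 1 + 1 = Nat.find hP by omega] at h2
    have hlim : Tendsto (fun t => |u d t|) atTop atTop := (H.bdd_or (hu d)).resolve_left hd
    obtain ⟨C, hC⟩ := hd'
    obtain ⟨T₀, hT₀, hder⟩ := hsm.thr d
    obtain ⟨T₁, hT₁⟩ := eventually_atTop.1 hC
    obtain ⟨K, hK⟩ := Eff_bdd (f := deriv^[d] g) (f' := deriv^[d + 1] g) (T := max T₀ T₁) (C := C)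
      (hT₀.trans (le_max_left _ _))
      (fun t ht => (hder d le_rfl t ((le_max_left _ _).trans ht)).1) (fun t ht => by
        have ht1 : 1 ≤ t := hT₀.trans ((le_max_left _ _).trans ht)
        have h2 := hT₁ t ((le_max_right _ _).trans ht)
        simp only [u] at h2
        rw [abs_mul, abs_pow, abs_of_nonneg (pow_nonneg (by linarith : (0 : ℝ) ≤ t) _)] at h2
        refine le_trans ?_ h2
        exact mul_le_mul_of_nonneg_left (pow_le_pow_right₀ ht1 (by omega)) (by positivity))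
    set c : ℝ := max 1 (4 ^ (d + 1) * C) with hc
    have hc0 : 0 ≤ c := le_trans zero_le_one (le_max_left _ _)
    refine ⟨d, max (max d K) c, fun Ω => ?_⟩
    have hM : (0 : ℝ) < d.factorial * max 1 Ω :=
      mul_pos (by exact_mod_cast d.factorial_pos) (lt_of_lt_of_le one_pos (le_max_left _ _))
    filter_upwards [eventually_ge_atTop 1,
      tendsto_natCast_atTop_atTop.eventually_ge_atTop (max T₀ T₁),
      (hlim.comp tendsto_natCast_atTop_atTop).eventually_ge_atTop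
        (8 ^ d * (d.factorial * max 1 Ω) ^ 3)] with y hy1 hyT hyu
    have hL : (1 : ℝ) ≤ Ly y := by exact_mod_cast Eff_one_le_Ly hy1
    have hy0 : (0 : ℝ) ≤ y := Nat.cast_nonneg _
    have hlow := Eff_low (v := deriv^[d] g y) hy1 hyu
    obtain ⟨Q, hQd, hQc, hQ⟩ := tay (fun j => deriv^[j] g) d y (Ly y) (c / (Ly y : ℝ) ^ (d + 1))
      (fun j hj t ht => (hder j hj t ((le_max_left _ _).trans (hyT.trans ht.1))).1)
      (fun t ht => by
        have h3 := Eff_up (y := y) (hT₁ t ((le_max_right _ _).trans (hyT.trans ht.1)))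
          (by linarith [ht.1])
        rw [le_div_iff₀ (by positivity)]
        exact h3)
    have hfac : (1 : ℝ) ≤ d.factorial := by exact_mod_cast d.factorial_pos
    have hv : deriv^[d] g y ≠ 0 := by
      intro h0
      rw [h0, abs_zero, zero_mul] at hlow
      linarith
    have hcd : Q.coeff d = deriv^[d] g y / d.factorial := hQc d le_rfl
    have hdeg : Q.natDegree = d :=
      le_antisymm hQd (Polynomial.le_natDegree_of_ne_zero (by
        rw [hcd]; exact div_ne_zero hv (by linarith)))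
    have hlc : |Q.leadingCoeff| = |deriv^[d] g y| / d.factorial := by
      rw [Polynomial.leadingCoeff, hdeg, hcd, abs_div, abs_of_pos (by linarith : (0 : ℝ) < d.factorial)]
    refine ⟨Q, hQd, ⟨by omega, ?_, ?_, ?_⟩, fun x hx => ?_⟩
    · rw [hdeg]; exact (le_max_left _ _).trans (le_max_left _ _)
    · rw [hlc]
      refine le_trans ?_ ((le_max_right _ _).trans (le_max_left _ _))
      exact (div_le_self (abs_nonneg _) hfac).trans (hK y hyT)
    · rw [hlc, hdeg, div_mul_eq_mul_div, le_div_iff₀ (by linarith)]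
      refine le_trans ?_ hlow
      rw [mul_comm]
      exact mul_le_mul_of_nonneg_left (le_max_right _ _) (by linarith)
    · have hx' : (x : ℝ) ≤ Ly y := by exact_mod_cast hx.le
      have h4 := hQ x ⟨Nat.cast_nonneg _, hx'⟩
      simp only [Function.iterate_zero, id_eq] at h4
      rw [Nat.cast_add]
      refine h4.trans (le_trans ?_ (le_max_right _ _))
      calc c / (Ly y : ℝ) ^ (d + 1) * (x : ℝ) ^ (d + 1)
          ≤ c / (Ly y : ℝ) ^ (d + 1) * (Ly y : ℝ) ^ (d + 1) := by gcongr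
        _ = c := by field_simp

end Pool.Agent.MP_357fb4_an

end
end

section

/-!
Seminorm control along the primes.
-/

open scoped BigOperators Classical ComplexConjugate Polynomial
open Finset Filter MeasureTheory Topology

noncomputable section

namespace Pool.Agent.MP_357fb4_an

variable {Y : Type} [MeasurableSpace Y] {μ : Measure Y} [IsProbabilityMeasure μ]

lemma SC0_bdd {ι : Type} [Fintype ι] {f : ι → ℕ → ℝ} {C : ℝ}
    (h : ∀ᶠ n in atTop, ∀ i, |f i n| ≤ C) : ∃ B : ℝ, ∀ i n, |f i n| ≤ B := by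
  obtain ⟨N, hN⟩ := eventually_atTop.1 h
  have h0 : ∀ i, 0 ≤ ∑ n ∈ range N, |f i n| := fun i => sum_nonneg fun _ _ => abs_nonneg _
  refine ⟨|C| + ∑ i, ∑ n ∈ range N, |f i n|, fun i n => ?_⟩
  rcases le_or_gt N n with h1 | h1
  · have := hN n h1 i
    have := le_abs_self C
    have := sum_nonneg fun i (_ : i ∈ univ) => h0 i
    linarith
  · have h2 : |f i n| ≤ ∑ n ∈ range N, |f i n| :=
      single_le_sum (f := fun n => |f i n|) (fun _ _ => abs_nonneg _) (mem_range.2 h1)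
    have h3 : ∑ n ∈ range N, |f i n| ≤ ∑ i, ∑ n ∈ range N, |f i n| :=
      single_le_sum (f := fun i => ∑ n ∈ range N, |f i n|) (fun i _ => h0 i) (mem_univ i)
    have := abs_nonneg C
    linarith

lemma SC0_cls {C C' Ω L : ℝ} {Q : ℝ[X]} (h : Cls C Ω L Q) (hC : C ≤ C') : Cls C' Ω L Q :=
  ⟨h.1, h.2.1.trans hC, h.2.2.1.trans hC, h.2.2.2⟩

lemma SC0_th (n : ℕ) : 0 ≤ th n := by
  unfold th
  split_ifs
  · exact Real.log_natCast_nonneg n
  · exact le_rfl

/-- uniform data for a finite family -/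
lemma SC0_data (H : HF) {ι : Type} [Fintype ι] (g : ι → ℝ → ℝ) (hg : ∀ i, g i ∈ H.car) (A : ℕ)
    (hA : ∀ i, ∀ᶠ t in atTop, |g i t| ≤ t ^ A) : ∃ (cl : ι → Prop) (D : ℕ) (C : ℝ),
      (∀ᶠ y : ℕ in atTop, ∀ i, cl i → |g i y - g i (y - 1)| ≤ C) ∧
      ∀ Ω : ℝ, ∀ᶠ y : ℕ in atTop, ∀ i, ∃ Q : ℝ[X], Q.natDegree ≤ D ∧
        (cl i → Q.natDegree = 0 ∧ Q.eval 0 = g i y) ∧ (¬ cl i → Cls C Ω (Ly y) Q) ∧
          ∀ x : ℕ, x < Ly y → |g i ((y + x : ℕ) : ℝ) - Q.eval (x : ℝ)| ≤ C := by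
  have h1 : ∀ i, ∃ (c : Prop) (D : ℕ) (C : ℝ),
      (∀ᶠ y : ℕ in atTop, c → |g i y - g i (y - 1)| ≤ C) ∧
      ∀ Ω : ℝ, ∀ᶠ y : ℕ in atTop, ∃ Q : ℝ[X], Q.natDegree ≤ D ∧
        (c → Q.natDegree = 0 ∧ Q.eval 0 = g i y) ∧ (¬ c → Cls C Ω (Ly y) Q) ∧
          ∀ x : ℕ, x < Ly y → |g i ((y + x : ℕ) : ℝ) - Q.eval (x : ℝ)| ≤ C := by
    intro i
    rcases eff H (hg i) (hA i) with ⟨C, h⟩ | ⟨D, C, h⟩
    · refine ⟨True, 0, C, h.mono fun y hy _ => ?_, fun Ω => h.mono fun y hy => ?_⟩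
      · have : (0 : ℝ) ≤ Ly y := Nat.cast_nonneg _
        exact hy _ _ (by linarith) (by linarith) le_rfl (by linarith)
      · refine ⟨Polynomial.C (g i y), by simp, fun _ => by simp, fun h => absurd trivial h,
          fun x hx => ?_⟩
        have h2 : (x : ℝ) ≤ Ly y := by exact_mod_cast hx.le
        have h3 : (0 : ℝ) ≤ x := Nat.cast_nonneg _
        rw [Polynomial.eval_C]
        exact hy _ _ (by push_cast; linarith) (by push_cast; linarith) (by linarith) (by linarith)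
    · refine ⟨False, D, C, Eventually.of_forall fun _ h => h.elim, fun Ω => (h Ω).mono ?_⟩
      rintro y ⟨Q, h2, h3, h4⟩
      exact ⟨Q, h2, fun h => h.elim, fun _ => h3, h4⟩
  choose cl D C h2 h3 using h1
  have hC : ∀ i, C i ≤ ∑ j, |C j| := fun i => (le_abs_self _).trans
    (single_le_sum (f := fun j => |C j|) (fun _ _ => abs_nonneg _) (mem_univ i))
  refine ⟨cl, univ.sup D, ∑ j, |C j|, ?_, fun Ω => ?_⟩
  · exact eventually_all.2 fun i => (h2 i).mono fun y hy hc => (hy hc).trans (hC i)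
  · refine eventually_all.2 fun i => (h3 i Ω).mono ?_
    rintro y ⟨Q, h4, h5, h6, h7⟩
    exact ⟨Q, h4.trans (le_sup (mem_univ i)), h5, fun h => SC0_cls (h6 h) (hC i),
      fun x hx => (h7 x hx).trans (hC i)⟩

theorem sc0 (H : HF) {W : ℝ → ℝ} (hWH : W ∈ H.car) {T : ℕ} (hW : Wt W T) (S : Sys ℤ Y μ)
    {ι : Type} [Fintype ι] (g : ι → ℝ → ℝ) (hg : ∀ i, Adm H W (g i)) (A : ℕ)
    (hA : ∀ i, ∀ᶠ t in atTop, |g i t| ≤ t ^ A) :
    ∃ s, 1 ≤ s ∧ Ctl S s (lam W T) fun i n => g i n := by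
  obtain ⟨cl, D, C, hc1, hc2⟩ := SC0_data H g (fun i => (hg i).1) A hA
  let t : ℕ → ℝ := fun n => max ((n : ℝ) - 1) T
  let w : ℕ → ℝ := fun n => deriv W (max (n : ℝ) (T + 1))
  have htT : ∀ n, (T : ℝ) ≤ t n := fun n => le_max_right _ _
  have htm : Monotone t := fun m n h =>
    max_le_max (sub_le_sub_right (Nat.cast_le.2 h) 1) le_rfl
  have htt : Tendsto t atTop atTop :=
    tendsto_atTop_mono (fun n => le_max_left _ _)
      (tendsto_atTop_add_const_right _ (-1) tendsto_natCast_atTop_atTop)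
  have ht1 : ∀ n, T + 1 ≤ n → t n = n - 1 ∧ t (n + 1) = n ∧ w n = deriv W n := by
    intro n hn
    have h : (T : ℝ) + 1 ≤ n := by exact_mod_cast hn
    refine ⟨max_eq_left (by linarith), ?_, by simp only [w]; rw [max_eq_left h]⟩
    simp only [t]
    push_cast
    rw [add_sub_cancel_right, max_eq_left (by linarith)]
  have hWm := hW.mono.monotoneOn
  have hW0 : ∀ x : ℝ, T ≤ x → 0 ≤ W x := fun x hx =>
    hW.nonneg.trans (hWm Set.self_mem_Ici hx hx)
  have hw0 : ∀ n, 0 ≤ w n := fun n =>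
    (hW.pos _ (le_max_of_le_right (by linarith))).le
  have hwa : Antitone w := fun m n h =>
    hW.anti0 (le_max_of_le_right (by linarith : (T : ℝ) ≤ T + 1))
      (le_max_of_le_right (by linarith : (T : ℝ) ≤ T + 1)) (max_le_max (Nat.cast_le.2 h) le_rfl)
  have hwle : ∀ n, T + 1 ≤ n → w n ≤ W (t (n + 1)) - W (t n) := by
    intro n hn
    obtain ⟨h1, h2, h3⟩ := ht1 n hn
    have h4 := hW.deriv_le (s := n - 1) (t := n) (h1 ▸ htT n) (by linarith)
    rw [h1, h2, h3]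
    linarith
  have hZ : Tendsto (fun J : ℕ => W J) atTop atTop := hW.top.comp tendsto_natCast_atTop_atTop
  have htJ : ∀ J : ℕ, T ≤ J → W (t J) ≤ W J := fun J hJ => by
    have h : (T : ℝ) ≤ J := by exact_mod_cast hJ
    exact hWm (htT J) h (max_le (by linarith) h)
  have h2 : ∀ᶠ J : ℕ in atTop, ∑ n ∈ range J, w n ≤ 2 * W J := by
    have h3 : ∀ J, T + 1 ≤ J → ∑ n ∈ range J, w n ≤ (T + 1 : ℕ) * w 0 + W (t J) := by
      intro J hJ
      induction J, hJ using Nat.le_induction with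
      | base =>
        have h4 := sum_le_card_nsmul (range (T + 1)) w (w 0) fun n _ => hwa (Nat.zero_le n)
        rw [card_range, nsmul_eq_mul] at h4
        have := hW0 _ (htT (T + 1))
        linarith
      | succ J hJ ih =>
        rw [sum_range_succ]
        have := hwle J hJ
        linarith
    filter_upwards [eventually_ge_atTop (T + 1), hZ.eventually_ge_atTop ((T + 1 : ℕ) * w 0)]
      with J hJ h4
    have := h3 J hJ
    have := htJ J (by omega)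
    linarith
  obtain ⟨s₂, hs₂, h3⟩ := sl H hWH hW S _ {i // cl i} le_rfl (fun i => g i) (fun i => hg i) t htm
    htt htT ⟨C, by
      filter_upwards [hc1, eventually_ge_atTop (T + 1)] with n h4 hn i
      rw [(ht1 n hn).1, (ht1 n hn).2.1]
      exact h4 i i.2⟩
  obtain ⟨B₀, hB₀⟩ := SC0_bdd (f := fun (i : {i // cl i}) n => g i (t n) - g i n) (C := C) (by
    filter_upwards [hc1, eventually_ge_atTop (T + 1)] with n h4 hn i
    rw [(ht1 n hn).1, abs_sub_comm]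
    exact h4 i i.2)
  have hcl : Ctl S s₂ (fun J n => w n / W J) fun (i : {i // cl i}) (n : ℕ) => g i n := by
    refine (h3.congr hB₀).le (T + 1) 1 (Eventually.of_forall fun J n => ?_) ?_ fun n _ => ?_
    · exact div_nonneg (sub_nonneg.2 (hWm (htT _) (htT _) (htm n.le_succ))) (hW0 _ (htT J))
    · filter_upwards [eventually_ge_atTop T, (hW.top.comp htt).eventually_gt_atTop 0]
        with J hJ h4 n hn
      rw [one_mul]
      exact div_le_div₀ ((hw0 n).trans (hwle n hn)) (hwle n hn) h4 (htJ J hJ)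
    · exact hZ.const_div_atTop _
  obtain ⟨s₁, hs₁, h4⟩ := loc S (Fintype.card ι) D
  have h5 := level S cl (fun i n => g i n) w th (fun J => W J) hwa hw0 SC0_th hZ h2 hs₁ hs₂ hcl (by
    intro B ε hε
    obtain ⟨C₁, hC₁, h5⟩ := dw S (Fintype.card ι) D (C + |B|) (half_pos hε)
    obtain ⟨C₂, hC₂, h6⟩ := h4 (C + |B| + 3) (ε / (2 * (C₁ + 1))) (by positivity)
    refine ⟨C₁ * C₂, C + |B| + 3, by positivity, fun K hK => ⟨Ly, smo_Ly, ?_⟩⟩
    obtain ⟨Ω, h7⟩ := h6 K hK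
    filter_upwards [h5, Ly_range, tendsto_Ly.eventually_ge_atTop Ω, hc2 Ω]
      with y h8 h9 h10 h11 F G a hF hG ha
    choose Q q1 q2 q3 q4 using h11
    obtain ⟨a', ha', h12⟩ := h8 (Ly y) h9.1 h9.2 ι le_rfl Q q1 F G (fun i x => a i (y + x)) hF hG
      (fun i x hx => by
        have e1 := ha i (y + x)
        have e2 := q4 i x hx
        have e3 := abs_sub_le (a i (y + x) : ℝ) (g i ((y + x : ℕ) : ℝ)) ((Q i).eval (x : ℝ))
        have e4 := le_abs_self B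
        linarith)
    obtain ⟨v, hv, h13⟩ := h7 (Ly y) h10 ι le_rfl cl Q q1 (fun i h => (q2 i h).1)
      (fun i h => SC0_cls (q3 i h) (by have := abs_nonneg B; linarith)) F G a' hF hG
      fun i x _ => ha' i x
    refine ⟨v, fun i => by rw [← (q2 i i.2).2]; exact hv i, h12.trans ?_⟩
    have h14 := mul_le_mul_of_nonneg_left h13 hC₁
    have h15 : C₁ * (ε / (2 * (C₁ + 1))) ≤ ε / 2 := by
      rw [← mul_div_assoc, div_le_div_iff₀ (by positivity) (by positivity)]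
      nlinarith
    rw [mul_add, ← mul_assoc] at h14
    linarith)
  refine ⟨s₁ + s₂, by omega, h5.le (T + 1) 1 ?_ ?_ fun n _ => ?_⟩
  · filter_upwards [eventually_ge_atTop T] with J hJ n
    exact div_nonneg (mul_nonneg (hw0 n) (SC0_th n)) (hW0 _ (by exact_mod_cast hJ))
  · filter_upwards [eventually_ge_atTop T] with J hJ n hn
    have h6 : 0 ≤ w n * th n / W J :=
      div_nonneg (mul_nonneg (hw0 n) (SC0_th n)) (hW0 _ (by exact_mod_cast hJ))
    have h7 : lam W T J n = w n * th n / W J / 2 := by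
      rw [lam, if_pos (by omega), (ht1 n hn).2.2]
      ring
    rw [h7]
    linarith
  · unfold lam
    split_ifs
    · exact (hZ.const_mul_atTop two_pos).const_div_atTop _
    · exact tendsto_const_nhds

end Pool.Agent.MP_357fb4_an

end
end
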