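import Pool.Agent.Mg.F14ad9d.G02c2bd
import Pool.Agent.Mg.F14ad9d.Gfcb572
import Pool.Agent.Mg.F14ad9d.G85b896

section

/-!
Rough numbers against polynomial correlations.
-/

open scoped BigOperators Classical ComplexConjugate Polynomial
open Finset Filter MeasureTheory Topology

noncomputable section

namespace Pool.Agent.MP_357fb4_an

lemma Maj_lt {W L b k : ℕ} (hb : b < W) : k < (L + W - 1 - b) / W ↔ W * k + b < L := by
  rw [← Nat.succ_le_iff, Nat.le_div_iff_mul_le (by omega), Nat.succ_mul, mul_comm k W]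
  omega

lemma Maj_split {W : ℕ} (hW : 0 < W) (L : ℕ) (a : ℤ) (f : ℤ → ℂ) :
    ∑ x ∈ Ico a (a + L), f x =
      ∑ b ∈ range W, ∑ k ∈ range ((L + W - 1 - b) / W), f (W * k + (a + b)) := by
  rw [sum_sigma']
  symm
  refine sum_bij (fun p _ => (W * p.2 + (a + p.1) : ℤ)) ?_ ?_ ?_ fun _ _ => rfl
  · rintro ⟨b, k⟩ hp
    simp only [mem_sigma, mem_range] at hp
    have h := (Maj_lt hp.1).1 hp.2
    have h' : (W : ℤ) * k + b < L := by exact_mod_cast h
    have h0 : (0 : ℤ) ≤ W * k + b := by positivity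
    simp only [mem_Ico]
    constructor <;> linarith
  · rintro ⟨b, k⟩ hp ⟨b', k'⟩ hp' h
    simp only [mem_sigma, mem_range] at hp hp'
    have h1 : W * k + b = W * k' + b' := by
      have : (W : ℤ) * k + b = W * k' + b' := by linarith
      exact_mod_cast this
    have h2 : b = b' := by
      have := congrArg (· % W) h1
      simpa [Nat.mul_add_mod, Nat.mod_eq_of_lt hp.1, Nat.mod_eq_of_lt hp'.1] using this
    subst h2
    have h3 : k = k' := Nat.eq_of_mul_eq_mul_left hW (by omega)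
    subst h3
    rfl
  · intro x hx
    simp only [mem_Ico] at hx
    obtain ⟨n, rfl⟩ := Int.le.dest hx.1
    have hn : n < L := by have := hx.2; omega
    refine ⟨⟨n % W, n / W⟩, ?_, ?_⟩
    · simp only [mem_sigma, mem_range]
      exact ⟨Nat.mod_lt _ hW, (Maj_lt (Nat.mod_lt _ hW)).2 (by rw [Nat.div_add_mod]; exact hn)⟩
    · have : (W : ℤ) * (n / W : ℕ) + (n % W : ℕ) = n := by exact_mod_cast Nat.div_add_mod n W
      simp only
      linarith

lemma Maj_tsum (L : ℕ) (g : ℤ → ℝ) (c : ℤ → ℂ) :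
    ∑' x : ℤ, (((if 0 ≤ x ∧ x < 0 + (L : ℤ) then g x else 0 : ℝ)) : ℂ) * c x =
      ∑ k ∈ range L, (g k : ℂ) * c k := by
  rw [tsum_eq_sum (s := (range L).map ⟨fun k : ℕ => (k : ℤ), Nat.cast_injective⟩), sum_map]
  · refine sum_congr rfl fun k hk => ?_
    have : k < L := mem_range.1 hk
    simp only [Function.Embedding.coeFn_mk]
    rw [if_pos ⟨by positivity, by omega⟩]
  · intro x hx
    rw [if_neg, Complex.ofReal_zero, zero_mul]
    rintro ⟨h0, h1⟩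
    obtain ⟨n, rfl⟩ := Int.eq_ofNat_of_zero_le h0
    exact hx (mem_map.2 ⟨n, mem_range.2 (by omega), rfl⟩)

lemma Maj_root {A η L : ℝ} {s : ℕ} (hη : 0 ≤ η) (hL : 0 ≤ L)
    (h : A ^ 2 ^ s ≤ (2 * L) ^ (2 ^ s - 1) * (η ^ 2 ^ s * L)) : A ≤ 2 * η * L := by
  have hs : 2 ^ s ≠ 0 := by positivity
  refine le_of_pow_le_pow_left₀ hs (by positivity) (h.trans ?_)
  generalize 2 ^ s = m at hs
  obtain ⟨n, rfl⟩ := Nat.exists_eq_succ_of_ne_zero hs
  have e : (2 * η * L) ^ n.succ = (2 * L) ^ (n.succ - 1) * (η ^ n.succ * (2 * L)) := by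
    rw [show 2 * η * L = (2 * L) * η by ring, mul_pow, Nat.succ_sub_one, pow_succ (2 * L)]
    ring
  rw [e]
  gcongr
  linarith

theorem maj (r D : ℕ) {δ ε : ℝ} (hδ : 0 < δ) (hε : 0 < ε) : ∃ u w : ℕ, 1 ≤ u ∧ 1 ≤ δ * u ∧
    ∀ᶠ N : ℕ in atTop, ∀ (L : ℕ) (a : ℤ), (N : ℝ) ^ δ ≤ L → ∀ (Y : Type) [MeasurableSpace Y]
      (μ : Measure Y) [IsProbabilityMeasure μ] (S : Sys ℝ Y μ) (ι : Type) [Fintype ι],
        Fintype.card ι ≤ r → ∀ P : ι → ℝ[X], (∀ i, (P i).natDegree ≤ D) →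
          ∀ (F : Y → ℂ) (G : ι → Y → ℂ), B1 F → (∀ i, B1 (G i)) →
            ‖∑ x ∈ Ico a (a + L), ((nuI 0 ⌊(N : ℝ) ^ (1 / u : ℝ)⌋₊ x - nuI 0 w x : ℝ) : ℂ) *
              corr S F G fun i => (P i).eval (x : ℝ)‖ ≤ ε / u ^ 2 * L := by
  obtain ⟨s, hs, hpet⟩ := wpet r D
  obtain ⟨u, w, hu, hδu, hvv⟩ := vv_est hs (half_pos hδ) (show 0 < ε / 8 by positivity)
  have hu0 : (0 : ℝ) < u := by exact_mod_cast hu
  refine ⟨u, w, hu, by nlinarith, ?_⟩
  have t1 : Tendsto (fun N : ℕ => ⌊(N : ℝ) ^ (1 / u : ℝ)⌋₊) atTop atTop :=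
    tendsto_nat_floor_atTop.comp
      ((tendsto_rpow_atTop (by positivity)).comp tendsto_natCast_atTop_atTop)
  have t2 : Tendsto (fun N : ℕ => (N : ℝ) ^ (δ / 2)) atTop atTop :=
    (tendsto_rpow_atTop (half_pos hδ)).comp tendsto_natCast_atTop_atTop
  filter_upwards [hvv, t1.eventually_ge_atTop w, t2.eventually_ge_atTop (2 * primorial w : ℝ)]
    with N hN hwz ht
  intro L a hL Y _ μ _ S ι _ hι P hP F G hF hG
  set z := ⌊(N : ℝ) ^ (1 / u : ℝ)⌋₊
  have hWpos : 0 < primorial w := primorial_pos w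
  generalize hW : primorial w = W at *
  have hW1 : (1 : ℝ) ≤ W := by exact_mod_cast hWpos
  set t := (N : ℝ) ^ (δ / 2) with htdef
  have htt : t * t ≤ L := by
    rw [htdef, ← Real.rpow_add' (by positivity) (by linarith), add_halves]; exact hL
  have hWL : (W : ℝ) ≤ L := by nlinarith
  rw [Maj_split hWpos]
  have key : ∀ b ∈ range W, ‖∑ k ∈ range ((L + W - 1 - b) / W),
      ((nuI 0 z (W * k + (a + b)) - nuI 0 w (W * k + (a + b)) : ℝ) : ℂ) *
        corr S F G fun i => (P i).eval (((W * k + (a + b) : ℤ)) : ℝ)‖ ≤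
      nuI 0 w (a + b) * (ε / u ^ 2 * L / (2 * W)) := by
    intro b hb
    have hb' := mem_range.1 hb
    set Lb := (L + W - 1 - b) / W with hLb
    have h1 : L ≤ W * Lb + b := not_lt.1 fun h => lt_irrefl _ ((Maj_lt hb').2 h)
    have h2 : W * Lb ≤ L + W := by
      rw [hLb, mul_comm]; exact (Nat.div_mul_le_self _ _).trans (by omega)
    have h1' : (L : ℝ) ≤ W * Lb + W := by
      have : L ≤ W * Lb + W := by omega
      exact_mod_cast this
    have h2' : (W : ℝ) * Lb ≤ L + W := by exact_mod_cast h2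
    have h3 : t ≤ Lb := by
      by_contra h
      push Not at h
      nlinarith
    obtain ⟨M, hM1, hML, hV⟩ := hN Lb h3
    have hp := hpet Y μ S ι hι
      (fun i => (P i).comp (Polynomial.C (W : ℝ) * Polynomial.X + Polynomial.C ((a + b : ℤ) : ℝ)))
      (fun i => by
        refine Polynomial.natDegree_comp_le.trans ?_
        have : (Polynomial.C (W : ℝ) * Polynomial.X +
            Polynomial.C ((a + b : ℤ) : ℝ)).natDegree ≤ 1 := Polynomial.natDegree_linear_le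
        calc _ ≤ D * 1 := Nat.mul_le_mul (hP i) this
          _ = D := mul_one D) F G hF hG Lb M 0
      (fun x => if 0 ≤ x ∧ x < 0 + (Lb : ℤ) then nuI w z (W * x + (a + b)) - 1 else 0) hM1 hML
      (fun x hx => by by_contra h; exact hx (if_neg h))
    rw [Maj_tsum] at hp
    have hq := Maj_root (by positivity) (by positivity)
      (hp.trans (mul_le_mul_of_nonneg_left (hV 0 (a + b)) (by positivity)))
    have e : ∑ k ∈ range Lb,
        ((nuI 0 z (W * k + (a + b)) - nuI 0 w (W * k + (a + b)) : ℝ) : ℂ) *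
          corr S F G (fun i => (P i).eval (((W * k + (a + b) : ℤ)) : ℝ)) =
        (nuI 0 w (a + b) : ℂ) * ∑ k ∈ range Lb, ((nuI w z (W * k + (a + b)) - 1 : ℝ) : ℂ) *
          corr S F G fun i => ((P i).comp (Polynomial.C (W : ℝ) * Polynomial.X +
            Polynomial.C ((a + b : ℤ) : ℝ))).eval (((k : ℕ) : ℤ) : ℝ) := by
      rw [mul_sum]
      refine sum_congr rfl fun k _ => ?_
      have e1 : nuI 0 w (W * k + (a + b)) = nuI 0 w (a + b) := by
        rw [add_comm, ← hW]; exact nuI_per w _ _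
      rw [nuI_split hwz, e1, ← mul_assoc]
      congr 1
      · push_cast; ring
      · congr 1
        funext i
        simp [Polynomial.eval_comp]
    rw [e, norm_mul, Complex.norm_real, Real.norm_of_nonneg (nuI_nonneg _ _ _)]
    refine mul_le_mul_of_nonneg_left (hq.trans ?_) (nuI_nonneg _ _ _)
    rw [le_div_iff₀ (by positivity)]
    have : 0 ≤ ε / u ^ 2 := by positivity
    calc 2 * (ε / 8 / u ^ 2) * Lb * (2 * W) = ε / u ^ 2 * ((W * Lb) / 2) := by ring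
      _ ≤ ε / u ^ 2 * L := by gcongr; linarith
  refine (norm_sum_le _ _).trans ((sum_le_sum key).trans ?_)
  rw [← sum_mul]
  have hm := nuI_mean w W a
  have e2 : ∑ x ∈ Ico a (a + W), nuI 0 w x = ∑ b ∈ range W, nuI 0 w (a + b) := by
    rw [Int.Ico_eq_finset_map, sum_map]
    simp
  rw [e2, hW] at hm
  calc _ ≤ (W + W : ℝ) * (ε / u ^ 2 * L / (2 * W)) := by gcongr
    _ = ε / u ^ 2 * L := by field_simp; ring

/-- The rotation flow on the circle. -/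
def Maj_rot : Sys ℝ UnitAddCircle AddCircle.haarAddCircle where
  act t y := y + (t : UnitAddCircle)
  mp t := measurePreserving_add_right _ _
  act_add g h y := by rw [AddCircle.coe_add]; abel
  act_zero y := by simp

theorem maj_phase (D : ℕ) {δ ε : ℝ} (hδ : 0 < δ) (hε : 0 < ε) : ∃ u w : ℕ, 1 ≤ u ∧ 1 ≤ δ * u ∧
    ∀ᶠ N : ℕ in atTop, ∀ (L : ℕ) (a : ℤ), (N : ℝ) ^ δ ≤ L → ∀ Q : ℝ[X], Q.natDegree ≤ D →
      ‖∑ x ∈ Ico a (a + L), ((nuI 0 ⌊(N : ℝ) ^ (1 / u : ℝ)⌋₊ x - nuI 0 w x : ℝ) : ℂ) *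
        ec (Q.eval (x : ℝ))‖ ≤ ε / u ^ 2 * L := by
  obtain ⟨u, w, hu, hδu, h⟩ := maj 1 D hδ hε
  refine ⟨u, w, hu, hδu, h.mono fun N hN L a hL Q hQ => ?_⟩
  have hn : ∀ y : UnitAddCircle, ‖fourier 1 y‖ = 1 := fun y => by
    rw [fourier_apply]; exact Circle.norm_coe _
  have hB : B1 fun y : UnitAddCircle => fourier 1 y :=
    ⟨(fourier 1).continuous.measurable, fun y => (hn y).le⟩
  have hc : ∀ t : ℝ, corr Maj_rot (fun y => conj (fourier 1 y))
      (fun (_ : Unit) y => fourier 1 y) (fun _ => t) = ec t := by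
    intro t
    have : ∀ y : UnitAddCircle, conj (fourier 1 y) * ∏ _i : Unit,
        fourier 1 (Maj_rot.act t y) = ec t := by
      intro y
      have e1 : fourier 1 (y + (t : UnitAddCircle)) = fourier 1 y * fourier 1 (t : UnitAddCircle) := by
        simp [AddCircle.toCircle_add]
      have e2 : fourier 1 (t : UnitAddCircle) = ec t := by
        rw [fourier_coe_apply, ec]; congr 1; push_cast; ring
      have e3 : conj (fourier 1 y) * fourier 1 y = 1 := by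
        rw [Complex.conj_mul', hn]; simp
      simp only [Maj_rot, Fintype.prod_unique]
      rw [e1, ← mul_assoc, e3, one_mul, e2]
    simp only [corr, this]
    simp
  have := hN L a hL UnitAddCircle AddCircle.haarAddCircle Maj_rot Unit (by simp) (fun _ => Q)
    (fun _ => hQ) _ (fun _ y => fourier 1 y) hB.conj fun _ => hB
  simpa only [hc] using this

end Pool.Agent.MP_357fb4_an

end
end

section

/-!
Logarithmic averages over rough numbers.
-/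

open scoped BigOperators Classical ComplexConjugate Polynomial
open Finset Filter MeasureTheory Topology

noncomputable section

namespace Pool.Agent.MP_357fb4_an

lemma majLog_int {M : Type*} [AddCommMonoid M] (g : ℤ → M) (a : ℤ) (l : ℕ) :
    ∑ x ∈ Ico a (a + l), g x = ∑ i ∈ range l, g (a + i) := by
  refine Finset.sum_nbij' (fun x => (x - a).toNat) (fun i => a + i) ?_ ?_ ?_ ?_ ?_
  · intro x hx
    simp only [mem_Ico, mem_range] at hx ⊢
    omega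
  · intro i hi
    simp only [mem_Ico, mem_range] at hi ⊢
    omega
  · intro x hx
    simp only [mem_Ico] at hx ⊢
    omega
  · intro i _
    simp
  · intro x hx
    simp only [mem_Ico] at hx
    congr 1
    omega

lemma majLog_nat {M : Type*} [AddCommMonoid M] (g : ℕ → M) (Y l : ℕ) :
    ∑ x ∈ Ioc Y (Y + l), g x = ∑ i ∈ range l, g (Y + 1 + i) := by
  induction l with
  | zero => simp
  | succ l ih =>
    rw [← add_assoc, Finset.sum_Ioc_succ_top (by omega), ih, Finset.sum_range_succ]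
    congr 2
    ring

lemma majLog_blocks {l : ℕ} (hl : 1 ≤ l) (Y₁ Y₂ : ℕ) (F : ℕ → ℂ) {η : ℝ}
    (hb : ∀ Y, Y₁ ≤ Y → Y + l ≤ Y₂ →
      ‖∑ n ∈ Ioc Y (Y + l), F n‖ ≤ 4 * η * ∑ n ∈ Ioc Y (Y + l), (1 : ℝ) / n)
    (he : ∀ Y, Y₁ ≤ Y → Y₂ < Y + l → ‖∑ n ∈ Ioc Y Y₂, F n‖ ≤ η) (hη : 0 ≤ η) :
    ∀ k Y, Y₁ ≤ Y → Y₂ - Y ≤ k →
      ‖∑ n ∈ Ioc Y Y₂, F n‖ ≤ 4 * η * ∑ n ∈ Ioc Y Y₂, (1 : ℝ) / n + η := by
  intro k
  induction k with
  | zero =>
    intro Y hY hk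
    have h0 : 0 ≤ ∑ n ∈ Ioc Y Y₂, (1 : ℝ) / n := Finset.sum_nonneg fun n _ => by positivity
    have := he Y hY (by omega)
    nlinarith
  | succ k ih =>
    intro Y hY hk
    by_cases h : Y + l ≤ Y₂
    · have e1 := Finset.sum_Ioc_consecutive F (Nat.le_add_right Y l) h
      have e2 := Finset.sum_Ioc_consecutive (fun n : ℕ => (1 : ℝ) / n) (Nat.le_add_right Y l) h
      rw [← e1, ← e2]
      have h1 := hb Y hY h
      have h2 := ih (Y + l) (by omega) (by omega)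
      have h3 := norm_add_le (∑ n ∈ Ioc Y (Y + l), F n) (∑ n ∈ Ioc (Y + l) Y₂, F n)
      linarith
    · have h0 : 0 ≤ ∑ n ∈ Ioc Y Y₂, (1 : ℝ) / n := Finset.sum_nonneg fun n _ => by positivity
      have := he Y hY (by omega)
      nlinarith

/-- The absolute mass of the weight on a block. -/
lemma majLog_abs {z w l : ℕ} {η : ℝ} (a : ℤ) (hP : primorial w ≤ l)
    (h : ‖∑ x ∈ Ico a (a + l), ((nuI 0 z x - nuI 0 w x : ℝ) : ℂ) *
      ec ((0 : ℝ[X]).eval (x : ℝ))‖ ≤ η * l) :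
    ∑ i ∈ range l, |nuI 0 z (a + i) - nuI 0 w (a + i)| ≤ (4 + η) * l := by
  simp only [Polynomial.eval_zero, ec_zero, mul_one] at h
  rw [← Complex.ofReal_sum, Complex.norm_real, Real.norm_eq_abs, Finset.sum_sub_distrib] at h
  have h1 := nuI_mean w l a
  have h2 : (primorial w : ℝ) ≤ l := by exact_mod_cast hP
  rw [← majLog_int (fun x => |nuI 0 z x - nuI 0 w x|)]
  have h3 : ∑ x ∈ Ico a (a + l), |nuI 0 z x - nuI 0 w x| ≤
      ∑ x ∈ Ico a (a + l), (nuI 0 z x + nuI 0 w x) := by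
    refine Finset.sum_le_sum fun x _ => ?_
    have := nuI_nonneg 0 z x
    have := nuI_nonneg 0 w x
    rw [abs_le]
    constructor <;> linarith
  rw [Finset.sum_add_distrib] at h3
  have h4 := (abs_le.1 h).2
  nlinarith

/-- One full block. -/
lemma majLog_block {l y : ℕ} (hy : 1 ≤ y) (hly : l ≤ y) (c : ℕ → ℝ) (f e : ℕ → ℂ) {η C θ : ℝ}
    (hη : 0 ≤ η) (he : ∀ i, ‖e i‖ ≤ 1)
    (h1 : ‖∑ i ∈ range l, (c (y + i) : ℂ) * e i‖ ≤ η * l)
    (h2 : ∑ i ∈ range l, |c (y + i)| ≤ C * l)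
    (h3 : ∀ i < l, ‖f (y + i) - e i‖ ≤ θ) (hθ : 0 ≤ θ) (h4 : C * (θ + l / y) ≤ η) :
    ‖∑ i ∈ range l, (c (y + i) : ℂ) * f (y + i) / ((y + i : ℕ) : ℂ)‖ ≤
      4 * η * ∑ i ∈ range l, (1 : ℝ) / ((y + i : ℕ) : ℝ) := by
  have hy0 : (0 : ℝ) < y := by exact_mod_cast hy
  have hly' : (l : ℝ) ≤ y := by exact_mod_cast hly
  have key : ∀ i ∈ range l, ‖(c (y + i) : ℂ) * f (y + i) / ((y + i : ℕ) : ℂ) -
      (c (y + i) : ℂ) * e i / (y : ℂ)‖ ≤ |c (y + i)| * ((θ + l / y) / y) := by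
    intro i hi
    have hi' : i < l := mem_range.1 hi
    have hil : (i : ℝ) ≤ l := by exact_mod_cast hi'.le
    have hi0 : (0 : ℝ) ≤ i := by positivity
    have hyc : (y : ℂ) ≠ 0 := by exact_mod_cast hy0.ne'
    have hyi : ((y + i : ℕ) : ℂ) ≠ 0 := by exact_mod_cast (by omega : y + i ≠ 0)
    have e1 : (c (y + i) : ℂ) * f (y + i) / ((y + i : ℕ) : ℂ) - (c (y + i) : ℂ) * e i / (y : ℂ) =
        (c (y + i) : ℂ) * ((f (y + i) - e i) / ((y + i : ℕ) : ℂ) -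
          e i * ((i : ℂ) / ((y : ℂ) * ((y + i : ℕ) : ℂ)))) := by
      field_simp
      push_cast
      ring
    rw [e1, norm_mul, Complex.norm_real, Real.norm_eq_abs]
    refine mul_le_mul_of_nonneg_left ?_ (abs_nonneg _)
    refine (norm_sub_le _ _).trans ?_
    rw [norm_div, norm_mul, norm_div, norm_mul, Complex.norm_natCast, Complex.norm_natCast,
      Complex.norm_natCast]
    have hyi' : (y : ℝ) ≤ ((y + i : ℕ) : ℝ) := by push_cast; linarith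
    have a1 : ‖f (y + i) - e i‖ / ((y + i : ℕ) : ℝ) ≤ θ / y :=
      div_le_div₀ hθ (h3 i hi') hy0 hyi'
    have a2 : (i : ℝ) / (y * ((y + i : ℕ) : ℝ)) ≤ l / (y * y) :=
      div_le_div₀ (by positivity) hil (by positivity) (by gcongr)
    have a3 : ‖e i‖ * ((i : ℝ) / (y * ((y + i : ℕ) : ℝ))) ≤ l / (y * y) := by
      have := he i
      have h0 : 0 ≤ (i : ℝ) / (y * ((y + i : ℕ) : ℝ)) := by positivity
      nlinarith [norm_nonneg (e i)]
    have a4 : (θ + l / y) / y = θ / y + l / (y * y) := by field_simp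
    linarith
  have s1 : ‖∑ i ∈ range l, (c (y + i) : ℂ) * f (y + i) / ((y + i : ℕ) : ℂ) -
      ∑ i ∈ range l, (c (y + i) : ℂ) * e i / (y : ℂ)‖ ≤ C * l * ((θ + l / y) / y) := by
    rw [← Finset.sum_sub_distrib]
    refine (norm_sum_le _ _).trans ((Finset.sum_le_sum key).trans ?_)
    rw [← Finset.sum_mul]
    exact mul_le_mul_of_nonneg_right h2 (by positivity)
  have s2 : ‖∑ i ∈ range l, (c (y + i) : ℂ) * e i / (y : ℂ)‖ ≤ η * l / y := by
    rw [← Finset.sum_div, norm_div, Complex.norm_natCast]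
    gcongr
  have s3 : (l : ℝ) / y ≤ 2 * ∑ i ∈ range l, (1 : ℝ) / ((y + i : ℕ) : ℝ) := by
    have : ∑ _i ∈ range l, (1 : ℝ) / (2 * y) ≤ ∑ i ∈ range l, (1 : ℝ) / ((y + i : ℕ) : ℝ) := by
      refine Finset.sum_le_sum fun i hi => ?_
      have hil : (i : ℝ) ≤ l := by exact_mod_cast (mem_range.1 hi).le
      refine one_div_le_one_div_of_le (by push_cast; positivity) ?_
      push_cast
      linarith
    rw [Finset.sum_const, card_range, nsmul_eq_mul] at this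
    have e : (l : ℝ) / y = 2 * (l * (1 / (2 * y))) := by field_simp
    linarith
  have s4 : C * l * ((θ + l / y) / y) ≤ η * (l / y) := by
    have e : C * l * ((θ + l / y) / y) = C * (θ + l / y) * (l / y) := by field_simp
    rw [e]
    exact mul_le_mul_of_nonneg_right h4 (by positivity)
  have s5 := norm_le_insert' (∑ i ∈ range l, (c (y + i) : ℂ) * f (y + i) / ((y + i : ℕ) : ℂ))
    (∑ i ∈ range l, (c (y + i) : ℂ) * e i / (y : ℂ))
  have s6 : η * l / y = η * (l / y) := by ring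
  nlinarith

lemma majLog_ev {δ η C : ℝ} (hδ : 0 < δ) (hη : 0 < η) (hC : 0 < C) (P : ℕ) :
    ∀ᶠ N : ℕ in atTop, 1 ≤ N ∧ 1 ≤ Real.log N ∧ P ≤ ⌈(N : ℝ) ^ (δ / 2)⌉₊ ∧
      1 ≤ ⌈(N : ℝ) ^ (δ / 2)⌉₊ ∧ ∀ y : ℕ, (N : ℝ) ^ δ ≤ y → ⌈(N : ℝ) ^ (δ / 2)⌉₊ ≤ y ∧
        C * ((N : ℝ)⁻¹ + (⌈(N : ℝ) ^ (δ / 2)⌉₊ : ℝ) / y) ≤ η := by
  have t1 : Tendsto (fun N : ℕ => (N : ℝ) ^ (δ / 2)) atTop atTop :=
    (tendsto_rpow_atTop (by positivity)).comp tendsto_natCast_atTop_atTop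
  have t2 : Tendsto (fun N : ℕ => Real.log N) atTop atTop :=
    Real.tendsto_log_atTop.comp tendsto_natCast_atTop_atTop
  have t3 : Tendsto (fun N : ℕ => (N : ℝ)) atTop atTop := tendsto_natCast_atTop_atTop
  filter_upwards [eventually_ge_atTop 1, t2.eventually_ge_atTop 1,
    t1.eventually_ge_atTop (P : ℝ), t1.eventually_ge_atTop 2, t1.eventually_ge_atTop (4 * C / η),
    t3.eventually_ge_atTop (2 * C / η)] with N h1 h2 h3 h4 h5 h6
  set t : ℝ := (N : ℝ) ^ (δ / 2) with ht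
  have hN0 : (0 : ℝ) < N := by exact_mod_cast h1
  have hc1 : t ≤ ⌈t⌉₊ := Nat.le_ceil t
  have hc2 : (⌈t⌉₊ : ℝ) ≤ t + 1 := (Nat.ceil_lt_add_one (by linarith)).le
  refine ⟨h1, h2, ?_, ?_, fun y hy => ?_⟩
  · exact_mod_cast h3.trans hc1
  · have : (1 : ℝ) ≤ ⌈t⌉₊ := by linarith
    exact_mod_cast this
  have e : (N : ℝ) ^ δ = t * t := by
    rw [ht, ← Real.rpow_add hN0]
    congr 1
    ring
  rw [e] at hy
  have hy0 : (0 : ℝ) < y := by nlinarith
  refine ⟨?_, ?_⟩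
  · have : (⌈t⌉₊ : ℝ) ≤ y := by nlinarith
    exact_mod_cast this
  · have a1 : (⌈t⌉₊ : ℝ) / y ≤ 2 / t := by
      rw [div_le_div_iff₀ hy0 (by linarith)]
      nlinarith
    have a2 : C * (2 / t) ≤ η / 2 := by
      rw [div_le_iff₀ hη] at h5
      rw [← mul_div_assoc, div_le_iff₀ (by linarith)]
      linarith
    have a3 : C * (N : ℝ)⁻¹ ≤ η / 2 := by
      rw [div_le_iff₀ hη] at h6
      rw [← div_eq_mul_inv, div_le_iff₀ hN0]
      linarith
    have a4 : C * ((⌈t⌉₊ : ℝ) / y) ≤ C * (2 / t) := mul_le_mul_of_nonneg_left a1 hC.le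
    linarith

theorem majlog (D : ℕ) {δ ε : ℝ} (hδ : 0 < δ) (hε : 0 < ε) : ∃ u w : ℕ, 1 ≤ u ∧ 1 ≤ δ * u ∧
    ∀ᶠ N : ℕ in atTop, ∀ Y₁ Y₂ : ℕ, (N : ℝ) ^ δ ≤ Y₁ + 1 → Y₂ ≤ N ^ 3 → ∀ f : ℕ → ℂ,
      (∀ n, ‖f n‖ ≤ 1) →
      (∀ y : ℕ, Y₁ < y → y ≤ Y₂ → ∃ Q : ℝ[X], Q.natDegree ≤ D ∧ ∀ x : ℕ,
        (x : ℝ) ≤ (N : ℝ) ^ (δ / 2) + 1 → ‖f (y + x) - ec (Q.eval (x : ℝ))‖ ≤ (N : ℝ)⁻¹) →
      ‖∑ n ∈ Ioc Y₁ Y₂, ((nuI 0 ⌊(N : ℝ) ^ (1 / u : ℝ)⌋₊ n - nuI 0 w n : ℝ) : ℂ) * f n / n‖ ≤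
        ε / u ^ 2 * Real.log N := by
  obtain ⟨u, w, hu, hδu, hev⟩ := maj_phase D (δ := δ / 2) (ε := ε / 17) (by positivity)
    (by positivity)
  have hu0 : (0 : ℝ) < u := by exact_mod_cast hu
  refine ⟨u, w, hu, by nlinarith, ?_⟩
  set η : ℝ := ε / 17 / u ^ 2 with hηd
  have hη : 0 < η := by positivity
  filter_upwards [hev, majLog_ev hδ hη (C := 4 + η) (by positivity) (primorial w)] with N hN
    ⟨h1, h2, h3, h4, h5⟩ Y₁ Y₂ hY₁ hY₂ f hf hQ
  set l : ℕ := ⌈(N : ℝ) ^ (δ / 2)⌉₊ with hl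
  set z : ℕ := ⌊(N : ℝ) ^ (1 / u : ℝ)⌋₊ with hz
  have hN0 : (0 : ℝ) < N := by exact_mod_cast h1
  have hll : (N : ℝ) ^ (δ / 2) ≤ l := Nat.le_ceil _
  have hl2 : (l : ℝ) ≤ (N : ℝ) ^ (δ / 2) + 1 := (Nat.ceil_lt_add_one (by positivity)).le
  have habs : ∀ y : ℕ, ∑ i ∈ range l, |nuI 0 z ((y + i : ℕ) : ℤ) - nuI 0 w ((y + i : ℕ) : ℤ)| ≤
      (4 + η) * l := by
    intro y
    have := majLog_abs (y : ℤ) h3 (hN l y hll 0 (by simp))
    simpa using this
  have hyY : ∀ Y : ℕ, Y₁ ≤ Y → (N : ℝ) ^ δ ≤ ((Y + 1 : ℕ) : ℝ) := by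
    intro Y hY
    have : (Y₁ : ℝ) ≤ Y := by exact_mod_cast hY
    push_cast
    linarith
  have main := majLog_blocks h4 Y₁ Y₂
    (fun n : ℕ => ((nuI 0 z n - nuI 0 w n : ℝ) : ℂ) * f n / n) (η := η) ?_ ?_ hη.le
    (Y₂ - Y₁) Y₁ le_rfl le_rfl
  · have a1 := harm_le' Y₁ Y₂
    have a2 : Real.log Y₂ ≤ 3 * Real.log N := by
      rcases Nat.eq_zero_or_pos Y₂ with h | h
      · simp only [h, Nat.cast_zero, Real.log_zero]
        linarith
      · have : Real.log Y₂ ≤ Real.log ((N : ℝ) ^ 3) :=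
          Real.log_le_log (by exact_mod_cast h) (by exact_mod_cast hY₂)
        rw [Real.log_pow] at this
        exact_mod_cast this
    have e : ε / u ^ 2 = 17 * η := by rw [hηd]; field_simp
    rw [e]
    nlinarith
  · intro Y hY hYl
    obtain ⟨b1, b2⟩ := h5 (Y + 1) (hyY Y hY)
    obtain ⟨Q, hQD, hQ⟩ := hQ (Y + 1) (by omega) (by omega)
    rw [majLog_nat, majLog_nat]
    refine majLog_block (by omega) b1 (fun n : ℕ => nuI 0 z n - nuI 0 w n) f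
      (fun i => ec (Q.eval (i : ℝ))) (C := 4 + η) (θ := (N : ℝ)⁻¹) hη.le (fun i => by simp) ?_
      (habs (Y + 1)) (fun i hi => hQ i ?_) (by positivity) b2
    · have := hN l ((Y + 1 : ℕ) : ℤ) hll (Polynomial.taylor (-((Y + 1 : ℕ) : ℝ)) Q)
        (by rw [Polynomial.natDegree_taylor]; exact hQD)
      rw [majLog_int] at this
      convert this using 3 with i hi
      rw [Polynomial.taylor_eval]
      push_cast
      ring_nf
    · have : (i : ℝ) ≤ l := by exact_mod_cast hi.le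
      linarith
  · intro Y hY hYl
    obtain ⟨b1, b2⟩ := h5 (Y + 1) (hyY Y hY)
    have hy0 : (0 : ℝ) < ((Y + 1 : ℕ) : ℝ) := by positivity
    calc ‖∑ n ∈ Ioc Y Y₂, ((nuI 0 z n - nuI 0 w n : ℝ) : ℂ) * f n / n‖
        ≤ ∑ n ∈ Ioc Y Y₂, |nuI 0 z n - nuI 0 w n| / ((Y + 1 : ℕ) : ℝ) := by
          refine (norm_sum_le _ _).trans (Finset.sum_le_sum fun n hn => ?_)
          have hn' : ((Y + 1 : ℕ) : ℝ) ≤ n := by exact_mod_cast (mem_Ioc.1 hn).1
          rw [norm_div, norm_mul, Complex.norm_real, Real.norm_eq_abs, Complex.norm_natCast]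
          refine div_le_div₀ (abs_nonneg _) ?_ hy0 hn'
          exact mul_le_of_le_one_right (abs_nonneg _) (hf n)
      _ ≤ ∑ n ∈ Ioc Y (Y + l), |nuI 0 z n - nuI 0 w n| / ((Y + 1 : ℕ) : ℝ) :=
          Finset.sum_le_sum_of_subset_of_nonneg (Finset.Ioc_subset_Ioc_right hYl.le)
            fun n _ _ => by positivity
      _ ≤ (4 + η) * l / ((Y + 1 : ℕ) : ℝ) := by
          rw [← Finset.sum_div, majLog_nat]
          gcongr
          exact habs (Y + 1)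
      _ ≤ η := by
          have : 0 ≤ (4 + η) * (N : ℝ)⁻¹ := by positivity
          rw [mul_div_assoc]
          linarith

theorem rough_mass {δ : ℝ} (hδ : 0 < δ) : ∃ G : ℝ, ∀ᶠ N : ℕ in atTop,
    ∑ n ∈ (rg N δ).filter (fun n : ℕ => Rough 0 ⌊(N : ℝ) ^ δ⌋₊ n), (1 : ℝ) / n ≤ G := by
  obtain ⟨u, w, hu, hδu, hev⟩ := majlog 0 hδ one_pos
  have hu0 : (1 : ℝ) ≤ u := by exact_mod_cast hu
  refine ⟨u * (3 * (Vp 0 w)⁻¹ + 1), ?_⟩
  have t2 : Tendsto (fun N : ℕ => Real.log N) atTop atTop :=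
    Real.tendsto_log_atTop.comp tendsto_natCast_atTop_atTop
  filter_upwards [hev, eventually_ge_atTop 2, t2.eventually_ge_atTop 1] with N hN h1 h2
  have hN1 : (1 : ℝ) ≤ N := by exact_mod_cast (by omega : 1 ≤ N)
  have h := hN ⌊(N : ℝ) ^ δ⌋₊ (N ^ 2) (Nat.lt_floor_add_one _).le
    (Nat.pow_le_pow_right (by omega) (by norm_num)) (fun _ => 1) (fun _ => by simp)
    (fun y _ _ => ⟨0, by simp, fun x _ => by simp⟩)
  set z : ℕ := ⌊(N : ℝ) ^ (1 / u : ℝ)⌋₊ with hz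
  have hzz : z ≤ ⌊(N : ℝ) ^ δ⌋₊ := by
    refine Nat.floor_le_floor (Real.rpow_le_rpow_of_exponent_le hN1 ?_)
    rw [div_le_iff₀ (by linarith)]
    exact hδu
  have e : ∑ n ∈ Ioc ⌊(N : ℝ) ^ δ⌋₊ (N ^ 2), ((nuI 0 z n - nuI 0 w n : ℝ) : ℂ) * 1 / (n : ℂ) =
      ((∑ n ∈ Ioc ⌊(N : ℝ) ^ δ⌋₊ (N ^ 2), nuI 0 z n / n -
        ∑ n ∈ Ioc ⌊(N : ℝ) ^ δ⌋₊ (N ^ 2), nuI 0 w n / n : ℝ) : ℂ) := by
    rw [← Finset.sum_sub_distrib]
    push_cast
    refine Finset.sum_congr rfl fun n _ => ?_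
    ring
  rw [e, Complex.norm_real, Real.norm_eq_abs] at h
  have a1 := (abs_le.1 h).2
  have hV := Vp_pos 0 w
  have hVz := Vp_pos 0 z
  have a2 : ∑ n ∈ Ioc ⌊(N : ℝ) ^ δ⌋₊ (N ^ 2), nuI 0 w n / n ≤ (Vp 0 w)⁻¹ * (3 * Real.log N) := by
    have b1 := harm_le' ⌊(N : ℝ) ^ δ⌋₊ (N ^ 2)
    have b2 : Real.log ((N ^ 2 : ℕ) : ℝ) = 2 * Real.log N := by
      push_cast
      rw [Real.log_pow]
      norm_num
    calc ∑ n ∈ Ioc ⌊(N : ℝ) ^ δ⌋₊ (N ^ 2), nuI 0 w n / n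
        ≤ ∑ n ∈ Ioc ⌊(N : ℝ) ^ δ⌋₊ (N ^ 2), (Vp 0 w)⁻¹ * (1 / (n : ℝ)) := by
          refine Finset.sum_le_sum fun n _ => ?_
          rw [div_eq_mul_one_div]
          exact mul_le_mul_of_nonneg_right (nuI_le 0 w n) (by positivity)
      _ ≤ (Vp 0 w)⁻¹ * (3 * Real.log N) := by
          rw [← Finset.mul_sum]
          refine mul_le_mul_of_nonneg_left ?_ (by positivity)
          linarith
  have a3 : 1 / (u : ℝ) ^ 2 * Real.log N ≤ Real.log N := by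
    have : 1 / (u : ℝ) ^ 2 ≤ 1 := by
      rw [div_le_one (by positivity)]
      nlinarith
    nlinarith
  have a4 : ∑ n ∈ (rg N δ).filter (fun n : ℕ => Rough 0 ⌊(N : ℝ) ^ δ⌋₊ n), (1 : ℝ) / n ≤
      Vp 0 z * ∑ n ∈ Ioc ⌊(N : ℝ) ^ δ⌋₊ (N ^ 2), nuI 0 z n / n := by
    rw [Finset.mul_sum, Finset.sum_filter]
    refine Finset.sum_le_sum fun n _ => ?_
    split_ifs with hr
    · have hr' : Rough 0 z n := Rough.mono hzz hr
      simp only [nuI, hr', if_true]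
      rw [← mul_div_assoc, mul_inv_cancel₀ hVz.ne']
    · have := nuI_nonneg 0 z n
      positivity
  have a5 : Vp 0 z ≤ u / Real.log N := Vp_le_div h1 hu
  have a6 : 0 ≤ ∑ n ∈ Ioc ⌊(N : ℝ) ^ δ⌋₊ (N ^ 2), nuI 0 z n / n :=
    Finset.sum_nonneg fun n _ => div_nonneg (nuI_nonneg _ _ _) (by positivity)
  calc _ ≤ _ := a4
    _ ≤ u / Real.log N * ((3 * (Vp 0 w)⁻¹ + 1) * Real.log N) := by
        refine mul_le_mul a5 ?_ a6 (by positivity)
        nlinarith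
    _ = u * (3 * (Vp 0 w)⁻¹ + 1) := by
        field_simp

end Pool.Agent.MP_357fb4_an

end
end

section

/-!
Removing the rough weights from bilinear sums.
-/

open scoped BigOperators Classical ComplexConjugate Polynomial
open Finset Filter MeasureTheory Topology

noncomputable section

namespace Pool.Agent.MP_357fb4_an

/-- The rough numbers of the range. -/
def BilW_rr (N : ℕ) (δ : ℝ) : Finset ℕ := (rg N δ).filter fun n : ℕ => Rough 0 ⌊(N : ℝ) ^ δ⌋₊ n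

/-- The one sided removal of the rough weight. -/
def BilW_One (φ : ℕ → ℂ) : Prop :=
  ∀ δ ε : ℝ, 0 < δ → 0 < ε → ∃ C : ℝ, 0 ≤ C ∧ ∀ᶠ N : ℕ in atTop, ∀ (γ : ℕ → ℂ) (Γ : ℝ),
    ∑ a ∈ rg N δ, ‖γ a‖ ≤ Γ →
      ∑ m ∈ BilW_rr N δ, ‖∑ a ∈ rg N δ, γ a * φ (a * m)‖ ^ 2 / m ≤
        C / Real.log N * ∑ m ∈ rg N δ, ‖∑ a ∈ rg N δ, γ a * φ (a * m)‖ ^ 2 / m + ε * Γ ^ 2

lemma BilW_mem {N : ℕ} {δ : ℝ} {a : ℕ} (h : a ∈ rg N δ) : 1 ≤ a ∧ a ≤ N ^ 2 := by
  rw [rg, mem_Ioc] at h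
  omega

lemma BilW_sq (z : ℂ) : ((‖z‖ ^ 2 : ℝ) : ℂ) = z * conj z := by
  rw [Complex.mul_conj, Complex.normSq_eq_norm_sq]

lemma BilW_one {b : ℝ → ℝ} (hb : LocPoly b) : BilW_One fun n => ec (b n) := by
  intro δ ε hδ hε
  obtain ⟨D, hD⟩ := hb δ hδ
  obtain ⟨u, w, hu, hδu, hm⟩ := majlog D hδ hε
  have hu' : (1 : ℝ) ≤ u := by exact_mod_cast hu
  refine ⟨u * (Vp 0 w)⁻¹, mul_nonneg (by positivity) (inv_nonneg.mpr (Vp_pos 0 w).le), ?_⟩
  filter_upwards [hD, hm, eventually_ge_atTop 2] with N hD hm hN γ Γ hΓ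
  have hN1 : (1 : ℝ) < N := by exact_mod_cast hN
  have hL : 0 < Real.log N := Real.log_pos hN1
  set z := ⌊(N : ℝ) ^ (1 / u : ℝ)⌋₊ with hz
  set S : ℕ → ℝ := fun m => ‖∑ a ∈ rg N δ, γ a * ec (b ((a * m : ℕ) : ℝ))‖ ^ 2 with hS
  have hS0 : ∀ m, 0 ≤ S m := fun m => sq_nonneg _
  have hzz : z ≤ ⌊(N : ℝ) ^ δ⌋₊ := by
    refine Nat.floor_le_floor (Real.rpow_le_rpow_of_exponent_le hN1.le ?_)
    rw [div_le_iff₀ (by positivity)]
    exact hδu
  have hΓ0 : 0 ≤ Γ := (sum_nonneg fun _ _ => norm_nonneg _).trans hΓ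
  -- the pairs
  have hp : ∀ a ∈ rg N δ, ∀ a' ∈ rg N δ,
      ‖∑ n ∈ rg N δ, ((nuI 0 z n - nuI 0 w n : ℝ) : ℂ) *
        (ec (b ((a * n : ℕ) : ℝ)) * conj (ec (b ((a' * n : ℕ) : ℝ)))) / n‖ ≤
          ε / u ^ 2 * Real.log N := by
    intro a ha a' ha'
    refine hm ⌊(N : ℝ) ^ δ⌋₊ (N ^ 2) (Nat.lt_floor_add_one _).le
      (Nat.pow_le_pow_right (by omega) (by omega))
      (fun n => ec (b ((a * n : ℕ) : ℝ)) * conj (ec (b ((a' * n : ℕ) : ℝ))))
      (fun n => by simp) fun y hy1 hy2 => ?_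
    have hy : (N : ℝ) ^ δ ≤ y := by
      have h1 : ((⌊(N : ℝ) ^ δ⌋₊ + 1 : ℕ) : ℝ) ≤ y := by exact_mod_cast hy1
      have h2 := Nat.lt_floor_add_one ((N : ℝ) ^ δ)
      push_cast at h1
      linarith
    have hy3 : y ≤ N ^ 3 := hy2.trans (Nat.pow_le_pow_right (by omega) (by omega))
    obtain ⟨Q, hQ, hQb⟩ := hD a y (BilW_mem ha).1 (BilW_mem ha).2 hy hy3
    obtain ⟨Q', hQ', hQb'⟩ := hD a' y (BilW_mem ha').1 (BilW_mem ha').2 hy hy3
    refine ⟨Q - Q', (Polynomial.natDegree_sub_le _ _).trans (max_le hQ hQ'), fun x hx => ?_⟩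
    rw [← ec_sub, Polynomial.eval_sub]
    refine (norm_ec_sub _ _).trans ?_
    have h1 := abs_le.mp (hQb x hx)
    have h2 := abs_le.mp (hQb' x hx)
    have h3 : (0 : ℝ) ≤ (N : ℝ)⁻¹ := by positivity
    have h4 : |b ((a * (y + x) : ℕ) : ℝ) - b ((a' * (y + x) : ℕ) : ℝ) -
        (Q.eval (x : ℝ) - Q'.eval (x : ℝ))| ≤ (N : ℝ)⁻¹ / 10 := by
      rw [abs_le]
      constructor <;> linarith [h1.1, h1.2, h2.1, h2.2]
    linarith
  have h1 : |∑ n ∈ rg N δ, (nuI 0 z n - nuI 0 w n) * S n / n| ≤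
      ε / u ^ 2 * Real.log N * Γ ^ 2 := by
    have e : ((∑ n ∈ rg N δ, (nuI 0 z n - nuI 0 w n) * S n / n : ℝ) : ℂ) =
        ∑ a ∈ rg N δ, ∑ a' ∈ rg N δ, γ a * conj (γ a') *
          ∑ n ∈ rg N δ, ((nuI 0 z n - nuI 0 w n : ℝ) : ℂ) *
            (ec (b ((a * n : ℕ) : ℝ)) * conj (ec (b ((a' * n : ℕ) : ℝ)))) / n := by
      simp only [mul_sum]
      rw [Complex.ofReal_sum]
      symm
      rw [sum_congr rfl fun a _ => sum_comm, sum_comm]
      refine sum_congr rfl fun n _ => ?_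
      rw [Complex.ofReal_div, Complex.ofReal_mul, hS, BilW_sq, map_sum, sum_mul_sum, mul_sum,
        sum_div]
      refine sum_congr rfl fun a _ => ?_
      rw [mul_sum, sum_div]
      refine sum_congr rfl fun a' _ => ?_
      rw [map_mul, Complex.ofReal_natCast]
      ring
    rw [← Real.norm_eq_abs, ← Complex.norm_real, e]
    have hc : 0 ≤ ε / u ^ 2 * Real.log N := by positivity
    calc _ ≤ ∑ a ∈ rg N δ, ∑ a' ∈ rg N δ, ‖γ a‖ * ‖γ a'‖ * (ε / u ^ 2 * Real.log N) := by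
          refine (norm_sum_le _ _).trans (sum_le_sum fun a ha => ?_)
          refine (norm_sum_le _ _).trans (sum_le_sum fun a' ha' => ?_)
          rw [norm_mul, norm_mul, Complex.norm_conj]
          exact mul_le_mul_of_nonneg_left (hp a ha a' ha') (by positivity)
      _ = ε / u ^ 2 * Real.log N * (∑ a ∈ rg N δ, ‖γ a‖) ^ 2 := by
          rw [sq (∑ a ∈ rg N δ, ‖γ a‖), sum_mul_sum, mul_sum]
          refine sum_congr rfl fun a _ => ?_
          rw [mul_sum]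
          exact sum_congr rfl fun a' _ => by ring
      _ ≤ _ := mul_le_mul_of_nonneg_left
          (pow_le_pow_left₀ (sum_nonneg fun _ _ => norm_nonneg _) hΓ 2) hc
  have h2 : ∑ m ∈ BilW_rr N δ, S m / m ≤ Vp 0 z * ∑ n ∈ rg N δ, nuI 0 z n * S n / n := by
    rw [mul_sum, BilW_rr, sum_filter]
    refine sum_le_sum fun n _ => ?_
    split_ifs with hn
    · rw [nuI, if_pos (Rough.mono hzz hn), ← mul_div_assoc, ← mul_assoc,
        mul_inv_cancel₀ (Vp_pos 0 z).ne', one_mul]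
    · exact mul_nonneg (Vp_pos 0 z).le
        (div_nonneg (mul_nonneg (nuI_nonneg _ _ _) (hS0 n)) (Nat.cast_nonneg n))
  have h3 : ∑ n ∈ rg N δ, nuI 0 w n * S n / n ≤ (Vp 0 w)⁻¹ * ∑ n ∈ rg N δ, S n / n := by
    rw [mul_sum]
    refine sum_le_sum fun n _ => ?_
    rw [mul_div_assoc]
    exact mul_le_mul_of_nonneg_right (nuI_le _ _ _) (div_nonneg (hS0 n) (Nat.cast_nonneg n))
  have h4 : ∑ n ∈ rg N δ, nuI 0 z n * S n / n =
      ∑ n ∈ rg N δ, (nuI 0 z n - nuI 0 w n) * S n / n + ∑ n ∈ rg N δ, nuI 0 w n * S n / n := by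
    rw [← sum_add_distrib]
    exact sum_congr rfl fun n _ => by ring
  have h5 : Vp 0 z ≤ u / Real.log N := Vp_le_div hN hu
  have h6 : 0 ≤ ∑ n ∈ rg N δ, nuI 0 z n * S n / n := sum_nonneg fun n _ =>
    div_nonneg (mul_nonneg (nuI_nonneg _ _ _) (hS0 n)) (Nat.cast_nonneg n)
  have h7 : ∑ n ∈ rg N δ, nuI 0 z n * S n / n ≤
      ε / u ^ 2 * Real.log N * Γ ^ 2 + (Vp 0 w)⁻¹ * ∑ n ∈ rg N δ, S n / n := by
    rw [h4]
    exact add_le_add ((le_abs_self _).trans h1) h3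
  have h8 : (u : ℝ) / Real.log N * (ε / u ^ 2 * Real.log N * Γ ^ 2) ≤ ε * Γ ^ 2 := by
    have e : (u : ℝ) / Real.log N * (ε / u ^ 2 * Real.log N * Γ ^ 2) = ε * Γ ^ 2 / u := by
      field_simp
    rw [e]
    exact div_le_self (by positivity) hu'
  calc ∑ m ∈ BilW_rr N δ, S m / m ≤ u / Real.log N * ∑ n ∈ rg N δ, nuI 0 z n * S n / n :=
        h2.trans (mul_le_mul_of_nonneg_right h5 h6)
    _ ≤ u / Real.log N *
        (ε / u ^ 2 * Real.log N * Γ ^ 2 + (Vp 0 w)⁻¹ * ∑ n ∈ rg N δ, S n / n) :=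
        mul_le_mul_of_nonneg_left h7 (by positivity)
    _ ≤ u * (Vp 0 w)⁻¹ / Real.log N * ∑ n ∈ rg N δ, S n / n + ε * Γ ^ 2 := by
        rw [mul_add, add_comm]
        exact add_le_add (le_of_eq (by ring)) h8

/-- Mass of coefficients supported on rough numbers. -/
lemma BilW_mass {N : ℕ} {δ : ℝ} {c : ℕ → ℂ} (hc : ∀ n, ‖c n‖ ≤ 1)
    (hr : ∀ n, c n ≠ 0 → Rough 0 ⌊(N : ℝ) ^ δ⌋₊ n) {F : ℕ → ℝ} (hF : ∀ n, 0 ≤ F n) :
    ∑ m ∈ rg N δ, ‖c m / m‖ * F m ≤ ∑ m ∈ BilW_rr N δ, F m / m := by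
  rw [BilW_rr, sum_filter]
  refine sum_le_sum fun n _ => ?_
  split_ifs with hn
  · rw [norm_div, Complex.norm_natCast, div_mul_eq_mul_div]
    exact div_le_div_of_nonneg_right (mul_le_of_le_one_left (hF n) (hc n)) (Nat.cast_nonneg n)
  · have : c n = 0 := by
      by_contra h
      exact hn (hr n h)
    simp [this]

/-- Cauchy-Schwarz over the rough numbers. -/
lemma BilW_cs {N : ℕ} {δ G : ℝ} {c : ℕ → ℂ} (hc : ∀ n, ‖c n‖ ≤ 1)
    (hr : ∀ n, c n ≠ 0 → Rough 0 ⌊(N : ℝ) ^ δ⌋₊ n) (hG : ∑ n ∈ BilW_rr N δ, (1 : ℝ) / n ≤ G)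
    (F : ℕ → ℂ) :
    ‖∑ m ∈ rg N δ, c m / m * F m‖ ^ 2 ≤ G * ∑ m ∈ BilW_rr N δ, ‖F m‖ ^ 2 / m := by
  have h1 : ‖∑ m ∈ rg N δ, c m / m * F m‖ ≤ ∑ m ∈ BilW_rr N δ, ‖F m‖ / m := by
    refine (norm_sum_le _ _).trans (le_trans (le_of_eq ?_) (BilW_mass hc hr fun n => norm_nonneg _))
    exact sum_congr rfl fun m _ => norm_mul _ _
  have h2 : (∑ m ∈ BilW_rr N δ, ‖F m‖ / m) ^ 2 ≤
      (∑ n ∈ BilW_rr N δ, (1 : ℝ) / n) * ∑ m ∈ BilW_rr N δ, ‖F m‖ ^ 2 / m :=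
    sum_sq_le_sum_mul_sum_of_sq_le_mul _ (fun _ _ => by positivity) (fun _ _ => by positivity)
      fun _ _ => le_of_eq (by ring)
  refine (pow_le_pow_left₀ (norm_nonneg _) h1 2).trans (h2.trans ?_)
  exact mul_le_mul_of_nonneg_right hG (sum_nonneg fun _ _ => by positivity)

lemma BilW_of {φ : ℕ → ℂ} (hφ : ∀ n, ‖φ n‖ ≤ 1) (h : Bil φ) (h1 : BilW_One φ) : BilR φ := by
  intro δ ε hδ hε
  obtain ⟨G0, hG0⟩ := rough_mass hδ
  obtain ⟨G, hG1, hGG⟩ : ∃ G : ℝ, 1 ≤ G ∧ G0 ≤ G := ⟨max 1 G0, le_max_left _ _, le_max_right _ _⟩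
  have hG : 0 < G := by linarith
  obtain ⟨C, hC, hC1⟩ := h1 δ (ε ^ 2 / (2 * G ^ 3)) hδ (by positivity)
  set τ : ℝ := ε ^ 2 / (2 * G) / (C + 1) with hτ
  have hτ0 : 0 < τ := by positivity
  obtain ⟨C', hC', hC2⟩ := h1 δ (τ ^ 2 / (18 * G ^ 3)) hδ (by positivity)
  have hB := h δ (τ ^ 2 / (6 * (C' + 1) * G ^ 3)) hδ (by positivity)
  filter_upwards [hG0, hC1, hC2, hB, eventually_ge_atTop 3] with N hG0 hC1 hC2 hB hN u v hu hv
    hur hvr
  have hm : ∑ n ∈ BilW_rr N δ, (1 : ℝ) / n ≤ G := hG0.trans hGG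
  have hL : 1 ≤ Real.log N := by
    rw [Real.le_log_iff_exp_le (by positivity)]
    have h3 : (3 : ℝ) ≤ N := by exact_mod_cast hN
    linarith [Real.exp_one_lt_d9]
  set L := Real.log N with hLdef
  have hL0 : 0 < L := by linarith
  have hH : ∑ n ∈ rg N δ, (1 : ℝ) / n ≤ 3 * L := by
    refine (harm_le' _ _).trans ?_
    rw [Nat.cast_pow, Real.log_pow]
    push_cast
    linarith
  have hu1 : ∑ a ∈ rg N δ, ‖u a / a‖ ≤ G := by
    have := BilW_mass hu hur (F := fun _ => 1) fun _ => zero_le_one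
    simp only [mul_one] at this
    exact this.trans hm
  set Φ : ℕ → ℂ := fun m => ∑ a ∈ rg N δ, u a / a * φ (a * m) with hΦ
  have hb : ∀ (γ : ℕ → ℂ) (m : ℕ), ‖∑ a ∈ rg N δ, γ a * φ (a * m)‖ ≤ ∑ a ∈ rg N δ, ‖γ a‖ := by
    intro γ m
    refine (norm_sum_le _ _).trans (sum_le_sum fun a _ => ?_)
    rw [norm_mul]
    exact mul_le_of_le_one_right (norm_nonneg _) (hφ _)
  have hΦb : ∀ m, ‖Φ m‖ ≤ G := fun m => (hb _ m).trans hu1
  have hΦ1 : ∑ m ∈ rg N δ, ‖conj (Φ m) / m‖ ≤ 3 * G * L := by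
    calc _ ≤ ∑ m ∈ rg N δ, G * (1 / m) := by
          refine sum_le_sum fun m _ => ?_
          rw [norm_div, Complex.norm_conj, Complex.norm_natCast, mul_one_div]
          exact div_le_div_of_nonneg_right (hΦb m) (Nat.cast_nonneg m)
      _ ≤ G * (3 * L) := by
          rw [← mul_sum]
          exact mul_le_mul_of_nonneg_left hH hG.le
      _ = _ := by ring
  set Ψ : ℕ → ℂ := fun a => ∑ m ∈ rg N δ, conj (Φ m) / m * φ (m * a) with hΨ
  have hΨb : ∀ a, ‖Ψ a‖ ≤ 3 * G * L := fun a => (hb _ a).trans hΦ1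
  set X : ℝ := ∑ m ∈ rg N δ, ‖Φ m‖ ^ 2 / m with hX
  set Y : ℝ := ∑ a ∈ rg N δ, ‖Ψ a‖ ^ 2 / a with hY
  have hX0 : 0 ≤ X := sum_nonneg fun _ _ => by positivity
  have hY0 : 0 ≤ Y := sum_nonneg fun _ _ => by positivity
  have eT : ∑ a ∈ rg N δ, ∑ m ∈ rg N δ, u a * v m * φ (a * m) / (a * m) =
      ∑ m ∈ rg N δ, v m / m * Φ m := by
    rw [sum_comm]
    refine sum_congr rfl fun m _ => ?_
    rw [hΦ, mul_sum]
    exact sum_congr rfl fun a _ => by ring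
  have eX : (X : ℂ) = ∑ a ∈ rg N δ, u a / a * Ψ a := by
    simp only [hΨ, mul_sum]
    rw [sum_comm, hX, Complex.ofReal_sum]
    refine sum_congr rfl fun m _ => ?_
    rw [Complex.ofReal_div, BilW_sq, Complex.ofReal_natCast]
    conv_lhs => rw [mul_comm, mul_div_right_comm]
    conv_lhs => arg 2; rw [hΦ]
    rw [mul_sum]
    refine sum_congr rfl fun a _ => ?_
    rw [mul_comm m a]
    ring
  have hGL : (0 : ℝ) < 3 * G * L := by positivity
  have eY : (Y : ℂ) = ((3 * G * L * G : ℝ) : ℂ) * ∑ a ∈ rg N δ, ∑ m ∈ rg N δ,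
      conj (Ψ a) / ((3 * G * L : ℝ) : ℂ) * (conj (Φ m) / (G : ℂ)) * φ (a * m) / (a * m) := by
    rw [hY, Complex.ofReal_sum, mul_sum]
    refine sum_congr rfl fun a _ => ?_
    rw [Complex.ofReal_div, BilW_sq, Complex.ofReal_natCast]
    conv_lhs => rw [mul_comm, mul_div_right_comm]
    conv_lhs => arg 2; rw [hΨ]
    rw [mul_sum, mul_sum]
    refine sum_congr rfl fun m _ => ?_
    have e1 : ((3 * G * L : ℝ) : ℂ) ≠ 0 := by exact_mod_cast hGL.ne'
    have e2 : (G : ℂ) ≠ 0 := by exact_mod_cast hG.ne'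
    rw [mul_comm m a, Complex.ofReal_mul (3 * G * L) G]
    generalize ((3 * G * L : ℝ) : ℂ) = A at e1 ⊢
    have e3 : A * A⁻¹ = 1 := mul_inv_cancel₀ e1
    have e4 : (G : ℂ) * (G : ℂ)⁻¹ = 1 := mul_inv_cancel₀ e2
    calc _ = A * A⁻¹ * (G * (G : ℂ)⁻¹) * (conj (Ψ a) / a * (conj (Φ m) / m * φ (a * m))) := by
          rw [e3, e4, one_mul, one_mul]
      _ = _ := by ring
  have hYb : Y ≤ 3 * G * L * G * (τ ^ 2 / (6 * (C' + 1) * G ^ 3) * L ^ 2) := by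
    have h2 := hB (fun a => conj (Ψ a) / ((3 * G * L : ℝ) : ℂ)) (fun m => conj (Φ m) / (G : ℂ))
      (fun a => by
        rw [norm_div, Complex.norm_conj, Complex.norm_real, Real.norm_of_nonneg hGL.le]
        exact (div_le_one hGL).mpr (hΨb a))
      (fun m => by
        rw [norm_div, Complex.norm_conj, Complex.norm_real, Real.norm_of_nonneg hG.le]
        exact (div_le_one hG).mpr (hΦb m))
    rw [← Real.norm_of_nonneg hY0, ← Complex.norm_real, eY, norm_mul, Complex.norm_real,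
      Real.norm_of_nonneg (by positivity)]
    exact mul_le_mul_of_nonneg_left h2 (by positivity)
  have hXb : X ^ 2 ≤ (τ * L) ^ 2 := by
    have h2 := BilW_cs hu hur hm Ψ
    rw [← eX, Complex.norm_real, Real.norm_of_nonneg hX0] at h2
    have h3 : ∑ a ∈ BilW_rr N δ, ‖Ψ a‖ ^ 2 / a ≤
        C' / L * Y + τ ^ 2 / (18 * G ^ 3) * (3 * G * L) ^ 2 := hC2 _ _ hΦ1
    have h4 : C' / L * Y ≤
        (C' + 1) / L * (3 * G * L * G * (τ ^ 2 / (6 * (C' + 1) * G ^ 3) * L ^ 2)) :=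
      mul_le_mul (div_le_div_of_nonneg_right (by linarith) hL0.le) hYb hY0 (by positivity)
    calc X ^ 2 ≤ G * ((C' + 1) / L * (3 * G * L * G * (τ ^ 2 / (6 * (C' + 1) * G ^ 3) * L ^ 2)) +
          τ ^ 2 / (18 * G ^ 3) * (3 * G * L) ^ 2) :=
          h2.trans (mul_le_mul_of_nonneg_left (h3.trans (by linarith)) hG.le)
      _ = _ := by
          field_simp
          ring
  have hXb' : X ≤ τ * L := le_of_sq_le_sq hXb (by positivity)
  have h2 := BilW_cs hv hvr hm Φ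
  have h3 : ∑ m ∈ BilW_rr N δ, ‖Φ m‖ ^ 2 / m ≤ C / L * X + ε ^ 2 / (2 * G ^ 3) * G ^ 2 :=
    hC1 _ _ hu1
  have h4 : C / L * X ≤ (C + 1) / L * (τ * L) :=
    mul_le_mul (div_le_div_of_nonneg_right (by linarith) hL0.le) hXb' hX0 (by positivity)
  rw [eT]
  refine le_of_sq_le_sq ?_ hε.le
  calc _ ≤ G * ((C + 1) / L * (τ * L) + ε ^ 2 / (2 * G ^ 3) * G ^ 2) :=
        h2.trans (mul_le_mul_of_nonneg_left (h3.trans (by linarith)) hG.le)
    _ = _ := by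
        rw [hτ]
        field_simp
        ring

theorem bilw {b : ℝ → ℝ} (hb : LocPoly b) (h : Bil fun n => ec (b n)) :
    BilR fun n => ec (b n) :=
  BilW_of (fun _ => (norm_ec _).le) h (BilW_one hb)

end Pool.Agent.MP_357fb4_an

end
end

section

/-!
Combinatorial part of the decomposition of sums over primes.
-/

open scoped BigOperators Classical ComplexConjugate Polynomial
open Finset Filter MeasureTheory Topology

noncomputable section

namespace Pool.Agent.MP_357fb4_an.PrimeSum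

/-- The weight of the cofactor. -/
def gw (m : ℕ) : ℝ := 1 / ((m.primeFactors.card : ℝ) + 1)

/-- The total weight of the admissible factorisations. -/
def cw (B : ℕ → ℕ → Prop) (n : ℕ) : ℝ :=
  ∑ p ∈ n.primeFactors.filter (fun p => 1 < n / p ∧ B p (n / p)), gw (n / p)

lemma gw_nonneg (m : ℕ) : 0 ≤ gw m := by unfold gw; positivity

lemma gw_le (m : ℕ) : gw m ≤ 1 := by
  rw [gw, div_le_one (by positivity)]
  linarith [Nat.cast_nonneg (α := ℝ) m.primeFactors.card]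

lemma pf_eq {n p : ℕ} (h : p ∈ n.primeFactors) :
    n.primeFactors = insert p (n / p).primeFactors := by
  obtain ⟨h1, ⟨m, rfl⟩, h3⟩ := Nat.mem_primeFactors.1 h
  rw [Nat.mul_div_cancel_left _ h1.pos, Nat.primeFactors_mul h1.ne_zero (right_ne_zero_of_mul h3),
    h1.primeFactors, insert_eq]

lemma cw_nonneg (B : ℕ → ℕ → Prop) (n : ℕ) : 0 ≤ cw B n := sum_nonneg fun _ _ => gw_nonneg _

lemma cw_le (B : ℕ → ℕ → Prop) (n : ℕ) : cw B n ≤ 1 := by
  calc cw B n ≤ ∑ p ∈ n.primeFactors, gw (n / p) :=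
        sum_le_sum_of_subset_of_nonneg (filter_subset _ _) fun _ _ _ => gw_nonneg _
    _ ≤ ∑ _p ∈ n.primeFactors, 1 / (n.primeFactors.card : ℝ) := by
        refine sum_le_sum fun p hp => one_div_le_one_div_of_le ?_ ?_
        · exact_mod_cast card_pos.2 ⟨p, hp⟩
        · have := card_insert_le p (n / p).primeFactors
          rw [← pf_eq hp] at this
          exact_mod_cast this
    _ ≤ 1 := by
        rw [sum_const, nsmul_eq_mul, mul_one_div]
        exact div_self_le_one _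

lemma cw_prime (B : ℕ → ℕ → Prop) {n : ℕ} (h : n.Prime) : cw B n = 0 := by
  rw [cw, h.primeFactors, filter_singleton, if_neg, sum_empty]
  simp [Nat.div_self h.pos]

lemma cw_one (B : ℕ → ℕ → Prop) {n : ℕ} (h1 : 1 < n) (h2 : ¬n.Prime) (h3 : Squarefree n)
    (h4 : ∀ p m, 1 ≤ p → n = p * m → B p m) : cw B n = 1 := by
  have hc : (0 : ℝ) < n.primeFactors.card := by
    exact_mod_cast card_pos.2 (Nat.nonempty_primeFactors.2 h1)
  rw [cw, filter_true_of_mem, sum_congr rfl (g := fun _ => 1 / (n.primeFactors.card : ℝ)),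
    sum_const, nsmul_eq_mul, mul_one_div, div_self hc.ne']
  · intro p hp
    have e := pf_eq hp
    obtain ⟨a1, a2, -⟩ := Nat.mem_primeFactors.1 hp
    have : p ∉ (n / p).primeFactors := fun h =>
      Nat.squarefree_iff_prime_squarefree.1 h3 p a1
        (Nat.mul_dvd_of_dvd_div a2 (Nat.dvd_of_mem_primeFactors h))
    rw [gw, e, card_insert_of_notMem this, Nat.cast_add_one]
  · intro p hp
    obtain ⟨a1, ⟨m, rfl⟩, a3⟩ := Nat.mem_primeFactors.1 hp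
    rw [Nat.mul_div_cancel_left _ a1.pos]
    refine ⟨?_, h4 p m a1.pos rfl⟩
    have m0 : m ≠ 0 := right_ne_zero_of_mul a3
    have m1 : m ≠ 1 := by
      rintro rfl
      exact h2 (by simpa using a1)
    omega

/-- The pointwise identity with its error. -/
lemma point (B : ℕ → ℕ → Prop) {z n : ℕ} (hz : 1 ≤ z) (hn : z < n) {E : Prop} [Decidable E]
    (hB : ¬E → ∀ p m, 1 ≤ p → n = p * m → B p m) :
    |(if Rough 0 z n then 1 - cw B n else 0) - (if n.Prime then 1 else 0)| ≤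
      (if Rough 0 z n ∧ ¬Squarefree n then 1 else 0) + (if Rough 0 z n ∧ E then 1 else 0) := by
  have a1 := cw_nonneg B n
  have a2 := cw_le B n
  by_cases hp : n.Prime
  · rw [if_pos (rough_prime hp hn), if_pos hp, cw_prime B hp]
    simp only [sub_zero, sub_self, abs_zero]
    positivity
  rw [if_neg hp, sub_zero]
  by_cases hr : Rough 0 z n
  · simp only [hr, if_true, true_and]
    rw [abs_of_nonneg (by linarith)]
    by_cases h3 : Squarefree n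
    · by_cases hE : E
      · simp [h3, hE, a1]
      · simp [h3, hE, cw_one B (by omega) hp h3 (hB hE)]
    · rw [if_pos h3]
      split_ifs <;> linarith
  · simp [hr]

/-- Passing from integers to factorisations. -/
lemma conv (B : ℕ → ℕ → Prop) {z N : ℕ} (hz : 2 ≤ z)
    (hB : ∀ p m, 1 ≤ p → B p m → N < p * m ∧ p * m ≤ N ^ 2) (φ : ℕ → ℂ) :
    ∑ n ∈ Ioc N (N ^ 2), ((if Rough 0 z n then cw B n else 0 : ℝ) : ℂ) * φ n / n =
      ∑ p ∈ Ioc z (N ^ 2), ∑ m ∈ Ioc z (N ^ 2),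
        if (p.Prime ∧ Rough 0 z p) ∧ Rough 0 z m ∧ B p m then
          (gw m : ℂ) * φ (p * m) / (p * m) else 0 := by
  have e1 : ∀ n : ℕ, ((if Rough 0 z n then cw B n else 0 : ℝ) : ℂ) * φ n / n =
      ∑ p ∈ n.primeFactors.filter (fun p => Rough 0 z n ∧ 1 < n / p ∧ B p (n / p)),
        (gw (n / p) : ℂ) * φ n / n := by
    intro n
    by_cases hr : Rough 0 z n
    · simp only [hr, if_true, true_and, cw, Complex.ofReal_sum, sum_mul, sum_div]
    · simp [hr]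
  simp only [e1]
  rw [sum_sigma', ← sum_product', ← sum_filter]
  refine sum_nbij' (fun x => (x.2, x.1 / x.2)) (fun y => ⟨y.1 * y.2, y.1⟩) ?_ ?_ ?_ ?_ ?_
  · rintro ⟨n, p⟩ h
    simp only [mem_sigma, mem_filter, mem_Ioc, Nat.mem_primeFactors, mem_product] at h ⊢
    obtain ⟨⟨-, a2⟩, ⟨a3, ⟨m, rfl⟩, a5⟩, a6, a7, a8⟩ := h
    rw [Nat.mul_div_cancel_left _ a3.pos] at a7 a8 ⊢
    rw [Nat.cast_mul, rough_mul] at a6
    exact ⟨⟨⟨a6.1.lt a3.ne_one hz, (Nat.le_mul_of_pos_right _ (by omega)).trans a2⟩,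
      a6.2.lt (by omega) hz, (Nat.le_mul_of_pos_left _ a3.pos).trans a2⟩, ⟨a3, a6.1⟩, a6.2, a8⟩
  · rintro ⟨p, m⟩ h
    simp only [mem_sigma, mem_filter, mem_Ioc, Nat.mem_primeFactors, mem_product] at h ⊢
    obtain ⟨⟨-, a1, -⟩, ⟨a3, a4⟩, a5, a6⟩ := h
    rw [Nat.mul_div_cancel_left _ a3.pos, Nat.cast_mul, rough_mul]
    exact ⟨hB p m a3.pos a6, ⟨a3, dvd_mul_right _ _, mul_ne_zero a3.ne_zero (by omega)⟩,
      ⟨a4, a5⟩, by omega, a6⟩
  · rintro ⟨n, p⟩ h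
    simp only [mem_sigma, mem_filter, Nat.mem_primeFactors] at h
    simp only [Nat.mul_div_cancel' h.2.1.2.1]
  · rintro ⟨p, m⟩ h
    simp only [mem_filter] at h
    simp only [Nat.mul_div_cancel_left _ h.2.1.1.pos]
  · rintro ⟨n, p⟩ h
    simp only [mem_sigma, mem_filter, Nat.mem_primeFactors] at h
    simp only [← Nat.cast_mul, Nat.mul_div_cancel' h.2.1.2.1]

/-- Rough numbers that are not squarefree are rare. -/
lemma nsq {z N X : ℕ} (hz : 1 ≤ z) (hX : z ≤ X) :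
    ∑ n ∈ Ioc N X, (if Rough 0 z n ∧ ¬Squarefree n then 1 else 0 : ℝ) / n ≤
      (1 + Real.log X) / z := by
  calc _ = ∑ n ∈ (Ioc N X).filter (fun n : ℕ => Rough 0 z n ∧ ¬Squarefree n), (1 : ℝ) / n := by
        rw [sum_filter]
        exact sum_congr rfl fun n _ => by split_ifs <;> simp
    _ ≤ ∑ n ∈ (Ioc z X ×ˢ Ioc 0 X).image (fun y => y.1 * y.1 * y.2), (1 : ℝ) / n := by
        refine sum_le_sum_of_subset_of_nonneg (fun n hn => ?_) fun _ _ _ => by positivity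
        simp only [mem_filter, mem_Ioc, Nat.squarefree_iff_prime_squarefree, not_forall,
          not_not] at hn
        obtain ⟨⟨a1, a2⟩, a3, p, a4, k, rfl⟩ := hn
        have k0 : 0 < k := Nat.pos_of_mul_pos_left (by omega : 0 < p * p * k)
        have a5 : z < p := by
          by_contra hc
          refine a3 p (mem_filter.2 ⟨mem_Ioc.2 ⟨a4.pos, not_lt.1 hc⟩, a4⟩) ?_
          exact_mod_cast (dvd_mul_right p p).mul_right k
        refine mem_image.2 ⟨(p, k), mem_product.2 ⟨mem_Ioc.2 ⟨a5, le_trans ?_ a2⟩,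
          mem_Ioc.2 ⟨k0, le_trans ?_ a2⟩⟩, rfl⟩
        · exact Nat.le_of_dvd (by omega) ((dvd_mul_right p p).mul_right k)
        · exact Nat.le_of_dvd (by omega) (dvd_mul_left k _)
    _ ≤ ∑ y ∈ Ioc z X ×ˢ Ioc 0 X, (1 : ℝ) / (y.1 * y.1 * y.2 : ℕ) :=
        sum_image_le_of_nonneg fun _ _ => by positivity
    _ = (∑ p ∈ Ioc z X, ((p : ℝ) ^ 2)⁻¹) * ∑ k ∈ Ioc 0 X, (1 : ℝ) / k := by
        rw [sum_mul_sum, sum_product]
        refine sum_congr rfl fun p _ => sum_congr rfl fun k _ => ?_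
        push_cast
        ring
    _ ≤ (z : ℝ)⁻¹ * (1 + Real.log X) := by
        refine mul_le_mul ((sum_Ioc_inv_sq_le_sub (by omega) hX).trans ?_) (harm_le' 0 X)
          (sum_nonneg fun _ _ => by positivity) (by positivity)
        exact sub_le_self _ (by positivity)
    _ = _ := by ring

lemma ind_eq (w z : ℕ) (n : ℤ) : (if Rough w z n then 1 else 0 : ℝ) = Vp w z * nuI w z n := by
  unfold nuI
  split_ifs
  · exact (mul_inv_cancel₀ (Vp_pos w z).ne').symm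
  · simp

/-- Removing the normalisation. -/
lemma unnorm {z w : ℕ} (s : Finset ℕ) (φ : ℕ → ℂ) {V A C : ℝ} (hV : Vp 0 z ≤ V)
    (h1 : ‖∑ n ∈ s, ((nuI 0 z n - nuI 0 w n : ℝ) : ℂ) * φ n / n‖ ≤ A)
    (h2 : ‖∑ n ∈ s, ((if Rough 0 w n then 1 else 0 : ℝ) : ℂ) * φ n / n‖ ≤ C) :
    ‖∑ n ∈ s, ((if Rough 0 z n then 1 else 0 : ℝ) : ℂ) * φ n / n‖ ≤ V * (A + (Vp 0 w)⁻¹ * C) := by
  have hw := Vp_pos 0 w
  have hz := Vp_pos 0 z
  have e : ∑ n ∈ s, ((if Rough 0 z n then 1 else 0 : ℝ) : ℂ) * φ n / n =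
      (Vp 0 z : ℂ) * (∑ n ∈ s, ((nuI 0 z n - nuI 0 w n : ℝ) : ℂ) * φ n / n +
        (((Vp 0 w)⁻¹ : ℝ) : ℂ) * ∑ n ∈ s, ((if Rough 0 w n then 1 else 0 : ℝ) : ℂ) * φ n / n) := by
    rw [mul_sum, ← sum_add_distrib, mul_sum]
    refine sum_congr rfl fun n _ => ?_
    have : (Vp 0 w : ℂ) ≠ 0 := by exact_mod_cast hw.ne'
    rw [ind_eq, ind_eq]
    push_cast
    field_simp
    ring
  rw [e, norm_mul, Complex.norm_real, Real.norm_of_nonneg hz.le]
  refine mul_le_mul hV ((norm_add_le _ _).trans (add_le_add h1 ?_)) (norm_nonneg _)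
    (hz.le.trans hV)
  rw [norm_mul, Complex.norm_real, Real.norm_of_nonneg (by positivity)]
  exact mul_le_mul_of_nonneg_left h2 (by positivity)

/-- The mass of the rough numbers in a range. -/
lemma mass {z w a b : ℕ} (ha : 1 ≤ a) (hab : a ≤ b) {V A : ℝ} (hV : Vp 0 z ≤ V)
    (h1 : ‖∑ n ∈ Ioc a b, ((nuI 0 z n - nuI 0 w n : ℝ) : ℂ) * 1 / n‖ ≤ A) :
    ∑ n ∈ Ioc a b, (if Rough 0 z n then 1 else 0 : ℝ) / n ≤
      V * (A + (Vp 0 w)⁻¹ * (Real.log b - Real.log a)) := by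
  have e : ∀ y : ℕ, ‖∑ n ∈ Ioc a b, ((if Rough 0 y n then 1 else 0 : ℝ) : ℂ) * 1 / n‖ =
      ∑ n ∈ Ioc a b, (if Rough 0 y n then 1 else 0 : ℝ) / n := by
    intro y
    rw [← Real.norm_of_nonneg (r := ∑ n ∈ Ioc a b, (if Rough 0 y n then 1 else 0 : ℝ) / n)
      (sum_nonneg fun n _ => by positivity), ← Complex.norm_real]
    simp only [mul_one, Complex.ofReal_sum, Complex.ofReal_div, Complex.ofReal_natCast]
  rw [← e]
  refine unnorm _ (fun _ => 1) hV h1 ?_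
  rw [e]
  refine le_trans (sum_le_sum fun n _ => ?_) (harm_le ha hab)
  split_ifs
  · exact le_rfl
  · rw [zero_div]
    positivity

end Pool.Agent.MP_357fb4_an.PrimeSum

end
end

section

/-!
Sums over primes from type I and type II information.
-/

open scoped BigOperators Classical ComplexConjugate Polynomial
open Finset Filter MeasureTheory Topology

noncomputable section

namespace Pool.Agent.MP_357fb4_an

namespace PrimeSum

/-- Splitting into cells. -/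
lemma cells (φ : ℕ → ℂ) {z X K : ℕ} (idx : ℕ → ℕ) (hidx : ∀ p ∈ Ioc z X, idx p < K)
    (C : ℕ → ℕ → Prop) {ε : ℝ}
    (h : ∀ u v : ℕ → ℂ, (∀ n, ‖u n‖ ≤ 1) → (∀ n, ‖v n‖ ≤ 1) → (∀ n, u n ≠ 0 → Rough 0 z n) →
      (∀ n, v n ≠ 0 → Rough 0 z n) →
        ‖∑ a ∈ Ioc z X, ∑ m ∈ Ioc z X, u a * v m * φ (a * m) / (a * m)‖ ≤ ε) :
    ‖∑ p ∈ Ioc z X, ∑ m ∈ Ioc z X,
      if (p.Prime ∧ Rough 0 z p) ∧ Rough 0 z m ∧ C (idx p) m then
        (gw m : ℂ) * φ (p * m) / (p * m) else 0‖ ≤ K * ε := by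
  have e : (∑ p ∈ Ioc z X, ∑ m ∈ Ioc z X,
      if (p.Prime ∧ Rough 0 z p) ∧ Rough 0 z m ∧ C (idx p) m then
        (gw m : ℂ) * φ (p * m) / (p * m) else 0) =
      ∑ i ∈ range K, ∑ p ∈ Ioc z X, ∑ m ∈ Ioc z X,
        (if (p.Prime ∧ Rough 0 z p) ∧ idx p = i then 1 else 0) *
          (if Rough 0 z m ∧ C i m then (gw m : ℂ) else 0) * φ (p * m) / (p * m) := by
    rw [sum_comm (s := range K)]
    refine sum_congr rfl fun p hp => ?_
    rw [sum_eq_single_of_mem (idx p) (mem_range.2 (hidx p hp))]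
    · refine sum_congr rfl fun m _ => ?_
      by_cases h1 : p.Prime ∧ Rough 0 z p <;> by_cases h2 : Rough 0 z m ∧ C (idx p) m <;>
        simp only [h1, h2, and_self, and_true, and_false, if_true, if_false, one_mul, zero_mul,
          mul_zero, zero_div]
    · intro i _ hi
      simp [hi.symm]
  rw [e]
  refine (norm_sum_le _ _).trans ((sum_le_card_nsmul _ _ ε fun i _ => ?_).trans (by simp))
  refine h _ _ (fun n => ?_) (fun n => ?_) (fun n hn => ?_) fun n hn => ?_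
  · split_ifs <;> simp
  · split_ifs
    · rw [Complex.norm_real, Real.norm_of_nonneg (gw_nonneg n)]
      exact gw_le n
    · simp
  · exact (ite_ne_right_iff.1 hn).1.1.2
  · exact (ite_ne_right_iff.1 hn).1.1

/-- The estimate for one value of N. -/
lemma core (φ : ℕ → ℂ) (hφ : ∀ n, ‖φ n‖ ≤ 1) {N z w k : ℕ} {t V A C ε : ℝ} (ht : 1 < t)
    (hk : k ≠ 0) (htk : t ^ k = N) (hz : 2 ≤ z) (hzN : z ≤ N) (hV : Vp 0 z ≤ V)
    (h1 : ‖∑ n ∈ Ioc N (N ^ 2), ((nuI 0 z n - nuI 0 w n : ℝ) : ℂ) * φ n / n‖ ≤ A)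
    (h2 : ‖∑ n ∈ Ioc N (N ^ 2), ((if Rough 0 w n then 1 else 0 : ℝ) : ℂ) * φ n / n‖ ≤ C)
    (h3 : ∀ a b : ℕ, N ≤ a → b ≤ N ^ 2 →
      ‖∑ n ∈ Ioc a b, ((nuI 0 z n - nuI 0 w n : ℝ) : ℂ) * 1 / n‖ ≤ A)
    (h4 : ∀ u v : ℕ → ℂ, (∀ n, ‖u n‖ ≤ 1) → (∀ n, ‖v n‖ ≤ 1) → (∀ n, u n ≠ 0 → Rough 0 z n) →
      (∀ n, v n ≠ 0 → Rough 0 z n) →
        ‖∑ a ∈ Ioc z (N ^ 2), ∑ m ∈ Ioc z (N ^ 2), u a * v m * φ (a * m) / (a * m)‖ ≤ ε) :
    ‖∑ p ∈ (Ioc N (N ^ 2)).filter Nat.Prime, φ p / p‖ ≤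
      V * (A + (Vp 0 w)⁻¹ * C) + (2 * k + 1 : ℕ) * ε + ((1 + Real.log (N ^ 2 : ℕ)) / z +
        2 * (V * (A + (Vp 0 w)⁻¹ * Real.log (2 * t)))) := by
  have t0 : 0 < t := by linarith
  have tN : t ≤ N := htk ▸ le_self_pow₀ ht.le hk
  have N0 : (0 : ℝ) < N := by linarith
  have hw := Vp_pos 0 w
  have V0 : 0 ≤ V := (Vp_pos 0 z).le.trans hV
  have hex : ∀ p : ℕ, ∃ i : ℕ, 1 ≤ p → t ^ i ≤ p ∧ p < t ^ (i + 1) := by
    intro p
    by_cases hp : 1 ≤ p
    · obtain ⟨i, hi⟩ := exists_nat_pow_near (x := (p : ℝ)) (by exact_mod_cast hp) ht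
      exact ⟨i, fun _ => hi⟩
    · exact ⟨0, fun h => absurd h hp⟩
  choose idx hidx using hex
  set Cc : ℕ → ℕ → Prop := fun i m => (N : ℝ) < t ^ i * m ∧ t ^ (i + 1) * m ≤ (N : ℝ) ^ 2
  set B : ℕ → ℕ → Prop := fun p m => Cc (idx p) m
  have hB : ∀ p m, 1 ≤ p → B p m → N < p * m ∧ p * m ≤ N ^ 2 := by
    intro p m hp hb
    obtain ⟨a1, a2⟩ := hidx p hp
    have m0 : (0 : ℝ) ≤ m := Nat.cast_nonneg m
    constructor
    · exact_mod_cast hb.1.trans_le (mul_le_mul_of_nonneg_right a1 m0)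
    · exact_mod_cast (mul_le_mul_of_nonneg_right a2.le m0).trans hb.2
  have hE : ∀ n : ℕ, ¬((n : ℝ) ≤ N * t ∨ (N : ℝ) ^ 2 / t < n) →
      ∀ p m, 1 ≤ p → n = p * m → B p m := by
    rintro _ hn p m hp rfl
    obtain ⟨a1, a2⟩ := hidx p hp
    have m0 : (0 : ℝ) ≤ m := Nat.cast_nonneg m
    rw [not_or, not_le, not_lt, le_div_iff₀ t0, Nat.cast_mul] at hn
    constructor
    · refine lt_of_mul_lt_mul_right (hn.1.trans_le ?_) t0.le
      rw [mul_right_comm, ← pow_succ]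
      exact mul_le_mul_of_nonneg_right a2.le m0
    · refine le_trans ?_ hn.2
      rw [pow_succ, mul_right_comm]
      exact mul_le_mul_of_nonneg_right (mul_le_mul_of_nonneg_right a1 m0) t0.le
  have b1 := unnorm _ φ hV h1 h2
  have b2 := cells φ (K := 2 * k + 1) idx (fun p hp => by
    obtain ⟨a1, a2⟩ := mem_Ioc.1 hp
    have a3 : t ^ idx p ≤ t ^ (k * 2) := by
      rw [pow_mul, htk]
      exact (hidx p (by omega)).1.trans (by exact_mod_cast a2)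
    have := (pow_le_pow_iff_right₀ ht).1 a3
    omega) Cc h4
  rw [← conv B hz hB φ] at b2
  have b3 := nsq (N := N) (X := N ^ 2) (by omega : 1 ≤ z) (hzN.trans (Nat.le_self_pow two_ne_zero N))
  have c1 : N ≤ ⌊N * t⌋₊ := Nat.le_floor (le_mul_of_one_le_right N0.le ht.le)
  have c2 : ⌊N * t⌋₊ ≤ N ^ 2 := Nat.floor_le_of_le (by push_cast; nlinarith)
  have c0 : (N : ℝ) ≤ (N : ℝ) ^ 2 / t := by rw [le_div_iff₀ t0]; nlinarith
  have c3 : N ≤ ⌊(N : ℝ) ^ 2 / t⌋₊ := Nat.le_floor c0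
  have c4 : ⌊(N : ℝ) ^ 2 / t⌋₊ ≤ N ^ 2 :=
    Nat.floor_le_of_le (by push_cast; exact div_le_self (by positivity) ht.le)
  have b4 := mass (by omega) c1 hV (h3 _ _ le_rfl c2)
  have b5 := mass (by omega) c4 hV (h3 _ _ c3 le_rfl)
  have d1 : Real.log ⌊N * t⌋₊ - Real.log N ≤ Real.log (2 * t) := by
    have : (N : ℝ) ≤ ⌊N * t⌋₊ := by exact_mod_cast c1
    rw [← Real.log_div (by linarith) N0.ne']
    refine Real.log_le_log (div_pos (by linarith) N0) ?_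
    rw [div_le_iff₀ N0]
    nlinarith [Nat.floor_le (mul_pos N0 t0).le]
  have d2 : Real.log (N ^ 2 : ℕ) - Real.log ⌊(N : ℝ) ^ 2 / t⌋₊ ≤ Real.log (2 * t) := by
    have a1 : (N : ℝ) ≤ ⌊(N : ℝ) ^ 2 / t⌋₊ := by exact_mod_cast c3
    have a2 := Nat.lt_floor_add_one ((N : ℝ) ^ 2 / t)
    rw [div_lt_iff₀ t0] at a2
    push_cast
    rw [← Real.log_div (by positivity) (by linarith)]
    refine Real.log_le_log (div_pos (by positivity) (by linarith)) ?_
    rw [div_le_iff₀ (by linarith)]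
    nlinarith
  have b6 : ∑ n ∈ Ioc N (N ^ 2),
      (if Rough 0 z n ∧ ((n : ℝ) ≤ N * t ∨ (N : ℝ) ^ 2 / t < n) then 1 else 0 : ℝ) / n ≤
        2 * (V * (A + (Vp 0 w)⁻¹ * Real.log (2 * t))) := by
    calc _ = ∑ n ∈ (Ioc N (N ^ 2)).filter (fun n : ℕ => (n : ℝ) ≤ N * t ∨ (N : ℝ) ^ 2 / t < n),
          (if Rough 0 z n then 1 else 0 : ℝ) / n := by
          rw [sum_filter]
          refine sum_congr rfl fun n _ => ?_
          by_cases a1 : Rough 0 z n <;>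
            by_cases a2 : (n : ℝ) ≤ N * t ∨ (N : ℝ) ^ 2 / t < n <;> simp [a1, a2]
      _ ≤ ∑ n ∈ Ioc N ⌊N * t⌋₊ ∪ Ioc ⌊(N : ℝ) ^ 2 / t⌋₊ (N ^ 2),
          (if Rough 0 z n then 1 else 0 : ℝ) / n := by
          refine sum_le_sum_of_subset_of_nonneg (fun n hn => ?_) fun _ _ _ => by positivity
          simp only [mem_filter, mem_Ioc, mem_union] at hn ⊢
          exact hn.2.imp (fun h => ⟨hn.1.1, Nat.le_floor h⟩)
            fun h => ⟨(Nat.floor_lt (by positivity)).2 h, hn.1.2⟩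
      _ ≤ _ := by
          have := sum_union_inter (s₁ := Ioc N ⌊N * t⌋₊) (s₂ := Ioc ⌊(N : ℝ) ^ 2 / t⌋₊ (N ^ 2))
            (f := fun n : ℕ => (if Rough 0 z n then 1 else 0 : ℝ) / n)
          have a0 : 0 ≤ ∑ n ∈ Ioc N ⌊N * t⌋₊ ∩ Ioc ⌊(N : ℝ) ^ 2 / t⌋₊ (N ^ 2),
            (if Rough 0 z n then 1 else 0 : ℝ) / n := sum_nonneg fun _ _ => by positivity
          have a1 := mul_le_mul_of_nonneg_left
            (add_le_add_right (mul_le_mul_of_nonneg_left d1 (inv_pos.2 hw).le) A) V0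
          have a2 := mul_le_mul_of_nonneg_left
            (add_le_add_right (mul_le_mul_of_nonneg_left d2 (inv_pos.2 hw).le) A) V0
          linarith
  have e : ∑ p ∈ (Ioc N (N ^ 2)).filter Nat.Prime, φ p / p =
      ∑ n ∈ Ioc N (N ^ 2), ((if Rough 0 z n then 1 else 0 : ℝ) : ℂ) * φ n / n -
        ∑ n ∈ Ioc N (N ^ 2), ((if Rough 0 z n then cw B n else 0 : ℝ) : ℂ) * φ n / n -
          ∑ n ∈ Ioc N (N ^ 2), (((if Rough 0 z n then 1 - cw B n else 0) -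
            (if n.Prime then 1 else 0) : ℝ) : ℂ) * φ n / n := by
    rw [sum_filter, ← sum_sub_distrib, ← sum_sub_distrib]
    refine sum_congr rfl fun n _ => ?_
    split_ifs <;> push_cast <;> ring
  rw [e]
  refine (norm_sub_le _ _).trans (add_le_add ((norm_sub_le _ _).trans (add_le_add b1 b2)) ?_)
  refine (norm_sum_le _ _).trans (le_trans ?_ (add_le_add b3 b6))
  rw [← sum_add_distrib]
  refine sum_le_sum fun n hn => ?_
  rw [← add_div, norm_div, norm_mul, Complex.norm_real, Complex.norm_natCast]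
  refine div_le_div_of_nonneg_right ?_ (Nat.cast_nonneg n)
  exact (mul_le_of_le_one_right (norm_nonneg _) (hφ n)).trans
    (point B (by omega) (hzN.trans_lt (mem_Ioc.1 hn).1) (hE n))

lemma rough_per (w n : ℕ) : Rough 0 w (n + primorial w : ℕ) ↔ Rough 0 w n := by
  refine forall₂_congr fun p hp => not_congr ?_
  obtain ⟨a1, a2⟩ := mem_filter.1 hp
  rw [Nat.cast_add]
  exact dvd_add_left (by exact_mod_cast a2.dvd_primorial_iff.2 (mem_Ioc.1 a1).2)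

end PrimeSum

open PrimeSum in
theorem primesum {b : ℝ → ℝ} (hb : LocPoly b) (h1 : TI fun n => ec (b n))
    (h2 : BilR fun n => ec (b n)) : LocI fun n => ec (b n) := by
  rw [LocI, NormedAddGroup.tendsto_nhds_zero]
  intro η hη
  obtain ⟨ε, hε, rfl⟩ : ∃ ε : ℝ, 0 < ε ∧ η = 11 * ε := ⟨η / 11, by positivity, by ring⟩
  obtain ⟨D, hD⟩ := hb 1 one_pos
  obtain ⟨u, w, hu, -, hM⟩ := majlog D one_pos hε
  have u1 : (1 : ℝ) ≤ u := by exact_mod_cast hu
  have hδ : 0 < (1 / u : ℝ) := by positivity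
  have hw := Vp_pos 0 w
  obtain ⟨c, c0, hc⟩ : ∃ c : ℝ, 0 < c ∧ c = u * (Vp 0 w)⁻¹ := ⟨_, by positivity, rfl⟩
  obtain ⟨k, hk⟩ := exists_nat_gt (c / ε)
  have k0 : (0 : ℝ) < k := (div_pos c0 hε).trans hk
  have hT := h1 (primorial w) (fun n => ((if Rough 0 w n then 1 else 0 : ℝ) : ℂ))
    (primorial_pos w) (fun n => by split_ifs <;> simp) (fun n => by simp only [rough_per])
    (ε / c) (by positivity)
  have hR := h2 (1 / u) (ε / (2 * k + 1 : ℕ)) hδ (by positivity)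
  have hp : Tendsto (fun N : ℕ => (N : ℝ) ^ (1 / u : ℝ)) atTop atTop :=
    (tendsto_rpow_atTop hδ).comp tendsto_natCast_atTop_atTop
  have hl : Tendsto (fun N : ℕ => Real.log N) atTop atTop :=
    Real.tendsto_log_atTop.comp tendsto_natCast_atTop_atTop
  have ho := ((isLittleO_log_rpow_atTop hδ).comp_tendsto tendsto_natCast_atTop_atTop).bound
    (c := ε / 6) (by positivity)
  filter_upwards [hD, hM, hT, hR, hp.eventually_ge_atTop 2, hl.eventually_ge_atTop 1,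
    hl.eventually_ge_atTop (c / ε), ho, eventually_ge_atTop 2] with N a1 a2 a3 a4 a5 a6 a7 a8 a9
  have N1 : (1 : ℝ) < N := by exact_mod_cast a9
  have L0 : 0 < Real.log N := by linarith
  have N3 : N ^ 2 ≤ N ^ 3 := Nat.pow_le_pow_right (by omega) (by omega)
  have zN : (N : ℝ) ^ (1 / u : ℝ) ≤ N := by
    simpa using Real.rpow_le_rpow_of_exponent_le N1.le ((div_le_one (by positivity)).2 u1)
  have key := core (fun n => ec (b n)) (fun n => (norm_ec _).le) (w := w) (k := k)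
    (t := (N : ℝ) ^ ((k : ℝ)⁻¹)) (Real.one_lt_rpow N1 (by positivity))
    (by exact_mod_cast k0.ne') (Real.rpow_inv_natCast_pow (by positivity) (by exact_mod_cast k0.ne'))
    (Nat.le_floor (by exact_mod_cast a5)) (Nat.floor_le_of_le zN) (Vp_le_div a9 hu)
    (a2 N (N ^ 2) (by simp) N3 _ (fun n => (norm_ec _).le) fun y y1 y2 => by
      obtain ⟨Q, q1, q2⟩ := a1 1 y le_rfl (Nat.one_le_pow _ _ (by omega))
        (by rw [Real.rpow_one]; exact_mod_cast y1.le) (y2.trans N3)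
      refine ⟨Q, q1, fun x hx => (norm_ec_sub _ _).trans ?_⟩
      have := q2 x hx
      rw [one_mul] at this
      have : (0 : ℝ) < (N : ℝ)⁻¹ := by positivity
      linarith) a3
    (fun a b' ha hb' => a2 a b' (by rw [Real.rpow_one]; exact_mod_cast ha.trans (Nat.le_succ a))
      (hb'.trans N3) (fun _ => 1) (by simp) fun y _ _ => ⟨0, by simp, fun x _ => by simp⟩) a4
  refine key.trans_lt ?_
  have e1 : u / Real.log N * (ε / u ^ 2 * Real.log N) ≤ ε := by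
    rw [show u / Real.log N * (ε / u ^ 2 * Real.log N) = ε / u by field_simp]
    exact div_le_self hε.le u1
  have e2 : u / Real.log N * ((Vp 0 w)⁻¹ * (ε / c * Real.log N)) = ε := by
    rw [hc]
    field_simp
  have e3 : ((2 * k + 1 : ℕ) : ℝ) * (ε / (2 * k + 1 : ℕ)) = ε := by field_simp
  have e4 : (1 + Real.log (N ^ 2 : ℕ)) / ⌊(N : ℝ) ^ (1 / u : ℝ)⌋₊ ≤ ε := by
    have f1 := Nat.lt_floor_add_one ((N : ℝ) ^ (1 / u : ℝ))
    simp only [Function.comp, Real.norm_of_nonneg L0.le,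
      Real.norm_of_nonneg (zero_le_two.trans a5)] at a8
    rw [div_le_iff₀ (by linarith), Nat.cast_pow, Real.log_pow]
    push_cast
    nlinarith
  have e5 : u / Real.log N * ((Vp 0 w)⁻¹ * Real.log (2 * (N : ℝ) ^ ((k : ℝ)⁻¹))) ≤ 2 * ε := by
    rw [Real.log_mul two_ne_zero (by positivity), Real.log_rpow (by positivity),
      show u / Real.log N * ((Vp 0 w)⁻¹ * (Real.log 2 + (k : ℝ)⁻¹ * Real.log N)) =
        c / Real.log N * Real.log 2 + c / k by rw [hc]; field_simp]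
    have f1 : c / Real.log N ≤ ε := by
      rw [div_le_iff₀ L0, mul_comm, ← div_le_iff₀ hε]
      exact a7
    have f2 : c / k ≤ ε := by
      rw [div_le_iff₀ k0, mul_comm, ← div_le_iff₀ hε]
      exact hk.le
    have f3 := mul_le_of_le_one_right (div_pos c0 L0).le
      (Real.log_two_lt_d9.le.trans (by norm_num : (0.6931471808 : ℝ) ≤ 1))
    linarith
  rw [mul_add, mul_add (u / Real.log N), e2, e3]
  linarith

end Pool.Agent.MP_357fb4_an

end
end
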