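import Pool.Agent.Mg.F14ad9d.Gf5c998
import Pool.Agent.Mg.F14ad9d.Gfcb572

section

/-!
The Hilbert space part of the inverse theorem of order two.
-/

open scoped BigOperators Classical ComplexConjugate Polynomial
open Finset Filter MeasureTheory Topology

noncomputable section

namespace Pool.Agent.MP_357fb4_an

lemma Inv_int_ec (m : ℤ) :
    ∫ b in (0 : ℝ)..1, ec (b * m) = if m = 0 then 1 else 0 := by
  split_ifs with hm
  · simp [hm]
  · have hc : (2 * Real.pi * Complex.I * m : ℂ) ≠ 0 := by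
      have : (m : ℂ) ≠ 0 := by exact_mod_cast hm
      have hp : (Real.pi : ℂ) ≠ 0 := by exact_mod_cast Real.pi_ne_zero
      simp [this, hp, Complex.I_ne_zero]
    have hd : ∀ b ∈ Set.uIcc (0 : ℝ) 1, HasDerivAt
        (fun b : ℝ => ec (b * m) / (2 * Real.pi * Complex.I * m)) (ec (b * m)) b := fun b _ => by
      have h1 : HasDerivAt (fun b : ℝ => b * (m : ℝ)) (m : ℝ) b := by
        simpa using (hasDerivAt_id b).mul_const (m : ℝ)
      have h2 := ((hasDerivAt_ec (b * m)).scomp b h1).div_const (2 * Real.pi * Complex.I * m)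
      refine h2.congr_deriv ?_
      rw [div_eq_iff hc, Complex.real_smul]; push_cast; ring
    rw [intervalIntegral.integral_eq_sub_of_hasDerivAt hd
      ((continuous_ec.comp (by fun_prop)).intervalIntegrable _ _)]
    simp [ec_int]

lemma Inv_int_trig {ι : Type*} (s : Finset ι) (c : ι → ℂ) (m : ι → ℤ) :
    ∫ b in (0 : ℝ)..1, ∑ i ∈ s, c i * ec (b * m i) = ∑ i ∈ s, if m i = 0 then c i else 0 := by
  have hc : ∀ i, Continuous fun b : ℝ => c i * ec (b * m i) := fun i =>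
    continuous_const.mul (continuous_ec.comp (by fun_prop))
  rw [intervalIntegral.integral_finsetSum fun i _ => (hc i).intervalIntegrable _ _]
  refine sum_congr rfl fun i _ => ?_
  rw [intervalIntegral.integral_const_mul, Inv_int_ec]
  split_ifs <;> simp

variable {E : Type*} [NormedAddCommGroup E] [InnerProductSpace ℂ E]

lemma Inv_self (x : E) : inner ℂ x x = ((‖x‖ ^ 2 : ℝ) : ℂ) := by
  rw [inner_self_eq_norm_sq_to_K]; simp

/-- Twisted sums along the orbit. -/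
def Inv_s (U : E →ₗᵢ[ℂ] E) (x : E) (b : ℝ) (K : ℕ) : E :=
  ∑ k ∈ range K, ec (-(b * k)) • U^[k] x

lemma Inv_inner_iter (U : E →ₗᵢ[ℂ] E) (x y : E) (m : ℕ) :
    inner ℂ (U^[m] x) (U^[m] y) = inner ℂ x y := by
  induction m with
  | zero => rfl
  | succ m ih => rw [Function.iterate_succ_apply', Function.iterate_succ_apply',
      U.inner_map_map, ih]

lemma Inv_inner_shift (U : E →ₗᵢ[ℂ] E) (x : E) {l l' k k' : ℕ} (h : l' + k' = l + k) :
    inner ℂ (U^[l'] x) (U^[l] x) = inner ℂ (U^[k] x) (U^[k'] x) := by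
  rw [← Inv_inner_iter U (U^[l'] x) _ k', ← Inv_inner_iter U (U^[k] x) _ l,
    ← Function.iterate_add_apply, ← Function.iterate_add_apply, ← Function.iterate_add_apply,
    ← Function.iterate_add_apply, add_comm k' l', h, add_comm k' l]

lemma Inv_norm_s (U : E →ₗᵢ[ℂ] E) (x : E) (b : ℝ) (K : ℕ) :
    ((‖Inv_s U x b K‖ ^ 2 : ℝ) : ℂ) = ∑ p ∈ range K ×ˢ range K,
      inner ℂ (U^[p.2] x) (U^[p.1] x) * ec (b * (((p.2 : ℤ) - p.1 : ℤ) : ℝ)) := by
  rw [← Inv_self, Inv_s, inner_sum, sum_product]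
  refine sum_congr rfl fun k _ => ?_
  rw [sum_inner]
  refine sum_congr rfl fun k' _ => ?_
  rw [inner_smul_left, inner_smul_right, conj_ec, ← mul_assoc, ← ec_add, mul_comm]
  congr 2
  push_cast; ring

lemma Inv_cont_s (U : E →ₗᵢ[ℂ] E) (x : E) (K : ℕ) : Continuous fun b => Inv_s U x b K :=
  continuous_finsetSum _ fun _ _ => (continuous_ec.comp (by fun_prop)).smul continuous_const

lemma Inv_int_s (U : E →ₗᵢ[ℂ] E) (x : E) (K : ℕ) :
    ∫ b in (0 : ℝ)..1, ‖Inv_s U x b K‖ ^ 2 = K * ‖x‖ ^ 2 := by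
  apply Complex.ofReal_injective
  rw [← intervalIntegral.integral_ofReal]
  simp only [Inv_norm_s]
  rw [Inv_int_trig, sum_product]
  have : ∀ k ∈ range K, (∑ k' ∈ range K, if ((k' : ℤ) - k : ℤ) = 0 then
      inner ℂ (U^[k'] x) (U^[k] x) else 0) = ((‖x‖ ^ 2 : ℝ) : ℂ) := fun k hk => by
    rw [sum_eq_single k]
    · rw [if_pos (sub_self _), Inv_inner_iter, Inv_self]
    · intro j _ hj
      rw [if_neg]; omega
    · exact fun h => absurd hk h
  rw [sum_congr rfl this]; simp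

lemma Inv_int_ss (U : E →ₗᵢ[ℂ] E) (x : E) (K M : ℕ) :
    M * ∑ p ∈ range K ×ˢ range K, ‖inner ℂ (U^[p.2] x) (U^[p.1] x)‖ ^ 2 ≤
      ∫ b in (0 : ℝ)..1, ‖Inv_s U x b K‖ ^ 2 * ‖Inv_s U x b (M + K)‖ ^ 2 := by
  have h : ((∫ b in (0 : ℝ)..1, ‖Inv_s U x b K‖ ^ 2 * ‖Inv_s U x b (M + K)‖ ^ 2 : ℝ) : ℂ) =
      ((∑ p ∈ range K ×ˢ range K, ∑ q ∈ range (M + K) ×ˢ range (M + K),
        if q.2 + p.2 = q.1 + p.1 then ‖inner ℂ (U^[p.2] x) (U^[p.1] x)‖ ^ 2 else 0 : ℝ) : ℂ) := by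
    rw [← intervalIntegral.integral_ofReal]
    have : ∀ b : ℝ, ((‖Inv_s U x b K‖ ^ 2 * ‖Inv_s U x b (M + K)‖ ^ 2 : ℝ) : ℂ) =
        ∑ r ∈ (range K ×ˢ range K) ×ˢ (range (M + K) ×ˢ range (M + K)),
          (inner ℂ (U^[r.1.2] x) (U^[r.1.1] x) * inner ℂ (U^[r.2.2] x) (U^[r.2.1] x)) *
            ec (b * (((r.1.2 : ℤ) - r.1.1 + ((r.2.2 : ℤ) - r.2.1) : ℤ) : ℝ)) := fun b => by
      rw [Complex.ofReal_mul, Inv_norm_s, Inv_norm_s, sum_mul_sum, eq_comm, sum_product]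
      refine sum_congr rfl fun p _ => sum_congr rfl fun q _ => ?_
      dsimp only
      rw [Int.cast_add, mul_add, ec_add]; ring
    simp only [this]
    rw [Inv_int_trig, sum_product, Complex.ofReal_sum]
    refine sum_congr rfl fun p _ => ?_
    rw [Complex.ofReal_sum]
    refine sum_congr rfl fun q _ => ?_
    dsimp only
    by_cases hq : q.2 + p.2 = q.1 + p.1
    · rw [if_pos hq, if_pos (by omega), Inv_inner_shift U x hq, ← inner_conj_symm (U^[p.1] x),
        Complex.mul_conj, Complex.normSq_eq_norm_sq]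
    · rw [if_neg hq, if_neg (by omega)]; simp
  rw [Complex.ofReal_injective h, mul_sum]
  refine sum_le_sum fun p hp => ?_
  rw [← sum_filter, sum_const, nsmul_eq_mul]
  refine mul_le_mul_of_nonneg_right ?_ (by positivity)
  simp only [mem_product, mem_range] at hp
  have : (range M).card ≤ ((range (M + K) ×ˢ range (M + K)).filter
      fun q => q.2 + p.2 = q.1 + p.1).card := by
    refine card_le_card_of_injOn (fun m => (m + p.2, m + p.1)) (fun m hm => ?_) fun m _ m' _ h => ?_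
    · simp only [coe_range, Set.mem_Iio] at hm
      simp only [coe_filter, mem_product, mem_range, Set.mem_ofPred_eq]
      omega
    · simpa using congrArg Prod.fst h
  exact_mod_cast (card_range M ▸ this)

lemma Inv_max (U : E →ₗᵢ[ℂ] E) {x : E} (hx : ‖x‖ ≤ 1) (K : ℕ) :
    ∃ b ∈ Set.Icc (0 : ℝ) 1, ∑ p ∈ range K ×ˢ range K, ‖inner ℂ (U^[p.2] x) (U^[p.1] x)‖ ^ 2 ≤
      ‖Inv_s U x b K‖ ^ 2 := by
  have hc : ∀ L, Continuous fun b => ‖Inv_s U x b L‖ ^ 2 := fun L => (Inv_cont_s U x L).norm.pow 2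
  obtain ⟨b₀, hb₀, hmax⟩ := isCompact_Icc.exists_isMaxOn (Set.nonempty_Icc.2 (zero_le_one' ℝ))
    (hc K).continuousOn
  refine ⟨b₀, hb₀, ?_⟩
  set A := ∑ p ∈ range K ×ˢ range K, ‖inner ℂ (U^[p.2] x) (U^[p.1] x)‖ ^ 2
  set B := ‖Inv_s U x b₀ K‖ ^ 2
  have hB : 0 ≤ B := by positivity
  have key : ∀ M : ℕ, M * A ≤ B * (M + K) := fun M => by
    refine (Inv_int_ss U x K M).trans ?_
    refine (intervalIntegral.integral_mono_on zero_le_one
      (((hc K).mul (hc _)).intervalIntegrable _ _)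
      ((continuous_const.mul (hc (M + K))).intervalIntegrable _ _)
      (g := fun b => B * ‖Inv_s U x b (M + K)‖ ^ 2) fun b hb =>
        mul_le_mul_of_nonneg_right (hmax hb) (by positivity)).trans ?_
    rw [intervalIntegral.integral_const_mul, Inv_int_s]
    refine mul_le_mul_of_nonneg_left ?_ hB
    push_cast
    exact mul_le_of_le_one_right (by positivity) (pow_le_one₀ (norm_nonneg _) hx)
  by_contra hlt
  push Not at hlt
  obtain ⟨M, hM⟩ := exists_nat_gt (B * K / (A - B))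
  rw [div_lt_iff₀ (by linarith)] at hM
  nlinarith [key M]

lemma Inv_s_double (U : E →ₗᵢ[ℂ] E) (x : E) (b : ℝ) (K : ℕ) :
    ‖Inv_s U x b (K + K)‖ ≤ 2 * ‖Inv_s U x b K‖ := by
  have hit : ∀ (m : ℕ) (y : E), ‖U^[m] y‖ = ‖y‖ := fun m y => by
    induction m with
    | zero => rfl
    | succ m ih => rw [Function.iterate_succ_apply', U.norm_map, ih]
  have h : Inv_s U x b (K + K) = Inv_s U x b K + ec (-(b * K)) • U^[K] (Inv_s U x b K) := by
    rw [Inv_s, sum_range_add]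
    congr 1
    have : U^[K] = ((U.toLinearMap ^ K : E →ₗ[ℂ] E) : E → E) := by
      rw [Module.End.coe_pow]; rfl
    rw [Inv_s, this, map_sum, smul_sum]
    refine sum_congr rfl fun k _ => ?_
    rw [map_smul, smul_smul, ← ec_add, ← this, ← Function.iterate_add_apply]
    congr 2
    push_cast; ring
  rw [h, two_mul]
  refine (norm_add_le _ _).trans ?_
  rw [norm_smul, norm_ec, one_mul, hit]

variable [CompleteSpace E]

/-- The mean ergodic theorem for the twisted operator. -/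
lemma Inv_vN (U : E →ₗᵢ[ℂ] E) (x : E) (b : ℝ) :
    ∃ χ : E, Tendsto (fun K : ℕ => (K : ℂ)⁻¹ • Inv_s U x b K) atTop (𝓝 χ) ∧
      U χ = ec b • χ ∧ inner ℂ χ x = ((‖χ‖ ^ 2 : ℝ) : ℂ) := by
  set V : E →L[ℂ] E := ec (-b) • U.toContinuousLinearMap with hV
  have hVn : ‖V‖ ≤ 1 := V.opNorm_le_bound zero_le_one fun y => by
    simp [hV, norm_smul]
  have hit : ∀ k : ℕ, V^[k] x = ec (-(b * k)) • U^[k] x := fun k => by
    induction k with
    | zero => simp
    | succ k ih =>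
      rw [Function.iterate_succ_apply', Function.iterate_succ_apply', ih, hV]
      simp only [smul_apply, map_smul,
        LinearIsometry.coe_toContinuousLinearMap, smul_smul, ← ec_add]
      congr 2
      push_cast; ring
  have ht := V.tendsto_birkhoffAverage_orthogonalProjection hVn x
  set P := (V.eqLocus (1 : E →L[ℂ] E)).orthogonalProjectionOnto x
  refine ⟨P, ?_, ?_, ?_⟩
  · refine ht.congr fun K => ?_
    simp only [birkhoffAverage, birkhoffSum, id, hit, Inv_s]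
  · have h : ec (-b) • U P = P := P.2
    conv_rhs => rw [← h]
    rw [smul_smul, ← ec_add]; simp
  · have h := Submodule.starProjection_inner_eq_zero (K := V.eqLocus (1 : E →L[ℂ] E)) x P P.2
    rw [← inner_conj_symm, ← Inv_self, ← inner_conj_symm (P : E) P]
    congr 1
    rw [inner_sub_left, sub_eq_zero] at h
    exact h

/-- The abstract inverse theorem. -/
lemma Inv_abs (U : E →ₗᵢ[ℂ] E) {x : E} (hx : ‖x‖ ≤ 1) {c : ℝ}
    (hc : ∀ K : ℕ, 1 ≤ K → c * K ^ 2 ≤
      ∑ p ∈ range K ×ˢ range K, ‖inner ℂ (U^[p.2] x) (U^[p.1] x)‖ ^ 2) :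
    ∃ (b : ℝ) (χ : E), Tendsto (fun K : ℕ => (K : ℂ)⁻¹ • Inv_s U x b K) atTop (𝓝 χ) ∧
      U χ = ec b • χ ∧ c ≤ (inner ℂ χ x).re := by
  let t : ℕ → Set ℝ := fun n =>
    Set.Icc 0 1 ∩ {b | c * ((2 ^ n : ℕ) : ℝ) ^ 2 ≤ ‖Inv_s U x b (2 ^ n)‖ ^ 2}
  have hcl : ∀ n, IsClosed (t n) := fun n =>
    isClosed_Icc.inter (isClosed_le continuous_const ((Inv_cont_s U x _).norm.pow 2))
  obtain ⟨b, hb⟩ := IsCompact.nonempty_iInter_of_sequence_nonempty_isCompact_isClosed t
    (fun n b hb => ⟨hb.1, by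
      have h1 : c * ((2 ^ (n + 1) : ℕ) : ℝ) ^ 2 ≤ ‖Inv_s U x b (2 ^ (n + 1))‖ ^ 2 := hb.2
      have h2 := pow_le_pow_left₀ (norm_nonneg _) (Inv_s_double U x b (2 ^ n)) 2
      rw [show 2 ^ (n + 1) = 2 ^ n + 2 ^ n by ring] at h1
      change c * ((2 ^ n : ℕ) : ℝ) ^ 2 ≤ _
      push_cast at h1 ⊢
      nlinarith⟩)
    (fun n => by
      obtain ⟨b, hb, h⟩ := Inv_max U hx (2 ^ n)
      exact ⟨b, hb, (hc _ Nat.one_le_two_pow).trans h⟩)
    (isCompact_Icc.of_isClosed_subset (hcl 0) Set.inter_subset_left) hcl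
  obtain ⟨χ, h1, h2, h3⟩ := Inv_vN U x b
  refine ⟨b, χ, h1, h2, ?_⟩
  rw [h3, Complex.ofReal_re]
  refine ge_of_tendsto' ((h1.comp (tendsto_pow_atTop_atTop_of_one_lt one_lt_two)).norm.pow 2)
    fun n => ?_
  have h : c * ((2 ^ n : ℕ) : ℝ) ^ 2 ≤ ‖Inv_s U x b (2 ^ n)‖ ^ 2 := (Set.mem_iInter.1 hb n).2
  have hp : (0 : ℝ) < ((2 ^ n : ℕ) : ℝ) := by positivity
  simp only [Function.comp, norm_smul, norm_inv, Complex.norm_natCast, mul_pow, inv_pow]
  rw [inv_mul_eq_div, le_div_iff₀ (by positivity)]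
  exact h

end Pool.Agent.MP_357fb4_an

end
end

section

/-!
The inverse theorem of order two.
-/

open scoped BigOperators Classical ComplexConjugate Polynomial
open Finset Filter MeasureTheory Topology

noncomputable section

namespace Pool.Agent.MP_357fb4_an

variable {Y : Type} [MeasurableSpace Y] {μ : Measure Y} [IsProbabilityMeasure μ]

lemma Inv_mem {f : Y → ℂ} (hf : B1 f) : MemLp f 2 μ :=
  MemLp.of_bound hf.1.aestronglyMeasurable 1 (Eventually.of_forall hf.2)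

/-- The Koopman isometry. -/
def Inv_U (S : Sys ℤ Y μ) : Lp ℂ 2 μ →ₗᵢ[ℂ] Lp ℂ 2 μ :=
  Lp.compMeasurePreservingₗᵢ ℂ (S.act 1) (S.mp 1)

omit [IsProbabilityMeasure μ] in
lemma Inv_U_ae (S : Sys ℤ Y μ) (x : Lp ℂ 2 μ) : Inv_U S x =ᵐ[μ] fun y => x (S.act 1 y) :=
  Lp.coeFn_compMeasurePreserving x (S.mp 1)

omit [IsProbabilityMeasure μ] in
lemma Inv_iter_ae (S : Sys ℤ Y μ) {x : Lp ℂ 2 μ} {f : Y → ℂ} (h : x =ᵐ[μ] f) (k : ℕ) :
    (Inv_U S)^[k] x =ᵐ[μ] fun y => f (S.act (k : ℕ) y) := by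
  induction k with
  | zero => simpa [S.act_zero] using h
  | succ k ih =>
    rw [Function.iterate_succ_apply']
    filter_upwards [Inv_U_ae S ((Inv_U S)^[k] x), (S.mp 1).quasiMeasurePreserving.ae ih]
      with y h1 h2
    rw [h1, h2, act_act]; push_cast; rfl

omit [IsProbabilityMeasure μ] in
lemma Inv_avg_ae (S : Sys ℤ Y μ) {x : Lp ℂ 2 μ} {f : Y → ℂ} (h : x =ᵐ[μ] f) (b : ℝ) (K : ℕ) :
    ((K : ℂ)⁻¹ • Inv_s (Inv_U S) x b K : Lp ℂ 2 μ) =ᵐ[μ]
      fun y => 𝔼 k ∈ range K, ec (-(b * k)) * f (S.act (k : ℕ) y) := by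
  have h2 : ∀ᵐ y ∂μ, ∀ k : ℕ, (ec (-(b * k)) • (Inv_U S)^[k] x : Lp ℂ 2 μ) y =
      ec (-(b * k)) * f (S.act (k : ℕ) y) := ae_all_iff.2 fun k => by
    filter_upwards [Lp.coeFn_smul (ec (-(b * k))) ((Inv_U S)^[k] x), Inv_iter_ae S h k]
      with y h1 h2
    rw [h1, Pi.smul_apply, h2, smul_eq_mul]
  filter_upwards [Lp.coeFn_smul (K : ℂ)⁻¹ (Inv_s (Inv_U S) x b K), h2,
    Lp.coeFn_fun_finsetSum (range K) fun k => ec (-(b * k)) • (Inv_U S)^[k] x] with y h1 h2 h3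
  rw [h1, Pi.smul_apply, Inv_s, h3, smul_eq_mul, expect_eq_sum_div_card, card_range,
    div_eq_inv_mul]
  simp only [h2]

omit [IsProbabilityMeasure μ] in
lemma Inv_inner {x z : Lp ℂ 2 μ} {f g : Y → ℂ} (hx : x =ᵐ[μ] f) (hz : z =ᵐ[μ] g) :
    inner ℂ z x = ∫ y, f y * conj (g y) ∂μ := by
  rw [L2.inner_def]
  refine integral_congr_ae ?_
  filter_upwards [hx, hz] with y h1 h2
  rw [h1, h2]; simp

omit [IsProbabilityMeasure μ] in
lemma Inv_norm {x : Lp ℂ 2 μ} {f : Y → ℂ} (hx : x =ᵐ[μ] f) : ‖x‖ ^ 2 = ∫ y, ‖f y‖ ^ 2 ∂μ := by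
  apply Complex.ofReal_injective
  rw [← Inv_self, Inv_inner hx hx, ← integral_complex_ofReal]
  simp only [Complex.mul_conj, Complex.normSq_eq_norm_sq]

lemma Inv_box_lim (S : Sys ℤ Y μ) (erg : Ergodic (S.act 1) μ) {f : Y → ℂ} (hf : B1 f) :
    Tendsto (fun K => box S [K] f) atTop (𝓝 (‖∫ y, f y ∂μ‖ ^ 2)) := by
  have hx : ((Inv_mem hf).toLp f : Lp ℂ 2 μ) =ᵐ[μ] f := MemLp.coeFn_toLp _
  obtain ⟨χ, h1, h2, h3⟩ := Inv_vN (Inv_U S) ((Inv_mem hf).toLp f) 0
  rw [ec_zero, one_smul] at h2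
  obtain ⟨c, hc⟩ := erg.ae_eq_const_of_ae_eq_comp_ae (Lp.aestronglyMeasurable χ) (by
    have := Inv_U_ae S χ
    rw [h2] at this
    exact this.symm)
  have hn : ‖χ‖ ^ 2 = ‖c‖ ^ 2 := by rw [Inv_norm hc]; simp
  rw [Inv_inner hx hc, hn] at h3
  simp only [Function.const, integral_mul_const] at h3
  have hlim : Tendsto (fun K => box S [K] f) atTop (𝓝 (‖c‖ ^ 2)) := by
    rw [← hn]
    refine (h1.norm.pow 2).congr fun K => ?_
    rw [Inv_norm (Inv_avg_ae S hx 0 K), box_one S K hf]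
    simp
  have hle : ‖∫ y, f y ∂μ‖ ^ 2 ≤ ‖c‖ ^ 2 :=
    ge_of_tendsto hlim ((eventually_ge_atTop 1).mono fun K hK => sq_norm_integral_le_box S hK hf)
  have h4 : ‖∫ y, f y ∂μ‖ * ‖c‖ = ‖c‖ ^ 2 := by
    have := congrArg norm h3
    rwa [norm_mul, Complex.norm_conj, Complex.norm_real, Real.norm_of_nonneg (by positivity)]
      at this
  have : ‖∫ y, f y ∂μ‖ ^ 2 = ‖c‖ ^ 2 := by
    rcases (norm_nonneg c).eq_or_lt with h0 | h0
    · exact le_antisymm hle (by rw [← h0]; simp)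
    · rw [mul_right_cancel₀ h0.ne' (h4.trans (sq _))]
  rwa [this]

lemma Inv_nrm_le (S : Sys ℤ Y μ) (erg : Ergodic (S.act 1) μ) {G : Y → ℂ} (hG : B1 G) {K : ℕ}
    (hK : 1 ≤ K) : nrm S 2 G ≤
      𝔼 h ∈ range K, 𝔼 h' ∈ range K, ‖∫ y, dl S (h : ℕ) (h' : ℕ) G y ∂μ‖ ^ 2 := by
  have hl : Tendsto (fun L => box S [K, L] G) atTop
      (𝓝 (𝔼 h ∈ range K, 𝔼 h' ∈ range K, ‖∫ y, dl S (h : ℕ) (h' : ℕ) G y ∂μ‖ ^ 2)) := by
    change Tendsto (fun L => 𝔼 h ∈ range K, 𝔼 h' ∈ range K,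
      box S [L] (dl S (h : ℕ) (h' : ℕ) G)) atTop _
    simp only [expect_eq_sum_div_card]
    exact (tendsto_finsetSum _ fun h _ => (tendsto_finsetSum _ fun h' _ =>
      Inv_box_lim S erg (hG.dl S _ _)).div_const _).div_const _
  refine ge_of_tendsto hl ((eventually_ge_atTop 1).mono fun L hL => ?_)
  exact nrm_le S [K, L] (by simp [hK, hL]) hG

omit [IsProbabilityMeasure μ] in
lemma Inv_eig (S : Sys ℤ Y μ) {β : ℝ} {χ : Y → ℂ} (hχ : B1 χ)
    (h : (fun y => χ (S.act 1 y)) =ᵐ[μ] fun y => ec β * χ y) : Eig S β χ := by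
  refine ⟨hχ, fun n => ?_⟩
  induction n using Int.induction_on with
  | zero => simp [S.act_zero]
  | succ n ih =>
    filter_upwards [ih, (S.mp n).quasiMeasurePreserving.ae h] with y h1 h2
    rw [add_comm, S.act_add, h2, h1, ← mul_assoc, ← ec_add]
    congr 2; push_cast; ring
  | pred n ih =>
    filter_upwards [ih, (S.mp (-n - 1)).quasiMeasurePreserving.ae h] with y h1 h2
    rw [act_act, show (1 + (-n - 1) : ℤ) = -n by ring, h1] at h2
    have : ec (-β) * ec β = 1 := by rw [← ec_add]; simp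
    rw [← one_mul (χ (S.act (-n - 1) y)), ← this, mul_assoc, ← h2, ← mul_assoc, ← ec_add]
    congr 2; push_cast; ring

theorem inv2 (S : Sys ℤ Y μ) (erg : Ergodic (S.act 1) μ) {G : Y → ℂ} (hG : B1 G) :
    ∃ (β : ℝ) (χ : Y → ℂ), Eig S β χ ∧ nrm S 2 G ≤ (∫ y, G y * conj (χ y) ∂μ).re := by
  have hx : ((Inv_mem hG).toLp G : Lp ℂ 2 μ) =ᵐ[μ] G := MemLp.coeFn_toLp _
  set x : Lp ℂ 2 μ := (Inv_mem hG).toLp G
  have hx1 : ‖x‖ ≤ 1 := by
    have h : ‖x‖ ^ 2 ≤ 1 := by
      rw [Inv_norm hx]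
      have := norm_integral_le_of_norm_le_const (μ := μ) (f := fun y => ‖G y‖ ^ 2) (C := 1)
        (Eventually.of_forall fun y => by
          rw [Real.norm_of_nonneg (by positivity)]; exact pow_le_one₀ (norm_nonneg _) (hG.2 y))
      exact (le_abs_self _).trans (by simpa using this)
    nlinarith [norm_nonneg x]
  obtain ⟨b, χ, h1, h2, h3⟩ := Inv_abs (Inv_U S) hx1 (c := nrm S 2 G) fun K hK => by
    have hp : (0 : ℝ) < K := by exact_mod_cast hK
    have := Inv_nrm_le S erg hG hK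
    simp only [expect_eq_sum_div_card, card_range, ← sum_div, div_div] at this
    rw [le_div_iff₀ (by positivity), ← sq] at this
    refine this.trans (le_of_eq ?_)
    rw [sum_product]
    refine sum_congr rfl fun k _ => sum_congr rfl fun k' _ => ?_
    rw [Inv_inner (Inv_iter_ae S hx k) (Inv_iter_ae S hx k')]
    rfl
  have hb : ∀ᵐ y ∂μ, ‖χ y‖ ≤ 1 := by
    obtain ⟨ns, -, hns⟩ := (tendstoInMeasure_of_tendsto_Lp h1).exists_seq_tendsto_ae
    filter_upwards [hns, ae_all_iff.2 fun K => Inv_avg_ae S hx b K] with y hy1 hy2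
    refine le_of_tendsto' hy1.norm fun i => ?_
    rw [hy2]
    exact norm_expect_le_one _ fun k _ => by rw [norm_mul, norm_ec, one_mul]; exact hG.2 _
  have hm := Lp.aestronglyMeasurable χ
  set χ₀ := hm.mk χ
  have hm₀ : Measurable χ₀ := hm.stronglyMeasurable_mk.measurable
  set χ₁ : Y → ℂ := fun y => if ‖χ₀ y‖ ≤ 1 then χ₀ y else 0 with hχ₁
  have he : (χ : Y → ℂ) =ᵐ[μ] χ₁ := by
    filter_upwards [hb, hm.ae_eq_mk] with y h1 h2
    rw [h2] at h1
    rw [h2, hχ₁]; exact (if_pos h1).symm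
  have hB : B1 χ₁ := ⟨Measurable.ite (measurableSet_le hm₀.norm measurable_const) hm₀
    measurable_const, fun y => by
      simp only [hχ₁]; split_ifs with h
      · exact h
      · simp⟩
  refine ⟨b, χ₁, Inv_eig S hB ?_, by rwa [Inv_inner hx he] at h3⟩
  filter_upwards [Inv_U_ae S χ, Lp.coeFn_smul (ec b) χ, he,
    (S.mp 1).quasiMeasurePreserving.ae he] with y h4 h5 h6 h7
  rw [← h7, ← h4, h2, h5, Pi.smul_apply, h6, smul_eq_mul]

end Pool.Agent.MP_357fb4_an

end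
end

section

/-!
Degree lowering.
-/

open scoped BigOperators Classical ComplexConjugate Polynomial
open Finset Filter MeasureTheory Topology

noncomputable section

namespace Pool.Agent.MP_357fb4_an

variable {Y : Type} [MeasurableSpace Y] {μ : Measure Y} [IsProbabilityMeasure μ]

lemma DLow_pb {r H : ℕ} (hH : 1 ≤ H) : (pb r H).Nonempty :=
  Fintype.piFinset_nonempty.2 fun _ => nonempty_range_iff.2 (by omega)

lemma DLow_tendsto {ι α : Type*} (s : Finset ι) {l : Filter α} {f : ι → α → ℝ} {a : ι → ℝ}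
    (h : ∀ i ∈ s, Tendsto (f i) l (𝓝 (a i))) :
    Tendsto (fun x => 𝔼 i ∈ s, f i x) l (𝓝 (𝔼 i ∈ s, a i)) := by
  simp only [expect_eq_sum_div_card]
  exact (tendsto_finsetSum s h).div_const _

lemma DLow_re_int {f : Y → ℂ} (hf : B1 f) : ∫ y, (f y).re ∂μ = (∫ y, f y ∂μ).re := by
  simpa using integral_re (μ := μ) hf.integrable

lemma DLow_re_le {f : Y → ℂ} : (∫ y, f y ∂μ).re ≤ ∫ y, ‖f y‖ ∂μ :=
  (Complex.re_le_norm _).trans (norm_integral_le_integral_norm _)

lemma DLow_gcs {r : ℕ} (hr : 1 ≤ r) (H : ℕ) {Γ : (Fin r → ℕ) → Y → ℂ} (hΓ : ∀ v, B1 (Γ v))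
    {b : Fin r → (Fin r → ℕ) → Y → ℂ} (hb : ∀ i h, B1 (b i h))
    (hb' : ∀ i h t y, b i (Function.update h i t) y = b i h y) :
    (∫ y, ‖𝔼 h ∈ pb r H, Γ h y * ∏ i, b i h y‖ ∂μ) ^ 2 ^ r ≤
      𝔼 h ∈ pb r H, 𝔼 k ∈ pb r H, (∫ y, cube (fun v => Γ v y) h k ∂μ).re := by
  have h1 : B1 fun y => 𝔼 h ∈ pb r H, Γ h y * ∏ i, b i h y :=
    B1.expect _ fun h _ => (hΓ h).mul (B1.prod univ fun i _ => hb i h)
  have h2 : ∀ h, B1 fun y => 𝔼 k ∈ pb r H, cube (fun v => Γ v y) h k := fun h =>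
    B1.expect _ fun k _ => B1.cube hΓ h k
  have h3 : B1 fun y => 𝔼 h ∈ pb r H, 𝔼 k ∈ pb r H, cube (fun v => Γ v y) h k :=
    B1.expect _ fun h _ => h2 h
  refine (pow_integral_le h1.1.norm (fun _ => norm_nonneg _) h1.2 _).trans ?_
  calc _ ≤ ∫ y, (𝔼 h ∈ pb r H, 𝔼 k ∈ pb r H, cube (fun v => Γ v y) h k).re ∂μ := by
        refine integral_mono_of_nonneg (Eventually.of_forall fun _ => by positivity)
          h3.integrable.re (Eventually.of_forall fun y => ?_)
        exact gcs hr H (fun v => Γ v y) (fun i h => b i h y) (fun i h => (hb i h).2 y)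
          (fun i h t => hb' i h t y)
    _ = _ := by
        rw [DLow_re_int h3, integral_expect _ fun h _ => (h2 h).integrable, re_expect]
        refine expect_congr rfl fun h _ => ?_
        rw [integral_expect _ fun k _ => (B1.cube hΓ h k).integrable, re_expect]

lemma DLow_a (S : Sys ℤ Y μ) {D : Y → ℂ} (hD : B1 D) (r : ℕ) {H : ℕ} (hH : 1 ≤ H) :
    ∃ k, nrm S (r + 2) D ≤ 𝔼 h ∈ pb r H, nrm S 2 (dc S h k D) := by
  have h1 : nrm S (r + 2) D ≤ 𝔼 h ∈ pb r H, 𝔼 k ∈ pb r H, nrm S 2 (dc S h k D) := by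
    refine ge_of_tendsto (DLow_tendsto (pb r H) fun h _ => DLow_tendsto (pb r H) fun k _ =>
      tendsto_nrm S 2 (B1.dc S h k hD)) ?_
    filter_upwards [eventually_ge_atTop 1] with K hK
    rw [← box_cube]
    have := nrm_le S (List.replicate r H ++ List.replicate 2 K) (fun L hL => by
      rcases List.mem_append.1 hL with h | h
      · rw [List.eq_of_mem_replicate h]; exact hH
      · rw [List.eq_of_mem_replicate h]; exact hK) hD
    simpa only [List.length_append, List.length_replicate] using this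
  rw [expect_comm] at h1
  obtain ⟨k, -, hk⟩ := exists_le_of_le_expect (DLow_pb hH) h1
  exact ⟨k, hk⟩

lemma DLow_dl (S : Sys ℤ Y μ) {r : ℕ} (h k : Fin r → ℕ) (D : Y → ℂ) (l l' : ℤ) (y : Y) :
    dc S h k (dl S l l' D) y = dc S h k D (S.act l y) * conj (dc S h k D (S.act l' y)) := by
  rw [← dc_act, ← dc_act]
  simp only [dc, dl]
  rw [cube_mul, cube_conj]

lemma DLow_c (S : Sys ℤ Y μ) {D : Y → ℂ} (hD : B1 D) {r : ℕ} (hr : 1 ≤ r) {H : ℕ} (hH : 1 ≤ H)
    {β : (Fin r → ℕ) → ℝ} {X : (Fin r → ℕ) → Y → ℂ} (hX : ∀ h, Eig S (β h) (X h))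
    (k k' : Fin r → ℕ) (good : (Fin r → ℕ) → Prop) {c e : ℝ} (hc0 : 0 ≤ c) (he : 0 ≤ e)
    (hc : c ≤ 𝔼 h ∈ pb r H, if good h then (1 : ℝ) else 0)
    (h1 : ∀ h, good h → e ≤ (∫ y, dc S h k D y * X h y ∂μ).re)
    (h2 : ∀ h, good h → ∃ m : ℤ, calt β h k' = m) :
    (c * e ^ 2) ^ 2 ^ r ≤ box S (List.replicate (r + 1) H) D := by
  have hR : (range H).Nonempty := nonempty_range_iff.2 (by omega)
  obtain ⟨b, hb⟩ : ∃ b : ℕ → Fin r → (Fin r → ℕ) → ℂ,
      b = fun (l : ℕ) i h => cfac (fun v => ec (β v * (-(l : ℝ)))) k' i h := ⟨_, rfl⟩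
  have hb1 : ∀ l i h, ‖b l i h‖ ≤ 1 := fun l i h => by
    rw [hb]; exact norm_cfac_le (fun v => by simp) k' i h
  have hbu : ∀ l i h t, b l i (Function.update h i t) = b l i h := fun l i h t => by
    rw [hb]; exact cfac_update _ k' i h t
  have hB1 : ∀ l h, ‖∏ i, b l i h‖ ≤ 1 := fun l h => by
    rw [norm_prod]; exact prod_le_one (fun _ _ => norm_nonneg _) fun i _ => hb1 l i h
  have hBe : ∀ h, good h → ∀ l : ℕ, ∏ i, b l i h = ec (β h * ((l : ℤ) : ℝ)) := by
    intro h hg l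
    obtain ⟨m, hm⟩ := h2 h hg
    have h3 := cube_ec β h k' (-(l : ℝ))
    rw [cube_eq, hm, show (m : ℝ) * -(l : ℝ) = ((-(m * l) : ℤ) : ℝ) by push_cast; ring,
      ec_int] at h3
    have h4 : ec (β h * ((l : ℤ) : ℝ)) * ec (β h * -(l : ℝ)) = 1 := by
      rw [← ec_add]; simp
    rw [hb]
    calc _ = ec (β h * ((l : ℤ) : ℝ)) * (ec (β h * -(l : ℝ)) *
          ∏ i, cfac (fun v => ec (β v * -(l : ℝ))) k' i h) := by rw [← mul_assoc, h4, one_mul]
      _ = _ := by rw [h3, mul_one]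
  have hG : ∀ h, B1 (dc S h k D) := fun h => B1.dc S h k hD
  have hT : ∀ h (l : ℕ), B1 fun y => (∏ i, b l i h) * dc S h k D (S.act (l : ℕ) y) :=
    fun h l => (B1.const (hB1 l h)).mul ((hG h).act S _)
  have hA : ∀ h, B1 fun y => 𝔼 l ∈ range H, (∏ i, b l i h) * dc S h k D (S.act (l : ℕ) y) :=
    fun h => B1.expect _ fun l _ => hT h l
  have h5 : ∀ h, (if good h then (1 : ℝ) else 0) * e ^ 2 ≤
      ∫ y, ‖𝔼 l ∈ range H, (∏ i, b l i h) * dc S h k D (S.act (l : ℕ) y)‖ ^ 2 ∂μ := by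
    intro h
    split_ifs with hg
    · refine le_trans ?_ (sq_norm_integral_mul_le (hA h).1 (hA h).2 (hX h).1.2)
      rw [one_mul]
      refine pow_le_pow_left₀ he ((h1 h hg).trans (le_trans (le_of_eq ?_) (Complex.re_le_norm _))) 2
      congr 1
      simp only [mul_expect]
      rw [integral_expect _ fun l _ => ((hX h).1.mul (hT h l)).integrable]
      refine (expect_const hR _).symm.trans (expect_congr rfl fun l _ => ?_)
      rw [← integral_act S (l : ℕ) ((hG h).mul (hX h).1).1]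
      refine integral_congr_ae ?_
      filter_upwards [(hX h).2 (l : ℕ)] with y hy
      rw [hy, hBe h hg l]
      ring
    · rw [zero_mul]
      exact integral_nonneg fun _ => by positivity
  obtain ⟨Γ, hΓ⟩ : ∃ Γ : ℕ → ℕ → (Fin r → ℕ) → Y → ℂ,
      Γ = fun (l l' : ℕ) v y => dl S (l : ℕ) (l' : ℕ) D (S.act ((∑ i, v i : ℕ) : ℤ) y) := ⟨_, rfl⟩
  have hΓ1 : ∀ l l' v, B1 (Γ l l' v) := fun l l' v => by
    rw [hΓ]; exact (hD.dl S _ _).act S _
  obtain ⟨w, hw⟩ : ∃ w : ℕ → ℕ → Fin r → (Fin r → ℕ) → Y → ℂ,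
      w = fun l l' i h y => b l i h * conj (b l' i h) * cfac (fun v => Γ l l' v y) k i h :=
    ⟨_, rfl⟩
  have hw1 : ∀ l l' i h, B1 (w l l' i h) := fun l l' i h => by
    rw [hw]
    exact ((B1.const (hb1 l i h)).mul (B1.const (hb1 l' i h)).conj).mul (B1.cfac (hΓ1 l l') k i h)
  have hwu : ∀ l l' i h t y, w l l' i (Function.update h i t) y = w l l' i h y :=
    fun l l' i h t y => by
      rw [hw]
      simp only [hbu, cfac_update]
  have hid : ∀ (l l' : ℕ) h y, (∏ i, b l i h) * dc S h k D (S.act (l : ℕ) y) *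
      conj ((∏ i, b l' i h) * dc S h k D (S.act (l' : ℕ) y)) = Γ l l' h y * ∏ i, w l l' i h y := by
    intro l l' h y
    have h6 : cube (fun v => Γ l l' v y) h k =
        dc S h k D (S.act (l : ℕ) y) * conj (dc S h k D (S.act (l' : ℕ) y)) := by
      rw [← DLow_dl, hΓ]; rfl
    rw [cube_eq] at h6
    rw [hw]
    simp only [prod_mul_distrib, map_mul, map_prod]
    linear_combination (-(∏ i, b l i h) * ∏ i, conj (b l' i h)) * h6
  have hZ : ∀ l l' h, B1 fun y => Γ l l' h y * ∏ i, w l l' i h y := fun l l' h =>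
    (hΓ1 l l' h).mul (B1.prod univ fun i _ => hw1 l l' i h)
  have h7 : c * e ^ 2 ≤ 𝔼 l ∈ range H, 𝔼 l' ∈ range H,
      ∫ y, ‖𝔼 h ∈ pb r H, Γ l l' h y * ∏ i, w l l' i h y‖ ∂μ := by
    calc c * e ^ 2 ≤ (𝔼 h ∈ pb r H, if good h then (1 : ℝ) else 0) * e ^ 2 := by gcongr
      _ = 𝔼 h ∈ pb r H, (if good h then (1 : ℝ) else 0) * e ^ 2 := expect_mul _ _ _
      _ ≤ 𝔼 h ∈ pb r H, 𝔼 l ∈ range H, 𝔼 l' ∈ range H,
            (∫ y, Γ l l' h y * ∏ i, w l l' i h y ∂μ).re := by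
          refine expect_le_expect fun h _ => (h5 h).trans (le_of_eq ?_)
          simp only [sq_norm_expect, hid]
          rw [integral_expect_real _ fun l _ => ?_]
          · refine expect_congr rfl fun l _ => ?_
            refine (integral_expect_real _ fun l' _ => ?_).trans ?_
            · exact (hZ l l' h).integrable.re
            · exact expect_congr rfl fun l' _ => DLow_re_int (hZ l l' h)
          · simp only [← re_expect]
            exact (B1.expect _ fun l' _ => hZ l l' h).integrable.re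
      _ = 𝔼 l ∈ range H, 𝔼 l' ∈ range H,
            (∫ y, 𝔼 h ∈ pb r H, Γ l l' h y * ∏ i, w l l' i h y ∂μ).re := by
          rw [expect_comm]
          refine expect_congr rfl fun l _ => ?_
          rw [expect_comm]
          refine expect_congr rfl fun l' _ => ?_
          rw [integral_expect _ fun h _ => (hZ l l' h).integrable, re_expect]
      _ ≤ _ := expect_le_expect fun l _ => expect_le_expect fun l' _ => DLow_re_le
  have hn : 2 ^ r ≠ 0 := by positivity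
  have h0 : ∀ l l', 0 ≤ ∫ y, ‖𝔼 h ∈ pb r H, Γ l l' h y * ∏ i, w l l' i h y‖ ∂μ :=
    fun l l' => integral_nonneg fun _ => norm_nonneg _
  refine (pow_le_pow_left₀ (by positivity) h7 _).trans ?_
  refine (pow_expect_le _ (fun l _ => expect_nonneg fun l' _ => h0 l l') hn).trans ?_
  rw [List.replicate_succ, box]
  refine expect_le_expect fun l _ => (pow_expect_le _ (fun l' _ => h0 l l') hn).trans ?_
  refine expect_le_expect fun l' _ => (DLow_gcs hr H (hΓ1 l l') (hw1 l l') (hwu l l')).trans ?_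
  have h8 := box_cube S r H [] (dl S (l : ℕ) (l' : ℕ) D)
  rw [List.append_nil] at h8
  rw [h8, hΓ]
  exact le_of_eq rfl

lemma DLow_b (S : Sys ℤ Y μ) (U : Ultrafilter ℕ) (c : ℕ → ℕ → ℝ)
    (hc : ∀ j n, 0 ≤ c j n) (h1 : ∀ j, ∑ n ∈ range j, c j n ≤ 1) (F : ℕ → ℕ → Y → ℂ)
    (hF : ∀ j n, B1 (F j n)) {D : Y → ℂ} (hD : B1 D)
    (hlim : ∀ f : Y → ℂ, B1 f → Tendsto (fun j => ∫ y, f y * ∑ n ∈ range j, c j n * F j n y ∂μ) U
      (𝓝 (∫ y, f y * D y ∂μ)))
    {r : ℕ} (hr : 1 ≤ r) (H : ℕ) {X : (Fin r → ℕ) → Y → ℂ} (hX : ∀ h, B1 (X h))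
    (k : Fin r → ℕ) {e : ℝ} (he : 0 ≤ e)
    (h2 : e < 𝔼 h ∈ pb r H, (∫ y, dc S h k D y * X h y ∂μ).re) :
    ∀ᶠ j in (U : Filter ℕ), e ^ 2 ^ r ≤ 𝔼 h ∈ pb r H, 𝔼 k' ∈ pb r H,
      (∑ n ∈ range j, c j n * ∫ y, dc S h k' (F j n) y * cube (fun v => X v y) h k' ∂μ).re := by
  obtain ⟨w, hw⟩ : ∃ w : Fin r → (Fin r → ℕ) → Y → ℂ,
      w = fun i h y => cfac (fun v => D (S.act ((∑ i, v i : ℕ) : ℤ) y)) k i h := ⟨_, rfl⟩
  have hw1 : ∀ i h, B1 (w i h) := fun i h => by
    rw [hw]; exact B1.cfac (fun v => hD.act S _) k i h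
  have hwu : ∀ i h t y, w i (Function.update h i t) y = w i h y := fun i h t y => by
    rw [hw]; exact cfac_update _ k i h t
  have hW : ∀ h, B1 fun y => X h y * ∏ i, w i h y := fun h =>
    (hX h).mul (B1.prod univ fun i _ => hw1 i h)
  have hsh : ∀ (h : Fin r → ℕ) (g : Y → ℂ), B1 g →
      ∫ y, (X h (S.act (-((∑ i, h i : ℕ) : ℤ)) y) *
        ∏ i, w i h (S.act (-((∑ i, h i : ℕ) : ℤ)) y)) * g y ∂μ =
      ∫ y, (g (S.act ((∑ i, h i : ℕ) : ℤ) y) * X h y) * ∏ i, w i h y ∂μ := by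
    intro h g hg
    rw [← integral_act S ((∑ i, h i : ℕ) : ℤ) (((hW h).act S _).mul hg).1]
    refine integral_congr_ae (Eventually.of_forall fun y => ?_)
    simp only [act_act, neg_add_cancel, S.act_zero]
    ring
  have h3 := DLow_tendsto (pb r H) fun h _ =>
    (Complex.continuous_re.tendsto _).comp (hlim _ ((hW h).act S (-((∑ i, h i : ℕ) : ℤ))))
  have h4 : e < 𝔼 h ∈ pb r H, (∫ y, (X h (S.act (-((∑ i, h i : ℕ) : ℤ)) y) *
      ∏ i, w i h (S.act (-((∑ i, h i : ℕ) : ℤ)) y)) * D y ∂μ).re := by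
    refine h2.trans_eq (expect_congr rfl fun h _ => ?_)
    rw [hsh h D hD]
    congr 1
    refine integral_congr_ae (Eventually.of_forall fun y => ?_)
    simp only [dc, cube_eq, hw]
    ring
  filter_upwards [h3.eventually (lt_mem_nhds h4)] with j hj
  obtain ⟨Γ, hΓ⟩ : ∃ Γ : ℕ → (Fin r → ℕ) → Y → ℂ,
      Γ = fun n v y => F j n (S.act ((∑ i, v i : ℕ) : ℤ) y) * X v y := ⟨_, rfl⟩
  have hΓ1 : ∀ n v, B1 (Γ n v) := fun n v => by
    rw [hΓ]; exact ((hF j n).act S _).mul (hX v)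
  have hZ : ∀ n h, B1 fun y => Γ n h y * ∏ i, w i h y := fun n h =>
    (hΓ1 n h).mul (B1.prod univ fun i _ => hw1 i h)
  have h5 : e ≤ ∑ n ∈ range j, c j n * ∫ y, ‖𝔼 h ∈ pb r H, Γ n h y * ∏ i, w i h y‖ ∂μ := by
    refine hj.le.trans ?_
    calc _ = 𝔼 h ∈ pb r H, ∑ n ∈ range j,
            c j n * (∫ y, Γ n h y * ∏ i, w i h y ∂μ).re := by
          refine expect_congr rfl fun h _ => ?_
          simp only [Function.comp, mul_sum]
          rw [integral_finsetSum _ fun n _ => ?_, Complex.re_sum]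
          · refine sum_congr rfl fun n _ => ?_
            simp only [mul_left_comm _ (c j n : ℂ)]
            rw [integral_const_mul, Complex.re_ofReal_mul, hsh h _ (hF j n), hΓ]
          · simp only [mul_left_comm _ (c j n : ℂ)]
            exact (((hW h).act S _).mul (hF j n)).integrable.const_mul _
      _ = ∑ n ∈ range j, c j n * (∫ y, 𝔼 h ∈ pb r H, Γ n h y * ∏ i, w i h y ∂μ).re := by
          rw [expect_sum_comm]
          refine sum_congr rfl fun n _ => ?_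
          rw [integral_expect _ fun h _ => (hZ n h).integrable, re_expect, mul_expect]
      _ ≤ _ := sum_le_sum fun n _ => mul_le_mul_of_nonneg_left DLow_re_le (hc j n)
  have hn : 2 ^ r ≠ 0 := by positivity
  refine (pow_le_pow_left₀ he h5 _).trans ?_
  refine (pow_wsum_le _ (fun n _ => hc j n) (h1 j)
    (fun n _ => integral_nonneg fun _ => norm_nonneg _) hn).trans ?_
  refine (sum_le_sum fun n _ => mul_le_mul_of_nonneg_left
    (DLow_gcs hr H (hΓ1 n) hw1 hwu) (hc j n)).trans (le_of_eq ?_)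
  simp only [Complex.re_sum, expect_sum_comm, mul_expect, Complex.re_ofReal_mul, hΓ, cube_mul]
  rfl

theorem dlow (S : Sys ℤ Y μ) (erg : Ergodic (S.act 1) μ) (U : Ultrafilter ℕ) (c : ℕ → ℕ → ℝ)
    (hc : ∀ j n, 0 ≤ c j n) (h1 : ∀ j, ∑ n ∈ range j, c j n ≤ 1) (F : ℕ → ℕ → Y → ℂ)
    (hF : ∀ j n, B1 (F j n)) {D : Y → ℂ} (hD : B1 D)
    (hlim : ∀ f : Y → ℂ, B1 f → Tendsto (fun j => ∫ y, f y * ∑ n ∈ range j, c j n * F j n y ∂μ) U
      (𝓝 (∫ y, f y * D y ∂μ)))
    {r : ℕ} (hr : 1 ≤ r)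
    (hP : ∀ (h k : Fin r → ℕ) (β : ℝ) (χ : Y → ℂ), Eig S β χ → (∀ n : ℤ, β ≠ n) →
      Tendsto (fun j => ∑ n ∈ range j, c j n * ∫ y, dc S h k (F j n) y * χ y ∂μ) U (𝓝 0))
    (hpos : 0 < nrm S (r + 2) D) : 0 < nrm S (r + 1) D := by
  obtain ⟨d, hd⟩ : ∃ d, d = nrm S (r + 2) D := ⟨_, rfl⟩
  rw [← hd] at hpos
  refine lt_of_lt_of_le (b := ((d / 4) ^ 2 ^ r * (d / 2) ^ 2) ^ 2 ^ r) (by positivity)
    (le_ciInf fun K => ?_)
  have hH : 1 ≤ K + 1 := by omega
  generalize K + 1 = H at hH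
  obtain ⟨k, hk⟩ := DLow_a S hD r hH
  rw [← hd] at hk
  choose β χ hχ hn using fun h : Fin r → ℕ => inv2 S erg (B1.dc S h k hD)
  obtain ⟨X, hX⟩ : ∃ X : (Fin r → ℕ) → Y → ℂ,
      X = fun h y => if d / 2 ≤ nrm S 2 (dc S h k D) then conj (χ h y) else 0 := ⟨_, rfl⟩
  have hXe : ∀ h, Eig S (-β h) (X h) := fun h => by
    by_cases hh : d / 2 ≤ nrm S 2 (dc S h k D)
    · simpa only [hX, if_pos hh] using (hχ h).conj
    · simpa only [hX, if_neg hh] using Eig.zero S (-β h)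
  have hX1 : ∀ h, d / 2 ≤ nrm S 2 (dc S h k D) →
      nrm S 2 (dc S h k D) ≤ (∫ y, dc S h k D y * X h y ∂μ).re := fun h hh => by
    simpa only [hX, if_pos hh] using hn h
  have hX0 : ∀ h, ¬ d / 2 ≤ nrm S 2 (dc S h k D) → ∀ y, X h y = 0 := fun h hh y => by
    simp only [hX, if_neg hh]
  have h2 : d / 4 < 𝔼 h ∈ pb r H, (∫ y, dc S h k D y * X h y ∂μ).re := by
    have h3 : 𝔼 h ∈ pb r H, (nrm S 2 (dc S h k D) - d / 2) ≤
        𝔼 h ∈ pb r H, (∫ y, dc S h k D y * X h y ∂μ).re := by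
      refine expect_le_expect fun h _ => ?_
      by_cases hh : d / 2 ≤ nrm S 2 (dc S h k D)
      · have := hX1 h hh
        linarith
      · simp only [hX0 h hh, mul_zero, integral_zero, Complex.zero_re]
        linarith
    rw [expect_sub_distrib, expect_const (DLow_pb hH)] at h3
    linarith
  have h4 := DLow_b S U c hc h1 F hF hD hlim hr H (fun h => (hXe h).1) k (by positivity) h2
  obtain ⟨good, hg⟩ : ∃ good : (Fin r → ℕ) → (Fin r → ℕ) → Prop, good = fun h k' =>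
      d / 2 ≤ nrm S 2 (dc S h k D) ∧ ∃ m : ℤ, calt (fun v => -β v) h k' = m := ⟨_, rfl⟩
  have h5 : (d / 4) ^ 2 ^ r ≤ 𝔼 h ∈ pb r H, 𝔼 k' ∈ pb r H, if good h k' then (1 : ℝ) else 0 := by
    refine ge_of_tendsto (x := (U : Filter ℕ)) (DLow_tendsto (pb r H) fun h _ =>
      DLow_tendsto (pb r H) (f := fun k' j => if good h k' then (1 : ℝ) else
        (∑ n ∈ range j, c j n * ∫ y, dc S h k' (F j n) y * cube (fun v => X v y) h k' ∂μ).re)
        fun k' _ => ?_) ?_
    · by_cases hh : good h k'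
      · simp only [if_pos hh]
        exact tendsto_const_nhds
      · simp only [if_neg hh]
        by_cases hl : d / 2 ≤ nrm S 2 (dc S h k D)
        · have h6 := hP h k' _ _ (Eig.cube hXe h k') fun n hn' => hh (by rw [hg]; exact ⟨hl, n, hn'⟩)
          exact (Complex.continuous_re.tendsto 0).comp h6
        · simp only [cube_eq (fun v => X v _), hX0 h hl, zero_mul, mul_zero, integral_zero,
            sum_const_zero, Complex.zero_re]
          exact tendsto_const_nhds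
    · filter_upwards [h4] with j hj
      refine hj.trans (expect_le_expect fun h _ => expect_le_expect fun k' _ => ?_)
      split_ifs with hh
      · refine (Complex.re_le_norm _).trans ((norm_sum_le _ _).trans
          (le_trans (sum_le_sum fun n _ => ?_) (h1 j)))
        rw [norm_mul, Complex.norm_real, Real.norm_of_nonneg (hc j n)]
        exact mul_le_of_le_one_right (hc j n)
          ((B1.dc S h k' (hF j n)).mul (B1.cube (fun v => (hXe v).1) h k')).norm_integral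
      · exact le_rfl
  rw [expect_comm] at h5
  obtain ⟨k', -, hk'⟩ := exists_le_of_le_expect (DLow_pb hH) h5
  refine DLow_c S hD hr hH hXe k k' (fun h => good h k') (by positivity) (by positivity) hk'
    (fun h hh => ?_) (fun h hh => ?_)
  · rw [hg] at hh
    exact hh.1.trans (hX1 h hh.1)
  · rw [hg] at hh
    exact hh.2

end Pool.Agent.MP_357fb4_an

end
end

section

/-!
Weak limits, and invariant functions.
-/

open scoped BigOperators Classical ComplexConjugate Polynomial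
open Finset Filter MeasureTheory Topology

noncomputable section

namespace Pool.Agent.MP_357fb4_an

variable {Y : Type} [MeasurableSpace Y] {μ : Measure Y} [IsProbabilityMeasure μ]

/-- Weak compactness of balls of a Hilbert space, along an ultrafilter. -/
lemma WL_hilbert {H : Type} [NormedAddCommGroup H] [InnerProductSpace ℂ H] [CompleteSpace H]
    (U : Ultrafilter ℕ) (d : ℕ → H) (hd : ∀ j, ‖d j‖ ≤ 1) :
    ∃ e : H, ∀ v, Tendsto (fun j => inner ℂ (d j) v) U (𝓝 (inner ℂ e v)) := by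
  have hc := WeakDual.isCompact_closedBall (𝕜 := ℂ) (E := H) 0 1
  let φ : ℕ → WeakDual ℂ H := fun j => StrongDual.toWeakDual (InnerProductSpace.toDual ℂ H (d j))
  obtain ⟨ψ, -, hψ⟩ := hc.ultrafilter_le_nhds (U.map φ) (by
    rw [le_principal_iff, Ultrafilter.coe_map, Filter.mem_map]
    refine Eventually.of_forall fun j => ?_
    simpa [φ] using hd j)
  refine ⟨(InnerProductSpace.toDual ℂ H).symm (WeakDual.toStrongDual ψ), fun v => ?_⟩
  rw [InnerProductSpace.toDual_symm_apply]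
  exact ((WeakDual.eval_continuous v).tendsto ψ).comp hψ

lemma WL_memLp {f : Y → ℂ} (hf : B1 f) : MemLp f 2 μ :=
  MemLp.of_bound hf.1.aestronglyMeasurable 1 (Eventually.of_forall hf.2)

lemma WL_norm {f : Y → ℂ} (hf : B1 f) : ‖(WL_memLp (μ := μ) hf).toLp f‖ ≤ 1 := by
  have := Lp.norm_le_of_ae_bound (f := (WL_memLp (μ := μ) hf).toLp f) zero_le_one (by
    filter_upwards [(WL_memLp (μ := μ) hf).coeFn_toLp] with y hy
    rw [hy]
    exact hf.2 y)
  simpa [measureUnivNNReal] using this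

lemma WL_inner (e : Lp ℂ 2 μ) {f g : Y → ℂ} (hf : B1 f) (hg : ∀ᵐ y ∂μ, g y = conj (e y)) :
    inner ℂ e ((WL_memLp (μ := μ) hf).toLp f) = ∫ y, f y * g y ∂μ := by
  rw [L2.inner_def]
  refine integral_congr_ae ?_
  filter_upwards [(WL_memLp (μ := μ) hf).coeFn_toLp, hg] with y h1 h2
  rw [h1, h2]
  simp

/-- A function whose pairings are dominated by the integral of the norm is bounded by one. -/
lemma WL_bound {g : Y → ℂ} (hg : Measurable g) (hi : Integrable g μ)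
    (h : ∀ f : Y → ℂ, B1 f → ‖∫ y, f y * g y ∂μ‖ ≤ ∫ y, ‖f y‖ ∂μ) : ∀ᵐ y ∂μ, ‖g y‖ ≤ 1 := by
  have hA : MeasurableSet {y | 1 < ‖g y‖} := measurableSet_lt measurable_const hg.norm
  let f : Y → ℂ := fun y => if 1 < ‖g y‖ then conj (g y) / ‖g y‖ else 0
  have n1 : ∀ y, ‖f y‖ = if 1 < ‖g y‖ then 1 else 0 := by
    intro y
    by_cases hy : 1 < ‖g y‖
    · have : ‖g y‖ ≠ 0 := by linarith
      simp [f, hy, this]
    · simp [f, hy]
  have hf : B1 f := by
    refine ⟨Measurable.ite hA ((Complex.continuous_conj.measurable.comp hg).div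
      (Complex.measurable_ofReal.comp hg.norm)) measurable_const, fun y => ?_⟩
    rw [n1]
    split_ifs <;> norm_num
  have n2 : ∀ y, f y * g y = ((if 1 < ‖g y‖ then ‖g y‖ else 0 : ℝ) : ℂ) := by
    intro y
    by_cases hy : 1 < ‖g y‖
    · have : ((‖g y‖ : ℝ) : ℂ) ≠ 0 := by
        rw [Complex.ofReal_ne_zero]; linarith
      simp only [f, hy, if_true]
      rw [div_mul_eq_mul_div, Complex.conj_mul', div_eq_iff this, sq]
    · simp [f, hy]
  have i1 : Integrable (fun y => if 1 < ‖g y‖ then ‖g y‖ else 0) μ :=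
    (hi.norm.indicator hA).congr (Eventually.of_forall fun y => by simp [Set.indicator])
  have i2 : Integrable (fun y => if 1 < ‖g y‖ then (1 : ℝ) else 0) μ :=
    ((integrable_const (1 : ℝ)).indicator hA).congr
      (Eventually.of_forall fun y => by simp [Set.indicator])
  have h1 := h f hf
  simp only [n1, n2] at h1
  rw [integral_complex_ofReal, Complex.norm_real] at h1
  have h2 : 0 ≤ fun y => (if 1 < ‖g y‖ then ‖g y‖ else 0) - (if 1 < ‖g y‖ then (1 : ℝ) else 0) := by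
    intro y
    simp only [Pi.zero_apply]
    split_ifs <;> linarith
  have h3 : ∫ y, ((if 1 < ‖g y‖ then ‖g y‖ else 0) - (if 1 < ‖g y‖ then (1 : ℝ) else 0)) ∂μ = 0 := by
    refine le_antisymm ?_ (integral_nonneg h2)
    rw [integral_sub i1 i2]
    linarith [le_abs_self (∫ y, (if 1 < ‖g y‖ then ‖g y‖ else 0) ∂μ), Real.norm_eq_abs
      (∫ y, (if 1 < ‖g y‖ then ‖g y‖ else 0) ∂μ)]
  filter_upwards [(integral_eq_zero_iff_of_nonneg h2 (i1.sub i2)).1 h3] with y hy
  by_contra hlt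
  rw [not_le] at hlt
  simp only [hlt, if_true, Pi.zero_apply] at hy
  linarith

theorem weaklim (U : Ultrafilter ℕ) (D : ℕ → Y → ℂ) (hD : ∀ j, B1 (D j)) :
    ∃ E : Y → ℂ, B1 E ∧ ∀ f : Y → ℂ, B1 f →
      Tendsto (fun j => ∫ y, f y * D j y ∂μ) U (𝓝 (∫ y, f y * E y ∂μ)) := by
  obtain ⟨e, he⟩ := WL_hilbert U (fun j => (WL_memLp (μ := μ) (hD j).conj).toLp _)
    fun j => WL_norm (hD j).conj
  have hm : AEMeasurable (fun y => conj (e y)) μ :=
    Complex.continuous_conj.measurable.comp_aemeasurable (Lp.aestronglyMeasurable e).aemeasurable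
  obtain ⟨g, hg, hge⟩ := hm
  have hge' : ∀ᵐ y ∂μ, g y = conj (e y) := hge.symm
  have key : ∀ f : Y → ℂ, B1 f →
      Tendsto (fun j => ∫ y, f y * D j y ∂μ) U (𝓝 (∫ y, f y * g y ∂μ)) := by
    intro f hf
    have := he ((WL_memLp (μ := μ) hf).toLp f)
    rw [WL_inner e hf hge'] at this
    refine this.congr fun j => WL_inner _ hf ?_
    filter_upwards [(WL_memLp (μ := μ) (hD j).conj).coeFn_toLp] with y hy
    rw [hy, Complex.conj_conj]
  have hi : Integrable g μ := by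
    refine ((Lp.memLp e).integrable one_le_two).norm.mono' hg.aestronglyMeasurable ?_
    filter_upwards [hge'] with y hy
    rw [hy, Complex.norm_conj]
  have hb := WL_bound hg hi fun f hf => le_of_tendsto' (key f hf).norm fun j =>
    norm_integral_le_of_norm_le hf.integrable.norm (Eventually.of_forall fun y => by
      rw [norm_mul]
      exact mul_le_of_le_one_right (norm_nonneg _) ((hD j).2 y))
  refine ⟨fun y => if ‖g y‖ ≤ 1 then g y else 0, ⟨Measurable.ite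
    (measurableSet_le hg.norm measurable_const) hg measurable_const, fun y => ?_⟩, fun f hf => ?_⟩
  · by_cases hy : ‖g y‖ ≤ 1 <;> simp [hy]
  · have : ∫ y, f y * (if ‖g y‖ ≤ 1 then g y else 0) ∂μ = ∫ y, f y * g y ∂μ := by
      refine integral_congr_ae ?_
      filter_upwards [hb] with y hy
      rw [if_pos hy]
    rw [this]
    exact key f hf

theorem eig_const (S : Sys ℤ Y μ) (erg : Ergodic (S.act 1) μ) {χ : Y → ℂ} {n : ℤ}
    (hχ : Eig S n χ) : ∃ c : ℂ, χ =ᵐ[μ] fun _ => c := by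
  refine erg.quasiErgodic.ae_eq_const_of_ae_eq_comp_ae hχ.1.1.aestronglyMeasurable ?_
  filter_upwards [hχ.2 1] with y hy
  rw [Int.cast_one, mul_one, ec_int, one_mul] at hy
  exact hy

end Pool.Agent.MP_357fb4_an

end
end

section

/-!
Joint ergodicity from seminorm control and equidistribution.
-/

open scoped BigOperators Classical ComplexConjugate Polynomial
open Finset Filter MeasureTheory Topology

noncomputable section

namespace Pool.Agent.MP_357fb4_an

variable {Y : Type} [MeasurableSpace Y] {μ : Measure Y} [IsProbabilityMeasure μ]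

/-- The phase carried by the indices outside T. -/
def jeTh {ι : Type} [Fintype ι] (a : ι → ℕ → ℤ) (T : Finset ι) (α : ι → ℝ) (n : ℕ) : ℝ :=
  ∑ i ∈ Tᶜ, α i * a i n

/-- The twisted multiple average. -/
def jeA (S : Sys ℤ Y μ) {ι : Type} [Fintype ι] (a : ι → ℕ → ℤ) (c : ℕ → ℕ → ℝ) (T : Finset ι)
    (α : ι → ℝ) (f : ι → Y → ℂ) (j : ℕ) (y : Y) : ℂ :=
  ∑ n ∈ range j, (c j n : ℂ) * (ec (jeTh a T α n) * ∏ i ∈ T, f i (S.act (a i n) y))

/-- The terms of the dual function. -/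
def jeF (S : Sys ℤ Y μ) {ι : Type} [Fintype ι] (a : ι → ℕ → ℤ) (T : Finset ι) (m : ι)
    (α : ι → ℝ) (G : Y → ℂ) (f : ι → Y → ℂ) (n : ℕ) (y : Y) : ℂ :=
  ec (jeTh a T α n) * (G (S.act (-a m n) y) * ∏ i ∈ T.erase m, f i (S.act (a i n - a m n) y))

section

variable (S : Sys ℤ Y μ) {ι : Type} [Fintype ι] (a : ι → ℕ → ℤ) {c : ℕ → ℕ → ℝ}

omit [IsProbabilityMeasure μ] in
lemma je_B1sum (hc : ∀ j n, 0 ≤ c j n) (h1 : ∀ j, ∑ n ∈ range j, c j n ≤ 1) (j : ℕ)
    {H : ℕ → Y → ℂ} (hH : ∀ n, B1 (H n)) : B1 fun y => ∑ n ∈ range j, (c j n : ℂ) * H n y := by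
  refine B1.sum (range j) (fun n _ => hH n) (le_trans (le_of_eq ?_) (h1 j))
  exact sum_congr rfl fun n _ => by rw [Complex.norm_real, Real.norm_of_nonneg (hc j n)]

omit [IsProbabilityMeasure μ] in
lemma je_B1term (T : Finset ι) (θ : ℝ) {f : ι → Y → ℂ} (hf : ∀ i, B1 (f i)) (v : ι → ℤ) :
    B1 fun y => ec θ * ∏ i ∈ T, f i (S.act (v i) y) :=
  (B1.const (norm_ec θ).le).mul (B1.prod T fun i _ => (hf i).act S (v i))

omit [IsProbabilityMeasure μ] in
lemma jeA_B1 (hc : ∀ j n, 0 ≤ c j n) (h1 : ∀ j, ∑ n ∈ range j, c j n ≤ 1) (T : Finset ι)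
    (α : ι → ℝ) {f : ι → Y → ℂ} (hf : ∀ i, B1 (f i)) (j : ℕ) : B1 (jeA S a c T α f j) :=
  je_B1sum hc h1 j fun n => je_B1term S T _ hf fun i => a i n

omit [IsProbabilityMeasure μ] in
lemma jeF_B1 (T : Finset ι) (m : ι) (α : ι → ℝ) {G : Y → ℂ} (hG : B1 G) {f : ι → Y → ℂ}
    (hf : ∀ i, B1 (f i)) (n : ℕ) : B1 (jeF S a T m α G f n) :=
  (B1.const (norm_ec _).le).mul ((hG.act S _).mul (B1.prod _ fun i _ => (hf i).act S _))

lemma je_int_sum (j : ℕ) {φ : Y → ℂ} (hφ : B1 φ) {H : ℕ → Y → ℂ} (hH : ∀ n, B1 (H n)) :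
    ∫ y, φ y * ∑ n ∈ range j, (c j n : ℂ) * H n y ∂μ =
      ∑ n ∈ range j, (c j n : ℂ) * ∫ y, φ y * H n y ∂μ := by
  simp only [mul_sum]
  rw [integral_finsetSum]
  · refine sum_congr rfl fun n _ => ?_
    rw [← integral_const_mul]
    exact integral_congr_ae (Eventually.of_forall fun y => by simp only; ring)
  · intro n _
    exact (((hφ.mul (hH n)).integrable (μ := μ)).const_mul (c j n : ℂ)).congr
      (Eventually.of_forall fun y => by simp only; ring)

omit [IsProbabilityMeasure μ] in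
lemma je_shift (T : Finset ι) (m : ι) (α : ι → ℝ) {G φ : Y → ℂ} (hG : B1 G) (hφ : B1 φ)
    {f : ι → Y → ℂ} (hf : ∀ i, B1 (f i)) (n : ℕ) :
    ∫ y, φ y * jeF S a T m α G f n y ∂μ = ∫ y, φ (S.act (a m n) y) *
      (ec (jeTh a T α n) * (G y * ∏ i ∈ T.erase m, f i (S.act (a i n) y))) ∂μ := by
  rw [← integral_act S (a m n) (hφ.mul (jeF_B1 S a T m α hG hf n)).1]
  simp only [jeF, act_act, neg_add_cancel, sub_add_cancel, S.act_zero]

lemma je_dual {T : Finset ι} {m : ι} (hm : m ∈ T) (α : ι → ℝ) {G : Y → ℂ} (hG : B1 G)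
    {f : ι → Y → ℂ} (hf : ∀ i, B1 (f i)) (j : ℕ) :
    ∫ y, f m y * ∑ n ∈ range j, (c j n : ℂ) * jeF S a T m α G f n y ∂μ =
      ∫ y, G y * jeA S a c T α f j y ∂μ := by
  rw [je_int_sum j (hf m) (jeF_B1 S a T m α hG hf)]
  unfold jeA
  rw [je_int_sum j hG fun n => je_B1term S T _ hf fun i => a i n]
  refine sum_congr rfl fun n _ => ?_
  rw [je_shift S a T m α hG (hf m) hf]
  congr 1
  refine integral_congr_ae (Eventually.of_forall fun y => ?_)
  simp only
  rw [← mul_prod_erase T _ hm]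
  ring

lemma jeTh_update {T : Finset ι} {m : ι} (hm : m ∈ T) (α : ι → ℝ) (β : ℝ) (n : ℕ) :
    jeTh a (T.erase m) (Function.update α m β) n = β * a m n + jeTh a T α n := by
  have hm' : m ∉ Tᶜ := by simpa using hm
  unfold jeTh
  rw [compl_erase, sum_insert hm', Function.update_self]
  congr 1
  exact sum_congr rfl fun i hi => by
    rw [Function.update_of_ne (ne_of_mem_of_not_mem hi hm')]

lemma je_eig {T : Finset ι} {m : ι} (hm : m ∈ T) (α : ι → ℝ) {G : Y → ℂ} (hG : B1 G)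
    {f : ι → Y → ℂ} (hf : ∀ i, B1 (f i)) (j : ℕ) {β : ℝ} {χ : Y → ℂ} (hχ : Eig S β χ) :
    ∑ n ∈ range j, (c j n : ℂ) * ∫ y, χ y * jeF S a T m α G f n y ∂μ =
      ∫ y, (G y * χ y) * jeA S a c (T.erase m) (Function.update α m β) f j y ∂μ := by
  unfold jeA
  rw [je_int_sum j (hG.mul hχ.1) fun n => je_B1term S _ _ hf fun i => a i n]
  refine sum_congr rfl fun n _ => ?_
  rw [je_shift S a T m α hG hχ.1 hf]
  congr 1
  refine integral_congr_ae ((hχ.2 (a m n)).mono fun y hy => ?_)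
  simp only at hy ⊢
  rw [hy, jeTh_update a hm, ec_add]
  ring

lemma je_dc (T : Finset ι) (m : ι) (α : ι → ℝ) (G : Y → ℂ) (f : ι → Y → ℂ) (n : ℕ) {r : ℕ}
    (hr : 1 ≤ r) (h k : Fin r → ℕ) (y : Y) :
    dc S h k (jeF S a T m α G f n) y =
      jeF S a T m 0 (dc S h k G) (fun i => dc S h k (f i)) n y := by
  have h0 : jeTh a T 0 n = 0 := by simp [jeTh]
  have e1 := dc_act S h k G (-a m n) y
  have e2 : ∀ i, _ := fun i => dc_act S h k (f i) (a i n - a m n) y
  rw [jeF, h0, ec_zero, one_mul, ← e1]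
  simp only [← e2]
  simp only [dc, jeF]
  rw [cube_mul, cube_const hr (norm_ec _), one_mul, cube_mul, cube_prod]

lemma je_cs {l : Filter ℕ} {G A : ℕ → Y → ℂ} (hG : ∀ j, B1 (G j)) (hA : ∀ j, B1 (A j))
    (h : Tendsto (fun j => ∫ y, ‖A j y‖ ^ 2 ∂μ) l (𝓝 0)) :
    Tendsto (fun j => ∫ y, G j y * A j y ∂μ) l (𝓝 0) := by
  rw [tendsto_zero_iff_norm_tendsto_zero]
  have h2 := h.sqrt
  rw [Real.sqrt_zero] at h2
  exact squeeze_zero (fun _ => norm_nonneg _)
    (fun j => Real.le_sqrt_of_sq_le (sq_norm_integral_mul_le (hA j).1 (hA j).2 (hG j).2)) h2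

omit [IsProbabilityMeasure μ] in
lemma je_conj_mul (A : Y → ℂ) :
    ∫ y, conj (A y) * A y ∂μ = ((∫ y, ‖A y‖ ^ 2 ∂μ : ℝ) : ℂ) := by
  rw [← integral_complex_ofReal]
  exact integral_congr_ae (Eventually.of_forall fun y => by
    simp only; rw [Complex.conj_mul']; push_cast; rfl)

omit [IsProbabilityMeasure μ] in
lemma je_corr (T : Finset ι) (m : ι) (α : ι → ℝ) (G φ : Y → ℂ) (f : ι → Y → ℂ) (n : ℕ) :
    ‖∫ y, φ y * jeF S a T m α G f n y ∂μ‖ =
      ‖corr S φ (fun o : Option {i // i ≠ m} => o.elim G fun i => if i.1 ∈ T then f i else 1)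
        fun o => o.elim (-a m n) fun i => a i n - a m n‖ := by
  have : ∫ y, φ y * jeF S a T m α G f n y ∂μ = ec (jeTh a T α n) *
      corr S φ (fun o : Option {i // i ≠ m} => o.elim G fun i => if i.1 ∈ T then f i else 1)
        fun o => o.elim (-a m n) fun i => a i n - a m n := by
    rw [corr, ← integral_const_mul]
    refine integral_congr_ae (Eventually.of_forall fun y => ?_)
    simp only [jeF, Fintype.prod_option, Option.elim_none, Option.elim_some]
    have e : ∏ i : {i // i ≠ m}, (if i.1 ∈ T then f i else 1) (S.act (a i n - a m n) y) =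
        ∏ i ∈ T.erase m, f i (S.act (a i n - a m n) y) := by
      rw [← prod_subtype (univ.erase m) (p := fun i => i ≠ m) (by simp)
        (fun i => (if i ∈ T then f i else 1) (S.act (a i n - a m n) y))]
      rw [← prod_subset (s₁ := T.erase m) (erase_subset_erase m (subset_univ T))]
      · exact prod_congr rfl fun i hi => by rw [if_pos (mem_of_mem_erase hi)]
      · intro i hi hi'
        rw [if_neg fun h => hi' (mem_erase.2 ⟨(mem_erase.1 hi).1, h⟩)]
        rfl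
    rw [e]
    ring
  rw [this, norm_mul, norm_ec, one_mul]

/-- The statement proved by induction on T. -/
def jeP (S : Sys ℤ Y μ) {ι : Type} [Fintype ι] (a : ι → ℕ → ℤ) (c : ℕ → ℕ → ℝ)
    (T : Finset ι) : Prop :=
  ∀ (α : ι → ℝ) (f : ι → Y → ℂ), (∀ i, B1 (f i)) →
    ((∃ i ∉ T, ∀ n : ℤ, α i ≠ n) ∨ ∃ i ∈ T, ∫ y, f i y ∂μ = 0) →
      Tendsto (fun j => ∫ y, ‖jeA S a c T α f j y‖ ^ 2 ∂μ) atTop (𝓝 0)

lemma je_core (erg : Ergodic (S.act 1) μ) (hc : ∀ j n, 0 ≤ c j n)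
    (h1 : ∀ j, ∑ n ∈ range j, c j n ≤ 1) {T : Finset ι} {m : ι} (hm : m ∈ T)
    (hSC : ∃ s, 1 ≤ s ∧ Ctl S s c fun (o : Option {i // i ≠ m}) n =>
      o.elim (-(a m n : ℝ)) fun i => (a i n : ℝ) - a m n)
    (IH : jeP S a c (T.erase m)) (α : ι → ℝ) {f : ι → Y → ℂ} (hf : ∀ i, B1 (f i))
    {g : ℕ → Y → ℂ} (hg : ∀ j, B1 (g j)) (U : Ultrafilter ℕ) (hU : (U : Filter ℕ) ≤ atTop)
    {c0 : ℝ} (hc0 : 0 < c0) (hev : ∀ᶠ j in U, c0 ≤ ‖∫ y, g j y * jeA S a c T α f j y ∂μ‖) :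
    ∃ (β : ℝ) (χ : Y → ℂ), Eig S β χ ∧ ¬ Tendsto (fun j =>
      ∫ y, (g j y * χ y) * jeA S a c (T.erase m) (Function.update α m β) f j y ∂μ) U (𝓝 0) := by
  have hF : ∀ j n, B1 (jeF S a T m α (g j) f n) := fun j n => jeF_B1 S a T m α (hg j) hf n
  obtain ⟨D, hD, hlim⟩ := weaklim (μ := μ) U
    (fun j y => ∑ n ∈ range j, (c j n : ℂ) * jeF S a T m α (g j) f n y)
    fun j => je_B1sum hc h1 j (hF j)
  have hpos : 0 < ∫ y, ‖D y‖ ^ 2 ∂μ := by
    have h2 : c0 ≤ ‖∫ y, f m y * D y ∂μ‖ := by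
      refine ge_of_tendsto (hlim (f m) (hf m)).norm (hev.mono fun j hj => ?_)
      rwa [je_dual S a hm α (hg j) hf j]
    exact lt_of_lt_of_le (pow_pos (hc0.trans_le h2) 2)
      (sq_norm_integral_mul_le hD.1 hD.2 (hf m).2)
  obtain ⟨s, hs, hctl⟩ := hSC
  have hn : 0 < nrm S s D := by
    rw [← nrm_conj S s hD]
    by_contra hneg
    obtain ⟨δ, hδ, hK⟩ := hctl 0 _ (half_pos hpos)
    have hev2 : ∀ᶠ K in atTop, box S (List.replicate s K) (fun y => conj (D y)) ≤ δ :=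
      ((tendsto_nrm S s hD.conj).eventually
        (gt_mem_nhds ((not_lt.1 hneg).trans_lt hδ))).mono fun K hK => hK.le
    obtain ⟨K, hK1, hK2⟩ := (hev2.and (eventually_ge_atTop 1)).exists
    have h3 : ‖∫ y, conj (D y) * D y ∂μ‖ ≤ (∫ y, ‖D y‖ ^ 2 ∂μ) / 2 := by
      refine le_of_tendsto (hlim _ hD.conj).norm (((hK K hK2).filter_mono hU).mono fun j hj => ?_)
      rw [je_int_sum j hD.conj (hF j)]
      refine (norm_sum_le _ _).trans (le_trans (le_of_eq ?_) (hj _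
        (fun o : Option {i // i ≠ m} => o.elim (g j) fun i => if i.1 ∈ T then f i else 1)
        (fun o n => o.elim (-a m n) fun i => a i n - a m n) hD.conj ?_ ?_ hK1))
      · refine sum_congr rfl fun n _ => ?_
        rw [norm_mul, Complex.norm_real, Real.norm_of_nonneg (hc j n), je_corr]
      · rintro (_ | i)
        · exact hg j
        · simp only [Option.elim_some]
          split_ifs
          · exact hf i
          · exact B1.one
      · rintro (_ | i) n <;> simp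
    rw [je_conj_mul, Complex.norm_real, Real.norm_of_nonneg hpos.le] at h3
    linarith
  have hdesc : ∀ r, 1 ≤ r → 0 < nrm S (r + 1) D → 0 < nrm S 2 D := by
    intro r hr
    induction r, hr using Nat.le_induction with
    | base => exact id
    | succ r hr ih =>
      intro h
      refine ih (dlow S erg U c hc h1 _ hF hD hlim hr (fun h k β χ hχ hβ => ?_) h)
      have e : ∀ j, ∑ n ∈ range j, (c j n : ℂ) * ∫ y, dc S h k (jeF S a T m α (g j) f n) y * χ y ∂μ =
          ∫ y, (dc S h k (g j) y * χ y) * jeA S a c (T.erase m) (Function.update 0 m β)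
            (fun i => dc S h k (f i)) j y ∂μ := by
        intro j
        rw [← je_eig S a hm 0 ((hg j).dc S h k) (fun i => (hf i).dc S h k) j hχ]
        refine sum_congr rfl fun n _ => ?_
        congr 1
        exact integral_congr_ae (Eventually.of_forall fun y => by
          simp only; rw [je_dc S a T m α _ f n hr, mul_comm])
      simp only [e]
      exact je_cs (fun j => ((hg j).dc S h k).mul hχ.1)
        (jeA_B1 S a hc h1 _ _ fun i => (hf i).dc S h k)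
        ((IH _ _ (fun i => (hf i).dc S h k)
          (Or.inl ⟨m, notMem_erase m T, by simpa using hβ⟩)).mono_left hU)
  have h2 := hdesc s hs (lt_of_lt_of_le (pow_pos hn 2) (nrm_sq_le S s hD))
  obtain ⟨β, χ, hχ, hle⟩ := inv2 S erg hD
  refine ⟨-β, fun y => conj (χ y), hχ.conj, fun ht => ?_⟩
  have h4 := hlim _ hχ.1.conj
  have e : ∀ j, ∫ y, conj (χ y) * ∑ n ∈ range j, (c j n : ℂ) * jeF S a T m α (g j) f n y ∂μ =
      ∫ y, (g j y * conj (χ y)) *
        jeA S a c (T.erase m) (Function.update α m (-β)) f j y ∂μ := fun j => by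
    rw [je_int_sum j hχ.1.conj (hF j), je_eig S a hm α (hg j) hf j hχ.conj]
  simp only [e] at h4
  have h5 := tendsto_nhds_unique h4 ht
  simp only [mul_comm (D _)] at hle
  rw [h5] at hle
  exact absurd (h2.trans_le hle) (by simp)

lemma je_all (erg : Ergodic (S.act 1) μ) (hc : ∀ j n, 0 ≤ c j n)
    (h1 : ∀ j, ∑ n ∈ range j, c j n ≤ 1)
    (hEQ : ∀ α : ι → ℝ, (∃ i, ∀ n : ℤ, α i ≠ n) →
      Tendsto (fun j => ∑ n ∈ range j, (c j n : ℂ) * ec (∑ i, α i * a i n)) atTop (𝓝 0))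
    (hSC : ∀ m : ι, ∃ s, 1 ≤ s ∧ Ctl S s c fun (o : Option {i // i ≠ m}) n =>
      o.elim (-(a m n : ℝ)) fun i => (a i n : ℝ) - a m n) (T : Finset ι) : jeP S a c T := by
  induction T using Finset.strongInduction with
  | H T IH =>
  intro α f hf hcase
  rcases T.eq_empty_or_nonempty with rfl | hT
  · rcases hcase with ⟨i, -, hi⟩ | ⟨i, hi, -⟩
    · have := ((hEQ α ⟨i, hi⟩).norm).pow 2
      simpa [jeA, jeTh] using this
    · simp at hi
  by_contra hnot
  have hA := jeA_B1 S a hc h1 T α hf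
  obtain ⟨c0, hc0, hfr⟩ : ∃ c0 : ℝ, 0 < c0 ∧
      ∃ᶠ j in atTop, c0 ≤ ∫ y, ‖jeA S a c T α f j y‖ ^ 2 ∂μ := by
    by_contra hcon
    push Not at hcon
    refine hnot (tendsto_order.2 ⟨fun b hb => Eventually.of_forall fun j => ?_, hcon⟩)
    exact hb.trans_le (integral_nonneg fun y => by positivity)
  obtain ⟨U, hU, hU'⟩ : ∃ U : Ultrafilter ℕ, (U : Filter ℕ) ≤ atTop ∧
      ∀ᶠ j in U, c0 ≤ ∫ y, ‖jeA S a c T α f j y‖ ^ 2 ∂μ := by
    have := frequently_iff_neBot.1 hfr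
    obtain ⟨U, hU⟩ := Ultrafilter.exists_le (atTop ⊓ 𝓟 {j | c0 ≤ ∫ y, ‖jeA S a c T α f j y‖ ^ 2 ∂μ})
    exact ⟨U, hU.trans inf_le_left, le_principal_iff.1 (hU.trans inf_le_right)⟩
  have key : ∀ m ∈ T, ∃ (β : ℝ) (χ : Y → ℂ), Eig S β χ ∧ ¬ Tendsto (fun j =>
      ∫ y, (conj (jeA S a c T α f j y) * χ y) *
        jeA S a c (T.erase m) (Function.update α m β) f j y ∂μ) U (𝓝 0) := fun m hm =>
    je_core S a erg hc h1 hm (hSC m) (IH _ (erase_ssubset hm)) α hf (fun j => (hA j).conj) U hU hc0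
      (hU'.mono fun j hj => by
        rw [je_conj_mul, Complex.norm_real]
        exact hj.trans (Real.le_norm_self _))
  have fin : ∀ m ∈ T, ∀ (β : ℝ) (χ : Y → ℂ), Eig S β χ →
      ((∃ i ∉ T.erase m, ∀ n : ℤ, Function.update α m β i ≠ n) ∨
        ∃ i ∈ T.erase m, ∫ y, f i y ∂μ = 0) → Tendsto (fun j =>
      ∫ y, (conj (jeA S a c T α f j y) * χ y) *
        jeA S a c (T.erase m) (Function.update α m β) f j y ∂μ) U (𝓝 0) :=
    fun m hm β χ hχ h => je_cs (fun j => (hA j).conj.mul hχ.1) (jeA_B1 S a hc h1 _ _ hf)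
      ((IH _ (erase_ssubset hm) _ f hf h).mono_left hU)
  rcases hcase with ⟨i, hi, hi'⟩ | ⟨i, hi, hi'⟩
  · obtain ⟨m, hm⟩ := hT
    obtain ⟨β, χ, hχ, h⟩ := key m hm
    refine h (fin m hm β χ hχ (Or.inl ⟨i, fun h => hi (mem_of_mem_erase h), ?_⟩))
    rwa [Function.update_of_ne (ne_of_mem_of_not_mem hm hi).symm]
  by_cases hm : ∃ m ∈ T, m ≠ i
  · obtain ⟨m, hm, hmi⟩ := hm
    obtain ⟨β, χ, hχ, h⟩ := key m hm
    exact h (fin m hm β χ hχ (Or.inr ⟨i, mem_erase.2 ⟨hmi.symm, hi⟩, hi'⟩))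
  push Not at hm
  obtain rfl : T = {i} := eq_singleton_iff_unique_mem.2 ⟨hi, hm⟩
  obtain ⟨β, χ, hχ, h⟩ := key i hi
  by_cases hβ : ∀ n : ℤ, β ≠ n
  · exact h (fin i hi β χ hχ (Or.inl ⟨i, notMem_erase _ _, by simpa using hβ⟩))
  push Not at hβ
  obtain ⟨n, rfl⟩ := hβ
  obtain ⟨z, hz⟩ := eig_const S erg hχ
  refine h (tendsto_const_nhds.congr fun j => ?_)
  have h0 : ∫ y, jeA S a c {i} α f j y ∂μ = 0 := by
    have := je_int_sum (μ := μ) (c := c) j B1.one
      fun n => je_B1term S {i} (jeTh a {i} α n) hf fun i => a i n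
    simp only [one_mul] at this
    unfold jeA
    rw [this]
    refine sum_eq_zero fun n _ => ?_
    simp only [prod_singleton]
    rw [integral_const_mul, integral_act S _ (hf i).1, hi', mul_zero, mul_zero]
  have h3 : ∫ y, (conj (jeA S a c {i} α f j y) * χ y) *
      jeA S a c (({i} : Finset ι).erase i) (Function.update α i n) f j y ∂μ =
      ∫ y, conj (jeA S a c {i} α f j y) * (z * ∑ k ∈ range j, (c j k : ℂ) *
        ec (jeTh a ∅ (Function.update α i n) k)) ∂μ := by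
    refine integral_congr_ae (hz.mono fun y hy => ?_)
    simp only at hy ⊢
    rw [hy, erase_singleton, mul_assoc]
    simp only [jeA, prod_empty, mul_one]
  rw [h3, integral_mul_const, integral_conj, h0, map_zero, zero_mul]

end

theorem je (S : Sys ℤ Y μ) (erg : Ergodic (S.act 1) μ) {ι : Type} [Fintype ι] (a : ι → ℕ → ℤ)
    (c : ℕ → ℕ → ℝ) (hc : ∀ j n, 0 ≤ c j n) (h1 : ∀ j, ∑ n ∈ range j, c j n ≤ 1)
    (hEQ : ∀ α : ι → ℝ, (∃ i, ∀ n : ℤ, α i ≠ n) →
      Tendsto (fun j => ∑ n ∈ range j, (c j n : ℂ) * ec (∑ i, α i * a i n)) atTop (𝓝 0))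
    (hSC : ∀ m : ι, ∃ s, 1 ≤ s ∧ Ctl S s c fun (o : Option {i // i ≠ m}) n =>
      o.elim (-(a m n : ℝ)) fun i => (a i n : ℝ) - a m n)
    {F : Y → ℂ} {f : ι → Y → ℂ} (hF : B1 F) (hf : ∀ i, B1 (f i)) :
    Tendsto (fun j => ∑ n ∈ range j, (c j n : ℂ) *
      ((corr S F f fun i => a i n) - (∫ y, F y ∂μ) * ∏ i, ∫ y, f i y ∂μ)) atTop (𝓝 0) := by
  have hP := je_all S a erg hc h1 hEQ hSC
  have main : ∀ T : Finset ι, Tendsto (fun j => ∑ n ∈ range j, (c j n : ℂ) *
      ((∫ y, F y * ∏ i ∈ T, f i (S.act (a i n) y) ∂μ) -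
        (∫ y, F y ∂μ) * ∏ i ∈ T, ∫ y, f i y ∂μ)) atTop (𝓝 0) := by
    intro T
    induction T using Finset.induction_on with
    | empty => simp
    | insert m T hm ih =>
      have hh : B1 fun y => (f m y - ∫ y, f m y ∂μ) / 2 :=
        ⟨((hf m).1.sub_const _).div_const _, fun y => by
          have := norm_sub_le (f m y) (∫ y, f m y ∂μ)
          have h2 := (hf m).2 y
          have h3 := (hf m).norm_integral (μ := μ)
          rw [norm_div, Complex.norm_ofNat]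
          linarith⟩
      have hf' : ∀ i, B1 (Function.update f m (fun y => (f m y - ∫ y, f m y ∂μ) / 2) i) := by
        intro i
        by_cases hi : i = m
        · subst hi; simpa using hh
        · simpa [Function.update_of_ne hi] using hf i
      have h0 : ∫ y, (f m y - ∫ y, f m y ∂μ) / 2 ∂μ = 0 := by
        rw [integral_div, integral_sub (hf m).integrable (integrable_const _)]
        simp
      have t1 := je_cs (fun _ => hF) (jeA_B1 S a hc h1 (insert m T) 0 hf')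
        (hP (insert m T) 0 _ hf' (Or.inr ⟨m, mem_insert_self _ _, by simpa using h0⟩))
      have t2 := (t1.const_mul 2).add (ih.const_mul (∫ y, f m y ∂μ))
      simp only [mul_zero, add_zero] at t2
      refine t2.congr fun j => ?_
      unfold jeA
      rw [je_int_sum j hF fun n => je_B1term S _ _ hf' fun i => a i n, mul_sum, mul_sum,
        ← sum_add_distrib]
      refine sum_congr rfl fun n _ => ?_
      have hT : B1 fun y => F y * ∏ i ∈ T, f i (S.act (a i n) y) :=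
        hF.mul (B1.prod T fun i _ => (hf i).act S _)
      have e : ∫ y, F y * (ec (jeTh a (insert m T) 0 n) * ∏ i ∈ insert m T,
          Function.update f m (fun y => (f m y - ∫ y, f m y ∂μ) / 2) i (S.act (a i n) y)) ∂μ =
          ((∫ y, F y * ∏ i ∈ insert m T, f i (S.act (a i n) y) ∂μ) -
            (∫ y, f m y ∂μ) * ∫ y, F y * ∏ i ∈ T, f i (S.act (a i n) y) ∂μ) / 2 := by
        rw [← integral_const_mul, ← integral_sub (hF.mul
          (B1.prod _ fun i _ => (hf i).act S _)).integrable (hT.integrable.const_mul _),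
          ← integral_div]
        refine integral_congr_ae (Eventually.of_forall fun y => ?_)
        have h0 : jeTh a (insert m T) 0 n = 0 := by simp [jeTh]
        simp only
        rw [h0, ec_zero, one_mul, prod_insert hm, prod_insert hm, Function.update_self,
          prod_congr rfl fun i hi => by
            rw [Function.update_of_ne (ne_of_mem_of_not_mem hi hm)]]
        ring
      rw [e, prod_insert hm]
      ring
  exact main univ

end Pool.Agent.MP_357fb4_an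

end
end
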