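import Pool.Agent.Mg.F14ad9d.Gf5c998
import Pool.Agent.MP_7a4cc0_an.Erg2
import Pool.Agent.Mg.F14ad9d.G3616c9
import Pool.Agent.Mg.F14ad9d.G85b896
import Pool.Agent.Mg.F14ad9d.Gc9f2d3
import Pool.Agent.Mg.F14ad9d.Gc47067
import Pool.Agent.Mg.F14ad9d.G3490ee
import Pool.Agent.Mg.F14ad9d.G167a1c
import Pool.Agent.Mg.F14ad9d.G46d2c1

section

/-!
Reduction to ergodic systems.
-/

open scoped BigOperators Classical ComplexConjugate Polynomial
open Finset Filter MeasureTheory Topology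

noncomputable section

namespace Pool.Agent.MP_357fb4_an

/-- Binary sequences that are not identically zero. -/
abbrev ErgY : Type := {y : ℤ → Bool // ∃ n, y n = true}

theorem Erg_open : IsOpen {y : ℤ → Bool | ∃ n, y n = true} := by
  have : {y : ℤ → Bool | ∃ n, y n = true} = ⋃ n, (fun y : ℤ → Bool => y n) ⁻¹' {true} := by
    ext y
    simp
  rw [this]
  exact isOpen_iUnion fun n => (isOpen_discrete _).preimage (continuous_apply n)

/-- The shift. -/
def ErgS (n : ℤ) (y : ErgY) : ErgY :=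
  ⟨fun m => y.1 (m + n), by
    obtain ⟨m, hm⟩ := y.2
    exact ⟨m - n, by simpa using hm⟩⟩

theorem ErgS_add (a b : ℤ) (y : ErgY) : ErgS (a + b) y = ErgS a (ErgS b y) :=
  Subtype.ext (funext fun m => by simp [ErgS, add_assoc])

theorem ErgS_zero (y : ErgY) : ErgS 0 y = y := Subtype.ext (funext fun m => by simp [ErgS])

theorem Erg_coord (m : ℤ) : Continuous fun y : ErgY => y.1 m :=
  (continuous_apply (A := fun _ : ℤ => Bool) m).comp continuous_subtype_val

theorem ErgS_cont (n : ℤ) : Continuous (ErgS n) :=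
  Continuous.subtype_mk (continuous_pi fun m => Erg_coord (m + n)) _

/-- The shift as a homeomorphism. -/
def ErgH (n : ℤ) : ErgY ≃ₜ ErgY where
  toFun := ErgS n
  invFun := ErgS (-n)
  left_inv y := by rw [← ErgS_add, neg_add_cancel, ErgS_zero]
  right_inv y := by rw [← ErgS_add, add_neg_cancel, ErgS_zero]
  continuous_toFun := ErgS_cont n
  continuous_invFun := ErgS_cont (-n)

theorem Erg_zpow {X : Type} [MeasurableSpace X] (μ : Measure X) (T : Equiv.Perm X)
    (hT : Measurable T) (hT' : Measurable T.symm) (hp : MeasurePreserving T μ μ) (n : ℤ) :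
    MeasurePreserving (⇑(T ^ n)) μ μ := by
  have hq : MeasurePreserving (⇑T⁻¹) μ μ :=
    MeasurePreserving.symm (⟨T, hT, hT'⟩ : X ≃ᵐ X) hp
  induction n using Int.induction_on with
  | zero => simpa using MeasurePreserving.id μ
  | succ n ih =>
    rw [zpow_add_one, Equiv.Perm.coe_mul]
    exact ih.comp hp
  | pred n ih =>
    rw [zpow_sub_one, Equiv.Perm.coe_mul]
    exact ih.comp hq

theorem Erg_inv {E : Set ErgY} (h : ErgS 1 ⁻¹' E = E) (n : ℤ) : ErgS n ⁻¹' E = E := by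
  have h1 : ∀ y, ErgS 1 y ∈ E ↔ y ∈ E := fun y => Set.ext_iff.1 h y
  induction n using Int.induction_on with
  | zero =>
    ext y
    rw [Set.mem_preimage, ErgS_zero]
  | succ n ih =>
    ext y
    rw [Set.mem_preimage, add_comm, ErgS_add, h1, ← Set.mem_preimage, ih]
  | pred n ih =>
    ext y
    rw [Set.mem_preimage, ← h1, ← ErgS_add, add_sub_cancel, ← Set.mem_preimage, ih]

theorem erg_red {X : Type} [MeasurableSpace X] (μ : Measure X) [IsProbabilityMeasure μ]
    (T : Equiv.Perm X) (hT : Measurable T) (hT' : Measurable T.symm)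
    (hp : MeasurePreserving T μ μ) (A : Set X) (hA : MeasurableSet A) (h0 : 0 < μ A) {ι : Type}
    [Fintype ι] (v : ℕ → ι → ℤ) (I : Set ℕ)
    (hv : ∀ n ∈ I, μ (A ∩ ⋂ i, (⇑(T ^ v n i)) ⁻¹' A) = 0) :
    ∃ (Y : Type) (_ : MeasurableSpace Y) (ν : Measure Y) (_ : IsProbabilityMeasure ν)
      (S : Sys ℤ Y ν) (B : Set Y), MeasurableSet B ∧ 0 < ν B ∧ Ergodic (S.act 1) ν ∧
        ∀ n ∈ I, ν (B ∩ ⋂ i, S.act (v n i) ⁻¹' B) = 0 := by
  haveI : LocallyCompactSpace ErgY := Erg_open.locallyCompactSpace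
  haveI : SecondCountableTopology ErgY :=
    TopologicalSpace.Subtype.secondCountableTopology {y : ℤ → Bool | ∃ n, y n = true}
  have hz := Erg_zpow μ T hT hT' hp
  let φ : X → ℤ → Bool := fun x m => decide ((T ^ m) x ∈ A)
  have hφ : Measurable φ := by
    refine measurable_pi_lambda _ fun m => measurable_to_bool ?_
    have : (fun x => φ x m) ⁻¹' {true} = (⇑(T ^ m)) ⁻¹' A := by
      ext x
      simp [φ]
    rw [this]
    exact (hz m).measurable hA
  have hemb : MeasurableEmbedding (Subtype.val : ErgY → ℤ → Bool) :=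
    MeasurableEmbedding.subtype_coe Erg_open.measurableSet
  let ν₀ : Measure ErgY := (μ.map φ).comap Subtype.val
  have hν₀ : ∀ E, MeasurableSet E → ν₀ E = μ (φ ⁻¹' (Subtype.val '' E)) := fun E hE => by
    rw [hemb.comap_apply, Measure.map_apply hφ (hemb.measurableSet_image.2 hE)]
  haveI : IsFiniteMeasure ν₀ := ⟨by
    rw [hν₀ _ MeasurableSet.univ]
    exact measure_lt_top _ _⟩
  let B : Set ErgY := {y | y.1 0 = true}
  have hB : IsOpen B :=
    (isOpen_discrete {true}).preimage (Erg_coord 0)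
  let P : ℕ → Set ErgY := fun n => B ∩ ⋂ i, ErgS (v n i) ⁻¹' B
  have hP : ∀ n, IsOpen (P n) := fun n =>
    hB.inter (isOpen_iInter_of_finite fun i => hB.preimage (ErgS_cont _))
  have hU : IsOpen (⋃ n ∈ I, P n) := isOpen_biUnion fun n _ => hP n
  have hne : ν₀ ≠ 0 := by
    intro h
    have h1 : ν₀ B = 0 := by rw [h]; rfl
    rw [hν₀ _ hB.measurableSet] at h1
    refine h0.ne' (measure_mono_null (fun x hx => ?_) h1)
    have h2 : φ x 0 = true := by simpa [φ] using hx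
    exact ⟨⟨φ x, 0, h2⟩, h2, rfl⟩
  have hnull : ν₀ (⋃ n ∈ I, P n)ᶜᶜ = 0 := by
    rw [compl_compl]
    refine (measure_biUnion_null_iff I.to_countable).2 fun n hn => ?_
    rw [hν₀ _ (hP n).measurableSet]
    refine measure_mono_null ?_ (hv n hn)
    rintro x ⟨y, ⟨hy1, hy2⟩, hy⟩
    have h1 : φ x 0 = true := hy ▸ hy1
    refine ⟨by simpa [φ] using h1, Set.mem_iInter.2 fun i => ?_⟩
    have h2 : y.1 (0 + v n i) = true := Set.mem_iInter.1 hy2 i
    rw [hy, zero_add] at h2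
    simpa [φ] using h2
  have hinv : ∀ t E, MeasurableSet E → ν₀ (ErgH t ⁻¹' E) = ν₀ E := by
    intro t E hE
    have hE' : MeasurableSet (ErgH t ⁻¹' E) := (ErgH t).continuous.measurable hE
    rw [hν₀ _ hE, hν₀ _ hE', ← (hz t).measure_preimage
      (hφ (hemb.measurableSet_image.2 hE)).nullMeasurableSet]
    congr 1
    have e : ∀ x m, φ ((T ^ t) x) m = φ x (m + t) := fun x m => by
      simp only [φ, zpow_add, Equiv.Perm.coe_mul, Function.comp]
    ext x
    constructor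
    · rintro ⟨y, hy, hyx⟩
      refine ⟨ErgS t y, hy, funext fun m => ?_⟩
      rw [e, ← hyx]
      rfl
    · rintro ⟨z, hz1, hz2⟩
      refine ⟨ErgS (-t) z, ?_, funext fun m => ?_⟩
      · have : ErgH t (ErgS (-t) z) = z := (ErgH t).right_inv z
        rw [Set.mem_preimage, this]
        exact hz1
      · change z.1 (m + -t) = φ x m
        rw [hz2, e, neg_add_cancel_right]
  obtain ⟨ν, -, n0, nF, ninv, nerg, nfin⟩ := MP_7a4cc0_an.erg_cap ErgH (⋃ n ∈ I, P n)ᶜ
    hU.isClosed_compl (fun _ : Unit => Set.univ) (fun _ => isOpen_univ) (fun _ => 1)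
    (fun _ => one_ne_zero) (fun y _ => Set.mem_iUnion.2 ⟨(), trivial⟩) ν₀ hne hnull hinv
    (by simp)
  haveI : IsFiniteMeasure ν := ⟨by simpa [lt_top_iff_ne_top] using nfin⟩
  haveI : NeZero ν := ⟨n0⟩
  have hmp : ∀ t, MeasurePreserving (ErgS t) ((ν Set.univ)⁻¹ • ν) ((ν Set.univ)⁻¹ • ν) := by
    intro t
    refine MeasurePreserving.smul_measure ⟨(ErgS_cont t).measurable, ?_⟩ _
    ext E hE
    rw [Measure.map_apply (ErgS_cont t).measurable hE]
    exact ninv t E hE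
  have hB0 : ν B ≠ 0 := by
    intro h
    apply n0
    rw [← Measure.measure_univ_eq_zero]
    refine measure_mono_null (t := ⋃ t, ErgH t ⁻¹' B) (fun y _ => ?_)
      (measure_iUnion_null fun t => (ninv t B hB.measurableSet).trans h)
    obtain ⟨m, hm⟩ := y.2
    exact Set.mem_iUnion.2 ⟨m, show y.1 (0 + m) = true by rwa [zero_add]⟩
  refine ⟨ErgY, inferInstance, (ν Set.univ)⁻¹ • ν, inferInstance,
    ⟨ErgS, hmp, ErgS_add, ErgS_zero⟩, B, hB.measurableSet, ?_, ⟨hmp 1, ⟨fun E hE h1 => ?_⟩⟩,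
    fun n hn => ?_⟩
  · rw [Measure.smul_apply, smul_eq_mul]
    exact ENNReal.mul_pos (ENNReal.inv_ne_zero.2 (measure_ne_top _ _)) hB0
  · rw [eventuallyConst_set']
    rcases nerg E hE (fun t => (Erg_inv h1 t).eventuallyEq) with h | h
    · left
      rw [ae_eq_empty, Measure.smul_apply, h, smul_zero]
    · right
      rw [ae_eq_univ, Measure.smul_apply, h, smul_zero]
  · have : ν (P n) = 0 := by
      rw [compl_compl] at nF
      exact measure_mono_null (Set.subset_biUnion_of_mem (u := P) hn) nF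
    change ((ν Set.univ)⁻¹ • ν) (P n) = 0
    rw [Measure.smul_apply, this, smul_zero]

end Pool.Agent.MP_357fb4_an

end
end

section

/-!
The case of a slow part above the logarithm.
-/

open scoped BigOperators Classical ComplexConjugate Polynomial
open Finset Filter MeasureTheory Topology

noncomputable section

namespace Pool.Agent.MP_357fb4_an

lemma caseLog_split {b r : ℝ → ℝ} {P : ℝ[X]} {q : ℕ} (hP : RatAbove P 0 q)
    (hr : ∀ t, r t = b t - P.eval t) : ∃ χ₀ : ℕ → ℂ, (∀ n, ‖χ₀ n‖ = 1) ∧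
      (∀ n m, χ₀ (n + q * m) = χ₀ n) ∧ ∀ n : ℕ, ec (b n) = χ₀ n * ec (r n) := by
  obtain ⟨P₁, P₂, hs, hd, -, hper⟩ := rat_split hP
  refine ⟨fun n => ec (P.eval (n : ℝ)), fun n => norm_ec _, fun n m => ?_, fun n => ?_⟩
  · have h1 := hper n m
    have h0 : P₁ = Polynomial.C (P₁.coeff 0) := Polynomial.eq_C_of_natDegree_le_zero hd
    simp only [hs, Polynomial.eval_add, ec_add]
    rw [h0]
    simp only [Polynomial.eval_C]
    push_cast at h1 ⊢
    rw [h1]
  · rw [← ec_add, hr]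
    congr 1
    ring

lemma caseLog_tail (Q : ℕ) (c : ℝ) {ε : ℝ} (hε : 0 < ε) : ∃ η : ℝ, 0 < η ∧ ∀ᶠ N : ℕ in atTop,
    c + 14 * η * Q ^ 2 * (1 + Real.log ((N ^ 2 : ℕ) : ℝ)) + 6 * Q ^ 2 ≤ ε * Real.log N := by
  have hq : (0 : ℝ) < (Q : ℝ) ^ 2 + 1 := by positivity
  refine ⟨ε / (56 * ((Q : ℝ) ^ 2 + 1)), by positivity, ?_⟩
  have hl : Tendsto (fun N : ℕ => ε / 2 * Real.log N) atTop atTop :=
    (Real.tendsto_log_atTop.comp tendsto_natCast_atTop_atTop).const_mul_atTop (by positivity)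
  filter_upwards [hl.eventually_ge_atTop (c + ε / 4 + 6 * Q ^ 2)] with N hN
  have hlog : 0 ≤ Real.log N := Real.log_natCast_nonneg N
  have h2 : Real.log ((N ^ 2 : ℕ) : ℝ) = 2 * Real.log N := by
    push_cast
    rw [Real.log_pow]
    norm_num
  have h3 : 14 * (ε / (56 * ((Q : ℝ) ^ 2 + 1))) * Q ^ 2 ≤ ε / 4 := by
    rw [show 14 * (ε / (56 * ((Q : ℝ) ^ 2 + 1))) * Q ^ 2 = ε / 4 * (Q ^ 2 / (Q ^ 2 + 1)) by
      field_simp; ring]
    exact mul_le_of_le_one_right (by positivity) ((div_le_one hq).2 (by linarith))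
  have h4 := mul_le_mul_of_nonneg_right h3 (show 0 ≤ 1 + 2 * Real.log N by linarith)
  rw [h2]
  nlinarith

lemma caseLog_pow {r R₁ : ℝ → ℝ} {T : ℝ} (hT : 1 ≤ T) (hs : Slow r)
    (hd : ∀ t, T ≤ t → HasDerivAt r (R₁ t / t) t) {γ : ℝ} (hγ : 0 < γ) :
    ∀ᶠ t : ℝ in atTop, |R₁ t| ≤ t ^ γ := by
  filter_upwards [hs γ hγ, eventually_ge_atTop T] with t ht hTt
  have h0 : t ≠ 0 := by linarith
  have := ht.2
  rwa [(hd t hTt).deriv, mul_div_cancel₀ _ h0] at this

theorem ti_Log {b : ℝ → ℝ} (h : CaseLog b) : TI fun n => ec (b n) := by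
  obtain ⟨P, q, r, R₁, S₁, T, hq, hP, hr, hsl, hT, hd, -, hsg, hR, -⟩ := h
  obtain ⟨χ₀, hn, hper, hb⟩ := caseLog_split hP hr
  intro q' χ hq' hχ hχp ε hε
  obtain ⟨η, hη, hev⟩ := caseLog_tail (q * q') 2 hε
  have hχm : ∀ n m, χ (n + q' * m) = χ n := by
    intro n m
    induction m with
    | zero => simp
    | succ m ih => rw [Nat.mul_succ, ← add_assoc, hχp, ih]
  have hpw := caseLog_pow hT hsl (fun t ht => (hd t ht).1) (show (0 : ℝ) < 1 / 2 by norm_num)
  have hsm : ∀ᶠ t : ℝ in atTop, t ^ (-(1 / 2) : ℝ) ≤ η :=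
    (tendsto_rpow_neg_atTop (show (0 : ℝ) < 1 / 2 by norm_num)).eventually (ge_mem_nhds hη)
  obtain ⟨T', hT'⟩ := eventually_atTop.1
    (hpw.and (hsm.and ((hR.eventually_ge_atTop 1).and (eventually_ge_atTop T))))
  filter_upwards [hev, tendsto_natCast_atTop_atTop.eventually_ge_atTop T',
    eventually_ge_atTop 1] with N hN hNT hN1
  have hQ : 1 ≤ q * q' := Nat.mul_pos hq hq'
  have key := logtest (Y₁ := N) (Y₂ := N ^ 2) (Q := q * q') hN1 (by nlinarith) hQ
    (fun n => χ n * χ₀ n) (fun n => by rw [norm_mul, hn, mul_one]; exact hχ n)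
    (fun n => by rw [hper, mul_comm q q', hχm]) (ψ := r) (Θ := R₁) (Θ' := fun t => S₁ t / t)
    (θ := 1) (η := η) one_pos
    (fun t ht => by
      obtain ⟨h1, h2, h3, h4⟩ := hT' t (hNT.trans ht.1)
      have h0 : 0 < t := by linarith
      refine ⟨(hd t h4).1, (hd t h4).2, h3, le_trans ?_ h2⟩
      rw [abs_div, abs_of_pos h0, div_le_iff₀ h0]
      refine h1.trans (le_of_eq ?_)
      rw [← Real.rpow_add_one h0.ne']
      norm_num)
    (by
      rcases hsg with hsg | hsg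
      · refine Or.inl fun t ht => ?_
        obtain ⟨-, -, -, h4⟩ := hT' t (hNT.trans ht.1)
        exact div_nonneg (hsg t h4).le (by linarith)
      · refine Or.inr fun t ht => ?_
        obtain ⟨-, -, -, h4⟩ := hT' t (hNT.trans ht.1)
        exact div_nonpos_of_nonpos_of_nonneg (hsg t h4).le (by linarith))
  have hN1' : (1 : ℝ) ≤ N := by exact_mod_cast hN1
  have h6 : 6 * ((q * q' : ℕ) : ℝ) ^ 2 / N ≤ 6 * ((q * q' : ℕ) : ℝ) ^ 2 :=
    div_le_self (by positivity) hN1'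
  have he : ∑ n ∈ Ioc N (N ^ 2), χ n * ec (b n) / n =
      ∑ n ∈ Ioc N (N ^ 2), χ n * χ₀ n * ec (r n) / n :=
    sum_congr rfl fun n _ => by rw [hb, mul_assoc]
  show ‖∑ n ∈ Ioc N (N ^ 2), χ n * ec (b n) / n‖ ≤ _
  rw [he]
  linarith

lemma caseLog_mvt {R₁ S₁ : ℝ → ℝ} {A B : ℝ} (hA : 0 < A) (hAB : A < B)
    (hd : ∀ t, A ≤ t → HasDerivAt R₁ (S₁ t / t) t) :
    ∃ c, A < c ∧ c < B ∧ R₁ B - R₁ A = (Real.log B - Real.log A) * S₁ c := by
  obtain ⟨c, hc, he⟩ := exists_ratio_hasDerivAt_eq_ratio_slope R₁ (fun t => S₁ t / t) hAB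
    (fun t ht => (hd t ht.1).continuousAt.continuousWithinAt) (fun t ht => hd t ht.1.le)
    Real.log (fun t => t⁻¹)
    (fun t ht => (Real.continuousAt_log (by linarith [ht.1])).continuousWithinAt)
    (fun t ht => Real.hasDerivAt_log (by linarith [ht.1]))
  refine ⟨c, hc.1, hc.2, ?_⟩
  have h0 : c ≠ 0 := by linarith [hc.1]
  field_simp at he
  linarith

lemma caseLog_dil {f g : ℝ → ℝ} {a t : ℝ} (ha : a ≠ 0)
    (h : HasDerivAt f (g (a * t) / (a * t)) (a * t)) :
    HasDerivAt (fun s => f (a * s)) (g (a * t) / t) t := by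
  have h1 : HasDerivAt (fun s : ℝ => a * s) a t := by simpa using (hasDerivAt_id t).const_mul a
  refine (h.comp t h1).congr_deriv ?_
  rw [div_mul_eq_mul_div, mul_comm (g (a * t)) a, mul_div_mul_left _ _ ha]

theorem far_Log {b : ℝ → ℝ} (h : CaseLog b) : PairFar fun n => ec (b n) := by
  obtain ⟨P, q, r, R₁, S₁, T, hq, hP, hr, hsl, hT, hd, hmo, -, -, hS⟩ := h
  obtain ⟨χ₀, hn, hper, hb⟩ := caseLog_split hP hr
  intro δ κ ε hδ hκ hε
  obtain ⟨η, hη, hev⟩ := caseLog_tail q 0 (half_pos hε)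
  have hpw := caseLog_pow hT hsl (fun t ht => (hd t ht).1) (show (0 : ℝ) < δ / 8 by positivity)
  obtain ⟨T', hT'⟩ := eventually_atTop.1
    (hpw.and ((hS.eventually_ge_atTop (64 / (κ * ε))).and (eventually_ge_atTop T)))
  have hδt : Tendsto (fun N : ℕ => (N : ℝ) ^ δ) atTop atTop :=
    (tendsto_rpow_atTop hδ).comp tendsto_natCast_atTop_atTop
  have hsm : ∀ᶠ N : ℕ in atTop, (N : ℝ) ^ (-(δ / 2)) ≤ η / 4 :=
    ((tendsto_rpow_neg_atTop (half_pos hδ)).comp tendsto_natCast_atTop_atTop).eventually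
      (ge_mem_nhds (by positivity))
  filter_upwards [hev, hsm, hδt.eventually_ge_atTop (T' + 1), hδt.eventually_ge_atTop 2,
    eventually_ge_atTop 2] with N hN hNη hNT hN2 hN1 a ha a' ha' haa
  set Y₁ := ⌊(N : ℝ) ^ δ⌋₊ with hY
  have hN1' : (2 : ℝ) ≤ N := by exact_mod_cast hN1
  have hN0 : (0 : ℝ) < N := by linarith
  have hlog : 0 < Real.log N := Real.log_pos (by linarith)
  have hYl : (N : ℝ) ^ δ - 1 < Y₁ := Nat.sub_one_lt_floor _
  have hY1 : (1 : ℝ) ≤ Y₁ := by linarith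
  have hY1' : 1 ≤ Y₁ := by exact_mod_cast hY1
  obtain ⟨ha1, ha2⟩ := mem_Ioc.1 ha
  obtain ⟨ha1', ha2'⟩ := mem_Ioc.1 ha'
  have hA1 : (1 : ℝ) ≤ a := by exact_mod_cast hY1'.trans ha1.le
  have hA2 : (a' : ℝ) ≤ (N : ℝ) ^ 2 := by exact_mod_cast ha2'
  have hκ1 : 1 < (N : ℝ) ^ κ := Real.one_lt_rpow (by linarith) hκ
  have hAA : (a : ℝ) < a' := by nlinarith
  have hlg : κ * Real.log N ≤ Real.log a' - Real.log a := by
    have := Real.log_le_log (by positivity) haa
    rw [Real.log_mul (by positivity) (by positivity), Real.log_rpow hN0] at this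
    linarith
  have hrange : ∀ t ∈ Set.Icc (Y₁ : ℝ) ((N ^ 2 : ℕ) : ℝ), 1 ≤ t ∧ T' ≤ a * t ∧ (a : ℝ) * t < a' * t ∧
      (a' : ℝ) * t ≤ (N : ℝ) ^ 4 := by
    intro t ht
    have h1 : 1 ≤ t := hY1.trans ht.1
    have h2 : t ≤ (N : ℝ) ^ 2 := by exact_mod_cast ht.2
    refine ⟨h1, by nlinarith [ht.1], by nlinarith, ?_⟩
    calc (a' : ℝ) * t ≤ (N : ℝ) ^ 2 * (N : ℝ) ^ 2 := by gcongr
      _ = (N : ℝ) ^ 4 := by ring
  have key := logtest (Y₁ := Y₁) (Y₂ := N ^ 2) (Q := q) hY1' (ha1.le.trans ha2) hq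
    (fun m => χ₀ (a' * m) * conj (χ₀ (a * m)))
    (fun m => by rw [norm_mul, Complex.norm_conj, hn, hn, mul_one])
    (fun m => by rw [mul_add, mul_add, mul_comm a' q, mul_comm a q, hper, hper])
    (ψ := fun t => r (a' * t) - r (a * t)) (Θ := fun t => R₁ (a' * t) - R₁ (a * t))
    (Θ' := fun t => (S₁ (a' * t) - S₁ (a * t)) / t) (θ := 4 / (ε * Real.log N)) (η := η)
    (by positivity)
    (fun t ht => by
      obtain ⟨h1, h2, h3, h4⟩ := hrange t ht
      have t0 : 0 < t := by linarith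
      have hTa := (hT' _ h2).2.2
      have hTa' := (hT' _ (h2.trans h3.le)).2.2
      refine ⟨?_, ?_, ?_, ?_⟩
      · rw [sub_div]
        exact (caseLog_dil (by linarith) (hd _ hTa').1).sub (caseLog_dil (by linarith) (hd _ hTa).1)
      · rw [sub_div]
        exact (caseLog_dil (by linarith) (hd _ hTa').2).sub (caseLog_dil (by linarith) (hd _ hTa).2)
      · obtain ⟨c, hc1, hc2, hc⟩ := caseLog_mvt (R₁ := R₁) (S₁ := S₁) (by positivity) h3
          fun s hs => (hd s (hTa.trans hs)).2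
        have hc3 := (hT' c (h2.trans hc1.le)).2.1
        have hc4 : 1 ≤ c := by nlinarith
        have hl1 : Real.log c ≤ 4 * Real.log N := by
          have := Real.log_le_log (by linarith) (hc2.le.trans h4)
          rwa [Real.log_pow, Nat.cast_ofNat] at this
        have hl0 : 0 ≤ Real.log c := Real.log_nonneg hc4
        have hl2 : Real.log c ^ 2 ≤ (4 * Real.log N) ^ 2 := by gcongr
        have hl3 : 64 / (κ * ε) ≤ (4 * Real.log N) ^ 2 * |S₁ c| :=
          hc3.trans (mul_le_mul_of_nonneg_right hl2 (abs_nonneg _))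
        have hl4 : Real.log (a' * t) - Real.log (a * t) = Real.log a' - Real.log a := by
          rw [Real.log_mul (by linarith) t0.ne', Real.log_mul (by linarith) t0.ne']
          ring
        show _ ≤ |R₁ (a' * t) - R₁ (a * t)|
        rw [hc, hl4, abs_mul, abs_of_nonneg (le_trans (by positivity) hlg)]
        refine le_trans ?_ (mul_le_mul_of_nonneg_right hlg (abs_nonneg _))
        rw [div_le_iff₀ (by positivity)] at hl3 ⊢
        nlinarith
      · have hb1 : ∀ s, T' ≤ s → 0 ≤ s → s ≤ (N : ℝ) ^ 4 → |R₁ s| ≤ (N : ℝ) ^ (δ / 2) := by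
          intro s hs hs0 hs4
          refine (hT' s hs).1.trans ((Real.rpow_le_rpow hs0 hs4 (by positivity)).trans
            (le_of_eq ?_))
          rw [← Real.rpow_natCast, ← Real.rpow_mul hN0.le]
          congr 1
          push_cast
          ring
        have hb2 := hb1 _ h2 (by positivity) (h3.le.trans h4)
        have hb3 := hb1 _ (h2.trans h3.le) (by positivity) h4
        have hb4 : (N : ℝ) ^ (δ / 2) = (N : ℝ) ^ (-(δ / 2)) * (N : ℝ) ^ δ := by
          rw [← Real.rpow_add hN0]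
          congr 1
          ring
        have hb5 : (N : ℝ) ^ δ ≤ 2 * t := by linarith [ht.1]
        have hb6 : (N : ℝ) ^ (δ / 2) ≤ η / 4 * (2 * t) := by
          rw [hb4]
          gcongr
        show |(R₁ (a' * t) - R₁ (a * t)) / t| ≤ η
        rw [abs_div, abs_of_pos t0, div_le_iff₀ t0]
        linarith [abs_sub (R₁ (a' * t)) (R₁ (a * t))])
    (by
      rcases hmo with hmo | hmo
      · refine Or.inl fun t ht => ?_
        obtain ⟨h1, h2, h3, -⟩ := hrange t ht
        exact div_nonneg (sub_nonneg.2 (hmo (hT' _ h2).2.2 (hT' _ (h2.trans h3.le)).2.2 h3.le))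
          (by linarith)
      · refine Or.inr fun t ht => ?_
        obtain ⟨h1, h2, h3, -⟩ := hrange t ht
        exact div_nonpos_of_nonpos_of_nonneg
          (sub_nonpos.2 (hmo (hT' _ h2).2.2 (hT' _ (h2.trans h3.le)).2.2 h3.le)) (by linarith))
  have h6 : 6 * (q : ℝ) ^ 2 / Y₁ ≤ 6 * (q : ℝ) ^ 2 := div_le_self (by positivity) hY1
  have h7 : 2 / (4 / (ε * Real.log N)) = ε / 2 * Real.log N := by
    field_simp
    ring
  have he : ∑ m ∈ Ioc Y₁ (N ^ 2), ec (b ((a' * m : ℕ) : ℝ)) * conj (ec (b ((a * m : ℕ) : ℝ))) / m =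
      ∑ m ∈ Ioc Y₁ (N ^ 2), χ₀ (a' * m) * conj (χ₀ (a * m)) *
        ec (r (a' * (m : ℝ)) - r (a * (m : ℝ))) / m :=
    sum_congr rfl fun m _ => by
      rw [hb, hb, ec_sub, map_mul]
      push_cast
      ring
  show ‖∑ m ∈ Ioc Y₁ (N ^ 2), ec (b ((a' * m : ℕ) : ℝ)) * conj (ec (b ((a * m : ℕ) : ℝ))) / m‖ ≤ _
  rw [he]
  linarith

end Pool.Agent.MP_357fb4_an

end
end

section

/-!
Assembly.
-/

open scoped BigOperators Classical ComplexConjugate Polynomial
open Finset Filter MeasureTheory Topology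

noncomputable section

namespace Pool.Agent.MP_357fb4_an

lemma int_poly {P : ℝ[X]} {q : ℕ} (h : RatAbove P 0 q) (h0 : P.coeff 0 = 0) :
    ∃ p : ℤ[X], ∀ t : ℝ, Polynomial.aeval t p = q * P.eval t := by
  have : Polynomial.C (q : ℝ) * P ∈ Polynomial.lifts (Int.castRingHom ℝ) := by
    rw [Polynomial.lifts_iff_coeff_lifts]
    intro n
    rcases Nat.eq_zero_or_pos n with rfl | hn
    · exact ⟨0, by simp [h0]⟩
    · obtain ⟨m, hm⟩ := h n hn
      exact ⟨m, by simp [hm]⟩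
  obtain ⟨p, hp⟩ := (Polynomial.mem_lifts _).1 this
  refine ⟨p, fun t => ?_⟩
  have := congrArg (Polynomial.eval t) hp
  rw [Polynomial.eval_map, Polynomial.eval_mul, Polynomial.eval_C] at this
  rw [← this, Polynomial.aeval_def]
  rfl

lemma comb_growth {ι : Type} [Fintype ι] {a : ι → ℝ → ℝ} {A : ℕ}
    (hA : ∀ i, ∀ᶠ t in atTop, |a i t| ≤ t ^ A) (c : ι → ℝ) :
    ∀ᶠ t in atTop, |∑ i, c i * a i t| ≤ t ^ (A + 1) := by
  filter_upwards [eventually_all.2 hA, eventually_ge_atTop (∑ i, |c i|), eventually_ge_atTop 0]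
    with t h1 h2 h3
  refine (abs_sum_le_sum_abs _ _).trans ?_
  calc ∑ i, |c i * a i t| ≤ ∑ i, |c i| * t ^ A := sum_le_sum fun i _ => by
        rw [abs_mul]; exact mul_le_mul_of_nonneg_left (h1 i) (abs_nonneg _)
    _ = (∑ i, |c i|) * t ^ A := by rw [sum_mul]
    _ ≤ t * t ^ A := mul_le_mul_of_nonneg_right h2 (by positivity)
    _ = _ := by ring

lemma glob_of {W b : ℝ → ℝ} {T A : ℕ} (hW : Wt W T) (hs : Sm b A) (h1 : TI fun n => ec (b n))
    (h2 : Pair fun n => ec (b n)) :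
    Tendsto (fun j => ∑ n ∈ range j, (lam W T j n : ℂ) * ec (b n)) atTop (𝓝 0) :=
  glob1 hW (fun _ => (norm_ec _).le) (primesum (locpoly hs) h1 (bilw (locpoly hs) (bil_of_pair h2)))

/-- Equidistribution along the primes. -/
lemma eqall (H : HF) {ι : Type} [Fintype ι] {a : ι → ℝ → ℝ} (ha : ∀ i, a i ∈ H.car) {A : ℕ}
    (hA : ∀ i, ∀ᶠ t in atTop, |a i t| ≤ t ^ A)
    (hfar : ∀ c : ι → ℝ, c ≠ 0 → ∀ p : ℤ[X],
      Tendsto (fun t : ℝ => |(∑ i, c i * a i t) - Polynomial.aeval t p|) atTop atTop)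
    {W : ℝ → ℝ} (hWH : W ∈ H.car) {T : ℕ} (hW : Wt W T)
    (hAdm : ∀ (c : ι → ℝ) (P : ℝ[X]), P.natDegree ≤ A + 3 →
      Tendsto (fun t => |∑ i, c i * a i t - P.eval t|) atTop atTop →
        Adm H W fun t => ∑ i, c i * a i t - P.eval t)
    (c : ι → ℝ) (hc : c ≠ 0) :
    Tendsto (fun j => ∑ n ∈ range j, (lam W T j n : ℂ) * ec (∑ i, c i * a i n)) atTop (𝓝 0) := by
  obtain ⟨b, hbd⟩ : ∃ b : ℝ → ℝ, b = fun t => ∑ i, c i * a i t := ⟨_, rfl⟩
  have hb : b ∈ H.car := hbd ▸ H.sum univ fun i _ => H.mul _ _ (H.const (c i)) (ha i)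
  have hg : ∀ᶠ t in atTop, |b t| ≤ t ^ (A + 1) := hbd ▸ comb_growth hA c
  have hs := H.sm hb hg
  have h1 : ∀ n : ℕ, ‖(fun n : ℕ => ec (b n)) n‖ ≤ 1 := fun n => (norm_ec _).le
  suffices h : Tendsto (fun j => ∑ n ∈ range j, (lam W T j n : ℂ) * ec (b n)) atTop (𝓝 0) by
    simpa only [hbd] using h
  rcases tri H hb hg with h | h | h | ⟨P, q, C, hq, hP, hP0, hd, hC⟩
  · exact glob_of hW hs (ti_F hs h) (pair_of_far h1 (far_F hs h))
  · exact glob_of hW hs (ti_Irr h) (pair_Irr h)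
  · exact glob_of hW hs (ti_Log h) (pair_of_far h1 (far_Log h))
  · obtain ⟨p, hp⟩ := int_poly hP hP0
    have hq0 : (0 : ℝ) < q := by exact_mod_cast hq
    have h2 := hfar (fun i => q * c i) (fun h => hc (funext fun i => by
      have := congrFun h i
      simpa [hq0.ne'] using this)) p
    have h3 : Tendsto (fun t => |∑ i, c i * a i t - P.eval t|) atTop atTop := by
      refine (h2.atTop_div_const hq0).congr fun t => ?_
      rw [hp, div_eq_iff hq0.ne', ← abs_of_pos hq0, ← abs_mul, abs_of_pos hq0]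
      congr 1
      simp only [mul_assoc, ← mul_sum]
      ring
    have h4 : Adm H W fun t => b t - P.eval t := by
      simpa only [hbd] using hAdm c P (by omega) h3
    exact eq2 hW (caseII_of H hWH hq hP h4 hC)

/-- Joint ergodicity along the primes. -/
theorem main_erg (H : HF) {ι : Type} [Fintype ι] {a : ι → ℝ → ℝ} (ha : ∀ i, a i ∈ H.car)
    (hgr : ∀ i, ∃ d : ℕ, ∀ᶠ t in atTop, |a i t| ≤ t ^ d)
    (hfar : ∀ c : ι → ℝ, c ≠ 0 → ∀ p : ℤ[X],
      Tendsto (fun t : ℝ => |(∑ i, c i * a i t) - Polynomial.aeval t p|) atTop atTop)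
    {Y : Type} [MeasurableSpace Y] {μ : Measure Y} [IsProbabilityMeasure μ] (S : Sys ℤ Y μ)
    (erg : Ergodic (S.act 1) μ) {F : Y → ℂ} {f : ι → Y → ℂ} (hF : B1 F) (hf : ∀ i, B1 (f i))
    (h0 : ∀ n : ℕ, n.Prime → (corr S F f fun i => ⌊a i n⌋) = 0) :
    (∫ y, F y ∂μ) * ∏ i, ∫ y, f i y ∂μ = 0 := by
  choose d hd using hgr
  set A := univ.sup d with hAd
  have hA : ∀ i, ∀ᶠ t in atTop, |a i t| ≤ t ^ A := fun i => by
    filter_upwards [hd i, eventually_ge_atTop 1] with t h1 h2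
    exact h1.trans (pow_le_pow_right₀ h2 (le_sup (f := d) (mem_univ i)))
  obtain ⟨W, hWH, T, hW, hAdm⟩ := exW H ha (A + 3)
  have hm := mass hW
  have hev : ∀ᶠ j in atTop, T ≤ j ∧ ∑ n ∈ range j, lam W T j n ≤ 1 :=
    (eventually_ge_atTop T).and (hm.eventually (eventually_le_nhds (by norm_num)))
  set c : ℕ → ℕ → ℝ := fun j n =>
    if T ≤ j ∧ ∑ n ∈ range j, lam W T j n ≤ 1 then lam W T j n else 0 with hcd
  have hce : ∀ᶠ j in atTop, c j = lam W T j := hev.mono fun j hj => funext fun n => if_pos hj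
  have hc0 : ∀ j n, 0 ≤ c j n := fun j n => by
    simp only [hcd]
    split_ifs with h
    · exact lam_nonneg hW h.1 n
    · exact le_rfl
  have hc1 : ∀ j, ∑ n ∈ range j, c j n ≤ 1 := fun j => by
    by_cases h : T ≤ j ∧ ∑ n ∈ range j, lam W T j n ≤ 1
    · simpa only [hcd, if_pos h] using h.2
    · simp only [hcd, if_neg h]; simp
  have hEQ := eqfloor (fun i n => a i n) c hc0 hc1 fun α hα =>
    (eqall H ha hA hfar hWH hW hAdm α hα).congr' (hce.mono fun j hj => by simp only [hj])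
  have key := je S erg (fun i n => ⌊a i n⌋) c hc0 hc1 hEQ (fun m => by
    let e : Option {i // i ≠ m} → ι → ℝ := fun o =>
      o.elim (-Pi.single m 1) fun i => Pi.single i.1 1 - Pi.single m 1
    have he : ∀ o t, ∑ i, e o i * a i t = o.elim (-a m t) fun i => a i t - a m t := by
      intro o t
      cases o with
      | none => simp [e, Pi.single_apply]
      | some i => simp [e, Pi.single_apply, sub_mul]
    have he0 : ∀ o, e o ≠ 0 := by
      intro o h
      have := congrFun h m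
      cases o with
      | none => simp [e] at this
      | some i => simp [e, Pi.single_eq_of_ne i.2.symm] at this
    obtain ⟨s, hs, h⟩ := sc0 H hWH hW S (fun o t => ∑ i, e o i * a i t)
      (fun o => by simpa using hAdm (e o) 0 (by simp) (by simpa using hfar (e o) (he0 o) 0))
      (A + 1) fun o => comb_growth hA (e o)
    refine ⟨s, hs, ?_⟩
    have h' : Ctl S s c fun o (n : ℕ) => ∑ i, e o i * a i n := fun B ε hε => by
      obtain ⟨δ, hδ, h⟩ := h B ε hε
      refine ⟨δ, hδ, fun K hK => ?_⟩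
      filter_upwards [h K hK, hce] with j h1 h2
      rw [h2]; exact h1
    refine h'.congr (B₀ := 1) fun o n => ?_
    rw [he]
    have u1 := fun i => Int.floor_le (a i n)
    have u2 := fun i => Int.lt_floor_add_one (a i n)
    cases o with
    | none => simp only [Option.elim]; rw [abs_le]; constructor <;> linarith [u1 m, u2 m]
    | some i =>
      simp only [Option.elim]; rw [abs_le]
      constructor <;> linarith [u1 m, u2 m, u1 i, u2 i]) hF hf
  set P := (∫ y, F y ∂μ) * ∏ i, ∫ y, f i y ∂μ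
  have h2 : Tendsto (fun j => ∑ n ∈ range j, (c j n : ℂ) *
      ((corr S F f fun i => ⌊a i n⌋) - P)) atTop (𝓝 (((1 / 2 : ℝ) : ℂ) * -P)) := by
    refine ((Complex.continuous_ofReal.tendsto _).comp hm).mul_const (-P) |>.congr' ?_
    filter_upwards [hce] with j hj
    simp only [hj, Function.comp, Complex.ofReal_sum, sum_mul]
    refine sum_congr rfl fun n _ => ?_
    by_cases hn : n.Prime
    · rw [h0 n hn, zero_sub]
    · simp [lam, th, hn]
  simpa using tendsto_nhds_unique h2 key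

end Pool.Agent.MP_357fb4_an

end
end
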