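import Pool.Agent.MP_14ad9d_nt.Full.ADefs

section

set_option autoImplicit false

open MeasureTheory

namespace Pool.Agent.MP_14ad9d_nt.Full.SieveAux

open UnitAddTorus

instance probT (m : ℕ) : IsProbabilityMeasure (muT m) := by
  unfold muT; infer_instance

instance invT (m : ℕ) : (muT m).IsAddRightInvariant := by
  unfold muT; infer_instance

theorem mF_add_right {m : ℕ} (n : Fin m → ℤ) (x y : UnitAddTorus (Fin m)) :
    mFourier n (x + y) = mFourier n x * mFourier n y := by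
  simp only [mFourier, ContinuousMap.coe_mk, Pi.add_apply, ← Finset.prod_mul_distrib]
  refine Finset.prod_congr rfl fun i _ => ?_
  simp only [fourier_apply, smul_add, AddCircle.toCircle_add, Circle.coe_mul]

theorem integral_mF {m : ℕ} (n : Fin m → ℤ) :
    ∫ θ, mFourier n θ ∂(muT m) = if n = 0 then 1 else 0 := by
  split_ifs with h
  · subst h
    simp [mFourier_zero]
  · unfold muT
    simp only [mFourier, ContinuousMap.coe_mk]
    rw [integral_fintype_prod_eq_prod (f := fun i (x : UnitAddCircle) => (fourier (n i) x : ℂ))]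
    obtain ⟨i, hi⟩ := Function.ne_iff.mp h
    apply Finset.prod_eq_zero (Finset.mem_univ i)
    exact integral_eq_zero_of_add_right_eq_neg (μ := AddCircle.haarAddCircle)
      (fourier_add_half_inv_index hi one_pos)

theorem hat_eq {m : ℕ} (f : (Fin m → ℤ) →₀ ℝ) (θ : UnitAddTorus (Fin m)) :
    hat f θ = ∑ n ∈ f.support, (f n : ℂ) * mFourier n θ := rfl

theorem continuous_hat {m : ℕ} (f : (Fin m → ℤ) →₀ ℝ) : Continuous (hat f) := by
  have : hat f = fun θ => ∑ n ∈ f.support, (f n : ℂ) * mFourier n θ := rfl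
  rw [this]
  exact continuous_finsetSum _ fun n _ => continuous_const.mul (mFourier n).continuous

theorem integrable_cont {m : ℕ} {E : Type} [NormedAddCommGroup E] {g : UnitAddTorus (Fin m) → E}
    (hg : Continuous g) : Integrable g (muT m) :=
  hg.integrable_of_hasCompactSupport (HasCompactSupport.of_compactSpace g)

theorem integrable_sq {m : ℕ} (f : (Fin m → ℤ) →₀ ℝ) :
    Integrable (fun θ => ‖hat f θ‖ ^ 2) (muT m) :=
  integrable_cont ((continuous_hat f).norm.pow 2)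

theorem sq_hat {m : ℕ} (f : (Fin m → ℤ) →₀ ℝ) (θ : UnitAddTorus (Fin m)) :
    ((‖hat f θ‖ ^ 2 : ℝ) : ℂ) =
      ∑ n ∈ f.support, ∑ k ∈ f.support, (f n : ℂ) * (f k : ℂ) * mFourier (n - k) θ := by
  rw [Complex.ofReal_pow, ← Complex.mul_conj', hat_eq, map_sum, Finset.sum_mul_sum]
  refine Finset.sum_congr rfl fun n _ => Finset.sum_congr rfl fun k _ => ?_
  rw [map_mul, Complex.conj_ofReal, ← mFourier_neg, sub_eq_add_neg, mFourier_add]
  ring

theorem mass_univ' {m : ℕ} (f : (Fin m → ℤ) →₀ ℝ) :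
    mass f Set.univ = f.sum fun _ a => a ^ 2 := by
  classical
  unfold mass
  rw [Measure.restrict_univ]
  apply Complex.ofReal_injective
  rw [← integral_complex_ofReal]
  simp_rw [sq_hat]
  rw [integral_finsetSum _ fun n _ => integrable_cont (by fun_prop)]
  rw [Finsupp.sum, Complex.ofReal_sum]
  refine Finset.sum_congr rfl fun n hn => ?_
  rw [integral_finsetSum _ fun k _ => integrable_cont (by fun_prop)]
  simp_rw [integral_const_mul, integral_mF, sub_eq_zero]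
  rw [Finset.sum_eq_single n]
  · simp [sq]
  · intro k _ hk
    rw [if_neg (Ne.symm hk), mul_zero]
  · intro h
    exact absurd hn h

theorem mass_mono' {m : ℕ} (f : (Fin m → ℤ) →₀ ℝ) {S T : Set (UnitAddTorus (Fin m))} (h : S ⊆ T) :
    mass f S ≤ mass f T :=
  setIntegral_mono_set (integrable_sq f).integrableOn
    (Filter.Eventually.of_forall fun _ => by positivity) h.eventuallyLE

theorem measurableSet_arcs' (m : ℕ) (N R : ℝ) : MeasurableSet (arcs m N R) := by
  have : arcs m N R = ⋃ q : ℕ, {θ : UnitAddTorus (Fin m) | 1 ≤ q ∧ (q : ℝ) ≤ R ∧ ‖q • θ‖ ≤ R / N} := by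
    ext θ
    simp [arcs]
  rw [this]
  refine MeasurableSet.iUnion fun q => ?_
  by_cases hq : 1 ≤ q ∧ (q : ℝ) ≤ R
  · have : {θ : UnitAddTorus (Fin m) | 1 ≤ q ∧ (q : ℝ) ≤ R ∧ ‖q • θ‖ ≤ R / N} =
        {θ : UnitAddTorus (Fin m) | ‖q • θ‖ ≤ R / N} := by
      ext θ
      simp [hq.1, hq.2]
    rw [this]
    exact (isClosed_le (continuous_nsmul q).norm continuous_const).measurableSet
  · have : {θ : UnitAddTorus (Fin m) | 1 ≤ q ∧ (q : ℝ) ≤ R ∧ ‖q • θ‖ ≤ R / N} = ∅ := by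
      ext θ
      simp only [Set.mem_ofPred_eq, Set.mem_empty_iff_false, iff_false]
      exact fun h => hq ⟨h.1, h.2.1⟩
    rw [this]
    exact MeasurableSet.empty

theorem exists_rep (x : UnitAddCircle) : ∃ t : ℝ, (t : UnitAddCircle) = x ∧ |t| = ‖x‖ := by
  induction x using QuotientAddGroup.induction_on with
  | H y =>
    refine ⟨y - round y, ?_, (UnitAddCircle.norm_eq).symm⟩
    rw [AddCircle.coe_sub, sub_eq_self, AddCircle.coe_eq_zero_iff]
    exact ⟨round y, by simp⟩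

theorem mF_near_one {m : ℕ} (n : Fin m → ℤ) (θ : UnitAddTorus (Fin m)) :
    ‖mFourier n θ - 1‖ ≤ 2 * Real.pi * (m * (‖n‖ * ‖θ‖)) := by
  choose t ht ht' using fun i => exists_rep (θ i)
  have h1 : mFourier n θ = Complex.exp (Complex.I * ((2 * Real.pi * ∑ i, n i * t i : ℝ) : ℂ)) := by
    simp only [mFourier, ContinuousMap.coe_mk]
    simp_rw [← ht, fourier_coe_apply, ← Complex.exp_sum]
    congr 1
    push_cast
    rw [Finset.mul_sum, Finset.mul_sum]
    refine Finset.sum_congr rfl fun i _ => ?_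
    ring
  rw [h1]
  refine Real.norm_exp_I_mul_ofReal_sub_one_le.trans ?_
  rw [Real.norm_eq_abs, abs_mul, abs_of_pos (by positivity : 0 < 2 * Real.pi)]
  refine mul_le_mul_of_nonneg_left ?_ (by positivity)
  refine (Finset.abs_sum_le_sum_abs _ _).trans ?_
  have : ∀ i ∈ (Finset.univ : Finset (Fin m)), |(n i : ℝ) * t i| ≤ ‖n‖ * ‖θ‖ := by
    intro i _
    rw [abs_mul, ht']
    refine mul_le_mul ?_ (norm_le_pi_norm θ i) (norm_nonneg _) (norm_nonneg _)
    have := norm_le_pi_norm n i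
    rwa [Int.norm_eq_abs] at this
  refine (Finset.sum_le_card_nsmul _ _ _ this).trans ?_
  simp

theorem measure_ball (m : ℕ) {r : ℝ} (h0 : 0 ≤ r) (h1 : r ≤ 1 / 2) :
    (muT m).real (Metric.closedBall (0 : UnitAddTorus (Fin m)) r) = (2 * r) ^ m := by
  have h : ∀ x : UnitAddCircle, (AddCircle.haarAddCircle : Measure UnitAddCircle)
      (Metric.closedBall x r) = ENNReal.ofReal (2 * r) := by
    intro x
    have h2 := AddCircle.volume_closedBall (T := 1) (x := x) r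
    rw [AddCircle.volume_eq_smul_haarAddCircle, min_eq_right (by linarith)] at h2
    simpa using h2
  unfold muT
  rw [Measure.real, closedBall_pi _ h0, Measure.pi_pi]
  simp only [h, Finset.prod_const, Finset.card_univ, Fintype.card_fin, ENNReal.toReal_pow]
  rw [ENNReal.toReal_ofReal (by linarith)]

theorem mass_lower' (m : ℕ) (C₀ : ℝ) (hC : 0 < C₀) : ∃ c : ℝ, 0 < c ∧ ∀ N R : ℝ, 1 ≤ N → 1 ≤ R →
    ∀ f : (Fin m → ℤ) →₀ ℝ, (∀ n, 0 ≤ f n) → (∀ n ∈ f.support, ‖n‖ ≤ C₀ * N) →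
      c * (f.sum fun _ a => a) ^ 2 ≤ N ^ m * mass f (arcs m N R) := by
  set c' : ℝ := 1 / (16 * (m * C₀ + 1)) with hc'
  have hm : (0 : ℝ) ≤ m * C₀ := by positivity
  have hc0 : 0 < c' := by positivity
  have hc1 : c' * (m * C₀ + 1) = 1 / 16 := by
    rw [hc']; field_simp
  have hc2 : c' ≤ 1 / 16 := by nlinarith
  refine ⟨(2 * c') ^ m / 4, by positivity, fun N R hN hR f hf hs => ?_⟩
  have hN0 : 0 < N := by linarith
  have hr0 : 0 ≤ c' / N := by positivity
  have hr1 : c' / N ≤ 1 / 2 := by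
    rw [div_le_iff₀ hN0]; linarith
  set B := Metric.closedBall (0 : UnitAddTorus (Fin m)) (c' / N) with hB
  have hsub : B ⊆ arcs m N R := by
    intro θ hθ
    refine ⟨1, le_rfl, by simpa using hR, ?_⟩
    rw [one_smul]
    rw [hB, mem_closedBall_zero_iff] at hθ
    refine hθ.trans ?_
    gcongr
    linarith
  set S : ℝ := f.sum fun _ a => a with hS
  have hS0 : 0 ≤ S := Finset.sum_nonneg fun n _ => hf n
  have hlow : ∀ θ ∈ B, (S / 2) ^ 2 ≤ ‖hat f θ‖ ^ 2 := by
    intro θ hθ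
    rw [hB, mem_closedBall_zero_iff] at hθ
    have h1 : S / 2 ≤ (hat f θ).re := by
      rw [hat_eq, Complex.re_sum, hS, Finsupp.sum, Finset.sum_div]
      refine Finset.sum_le_sum fun n hn => ?_
      rw [Complex.re_ofReal_mul]
      have h2 := mF_near_one n θ
      have h3 : ‖n‖ * ‖θ‖ ≤ C₀ * c' := by
        calc ‖n‖ * ‖θ‖ ≤ (C₀ * N) * (c' / N) :=
              mul_le_mul (hs n hn) hθ (norm_nonneg _) (by positivity)
          _ = C₀ * c' := by field_simp
      have h4 : (m : ℝ) * (‖n‖ * ‖θ‖) ≤ 1 / 16 := by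
        calc (m : ℝ) * (‖n‖ * ‖θ‖) ≤ m * (C₀ * c') := by gcongr
          _ ≤ 1 / 16 := by nlinarith
      have h5 : 2 * Real.pi * (m * (‖n‖ * ‖θ‖)) ≤ 1 / 2 := by
        have := Real.pi_le_four
        have h6 : (0 : ℝ) ≤ m * (‖n‖ * ‖θ‖) := by positivity
        nlinarith
      have h7 := Complex.abs_re_le_norm (mFourier n θ - 1)
      rw [Complex.sub_re, Complex.one_re] at h7
      have h8 := neg_abs_le ((mFourier n θ).re - 1)
      have h9 : 1 / 2 ≤ (mFourier n θ).re := by linarith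
      have := hf n
      nlinarith
    have h2 := Complex.re_le_norm (hat f θ)
    gcongr
    linarith
  have h1 : (S / 2) ^ 2 * (2 * (c' / N)) ^ m ≤ mass f B := by
    rw [← measure_ball m hr0 hr1]
    exact setIntegral_ge_of_const_le_real Metric.isClosed_closedBall.measurableSet
      (measure_ne_top _ _) hlow (integrable_sq f).integrableOn
  have h2 := mass_mono' f hsub
  calc (2 * c') ^ m / 4 * S ^ 2 = N ^ m * ((S / 2) ^ 2 * (2 * (c' / N)) ^ m) := by
        rw [← mul_div_assoc 2 c' N, div_pow (2 * c')]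
        field_simp
        norm_num
    _ ≤ N ^ m * mass f (arcs m N R) := by
        gcongr
        exact h1.trans h2

end Pool.Agent.MP_14ad9d_nt.Full.SieveAux

end

section

set_option autoImplicit false

open MeasureTheory

namespace Pool.Agent.MP_14ad9d_nt.Full.SieveAux

open UnitAddTorus

/-- the torsion point with coordinates `a i / p` -/
noncomputable def pt {m : ℕ} (p : ℕ) [NeZero p] (a : Fin m → ZMod p) : UnitAddTorus (Fin m) :=
  fun i => ZMod.toAddCircle (a i)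

/-- the finite character pairing -/
noncomputable def chi {m : ℕ} (p : ℕ) [NeZero p] (c a : Fin m → ZMod p) : ℂ :=
  ∏ i, ZMod.stdAddChar (a i * c i)

theorem pt_injective {m : ℕ} (p : ℕ) [NeZero p] : Function.Injective (pt (m := m) p) := by
  intro a b h
  funext i
  exact ZMod.toAddCircle_injective p (congrFun h i)

theorem pt_zero {m : ℕ} (p : ℕ) [NeZero p] : pt (m := m) p 0 = 0 := by
  funext i
  simp [pt]

theorem smul_pt {m : ℕ} (p : ℕ) [NeZero p] (a : Fin m → ZMod p) : p • pt p a = 0 := by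
  funext i
  simp only [pt, Pi.smul_apply, Pi.zero_apply]
  rw [← map_nsmul, nsmul_eq_mul, ZMod.natCast_self, zero_mul, map_zero]

theorem mF_pt {m : ℕ} (p : ℕ) [NeZero p] (n : Fin m → ℤ) (a : Fin m → ZMod p) :
    mFourier n (pt p a) = chi p (fun i => (n i : ZMod p)) a := by
  simp only [mFourier, ContinuousMap.coe_mk, chi, pt]
  refine Finset.prod_congr rfl fun i _ => ?_
  rw [fourier_apply, ← map_zsmul, zsmul_eq_mul, mul_comm]
  rfl

theorem chi_orth {m : ℕ} (p : ℕ) [NeZero p] (c d : Fin m → ZMod p) :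
    ∑ a, chi p c a * (starRingEnd ℂ) (chi p d a) = if c = d then (p : ℂ) ^ m else 0 := by
  classical
  have h1 : ∀ a : Fin m → ZMod p, chi p c a * (starRingEnd ℂ) (chi p d a) =
      ∏ i, ZMod.stdAddChar (a i * (c i - d i)) := by
    intro a
    rw [chi, chi, map_prod, ← Finset.prod_mul_distrib]
    refine Finset.prod_congr rfl fun i _ => ?_
    rw [mul_sub, sub_eq_add_neg, AddChar.map_add_eq_mul, AddChar.map_neg_eq_inv]
    congr 1
    rw [ZMod.stdAddChar_apply, ← Circle.coe_inv_eq_conj, Circle.coe_inv]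
  simp_rw [h1]
  rw [← Fintype.piFinset_univ,
    ← Finset.prod_univ_sum (fun _ => Finset.univ) (fun i x => ZMod.stdAddChar (x * (c i - d i)))]
  simp_rw [AddChar.sum_mulShift _ (ZMod.isPrimitive_stdAddChar p), ZMod.card]
  split_ifs with h
  · subst h
    simp
  · obtain ⟨i, hi⟩ := Function.ne_iff.mp h
    apply Finset.prod_eq_zero (Finset.mem_univ i)
    rw [if_neg (sub_ne_zero.mpr hi), Nat.cast_zero]

theorem planch {m : ℕ} (p : ℕ) [NeZero p] (G : (Fin m → ZMod p) → ℂ) :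
    ∑ a, ‖∑ c, G c * chi p c a‖ ^ 2 = (p : ℝ) ^ m * ∑ c, ‖G c‖ ^ 2 := by
  classical
  apply Complex.ofReal_injective
  push_cast
  simp_rw [← Complex.mul_conj', map_sum, Finset.sum_mul_sum]
  rw [Finset.sum_comm, Finset.mul_sum]
  refine Finset.sum_congr rfl fun c _ => ?_
  rw [Finset.sum_comm]
  have : ∀ d, ∑ a, G c * chi p c a * (starRingEnd ℂ) (G d * chi p d a) =
      G c * (starRingEnd ℂ) (G d) * if c = d then (p : ℂ) ^ m else 0 := by
    intro d
    rw [← chi_orth, Finset.mul_sum]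
    refine Finset.sum_congr rfl fun a _ => ?_
    rw [map_mul]
    ring
  simp_rw [this]
  rw [Finset.sum_eq_single c]
  · rw [if_pos rfl]; ring
  · intro d _ hd
    rw [if_neg (Ne.symm hd), mul_zero]
  · intro h
    exact absurd (Finset.mem_univ c) h

/-- the one-prime inequality -/
theorem one_prime {m : ℕ} (p : ℕ) [NeZero p] (Ω : Set (Fin m → ZMod p)) (hΩ : Ω.ncard < p ^ m)
    (f : (Fin m → ℤ) →₀ ℝ) (hf : ∀ n ∈ f.support, (fun i => (n i : ZMod p)) ∉ Ω)
    (θ : UnitAddTorus (Fin m)) :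
    ((Ω.ncard : ℝ) / ((p : ℝ) ^ m - Ω.ncard)) * ‖hat f θ‖ ^ 2 ≤
      ∑ a ∈ (Finset.univ : Finset (Fin m → ZMod p)).erase 0, ‖hat f (θ + pt p a)‖ ^ 2 := by
  classical
  set G : (Fin m → ZMod p) → ℂ := fun c =>
    ∑ n ∈ f.support with (fun i => (n i : ZMod p)) = c, (f n : ℂ) * mFourier n θ with hG
  have h1 : ∀ a, hat f (θ + pt p a) = ∑ c, G c * chi p c a := by
    intro a
    rw [hat_eq, ← Finset.sum_fiberwise (s := f.support) (g := fun n i => (n i : ZMod p))]
    refine Finset.sum_congr rfl fun c _ => ?_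
    rw [hG, Finset.sum_mul]
    refine Finset.sum_congr rfl fun n hn => ?_
    rw [mF_add_right, mF_pt, (Finset.mem_filter.mp hn).2, mul_assoc]
  have h2 : ∑ a, ‖hat f (θ + pt p a)‖ ^ 2 = (p : ℝ) ^ m * ∑ c, ‖G c‖ ^ 2 := by
    simp_rw [h1]
    exact planch p G
  set A : Finset (Fin m → ZMod p) := Finset.univ.filter fun c => c ∉ Ω with hA
  have hAc : (A.card : ℝ) = (p : ℝ) ^ m - Ω.ncard := by
    have h3 := Finset.card_filter_add_card_filter_not (s := (Finset.univ : Finset (Fin m → ZMod p)))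
      (fun c => c ∈ Ω)
    rw [Finset.card_univ, Fintype.card_fun, ZMod.card, Fintype.card_fin] at h3
    have h4 : (Finset.univ.filter fun c => c ∈ Ω).card = Ω.ncard := by
      rw [← Set.ncard_coe_finset]
      congr 1
      ext c
      simp
    rw [h4] at h3
    have h5 : ((Ω.ncard + A.card : ℕ) : ℝ) = ((p ^ m : ℕ) : ℝ) := by rw [← h3]
    push_cast at h5
    linarith
  have h3 : hat f θ = ∑ c ∈ A, G c := by
    rw [hat_eq, ← Finset.sum_fiberwise_of_maps_to (s := f.support) (t := A)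
      (g := fun n i => (n i : ZMod p))]
    intro n hn
    exact Finset.mem_filter.mpr ⟨Finset.mem_univ _, hf n hn⟩
  have h4 : ‖hat f θ‖ ^ 2 ≤ ((p : ℝ) ^ m - Ω.ncard) * ∑ c, ‖G c‖ ^ 2 := by
    rw [h3, ← hAc]
    calc ‖∑ c ∈ A, G c‖ ^ 2 ≤ (∑ c ∈ A, ‖G c‖) ^ 2 := by
          gcongr
          exact norm_sum_le _ _
      _ ≤ A.card * ∑ c ∈ A, ‖G c‖ ^ 2 := sq_sum_le_card_mul_sum_sq
      _ ≤ A.card * ∑ c, ‖G c‖ ^ 2 := by
          gcongr
          exact Finset.subset_univ _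
  have h5 := Finset.add_sum_erase (Finset.univ : Finset (Fin m → ZMod p))
    (fun a => ‖hat f (θ + pt p a)‖ ^ 2) (Finset.mem_univ 0)
  simp only [pt_zero, add_zero] at h5
  have h6 : (0 : ℝ) < (p : ℝ) ^ m - Ω.ncard := by
    have : ((Ω.ncard : ℕ) : ℝ) < ((p ^ m : ℕ) : ℝ) := by exact_mod_cast hΩ
    push_cast at this
    linarith
  have h7 : (0 : ℝ) ≤ (p : ℝ) ^ m := by positivity
  rw [div_mul_eq_mul_div, div_le_iff₀ h6]
  have h8 := mul_le_mul_of_nonneg_left h4 h7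
  have h9 : ∑ a ∈ (Finset.univ : Finset (Fin m → ZMod p)).erase 0, ‖hat f (θ + pt p a)‖ ^ 2 =
      (p : ℝ) ^ m * (∑ c, ‖G c‖ ^ 2) - ‖hat f θ‖ ^ 2 := by linarith
  rw [h9]
  nlinarith

theorem eq_zero_of_coprime {G : Type} [AddCommGroup G] {x : G} {a b : ℕ} (hab : a.Coprime b)
    (ha : a • x = 0) (hb : b • x = 0) : x = 0 := by
  have h1 := addOrderOf_dvd_of_nsmul_eq_zero ha
  have h2 := addOrderOf_dvd_of_nsmul_eq_zero hb
  have h3 := Nat.dvd_gcd h1 h2
  rw [hab, Nat.dvd_one] at h3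
  exact AddMonoid.addOrderOf_eq_one_iff.mp h3

/-- the inequality for a squarefree modulus -/
theorem many_primes {m : ℕ} (Ω : ∀ p : ℕ, Set (Fin m → ZMod p)) (f : (Fin m → ℤ) →₀ ℝ)
    (s : Finset ℕ) (hP : ∀ p ∈ s, p.Prime) (hΩ : ∀ p ∈ s, (Ω p).ncard < p ^ m)
    (hf : ∀ n ∈ f.support, ∀ p ∈ s, (fun i => (n i : ZMod p)) ∉ Ω p) :
    ∃ F : Finset (UnitAddTorus (Fin m)), (∀ ψ ∈ F, addOrderOf ψ = ∏ p ∈ s, p) ∧
      ∀ θ, (∏ p ∈ s, (((Ω p).ncard : ℝ) / ((p : ℝ) ^ m - (Ω p).ncard))) * ‖hat f θ‖ ^ 2 ≤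
        ∑ ψ ∈ F, ‖hat f (θ + ψ)‖ ^ 2 := by
  classical
  induction s using Finset.induction_on with
  | empty => exact ⟨{0}, by simp, fun θ => by simp⟩
  | insert p s hps ih =>
    obtain ⟨F, hF1, hF2⟩ := ih (fun q hq => hP q (Finset.mem_insert_of_mem hq))
      (fun q hq => hΩ q (Finset.mem_insert_of_mem hq))
      (fun n hn q hq => hf n hn q (Finset.mem_insert_of_mem hq))
    have hp : p.Prime := hP p (Finset.mem_insert_self _ _)
    have : Fact p.Prime := ⟨hp⟩
    have : NeZero p := ⟨hp.ne_zero⟩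
    have hcop : (∏ q ∈ s, q).Coprime p := by
      refine Nat.Coprime.prod_left fun q hq => ?_
      refine (Nat.coprime_primes (hP q (Finset.mem_insert_of_mem hq)) hp).mpr ?_
      rintro rfl
      exact hps hq
    set E : Finset (Fin m → ZMod p) := Finset.univ.erase 0 with hE
    have hinj : Set.InjOn (fun x : UnitAddTorus (Fin m) × (Fin m → ZMod p) => x.1 + pt p x.2)
        ((F ×ˢ E : Finset _) : Set _) := by
      rintro ⟨ψ, a⟩ h1 ⟨ψ', a'⟩ h2 h
      simp only [Finset.coe_product, Set.mem_prod, Finset.mem_coe] at h1 h2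
      simp only at h
      have h3 : ψ - ψ' = pt p a' - pt p a := by
        rw [sub_eq_sub_iff_add_eq_add, h, add_comm]
      have h4 : ψ - ψ' = 0 := by
        refine eq_zero_of_coprime hcop ?_ ?_
        · rw [smul_sub]
          nth_rewrite 1 [← hF1 ψ h1.1]
          rw [← hF1 ψ' h2.1, addOrderOf_nsmul_eq_zero, addOrderOf_nsmul_eq_zero, sub_zero]
        · rw [h3, smul_sub, smul_pt, smul_pt, sub_zero]
      have h5 : ψ = ψ' := sub_eq_zero.mp h4
      subst h5
      rw [pt_injective p (add_left_cancel h)]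
    refine ⟨(F ×ˢ E).image fun x => x.1 + pt p x.2, ?_, fun θ => ?_⟩
    · intro ψ hψ
      obtain ⟨⟨φ, a⟩, hx, rfl⟩ := Finset.mem_image.mp hψ
      obtain ⟨h1, h2⟩ := Finset.mem_product.mp hx
      have h3 : addOrderOf (pt p a) = p := by
        refine addOrderOf_eq_prime (smul_pt p a) fun h => ?_
        rw [← pt_zero p] at h
        exact (Finset.mem_erase.mp h2).1 (pt_injective p h)
      rw [Finset.prod_insert hps, (AddCommute.all _ _).addOrderOf_add_eq_mul_addOrderOf_of_coprime,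
        hF1 φ h1, h3, mul_comm]
      rw [hF1 φ h1, h3]
      exact hcop
    · rw [Finset.sum_image hinj, Finset.sum_product, Finset.prod_insert hps, mul_assoc]
      have h0 : (0 : ℝ) ≤ ((Ω p).ncard : ℝ) / ((p : ℝ) ^ m - (Ω p).ncard) := by
        have : (((Ω p).ncard : ℕ) : ℝ) < ((p ^ m : ℕ) : ℝ) := by
          exact_mod_cast hΩ p (Finset.mem_insert_self _ _)
        push_cast at this
        exact div_nonneg (by positivity) (by linarith)
      refine (mul_le_mul_of_nonneg_left (hF2 θ) h0).trans ?_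
      rw [Finset.mul_sum]
      refine Finset.sum_le_sum fun ψ _ => ?_
      simp_rw [← add_assoc]
      exact one_prime p (Ω p) (hΩ p (Finset.mem_insert_self _ _)) f
        (fun n hn => hf n hn p (Finset.mem_insert_self _ _)) (θ + ψ)

theorem eq_zero_of_small {m : ℕ} {x : UnitAddTorus (Fin m)} {k : ℕ} (hk : 0 < k) (h : k • x = 0)
    (hs : k * ‖x‖ < 1) : x = 0 := by
  funext i
  by_contra hne
  have h1 : k • x i = 0 := congrFun h i
  have h2 : IsOfFinAddOrder (x i) := isOfFinAddOrder_iff_nsmul_eq_zero.mpr ⟨k, hk, h1⟩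
  have h3 := AddCircle.le_add_order_smul_norm_of_isOfFinAddOrder h2 hne
  rw [nsmul_eq_mul] at h3
  have h4 : (addOrderOf (x i) : ℝ) ≤ k := by
    exact_mod_cast addOrderOf_le_of_nsmul_eq_zero hk h1
  have h5 : (addOrderOf (x i) : ℝ) * ‖x i‖ ≤ k * ‖x‖ :=
    mul_le_mul h4 (norm_le_pi_norm x i) (norm_nonneg _) (by positivity)
  linarith

/-- translates of the major arcs by distinct torsion points are disjoint -/
theorem sep {m : ℕ} {N R D : ℝ} (hR : 1 ≤ R) (hD : 1 ≤ D) (hsep : 2 * R ^ 2 * D ^ 2 < N)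
    {ψ ψ' θ : UnitAddTorus (Fin m)} {d d' : ℕ} (hd0 : 0 < d) (hd0' : 0 < d')
    (hd : d • ψ = 0) (hd' : d' • ψ' = 0) (h1 : (d : ℝ) ≤ D) (h1' : (d' : ℝ) ≤ D)
    (hc : ∀ q : ℕ, 1 ≤ q → (q : ℝ) ≤ R → q.Coprime d)
    (hc' : ∀ q : ℕ, 1 ≤ q → (q : ℝ) ≤ R → q.Coprime d')
    (h : θ - ψ ∈ arcs m N R) (h' : θ - ψ' ∈ arcs m N R) : ψ = ψ' := by
  obtain ⟨q, hq1, hq2, hq3⟩ := h
  obtain ⟨q', hq1', hq2', hq3'⟩ := h'
  have hN : 0 < N := lt_trans (by positivity) hsep
  have hdd : (d * d') • (ψ' - ψ) = 0 := by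
    rw [smul_sub, mul_smul, hd', smul_zero, mul_comm, mul_smul, hd, smul_zero, sub_zero]
  have e1 : (q * q') • (ψ' - ψ) = q' • (q • (θ - ψ)) - q • (q' • (θ - ψ')) := by
    rw [← mul_smul, ← mul_smul, mul_comm q' q, ← smul_sub]
    congr 1
    abel
  have e2 : ‖(q * q') • (ψ' - ψ)‖ ≤ 2 * R ^ 2 / N := by
    rw [e1]
    refine (norm_sub_le _ _).trans ?_
    have a1 : ‖q' • (q • (θ - ψ))‖ ≤ R * (R / N) :=
      (norm_nsmul_le).trans (mul_le_mul hq2' hq3 (norm_nonneg _) (by linarith))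
    have a2 : ‖q • (q' • (θ - ψ'))‖ ≤ R * (R / N) :=
      (norm_nsmul_le).trans (mul_le_mul hq2 hq3' (norm_nonneg _) (by linarith))
    calc _ ≤ R * (R / N) + R * (R / N) := add_le_add a1 a2
      _ = 2 * R ^ 2 / N := by ring
  have e3 : (q * q') • (ψ' - ψ) = 0 := by
    refine eq_zero_of_small (k := d * d') (Nat.mul_pos hd0 hd0') ?_ ?_
    · rw [smul_comm, hdd, smul_zero]
    · have a1 : ((d * d' : ℕ) : ℝ) ≤ D ^ 2 := by
        push_cast
        rw [sq]
        exact mul_le_mul h1 h1' (by positivity) (by linarith)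
      calc ((d * d' : ℕ) : ℝ) * ‖(q * q') • (ψ' - ψ)‖ ≤ D ^ 2 * (2 * R ^ 2 / N) :=
            mul_le_mul a1 e2 (norm_nonneg _) (by positivity)
        _ = 2 * R ^ 2 * D ^ 2 / N := by ring
        _ < 1 := (div_lt_one hN).mpr hsep
  have hcop : (q * q').Coprime (d * d') :=
    Nat.Coprime.mul_left (Nat.Coprime.mul_right (hc q hq1 hq2) (hc' q hq1 hq2))
      (Nat.Coprime.mul_right (hc q' hq1' hq2') (hc' q' hq1' hq2'))
  exact (sub_eq_zero.mp (eq_zero_of_coprime hcop e3 hdd)).symm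

theorem integral_shift {m : ℕ} (g : UnitAddTorus (Fin m) → ℝ) {A : Set (UnitAddTorus (Fin m))}
    (hA : MeasurableSet A) (ψ : UnitAddTorus (Fin m)) :
    ∫ θ in A, g (θ + ψ) ∂(muT m) = ∫ θ in {θ | θ - ψ ∈ A}, g θ ∂(muT m) := by
  have hB : MeasurableSet {θ | θ - ψ ∈ A} := (measurable_sub_const ψ) hA
  rw [← integral_indicator hA, ← integral_indicator hB,
    ← integral_add_right_eq_self (μ := muT m) (({θ | θ - ψ ∈ A} : Set _).indicator g) ψ]
  congr 1
  funext θ
  by_cases h : θ ∈ A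
  · rw [Set.indicator_of_mem h, Set.indicator_of_mem (by simpa using h)]
  · rw [Set.indicator_of_notMem h, Set.indicator_of_notMem (by simpa using h)]

end Pool.Agent.MP_14ad9d_nt.Full.SieveAux

end

section

set_option autoImplicit false

open MeasureTheory

namespace Pool.Agent.MP_14ad9d_nt.Full

/-- Parseval -/
theorem mass_univ {m : ℕ} (f : (Fin m → ℤ) →₀ ℝ) :
    mass f Set.univ = f.sum fun _ a => a ^ 2 :=
  SieveAux.mass_univ' f

theorem mass_mono {m : ℕ} (f : (Fin m → ℤ) →₀ ℝ) {S T : Set (UnitAddTorus (Fin m))} (h : S ⊆ T) :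
    mass f S ≤ mass f T :=
  SieveAux.mass_mono' f h

theorem measurableSet_arcs (m : ℕ) (N R : ℝ) : MeasurableSet (arcs m N R) :=
  SieveAux.measurableSet_arcs' m N R

/-- a nonnegative function supported in a box has a large Fourier transform near zero -/
theorem mass_lower (m : ℕ) (C₀ : ℝ) (hC : 0 < C₀) : ∃ c : ℝ, 0 < c ∧ ∀ N R : ℝ, 1 ≤ N → 1 ≤ R →
    ∀ f : (Fin m → ℤ) →₀ ℝ, (∀ n, 0 ≤ f n) → (∀ n ∈ f.support, ‖n‖ ≤ C₀ * N) →
      c * (f.sum fun _ a => a) ^ 2 ≤ N ^ m * mass f (arcs m N R) :=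
  SieveAux.mass_lower' m C₀ hC

/-- the larger sieve on major arcs -/
theorem sieve (m : ℕ) (N R D : ℝ) (hR : 1 ≤ R) (hD : 1 ≤ D) (hsep : 2 * R ^ 2 * D ^ 2 < N)
    (PP : Finset ℕ) (hP : ∀ p ∈ PP, p.Prime ∧ R < p)
    (Ω : ∀ p : ℕ, Set (Fin m → ZMod p)) (hΩ : ∀ p ∈ PP, (Ω p).ncard < p ^ m)
    (f : (Fin m → ℤ) →₀ ℝ)
    (hf : ∀ n ∈ f.support, ∀ p ∈ PP, (fun i => (n i : ZMod p)) ∉ Ω p) :
    (∑ s ∈ PP.powerset with ((∏ p ∈ s, p : ℕ) : ℝ) ≤ D,
      ∏ p ∈ s, (((Ω p).ncard : ℝ) / ((p : ℝ) ^ m - (Ω p).ncard))) * mass f (arcs m N R) ≤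
      f.sum fun _ a => a ^ 2 := by
  classical
  have key : ∀ s : Finset ℕ, ∃ F : Finset (UnitAddTorus (Fin m)), s ⊆ PP →
      (∀ ψ ∈ F, addOrderOf ψ = ∏ p ∈ s, p) ∧
      ∀ θ, (∏ p ∈ s, (((Ω p).ncard : ℝ) / ((p : ℝ) ^ m - (Ω p).ncard))) * ‖hat f θ‖ ^ 2 ≤
        ∑ ψ ∈ F, ‖hat f (θ + ψ)‖ ^ 2 := by
    intro s
    by_cases hs : s ⊆ PP
    · obtain ⟨F, hF⟩ := SieveAux.many_primes Ω f s (fun p hp => (hP p (hs hp)).1)
        (fun p hp => hΩ p (hs hp)) (fun n hn p hp => hf n hn p (hs hp))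
      exact ⟨F, fun _ => hF⟩
    · exact ⟨∅, fun h => absurd h hs⟩
  choose F hF using key
  set S : Finset (Finset ℕ) := PP.powerset.filter fun s => ((∏ p ∈ s, p : ℕ) : ℝ) ≤ D with hS
  have hS1 : ∀ s ∈ S, s ⊆ PP := fun s hs => Finset.mem_powerset.mp (Finset.mem_filter.mp hs).1
  have hS2 : ∀ s ∈ S, ((∏ p ∈ s, p : ℕ) : ℝ) ≤ D := fun s hs => (Finset.mem_filter.mp hs).2
  have hA := measurableSet_arcs m N R
  have hcont : ∀ ψ : UnitAddTorus (Fin m), Continuous fun θ => ‖hat f (θ + ψ)‖ ^ 2 := fun ψ =>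
    ((SieveAux.continuous_hat f).comp (continuous_add_const ψ)).norm.pow 2
  have h1 : ∀ s ∈ S, (∏ p ∈ s, (((Ω p).ncard : ℝ) / ((p : ℝ) ^ m - (Ω p).ncard))) *
      mass f (arcs m N R) ≤ ∑ ψ ∈ F s, mass f {θ | θ - ψ ∈ arcs m N R} := by
    intro s hs
    unfold mass
    simp_rw [← SieveAux.integral_shift (fun θ => ‖hat f θ‖ ^ 2) hA]
    rw [← integral_const_mul, ← integral_finsetSum _ fun ψ _ =>
      (SieveAux.integrable_cont (hcont ψ)).integrableOn]
    refine integral_mono ((SieveAux.integrable_sq f).integrableOn.const_mul _)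
      (integrable_finsetSum _ fun ψ _ => (SieveAux.integrable_cont (hcont ψ)).integrableOn) ?_
    intro θ
    exact (hF s (hS1 s hs)).2 θ
  have hpos : ∀ s ∈ S, 0 < ∏ p ∈ s, p := fun s hs =>
    Finset.prod_pos fun p hp => (hP p (hS1 s hs hp)).1.pos
  have hcop : ∀ s ∈ S, ∀ q : ℕ, 1 ≤ q → (q : ℝ) ≤ R → q.Coprime (∏ p ∈ s, p) := by
    intro s hs q hq1 hq2
    refine Nat.Coprime.prod_right fun p hp => ?_
    have h2 := hP p (hS1 s hs hp)
    have h3 : q < p := by exact_mod_cast hq2.trans_lt h2.2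
    exact (Nat.coprime_of_lt_prime (by omega) h3 h2.1).symm
  have hdisj : Set.Pairwise ((S.sigma F : Finset _) : Set (Σ _ : Finset ℕ, UnitAddTorus (Fin m)))
      (Function.onFun Disjoint fun x => {θ | θ - x.2 ∈ arcs m N R}) := by
    rintro ⟨s, ψ⟩ hx ⟨s', ψ'⟩ hx' hne
    obtain ⟨hs, hψ⟩ := Finset.mem_sigma.mp (Finset.mem_coe.mp hx)
    obtain ⟨hs', hψ'⟩ := Finset.mem_sigma.mp (Finset.mem_coe.mp hx')
    simp only at hs hψ hs' hψ'
    rw [Function.onFun, Set.disjoint_left]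
    intro θ h h'
    have o1 := (hF s (hS1 s hs)).1 ψ hψ
    have o2 := (hF s' (hS1 s' hs')).1 ψ' hψ'
    have e : ψ = ψ' := SieveAux.sep hR hD hsep (hpos s hs) (hpos s' hs')
      (by rw [← o1]; exact addOrderOf_nsmul_eq_zero ψ)
      (by rw [← o2]; exact addOrderOf_nsmul_eq_zero ψ') (hS2 s hs) (hS2 s' hs')
      (hcop s hs) (hcop s' hs') h h'
    subst e
    have e2 : s = s' := by
      rw [← Nat.primeFactors_prod fun p hp => (hP p (hS1 s hs hp)).1, ← o1, o2,
        Nat.primeFactors_prod fun p hp => (hP p (hS1 s' hs' hp)).1]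
    subst e2
    exact hne rfl
  rw [Finset.sum_mul, ← mass_univ]
  refine (Finset.sum_le_sum h1).trans ?_
  rw [Finset.sum_sigma' S F fun _ ψ => mass f {θ | θ - ψ ∈ arcs m N R}]
  refine le_trans (le_of_eq ?_) (mass_mono f (Set.subset_univ
    (⋃ x ∈ S.sigma F, {θ | θ - x.2 ∈ arcs m N R})))
  unfold mass
  exact (integral_biUnion_finset _ (fun x _ => (measurable_sub_const x.2) hA) hdisj
    (fun x _ => (SieveAux.integrable_sq f).integrableOn)).symm

end Pool.Agent.MP_14ad9d_nt.Full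

end
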