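import Pool.Agent.MP_14ad9d_nt.Full.ODefs

section

set_option autoImplicit false

namespace Pool.Agent.MP_14ad9d_nt.Full

variable {k G H : Type} [Field k] [Group G] [Fintype G] [AddCommGroup H] [Module k H]
  (ρ : Representation k G H)

namespace OrthAAux

omit [Fintype G] in
theorem act_mul (g h : G) (x : H) : ρ g (ρ h x) = ρ (g * h) x := by rw [map_mul]; rfl

omit [Fintype G] in
theorem act_inv (g : G) (x : H) : ρ g (ρ g⁻¹ x) = x := by
  rw [act_mul, mul_inv_cancel, map_one]; rfl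

omit [Fintype G] in
theorem act_inv' (g : G) (x : H) : ρ g⁻¹ (ρ g x) = x := by
  rw [act_mul, inv_mul_cancel, map_one]; rfl

/-- an equivariant projection onto a stable subspace -/
theorem proj (hG : (Fintype.card G : k) ≠ 0) {B : Submodule k H} (hB : Stab ρ B) :
    ∃ π : H →ₗ[k] H, (∀ x, π x ∈ B) ∧ (∀ x ∈ B, π x = x) ∧ ∀ g x, π (ρ g x) = ρ g (π x) := by
  obtain ⟨p, hp⟩ := LinearMap.exists_extend (LinearMap.id : B →ₗ[k] B)
  have hp' : ∀ x ∈ B, (p x : H) = x := fun x hx =>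
    congrArg Subtype.val (LinearMap.congr_fun hp ⟨x, hx⟩)
  refine ⟨(Fintype.card G : k)⁻¹ • ∑ g, ρ g⁻¹ ∘ₗ B.subtype ∘ₗ p ∘ₗ ρ g, fun x => ?_,
    fun x hx => ?_, fun g x => ?_⟩ <;>
    simp only [LinearMap.smul_apply, LinearMap.sum_apply, LinearMap.comp_apply,
      Submodule.subtype_apply]
  · exact B.smul_mem _ (B.sum_mem fun g _ => hB _ _ (p _).2)
  · rw [Finset.sum_congr rfl fun g _ => by rw [hp' _ (hB g x hx), act_inv'], Finset.sum_const,
      Finset.card_univ, ← Nat.cast_smul_eq_nsmul k, smul_smul, inv_mul_cancel₀ hG, one_smul]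
  · rw [map_smul, map_sum]
    refine congrArg _ (Fintype.sum_equiv (Equiv.mulRight g) _ _ fun h => ?_)
    rw [Equiv.coe_mulRight, act_mul, act_mul, mul_inv_rev, mul_inv_cancel_left]

theorem fin {A C : Submodule k H} (hf : FinQ A C) {M : Type} [AddCommGroup M] [Module k M]
    (σ : H →ₗ[k] M) (hσ : ∀ c ∈ C, σ c = 0) : FiniteDimensional k (A.map σ) := by
  obtain ⟨s, hs⟩ := hf
  refine Submodule.finiteDimensional_of_le (S₂ := (Submodule.span k (s : Set H)).map σ) ?_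
  rintro _ ⟨x, hx, rfl⟩
  obtain ⟨c, hc, y, hy, rfl⟩ := Submodule.mem_sup.1 (hs hx)
  exact ⟨y, hy, by rw [map_add, hσ c hc, zero_add]⟩

/-- representation of functionals by a form with radical `C` -/
theorem riesz {A C : Submodule k H} (hCA : C ≤ A) (hf : FinQ A C) {b : H →ₗ[k] H →ₗ[k] k}
    (hs : ∀ x ∈ A, ∀ y ∈ A, b x y = b y x) (hr : ∀ x ∈ A, (∀ y ∈ A, b x y = 0) ↔ x ∈ C) :
    ∃ R : (H →ₗ[k] k) →ₗ[k] H, ∀ φ, R φ ∈ A ∧
      ((∀ c ∈ C, φ c = 0) → ∀ y ∈ A, b (R φ) y = φ y) := by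
  classical
  obtain ⟨p, hp⟩ := LinearMap.exists_extend (LinearMap.id : C →ₗ[k] C)
  have hp' : ∀ x ∈ C, (p x : H) = x := fun x hx =>
    congrArg Subtype.val (LinearMap.congr_fun hp ⟨x, hx⟩)
  set σ : H →ₗ[k] H := LinearMap.id - C.subtype ∘ₗ p with hσ
  have σa : ∀ x, σ x = x - p x := fun x => rfl
  have σ0 : ∀ c ∈ C, σ c = 0 := fun c hc => by rw [σa, hp' c hc, sub_self]
  have := fin hf σ σ0
  have hA : A.map σ ≤ A := by
    rintro _ ⟨x, hx, rfl⟩
    exact A.sub_mem hx (hCA (p x).2)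
  have ext : ∀ x ∈ A, ∀ y ∈ A, b x y = b x (σ y) := fun x hx y _ => by
    rw [σa, map_sub, hs x hx _ (hCA (p y).2), (hr _ (hCA (p y).2)).2 (p y).2 x hx, sub_zero]
  let B : LinearMap.BilinForm k (A.map σ) := b.compl₁₂ (A.map σ).subtype (A.map σ).subtype
  have hl : B.SeparatingLeft := by
    rintro ⟨_, x, hx, rfl⟩ h
    have hx' := hA ⟨x, hx, rfl⟩
    have h1 := (hr _ hx').1 fun y hy => (ext _ hx' y hy).trans (h ⟨σ y, y, hy, rfl⟩)
    have h2 := σ0 _ h1
    rw [σa x, map_sub, σ0 _ (p x).2, sub_zero] at h2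
    exact Subtype.ext h2
  have hB : B.Nondegenerate := ⟨hl, fun x h => hl x fun y => (hs _ (hA x.2) _ (hA y.2)).trans (h y)⟩
  refine ⟨(A.map σ).subtype ∘ₗ (B.toDual hB).symm.toLinearMap ∘ₗ (A.map σ).subtype.dualMap,
    fun φ => ⟨hA (Subtype.property _), fun hφ y hy => ?_⟩⟩
  refine (ext _ (hA (Subtype.property _)) y hy).trans
    ((LinearMap.BilinForm.apply_toDual_symm_apply (hB := hB)
      ((A.map σ).subtype.dualMap φ) ⟨σ y, y, hy, rfl⟩).trans ?_)
  change φ (σ y) = _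
  rw [σa, map_sub, hφ _ (p y).2, sub_zero]

theorem sect (A C : Submodule k H) (ψ : H →ₗ[k] H) :
    ∃ s : H →ₗ[k] H, ∀ u, s u ∈ A ∧ (u ∈ A.map ψ ⊔ C → u - ψ (s u) ∈ C) := by
  set f : A →ₗ[k] H ⧸ C := C.mkQ ∘ₗ ψ ∘ₗ A.subtype
  obtain ⟨g0, h0⟩ := f.rangeRestrict.exists_rightInverse_of_surjective f.range_rangeRestrict
  obtain ⟨g, hg⟩ := LinearMap.exists_extend g0
  refine ⟨A.subtype ∘ₗ g ∘ₗ C.mkQ, fun u => ⟨Subtype.property _, fun hu => ?_⟩⟩
  obtain ⟨_, ⟨x, hx, rfl⟩, c, hc, rfl⟩ := Submodule.mem_sup.1 hu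
  have e : C.mkQ (ψ x + c) = f ⟨x, hx⟩ := by
    rw [map_add, (Submodule.Quotient.mk_eq_zero C).2 hc |> (show C.mkQ c = 0 from ·), add_zero]
    rfl
  have e1 := LinearMap.congr_fun hg ⟨f ⟨x, hx⟩, _, rfl⟩
  have e2 := congrArg Subtype.val (LinearMap.congr_fun h0 ⟨f ⟨x, hx⟩, _, rfl⟩)
  refine (Submodule.Quotient.eq C).1 ?_
  change C.mkQ (ψ x + c) = f (g (C.mkQ (ψ x + c)))
  rw [e]
  exact e2.symm.trans (congrArg f e1.symm)

/-- the averaged square of a functional -/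
def sqf (f : H →ₗ[k] k) : H →ₗ[k] H →ₗ[k] k :=
  ∑ g, (LinearMap.mul k k).compl₁₂ (f ∘ₗ ρ g) (f ∘ₗ ρ g)

theorem sqf_apply (f : H →ₗ[k] k) (x y : H) : sqf ρ f x y = ∑ g, f (ρ g x) * f (ρ g y) := by
  simp [sqf, LinearMap.sum_apply]

theorem sqf_comm (f : H →ₗ[k] k) (x y : H) : sqf ρ f x y = sqf ρ f y x := by
  simp only [sqf_apply, mul_comm]

theorem sqf_act (f : H →ₗ[k] k) (g : G) (x y : H) : sqf ρ f (ρ g x) (ρ g y) = sqf ρ f x y := by
  simp only [sqf_apply, act_mul]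
  exact Fintype.sum_equiv (Equiv.mulRight g) _ _ fun h => rfl

theorem avg (hG : (Fintype.card G : k) ≠ 0) (h2 : (2 : k) ≠ 0) {A : Submodule k H}
    (hA : Stab ρ A) (hf : FinQ A ⊥) {b : H →ₗ[k] H →ₗ[k] k} (hb : IsForm ρ A ⊥ b)
    (h : ∀ f, ∀ x ∈ A, ∀ y ∈ A, sqf ρ f x y = 0) : A = ⊥ := by
  have : FiniteDimensional k A := by
    have := fin hf LinearMap.id fun c hc => hc
    rwa [Submodule.map_id] at this
  obtain ⟨p, hp⟩ := LinearMap.exists_extend (LinearMap.id : A →ₗ[k] A)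
  let e := Module.finBasis k A
  have he : ∀ u ∈ A, ∀ v, b u v = ∑ i, e.coord i (p u) * b (e i) v := by
    intro u hu v
    have h1 : p u = ⟨u, hu⟩ := LinearMap.congr_fun hp ⟨u, hu⟩
    have h3 := congrArg (fun z : A => b z v) (e.sum_repr ⟨u, hu⟩)
    simp only [Submodule.coe_sum, Submodule.coe_smul, map_sum, map_smul, LinearMap.sum_apply,
      LinearMap.smul_apply, smul_eq_mul] at h3
    rw [h1]
    exact h3.symm
  refine (Submodule.eq_bot_iff _).2 fun x hx => (hb.2.2 x hx).1 fun y hy => ?_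
  have pol : ∀ f f' : H →ₗ[k] k,
      ∑ g, (f (ρ g x) * f' (ρ g y) + f (ρ g y) * f' (ρ g x)) = 0 := by
    intro f f'
    have h3 := h (f + f') x hx y hy
    have h4 := h f x hx y hy
    have h5 := h f' x hx y hy
    rw [sqf_apply] at h3 h4 h5
    rw [← sub_zero (0 : k), ← sub_zero (0 - 0 : k)]
    nth_rewrite 1 [← h3]
    nth_rewrite 1 [← h4]
    rw [← h5, ← Finset.sum_sub_distrib, ← Finset.sum_sub_distrib]
    refine Finset.sum_congr rfl fun g _ => ?_
    simp only [LinearMap.add_apply]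
    ring
  have h6 := Finset.sum_eq_zero (s := Finset.univ) fun i _ => pol (e.coord i ∘ₗ p) (b (e i))
  rw [Finset.sum_comm, Finset.sum_congr rfl (g := fun _ => 2 * b x y) fun g _ => by
    simp only [LinearMap.comp_apply]
    rw [Finset.sum_add_distrib, ← he _ (hA g x hx), ← he _ (hA g y hy), hb.2.1 g x hx y hy,
      hb.2.1 g y hy x hx, hb.1 y hy x hx, two_mul], Finset.sum_const, Finset.card_univ,
    nsmul_eq_mul] at h6
  simpa [hG, h2] using h6

end OrthAAux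

open OrthAAux

theorem orth_ext (hG : (Fintype.card G : k) ≠ 0) {A B C : Submodule k H} (hBA : B ≤ A)
    (hCB : C ≤ B) (hA : Stab ρ A) (hB : Stab ρ B) (hC : Stab ρ C) (hf : FinQ A C)
    (h1 : OrthQ ρ A B) (h2 : OrthQ ρ B C) : OrthQ ρ A C := by
  obtain ⟨b, s1, i1, r1⟩ := h1
  obtain ⟨q, s2, i2, r2⟩ := h2
  obtain ⟨π, p1, p2, p3⟩ := proj ρ hG hB
  have e : ∀ x y, (b + q.compl₁₂ π π) x y = b x y + q (π x) (π y) := fun _ _ => rfl
  refine ⟨b + q.compl₁₂ π π, fun x hx y hy => ?_, fun g x hx y hy => ?_, fun x hx => ?_⟩ <;>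
    simp only [e]
  · rw [s1 x hx y hy, s2 _ (p1 x) _ (p1 y)]
  · rw [i1 g x hx y hy, p3, p3, i2 g _ (p1 x) _ (p1 y)]
  · refine ⟨fun h => ?_, fun h y hy => ?_⟩
    · have a1 : π x ∈ C := (r2 _ (p1 x)).1 fun y hy => by
        have := h y (hBA hy)
        rwa [s1 x hx y (hBA hy), (r1 y (hBA hy)).2 hy x hx, zero_add, p2 y hy] at this
      have a2 : x ∈ B := (r1 x hx).1 fun y hy => by
        have := h y hy
        rwa [(r2 _ (p1 x)).2 a1 _ (p1 y), add_zero] at this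
      rwa [p2 x a2] at a1
    · rw [(r1 x hx).2 (hCB h) y hy, p2 x (hCB h), (r2 x (hCB h)).2 h _ (p1 y), add_zero]

/-- the kernel of a self-adjoint equivariant operator is orthogonal -/
theorem orth_ker (hG : (Fintype.card G : k) ≠ 0) {A C : Submodule k H} (hCA : C ≤ A)
    (hA : Stab ρ A) (hC : Stab ρ C) (hf : FinQ A C) {b : H →ₗ[k] H →ₗ[k] k}
    (hb : IsForm ρ A C b) (ψ : H →ₗ[k] H) (hψ : ∀ g, ∀ x ∈ A, ψ (ρ g x) - ρ g (ψ x) ∈ C)
    (hψA : ∀ x ∈ A, ψ x ∈ A) (hψC : ∀ x ∈ C, ψ x ∈ C)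
    (hadj : ∀ x ∈ A, ∀ y ∈ A, b (ψ x) y = b x (ψ y)) : OrthQ ρ (A ⊓ C.comap ψ) C := by
  induction hn : Module.finrank k (A.map C.mkQ) using Nat.strong_induction_on
    generalizing A b with
  | _ n ih =>
  obtain ⟨s1, i1, r1⟩ := hb
  have hIA : A.map ψ ⊔ C ≤ A := sup_le (by rintro _ ⟨x, hx, rfl⟩; exact hψA x hx) hCA
  have hCI : C ≤ A.map ψ ⊔ C := le_sup_right
  have hψI : ∀ x ∈ A, ψ x ∈ A.map ψ ⊔ C := fun x hx => Submodule.mem_sup_left ⟨x, hx, rfl⟩
  have hI : Stab ρ (A.map ψ ⊔ C) := by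
    intro g u hu
    obtain ⟨_, ⟨x, hx, rfl⟩, c, hc, rfl⟩ := Submodule.mem_sup.1 hu
    rw [map_add, ← sub_sub_cancel (ψ (ρ g x)) (ρ g (ψ x))]
    exact add_mem (sub_mem (hψI _ (hA g x hx)) (hCI (hψ g x hx))) (hCI (hC g c hc))
  have hK : Stab ρ (A ⊓ C.comap ψ) := fun g x hx => ⟨hA g x hx.1, by
    have := add_mem (hψ g x hx.1) (hC g _ hx.2)
    rwa [sub_add_cancel] at this⟩
  have rc : ∀ x ∈ A, ∀ c ∈ C, b x c = 0 := fun x hx c hc => by
    rw [s1 x hx c (hCA hc), (r1 c (hCA hc)).2 hc x hx]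
  have cg : ∀ x ∈ A, ∀ y z, y - z ∈ C → b x y = b x z := fun x hx y z h => by
    rw [← sub_eq_zero, ← map_sub, rc x hx _ h]
  have perp : ∀ x ∈ A ⊓ C.comap ψ, ∀ u ∈ A.map ψ ⊔ C, b x u = 0 := by
    intro x hx u hu
    obtain ⟨_, ⟨y, hy, rfl⟩, c, hc, rfl⟩ := Submodule.mem_sup.1 hu
    rw [map_add, rc x hx.1 c hc, ← hadj x hx.1 y hy, (r1 _ (hψA x hx.1)).2 hx.2 y hy, add_zero]
  rcases hIA.eq_or_lt with hE | hE
  · exact ⟨0, fun _ _ _ _ => rfl, fun _ _ _ _ _ => rfl, fun x hx =>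
      ⟨fun _ => (r1 x hx.1).1 fun y hy => perp x hx y (hE.symm ▸ hy), fun _ _ _ => rfl⟩⟩
  obtain ⟨s, hs⟩ := sect A C ψ
  have sw : ∀ u ∈ A.map ψ ⊔ C, ∀ y ∈ A, b (s u) (ψ y) = b y u := fun u hu y hy => by
    rw [← hadj _ (hs u).1 y hy, s1 _ (hψA _ (hs u).1) y hy, cg y hy u _ ((hs u).2 hu)]
  have sy : ∀ u ∈ A.map ψ ⊔ C, ∀ v ∈ A.map ψ ⊔ C, b (s u) v = b (s v) u := fun u hu v hv => by
    rw [cg _ (hs u).1 v _ ((hs v).2 hv), sw u hu _ (hs v).1]
  have hlt : Module.finrank k ((A.map ψ ⊔ C).map C.mkQ) < n := by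
    have := fin hf C.mkQ fun c hc => (Submodule.Quotient.mk_eq_zero C).2 hc
    refine hn ▸ Submodule.finrank_lt_finrank_of_lt (lt_of_le_of_ne (Submodule.map_mono hIA)
      fun e => hE.ne ?_)
    have := congrArg (Submodule.comap C.mkQ) e
    rwa [Submodule.comap_map_mkQ, Submodule.comap_map_mkQ, sup_eq_right.2 hCI,
      sup_eq_right.2 hCA] at this
  have hf' : ∀ B ≤ A, FinQ B C := fun B hB => hf.imp fun t ht => hB.trans ht
  have key := ih _ hlt (b := b ∘ₗ s) hCI hI (hf' _ hIA)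
    ⟨sy, fun g u hu v hv => ?_, fun u hu => ⟨fun h => ?_, fun h v hv => ?_⟩⟩
    (fun g x hx => hψ g x (hIA hx)) (fun x hx => hψI x (hIA hx)) (fun u hu v hv => ?_) rfl
  · refine orth_ext ρ hG (inf_le_inf_right _ hIA) (fun c hc => ⟨hCI hc, hψC c hc⟩) hK
      (fun g x hx => ⟨hI g x hx.1, (hK g x ⟨hIA hx.1, hx.2⟩).2⟩) hC (hf' _ inf_le_left)
      ⟨b, fun x hx y hy => s1 x hx.1 y hy.1, fun g x hx y hy => i1 g x hx.1 y hy.1,
        fun x hx => ⟨fun h => ⟨?_, hx.2⟩, fun h y hy => ?_⟩⟩ key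
    · by_contra hx'
      obtain ⟨φ, f1, f2⟩ := Submodule.exists_dual_map_eq_bot_of_notMem hx' inferInstance
      have f3 : ∀ u ∈ A.map ψ ⊔ C, φ u = 0 := fun u hu =>
        (Submodule.eq_bot_iff _).1 f2 _ ⟨u, hu, rfl⟩
      obtain ⟨R, hR⟩ := riesz hCA hf s1 r1
      have f4 := (hR φ).2 fun c hc => f3 c (hCI hc)
      have f5 : ψ (R φ) ∈ C := (r1 _ (hψA _ (hR φ).1)).1 fun y hy => by
        rw [hadj _ (hR φ).1 y hy, f4 _ (hψA y hy), f3 _ (hψI y hy)]
      exact f1 (by rw [← f4 x hx.1, s1 _ (hR φ).1 x hx.1, h _ ⟨(hR φ).1, f5⟩])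
    · rw [s1 x hx.1 y hy.1, perp y hy x h.1]
  · change b (s (ρ g u)) (ρ g v) = b (s u) v
    have a : ρ g v - ψ (ρ g (s v)) ∈ C := by
      have := sub_mem (hC g _ ((hs v).2 hv)) (hψ g _ (hs v).1)
      rwa [map_sub, sub_sub, add_sub_cancel] at this
    rw [cg _ (hs _).1 _ _ a, sw _ (hI g u hu) _ (hA g _ (hs v).1), i1 g _ (hs v).1 u (hIA hu),
      sy v hv u hu]
  · exact (r1 u (hIA hu)).1 fun y hy => by
      rw [s1 u (hIA hu) y hy, ← sw u hu y hy]; exact h _ (hψI y hy)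
  · exact (sy u hu v hv).trans (rc _ (hs v).1 u h)
  · change b (s (ψ u)) v = b (s u) (ψ v)
    rw [sy _ (hψI u (hIA hu)) v hv, sw v hv u (hIA hu), sw u hu v (hIA hv),
      s1 u (hIA hu) v (hIA hv)]

theorem orth_sub (hG : (Fintype.card G : k) ≠ 0) {A B C : Submodule k H} (hBA : B ≤ A)
    (hCB : C ≤ B) (hA : Stab ρ A) (hB : Stab ρ B) (hC : Stab ρ C) (hf : FinQ A C)
    (h1 : OrthQ ρ A C) (h2 : OrthQ ρ A B) : OrthQ ρ B C := by
  obtain ⟨b, s1, i1, r1⟩ := h1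
  obtain ⟨q, s2, i2, r2⟩ := h2
  have hCA := hCB.trans hBA
  obtain ⟨R, hR⟩ := riesz hCA hf s1 r1
  have e : ∀ x ∈ A, ∀ y ∈ A, b (R (q x)) y = q x y := fun x hx => (hR (q x)).2 fun c hc => by
    rw [s2 x hx c (hCA hc), (r2 c (hCA hc)).2 (hCB hc) x hx]
  have m : ∀ x ∈ A, R (q x) ∈ C ↔ x ∈ B := fun x hx => by
    rw [← r1 _ (hR _).1, ← r2 x hx]
    exact forall₂_congr fun y hy => by rw [e x hx y hy]
  have := orth_ker ρ hG hCA hA hC hf ⟨s1, i1, r1⟩ (R ∘ₗ q) (fun g x hx => ?_)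
    (fun x _ => (hR _).1) (fun x hx => (m x (hCA hx)).2 (hCB hx)) fun x hx y hy => ?_
  · rwa [show A ⊓ C.comap (R ∘ₗ q) = B from Submodule.ext fun x =>
      ⟨fun h => (m x h.1).1 h.2, fun h => ⟨hBA h, (m x (hBA h)).2 h⟩⟩] at this
  · refine (r1 _ (sub_mem (hR _).1 (hA g _ (hR _).1))).1 fun y hy => ?_
    have hy' := hA g⁻¹ y hy
    change b (R (q (ρ g x)) - ρ g (R (q x))) y = 0
    rw [map_sub, LinearMap.sub_apply, e _ (hA g x hx) y hy, ← act_inv ρ g y, i2 g x hx _ hy',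
      i1 g _ (hR _).1 _ hy', e x hx _ hy', sub_self]
  · change b (R (q x)) y = b x (R (q y))
    rw [e x hx y hy, s1 x hx _ (hR _).1, e y hy x hx, s2 x hx y hy]

theorem orth_quot (hG : (Fintype.card G : k) ≠ 0) {A B C : Submodule k H} (hBA : B ≤ A)
    (hCB : C ≤ B) (hA : Stab ρ A) (hB : Stab ρ B) (hC : Stab ρ C) (hf : FinQ A C)
    (h1 : OrthQ ρ A C) (h2 : OrthQ ρ B C) : OrthQ ρ A B := by
  obtain ⟨q, s2, i2, r2⟩ := h2
  obtain ⟨π, p1, p2, p3⟩ := proj ρ hG hB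
  obtain ⟨b, s3, i3, r3⟩ := orth_sub ρ hG (B := A ⊓ C.comap π) inf_le_left
    (fun c hc => ⟨hBA (hCB hc), show π c ∈ C by rwa [p2 c (hCB hc)]⟩) hA
    (fun g x hx => ⟨hA g x hx.1, show π _ ∈ C by rw [p3]; exact hC g _ hx.2⟩) hC hf h1
    ⟨q.compl₁₂ π π, fun x _ y _ => s2 _ (p1 x) _ (p1 y), fun g x _ y _ => by
      simp only [LinearMap.compl₁₂_apply, p3]
      exact i2 g _ (p1 x) _ (p1 y), fun x hx =>
        ⟨fun h => ⟨hx, (r2 _ (p1 x)).1 fun y hy => by rw [← p2 y hy]; exact h y (hBA hy)⟩,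
          fun h y _ => (r2 _ (p1 x)).2 h.2 _ (p1 y)⟩⟩
  have w : ∀ x ∈ A, x - π x ∈ A ⊓ C.comap π := fun x hx =>
    ⟨sub_mem hx (hBA (p1 x)), show π _ ∈ C by
      rw [map_sub, p2 _ (p1 x), sub_self]; exact zero_mem _⟩
  have e : ∀ x y, b.compl₁₂ (LinearMap.id - π) (LinearMap.id - π) x y = b (x - π x) (y - π y) :=
    fun _ _ => rfl
  refine ⟨b.compl₁₂ (LinearMap.id - π) (LinearMap.id - π), fun x hx y hy => ?_,
    fun g x hx y hy => ?_, fun x hx => ?_⟩ <;> simp only [e]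
  · exact s3 _ (w x hx) _ (w y hy)
  · rw [p3, p3, ← map_sub (ρ g), ← map_sub (ρ g), i3 g _ (w x hx) _ (w y hy)]
  · refine ⟨fun h => ?_, fun h y _ => by rw [p2 x h, sub_self, map_zero, LinearMap.zero_apply]⟩
    have a := (r3 _ (w x hx)).1 fun y hy => by
      have hy' : π y ∈ A ⊓ C.comap π :=
        ⟨hBA (p1 y), show π _ ∈ C by rw [p2 _ (p1 y)]; exact hy.2⟩
      have := h y hy.1
      rwa [map_sub (b _), s3 _ (w x hx) _ hy', (r3 _ hy').2 hy.2 _ (w x hx), sub_zero] at this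
    simpa using add_mem (hCB a) (p1 x)

theorem orth_new (hG : (Fintype.card G : k) ≠ 0) {A : Submodule k H} (hA : Stab ρ A)
    (hf : FinQ A ⊥) (h : OrthQ ρ A ⊥) : OrthQ ρ (A ⊓ LinearMap.ker (nrm ρ)) ⊥ := by
  obtain ⟨b, hb⟩ := h
  have e : ∀ x, nrm ρ x = ∑ g, ρ g x := fun x => by simp [nrm, LinearMap.sum_apply]
  refine orth_ker ρ hG bot_le hA (fun g x hx => by simp_all) hf hb (nrm ρ) (fun g x _ => ?_)
    (fun x hx => e x ▸ A.sum_mem fun g _ => hA g x hx) (fun x hx => by simp_all)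
    fun x hx y hy => ?_
  · rw [Submodule.mem_bot, sub_eq_zero, e, e, map_sum]
    simp only [act_mul]
    exact (Fintype.sum_equiv (Equiv.mulRight g) _ (fun h => ρ h x) fun h => rfl).trans
      (Fintype.sum_equiv (Equiv.mulLeft g) _ (fun h => ρ h x) fun h => rfl).symm
  · rw [e, e, map_sum, map_sum, LinearMap.sum_apply]
    refine Fintype.sum_equiv (Equiv.inv G) _ _ fun g => ?_
    rw [Equiv.inv_apply, ← hb.2.1 g x hx _ (hA g⁻¹ y hy), act_inv]

/-- the choice of a functional for the killing step -/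
theorem kill_choice (hG : (Fintype.card G : k) ≠ 0) (h2 : (2 : k) ≠ 0) {A : Submodule k H}
    (hA : Stab ρ A) (hf : FinQ A ⊥) (h : OrthQ ρ A ⊥) (hne : A ≠ ⊥) :
    ∃ f : H →ₗ[k] k, (∃ x ∈ A, f x ≠ 0) ∧
      (∀ x ∈ A, (∀ y ∈ A, ∑ g, f (ρ g x) * f (ρ g y) = 0) → ∀ g, f (ρ g x) = 0) ∧
      OrthQ ρ (A ⊓ ⨅ g, LinearMap.ker (f ∘ₗ ρ g)) ⊥ := by
  obtain ⟨b, hb⟩ := h
  have a := mt (avg ρ hG h2 hA hf hb) hne
  push Not at a
  obtain ⟨f, x0, hx0, y0, hy0, h0⟩ := a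
  let R : Submodule k H := A ⊓ ⨅ y : A, LinearMap.ker ((sqf ρ f).flip y)
  have mR : ∀ x, x ∈ R ↔ x ∈ A ∧ ∀ y ∈ A, sqf ρ f x y = 0 := fun x => by simp [R]
  obtain ⟨π, p1, p2, p3⟩ := proj ρ hG (B := R) fun g x hx => (mR _).2
    ⟨hA g x ((mR x).1 hx).1, fun y hy => by
      rw [← act_inv ρ g y, sqf_act, ((mR x).1 hx).2 _ (hA g⁻¹ y hy)]⟩
  set f' := f ∘ₗ (LinearMap.id - π) with hf'
  have e0 : ∀ g x, f' (ρ g x) = f (ρ g (x - π x)) := fun g x => by
    rw [map_sub (ρ g), ← p3]; rfl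
  have e : ∀ x ∈ A, ∀ y ∈ A, sqf ρ f' x y = sqf ρ f x y := fun x hx y hy => by
    have e1 : sqf ρ f' x y = sqf ρ f (x - π x) (y - π y) := by simp only [sqf_apply, e0]
    rw [e1, map_sub (sqf ρ f _), sqf_comm ρ f _ (π y),
      ((mR _).1 (p1 y)).2 _ (sub_mem hx ((mR _).1 (p1 x)).1), sub_zero, map_sub,
      LinearMap.sub_apply, ((mR _).1 (p1 x)).2 y hy, sub_zero]
  have c2 : ∀ x ∈ A, (∀ y ∈ A, sqf ρ f' x y = 0) → ∀ g, f' (ρ g x) = 0 := fun x hx h g => by
    rw [e0, p2 x ((mR x).2 ⟨hx, fun y hy => by rw [← e x hx y hy, h y hy]⟩), sub_self, map_zero,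
      map_zero]
  have mW : ∀ x, x ∈ A ⊓ ⨅ g, LinearMap.ker (f' ∘ₗ ρ g) ↔ x ∈ A ∧ ∀ g, f' (ρ g x) = 0 :=
    fun x => by simp
  refine ⟨f', ?_, fun x hx h => c2 x hx fun y hy => (sqf_apply ρ f' x y).trans (h y hy), ?_⟩
  · by_contra hn
    push Not at hn
    refine h0 ?_
    rw [← e x0 hx0 y0 hy0, sqf_apply]
    exact Finset.sum_eq_zero fun g _ => by rw [hn _ (hA g x0 hx0), zero_mul]
  · refine orth_sub ρ hG inf_le_left bot_le hA (fun g x hx => (mW _).2
      ⟨hA g x hx.1, fun h => by rw [act_mul]; exact ((mW x).1 hx).2 _⟩)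
      (fun g x hx => by simp_all) hf ⟨b, hb⟩ ⟨sqf ρ f', fun x _ y _ => sqf_comm ρ f' x y,
        fun g x _ y _ => sqf_act ρ f' g x y, fun x hx =>
          ⟨fun h => (mW x).2 ⟨hx, c2 x hx h⟩, fun h y _ => ?_⟩⟩
    rw [sqf_apply]
    exact Finset.sum_eq_zero fun g _ => by rw [((mW x).1 h).2 g, zero_mul]

end Pool.Agent.MP_14ad9d_nt.Full

end

section

set_option autoImplicit false

namespace Pool.Agent.MP_14ad9d_nt.Full.OrthBAux

variable {k G H : Type} [Field k] [Group G] [AddCommGroup H] [Module k H]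

/-- the sum of squares of a family of functionals -/
noncomputable def sumForm {R M ι : Type} [CommRing R] [AddCommGroup M] [Module R M]
    (s : Finset ι) (φ : ι → M →ₗ[R] R) : M →ₗ[R] M →ₗ[R] R :=
  ∑ i ∈ s, (LinearMap.mul R R).compl₁₂ (φ i) (φ i)

lemma sumForm_apply {R M ι : Type} [CommRing R] [AddCommGroup M] [Module R M]
    (s : Finset ι) (φ : ι → M →ₗ[R] R) (x y : M) :
    sumForm s φ x y = ∑ i ∈ s, φ i x * φ i y := by
  simp [sumForm, LinearMap.sum_apply]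

lemma rep_inv (ρ : Representation k G H) (g : G) (x : H) : ρ g (ρ g⁻¹ x) = x := by
  rw [← Module.End.mul_apply, ← map_mul, mul_inv_cancel, map_one, Module.End.one_apply]

lemma rep_mul (ρ : Representation k G H) (g h : G) (x : H) : ρ g (ρ h x) = ρ (g * h) x := by
  rw [← Module.End.mul_apply, ← map_mul]

lemma stab_sup {ρ : Representation k G H} {A B : Submodule k H} (hA : Stab ρ A)
    (hB : Stab ρ B) : Stab ρ (A ⊔ B) := by
  intro g x hx
  obtain ⟨a, ha, b, hb, rfl⟩ := Submodule.mem_sup.1 hx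
  rw [map_add]
  exact Submodule.add_mem_sup (hA g a ha) (hB g b hb)

lemma finQ_mono {A A₀ B B₀ : Submodule k H} (hA : A ≤ A₀) (hB : B₀ ≤ B) (h : FinQ A₀ B₀) :
    FinQ A B := by
  obtain ⟨s, hs⟩ := h
  exact ⟨s, hA.trans (hs.trans (sup_le_sup_right hB _))⟩

variable {H' : Type} [AddCommGroup H'] [Module k H']

lemma prod_apply (ρ : Representation k G H) (σ : Representation k G H') (g : G) (x : H × H') :
    ρ.prod σ g x = (ρ g x.1, σ g x.2) := rfl

lemma stab_prod {ρ : Representation k G H} {σ : Representation k G H'} {A : Submodule k H}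
    {A' : Submodule k H'} (hA : Stab ρ A) (hA' : Stab σ A') : Stab (ρ.prod σ) (A.prod A') :=
  fun g _ hx => ⟨hA g _ hx.1, hA' g _ hx.2⟩

lemma finQ_prod {A B : Submodule k H} {A' B' : Submodule k H'} (h : FinQ A B)
    (h' : FinQ A' B') : FinQ (A.prod A') (B.prod B') := by
  classical
  obtain ⟨s, hs⟩ := h
  obtain ⟨s', hs'⟩ := h'
  refine ⟨s.image (LinearMap.inl k H H') ∪ s'.image (LinearMap.inr k H H'), ?_⟩
  rintro ⟨x, x'⟩ ⟨hx, hx'⟩
  obtain ⟨b, hb, u, hu, rfl⟩ := Submodule.mem_sup.1 (hs hx)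
  obtain ⟨b', hb', u', hu', rfl⟩ := Submodule.mem_sup.1 (hs' hx')
  have e : ((b + u, b' + u') : H × H') =
      (b, b') + (LinearMap.inl k H H' u + LinearMap.inr k H H' u') := by simp
  rw [e]
  refine Submodule.add_mem_sup ⟨hb, hb'⟩ (Submodule.add_mem _ ?_ ?_)
  · have := Submodule.mem_map_of_mem (f := LinearMap.inl k H H') hu
    rw [Submodule.map_span] at this
    refine Submodule.span_mono ?_ this
    rw [Finset.coe_union, Finset.coe_image]
    exact Set.subset_union_left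
  · have := Submodule.mem_map_of_mem (f := LinearMap.inr k H H') hu'
    rw [Submodule.map_span] at this
    refine Submodule.span_mono ?_ this
    rw [Finset.coe_union, Finset.coe_image, Finset.coe_image]
    exact Set.subset_union_right

lemma orth_prod {ρ : Representation k G H} {σ : Representation k G H'} {A B : Submodule k H}
    {A' B' : Submodule k H'} (h : OrthQ ρ A B) (h' : OrthQ σ A' B') :
    OrthQ (ρ.prod σ) (A.prod A') (B.prod B') := by
  obtain ⟨b, s1, i1, r1⟩ := h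
  obtain ⟨b', s2, i2, r2⟩ := h'
  refine ⟨b.compl₁₂ (LinearMap.fst k H H') (LinearMap.fst k H H') +
    b'.compl₁₂ (LinearMap.snd k H H') (LinearMap.snd k H H'), ?_, ?_, ?_⟩
  · intro x hx y hy
    simp only [LinearMap.add_apply, LinearMap.compl₁₂_apply, LinearMap.fst_apply,
      LinearMap.snd_apply]
    rw [s1 _ hx.1 _ hy.1, s2 _ hx.2 _ hy.2]
  · intro g x hx y hy
    simp only [LinearMap.add_apply, LinearMap.compl₁₂_apply, LinearMap.fst_apply,
      LinearMap.snd_apply, prod_apply]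
    rw [i1 g _ hx.1 _ hy.1, i2 g _ hx.2 _ hy.2]
  · intro x hx
    simp only [LinearMap.add_apply, LinearMap.compl₁₂_apply, LinearMap.fst_apply,
      LinearMap.snd_apply]
    constructor
    · intro h
      refine ⟨(r1 _ hx.1).1 fun y hy => ?_, (r2 _ hx.2).1 fun y hy => ?_⟩
      · simpa using h (y, 0) ⟨hy, A'.zero_mem⟩
      · simpa using h (0, y) ⟨A.zero_mem, hy⟩
    · intro h y hy
      rw [(r1 _ hx.1).2 h.1 _ hy.1, (r2 _ hx.2).2 h.2 _ hy.2, add_zero]

/-- transport of an orthogonal structure along a map that is an equivariant isomorphism of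
subquotients -/
lemma orth_pull {ρ : Representation k G H} {σ : Representation k G H'} {A B : Submodule k H}
    {A' B' : Submodule k H'} (T : H →ₗ[k] H') (hA : Stab ρ A) (hA' : Stab σ A')
    (hBA' : B' ≤ A') (hT : ∀ x ∈ A, T x ∈ A')
    (hsurj : ∀ y ∈ A', ∃ x ∈ A, y - T x ∈ B')
    (heq : ∀ g, ∀ x ∈ A, T (ρ g x) - σ g (T x) ∈ B')
    (hker : ∀ x ∈ A, T x ∈ B' ↔ x ∈ B) (h : OrthQ σ A' B') : OrthQ ρ A B := by
  obtain ⟨b, s1, i1, r1⟩ := h
  have hl : ∀ n ∈ B', ∀ y ∈ A', b n y = 0 := fun n hn => (r1 n (hBA' hn)).2 hn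
  have hr : ∀ n ∈ B', ∀ y ∈ A', b y n = 0 := fun n hn y hy => by
    rw [s1 y hy n (hBA' hn)]; exact hl n hn y hy
  refine ⟨b.compl₁₂ T T, ?_, ?_, ?_⟩
  · intro x hx y hy
    simp only [LinearMap.compl₁₂_apply]
    exact s1 _ (hT x hx) _ (hT y hy)
  · intro g x hx y hy
    simp only [LinearMap.compl₁₂_apply]
    have e1 : T (ρ g x) = (T (ρ g x) - σ g (T x)) + σ g (T x) := by abel
    have e2 : T (ρ g y) = (T (ρ g y) - σ g (T y)) + σ g (T y) := by abel
    rw [e1, map_add, LinearMap.add_apply, hl _ (heq g x hx) _ (hT _ (hA g y hy)), zero_add, e2,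
      map_add, hr _ (heq g y hy) _ (hA' g _ (hT x hx)), zero_add]
    exact i1 g _ (hT x hx) _ (hT y hy)
  · intro x hx
    simp only [LinearMap.compl₁₂_apply]
    rw [← hker x hx, ← r1 _ (hT x hx)]
    constructor
    · intro h y hy
      obtain ⟨z, hz, hyz⟩ := hsurj y hy
      have e : y = (y - T z) + T z := by abel
      rw [e, map_add, hr _ hyz _ (hT x hx), zero_add]
      exact h z hz
    · intro h y hy
      exact h _ (hT y hy)

/-- an equivariant projection onto a stable subspace -/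
lemma exists_proj [Fintype G] (ρ : Representation k G H) (hG : (Fintype.card G : k) ≠ 0)
    {I : Submodule k H} (hI : Stab ρ I) :
    ∃ P : H →ₗ[k] H, (∀ x, P x ∈ I) ∧ (∀ x ∈ I, P x = x) ∧ ∀ g x, P (ρ g x) = ρ g (P x) := by
  obtain ⟨J, hJ⟩ := I.exists_isCompl
  set p := I.projection J hJ with hp
  refine ⟨(Fintype.card G : k)⁻¹ • ∑ g, (ρ g) ∘ₗ p ∘ₗ (ρ g⁻¹), ?_, ?_, ?_⟩
  · intro x
    simp only [LinearMap.smul_apply, LinearMap.sum_apply, LinearMap.comp_apply]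
    exact I.smul_mem _ (I.sum_mem fun g _ => hI g _ (Submodule.projection_apply_mem hJ _))
  · intro x hx
    simp only [LinearMap.smul_apply, LinearMap.sum_apply, LinearMap.comp_apply]
    have : ∀ g : G, ρ g (p (ρ g⁻¹ x)) = x := fun g => by
      rw [hp, Submodule.projection_apply_of_mem_left hJ (hI _ x hx), rep_inv]
    simp only [this, Finset.sum_const, Finset.card_univ]
    rw [← Nat.cast_smul_eq_nsmul k, smul_smul, inv_mul_cancel₀ hG, one_smul]
  · intro h x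
    simp only [LinearMap.smul_apply, LinearMap.sum_apply, LinearMap.comp_apply, map_smul,
      map_sum]
    congr 1
    refine (Fintype.sum_equiv (Equiv.mulLeft h) _ _ fun g => ?_).symm
    simp only [Equiv.coe_mulLeft, rep_mul]
    rw [mul_inv_rev, inv_mul_cancel_right]

/-- separation of two subspaces meeting inside `N` -/
lemma exists_sep {N Vp Vm : Submodule k H} (hNp : N ≤ Vp) (hNm : N ≤ Vm) (hpm : Vp ⊓ Vm ≤ N) :
    ∃ q : H →ₗ[k] H, (∀ x ∈ Vp, q x = x) ∧ ∀ y ∈ Vm, q y ∈ N := by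
  obtain ⟨Y, hY, hYs⟩ := IsModularLattice.exists_disjoint_and_sup_eq hNm
  have hYm : Y ≤ Vm := hYs ▸ le_sup_right
  have hd : Disjoint Y Vp := by
    rw [Submodule.disjoint_def]
    intro y hy hyp
    exact (Submodule.disjoint_def.1 hY) y (hpm ⟨hyp, hYm hy⟩) hy
  obtain ⟨K, hYK, hK⟩ := hd.exists_isCompl
  refine ⟨Vp.projection K hK.symm, fun x hx => Submodule.projection_apply_of_mem_left _ hx,
    fun y hy => ?_⟩
  rw [← hYs] at hy
  obtain ⟨n, hn, z, hz, rfl⟩ := Submodule.mem_sup.1 hy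
  rw [map_add, Submodule.projection_apply_of_mem_left _ (hNp hn),
    Submodule.projection_apply_of_mem_right _ (hYK hz), add_zero]
  exact hn

/-- every functional on `Vp` killing `N` is represented by an element of `Vm` -/
lemma exists_rep {N Vp Vm : Submodule k H} (B : H →ₗ[k] H →ₗ[k] k) (hfm : FinQ Vm N)
    (h1 : ∀ x ∈ Vp, (∀ y ∈ Vm, B x y = 0) → x ∈ N) (h2 : ∀ y ∈ N, ∀ x ∈ Vp, B x y = 0)
    (f : H →ₗ[k] k) (hf : ∀ x ∈ N, f x = 0) : ∃ y ∈ Vm, ∀ x ∈ Vp, B x y = f x := by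
  classical
  let Φ : H →ₗ[k] Module.Dual k Vp := (B.domRestrict Vp).flip
  have hΦ : ∀ y (x : Vp), Φ y x = B x y := fun y x => rfl
  obtain ⟨s, hs⟩ := hfm
  have hle : Vm.map Φ ≤ Submodule.span k (s.image Φ : Set (Module.Dual k Vp)) := by
    rintro _ ⟨y, hy, rfl⟩
    obtain ⟨n, hn, u, hu, rfl⟩ := Submodule.mem_sup.1 (hs hy)
    have : Φ n = 0 := by ext x; exact h2 n hn x x.2
    rw [map_add, this, zero_add, Finset.coe_image, ← Submodule.map_span]
    exact Submodule.mem_map_of_mem hu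
  have : FiniteDimensional k (Vm.map Φ) := Submodule.finiteDimensional_of_le hle
  have hmem : f.domRestrict Vp ∈ Vm.map Φ := by
    rw [← Subspace.dualCoannihilator_dualAnnihilator_eq (W := Vm.map Φ),
      Submodule.mem_dualAnnihilator]
    intro x hx
    rw [Submodule.mem_dualCoannihilator] at hx
    exact hf x (h1 x x.2 fun y hy => hx (Φ y) ⟨y, hy, rfl⟩)
  obtain ⟨y, hy, e⟩ := hmem
  exact ⟨y, hy, fun x hx => by
    have := congrArg (fun F : Module.Dual k Vp => F ⟨x, hx⟩) e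
    exact this⟩

/-- the hyperbolic form on a quotient of `Vp` and its dual -/
lemma orth_hyp (ρ : Representation k G H) {N Vp Vm I Xm : Submodule k H}
    (B : H →ₗ[k] H →ₗ[k] k) (hB : ∀ g x y, B (ρ g x) (ρ g y) = B x y) (hNI : N ≤ I)
    (hIV : I ≤ Vp) (hNm : N ≤ Vm) (hfm : FinQ Vm N)
    (h1 : ∀ x ∈ Vp, (∀ y ∈ Vm, B x y = 0) ↔ x ∈ N)
    (h2 : ∀ y ∈ Vm, (∀ x ∈ Vp, B x y = 0) ↔ y ∈ N)
    (hX : ∀ y, y ∈ Xm ↔ y ∈ Vm ∧ ∀ x ∈ I, B x y = 0) :
    OrthQ (ρ.prod ρ) (Vp.prod Xm) (I.prod N) := by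
  refine ⟨B.compl₁₂ (LinearMap.fst k H H) (LinearMap.snd k H H) +
    B.flip.compl₁₂ (LinearMap.snd k H H) (LinearMap.fst k H H), ?_, ?_, ?_⟩
  · intro x _ y _
    simp only [LinearMap.add_apply, LinearMap.compl₁₂_apply, LinearMap.fst_apply,
      LinearMap.snd_apply, LinearMap.flip_apply]
    ring
  · intro g x _ y _
    simp only [LinearMap.add_apply, LinearMap.compl₁₂_apply, LinearMap.fst_apply,
      LinearMap.snd_apply, LinearMap.flip_apply, prod_apply, hB]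
  · intro x hx
    simp only [LinearMap.add_apply, LinearMap.compl₁₂_apply, LinearMap.fst_apply,
      LinearMap.snd_apply, LinearMap.flip_apply]
    constructor
    · intro h
      refine ⟨?_, (h2 _ ((hX _).1 hx.2).1).1 fun c hc => ?_⟩
      · by_contra hc
        obtain ⟨f, hf, hfI⟩ := Submodule.exists_le_ker_of_notMem hc
        obtain ⟨y, hy, e⟩ := exists_rep B hfm (fun x hx => (h1 x hx).1)
          (fun y hy => (h2 y (hNm hy)).2 hy) f fun x hx => hfI (hNI hx)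
        have hyX : y ∈ Xm := (hX y).2 ⟨hy, fun c hc => by rw [e c (hIV hc)]; exact hfI hc⟩
        have := h (0, y) ⟨Vp.zero_mem, hyX⟩
        simp only [map_zero, LinearMap.zero_apply, add_zero] at this
        exact hf (by rw [← e _ hx.1]; exact this)
      · simpa using h (c, 0) ⟨hc, Xm.zero_mem⟩
    · intro h y hy
      rw [((hX _).1 hy.2).2 _ h.1, (h2 _ (hNm h.2)).2 h.2 _ hy.1, add_zero]

end Pool.Agent.MP_14ad9d_nt.Full.OrthBAux

end

section

set_option autoImplicit false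

namespace Pool.Agent.MP_14ad9d_nt.Full.OrthBAux

section Lattice

variable {M : Type} [AddCommGroup M]

/-- the sublattice of vectors whose pairing with everything is divisible by `c` -/
def latt (b : M →ₗ[ℤ] M →ₗ[ℤ] ℤ) (c : ℤ) : Submodule ℤ M where
  carrier := {x | ∀ y, c ∣ b x y}
  add_mem' := fun {x x'} hx hx' y => by
    rw [map_add, LinearMap.add_apply]; exact dvd_add (hx y) (hx' y)
  zero_mem' := fun y => by simp
  smul_mem' := fun r x hx y => by
    rw [map_smul, LinearMap.smul_apply]; exact Dvd.dvd.mul_left (hx y) r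

lemma mem_latt {b : M →ₗ[ℤ] M →ₗ[ℤ] ℤ} {c : ℤ} {x : M} : x ∈ latt b c ↔ ∀ y, c ∣ b x y :=
  Iff.rfl

lemma exists_div {E : Type} [AddCommGroup E] (χ : E →ₗ[ℤ] ℤ) {c : ℤ} (hc : c ≠ 0)
    (h : ∀ e, c ∣ χ e) : ∃ ψ : E →ₗ[ℤ] ℤ, ∀ e, χ e = c * ψ e := by
  choose s hs using h
  refine ⟨(AddMonoidHom.mk' s fun e e' => ?_).toIntLinearMap, hs⟩
  apply mul_left_cancel₀ hc
  rw [← hs, map_add, hs, hs, mul_add]

/-- the key duality step -/
lemma latt_key [Module.Finite ℤ M] [Module.Free ℤ M] (b : M →ₗ[ℤ] M →ₗ[ℤ] ℤ)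
    (hs : ∀ x y, b x y = b y x) {c l : ℤ} (hc : c ≠ 0) (hl : l ≠ 0) {x : M}
    (hx : ∀ y ∈ latt b c, c * l ∣ b x y) : ∃ z : M, x - l • z ∈ latt b (c * l) := by
  let T : (M × Module.Dual ℤ M) →ₗ[ℤ] Module.Dual ℤ M :=
    b ∘ₗ LinearMap.fst ℤ M _ - c • LinearMap.snd ℤ M _
  have hT : ∀ e, T e = b e.1 - c • e.2 := fun e => rfl
  obtain ⟨σ, hσ⟩ := T.rangeRestrict.exists_rightInverse_of_surjective
    (LinearMap.range_rangeRestrict T)
  let r : (M × Module.Dual ℤ M) →ₗ[ℤ] (M × Module.Dual ℤ M) :=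
    LinearMap.id - σ ∘ₗ T.rangeRestrict
  have hr : ∀ e, r e = e - σ (T.rangeRestrict e) := fun e => rfl
  have hrK : ∀ e, T (r e) = 0 := fun e => by
    have h1 : T.rangeRestrict (σ (T.rangeRestrict e)) = T.rangeRestrict e :=
      LinearMap.congr_fun hσ _
    have h2 : T (σ (T.rangeRestrict e)) = T e := congrArg Subtype.val h1
    rw [hr, map_sub, h2, sub_self]
  have hKr : ∀ e, T e = 0 → r e = e := fun e he => by
    have : T.rangeRestrict e = 0 := Subtype.ext he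
    rw [hr, this, map_zero, sub_zero]
  have hK : ∀ e, T e = 0 → e.1 ∈ latt b c := fun e he y => by
    rw [hT, sub_eq_zero] at he
    rw [he]
    exact Dvd.intro _ rfl
  obtain ⟨ψ, hψ⟩ := exists_div (b x ∘ₗ LinearMap.fst ℤ M _ ∘ₗ r) (mul_ne_zero hc hl)
    fun e => hx _ (hK _ (hrK e))
  obtain ⟨z, hz⟩ := (Module.evalEquiv ℤ M).surjective (ψ ∘ₗ LinearMap.inr ℤ M _)
  have hz' : ∀ f : Module.Dual ℤ M, ψ (0, f) = f z := fun f => by
    have := LinearMap.congr_fun hz f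
    simpa using this.symm
  refine ⟨z, fun y => ⟨ψ (y, 0), ?_⟩⟩
  have he : T (c • y, b y) = 0 := by rw [hT]; simp
  have h1 := hψ (c • y, b y)
  simp only [LinearMap.comp_apply, hKr _ he, LinearMap.fst_apply, map_smul, smul_eq_mul] at h1
  have h2 : ((c • y, b y) : M × Module.Dual ℤ M) = c • (y, 0) + (0, b y) := by simp
  rw [h2, map_add, map_smul, hz', smul_eq_mul] at h1
  have h3 : b x y = l * (c * ψ (y, 0) + b y z) := by
    apply mul_left_cancel₀ hc
    rw [h1]; ring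
  rw [map_sub, map_smul, LinearMap.sub_apply, LinearMap.smul_apply, smul_eq_mul, h3, hs z y]
  ring

/-- deep sublattices lie in `l M` -/
lemma latt_deep [Module.Finite ℤ M] [Module.Free ℤ M] (b : M →ₗ[ℤ] M →ₗ[ℤ] ℤ)
    (hb : ∀ x, b x x = 0 → x = 0) {l : ℕ} (hl : l.Prime) :
    ∃ J : ℕ, ∀ x ∈ latt b ((l : ℤ) ^ J), ∃ z : M, x = (l : ℤ) • z := by
  classical
  let e := Module.Free.chooseBasis ℤ M
  let Γ : Matrix _ _ ℤ := Matrix.of fun i j => b (e j) (e i)
  have hΓ : ∀ (x : M) i, (Γ.mulVec (e.repr x)) i = b x (e i) := fun x i => by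
    conv_rhs => rw [← e.sum_repr x]
    simp only [Γ, Matrix.mulVec, dotProduct, Matrix.of_apply, map_sum, map_smul,
      LinearMap.sum_apply, LinearMap.smul_apply, smul_eq_mul]
    exact Finset.sum_congr rfl fun j _ => mul_comm _ _
  have hdet : Γ.det ≠ 0 := by
    intro h0
    obtain ⟨v, hv, hv0⟩ := Matrix.exists_mulVec_eq_zero_iff.2 h0
    let x : M := e.equivFun.symm v
    have hxv : (e.repr x : _ → ℤ) = v := by
      have : e.equivFun x = v := e.equivFun.apply_symm_apply v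
      rw [← this]; rfl
    have hx0 : ∀ i, b x (e i) = 0 := fun i => by rw [← hΓ, hxv, hv0]; rfl
    have : b x = 0 := e.ext hx0
    have hx : x = 0 := hb x (by rw [this]; rfl)
    apply hv
    rw [← hxv, hx]; simp
  refine ⟨Γ.det.natAbs, fun x hx => ?_⟩
  have hlp : Prime (l : ℤ) := Nat.prime_iff_prime_int.1 hl
  have hdiv : ∀ i, (l : ℤ) ∣ e.repr x i := fun i => by
    by_contra hn
    have h1 : (l : ℤ) ^ Γ.det.natAbs ∣ Γ.det * e.repr x i := by
      have h2 : (Γ.adjugate.mulVec (Γ.mulVec (e.repr x))) i = Γ.det * e.repr x i := by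
        rw [Matrix.mulVec_mulVec, Matrix.adjugate_mul, Matrix.smul_mulVec, Matrix.one_mulVec]
        rfl
      rw [← h2]
      simp only [Matrix.mulVec, dotProduct] at hΓ ⊢
      refine Finset.dvd_sum fun j _ => Dvd.dvd.mul_left ?_ _
      rw [hΓ]
      exact hx _
    have h3 : (l : ℤ) ^ Γ.det.natAbs ∣ Γ.det :=
      (hlp.pow_dvd_of_dvd_mul_right _ hn h1)
    have h4 := Int.natAbs_le_of_dvd_ne_zero h3 hdet
    rw [Int.natAbs_pow, Int.natAbs_natCast] at h4
    exact absurd (Nat.lt_pow_self hl.one_lt) (not_lt.2 h4)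
  choose w hw using hdiv
  refine ⟨∑ i, w i • e i, ?_⟩
  conv_lhs => rw [← e.sum_repr x]
  rw [Finset.smul_sum]
  exact Finset.sum_congr rfl fun i _ => by rw [hw, mul_smul]

end Lattice

section Red

variable {l : ℕ} [Fact l.Prime] {H : Type} [AddCommGroup H] [Module (ZMod l) H]

lemma mem_span_image {M : Type} [AddCommGroup M] (φ : M →+ H) (S : Submodule ℤ M) {h : H} :
    h ∈ Submodule.span (ZMod l) (φ '' S) ↔ ∃ x ∈ S, φ x = h := by
  constructor
  · intro hh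
    induction hh using Submodule.span_induction with
    | mem x hx => exact hx
    | zero => exact ⟨0, S.zero_mem, map_zero φ⟩
    | add x y _ _ hx hy =>
      obtain ⟨x, hx, rfl⟩ := hx
      obtain ⟨y, hy, rfl⟩ := hy
      exact ⟨x + y, S.add_mem hx hy, map_add φ x y⟩
    | smul r x _ hx =>
      obtain ⟨x, hx, rfl⟩ := hx
      refine ⟨r.val • x, S.smul_of_tower_mem _ hx, ?_⟩
      rw [map_nsmul, ← Nat.cast_smul_eq_nsmul (ZMod l), ZMod.natCast_zmod_val]
  · rintro ⟨x, hx, rfl⟩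
    exact Submodule.subset_span ⟨x, hx, rfl⟩

/-- extension of a form given on a lattice -/
lemma ext_form {M : Type} [AddCommGroup M] (φ : M →+ H) (S : Submodule ℤ M)
    (c : M → M → ZMod l) (hsym : ∀ x ∈ S, ∀ y ∈ S, c x y = c y x)
    (hadd : ∀ x ∈ S, ∀ x' ∈ S, ∀ y ∈ S, c (x + x') y = c x y + c x' y)
    (h0 : ∀ x ∈ S, ∀ y ∈ S, φ x = 0 → c x y = 0) :
    ∃ b : H →ₗ[ZMod l] H →ₗ[ZMod l] ZMod l, ∀ x ∈ S, ∀ y ∈ S, b (φ x) (φ y) = c x y := by
  set A := Submodule.span (ZMod l) (φ '' S) with hA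
  have hex : ∀ a : A, ∃ x ∈ S, φ x = a := fun a => (mem_span_image φ S).1 a.2
  choose s hsS hs using hex
  have hcongr : ∀ x ∈ S, ∀ x' ∈ S, ∀ y ∈ S, φ x = φ x' → c x y = c x' y := by
    intro x hx x' hx' y hy e
    have h1 := hadd (x - x') (S.sub_mem hx hx') x' hx' y hy
    rw [sub_add_cancel, h0 _ (S.sub_mem hx hx') y hy (by rw [map_sub, e, sub_self]),
      zero_add] at h1
    exact h1
  have hadd' : ∀ a a' a'' : A, c (s (a + a')) (s a'') = c (s a) (s a'') + c (s a') (s a'') := by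
    intro a a' a''
    rw [← hadd _ (hsS a) _ (hsS a') _ (hsS a'')]
    refine hcongr _ (hsS _) _ (S.add_mem (hsS a) (hsS a')) _ (hsS _) ?_
    rw [map_add, hs, hs, hs]; rfl
  have hsmul : ∀ (r : ZMod l) (a a'' : A), c (s (r • a)) (s a'') = r • c (s a) (s a'') := by
    intro r a a''
    exact (AddMonoidHom.mk' (fun a : A => c (s a) (s a'')) fun a a' => hadd' a a' a'')
      |>.toZModLinearMap l |>.map_smul r a
  let c' : A →ₗ[ZMod l] A →ₗ[ZMod l] ZMod l :=
    LinearMap.mk₂ (ZMod l) (fun a a' => c (s a) (s a')) hadd' hsmul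
      (fun a a' a'' => by
        rw [hsym _ (hsS a) _ (hsS _), hadd', hsym _ (hsS a') _ (hsS a),
          hsym _ (hsS a'') _ (hsS a)])
      (fun r a a' => by
        rw [hsym _ (hsS a) _ (hsS _), hsmul, hsym _ (hsS a') _ (hsS a)])
  obtain ⟨K, hK⟩ := A.exists_isCompl
  let p := A.projectionOnto K hK
  refine ⟨c'.compl₁₂ p p, fun x hx y hy => ?_⟩
  have hxA : φ x ∈ A := (mem_span_image φ S).2 ⟨x, hx, rfl⟩
  have hyA : φ y ∈ A := (mem_span_image φ S).2 ⟨y, hy, rfl⟩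
  have ex : φ (s (p (φ x))) = φ x := by
    rw [hs, Submodule.projectionOnto_apply_of_mem_left hK hxA]
  have ey : φ (s (p (φ y))) = φ y := by
    rw [hs, Submodule.projectionOnto_apply_of_mem_left hK hyA]
  show c (s (p (φ x))) (s (p (φ y))) = c x y
  rw [hcongr _ (hsS _) x hx _ (hsS _) ex, hsym x hx _ (hsS _), hcongr _ (hsS _) y hy x hx ey,
    hsym y hy x hx]

lemma phi_smul_l {M : Type} [AddCommGroup M] (φ : M →+ H) (z : M) : φ ((l : ℤ) • z) = 0 := by
  rw [map_zsmul, ← Int.cast_smul_eq_zsmul (ZMod l)]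
  simp

variable {G : Type} [Group G]

/-- one step of the filtration -/
lemma orth_step (ρ : Representation (ZMod l) G H) {M : Type} [AddCommGroup M]
    [Module.Finite ℤ M] [Module.Free ℤ M] (τ : Representation ℤ G M) (φ : M →+ H)
    (hφ : ∀ g x, φ (τ g x) = ρ g (φ x)) (hker : ∀ x, φ x = 0 → ∃ y, x = l • y)
    (b : M →ₗ[ℤ] M →ₗ[ℤ] ℤ) (hs : ∀ x y, b x y = b y x)
    (hi : ∀ g x y, b (τ g x) (τ g y) = b x y) {c : ℤ} (hc : c ≠ 0)
    (hst : ∀ g, ∀ x ∈ latt b c, τ g x ∈ latt b c) :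
    OrthQ ρ (Submodule.span (ZMod l) (φ '' latt b c))
      (Submodule.span (ZMod l) (φ '' latt b (c * l))) := by
  have hl : (l : ℤ) ≠ 0 := by exact_mod_cast (Fact.out : l.Prime).ne_zero
  have hz : ∀ x ∈ latt b c, ∀ y, ((b x y / c : ℤ) : ZMod l) = 0 ↔ c * l ∣ b x y := by
    intro x hx y
    obtain ⟨t, ht⟩ := hx y
    rw [ht, Int.mul_ediv_cancel_left _ hc, ZMod.intCast_zmod_eq_zero_iff_dvd,
      mul_dvd_mul_iff_left hc]
  have hrad : ∀ x ∈ latt b (c * l), ∀ z : M, ∀ y ∈ latt b c, c * l ∣ b (x + l • z) y := by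
    intro x hx z y hy
    rw [map_add, LinearMap.add_apply, map_nsmul, LinearMap.smul_apply, hs z y]
    refine dvd_add (hx y) ?_
    rw [nsmul_eq_mul, mul_comm]
    exact mul_dvd_mul_left _ (hy z)
  obtain ⟨β, hβ⟩ := ext_form φ (latt b c) (fun x y => ((b x y / c : ℤ) : ZMod l))
    (fun x _ y _ => by rw [hs])
    (fun x hx x' _ y _ => by
      rw [map_add, LinearMap.add_apply, Int.add_ediv_of_dvd_left (hx y), Int.cast_add])
    (fun x hx y hy h0 => by
      obtain ⟨z, rfl⟩ := hker x h0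
      rw [hz _ hx]
      simpa using hrad 0 (latt b (c * l)).zero_mem z y hy)
  refine ⟨β, ?_, ?_, ?_⟩
  · intro u hu v hv
    obtain ⟨x, hx, rfl⟩ := (mem_span_image φ _).1 hu
    obtain ⟨y, hy, rfl⟩ := (mem_span_image φ _).1 hv
    rw [hβ x hx y hy, hβ y hy x hx, hs]
  · intro g u hu v hv
    obtain ⟨x, hx, rfl⟩ := (mem_span_image φ _).1 hu
    obtain ⟨y, hy, rfl⟩ := (mem_span_image φ _).1 hv
    rw [← hφ, ← hφ, hβ _ (hst g x hx) _ (hst g y hy), hβ x hx y hy, hi]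
  · intro u hu
    obtain ⟨x, hx, rfl⟩ := (mem_span_image φ _).1 hu
    constructor
    · intro h
      obtain ⟨z, hz'⟩ := latt_key b hs hc hl (x := x) fun y hy => by
        rw [← hz x hx, ← hβ x hx y hy]
        exact h _ ((mem_span_image φ _).2 ⟨y, hy, rfl⟩)
      refine (mem_span_image φ _).2 ⟨_, hz', ?_⟩
      rw [map_sub, phi_smul_l, sub_zero]
    · intro h v hv
      obtain ⟨y, hy, rfl⟩ := (mem_span_image φ _).1 hv
      obtain ⟨x', hx', e⟩ := (mem_span_image φ _).1 h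
      obtain ⟨z, hz'⟩ := hker (x - x') (by rw [map_sub, e, sub_self])
      rw [hβ x hx y hy, hz x hx]
      have : x = x' + l • z := by rw [← hz']; abel
      rw [this]
      exact hrad x' hx' z y hy

/-- the reduction of a free lattice is orthogonal -/
lemma orth_lat_free [Fintype G] (ρ : Representation (ZMod l) G H)
    (hG : (Fintype.card G : ZMod l) ≠ 0) {M : Type} [AddCommGroup M]
    [Module.Finite ℤ M] [Module.Free ℤ M] (τ : Representation ℤ G M) (φ : M →+ H)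
    (hφ : ∀ g x, φ (τ g x) = ρ g (φ x)) (hker : ∀ x, φ x = 0 → ∃ y, x = l • y) :
    OrthQ ρ (Submodule.span (ZMod l) (Set.range φ)) ⊥ := by
  classical
  have hl : (l : ℤ) ≠ 0 := by exact_mod_cast (Fact.out : l.Prime).ne_zero
  let e := Module.Free.chooseBasis ℤ M
  let b : M →ₗ[ℤ] M →ₗ[ℤ] ℤ :=
    sumForm Finset.univ fun p : G × Module.Free.ChooseBasisIndex ℤ M => e.coord p.2 ∘ₗ τ p.1
  have hb : ∀ x y, b x y = ∑ g, ∑ i, e.coord i (τ g x) * e.coord i (τ g y) := fun x y => by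
    simp only [b, sumForm_apply, Fintype.sum_prod_type, LinearMap.comp_apply]
  have hs : ∀ x y, b x y = b y x := fun x y => by
    simp only [hb, mul_comm]
  have hmul : ∀ g h x, τ g (τ h x) = τ (g * h) x := fun g h x => by
    rw [← Module.End.mul_apply, ← map_mul]
  have hi : ∀ g x y, b (τ g x) (τ g y) = b x y := fun g x y => by
    simp only [hb, hmul]
    exact Fintype.sum_equiv (Equiv.mulRight g) _ _ fun h => rfl
  have hpos : ∀ x, b x x = 0 → x = 0 := fun x hx => by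
    rw [hb, Finset.sum_eq_zero_iff_of_nonneg
      fun g _ => Finset.sum_nonneg fun i _ => mul_self_nonneg _] at hx
    have h1 := hx 1 (Finset.mem_univ _)
    rw [Finset.sum_eq_zero_iff_of_nonneg fun i _ => mul_self_nonneg _] at h1
    refine e.ext_elem fun i => ?_
    have h2 := mul_self_eq_zero.1 (h1 i (Finset.mem_univ _))
    simpa using h2
  have hst : ∀ c g, ∀ x ∈ latt b c, τ g x ∈ latt b c := fun c g x hx y => by
    have : y = τ g (τ g⁻¹ y) := by rw [hmul, mul_inv_cancel, map_one, Module.End.one_apply]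
    rw [this, hi]
    exact hx _
  let A : ℕ → Submodule (ZMod l) H := fun j =>
    Submodule.span (ZMod l) (φ '' latt b ((l : ℤ) ^ j))
  have hAst : ∀ j, Stab ρ (A j) := fun j g u hu => by
    obtain ⟨x, hx, rfl⟩ := (mem_span_image φ _).1 hu
    exact (mem_span_image φ _).2 ⟨_, hst _ g x hx, hφ g x⟩
  have hAle : ∀ j, A (j + 1) ≤ A j := fun j =>
    Submodule.span_mono (Set.image_mono fun x hx y =>
      (pow_dvd_pow _ (Nat.le_succ j)).trans (hx y))
  have hAfin : ∀ j, FinQ (A j) ⊥ := fun j => by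
    refine ⟨Finset.univ.image fun i => φ (e i), fun u hu => ?_⟩
    obtain ⟨x, -, rfl⟩ := (mem_span_image φ _).1 hu
    rw [bot_sup_eq, ← e.sum_repr x, map_sum]
    refine Submodule.sum_mem _ fun i _ => ?_
    rw [map_zsmul]
    exact Submodule.smul_of_tower_mem _ _ (Submodule.subset_span (by simp))
  obtain ⟨J, hJ⟩ := latt_deep b hpos (Fact.out : l.Prime)
  have hAJ : A J = ⊥ := by
    rw [eq_bot_iff]
    intro u hu
    obtain ⟨x, hx, rfl⟩ := (mem_span_image φ _).1 hu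
    obtain ⟨z, rfl⟩ := hJ x hx
    exact phi_smul_l φ z
  have key : ∀ d j, j + d = J → OrthQ ρ (A j) ⊥ := by
    intro d
    induction d with
    | zero =>
      intro j hj
      rw [add_zero] at hj
      rw [hj, hAJ]
      exact ⟨0, by simp, by simp, by simp⟩
    | succ d ih =>
      intro j hj
      refine orth_ext ρ hG (hAle j) bot_le (hAst j) (hAst _) (fun g x hx => ?_) (hAfin j) ?_
        (ih (j + 1) (by omega))
      · rw [Submodule.mem_bot] at hx ⊢
        rw [hx, map_zero]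
      · have := orth_step ρ τ φ hφ hker b hs hi (pow_ne_zero j hl) (hst _)
        rw [← pow_succ] at this
        exact this
  have h0 : A 0 = Submodule.span (ZMod l) (Set.range φ) := by
    have : ((latt b ((l : ℤ) ^ 0) : Submodule ℤ M) : Set M) = Set.univ := by
      ext x; simp [mem_latt]
    simp only [A, this, Set.image_univ]
  rw [← h0]
  exact key J 0 (zero_add J)

end Red

end Pool.Agent.MP_14ad9d_nt.Full.OrthBAux

end

section

set_option autoImplicit false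

namespace Pool.Agent.MP_14ad9d_nt.Full

open OrthBAux

section

variable {k G H : Type} [Field k] [Group G] [Fintype G] [AddCommGroup H] [Module k H]
  (ρ : Representation k G H)

/-- intersection of two subspaces together with the annihilator of their sum -/
theorem orthX (hG : (Fintype.card G : k) ≠ 0) {N Vp Vm Up Lp Xm : Submodule k H}
    (B : H →ₗ[k] H →ₗ[k] k) (hB : ∀ g x y, B (ρ g x) (ρ g y) = B x y)
    (hN : Stab ρ N) (hVp : Stab ρ Vp) (hVm : Stab ρ Vm) (hUp : Stab ρ Up) (hLp : Stab ρ Lp)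
    (hNU : N ≤ Up) (hNL : N ≤ Lp) (hUV : Up ≤ Vp) (hLV : Lp ≤ Vp) (hNm : N ≤ Vm)
    (hpm : Vp ⊓ Vm ≤ N) (hfp : FinQ Vp N) (hfm : FinQ Vm N)
    (h1 : ∀ x ∈ Vp, (∀ y ∈ Vm, B x y = 0) ↔ x ∈ N)
    (h2 : ∀ y ∈ Vm, (∀ x ∈ Vp, B x y = 0) ↔ y ∈ N)
    (hX : ∀ y, y ∈ Xm ↔ y ∈ Vm ∧ ∀ x ∈ Up ⊔ Lp, B x y = 0)
    (oV : OrthQ ρ Vp N) (oU : OrthQ ρ Up N) (oL : OrthQ ρ Lp N) :
    OrthQ ρ ((Up ⊓ Lp) ⊔ Xm) N := by
  have hI : Stab ρ (Up ⊔ Lp) := stab_sup hUp hLp
  have hIV : Up ⊔ Lp ≤ Vp := sup_le hUV hLV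
  have hNI : N ≤ Up ⊔ Lp := hNU.trans le_sup_left
  have hXm : Stab ρ Xm := fun g y hy => by
    refine (hX _).2 ⟨hVm g y ((hX y).1 hy).1, fun x hx => ?_⟩
    rw [← rep_inv ρ g x, hB]
    exact ((hX y).1 hy).2 _ (hI _ x hx)
  have hXV : Xm ≤ Vm := fun y hy => ((hX y).1 hy).1
  have hNX : N ≤ Xm := fun y hy =>
    (hX y).2 ⟨hNm hy, fun x hx => (h2 y (hNm hy)).2 hy x (hIV hx)⟩
  obtain ⟨P, hP1, hP2, hP3⟩ := exists_proj ρ hG hI
  obtain ⟨q, hq1, hq2⟩ := exists_sep (hNU.trans hUV) hNm hpm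
  let σ := (ρ.prod ρ).prod (ρ.prod ρ)
  let A : Submodule k ((H × H) × (H × H)) := (Up.prod Lp).prod (Vp.prod Xm)
  let C : Submodule k ((H × H) × (H × H)) := (N.prod N).prod ((Up ⊔ Lp).prod N)
  let T : ((H × H) × (H × H)) →ₗ[k] H :=
    LinearMap.fst k H H ∘ₗ LinearMap.fst k _ _ - LinearMap.snd k H H ∘ₗ LinearMap.fst k _ _ +
      (LinearMap.id - P) ∘ₗ LinearMap.fst k H H ∘ₗ LinearMap.snd k _ _
  have hT : ∀ w, T w = w.1.1 - w.1.2 + (w.2.1 - P w.2.1) := fun w => rfl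
  have hTeq : ∀ g w, T (σ g w) = ρ g (T w) := fun g w => by
    simp only [hT, σ, prod_apply, hP3, map_add, map_sub]
  have hA : Stab σ A := stab_prod (stab_prod hUp hLp) (stab_prod hVp hXm)
  have hC : Stab σ C := stab_prod (stab_prod hN hN) (stab_prod hI hN)
  have hB' : Stab σ (A ⊓ N.comap T) := fun g w hw =>
    ⟨hA g w hw.1, by
      have : T w ∈ N := hw.2
      show T (σ g w) ∈ N
      rw [hTeq]; exact hN g _ this⟩
  have hCB : C ≤ A ⊓ N.comap T := fun w hw =>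
    ⟨⟨⟨hNU hw.1.1, hNL hw.1.2⟩, ⟨hIV hw.2.1, hNX hw.2.2⟩⟩, by
      show T w ∈ N
      rw [hT, hP2 _ hw.2.1, sub_self, add_zero]
      exact N.sub_mem hw.1.1 hw.1.2⟩
  have hfin : FinQ A C :=
    finQ_prod (finQ_prod (finQ_mono hUV le_rfl hfp) (finQ_mono hLV le_rfl hfp))
      (finQ_prod (finQ_mono le_rfl hNI hfp) (finQ_mono hXV le_rfl hfm))
  have oAC : OrthQ σ A C :=
    orth_prod (orth_prod oU oL) (orth_hyp ρ B hB hNI hIV hNm hfm h1 h2 hX)
  have oAB : OrthQ σ A (A ⊓ N.comap T) := by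
    refine orth_pull T hA hVp (hNU.trans hUV) (fun w hw => ?_) (fun v hv => ?_)
      (fun g w _ => ?_) (fun w hw => ⟨fun h => ⟨hw, h⟩, fun h => h.2⟩) oV
    · rw [hT]
      exact Vp.add_mem (Vp.sub_mem (hUV hw.1.1) (hLV hw.1.2))
        (Vp.sub_mem hw.2.1 (hIV (hP1 _)))
    · obtain ⟨u, hu, w, hw, e⟩ := Submodule.mem_sup.1 (hP1 v)
      refine ⟨((u, -w), (v, 0)), ⟨⟨hu, Lp.neg_mem hw⟩, ⟨hv, Xm.zero_mem⟩⟩, ?_⟩
      rw [hT]
      simp only [sub_neg_eq_add, e, add_sub_cancel, sub_self]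
      exact N.zero_mem
    · rw [hTeq, sub_self]; exact N.zero_mem
  have oBC : OrthQ σ (A ⊓ N.comap T) C :=
    orth_sub σ hG inf_le_left hCB hA hB' hC hfin oAC oAB
  let R : H →ₗ[k] ((H × H) × (H × H)) := (q.prod q).prod ((0 : H →ₗ[k] H).prod (LinearMap.id - q))
  have hR : ∀ x, R x = ((q x, q x), (0, x - q x)) := fun x => rfl
  have hUL : Stab ρ (Up ⊓ Lp) := fun g x hx => ⟨hUp g x hx.1, hLp g x hx.2⟩
  refine orth_pull R (stab_sup hUL hXm) hB' hCB (fun x hx => ?_) (fun w hw => ?_)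
    (fun g x hx => ?_) (fun x _ => ?_) oBC
  · obtain ⟨a, ha, y, hy, rfl⟩ := Submodule.mem_sup.1 hx
    have hn := hq2 y (hXV hy)
    have e : q (a + y) = a + q y := by rw [map_add, hq1 a (hUV ha.1)]
    refine ⟨⟨⟨?_, ?_⟩, ⟨Vp.zero_mem, ?_⟩⟩, ?_⟩
    · show q (a + y) ∈ Up
      rw [e]; exact Up.add_mem ha.1 (hNU hn)
    · show q (a + y) ∈ Lp
      rw [e]; exact Lp.add_mem ha.2 (hNL hn)
    · show a + y - q (a + y) ∈ Xm
      rw [e, add_sub_add_left_eq_sub]; exact Xm.sub_mem hy (hNX hn)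
    · show T (R (a + y)) ∈ N
      rw [hT, hR]
      simp
  · obtain ⟨⟨u, w'⟩, ⟨c, y⟩⟩ := w
    obtain ⟨⟨⟨hu, hw'⟩, ⟨hc, hy⟩⟩, hTw⟩ := hw
    have hTw' : u - w' + (c - P c) ∈ N := hTw
    have hu' : u ∈ Up := hu
    have hw'' : w' ∈ Lp := hw'
    have hy' : y ∈ Xm := hy
    have hcI : c ∈ Up ⊔ Lp := by
      have e : c = (u - w' + (c - P c)) - u + w' + P c := by abel
      rw [e]
      exact Submodule.add_mem _ (Submodule.add_mem _
        (Submodule.sub_mem _ (hNI hTw') (Submodule.mem_sup_left hu'))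
        (Submodule.mem_sup_right hw'')) (hP1 c)
    rw [hP2 c hcI, sub_self, add_zero] at hTw'
    have huL : u ∈ Lp := by
      have e : u = (u - w') + w' := by abel
      rw [e]; exact Lp.add_mem (hNL hTw') hw''
    have hn := hq2 y (hXV hy')
    have e : q (u + y) = u + q y := by rw [map_add, hq1 u (hUV hu')]
    refine ⟨u + y, Submodule.add_mem_sup ⟨hu', huL⟩ hy', ⟨⟨?_, ?_⟩, ⟨?_, ?_⟩⟩⟩
    · show u - q (u + y) ∈ N
      rw [e, sub_add_cancel_left]; exact N.neg_mem hn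
    · show w' - q (u + y) ∈ N
      have e' : w' - (u + q y) = -(u - w') - q y := by abel
      rw [e, e']; exact N.sub_mem (N.neg_mem hTw') hn
    · show c - 0 ∈ Up ⊔ Lp
      rw [sub_zero]; exact hcI
    · show y - (u + y - q (u + y)) ∈ N
      have e' : y - (u + y - (u + q y)) = q y := by abel
      rw [e, e']; exact hn
  · obtain ⟨a, ha, y, hy, rfl⟩ := Submodule.mem_sup.1 hx
    have hn : q (ρ g (a + y)) - ρ g (q (a + y)) ∈ N := by
      have e : q (ρ g (a + y)) - ρ g (q (a + y)) = q (ρ g y) - ρ g (q y) := by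
        simp only [map_add, hq1 a (hUV ha.1), hq1 _ (hVp g a (hUV ha.1))]
        abel
      rw [e]
      exact N.sub_mem (hq2 _ (hVm g y (hXV hy))) (hN g _ (hq2 y (hXV hy)))
    refine ⟨⟨hn, hn⟩, ⟨?_, ?_⟩⟩
    · show (0 : H) - ρ g 0 ∈ Up ⊔ Lp
      simp
    · show ρ g (a + y) - q (ρ g (a + y)) - ρ g (a + y - q (a + y)) ∈ N
      have e : ρ g (a + y) - q (ρ g (a + y)) - ρ g (a + y - q (a + y)) =
          -(q (ρ g (a + y)) - ρ g (q (a + y))) := by rw [map_sub]; abel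
      rw [e]; exact N.neg_mem hn
  · constructor
    · intro h
      have e1 : q x ∈ N := h.1.1
      have e2 : x - q x ∈ N := h.2.2
      have e : x = (x - q x) + q x := by abel
      rw [e]; exact N.add_mem e2 e1
    · intro h
      have e : q x = x := hq1 x (hUV (hNU h))
      refine ⟨⟨?_, ?_⟩, ⟨Submodule.zero_mem _, ?_⟩⟩
      · show q x ∈ N
        rw [e]; exact h
      · show q x ∈ N
        rw [e]; exact h
      · show x - q x ∈ N
        rw [e, sub_self]; exact N.zero_mem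

/-- induced representations from the trivial subgroup are orthogonal -/
theorem orth_ind {Q : Type} [AddCommGroup Q] [Module k Q] (π : H →ₗ[k] Q) (Q₁ : Submodule k Q)
    [FiniteDimensional k Q₁] {A B : Submodule k H} (hA : Stab ρ A) (hin : ∀ x ∈ A, π x ∈ Q₁)
    (hsurj : ∀ z : G → Q, (∀ g, z g ∈ Q₁) → ∃ x ∈ A, ∀ g, π (ρ g x) = z g)
    (hB : ∀ x ∈ A, x ∈ B ↔ ∀ g, π (ρ g x) = 0) : OrthQ ρ A B := by
  classical
  let e := Module.finBasis k Q₁
  have hext : ∀ i, ∃ f : Q →ₗ[k] k, f.comp Q₁.subtype = e.coord i := fun i =>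
    LinearMap.exists_extend _
  choose f hf using hext
  have hf' : ∀ i (z : Q₁), f i z = e.coord i z := fun i z => LinearMap.congr_fun (hf i) z
  let b : H →ₗ[k] H →ₗ[k] k :=
    sumForm Finset.univ fun p : G × Fin (Module.finrank k Q₁) => f p.2 ∘ₗ π ∘ₗ ρ p.1
  have hb : ∀ x y, b x y = ∑ g, ∑ i, f i (π (ρ g x)) * f i (π (ρ g y)) := fun x y => by
    simp only [b, sumForm_apply, Fintype.sum_prod_type, LinearMap.comp_apply]
  refine ⟨b, fun x _ y _ => by simp only [hb, mul_comm], fun g x _ y _ => ?_, fun x hx => ?_⟩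
  · simp only [hb, rep_mul]
    exact Fintype.sum_equiv (Equiv.mulRight g) _ _ fun h => rfl
  · rw [hB x hx]
    constructor
    · intro h g₀
      have hmem : π (ρ g₀ x) ∈ Q₁ := hin _ (hA g₀ x hx)
      have h0 : (⟨_, hmem⟩ : Q₁) = 0 := by
        refine e.ext_elem fun j => ?_
        obtain ⟨y, hy, hyz⟩ := hsurj (fun g => if g = g₀ then (e j : Q) else 0) fun g => by
          split_ifs
          · exact (e j).2
          · exact Q₁.zero_mem
        have h1 := h y hy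
        rw [hb, Finset.sum_eq_single g₀ (fun g _ hg => by simp [hyz, hg]) (by simp),
          Finset.sum_eq_single j (fun i _ hi => by simp [hyz, hf', hi.symm])
            (by simp)] at h1
        simp only [hyz, if_true, hf', Module.Basis.coord_apply, Module.Basis.repr_self,
          Finsupp.single_eq_same, mul_one] at h1
        have h2 := hf' j ⟨_, hmem⟩
        simp only [Module.Basis.coord_apply] at h2
        rw [← h2, map_zero, Finsupp.zero_apply]
        exact h1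
      exact congrArg Subtype.val h0
    · intro h y _
      simp [hb, h]

/-- the plus part of a signed permutation representation is orthogonal -/
theorem orth_perm (hG : (Fintype.card G : k) ≠ 0) {P : Type} [MulAction G P] (S : Finset P)
    (hS : ∀ g : G, ∀ p ∈ S, g • p ∈ S) (c : P → H →ₗ[k] k) {A B : Submodule k H} (hBA : B ≤ A)
    (hA : Stab ρ A) (hc : ∀ g, ∀ p ∈ S, ∀ x ∈ A, c (g • p) (ρ g x) = c p x)
    (hsurj : ∀ z : P → k, ∃ x ∈ A, ∀ p ∈ S, c p x = z p)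
    (hB : ∀ x ∈ A, x ∈ B ↔ ∀ p ∈ S, c p x = 0)
    (ι : H →ₗ[k] H) (ιP : P → P) (ε : k) (hε : ε * ε = 1) (hιP : ∀ p, ιP (ιP p) = p)
    (hιS : ∀ p ∈ S, ιP p ∈ S) (hιι : ∀ x, ι (ι x) = x) (hιρ : ∀ g x, ι (ρ g x) = ρ g (ι x))
    (hιA : ∀ x ∈ A, ι x ∈ A) (hιc : ∀ p ∈ S, ∀ x ∈ A, c (ιP p) (ι x) = ε * c p x) :
    OrthQ ρ (A ⊓ B.comap (ι - LinearMap.id)) B := by
  classical
  have hcι : ∀ p ∈ S, ∀ x ∈ A, c p (ι x) = ε * c (ιP p) x := fun p hp x hx => by
    have := hιc (ιP p) (hιS p hp) x hx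
    rwa [hιP] at this
  have hBst : Stab ρ B := fun g x hx => by
    refine (hB _ (hA g x (hBA hx))).2 fun p hp => ?_
    have h1 := hc g (g⁻¹ • p) (hS _ p hp) x (hBA hx)
    rw [smul_inv_smul] at h1
    rw [h1]
    exact (hB x (hBA hx)).1 hx _ (hS _ p hp)
  have hδ : ∀ p : P, ∃ x ∈ A, ∀ q ∈ S, c q x = if q = p then 1 else 0 := fun p =>
    hsurj fun q => if q = p then 1 else 0
  choose u huA hu using hδ
  have hfin : FinQ A B := by
    refine ⟨S.image u, fun x hx => ?_⟩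
    have hs : ∑ p ∈ S, c p x • u p ∈ A := A.sum_mem fun p _ => A.smul_mem _ (huA p)
    have e : x = (x - ∑ p ∈ S, c p x • u p) + ∑ p ∈ S, c p x • u p := by abel
    rw [e]
    refine Submodule.add_mem_sup ((hB _ (A.sub_mem hx hs)).2 fun q hq => ?_)
      (Submodule.sum_mem _ fun p hp => Submodule.smul_mem _ _ (Submodule.subset_span ?_))
    · simp only [map_sub, map_sum, map_smul, hu _ q hq, smul_eq_mul, mul_ite, mul_one, mul_zero,
        Finset.sum_ite_eq, hq, if_true, sub_self]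
    · exact Finset.mem_coe.2 (Finset.mem_image_of_mem u hp)
  have hform : IsForm ρ A B (sumForm S c) := by
    refine ⟨fun x _ y _ => by simp only [sumForm_apply, mul_comm], fun g x hx y hy => ?_,
      fun x hx => ?_⟩
    · simp only [sumForm_apply]
      symm
      refine Finset.sum_nbij' (fun p => g • p) (fun p => g⁻¹ • p) (fun p hp => hS g p hp)
        (fun p hp => hS _ p hp) (fun p _ => inv_smul_smul g p) (fun p _ => smul_inv_smul g p)
        fun p hp => ?_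
      rw [hc g p hp x hx, hc g p hp y hy]
    · rw [hB x hx]
      constructor
      · intro h p hp
        have h1 := h (u p) (huA p)
        rw [sumForm_apply, Finset.sum_eq_single p
          (fun q hq hqp => by rw [hu p q hq, if_neg hqp, mul_zero]) (fun h => absurd hp h),
          hu p p hp, if_pos rfl, mul_one] at h1
        exact h1
      · intro h y _
        rw [sumForm_apply]
        exact Finset.sum_eq_zero fun p hp => by rw [h p hp, zero_mul]
  refine orth_ker ρ hG hBA hA hBst hfin hform (ι - LinearMap.id) (fun g x _ => ?_)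
    (fun x hx => A.sub_mem (hιA x hx) hx) (fun x hx => B.sub_mem ?_ hx) fun x hx y hy => ?_
  · simp only [LinearMap.sub_apply, LinearMap.id_apply, hιρ, map_sub, sub_self]
    exact B.zero_mem
  · refine (hB _ (hιA x (hBA hx))).2 fun p hp => ?_
    rw [hcι p hp x (hBA hx), (hB x (hBA hx)).1 hx _ (hιS p hp), mul_zero]
  · simp only [LinearMap.sub_apply, LinearMap.id_apply, map_sub]
    congr 1
    simp only [sumForm_apply]
    refine Finset.sum_nbij' ιP ιP (fun p hp => hιS p hp) (fun p hp => hιS p hp)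
      (fun p _ => hιP p) (fun p _ => hιP p) fun p hp => ?_
    rw [hcι p hp x hx, hιc p hp y hy]
    ring

end

/-- the reduction of a lattice is orthogonal -/
theorem orth_lat (l : ℕ) [Fact l.Prime] {G H M : Type} [Group G] [Fintype G] [AddCommGroup H]
    [Module (ZMod l) H] (ρ : Representation (ZMod l) G H) (hG : (Fintype.card G : ZMod l) ≠ 0)
    [AddCommGroup M] [Module.Finite ℤ M] (τ : Representation ℤ G M)
    (htor : ∀ x : M, l • x = 0 → x = 0) (φ : M →+ H) (hφ : ∀ g x, φ (τ g x) = ρ g (φ x))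
    (hker : ∀ x, φ x = 0 → ∃ y, x = l • y) :
    OrthQ ρ (Submodule.span (ZMod l) (Set.range φ)) ⊥ := by
  have hst : ∀ g, Submodule.torsion ℤ M ≤ (Submodule.torsion ℤ M).comap (τ g) := by
    rintro g x ⟨a, ha⟩
    refine ⟨a, ?_⟩
    rw [Submonoid.smul_def] at ha ⊢
    rw [← map_smul, ha, map_zero]
  have hpow : ∀ (n : ℕ) (x : M), l ^ n • x = 0 → x = 0 := by
    intro n
    induction n with
    | zero => intro x hx; simpa using hx
    | succ n ih => intro x hx; rw [pow_succ, mul_smul] at hx; exact htor x (ih _ hx)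
  have hkill : ∀ x ∈ Submodule.torsion ℤ M, φ x = 0 := by
    rintro x ⟨⟨a, ha0⟩, ha⟩
    have ha0' : a.natAbs ≠ 0 := Int.natAbs_ne_zero.2 (nonZeroDivisors.ne_zero ha0)
    have ha' : a.natAbs • x = 0 := by
      have : a • x = 0 := ha
      rcases Int.natAbs_eq a with h | h
      · rw [h, natCast_zsmul] at this; exact this
      · rw [h, neg_smul, neg_eq_zero, natCast_zsmul] at this; exact this
    obtain ⟨n, m, hm, e⟩ := Nat.exists_eq_pow_mul_and_not_dvd ha0' l (Fact.out : l.Prime).ne_one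
    rw [e, mul_smul] at ha'
    have h1 : (m : ZMod l) • φ x = 0 := by
      rw [Nat.cast_smul_eq_nsmul, ← map_nsmul, hpow n _ ha', map_zero]
    have h2 : (m : ZMod l) ≠ 0 := by rwa [Ne, ZMod.natCast_eq_zero_iff]
    exact (smul_eq_zero.1 h1).resolve_left h2
  let φ' : (M ⧸ Submodule.torsion ℤ M) →+ H :=
    ((Submodule.torsion ℤ M).liftQ φ.toIntLinearMap hkill).toAddMonoidHom
  have hφ' : ∀ x, φ' (Submodule.Quotient.mk x) = φ x := fun x => rfl
  have hr : Set.range φ' = Set.range φ := by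
    ext h
    constructor
    · rintro ⟨x, rfl⟩
      obtain ⟨x, rfl⟩ := Submodule.Quotient.mk_surjective _ x
      exact ⟨x, rfl⟩
    · rintro ⟨x, rfl⟩
      exact ⟨Submodule.Quotient.mk x, rfl⟩
  rw [← hr]
  refine orth_lat_free ρ hG (τ.quotient _ hst) φ' (fun g x => ?_) fun x hx => ?_
  · obtain ⟨x, rfl⟩ := Submodule.Quotient.mk_surjective _ x
    exact hφ g x
  · obtain ⟨x, rfl⟩ := Submodule.Quotient.mk_surjective _ x
    obtain ⟨y, rfl⟩ := hker x hx
    exact ⟨Submodule.Quotient.mk y, rfl⟩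

end Pool.Agent.MP_14ad9d_nt.Full

end
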