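import Mathlib
import Pool.Agent.Mg.F14ad9d.G04cbab
import Pool.Agent.Mg.F14ad9d.G67dcc7

section

open Matrix MeasureTheory Set Topology Filter
open scoped ENNReal NNReal CompactlySupported

namespace Pool.Agent.MP_7a4cc0_an

lemma Quad_div (y p q l ε : ℝ) (hl : 0 < l) (hp : l ≤ |p|) (hq : l ≤ |q|) (hy : |y| ≤ ε) :
    |y / (p * q)| * l ^ 2 ≤ ε := by
  have hp0 : 0 < |p| := lt_of_lt_of_le hl hp
  have hq0 : 0 < |q| := lt_of_lt_of_le hl hq
  have h1 : l ^ 2 ≤ |p| * |q| := by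
    rw [sq]; exact mul_le_mul hp hq hl.le hp0.le
  rw [abs_div, abs_mul]
  calc |y| / (|p| * |q|) * l ^ 2 ≤ |y| / (|p| * |q|) * (|p| * |q|) :=
        mul_le_mul_of_nonneg_left h1 (by positivity)
    _ = |y| := div_mul_cancel₀ _ (by positivity)
    _ ≤ ε := hy

lemma Quad_mul_le (u c k : ℝ) (h0 : 0 ≤ c) (hk : c ≤ k) : |u * c| ≤ k * |u| := by
  rw [abs_mul, abs_of_nonneg h0, mul_comm]
  exact mul_le_mul_of_nonneg_right hk (abs_nonneg u)

/-- Lagrange interpolation at three separated points of `[0, 1]`. -/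
lemma Quad_lag (α β γ x y z l ε : ℝ) (hl : 0 < l)
    (hx0 : 0 ≤ x) (hx1 : x ≤ 1) (hy0 : 0 ≤ y) (hy1 : y ≤ 1) (hz0 : 0 ≤ z) (hz1 : z ≤ 1)
    (hxy : l ≤ |x - y|) (hxz : l ≤ |x - z|) (hyz : l ≤ |y - z|)
    (qx : |α * x ^ 2 + β * x + γ| ≤ ε) (qy : |α * y ^ 2 + β * y + γ| ≤ ε)
    (qz : |α * z ^ 2 + β * z + γ| ≤ ε) : (|α| + |β| + |γ|) * l ^ 2 ≤ 12 * ε := by
  have nxy : x - y ≠ 0 := abs_pos.1 (lt_of_lt_of_le hl hxy)
  have nxz : x - z ≠ 0 := abs_pos.1 (lt_of_lt_of_le hl hxz)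
  have nyz : y - z ≠ 0 := abs_pos.1 (lt_of_lt_of_le hl hyz)
  have nyx : y - x ≠ 0 := fun h => nxy (by linarith)
  have nzx : z - x ≠ 0 := fun h => nxz (by linarith)
  have nzy : z - y ≠ 0 := fun h => nyz (by linarith)
  have hu := Quad_div _ (x - y) (x - z) l ε hl hxy hxz qx
  have hv := Quad_div _ (y - x) (y - z) l ε hl (by rwa [abs_sub_comm]) hyz qy
  have hw := Quad_div _ (z - x) (z - y) l ε hl (by rwa [abs_sub_comm]) (by rwa [abs_sub_comm]) qz
  set u := (α * x ^ 2 + β * x + γ) / ((x - y) * (x - z)) with hu'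
  set v := (α * y ^ 2 + β * y + γ) / ((y - x) * (y - z)) with hv'
  set w := (α * z ^ 2 + β * z + γ) / ((z - x) * (z - y)) with hw'
  have eα : α = u + v + w := by
    rw [hu', hv', hw']; field_simp; ring
  have eβ : β = -(u * (y + z) + v * (x + z) + w * (x + y)) := by
    rw [hu', hv', hw']; field_simp; ring
  have eγ : γ = u * (y * z) + v * (x * z) + w * (x * y) := by
    rw [hu', hv', hw']; field_simp; ring
  clear_value u v w
  have bα : |α| ≤ |u| + |v| + |w| := by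
    rw [eα]; exact abs_add_three u v w
  have bβ : |β| ≤ 2 * |u| + 2 * |v| + 2 * |w| := by
    rw [eβ, abs_neg]
    refine (abs_add_three _ _ _).trans ?_
    have h1 := Quad_mul_le u (y + z) 2 (by linarith) (by linarith)
    have h2 := Quad_mul_le v (x + z) 2 (by linarith) (by linarith)
    have h3 := Quad_mul_le w (x + y) 2 (by linarith) (by linarith)
    linarith
  have bγ : |γ| ≤ 1 * |u| + 1 * |v| + 1 * |w| := by
    rw [eγ]
    refine (abs_add_three _ _ _).trans ?_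
    have h1 := Quad_mul_le u (y * z) 1 (by positivity) (mul_le_one₀ hy1 hz0 hz1)
    have h2 := Quad_mul_le v (x * z) 1 (by positivity) (mul_le_one₀ hx1 hz0 hz1)
    have h3 := Quad_mul_le w (x * y) 1 (by positivity) (mul_le_one₀ hx1 hy0 hy1)
    linarith
  have hs : |α| + |β| + |γ| ≤ 4 * (|u| + |v| + |w|) := by linarith
  have := mul_le_mul_of_nonneg_right hs (sq_nonneg l)
  nlinarith

lemma Quad_far {s t r : ℝ} (h : t ∉ Icc (s - r) (s + r)) : r ≤ |s - t| := by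
  by_contra hc
  push Not at hc
  rw [abs_lt] at hc
  exact h ⟨by linarith, by linarith⟩

lemma quad_small (A B C ε θ a h : ℝ) (hh : 0 < h) (hθ : 0 < θ) (hε : 0 < ε)
    (hN : θ ≤ |A| * h ^ 2 + |2 * A * a + B| * h + |A * a ^ 2 + B * a + C|) :
    volume {t : ℝ | t ∈ Ico a (a + h) ∧ |A * t ^ 2 + B * t + C| < ε} ≤
      ENNReal.ofReal (16 * h * √(ε / θ)) := by
  set S := {t : ℝ | t ∈ Ico a (a + h) ∧ |A * t ^ 2 + B * t + C| < ε} with hS
  set l := 4 * √(ε / θ) with hl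
  have hl0 : 0 < l := by positivity
  have hl2 : l ^ 2 * θ = 16 * ε := by
    rw [hl, mul_pow, Real.sq_sqrt (by positivity)]; field_simp; norm_num
  have hr : 0 < l * h := by positivity
  have hI : ∀ s : ℝ, volume (Icc (s - l * h) (s + l * h)) = ENNReal.ofReal (2 * (l * h)) := by
    intro s; rw [Real.volume_Icc]; congr 1; ring
  have h16 : 16 * h * √(ε / θ) = 2 * (l * h) + 2 * (l * h) := by rw [hl]; ring
  rw [h16, ENNReal.ofReal_add (by positivity) (by positivity)]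
  by_contra hc
  have two : ∀ s s' : ℝ, ∃ t ∈ S, l * h ≤ |s - t| ∧ l * h ≤ |s' - t| := by
    intro s s'
    by_contra hn
    apply hc
    have hsub : S ⊆ Icc (s - l * h) (s + l * h) ∪ Icc (s' - l * h) (s' + l * h) := by
      intro t ht
      by_contra hm
      rw [mem_union, not_or] at hm
      exact hn ⟨t, ht, Quad_far hm.1, Quad_far hm.2⟩
    calc volume S ≤ _ := measure_mono hsub
      _ ≤ _ := measure_union_le _ _
      _ = _ := by rw [hI, hI]
  obtain ⟨t1, h1, -⟩ := two 0 0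
  obtain ⟨t2, h2, h12, -⟩ := two t1 t1
  obtain ⟨t3, h3, h13, h23⟩ := two t1 t2
  have sep : ∀ s t : ℝ, l * h ≤ |s - t| → l ≤ |(s - a) / h - (t - a) / h| := by
    intro s t hst
    have : (s - a) / h - (t - a) / h = (s - t) / h := by ring
    rw [this, abs_div, abs_of_pos hh, le_div_iff₀ hh]
    exact hst
  have lo : ∀ t ∈ S, 0 ≤ (t - a) / h := fun t ht => div_nonneg (by linarith [ht.1.1]) hh.le
  have hi : ∀ t ∈ S, (t - a) / h ≤ 1 := fun t ht => by
    rw [div_le_one hh]; linarith [ht.1.2]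
  have val : ∀ t ∈ S, |A * h ^ 2 * ((t - a) / h) ^ 2 + (2 * A * a + B) * h * ((t - a) / h) +
      (A * a ^ 2 + B * a + C)| ≤ ε := by
    intro t ht
    have : A * h ^ 2 * ((t - a) / h) ^ 2 + (2 * A * a + B) * h * ((t - a) / h) +
      (A * a ^ 2 + B * a + C) = A * t ^ 2 + B * t + C := by field_simp; ring
    rw [this]; exact ht.2.le
  have key := Quad_lag (A * h ^ 2) ((2 * A * a + B) * h) (A * a ^ 2 + B * a + C) _ _ _ l ε hl0
    (lo t1 h1) (hi t1 h1) (lo t2 h2) (hi t2 h2) (lo t3 h3) (hi t3 h3)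
    (sep _ _ h12) (sep _ _ h13) (sep _ _ h23) (val t1 h1) (val t2 h2) (val t3 h3)
  rw [abs_mul, abs_mul, abs_of_pos hh, abs_of_pos (pow_pos hh 2)] at key
  have := mul_le_mul_of_nonneg_right hN (sq_nonneg l)
  nlinarith

lemma dyadic (i : ℕ) (S T : Set ℝ) (κ : ℝ≥0∞) (hS : S ⊆ Ico 1 2)
    (h1 : ∀ j : ℕ, j < 2 ^ i →
      volume (S ∩ Ico (1 + (j : ℝ) / 2 ^ i) (1 + ((j : ℝ) + 1) / 2 ^ i)) ≤
        κ * ENNReal.ofReal (1 / 2 ^ i))
    (h2 : ∀ j : ℕ, j < 2 ^ i →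
      (S ∩ Ico (1 + (j : ℝ) / 2 ^ i) (1 + ((j : ℝ) + 1) / 2 ^ i)).Nonempty →
      Ico (1 + (j : ℝ) / 2 ^ i) (1 + ((j : ℝ) + 1) / 2 ^ i) ⊆ T) :
    volume S ≤ κ * volume T := by
  classical
  set I : ℕ → Set ℝ := fun j => Ico (1 + (j : ℝ) / 2 ^ i) (1 + ((j : ℝ) + 1) / 2 ^ i) with hI
  set J : Finset ℕ := (Finset.range (2 ^ i)).filter fun j => (S ∩ I j).Nonempty with hJ
  have hp : (0 : ℝ) < 2 ^ i := by positivity
  have hcov : S ⊆ ⋃ j ∈ J, S ∩ I j := by
    intro t ht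
    obtain ⟨ht1, ht2⟩ := hS ht
    have h0 : 0 ≤ (t - 1) * 2 ^ i := mul_nonneg (by linarith) hp.le
    have hm : t ∈ I ⌊(t - 1) * 2 ^ i⌋₊ := by
      constructor
      · have := Nat.floor_le h0
        rw [← div_le_iff₀ hp] at this
        linarith
      · have := Nat.lt_floor_add_one ((t - 1) * 2 ^ i)
        rw [← lt_div_iff₀ hp] at this
        linarith
    have hlt : ⌊(t - 1) * 2 ^ i⌋₊ < 2 ^ i := by
      rw [Nat.floor_lt h0]
      push_cast
      nlinarith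
    simp only [mem_iUnion]
    exact ⟨_, Finset.mem_filter.2 ⟨Finset.mem_range.2 hlt, t, ht, hm⟩, ht, hm⟩
  have hvol : ∀ j, volume (I j) = ENNReal.ofReal (1 / 2 ^ i) := by
    intro j
    rw [hI]; simp only [Real.volume_Ico]; congr 1; ring
  have hdis : Set.PairwiseDisjoint (J : Set ℕ) I := by
    have aux : ∀ j k : ℕ, j < k → Disjoint (I j) (I k) := by
      intro j k hjk
      rw [Set.disjoint_left]
      intro t htj htk
      have h3 : ((j : ℝ) + 1) / 2 ^ i ≤ (k : ℝ) / 2 ^ i := by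
        apply div_le_div_of_nonneg_right _ hp.le
        exact_mod_cast hjk
      linarith [htj.2, htk.1]
    intro j _ k _ hjk
    rcases lt_or_gt_of_ne hjk with h | h
    · exact aux j k h
    · exact (aux k j h).symm
  have hT : (⋃ j ∈ J, I j) ⊆ T := by
    intro t ht
    simp only [mem_iUnion] at ht
    obtain ⟨j, hj, htj⟩ := ht
    obtain ⟨hj1, hj2⟩ := Finset.mem_filter.1 hj
    exact h2 j (Finset.mem_range.1 hj1) hj2 htj
  calc volume S ≤ volume (⋃ j ∈ J, S ∩ I j) := measure_mono hcov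
    _ ≤ ∑ j ∈ J, volume (S ∩ I j) := measure_biUnion_finset_le _ _
    _ ≤ ∑ j ∈ J, κ * volume (I j) := by
        refine Finset.sum_le_sum fun j hj => ?_
        rw [hvol]
        exact h1 j (Finset.mem_range.1 (Finset.mem_filter.1 hj).1)
    _ = κ * volume (⋃ j ∈ J, I j) := by
        rw [← Finset.mul_sum, measure_biUnion_finset hdis fun j _ => measurableSet_Ico]
    _ ≤ κ * volume T := mul_le_mul_right (measure_mono hT) κ

/-- Record times. -/
lemma exists_records (a : ℕ → ℝ) (θ θ' : ℝ) (hθ : 0 < θ) (hθ' : θ < θ')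
    (ha : ∀ k, (θ ^ k)⁻¹ ≤ a k) : ∃ n : ℕ → ℕ, StrictMono n ∧
      ∀ l i, i ≤ n l → a i ≤ a (n l) * θ' ^ (n l - i) := by
  have hθ2 : 0 < θ' := hθ.trans hθ'
  have hb : Tendsto (fun k => a k * θ' ^ k) atTop atTop := by
    have h1 : 1 < θ' / θ := (one_lt_div hθ).2 hθ'
    refine tendsto_atTop_mono (fun k => ?_) (tendsto_pow_atTop_atTop_of_one_lt h1)
    rw [div_pow, div_eq_inv_mul]
    exact mul_le_mul_of_nonneg_right (ha k) (by positivity)
  obtain ⟨n, hn, hrec⟩ := extraction_of_frequently_atTop (frequently_high_scores hb)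
  refine ⟨n, hn, fun l i hi => ?_⟩
  rcases hi.eq_or_lt with h | h
  · rw [h]; simp
  · have h2 := (hrec l i h).le
    have h3 : θ' ^ n l = θ' ^ (n l - i) * θ' ^ i := by
      rw [← pow_add, Nat.sub_add_cancel hi]
    rw [h3, ← mul_assoc] at h2
    exact le_of_mul_le_mul_right h2 (by positivity)

end Pool.Agent.MP_7a4cc0_an

end

section

open Matrix MeasureTheory Set Topology Filter
open scoped ENNReal NNReal CompactlySupported

namespace Pool.Agent.MP_7a4cc0_an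

lemma lor_lat (lam : ℕ) (c c' : Fin 4 → ℤ) : lor (lat lam c) (lat lam c') =
    ((-7 * c 0 * c' 0 + c 1 * c' 1 + c 2 * c' 2 + lam * c 3 * c' 3 : ℤ) : ℝ) := by
  have h7 : √7 * √7 = (7 : ℝ) := Real.mul_self_sqrt (by norm_num)
  have hl : √lam * √lam = (lam : ℝ) := Real.mul_self_sqrt (Nat.cast_nonneg _)
  simp [lat, lor, vo, ex, e2, dd]
  linear_combination (-(c 0 : ℝ) * c' 0) * h7 + ((c 3 : ℝ) * c' 3) * hl
lemma lor_lat_dd (lam : ℕ) (c : Fin 4 → ℤ) : lor (lat lam c) dd = c 3 * √lam := by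
  simp [lat, lor, vo, ex, e2, dd]
  ring
lemma lor_lat_ez (lam : ℕ) (c : Fin 4 → ℤ) :
    lor (lat lam c) ez = (3 * c 2 + 4 * c 3 * √lam) / 5 := by
  simp [lat, lor, vo, ex, e2, dd, ez]
  ring
lemma lor_vo_lat (lam : ℕ) (c : Fin 4 → ℤ) : lor vo (lat lam c) = -(c 0 * √7) := by
  simp [lat, lor, vo, ex, e2, dd]
lemma lat_single3 (lam : ℕ) : lat lam (Pi.single 3 1) = √lam • dd := by
  simp [lat]

lemma arith_lat_zero (lam : ℕ) : lat lam 0 = 0 := by simp [lat]

lemma arith_lat_sub (lam : ℕ) (c c' : Fin 4 → ℤ) : lat lam (c - c') = lat lam c - lat lam c' := by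
  rw [eq_sub_iff_add_eq, ← lat_add, sub_add_cancel]

/-- the diagonal coefficients of the form -/
def arithCoef (lam : ℕ) : Fin 4 → ℤ := ![-7, 1, 1, lam]

lemma arith_lor_single (lam : ℕ) (c : Fin 4 → ℤ) (i : Fin 4) :
    lor (lat lam c) (lat lam (Pi.single i 1)) = ((arithCoef lam i * c i : ℤ) : ℝ) := by
  rw [lor_lat]
  fin_cases i <;> simp [arithCoef]

lemma arithCoef_ne {lam : ℕ} (hlam : 0 < lam) (i : Fin 4) : arithCoef lam i ≠ 0 := by
  fin_cases i <;> simp [arithCoef, hlam.ne']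

lemma arith_coord {lam : ℕ} (hlam : 0 < lam) :
    ∃ D : ℝ, 0 < D ∧ ∀ (c : Fin 4 → ℤ) (i : Fin 4), ((|c i| : ℤ) : ℝ) ≤ D * ‖lat lam c‖ := by
  refine ⟨4 * ‖fun i : Fin 4 => lat lam (Pi.single i 1)‖ + 1, by positivity, fun c i => ?_⟩
  have h1 := abs_lor_le (lat lam c) (lat lam (Pi.single i 1))
  have h2 := norm_le_pi_norm (fun i : Fin 4 => lat lam (Pi.single i 1)) i
  have h3 : |c i| ≤ |arithCoef lam i * c i| := by
    rw [abs_mul]
    exact le_mul_of_one_le_left (abs_nonneg _) (Int.one_le_abs (arithCoef_ne hlam i))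
  have h4 : ((|c i| : ℤ) : ℝ) ≤ ((|arithCoef lam i * c i| : ℤ) : ℝ) := by exact_mod_cast h3
  rw [arith_lor_single, ← Int.cast_abs] at h1
  have h5 := norm_nonneg (lat lam c)
  have h6 := mul_le_mul_of_nonneg_left h2 h5
  linarith

lemma lat_injective {lam : ℕ} (hlam : 0 < lam) : Function.Injective (lat lam) := by
  intro c c' h
  funext i
  have h1 := arith_lor_single lam c i
  rw [h, arith_lor_single] at h1
  exact (mul_left_cancel₀ (arithCoef_ne hlam i) (Int.cast_injective h1)).symm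

lemma arith_ext {lam : ℕ} (hlam : 0 < lam) {W : Type*} [AddCommGroup W] [Module ℝ W]
    {S T : V →ₗ[ℝ] W} (h : ∀ i, S (lat lam (Pi.single i 1)) = T (lat lam (Pi.single i 1))) :
    S = T := by
  have h7 : (√7 : ℝ) ≠ 0 := by positivity
  have hl : (√lam : ℝ) ≠ 0 := by positivity
  refine LinearMap.ext fun v => ?_
  have e : v = (v 0 / √7) • lat lam (Pi.single 0 1) + v 1 • lat lam (Pi.single 1 1) +
      (4 / 5 * v 2 + 3 / 5 * v 3) • lat lam (Pi.single 2 1) +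
      ((-3 / 5 * v 2 + 4 / 5 * v 3) / √lam) • lat lam (Pi.single 3 1) := by
    funext i
    fin_cases i <;> simp [lat, vo, ex, e2, dd] <;> field_simp <;> ring
  rw [e]
  simp only [map_add, map_smul, h]

/-- A linear map is determined by its values on the lattice. -/
lemma lat_ext {lam : ℕ} (hlam : 0 < lam) {W : Type*} [AddCommGroup W] [Module ℝ W]
    {S T : V →ₗ[ℝ] W} (h : ∀ c, S (lat lam c) = T (lat lam c)) : S = T :=
  arith_ext hlam fun _ => h _

lemma arith_mod8 : ∀ a b c d : ZMod 8, a ^ 2 + b ^ 2 + c ^ 2 + d ^ 2 = 0 →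
    4 * a = 0 ∧ 4 * b = 0 ∧ 4 * c = 0 ∧ 4 * d = 0 := by decide +kernel

lemma arith_even {x : ℤ} (h : 4 * (x : ZMod 8) = 0) : 2 ∣ x := by
  have : ((4 * x : ℤ) : ZMod 8) = 0 := by push_cast; exact h
  have := (ZMod.intCast_zmod_eq_zero_iff_dvd _ 8).1 this
  omega

lemma arith_descent {l : ℤ} (hl : l = 1 ∨ l = 17) (n : ℕ) : ∀ a b c d : ℤ,
    a.natAbs + b.natAbs + c.natAbs + d.natAbs = n →
    -7 * a * a + b * b + c * c + l * d * d = 0 → a = 0 ∧ b = 0 ∧ c = 0 ∧ d = 0 := by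
  induction n using Nat.strong_induction_on with
  | _ n ih =>
    intro a b c d hn h
    have h8 : (8 : ℤ) ∣ a ^ 2 + b ^ 2 + c ^ 2 + d ^ 2 := by
      rcases hl with rfl | rfl
      · exact ⟨a ^ 2, by linear_combination h⟩
      · exact ⟨a ^ 2 - 2 * d ^ 2, by linear_combination h⟩
    have h9 := (ZMod.intCast_zmod_eq_zero_iff_dvd _ 8).2 h8
    push_cast at h9
    obtain ⟨h1, h2, h3, h4⟩ := arith_mod8 _ _ _ _ h9
    obtain ⟨a, rfl⟩ := arith_even h1
    obtain ⟨b, rfl⟩ := arith_even h2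
    obtain ⟨c, rfl⟩ := arith_even h3
    obtain ⟨d, rfl⟩ := arith_even h4
    rcases Nat.eq_zero_or_pos n with rfl | hpos
    · omega
    · have := ih _ (by omega) a b c d rfl (by linarith)
      omega

lemma aniso {lam : ℕ} (h : lam = 1 ∨ lam = 17) (c : Fin 4 → ℤ)
    (hc : lor (lat lam c) (lat lam c) = 0) : c = 0 := by
  rw [lor_lat, Int.cast_eq_zero] at hc
  obtain ⟨h0, h1, h2, h3⟩ := arith_descent (l := lam) (by omega) _ _ _ _ _ rfl hc
  funext i
  fin_cases i <;> assumption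
lemma LL_mono {lam q q' : ℕ} (h : q ∣ q') : LL lam q' ≤ LL lam q := by
  obtain ⟨k, rfl⟩ := h
  have key : ∀ g, Cong lam (q * k) g → Cong lam q g := fun g hg c => by
    obtain ⟨c', hc⟩ := hg c
    exact ⟨k • c', by rw [hc, lat_nsmul, smul_smul, Nat.cast_mul]⟩
  exact fun g hg => ⟨key _ hg.1, key _ hg.2⟩
lemma locFin_lat {lam : ℕ} (hlam : 0 < lam) : LocFin (Set.range (lat lam)) := by
  obtain ⟨D, hD, h⟩ := arith_coord hlam
  intro C
  refine ((Set.finite_Icc (fun _ => -⌈D * C⌉) fun _ => ⌈D * C⌉).image (lat lam)).subset ?_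
  rintro _ ⟨⟨c, rfl⟩, hc⟩
  have : ∀ i, |c i| ≤ ⌈D * C⌉ := fun i => by
    have := ((h c i).trans (mul_le_mul_of_nonneg_left hc hD.le)).trans (Int.le_ceil _)
    exact_mod_cast this
  exact ⟨c, ⟨fun i => (abs_le.1 (this i)).1, fun i => (abs_le.1 (this i)).2⟩, rfl⟩

lemma Cong.arith_lat {lam q : ℕ} {g : G} (hg : Cong lam q g) (c : Fin 4 → ℤ) :
    ∃ c' : Fin 4 → ℤ, rho g (lat lam c) = lat lam (c + q • c') := by
  obtain ⟨c', h⟩ := hg c
  exact ⟨c', by rw [h, lat_add, lat_nsmul]⟩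

lemma locFin_orb_dd {lam : ℕ} (hlam : 0 < lam) (q : ℕ) (ε : ℝ) :
    LocFin (orb (LL lam q) (ε • dd)) := by
  have hl : (0 : ℝ) < √lam := by positivity
  intro C
  rcases eq_or_ne ε 0 with rfl | hε
  · refine (Set.finite_singleton 0).subset ?_
    rintro _ ⟨⟨γ, -, rfl⟩, -⟩
    simp
  · refine ((locFin_lat hlam (|√lam / ε| * C)).image fun m => (ε / √lam) • m).subset ?_
    rintro _ ⟨⟨γ, hγ, rfl⟩, hc⟩
    obtain ⟨c', h⟩ := hγ.1.arith_lat (Pi.single 3 1)
    have e : (√lam / ε) • rho γ (ε • dd) = rho γ (lat lam (Pi.single 3 1)) := by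
      rw [lat_single3, map_smul, map_smul, smul_smul, div_mul_cancel₀ _ hε]
    refine ⟨(√lam / ε) • rho γ (ε • dd), ⟨⟨_, (e.trans h).symm⟩, ?_⟩, ?_⟩
    · rw [norm_smul, Real.norm_eq_abs]
      exact mul_le_mul_of_nonneg_left hc (abs_nonneg _)
    · simp only [smul_smul]
      rw [show ε / √lam * (√lam / ε) = 1 by field_simp, one_smul]
lemma LL_disc {lam : ℕ} (hlam : 0 < lam) (q : ℕ) :
    ∃ U ∈ 𝓝 (1 : G), ∀ g ∈ LL lam q, g ∈ U → g = 1 := by
  obtain ⟨D, hD, h⟩ := arith_coord hlam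
  refine ⟨{g | ∀ i : Fin 4, D * ‖rho g (lat lam (Pi.single i 1)) - lat lam (Pi.single i 1)‖ < 1},
    eventually_all.2 fun i => ?_, fun g hg hU => ?_⟩
  · have hc : Continuous fun g : G =>
        D * ‖rho g (lat lam (Pi.single i 1)) - lat lam (Pi.single i 1)‖ :=
      continuous_const.mul ((continuous_rho_left _).sub continuous_const).norm
    exact hc.continuousAt.eventually (gt_mem_nhds (by simp))
  · have : (rho g : V →ₗ[ℝ] V) = LinearMap.id := arith_ext hlam fun i => by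
      obtain ⟨c', hc⟩ := hg.1.arith_lat (Pi.single i 1)
      have h1 := hU i
      rw [hc, ← arith_lat_sub, add_sub_cancel_left] at h1
      have h2 : q • c' = 0 := funext fun j => by
        have := (h (q • c') j).trans_lt h1
        exact Int.abs_lt_one_iff.1 (by exact_mod_cast this)
      rw [hc, h2, add_zero, LinearMap.id_apply]
    exact rho_eq_one fun v => by rw [this, LinearMap.id_apply]

lemma arith_far (q : ℕ) {N : ℤ} (hN : N ≠ 0) : (q : ℝ) - 1 ≤ |1 + (q : ℝ) * N| := by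
  have h1 : (1 : ℝ) ≤ |(N : ℝ)| := by exact_mod_cast Int.one_le_abs hN
  have h2 := abs_sub (1 + (q : ℝ) * N) 1
  rw [add_sub_cancel_left, abs_mul, abs_one, Nat.abs_cast] at h2
  nlinarith [(Nat.cast_nonneg q : (0 : ℝ) ≤ q)]

lemma arith_null {lam : ℕ} (h : lam = 1 ∨ lam = 17) {g : G} {c c' : Fin 4 → ℤ}
    (hc : rho g (lat lam c) = lat lam (c + c')) (h0 : lor (lat lam c') (lat lam c) = 0) :
    rho g (lat lam c) = lat lam c := by
  have h1 := lor_rho_self g (lat lam c)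
  rw [hc, lat_add, lor_add_left, lor_add_right, lor_add_right, lor_comm (lat lam c) (lat lam c'),
    h0] at h1
  rw [hc, aniso h c' (by linarith), add_zero]

lemma LL_door {lam : ℕ} (h : lam = 1 ∨ lam = 17) {q : ℕ} {g : G} (hg : g ∈ LL lam q) :
    rho g dd = dd ∨ (q : ℝ) - 1 ≤ |lor (rho g dd) dd| := by
  have hlam : 0 < lam := by omega
  have hl : (√lam : ℝ) ≠ 0 := by positivity
  obtain ⟨c', hc⟩ := hg.1.arith_lat (Pi.single 3 1)
  rcases eq_or_ne (c' 3) 0 with h0 | h0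
  · left
    have := arith_null h hc (by rw [arith_lor_single]; simp [h0])
    rw [lat_single3, map_smul] at this
    exact smul_right_injective V hl this
  · right
    have h1 := lor_lat_dd lam (Pi.single 3 1 + q • c')
    rw [← hc, lat_single3, map_smul, lor_smul_left, mul_comm] at h1
    rw [mul_right_cancel₀ hl h1]
    simpa using arith_far q h0
lemma LL_black {lam : ℕ} (h : lam = 1 ∨ lam = 17) {q : ℕ} {c : Fin 4 → ℤ}
    (hc : lor (lat lam c) (lat lam c) = 1) {g : G} (hg : g ∈ LL lam q) :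
    rho g (lat lam c) = lat lam c ∨ (q : ℝ) - 1 ≤ |lor (rho g (lat lam c)) (lat lam c)| := by
  obtain ⟨c', h1⟩ := hg.1.arith_lat c
  have h2 := lor_lat lam c' c
  set N : ℤ := -7 * c' 0 * c 0 + c' 1 * c 1 + c' 2 * c 2 + lam * c' 3 * c 3
  rcases eq_or_ne N 0 with h0 | h0
  · left
    exact arith_null h h1 (by rw [lat_nsmul, lor_smul_left, h2, h0]; simp)
  · right
    rw [h1, lat_add, lat_nsmul, lor_add_left, lor_smul_left, hc, h2]
    exact arith_far q h0
lemma LL_black_door {lam : ℕ} (hlam : 0 < lam) {q : ℕ} (hq : 4 ≤ q) {c : Fin 4 → ℤ}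
    (hc : |c 3| = 2) {g : G} (hg : g ∈ LL lam q) : 2 ≤ |lor (rho g (lat lam c)) dd| := by
  obtain ⟨c', h1⟩ := hg.1.arith_lat c
  have h2 : 2 ≤ |(c + q • c') 3| := by
    rw [Pi.add_apply, Pi.smul_apply, nsmul_eq_mul]
    rcases eq_or_ne (c' 3) 0 with h0 | h0
    · simp [h0, hc]
    · have h3 := Int.one_le_abs h0
      have h4 := abs_sub (c 3 + q * c' 3) (c 3)
      rw [add_sub_cancel_left, abs_mul, Nat.abs_cast, hc] at h4
      have h5 : (4 : ℤ) ≤ q := by exact_mod_cast hq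
      nlinarith
  have h3 : (2 : ℝ) ≤ |(((c + q • c') 3 : ℤ) : ℝ)| := by exact_mod_cast h2
  have h4 : (1 : ℝ) ≤ √lam := Real.one_le_sqrt.2 (by exact_mod_cast hlam)
  rw [h1, lor_lat_dd, abs_mul, abs_of_nonneg (Real.sqrt_nonneg _)]
  nlinarith
lemma LL_black_ez {g : G} (hg : g ∈ LL 1 51) :
    1 < |lor (rho g (lat 1 ![1, 0, -2, -2])) ez| := by
  obtain ⟨c', h1⟩ := hg.1.arith_lat ![1, 0, -2, -2]
  have h2 : (5 : ℤ) < |-14 + 51 * (3 * c' 2 + 4 * c' 3)| := by
    rw [lt_abs]; omega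
  have h3 : (5 : ℝ) < |-14 + 51 * (3 * (c' 2 : ℝ) + 4 * c' 3)| := by exact_mod_cast h2
  rw [h1, lor_lat_ez, abs_div, one_lt_div (by norm_num)]
  refine lt_of_eq_of_lt (by norm_num) (h3.trans_eq ?_)
  congr 1
  simp
  ring

lemma Cong.arith_stab {lam lam' q : ℕ} (hlam : 0 < lam) {g : G} (hg : Cong lam q g)
    (h : rho g dd = dd) : Cong lam' q g := by
  have hl : (√lam : ℝ) ≠ 0 := by positivity
  intro c
  obtain ⟨c', hc⟩ := hg (Function.update c 3 0)
  have h1 := lor_rho g (lat lam (Function.update c 3 0)) dd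
  rw [h, hc, lor_add_left, lor_smul_left, lor_lat_dd lam c', add_eq_left, ← mul_assoc] at h1
  have h2 : (q : ℝ) * c' 3 = 0 := (mul_eq_zero.1 h1).resolve_right hl
  have e : lat lam' c = lat lam (Function.update c 3 0) + ((c 3 : ℝ) * √lam') • dd := by
    simp [lat]
  have e' : (q : ℝ) • lat lam' c' = (q : ℝ) • lat lam c' := by
    simp only [lat, smul_add, smul_smul, ← mul_assoc, h2, zero_mul]
  refine ⟨c', ?_⟩
  rw [e', e, map_add, map_smul, h, hc]
  abel

lemma LL_stab {lam lam' q : ℕ} (hlam : 0 < lam) {g : G} (hg : g ∈ LL lam q)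
    (h : rho g dd = dd) : g ∈ LL lam' q :=
  ⟨hg.1.arith_stab hlam h, hg.2.arith_stab hlam (by rw [← h, rho_inv_rho, h])⟩

lemma arith_irr {x y : ℤ} (h : (x : ℝ) * √(17 : ℕ) + y = 0) : y = 0 := by
  rcases eq_or_ne x 0 with rfl | hx
  · simpa using h
  · have h1 : Irrational ((x : ℝ) * √(17 : ℕ) + y) :=
      ((Nat.Prime.irrational_sqrt (by norm_num)).intCast_mul hx).add_intCast y
    rw [h] at h1
    exact absurd h1 not_irrational_zero

lemma LL_fix_ez {q : ℕ} {g : G} (hg : g ∈ LL 17 q) (h : rho g ez = ez) :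
    rho g dd = dd := by
  have hl : (√(17 : ℕ) : ℝ) ≠ 0 := by positivity
  obtain ⟨a, ha⟩ := hg.1.arith_lat (Pi.single 2 1)
  obtain ⟨b, hb⟩ := hg.1.arith_lat (Pi.single 3 1)
  have e2' : lat 17 (Pi.single 2 1) = e2 := by simp [lat]
  rw [lat_add, e2'] at ha
  rw [lat_add, lat_single3, map_smul] at hb
  rw [ez_eq, map_add, map_smul, map_smul, ha] at h
  have h1 : (3 * √(17 : ℕ) : ℝ) • lat 17 (q • a) + (4 : ℝ) • lat 17 (q • b) = 0 := by
    linear_combination (norm := module) (5 * √(17 : ℕ) : ℝ) • h - (4 : ℝ) • hb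
  have h2 : q • b = 0 := funext fun i => by
    have h3 := congrArg (fun v => lor v (lat 17 (Pi.single i 1))) h1
    simp only [lor_add_left, lor_smul_left, lor_zero_left, arith_lor_single] at h3
    have h4 := arith_irr (x := 3 * (arithCoef 17 i * (q • a) i))
      (y := 4 * (arithCoef 17 i * (q • b) i)) (by push_cast at h3 ⊢; linarith)
    have h5 := arithCoef_ne (lam := 17) (by norm_num) i
    simpa [h5] using h4
  rw [h2, arith_lat_zero, add_zero] at hb
  exact smul_right_injective V hl hb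

end Pool.Agent.MP_7a4cc0_an

end

section

open Matrix MeasureTheory Set Topology Filter
open scoped ENNReal NNReal CompactlySupported

namespace Pool.Agent.MP_7a4cc0_an

namespace Torsion

section Ring

variable {R : Type*} [Ring R]

/-- `T` is congruent to one modulo `3 ^ k`. -/
def S (k : ℕ) (T : R) : Prop := ∃ A : R, T = 1 + ((3 : ℤ) ^ k) • A

lemma pow_eq (k : ℕ) (A : R) (m : ℕ) : ∃ C : R, (1 + ((3 : ℤ) ^ (k + 1)) • A) ^ m =
    1 + ((m : ℤ) * 3 ^ (k + 1)) • A + ((3 : ℤ) ^ (k + 2)) • C := by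
  induction m with
  | zero => exact ⟨0, by simp⟩
  | succ m ih =>
    obtain ⟨C, hC⟩ := ih
    refine ⟨C + ((m : ℤ) * 3 ^ k) • (A * A) + ((3 : ℤ) ^ (k + 1)) • (C * A), ?_⟩
    rw [pow_succ, hC]
    simp only [mul_add, add_mul, smul_mul_assoc, mul_smul_comm, one_mul, mul_one]
    push_cast
    module

lemma step_coprime {T : R} {m : ℕ} (hm : ¬ 3 ∣ m) (hT : T ^ m = 1) {k : ℕ} (h : S (k + 1) T) :
    S (k + 2) T := by
  obtain ⟨A, rfl⟩ := h
  obtain ⟨C, hC⟩ := pow_eq k A m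
  rw [hT] at hC
  have hc : IsCoprime (m : ℤ) 3 := by
    have := Nat.isCoprime_iff_coprime.2 ((Nat.Prime.coprime_iff_not_dvd Nat.prime_three).2 hm).symm
    exact_mod_cast this
  obtain ⟨a, b, hab⟩ := hc
  refine ⟨b • A - a • C, ?_⟩
  have h1 : ((m : ℤ) * 3 ^ (k + 1)) • A + ((3 : ℤ) ^ (k + 2)) • C = 0 := by
    rw [add_assoc] at hC
    exact (left_eq_add.1 hC)
  have h2 : ((3 : ℤ) ^ (k + 1)) • A = ((a * m + b * 3) * 3 ^ (k + 1)) • A := by rw [hab, one_mul]
  rw [h2]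
  linear_combination (norm := module) a • h1

lemma step_three (h3 : ∀ x : R, (3 : ℤ) • x = 0 → x = 0) {T : R} (hT : T ^ 3 = 1) {k : ℕ}
    (h : S (k + 1) T) : S (k + 2) T := by
  obtain ⟨A, rfl⟩ := h
  refine ⟨-(((3 : ℤ) ^ k) • (A * A)) - ((3 : ℤ) ^ (2 * k)) • (A * A * A), ?_⟩
  rw [add_right_inj, ← sub_eq_zero]
  apply h3
  rw [pow_succ, pow_two] at hT
  simp only [mul_add, add_mul, smul_mul_assoc, mul_smul_comm, one_mul, mul_one] at hT
  linear_combination (norm := module) hT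

lemma S.pow {T : R} (h : S 1 T) (m : ℕ) : S 1 (T ^ m) := by
  obtain ⟨A, rfl⟩ := h
  obtain ⟨C, hC⟩ := pow_eq 0 A m
  exact ⟨(m : ℤ) • A + (3 : ℤ) • C, by rw [hC]; module⟩

lemma eq_one (h3 : ∀ x : R, (3 : ℤ) • x = 0 → x = 0)
    (hs : ∀ T : R, (∀ k, S (k + 1) T) → T = 1) (n : ℕ) :
    ∀ T : R, 0 < n → S 1 T → T ^ n = 1 → T = 1 := by
  induction n using Nat.strong_induction_on with
  | _ n ih =>
    intro T hn h1 hT
    refine hs T fun k => ?_
    by_cases hd : 3 ∣ n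
    · obtain ⟨m, rfl⟩ := hd
      have h4 := ih m (by omega) (T ^ 3) (by omega) (h1.pow 3) (by rwa [← pow_mul])
      induction k with
      | zero => exact h1
      | succ k ihk => exact step_three h3 h4 ihk
    · induction k with
      | zero => exact h1
      | succ k ihk => exact step_coprime hd hT ihk

end Ring

lemma end_eq_one {M : Type*} [AddCommGroup M] [Module.Free ℤ M] {T : Module.End ℤ M}
    (h : ∀ w, ∃ u, T w = w + (3 : ℤ) • u) {n : ℕ} (hn : 0 < n) (hT : T ^ n = 1) : T = 1 := by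
  let b := Module.Free.chooseBasis ℤ M
  refine eq_one (fun x hx => ?_) (fun T hT => ?_) n T hn ?_ hT
  · ext w
    refine b.ext_elem fun i => ?_
    have := congrArg (fun f : Module.End ℤ M => b.repr (f w) i) hx
    simpa using this
  · ext w
    refine b.ext_elem fun i => ?_
    rw [← sub_eq_zero]
    by_contra hne
    set c : ℤ := b.repr (T w) i - b.repr ((1 : Module.End ℤ M) w) i with hc
    obtain ⟨A, hA⟩ := hT c.natAbs
    have h1 : (3 : ℤ) ^ (c.natAbs + 1) ∣ c := ⟨b.repr (A w) i, by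
      conv_lhs => rw [hc, hA]
      rw [LinearMap.add_apply, LinearMap.smul_apply, map_add, map_zsmul, Finsupp.add_apply,
        Finsupp.smul_apply, smul_eq_mul, add_sub_cancel_left]⟩
    have h2 := Int.natAbs_le_of_dvd_ne_zero h1 hne
    rw [Int.natAbs_pow] at h2
    have h3 : c.natAbs + 1 < 3 ^ (c.natAbs + 1) := Nat.lt_pow_self (by norm_num)
    simp at h2
    omega
  · choose u hu using h
    refine ⟨b.constr ℤ fun i => u (b i), b.ext fun i => ?_⟩
    rw [LinearMap.add_apply, LinearMap.smul_apply, Module.End.one_apply,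
      Module.Basis.constr_basis, pow_one, hu]

/-- The lattice as an additive map. -/
noncomputable def latL (lam : ℕ) : (Fin 4 → ℤ) →ₗ[ℤ] V :=
  (AddMonoidHom.mk' (lat lam) (lat_add lam)).toIntLinearMap

/-- The module over the integers of the field generated by the square root of 17. -/
noncomputable def Lam : Submodule ℤ V :=
  LinearMap.range ((latL 1).coprod ((√17 : ℝ) • latL 1))

lemma mem_Lam {w : V} : w ∈ Lam ↔ ∃ c c', lat 1 c + (√17 : ℝ) • lat 1 c' = w :=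
  ⟨fun ⟨p, hp⟩ => ⟨p.1, p.2, hp⟩, fun ⟨c, c', h⟩ => ⟨(c, c'), h⟩⟩

instance : Module.Finite ℤ Lam := inferInstanceAs (Module.Finite ℤ (LinearMap.range _))

lemma s17 : (√17 : ℝ) * √17 = 17 := Real.mul_self_sqrt (by norm_num)

lemma lat_zero (lam : ℕ) : lat lam 0 = 0 := by simp [lat]

lemma lat1_mem (c : Fin 4 → ℤ) : lat 1 c ∈ Lam := mem_Lam.2 ⟨c, 0, by simp [lat_zero]⟩

lemma nat_mem {w : V} (hw : w ∈ Lam) (t : ℕ) : (t : ℝ) • w ∈ Lam := by
  rw [Nat.cast_smul_eq_nsmul]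
  exact nsmul_mem hw t

lemma sqrt_mem {w : V} (hw : w ∈ Lam) : (√17 : ℝ) • w ∈ Lam := by
  obtain ⟨c, c', rfl⟩ := mem_Lam.1 hw
  refine mem_Lam.2 ⟨17 • c', c, ?_⟩
  rw [lat_nsmul, smul_add, smul_smul, s17, add_comm]
  norm_num

lemma lat17_mem (c : Fin 4 → ℤ) : lat 17 c ∈ Lam := by
  refine mem_Lam.2 ⟨![c 0, c 1, c 2, 0], ![0, 0, 0, c 3], ?_⟩
  simp only [lat, Nat.cast_one, Real.sqrt_one, Nat.cast_ofNat, Matrix.cons_val]
  push_cast
  module

/-- Congruent to the identity modulo three on the module. -/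
def P (g : G) : Prop := ∀ w ∈ Lam, ∃ u ∈ Lam, rho g w = w + (3 : ℝ) • u

lemma P.mul {g h : G} (hg : P g) (hh : P h) : P (g * h) := by
  intro w hw
  obtain ⟨u, hu, e⟩ := hh w hw
  obtain ⟨u1, hu1, e1⟩ := hg w hw
  obtain ⟨u2, hu2, e2⟩ := hg u hu
  refine ⟨u1 + u + ((3 : ℕ) : ℝ) • u2, add_mem (add_mem hu1 hu) (nat_mem hu2 3), ?_⟩
  rw [rho_mul, e, map_add, map_smul, e1, e2]
  push_cast
  module

/-- The congruence subgroup of level three of the module. -/
def PS : Subgroup G where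
  carrier := {g | P g ∧ P g⁻¹}
  mul_mem' := fun {g h} hg hh => ⟨hg.1.mul hh.1, by rw [_root_.mul_inv_rev]; exact hh.2.mul hg.2⟩
  one_mem' := by
    have : P 1 := fun w _ => ⟨0, zero_mem _, by simp⟩
    exact ⟨this, by rwa [inv_one]⟩
  inv_mem' := fun {g} hg => ⟨hg.2, by rw [inv_inv]; exact hg.1⟩

lemma P_of_one {t : ℕ} {g : G} (h : Cong 1 (51 * t) g) : P g := by
  intro w hw
  obtain ⟨c, c', rfl⟩ := mem_Lam.1 hw
  obtain ⟨d, hd⟩ := h c
  obtain ⟨d', hd'⟩ := h c'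
  refine ⟨((17 * t : ℕ) : ℝ) • (lat 1 d + (√17 : ℝ) • lat 1 d'),
    nat_mem (mem_Lam.2 ⟨d, d', rfl⟩) _, ?_⟩
  rw [map_add, map_smul, hd, hd']
  push_cast
  module

lemma P_of_17 {t : ℕ} {g : G} (h : Cong 17 (51 * t) g) : P g := by
  intro w hw
  obtain ⟨c, c', rfl⟩ := mem_Lam.1 hw
  have e : lat 1 c + (√17 : ℝ) • lat 1 c' = lat 17 ![c 0, c 1, c 2, c' 3] +
      (√17 : ℝ) • lat 17 ![c' 0, c' 1, c' 2, 0] + (√17 / 17 : ℝ) • lat 17 ![0, 0, 0, c 3] := by
    simp only [lat, Nat.cast_one, Real.sqrt_one, Nat.cast_ofNat, Matrix.cons_val]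
    push_cast
    match_scalars <;> first | ring1 | linear_combination (-(c 3 : ℝ) / 17) * s17
  obtain ⟨a, ha⟩ := h ![c 0, c 1, c 2, c' 3]
  obtain ⟨b, hb⟩ := h ![c' 0, c' 1, c' 2, 0]
  obtain ⟨d, hd⟩ := h ![0, 0, 0, c 3]
  refine ⟨((17 * t : ℕ) : ℝ) • lat 17 a + ((17 * t : ℕ) : ℝ) • (√17 : ℝ) • lat 17 b +
      (t : ℝ) • (√17 : ℝ) • lat 17 d,
    add_mem (add_mem (nat_mem (lat17_mem a) _) (nat_mem (sqrt_mem (lat17_mem b)) _))
      (nat_mem (sqrt_mem (lat17_mem d)) _), ?_⟩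
  rw [e, map_add, map_add, map_smul, map_smul, ha, hb, hd]
  push_cast
  module

end Torsion

open Pool.Agent.MP_7a4cc0_an.Torsion

theorem torsion_free {q : ℕ} (hq : 51 ∣ q) {g : G} (hg : g ∈ LL 1 q ⊔ LL 17 q)
    (ho : IsOfFinOrder g) : g = 1 := by
  obtain ⟨t, rfl⟩ := hq
  have hle : LL 1 (51 * t) ⊔ LL 17 (51 * t) ≤ PS :=
    sup_le (fun g hg => ⟨P_of_one hg.1, P_of_one hg.2⟩) fun g hg => ⟨P_of_17 hg.1, P_of_17 hg.2⟩
  have hP : P g := (hle hg).1
  have hmap : ∀ w ∈ Lam, (rho g : V →ₗ[ℝ] V).restrictScalars ℤ w ∈ Lam := by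
    intro w hw
    obtain ⟨u, hu, e⟩ := hP w hw
    have := nat_mem hu 3
    push_cast at this
    exact e ▸ add_mem hw this
  let T : Module.End ℤ Lam := ((rho g : V →ₗ[ℝ] V).restrictScalars ℤ).restrict hmap
  have hT : ∀ w : Lam, (T w : V) = rho g w := fun w => rfl
  have hpow : ∀ (m : ℕ) (w : Lam), ((T ^ m) w : V) = rho (g ^ m) w := by
    intro m
    induction m with
    | zero => intro w; simp
    | succ m ih => intro w; rw [pow_succ', pow_succ', Module.End.mul_apply, hT, ih, rho_mul]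
  obtain ⟨n, hn, hgn⟩ := isOfFinOrder_iff_pow_eq_one.1 ho
  have h1 : T = 1 := by
    refine end_eq_one (fun w => ?_) hn ?_
    · obtain ⟨u, hu, e⟩ := hP w w.2
      refine ⟨⟨u, hu⟩, Subtype.ext ?_⟩
      rw [hT, e]
      change _ = (w : V) + (3 : ℤ) • u
      rw [← Int.cast_smul_eq_zsmul ℝ]
      norm_num
    · ext1 w
      exact Subtype.ext (by rw [hpow, hgn, rho_one]; rfl)
  have h2 : (rho g : V →ₗ[ℝ] V) = LinearMap.id := by
    refine lat_ext one_pos fun c => ?_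
    have := hT ⟨lat 1 c, lat1_mem c⟩
    rw [h1] at this
    exact this.symm
  exact rho_eq_one fun v => by rw [h2]; rfl

end Pool.Agent.MP_7a4cc0_an

end
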