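import Pool.Agent.Mg.F14ad9d.Ga323a0
import Pool.Agent.Mg.F14ad9d.G15facc

section

set_option autoImplicit false
set_option linter.unusedSectionVars false

open Polynomial

namespace Pool.Agent.MP_14ad9d_nt.Full

namespace PAAux

variable {E : Type} [NormedField E] [IsUltrametricDist E]

theorem add_le {x y : E} {r : ℝ} (hx : ‖x‖ ≤ r) (hy : ‖y‖ ≤ r) : ‖x + y‖ ≤ r :=
  (IsUltrametricDist.norm_add_le_max x y).trans (max_le hx hy)

theorem add_lt {x y : E} {r : ℝ} (hx : ‖x‖ < r) (hy : ‖y‖ < r) : ‖x + y‖ < r :=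
  (IsUltrametricDist.norm_add_le_max x y).trans_lt (max_lt hx hy)

theorem sub_le {x y : E} {r : ℝ} (hx : ‖x‖ ≤ r) (hy : ‖y‖ ≤ r) : ‖x - y‖ ≤ r := by
  rw [sub_eq_add_neg]
  exact add_le hx (by rwa [norm_neg])

theorem sub_lt {x y : E} {r : ℝ} (hx : ‖x‖ < r) (hy : ‖y‖ < r) : ‖x - y‖ < r := by
  rw [sub_eq_add_neg]
  exact add_lt hx (by rwa [norm_neg])

theorem add_eq_one {x y : E} (hx : ‖x‖ = 1) (hy : ‖y‖ < 1) : ‖x + y‖ = 1 := by
  rw [IsUltrametricDist.norm_add_eq_max_of_norm_ne_norm (by rw [hx]; exact hy.ne'), hx,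
    max_eq_left hy.le]

theorem mul_lt {x y : E} (hx : ‖x‖ < 1) (hy : ‖y‖ ≤ 1) : ‖x * y‖ < 1 := by
  rw [norm_mul]
  exact mul_lt_one_of_nonneg_of_lt_one_left (norm_nonneg _) hx hy

theorem mul_le {x y : E} (hx : ‖x‖ ≤ 1) (hy : ‖y‖ ≤ 1) : ‖x * y‖ ≤ 1 := by
  rw [norm_mul]
  exact mul_le_one₀ hx (norm_nonneg _) hy

/-- the leading coefficients of a product with a monic polynomial control the other factor -/
theorem key {u q : E[X]} {r : ℝ} (hu : u.Monic) (h1 : Bd 1 u) (hr : 0 ≤ r)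
    (h : ∀ i, ‖(u * q).coeff (u.natDegree + i)‖ ≤ r) : Bd r q := by
  have main : ∀ n i, q.natDegree < i + n → ‖q.coeff i‖ ≤ r := by
    intro n
    induction n with
    | zero =>
      intro i hi
      rw [coeff_eq_zero_of_natDegree_lt (by omega), norm_zero]
      exact hr
    | succ n ih =>
      intro i hi
      have e : q.coeff i = (u * q).coeff (u.natDegree + i) -
          ((u - X ^ u.natDegree) * q).coeff (u.natDegree + i) := by
        rw [sub_mul, coeff_sub, add_comm u.natDegree i, coeff_X_pow_mul]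
        ring
      rw [e]
      refine sub_le (h i) ?_
      rw [coeff_mul]
      refine IsUltrametricDist.norm_sum_le_of_forall_le_of_nonneg hr fun x hx => ?_
      have hx' := Finset.HasAntidiagonal.mem_antidiagonal.1 hx
      rw [coeff_sub, coeff_X_pow]
      rcases lt_trichotomy x.1 u.natDegree with hlt | heq | hgt
      · rw [if_neg hlt.ne, sub_zero, norm_mul]
        calc ‖u.coeff x.1‖ * ‖q.coeff x.2‖ ≤ 1 * r :=
              mul_le_mul (h1 _) (ih _ (by omega)) (norm_nonneg _) zero_le_one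
          _ = r := one_mul r
      · rw [if_pos heq, heq, hu.coeff_natDegree, sub_self, zero_mul, norm_zero]
        exact hr
      · rw [if_neg hgt.ne', coeff_eq_zero_of_natDegree_lt hgt, sub_zero, zero_mul, norm_zero]
        exact hr
  exact fun i => main (q.natDegree + 1) i (by omega)

/-- the ring of integers -/
def O (E : Type) [NormedField E] [IsUltrametricDist E] : Subring E where
  carrier := {x | ‖x‖ ≤ 1}
  mul_mem' := fun hx hy => mul_le hx hy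
  one_mem' := norm_one.le
  add_mem' := fun hx hy => add_le hx hy
  zero_mem' := by simp
  neg_mem' := fun hx => by simpa using hx

theorem frob {l : ℕ} (hl : l.Prime) {x y : E} (hx : ‖x‖ ≤ 1) (hy : ‖y‖ ≤ 1) :
    ∃ z : E, ‖z‖ ≤ 1 ∧ (x + y) ^ l = x ^ l + y ^ l + l * z := by
  obtain ⟨t, ht⟩ := exists_add_pow_prime_eq hl (⟨x, hx⟩ : O E) ⟨y, hy⟩
  refine ⟨x * y * t, mul_le (mul_le hx hy) t.2, ?_⟩
  have := congrArg (Subtype.val : O E → E) ht
  push_cast at this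
  rw [this]
  ring

end PAAux

open PAAux

section Gauss

variable {E : Type} [NormedField E] [IsUltrametricDist E] {r r' : ℝ} {p q u : E[X]}

theorem Bd.nonneg (h : Bd r p) : 0 ≤ r := by
  exact (norm_nonneg _).trans (h 0)

theorem Bd.mono (h : Bd r p) (hr : r ≤ r') : Bd r' p := by
  exact fun i => (h i).trans hr

theorem bd_zero (hr : 0 ≤ r) : Bd r (0 : E[X]) := by
  intro i
  rw [coeff_zero, norm_zero]
  exact hr

theorem bd_C (a : E) : Bd ‖a‖ (C a) := by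
  intro i
  rw [coeff_C]
  split_ifs
  · exact le_rfl
  · rw [norm_zero]
    exact norm_nonneg _

theorem bd_X : Bd 1 (X : E[X]) := by
  intro i
  rw [coeff_X]
  split_ifs <;> simp

theorem Bd.add (h : Bd r p) (h' : Bd r q) : Bd r (p + q) := by
  intro i
  rw [coeff_add]
  exact add_le (h i) (h' i)

theorem Bd.neg (h : Bd r p) : Bd r (-p) := by
  intro i
  rw [coeff_neg, norm_neg]
  exact h i

theorem Bd.sub (h : Bd r p) (h' : Bd r q) : Bd r (p - q) := by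
  rw [sub_eq_add_neg]
  exact h.add h'.neg

theorem Bd.mul (h : Bd r p) (h' : Bd r' q) : Bd (r * r') (p * q) := by
  intro i
  rw [coeff_mul]
  refine IsUltrametricDist.norm_sum_le_of_forall_le_of_nonneg (mul_nonneg h.nonneg h'.nonneg)
    fun x _ => ?_
  rw [norm_mul]
  exact mul_le_mul (h _) (h' _) (norm_nonneg _) h.nonneg

theorem Bd.pow (h : Bd r p) (n : ℕ) : Bd (r ^ n) (p ^ n) := by
  induction n with
  | zero =>
    rw [pow_zero, pow_zero, ← C_1, ← norm_one (α := E)]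
    exact bd_C 1
  | succ n ih =>
    rw [pow_succ, pow_succ]
    exact ih.mul h

theorem Bd.eval (h : Bd r p) {a : E} (ha : ‖a‖ ≤ 1) : ‖p.eval a‖ ≤ r := by
  rw [eval_eq_sum_range]
  refine IsUltrametricDist.norm_sum_le_of_forall_le_of_nonneg h.nonneg fun i _ => ?_
  rw [norm_mul, norm_pow]
  calc ‖p.coeff i‖ * ‖a‖ ^ i ≤ r * 1 :=
        mul_le_mul (h i) (pow_le_one₀ (norm_nonneg _) ha) (by positivity) h.nonneg
    _ = r := mul_one r

theorem Bd.divByMonic (h : Bd r p) (hu : u.Monic) (h1 : Bd 1 u) : Bd r (p /ₘ u) := by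
  refine key hu h1 h.nonneg fun i => ?_
  have e : u * (p /ₘ u) = p - p %ₘ u := by
    rw [eq_sub_iff_add_eq, add_comm]
    exact modByMonic_add_div p u
  have e2 : (p %ₘ u).coeff (u.natDegree + i) = 0 := by
    refine coeff_eq_zero_of_degree_lt ((degree_modByMonic_lt p hu).trans_le
      (degree_le_natDegree.trans ?_))
    exact_mod_cast Nat.le_add_right _ _
  rw [e, coeff_sub, e2, sub_zero]
  exact h _

theorem Bd.modByMonic (h : Bd r p) (hu : u.Monic) (h1 : Bd 1 u) : Bd r (p %ₘ u) := by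
  have e : p %ₘ u = p - u * (p /ₘ u) := by
    rw [eq_sub_iff_add_eq]
    exact modByMonic_add_div p u
  have := h1.mul (h.divByMonic hu h1)
  rw [one_mul] at this
  rw [e]
  exact h.sub this

theorem Bd.of_mul (hu : u.Monic) (h1 : Bd 1 u) (h : Bd r (u * p)) : Bd r p := by
  exact key hu h1 h.nonneg fun i => h _

theorem Bd.eq_zero (h : ∀ r : ℝ, 0 < r → Bd r p) : p = 0 := by
  ext i
  rw [coeff_zero, ← norm_le_zero_iff]
  exact le_of_forall_pos_le_add fun ε hε => by rw [zero_add]; exact h ε hε i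

theorem root_le_one (hu : u.Monic) (h1 : Bd 1 u) {a : E} (ha : u.IsRoot a) : ‖a‖ ≤ 1 := by
  by_contra hc
  push Not at hc
  have e := ha.eq_zero
  rw [eval_eq_sum_range, Finset.sum_range_succ, hu.coeff_natDegree, one_mul] at e
  rcases Nat.eq_zero_or_pos u.natDegree with h0 | h0
  · rw [h0] at e
    simp at e
  have e2 : a ^ u.natDegree = -∑ i ∈ Finset.range u.natDegree, u.coeff i * a ^ i := by
    linear_combination e
  have h3 : ‖a ^ u.natDegree‖ ≤ ‖a‖ ^ (u.natDegree - 1) := by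
    rw [e2, norm_neg]
    refine IsUltrametricDist.norm_sum_le_of_forall_le_of_nonneg (by positivity) fun i hi => ?_
    have hi' := Finset.mem_range.1 hi
    rw [norm_mul, norm_pow]
    calc ‖u.coeff i‖ * ‖a‖ ^ i ≤ 1 * ‖a‖ ^ (u.natDegree - 1) :=
          mul_le_mul (h1 i) (pow_le_pow_right₀ hc.le (by omega)) (by positivity) zero_le_one
      _ = _ := one_mul _
  rw [norm_pow] at h3
  exact absurd h3 (not_le.2 (pow_lt_pow_right₀ hc (by omega)))

theorem bd_prod (R : Multiset E) (h : ∀ a ∈ R, ‖a‖ ≤ 1) :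
    Bd 1 (R.map fun a => X - C a).prod := by
  induction R using Multiset.induction_on with
  | empty =>
    rw [Multiset.map_zero, Multiset.prod_zero, ← C_1, ← norm_one (α := E)]
    exact bd_C 1
  | cons a R ih =>
    rw [Multiset.map_cons, Multiset.prod_cons]
    have := (bd_X.sub ((bd_C a).mono (h a (Multiset.mem_cons_self _ _)))).mul
      (ih fun b hb => h b (Multiset.mem_cons_of_mem hb))
    rwa [one_mul] at this

namespace PAAux

theorem bd_one : Bd 1 (1 : E[X]) := by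
  rw [← C_1, ← norm_one (α := E)]
  exact bd_C 1

theorem bd_mul (h : Bd r p) (h' : Bd 1 q) : Bd r (p * q) := by
  have := h.mul h'
  rwa [mul_one] at this

theorem bd_pow (h : Bd 1 p) (n : ℕ) : Bd 1 (p ^ n) := by
  have := h.pow n
  rwa [one_pow] at this

theorem lip (h : Bd 1 p) {a a' : E} (ha : ‖a‖ ≤ 1) (ha' : ‖a'‖ ≤ 1) :
    ‖p.eval a - p.eval a'‖ ≤ ‖a - a'‖ := by
  have e := modByMonic_add_div p (X - C a')
  rw [modByMonic_X_sub_C_eq_C_eval] at e
  have e2 := congrArg (Polynomial.eval a) e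
  simp only [eval_add, eval_C, eval_mul, eval_sub, eval_X] at e2
  have h2 := (h.divByMonic (monic_X_sub_C a') (bd_X.sub ((bd_C a').mono ha'))).eval ha
  rw [← e2, add_sub_cancel_left, norm_mul]
  exact mul_le_of_le_one_right (norm_nonneg _) h2

theorem inv_aux (hp : Bd 1 p) (R : Multiset E) (h : ∀ a ∈ R, ‖a‖ ≤ 1 ∧ ‖p.eval a‖ = 1) :
    ∃ q, Bd 1 q ∧ (R.map fun a => X - C a).prod ∣ p * q - 1 := by
  induction R using Multiset.induction_on with
  | empty => exact ⟨0, bd_zero zero_le_one, by simp⟩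
  | cons a R ih =>
    obtain ⟨q, hq, t, ht⟩ := ih fun b hb => h b (Multiset.mem_cons_of_mem hb)
    obtain ⟨ha, hpa⟩ := h a (Multiset.mem_cons_self _ _)
    have hU := bd_prod R fun b hb => (h b (Multiset.mem_cons_of_mem hb)).1
    have hm : (R.map fun a => X - C a).prod.Monic := monic_multisetProd_X_sub_C R
    rw [Multiset.map_cons, Multiset.prod_cons]
    generalize (R.map fun a => X - C a).prod = U at ht hU hm
    have htb : Bd 1 t := Bd.of_mul hm hU (by rw [← ht]; exact (bd_mul hp hq).sub bd_one)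
    have h0 : p.eval a ≠ 0 := by
      rw [← norm_ne_zero_iff, hpa]
      exact one_ne_zero
    have hc : ‖-t.eval a / p.eval a‖ ≤ 1 := by
      rw [norm_div, norm_neg, hpa, div_one]
      exact htb.eval ha
    refine ⟨q + C (-t.eval a / p.eval a) * U, hq.add (bd_mul ((bd_C _).mono hc) hU), ?_⟩
    have e : p * (q + C (-t.eval a / p.eval a) * U) - 1 =
        (t + C (-t.eval a / p.eval a) * p) * U := by
      linear_combination ht
    rw [e]
    refine mul_dvd_mul_right (dvd_iff_isRoot.2 ?_) U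
    simp only [IsRoot.def, eval_add, eval_mul, eval_C]
    field_simp
    ring

end PAAux

/-- a polynomial whose values at the roots are units is invertible modulo `u` -/
theorem exists_inv_mod [IsAlgClosed E] (hu : u.Monic) (h1 : Bd 1 u) (hp : Bd 1 p)
    (h : ∀ a, u.IsRoot a → ‖p.eval a‖ = 1) : ∃ q, Bd 1 q ∧ u ∣ p * q - 1 := by
  obtain ⟨q, hq, hd⟩ := inv_aux hp u.roots fun a ha =>
    ⟨root_le_one hu h1 (isRoot_of_mem_roots ha), h a (isRoot_of_mem_roots ha)⟩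
  rw [← (IsAlgClosed.splits u).eq_prod_roots_of_monic hu] at hd
  exact ⟨q, hq, hd⟩

end Gauss

variable {l : ℕ} [Fact l.Prime] [Fact (2 < l)] {E : Type} [NormedField E] [IsUltrametricDist E]
  [IsAlgClosed E] [CharZero E] {s : Eˣ} (B : Base l s)

include B in
theorem Base.norm_two : ‖(2 : E)‖ = 1 := by
  have h2 : ‖(2 : E)‖ ≤ 1 := by exact_mod_cast IsUltrametricDist.norm_natCast_le_one E 2
  refine le_antisymm h2 (not_lt.1 fun hc => ?_)
  have h3 := JBaseAux.l_odd (l := l)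
  have e : (1 : E) = l - 2 * ((l / 2 : ℕ) : E) := by
    have : l = 2 * (l / 2) + 1 := by omega
    conv_rhs => enter [1]; rw [this]
    push_cast
    ring
  have h4 := sub_lt B.hl (mul_lt hc (IsUltrametricDist.norm_natCast_le_one E (l / 2)))
  rw [← e, norm_one] at h4
  exact lt_irrefl _ h4

namespace PAAux

theorem eval_FF (a : E) : (FF l s).eval a = a ^ l + (s : E) ^ 2 := by
  simp [FF]

theorem sq_le {x : E} (hx : ‖x‖ ≤ 1) : ‖x ^ 2‖ ≤ 1 := by
  rw [sq]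
  exact mul_le hx hx

theorem pl_le {a b : E} (h : B.Pl a b) : ‖b‖ ≤ 1 := by
  have := add_le h.2.2.le B.hy.le
  rwa [sub_add_cancel] at this

theorem norm_two_y : ‖2 * B.y₁‖ = 1 := by
  rw [norm_mul, B.norm_two, B.hy, one_mul]

end PAAux

theorem Base.bd_u₀ : Bd 1 B.u₀ := by
  rw [(IsAlgClosed.splits B.u₀).eq_prod_roots_of_monic B.monic]
  refine bd_prod _ fun a ha => ?_
  have h := (isRoot_of_mem_roots ha).dvd B.dvd
  simp only [IsRoot.def, eval_sub, eval_pow, eval_C, eval_FF] at h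
  have e : a ^ l = B.y₁ ^ 2 - (s : E) ^ 2 := by linear_combination -h
  have h2 : ‖a ^ l‖ ≤ 1 := by
    rw [e]
    exact sub_le (sq_le B.hy.le) (sq_le B.hs)
  rw [norm_pow] at h2
  exact (pow_le_one_iff_of_nonneg (norm_nonneg _) (Fact.out : l.Prime).ne_zero).1 h2

include B in
theorem Base.bd_FF : Bd 1 (FF l s) := by
  exact (bd_pow bd_X l).add ((bd_C _).mono (sq_le B.hs))

theorem Base.cl_base {r : ℝ} (hr : 0 ≤ r) : B.Cl r B.u₀ (C B.y₁) := by
  have h2 : 2 < l := Fact.out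
  refine ⟨⟨B.monic, degree_C_le.trans_lt ?_, B.dvd⟩, B.deg, ?_, ?_⟩
  · exact natDegree_pos_iff_degree_pos.1 (by rw [B.deg]; omega)
  · rw [sub_self]
    exact bd_zero hr
  · rw [sub_self]
    exact bd_zero hr

theorem Base.pl_close {a b a' b' : E} (h : B.Pl a b) (h' : B.Pl a' b') : ‖a - a'‖ < 1 := by
  have hl : l.Prime := Fact.out
  have hodd : Odd l := Nat.odd_iff.2 JBaseAux.l_odd
  obtain ⟨z, hz, e⟩ := frob hl h.2.1 (y := -a') (by rw [norm_neg]; exact h'.2.1)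
  rw [hodd.neg_pow] at e
  have e2 : (a - a') ^ l = ((b - B.y₁) - (b' - B.y₁)) * (b + b') + l * z := by
    rw [sub_eq_add_neg a, e]
    linear_combination h'.1 - h.1
  have h3 : ‖(a - a') ^ l‖ < 1 := by
    rw [e2]
    exact add_lt (mul_lt (sub_lt h.2.2 h'.2.2) (add_le (pl_le B h) (pl_le B h')))
      (mul_lt B.hl hz)
  rw [norm_pow] at h3
  exact (pow_lt_one_iff_of_nonneg (norm_nonneg _) hl.ne_zero).1 h3

namespace PAAux

theorem bd_u {r : ℝ} (hr : r < 1) {u : E[X]} (h : Bd r (u - B.u₀)) : Bd 1 u := by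
  have := (h.mono hr.le).add B.bd_u₀
  rwa [sub_add_cancel] at this

theorem exists_h : ∃ h, Bd 1 h ∧ C B.y₁ ^ 2 - FF l s = B.u₀ * h := by
  obtain ⟨h, e⟩ := B.dvd
  refine ⟨h, Bd.of_mul B.monic B.bd_u₀ ?_, e⟩
  rw [← e]
  exact (bd_pow ((bd_C _).mono B.hy.le) 2).sub B.bd_FF

theorem prod_fst (R : Multiset (E × E)) :
    (R.map fun p => X - C p.1).prod = ((R.map Prod.fst).map fun a => X - C a).prod := by
  rw [Multiset.map_map]
  rfl

theorem monic_prod (R : Multiset (E × E)) : (R.map fun p : E × E => X - C p.1).prod.Monic := by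
  rw [prod_fst]
  exact monic_multisetProd_X_sub_C _

theorem root_prod {R : Multiset (E × E)} {a : E} :
    (R.map fun p : E × E => X - C p.1).prod.IsRoot a ↔ ∃ p ∈ R, p.1 = a := by
  rw [← mem_roots (monic_prod R).ne_zero, prod_fst, roots_multiset_prod_X_sub_C,
    Multiset.mem_map]

theorem interp (R : Multiset (E × E)) (h : ∀ p ∈ R, B.Pl p.1 p.2) :
    ∃ W : E[X], Bd 1 W ∧ IsMum l s (R.map fun p => X - C p.1).prod W ∧
      (∀ p ∈ R, W.eval p.1 = p.2) := by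
  induction R using Multiset.induction_on with
  | empty => exact ⟨0, bd_zero zero_le_one, J1bAux.isMum_one, by simp⟩
  | cons p R ih =>
    obtain ⟨a, b⟩ := p
    have hp : B.Pl a b := h _ (Multiset.mem_cons_self _ _)
    have hR : ∀ p ∈ R, B.Pl p.1 p.2 := fun q hq => h q (Multiset.mem_cons_of_mem hq)
    rw [Multiset.map_cons, Multiset.prod_cons]
    rcases R.empty_or_exists_mem with rfl | ⟨p₁, hp₁⟩
    · refine ⟨C b, (bd_C b).mono (pl_le B hp), ?_, by simp⟩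
      rw [Multiset.map_zero, Multiset.prod_zero, mul_one]
      exact ⟨monic_X_sub_C a, by rw [degree_X_sub_C]; exact degree_C_lt, pt_dvd hp.1⟩
    obtain ⟨W, hW, ⟨hm, hdeg, H, hH⟩, hev⟩ := ih hR
    have hU : Bd 1 (R.map fun p => X - C p.1).prod := by
      rw [prod_fst]
      refine bd_prod _ fun x hx => ?_
      obtain ⟨q, hq, rfl⟩ := Multiset.mem_map.1 hx
      exact (hR q hq).2.1
    have hroot : ∀ q ∈ R, (R.map fun p : E × E => X - C p.1).prod.eval q.1 = 0 := fun q hq =>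
      root_prod.2 ⟨q, hq, rfl⟩
    generalize (R.map fun p => X - C p.1).prod = U at hm hdeg hH hU hroot
    have hHb : Bd 1 H := Bd.of_mul hm hU (by rw [← hH]; exact (bd_pow hW 2).sub B.bd_FF)
    have h1 : ‖W.eval a - B.y₁‖ < 1 := by
      have e : W.eval a - B.y₁ = (W.eval a - W.eval p₁.1) + (p₁.2 - B.y₁) := by
        rw [hev p₁ hp₁]
        ring
      rw [e]
      exact add_lt ((lip hW hp.2.1 (hR p₁ hp₁).2.1).trans_lt (B.pl_close hp (hR p₁ hp₁)))
        (hR p₁ hp₁).2.2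
    have h2 : ‖b + W.eval a‖ = 1 := by
      have e : b + W.eval a = 2 * B.y₁ + ((b - B.y₁) + (W.eval a - B.y₁)) := by ring
      rw [e]
      exact add_eq_one (norm_two_y B) (add_lt hp.2.2 h1)
    have h0 : b + W.eval a ≠ 0 := by
      rw [← norm_ne_zero_iff, h2]
      exact one_ne_zero
    obtain ⟨c, hc1, hc2⟩ : ∃ c : E, ‖c‖ ≤ 1 ∧ H.eval a = -c * (b + W.eval a) := by
      refine ⟨-H.eval a / (b + W.eval a), ?_, by field_simp⟩
      rw [norm_div, norm_neg, h2, div_one]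
      exact hHb.eval hp.2.1
    have h3 := congrArg (Polynomial.eval a) hH
    simp only [eval_sub, eval_pow, eval_mul, eval_FF] at h3
    have h4 : W.eval a + c * U.eval a = b := by
      refine mul_right_cancel₀ h0 ?_
      rw [hc2] at h3
      linear_combination h3 - hp.1
    refine ⟨W + C c * U, hW.add (bd_mul ((bd_C c).mono hc1) hU),
      ⟨(monic_X_sub_C a).mul hm, ?_, ?_⟩, ?_⟩
    · have h5 : U.degree < ((X - C a) * U).degree := by
        rw [degree_mul, degree_X_sub_C, degree_eq_natDegree hm.ne_zero]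
        exact_mod_cast (by omega : U.natDegree < 1 + U.natDegree)
      refine lt_of_le_of_lt ((degree_add_le _ _).trans (max_le hdeg.le ?_)) h5
      rw [← smul_eq_C_mul]
      exact degree_smul_le _ _
    · have e : (W + C c * U) ^ 2 - FF l s = (H + C c * (2 * W + C c * U)) * U := by
        linear_combination hH
      rw [e]
      refine mul_dvd_mul_right (dvd_iff_isRoot.2 ?_) U
      simp only [IsRoot.def, eval_add, eval_mul, eval_C, eval_ofNat]
      linear_combination hc2 + c * h4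
    · intro q hq
      rcases Multiset.mem_cons.1 hq with rfl | hq
      · simpa using h4
      · simp [hroot q hq, hev q hq]

theorem split (R : Multiset (E × E)) {W : E[X]}
    (hd : (R.map fun p => X - C p.1).prod ∣ W ^ 2 - FF l s) (hev : ∀ p ∈ R, W.eval p.1 = p.2) :
    (R.map fun p => pt l s p.1 p.2).prod = mum l s (R.map fun p => X - C p.1).prod W := by
  rw [prod_fst] at hd ⊢
  rw [mum_split _ hd, Multiset.map_map]
  congr 1
  refine Multiset.map_congr rfl fun p hp => ?_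
  simp only [Function.comp_apply, hev p hp]

end PAAux

theorem Base.pl_or {r : ℝ} (hr : r < 1) {u : E[X]} (hu : u.Monic) (h : Bd r (u - B.u₀)) {a b : E}
    (ha : u.IsRoot a) (hb : b ^ 2 = a ^ l + (s : E) ^ 2) : B.Pl a b ∨ B.Pl a (-b) := by
  have ha1 : ‖a‖ ≤ 1 := root_le_one hu (bd_u B hr h) ha
  obtain ⟨t, ht, e⟩ := exists_h B
  have h1 : ‖B.u₀.eval a‖ < 1 := by
    have := (h.eval ha1).trans_lt hr
    rwa [eval_sub, ha.eq_zero, zero_sub, norm_neg] at this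
  have h2 := mul_lt h1 (ht.eval ha1)
  have e2 := congrArg (Polynomial.eval a) e
  simp only [eval_sub, eval_pow, eval_mul, eval_FF, eval_C] at e2
  have e3 : B.u₀.eval a * t.eval a = (b - B.y₁) * (-b - B.y₁) := by
    linear_combination -e2 + hb
  rw [e3, norm_mul] at h2
  by_cases h3 : ‖b - B.y₁‖ < 1
  · exact Or.inl ⟨hb, ha1, h3⟩
  · refine Or.inr ⟨by rw [neg_sq]; exact hb, ha1, ?_⟩
    by_contra h4
    exact absurd h2 (not_lt.2 (one_le_mul_of_one_le_of_one_le (not_lt.1 h3) (not_lt.1 h4)))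

/-- interpolation in the residue disc -/
theorem Base.exists_W (R : Multiset (E × E)) (h : ∀ p ∈ R, B.Pl p.1 p.2) :
    ∃ W : E[X], Bd 1 W ∧ IsMum l s (R.map fun p => X - C p.1).prod W ∧
      (∀ p ∈ R, W.eval p.1 = p.2) ∧
      (R.map fun p => pt l s p.1 p.2).prod = mum l s (R.map fun p => X - C p.1).prod W := by
  obtain ⟨W, h1, h2, h3⟩ := interp B R h
  exact ⟨W, h1, h2, h3, split R h2.2.2 h3⟩

/-- the second coordinate is as close as the first -/
theorem Base.cl_of {r : ℝ} (hr : r < 1) {u v : E[X]} (hm : IsMum l s u v)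
    (hd : u.natDegree = l / 2) (hu : Bd r (u - B.u₀))
    (hv : ∀ a, u.IsRoot a → B.Pl a (v.eval a)) : B.Cl r u v := by
  have hl2 : 2 < l := Fact.out
  have hu1 := bd_u B hr hu
  have eu : ((u.roots.map fun a => (a, v.eval a)).map fun p => X - C p.1).prod = u := by
    rw [Multiset.map_map]
    exact ((IsAlgClosed.splits u).eq_prod_roots_of_monic hm.1).symm
  have hv1 : Bd 1 v := by
    obtain ⟨W, h1, h2, -, h4⟩ := B.exists_W (u.roots.map fun a => (a, v.eval a)) fun p hp => by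
      obtain ⟨a, ha, rfl⟩ := Multiset.mem_map.1 hp
      exact hv a (isRoot_of_mem_roots ha)
    rw [split _ (W := v) (by rw [eu]; exact hm.2.2) fun p hp => by
      obtain ⟨a, ha, rfl⟩ := Multiset.mem_map.1 hp
      rfl] at h4
    rw [eu] at h2 h4
    have h5 := JBaseAux.gen_mem₂ (l := l) (s := s) u v
    rw [h4, mem_mum h2.2.2] at h5
    have h6 : -v + W * 1 = 0 := by
      refine eq_zero_of_dvd_of_degree_lt h5 ((degree_add_le _ _).trans_lt (max_lt ?_ ?_))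
      · rw [degree_neg]
        exact hm.2.1
      · rw [mul_one]
        exact h2.2.1
    have h7 : v = W := by linear_combination -h6
    rw [h7]
    exact h1
  have hy : Bd 1 (C B.y₁) := (bd_C _).mono B.hy.le
  obtain ⟨q, hq, w, hw⟩ := exists_inv_mod hm.1 hu1 (hv1.add hy) fun a ha => by
    have e : (v + C B.y₁).eval a = 2 * B.y₁ + (v.eval a - B.y₁) := by
      rw [eval_add, eval_C]
      ring
    rw [e]
    exact add_eq_one (norm_two_y B) (hv a ha).2.2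
  obtain ⟨t, ht, e⟩ := exists_h B
  obtain ⟨t', ht'⟩ := hm.2.2
  refine ⟨hm, hd, hu, ?_⟩
  have e2 : v - C B.y₁ = ((u - B.u₀) * t * q) %ₘ u := by
    refine (div_modByMonic_unique (q := (v - C B.y₁) * w - (t' - t) * q) _ hm.1
      ⟨?_, ?_⟩).2.symm
    · linear_combination (-(v - C B.y₁)) * hw + q * ht' - q * e
    · refine (degree_sub_le _ _).trans_lt (max_lt hm.2.1 (degree_C_le.trans_lt ?_))
      exact natDegree_pos_iff_degree_pos.1 (by omega)
  rw [e2]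
  exact (bd_mul (bd_mul hu ht) hq).modByMonic hm.1 hu1

theorem Base.Cl.pl {B : Base l s} {r : ℝ} (hr : r < 1) {u v : E[X]} (h : B.Cl r u v) {a : E}
    (ha : u.IsRoot a) : B.Pl a (v.eval a) := by
  have ha1 : ‖a‖ ≤ 1 := root_le_one h.1.1 (bd_u B hr h.2.2.1) ha
  refine ⟨?_, ha1, ?_⟩
  · have := ha.dvd h.1.2.2
    simp only [IsRoot.def, eval_sub, eval_pow, eval_FF] at this
    exact sub_eq_zero.1 this
  · have := (h.2.2.2.eval ha1).trans_lt hr
    rwa [eval_sub, eval_C] at this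

/-- a residual divisor without points in the residue disc lies in the opposite disc -/
theorem Base.resid {r : ℝ} (hr : r < 1) {u : E[X]} (hu : u.Monic) (hd : u.natDegree = l / 2)
    (h : Bd r (u - B.u₀)) {J : Ideal (CR l s)}
    (hN : J * J.map (starRingEnd (CR l s)) = Ideal.span {⟨u, 0⟩})
    (hno : ∀ a b, B.Pl a b → ¬J ≤ pt l s a b) :
    ∃ v, B.Cl r u v ∧ cl l (mum l s u v) * cl l J = 1 := by
  have hne : J * J.map (starRingEnd (CR l s)) ≠ ⊥ := by
    rw [hN, Ne, Ideal.span_singleton_eq_bot]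
    exact fun e => hu.ne_zero (congrArg QuadraticAlgebra.re e)
  have hJ : J ≠ ⊥ := left_ne_zero_of_mul hne
  have hJ' : J.map (starRingEnd (CR l s)) ≠ ⊥ := right_ne_zero_of_mul hne
  obtain ⟨R, hR, eJ⟩ := ideal_eq_prod_pt hJ
  have e1 := prod_pt_mul_star R hR
  rw [← eJ, hN] at e1
  have dv : ∀ p q : E[X], Ideal.span {(⟨p, 0⟩ : CR l s)} ≤ Ideal.span {⟨q, 0⟩} → q ∣ p := by
    intro p q hpq
    obtain ⟨z, hz⟩ := Ideal.span_singleton_le_span_singleton.1 hpq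
    refine ⟨z.re, ?_⟩
    simpa using congrArg QuadraticAlgebra.re hz
  have eu : (R.map fun p => X - C p.1).prod = u :=
    eq_of_monic_of_associated (monic_prod R) hu
      (associated_of_dvd_dvd (dv _ _ e1.le) (dv _ _ e1.ge))
  have hpl : ∀ p ∈ R, B.Pl p.1 (-p.2) := fun p hp => by
    refine (B.pl_or hr hu h (by rw [← eu]; exact root_prod.2 ⟨p, hp, rfl⟩) (hR p hp)).resolve_left
      fun hc => hno _ _ hc ?_
    rw [eJ]
    exact Ideal.le_of_dvd (Multiset.dvd_prod (Multiset.mem_map_of_mem _ hp))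
  obtain ⟨W, -, h2, h3, h4⟩ := B.exists_W (R.map fun p => (p.1, -p.2)) fun p hp => by
    obtain ⟨q, hq, rfl⟩ := Multiset.mem_map.1 hp
    exact hpl q hq
  have eu' : ((R.map fun p => (p.1, -p.2)).map fun p : E × E => X - C p.1).prod = u := by
    rw [Multiset.map_map]
    exact eu
  rw [eu'] at h2 h4
  refine ⟨W, B.cl_of hr h2 hd h fun a ha => ?_, ?_⟩
  · rw [← eu] at ha
    obtain ⟨p, hp, rfl⟩ := root_prod.1 ha
    rw [h3 (p.1, -p.2) (Multiset.mem_map_of_mem _ hp)]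
    exact hpl p hp
  · have e2 : J.map (starRingEnd (CR l s)) = mum l s u W := by
      rw [← h4, eJ]
      change Ideal.mapHom (starRingEnd (CR l s)) _ = _
      rw [map_multiset_prod, Multiset.map_map, Multiset.map_map]
      congr 1
      refine Multiset.map_congr rfl fun p _ => ?_
      simp only [Function.comp_apply, Ideal.mapHom_apply, pt, map_star_mum, C_neg]
    rw [← e2, mul_comm, ← cl_mul hJ hJ', hN, cl_span]

end Pool.Agent.MP_14ad9d_nt.Full

end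

section

set_option autoImplicit false

open Polynomial

namespace Pool.Agent.MP_14ad9d_nt.Full.PBAux

section Gauss

variable {E : Type} [NormedField E] [IsUltrametricDist E]

omit [IsUltrametricDist E] in
theorem exists_max (p : E[X]) : ∃ i, Bd ‖p.coeff i‖ p := by
  obtain ⟨i, _, hi⟩ := Finset.exists_max_image (Finset.range (p.natDegree + 1))
    (fun i => ‖p.coeff i‖) ⟨0, by simp⟩
  refine ⟨i, fun j => ?_⟩
  by_cases hj : j < p.natDegree + 1
  · exact hi j (Finset.mem_range.2 hj)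
  · rw [coeff_eq_zero_of_natDegree_lt (by omega), norm_zero]
    exact norm_nonneg _

omit [IsUltrametricDist E] in
theorem bd_of_step {p : E[X]} {ρ t : ℝ} (hρ : 0 ≤ ρ) (ht : t < 1)
    (h : ∀ β, Bd β p → Bd (max ρ (β * t)) p) : Bd ρ p := by
  obtain ⟨i, hi⟩ := exists_max p
  have h1 := h _ hi i
  by_cases hle : ‖p.coeff i‖ ≤ ρ
  · exact fun j => (hi j).trans hle
  · exfalso
    have hlt : ρ < ‖p.coeff i‖ := not_le.1 hle
    rcases le_max_iff.1 h1 with h2 | h2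
    · exact hle h2
    · have h3 : 0 < ‖p.coeff i‖ := lt_of_le_of_lt hρ hlt
      nlinarith

theorem mod_eq_of_dvd {u p q : E[X]} (hu : u.Monic) (hp : p.degree < u.degree)
    (h : u ∣ p - q) : p = q %ₘ u := by
  have h1 : p %ₘ u = q %ₘ u := modByMonic_eq_of_dvd_sub hu h
  rw [← h1, (modByMonic_eq_self_iff hu).2 hp]

/-- the linear system that determines the function -/
theorem solve {r : ℝ} (h0 : 0 ≤ r) (hr : r < 1) {U W u v q D : E[X]} (hU : U.Monic) (hU1 : Bd 1 U)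
    (hW : Bd 1 W) (hu : u.Monic) (hu1 : Bd 1 u) (hq : Bd 1 q) (hinv : u ∣ (W + v) * q - 1)
    (hD : Bd (r ^ 2) D) (hUD : u ∣ U - D) :
    ∃ b : E[X], b.degree < u.degree ∧ Bd (r ^ 2) b ∧ u ∣ U - (b * W) %ₘ U - v * b := by
  have hr2 : r ^ 2 < 1 := by nlinarith
  let L0 : E[X] →ₗ[E] E[X] := modByMonicHom u ∘ₗ
    (modByMonicHom U ∘ₗ LinearMap.mulRight E W + LinearMap.mulLeft E v)
  have hL0 : ∀ b, L0 b = ((b * W) %ₘ U + v * b) %ₘ u := fun b => rfl
  have hdeg : u.degree = (u.natDegree : WithBot ℕ) := degree_eq_natDegree hu.ne_zero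
  have key : ∀ (b : E[X]) (ρ : ℝ), b.degree < u.degree → Bd ρ (L0 b) → Bd ρ b := by
    intro b ρ hb hρ
    refine bd_of_step hρ.nonneg hr2 fun β hβ => ?_
    have hQ : Bd β ((b * W) /ₘ U) := by
      have := (hβ.mul hW).divByMonic hU hU1
      rwa [mul_one] at this
    have e : b = (q * (L0 b + ((b * W) /ₘ U) * D)) %ₘ u := by
      refine mod_eq_of_dvd hu hb ?_
      obtain ⟨c1, hc1⟩ := hinv
      obtain ⟨c2, hc2⟩ := hUD
      have e1 := modByMonic_add_div (b * W) U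
      have e2 := modByMonic_add_div ((b * W) %ₘ U + v * b) u
      rw [hL0]
      refine ⟨-b * c1 + q * (((b * W) %ₘ U + v * b) /ₘ u) + q * ((b * W) /ₘ U) * c2, ?_⟩
      linear_combination (-b) * hc1 + (-q) * e2 + (-q) * e1 + q * ((b * W) /ₘ U) * hc2
    rw [e]
    refine Bd.modByMonic ?_ hu hu1
    have h1 : Bd (max ρ (β * r ^ 2)) (L0 b + ((b * W) /ₘ U) * D) :=
      (hρ.mono (le_max_left _ _)).add ((hQ.mul hD).mono (le_max_right _ _))
    have h2 := hq.mul h1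
    rwa [one_mul] at h2
  have hmap : ∀ b ∈ degreeLT E u.natDegree, L0 b ∈ degreeLT E u.natDegree := by
    intro b _
    rw [mem_degreeLT, ← hdeg, hL0]
    exact degree_modByMonic_lt _ hu
  let L : degreeLT E u.natDegree →ₗ[E] degreeLT E u.natDegree := L0.restrict hmap
  haveI : Module.Finite E (degreeLT E u.natDegree) :=
    Module.Finite.equiv (degreeLTEquiv E u.natDegree).symm
  have hinj : Function.Injective L := by
    refine (injective_iff_map_eq_zero _).2 fun b hb => ?_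
    have h1 : L0 b.1 = 0 := congrArg Subtype.val hb
    have h2 : (b.1).degree < u.degree := by
      rw [hdeg]
      exact mem_degreeLT.1 b.2
    refine Subtype.ext (Bd.eq_zero fun ρ hρ => key _ _ h2 ?_)
    rw [h1]
    exact bd_zero hρ.le
  have hsurj : Function.Surjective L := LinearMap.injective_iff_surjective.1 hinj
  obtain ⟨b, hb⟩ := hsurj ⟨D %ₘ u, by
    rw [mem_degreeLT, ← hdeg]
    exact degree_modByMonic_lt _ hu⟩
  have h1 : L0 b.1 = D %ₘ u := congrArg Subtype.val hb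
  have h2 : (b.1).degree < u.degree := by
    rw [hdeg]
    exact mem_degreeLT.1 b.2
  refine ⟨b.1, h2, key _ _ h2 ?_, ?_⟩
  · rw [h1]
    exact hD.modByMonic hu hu1
  · obtain ⟨c2, hc2⟩ := hUD
    have e2 := modByMonic_add_div ((b.1 * W) %ₘ U + v * b.1) u
    have e3 := modByMonic_add_div D u
    rw [← hL0, h1] at e2
    refine ⟨c2 + D /ₘ u - ((b.1 * W) %ₘ U + v * b.1) /ₘ u, ?_⟩
    linear_combination hc2 + e2 - e3

end Gauss

variable {l : ℕ} [Fact l.Prime] [Fact (2 < l)] {E : Type} [NormedField E] [IsUltrametricDist E]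
  [IsAlgClosed E] [CharZero E] {s : Eˣ} (B : Base l s)

omit [IsUltrametricDist E] [CharZero E] in
theorem prod_roots {u : E[X]} (hu : u.Monic) : (u.roots.map fun a => X - C a).prod = u :=
  (prod_multiset_X_sub_C_of_monic_of_roots_card_eq hu
    (IsAlgClosed.card_roots_eq_natDegree))

/-- the product of two divisors supported in the residue disc -/
theorem two_W {U₁ V₁ U₂ V₂ : E[X]} (m₁ : U₁.Monic) (m₂ : U₂.Monic) (d₁ : U₁ ∣ V₁ ^ 2 - FF l s)
    (d₂ : U₂ ∣ V₂ ^ 2 - FF l s) (p₁ : ∀ a, U₁.IsRoot a → B.Pl a (V₁.eval a))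
    (p₂ : ∀ a, U₂.IsRoot a → B.Pl a (V₂.eval a)) :
    ∃ W : E[X], Bd 1 W ∧ U₁ * U₂ ∣ W ^ 2 - FF l s ∧
      (∀ a, (U₁ * U₂).IsRoot a → B.Pl a (W.eval a)) ∧
      mum l s U₁ V₁ * mum l s U₂ V₂ = mum l s (U₁ * U₂) W := by
  let R : Multiset (E × E) := U₁.roots.map (fun a => (a, V₁.eval a)) +
    U₂.roots.map (fun a => (a, V₂.eval a))
  have hR : ∀ p ∈ R, B.Pl p.1 p.2 := by
    intro p hp
    rcases Multiset.mem_add.1 hp with h | h
    · obtain ⟨a, ha, rfl⟩ := Multiset.mem_map.1 h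
      exact p₁ a ((mem_roots m₁.ne_zero).1 ha)
    · obtain ⟨a, ha, rfl⟩ := Multiset.mem_map.1 h
      exact p₂ a ((mem_roots m₂.ne_zero).1 ha)
  obtain ⟨W, hW, hm, hev, hpr⟩ := B.exists_W R hR
  have e1 : (R.map fun p => X - C p.1).prod = U₁ * U₂ := by
    simp only [R, Multiset.map_add, Multiset.prod_add, Multiset.map_map, Function.comp_def]
    rw [prod_roots m₁, prod_roots m₂]
  have s₁ : mum l s U₁ V₁ = (U₁.roots.map fun a => pt l s a (V₁.eval a)).prod := by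
    have := mum_split (l := l) (s := s) U₁.roots (v := V₁) (by rw [prod_roots m₁]; exact d₁)
    rwa [prod_roots m₁] at this
  have s₂ : mum l s U₂ V₂ = (U₂.roots.map fun a => pt l s a (V₂.eval a)).prod := by
    have := mum_split (l := l) (s := s) U₂.roots (v := V₂) (by rw [prod_roots m₂]; exact d₂)
    rwa [prod_roots m₂] at this
  have e2 : (R.map fun p => pt l s p.1 p.2).prod = mum l s U₁ V₁ * mum l s U₂ V₂ := by
    simp only [R, Multiset.map_add, Multiset.prod_add, Multiset.map_map, Function.comp_def]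
    rw [s₁, s₂]
  rw [e1] at hm hpr
  refine ⟨W, hW, hm.2.2, fun a ha => ?_, by rw [← e2, hpr]⟩
  rcases root_mul.1 ha with h | h
  · have hmem : (a, V₁.eval a) ∈ R :=
      Multiset.mem_add.2 (Or.inl (Multiset.mem_map.2 ⟨a, (mem_roots m₁.ne_zero).2 h, rfl⟩))
    have := hev _ hmem
    simp only at this
    rw [this]
    exact p₁ a h
  · have hmem : (a, V₂.eval a) ∈ R :=
      Multiset.mem_add.2 (Or.inr (Multiset.mem_map.2 ⟨a, (mem_roots m₂.ne_zero).2 h, rfl⟩))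
    have := hev _ hmem
    simp only at this
    rw [this]
    exact p₂ a h

end Pool.Agent.MP_14ad9d_nt.Full.PBAux

end

section

set_option autoImplicit false

open Polynomial

namespace Pool.Agent.MP_14ad9d_nt.Full.PBAux

section Alg

variable {l : ℕ} [Fact l.Prime] [Fact (2 < l)] {k : Type} [Field k] [CharZero k] {s : kˣ}

omit [Fact l.Prime] [Fact (2 < l)] [CharZero k] in
theorem mk_mul (p q : k[X]) : (⟨p, 0⟩ : CR l s) * ⟨q, 0⟩ = ⟨p * q, 0⟩ := by
  ext1 <;> simp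

omit [Fact l.Prime] [Fact (2 < l)] [CharZero k] in
theorem sup_top {U W u v q : k[X]} (h : u ∣ (W + v) * q - 1) :
    mum l s U W ⊔ mum l s u (-v) = ⊤ := by
  obtain ⟨c, hc⟩ := h
  have h1 : (⟨-W, 1⟩ : CR l s) ∈ mum l s U W ⊔ mum l s u (-v) :=
    Ideal.mem_sup_left (Ideal.subset_span (by simp))
  have h2 : (⟨- -v, 1⟩ : CR l s) ∈ mum l s U W ⊔ mum l s u (-v) :=
    Ideal.mem_sup_right (Ideal.subset_span (by simp))
  have h3 : (⟨u, 0⟩ : CR l s) ∈ mum l s U W ⊔ mum l s u (-v) :=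
    Ideal.mem_sup_right (Ideal.subset_span (by simp))
  rw [Ideal.eq_top_iff_one]
  have e : (1 : CR l s) = ⟨q, 0⟩ * (⟨- -v, 1⟩ - ⟨-W, 1⟩) - ⟨c, 0⟩ * ⟨u, 0⟩ := by
    ext1
    · simp [QuadraticAlgebra.re_one]
      linear_combination (-1 : k[X]) * hc
    · simp [QuadraticAlgebra.im_one]
  rw [e]
  exact Ideal.sub_mem _ (Ideal.mul_mem_left _ _ (Ideal.sub_mem _ h2 h1))
    (Ideal.mul_mem_left _ _ h3)

theorem mul_star (z : CR l s) :
    z * starRingEnd (CR l s) z = ⟨z.re ^ 2 - FF l s * z.im ^ 2, 0⟩ := by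
  ext1
  · simp [starRingEnd_apply]
    ring
  · simp [starRingEnd_apply]
    ring

/-- the residual divisor of a function -/
theorem residual {U W u v q A b : k[X]} (hU : U.Monic) (hu : u.Monic) (dU : U ∣ W ^ 2 - FF l s)
    (du : u ∣ v ^ 2 - FF l s) (hinv : u ∣ (W + v) * q - 1) (h₁ : U ∣ A + W * b)
    (h₂ : u ∣ A - v * b) :
    ∃ (J : Ideal (CR l s)) (w : k[X]),
      Ideal.span {(⟨A, b⟩ : CR l s)} = mum l s U W * mum l s u (-v) * J ∧
      A ^ 2 - FF l s * b ^ 2 = U * u * w ∧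
      J * J.map (starRingEnd (CR l s)) = Ideal.span {⟨w, 0⟩} := by
  have du' : u ∣ (-v) ^ 2 - FF l s := by rwa [neg_sq]
  have m₁ : (⟨A, b⟩ : CR l s) ∈ mum l s U W := (mem_mum dU _).2 h₁
  have m₂ : (⟨A, b⟩ : CR l s) ∈ mum l s u (-v) := (mem_mum du' _).2 (by
    simpa [sub_eq_add_neg] using h₂)
  have m₃ : (⟨A, b⟩ : CR l s) ∈ mum l s U W * mum l s u (-v) := by
    rw [Ideal.mul_eq_inf_of_coprime (sup_top hinv)]
    exact ⟨m₁, m₂⟩
  obtain ⟨J, hJ⟩ : mum l s U W * mum l s u (-v) ∣ Ideal.span {(⟨A, b⟩ : CR l s)} :=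
    Ideal.dvd_iff_le.2 ((Ideal.span_singleton_le_iff_mem _).2 m₃)
  have e1 : Ideal.span {(⟨A ^ 2 - FF l s * b ^ 2, 0⟩ : CR l s)} =
      Ideal.span {(⟨U * u, 0⟩ : CR l s)} * (J * J.map (starRingEnd (CR l s))) := by
    have e2 : Ideal.span {(⟨A ^ 2 - FF l s * b ^ 2, 0⟩ : CR l s)} =
        Ideal.span {(⟨A, b⟩ : CR l s)} *
          (Ideal.span {(⟨A, b⟩ : CR l s)}).map (starRingEnd (CR l s)) := by
      rw [Ideal.map_span, Set.image_singleton, Ideal.span_singleton_mul_span_singleton, mul_star]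
    rw [e2, hJ, Ideal.map_mul, Ideal.map_mul, map_star_mum, map_star_mum, ← mk_mul,
      ← Ideal.span_singleton_mul_span_singleton, ← mum_mul_neg dU, ← mum_mul_neg du']
    ring
  have m₄ : (⟨A ^ 2 - FF l s * b ^ 2, 0⟩ : CR l s) ∈ Ideal.span {(⟨U * u, 0⟩ : CR l s)} :=
    (Ideal.span_singleton_le_iff_mem _).1 (e1 ▸ Ideal.mul_le_left)
  obtain ⟨z, hz⟩ := Ideal.mem_span_singleton'.1 m₄
  have e3 : A ^ 2 - FF l s * b ^ 2 = U * u * z.re := by
    have := congrArg QuadraticAlgebra.re hz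
    simp at this
    rw [← this]
    ring
  refine ⟨J, z.re, hJ, e3, ?_⟩
  rw [e3, ← mk_mul, ← Ideal.span_singleton_mul_span_singleton] at e1
  have hne : Ideal.span {(⟨U * u, 0⟩ : CR l s)} ≠ ⊥ := by
    rw [Ne, Ideal.span_singleton_eq_bot]
    intro h
    exact (hU.mul hu).ne_zero (congrArg QuadraticAlgebra.re h)
  exact (mul_left_cancel₀ hne e1).symm

omit [CharZero k] in
theorem norm_monic {A b : k[X]} (hA : A.Monic) (dA : A.natDegree = 2 * (l / 2))
    (db : b.degree < (l / 2 : ℕ)) :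
    (A ^ 2 - FF l s * b ^ 2).Monic ∧ (A ^ 2 - FF l s * b ^ 2).natDegree = 4 * (l / 2) := by
  have hl2 : 2 < l := Fact.out
  have hodd : l % 2 = 1 := (Fact.out : l.Prime).eq_two_or_odd.resolve_left (by omega)
  have hA2 : (A ^ 2).natDegree = 4 * (l / 2) := by
    rw [hA.natDegree_pow, dA]
    ring
  have hlt : (FF l s * b ^ 2).natDegree < (A ^ 2).natDegree := by
    rw [hA2]
    by_cases hb : b = 0
    · simp [hb]
      omega
    · have h1 : b.natDegree < l / 2 := (natDegree_lt_iff_degree_lt hb).2 db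
      have h2 : (FF l s * b ^ 2).natDegree ≤ l + 2 * b.natDegree := by
        refine natDegree_mul_le.trans ?_
        rw [FF_natDegree]
        exact Nat.add_le_add_left natDegree_pow_le _
      omega
  refine ⟨(hA.pow 2).sub_of_left (degree_lt_degree hlt), ?_⟩
  rw [natDegree_sub_eq_left_of_natDegree_lt hlt, hA2]

end Alg

end Pool.Agent.MP_14ad9d_nt.Full.PBAux

end

section

set_option autoImplicit false

open Polynomial

namespace Pool.Agent.MP_14ad9d_nt.Full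

variable {l : ℕ} [Fact l.Prime] [Fact (2 < l)] {E : Type} [NormedField E] [IsUltrametricDist E]
  [IsAlgClosed E] [CharZero E] {s : Eˣ} (B : Base l s)

theorem PBAux.bd_one {r : ℝ} (hr : r < 1) {u v : E[X]} (h : B.Cl r u v) : Bd 1 u := by
  have := B.bd_u₀.add (h.2.2.1.mono hr.le)
  rwa [add_sub_cancel] at this

omit [Fact l.Prime] [Fact (2 < l)] [IsAlgClosed E] [CharZero E] in
theorem PBAux.bd_one' {r : ℝ} (hr : r < 1) {u v : E[X]} (h : B.Cl r u v) : Bd 1 v := by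
  have h1 : Bd 1 (C B.y₁) := B.hy ▸ bd_C B.y₁
  have := h1.add (h.2.2.2.mono hr.le)
  rwa [add_sub_cancel] at this

/-- the group law to first order -/
theorem Base.exists_sum {r : ℝ} (hr : r < 1) {u₁ v₁ u₂ v₂ u₄ v₄ : E[X]} (h₁ : B.Cl r u₁ v₁)
    (h₂ : B.Cl r u₂ v₂) (h₄ : B.Cl r u₄ v₄) :
    ∃ u₃ v₃, B.Cl r u₃ v₃ ∧ Bd (r ^ 2) (u₃ - (u₁ + u₂ - u₄)) ∧
      cl l (mum l s u₃ v₃) * cl l (mum l s u₄ v₄) =
        cl l (mum l s u₁ v₁) * cl l (mum l s u₂ v₂) := by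
  have h0 : 0 ≤ r := h₁.2.2.1.nonneg
  have hr2 : r ^ 2 ≤ r := by nlinarith
  have hr1 : r ^ 2 < 1 := by nlinarith
  have m₁ := h₁.1.1
  have m₂ := h₂.1.1
  have m₄ := h₄.1.1
  have b₁ := PBAux.bd_one B hr h₁
  have b₂ := PBAux.bd_one B hr h₂
  have b₄ := PBAux.bd_one B hr h₄
  have c₄ := PBAux.bd_one' B hr h₄
  obtain ⟨W, hW, dW, pW, eW⟩ := PBAux.two_W B m₁ m₂ h₁.1.2.2 h₂.1.2.2
    (fun a ha => h₁.pl hr ha) (fun a ha => h₂.pl hr ha)
  have mU : (u₁ * u₂).Monic := m₁.mul m₂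
  have bU : Bd 1 (u₁ * u₂) := by simpa using b₁.mul b₂
  have dU : (u₁ * u₂).natDegree = 2 * (l / 2) := by
    rw [m₁.natDegree_mul m₂, h₁.2.1, h₂.2.1]
    ring
  have hl2 : 2 < l := Fact.out
  have hunit : ∀ a, u₄.IsRoot a → ‖(W + v₄).eval a‖ = 1 := by
    intro a ha
    have pa := h₄.pl hr ha
    obtain ⟨a', ha'⟩ : ∃ a', (u₁ * u₂).IsRoot a' := IsAlgClosed.exists_root _ (by
      rw [degree_eq_natDegree mU.ne_zero, dU]
      norm_cast
      omega)
    have pa' := pW a' ha'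
    have hc := B.pl_close pa pa'
    obtain ⟨Q, hQ⟩ : X - C a' ∣ W - C (W.eval a') := X_sub_C_dvd_sub_C_eval
    have bX : Bd 1 (X - C a') := bd_X.sub ((bd_C a').mono pa'.2.1)
    have bQ : Bd 1 Q := Bd.of_mul (monic_X_sub_C a') bX (by
      rw [← hQ]
      exact hW.sub ((bd_C _).mono (hW.eval pa'.2.1)))
    have e1 : W.eval a - W.eval a' = (a - a') * Q.eval a := by
      have := congrArg (eval a) hQ
      simpa using this
    have n1 : ‖W.eval a - W.eval a'‖ < 1 := by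
      rw [e1, norm_mul]
      exact mul_lt_one_of_nonneg_of_lt_one_left (norm_nonneg _) hc (bQ.eval pa.2.1)
    have n2 : ‖(W.eval a - W.eval a') + (W.eval a' - B.y₁) + (v₄.eval a - B.y₁)‖ < 1 :=
      lt_of_le_of_lt (IsUltrametricDist.norm_add_le_max _ _) (max_lt
        (lt_of_le_of_lt (IsUltrametricDist.norm_add_le_max _ _) (max_lt n1 pa'.2.2)) pa.2.2)
    have n3 : ‖2 * B.y₁‖ = 1 := by rw [norm_mul, B.norm_two, B.hy, one_mul]
    have e2 : (W + v₄).eval a = 2 * B.y₁ +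
        ((W.eval a - W.eval a') + (W.eval a' - B.y₁) + (v₄.eval a - B.y₁)) := by
      rw [eval_add]
      ring
    rw [e2, IsUltrametricDist.norm_add_eq_max_of_norm_ne_norm (by rw [n3]; exact n2.ne'), n3]
    exact max_eq_left n2.le
  obtain ⟨q, bq, hq⟩ := exists_inv_mod m₄ b₄ (hW.add c₄) hunit
  have d₁ : Bd r (u₁ - u₄) := by
    have := h₁.2.2.1.sub h₄.2.2.1
    rwa [sub_sub_sub_cancel_right] at this
  have d₂ : Bd r (u₂ - u₄) := by
    have := h₂.2.2.1.sub h₄.2.2.1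
    rwa [sub_sub_sub_cancel_right] at this
  have bD : Bd (r ^ 2) ((u₁ - u₄) * (u₂ - u₄)) := by
    rw [sq]
    exact d₁.mul d₂
  obtain ⟨b, db, bb, hb⟩ := PBAux.solve (v := v₄) h0 hr mU bU hW m₄ b₄ bq hq bD
    ⟨u₁ + u₂ - u₄, by ring⟩
  obtain ⟨ρ, hρ⟩ : ∃ ρ, ρ = (b * W) %ₘ (u₁ * u₂) := ⟨_, rfl⟩
  rw [← hρ] at hb
  have bρ : Bd (r ^ 2) ρ := by
    have := (bb.mul hW).modByMonic mU bU
    rwa [mul_one, ← hρ] at this
  have dρ : ρ.degree < (u₁ * u₂).degree := hρ ▸ degree_modByMonic_lt _ mU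
  have mA : (u₁ * u₂ - ρ).Monic := mU.sub_of_left dρ
  have dA : (u₁ * u₂ - ρ).natDegree = 2 * (l / 2) := by
    rw [← dU]
    exact natDegree_eq_of_degree_eq (degree_sub_eq_left_of_degree_lt dρ)
  have hA₁ : u₁ * u₂ ∣ u₁ * u₂ - ρ + W * b := by
    have e1 := modByMonic_add_div (b * W) (u₁ * u₂)
    rw [← hρ] at e1
    exact ⟨1 + (b * W) /ₘ (u₁ * u₂), by linear_combination (-1 : E[X]) * e1⟩
  obtain ⟨J, w, hJ, hN, hJJ⟩ := PBAux.residual mU m₄ dW h₄.1.2.2 hq hA₁ hb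
  obtain ⟨mN, dN⟩ := PBAux.norm_monic (l := l) (s := s) mA dA (b := b) (by
    rwa [degree_eq_natDegree m₄.ne_zero, h₄.2.1] at db)
  rw [hN] at mN dN
  have mw : w.Monic := (mU.mul m₄).of_mul_monic_left mN
  have dw : w.natDegree = l / 2 := by
    rw [(mU.mul m₄).natDegree_mul mw, mU.natDegree_mul m₄, dU, h₄.2.1] at dN
    omega
  have k₁ : Bd (r ^ 2) (u₄ * w - u₁ * u₂) := by
    refine Bd.of_mul mU bU ?_
    have e : u₁ * u₂ * (u₄ * w - u₁ * u₂) =
        ρ * ρ - u₁ * u₂ * ρ - u₁ * u₂ * ρ - FF l s * (b * b) := by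
      linear_combination (-1 : E[X]) * hN
    have t : r ^ 2 * r ^ 2 ≤ r ^ 2 := by nlinarith [sq_nonneg r]
    have t₁ : Bd (r ^ 2) (ρ * ρ) := (bρ.mul bρ).mono t
    have t₂ : Bd (r ^ 2) (u₁ * u₂ * ρ) := by simpa using bU.mul bρ
    have t₃ : Bd (r ^ 2) (FF l s * (b * b)) := by
      simpa using B.bd_FF.mul ((bb.mul bb).mono t)
    rw [e]
    exact ((t₁.sub t₂).sub t₂).sub t₃
  have k₂ : Bd (r ^ 2) (w - (u₁ + u₂ - u₄)) := by
    refine Bd.of_mul m₄ b₄ ?_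
    have e : u₄ * (w - (u₁ + u₂ - u₄)) = (u₄ * w - u₁ * u₂) + (u₁ - u₄) * (u₂ - u₄) := by ring
    rw [e]
    exact k₁.add bD
  have k₃ : Bd r (w - B.u₀) := by
    have e : w - B.u₀ = (w - (u₁ + u₂ - u₄)) + (u₁ - u₄) + (u₂ - B.u₀) := by ring
    rw [e]
    exact ((k₂.mono hr2).add d₁).add h₂.2.2.1
  have hno : ∀ a c, B.Pl a c → ¬J ≤ pt l s a c := by
    intro a c pa hle
    obtain ⟨W', hW', dW', -, eW'⟩ := PBAux.two_W B (V₂ := C c) mU (monic_X_sub_C a) dW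
      (pt_dvd pa.1) pW (fun a' ha' => by
        have : a' = a := sub_eq_zero.1 (by simpa using ha')
        rw [this, eval_C]
        exact pa)
    have hm : (⟨u₁ * u₂ - ρ, b⟩ : CR l s) ∈ mum l s (u₁ * u₂ * (X - C a)) W' := by
      rw [← eW']
      refine (Ideal.span_singleton_le_iff_mem _).1 ?_
      rw [hJ]
      exact Ideal.mul_mono Ideal.mul_le_left hle
    have hd := (mem_mum dW' _).1 hm
    have mU' : (u₁ * u₂ * (X - C a)).Monic := mU.mul (monic_X_sub_C a)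
    have bU' : Bd 1 (u₁ * u₂ * (X - C a)) := by
      simpa using bU.mul (bd_X.sub ((bd_C a).mono pa.2.1))
    have e : u₁ * u₂ - ρ = (-(W' * b)) %ₘ (u₁ * u₂ * (X - C a)) := by
      refine PBAux.mod_eq_of_dvd mU' (degree_lt_degree ?_) (by rwa [sub_neg_eq_add])
      rw [dA, mU.natDegree_mul (monic_X_sub_C a), dU, natDegree_X_sub_C]
      omega
    have bA : Bd (r ^ 2) (u₁ * u₂ - ρ) := by
      rw [e]
      have := ((hW'.mul bb).neg).modByMonic mU' bU'
      rwa [one_mul] at this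
    have := bA (u₁ * u₂ - ρ).natDegree
    rw [mA.coeff_natDegree, norm_one] at this
    exact absurd hr1 (not_lt.2 this)
  obtain ⟨v₃, c₃, e₃⟩ := B.resid hr mw dw k₃ hJJ hno
  refine ⟨w, v₃, c₃, k₂, ?_⟩
  have hJ0 : J ≠ ⊥ := by
    rintro rfl
    rw [Ideal.mul_bot, Ideal.span_singleton_eq_bot] at hJ
    exact mA.ne_zero (congrArg QuadraticAlgebra.re hJ)
  have f₁ : cl l (mum l s (u₁ * u₂) W) * cl l (mum l s u₄ (-v₄)) * cl l J = 1 := by
    rw [← cl_mul (mum_ne_bot _ _) (mum_ne_bot _ _),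
      ← cl_mul (mul_ne_zero (mum_ne_bot _ _) (mum_ne_bot _ _)) hJ0, ← hJ, cl_span]
  have f₂ : cl l (mum l s u₄ v₄) * cl l (mum l s u₄ (-v₄)) = 1 := by
    rw [← cl_mul (mum_ne_bot _ _) (mum_ne_bot _ _), mum_mul_neg h₄.1.2.2, cl_span]
  rw [← cl_mul (I := mum l s u₁ v₁) (mum_ne_bot _ _) (mum_ne_bot _ _), eW]
  calc cl l (mum l s w v₃) * cl l (mum l s u₄ v₄)
      = cl l (mum l s w v₃) * cl l (mum l s u₄ v₄) *
        (cl l (mum l s (u₁ * u₂) W) * cl l (mum l s u₄ (-v₄)) * cl l J) := by rw [f₁, mul_one]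
    _ = cl l (mum l s (u₁ * u₂) W) * (cl l (mum l s w v₃) * cl l J) *
        (cl l (mum l s u₄ v₄) * cl l (mum l s u₄ (-v₄))) := by ac_rfl
    _ = cl l (mum l s (u₁ * u₂) W) := by rw [e₃, f₂, mul_one, mul_one]

theorem Base.exists_sub {r : ℝ} (h0 : 0 ≤ r) (hr : r < 1) :
    ∃ H : Subgroup (Jac l s), ∀ x, x ∈ H ↔ B.Nb r x := by
  have hb := B.cl_base h0
  refine ⟨⟨⟨⟨{x | B.Nb r x}, ?_⟩, ?_⟩, ?_⟩, fun _ => Iff.rfl⟩
  · rintro x y ⟨u₁, v₁, c₁, e₁⟩ ⟨u₂, v₂, c₂, e₂⟩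
    obtain ⟨u₃, v₃, c₃, -, e₃⟩ := B.exists_sum hr c₁ c₂ hb
    refine ⟨u₃, v₃, c₃, mul_right_cancel (b := cl l (mum l s B.u₀ (C B.y₁))) ?_⟩
    rw [e₃, e₁, e₂]
    ac_rfl
  · exact ⟨_, _, hb, (one_mul _).symm⟩
  · rintro x ⟨u₁, v₁, c₁, e₁⟩
    obtain ⟨u₃, v₃, c₃, -, e₃⟩ := B.exists_sum hr hb hb c₁
    refine ⟨u₃, v₃, c₃, mul_right_cancel (b := cl l (mum l s u₁ v₁)) ?_⟩
    rw [e₃, e₁, mul_mul_mul_comm, inv_mul_cancel, one_mul]

theorem PBAux.pow_coord {ρ : ℝ} (hρ : ρ < 1) {b : Jac l s} {u v : E[X]} (c : B.Cl ρ u v)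
    (e : cl l (mum l s u v) = b * cl l (mum l s B.u₀ (C B.y₁))) (n : ℕ) :
    ∃ u' v', B.Cl ρ u' v' ∧ cl l (mum l s u' v') = b ^ n * cl l (mum l s B.u₀ (C B.y₁)) ∧
      Bd (ρ ^ 2) (u' - (B.u₀ + C (n : E) * (u - B.u₀))) := by
  have h0 : 0 ≤ ρ := c.2.2.1.nonneg
  have hb := B.cl_base h0
  induction n with
  | zero =>
    refine ⟨_, _, hb, by rw [pow_zero, one_mul], ?_⟩
    simpa using bd_zero (E := E) (sq_nonneg ρ)
  | succ n ih =>
    obtain ⟨u₁, v₁, c₁, e₁, b₁⟩ := ih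
    obtain ⟨u₃, v₃, c₃, b₃, e₃⟩ := B.exists_sum hρ c₁ c hb
    refine ⟨u₃, v₃, c₃, mul_right_cancel (b := cl l (mum l s B.u₀ (C B.y₁))) ?_, ?_⟩
    · rw [e₃, e₁, e, pow_succ]
      ac_rfl
    · have h : u₃ - (B.u₀ + C ((n + 1 : ℕ) : E) * (u - B.u₀)) =
          (u₃ - (u₁ + u - B.u₀)) + (u₁ - (B.u₀ + C (n : E) * (u - B.u₀))) := by
        rw [Nat.cast_succ, C_add, C_1]
        ring
      rw [h]
      exact b₃.add b₁

theorem PBAux.nb_pow {ρ θ : ℝ} (hθ : θ < 1) (hρ : ρ ≤ θ) (hl : ‖(l : E)‖ ≤ θ) {b : Jac l s}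
    (h : B.Nb ρ b) : B.Nb (ρ * θ) (b ^ l) := by
  obtain ⟨u, v, c, e⟩ := h
  have h0 : 0 ≤ ρ := c.2.2.1.nonneg
  have h1 : ρ < 1 := lt_of_le_of_lt hρ hθ
  obtain ⟨u', v', c', e', b'⟩ := PBAux.pow_coord B h1 c e l
  refine ⟨u', v', B.cl_of (by nlinarith) c'.1 c'.2.1 ?_ fun a ha => c'.pl h1 ha, e'⟩
  have h : u' - B.u₀ = (u' - (B.u₀ + C (l : E) * (u - B.u₀))) + C (l : E) * (u - B.u₀) := by ring
  rw [h]
  refine (b'.mono (by nlinarith)).add (((bd_C _).mul c.2.2.1).mono ?_)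
  rw [mul_comm]
  exact mul_le_mul_of_nonneg_left hl h0

/-- no element near the origin is infinitely divisible near the origin -/
theorem Base.div_trivial {r : ℝ} (hr : r < 1) (A : Set (Jac l s)) (hA : ∀ a ∈ A, B.Nb r a)
    (hdiv : ∀ a ∈ A, ∃ b ∈ A, b ^ l = a) : ∀ a ∈ A, a = 1 := by
  intro a ha
  obtain ⟨u, v, c, e⟩ := hA a ha
  have h0 : 0 ≤ r := c.2.2.1.nonneg
  obtain ⟨θ, hθ⟩ : ∃ θ, θ = max ‖(l : E)‖ r := ⟨_, rfl⟩
  have t1 : θ < 1 := hθ ▸ max_lt B.hl hr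
  have t2 : r ≤ θ := hθ ▸ le_max_right _ _
  have t3 : ‖(l : E)‖ ≤ θ := hθ ▸ le_max_left _ _
  have t0 : 0 ≤ θ := h0.trans t2
  have key : ∀ n : ℕ, ∀ x ∈ A, B.Nb (θ ^ (n + 1)) x := by
    intro n
    induction n with
    | zero =>
      intro x hx
      obtain ⟨u', v', c', e'⟩ := hA x hx
      refine ⟨u', v', ⟨c'.1, c'.2.1, c'.2.2.1.mono ?_, c'.2.2.2.mono ?_⟩, e'⟩ <;> simpa using t2
    | succ n ih =>
      intro x hx
      obtain ⟨y, hy, rfl⟩ := hdiv x hx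
      rw [pow_succ]
      refine PBAux.nb_pow B t1 ?_ t3 (ih y hy)
      rw [pow_succ]
      exact mul_le_of_le_one_left t0 (pow_le_one₀ t0 t1.le)
  have small : ∀ ε : ℝ, 0 < ε → Bd ε (u - B.u₀) ∧ Bd ε (v - C B.y₁) := by
    intro ε hε
    obtain ⟨n, hn⟩ := exists_pow_lt_of_lt_one hε t1
    obtain ⟨u', v', c', e'⟩ := key n a ha
    obtain ⟨rfl, rfl⟩ := red_unique c.1 c'.1 c.2.1.le c'.2.1.le (e.trans e'.symm)
    have hle : θ ^ (n + 1) ≤ ε := by
      rw [pow_succ]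
      exact (mul_le_of_le_one_right (pow_nonneg t0 n) t1.le).trans hn.le
    exact ⟨c'.2.2.1.mono hle, c'.2.2.2.mono hle⟩
  have eu : u = B.u₀ := sub_eq_zero.1 (Bd.eq_zero fun ε hε => (small ε hε).1)
  have ev : v = C B.y₁ := sub_eq_zero.1 (Bd.eq_zero fun ε hε => (small ε hε).2)
  rw [eu, ev] at e
  exact mul_right_cancel (b := cl l (mum l s B.u₀ (C B.y₁))) (by rw [← e, one_mul])

end Pool.Agent.MP_14ad9d_nt.Full

end

section

set_option autoImplicit false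

namespace Pool.Agent.MP_14ad9d_nt.Full.DualAux

open Pool.Agent.MP_14ad9d_nt.Full

section

variable {k G H : Type} [Field k] [Group G] [AddCommGroup H] [Module k H]
  (ρ : Representation k G H)

theorem stab_sup {A B : Submodule k H} (hA : Stab ρ A) (hB : Stab ρ B) : Stab ρ (A ⊔ B) := by
  intro g x hx
  obtain ⟨a, ha, b, hb, rfl⟩ := Submodule.mem_sup.1 hx
  rw [map_add]
  exact Submodule.add_mem_sup (hA g a ha) (hB g b hb)

theorem stab_inf {A B : Submodule k H} (hA : Stab ρ A) (hB : Stab ρ B) : Stab ρ (A ⊓ B) :=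
  fun g x hx => ⟨hA g x hx.1, hB g x hx.2⟩

theorem finq_mono {A B A' B' : Submodule k H} (h : FinQ A B) (hA : A' ≤ A) (hB : B ≤ B') :
    FinQ A' B' := by
  obtain ⟨s, hs⟩ := h
  exact ⟨s, hA.trans (hs.trans (sup_le_sup_right hB _))⟩

/-- passing from `A + N` modulo `N` to `A` modulo the intersection -/
theorem orth_of_sup {A N : Submodule k H} (h : OrthQ ρ (A ⊔ N) N) : OrthQ ρ A (A ⊓ N) := by
  obtain ⟨b, h1, h2, h3⟩ := h
  have hA : ∀ x ∈ A, x ∈ A ⊔ N := fun x hx => Submodule.mem_sup_left hx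
  refine ⟨b, fun x hx y hy => h1 x (hA x hx) y (hA y hy),
    fun g x hx y hy => h2 g x (hA x hx) y (hA y hy), fun x hx => ⟨fun h0 => ⟨hx, ?_⟩, ?_⟩⟩
  · refine (h3 x (hA x hx)).1 fun y hy => ?_
    obtain ⟨a, ha, n, hn, rfl⟩ := Submodule.mem_sup.1 hy
    have hn' : n ∈ A ⊔ N := Submodule.mem_sup_right hn
    rw [map_add, h0 a ha, zero_add, h1 x (hA x hx) n hn']
    exact (h3 n hn').2 hn x (hA x hx)
  · intro h0 y hy
    exact (h3 x (hA x hx)).2 h0.2 y (hA y hy)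

theorem exists_proj (A N : Submodule k H) :
    ∃ π : H →ₗ[k] H, (∀ x, π x ∈ A) ∧ ∀ x ∈ A ⊔ N, x - π x ∈ N := by
  let f : (A × N) →ₗ[k] H := A.subtype.coprod N.subtype
  have hr : LinearMap.range f = A ⊔ N := by
    simp [f, LinearMap.range_coprod]
  obtain ⟨s, hs⟩ := f.rangeRestrict.exists_rightInverse_of_surjective f.range_rangeRestrict
  obtain ⟨t, ht⟩ := LinearMap.exists_extend s
  refine ⟨A.subtype ∘ₗ LinearMap.fst k A N ∘ₗ t, fun x => (t x).1.2, fun x hx => ?_⟩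
  have hx' : x ∈ LinearMap.range f := hr ▸ hx
  have e1 : t x = s ⟨x, hx'⟩ := by
    rw [← ht]; rfl
  have e2 : f (s ⟨x, hx'⟩) = x := by
    have := LinearMap.congr_fun hs ⟨x, hx'⟩
    exact congrArg Subtype.val this
  have e3 : ((t x).1 : H) + ((t x).2 : H) = x := by
    rw [e1]; exact e2
  have e4 : x - (A.subtype ∘ₗ LinearMap.fst k A N ∘ₗ t) x = ((t x).2 : H) := by
    show x - ((t x).1 : H) = _
    rw [sub_eq_iff_eq_add']; exact e3.symm
  rw [e4]; exact (t x).2.2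

/-- passing from `A` modulo the intersection to `A + N` modulo `N` -/
theorem orth_sup {A N : Submodule k H} (hA : Stab ρ A) (hN : Stab ρ N)
    (h : OrthQ ρ A (A ⊓ N)) : OrthQ ρ (A ⊔ N) N := by
  obtain ⟨b, h1, h2, h3⟩ := h
  obtain ⟨π, hπ1, hπ2⟩ := exists_proj A N
  have hs := stab_sup ρ hA hN
  have hl : ∀ x ∈ A ⊓ N, ∀ y ∈ A, b x y = 0 := fun x hx => (h3 x hx.1).2 hx
  have hg : ∀ g, ∀ x ∈ A ⊔ N, π (ρ g x) - ρ g (π x) ∈ A ⊓ N := by
    intro g x hx
    refine ⟨A.sub_mem (hπ1 _) (hA g _ (hπ1 _)), ?_⟩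
    have e : π (ρ g x) - ρ g (π x) = ρ g (x - π x) - (ρ g x - π (ρ g x)) := by
      rw [map_sub]; abel
    rw [e]
    exact N.sub_mem (hN g _ (hπ2 x hx)) (hπ2 _ (hs g x hx))
  refine ⟨b.compl₁₂ π π, fun x _ y _ => h1 _ (hπ1 x) _ (hπ1 y), fun g x hx y hy => ?_,
    fun x hx => ⟨fun h0 => ?_, fun h0 y _ => ?_⟩⟩
  · simp only [LinearMap.compl₁₂_apply]
    have e1 : π (ρ g x) = ρ g (π x) + (π (ρ g x) - ρ g (π x)) := by abel
    have e2 : π (ρ g y) = ρ g (π y) + (π (ρ g y) - ρ g (π y)) := by abel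
    rw [e1, map_add, LinearMap.add_apply, hl _ (hg g x hx) _ (hπ1 _), add_zero, e2, map_add,
      h1 _ (hA g _ (hπ1 x)) _ (hg g y hy).1, hl _ (hg g y hy) _ (hA g _ (hπ1 x)), add_zero]
    exact h2 g _ (hπ1 x) _ (hπ1 y)
  · have h4 : π x ∈ A ⊓ N := by
      refine (h3 _ (hπ1 x)).1 fun y hy => ?_
      have hy' : y ∈ A ⊔ N := Submodule.mem_sup_left hy
      have h5 := h0 y hy'
      simp only [LinearMap.compl₁₂_apply] at h5
      have h6 : y - π y ∈ A ⊓ N := ⟨A.sub_mem hy (hπ1 y), hπ2 y hy'⟩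
      have e : y = π y + (y - π y) := by abel
      rw [e, map_add, h5, zero_add, h1 _ (hπ1 x) _ h6.1]
      exact hl _ h6 _ (hπ1 x)
    have e : x = (x - π x) + π x := by abel
    rw [e]
    exact N.add_mem (hπ2 x hx) h4.2
  · simp only [LinearMap.compl₁₂_apply]
    have h4 : π x ∈ A ⊓ N := by
      refine ⟨hπ1 x, ?_⟩
      have e : π x = x - (x - π x) := by abel
      rw [e]
      exact N.sub_mem h0 (hπ2 x hx)
    exact hl _ h4 _ (hπ1 y)

/-- the plus part of `A` modulo `B` -/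
def pl (ι : H →ₗ[k] H) (A B : Submodule k H) : Submodule k H :=
  A ⊓ B.comap (ι - LinearMap.id)

theorem mem_pl {ι : H →ₗ[k] H} {A B : Submodule k H} {x : H} :
    x ∈ pl ι A B ↔ x ∈ A ∧ ι x - x ∈ B := Iff.rfl

theorem stab_pl {ι : H →ₗ[k] H} (hιρ : ∀ g x, ι (ρ g x) = ρ g (ι x)) {A B : Submodule k H}
    (hA : Stab ρ A) (hB : Stab ρ B) : Stab ρ (pl ι A B) := by
  intro g x hx
  refine mem_pl.2 ⟨hA g x hx.1, ?_⟩
  rw [hιρ, ← map_sub]
  exact hB g _ (mem_pl.1 hx).2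

theorem le_pl {ι : H →ₗ[k] H} {A B : Submodule k H} (hBA : B ≤ A) (hB : ∀ x ∈ B, ι x ∈ B) :
    B ≤ pl ι A B := fun x hx => mem_pl.2 ⟨hBA hx, B.sub_mem (hB x hx) hx⟩

theorem half_split (h2 : (2 : k) ≠ 0) (ι : H →ₗ[k] H) (x : H) :
    x = (2 : k)⁻¹ • (x + ι x) + (2 : k)⁻¹ • (x - ι x) := by
  rw [← smul_add]
  have : x + ι x + (x - ι x) = (2 : k) • x := by rw [two_smul]; abel
  rw [this, smul_smul, inv_mul_cancel₀ h2, one_smul]

theorem iota_plus {ι : H →ₗ[k] H} (hιι : ∀ x, ι (ι x) = x) (c : k) (x : H) :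
    ι (c • (x + ι x)) = c • (x + ι x) := by
  rw [map_smul, map_add, hιι, add_comm]

theorem iota_minus {ι : H →ₗ[k] H} (hιι : ∀ x, ι (ι x) = x) (c : k) (x : H) :
    ι (c • (x - ι x)) = -(c • (x - ι x)) := by
  rw [map_smul, map_sub, hιι, ← smul_neg, neg_sub]

/-- orthogonality of plus parts along a chain -/
theorem orth_pl_chain [Fintype G] (hG : (Fintype.card G : k) ≠ 0) (h2 : (2 : k) ≠ 0)
    {ι : H →ₗ[k] H} (hιι : ∀ x, ι (ι x) = x) (hιρ : ∀ g x, ι (ρ g x) = ρ g (ι x))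
    {A B C : Submodule k H} (hBA : B ≤ A) (hCB : C ≤ B) (hA : Stab ρ A) (hB : Stab ρ B)
    (hC : Stab ρ C) (hιA : ∀ x ∈ A, ι x ∈ A) (hιB : ∀ x ∈ B, ι x ∈ B) (hιC : ∀ x ∈ C, ι x ∈ C)
    (hf : FinQ A C) (o1 : OrthQ ρ (pl ι A B) B) (o2 : OrthQ ρ (pl ι B C) C) :
    OrthQ ρ (pl ι A C) C := by
  have e1 : pl ι A B = pl ι A C ⊔ B := by
    apply le_antisymm
    · intro x hx
      obtain ⟨hx1, hx2⟩ := mem_pl.1 hx
      rw [half_split h2 ι x]
      refine Submodule.add_mem_sup (mem_pl.2 ⟨A.smul_mem _ (A.add_mem hx1 (hιA x hx1)), ?_⟩) ?_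
      · rw [iota_plus hιι, sub_self]; exact C.zero_mem
      · refine B.smul_mem _ ?_
        rw [← neg_sub]; exact B.neg_mem hx2
    · exact sup_le (fun x hx => mem_pl.2 ⟨hx.1, hCB (mem_pl.1 hx).2⟩) (le_pl hBA hιB)
  have e2 : pl ι A C ⊓ B = pl ι B C := by
    apply le_antisymm
    · exact fun x hx => mem_pl.2 ⟨hx.2, (mem_pl.1 hx.1).2⟩
    · exact fun x hx => ⟨mem_pl.2 ⟨hBA hx.1, (mem_pl.1 hx).2⟩, hx.1⟩
  rw [e1] at o1
  have o3 := orth_of_sup ρ o1
  rw [e2] at o3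
  have e3 : pl ι B C ≤ pl ι A C := fun x hx => mem_pl.2 ⟨hBA hx.1, (mem_pl.1 hx).2⟩
  exact orth_ext ρ hG e3 (le_pl hCB hιC)
    (stab_pl ρ hιρ hA hC) (stab_pl ρ hιρ hB hC) hC (finq_mono hf inf_le_left le_rfl) o3 o2

/-- an isotropic subspace of at least half the dimension is its own annihilator -/
theorem lagr (B : H →ₗ[k] H →ₗ[k] k) (N U : Submodule k H) (m : ℕ)
    [FiniteDimensional k (H ⧸ N)] [FiniteDimensional k U]
    (hN : ∀ x, ∀ y ∈ N, B x y = 0) (hN' : ∀ x ∈ N, ∀ y, B x y = 0)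
    (hU : ∀ x ∈ U, ∀ y ∈ U, B x y = 0) (hUr : ∀ x ∈ U, (∀ y, B x y = 0) → x = 0)
    (hd : Module.finrank k (H ⧸ N) ≤ 2 * m) (hm : m ≤ Module.finrank k U) :
    ∀ y, (∀ x ∈ U, B x y = 0) → y ∈ U ⊔ N := by
  let θ0 : H →ₗ[k] U →ₗ[k] k := (B ∘ₗ U.subtype).flip
  have hθ0 : N ≤ LinearMap.ker θ0 := by
    intro y hy
    ext u
    exact hN u y hy
  let θ : (H ⧸ N) →ₗ[k] U →ₗ[k] k := N.liftQ θ0 hθ0
  have hinj : Function.Injective θ.flip := by
    rw [injective_iff_map_eq_zero]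
    intro u hu
    refine Subtype.ext (hUr u u.2 fun y => ?_)
    exact LinearMap.congr_fun hu (N.mkQ y)
  have hsurj : Function.Surjective θ := LinearMap.flip_injective_iff₁.1 hinj
  have h1 := LinearMap.finrank_range_add_finrank_ker θ
  rw [LinearMap.range_eq_top.2 hsurj, finrank_top] at h1
  have h2 : Module.finrank k (U →ₗ[k] k) = Module.finrank k U := Subspace.dual_finrank_eq
  let j : U →ₗ[k] (H ⧸ N) := N.mkQ ∘ₗ U.subtype
  have hj : Function.Injective j := by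
    rw [injective_iff_map_eq_zero]
    intro u hu
    have : (u : H) ∈ N := (Submodule.Quotient.mk_eq_zero N).1 hu
    exact Subtype.ext (hUr u u.2 (hN' u this))
  have h3 : Module.finrank k (LinearMap.range j) = Module.finrank k U :=
    LinearMap.finrank_range_of_inj hj
  have h4 : LinearMap.range j ≤ LinearMap.ker θ := by
    rintro _ ⟨u, rfl⟩
    ext v
    exact hU v v.2 u u.2
  have h5 : LinearMap.range j = LinearMap.ker θ :=
    Submodule.eq_of_le_of_finrank_le h4 (by omega)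
  intro y hy
  have h6 : N.mkQ y ∈ LinearMap.ker θ := by
    ext v
    exact hy v v.2
  rw [← h5] at h6
  obtain ⟨u, hu⟩ := h6
  have h7 : (u : H) - y ∈ N := (Submodule.Quotient.eq N).1 hu
  have e : y = (u : H) + -((u : H) - y) := by abel
  rw [e]
  exact Submodule.add_mem_sup u.2 (N.neg_mem h7)

theorem finq_top (N : Submodule k H) [FiniteDimensional k (H ⧸ N)] : FinQ ⊤ N := by
  classical
  obtain ⟨s, hs⟩ := Module.Finite.fg_top (R := k) (M := H ⧸ N)
  have hsur : Function.Surjective N.mkQ := N.mkQ_surjective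
  refine ⟨s.image (Function.surjInv hsur), fun x _ => ?_⟩
  have h1 : N.mkQ x ∈ (Submodule.span k
      ((s.image (Function.surjInv hsur) : Finset H) : Set H)).map N.mkQ := by
    rw [Submodule.map_span]
    have : N.mkQ '' ((s.image (Function.surjInv hsur) : Finset H) : Set H) = s := by
      rw [Finset.coe_image, Set.image_image]
      simp [Function.surjInv_eq hsur]
    rw [this, hs]; trivial
  obtain ⟨y, hy, hxy⟩ := h1
  have h2 : y - x ∈ N := (Submodule.Quotient.eq N).1 hxy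
  have e : x = -(y - x) + y := by abel
  rw [e]
  exact Submodule.add_mem_sup (N.neg_mem h2) hy

theorem fin_of_finq {U : Submodule k H} (h : FinQ U ⊥) : FiniteDimensional k U := by
  obtain ⟨s, hs⟩ := h
  rw [bot_sup_eq] at hs
  exact Submodule.finiteDimensional_of_le hs

theorem quot_dim (P0 : Submodule k H) (n : ℕ) (s : Finset H) (hs : s.card ≤ n)
    (h : P0 ⊔ Submodule.span k (s : Set H) = ⊤) :
    FiniteDimensional k (H ⧸ P0) ∧ Module.finrank k (H ⧸ P0) ≤ n := by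
  classical
  have h1 : Submodule.span k ((s.image P0.mkQ : Finset (H ⧸ P0)) : Set (H ⧸ P0)) = ⊤ := by
    rw [Finset.coe_image, ← Submodule.map_span, Submodule.map_mkQ_eq_top, h]
  have h2 : FiniteDimensional k (H ⧸ P0) := ⟨⟨_, h1⟩⟩
  refine ⟨h2, ?_⟩
  rw [← finrank_top, ← h1]
  exact (finrank_span_finset_le_card _).trans (Finset.card_image_le.trans hs)

end

end Pool.Agent.MP_14ad9d_nt.Full.DualAux

end

section

set_option autoImplicit false

namespace Pool.Agent.MP_14ad9d_nt.Full.DualAux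

open Pool.Agent.MP_14ad9d_nt.Full

section

variable {k G H P : Type} [Field k] [Group G] [AddCommGroup H] [Module k H] [MulAction G P]
  (M : Mach k G H P)

theorem tame_swap (p : P) (x y : H) : M.tame p x y = -M.tame p y x := by
  have h := M.tame_self p (x + y)
  simp only [map_add, LinearMap.add_apply, M.tame_self] at h
  linear_combination h

theorem tame_eq (p : P) (x y : H) :
    M.tame p x y = M.ord p y * M.chi p x - M.ord p x * M.chi p y := by
  have h := M.tame_unr p (x - M.ord p x • M.unif p) (y - M.ord p y • M.unif p)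
    (by simp [M.ord_unif]) (by simp [M.ord_unif])
  simp only [map_sub, map_smul, LinearMap.sub_apply, LinearMap.smul_apply, smul_eq_mul,
    M.tame_self] at h
  rw [tame_swap M p (M.unif p) y] at h
  unfold Mach.chi
  linear_combination h

theorem tame_fin (x y : H) : Function.HasFiniteSupport fun p => M.tame p x y := by
  refine ((M.ord_fin x).union (M.ord_fin y)).subset fun p hp => ?_
  by_contra hc
  simp only [Set.mem_union, Set.mem_ofPred_eq, not_or, not_not] at hc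
  exact hp (M.tame_unr p x y hc.1 hc.2)

/-- the sum of the tame symbols as a bilinear form -/
noncomputable def PhiL : H →ₗ[k] H →ₗ[k] k :=
  LinearMap.mk₂ k M.Phi
    (fun x x' y => by
      unfold Mach.Phi
      rw [← finsum_add_distrib (tame_fin M x y) (tame_fin M x' y)]
      simp only [map_add, LinearMap.add_apply])
    (fun c x y => by
      unfold Mach.Phi
      rw [smul_eq_mul, mul_finsum]
      simp only [map_smul, LinearMap.smul_apply, smul_eq_mul])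
    (fun x y y' => by
      unfold Mach.Phi
      rw [← finsum_add_distrib (tame_fin M x y) (tame_fin M x y')]
      simp only [map_add])
    (fun c x y => by
      unfold Mach.Phi
      rw [smul_eq_mul, mul_finsum]
      simp only [map_smul, smul_eq_mul])

theorem PhiL_apply (x y : H) : PhiL M x y = M.Phi x y := rfl

theorem PhiL_swap (x y : H) : PhiL M x y = -PhiL M y x := by
  rw [PhiL_apply, PhiL_apply]
  unfold Mach.Phi
  rw [← finsum_neg_distrib]
  exact finsum_congr fun p => tame_swap M p x y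

theorem PhiL_act (g : G) (x y : H) : PhiL M (M.ρ g x) (M.ρ g y) = PhiL M x y := by
  rw [PhiL_apply, PhiL_apply]
  unfold Mach.Phi
  rw [← finsum_comp_equiv (MulAction.toPerm g)]
  exact finsum_congr fun p => M.tame_act g p x y

theorem PhiL_prim (x : H) {y : H} (hy : y ∈ M.Prim) : PhiL M x y = 0 := M.recip x y hy

theorem mem_Unr {S : Set P} {x : H} : x ∈ M.Unr S ↔ ∀ p, p ∉ S → M.ord p x = 0 := by
  simp [Mach.Unr, Submodule.mem_iInf]

theorem ord_act' (g : G) (p : P) (x : H) : M.ord p (M.ρ g x) = M.ord (g⁻¹ • p) x := by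
  rw [← M.ord_act g (g⁻¹ • p) x, smul_inv_smul]

theorem chi_act (g : G) (p : P) {x : H} (hx : M.ord p x = 0) :
    M.chi (g • p) (M.ρ g x) = M.chi p x := by
  have e : M.unif (g • p) = M.ρ g (M.ρ g⁻¹ (M.unif (g • p))) := by
    rw [← Module.End.mul_apply, ← map_mul, mul_inv_cancel, map_one, Module.End.one_apply]
  have h1 : M.ord p (M.ρ g⁻¹ (M.unif (g • p))) = 1 := by
    rw [ord_act', inv_inv, M.ord_unif]
  rw [Mach.chi, e, M.tame_act, tame_eq, h1, hx, one_mul, zero_mul, sub_zero]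

/-- the residue symbol as a linear form -/
def chiL (p : P) : H →ₗ[k] k := (M.tame p).flip (M.unif p)

theorem chiL_apply (p : P) (x : H) : chiL M p x = M.chi p x := rfl

variable [Fintype G] (D : M.Dual)

theorem ord_ι' (p : P) (x : H) : M.ord p (D.ι x) = M.ord (D.ιP p) x := by
  rw [← D.ord_ι (D.ιP p) x, D.ιP_ιP]

theorem chi_ι (p : P) {x : H} (hx : M.ord p x = 0) :
    M.chi (D.ιP p) (D.ι x) = -M.chi p x := by
  have h1 : M.ord p (D.ι (M.unif (D.ιP p))) = 1 := by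
    rw [ord_ι', M.ord_unif]
  rw [Mach.chi, ← D.ι_ι (M.unif (D.ιP p)), D.tame_ι, tame_eq, h1, hx, one_mul, zero_mul, sub_zero]

theorem PhiL_ι (x y : H) : PhiL M (D.ι x) (D.ι y) = -PhiL M x y := by
  rw [PhiL_apply, PhiL_apply]
  unfold Mach.Phi
  rw [← finsum_neg_distrib, ← finsum_comp_equiv (Function.Involutive.toPerm D.ιP D.ιP_ιP)]
  exact finsum_congr fun p => D.tame_ι p x y

/-- classes of order zero on `S` -/
def O0 : Submodule k H := ⨅ p ∈ D.S, LinearMap.ker (M.ord p)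

theorem mem_O0 {x : H} : x ∈ O0 M D ↔ ∀ p ∈ D.S, M.ord p x = 0 := by
  simp [O0, Submodule.mem_iInf]

/-- classes with trivial residue symbol on `S` -/
def C0 : Submodule k H := ⨅ p ∈ D.S, LinearMap.ker (chiL M p)

theorem mem_C0 {x : H} : x ∈ C0 M D ↔ ∀ p ∈ D.S, M.chi p x = 0 := by
  simp [C0, Submodule.mem_iInf, chiL_apply]

/-- primary classes trivial on `S` -/
def NN : Submodule k H := M.Prim ⊓ O0 M D ⊓ C0 M D

/-- classes all of whose conjugates satisfy the local condition -/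
def L1 : Submodule k H := ⨅ g, D.L0.comap (M.ρ g)

theorem mem_L1 {x : H} : x ∈ L1 M D ↔ ∀ g, M.ρ g x ∈ D.L0 := by
  simp [L1, Submodule.mem_iInf]

theorem stab_O0 : Stab M.ρ (O0 M D) := by
  intro g x hx
  rw [mem_O0] at hx ⊢
  intro p hp
  rw [ord_act']
  exact hx _ (D.S_act _ p hp)

theorem ι_O0 : ∀ x ∈ O0 M D, D.ι x ∈ O0 M D := by
  intro x hx
  rw [mem_O0] at hx ⊢
  intro p hp
  rw [ord_ι']
  exact hx _ (D.S_ι p hp)

theorem ι_Prim : ∀ x ∈ M.Prim, D.ι x ∈ M.Prim := by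
  intro x hx
  rw [D.Prim_iff] at hx ⊢
  intro g
  rw [← D.ι_ρ]
  exact D.P0_ι _ (hx g)

theorem stab_L1 : Stab M.ρ (L1 M D) := by
  intro g x hx
  rw [mem_L1] at hx ⊢
  intro h
  rw [← Module.End.mul_apply, ← map_mul]
  exact hx _

theorem ι_L1 : ∀ x ∈ L1 M D, D.ι x ∈ L1 M D := by
  intro x hx
  rw [mem_L1] at hx ⊢
  intro g
  rw [← D.ι_ρ]
  exact D.L0_ι _ (hx g)

theorem Prim_le_L1 : M.Prim ≤ L1 M D := fun x hx =>
  (mem_L1 M D).2 fun g => D.P0_le ((D.Prim_iff x).1 hx g)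

theorem stab_NN : Stab M.ρ (NN M D) := by
  intro g x hx
  refine ⟨⟨M.Prim_stab g x hx.1.1, stab_O0 M D g x hx.1.2⟩, (mem_C0 M D).2 fun p hp => ?_⟩
  have h1 := D.S_act g⁻¹ p hp
  have h2 := chi_act M g (g⁻¹ • p) ((mem_O0 M D).1 hx.1.2 _ h1)
  rw [smul_inv_smul] at h2
  rw [h2]
  exact (mem_C0 M D).1 hx.2 _ h1

theorem ι_NN : ∀ x ∈ NN M D, D.ι x ∈ NN M D := by
  intro x hx
  refine ⟨⟨ι_Prim M D x hx.1.1, ι_O0 M D x hx.1.2⟩, (mem_C0 M D).2 fun p hp => ?_⟩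
  have h1 := D.S_ι p hp
  have h2 := chi_ι M D (D.ιP p) ((mem_O0 M D).1 hx.1.2 _ h1)
  rw [D.ιP_ιP] at h2
  rw [h2, (mem_C0 M D).1 hx.2 _ h1, neg_zero]

theorem stab_U : Stab M.ρ (M.Unr D.S) := by
  intro g x hx
  rw [mem_Unr] at hx ⊢
  intro p hp
  rw [ord_act']
  refine hx _ fun h => hp ?_
  have := D.S_act g _ h
  rwa [smul_inv_smul] at this

theorem ι_U : ∀ x ∈ M.Unr D.S, D.ι x ∈ M.Unr D.S := by
  intro x hx
  rw [mem_Unr] at hx ⊢
  intro p hp
  rw [ord_ι']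
  refine hx _ fun h => hp ?_
  have := D.S_ι _ h
  rwa [D.ιP_ιP] at this

omit [Fintype G] in
theorem stab_U0 : Stab M.ρ (M.Unr ∅) := by
  intro g x hx
  rw [mem_Unr] at hx ⊢
  intro p _
  rw [ord_act']
  exact hx _ (Set.notMem_empty _)

theorem ι_U0 : ∀ x ∈ M.Unr ∅, D.ι x ∈ M.Unr ∅ := by
  intro x hx
  rw [mem_Unr] at hx ⊢
  intro p _
  rw [ord_ι']
  exact hx _ (Set.notMem_empty _)

/-- the pairing outside `S` -/
noncomputable def BB : H →ₗ[k] H →ₗ[k] k := ∑ p ∈ D.S, M.tame p - PhiL M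

theorem BB_apply (x y : H) : BB M D x y = ∑ p ∈ D.S, M.tame p x y - PhiL M x y := by
  simp [BB, LinearMap.sum_apply]

theorem BB_swap (x y : H) : BB M D x y = -BB M D y x := by
  rw [BB_apply, BB_apply, PhiL_swap M x y, Finset.sum_congr rfl fun p _ => tame_swap M p x y,
    Finset.sum_neg_distrib]
  ring

theorem BB_act (g : G) (x y : H) : BB M D (M.ρ g x) (M.ρ g y) = BB M D x y := by
  rw [BB_apply, BB_apply, PhiL_act]
  congr 1
  symm
  refine Finset.sum_nbij' (fun p => g • p) (fun p => g⁻¹ • p) (fun p hp => D.S_act g p hp)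
    (fun p hp => D.S_act g⁻¹ p hp) (fun p _ => inv_smul_smul g p) (fun p _ => smul_inv_smul g p)
    fun p _ => (M.tame_act g p x y).symm

theorem BB_ι (x y : H) : BB M D (D.ι x) (D.ι y) = -BB M D x y := by
  rw [BB_apply, BB_apply, PhiL_ι]
  have : ∑ p ∈ D.S, -M.tame p x y = ∑ p ∈ D.S, M.tame p (D.ι x) (D.ι y) :=
    Finset.sum_nbij' D.ιP D.ιP (fun p hp => D.S_ι p hp) (fun p hp => D.S_ι p hp)
      (fun p _ => D.ιP_ιP p) (fun p _ => D.ιP_ιP p) fun p _ => (D.tame_ι p x y).symm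
  rw [← this, Finset.sum_neg_distrib]
  ring

theorem BB_prim (x : H) {y : H} (hy : y ∈ M.Prim) :
    BB M D x y = ∑ p ∈ D.S, (M.ord p y * M.chi p x - M.ord p x * M.chi p y) := by
  rw [BB_apply, PhiL_prim M x hy, sub_zero]
  exact Finset.sum_congr rfl fun p _ => tame_eq M p x y

theorem BB_N (x : H) {y : H} (hy : y ∈ NN M D) : BB M D x y = 0 := by
  rw [BB_prim M D x hy.1.1]
  refine Finset.sum_eq_zero fun p hp => ?_
  rw [(mem_O0 M D).1 hy.1.2 p hp, (mem_C0 M D).1 hy.2 p hp]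
  ring

theorem BB_N' {x : H} (hx : x ∈ NN M D) (y : H) : BB M D x y = 0 := by
  rw [BB_swap, BB_N M D y hx, neg_zero]

theorem BB_U {x y : H} (hx : x ∈ M.Unr D.S) (hy : y ∈ M.Unr D.S) : BB M D x y = 0 := by
  rw [BB_apply, PhiL_apply, Mach.Phi, finsum_eq_sum_of_support_subset (s := D.S), sub_self]
  intro p hp
  by_contra hc
  exact hp (M.tame_unr p x y ((mem_Unr M).1 hx p hc) ((mem_Unr M).1 hy p hc))

theorem BB_O0 {x y : H} (hx : x ∈ O0 M D) (hy : y ∈ O0 M D) : BB M D x y = -PhiL M x y := by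
  rw [BB_apply, Finset.sum_eq_zero, zero_sub]
  exact fun p hp => M.tame_unr p x y ((mem_O0 M D).1 hx p hp) ((mem_O0 M D).1 hy p hp)

theorem wa0 (o c : P → k) :
    ∃ x ∈ M.Prim, ∀ p ∈ D.S, M.ord p x = o p ∧ M.chi p x = c p := by
  obtain ⟨x, h1, h2⟩ := D.wa D.S o c 0
  exact ⟨x, (D.Prim_iff x).2 fun g => by simpa using h1 g, h2⟩

theorem ord_zero_of_test {x : H} (h : ∀ y ∈ M.Prim ⊓ O0 M D, BB M D x y = 0) : x ∈ O0 M D := by
  classical
  rw [mem_O0]
  intro p hp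
  obtain ⟨y, hy, hy'⟩ := wa0 M D 0 (Pi.single p 1)
  have h1 := h y ⟨hy, (mem_O0 M D).2 fun q hq => (hy' q hq).1⟩
  rw [BB_prim M D x hy, Finset.sum_eq_single p] at h1
  · rw [(hy' p hp).1, (hy' p hp).2] at h1
    simpa using h1
  · intro q hq hqp
    rw [(hy' q hq).1, (hy' q hq).2]
    simp [hqp]
  · exact fun hc => absurd hp hc

theorem chi_zero_of_test {x : H} (h : ∀ y ∈ M.Prim, BB M D x y = 0) : x ∈ C0 M D := by
  classical
  rw [mem_C0]
  intro p hp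
  obtain ⟨y, hy, hy'⟩ := wa0 M D (Pi.single p 1) 0
  have h1 := h y hy
  rw [BB_prim M D x hy, Finset.sum_eq_single p] at h1
  · rw [(hy' p hp).1, (hy' p hp).2] at h1
    simpa using h1
  · intro q hq hqp
    rw [(hy' q hq).1, (hy' q hq).2]
    simp [hqp]
  · exact fun hc => absurd hp hc

theorem U0_of {x : H} (hx : x ∈ M.Unr D.S) (h : x ∈ O0 M D) : x ∈ M.Unr ∅ := by
  rw [mem_Unr]
  intro p _
  by_cases hp : p ∈ D.S
  · exact (mem_O0 M D).1 h p hp
  · exact (mem_Unr M).1 hx p hp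

theorem U0_le_U : M.Unr ∅ ≤ M.Unr D.S := fun _ hx =>
  (mem_Unr M).2 fun p _ => (mem_Unr M).1 hx p (Set.notMem_empty _)

theorem U0_le_O0 : M.Unr ∅ ≤ O0 M D := fun _ hx =>
  (mem_O0 M D).2 fun p _ => (mem_Unr M).1 hx p (Set.notMem_empty _)

theorem U_N {x : H} (hx : x ∈ M.Unr D.S) (h : x ∈ NN M D) : x = 0 :=
  D.detect x (fun p => (mem_Unr M).1 (U0_of M D hx h.1.2) p (Set.notMem_empty _))
    ((mem_C0 M D).1 h.2)

theorem U_rad {x : H} (hx : x ∈ M.Unr D.S) (h : ∀ y, BB M D x y = 0) : x = 0 :=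
  D.detect x
    (fun p => (mem_Unr M).1 (U0_of M D hx (ord_zero_of_test M D fun y _ => h y)) p
      (Set.notMem_empty _))
    ((mem_C0 M D).1 (chi_zero_of_test M D fun y _ => h y))

theorem P0_dim : FiniteDimensional k (H ⧸ D.P0) ∧ Module.finrank k (H ⧸ D.P0) ≤ 2 * D.d := by
  obtain ⟨s, h1, h2⟩ := D.dim0
  exact quot_dim D.P0 _ s h1 h2

theorem NN_dim : FiniteDimensional k (H ⧸ NN M D) ∧
    Module.finrank k (H ⧸ NN M D) ≤ 2 * (D.S.card + Fintype.card G * D.d) := by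
  obtain ⟨h1, h2⟩ := P0_dim M D
  let Ψ : H →ₗ[k] (G → H ⧸ D.P0) × (D.S → k) × (D.S → k) :=
    (LinearMap.pi fun g => D.P0.mkQ ∘ₗ M.ρ g).prod
      ((LinearMap.pi fun p => M.ord p.1).prod (LinearMap.pi fun p => chiL M p.1))
  have hk : LinearMap.ker Ψ = NN M D := by
    ext x
    simp only [Ψ, NN, LinearMap.ker_prod, LinearMap.mem_ker,
      funext_iff, LinearMap.pi_apply, LinearMap.comp_apply, Submodule.mkQ_apply, Pi.zero_apply,
      Submodule.Quotient.mk_eq_zero, Submodule.mem_inf, mem_O0, mem_C0, D.Prim_iff, chiL_apply,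
      Subtype.forall, and_assoc]
  have e := Ψ.quotKerEquivRange
  rw [hk] at e
  have h3 : FiniteDimensional k (H ⧸ NN M D) := e.symm.finiteDimensional
  refine ⟨h3, ?_⟩
  rw [e.finrank_eq]
  refine (Submodule.finrank_le _).trans ?_
  rw [Module.finrank_prod, Module.finrank_prod, Module.finrank_pi_fintype, Module.finrank_pi]
  simp only [Finset.sum_const, Finset.card_univ, smul_eq_mul, Fintype.card_coe]
  nlinarith [Nat.mul_le_mul_left (Fintype.card G) h2]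

theorem finq_NN : FinQ ⊤ (NN M D) := by
  have := (NN_dim M D).1
  exact finq_top _

/-- global duality -/
theorem U_perp {y : H} (hy : ∀ x ∈ M.Unr D.S, BB M D x y = 0) : y ∈ M.Unr D.S ⊔ NN M D := by
  have h1 := (NN_dim M D).1
  have h2 := fin_of_finq D.U_fin
  exact lagr (BB M D) (NN M D) (M.Unr D.S) _ (fun x y hy => BB_N M D x hy)
    (fun x hx y => BB_N' M D hx y) (fun x hx y hy => BB_U M D hx hy)
    (fun x hx h => U_rad M D hx h) (NN_dim M D).2 D.U_dim y hy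

theorem rad_BB {y : H} (hy : ∀ x, BB M D x y = 0) : y ∈ NN M D := by
  obtain ⟨u, hu, n, hn, rfl⟩ := Submodule.mem_sup.1 (U_perp M D fun x _ => hy x)
  have : u = 0 := U_rad M D hu fun x => by
    have h := hy x
    rw [map_add, BB_N M D x hn, add_zero] at h
    rw [BB_swap, h, neg_zero]
  rw [this, zero_add]
  exact hn

end

end Pool.Agent.MP_14ad9d_nt.Full.DualAux

end

section

set_option autoImplicit false

namespace Pool.Agent.MP_14ad9d_nt.Full

namespace DualAux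

section

variable {k G H P : Type} [Field k] [Group G] [AddCommGroup H] [Module k H] [MulAction G P]
  (M : Mach k G H P) [Fintype G] (D : M.Dual)

theorem orth_ord (hG : (Fintype.card G : k) ≠ 0) :
    OrthQ M.ρ (pl D.ι M.Prim (M.Prim ⊓ O0 M D)) (M.Prim ⊓ O0 M D) := by
  refine orth_perm M.ρ hG D.S D.S_act M.ord inf_le_left M.Prim_stab
    (fun g p _ x _ => M.ord_act g p x) (fun z => ?_) (fun x hx => ?_) D.ι D.ιP 1 (one_mul 1)
    D.ιP_ιP D.S_ι D.ι_ι D.ι_ρ (ι_Prim M D) fun p _ x _ => by rw [D.ord_ι, one_mul]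
  · obtain ⟨x, h1, h2⟩ := wa0 M D z 0
    exact ⟨x, h1, fun p hp => (h2 p hp).1⟩
  · rw [Submodule.mem_inf, mem_O0]
    exact ⟨fun h => h.2, fun h => ⟨hx, h⟩⟩

theorem orth_chi (hG : (Fintype.card G : k) ≠ 0) :
    OrthQ M.ρ (pl D.ι (M.Prim ⊓ O0 M D) (NN M D)) (NN M D) := by
  refine orth_perm M.ρ hG D.S D.S_act (chiL M) inf_le_left
    (stab_inf M.ρ M.Prim_stab (stab_O0 M D))
    (fun g p hp x hx => chi_act M g p ((mem_O0 M D).1 hx.2 p hp)) (fun z => ?_) (fun x hx => ?_)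
    D.ι D.ιP (-1) (by ring) D.ιP_ιP D.S_ι D.ι_ι D.ι_ρ
    (fun x hx => ⟨ι_Prim M D x hx.1, ι_O0 M D x hx.2⟩) fun p hp x hx => ?_
  · obtain ⟨x, h1, h2⟩ := wa0 M D 0 z
    exact ⟨x, ⟨h1, (mem_O0 M D).2 fun p hp => (h2 p hp).1⟩, fun p hp => (h2 p hp).2⟩
  · exact ⟨fun h => (mem_C0 M D).1 h.2, fun h => ⟨hx, (mem_C0 M D).2 h⟩⟩
  · rw [chiL_apply, chiL_apply, chi_ι M D p ((mem_O0 M D).1 hx.2 p hp), neg_one_mul]

theorem prim_of_wa {x : H} {z : G → H} (hx : ∀ g, M.ρ g x - z g ∈ D.P0)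
    (hz : ∀ g, D.ι (z g) - z g ∈ D.P0) : D.ι x - x ∈ M.Prim := by
  rw [D.Prim_iff]
  intro g
  have e : M.ρ g (D.ι x - x) =
      D.ι (M.ρ g x - z g) + (D.ι (z g) - z g) - (M.ρ g x - z g) := by
    rw [map_sub, map_sub, D.ι_ρ]; abel
  rw [e]
  exact D.P0.sub_mem (D.P0.add_mem (D.P0_ι _ (hx g)) (hz g)) (hx g)

theorem prim_le_P0 {x : H} (hx : x ∈ M.Prim) : x ∈ D.P0 := by
  simpa using (D.Prim_iff x).1 hx 1

theorem orth_top : OrthQ M.ρ (pl D.ι ⊤ M.Prim) M.Prim := by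
  have := (P0_dim M D).1
  refine orth_ind M.ρ D.P0.mkQ ((pl D.ι ⊤ D.P0).map D.P0.mkQ)
    (stab_pl M.ρ D.ι_ρ (fun _ _ _ => trivial) M.Prim_stab) (fun x hx => ?_) (fun z hz => ?_)
    fun x _ => ?_
  · exact ⟨x, mem_pl.2 ⟨trivial, prim_le_P0 M D (mem_pl.1 hx).2⟩, rfl⟩
  · choose w hw1 hw2 using hz
    obtain ⟨x, h1, -⟩ := D.wa D.S 0 0 w
    refine ⟨x, mem_pl.2 ⟨trivial, prim_of_wa M D h1 fun g => (mem_pl.1 (hw1 g)).2⟩, fun g => ?_⟩
    rw [← hw2 g]
    exact (Submodule.Quotient.eq _).2 (h1 g)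
  · rw [D.Prim_iff]
    exact forall_congr' fun g => (Submodule.Quotient.mk_eq_zero _).symm

theorem orth_L1 : OrthQ M.ρ (pl D.ι (L1 M D ⊓ O0 M D) (M.Prim ⊓ O0 M D)) (M.Prim ⊓ O0 M D) := by
  have := (P0_dim M D).1
  refine orth_ind M.ρ D.P0.mkQ ((pl D.ι D.L0 D.P0).map D.P0.mkQ)
    (stab_pl M.ρ D.ι_ρ (stab_inf M.ρ (stab_L1 M D) (stab_O0 M D))
      (stab_inf M.ρ M.Prim_stab (stab_O0 M D))) (fun x hx => ?_) (fun z hz => ?_)
    fun x hx => ?_
  · refine ⟨x, mem_pl.2 ⟨?_, prim_le_P0 M D (mem_pl.1 hx).2.1⟩, rfl⟩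
    simpa using (mem_L1 M D).1 hx.1.1 1
  · choose w hw1 hw2 using hz
    obtain ⟨x, h1, h2⟩ := D.wa D.S 0 0 w
    have h3 : x ∈ O0 M D := (mem_O0 M D).2 fun p hp => (h2 p hp).1
    refine ⟨x, mem_pl.2 ⟨⟨(mem_L1 M D).2 fun g => ?_, h3⟩,
      prim_of_wa M D h1 fun g => (mem_pl.1 (hw1 g)).2,
      (O0 M D).sub_mem (ι_O0 M D x h3) h3⟩, fun g => ?_⟩
    · have e : M.ρ g x = (M.ρ g x - w g) + w g := by abel
      rw [e]
      exact D.L0.add_mem (D.P0_le (h1 g)) (hw1 g).1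
    · rw [← hw2 g]
      exact (Submodule.Quotient.eq _).2 (h1 g)
  · rw [Submodule.mem_inf, D.Prim_iff]
    exact ⟨fun h g => (Submodule.Quotient.mk_eq_zero _).2 (h.1 g),
      fun h => ⟨fun g => (Submodule.Quotient.mk_eq_zero _).1 (h g), hx.1.2⟩⟩

theorem orth_Vp (hG : (Fintype.card G : k) ≠ 0) (h2 : (2 : k) ≠ 0) :
    OrthQ M.ρ (pl D.ι ⊤ (NN M D)) (NN M D) := by
  have hP0 := stab_inf M.ρ M.Prim_stab (stab_O0 M D)
  have hι0 : ∀ x ∈ M.Prim ⊓ O0 M D, D.ι x ∈ M.Prim ⊓ O0 M D :=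
    fun x hx => ⟨ι_Prim M D x hx.1, ι_O0 M D x hx.2⟩
  have hN : NN M D ≤ M.Prim ⊓ O0 M D := inf_le_left
  refine orth_pl_chain M.ρ hG h2 D.ι_ι D.ι_ρ le_top (hN.trans inf_le_left) (fun _ _ _ => trivial)
    M.Prim_stab (stab_NN M D) (fun _ _ => trivial) (ι_Prim M D) (ι_NN M D) (finq_NN M D)
    (orth_top M D) ?_
  exact orth_pl_chain M.ρ hG h2 D.ι_ι D.ι_ρ inf_le_left hN M.Prim_stab hP0 (stab_NN M D)
    (ι_Prim M D) hι0 (ι_NN M D) (finq_mono (finq_NN M D) le_top le_rfl) (orth_ord M D hG)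
    (orth_chi M D hG)

theorem orth_Lp (hG : (Fintype.card G : k) ≠ 0) (h2 : (2 : k) ≠ 0) :
    OrthQ M.ρ (pl D.ι (L1 M D ⊓ O0 M D) (NN M D)) (NN M D) :=
  orth_pl_chain M.ρ hG h2 D.ι_ι D.ι_ρ (inf_le_inf_right _ (Prim_le_L1 M D)) inf_le_left
    (stab_inf M.ρ (stab_L1 M D) (stab_O0 M D)) (stab_inf M.ρ M.Prim_stab (stab_O0 M D))
    (stab_NN M D) (fun x hx => ⟨ι_L1 M D x hx.1, ι_O0 M D x hx.2⟩)
    (fun x hx => ⟨ι_Prim M D x hx.1, ι_O0 M D x hx.2⟩) (ι_NN M D)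
    (finq_mono (finq_NN M D) le_top le_rfl) (orth_L1 M D) (orth_chi M D hG)

/-- the plus eigenspace -/
def Hp : Submodule k H := LinearMap.ker (D.ι - LinearMap.id)

/-- the minus eigenspace -/
def Hm : Submodule k H := LinearMap.ker (D.ι + LinearMap.id)

theorem mem_Hp {x : H} : x ∈ Hp M D ↔ D.ι x = x := by
  simp [Hp, sub_eq_zero]

theorem mem_Hm {x : H} : x ∈ Hm M D ↔ D.ι x = -x := by
  simp [Hm, add_eq_zero_iff_eq_neg]

theorem stab_Hp : Stab M.ρ (Hp M D) := by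
  intro g x hx
  rw [mem_Hp] at hx ⊢
  rw [D.ι_ρ, hx]

theorem stab_Hm : Stab M.ρ (Hm M D) := by
  intro g x hx
  rw [mem_Hm] at hx ⊢
  rw [D.ι_ρ, hx, map_neg]

theorem orth_Up : OrthQ M.ρ ((M.Unr D.S ⊓ Hp M D) ⊔ NN M D) (NN M D) := by
  refine orth_sup M.ρ (stab_inf M.ρ (stab_U M D) (stab_Hp M D)) (stab_NN M D) ?_
  have : (M.Unr D.S ⊓ Hp M D) ⊓ NN M D = ⊥ :=
    le_bot_iff.1 fun x hx => U_N M D hx.1.1 hx.2
  rw [this]
  exact D.U_orth

omit [Fintype G] in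
theorem eq_zero_of_neg (h2 : (2 : k) ≠ 0) {a : k} (h : a = -a) : a = 0 := by
  have : 2 * a = 0 := by linear_combination h
  exact (mul_eq_zero.1 this).resolve_left h2

theorem Phi_pp (h2 : (2 : k) ≠ 0) {x y : H} (hx : x ∈ Hm M D) (hy : y ∈ Hm M D) :
    PhiL M x y = 0 := by
  have h := PhiL_ι M D x y
  rw [(mem_Hm M D).1 hx, (mem_Hm M D).1 hy] at h
  simp only [map_neg, LinearMap.neg_apply, neg_neg] at h
  exact eq_zero_of_neg h2 h

theorem BB_pp (h2 : (2 : k) ≠ 0) {x y : H} (hx : D.ι x - x ∈ NN M D) (hy : D.ι y - y ∈ NN M D) :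
    BB M D x y = 0 := by
  have h := BB_ι M D x y
  have e1 : D.ι x = x + (D.ι x - x) := by abel
  have e2 : D.ι y = y + (D.ι y - y) := by abel
  rw [e1, map_add, LinearMap.add_apply, BB_N' M D hx, add_zero, e2, map_add, BB_N M D x hy,
    add_zero] at h
  exact eq_zero_of_neg h2 h

theorem BB_mm (h2 : (2 : k) ≠ 0) {x y : H} (hx : D.ι x + x ∈ NN M D) (hy : D.ι y + y ∈ NN M D) :
    BB M D x y = 0 := by
  have h := BB_ι M D x y
  have e1 : D.ι x = -x + (D.ι x + x) := by abel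
  have e2 : D.ι y = -y + (D.ι y + y) := by abel
  rw [e1, map_add, LinearMap.add_apply, BB_N' M D hx, add_zero, e2, map_add, BB_N M D _ hy,
    add_zero] at h
  simp only [map_neg, LinearMap.neg_apply, neg_neg] at h
  exact eq_zero_of_neg h2 h

/-- the minus part modulo the radical -/
def Vm : Submodule k H := (NN M D).comap (D.ι + LinearMap.id)

theorem mem_Vm {x : H} : x ∈ Vm M D ↔ D.ι x + x ∈ NN M D := Iff.rfl

theorem plus_mem (c : k) (x : H) : c • (x + D.ι x) ∈ Hp M D :=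
  (mem_Hp M D).2 (iota_plus D.ι_ι c x)

theorem minus_mem (c : k) (x : H) : c • (x - D.ι x) ∈ Hm M D :=
  (mem_Hm M D).2 (iota_minus D.ι_ι c x)

theorem Hp_N {x : H} (hx : x ∈ Hp M D) : D.ι x - x ∈ NN M D := by
  rw [(mem_Hp M D).1 hx, sub_self]; exact (NN M D).zero_mem

theorem Hm_N {x : H} (hx : x ∈ Hm M D) : D.ι x + x ∈ NN M D := by
  rw [(mem_Hm M D).1 hx, neg_add_cancel]; exact (NN M D).zero_mem

/-- the annihilator of the plus part of the local condition -/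
noncomputable def Ann : Submodule k H := ⨅ x ∈ L1 M D ⊓ Hp M D, LinearMap.ker (PhiL M x)

theorem mem_Ann {y : H} : y ∈ Ann M D ↔ ∀ x ∈ L1 M D ⊓ Hp M D, PhiL M x y = 0 := by
  simp only [Ann, Submodule.mem_iInf, LinearMap.mem_ker]

/-- the wild condition -/
noncomputable def LL : Submodule k H := (L1 M D ⊓ Hp M D) ⊔ (Hm M D ⊓ Ann M D)

theorem L1_iso' {x y : H} (hx : x ∈ L1 M D) (hy : y ∈ L1 M D) : PhiL M x y = 0 :=
  D.L1_iso x y ((mem_L1 M D).1 hx) ((mem_L1 M D).1 hy)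

theorem L1_le_LL (h2 : (2 : k) ≠ 0) : L1 M D ≤ LL M D := by
  intro x hx
  rw [half_split h2 D.ι x]
  refine Submodule.add_mem_sup
    ⟨(L1 M D).smul_mem _ ((L1 M D).add_mem hx (ι_L1 M D x hx)), plus_mem M D _ x⟩
    ⟨minus_mem M D _ x, (mem_Ann M D).2 fun y hy => L1_iso' M D hy.1 ?_⟩
  exact (L1 M D).smul_mem _ ((L1 M D).sub_mem hx (ι_L1 M D x hx))

theorem stab_Ann : Stab M.ρ (Ann M D) := by
  intro g y hy
  rw [mem_Ann] at hy ⊢
  intro x hx
  have e : x = M.ρ g (M.ρ g⁻¹ x) := by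
    rw [← Module.End.mul_apply, ← map_mul, mul_inv_cancel, map_one, Module.End.one_apply]
  rw [e, PhiL_act]
  exact hy _ (stab_inf M.ρ (stab_L1 M D) (stab_Hp M D) _ x hx)

theorem stab_LL : Stab M.ρ (LL M D) :=
  stab_sup M.ρ (stab_inf M.ρ (stab_L1 M D) (stab_Hp M D))
    (stab_inf M.ρ (stab_Hm M D) (stab_Ann M D))

theorem LL_iso (h2 : (2 : k) ≠ 0) : ∀ x ∈ LL M D, ∀ y ∈ LL M D, M.Phi x y = 0 := by
  intro x hx y hy
  obtain ⟨a, ha, b, hb, rfl⟩ := Submodule.mem_sup.1 hx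
  obtain ⟨a', ha', b', hb', rfl⟩ := Submodule.mem_sup.1 hy
  rw [← PhiL_apply]
  simp only [map_add, LinearMap.add_apply]
  rw [L1_iso' M D ha.1 ha'.1, (mem_Ann M D).1 hb'.2 a ha, PhiL_swap M b a',
    (mem_Ann M D).1 hb.2 a' ha', Phi_pp M D h2 hb.1 hb'.1]
  ring

/-- the annihilator in the minus part -/
noncomputable def Xm : Submodule k H :=
  Vm M D ⊓ ⨅ x ∈ ((M.Unr D.S ⊓ Hp M D) ⊔ NN M D) ⊔ pl D.ι (L1 M D ⊓ O0 M D) (NN M D),
    LinearMap.ker (BB M D x)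

theorem mem_Xm {y : H} : y ∈ Xm M D ↔ y ∈ Vm M D ∧
    ∀ x ∈ ((M.Unr D.S ⊓ Hp M D) ⊔ NN M D) ⊔ pl D.ι (L1 M D ⊓ O0 M D) (NN M D),
      BB M D x y = 0 := by
  simp only [Xm, Submodule.mem_inf, Submodule.mem_iInf, LinearMap.mem_ker]

theorem orth_X (hG : (Fintype.card G : k) ≠ 0) (h2 : (2 : k) ≠ 0) :
    OrthQ M.ρ ((((M.Unr D.S ⊓ Hp M D) ⊔ NN M D) ⊓ pl D.ι (L1 M D ⊓ O0 M D) (NN M D)) ⊔ Xm M D)
      (NN M D) := by
  have hN := stab_NN M D
  have hNL : NN M D ≤ L1 M D ⊓ O0 M D :=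
    inf_le_left.trans (inf_le_inf_right _ (Prim_le_L1 M D))
  have hNp : NN M D ≤ pl D.ι ⊤ (NN M D) := le_pl le_top (ι_NN M D)
  have hNm : NN M D ≤ Vm M D := fun x hx =>
    (mem_Vm M D).2 ((NN M D).add_mem (ι_NN M D x hx) hx)
  refine orthX M.ρ hG (Vp := pl D.ι ⊤ (NN M D)) (Vm := Vm M D) (BB M D) (BB_act M D) hN
    (stab_pl M.ρ D.ι_ρ (fun _ _ _ => trivial) hN) (fun g x hx => ?_)
    (stab_sup M.ρ (stab_inf M.ρ (stab_U M D) (stab_Hp M D)) hN)
    (stab_pl M.ρ D.ι_ρ (stab_inf M.ρ (stab_L1 M D) (stab_O0 M D)) hN) le_sup_right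
    (le_pl hNL (ι_NN M D)) (sup_le (fun x hx => mem_pl.2 ⟨trivial, Hp_N M D hx.2⟩) hNp)
    (fun x hx => mem_pl.2 ⟨trivial, (mem_pl.1 hx).2⟩) hNm (fun x hx => ?_)
    (finq_mono (finq_NN M D) le_top le_rfl) (finq_mono (finq_NN M D) le_top le_rfl)
    (fun x hx => ⟨fun h => ?_, fun h y _ => BB_N' M D h y⟩)
    (fun y hy => ⟨fun h => ?_, fun h x _ => BB_N M D x h⟩) (fun y => mem_Xm M D)
    (orth_Vp M D hG h2) (orth_Up M D) (orth_Lp M D hG h2)
  · rw [mem_Vm, D.ι_ρ, ← map_add]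
    exact hN g _ hx
  · have h1 := (NN M D).smul_mem (2 : k)⁻¹
      ((NN M D).sub_mem ((mem_Vm M D).1 hx.2) (mem_pl.1 hx.1).2)
    have e : D.ι x + x - (D.ι x - x) = (2 : k) • x := by rw [two_smul]; abel
    rwa [e, smul_smul, inv_mul_cancel₀ h2, one_smul] at h1
  · refine rad_BB M D fun y => ?_
    rw [BB_swap, half_split h2 D.ι y, map_add,
      BB_pp M D h2 (mem_pl.1 hx).2 (Hp_N M D (plus_mem M D _ y)),
      h _ ((mem_Vm M D).2 (Hm_N M D (minus_mem M D _ y))), add_zero, neg_zero]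
  · refine rad_BB M D fun x => ?_
    rw [half_split h2 D.ι x, map_add, LinearMap.add_apply,
      h _ (mem_pl.2 ⟨trivial, Hp_N M D (plus_mem M D _ x)⟩),
      BB_mm M D h2 (Hm_N M D (minus_mem M D _ x)) ((mem_Vm M D).1 hy), add_zero]

theorem half_N (h2 : (2 : k) ≠ 0) {x : H} (hx : D.ι x - x ∈ NN M D) :
    (2 : k)⁻¹ • (x - D.ι x) ∈ NN M D := by
  have _ := h2
  refine (NN M D).smul_mem _ ?_
  rw [← neg_sub]
  exact (NN M D).neg_mem hx

theorem X_le (h2 : (2 : k) ≠ 0) :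
    (((M.Unr D.S ⊓ Hp M D) ⊔ NN M D) ⊓ pl D.ι (L1 M D ⊓ O0 M D) (NN M D)) ⊔ Xm M D ≤
      (LL M D ⊓ M.Unr ∅) ⊔ NN M D := by
  have hNL : NN M D ≤ L1 M D ⊓ O0 M D :=
    inf_le_left.trans (inf_le_inf_right _ (Prim_le_L1 M D))
  refine sup_le (fun x hx => ?_) fun y hy => ?_
  · obtain ⟨u, hu, n, hn, rfl⟩ := Submodule.mem_sup.1 hx.1
    have h1 : u ∈ L1 M D ⊓ O0 M D := by
      have := (L1 M D ⊓ O0 M D).sub_mem hx.2.1 (hNL hn)
      rwa [add_sub_cancel_right] at this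
    exact Submodule.add_mem_sup ⟨L1_le_LL M D h2 h1.1, U0_of M D hu.1 h1.2⟩ hn
  · obtain ⟨hy1, hy2⟩ := (mem_Xm M D).1 hy
    have hyU : ∀ x ∈ M.Unr D.S, BB M D x y = 0 := by
      intro x hx
      rw [half_split h2 D.ι x, map_add, LinearMap.add_apply,
        BB_mm M D h2 (Hm_N M D (minus_mem M D _ x)) ((mem_Vm M D).1 hy1), add_zero]
      exact hy2 _ (Submodule.mem_sup_left (Submodule.mem_sup_left
        ⟨(M.Unr D.S).smul_mem _ ((M.Unr D.S).add_mem hx (ι_U M D x hx)), plus_mem M D _ x⟩))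
    obtain ⟨u, hu, n, hn, rfl⟩ := Submodule.mem_sup.1 (U_perp M D hyU)
    have hu1 : D.ι u + u ∈ NN M D := by
      have h1 := (NN M D).sub_mem ((mem_Vm M D).1 hy1) ((NN M D).add_mem (ι_NN M D n hn) hn)
      have e : D.ι (u + n) + (u + n) - (D.ι n + n) = D.ι u + u := by rw [map_add]; abel
      rwa [e] at h1
    have hu2 : u ∈ Hm M D := by
      rw [mem_Hm, ← add_eq_zero_iff_eq_neg]
      exact U_N M D ((M.Unr D.S).add_mem (ι_U M D u hu) hu) hu1
    have hu3 : ∀ x ∈ L1 M D ⊓ O0 M D, BB M D x u = 0 := by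
      intro x hx
      have h1 := hy2 ((2 : k)⁻¹ • (x + D.ι x)) (Submodule.mem_sup_right (mem_pl.2
        ⟨(L1 M D ⊓ O0 M D).smul_mem _ ((L1 M D ⊓ O0 M D).add_mem hx
          ⟨ι_L1 M D x hx.1, ι_O0 M D x hx.2⟩), Hp_N M D (plus_mem M D _ x)⟩))
      rw [map_add, BB_N M D _ hn, add_zero] at h1
      rw [half_split h2 D.ι x, map_add, LinearMap.add_apply, h1,
        BB_mm M D h2 (Hm_N M D (minus_mem M D _ x)) hu1, add_zero]
    have hu4 : u ∈ O0 M D := ord_zero_of_test M D fun x hx => by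
      rw [BB_swap, hu3 x ⟨Prim_le_L1 M D hx.1, hx.2⟩, neg_zero]
    refine Submodule.add_mem_sup ⟨Submodule.mem_sup_right ⟨hu2, (mem_Ann M D).2 fun x hx => ?_⟩,
      U0_of M D hu hu4⟩ hn
    obtain ⟨x', hx1, hx2⟩ := wa0 M D (fun p => M.ord p x) 0
    have h1 : x - x' ∈ O0 M D := (mem_O0 M D).2 fun p hp => by
      rw [map_sub, (hx2 p hp).1, sub_self]
    have h3 := hu3 (x - x') ⟨(L1 M D).sub_mem hx.1 (Prim_le_L1 M D hx1), h1⟩
    rw [BB_O0 M D h1 hu4, map_sub, LinearMap.sub_apply, PhiL_swap M x' u, PhiL_prim M u hx1,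
      neg_zero, sub_zero, neg_eq_zero] at h3
    exact h3

theorem le_X (h2 : (2 : k) ≠ 0) : (LL M D ⊓ M.Unr ∅) ⊔ NN M D ≤
    (((M.Unr D.S ⊓ Hp M D) ⊔ NN M D) ⊓ pl D.ι (L1 M D ⊓ O0 M D) (NN M D)) ⊔ Xm M D := by
  have hNL : NN M D ≤ L1 M D ⊓ O0 M D :=
    inf_le_left.trans (inf_le_inf_right _ (Prim_le_L1 M D))
  refine sup_le (fun x hx => ?_)
    (le_sup_of_le_left (le_inf le_sup_right (le_pl hNL (ι_NN M D))))
  obtain ⟨a, ha, b, hb, rfl⟩ := Submodule.mem_sup.1 hx.1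
  have ha0 : a ∈ M.Unr ∅ := by
    have h1 := (M.Unr ∅).smul_mem (2 : k)⁻¹ ((M.Unr ∅).add_mem hx.2 (ι_U0 M D _ hx.2))
    have e : a + b + D.ι (a + b) = (2 : k) • a := by
      rw [map_add, (mem_Hp M D).1 ha.2, (mem_Hm M D).1 hb.1, two_smul]; abel
    rwa [e, smul_smul, inv_mul_cancel₀ h2, one_smul] at h1
  have hb0 : b ∈ M.Unr ∅ := by
    have := (M.Unr ∅).sub_mem hx.2 ha0
    rwa [add_sub_cancel_left] at this
  refine Submodule.add_mem_sup ⟨Submodule.mem_sup_left ⟨U0_le_U M D ha0, ha.2⟩,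
    mem_pl.2 ⟨⟨ha.1, U0_le_O0 M D ha0⟩, Hp_N M D ha.2⟩⟩
    ((mem_Xm M D).2 ⟨(mem_Vm M D).2 (Hm_N M D hb.1), fun x hx => ?_⟩)
  obtain ⟨x1, h1, x2, h3, rfl⟩ := Submodule.mem_sup.1 hx
  obtain ⟨u, hu, n, hn, rfl⟩ := Submodule.mem_sup.1 h1
  obtain ⟨h4, h5⟩ := mem_pl.1 h3
  simp only [map_add, LinearMap.add_apply]
  rw [BB_U M D hu.1 (U0_le_U M D hb0), BB_N' M D hn, half_split h2 D.ι x2, map_add,
    LinearMap.add_apply, BB_N' M D (half_N M D h2 h5)]
  have h6 : (2 : k)⁻¹ • (x2 + D.ι x2) ∈ L1 M D ⊓ O0 M D :=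
    (L1 M D ⊓ O0 M D).smul_mem _ ((L1 M D ⊓ O0 M D).add_mem h4
      ⟨ι_L1 M D x2 h4.1, ι_O0 M D x2 h4.2⟩)
  rw [BB_O0 M D h6.2 (U0_le_O0 M D hb0), (mem_Ann M D).1 hb.2 _ ⟨h6.1, plus_mem M D _ x2⟩]
  ring

theorem orth_X0 (hG : (Fintype.card G : k) ≠ 0) (h2 : (2 : k) ≠ 0) :
    OrthQ M.ρ (LL M D ⊓ M.Unr ∅) ⊥ := by
  have h1 := orth_X M D hG h2
  rw [le_antisymm (X_le M D h2) (le_X M D h2)] at h1
  have h3 := orth_of_sup M.ρ h1
  have : (LL M D ⊓ M.Unr ∅) ⊓ NN M D = ⊥ :=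
    le_bot_iff.1 fun x hx => U_N M D (U0_le_U M D hx.1.2) hx.2
  rwa [this] at h3

end

end DualAux

/-- global duality by a dimension count, and the initial Selmer group -/
theorem dual {k G H P : Type} [Field k] [Group G] [Fintype G] [AddCommGroup H] [Module k H]
    [MulAction G P] (hG : (Fintype.card G : k) ≠ 0) (h2 : (2 : k) ≠ 0) (M : Mach k G H P)
    (D : M.Dual) : ∃ L : Submodule k H, (∀ x, (∀ g, M.ρ g x ∈ D.L0) → x ∈ L) ∧ M.AxL L := by
  have hf : FinQ (DualAux.LL M D ⊓ M.Unr ∅) ⊥ :=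
    DualAux.finq_mono D.U_fin (inf_le_right.trans (DualAux.U0_le_U M D)) le_rfl
  exact ⟨DualAux.LL M D, fun x hx => DualAux.L1_le_LL M D h2 ((DualAux.mem_L1 M D).2 hx),
    (DualAux.Prim_le_L1 M D).trans (DualAux.L1_le_LL M D h2), DualAux.stab_LL M D,
    DualAux.LL_iso M D h2, hf,
    orth_new M.ρ hG (DualAux.stab_inf M.ρ (DualAux.stab_LL M D) (DualAux.stab_U0 M)) hf
      (DualAux.orth_X0 M D hG h2)⟩

end Pool.Agent.MP_14ad9d_nt.Full

end
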