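import Pool.Agent.Mg.F14ad9d.G15facc
import Pool.Agent.Mg.F14ad9d.G10c727
import Pool.Agent.MP_14ad9d_nt.Full.Inst

section

set_option autoImplicit false

namespace Pool.Agent.MP_14ad9d_nt.Full

namespace KillAux

theorem indep {k V : Type} [Field k] [Fintype k] [AddCommGroup V] [Module k V] (t : k → V)
    (h : ∀ c : k → k, ∑ μ, c μ • t μ = 0 → ∑ μ, (c μ * μ) • t μ = 0) (ht : ∀ μ, t μ ≠ 0) :
    LinearIndependent k t := by
  classical
  rw [Fintype.linearIndependent_iff]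
  intro c hc μ0
  have key : ∀ T : Finset k, ∑ μ, (c μ * ∏ ν ∈ T, (μ - ν)) • t μ = 0 := by
    intro T
    induction T using Finset.induction_on with
    | empty => simpa using hc
    | insert ν T hν ih =>
      have h1 := h _ ih
      have h2 : ∑ μ, (c μ * ∏ ν' ∈ insert ν T, (μ - ν')) • t μ =
          ∑ μ, (c μ * (∏ ν' ∈ T, (μ - ν')) * μ) • t μ -
            ν • ∑ μ, (c μ * ∏ ν' ∈ T, (μ - ν')) • t μ := by
        rw [Finset.smul_sum, ← Finset.sum_sub_distrib]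
        refine Finset.sum_congr rfl fun μ _ => ?_
        rw [Finset.prod_insert hν, smul_smul, ← sub_smul]
        congr 1
        ring
      rw [h2, h1, ih, smul_zero, sub_zero]
  have h3 := key (Finset.univ.erase μ0)
  rw [Finset.sum_eq_single μ0 (fun μ _ hμ => by
    rw [Finset.prod_eq_zero (i := μ) (Finset.mem_erase.2 ⟨hμ, Finset.mem_univ _⟩) (sub_self μ),
      mul_zero, zero_smul]) (fun h => absurd (Finset.mem_univ _) h)] at h3
  rcases smul_eq_zero.1 h3 with h4 | h4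
  · refine (mul_eq_zero.1 h4).resolve_right (Finset.prod_ne_zero_iff.2 fun ν hν => ?_)
    exact sub_ne_zero.2 (Finset.mem_erase.1 hν).1.symm
  · exact absurd h4 (ht μ0)

variable {k G H P : Type} [Field k] [Group G] [AddCommGroup H] [Module k H] [MulAction G P]
  (M : Mach k G H P)

theorem tame_anti (p : P) (x y : H) : M.tame p x y = -M.tame p y x := by
  have h := M.tame_self p (x + y)
  simp only [map_add, LinearMap.add_apply, M.tame_self] at h
  linear_combination h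

theorem tame_formula {p : P} {w : H} (hw : M.ord p w = 1) (x y : H) :
    M.tame p x y = M.ord p y * M.tame p x w - M.ord p x * M.tame p y w := by
  have h := M.tame_unr p (x - M.ord p x • w) (y - M.ord p y • w) (by simp [hw]) (by simp [hw])
  simp only [map_sub, map_smul, LinearMap.sub_apply, LinearMap.smul_apply, smul_eq_mul,
    M.tame_self] at h
  rw [tame_anti M p w y] at h
  linear_combination h

theorem tame_chi {p : P} {w x : H} (hw : M.ord p w = 1) (hx : M.ord p x = 0) :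
    M.tame p x w = M.chi p x := by
  have h := M.tame_unr p x (w - M.unif p) hx (by simp [hw, M.ord_unif])
  rw [map_sub] at h
  unfold Mach.chi
  linear_combination h

theorem ord_inv (g : G) (p : P) (x : H) : M.ord (g⁻¹ • p) x = M.ord p (M.ρ g x) := by
  rw [← M.ord_act g, smul_inv_smul]

theorem tame_inv (g : G) (p : P) (x : H) {w : H} (hw : M.ρ g w = w) :
    M.tame (g⁻¹ • p) x w = M.tame p (M.ρ g x) w := by
  rw [← M.tame_act g, smul_inv_smul, hw]

variable [Fintype G]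

/-- classes in `L` of norm zero, unramified outside `T`, with a line condition on `S` -/
def Sel (L : Submodule k H) (S T : Finset P) (γ : P → H) : Submodule k H where
  carrier := {x | x ∈ L ∧ nrm M.ρ x = 0 ∧ (∀ q, q ∉ T → M.ord q x = 0) ∧
    ∀ q ∈ S, M.tame q x (γ q) = 0}
  add_mem' := fun {a b} ha hb => ⟨L.add_mem ha.1 hb.1, by rw [map_add, ha.2.1, hb.2.1, add_zero],
    fun q hq => by rw [map_add, ha.2.2.1 q hq, hb.2.2.1 q hq, add_zero],
    fun q hq => by rw [map_add, LinearMap.add_apply, ha.2.2.2 q hq, hb.2.2.2 q hq, add_zero]⟩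
  zero_mem' := ⟨L.zero_mem, map_zero _, fun q _ => map_zero _, fun q _ => by simp⟩
  smul_mem' := fun c {a} ha => ⟨L.smul_mem c ha.1, by rw [map_smul, ha.2.1, smul_zero],
    fun q hq => by rw [map_smul, ha.2.2.1 q hq, smul_zero],
    fun q hq => by rw [map_smul, LinearMap.smul_apply, ha.2.2.2 q hq, smul_zero]⟩

theorem mem_Sel {L : Submodule k H} {S T : Finset P} {γ : P → H} {x : H} :
    x ∈ Sel M L S T γ ↔ x ∈ L ∧ nrm M.ρ x = 0 ∧ (∀ q, q ∉ T → M.ord q x = 0) ∧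
      ∀ q ∈ S, M.tame q x (γ q) = 0 := Iff.rfl

omit [Fintype G] in
/-- a Selmer structure -/
structure Str (S : Finset P) (γ : P → H) (ϖ : H) : Prop where
  stab : ∀ g : G, ∀ p ∈ S, g • p ∈ S
  good : ∀ p ∈ S, M.Good p
  gam : ∀ p ∈ S, M.ord p (γ p) = 1 ∧ ∀ g : G, M.ρ g (γ p) = γ p ∧ γ (g • p) = γ p
  ul : ϖ ∈ M.UL
  inv : ∀ g, M.ρ g ϖ = ϖ
  o1 : ∀ q ∈ S, M.ord q ϖ = 1
  o0 : ∀ q, q ∉ S → M.ord q ϖ = 0

theorem nrm_act (g : G) (x : H) : nrm M.ρ (M.ρ g x) = nrm M.ρ x := by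
  have e : ∀ x, nrm M.ρ x = ∑ g, M.ρ g x := fun x => by simp [nrm, LinearMap.sum_apply]
  rw [e, e]
  simp only [OrthAAux.act_mul]
  exact Fintype.sum_equiv (Equiv.mulRight g) _ (fun h => M.ρ h x) fun h => rfl

theorem Sel_stab {L : Submodule k H} (hL : Stab M.ρ L) {S : Finset P} {γ : P → H} {ϖ : H}
    (h : Str M S γ ϖ) : Stab M.ρ (Sel M L S S γ) := by
  intro g x hx
  refine ⟨hL g x hx.1, by rw [nrm_act, hx.2.1], fun q hq => ?_, fun q hq => ?_⟩
  · rw [← ord_inv]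
    refine hx.2.2.1 _ fun h1 => hq ?_
    simpa using h.stab g _ h1
  · rw [← tame_inv M g q x ((h.gam q hq).2 g).1, ← ((h.gam q hq).2 g⁻¹).2]
    exact hx.2.2.2 _ (h.stab _ _ hq)

theorem step [Fintype k] (hcard : Fintype.card G < Fintype.card k)
    (hG : (Fintype.card G : k) ≠ 0) (h2 : (2 : k) ≠ 0) {L : Submodule k H}
    (hL : M.AxL L) (hK : M.AxK) {S : Finset P} {γ : P → H} {ϖ : H} (h : Str M S γ ϖ)
    (hf : FinQ (Sel M L S S γ) ⊥) (ho : OrthQ M.ρ (Sel M L S S γ) ⊥) (hne : Sel M L S S γ ≠ ⊥) :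
    ∃ (S' : Finset P) (γ' : P → H) (ϖ' : H), Str M S' γ' ϖ' ∧
      Sel M L S' S' γ' < Sel M L S S γ ∧ OrthQ M.ρ (Sel M L S' S' γ') ⊥ := by
  classical
  have hX := Sel_stab M hL.2.1 h
  obtain ⟨f, ⟨x0, hx0, hf0⟩, f2, f3⟩ := kill_choice M.ρ hG h2 hX hf ho hne
  obtain ⟨p, hpS, hp, hpf, w, hwU, hwi, hwo⟩ := hK _ hX hf (fun x hx => hx.2.1) f S
  set O : Finset P := Finset.univ.image fun g : G => g⁻¹ • p with hO
  have mO : ∀ q, q ∈ O ↔ ∃ g : G, g⁻¹ • p = q := fun q => by simp [hO]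
  have mO' : ∀ q, q ∈ O ↔ q ∈ MulAction.orbit G p := fun q => by
    rw [mO, MulAction.mem_orbit_iff]
    exact ⟨fun ⟨g, hg⟩ => ⟨g⁻¹, hg⟩, fun ⟨g, hg⟩ => ⟨g⁻¹, by rw [inv_inv, hg]⟩⟩
  have w1 : ∀ q ∈ O, M.ord q w = 1 := fun q hq => by rw [hwo, if_pos ((mO' q).1 hq)]
  have w0 : ∀ q, q ∉ O → M.ord q w = 0 := fun q hq => by
    rw [hwo, if_neg fun h1 => hq ((mO' q).2 h1)]
  have pO : ∀ g : G, g⁻¹ • p ∈ O := fun g => (mO _).2 ⟨g, rfl⟩
  have wp : M.ord p w = 1 := by simpa using w1 _ (pO 1)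
  have dis : ∀ q ∈ O, q ∉ S := fun q hq hqS => by
    obtain ⟨g, rfl⟩ := (mO q).1 hq
    exact hpS (by simpa using h.stab g _ hqS)
  have Oact : ∀ g : G, ∀ q ∈ O, g • q ∈ O := fun g q hq => by
    obtain ⟨g', rfl⟩ := (mO q).1 hq
    exact (mO _).2 ⟨g' * g⁻¹, by rw [mul_inv_rev, inv_inv, mul_smul]⟩
  have inj : ∀ a ∈ (Finset.univ : Finset G), ∀ b ∈ (Finset.univ : Finset G),
      a⁻¹ • p = b⁻¹ • p → a = b := fun a _ b _ hab => by
    have h1 : (b * a⁻¹) • p = p := by rw [mul_smul, hab, smul_inv_smul]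
    exact (mul_inv_eq_one.1 (hp.1 _ h1)).symm
  have uX : ∀ y ∈ Sel M L S S γ, ∀ g : G, M.tame (g⁻¹ • p) y w = f (M.ρ g y) := fun y hy g => by
    have h1 := hpf _ (hX g y hy)
    rw [tame_inv M g p y (hwi g), tame_chi M wp h1.1, h1.2]
  have XR : ∀ x ∈ Sel M L S (S ∪ O) γ, (∀ g : G, M.ord (g⁻¹ • p) x = 0) → x ∈ Sel M L S S γ :=
    fun x hx ht => ⟨hx.1, hx.2.1, fun q hq => by
      by_cases hqO : q ∈ O
      · obtain ⟨g, rfl⟩ := (mO q).1 hqO
        exact ht g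
      · exact hx.2.2.1 q fun h1 => (Finset.mem_union.1 h1).elim hq hqO, hx.2.2.2⟩
  have perp : ∀ x ∈ Sel M L S (S ∪ O) γ, ∀ y ∈ Sel M L S S γ,
      ∑ g : G, M.ord (g⁻¹ • p) x * f (M.ρ g y) = 0 := by
    intro x hx y hy
    have h1 : ∑ᶠ q, M.tame q x y = 0 := hL.2.2.1 x hx.1 y hy.1
    rw [finsum_eq_sum_of_support_subset (s := O) _ ?_, hO, Finset.sum_image inj] at h1
    · rw [← neg_eq_zero, ← Finset.sum_neg_distrib, ← h1]
      refine Finset.sum_congr rfl fun g _ => ?_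
      rw [tame_formula M (w1 _ (pO g)) x y, hy.2.2.1 _ (dis _ (pO g)), uX y hy g]
      ring
    · intro q hq
      by_contra hqO
      refine hq ?_
      by_cases hqS : q ∈ S
      · show M.tame q x y = 0
        rw [tame_formula M (h.gam q hqS).1 x y, hx.2.2.2 q hqS, hy.2.2.2 q hqS]
        ring
      · exact M.tame_unr q x y
          (hx.2.2.1 q fun h1 => (Finset.mem_union.1 h1).elim hqS hqO) (hy.2.2.1 q hqS)
  have good : ∃ μ : k, ∀ x ∈ Sel M L S (S ∪ O) γ,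
      (∀ g : G, M.tame (g⁻¹ • p) x w = μ * M.ord (g⁻¹ • p) x) →
        ∀ g : G, M.ord (g⁻¹ • p) x = 0 := by
    by_contra hn
    push Not at hn
    choose x hxR hxu g0 hg0 using hn
    have li : LinearIndependent k fun (μ : k) (g : G) => M.ord (g⁻¹ • p) (x μ) := by
      refine indep _ (fun c hc => ?_) fun μ h0 => hg0 μ (congrFun h0 (g0 μ))
      have hzR : ∑ μ, c μ • x μ ∈ Sel M L S (S ∪ O) γ :=
        Submodule.sum_mem _ fun μ _ => Submodule.smul_mem _ _ (hxR μ)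
      have hz : ∑ μ, c μ • x μ ∈ Sel M L S S γ := XR _ hzR fun g => by
        have := congrFun hc g
        simpa [map_sum, Finset.sum_apply] using this
      have e : ∀ g : G, f (M.ρ g (∑ μ, c μ • x μ)) = ∑ μ, c μ * μ * M.ord (g⁻¹ • p) (x μ) := by
        intro g
        rw [← uX _ hz g, map_sum, LinearMap.sum_apply]
        refine Finset.sum_congr rfl fun μ _ => ?_
        rw [map_smul, LinearMap.smul_apply, hxu μ g, smul_eq_mul, mul_assoc]
      have h3 := f2 _ hz fun y hy => by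
        simp only [e, Finset.sum_mul]
        rw [Finset.sum_comm]
        refine Finset.sum_eq_zero fun μ _ => ?_
        simp only [mul_assoc]
        rw [← Finset.mul_sum, ← Finset.mul_sum, perp _ (hxR μ) y hy, mul_zero, mul_zero]
      funext g
      have h4 := h3 g
      rw [e] at h4
      simpa [Finset.sum_apply] using h4
    have h5 := li.fintype_card_le_finrank
    rw [Module.finrank_fintype_fun_eq_card] at h5
    omega
  obtain ⟨μ, hμ⟩ := good
  obtain ⟨u, hui, hu0, huμ⟩ := hp.2 μ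
  have u0 : ∀ g : G, M.ord (g⁻¹ • p) u = 0 := fun g => by rw [ord_inv, hui, hu0]
  have uμ : ∀ g : G, M.tame (g⁻¹ • p) u w = μ := fun g => by
    rw [tame_inv M g p u (hwi g), hui, tame_chi M wp hu0, huμ]
  have cond : ∀ (x : H) (g : G), M.tame (g⁻¹ • p) x (w + u) =
      M.tame (g⁻¹ • p) x w - μ * M.ord (g⁻¹ • p) x := fun x g => by
    rw [map_add, tame_formula M (w1 _ (pO g)) x u, u0, uμ]
    ring
  let γ' : P → H := fun q => if q ∈ O then w + u else γ q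
  have γO : ∀ q ∈ O, γ' q = w + u := fun q hq => if_pos hq
  have γS : ∀ q ∈ S, γ' q = γ q := fun q hq => if_neg fun h1 => dis q h1 hq
  have eq : Sel M L (S ∪ O) (S ∪ O) γ' =
      Sel M L S S γ ⊓ ⨅ g, LinearMap.ker (f ∘ₗ M.ρ g) := by
    ext x
    rw [Submodule.mem_inf, Submodule.mem_iInf]
    constructor
    · intro hx
      have hxR : x ∈ Sel M L S (S ∪ O) γ := ⟨hx.1, hx.2.1, hx.2.2.1, fun q hq => by
        rw [← γS q hq]; exact hx.2.2.2 q (Finset.mem_union_left _ hq)⟩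
      have hc : ∀ g : G, M.tame (g⁻¹ • p) x w = μ * M.ord (g⁻¹ • p) x := fun g => by
        have h1 := hx.2.2.2 _ (Finset.mem_union_right _ (pO g))
        rw [γO _ (pO g), cond] at h1
        exact sub_eq_zero.1 h1
      have ht := hμ x hxR hc
      have hxX := XR x hxR ht
      refine ⟨hxX, fun g => ?_⟩
      show f (M.ρ g x) = 0
      rw [← uX x hxX g, hc, ht, mul_zero]
    · rintro ⟨hx, hk⟩
      refine ⟨hx.1, hx.2.1, fun q hq => hx.2.2.1 q fun h1 => hq (Finset.mem_union_left _ h1),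
        fun q hq => ?_⟩
      rcases Finset.mem_union.1 hq with hq | hq
      · rw [γS q hq]; exact hx.2.2.2 q hq
      · obtain ⟨g, rfl⟩ := (mO q).1 hq
        have h1 : f (M.ρ g x) = 0 := hk g
        rw [γO _ hq, cond, uX x hx g, h1, hx.2.2.1 _ (dis _ hq), mul_zero, sub_zero]
  refine ⟨S ∪ O, γ', ϖ + w, ⟨fun g q hq => ?_, fun q hq => ?_, fun q hq => ?_,
    M.UL.add_mem h.ul hwU, fun g => by rw [map_add, h.inv, hwi], fun q hq => ?_,
    fun q hq => ?_⟩, ?_, eq ▸ f3⟩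
  · exact (Finset.mem_union.1 hq).elim (fun h1 => Finset.mem_union_left _ (h.stab g q h1))
      fun h1 => Finset.mem_union_right _ (Oact g q h1)
  · rcases Finset.mem_union.1 hq with hq | hq
    · exact h.good q hq
    · obtain ⟨g, rfl⟩ := (mO q).1 hq
      refine ⟨fun a ha => ?_, fun ν => ?_⟩
      · have h1 : (g * a * g⁻¹) • p = p := by rw [mul_smul, mul_smul, ha, smul_inv_smul]
        have h3 := hp.1 _ h1
        rw [mul_inv_eq_one] at h3
        exact mul_eq_left.1 h3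
      · obtain ⟨v, hvi, hv0, hvν⟩ := hp.2 ν
        have v0 : M.ord (g⁻¹ • p) v = 0 := by rw [ord_inv, hvi, hv0]
        refine ⟨v, hvi, v0, ?_⟩
        rw [← tame_chi M (w1 _ hq) v0, tame_inv M g p v (hwi g), hvi, tame_chi M wp hv0, hvν]
  · rcases Finset.mem_union.1 hq with hq | hq
    · rw [γS q hq]
      exact ⟨(h.gam q hq).1, fun g => ⟨((h.gam q hq).2 g).1, by
        rw [γS _ (h.stab g q hq), ((h.gam q hq).2 g).2]⟩⟩
    · rw [γO q hq]
      refine ⟨?_, fun g => ⟨by rw [map_add, hwi, hui], γO _ (Oact g q hq)⟩⟩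
      obtain ⟨g, rfl⟩ := (mO q).1 hq
      rw [map_add, w1 _ hq, u0, add_zero]
  · rcases Finset.mem_union.1 hq with hq | hq
    · rw [map_add, h.o1 q hq, w0 q fun h1 => dis q h1 hq, add_zero]
    · rw [map_add, h.o0 q (dis q hq), w1 q hq, zero_add]
  · rw [map_add, h.o0 q fun h1 => hq (Finset.mem_union_left _ h1),
      w0 q fun h1 => hq (Finset.mem_union_right _ h1), add_zero]
  · rw [eq]
    refine lt_of_le_of_ne inf_le_left fun e => hf0 ?_
    have h1 : x0 ∈ Sel M L S S γ ⊓ ⨅ g, LinearMap.ker (f ∘ₗ M.ρ g) := e.symm ▸ hx0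
    have h3 := (Submodule.mem_iInf _).1 h1.2 1
    simpa using h3

theorem iter [Fintype k] (hcard : Fintype.card G < Fintype.card k)
    (hG : (Fintype.card G : k) ≠ 0) (h2 : (2 : k) ≠ 0) {L : Submodule k H}
    (hL : M.AxL L) (hK : M.AxK) (n : ℕ) : ∀ (S : Finset P) (γ : P → H) (ϖ : H), Str M S γ ϖ →
      FinQ (Sel M L S S γ) ⊥ → OrthQ M.ρ (Sel M L S S γ) ⊥ →
      Module.finrank k (Sel M L S S γ) = n →
      ∃ (S' : Finset P) (γ' : P → H) (ϖ' : H), Str M S' γ' ϖ' ∧ Sel M L S' S' γ' = ⊥ := by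
  induction n using Nat.strong_induction_on with
  | _ n ih =>
  intro S γ ϖ h hf ho hn
  by_cases hne : Sel M L S S γ = ⊥
  · exact ⟨S, γ, ϖ, h, hne⟩
  obtain ⟨S', γ', ϖ', h', hlt, ho'⟩ := step M hcard hG h2 hL hK h hf ho hne
  have : FiniteDimensional k (Sel M L S S γ) := by
    have := OrthAAux.fin hf LinearMap.id fun c hc => hc
    rwa [Submodule.map_id] at this
  exact ih _ (hn ▸ Submodule.finrank_lt_finrank_of_lt hlt) S' γ' ϖ' h'
    (hf.imp fun t ht => hlt.le.trans ht) ho' rfl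

end KillAux

open Classical in
/-- a Selmer structure with trivial new part -/
theorem kill {k G H P : Type} [Field k] [Fintype k] [Group G] [Fintype G] [AddCommGroup H]
    [Module k H] [MulAction G P] (hcard : Fintype.card G < Fintype.card k)
    (hG : (Fintype.card G : k) ≠ 0) (h2 : (2 : k) ≠ 0) (M : Mach k G H P) (L : Submodule k H)
    (hL : M.AxL L) (hK : M.AxK) :
    ∃ (S : Finset P) (γ : P → H) (ϖ : H), (∀ g : G, ∀ p ∈ S, g • p ∈ S) ∧ (∀ p ∈ S, M.Good p) ∧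
      (∀ p ∈ S, M.ord p (γ p) = 1 ∧ ∀ g : G, M.ρ g (γ p) = γ p ∧ γ (g • p) = γ p) ∧
      ϖ ∈ M.UL ∧ (∀ g, M.ρ g ϖ = ϖ) ∧ (∀ q, M.ord q ϖ = if q ∈ S then 1 else 0) ∧
      ∀ x ∈ L, nrm M.ρ x = 0 → (∀ q, q ∉ S → M.ord q x = 0) →
        (∀ q ∈ S, M.tame q x (γ q) = 0) → x = 0 := by
  have e : KillAux.Sel M L ∅ ∅ 0 = L ⊓ M.Unr ∅ ⊓ LinearMap.ker (nrm M.ρ) := by
    ext x
    rw [KillAux.mem_Sel]
    simp only [Mach.Unr, Submodule.mem_inf, Submodule.mem_iInf, LinearMap.mem_ker]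
    constructor
    · rintro ⟨a, b, c, -⟩
      exact ⟨⟨a, fun q _ => c q (Finset.notMem_empty q)⟩, b⟩
    · rintro ⟨⟨a, c⟩, b⟩
      exact ⟨a, b, fun q _ => c q (Set.notMem_empty q), fun q hq => absurd hq (Finset.notMem_empty q)⟩
  obtain ⟨S, γ, ϖ, h, hb⟩ := KillAux.iter M hcard hG h2 hL hK _ ∅ 0 0
    ⟨fun _ p hp => absurd hp (Finset.notMem_empty p), fun p hp => absurd hp (Finset.notMem_empty p),
      fun p hp => absurd hp (Finset.notMem_empty p), M.UL.zero_mem, fun g => map_zero _,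
      fun p hp => absurd hp (Finset.notMem_empty p), fun q _ => map_zero _⟩
    (e ▸ hL.2.2.2.1.imp fun t ht => inf_le_left.trans ht) (e ▸ hL.2.2.2.2) rfl
  refine ⟨S, γ, ϖ, h.stab, h.good, h.gam, h.ul, h.inv, fun q => ?_, fun x a b c d => ?_⟩
  · split_ifs with hq
    · exact h.o1 q hq
    · exact h.o0 q hq
  · exact (Submodule.eq_bot_iff _).1 hb x ⟨a, b, c, d⟩

end Pool.Agent.MP_14ad9d_nt.Full

end

section

set_option autoImplicit false

namespace Pool.Agent.MP_14ad9d_nt.Full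

namespace MachineAux

open Classical

variable {k G H P : Type} [Field k] [Group G] [Fintype G] [AddCommGroup H] [Module k H]
  [MulAction G P] {M : Mach k G H P}

omit [Fintype G] in
theorem chi_prime {S : Finset P} (hS : ∀ g : G, ∀ p ∈ S, g • p ∈ S) {a p₀ : P} {x : H}
    {A : P → k} {ε : k} (ha : a ∉ S) (hx : Ind M a x) (hA : ∀ g : G, ∀ p ∈ S, A (g • p) = A p)
    (hc : ∀ p ∈ S, M.chi p x = A p + if p = p₀ then ε else 0) (g : G) {q : P} (hq : q ∈ S) :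
    M.chi q (M.ρ g x) = A q + if q = g • p₀ then ε else 0 := by
  rw [chi_act' M g (hx.ne fun e => ha (e ▸ hS _ q hq)), hc _ (hS _ q hq), hA _ q hq]
  simp only [inv_smul_eq_iff]

omit [Fintype G] in
theorem chi_delta {S : Finset P} (hS : ∀ g : G, ∀ p ∈ S, g • p ∈ S) {a p₀ p p' : P}
    {x π π' : H} {A : P → k} {ε : k} (ha : a ∉ S) (hx : Ind M a x)
    (hA : ∀ g : G, ∀ p ∈ S, A (g • p) = A p)
    (hc : ∀ p ∈ S, M.chi p x = A p + if p = p₀ then ε else 0) (hp : p ∈ S) (hp' : p' ∈ S)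
    (h1 : Ind M p π) (h2 : π ∈ M.Prim) (h1' : Ind M p' π') (h2' : π' ∈ M.Prim) (g h : G) :
    M.chi (g • a) (M.ρ h (π - π')) = A p - A p' +
      ((if h • p = g • p₀ then ε else 0) - if h • p' = g • p₀ then ε else 0) := by
  rw [map_sub, chi_sub, ← recip_ind (hx.act g) (h1.act h) (M.Prim_stab h π h2),
    ← recip_ind (hx.act g) (h1'.act h) (M.Prim_stab h π' h2'),
    chi_prime hS ha hx hA hc g (hS h p hp), chi_prime hS ha hx hA hc g (hS h p' hp'),
    hA h p hp, hA h p' hp']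
  ring

theorem sum_two {S : Finset P} {γ : P → H} {a b : P} {x z : H}
    (hγ : ∀ p ∈ S, M.ord p (γ p) = 1) (ha : ∀ g : G, g • a = a → g = 1)
    (hb : ∀ g : G, g • b = b → g = 1) (hab : ∀ g g' : G, g • a ≠ g' • b)
    (haS : ∀ g : G, g • a ∉ S) (hbS : ∀ g : G, g • b ∉ S)
    (hx : ∀ q ∈ S, M.tame q x (γ q) = 0)
    (hx' : ∀ q, q ∉ S → (∀ g : G, g • a ≠ q) → (∀ g : G, g • b ≠ q) → M.ord q x = 0)
    (hz : ∀ q ∈ S, M.tame q z (γ q) = 0) (hz' : ∀ q, q ∉ S → M.ord q z = 0) (hP : z ∈ M.Prim) :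
    ∑ g : G, M.ord (g • a) x * M.chi (g • a) z +
      ∑ g : G, M.ord (g • b) x * M.chi (g • b) z = 0 := by
  have h := M.recip x z hP
  rw [finsum_eq_sum_of_support_subset
      (s := Finset.univ.image (fun g : G => g • a) ∪ Finset.univ.image (fun g : G => g • b)),
    Finset.sum_union, Finset.sum_image fun _ _ _ _ e => (smul_inj ha).1 e,
    Finset.sum_image fun _ _ _ _ e => (smul_inj hb).1 e] at h
  · simp only [tame_chi, hz' _ (haS _), hz' _ (hbS _), zero_mul, zero_sub,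
      Finset.sum_neg_distrib] at h
    linear_combination -h
  · rw [Finset.disjoint_left]
    simp only [Finset.mem_image, Finset.mem_univ, true_and, not_exists]
    rintro _ ⟨g, rfl⟩ g' e
    exact hab g g' e.symm
  · intro q hq
    by_contra hn
    simp only [Finset.coe_union, Finset.coe_image, Finset.coe_univ, Set.image_univ, Set.mem_union,
      Set.mem_range, not_or, not_exists] at hn
    apply hq
    by_cases hS : q ∈ S
    · show M.tame q x z = 0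
      rw [tame_eq M (hγ q hS), hx q hS, hz q hS, mul_zero, mul_zero, sub_zero]
    · exact M.tame_unr q x z (hx' q hS hn.1 hn.2) (hz' q hS)

theorem ord_orbit (hG : (Fintype.card G : k) ≠ 0) {S : Finset P}
    (hS : ∀ g : G, ∀ p ∈ S, g • p ∈ S) {a p₀ : P} {x y α : H} {A : P → k} {ε : k} (hε : ε ≠ 0)
    (ha : a ∉ S) (hy : Ind M a y) (hA : ∀ g : G, ∀ p ∈ S, A (g • p) = A p)
    (hc : ∀ p ∈ S, M.chi p y = A p + if p = p₀ then ε else 0) (hp : p₀ ∈ S)
    (hα : ∀ g, M.ρ g α = α) (hP : y - α ∈ M.Prim) (hx : nrm M.ρ x = 0)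
    (hx' : ∀ q, q ∉ S → M.ord q x = 0) (hχ : ∀ g : G, M.chi (g • a) x = 0) (g : G) :
    M.ord (g • p₀) x = 0 := by
  have key : ∀ g : G, ∑ q ∈ S, M.ord q x * A q + M.ord (g • p₀) x * ε = 0 := by
    intro g
    have h1 : M.Phi x (M.ρ g y) = 0 := by
      have e : M.ρ g y = M.ρ g (y - α) + α := by rw [map_sub, hα, sub_add_cancel]
      rw [e, Phi_add_right, Phi_inv M hG hx hα, add_zero]
      exact M.recip x _ (M.Prim_stab g _ hP)
    rw [Phi_eq, D_ind (hy.act g), hχ, zero_sub, neg_eq_zero,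
      finsum_eq_sum_of_support_subset (s := S) (fun q => M.ord q x * M.chi q (M.ρ g y))
        fun q hq => by_contra fun hn => left_ne_zero_of_mul hq (hx' q hn),
      Finset.sum_congr rfl fun q hq => by rw [chi_prime hS ha hy hA hc g hq]] at h1
    simpa only [mul_add, Finset.sum_add_distrib, mul_ite, mul_zero, Finset.sum_ite_eq',
      if_pos (hS g _ hp)] using h1
  have h2 : ∀ g' : G, M.ord (g' • p₀) x = M.ord (g • p₀) x := fun g' =>
    mul_right_cancel₀ hε (by linear_combination key g' - key g)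
  have h3 := sum_ord hx p₀
  simp only [h2, Finset.sum_const, Finset.card_univ, nsmul_eq_mul] at h3
  exact (mul_eq_zero.1 h3).resolve_left hG

theorem comb_mem {π : H} (hπ : π ∈ M.Prim) (t : G → k) : ∑ g, t g • M.ρ g π ∈ M.Prim :=
  sum_mem fun g _ => M.Prim.smul_mem _ (M.Prim_stab g π hπ)

theorem nrm_comb {t : G → k} (ht : ∑ g, t g = 0) (π : H) :
    nrm M.ρ (∑ g, t g • M.ρ g π) = 0 := by
  simp only [map_sum, map_smul, nrm_act, ← Finset.sum_smul, ht, zero_smul]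

theorem Ok.tame_comb {T : Finset P} {p : P} {π : H} (h : Ok M T p π)
    (hT : ∀ g : G, ∀ p ∈ T, g • p ∈ T) (t : G → k) {q : P} (hq : q ∈ T) (y : H) :
    M.tame q (∑ g, t g • M.ρ g π) y = 0 := by
  simp only [map_sum, map_smul, LinearMap.sum_apply, LinearMap.smul_apply, h.tame_zero hT _ hq,
    smul_zero, Finset.sum_const_zero]

end MachineAux

open MachineAux in
open Classical in
/-- the Selmer machine -/
theorem machine {k G H P : Type} [Field k] [Fintype k] [Group G] [Fintype G] [AddCommGroup H]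
    [Module k H] [MulAction G P] (hcard : Fintype.card G < Fintype.card k)
    (hG : (Fintype.card G : k) ≠ 0) (h2 : (2 : k) ≠ 0) (hG1 : 1 < Fintype.card G)
    (M : Mach k G H P) (L : Submodule k H) (hL : M.AxL L) (hK : M.AxK) (hR : M.AxR) :
    ∃ (S : Finset P) (γ : P → H) (ϖ : H) (p₁ p₃ : P), p₁ ∈ S ∧ p₃ ∈ S ∧
      (∀ g : G, ∀ p ∈ S, g • p ∈ S) ∧ (∀ p ∈ S, M.Good p) ∧
      (∀ p ∈ S, M.ord p (γ p) = 1 ∧ ∀ g : G, M.ρ g (γ p) = γ p ∧ γ (g • p) = γ p) ∧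
      ϖ ∈ M.UL ∧ (∀ g, M.ρ g ϖ = ϖ) ∧ (∀ q, M.ord q ϖ = if q ∈ S then 1 else 0) ∧
      ∀ (c α πa πb : H) (a b : P) (A B : P → k) (εa εb : k), εa ≠ 0 → εb ≠ 0 →
        (∀ g, M.ρ g α = α) → πa - α ∈ M.Prim → πb - α ∈ M.Prim →
        (∀ g : G, g • a = a → g = 1) → (∀ g : G, g • b = b → g = 1) → a ∉ S → b ∉ S →
        (∀ q, M.ord q πa = if q = a then 1 else 0) → (∀ q, M.ord q πb = if q = b then 1 else 0) →
        (∀ g : G, ∀ p ∈ S, A (g • p) = A p) → (∀ g : G, ∀ p ∈ S, B (g • p) = B p) →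
        (∀ p ∈ S, M.chi p πa = A p + if p = p₁ then εa else 0) →
        (∀ p ∈ S, M.chi p πb = B p + if p = p₃ then εb else 0) →
        (∀ p ∈ S, M.ord p c = 1 ∧ M.tame p c (γ p) = 0) →
        (∀ g : G, M.ord (g • a) c ≠ 0) → (∀ g : G, M.ord (g • b) c ≠ 0) →
        (∀ q, q ∉ S → q ∉ MulAction.orbit G a → q ∉ MulAction.orbit G b → M.ord q c = 0) →
        b ∉ MulAction.orbit G a ∧ ∀ x ∈ L, nrm M.ρ x = 0 →
          (∀ q, M.ord q c = 0 → M.ord q x = 0) → (∀ q, M.tame q x c = 0) → x = 0 := by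
  obtain ⟨S₀, γ₀, ϖ₀, k1, k2, k3, k4, k5, k6, k7⟩ := kill hcard hG h2 M L hL hK
  have b0 : Bas M S₀ γ₀ ϖ₀ := ⟨k1, k2, k3, k4, k5, k6⟩
  obtain ⟨S₁, γ₁, ϖ₁, p₁, p₂, π₁, π₂, b1, Q⟩ := b0.pair hcard hR
  obtain ⟨S, γ, ϖ, p₃, p₄, π₃, π₄, b2, R⟩ := b1.pair hcard hR
  have s01 : ∀ q ∈ S₀, q ∈ S₁ := fun q hq => (Q.mem q).2 (Or.inl hq)
  have s1 : ∀ q ∈ S₁, q ∈ S := fun q hq => (R.mem q).2 (Or.inl hq)
  have m1 : ∀ g : G, g • p₁ ∈ S₁ := fun g => (Q.mem _).2 (Or.inr (Or.inl ⟨g, rfl⟩))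
  have m2 : ∀ g : G, g • p₂ ∈ S₁ := fun g => (Q.mem _).2 (Or.inr (Or.inr ⟨g, rfl⟩))
  have m3 : ∀ g : G, g • p₃ ∈ S := fun g => (R.mem _).2 (Or.inr (Or.inl ⟨g, rfl⟩))
  have m4 : ∀ g : G, g • p₄ ∈ S := fun g => (R.mem _).2 (Or.inr (Or.inr ⟨g, rfl⟩))
  have n3 := notMem_act b1.stab R.ok.notMem
  have n4 := notMem_act b1.stab R.ok'.notMem
  have i1 : p₁ ∈ S := by simpa using s1 _ (m1 1)
  have i2 : p₂ ∈ S := by simpa using s1 _ (m2 1)
  have i3 : p₃ ∈ S := by simpa using m3 1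
  have i4 : p₄ ∈ S := by simpa using m4 1
  have d12 : ∀ g g' : G, g • p₂ ≠ g' • p₁ := fun g g' e =>
    Q.ne (g⁻¹ * g') (by rw [mul_smul, ← e, inv_smul_smul])
  have d34 : ∀ g g' : G, g • p₄ ≠ g' • p₃ := fun g g' e =>
    R.ne (g⁻¹ * g') (by rw [mul_smul, ← e, inv_smul_smul])
  have d13 : ∀ g g' : G, g • p₁ ≠ g' • p₃ := fun g g' e => n3 g' (e ▸ m1 g)
  have d23 : ∀ g g' : G, g • p₂ ≠ g' • p₃ := fun g g' e => n3 g' (e ▸ m2 g)
  have d41 : ∀ g g' : G, g • p₄ ≠ g' • p₁ := fun g g' e => n4 g (e ▸ m1 g')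
  have d42 : ∀ g g' : G, g • p₄ ≠ g' • p₂ := fun g g' e => n4 g (e ▸ m2 g')
  have cr : ∀ {p p' : P} {π π' : H}, Ind M p π → (∀ g : G, g • p ∈ S₁) → Ok M S₁ p' π' →
      ∀ g h : G, M.chi (h • p') (M.ρ g π) = 0 := fun {p p' π π'} h1 h2 h3 g h => by
    rw [recip_ind (h1.act g) (h3.ind.act h) (M.Prim_stab h _ h3.prim),
      h3.chi_zero b1.stab h (h2 g)]
  have t12 : ∀ q ∈ S, ∀ g, M.tame q (M.ρ g (π₁ - π₂)) (γ q) = 0 := by
    intro q hq g
    have aux : ∀ {p' : P} {π' : H}, Ok M S₁ p' π' → ∀ h : G,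
        M.tame (h • p') (M.ρ g (π₁ - π₂)) (γ (h • p')) = 0 := fun {p' π'} h3 h => by
      have h4 := notMem_act b1.stab h3.notMem h
      rw [tame_chi, map_sub, map_sub, chi_sub, cr Q.ok.ind m1 h3, cr Q.ok'.ind m2 h3,
        (Q.ok.ind.act g).ne (ne_of_mem_of_not_mem (m1 g) h4).symm,
        (Q.ok'.ind.act g).ne (ne_of_mem_of_not_mem (m2 g) h4).symm]
      ring
    rcases (R.mem q).1 hq with hq | ⟨h, rfl⟩ | ⟨h, rfl⟩
    · rw [R.eq q hq, Q.tame q hq]
    · exact aux R.ok h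
    · exact aux R.ok' h
  refine ⟨S, γ, ϖ, p₁, p₃, i1, i3, b2.stab, b2.good, b2.gam, b2.mem, b2.inv, b2.ord, ?_⟩
  intro c α πa πb a b A B εa εb hεa hεb hα hPa hPb fa fb ha hb oa ob hA hB ca cb hc hca hcb hc0
  have a12 : ∀ g h : G, M.chi (g • a) (M.ρ h (π₁ - π₂)) =
      A p₁ - A p₂ + if h = g then εa else 0 := fun g h => by
    rw [chi_delta b2.stab ha oa hA ca i1 i2 Q.ok.ind Q.ok.prim Q.ok'.ind Q.ok'.prim,
      if_neg (d12 h g), sub_zero]
    simp only [smul_inj Q.ok.good.1]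
  have b12 : ∀ g h : G, M.chi (g • b) (M.ρ h (π₁ - π₂)) = B p₁ - B p₂ := fun g h => by
    rw [chi_delta b2.stab hb ob hB cb i1 i2 Q.ok.ind Q.ok.prim Q.ok'.ind Q.ok'.prim,
      if_neg (d13 h g), if_neg (d23 h g), sub_zero, add_zero]
  have a34 : ∀ g h : G, M.chi (g • a) (M.ρ h (π₃ - π₄)) = A p₃ - A p₄ := fun g h => by
    rw [chi_delta b2.stab ha oa hA ca i3 i4 R.ok.ind R.ok.prim R.ok'.ind R.ok'.prim,
      if_neg (d13 g h).symm, if_neg (d41 h g), sub_zero, add_zero]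
  have b34 : ∀ g h : G, M.chi (g • b) (M.ρ h (π₃ - π₄)) =
      B p₃ - B p₄ + if h = g then εb else 0 := fun g h => by
    rw [chi_delta b2.stab hb ob hB cb i3 i4 R.ok.ind R.ok.prim R.ok'.ind R.ok'.prim,
      if_neg (d34 h g), sub_zero]
    simp only [smul_inj R.ok.good.1]
  have hab : ∀ g g' : G, g • a ≠ g' • b := by
    intro g g' e
    obtain ⟨g₀, hg₀⟩ := Fintype.exists_ne_of_one_lt_card hG1 g
    have e1 := a12 g g
    have e2 := a12 g g₀
    rw [e, b12] at e1 e2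
    rw [if_pos rfl] at e1
    rw [if_neg hg₀] at e2
    exact hεa (by linear_combination e2 - e1)
  refine ⟨fun ⟨g, e⟩ => hab g 1 (by rw [one_smul]; exact e), fun x hxL hx hxo hxt => ?_⟩
  have haS := notMem_act b2.stab ha
  have hbS := notMem_act b2.stab hb
  have xγ : ∀ q ∈ S, M.tame q x (γ q) = 0 := fun q hq => by
    rw [tame_eq M (hc q hq).1, hxt, tame_anti M q (γ q) c, (hc q hq).2]
    ring
  have xo : ∀ q, q ∉ S → (∀ g : G, g • a ≠ q) → (∀ g : G, g • b ≠ q) → M.ord q x = 0 :=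
    fun q h1 h2 h3 => hxo q (hc0 q h1 (fun ⟨g, e⟩ => h2 g e) fun ⟨g, e⟩ => h3 g e)
  have two : ∀ {p p' : P} {π π' : H}, Ind M p π → Ind M p' π' → π ∈ M.Prim → π' ∈ M.Prim →
      p ∈ S → p' ∈ S → (∀ q ∈ S, ∀ g, M.tame q (M.ρ g (π - π')) (γ q) = 0) → ∀ h : G,
      ∑ g : G, M.ord (g • a) x * M.chi (g • a) (M.ρ h (π - π')) +
        ∑ g : G, M.ord (g • b) x * M.chi (g • b) (M.ρ h (π - π')) = 0 :=
    fun {p p' π π'} h1 h2 h3 h4 h5 h6 h7 h =>
      sum_two (fun q hq => (b2.gam q hq).1) fa fb hab haS hbS xγ xo (fun q hq => h7 q hq h)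
        (fun q hq => by
          rw [map_sub, map_sub, (h1.act h).ne (ne_of_mem_of_not_mem (b2.stab h p h5) hq).symm,
            (h2.act h).ne (ne_of_mem_of_not_mem (b2.stab h p' h6) hq).symm, sub_zero])
        (M.Prim_stab h _ (sub_mem h3 h4))
  have xa : ∀ h : G, M.ord (h • a) x = 0 := fun h => by
    have := two Q.ok.ind Q.ok'.ind Q.ok.prim Q.ok'.prim i1 i2 t12 h
    simp only [a12, b12, mul_add, Finset.sum_add_distrib, ← Finset.sum_mul, sum_ord hx, mul_ite,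
      mul_zero, Finset.sum_ite_eq, Finset.mem_univ, if_true, zero_mul, zero_add, add_zero] at this
    exact (mul_eq_zero.1 this).resolve_right hεa
  have xb : ∀ h : G, M.ord (h • b) x = 0 := fun h => by
    have := two R.ok.ind R.ok'.ind R.ok.prim R.ok'.prim i3 i4 R.tame h
    simp only [a34, b34, mul_add, Finset.sum_add_distrib, ← Finset.sum_mul, sum_ord hx, mul_ite,
      mul_zero, Finset.sum_ite_eq, Finset.mem_univ, if_true, zero_mul, zero_add] at this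
    exact (mul_eq_zero.1 this).resolve_right hεb
  have xo' : ∀ q, q ∉ S → M.ord q x = 0 := fun q hq => by
    by_contra h0
    exact h0 (xo q hq (fun g e => h0 (e ▸ xa g)) fun g e => h0 (e ▸ xb g))
  have xχ : ∀ q, M.ord q x = 0 → M.ord q c ≠ 0 → M.chi q x = 0 := fun q h1 h2 => by
    have := hxt q
    rw [tame_chi, h1, zero_mul, sub_zero] at this
    exact (mul_eq_zero.1 this).resolve_left h2
  have x1 := ord_orbit hG b2.stab hεa ha oa hA ca i1 hα hPa hx xo' fun g => xχ _ (xa g) (hca g)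
  have x3 := ord_orbit hG b2.stab hεb hb ob hB cb i3 hα hPb hx xo' fun g => xχ _ (xb g) (hcb g)
  have hz : x - (∑ g : G, M.ord (g • p₂) x • M.ρ g π₂ + ∑ g : G, M.ord (g • p₄) x • M.ρ g π₄) =
      0 := by
    refine k7 _ (sub_mem hxL (hL.1 (add_mem (comb_mem Q.ok'.prim _) (comb_mem R.ok'.prim _))))
      ?_ (fun q hq => ?_) fun q hq => ?_
    · rw [map_sub, map_add, hx, nrm_comb (sum_ord hx _), nrm_comb (sum_ord hx _), add_zero,
        sub_zero]
    · rw [map_sub, map_add]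
      by_cases h2 : ∃ g : G, g • p₂ = q
      · obtain ⟨g, rfl⟩ := h2
        rw [ord_comb Q.ok'.ind Q.ok'.good.1, ord_comb_ne R.ok'.ind fun g' => d42 g' g, add_zero,
          sub_self]
      rw [ord_comb_ne Q.ok'.ind fun g e => h2 ⟨g, e⟩, zero_add]
      by_cases h4 : ∃ g : G, g • p₄ = q
      · obtain ⟨g, rfl⟩ := h4
        rw [ord_comb R.ok'.ind R.ok'.good.1, sub_self]
      rw [ord_comb_ne R.ok'.ind fun g e => h4 ⟨g, e⟩, sub_zero]
      by_cases hS : q ∈ S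
      · rcases (R.mem q).1 hS with h | ⟨g, rfl⟩ | h
        · rcases (Q.mem q).1 h with h | ⟨g, rfl⟩ | h
          exacts [absurd h hq, x1 g, absurd h h2]
        exacts [x3 g, absurd h h4]
      · exact xo' q hS
    · rw [map_sub, map_add, LinearMap.sub_apply, LinearMap.add_apply,
        Q.ok'.tame_comb b0.stab _ hq, R.ok'.tame_comb b1.stab _ (s01 q hq), add_zero, sub_zero,
        ← Q.eq q hq, ← R.eq q (s01 q hq), xγ q (s1 q (s01 q hq))]
  rw [sub_eq_zero] at hz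
  have z2 := Q.inj (fun g => M.ord (g • p₂) x) fun h => by
    have := xχ _ (x1 h) (by rw [(hc _ (s1 _ (m1 h))).1]; exact one_ne_zero)
    rw [hz, chi_add, chi_comb, chi_comb] at this
    simpa only [R.ok'.chi_zero b1.stab _ (m1 h), mul_zero, Finset.sum_const_zero, add_zero,
      ← hz] using this
  have z4 := R.inj (fun g => M.ord (g • p₄) x) fun h => by
    have := xχ _ (x3 h) (by rw [(hc _ (m3 h)).1]; exact one_ne_zero)
    rw [hz, chi_add, chi_comb, chi_comb] at this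
    simpa only [cr Q.ok'.ind m2 R.ok, mul_zero, Finset.sum_const_zero, zero_add, ← hz] using this
  rw [hz]
  simp only [congrFun z2, congrFun z4, Pi.zero_apply, zero_smul, Finset.sum_const_zero, add_zero]

end Pool.Agent.MP_14ad9d_nt.Full

end

section

/- The abstract half of the construction of the curve. -/

set_option autoImplicit false

namespace Pool.Agent.MP_14ad9d_nt.Full.SelMainAux

open Classical MachineAux

variable {k G H P : Type} [Field k] [Group G] [Fintype G] [AddCommGroup H] [Module k H]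
  [MulAction G P] (M : Mach k G H P)

omit [Fintype G] in
theorem chi_smul (p : P) (t : k) (x : H) : M.chi p (t • x) = t * M.chi p x := by
  simp only [Mach.chi, map_smul, LinearMap.smul_apply, smul_eq_mul]

theorem nrm_prim {x : H} (hx : x ∈ M.Prim) : nrm M.ρ x ∈ M.Prim := by
  rw [nrm_apply]
  exact Submodule.sum_mem _ fun g _ => M.Prim_stab g x hx

theorem nrm_inv {x : H} (hx : ∀ g, M.ρ g x = x) : nrm M.ρ x = (Fintype.card G : k) • x := by
  simp only [nrm_apply, hx, Finset.sum_const, Finset.card_univ, Nat.cast_smul_eq_nsmul]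

theorem ord_nrm_zero {S : Finset P} (hS : ∀ g : G, ∀ p ∈ S, g • p ∈ S) {x : H}
    (hx : ∀ p ∈ S, M.ord p x = 0) {p : P} (hp : p ∈ S) : M.ord p (nrm M.ρ x) = 0 := by
  rw [nrm_apply, map_sum]
  exact Finset.sum_eq_zero fun g _ => by rw [ord_act', hx _ (hS _ p hp)]

theorem chi_nrm {S : Finset P} (hS : ∀ g : G, ∀ p ∈ S, g • p ∈ S) {x : H}
    (hx : ∀ p ∈ S, M.ord p x = 0) {p : P} (hp : p ∈ S) :
    M.chi p (nrm M.ρ x) = ∑ g : G, M.chi (g⁻¹ • p) x := by
  have := chi_comb M p (fun _ => 1) x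
  simp only [one_smul, one_mul, ← nrm_apply] at this
  rw [this]
  exact Finset.sum_congr rfl fun g _ => chi_act' M g (hx _ (hS _ p hp))

theorem side {S : Finset P} (hS : ∀ g : G, ∀ p ∈ S, g • p ∈ S) {π θ ξ α : H} {τ : P → k}
    {p₁ : P} (hτ : ∀ g : G, ∀ p ∈ S, τ (g • p) = τ p) (hα : ∀ g, M.ρ g α = α)
    (hθ : θ - α ∈ M.Prim) (hξ : ξ ∈ M.Prim) (cθ : ∀ p ∈ S, M.chi p θ = τ p)
    (cξ : ∀ p ∈ S, M.ord p ξ = 0 ∧ M.chi p ξ = if p = p₁ then 1 else 0)
    (oπ : ∀ p ∈ S, M.ord p π = 0)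
    (h1 : π + nrm M.ρ ξ - (θ + (Fintype.card G : k) • ξ) ∈ M.Prim)
    (h2 : ∀ p ∈ S, M.chi p (π + nrm M.ρ ξ) = M.chi p (θ + (Fintype.card G : k) • ξ)) :
    π - α ∈ M.Prim ∧ nrm M.ρ π - (Fintype.card G : k) • α ∈ M.Prim ∧
      (∃ A : P → k, (∀ g : G, ∀ p ∈ S, A (g • p) = A p) ∧
        ∀ p ∈ S, M.chi p π = A p + if p = p₁ then (Fintype.card G : k) else 0) ∧
      ∀ p ∈ S, M.chi p (nrm M.ρ π) = Fintype.card G * τ p := by
  have a1 : π - α ∈ M.Prim := by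
    have := add_mem (add_mem (sub_mem h1 (nrm_prim M hξ)) hθ)
      (M.Prim.smul_mem (Fintype.card G : k) hξ)
    convert this using 1
    abel
  have a2 : ∀ g : G, ∀ p ∈ S, M.chi (g • p) (nrm M.ρ ξ) = M.chi p (nrm M.ρ ξ) := fun g p hp => by
    rw [← chi_act M g (ord_nrm_zero M hS (fun q hq => (cξ q hq).1) hp), act_nrm]
  have a3 : ∀ p ∈ S, M.chi p π =
      τ p - M.chi p (nrm M.ρ ξ) + Fintype.card G * M.chi p ξ := fun p hp => by
    have := h2 p hp
    rw [chi_add, chi_add, chi_smul, cθ p hp] at this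
    linear_combination this
  refine ⟨a1, ?_, ⟨fun p => τ p - M.chi p (nrm M.ρ ξ), fun g p hp => ?_, fun p hp => ?_⟩,
    fun p hp => ?_⟩
  · rw [← nrm_inv M hα, ← map_sub]
    exact nrm_prim M a1
  · simp only [hτ g p hp, a2 g p hp]
  · rw [a3 p hp, (cξ p hp).2, mul_ite, mul_one, mul_zero]
  · rw [chi_nrm M hS oπ hp, Finset.sum_congr rfl fun g _ => a3 _ (hS _ p hp)]
    simp only [hτ _ p hp, a2 _ p hp, Finset.sum_add_distrib, ← Finset.mul_sum]
    rw [← chi_nrm M hS (fun q hq => (cξ q hq).1) hp]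
    simp only [Finset.sum_const, Finset.card_univ, nsmul_eq_mul]
    ring

theorem core [Fintype k] (hcard : Fintype.card G < Fintype.card k)
    (hG : (Fintype.card G : k) ≠ 0) (h2 : (2 : k) ≠ 0) (hG1 : 1 < Fintype.card G)
    (L : Submodule k H) (hL : M.AxL L) (hK : M.AxK) (hR : M.AxR) {w : H}
    (hw : ∀ g, M.ρ g w = w) (hwU : w ∈ M.UL) {e : k} (he : 2 * e = -1) :
    ∃ (S : Finset P) (ϖ α : H) (τ : P → k) (p₁ p₃ : P), (∀ g, M.ρ g ϖ = ϖ) ∧ α ∈ M.UL ∧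
      ∀ (θ ξ₁ ξ₂ πa πb c : H) (a b : P), θ - α ∈ M.Prim → ξ₁ ∈ M.Prim → ξ₂ ∈ M.Prim →
        (∀ p ∈ S, M.chi p θ = τ p) →
        (∀ p ∈ S, M.ord p ξ₁ = 0 ∧ M.chi p ξ₁ = if p = p₁ then 1 else 0) →
        (∀ p ∈ S, M.ord p ξ₂ = 0 ∧ M.chi p ξ₂ = if p = p₃ then 1 else 0) →
        (πa + nrm M.ρ ξ₁ - (θ + (Fintype.card G : k) • ξ₁) ∈ M.Prim ∧
          ∀ p ∈ S, M.chi p (πa + nrm M.ρ ξ₁) = M.chi p (θ + (Fintype.card G : k) • ξ₁)) →
        (πb + nrm M.ρ ξ₂ - (θ + (Fintype.card G : k) • ξ₂) ∈ M.Prim ∧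
          ∀ p ∈ S, M.chi p (πb + nrm M.ρ ξ₂) = M.chi p (θ + (Fintype.card G : k) • ξ₂)) →
        M.Good a → M.Good b → a ∉ S → b ∉ S → Ind M a πa → Ind M b πb →
        c = e • (nrm M.ρ πa + nrm M.ρ πb) + ϖ →
        (∀ x ∈ L, nrm M.ρ x = 0 → (∀ q, M.ord q c = 0 → M.ord q x = 0) →
          (∀ q, M.tame q x c = 0) → x = 0) ∧ c - w ∈ M.Prim ∧
        ∀ m j : k, m • (nrm M.ρ πa - nrm M.ρ πb) + j • c = 0 → m = 0 ∧ j = 0 := by
  obtain ⟨S, γ, ϖ, p₁, p₃, i1, -, hS, -, hγ, hU, hϖ, oϖ, HM⟩ :=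
    machine hcard hG h2 hG1 M L hL hK hR
  have e0 : e ≠ 0 := by rintro rfl; simp at he
  refine ⟨S, ϖ, (Fintype.card G : k)⁻¹ • (ϖ - w),
    fun p => (Fintype.card G : k)⁻¹ * M.tame p ϖ (γ p), p₁, p₃, hϖ,
    M.UL.smul_mem _ (sub_mem hU hwU), ?_⟩
  intro θ ξ₁ ξ₂ πa πb c a b hθ x1 x2 cθ c1 c2 ha hb ga gb aS bS ia ib hc
  have hα : ∀ g, M.ρ g ((Fintype.card G : k)⁻¹ • (ϖ - w)) = (Fintype.card G : k)⁻¹ • (ϖ - w) :=
    fun g => by rw [map_smul, map_sub, hϖ, hw]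
  have hτ : ∀ g : G, ∀ p ∈ S, (Fintype.card G : k)⁻¹ * M.tame (g • p) ϖ (γ (g • p)) =
      (Fintype.card G : k)⁻¹ * M.tame p ϖ (γ p) := fun g p hp => by
    rw [← M.tame_act g p, hϖ, ((hγ p hp).2 g).1, ((hγ p hp).2 g).2]
  have out : ∀ {a : P}, a ∉ S → ∀ g : G, g • a ∉ S := fun ha g h =>
    ha (by simpa using hS g⁻¹ _ h)
  have oS : ∀ {a : P} {π}, a ∉ S → Ind M a π → ∀ p ∈ S, M.ord p π = 0 := fun ha h p hp => by
    rw [h p, if_neg]
    rintro rfl
    exact ha hp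
  obtain ⟨a1, a2, ⟨A, a3, a4⟩, a5⟩ := side M hS hτ hα hθ x1 cθ c1 (oS aS ia) ha.1 ha.2
  obtain ⟨b1, b2, ⟨B, b3, b4⟩, b5⟩ := side M hS hτ hα hθ x2 cθ c2 (oS bS ib) hb.1 hb.2
  have oc : ∀ q, M.ord q c = e * (M.ord q (nrm M.ρ πa) + M.ord q (nrm M.ρ πb)) +
      if q ∈ S then 1 else 0 := fun q => by
    rw [hc, map_add, map_smul, map_add, oϖ, smul_eq_mul]
  have oa := fun p hp => ord_nrm_zero M hS (oS aS ia) (p := p) hp
  have ob := fun p hp => ord_nrm_zero M hS (oS bS ib) (p := p) hp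
  have ocS : ∀ p ∈ S, M.ord p c = 1 := fun p hp => by
    rw [oc, oa p hp, ob p hp, if_pos hp]; ring
  have two : ∀ {b : P} {π}, M.Good b → Ind M b π → ∀ q, 1 + M.ord q (nrm M.ρ π) ≠ 0 := by
    intro b π gb ib q
    by_cases h : ∃ g : G, g • b = q
    · obtain ⟨g, rfl⟩ := h
      rw [ord_nrm ib gb.1, one_add_one_eq_two]
      exact h2
    · rw [ord_nrm_ne ib fun g e => h ⟨g, e⟩, add_zero]
      exact one_ne_zero
  obtain ⟨hab, HM⟩ := HM c _ πa πb a b A B _ _ hG hG hα a1 b1 ga.1 gb.1 aS bS ia ib a3 b3 a4 b4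
    (fun p hp => ⟨ocS p hp, by
      rw [hc, map_add, map_smul, map_add]
      simp only [LinearMap.add_apply, LinearMap.smul_apply, smul_eq_mul]
      rw [tame_chi M p (nrm M.ρ πa), tame_chi M p (nrm M.ρ πb), oa p hp, ob p hp, (hγ p hp).1,
        a5 p hp, b5 p hp, mul_inv_cancel_left₀ hG]
      linear_combination M.tame p ϖ (γ p) * he⟩)
    (fun g => by
      rw [oc, if_neg (out aS g), add_zero, ord_nrm ia ga.1]
      exact mul_ne_zero e0 (two gb ib _))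
    (fun g => by
      rw [oc, if_neg (out bS g), add_zero, ord_nrm ib gb.1, add_comm]
      exact mul_ne_zero e0 (two ga ia _))
    (fun q hq qa qb => by
      rw [oc, if_neg hq, ord_nrm_ne ia fun g e => qa ⟨g, e⟩,
        ord_nrm_ne ib fun g e => qb ⟨g, e⟩]
      ring)
  refine ⟨HM, ?_, fun m j h => ?_⟩
  · have := M.Prim.smul_mem e (add_mem a2 b2)
    rw [smul_inv_smul₀ hG] at this
    convert this using 1
    rw [hc]
    have e1 : (2 * e) • (ϖ - w) = -(ϖ - w) := by rw [he, neg_one_smul]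
    linear_combination (norm := module) e1
  · have h1 := congrArg (M.ord p₁) h
    have h3 := congrArg (M.ord a) h
    have o1 : M.ord a (nrm M.ρ πa) = 1 := by simpa using ord_nrm ia ga.1 1
    have o2 : M.ord a (nrm M.ρ πb) = 0 := ord_nrm_ne ib fun g e =>
      hab ⟨g⁻¹, by simp [← e]⟩
    simp only [map_add, map_smul, map_sub, smul_eq_mul, map_zero, oa p₁ i1, ob p₁ i1, ocS p₁ i1,
      o1, o2, sub_zero, mul_zero, zero_add, mul_one] at h1 h3
    rw [h1, zero_mul, add_zero] at h3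
    exact ⟨h3, h1⟩

end Pool.Agent.MP_14ad9d_nt.Full.SelMainAux

end

section

/- The arithmetic half of the construction of the curve. -/

set_option autoImplicit false

open NumberField IsDedekindDomain

namespace Pool.Agent.MP_14ad9d_nt.Full.SelMainAux

section General

variable {l : ℕ} [Fact l.Prime] {E : Type} [Field E] [NumberField E]

theorem cls_div {x y : E} (hx : x ≠ 0) (hy : y ≠ 0) : cls l (x / y) = cls l x - cls l y := by
  have := cls_mul (l := l) (div_ne_zero hx hy) hy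
  rw [div_mul_cancel₀ x hy] at this
  rw [this, add_sub_cancel_right]

theorem cls_zpow' {x : E} (hx : x ≠ 0) (n : ℤ) : cls l (x ^ n) = (n : ZMod l) • cls l x := by
  rw [cls_zpow hx, Int.cast_smul_eq_zsmul]

theorem cls_pow {x : E} (hx : x ≠ 0) (n : ℕ) : cls l (x ^ n) = (n : ZMod l) • cls l x := by
  rw [← zpow_natCast, cls_zpow' hx, Int.cast_natCast]

theorem cls_ell {x : E} (hx : x ≠ 0) : cls l (x ^ l) = 0 := by
  rw [cls_pow hx, ZMod.natCast_self, zero_smul]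

theorem cls_one : cls l (1 : E) = 0 := by
  simpa using cls_ell (l := l) (one_ne_zero (α := E))

omit [NumberField E] in
theorem not_mem_of_coprime {a b : 𝓞 E} (h : IsCoprime a b) (v : Pr E) (hb : b ∈ v.asIdeal) :
    a ∉ v.asIdeal := fun ha => by
  obtain ⟨x, y, e⟩ := h
  exact v.isPrime.ne_top ((Ideal.eq_top_iff_one _).2
    (e ▸ add_mem (v.asIdeal.mul_mem_left x ha) (v.asIdeal.mul_mem_left y hb)))

theorem coprime_of {a b : 𝓞 E} (b0 : b ≠ 0) (h : ∀ v : Pr E, b ∈ v.asIdeal → a ∉ v.asIdeal) :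
    IsCoprime a b := by
  rw [← Ideal.isCoprime_span_singleton_iff, Ideal.isCoprime_iff_sup_eq]
  by_contra hc
  obtain ⟨q, hq, hle⟩ := Ideal.exists_le_maximal _ hc
  have hb : b ∈ q := hle (Ideal.mem_sup_right (Ideal.mem_span_singleton_self b))
  exact h ⟨q, hq.isPrime, fun e => b0 (by simpa [e] using hb)⟩ hb
    (hle (Ideal.mem_sup_left (Ideal.mem_span_singleton_self a)))

theorem ord_of_coprime {a b : 𝓞 E} (h : IsCoprime a b) (v : Pr E) (hb : b ∈ v.asIdeal) :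
    (a : E) ≠ 0 ∧ ord v (a : E) = 0 := by
  have h1 := not_mem_of_coprime h v hb
  have h0 : a ≠ 0 := fun e => h1 (e ▸ zero_mem _)
  exact ⟨by simpa using h0, (ord_eq_zero_iff v h0).2 h1⟩

theorem val_le_of_dvd (v : Pr E) {a b : 𝓞 E} (h : a ∣ b) :
    v.valuation E (b : E) ≤ v.valuation E (a : E) := by
  obtain ⟨c, rfl⟩ := h
  rw [show ((a * c : 𝓞 E) : E) = (a : E) * (c : E) from map_mul _ _ _, map_mul]
  exact mul_le_of_le_one_right' (v.valuation_le_one c)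

theorem val_lt_of_mem (v : Pr E) {a : 𝓞 E} (h : a ∈ v.asIdeal) : v.valuation E (a : E) < 1 :=
  (v.valuation_lt_one_iff_mem a).2 h

/-- a representative which is a unit at the wild primes -/
theorem exists_unit_rep {x : E} (hx : x ≠ 0) (h : ∀ v : Pr E, ¬Tm l v → (l : ℤ) ∣ ord v x) :
    ∃ y : E, y ≠ 0 ∧ cls l y = cls l x ∧ ∀ v : Pr E, ¬Tm l v → ord v y = 0 := by
  obtain ⟨z, hz, H⟩ := R0Aux.exists_ord (finite_wild (l := l) (E := E)).toFinset
    fun v => -(ord v x / l)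
  refine ⟨x * z ^ l, mul_ne_zero hx (pow_ne_zero _ hz), ?_, fun v hv => ?_⟩
  · rw [cls_mul hx (pow_ne_zero _ hz), cls_ell hz, add_zero]
  · rw [ord_mul v hx (pow_ne_zero _ hz), ord_pow, H v ((Set.Finite.mem_toFinset _).2 hv), mul_neg,
      Int.mul_ediv_cancel' (h v hv), add_neg_cancel]

/-- an integer with prescribed units at all primes dividing `N` -/
theorem exists_approx {N : 𝓞 E} (hN : N ≠ 0) (a : Pr E → E) (h0 : ∀ v, a v ≠ 0)
    (h1 : ∀ v, ord v (a v) = 0) : ∃ θ : 𝓞 E, IsCoprime θ N ∧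
      ∀ v : Pr E, N ∈ v.asIdeal → v.valuation E (θ - a v) ≤ v.valuation E (N : E) := by
  have N0 : (N : E) ≠ 0 := by simpa using hN
  set T := (ord_finite (N : E)).toFinset
  have hT : ∀ v, v ∈ T ↔ N ∈ v.asIdeal := fun v => by
    rw [Set.Finite.mem_toFinset, Set.mem_setOf_eq, Ne, ord_eq_zero_iff v hN, not_not]
  obtain ⟨n, hn⟩ := (T.finite_toSet.image fun v => -ord v (N : E)).bddBelow
  obtain ⟨x, x0, hx, hx'⟩ := wa T a n
  have key : ∀ v : Pr E, N ∈ v.asIdeal → v.valuation E (x - a v) ≤ v.valuation E (N : E) := by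
    intro v hv
    rw [val_eq_exp v N0]
    exact (hx v ((hT v).2 hv)).trans (WithZero.exp_le_exp.2 (hn ⟨v, (hT v).2 hv, rfl⟩))
  have k2 : ∀ v : Pr E, N ∈ v.asIdeal → ord v x = 0 := fun v hv => by
    rw [← h1 v]
    refine (R0Aux.ord_of_sub ?_).2
    rw [Sym2Aux.val_of_ord v (h0 v) (h1 v)]
    exact (key v hv).trans_lt (val_lt_of_mem v hv)
  obtain ⟨θ, rfl⟩ := exists_int (x := x) fun v => by
    by_cases hv : v ∈ T
    · exact (k2 v ((hT v).1 hv)).ge
    · have := hx' v hv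
      rw [val_eq_exp v x0, ← WithZero.exp_zero, WithZero.exp_le_exp] at this
      omega
  exact ⟨θ, coprime_of hN fun v hv =>
    (ord_eq_zero_iff v (by simpa using x0)).1 (k2 v hv), key⟩

end General

variable {l : ℕ} [Fact l.Prime] {F K : Type} [Field F] [NumberField F] [Field K] [NumberField K]
  [Algebra F K] {S : Setup l F K} {M : Mach (ZMod l) (K ≃ₐ[F] K) (Hm l K) (TP l K)}

theorem prim_of (hl : 2 < l) (h : Spec S M) {x y : K} (hx : x ≠ 0) (hy : y ≠ 0)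
    (H : ∀ v : Pr K, ¬Tm l v → ord v y = 0 ∧
      v.valuation K (x - y) ≤ v.valuation K ((l : K) ^ 2)) : cls l x - cls l y ∈ M.Prim := by
  rw [← cls_div hx hy, h.2.2.2.1 _ (div_ne_zero hx hy)]
  refine ⟨1, one_ne_zero, fun v hv => ?_⟩
  rw [one_pow, div_one, div_sub_one hy, map_div₀, Sym2Aux.val_of_ord v hy (H v hv).1, div_one]
  refine (H v hv).2.trans ?_
  rw [map_pow, val_ell S.hz, ← pow_mul]
  exact pow_le_pow_right_of_le_one' (val_one_sub_lt S.hz hv).le (by omega)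

theorem chi_of (hl : 2 < l) (h : Spec S M) (p : TP l K) {x y : K} (hy : y ≠ 0)
    (h0 : ord p.1 y = 0) (H : p.1.valuation K (x - y) < 1) :
    M.chi p (cls l x) = M.chi p (cls l y) := by
  obtain ⟨x0, e⟩ := R0Aux.ord_of_sub (v := p.1) (x := x) (y := y)
    (by rwa [Sym2Aux.val_of_ord p.1 hy h0])
  rw [h.chi_eq hl p x0 (e.trans h0), h.chi_eq hl p hy h0]
  exact chi_congr S.hz p.2 hy h0 (by rwa [Valuation.map_sub_swap])

omit [NumberField K] in
theorem mem_of_wild {N : ℕ} (hN : l ^ 2 ∣ N) {v : Pr K} (hv : ¬Tm l v) :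
    (N : 𝓞 K) ∈ v.asIdeal := by
  obtain ⟨c, rfl⟩ := hN
  rw [Tm, not_not] at hv
  push_cast
  exact v.asIdeal.mul_mem_right _ (v.asIdeal.pow_mem_of_mem hv 2 (by norm_num))

theorem val_N {N : ℕ} (hN : l ^ 2 ∣ N) (v : Pr K) :
    v.valuation K ((N : 𝓞 K) : K) ≤ v.valuation K ((l : K) ^ 2) := by
  have := val_le_of_dvd v (a := (l : 𝓞 K) ^ 2) (b := N) (by exact_mod_cast Nat.cast_dvd_cast hN)
  simpa using this

/-- an integer with prescribed wild class and prescribed residue symbols -/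
theorem exists_theta (hl : 2 < l) (h : Spec S M) {N : ℕ} (N0 : N ≠ 0) (hN : l ^ 2 ∣ N) {x : K}
    (hx : x ≠ 0) (ox : ∀ v : Pr K, ¬Tm l v → ord v x = 0) (τ : TP l K → ZMod l) :
    ∃ θ : 𝓞 K, IsCoprime θ (N : 𝓞 K) ∧ cls l (θ : K) - cls l x ∈ M.Prim ∧
      ∀ p : TP l K, (N : 𝓞 K) ∈ p.1.asIdeal →
        M.ord p (cls l (θ : K)) = 0 ∧ M.chi p (cls l (θ : K)) = τ p := by
  have ex : ∀ v : Pr K, ∃ a : K, a ≠ 0 ∧ ord v a = 0 ∧ (¬Tm l v → a = x) ∧
      ∀ hv : Tm l v, chi l S.z v a = τ ⟨v, hv⟩ := by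
    intro v
    by_cases hv : Tm l v
    · obtain ⟨a, ha, e⟩ := chi_surj S.hz hv (τ ⟨v, hv⟩)
      have a0 : a ≠ 0 := fun e => ha (e ▸ zero_mem _)
      exact ⟨a, by simpa using a0, (ord_eq_zero_iff v a0).2 ha, fun h => absurd hv h, fun _ => e⟩
    · exact ⟨x, hx, ox v hv, fun _ => rfl, fun h => absurd h hv⟩
  choose a a0 a1 a2 a3 using ex
  obtain ⟨θ, c, H⟩ := exists_approx (N := (N : 𝓞 K)) (by simpa using N0) a a0 a1
  have θ0 := (ord_of_coprime c S.v₀ (mem_of_wild hN S.wild)).1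
  refine ⟨θ, c, prim_of hl h θ0 hx fun v hv => ⟨ox v hv, ?_⟩, fun p hp => ⟨?_, ?_⟩⟩
  · rw [← a2 v hv]
    exact (H v (mem_of_wild hN hv)).trans (val_N hN v)
  · rw [h.2.1, (ord_of_coprime c p.1 hp).2, Int.cast_zero]
  · rw [chi_of hl h p (a0 p.1) (a1 p.1) ((H p.1 hp).trans_lt (val_lt_of_mem p.1 hp)),
      h.chi_eq hl p (a0 p.1) (a1 p.1), a3 p.1 p.2]

theorem cls_norm [IsGalois F K] (h : Spec S M) {x : 𝓞 K} (hx : (x : K) ≠ 0) :
    algebraMap F K (RingOfIntegers.norm F x : F) ≠ 0 ∧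
      cls l (algebraMap F K (RingOfIntegers.norm F x : F)) = nrm M.ρ (cls l (x : K)) := by
  have e : algebraMap F K (RingOfIntegers.norm F x : F) = ∏ g : K ≃ₐ[F] K, g x :=
    Algebra.norm_eq_prod_automorphisms F (x : K)
  rw [e, h.nrm_eq hx]
  exact ⟨Finset.prod_ne_zero_iff.2 fun g _ => by simpa using hx, rfl⟩

/-- the consequences of the congruence given by the additive theorem -/
theorem of_congr [IsGalois F K] (hl : 2 < l) (h : Spec S M) {N : ℕ} (hN : l ^ 2 ∣ N)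
    {θ ξ ρ π : 𝓞 K} (cθ : IsCoprime θ (N : 𝓞 K)) (cξ : IsCoprime ξ (N : 𝓞 K))
    (cρ : IsCoprime ρ (N : 𝓞 K))
    (hd : (N : 𝓞 K) ∣ π * algebraMap (𝓞 F) (𝓞 K) (RingOfIntegers.norm F ξ) -
      θ * ξ ^ Module.finrank F K * ρ ^ l) :
    (π : K) ≠ 0 ∧ IsCoprime (RingOfIntegers.norm F π) (l : 𝓞 F) ∧
      cls l (π : K) + nrm M.ρ (cls l (ξ : K)) -
        (cls l (θ : K) + (Fintype.card (K ≃ₐ[F] K) : ZMod l) • cls l (ξ : K)) ∈ M.Prim ∧
      ∀ p : TP l K, (N : 𝓞 K) ∈ p.1.asIdeal →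
        M.chi p (cls l (π : K) + nrm M.ρ (cls l (ξ : K))) =
          M.chi p (cls l (θ : K) + (Fintype.card (K ≃ₐ[F] K) : ZMod l) • cls l (ξ : K)) := by
  have m0 := mem_of_wild hN S.wild
  set X := π * algebraMap (𝓞 F) (𝓞 K) (RingOfIntegers.norm F ξ) with hX
  set Y := θ * ξ ^ Module.finrank F K * ρ ^ l with hY
  have cY : IsCoprime Y (N : 𝓞 K) := (cθ.mul_left cξ.pow_left).mul_left cρ.pow_left
  have cX : IsCoprime X (N : 𝓞 K) := by
    obtain ⟨c, hc⟩ := hd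
    rw [sub_eq_iff_eq_add'] at hc
    rw [hc]
    exact cY.add_mul_left_left c
  have cπ : IsCoprime π (N : 𝓞 K) := cX.of_mul_left_left
  have π0 := (ord_of_coprime cπ _ m0).1
  have ξ0 := (ord_of_coprime cξ _ m0).1
  have θ0 := (ord_of_coprime cθ _ m0).1
  have ρ0 := (ord_of_coprime cρ _ m0).1
  have X0 := (ord_of_coprime cX _ m0).1
  have Y0 := (ord_of_coprime cY _ m0).1
  have eX : cls l (X : K) = cls l (π : K) + nrm M.ρ (cls l (ξ : K)) := by
    rw [← (cls_norm h ξ0).2, ← cls_mul π0 (cls_norm h ξ0).1]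
    rfl
  have eY : cls l (Y : K) =
      cls l (θ : K) + (Fintype.card (K ≃ₐ[F] K) : ZMod l) • cls l (ξ : K) := by
    have : (Y : K) = (θ : K) * (ξ : K) ^ Module.finrank F K * (ρ : K) ^ l := by simp [hY]
    rw [this, cls_mul (mul_ne_zero θ0 (pow_ne_zero _ ξ0)) (pow_ne_zero _ ρ0), cls_ell ρ0, add_zero,
      cls_mul θ0 (pow_ne_zero _ ξ0), cls_pow ξ0, ← IsGalois.card_aut_eq_finrank,
      Nat.card_eq_fintype_card]
  have hv : ∀ v : Pr K, v.valuation K ((X : K) - Y) ≤ v.valuation K ((N : 𝓞 K) : K) := fun v => by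
    simpa using val_le_of_dvd v hd
  rw [← eX, ← eY]
  refine ⟨π0, coprime_of (by exact_mod_cast (Fact.out : l.Prime).ne_zero) fun v hv hm => ?_,
    prim_of hl h X0 Y0 fun v hw =>
      ⟨(ord_of_coprime cY v (mem_of_wild hN hw)).2, (hv v).trans (val_N hN v)⟩,
    fun p hp => chi_of hl h p Y0 (ord_of_coprime cY _ hp).2
      ((hv _).trans_lt (val_lt_of_mem _ hp))⟩
  obtain ⟨w, hw⟩ := exists_over (E' := K) v
  refine not_mem_of_coprime (AddKAux.norm_coprime (F := F) cπ) w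
    (mem_of_wild hN fun t => (tm_over hw).1 t hv) ?_
  exact (Ideal.mem_of_liesOver w.asIdeal v.asIdeal _).1 hm

end Pool.Agent.MP_14ad9d_nt.Full.SelMainAux

end
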