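import Pool.Agent.MP_14ad9d_nt.Full.Mert
import Pool.Agent.Mg.F14ad9d.G140687

section

set_option autoImplicit false

open Filter Topology

namespace Pool.Agent.MP_14ad9d_nt.Full.AddFAux

/-- the local factor -/
noncomputable def uu (m p : ℕ) : ℝ := ((p : ℝ) / ((p : ℝ) - 1)) ^ m

/-- the small primes that are sieved out by the choice of a residue class -/
def SS (l B w : ℕ) : Finset ℕ :=
  (Finset.range (w + 1)).filter (fun p => p.Prime ∧ p ≡ 1 [MOD l] ∧ ¬ p ∣ B)

/-- the density of admissible classes -/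
noncomputable def rho (m l B w : ℕ) : ℝ := (∏ p ∈ SS l B w, uu m p)⁻¹

lemma one_le_uu (m : ℕ) {p : ℕ} (hp : p.Prime) : 1 ≤ uu m p := by
  have h2 : (2 : ℝ) ≤ p := by exact_mod_cast hp.two_le
  unfold uu
  apply one_le_pow₀
  rw [le_div_iff₀ (by linarith)]
  linarith

lemma exp_le_uu (m : ℕ) {p : ℕ} (hp : p.Prime) : Real.exp (m * (1 / (p : ℝ))) ≤ uu m p := by
  have h2 : (2 : ℝ) ≤ p := by exact_mod_cast hp.two_le
  unfold uu
  rw [Real.exp_nat_mul]
  apply pow_le_pow_left₀ (Real.exp_pos _).le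
  have h1 : (0 : ℝ) ≤ 1 / p := by positivity
  have h3 : 1 / (p : ℝ) < 1 := by rw [div_lt_one (by linarith)]; linarith
  have := Real.exp_bound_div_one_sub_of_interval h1 h3
  refine this.trans (le_of_eq ?_)
  have : (p : ℝ) - 1 ≠ 0 := by linarith
  field_simp

lemma uu_sub_le (m : ℕ) {p : ℕ} (hp : p.Prime) : uu m p - 1 ≤ (m * 2 ^ m : ℝ) * (1 / p) := by
  have h2 : (2 : ℝ) ≤ p := by exact_mod_cast hp.two_le
  have h1 : (0 : ℝ) < (p : ℝ) - 1 := by linarith
  set x : ℝ := (p : ℝ) / ((p : ℝ) - 1) with hx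
  have hx1 : 1 ≤ x := by rw [hx, le_div_iff₀ h1]; linarith
  have hx2 : x ≤ 2 := by rw [hx, div_le_iff₀ h1]; linarith
  have hx3 : x - 1 ≤ 2 * (1 / p) := by
    rw [hx, div_sub_one h1.ne', mul_one_div, div_le_div_iff₀ h1 (by linarith)]
    nlinarith
  unfold uu
  rw [← hx]
  have key : ∀ k : ℕ, x ^ k - 1 ≤ (k * 2 ^ k : ℝ) * (1 / p) := by
    intro k
    induction k with
    | zero => simp
    | succ k ih =>
      have hk : x ^ k ≤ 2 ^ k := pow_le_pow_left₀ (by linarith) hx2 k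
      have hp0 : (0 : ℝ) < 1 / p := by positivity
      have hk0 : (0 : ℝ) < 2 ^ k := by positivity
      have e1 : x ^ (k + 1) - 1 = x ^ k * (x - 1) + (x ^ k - 1) := by ring
      have e2 : x ^ k * (x - 1) ≤ 2 ^ k * (2 * (1 / p)) :=
        mul_le_mul hk hx3 (by linarith) hk0.le
      have e3 : (0 : ℝ) ≤ k * 2 ^ k * (1 / p) := by positivity
      push_cast
      rw [e1, pow_succ]
      nlinarith
  exact key m

lemma uu_le_exp (m : ℕ) {p : ℕ} (hp : p.Prime) :
    uu m p ≤ Real.exp ((m * 2 ^ m : ℝ) * (1 / p)) := by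
  have := uu_sub_le m hp
  have h2 := Real.add_one_le_exp ((m * 2 ^ m : ℝ) * (1 / p))
  linarith

lemma prod_union_le {s t : Finset ℕ} (u : ℕ → ℝ) (hs : ∀ p ∈ s, 1 ≤ u p) (ht : ∀ p ∈ t, 1 ≤ u p) :
    ∏ p ∈ s ∪ t, u p ≤ (∏ p ∈ s, u p) * ∏ p ∈ t, u p := by
  rw [← Finset.prod_union_inter]
  apply le_mul_of_one_le_right
  · apply Finset.prod_nonneg
    intro p hp
    rcases Finset.mem_union.1 hp with h | h
    · linarith [hs p h]
    · linarith [ht p h]
  · exact Finset.one_le_prod fun p hp => hs p (Finset.mem_inter.1 hp).1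

lemma one_le_prod_SS (m l B w : ℕ) : 1 ≤ ∏ p ∈ SS l B w, uu m p :=
  Finset.one_le_prod fun _ hp => one_le_uu m (Finset.mem_filter.1 hp).2.1

lemma rho_pos (m l B w : ℕ) : 0 < rho m l B w := by
  have := one_le_prod_SS m l B w
  unfold rho
  positivity

lemma rho_le_one (m l B w : ℕ) : rho m l B w ≤ 1 :=
  inv_le_one_of_one_le₀ (one_le_prod_SS m l B w)

theorem H_lower (l : ℕ) (hl : l.Prime) (m : ℕ) (hm : (l : ℝ) - 1 = m) (B : ℕ) (hB : B ≠ 0) :
    ∃ c : ℝ, 0 < c ∧ ∀ ε : ℝ, 0 < ε → ∃ w₁ : ℕ, ∀ w : ℕ, w₁ ≤ w → ∀ᶠ N : ℝ in atTop, ∀ K : ℕ,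
      ∃ PP : Finset ℕ, (∀ p ∈ PP, p.Prime ∧ p ≡ 1 [MOD l] ∧ (w : ℝ) * 2 ^ K < p ∧ (p : ℝ) ≤ N) ∧
        c * rho m l B w * Real.log N ≤ (1 + ε) ^ K *
          ∑ s ∈ PP.powerset with ((∏ p ∈ s, p : ℕ) : ℝ) ≤ N ^ (1 / 4 : ℝ),
            ∏ p ∈ s, (uu m p - 1) := by
  obtain ⟨C1, hC1⟩ := cheb_log
  obtain ⟨C2, hC2⟩ := cheb_dyadic
  obtain ⟨C3, hC3⟩ := mertens_ap l hl
  set a : ℝ := m * 2 ^ m with ha
  have ha0 : 0 ≤ a := by positivity
  set c₂ : ℝ := 1 / (8 * (a * |C1| + 1)) with hc₂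
  have hc20 : 0 < c₂ := by positivity
  have hc21 : c₂ ≤ 1 := by
    rw [hc₂, div_le_one (by positivity)]
    have : 0 ≤ a * |C1| := by positivity
    linarith
  set uB : ℝ := ∏ p ∈ B.primeFactors, uu m p with huB
  have huB1 : 1 ≤ uB := Finset.one_le_prod fun p hp => one_le_uu m (Nat.prime_of_mem_primeFactors hp)
  refine ⟨c₂ * Real.exp (-C3) / (2 * uB), by positivity, fun ε hε => ?_⟩
  have hlog : 0 < Real.log (1 + ε) := Real.log_pos (by linarith)
  have hev : ∀ᶠ w : ℕ in atTop, a * |C2| / Real.log (1 + ε) ≤ Real.log w ∧ 2 ≤ w :=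
    ((Real.tendsto_log_atTop.comp tendsto_natCast_atTop_atTop).eventually_ge_atTop _).and
      (eventually_ge_atTop 2)
  obtain ⟨w₁, hw₁⟩ := eventually_atTop.1 hev
  refine ⟨w₁, fun w hw => ?_⟩
  obtain ⟨hwa, hw2⟩ := hw₁ w hw
  have hw2' : (2 : ℝ) ≤ w := by exact_mod_cast hw2
  have hlw : 0 < Real.log w := Real.log_pos (by linarith)
  filter_upwards [(tendsto_rpow_atTop hc20).eventually_ge_atTop 2, eventually_gt_atTop 1]
    with N hz hN K
  set z : ℝ := N ^ c₂ with hzdef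
  have hzN : z ≤ N := by
    calc z ≤ N ^ (1 : ℝ) := Real.rpow_le_rpow_of_exponent_le hN.le hc21
      _ = N := Real.rpow_one N
  have hlz : Real.log z = c₂ * Real.log N := Real.log_rpow (by linarith) _
  have hlN : 0 < Real.log N := Real.log_pos hN
  set T := (Finset.range (⌊z⌋₊ + 1)).filter (fun p => p.Prime ∧ p ≡ 1 [MOD l]) with hT
  have hTm : ∀ p ∈ T, p.Prime ∧ p ≡ 1 [MOD l] ∧ (p : ℝ) ≤ z := by
    intro p hp
    rw [hT, Finset.mem_filter, Finset.mem_range] at hp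
    refine ⟨hp.2.1, hp.2.2, ?_⟩
    have : p ≤ ⌊z⌋₊ := by omega
    exact (Nat.le_floor_iff (by linarith)).1 this
  set PP := T.filter (fun p : ℕ => (w : ℝ) * 2 ^ K < p) with hPP
  set Mid := T.filter (fun p : ℕ => (w : ℝ) < p ∧ (p : ℝ) ≤ w * 2 ^ K) with hMid
  have hPPm : ∀ p ∈ PP, p.Prime ∧ p ≡ 1 [MOD l] ∧ (w : ℝ) * 2 ^ K < p ∧ (p : ℝ) ≤ z := by
    intro p hp
    rw [hPP, Finset.mem_filter] at hp
    obtain ⟨h1, h2, h3⟩ := hTm p hp.1
    exact ⟨h1, h2, hp.2, h3⟩
  refine ⟨PP, fun p hp => ⟨(hPPm p hp).1, (hPPm p hp).2.1, (hPPm p hp).2.2.1,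
    (hPPm p hp).2.2.2.trans hzN⟩, ?_⟩
  have hD : 1 < N ^ (1 / 4 : ℝ) := Real.one_lt_rpow hN (by norm_num)
  have hmk := markov PP (fun p => uu m p - 1) (fun p hp => by linarith [one_le_uu m (hPPm p hp).1])
    (fun p hp => (hPPm p hp).1.one_le) _ hD (by
      have h1 := hC1 z hz PP (fun p hp => ⟨(hPPm p hp).1, (hPPm p hp).2.2.2⟩)
      have h2 : ∑ p ∈ PP, (uu m p - 1) * Real.log p ≤ ∑ p ∈ PP, a * (Real.log p / p) := by
        apply Finset.sum_le_sum
        intro p hp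
        have h3 := uu_sub_le m (hPPm p hp).1
        have h4 : 0 ≤ Real.log p := Real.log_natCast_nonneg p
        calc (uu m p - 1) * Real.log p ≤ (a * (1 / p)) * Real.log p :=
              mul_le_mul_of_nonneg_right h3 h4
          _ = a * (Real.log p / p) := by ring
      rw [← Finset.mul_sum] at h2
      rw [Real.log_rpow (by linarith)]
      have h5 : C1 * Real.log z ≤ |C1| * Real.log z :=
        mul_le_mul_of_nonneg_right (le_abs_self _) (by rw [hlz]; positivity)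
      have h6 : a * (|C1| * Real.log z) ≤ 1 / 4 * Real.log N / 2 := by
        rw [hlz]
        have h7 : a * |C1| * c₂ ≤ 1 / 8 := by
          rw [hc₂, mul_one_div, div_le_div_iff₀ (by positivity) (by norm_num)]
          linarith
        nlinarith
      calc _ ≤ a * ∑ p ∈ PP, Real.log p / p := h2
        _ ≤ a * (|C1| * Real.log z) := mul_le_mul_of_nonneg_left (h1.trans h5) ha0
        _ ≤ _ := h6)
  simp only [add_sub_cancel] at hmk
  -- lower bound for the full product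
  have hT1 : c₂ * Real.log N * Real.exp (-C3) ≤ ∏ p ∈ T, uu m p := by
    have h1 := hC3 z hz
    rw [hm] at h1
    have h2 : Real.exp (m * ∑ p ∈ T, (1 : ℝ) / p) ≤ ∏ p ∈ T, uu m p := by
      rw [Finset.mul_sum, Real.exp_sum]
      exact Finset.prod_le_prod (fun p _ => (Real.exp_pos _).le)
        (fun p hp => exp_le_uu m (hTm p hp).1)
    have h3 := Real.exp_le_exp.2 h1
    rw [sub_eq_add_neg, Real.exp_add, Real.exp_log (by rw [hlz]; positivity), hlz] at h3
    exact h3.trans h2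
  have hMid1 : ∏ p ∈ Mid, uu m p ≤ (1 + ε) ^ K := by
    have hMm : ∀ p ∈ Mid, p.Prime ∧ (w : ℝ) < p ∧ (p : ℝ) ≤ w * 2 ^ K := by
      intro p hp
      rw [hMid, Finset.mem_filter] at hp
      exact ⟨(hTm p hp.1).1, hp.2⟩
    have h1 := hC2 w hw2' K Mid hMm
    have h2 : ∏ p ∈ Mid, uu m p ≤ Real.exp (a * ∑ p ∈ Mid, (1 : ℝ) / p) := by
      rw [Finset.mul_sum, Real.exp_sum]
      exact Finset.prod_le_prod (fun p hp => by linarith [one_le_uu m (hMm p hp).1])
        (fun p hp => uu_le_exp m (hMm p hp).1)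
    refine h2.trans ?_
    rw [← Real.exp_log (show 0 < 1 + ε by linarith), ← Real.exp_nat_mul]
    apply Real.exp_le_exp.2
    have h3 : C2 * K / Real.log w ≤ |C2| * K / Real.log w := by
      gcongr
      exact le_abs_self _
    rw [div_le_iff₀ hlog] at hwa
    have h4 : a * (|C2| * K / Real.log w) ≤ K * Real.log (1 + ε) := by
      rw [← mul_div_assoc, div_le_iff₀ hlw]
      have : (0 : ℝ) ≤ K := Nat.cast_nonneg K
      nlinarith
    exact (mul_le_mul_of_nonneg_left (h1.trans h3) ha0).trans h4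
  have hsub : T ⊆ ((SS l B w ∪ B.primeFactors) ∪ Mid) ∪ PP := by
    intro p hp
    obtain ⟨h1, h2, h3⟩ := hTm p hp
    simp only [Finset.mem_union, hMid, hPP, Finset.mem_filter, SS, Finset.mem_range,
      Nat.mem_primeFactors]
    by_cases hA : (w : ℝ) * 2 ^ K < p
    · exact Or.inr ⟨hp, hA⟩
    by_cases hBB : (w : ℝ) < p
    · exact Or.inl (Or.inr ⟨hp, hBB, not_lt.1 hA⟩)
    have hpw : p ≤ w := by exact_mod_cast not_lt.1 hBB
    by_cases hd : p ∣ B
    · exact Or.inl (Or.inl (Or.inr ⟨h1, hd, hB⟩))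
    · exact Or.inl (Or.inl (Or.inl ⟨by omega, h1, h2, hd⟩))
  have pS : ∀ p ∈ SS l B w, p.Prime := fun p hp => (Finset.mem_filter.1 hp).2.1
  have pB : ∀ p ∈ B.primeFactors, p.Prime := fun p hp => Nat.prime_of_mem_primeFactors hp
  have pM : ∀ p ∈ Mid, p.Prime := fun p hp => (hTm p (Finset.mem_filter.1 hp).1).1
  have pP : ∀ p ∈ PP, p.Prime := fun p hp => (hPPm p hp).1
  have pSB : ∀ p ∈ SS l B w ∪ B.primeFactors, p.Prime := fun p hp => by
    rcases Finset.mem_union.1 hp with h | h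
    exacts [pS p h, pB p h]
  have pSBM : ∀ p ∈ (SS l B w ∪ B.primeFactors) ∪ Mid, p.Prime := fun p hp => by
    rcases Finset.mem_union.1 hp with h | h
    exacts [pSB p h, pM p h]
  have pall : ∀ p ∈ ((SS l B w ∪ B.primeFactors) ∪ Mid) ∪ PP, p.Prime := fun p hp => by
    rcases Finset.mem_union.1 hp with h | h
    exacts [pSBM p h, pP p h]
  have hT2 : ∏ p ∈ T, uu m p ≤
      (((∏ p ∈ SS l B w, uu m p) * uB) * (1 + ε) ^ K) * ∏ p ∈ PP, uu m p := by
    have q1 := Finset.prod_le_prod_of_subset_of_one_le (f := uu m) hsub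
      (fun p hp => by linarith [one_le_uu m (hTm p hp).1]) (fun p hp _ => one_le_uu m (pall p hp))
    have q2 := prod_union_le (uu m) (fun p hp => one_le_uu m (pSBM p hp))
      (fun p hp => one_le_uu m (pP p hp))
    have q3 := prod_union_le (uu m) (fun p hp => one_le_uu m (pSB p hp))
      (fun p hp => one_le_uu m (pM p hp))
    have q4 := prod_union_le (uu m) (fun p hp => one_le_uu m (pS p hp))
      (fun p hp => one_le_uu m (pB p hp))
    have r1 : 1 ≤ ∏ p ∈ PP, uu m p := Finset.one_le_prod fun p hp => one_le_uu m (pP p hp)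
    have r2 : 1 ≤ ∏ p ∈ Mid, uu m p := Finset.one_le_prod fun p hp => one_le_uu m (pM p hp)
    have r3 := one_le_prod_SS m l B w
    refine q1.trans (q2.trans (mul_le_mul_of_nonneg_right (q3.trans ?_) (by linarith)))
    exact mul_le_mul q4 hMid1 (by linarith) (by positivity)
  have r3 := one_le_prod_SS m l B w
  have hfin : c₂ * Real.exp (-C3) / (2 * uB) * rho m l B w * Real.log N ≤
      (1 + ε) ^ K * ((∏ p ∈ PP, uu m p) / 2) := by
    unfold rho
    have e : c₂ * Real.exp (-C3) / (2 * uB) * (∏ p ∈ SS l B w, uu m p)⁻¹ * Real.log N =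
        (c₂ * Real.log N * Real.exp (-C3)) / (2 * uB * ∏ p ∈ SS l B w, uu m p) := by
      field_simp
    rw [e, div_le_iff₀ (by positivity)]
    refine (hT1.trans hT2).trans (le_of_eq ?_)
    ring
  exact hfin.trans (mul_le_mul_of_nonneg_left hmk (by positivity))

end Pool.Agent.MP_14ad9d_nt.Full.AddFAux

end

section

set_option autoImplicit false

open Filter Topology

namespace Pool.Agent.MP_14ad9d_nt.Full.AddFAux

variable {A : Type} [CommRing A] {m : ℕ} (b : Module.Basis (Fin m) ℤ A)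

/-- reduction of the coordinates modulo `M` -/
noncomputable def kap (M : ℕ) : A →+ (Fin m → ZMod M) where
  toFun a := fun i => (b.equivFun a i : ZMod M)
  map_zero' := by ext i; simp
  map_add' x y := by ext i; simp

lemma kap_symm (M : ℕ) (n : Fin m → ℤ) :
    kap b M (b.equivFun.symm n) = fun i => (n i : ZMod M) := by
  ext i
  change ((b.equivFun (b.equivFun.symm n) i : ℤ) : ZMod M) = _
  rw [LinearEquiv.apply_symm_apply]

lemma kap_surj (M : ℕ) : Function.Surjective (kap b M) := by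
  intro v
  choose n hn using fun i => ZMod.intCast_surjective (v i)
  exact ⟨b.equivFun.symm n, by rw [kap_symm]; exact funext hn⟩

lemma equivFun_natCast_mul (M : ℕ) (y : A) (i : Fin m) :
    b.equivFun ((M : A) * y) i = M * b.equivFun y i := by
  rw [← nsmul_eq_mul, map_nsmul, Pi.smul_apply, nsmul_eq_mul]

lemma kap_eq_zero (M : ℕ) (x : A) : kap b M x = 0 ↔ (M : A) ∣ x := by
  constructor
  · intro h
    have h1 : ∀ i, ∃ k : ℤ, b.equivFun x i = M * k := fun i =>
      (ZMod.intCast_zmod_eq_zero_iff_dvd _ _).1 (congrFun h i)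
    choose k hk using h1
    refine ⟨b.equivFun.symm k, b.equivFun.injective ?_⟩
    ext i
    rw [equivFun_natCast_mul, LinearEquiv.apply_symm_apply, hk]
  · rintro ⟨y, rfl⟩
    ext i
    change ((b.equivFun ((M : A) * y) i : ℤ) : ZMod M) = 0
    rw [equivFun_natCast_mul]
    simp

lemma kap_eq_iff (M : ℕ) (x y : A) : kap b M x = kap b M y ↔ (M : A) ∣ x - y := by
  rw [← kap_eq_zero b, map_sub, sub_eq_zero]

lemma exists_lift {G : Type} [AddCommGroup G] (M : ℕ) (Φ : A →+ G)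
    (h : ∀ y, Φ ((M : A) * y) = 0) :
    ∃ ψ : (Fin m → ZMod M) →+ G, ∀ a, ψ (kap b M a) = Φ a := by
  have hk : (kap b M).ker ≤ Φ.ker := by
    intro x hx
    obtain ⟨y, rfl⟩ := (kap_eq_zero b M x).1 hx
    exact h y
  exact ⟨(kap b M).liftOfSurjective (kap_surj b M) ⟨Φ, hk⟩, fun a =>
    AddMonoidHom.liftOfRightInverse_comp_apply _ _ _ _ _⟩

lemma phi_natCast_mul {p : ℕ} (φ : A →ₙ+* (Fin m → ZMod p)) (M : ℕ) (y : A) (i : Fin m) :
    φ ((M : A) * y) i = (M : ZMod p) * φ y i := by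
  rw [← nsmul_eq_mul, map_nsmul, Pi.smul_apply, nsmul_eq_mul]

lemma card_units_pi (m p : ℕ) [NeZero p] :
    (Fintype.piFinset (fun _ : Fin m => (Finset.univ : Finset (ZMod p)).erase 0)).card =
      (p - 1) ^ m := by
  rw [Fintype.card_piFinset]
  simp [Finset.card_erase_of_mem, ZMod.card]

theorem omega {p : ℕ} (hp : p.Prime) (φ : A →ₙ+* (Fin m → ZMod p)) (hφ : Function.Surjective φ)
    (α W W' : A) (M₀ : ℕ) (hW : W * W' = M₀) (hM : ¬ p ∣ M₀) :
    ∃ Ω : Set (Fin m → ZMod p), (Ω.ncard : ℝ) = (p : ℝ) ^ m - ((p : ℝ) - 1) ^ m ∧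
      ∀ n : Fin m → ℤ, (∀ i, φ (α + W * b.equivFun.symm n) i ≠ 0) →
        (fun i => (n i : ZMod p)) ∉ Ω := by
  classical
  have : Fact p.Prime := ⟨hp⟩
  obtain ⟨ψ, hψ⟩ := exists_lift b p (φ : A →+ (Fin m → ZMod p)) (fun y => by
    ext i
    change φ ((p : A) * y) i = 0
    rw [phi_natCast_mul]; simp)
  have hψs : Function.Surjective ψ := fun y => by
    obtain ⟨a, rfl⟩ := hφ y
    exact ⟨_, hψ a⟩
  have hψi : Function.Injective ψ := Finite.injective_iff_surjective.2 hψs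
  have hW0 : ∀ i, φ W i ≠ 0 := by
    intro i h0
    obtain ⟨y, hy⟩ := hφ 1
    have h1 : φ (W * (W' * y)) i = 0 := by rw [map_mul, Pi.mul_apply, h0, zero_mul]
    rw [← mul_assoc, hW, phi_natCast_mul, hy, Pi.one_apply, mul_one,
      ZMod.natCast_eq_zero_iff] at h1
    exact hM h1
  set e : (Fin m → ZMod p) → (Fin m → ZMod p) := fun v => φ α + φ W * ψ v with he
  have hei : Function.Injective e := by
    intro v v' h
    apply hψi
    ext i
    have := congrFun h i
    simp only [he, Pi.add_apply, Pi.mul_apply, add_right_inj] at this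
    exact mul_left_cancel₀ (hW0 i) this
  have hes : Function.Surjective e := Finite.injective_iff_surjective.1 hei
  set T := Fintype.piFinset (fun _ : Fin m => (Finset.univ : Finset (ZMod p)).erase 0) with hT
  refine ⟨e ⁻¹' ((Tᶜ : Finset _) : Set _), ?_, fun n hn h => ?_⟩
  · rw [Set.ncard_preimage_of_injective_subset_range hei (by rw [hes.range_eq]; simp),
      Set.ncard_coe_finset, Finset.card_compl, hT, card_units_pi]
    have h1 : Fintype.card (Fin m → ZMod p) = p ^ m := by simp [ZMod.card]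
    rw [h1, Nat.cast_sub (Nat.pow_le_pow_left (Nat.sub_le _ _) _)]
    push_cast [Nat.cast_sub hp.one_le]
    rfl
  · simp only [Set.mem_preimage, Finset.coe_compl, Set.mem_compl_iff, Finset.mem_coe] at h
    apply h
    rw [hT, Fintype.mem_piFinset]
    intro i
    rw [Finset.mem_erase]
    refine ⟨?_, Finset.mem_univ _⟩
    have := hn i
    rw [map_add, map_mul] at this
    rw [he]
    simp only
    rw [← kap_symm b, hψ]
    exact this

lemma card_filter_surj {G H : Type} [AddCommGroup G] [AddCommGroup H] [Fintype G] [Fintype H]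
    [DecidableEq H] (ψ : G →+ H) (hψ : Function.Surjective ψ) (T : Finset H) :
    (Finset.univ.filter (fun x => ψ x ∈ T)).card * Fintype.card H = T.card * Fintype.card G := by
  classical
  have hf : ∀ y : H, (Finset.univ.filter (fun x => ψ x = y)).card =
      (Finset.univ.filter (fun x => ψ x = 0)).card := by
    intro y
    obtain ⟨x₀, rfl⟩ := hψ y
    apply Finset.card_bij (fun x _ => x - x₀)
    · intro x hx
      simp only [Finset.mem_filter, Finset.mem_univ, true_and] at hx ⊢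
      rw [map_sub, hx, sub_self]
    · intro x _ x' _ h
      exact sub_left_injective h
    · intro x hx
      simp only [Finset.mem_filter, Finset.mem_univ, true_and] at hx
      exact ⟨x + x₀, by simp [hx], by simp⟩
  have h1 : ∀ T : Finset H, (Finset.univ.filter (fun x => ψ x ∈ T)).card =
      T.card * (Finset.univ.filter (fun x => ψ x = 0)).card := by
    intro T
    rw [← Finset.sum_card_fiberwise_eq_card_filter, Finset.sum_congr rfl (fun y _ => hf y)]
    simp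
  have h2 := h1 Finset.univ
  simp only [Finset.mem_univ, Finset.filter_true, Finset.card_univ] at h2
  rw [h1, h2]
  ring

include b in
theorem admissible (S : Finset ℕ) (hS : ∀ p ∈ S, p.Prime)
    (φ : ∀ p : ℕ, A →ₙ+* (Fin m → ZMod p)) (hφ : ∀ p ∈ S, Function.Surjective (φ p))
    (M : ℕ) (hM : M ≠ 0) (hd : ∀ p ∈ S, p ∣ M) :
    ∃ Adm : Finset A, (Adm.card : ℝ) ≤ (M : ℝ) ^ m * (∏ p ∈ S, uu m p)⁻¹ ∧
      ∀ a, (∀ p ∈ S, ∀ i, φ p a i ≠ 0) → ∃ α ∈ Adm, (M : A) ∣ a - α := by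
  classical
  have : NeZero M := ⟨hM⟩
  have : ∀ p : S, Fact (p : ℕ).Prime := fun p => ⟨hS p p.2⟩
  let Φ : A →+ (∀ p : S, Fin m → ZMod p) :=
    AddMonoidHom.pi fun p => (φ p : A →+ (Fin m → ZMod p))
  have hΦ : ∀ a p, Φ a p = φ p a := fun a p => rfl
  have hΦs : Function.Surjective Φ := by
    have h1 : ∀ (p : S) (y : Fin m → ZMod p), Pi.single p y ∈ Φ.range := by
      intro p y
      set Q : ℕ := ∏ q ∈ S.erase p, q with hQ
      have hQp : (Q : ZMod p) ≠ 0 := by
        rw [Ne, ZMod.natCast_eq_zero_iff, hQ]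
        intro h
        obtain ⟨q, hq, hpq⟩ := ((Nat.Prime.prime (hS p p.2)).dvd_finsetProd_iff _).1 h
        rw [Finset.mem_erase] at hq
        exact hq.1 ((Nat.prime_dvd_prime_iff_eq (hS p p.2) (hS q hq.2)).1 hpq).symm
      obtain ⟨a, ha⟩ := hφ p p.2 (fun i => (Q : ZMod p)⁻¹ * y i)
      refine ⟨(Q : A) * a, ?_⟩
      ext q i
      rw [hΦ, phi_natCast_mul]
      by_cases hq : q = p
      · subst hq
        rw [ha, Pi.single_eq_same, ← mul_assoc, mul_inv_cancel₀ hQp, one_mul]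
      · rw [Pi.single_eq_of_ne hq]
        have : (Q : ZMod q) = 0 := by
          rw [ZMod.natCast_eq_zero_iff, hQ]
          exact Finset.dvd_prod_of_mem _
            (Finset.mem_erase.2 ⟨fun h => hq (Subtype.ext h), q.2⟩)
        rw [this, zero_mul, Pi.zero_apply]
    intro y
    rw [← Finset.univ_sum_single y]
    exact (Φ.range.sum_mem fun p _ => h1 p (y p) :)
  obtain ⟨ψ, hψ⟩ := exists_lift b M Φ (fun y => by
    ext p i
    rw [hΦ, phi_natCast_mul, (ZMod.natCast_eq_zero_iff _ _).2 (hd p p.2), zero_mul]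
    rfl)
  have hψs : Function.Surjective ψ := fun y => by
    obtain ⟨a, rfl⟩ := hΦs y
    exact ⟨_, hψ a⟩
  set T : Finset (∀ p : S, Fin m → ZMod p) := Fintype.piFinset fun p =>
    Fintype.piFinset (fun _ : Fin m => (Finset.univ : Finset (ZMod p)).erase 0) with hT
  have hc := card_filter_surj ψ hψs T
  set U := Finset.univ.filter (fun x => ψ x ∈ T) with hU
  refine ⟨U.image (Function.surjInv (kap_surj b M)), ?_, fun a ha => ?_⟩
  · have h1 : ((U.image (Function.surjInv (kap_surj b M))).card : ℝ) ≤ U.card := by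
      exact_mod_cast Finset.card_image_le
    refine h1.trans (le_of_eq ?_)
    have h2 : T.card = ∏ p ∈ S, (p - 1) ^ m := by
      rw [hT, Fintype.card_piFinset, ← Finset.prod_coe_sort S]
      exact Finset.prod_congr rfl fun p _ => card_units_pi m p
    have h3 : Fintype.card (∀ p : S, Fin m → ZMod p) = ∏ p ∈ S, p ^ m := by
      rw [Fintype.card_pi, ← Finset.prod_coe_sort S]
      exact Finset.prod_congr rfl fun p _ => by simp [ZMod.card]
    have h4 : Fintype.card (Fin m → ZMod M) = M ^ m := by simp [ZMod.card]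
    rw [h2, h3, h4] at hc
    have h5 : (U.card : ℝ) * ∏ p ∈ S, (p : ℝ) ^ m = (∏ p ∈ S, ((p : ℝ) - 1) ^ m) * (M : ℝ) ^ m := by
      have := congrArg (Nat.cast : ℕ → ℝ) hc
      push_cast at this
      rw [this]
      congr 1
      exact Finset.prod_congr rfl fun p hp => by rw [Nat.cast_sub (hS p hp).one_le, Nat.cast_one]
    have h6 : 0 < ∏ p ∈ S, (p : ℝ) ^ m :=
      Finset.prod_pos fun p hp => pow_pos (by exact_mod_cast (hS p hp).pos) _
    simp only [uu, div_pow, Finset.prod_div_distrib, inv_div]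
    rw [← mul_div_assoc, eq_div_iff h6.ne', h5, mul_comm]
  · refine ⟨_, Finset.mem_image_of_mem _ (?_ : kap b M a ∈ U), ?_⟩
    · rw [hU, Finset.mem_filter, hψ, hT]
      refine ⟨Finset.mem_univ _, Fintype.mem_piFinset.2 fun p => Fintype.mem_piFinset.2 fun i => ?_⟩
      exact Finset.mem_erase.2 ⟨ha p p.2 i, Finset.mem_univ _⟩
    · rw [← kap_eq_iff b, Function.surjInv_eq (kap_surj b M)]

lemma coord_mul (r y : A) (i : Fin m) :
    b.equivFun (r * y) i = ∑ j, b.equivFun y j * b.equivFun (r * b j) i := by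
  conv_lhs => rw [← b.sum_equivFun y]
  rw [Finset.mul_sum, map_sum, Finset.sum_apply]
  apply Finset.sum_congr rfl
  intro j _
  rw [mul_smul_comm, map_smul, Pi.smul_apply, smul_eq_mul]

lemma norm_mul_le (r : A) : ∃ C : ℝ, 0 < C ∧ ∀ y, ‖b.equivFun (r * y)‖ ≤ C * ‖b.equivFun y‖ := by
  refine ⟨1 + ∑ j, ‖b.equivFun (r * b j)‖, by positivity, fun y => ?_⟩
  rw [pi_norm_le_iff_of_nonneg (by positivity)]
  intro i
  rw [coord_mul]
  calc _ ≤ ∑ j, ‖b.equivFun y j * b.equivFun (r * b j) i‖ := norm_sum_le _ _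
    _ ≤ ∑ j, ‖b.equivFun y‖ * ‖b.equivFun (r * b j)‖ := by
      apply Finset.sum_le_sum
      intro j _
      rw [norm_mul]
      exact mul_le_mul (norm_le_pi_norm _ j) (norm_le_pi_norm _ i) (norm_nonneg _) (norm_nonneg _)
    _ ≤ _ := by
      rw [← Finset.mul_sum, add_mul, mul_comm (∑ j, _)]
      linarith [norm_nonneg (b.equivFun y)]

end Pool.Agent.MP_14ad9d_nt.Full.AddFAux

end

section

set_option autoImplicit false

open Filter Topology

namespace Pool.Agent.MP_14ad9d_nt.Full.AddFAux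

lemma ee_add (x y : ℝ) : ee (x + y) = ee x * ee y := by
  unfold ee
  rw [← Complex.exp_add]
  congr 1
  push_cast
  ring

lemma norm_ee (x : ℝ) : ‖ee x‖ = 1 := by
  have := Complex.norm_exp_ofReal_mul_I (2 * Real.pi * x)
  unfold ee
  push_cast at this
  exact this

lemma continuous_ee : Continuous ee := by
  unfold ee
  fun_prop

lemma norm_ee_sub (x y : ℝ) : ‖ee x - ee y‖ ≤ 2 * Real.pi * |x - y| := by
  have h1 : ee x - ee y = ee y * (ee (x - y) - 1) := by
    rw [mul_sub, ← ee_add, mul_one]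
    congr 2
    ring
  rw [h1, norm_mul, norm_ee, one_mul]
  have h2 := @Real.norm_exp_I_mul_ofReal_sub_one_le (2 * Real.pi * (x - y))
  have h3 : ee (x - y) = Complex.exp (Complex.I * ((2 * Real.pi * (x - y) : ℝ) : ℂ)) := by
    unfold ee
    congr 1
    push_cast
    ring
  rw [h3]
  refine h2.trans (le_of_eq ?_)
  rw [Real.norm_eq_abs, abs_mul, abs_of_pos (by positivity : 0 < 2 * Real.pi)]

variable {m : ℕ}

/-- the point of the torus defined by a real vector -/
noncomputable def tor (x : Fin m → ℝ) : UnitAddTorus (Fin m) := fun i => (x i : UnitAddCircle)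

lemma mFourier_add_right (n : Fin m → ℤ) (θ θ' : UnitAddTorus (Fin m)) :
    UnitAddTorus.mFourier n (θ + θ') = UnitAddTorus.mFourier n θ * UnitAddTorus.mFourier n θ' := by
  simp only [UnitAddTorus.mFourier, ContinuousMap.coe_mk, Pi.add_apply, fourier_apply, smul_add,
    AddCircle.toCircle_add, Circle.coe_mul, Finset.prod_mul_distrib]

lemma mFourier_tor (n : Fin m → ℤ) (x : Fin m → ℝ) :
    UnitAddTorus.mFourier n (tor x) = ee (∑ i, n i * x i) := by
  simp only [UnitAddTorus.mFourier, ContinuousMap.coe_mk, tor, fourier_coe_apply, ee]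
  rw [← Complex.exp_sum]
  congr 1
  push_cast
  rw [Finset.mul_sum, Finset.sum_mul]
  apply Finset.sum_congr rfl
  intro i _
  ring

lemma mFourier_torsion (Q : ℕ) (k : Fin m → ℤ) (θ : UnitAddTorus (Fin m)) (h : Q • θ = 0) :
    UnitAddTorus.mFourier (Q • k) θ = 1 := by
  simp only [UnitAddTorus.mFourier, ContinuousMap.coe_mk, fourier_apply]
  apply Finset.prod_eq_one
  intro i _
  have h1 : Q • θ i = 0 := congrFun h i
  have h2 : (Q • k) i • θ i = 0 := by
    rw [Pi.smul_apply, nsmul_eq_mul, mul_comm, mul_smul, natCast_zsmul, h1, smul_zero]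
  rw [h2, AddCircle.toCircle_zero, Circle.coe_one]

lemma norm_mFourier (n : Fin m → ℤ) (θ : UnitAddTorus (Fin m)) :
    ‖UnitAddTorus.mFourier n θ‖ = 1 := by
  simp only [UnitAddTorus.mFourier, fourier_apply, ContinuousMap.coe_mk, norm_prod,
    Circle.norm_coe, Finset.prod_const_one]

lemma arcs_decomp (w : ℕ) (N : ℝ) (hN : 0 < N) (θ : UnitAddTorus (Fin m)) (h : θ ∈ arcs m N w) :
    ∃ θ' : UnitAddTorus (Fin m), w.factorial • θ' = 0 ∧ ∃ β : Fin m → ℝ, ‖β‖ ≤ w ∧
      θ = θ' + tor (fun i => β i / N) := by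
  obtain ⟨q, hq1, hqw, hq⟩ := h
  have hq0 : (1 : ℝ) ≤ q := by exact_mod_cast hq1
  have h1 : ∀ i, ∃ γ : ℝ, (γ : UnitAddCircle) = q • θ i ∧ |γ| ≤ w / N := by
    intro i
    obtain ⟨x, hx⟩ := QuotientAddGroup.mk_surjective (q • θ i)
    refine ⟨x - round x, ?_, ?_⟩
    · have : (((round x : ℤ) : ℝ) : UnitAddCircle) = 0 :=
        (AddCircle.coe_eq_zero_iff _).2 ⟨round x, by simp⟩
      rw [AddCircle.coe_sub, this, sub_zero, hx]
    · rw [← UnitAddCircle.norm_eq, hx]
      exact (norm_le_pi_norm (q • θ) i).trans hq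
  choose γ hγ hγ' using h1
  refine ⟨θ - tor (fun i => γ i / q), ?_, fun i => N * γ i / q, ?_, ?_⟩
  · obtain ⟨k, hk⟩ : q ∣ w.factorial := Nat.dvd_factorial hq1 (by exact_mod_cast hqw)
    have : q • (θ - tor (fun i => γ i / q)) = 0 := by
      ext i
      rw [Pi.smul_apply, Pi.sub_apply, smul_sub, ← hγ i, tor, ← AddCircle.coe_nsmul,
        nsmul_eq_mul, mul_div_cancel₀ _ (by linarith), sub_self, Pi.zero_apply]
    rw [hk, mul_comm, mul_smul, this, smul_zero]
  · rw [pi_norm_le_iff_of_nonneg (Nat.cast_nonneg w)]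
    intro i
    have h2 := hγ' i
    rw [le_div_iff₀ hN] at h2
    rw [Real.norm_eq_abs, abs_div, abs_mul, abs_of_pos hN, abs_of_pos (by linarith : (0 : ℝ) < q),
      div_le_iff₀ (by linarith)]
    have : (0 : ℝ) ≤ w := Nat.cast_nonneg w
    nlinarith
  · have : (fun i => N * γ i / q / N) = fun i => γ i / q := by
      ext i
      field_simp
    rw [this, sub_add_cancel]

lemma hat_lip (F : (Fin m → ℤ) →₀ ℝ) (hF : ∀ n, 0 ≤ F n) (C₀ N : ℝ) (hN : 0 < N)
    (hbox : ∀ n ∈ F.support, ‖n‖ ≤ C₀ * N) (θ' : UnitAddTorus (Fin m)) (β β₀ : Fin m → ℝ) :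
    ‖hat F (θ' + tor (fun i => β i / N)) - hat F (θ' + tor (fun i => β₀ i / N))‖ ≤
      2 * Real.pi * m * C₀ * ‖β - β₀‖ * F.sum fun _ a => a := by
  unfold hat
  rw [Finsupp.sum, Finsupp.sum, Finsupp.sum, ← Finset.sum_sub_distrib, Finset.mul_sum]
  refine (norm_sum_le _ _).trans (Finset.sum_le_sum fun n hn => ?_)
  rw [← mul_sub, mFourier_add_right, mFourier_add_right, ← mul_sub, norm_mul, norm_mul,
    norm_mFourier, one_mul, Complex.norm_real, Real.norm_eq_abs, abs_of_nonneg (hF n), mul_comm,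
    mFourier_tor, mFourier_tor]
  refine mul_le_mul_of_nonneg_right ((norm_ee_sub _ _).trans ?_) (hF n)
  rw [mul_assoc (2 * Real.pi), mul_assoc (2 * Real.pi)]
  refine mul_le_mul_of_nonneg_left ?_ (by positivity)
  rw [← Finset.sum_sub_distrib]
  refine (Finset.abs_sum_le_sum_abs _ _).trans ?_
  have h1 : ∀ i ∈ (Finset.univ : Finset (Fin m)),
      |(n i : ℝ) * (β i / N) - n i * (β₀ i / N)| ≤ C₀ * ‖β - β₀‖ := by
    intro i _
    have h2 : |(n i : ℝ)| ≤ C₀ * N := by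
      have := (norm_le_pi_norm n i).trans (hbox n hn)
      rwa [Int.norm_eq_abs] at this
    have h3 : |β i - β₀ i| ≤ ‖β - β₀‖ := norm_le_pi_norm (β - β₀) i
    have e : (n i : ℝ) * (β i / N) - n i * (β₀ i / N) = n i * (β i - β₀ i) / N := by ring
    rw [e, abs_div, abs_mul, abs_of_pos hN, div_le_iff₀ hN]
    calc _ ≤ (C₀ * N) * ‖β - β₀‖ :=
          mul_le_mul h2 h3 (abs_nonneg _) ((abs_nonneg _).trans h2)
      _ = _ := by ring
  refine (Finset.sum_le_card_nsmul _ _ _ h1).trans (le_of_eq ?_)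
  simp [mul_assoc]

/-- pointwise smallness and a Lipschitz bound give smallness on all major arcs -/
theorem arcs_small (F G : ℝ → ((Fin m → ℤ) →₀ ℝ)) (κ : ℝ) (hκ : 0 < κ) (w : ℕ) (C₀ C₁ : ℝ)
    (hC₀ : 0 < C₀) (hC₁ : 0 < C₁) (hF : ∀ X n, 0 ≤ F X n) (hG : ∀ X n, 0 ≤ G X n)
    (hb : ∀ᶠ X : ℝ in atTop, (∀ n ∈ (F X).support, ‖n‖ ≤ C₀ * (X / κ)) ∧
      (∀ n ∈ (G X).support, ‖n‖ ≤ C₀ * (X / κ)) ∧
      ((F X).sum fun _ a => a) ≤ C₁ * (X / κ) ^ m ∧ ((G X).sum fun _ a => a) ≤ C₁ * (X / κ) ^ m)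
    (hpt : ∀ θ' : UnitAddTorus (Fin m), w.factorial • θ' = 0 → ∀ β : Fin m → ℝ, ∀ ε : ℝ, 0 < ε →
      ∀ᶠ X : ℝ in atTop, ‖hat (F X) (θ' + tor (fun i => β i / (X / κ))) -
        hat (G X) (θ' + tor (fun i => β i / (X / κ)))‖ ≤ ε * (X / κ) ^ m)
    (ε : ℝ) (hε : 0 < ε) :
    ∀ᶠ X : ℝ in atTop, ∀ θ ∈ arcs m (X / κ) w, ‖hat (F X) θ - hat (G X) θ‖ ≤ ε * (X / κ) ^ m := by
  set L : ℝ := 2 * Real.pi * m * C₀ * C₁ with hL
  have hL0 : 0 ≤ L := by positivity
  set η : ℝ := ε / (3 * (L + 1)) with hη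
  have hη0 : 0 < η := by positivity
  obtain ⟨t, -, htf, ht⟩ :=
    finite_cover_balls_of_compact (isCompact_closedBall (0 : Fin m → ℝ) w) hη0
  have hfin : {θ' : UnitAddTorus (Fin m) | w.factorial • θ' = 0}.Finite := by
    refine (Set.Finite.pi' (fun _ : Fin m =>
      AddCircle.finite_torsion (1 : ℝ) w.factorial_pos)).subset ?_
    intro θ' h i
    exact congrFun h i
  have hall := (eventually_all_finite hfin).2 fun θ' h =>
    (eventually_all_finite htf).2 fun β _ => hpt θ' h β (ε / 3) (by positivity)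
  filter_upwards [hb, hall, eventually_gt_atTop 0] with X hb hall hX θ hθ
  set N := X / κ with hN
  have hN0 : 0 < N := by positivity
  obtain ⟨θ', h1, β, h2, rfl⟩ := arcs_decomp w N hN0 θ hθ
  have h3 := ht (show β ∈ Metric.closedBall 0 (w : ℝ) by simpa using h2)
  simp only [Set.mem_iUnion] at h3
  obtain ⟨β₀, h4, h5⟩ := h3
  rw [Metric.mem_ball, dist_eq_norm] at h5
  have k0 := hall θ' h1 β₀ h4
  have k1 := hat_lip (F X) (hF X) C₀ N hN0 hb.1 θ' β β₀
  have k2 := hat_lip (G X) (hG X) C₀ N hN0 hb.2.1 θ' β β₀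
  have hNm : 0 < N ^ m := by positivity
  have k3 : ∀ S : ℝ, S ≤ C₁ * N ^ m →
      2 * Real.pi * m * C₀ * ‖β - β₀‖ * S ≤ ε / 3 * N ^ m := by
    intro S hS
    have e1 : L * η ≤ ε / 3 := by
      rw [hη, ← mul_div_assoc, div_le_div_iff₀ (by positivity) (by norm_num)]
      nlinarith
    calc _ ≤ 2 * Real.pi * m * C₀ * ‖β - β₀‖ * (C₁ * N ^ m) := by gcongr
      _ ≤ 2 * Real.pi * m * C₀ * η * (C₁ * N ^ m) := by gcongr
      _ = (L * η) * N ^ m := by rw [hL]; ring
      _ ≤ _ := by gcongr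
  have k4 := k1.trans (k3 _ hb.2.2.1)
  have k5 := k2.trans (k3 _ hb.2.2.2)
  set a := hat (F X) (θ' + tor (fun i => β i / N))
  set a₀ := hat (F X) (θ' + tor (fun i => β₀ i / N))
  set c := hat (G X) (θ' + tor (fun i => β i / N))
  set c₀ := hat (G X) (θ' + tor (fun i => β₀ i / N))
  have e : a - c = (a - a₀) + (a₀ - c₀) - (c - c₀) := by ring
  rw [e]
  have := norm_sub_le ((a - a₀) + (a₀ - c₀)) (c - c₀)
  have := norm_add_le (a - a₀) (a₀ - c₀)
  linarith

end Pool.Agent.MP_14ad9d_nt.Full.AddFAux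

end

section

set_option autoImplicit false

open Filter Topology

namespace Pool.Agent.MP_14ad9d_nt.Full.AddFAux

variable {A : Type} [CommRing A] {m : ℕ} (b : Module.Basis (Fin m) ℤ A)

/-- the parametrization of a residue class -/
noncomputable def iota (α W : A) (n : Fin m → ℤ) : A := α + W * b.equivFun.symm n

lemma iota_inj [IsDomain A] (α W : A) (hW : W ≠ 0) : Function.Injective (iota b α W) := by
  intro n n' h
  unfold iota at h
  exact b.equivFun.symm.injective (mul_left_cancel₀ hW (add_left_cancel h))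

lemma mem_range_iota (α W a : A) : a ∈ Set.range (iota b α W) ↔ W ∣ a - α := by
  constructor
  · rintro ⟨n, rfl⟩
    exact ⟨b.equivFun.symm n, by simp [iota]⟩
  · rintro ⟨y, hy⟩
    exact ⟨b.equivFun y, by rw [iota, LinearEquiv.symm_apply_apply, ← hy]; ring⟩

/-- the scaled restriction of a weight to a residue class -/
noncomputable def pull (ι : (Fin m → ℤ) → A) (hι : Function.Injective ι) (ρ : ℝ) (φ : A →₀ ℝ) :
    (Fin m → ℤ) →₀ ℝ := ρ • Finsupp.comapDomain ι φ hι.injOn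

omit [CommRing A] in
lemma pull_apply (ι : (Fin m → ℤ) → A) (hι : Function.Injective ι) (ρ : ℝ) (φ : A →₀ ℝ)
    (n : Fin m → ℤ) : pull ι hι ρ φ n = ρ * φ (ι n) := by
  simp [pull]

open Classical in
lemma pull_sum {β : Type} [AddCommMonoid β] (ι : (Fin m → ℤ) → A) (hι : Function.Injective ι)
    (ρ : ℝ) (φ : A →₀ ℝ) (k : (Fin m → ℤ) → ℝ → β) (hk : ∀ n, k n 0 = 0) :
    (pull ι hι ρ φ).sum k =
      φ.sum fun a x => if a ∈ Set.range ι then k (Function.invFun ι a) (ρ * x) else 0 := by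
  have hsub : (pull ι hι ρ φ).support ⊆ φ.support.preimage ι hι.injOn := by
    intro n hn
    rw [Finsupp.mem_support_iff, pull_apply] at hn
    rw [Finset.mem_preimage, Finsupp.mem_support_iff]
    exact right_ne_zero_of_mul hn
  rw [Finsupp.sum_of_support_subset _ hsub _ (fun n _ => hk n), Finsupp.sum,
    ← Finset.sum_preimage ι φ.support hι.injOn _ (fun x _ hx => if_neg hx)]
  apply Finset.sum_congr rfl
  intro n _
  rw [if_pos ⟨n, rfl⟩, Function.leftInverse_invFun hι, pull_apply]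

open Classical in
lemma sum_periodic (M : ℕ) [NeZero M] (χ : A → ℂ) (hχ : ∀ a a', (M : A) ∣ a - a' → χ a = χ a')
    (φ : A →₀ ℝ) (k : A → ℝ → ℂ) :
    (φ.sum fun a x => χ a * k a x) =
      ∑ v : Fin m → ZMod M, χ (Function.surjInv (kap_surj b M) v) *
        φ.sum fun a x => if (M : A) ∣ a - Function.surjInv (kap_surj b M) v then k a x else 0 := by
  simp only [Finsupp.sum, Finset.mul_sum]
  rw [Finset.sum_comm]
  apply Finset.sum_congr rfl
  intro a _
  rw [Finset.sum_eq_single (kap b M a)]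
  · have h : (M : A) ∣ a - Function.surjInv (kap_surj b M) (kap b M a) := by
      rw [← kap_eq_iff b, Function.surjInv_eq (kap_surj b M)]
    rw [if_pos h, hχ _ _ h]
  · intro v _ hv
    rw [if_neg, mul_zero]
    rw [← kap_eq_iff b, Function.surjInv_eq (kap_surj b M)]
    exact fun h => hv h.symm
  · intro h
    exact absurd (Finset.mem_univ _) h

open Classical in
/-- the equidistribution hypothesis -/
def Equi (f g : ℝ → (A →₀ ℝ)) : Prop :=
  ∀ M : ℕ, M ≠ 0 → ∀ β : A, ∀ h : (Fin m → ℝ) → ℂ, Continuous h →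
    Tendsto (fun X : ℝ =>
      (((f X).sum fun a x => if (M : A) ∣ a - β then
          (x : ℂ) * h (fun i => (b.equivFun a i : ℝ) / X) else 0) -
        ((g X).sum fun a x => if (M : A) ∣ a - β then
          (x : ℂ) * h (fun i => (b.equivFun a i : ℝ) / X) else 0)) / (X : ℂ) ^ m)
      atTop (𝓝 0)

lemma equi2 {f g : ℝ → (A →₀ ℝ)} (he : Equi b f g) (M : ℕ) (hM : M ≠ 0) (χ : A → ℂ)
    (hχ : ∀ a a', (M : A) ∣ a - a' → χ a = χ a') (h : (Fin m → ℝ) → ℂ) (hh : Continuous h) :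
    Tendsto (fun X : ℝ =>
      (((f X).sum fun a x => χ a * ((x : ℂ) * h (fun i => (b.equivFun a i : ℝ) / X))) -
        ((g X).sum fun a x => χ a * ((x : ℂ) * h (fun i => (b.equivFun a i : ℝ) / X)))) /
          (X : ℂ) ^ m) atTop (𝓝 0) := by
  have : NeZero M := ⟨hM⟩
  have h1 := tendsto_finsetSum (Finset.univ : Finset (Fin m → ZMod M)) fun v _ =>
    (he M hM (Function.surjInv (kap_surj b M) v) h hh).const_mul
      (χ (Function.surjInv (kap_surj b M) v))
  simp only [mul_zero, Finset.sum_const_zero] at h1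
  refine h1.congr fun X => ?_
  rw [sum_periodic b M χ hχ, sum_periodic b M χ hχ, ← Finset.sum_sub_distrib, Finset.sum_div]
  apply Finset.sum_congr rfl
  intro v _
  ring

theorem pointwise [IsDomain A] {f g : ℝ → (A →₀ ℝ)} (he : Equi b f g) (α W W' : A) (hW : W ≠ 0)
    (M₀ : ℕ) (hM₀ : M₀ ≠ 0) (hWW : W * W' = M₀) (ρ κ : ℝ) (hκ : 0 < κ) (Q : ℕ) (hQ : Q ≠ 0)
    (θ' : UnitAddTorus (Fin m)) (hθ : Q • θ' = 0) (β : Fin m → ℝ) (ε : ℝ) (hε : 0 < ε) :
    ∀ᶠ X : ℝ in atTop,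
      ‖hat (pull _ (iota_inj b α W hW) ρ (f X)) (θ' + tor (fun i => β i / (X / κ))) -
        hat (pull _ (iota_inj b α W hW) ρ (g X)) (θ' + tor (fun i => β i / (X / κ)))‖ ≤
          ε * (X / κ) ^ m := by
  classical
  have hι := iota_inj b α W hW
  set ι := iota b α W with hιdef
  set χ : A → ℂ := fun a =>
    if a ∈ Set.range ι then UnitAddTorus.mFourier (Function.invFun ι a) θ' else 0 with hχdef
  have hχ1 : ∀ n, χ (ι n) = UnitAddTorus.mFourier n θ' := fun n => by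
    rw [hχdef]
    simp only
    rw [if_pos ⟨n, rfl⟩, Function.leftInverse_invFun hι]
  have hχ2 : ∀ a a', ((M₀ * Q : ℕ) : A) ∣ a - a' → a' ∈ Set.range ι →
      a ∈ Set.range ι ∧ χ a = χ a' := by
    rintro a _ ⟨y, hy⟩ ⟨n, rfl⟩
    have h1 : a = ι (n + Q • b.equivFun (W' * y)) := by
      rw [hιdef, iota, map_add, map_nsmul, LinearEquiv.symm_apply_apply, nsmul_eq_mul]
      rw [hιdef, iota, Nat.cast_mul, ← hWW] at hy
      linear_combination hy
    refine ⟨⟨_, h1.symm⟩, ?_⟩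
    rw [h1, hχ1, hχ1, UnitAddTorus.mFourier_add, mFourier_torsion Q _ _ hθ, mul_one]
  have hχ : ∀ a a', ((M₀ * Q : ℕ) : A) ∣ a - a' → χ a = χ a' := by
    intro a a' h
    by_cases h1 : a' ∈ Set.range ι
    · exact (hχ2 a a' h h1).2
    · by_cases h2 : a ∈ Set.range ι
      · exact absurd (hχ2 a' a (dvd_sub_comm.1 h) h2).1 h1
      · rw [hχdef]
        simp only
        rw [if_neg h1, if_neg h2]
  set lin : (Fin m → ℝ) → ℝ := fun x =>
    ∑ i, β i * (κ / M₀) * ∑ j, x j * (b.equivFun (W' * b j) i : ℝ) with hlin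
  have hlc : Continuous lin := by
    rw [hlin]
    fun_prop
  have hM₀' : (M₀ : ℝ) ≠ 0 := by exact_mod_cast hM₀
  have hlin1 : ∀ (X : ℝ) (a : A), lin (fun i => (b.equivFun a i : ℝ) / X) =
      ∑ i, β i * (κ / M₀) * (b.equivFun (W' * a) i : ℝ) / X := by
    intro X a
    rw [hlin]
    apply Finset.sum_congr rfl
    intro i _
    rw [coord_mul b W' a i]
    push_cast
    rw [mul_div_assoc, Finset.sum_div]
    congr 1
    apply Finset.sum_congr rfl
    intro j _
    ring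
  have hlin2 : ∀ (X : ℝ) (n : Fin m → ℤ), ∑ i, (n i : ℝ) * (β i / (X / κ)) =
      lin (fun i => (b.equivFun (ι n) i : ℝ) / X) + -lin (fun i => (b.equivFun α i : ℝ) / X) := by
    intro X n
    rw [hlin1, hlin1, ← sub_eq_add_neg, ← Finset.sum_sub_distrib]
    apply Finset.sum_congr rfl
    intro i _
    have h1 : W' * ι n = W' * α + (M₀ : A) * b.equivFun.symm n := by
      rw [hιdef, iota, ← hWW]; ring
    rw [h1, map_add, Pi.add_apply, equivFun_natCast_mul, LinearEquiv.apply_symm_apply]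
    push_cast
    rw [div_div_eq_mul_div]
    field_simp
    ring
  have hhat : ∀ (X : ℝ) (φ : A →₀ ℝ), hat (pull ι hι ρ φ) (θ' + tor (fun i => β i / (X / κ))) =
      (ρ * ee (-lin (fun i => (b.equivFun α i : ℝ) / X))) *
        φ.sum fun a x => χ a * ((x : ℂ) * ee (lin (fun i => (b.equivFun a i : ℝ) / X))) := by
    intro X φ
    unfold hat
    rw [pull_sum ι hι ρ φ _ (fun n => by simp), Finsupp.sum, Finsupp.sum, Finset.mul_sum]
    apply Finset.sum_congr rfl
    intro a _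
    by_cases ha : a ∈ Set.range ι
    · obtain ⟨n, rfl⟩ := ha
      rw [if_pos ⟨n, rfl⟩, Function.leftInverse_invFun hι, hχ1, mFourier_add_right, mFourier_tor,
        hlin2, ee_add]
      push_cast
      ring
    · rw [if_neg ha, hχdef]
      simp only
      rw [if_neg ha]
      simp
  have h1 := equi2 b he (M₀ * Q) (mul_ne_zero hM₀ hQ) χ hχ (fun x => ee (lin x))
    (continuous_ee.comp hlc)
  rw [tendsto_zero_iff_norm_tendsto_zero] at h1
  have hκm : 0 < κ ^ m := by positivity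
  have h2 := h1.eventually_le_const (show 0 < ε / ((|ρ| + 1) * κ ^ m) by positivity)
  filter_upwards [h2, eventually_gt_atTop 0] with X hX hX0
  rw [hhat, hhat, ← mul_sub, norm_mul, norm_mul, norm_ee, mul_one, Complex.norm_real,
    Real.norm_eq_abs]
  have hXm : 0 < X ^ m := by positivity
  rw [norm_div, norm_pow, Complex.norm_real, Real.norm_eq_abs, abs_of_pos hX0,
    div_le_iff₀ hXm] at hX
  refine (mul_le_mul_of_nonneg_left hX (abs_nonneg ρ)).trans ?_
  rw [div_pow]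
  have e : |ρ| * (ε / ((|ρ| + 1) * κ ^ m) * X ^ m) = (|ρ| / (|ρ| + 1)) * (ε * (X ^ m / κ ^ m)) := by
    field_simp
  rw [e]
  apply mul_le_of_le_one_left (by positivity)
  rw [div_le_one (by positivity)]
  linarith

end Pool.Agent.MP_14ad9d_nt.Full.AddFAux

end

section

set_option autoImplicit false

open Filter Topology MeasureTheory

namespace Pool.Agent.MP_14ad9d_nt.Full.AddFAux

lemma mass_nonneg {m : ℕ} (f : (Fin m → ℤ) →₀ ℝ) (S : Set (UnitAddTorus (Fin m))) :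
    0 ≤ mass f S := integral_nonneg fun _ => by positivity

lemma uu_eq (m : ℕ) {p : ℕ} (hp : p.Prime) (k : ℕ) (hk : (k : ℝ) = (p : ℝ) ^ m - ((p : ℝ) - 1) ^ m) :
    (k : ℝ) / ((p : ℝ) ^ m - k) = uu m p - 1 := by
  have h2 : (2 : ℝ) ≤ p := by exact_mod_cast hp.two_le
  have h1 : (0 : ℝ) < ((p : ℝ) - 1) ^ m := pow_pos (by linarith) _
  rw [hk, uu, div_pow, sub_sub_cancel, div_sub_one h1.ne']

theorem bounds (l : ℕ) (hl : l.Prime) (m : ℕ) (hm : (l : ℝ) - 1 = m) (B : ℕ) (hB : B ≠ 0)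
    (C' C₀ : ℝ) (hC' : 0 < C') (hC₀ : 0 < C₀) :
    ∃ C₁ : ℝ, 0 < C₁ ∧ ∀ ε : ℝ, 0 < ε → ∃ w₁ : ℕ, ∀ w : ℕ, w₁ ≤ w → ∀ᶠ N : ℝ in atTop,
      ∀ Ω : (∀ p : ℕ, Set (Fin m → ZMod p)),
        (∀ p : ℕ, p.Prime → p ≡ 1 [MOD l] → w < p →
          ((Ω p).ncard : ℝ) = (p : ℝ) ^ m - ((p : ℝ) - 1) ^ m) →
        ∀ F : (Fin m → ℤ) →₀ ℝ, (∀ n, 0 ≤ F n) →
          (∀ n, F n ≤ rho m l B w * (C' * Real.log N)) → (∀ n ∈ F.support, ‖n‖ ≤ C₀ * N) →
          (∀ n ∈ F.support, ∀ p : ℕ, p.Prime → p ≡ 1 [MOD l] → w < p → (p : ℝ) ≤ N →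
            (fun i => (n i : ZMod p)) ∉ Ω p) →
          (F.sum fun _ a => a) ≤ C₁ * N ^ m ∧
          (F.sum fun _ a => a ^ 2) ≤ C₁ * Real.log N * N ^ m ∧
          ∀ K : ℕ, (w : ℝ) * 2 ^ K ≤ N ^ (1 / 8 : ℝ) →
            mass F (arcs m N (w * 2 ^ K)) ≤ C₁ * (1 + ε) ^ K * N ^ m := by
  obtain ⟨c, hc, hH⟩ := H_lower l hl m hm B hB
  obtain ⟨cL, hcL, hL⟩ := mass_lower m C₀ hC₀
  set C₂ : ℝ := C' / (c * cL) with hC₂
  have hC20 : 0 < C₂ := by positivity
  refine ⟨C₂ * (1 + C' + C' / c), by positivity, fun ε hε => ?_⟩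
  obtain ⟨w₁, hw₁⟩ := hH ε hε
  refine ⟨max w₁ 1, fun w hw => ?_⟩
  have hw1 : 1 ≤ w := le_trans (le_max_right _ _) hw
  have hw1' : (1 : ℝ) ≤ w := by exact_mod_cast hw1
  filter_upwards [hw₁ w (le_trans (le_max_left _ _) hw), eventually_gt_atTop 1,
    (tendsto_rpow_atTop (show (0 : ℝ) < 1 / 8 by norm_num)).eventually_ge_atTop (w : ℝ),
    (tendsto_rpow_atTop (show (0 : ℝ) < 1 / 4 by norm_num)).eventually_gt_atTop (2 : ℝ)]
    with N hHN hN hwN h2N Ω hΩ F hF0 hFs hbox hav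
  have hN0 : 0 < N := by linarith
  have hlN : 0 < Real.log N := Real.log_pos hN
  have hρ := rho_pos m l B w
  have hρ1 := rho_le_one m l B w
  set S1 : ℝ := F.sum fun _ a => a with hS1
  have hS10 : 0 ≤ S1 := Finset.sum_nonneg fun n _ => hF0 n
  have hsq : (F.sum fun _ a => a ^ 2) ≤ rho m l B w * (C' * Real.log N) * S1 := by
    rw [hS1, Finsupp.sum, Finsupp.sum, Finset.mul_sum]
    apply Finset.sum_le_sum
    intro n _
    have := hF0 n
    have := hFs n
    nlinarith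
  have hmass : ∀ K : ℕ, (w : ℝ) * 2 ^ K ≤ N ^ (1 / 8 : ℝ) →
      mass F (arcs m N (w * 2 ^ K)) ≤ C' / c * (1 + ε) ^ K * S1 := by
    intro K hK
    obtain ⟨PP, hPP, hle⟩ := hHN K
    have h2K : (1 : ℝ) ≤ 2 ^ K := one_le_pow₀ (by norm_num)
    have hR : (1 : ℝ) ≤ w * 2 ^ K := by nlinarith
    have hwR : (w : ℝ) ≤ w * 2 ^ K := by nlinarith
    have hwp : ∀ p ∈ PP, w < p := fun p hp => by
      have := (hPP p hp).2.2.1
      exact_mod_cast hwR.trans_lt this
    have hsep : 2 * ((w : ℝ) * 2 ^ K) ^ 2 * (N ^ (1 / 4 : ℝ)) ^ 2 < N := by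
      have e1 : (N ^ (1 / 8 : ℝ)) ^ 2 = N ^ (1 / 4 : ℝ) := by
        rw [← Real.rpow_natCast, ← Real.rpow_mul hN0.le]; norm_num
      have e2 : (N ^ (1 / 4 : ℝ)) ^ 4 = N := by
        rw [← Real.rpow_natCast, ← Real.rpow_mul hN0.le]; norm_num
      have e3 : ((w : ℝ) * 2 ^ K) ^ 2 ≤ N ^ (1 / 4 : ℝ) := by
        rw [← e1]; exact pow_le_pow_left₀ (by linarith) hK 2
      set t := N ^ (1 / 4 : ℝ)
      have ht : 0 < t := by linarith
      calc 2 * ((w : ℝ) * 2 ^ K) ^ 2 * t ^ 2 ≤ 2 * t * t ^ 2 := by gcongr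
        _ < t * t * t ^ 2 := by gcongr
        _ = t ^ 4 := by ring
        _ = N := e2
    have hsv := sieve m N (w * 2 ^ K) (N ^ (1 / 4 : ℝ)) hR (by linarith) hsep PP
      (fun p hp => ⟨(hPP p hp).1, (hPP p hp).2.2.1⟩) Ω
      (fun p hp => by
        have h1 := hΩ p (hPP p hp).1 (hPP p hp).2.1 (hwp p hp)
        have h2 : (2 : ℝ) ≤ p := by exact_mod_cast (hPP p hp).1.two_le
        have h3 : (0 : ℝ) < ((p : ℝ) - 1) ^ m := pow_pos (by linarith) _
        have : ((Ω p).ncard : ℝ) < ((p ^ m : ℕ) : ℝ) := by push_cast; linarith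
        exact_mod_cast this) F
      (fun n hn p hp => hav n hn p (hPP p hp).1 (hPP p hp).2.1 (hwp p hp) (hPP p hp).2.2.2)
    have hcong : (∑ s ∈ PP.powerset with ((∏ p ∈ s, p : ℕ) : ℝ) ≤ N ^ (1 / 4 : ℝ),
        ∏ p ∈ s, (((Ω p).ncard : ℝ) / ((p : ℝ) ^ m - (Ω p).ncard))) =
        ∑ s ∈ PP.powerset with ((∏ p ∈ s, p : ℕ) : ℝ) ≤ N ^ (1 / 4 : ℝ),
          ∏ p ∈ s, (uu m p - 1) := by
      apply Finset.sum_congr rfl
      intro s hs
      apply Finset.prod_congr rfl
      intro p hp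
      have hp' : p ∈ PP := Finset.mem_powerset.1 (Finset.mem_filter.1 hs).1 hp
      exact uu_eq m (hPP p hp').1 _ (hΩ p (hPP p hp').1 (hPP p hp').2.1 (hwp p hp'))
    rw [hcong] at hsv
    set H := ∑ s ∈ PP.powerset with ((∏ p ∈ s, p : ℕ) : ℝ) ≤ N ^ (1 / 4 : ℝ),
          ∏ p ∈ s, (uu m p - 1)
    set μ := mass F (arcs m N (w * 2 ^ K))
    have hμ : 0 ≤ μ := mass_nonneg _ _
    have hE : 0 < (1 + ε) ^ K := by positivity
    have k1 : c * rho m l B w * Real.log N * μ ≤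
        (1 + ε) ^ K * (rho m l B w * (C' * Real.log N) * S1) := by
      calc _ ≤ (1 + ε) ^ K * H * μ := mul_le_mul_of_nonneg_right hle hμ
        _ = (1 + ε) ^ K * (H * μ) := by ring
        _ ≤ _ := mul_le_mul_of_nonneg_left (hsv.trans hsq) hE.le
    have k2 : (c * rho m l B w * Real.log N) * μ ≤
        (c * rho m l B w * Real.log N) * (C' / c * (1 + ε) ^ K * S1) := by
      refine k1.trans (le_of_eq ?_)
      field_simp
    exact le_of_mul_le_mul_left k2 (by positivity)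
  have hNm : 0 < N ^ m := by positivity
  have hS : S1 ≤ C₂ * N ^ m := by
    have h1 := hmass 0 (by simpa using hwN)
    simp only [pow_zero, mul_one] at h1
    have h2 := hL N w hN.le hw1' F hF0 hbox
    rw [← hS1] at h2
    have h3 : cL * S1 ^ 2 ≤ N ^ m * (C' / c * S1) :=
      h2.trans (mul_le_mul_of_nonneg_left h1 hNm.le)
    rcases hS10.eq_or_lt with h0 | h0
    · rw [← h0]; positivity
    · have h4 : (cL * S1) * S1 ≤ (cL * S1) * (C₂ * N ^ m) := by
        calc _ = cL * S1 ^ 2 := by ring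
          _ ≤ _ := h3
          _ = _ := by rw [hC₂]; field_simp
      exact le_of_mul_le_mul_left h4 (by positivity)
  have hq : 0 < C' / c := by positivity
  refine ⟨hS.trans ?_, hsq.trans ?_, fun K hK => (hmass K hK).trans ?_⟩
  · apply mul_le_mul_of_nonneg_right _ hNm.le
    nlinarith
  · calc rho m l B w * (C' * Real.log N) * S1 ≤ 1 * (C' * Real.log N) * (C₂ * N ^ m) := by gcongr
      _ = (C₂ * C') * Real.log N * N ^ m := by ring
      _ ≤ _ := by
        gcongr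
        linarith
  · calc C' / c * (1 + ε) ^ K * S1 ≤ C' / c * (1 + ε) ^ K * (C₂ * N ^ m) := by gcongr
      _ = (C₂ * (C' / c)) * (1 + ε) ^ K * N ^ m := by ring
      _ ≤ _ := by
        gcongr
        linarith

end Pool.Agent.MP_14ad9d_nt.Full.AddFAux

end
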