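import Pool.Agent.Mg.F14ad9d.Gf8592e
import Pool.Agent.Mg.F14ad9d.G140687
import Pool.Agent.Mg.F14ad9d.G051c44
import Pool.Agent.Mg.F14ad9d.G4fe0e0

section

set_option autoImplicit false

namespace Pool.Agent.MP_14ad9d_nt.Full

namespace Add0Aux

theorem geom_bound (τ : ℝ) (h0 : 0 ≤ τ) (h1 : τ < 1) (K : ℕ) :
    ∑ k ∈ Finset.range K, τ ^ k ≤ (1 - τ)⁻¹ := by
  rw [← tsum_geometric_of_lt_one h0 h1]
  exact (summable_geometric_of_lt_one h0 h1).sum_le_tsum _ fun k _ => by positivity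

theorem tail_bound (σ N c₀ w : ℝ) (C K : ℕ) (hC : 1 ≤ C) (hσ : 0 < σ) (hσC : σ ^ C = 2)
    (hN : 0 < N) (h1 : 2 * w ≤ N ^ (c₀ / 2)) (h2 : N ^ c₀ < w * 2 ^ (K + 1)) :
    σ⁻¹ ^ K * N ^ (c₀ / (2 * C)) ≤ 1 := by
  have hC' : (C : ℝ) ≠ 0 := by exact_mod_cast (by omega : C ≠ 0)
  have hp : 0 < N ^ (c₀ / 2) := Real.rpow_pos_of_pos hN _
  have h3 : N ^ c₀ = N ^ (c₀ / 2) * N ^ (c₀ / 2) := by
    rw [← Real.rpow_add hN]; congr 1; ring
  have h4 : N ^ (c₀ / 2) ≤ 2 ^ K := by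
    have h5 : w * 2 ^ (K + 1) ≤ N ^ (c₀ / 2) * 2 ^ K := by
      rw [pow_succ]
      nlinarith [mul_le_mul_of_nonneg_right h1 (by positivity : (0 : ℝ) ≤ 2 ^ K)]
    have h6 : N ^ (c₀ / 2) * N ^ (c₀ / 2) < N ^ (c₀ / 2) * 2 ^ K := by linarith
    exact (lt_of_mul_lt_mul_left h6 hp.le).le
  rw [← pow_le_one_iff_of_nonneg (by positivity) (by omega : C ≠ 0), mul_pow, ← pow_mul, mul_comm K,
    pow_mul, inv_pow, hσC, ← Real.rpow_natCast (N ^ _), ← Real.rpow_mul hN.le]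
  have h7 : c₀ / (2 * C) * C = c₀ / 2 := by field_simp
  rw [h7, inv_pow, inv_mul_le_iff₀ (by positivity), mul_one]
  exact h4

end Add0Aux

open Add0Aux

/-- the circle method for two functions with controlled mass on major arcs -/
theorem add0 {A : Type} [CommRing A] {m : ℕ} (hm : 0 < m) (b : Module.Basis (Fin m) ℤ A) (l : ℕ)
    (hl : 1 ≤ l) (δ C₀ C₁ c₀ : ℝ) (hδ : 0 < δ) (hC₀ : 0 < C₀) (hC₁ : 0 < C₁) (hc₀ : 0 < c₀) :
    ∃ ε : ℝ, 0 < ε ∧ ∃ c₁ : ℝ, 0 < c₁ ∧ ∃ w₀ : ℝ, ∀ w : ℝ, w₀ ≤ w → ∃ ε' : ℝ, 0 < ε' ∧ ∃ N₀ : ℝ,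
      ∀ N : ℝ, N₀ ≤ N → ∀ f g : (Fin m → ℤ) →₀ ℝ, (∀ n, 0 ≤ f n) →
        (∀ n ∈ f.support, ‖n‖ ≤ C₀ * N) → (δ * N ^ m ≤ f.sum fun _ a => a) →
        (∀ K : ℕ, w * 2 ^ K ≤ N ^ c₀ →
          mass f (arcs m N (w * 2 ^ K)) ≤ C₁ * (1 + ε) ^ K * N ^ m ∧
          mass g (arcs m N (w * 2 ^ K)) ≤ C₁ * (1 + ε) ^ K * N ^ m) →
        (f.sum fun _ a => a ^ 2) ≤ N ^ m * N ^ c₁ → (g.sum fun _ a => a ^ 2) ≤ N ^ m * N ^ c₁ →
        (∀ θ ∈ arcs m N w, ‖hat f θ - hat g θ‖ ≤ ε' * N ^ m) →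
        ∃ s : A, s ≠ 0 ∧ ∃ n, f n ≠ 0 ∧ g (n + b.equivFun (s ^ l)) ≠ 0 := by
  obtain ⟨C, hC1, hν⟩ := nu_exists hm b l hl
  choose! D hD N₁ hν using hν
  obtain ⟨c, hc, hlow⟩ := mass_lower m C₀ hC₀
  have hC' : (0 : ℝ) < C := by exact_mod_cast hC1
  obtain ⟨σ, hσ1, hσC⟩ : ∃ σ : ℝ, 1 < σ ∧ σ ^ C = 2 :=
    ⟨2 ^ (C : ℝ)⁻¹, Real.one_lt_rpow one_lt_two (by positivity),
      Real.rpow_inv_natCast_pow zero_le_two (by omega)⟩
  have hσ0 : 0 < σ := by linarith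
  obtain ⟨τ, hτ⟩ : ∃ τ : ℝ, τ = σ⁻¹ * (1 + (σ - 1) / 2) := ⟨_, rfl⟩
  have hτ0 : 0 ≤ τ := by rw [hτ]; exact mul_nonneg (by positivity) (by linarith)
  have hτ1 : τ < 1 := by rw [hτ, inv_mul_lt_iff₀ hσ0]; linarith
  have hτ2 : 0 < (1 - τ)⁻¹ := inv_pos.mpr (by linarith)
  obtain ⟨γ, hγ⟩ : ∃ γ : ℝ, γ = c * δ ^ 2 := ⟨_, rfl⟩
  have hγ0 : 0 < γ := by rw [hγ]; positivity
  obtain ⟨E, hE⟩ : ∃ E : ℝ, E = σ * C₁ * (1 - τ)⁻¹ + 1 := ⟨_, rfl⟩
  have hE0 : 0 < E := by rw [hE]; positivity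
  obtain ⟨η, hη0, hη1, hη2⟩ : ∃ η : ℝ, 0 < η ∧ η ≤ 1 / 2 ∧ η * E ≤ γ / 8 :=
    ⟨min (1 / 2) (γ / 8 / E), by positivity, min_le_left _ _,
      (le_div_iff₀ hE0).mp (min_le_right _ _)⟩
  obtain ⟨R, hR0, hRs⟩ : ∃ R : ℕ → ℝ, R 0 = 1 ∧ ∀ j, R (j + 1) = R j + D (R j) * η⁻¹ ^ C :=
    ⟨fun j => Nat.rec 1 (fun _ x => x + D x * η⁻¹ ^ C) j, rfl, fun _ => rfl⟩
  have hR1 : ∀ j, 1 ≤ R j := by
    intro j
    induction j with
    | zero => exact hR0.ge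
    | succ j ih =>
      have := hD _ ih
      rw [hRs]
      exact ih.trans (le_add_of_nonneg_right (by positivity))
  have hRm : Monotone R := monotone_nat_of_le_succ fun j => by
    have := hD _ (hR1 j)
    rw [hRs]
    exact le_add_of_nonneg_right (by positivity)
  obtain ⟨J, hJ⟩ := exists_nat_ge (4 * C₁ / γ)
  refine ⟨(σ - 1) / 2, by linarith, c₀ / (2 * C), by positivity, R J, fun w hw => ?_⟩
  have hw1 : 1 ≤ w := (hR1 J).trans hw
  have hw0 : 0 < w := by linarith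
  obtain ⟨ε', hε'⟩ : ∃ ε' : ℝ, ε' = γ / 4 / (C₁ + w * (2 * w) ^ m) := ⟨_, rfl⟩
  have hε0 : 0 < ε' := by rw [hε']; positivity
  have hε1 : ε' * (C₁ + w * (2 * w) ^ m) = γ / 4 := by rw [hε']; field_simp
  have hev : ∀ᶠ N : ℝ in Filter.atTop, 1 ≤ N ∧ 2 * w ≤ N ^ (c₀ / 2) ∧
      ∀ j ∈ Finset.range J, N₁ (R j) ≤ N :=
    (Filter.eventually_ge_atTop 1).and
      (((tendsto_rpow_atTop (by positivity : 0 < c₀ / 2)).eventually_ge_atTop _).and
        ((Filter.eventually_all_finset _).mpr fun j _ => Filter.eventually_ge_atTop _))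
  obtain ⟨N₀, hN₀⟩ := Filter.eventually_atTop.mp hev
  refine ⟨ε', hε0, N₀, fun N hN f g hf0 hfs hfm hmass hf2 hg2 hclose => ?_⟩
  obtain ⟨hN1, hNw, hNj⟩ := hN₀ N hN
  have hN0 : 0 < N := by linarith
  by_contra hcon
  have hno : ∀ s : A, s ≠ 0 → ∀ n, f n * g (n + b.equivFun (s ^ l)) = 0 := by
    intro s hs n
    by_contra h
    exact hcon ⟨s, hs, n, left_ne_zero_of_mul h, right_ne_zero_of_mul h⟩
  obtain ⟨T, hT⟩ : ∃ T : ℝ, T = N ^ m := ⟨_, rfl⟩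
  have hT0 : 0 < T := by rw [hT]; positivity
  rw [← hT] at hfm hmass hf2 hg2 hclose
  have hwc : w ≤ N ^ c₀ :=
    (by linarith : w ≤ N ^ (c₀ / 2)).trans (Real.rpow_le_rpow_of_exponent_le hN1 (by linarith))
  obtain ⟨K, hK1, hK2⟩ := exists_nat_pow_near (x := N ^ c₀ / w) (y := (2 : ℝ))
    ((one_le_div hw0).mpr hwc) one_lt_two
  rw [le_div_iff₀' hw0] at hK1
  rw [div_lt_iff₀' hw0] at hK2
  have htail := tail_bound σ N c₀ w C K hC1 hσ0 hσC hN0 hNw hK2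
  have hM0 : γ * T ≤ mass f (arcs m N (R 0)) := by
    have h1 := hlow N (R 0) hN1 (hR1 0) f hf0 hfs
    rw [← hT] at h1
    have h2 : (δ * T) ^ 2 ≤ (f.sum fun _ a => a) ^ 2 := pow_le_pow_left₀ (by positivity) hfm 2
    have h3 : T * (γ * T) ≤ T * mass f (arcs m N (R 0)) := by
      calc T * (γ * T) = c * (δ * T) ^ 2 := by rw [hγ]; ring
        _ ≤ _ := (mul_le_mul_of_nonneg_left h2 hc.le).trans h1
    exact le_of_mul_le_mul_left h3 hT0
  have hS0 : mass f (arcs m N (w * 2 ^ 0)) ≤ C₁ * T := by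
    have := (hmass 0 (by simpa using hwc)).1
    simpa using this
  have hvol : (muT m).real (arcs m N (w * 2 ^ 0)) * T ≤ w * (2 * w) ^ m := by
    rw [pow_zero, mul_one]
    refine (mul_le_mul_of_nonneg_right (vol_arcs m N w hN0 hw0.le) hT0.le).trans (le_of_eq ?_)
    rw [hT, mul_assoc, ← mul_pow]
    congr 2
    field_simp
  have hshell : ∑ k ∈ Finset.range (K + 1), σ⁻¹ ^ k *
      (mass f (arcs m N (w * 2 ^ k)) + mass g (arcs m N (w * 2 ^ k))) ≤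
      2 * C₁ * T * (1 - τ)⁻¹ := by
    refine le_trans (Finset.sum_le_sum (g := fun k => 2 * C₁ * T * τ ^ k) fun k hk => ?_) ?_
    · have h1 : w * 2 ^ k ≤ N ^ c₀ := le_trans (mul_le_mul_of_nonneg_left
        (pow_le_pow_right₀ one_le_two (Nat.lt_succ_iff.mp (Finset.mem_range.mp hk))) hw0.le) hK1
      obtain ⟨h2, h3⟩ := hmass k h1
      refine (mul_le_mul_of_nonneg_left (add_le_add h2 h3) (by positivity)).trans (le_of_eq ?_)
      rw [hτ, mul_pow]; ring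
    · rw [← Finset.mul_sum]
      exact mul_le_mul_of_nonneg_left (geom_bound τ hτ0 hτ1 _) (by positivity)
  have huniv : σ⁻¹ ^ K * (mass f Set.univ + mass g Set.univ) ≤ 2 * T := by
    rw [mass_univ, mass_univ]
    refine (mul_le_mul_of_nonneg_left (add_le_add hf2 hg2) (by positivity)).trans ?_
    nlinarith [mul_le_mul_of_nonneg_left htail hT0.le]
  have hstep : ∀ j, j < J → γ * T ≤ mass f (arcs m N (R j)) →
      mass f (arcs m N (R j)) + γ / 4 * T ≤ mass f (arcs m N (R (j + 1))) := by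
    intro j hj hMj
    obtain ⟨ν, hνc, hν1, hνA, hνη, hν0⟩ := hν (R j) (hR1 j) N (hNj j (Finset.mem_range.mpr hj))
    have hDj : D (R j) * η⁻¹ ^ C ≤ R (j + 1) := by
      rw [hRs]; exact le_add_of_nonneg_left (by linarith [hR1 j])
    have hjw : R (j + 1) ≤ w := (hRm hj).trans hw
    have H := step f g ν hνc hν1 (arcs m N (R j)) (arcs m N (R (j + 1)))
      (fun k => arcs m N (w * 2 ^ k)) (measurableSet_arcs _ _ _) (measurableSet_arcs _ _ _)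
      (fun k => measurableSet_arcs _ _ _) (arcs_mono m hN0 (hRm (Nat.le_succ j)))
      (arcs_mono m hN0 (by simpa using hjw)) η σ⁻¹ (ε' * T) T hη0.le (by positivity)
      (inv_le_one_of_one_le₀ hσ1.le) (by positivity) hT0 hνA
      (fun θ hθ => by
        by_contra h
        exact hθ (arcs_mono m hN0 hDj (hνη η hη0 hη1 θ (not_le.mp h).le)))
      (fun k θ hθ => by
        by_contra h
        have h1 : η * σ⁻¹ ^ k ≤ 1 / 2 := le_trans (mul_le_of_le_one_right hη0.le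
          (pow_le_one₀ (by positivity) (inv_le_one_of_one_le₀ hσ1.le))) hη1
        refine hθ (arcs_mono m hN0 ?_ (hνη _ (by positivity) h1 θ (not_le.mp h).le))
        have h2 : (η * σ⁻¹ ^ k)⁻¹ ^ C = η⁻¹ ^ C * 2 ^ k := by
          rw [mul_inv, mul_pow, inv_pow σ, inv_inv, ← pow_mul, mul_comm k, pow_mul, hσC]
        rw [h2, ← mul_assoc]
        exact mul_le_mul_of_nonneg_right (hDj.trans hjw) (by positivity))
      (fun θ hθ => hclose θ (by simpa using hθ)) (hν0 f g hno) K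
    rw [inv_inv] at H
    have h1 : ε' * T / (2 * T) * mass f (arcs m N (w * 2 ^ 0)) ≤ ε' / 2 * (C₁ * T) := by
      have : ε' * T / (2 * T) = ε' / 2 := by field_simp
      rw [this]
      exact mul_le_mul_of_nonneg_left hS0 (by positivity)
    have h2 : ε' * T * T / 2 * (muT m).real (arcs m N (w * 2 ^ 0)) ≤
        ε' * T / 2 * (w * (2 * w) ^ m) := by
      calc _ = ε' * T / 2 * ((muT m).real (arcs m N (w * 2 ^ 0)) * T) := by ring
        _ ≤ _ := mul_le_mul_of_nonneg_left hvol (by positivity)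
    have h3 : ε' / 2 * (C₁ * T) + ε' * T / 2 * (w * (2 * w) ^ m) = γ / 8 * T := by
      calc _ = ε' * (C₁ + w * (2 * w) ^ m) * T / 2 := by ring
        _ = _ := by rw [hε1]; ring
    have h4 := mul_le_mul_of_nonneg_left
      (add_le_add (mul_le_mul_of_nonneg_left hshell hσ0.le) huniv) (by positivity : 0 ≤ η / 2)
    have h5 : η / 2 * (σ * (2 * C₁ * T * (1 - τ)⁻¹) + 2 * T) ≤ γ / 8 * T := by
      calc _ = η * E * T := by rw [hE]; ring
        _ ≤ _ := mul_le_mul_of_nonneg_right hη2 hT0.le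
    linarith
  have hind : ∀ j, j ≤ J → γ * T + j * (γ / 4 * T) ≤ mass f (arcs m N (R j)) := by
    intro j
    induction j with
    | zero => intro _; simpa using hM0
    | succ j ih =>
      intro hj
      have h1 := ih (by omega)
      have h2 := hstep j (by omega) (le_trans (le_add_of_nonneg_right (by positivity)) h1)
      push_cast
      linarith
  have h1 := hind J le_rfl
  have h2 : mass f (arcs m N (R J)) ≤ C₁ * T :=
    (mass_mono f (arcs_mono m hN0 (by simpa using hw))).trans hS0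
  rw [div_le_iff₀ hγ0] at hJ
  nlinarith [mul_le_mul_of_nonneg_right hJ hT0.le, mul_pos hγ0 hT0]

end Pool.Agent.MP_14ad9d_nt.Full

end

section

set_option autoImplicit false

open Filter Topology

namespace Pool.Agent.MP_14ad9d_nt.Full.AddFAux

variable {A : Type} [CommRing A] {m : ℕ} (b : Module.Basis (Fin m) ℤ A)

lemma box_pull (α W W' : A) (M₀ : ℕ) (hWW : W * W' = M₀) (κ : ℝ) (hκ : 0 < κ) (hκM : κ ≤ M₀)
    (Cr : ℝ) (hCr : 0 < Cr) (h : ∀ y, ‖b.equivFun (W' * y)‖ ≤ Cr * ‖b.equivFun y‖) (C X : ℝ)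
    (hX : ‖b.equivFun α‖ ≤ X) (n : Fin m → ℤ) (hn : ‖b.equivFun (iota b α W n)‖ ≤ C * X) :
    ‖n‖ ≤ Cr * (|C| + 1) * (X / κ) := by
  have hX0 : 0 ≤ X := (norm_nonneg _).trans hX
  rw [pi_norm_le_iff_of_nonneg (by positivity)]
  intro i
  have h1 : W' * (iota b α W n - α) = (M₀ : A) * b.equivFun.symm n := by
    rw [iota, ← hWW]; ring
  have h2 := (norm_le_pi_norm _ i).trans (h (iota b α W n - α))
  rw [h1, equivFun_natCast_mul, LinearEquiv.apply_symm_apply, norm_mul, Int.norm_natCast,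
    map_sub] at h2
  have h3 := norm_sub_le (b.equivFun (iota b α W n)) (b.equivFun α)
  have h4 : C * X ≤ |C| * X := mul_le_mul_of_nonneg_right (le_abs_self C) hX0
  rw [← mul_div_assoc, le_div_iff₀ hκ]
  calc ‖n i‖ * κ ≤ ‖n i‖ * M₀ := by gcongr
    _ = M₀ * ‖n i‖ := mul_comm _ _
    _ ≤ Cr * ‖b.equivFun (iota b α W n) - b.equivFun α‖ := h2
    _ ≤ Cr * ((|C| + 1) * X) := by
        apply mul_le_mul_of_nonneg_left _ hCr.le
        linarith
    _ = _ := by ring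

lemma pigeon [IsDomain A] (W : A) (hW : W ≠ 0) (Adm : Finset A) (φ : A →₀ ℝ) (h0 : ∀ a, 0 ≤ φ a)
    (hc : ∀ a, φ a ≠ 0 → ∃ α ∈ Adm, W ∣ a - α) (ρ : ℝ) (hρ : 0 < ρ) (T y : ℝ) (hy : 0 < y)
    (hT : (Adm.card : ℝ) ≤ T) (hs : T * y ≤ ρ * φ.sum fun _ x => x) (hne : 0 < T) :
    ∃ α ∈ Adm, y ≤ (pull _ (iota_inj b α W hW) ρ φ).sum fun _ x => x := by
  classical
  by_contra hcon
  push Not at hcon
  have h1 : ρ * (φ.sum fun _ x => x) ≤
      ∑ α ∈ Adm, (pull _ (iota_inj b α W hW) ρ φ).sum fun _ x => x := by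
    simp only [pull_sum _ _ ρ φ (fun _ x => x) (fun _ => rfl)]
    simp only [Finsupp.sum, Finset.mul_sum]
    rw [Finset.sum_comm]
    apply Finset.sum_le_sum
    intro a ha
    obtain ⟨α, hα, hd⟩ := hc a (Finsupp.mem_support_iff.1 ha)
    have hpos : ∀ α' ∈ Adm, 0 ≤ if a ∈ Set.range (iota b α' W) then ρ * φ a else 0 := by
      intro α' _
      split_ifs
      · exact mul_nonneg hρ.le (h0 a)
      · exact le_rfl
    have := Finset.single_le_sum hpos hα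
    rwa [if_pos ((mem_range_iota b α W a).2 hd)] at this
  rcases Adm.eq_empty_or_nonempty with he | he
  · rw [he, Finset.sum_empty] at h1
    have := mul_pos hne hy
    linarith
  · have h2 := Finset.sum_lt_sum_of_nonempty he hcon
    rw [Finset.sum_const, nsmul_eq_mul] at h2
    have := mul_le_mul_of_nonneg_right hT hy.le
    linarith

theorem addG [IsDomain A] [CharZero A] (hm0 : 0 < m) (l : ℕ) (hl : l.Prime)
    (hm : (l : ℝ) - 1 = m) (φ : ∀ p : ℕ, A →ₙ+* (Fin m → ZMod p))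
    (hφ : ∀ p : ℕ, p.Prime → p ≡ 1 [MOD l] → Function.Surjective (φ p))
    (r r' : A) (Nr : ℕ) (hNr : Nr ≠ 0) (hr : r * r' = Nr) (B : ℕ) (hB : B ≠ 0)
    (f g : ℝ → (A →₀ ℝ)) (C δ : ℝ) (hδ : 0 < δ)
    (hf0 : ∀ X a, 0 ≤ f X a) (hg0 : ∀ X a, 0 ≤ g X a)
    (hsup : ∀ᶠ X : ℝ in atTop, ∀ a, f X a ≤ C * Real.log X ∧ g X a ≤ C * Real.log X)
    (hbox : ∀ᶠ X : ℝ in atTop, ∀ a, (f X a ≠ 0 ∨ g X a ≠ 0) → ‖b.equivFun a‖ ≤ C * X)
    (hprime : ∀ᶠ X : ℝ in atTop, ∀ a, (f X a ≠ 0 ∨ g X a ≠ 0) → ∀ p : ℕ, p.Prime →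
      p ≡ 1 [MOD l] → ¬ p ∣ B → (p : ℝ) < X → ∀ i, φ p a i ≠ 0)
    (hmass : ∃ᶠ X : ℝ in atTop, δ * X ^ m ≤ (f X).sum fun _ x => x)
    (hequi : Equi b f g) (X₀ : ℝ) :
    ∃ X : ℝ, X₀ ≤ X ∧ ∃ a a' t : A, f X a ≠ 0 ∧ g X a' ≠ 0 ∧ t ≠ 0 ∧ (l : A) ∣ t ∧
      a' - a = r * t ^ l := by
  classical
  obtain ⟨Cr, hCr, hCr'⟩ := norm_mul_le b r'
  have hNr' : (1 : ℝ) ≤ Nr := by exact_mod_cast Nat.one_le_iff_ne_zero.2 hNr
  obtain ⟨C₁, hC₁, hbd⟩ := bounds l hl m hm B hB (2 * (|C| + 1)) (Cr * (|C| + 1))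
    (by positivity) (by positivity)
  obtain ⟨ε, hε, c₁, hc₁, w₀, hadd⟩ := add0 hm0 b l hl.one_le (δ / Nr ^ m) (Cr * (|C| + 1)) C₁
    (1 / 8) (by positivity) (by positivity) hC₁ (by norm_num)
  obtain ⟨w₁, hbd⟩ := hbd ε hε
  obtain ⟨w, hw0, hw1, hwB, hwl, hwN⟩ :
      ∃ w : ℕ, ⌈w₀⌉₊ ≤ w ∧ w₁ ≤ w ∧ B ≤ w ∧ l ≤ w ∧ Nr ≤ w :=
    ⟨⌈w₀⌉₊ + w₁ + B + l + Nr, by omega, by omega, by omega, by omega, by omega⟩
  obtain ⟨ε', hε', N₀, hadd⟩ := hadd w (Nat.ceil_le.1 hw0)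
  replace hbd := hbd w hw1
  set P : ℕ := w.factorial with hP
  have hP2 : 2 ≤ P := (hl.two_le.trans hwl).trans (Nat.self_le_factorial w)
  set κ : ℝ := (P : ℝ) ^ l with hκdef
  have hκ1 : 1 < κ := one_lt_pow₀ (by exact_mod_cast hP2) hl.ne_zero
  have hκ : 0 < κ := by linarith
  set M₀ : ℕ := Nr * P ^ l with hM₀def
  have hM₀ : M₀ ≠ 0 := mul_ne_zero hNr (pow_ne_zero _ (by omega))
  have hM₀' : (M₀ : ℝ) = Nr * κ := by rw [hM₀def, hκdef]; push_cast; rfl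
  set W : A := r * (P : A) ^ l with hWdef
  have hWW : W * r' = M₀ := by rw [hWdef, hM₀def]; push_cast; rw [← hr]; ring
  have hW : W ≠ 0 := by
    intro h
    rw [h, zero_mul] at hWW
    exact hM₀ (by exact_mod_cast hWW.symm)
  have hbig : ∀ p : ℕ, p.Prime → w < p → ¬ p ∣ M₀ ∧ ¬ p ∣ B := by
    intro p hp hwp
    refine ⟨fun h => ?_, fun h => ?_⟩
    · rcases (Nat.Prime.dvd_mul hp).1 h with h | h
      · have := Nat.le_of_dvd (Nat.pos_of_ne_zero hNr) h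
        omega
      · have := (Nat.Prime.dvd_factorial hp).1 (hp.dvd_of_dvd_pow h)
        omega
    · have := Nat.le_of_dvd (Nat.pos_of_ne_zero hB) h
      omega
  set ρ := rho m l B w with hρdef
  have hρ : 0 < ρ := rho_pos m l B w
  have hten : Tendsto (fun X : ℝ => X / κ) atTop atTop := tendsto_id.atTop_div_const hκ
  have hSS : ∀ p ∈ SS l B w, p.Prime ∧ p ≡ 1 [MOD l] ∧ ¬ p ∣ B ∧ p ≤ w := fun p hp => by
    rw [SS, Finset.mem_filter, Finset.mem_range] at hp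
    exact ⟨hp.2.1, hp.2.2.1, hp.2.2.2, by omega⟩
  obtain ⟨Adm, hAc, hAdm⟩ := admissible b (SS l B w) (fun p hp => (hSS p hp).1) φ
    (fun p hp => hφ p (hSS p hp).1 (hSS p hp).2.1) M₀ hM₀ (fun p hp =>
      Dvd.dvd.mul_left (dvd_pow ((Nat.Prime.dvd_factorial (hSS p hp).1).2 (hSS p hp).2.2.2)
        hl.ne_zero) _)
  have key : ∀ α : A, ∀ᶠ X : ℝ in atTop,
      (δ / Nr ^ m * (X / κ) ^ m ≤ (pull _ (iota_inj b α W hW) ρ (f X)).sum fun _ x => x) →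
      ∃ a a' t : A, f X a ≠ 0 ∧ g X a' ≠ 0 ∧ t ≠ 0 ∧ (l : A) ∣ t ∧ a' - a = r * t ^ l := by
    intro α
    have hΩ : ∀ p : ℕ, ∃ Ω : Set (Fin m → ZMod p), p.Prime → p ≡ 1 [MOD l] → w < p →
        (Ω.ncard : ℝ) = (p : ℝ) ^ m - ((p : ℝ) - 1) ^ m ∧
        ∀ n : Fin m → ℤ, (∀ i, φ p (α + W * b.equivFun.symm n) i ≠ 0) →
          (fun i => (n i : ZMod p)) ∉ Ω := by
      intro p
      by_cases h : p.Prime ∧ p ≡ 1 [MOD l] ∧ w < p
      · obtain ⟨Ω, h'⟩ := omega b h.1 (φ p) (hφ p h.1 h.2.1) α W r' M₀ hWW (hbig p h.1 h.2.2).1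
        exact ⟨Ω, fun _ _ _ => h'⟩
      · exact ⟨∅, fun h1 h2 h3 => absurd ⟨h1, h2, h3⟩ h⟩
    choose Ω hΩ using hΩ
    have hall : ∀ᶠ X : ℝ in atTop, ∀ ψ : A →₀ ℝ, (ψ = f X ∨ ψ = g X) →
        (∀ n ∈ (pull _ (iota_inj b α W hW) ρ ψ).support, ‖n‖ ≤ Cr * (|C| + 1) * (X / κ)) ∧
        ((pull _ (iota_inj b α W hW) ρ ψ).sum fun _ a => a) ≤ C₁ * (X / κ) ^ m ∧
        ((pull _ (iota_inj b α W hW) ρ ψ).sum fun _ a => a ^ 2) ≤
          C₁ * Real.log (X / κ) * (X / κ) ^ m ∧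
        ∀ K : ℕ, (w : ℝ) * 2 ^ K ≤ (X / κ) ^ (1 / 8 : ℝ) →
          mass (pull _ (iota_inj b α W hW) ρ ψ) (arcs m (X / κ) (w * 2 ^ K)) ≤
            C₁ * (1 + ε) ^ K * (X / κ) ^ m := by
      filter_upwards [hsup, hbox, hprime, hten.eventually hbd, eventually_ge_atTop ‖b.equivFun α‖,
        hten.eventually_ge_atTop κ, eventually_gt_atTop 1] with X hsup hbox hprime hbd hα hκX hX1
      intro ψ hψ
      have hne : ∀ n ∈ (pull _ (iota_inj b α W hW) ρ ψ).support,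
          f X (iota b α W n) ≠ 0 ∨ g X (iota b α W n) ≠ 0 := by
        intro n hn
        rw [Finsupp.mem_support_iff, pull_apply] at hn
        have := right_ne_zero_of_mul hn
        rcases hψ with rfl | rfl
        exacts [Or.inl this, Or.inr this]
      have hψ0 : ∀ a, 0 ≤ ψ a := by
        rcases hψ with rfl | rfl
        exacts [hf0 X, hg0 X]
      have hψs : ∀ a, ψ a ≤ C * Real.log X := by
        rcases hψ with rfl | rfl
        exacts [fun a => (hsup a).1, fun a => (hsup a).2]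
      have hb1 : ∀ n ∈ (pull _ (iota_inj b α W hW) ρ ψ).support,
          ‖n‖ ≤ Cr * (|C| + 1) * (X / κ) := fun n hn =>
        box_pull b α W r' M₀ hWW κ hκ (by rw [hM₀']; nlinarith) Cr hCr hCr' C X hα n
          (hbox _ (hne n hn))
      refine ⟨hb1, hbd Ω (fun p h1 h2 h3 => (hΩ p h1 h2 h3).1) _ (fun n => ?_) (fun n => ?_) hb1
        (fun n hn p h1 h2 h3 h4 => ?_)⟩
      · rw [pull_apply]
        exact mul_nonneg hρ.le (hψ0 _)
      · rw [pull_apply]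
        refine mul_le_mul_of_nonneg_left ((hψs _).trans ?_) hρ.le
        have h1 : 0 < Real.log X := Real.log_pos hX1
        have h2 : Real.log κ ≤ Real.log (X / κ) := Real.log_le_log hκ hκX
        have h3 : Real.log (X / κ) = Real.log X - Real.log κ :=
          Real.log_div (by linarith) hκ.ne'
        have h4 := le_abs_self C
        have h5 := abs_nonneg C
        nlinarith
      · refine (hΩ p h1 h2 h3).2 n (hprime _ (hne n hn) p h1 h2 (hbig p h1 h3).2 ?_)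
        exact h4.trans_lt (div_lt_self (by linarith) hκ1)
    have harc := arcs_small (fun X => pull _ (iota_inj b α W hW) ρ (f X))
      (fun X => pull _ (iota_inj b α W hW) ρ (g X)) κ hκ w (Cr * (|C| + 1)) C₁ (by positivity) hC₁
      (fun X n => by rw [pull_apply]; exact mul_nonneg hρ.le (hf0 _ _))
      (fun X n => by rw [pull_apply]; exact mul_nonneg hρ.le (hg0 _ _))
      (hall.mono fun X h => ⟨(h _ (Or.inl rfl)).1, (h _ (Or.inr rfl)).1, (h _ (Or.inl rfl)).2.1,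
        (h _ (Or.inr rfl)).2.1⟩)
      (fun θ' hθ β ε hε => pointwise b hequi α W r' hW M₀ hM₀ hWW ρ κ hκ _ w.factorial_ne_zero θ'
        hθ β ε hε) ε' hε'
    have hlog : ∀ᶠ N : ℝ in atTop, C₁ * Real.log N ≤ N ^ c₁ := by
      have := (isLittleO_log_rpow_atTop hc₁).bound (show 0 < 1 / C₁ by positivity)
      filter_upwards [this, eventually_ge_atTop 0] with N h hN
      rw [Real.norm_eq_abs, Real.norm_eq_abs, abs_of_nonneg (Real.rpow_nonneg hN _)] at h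
      have h2 := mul_le_mul_of_nonneg_left ((le_abs_self _).trans h) hC₁.le
      rwa [← mul_assoc, mul_one_div_cancel hC₁.ne', one_mul] at h2
    filter_upwards [hall, harc, hten.eventually hlog, hten.eventually_ge_atTop N₀,
      hten.eventually_ge_atTop 0] with X hall harc hlog hN₀ hN0 hms
    have hF := hall _ (Or.inl rfl)
    have hG := hall _ (Or.inr rfl)
    have hsq : C₁ * Real.log (X / κ) * (X / κ) ^ m ≤ (X / κ) ^ m * (X / κ) ^ c₁ := by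
      rw [mul_comm]
      exact mul_le_mul_of_nonneg_left hlog (by positivity)
    obtain ⟨s, hs, n, h1, h2⟩ := hadd (X / κ) hN₀ _ _
      (fun n => by rw [pull_apply]; exact mul_nonneg hρ.le (hf0 _ _)) hF.1 hms
      (fun K hK => ⟨hF.2.2.2 K hK, hG.2.2.2 K hK⟩) (hF.2.2.1.trans hsq) (hG.2.2.1.trans hsq) harc
    rw [pull_apply] at h1 h2
    refine ⟨_, _, (P : A) * s, right_ne_zero_of_mul h1, right_ne_zero_of_mul h2,
      mul_ne_zero (by exact_mod_cast (by omega : P ≠ 0)) hs,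
      Dvd.dvd.mul_right (Nat.cast_dvd_cast ((Nat.Prime.dvd_factorial hl).2 hwl)) _, ?_⟩
    rw [iota, iota, map_add, LinearEquiv.symm_apply_apply, hWdef]
    ring
  obtain ⟨X, hX1, hX2, hX3, hX4, hX5, hX6⟩ := (hmass.and_eventually
    (((eventually_all_finset Adm).2 fun α _ => key α).and (hprime.and
      ((eventually_gt_atTop (w : ℝ)).and ((eventually_ge_atTop X₀).and
        (eventually_gt_atTop 0)))))).exists
  obtain ⟨α, hα, h⟩ := pigeon b W hW Adm (f X) (hf0 X) (fun a ha => by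
      obtain ⟨α, hα, hd⟩ := hAdm a (fun p hp => hX3 a (Or.inl ha) p (hSS p hp).1 (hSS p hp).2.1
        (hSS p hp).2.2.1 (lt_of_le_of_lt (by exact_mod_cast (hSS p hp).2.2.2) hX4))
      exact ⟨α, hα, (Dvd.intro _ hWW).trans hd⟩) ρ hρ ((M₀ : ℝ) ^ m * ρ)
    (δ / Nr ^ m * (X / κ) ^ m) (by positivity) hAc (by
      refine le_trans (le_of_eq ?_) (mul_le_mul_of_nonneg_left hX1 hρ.le)
      rw [hM₀', mul_pow, div_pow]
      field_simp) (by rw [hM₀']; positivity)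
  exact ⟨X, hX5, hX2 α hα h⟩

end Pool.Agent.MP_14ad9d_nt.Full.AddFAux

end
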