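import Pool.Agent.MP_14ad9d_nt.Full.Torus
import Pool.Agent.MP_14ad9d_nt.Full.ED
import Pool.Agent.MP_14ad9d_nt.Full.WA

section

set_option autoImplicit false

open NumberField

namespace Pool.Agent.MP_14ad9d_nt.Full.HeckeOfAux

/-- extension of a character from the image of a monoid -/
theorem ext_hom {S G : Type} [CommMonoid S] [CommGroup G] (φ : S →* G) (f : S →* Circle)
    (h : ∀ a b, φ a = φ b → f a = f b) : ∃ g : G →* Circle, ∀ a, g (φ a) = f a := by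
  let H : Subgroup (G × Circle) :=
    { carrier := {p | ∃ a b, p = (φ a / φ b, f a / f b)}
      one_mem' := ⟨1, 1, by simp [Prod.ext_iff]⟩
      mul_mem' := by
        rintro _ _ ⟨a, b, rfl⟩ ⟨c, d, rfl⟩
        exact ⟨a * c, b * d, by simp [mul_div_mul_comm]⟩
      inv_mem' := by
        rintro _ ⟨a, b, rfl⟩
        exact ⟨b, a, by simp⟩ }
  let i : H →* G := (MonoidHom.fst G Circle).comp H.subtype
  let j : H →* Circle := (MonoidHom.snd G Circle).comp H.subtype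
  have hi : Function.Injective i := by
    rw [injective_iff_map_eq_one]
    rintro ⟨_, a, b, rfl⟩ hab
    have h1 : φ a / φ b = 1 := hab
    have h2 := h a b (div_eq_one.1 h1)
    apply Subtype.ext
    simp [h1, h2]
  let : DivisibleBy (Additive Circle) ℤ := divisibleByOfSMulRightSurj _ _ fun {n} hn z => by
    obtain ⟨t, ht⟩ := Circle.exp_surjective (Additive.toMul z)
    refine ⟨Additive.ofMul (Circle.exp (t / n)), ?_⟩
    have hn' : (n : ℝ) ≠ 0 := by exact_mod_cast hn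
    apply Additive.toMul.injective
    simp only [toMul_zsmul, toMul_ofMul]
    rw [← ht, ← Circle.exp_intCast_mul]
    congr 1
    field_simp
  obtain ⟨g, hg⟩ := (Module.Baer.of_divisible (Additive Circle)).extension_property_addMonoidHom
    (MonoidHom.toAdditive i) hi (MonoidHom.toAdditive j)
  refine ⟨MonoidHom.toAdditive.symm g, fun a => ?_⟩
  have := DFunLike.congr_fun hg (Additive.ofMul (⟨(φ a, f a), a, 1, by simp⟩ : H))
  exact congr_arg Additive.toMul this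

variable (F : Type) [Field F] [NumberField F] {K : Type} [Field K] [NumberField K] [Algebra F K]

/-- the norm map on vectors -/
noncomputable def nrm (z : (K →+* ℂ) → ℂ) : (F →+* ℂ) → ℂ := fun φ =>
  letI := φ.toAlgebra
  ∏ σ : K →ₐ[F] ℂ, z σ.toRingHom

theorem nrm_emb (x : K) : nrm F (emb x) = emb (Algebra.norm F x) := by
  funext φ
  let := φ.toAlgebra
  exact (Algebra.norm_eq_prod_embeddings F ℂ x).symm

theorem nrm_mem {z : (K →+* ℂ) → ℂ} (hz : z ∈ NZ K) : nrm F z ∈ NZ F := fun _ =>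
  Finset.prod_ne_zero_iff.2 fun _ _ => hz _

theorem nrm_smul (t : ℝ) (z : (K →+* ℂ) → ℂ) :
    nrm F (t • z) = t ^ Module.finrank F K • nrm F z := by
  funext φ
  let := φ.toAlgebra
  simp only [nrm, Pi.smul_apply, Complex.real_smul, Finset.prod_mul_distrib, Finset.prod_const,
    Finset.card_univ, AlgHom.card, Complex.ofReal_pow]

theorem nrm_contDiff : ContDiff ℝ 1 (nrm F : ((K →+* ℂ) → ℂ) → (F →+* ℂ) → ℂ) := by
  refine contDiff_pi.2 fun φ => ?_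
  unfold nrm
  exact contDiff_prod fun σ _ => contDiff_apply ℝ ℂ _

theorem lip_comp (ψ : Chr F) :
    LocallyLipschitzOn (NZ K) (fun z : (K →+* ℂ) → ℂ => ψ.val (nrm F z)) := by
  intro z hz
  obtain ⟨K1, t, ht, h1⟩ := ψ.lip (nrm_mem F hz)
  obtain ⟨K2, s, hs, h2⟩ := (nrm_contDiff F (K := K)).locallyLipschitz z
  have hc : ContinuousWithinAt (nrm F) (NZ K) z :=
    (nrm_contDiff F (K := K)).continuous.continuousWithinAt
  have hpre : nrm F ⁻¹' t ∈ nhdsWithin z (NZ K) :=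
    hc.tendsto_nhdsWithin (fun w hw => nrm_mem F hw) ht
  refine ⟨K1 * K2, s ∩ nrm F ⁻¹' t, Filter.inter_mem (mem_nhdsWithin_of_mem_nhds hs) hpre, ?_⟩
  exact h1.comp (h2.mono Set.inter_subset_left) fun w hw => hw.2

variable {F}

/-- the square of an archimedean character -/
def dbl (ψ : Chr F) : Chr F where
  n φ := 2 * ψ.n φ
  t φ := 2 * ψ.t φ
  ht := by rw [← Finset.mul_sum, ψ.ht, mul_zero]

theorem dbl_val (ψ : Chr F) (y : (F →+* ℂ) → ℂ) : (dbl ψ).val y = ψ.val y ^ 2 := by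
  unfold Chr.val dbl
  rw [← Finset.prod_pow]
  refine Finset.prod_congr rfl fun φ _ => ?_
  dsimp only
  rw [mul_pow, ← Complex.exp_nat_mul, mul_comm 2 (ψ.n φ), zpow_mul]
  refine congr_arg₂ (· * ·) (zpow_ofNat _ 2) ?_
  push_cast
  congr 1
  ring

theorem norm_mulChar {R : Type} [CommRing R] [Finite R] (χ : MulChar R ℂ) {x : R} (hx : IsUnit x) :
    ‖χ x‖ = 1 := by
  obtain ⟨u, rfl⟩ := hx
  have h1 : χ u ^ orderOf u = 1 := by
    rw [← map_pow, ← Units.val_pow_eq_pow_val, pow_orderOf_eq_one, Units.val_one, map_one]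
  exact Complex.norm_eq_one_of_pow_eq_one h1 (orderOf_pos u).ne'

theorem coprime_iff {R : Type} [CommRing R] (a m : R) :
    IsCoprime (Ideal.span {a}) (Ideal.span {m}) ↔
      IsUnit (Ideal.Quotient.mk (Ideal.span {m}) a) := by
  rw [Ideal.isCoprime_span_singleton_iff]
  constructor
  · rintro ⟨u, v, h⟩
    refine IsUnit.of_mul_eq_one (Ideal.Quotient.mk _ u) ?_
    rw [← map_mul, ← map_one (Ideal.Quotient.mk _), Ideal.Quotient.eq, Ideal.mem_span_singleton]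
    exact ⟨-v, by linear_combination h⟩
  · intro h
    obtain ⟨w, hw⟩ := h.exists_right_inv
    obtain ⟨u, rfl⟩ := Ideal.Quotient.mk_surjective w
    rw [← map_mul, ← map_one (Ideal.Quotient.mk _), Ideal.Quotient.eq,
      Ideal.mem_span_singleton] at hw
    obtain ⟨c, hc⟩ := hw
    exact ⟨u, -c, by linear_combination hc⟩

open Classical in
/-- orthogonality of characters -/
theorem chars (G : Type) [CommGroup G] [Finite G] : ∃ (n : ℕ) (ω : Fin n → G →* ℂ), n ≠ 0 ∧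
    ∀ g, ∑ j, ω j g = if g = 1 then (n : ℂ) else 0 := by
  let := Fintype.ofFinite G
  let e := Fintype.equivFin (AddChar (Additive G) ℂ)
  refine ⟨Fintype.card (AddChar (Additive G) ℂ), fun j => (e.symm j).toMonoidHom.comp
    (MulEquiv.multiplicativeAdditive G).symm.toMonoidHom, Fintype.card_ne_zero, fun g => ?_⟩
  have h := AddChar.sum_apply_eq_ite (α := Additive G) (Additive.ofMul g)
  rw [← AddChar.card_eq (α := Additive G), ← e.symm.sum_comp] at h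
  simpa using h

theorem norm_hom {G : Type} [Group G] [Finite G] (ω : G →* ℂ) (g : G) : ‖ω g‖ = 1 := by
  have h1 : ω g ^ orderOf g = 1 := by rw [← map_pow, pow_orderOf_eq_one, map_one]
  exact Complex.norm_eq_one_of_pow_eq_one h1 (orderOf_pos g).ne'

end Pool.Agent.MP_14ad9d_nt.Full.HeckeOfAux

end

section

set_option autoImplicit false

open NumberField
open scoped nonZeroDivisors

namespace Pool.Agent.MP_14ad9d_nt.Full

namespace HeckeOfAux

variable {K : Type} [Field K] [NumberField K]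

theorem mem0 {I : Ideal (𝓞 K)} (hI : I ≠ ⊥) : I ∈ (Ideal (𝓞 K))⁰ :=
  mem_nonZeroDivisors_of_ne_zero hI

open Classical in
/-- extension by zero of a character of nonzero ideals -/
noncomputable def ext0 (M : Ideal (𝓞 K)) (g : (Ideal (𝓞 K))⁰ →* ℂ) : Ideal (𝓞 K) →* ℂ where
  toFun I := if h : I ≠ ⊥ ∧ IsCoprime I M then g ⟨I, mem0 h.1⟩ else 0
  map_one' := by
    have h : (1 : Ideal (𝓞 K)) ≠ ⊥ ∧ IsCoprime (1 : Ideal (𝓞 K)) M :=
      ⟨one_ne_zero, isCoprime_one_left⟩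
    rw [dif_pos h]
    exact map_one g
  map_mul' I J := by
    by_cases hI : I ≠ ⊥ ∧ IsCoprime I M
    · by_cases hJ : J ≠ ⊥ ∧ IsCoprime J M
      · have h : I * J ≠ ⊥ ∧ IsCoprime (I * J) M := ⟨mul_ne_zero hI.1 hJ.1, hI.2.mul_left hJ.2⟩
        rw [dif_pos h, dif_pos hI, dif_pos hJ, ← map_mul]
        rfl
      · rw [dif_neg hJ, dif_neg, mul_zero]
        exact fun h => hJ ⟨right_ne_zero_of_mul h.1, h.2.of_mul_left_right⟩
    · rw [dif_neg hI, dif_neg, zero_mul]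
      exact fun h => hI ⟨left_ne_zero_of_mul h.1, h.2.of_mul_left_left⟩

theorem ext0_pos {M : Ideal (𝓞 K)} (g : (Ideal (𝓞 K))⁰ →* ℂ) {I : Ideal (𝓞 K)} (h1 : I ≠ ⊥)
    (h2 : IsCoprime I M) : ext0 M g I = g ⟨I, mem0 h1⟩ := dif_pos ⟨h1, h2⟩

theorem ext0_neg {M : Ideal (𝓞 K)} (g : (Ideal (𝓞 K))⁰ →* ℂ) {I : Ideal (𝓞 K)}
    (h : ¬(I ≠ ⊥ ∧ IsCoprime I M)) : ext0 M g I = 0 := dif_neg h

theorem span_ne {a : 𝓞 K} (ha : a ≠ 0) : Ideal.span {a} ≠ ⊥ := by
  rwa [Ne, Ideal.span_singleton_eq_bot]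

variable (F : Type) [Field F] [NumberField F] [Algebra F K]

/-- the Hecke character attached to a character of nonzero ideals -/
noncomputable def mkH (m : ℕ) (hm : m ≠ 0) (χ : MulChar (𝓞 K ⧸ Ideal.span {(m : 𝓞 K)}) ℂ)
    (ψ : Chr F) (g : (Ideal (𝓞 K))⁰ →* ℂ) (hg : ∀ I, ‖g I‖ = 1)
    (hgc : ∀ (a : 𝓞 K) (ha : a ≠ 0), IsUnit (Ideal.Quotient.mk (Ideal.span {(m : 𝓞 K)}) a) →
      g ⟨Ideal.span {a}, mem0 (span_ne ha)⟩ =
        χ (Ideal.Quotient.mk _ a) * ψ.val (emb (Algebra.norm F (a : K)))) : Hecke K where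
  X := ext0 (Ideal.span {(m : 𝓞 K)}) g
  m := m
  hm := hm
  X_bot := ext0_neg g (by simp)
  norm_le I := by
    by_cases h : I ≠ ⊥ ∧ IsCoprime I (Ideal.span {(m : 𝓞 K)})
    · rw [ext0_pos g h.1 h.2, hg]
    · rw [ext0_neg g h, norm_zero]
      exact zero_le_one
  unit I h1 h2 := by
    rw [ext0_pos g h1 h2, ← norm_ne_zero_iff, hg]
    exact one_ne_zero
  c a := χ (Ideal.Quotient.mk _ a)
  c_congr a b h := by
    rw [Ideal.Quotient.eq.2 (Ideal.mem_span_singleton.2 h)]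
  Ψ z := ψ.val (nrm F z)
  Ψ_lip := lip_comp F ψ
  Ψ_smul t ht z hz := by
    rw [nrm_smul, ψ.val_smul (nrm_mem F hz) (pow_pos ht _)]
  eq a ha := by
    rw [nrm_emb]
    by_cases h : IsUnit (Ideal.Quotient.mk (Ideal.span {(m : 𝓞 K)}) a)
    · rw [ext0_pos g (span_ne ha) ((coprime_iff _ _).2 h), hgc a ha h]
    · rw [ext0_neg g (fun h' => h ((coprime_iff _ _).1 h'.2)), χ.map_nonunit h, zero_mul]

theorem emb_mul {E : Type} [Field E] [NumberField E] (x y : E) : emb (x * y) = emb x * emb y := by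
  funext φ
  exact map_mul φ x y

theorem emb_one {E : Type} [Field E] [NumberField E] : emb (1 : E) = 1 := by
  funext φ
  exact map_one φ

theorem emb_NZ {E : Type} [Field E] [NumberField E] {x : E} (hx : x ≠ 0) : emb x ∈ NZ E :=
  (emb_mem_RZ hx).1

theorem val_one (ψ : Chr F) : ψ.val 1 = 1 := by
  simp [Chr.val]

theorem norm_ne {a : 𝓞 K} (ha : a ≠ 0) : Algebra.norm F (a : K) ≠ 0 :=
  Algebra.norm_ne_zero_iff.2 (by exact_mod_cast ha)

theorem val_norm_mul (ψ : Chr F) {a b : 𝓞 K} (ha : a ≠ 0) (hb : b ≠ 0) :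
    ψ.val (emb (Algebra.norm F ((a * b : 𝓞 K) : K))) =
      ψ.val (emb (Algebra.norm F (a : K))) * ψ.val (emb (Algebra.norm F (b : K))) := by
  rw [← ψ.val_mul (emb_NZ (norm_ne F ha)) (emb_NZ (norm_ne F hb)), ← emb_mul, ← map_mul]
  rfl

theorem exists_g (m : ℕ) (hm : m ≠ 0) (χ : MulChar (𝓞 K ⧸ Ideal.span {(m : 𝓞 K)}) ℂ) (ψ : Chr F)
    (hu : ∀ u : (𝓞 K)ˣ, χ (Ideal.Quotient.mk _ (u : 𝓞 K)) *
      ψ.val (emb (Algebra.norm F ((u : 𝓞 K) : K))) = 1) :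
    ∃ g : (Ideal (𝓞 K))⁰ →* ℂ, (∀ I, ‖g I‖ = 1) ∧
      ∀ (a : 𝓞 K) (ha : a ≠ 0), IsUnit (Ideal.Quotient.mk (Ideal.span {(m : 𝓞 K)}) a) →
        g ⟨Ideal.span {a}, mem0 (span_ne ha)⟩ =
          χ (Ideal.Quotient.mk _ a) * ψ.val (emb (Algebra.norm F (a : K))) := by
  have hm' : Ideal.span {(m : 𝓞 K)} ≠ ⊥ := span_ne (Nat.cast_ne_zero.2 hm)
  have : Finite (𝓞 K ⧸ Ideal.span {(m : 𝓞 K)}) := Ideal.finiteQuotientOfFreeOfNeBot _ hm'
  let S : Submonoid (𝓞 K) :=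
    { carrier := {a | a ≠ 0 ∧ IsUnit (Ideal.Quotient.mk (Ideal.span {(m : 𝓞 K)}) a)}
      one_mem' := ⟨one_ne_zero, by rw [map_one]; exact isUnit_one⟩
      mul_mem' := fun ha hb => ⟨mul_ne_zero ha.1 hb.1, by rw [map_mul]; exact ha.2.mul hb.2⟩ }
  let sp : S →* (Ideal (𝓞 K))⁰ :=
    { toFun := fun a => ⟨Ideal.span {(a : 𝓞 K)}, mem0 (span_ne a.2.1)⟩
      map_one' := Subtype.ext (by simp)
      map_mul' := fun a b => Subtype.ext (by simp [Ideal.span_singleton_mul_span_singleton]) }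
  let f : S →* Circle :=
    { toFun := fun a => ⟨χ (Ideal.Quotient.mk _ (a : 𝓞 K)) *
          ψ.val (emb (Algebra.norm F ((a : 𝓞 K) : K))), by
        rw [Submonoid.unitSphere, Submonoid.mem_mk, Subsemigroup.mem_mk, mem_sphere_zero_iff_norm,
          norm_mul, norm_mulChar χ a.2.2, ψ.norm_val (emb_NZ (norm_ne F a.2.1)), one_mul]⟩
      map_one' := Circle.ext (by simp [emb_one, val_one])
      map_mul' := fun a b => Circle.ext (by
        change χ (Ideal.Quotient.mk _ ((a : 𝓞 K) * b)) *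
          ψ.val (emb (Algebra.norm F (((a : 𝓞 K) * b : 𝓞 K) : K))) = (_ * _) * (_ * _)
        rw [val_norm_mul F ψ a.2.1 b.2.1, map_mul, map_mul]
        ring) }
  obtain ⟨g, hg⟩ := ext_hom ((FractionalIdeal.mk0 K).comp sp) f (by
    intro a b hab
    have h1 : Ideal.span {(a : 𝓞 K)} = Ideal.span {(b : 𝓞 K)} :=
      FractionalIdeal.coeIdeal_injective (K := K) (congr_arg Units.val hab)
    obtain ⟨u, hu'⟩ := Ideal.span_singleton_eq_span_singleton.1 h1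
    apply Circle.ext
    change χ (Ideal.Quotient.mk _ (a : 𝓞 K)) * ψ.val (emb (Algebra.norm F ((a : 𝓞 K) : K))) =
      χ (Ideal.Quotient.mk _ (b : 𝓞 K)) * ψ.val (emb (Algebra.norm F ((b : 𝓞 K) : K)))
    rw [← hu', val_norm_mul F ψ a.2.1 u.ne_zero, map_mul, map_mul]
    linear_combination (-(χ (Ideal.Quotient.mk _ (a : 𝓞 K)) *
      ψ.val (emb (Algebra.norm F ((a : 𝓞 K) : K))))) * hu u)
  refine ⟨Circle.coeHom.comp (g.comp (FractionalIdeal.mk0 K)), fun I => Circle.norm_coe _,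
    fun a ha h => ?_⟩
  exact congr_arg (fun z : Circle => (z : ℂ)) (hg ⟨a, ha, h⟩)

end HeckeOfAux

open HeckeOfAux in
/-- a character of principal ideals is a combination of Hecke characters -/
theorem heckeOf (F : Type) [Field F] [NumberField F] {K : Type} [Field K] [NumberField K]
    [Algebra F K] (m : ℕ) (hm : m ≠ 0) (χ : MulChar (𝓞 K ⧸ Ideal.span {(m : 𝓞 K)}) ℂ) (ψ : Chr F)
    (hu : ∀ u : (𝓞 K)ˣ, χ (Ideal.Quotient.mk _ (u : 𝓞 K)) *
      ψ.val (emb (Algebra.norm F ((u : 𝓞 K) : K))) = 1)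
    (B : Ideal (𝓞 K)) (hB : B ≠ ⊥) (hBm : IsCoprime B (Ideal.span {(m : 𝓞 K)})) :
    ∃ (n : ℕ) (a : Fin n → ℂ) (h h2 : Fin n → Hecke K),
      (∀ j, (h j).m = m ∧ (h2 j).m = m ∧ (∀ x, (h j).c x = χ (Ideal.Quotient.mk _ x)) ∧
        (∀ x, (h2 j).c x = χ (Ideal.Quotient.mk _ x) ^ 2) ∧ ∀ I, (h2 j).X I = (h j).X I ^ 2) ∧
      ∀ I : Ideal (𝓞 K), I ≠ ⊥ →
        (∀ π : 𝓞 K, Ideal.span {π} = I * B → ∑ j, a j * (h j).X I =
          χ (Ideal.Quotient.mk _ π) * ψ.val (emb (Algebra.norm F (π : K)))) ∧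
        ((¬∃ π : 𝓞 K, Ideal.span {π} = I * B) → ∑ j, a j * (h j).X I = 0) := by
  classical
  obtain ⟨g, hg1, hg2⟩ := exists_g F m hm χ ψ hu
  obtain ⟨n, ω, hn, hω⟩ := chars (ClassGroup (𝓞 K))
  let G : Fin n → (Ideal (𝓞 K))⁰ →* ℂ := fun j => g * (ω j).comp ClassGroup.mk0
  have hG : ∀ j I, G j I = g I * ω j (ClassGroup.mk0 I) := fun j I => rfl
  have hG1 : ∀ j I, ‖G j I‖ = 1 := fun j I => by rw [hG, norm_mul, hg1, norm_hom, one_mul]
  have hG2 : ∀ j (a : 𝓞 K) (ha : a ≠ 0),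
      IsUnit (Ideal.Quotient.mk (Ideal.span {(m : 𝓞 K)}) a) →
      G j ⟨Ideal.span {a}, mem0 (span_ne ha)⟩ =
        χ (Ideal.Quotient.mk _ a) * ψ.val (emb (Algebra.norm F (a : K))) := fun j a ha h => by
    rw [hG, hg2 a ha h, (ClassGroup.mk0_eq_one_iff _).2 ⟨a, rfl⟩, map_one, mul_one]
  have key : ∀ (I : Ideal (𝓞 K)) (hI : I ≠ ⊥), IsCoprime I (Ideal.span {(m : 𝓞 K)}) →
      ∑ j, G j ⟨B, mem0 hB⟩ / n * ext0 (Ideal.span {(m : 𝓞 K)}) (G j) I =
        if (I * B).IsPrincipal then g ⟨I * B, mem0 (mul_ne_zero hI hB)⟩ else 0 := by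
    intro I hI hc
    have e : (⟨I * B, mem0 (mul_ne_zero hI hB)⟩ : (Ideal (𝓞 K))⁰) =
        ⟨I, mem0 hI⟩ * ⟨B, mem0 hB⟩ := rfl
    have h1 : ∀ j, G j ⟨B, mem0 hB⟩ / n * ext0 (Ideal.span {(m : 𝓞 K)}) (G j) I =
        g ⟨I * B, mem0 (mul_ne_zero hI hB)⟩ / n *
          ω j (ClassGroup.mk0 ⟨I * B, mem0 (mul_ne_zero hI hB)⟩) := by
      intro j
      rw [ext0_pos _ hI hc, hG, hG, e, map_mul, map_mul, map_mul]
      ring
    have hn' : (n : ℂ) ≠ 0 := Nat.cast_ne_zero.2 hn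
    rw [Finset.sum_congr rfl fun j _ => h1 j, ← Finset.mul_sum, hω]
    simp only [ClassGroup.mk0_eq_one_iff]
    split_ifs
    · field_simp
    · exact mul_zero _
  refine ⟨n, fun j => G j ⟨B, mem0 hB⟩ / n, fun j => mkH F m hm χ ψ (G j) (hG1 j) (hG2 j),
    fun j => mkH F m hm (χ ^ 2) (dbl ψ) (G j ^ 2) (fun I => ?_) (fun a ha h => ?_),
    fun j => ⟨rfl, rfl, fun x => rfl, fun x => ?_, fun I => ?_⟩, fun I hI => ⟨?_, ?_⟩⟩
  · rw [MonoidHom.pow_apply, norm_pow, hG1, one_pow]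
  · rw [MonoidHom.pow_apply, hG2 j a ha h, dbl_val, χ.pow_apply' two_ne_zero, mul_pow]
  · exact χ.pow_apply' two_ne_zero _
  · change ext0 _ (G j ^ 2) I = ext0 _ (G j) I ^ 2
    by_cases h : I ≠ ⊥ ∧ IsCoprime I (Ideal.span {(m : 𝓞 K)})
    · rw [ext0_pos _ h.1 h.2, ext0_pos _ h.1 h.2, MonoidHom.pow_apply]
    · rw [ext0_neg _ h, ext0_neg _ h, zero_pow two_ne_zero]
  · intro π hπ
    have hπ0 : π ≠ 0 := by
      rintro rfl
      exact mul_ne_zero hI hB (by rw [← hπ]; simp)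
    change ∑ j, G j ⟨B, mem0 hB⟩ / n * ext0 (Ideal.span {(m : 𝓞 K)}) (G j) I = _
    by_cases hc : IsCoprime I (Ideal.span {(m : 𝓞 K)})
    · rw [key I hI hc, if_pos ⟨π, hπ.symm⟩,
        ← hg2 π hπ0 ((coprime_iff _ _).1 (hπ ▸ hc.mul_left hBm))]
      congr 2
      exact hπ.symm
    · rw [χ.map_nonunit, zero_mul]
      · exact Finset.sum_eq_zero fun j _ => by rw [ext0_neg _ (fun h => hc h.2), mul_zero]
      · intro h
        have h2 := (coprime_iff _ _).2 h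
        rw [hπ] at h2
        exact hc h2.of_mul_left_left
  · intro hπ
    change ∑ j, G j ⟨B, mem0 hB⟩ / n * ext0 (Ideal.span {(m : 𝓞 K)}) (G j) I = _
    by_cases hc : IsCoprime I (Ideal.span {(m : 𝓞 K)})
    · rw [key I hI hc, if_neg]
      rintro ⟨π, h⟩
      exact hπ ⟨π, h.symm⟩
    · exact Finset.sum_eq_zero fun j _ => by rw [ext0_neg _ (fun h => hc h.2), mul_zero]

end Pool.Agent.MP_14ad9d_nt.Full

end

section

set_option autoImplicit false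

open NumberField Filter Topology

namespace Pool.Agent.MP_14ad9d_nt.Full.EDKAux

section Prime

variable {K : Type} [Field K] [NumberField K]

theorem cheb (R : ℝ) : ∃ C : ℝ, 0 < C ∧ ∀ (s : ℝ) (S : Finset (Pr K)),
    (∀ v ∈ S, |lam v - s| ≤ R) → ∑ v ∈ S, wt v ≤ C := by
  classical
  obtain ⟨C, hC⟩ := cheb_wt (E := K)
  have h0 : 0 ≤ C := by simpa using hC 0 ∅ (by simp)
  have key : ∀ (n : ℕ) (x : ℝ) (S : Finset (Pr K)),
      (∀ v ∈ S, x ≤ lam v ∧ lam v ≤ x + n + 1) → ∑ v ∈ S, wt v ≤ (n + 1) * C := by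
    intro n
    induction n with
    | zero =>
      intro x S hS
      simpa using hC x S (by simpa using hS)
    | succ n ih =>
      intro x S hS
      rw [← Finset.sum_filter_add_sum_filter_not S (fun v => lam v ≤ x + n + 1)]
      have h1 := ih x (S.filter fun v => lam v ≤ x + n + 1) fun v hv =>
        ⟨(hS v (Finset.mem_filter.1 hv).1).1, (Finset.mem_filter.1 hv).2⟩
      have h2 := hC (x + n + 1) (S.filter fun v => ¬lam v ≤ x + n + 1) fun v hv => by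
        have h3 := (hS v (Finset.mem_filter.1 hv).1).2
        push_cast at h3
        exact ⟨(not_le.1 (Finset.mem_filter.1 hv).2).le, by linarith⟩
      push_cast
      linarith
  refine ⟨(⌈2 * R⌉₊ + 1) * C + 1, by positivity, fun s S hS => ?_⟩
  refine (key ⌈2 * R⌉₊ (s - R) S fun v hv => ?_).trans (by linarith)
  have h1 := abs_le.1 (hS v hv)
  have h2 := Nat.le_ceil (2 * R)
  constructor <;> linarith [h1.1, h1.2]

/-- the primes in a window -/
noncomputable def win (K : Type) [Field K] [NumberField K] (R s : ℝ) : Finset (Pr K) :=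
  ((finite_lam_le (E := K) (s + R)).subset (t := {v : Pr K | |lam v - s| ≤ R})
    fun v hv => by
      have h1 := (abs_le.1 (show |lam v - s| ≤ R from hv)).2
      change lam v ≤ s + R
      linarith).toFinset

theorem mem_win {R s : ℝ} {v : Pr K} : v ∈ win K R s ↔ |lam v - s| ≤ R := by
  simp [win]

theorem tsum_win {R s : ℝ} {T : Pr K → ℂ} (h : ∀ v, R < |lam v - s| → T v = 0) :
    ∑' v, (wt v : ℂ) * T v = ∑ v ∈ win K R s, (wt v : ℂ) * T v :=
  tsum_eq_sum fun v hv => by rw [h v (not_le.1 (mt mem_win.2 hv)), mul_zero]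

/-- families supported in a window whose prime sums tend to zero -/
def Good (R : ℝ) (T : ℝ → Pr K → ℂ) : Prop :=
  Tendsto (fun s => ∑ v ∈ win K R s, (wt v : ℂ) * T s v) atTop (𝓝 0) ∧
    ∀ s v, R < |lam v - s| → T s v = 0

theorem Good.zero (R : ℝ) : Good (K := K) R fun _ _ => 0 := ⟨by simp, fun _ _ _ => rfl⟩

theorem Good.smul {R : ℝ} {T : ℝ → Pr K → ℂ} (h : Good R T) (c : ℂ) :
    Good R fun s v => c * T s v := by
  refine ⟨?_, fun s v hv => by simp only [h.2 s v hv, mul_zero]⟩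
  have := h.1.const_mul c
  rw [mul_zero] at this
  refine this.congr fun s => ?_
  rw [Finset.mul_sum]
  exact Finset.sum_congr rfl fun v _ => by ring

theorem Good.sum {R : ℝ} {ι : Type} [Fintype ι] {T : ι → ℝ → Pr K → ℂ} (h : ∀ i, Good R (T i)) :
    Good R fun s v => ∑ i, T i s v := by
  refine ⟨?_, fun s v hv => Finset.sum_eq_zero fun i _ => (h i).2 s v hv⟩
  have := tendsto_finsetSum Finset.univ fun i _ => (h i).1
  rw [Finset.sum_const_zero] at this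
  refine this.congr fun s => ?_
  rw [Finset.sum_comm]
  exact Finset.sum_congr rfl fun v _ => by rw [Finset.mul_sum]

theorem Good.hecke {R : ℝ} (h h2 : Hecke K) (hn : h.Nontriv) (hn2 : h2.Nontriv)
    (hsq : ∀ I, h2.X I = h.X I ^ 2) (κ : ℝ → ℂ) (hκ : Continuous κ)
    (h0 : ∀ u, R < |u| → κ u = 0) : Good R fun s v => h.X v.asIdeal * κ (lam v - s) := by
  have hz : ∀ s (v : Pr K), R < |lam v - s| → h.X v.asIdeal * κ (lam v - s) = 0 :=
    fun s v hv => by rw [h0 _ hv, mul_zero]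
  refine ⟨?_, hz⟩
  have hc : HasCompactSupport κ := HasCompactSupport.intro (isCompact_Icc (a := -R) (b := R))
    fun x hx => h0 x (not_le.1 fun h => hx (abs_le.1 h))
  refine (ed h h2 hn hn2 hsq κ hκ hc).congr fun s => ?_
  rw [← tsum_win (hz s)]
  exact tsum_congr fun v => mul_assoc _ _ _

theorem final (D : ℝ → Pr K → ℂ) (u : ℝ → ℝ) (hu : Tendsto u atTop atTop) (R : ℝ)
    (h0 : ∀ᶠ X in atTop, ∀ v, R < |lam v - u X| → D X v = 0)
    (hD : ∀ ε : ℝ, 0 < ε → ∃ T : ℝ → Pr K → ℂ, Good R T ∧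
      ∀ᶠ X in atTop, ∀ v, |lam v - u X| ≤ R → ‖D X v - T (u X) v‖ ≤ ε) :
    Tendsto (fun X => ∑' v : Pr K, (wt v : ℂ) * D X v) atTop (𝓝 0) := by
  obtain ⟨C, hC0, hC⟩ := cheb (K := K) R
  rw [NormedAddGroup.tendsto_nhds_zero]
  intro ε hε
  obtain ⟨T, hT, hTD⟩ := hD (ε / 2 / C) (by positivity)
  have h1 := NormedAddGroup.tendsto_nhds_zero.1 (hT.1.comp hu) (ε / 2) (by positivity)
  filter_upwards [h0, hTD, h1] with X a b c
  rw [tsum_win a]
  have e : ∑ v ∈ win K R (u X), (wt v : ℂ) * D X v = ∑ v ∈ win K R (u X), (wt v : ℂ) * T (u X) v +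
      ∑ v ∈ win K R (u X), (wt v : ℂ) * (D X v - T (u X) v) := by
    rw [← Finset.sum_add_distrib]
    exact Finset.sum_congr rfl fun v _ => by ring
  have h2 : ‖∑ v ∈ win K R (u X), (wt v : ℂ) * (D X v - T (u X) v)‖ ≤ ε / 2 := by
    refine (norm_sum_le _ _).trans ?_
    calc ∑ v ∈ win K R (u X), ‖(wt v : ℂ) * (D X v - T (u X) v)‖
        ≤ ∑ v ∈ win K R (u X), wt v * (ε / 2 / C) := Finset.sum_le_sum fun v hv => by
          rw [norm_mul, Complex.norm_real, Real.norm_of_nonneg (wt_nonneg v)]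
          exact mul_le_mul_of_nonneg_left (b v (mem_win.1 hv)) (wt_nonneg v)
      _ ≤ C * (ε / 2 / C) := by
          rw [← Finset.sum_mul]
          exact mul_le_mul_of_nonneg_right (hC _ _ fun v hv => mem_win.1 hv) (by positivity)
      _ = ε / 2 := by field_simp
  rw [e]
  refine (norm_add_le _ _).trans_lt ?_
  have c' : ‖∑ v ∈ win K R (u X), (wt v : ℂ) * T (u X) v‖ < ε / 2 := c
  linarith

end Prime

section Sum

open TorusAux

variable {F : Type} [Field F] [NumberField F]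

open Classical in
/-- a sum over a set of units -/
noncomputable def HH (P : (𝓞 F)ˣ → Prop) (h : ((F →+* ℂ) → ℂ) → ℂ) (y : (F →+* ℂ) → ℂ) : ℂ :=
  ∑ᶠ w : (𝓞 F)ˣ, if P w then h (ue w * y) else 0

theorem HH_cont (P : (𝓞 F)ˣ → Prop) {h : ((F →+* ℂ) → ℂ) → ℂ} (hc : ContinuousOn h (RZ F))
    {C : Set ((F →+* ℂ) → ℂ)} (hC : IsCompact C) (hsupp : ∀ y ∈ RZ F, y ∉ C → h y = 0) :
    ContinuousOn (HH P h) (RZ F) := by
  classical
  rw [continuousOn_iff_continuous_domRestrict]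
  refine continuous_finsum (f := fun (w : (𝓞 F)ˣ) (y : RZ F) =>
    if P w then h (ue w * y) else 0) (fun w => ?_) fun y => ?_
  · split_ifs
    · exact hc.comp_continuous (continuous_const.mul continuous_subtype_val)
        fun y => mul_mem_RZ (ue_mem w) y.2
    · exact continuous_const
  · obtain ⟨N, hN, hy, hNZ⟩ := exists_compact_subset PieceAux.isOpen_NZ y.2.1
    refine ⟨Subtype.val ⁻¹' N, continuous_subtype_val.continuousAt
      (mem_interior_iff_mem_nhds.1 hy), (PieceAux.finite_units hC hN hNZ).subset ?_⟩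
    rintro w ⟨z, h1, h2⟩
    refine ⟨z, h2, by_contra fun h3 => h1 ?_⟩
    have h4 := hsupp _ (mul_mem_RZ (ue_mem w) z.2) h3
    simp [h4]

theorem HH_supp {h : ((F →+* ℂ) → ℂ) → ℂ} {C : Set ((F →+* ℂ) → ℂ)} (hC : IsCompact C)
    (hCR : C ⊆ RZ F) (hsupp : ∀ y ∈ RZ F, y ∉ C → h y = 0) :
    ∃ R : ℝ, ∀ P, ∀ y ∈ RZ F, R < |lnN y| → HH P h y = 0 := by
  obtain ⟨R, hR⟩ := hC.exists_bound_of_continuousOn
    (continuousOn_lnN.mono fun y hy => (hCR hy).1)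
  refine ⟨R, fun P y hy h1 => finsum_eq_zero_of_forall_eq_zero fun w => ?_⟩
  rw [hsupp _ (mul_mem_RZ (ue_mem w) hy), ite_self]
  intro h2
  have := hR _ h2
  rw [lnN_mul (ue_mem w).1 hy.1, lnN_ue, zero_add, Real.norm_eq_abs] at this
  linarith

omit [NumberField F] in
theorem HH_shift {P P' : (𝓞 F)ˣ → Prop} (h : ((F →+* ℂ) → ℂ) → ℂ) (w₀ : (𝓞 F)ˣ)
    (hP : ∀ w, P' w ↔ P (w * w₀)) (y : (F →+* ℂ) → ℂ) : HH P' h (ue w₀ * y) = HH P h y := by
  unfold HH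
  refine Eq.trans (finsum_congr fun w => ?_) (finsum_comp_equiv (Equiv.mulRight w₀))
  simp only [Equiv.coe_mulRight, ue_mul, mul_assoc]
  by_cases h1 : P' w
  · rw [if_pos h1, if_pos ((hP w).1 h1)]
  · rw [if_neg h1, if_neg fun h2 => h1 ((hP w).2 h2)]

omit [NumberField F] in
theorem HH_congr {P P' : (𝓞 F)ˣ → Prop} (h : ((F →+* ℂ) → ℂ) → ℂ) (hP : ∀ w, P' w ↔ P w) :
    HH P' h = HH P h := by
  rw [show P' = P from funext fun w => propext (hP w)]

end Sum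

end Pool.Agent.MP_14ad9d_nt.Full.EDKAux

end

section

set_option autoImplicit false

open NumberField Filter Topology

namespace Pool.Agent.MP_14ad9d_nt.Full.EDKAux

open TorusAux

variable {F : Type} [Field F] [NumberField F]

/-- expansion in characters of a finite group and of the archimedean torus -/
theorem expand {G : Type} [CommGroup G] [Finite G] (U : Subgroup (𝓞 F)ˣ) [U.FiniteIndex]
    (H : G → ((F →+* ℂ) → ℂ) → ℂ) (R : ℝ) (hc : ∀ x, ContinuousOn (H x) (RZ F))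
    (hU : ∀ x, ∀ u ∈ U, ∀ y ∈ RZ F, H x (ue u * y) = H x y)
    (hR : ∀ x, ∀ y ∈ RZ F, R < |lnN y| → H x y = 0) (ε : ℝ) (hε : 0 < ε) :
    ∃ (ι : Type) (_ : Fintype ι) (κ : ι → ℝ → ℂ) (χ : ι → G →* ℂ) (ψ : ι → Chr F),
      (∀ j, Continuous (κ j) ∧ ∀ u, R + 1 < |u| → κ j u = 0) ∧
      (∀ j, ∀ u ∈ U, (ψ j).val (ue u) = 1) ∧
      ∀ x, ∀ y ∈ RZ F, ‖H x y - ∑ j, κ j (lnN y) * (χ j x * (ψ j).val y)‖ ≤ ε := by
  classical
  let := Fintype.ofFinite G
  choose n κ ψ h1 h2 h3 using fun x => torus U (H x) R (hc x) (hU x) (hR x) ε hε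
  obtain ⟨N, ω, hN, hω⟩ := HeckeOfAux.chars G
  refine ⟨(Σ x : G, Fin (n x)) × Fin N, inferInstance,
    fun j u => ω j.2 j.1.1⁻¹ / N * κ j.1.1 j.1.2 u, fun j => ω j.2, fun j => ψ j.1.1 j.1.2,
    fun j => ⟨continuous_const.mul (h1 _ _).1, fun u hu => ?_⟩, fun j => h2 _ _,
    fun x y hy => ?_⟩
  · simp only [(h1 _ _).2 u hu, mul_zero]
  · have hN' : (N : ℂ) ≠ 0 := Nat.cast_ne_zero.2 hN
    convert h3 x y hy using 3
    rw [Fintype.sum_prod_type, Fintype.sum_sigma, Finset.sum_eq_single x]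
    · refine Finset.sum_congr rfl fun j _ => ?_
      have e : ∀ i : Fin N, ω i x⁻¹ / N * κ x j (lnN y) * (ω i x * (ψ x j).val y) =
          κ x j (lnN y) * (ψ x j).val y / N := fun i => by
        have : ω i x⁻¹ * ω i x = 1 := by rw [← map_mul, inv_mul_cancel, map_one]
        linear_combination (κ x j (lnN y) * (ψ x j).val y / N) * this
      simp only [e, Finset.sum_const, Finset.card_univ, Fintype.card_fin, nsmul_eq_mul]
      field_simp
    · intro x' _ hx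
      refine Finset.sum_eq_zero fun j _ => ?_
      have e : ∀ i : Fin N, ω i x'⁻¹ / N * κ x' j (lnN y) * (ω i x * (ψ x' j).val y) =
          κ x' j (lnN y) * (ψ x' j).val y / N * ω i (x'⁻¹ * x) := fun i => by
        rw [map_mul]
        ring
      simp only [e]
      rw [← Finset.mul_sum, hω, if_neg, mul_zero]
      rw [inv_mul_eq_one]
      exact hx
    · simp

/-- the expansion of an invariant function -/
theorem approx {G A : Type} [CommGroup G] [Finite G] [CommGroup A] (ρ : A →* G)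
    (ν : A →* (𝓞 F)ˣ) [(ρ.ker.map ν).FiniteIndex]
    (H : G → ((F →+* ℂ) → ℂ) → ℂ) (R : ℝ) (hc : ∀ x, ContinuousOn (H x) (RZ F))
    (hU : ∀ x u, ∀ y ∈ RZ F, H (ρ u * x) (ue (ν u) * y) = H x y)
    (hR : ∀ x, ∀ y ∈ RZ F, R < |lnN y| → H x y = 0) (ε : ℝ) (hε : 0 < ε) :
    ∃ (ι : Type) (_ : Fintype ι) (κ : ι → ℝ → ℂ) (χ : ι → G →* ℂ) (ψ : ι → Chr F),
      (∀ j, Continuous (κ j) ∧ ∀ u, R + 1 < |u| → κ j u = 0) ∧
      (∀ j, (∀ u, κ j u = 0) ∨ ∀ u, χ j (ρ u) * (ψ j).val (ue (ν u)) = 1) ∧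
      ∀ x, ∀ y ∈ RZ F, ‖H x y - ∑ j, κ j (lnN y) * (χ j x * (ψ j).val y)‖ ≤ ε := by
  classical
  obtain ⟨ι, _, κ, χ, ψ, h1, h2, h3⟩ := expand (ρ.ker.map ν) H R hc (by
    rintro x _ ⟨u, hu, rfl⟩ y hy
    have := hU x u y hy
    rwa [MonoidHom.mem_ker.1 hu, one_mul] at this) hR ε hε
  let Q := A ⧸ ρ.ker
  let : Fintype Q := Fintype.ofFinite _
  let f : ι → A →* ℂ := fun j => (χ j).comp ρ * (uhom (ψ j)).comp ν
  have hf : ∀ j u, f j u = χ j (ρ u) * (ψ j).val (ue (ν u)) := fun j u => rfl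
  have hker : ∀ j, ∀ u ∈ ρ.ker, f j u = 1 := fun j u hu => by
    rw [hf, MonoidHom.mem_ker.1 hu, map_one, h2 j _ ⟨u, hu, rfl⟩, one_mul]
  let g : ι → Q →* ℂ := fun j => QuotientGroup.lift ρ.ker (f j) (hker j)
  have hg : ∀ j (q : Q), f j q.out = g j q := fun j q => by
    conv_rhs => rw [← q.out_eq]
    rfl
  have hQ : (Fintype.card Q : ℂ) ≠ 0 := Nat.cast_ne_zero.2 Fintype.card_ne_zero
  refine ⟨ι, inferInstance, fun j u => (∑ q, g j q) / Fintype.card Q * κ j u, χ, ψ,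
    fun j => ⟨continuous_const.mul (h1 j).1, fun u hu => ?_⟩, fun j => ?_, fun x y hy => ?_⟩
  · simp only [(h1 j).2 u hu, mul_zero]
  · by_cases h : g j = 1
    · refine Or.inr fun u => ?_
      rw [← hf]
      exact DFunLike.congr_fun h (u : Q)
    · refine Or.inl fun u => ?_
      simp only [sum_hom_units_eq_zero _ h, zero_div, zero_mul]
  · have e : H x y - ∑ j, (∑ q, g j q) / Fintype.card Q * κ j (lnN y) * (χ j x * (ψ j).val y) =
        (∑ q : Q, (H (ρ q.out * x) (ue (ν q.out) * y) - ∑ j, κ j (lnN (ue (ν q.out) * y)) *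
          (χ j (ρ q.out * x) * (ψ j).val (ue (ν q.out) * y)))) / Fintype.card Q := by
      have e1 : ∀ (q : Q) j, κ j (lnN (ue (ν q.out) * y)) *
          (χ j (ρ q.out * x) * (ψ j).val (ue (ν q.out) * y)) =
          g j q * (κ j (lnN y) * (χ j x * (ψ j).val y)) := fun q j => by
        rw [lnN_mul (ue_mem _).1 hy.1, lnN_ue, zero_add, map_mul, val_mul _ (ue_mem _).1 hy.1,
          ← hg, hf]
        ring
      simp only [e1, hU _ _ y hy, Finset.sum_sub_distrib, Finset.sum_const, Finset.card_univ,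
        nsmul_eq_mul]
      rw [Finset.sum_comm, sub_div, mul_div_cancel_left₀ _ hQ, Finset.sum_div]
      congr 1
      refine Finset.sum_congr rfl fun j _ => ?_
      rw [← Finset.sum_mul]
      ring
    have hQ' : (0 : ℝ) < Fintype.card Q := Nat.cast_pos.2 Fintype.card_pos
    rw [e, norm_div, Complex.norm_natCast, div_le_iff₀ hQ']
    refine (norm_sum_le _ _).trans ?_
    refine (Finset.sum_le_sum fun q _ => h3 _ _ (mul_mem_RZ (ue_mem _) hy)).trans ?_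
    simp [mul_comm]

end Pool.Agent.MP_14ad9d_nt.Full.EDKAux

end

section

set_option autoImplicit false

open NumberField Filter Topology

namespace Pool.Agent.MP_14ad9d_nt.Full.EDKAux

open TorusAux

variable (F : Type) [Field F] [NumberField F] {K : Type} [Field K] [NumberField K] [Algebra F K]

theorem norm_congr {m : ℕ} (hm : m ≠ 0) {x y : 𝓞 K} (h : (m : 𝓞 K) ∣ x - y) :
    (m : 𝓞 F) ∣ RingOfIntegers.norm F x - RingOfIntegers.norm F y := by
  obtain ⟨φ⟩ : Nonempty (F →+* ℂ) := inferInstance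
  let := φ.toAlgebra
  let s : (K →ₐ[F] ℂ) → 𝓞 K →+* integralClosure ℤ ℂ := fun σ =>
    (σ.toRingHom.comp (algebraMap (𝓞 K) K)).codRestrict (integralClosure ℤ ℂ) fun a =>
      (RingOfIntegers.isIntegral_coe a).map σ.toRingHom.toIntAlgHom
  have h1 : (m : integralClosure ℤ ℂ) ∣ ∏ σ, s σ x - ∏ σ, s σ y := by
    rw [← Ideal.mem_span_singleton, ← Ideal.Quotient.eq, map_prod, map_prod]
    refine Finset.prod_congr rfl fun σ _ => ?_
    rw [Ideal.Quotient.eq, Ideal.mem_span_singleton, ← map_sub, ← map_natCast (s σ)]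
    exact map_dvd _ h
  obtain ⟨w, hw⟩ := h1
  have h2 : ∀ a : 𝓞 K, ((∏ σ, s σ a : integralClosure ℤ ℂ) : ℂ) = φ (Algebra.norm F (a : K)) := by
    intro a
    rw [SubmonoidClass.coe_finsetProd]
    exact (Algebra.norm_eq_prod_embeddings F ℂ (a : K)).symm
  have h3 := congr_arg (fun z : integralClosure ℤ ℂ => (z : ℂ)) hw
  simp only [AddSubgroupClass.coe_sub, h2, MulMemClass.coe_mul, SubringClass.coe_natCast] at h3
  have hm' : (m : ℂ) ≠ 0 := Nat.cast_ne_zero.2 hm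
  have hmF : (m : F) ≠ 0 := Nat.cast_ne_zero.2 hm
  have h4 : IsIntegral ℤ ((Algebra.norm F (x : K) - Algebra.norm F (y : K)) / m) := by
    rw [← isIntegral_algHom_iff φ.toIntAlgHom φ.injective]
    change IsIntegral ℤ (φ _)
    rw [map_div₀, map_sub, h3, map_natCast, mul_div_cancel_left₀ _ hm']
    exact w.2
  refine ⟨⟨_, h4⟩, RingOfIntegers.ext ?_⟩
  change Algebra.norm F (x : K) - Algebra.norm F (y : K) =
    (m : F) * ((Algebra.norm F (x : K) - Algebra.norm F (y : K)) / m)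
  field_simp

theorem exists_zeta {M m : ℕ} (hm : m ≠ 0) (hMm : M ∣ m) {θ θ' η₁ η₂ : 𝓞 K}
    (h1 : IsCoprime η₁ (m : 𝓞 K)) (hN : RingOfIntegers.norm F η₁ = RingOfIntegers.norm F η₂)
    (hθ : (M : 𝓞 K) ∣ θ' * η₂ - θ * η₁) {n : ℕ} (hn : (m : 𝓞 K) ∣ η₁ ^ n - η₂ ^ n) :
    ∃ ζ : 𝓞 K, (m : 𝓞 F) ∣ RingOfIntegers.norm F ζ - 1 ∧ (M : 𝓞 K) ∣ θ' * ζ - θ ∧
      (m : 𝓞 K) ∣ ζ ^ n - 1 := by
  obtain ⟨t, c, ht⟩ := h1
  have h2 : (m : 𝓞 K) ∣ η₁ * t - 1 := ⟨-c, by linear_combination ht⟩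
  refine ⟨η₂ * t, ?_, ?_, ?_⟩
  · have := norm_congr F hm h2
    rwa [map_one, map_mul, hN, ← map_mul] at this
  · have := (hθ.mul_right t).add (((Nat.cast_dvd_cast hMm).trans h2).mul_left θ)
    convert this using 1
    ring
  · have h3 := h2.trans (sub_dvd_pow_sub_pow (η₁ * t) 1 n)
    have := h3.sub (hn.mul_right (t ^ n))
    convert this using 1
    ring

theorem link {l M m : ℕ} (hm : m ≠ 0) {B B' : Ideal (𝓞 K)} {γ γ' : 𝓞 K} (hγ : γ ≠ 0)
    (hγ' : γ' ≠ 0) (h1 : (M : 𝓞 K) ∣ γ - 1) (h2 : (M : 𝓞 K) ∣ γ' - 1)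
    (hB : B' * Ideal.span {γ} = B * Ideal.span {γ'})
    (hc : IsCoprime B' (Ideal.span {(m : 𝓞 K)})) :
    ∃ (ν : F) (e : 𝓞 F), ν ≠ 0 ∧ ∀ I : Ideal (𝓞 K),
      (∀ π', Ideal.span {π'} = I * B' ^ l → ∃ π, Ideal.span {π} = I * B ^ l ∧
        (M : 𝓞 K) ∣ π - π' ∧ Algebra.norm F (π : K) = ν * Algebra.norm F (π' : K) ∧
        (m : 𝓞 F) ∣ RingOfIntegers.norm F π - e * RingOfIntegers.norm F π') ∧
      ∀ π, Ideal.span {π} = I * B ^ l → ∃ π', Ideal.span {π'} = I * B' ^ l := by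
  have hBl : B' ^ l * Ideal.span {γ ^ l} = B ^ l * Ideal.span {γ' ^ l} := by
    rw [← Ideal.span_singleton_pow, ← Ideal.span_singleton_pow, ← mul_pow, hB, mul_pow]
  have aux : ∀ (I A A' : Ideal (𝓞 K)) (g g' π' : 𝓞 K), g' ≠ 0 →
      A' * Ideal.span {g} = A * Ideal.span {g'} → Ideal.span {π'} = I * A' →
      ∃ π, Ideal.span {π} = I * A ∧ π' * g = g' * π := by
    intro I A A' g g' π' hg h3 h4
    have h5 : Ideal.span {π' * g} = Ideal.span {g'} * (I * A) := by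
      rw [← Ideal.span_singleton_mul_span_singleton, h4, mul_assoc, h3]
      ring
    obtain ⟨π, hπ⟩ : g' ∣ π' * g := by
      rw [← Ideal.span_singleton_le_span_singleton, h5]
      exact Ideal.mul_le_left
    refine ⟨π, ?_, hπ⟩
    rw [hπ, ← Ideal.span_singleton_mul_span_singleton] at h5
    exact mul_left_cancel₀ (HeckeOfAux.span_ne hg) h5
  obtain ⟨b, hb, hb1⟩ : ∃ b ∈ B' ^ l, (m : 𝓞 K) ∣ b - 1 := by
    obtain ⟨b, hb, c, hc', h⟩ := Ideal.isCoprime_iff_exists.1 (hc.pow_left (m := l))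
    refine ⟨b, hb, ?_⟩
    rw [← h, sub_add_cancel_left, dvd_neg]
    exact Ideal.mem_span_singleton.1 hc'
  obtain ⟨c, hc'⟩ : γ' ^ l ∣ b * γ ^ l := by
    rw [← Ideal.mem_span_singleton]
    refine Ideal.mul_le_right (I := B ^ l) ?_
    rw [← hBl]
    exact Ideal.mul_mem_mul hb (Ideal.mem_span_singleton_self _)
  have n1 := HeckeOfAux.norm_ne F (pow_ne_zero l hγ)
  have n2 := HeckeOfAux.norm_ne F (pow_ne_zero l hγ')
  refine ⟨Algebra.norm F ((γ ^ l : 𝓞 K) : K) / Algebra.norm F ((γ' ^ l : 𝓞 K) : K),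
    RingOfIntegers.norm F c, div_ne_zero n1 n2, fun I => ⟨fun π' hπ' => ?_, fun π hπ => ?_⟩⟩
  · obtain ⟨π, h3, h4⟩ := aux I _ _ _ _ π' (pow_ne_zero l hγ') hBl hπ'
    refine ⟨π, h3, ?_, ?_, ?_⟩
    · have a1 := (h1.trans (sub_dvd_pow_sub_pow γ 1 l)).mul_left π'
      have a2 := (h2.trans (sub_dvd_pow_sub_pow γ' 1 l)).mul_left π
      convert a1.sub a2 using 1
      linear_combination -h4
    · have a1 := congr_arg (fun z : 𝓞 K => Algebra.norm F (z : K)) h4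
      simp only [map_mul] at a1
      field_simp
      linear_combination -a1
    · have a1 : b * π = c * π' := by
        apply mul_left_cancel₀ (pow_ne_zero l hγ')
        linear_combination -b * h4 + π' * hc'
      have a2 := congr_arg (RingOfIntegers.norm F) a1
      rw [map_mul, map_mul] at a2
      have a3 := (norm_congr F hm hb1).mul_right (-RingOfIntegers.norm F π)
      convert a3 using 1
      rw [map_one]
      linear_combination a2
  · obtain ⟨π', h3, -⟩ := aux I _ _ _ _ π (pow_ne_zero l hγ) hBl.symm hπ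
    exact ⟨π', h3⟩

/-- the norm map on units -/
noncomputable def nu (K : Type) [Field K] [NumberField K] [Algebra F K] : (𝓞 K)ˣ →* (𝓞 F)ˣ :=
  Units.map (RingOfIntegers.norm F)

omit [NumberField F] in
theorem coe_nu (u : (𝓞 K)ˣ) : (nu F K u : 𝓞 F) = RingOfIntegers.norm F (u : 𝓞 K) := rfl

/-- the congruence conditions on a unit -/
def PP (M m : ℕ) (θ : 𝓞 K) (e β : 𝓞 F) (x : 𝓞 K) (w : (𝓞 F)ˣ) : Prop :=
  (∃ u : (𝓞 K)ˣ, nu F K u = w ∧ (M : 𝓞 K) ∣ u * x - θ) ∧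
    (m : 𝓞 F) ∣ w * (e * RingOfIntegers.norm F x) - β

open Classical in
theorem nset_sum {l M m : ℕ} {B : Ideal (𝓞 K)} (θ : 𝓞 K) {v : Pr K} {π π' : 𝓞 K} (hπ : π ≠ 0)
    {ν : F} {e : 𝓞 F} (β : 𝓞 F) (h1 : Ideal.span {π} = v.asIdeal * B ^ l)
    (h2 : (M : 𝓞 K) ∣ π - π') (h3 : Algebra.norm F (π : K) = ν * Algebra.norm F (π' : K))
    (h4 : (m : 𝓞 F) ∣ RingOfIntegers.norm F π - e * RingOfIntegers.norm F π')
    (h : ((F →+* ℂ) → ℂ) → ℂ) (t : ℝ) :
    (∑ᶠ a ∈ NSet F l M B θ v, if (m : 𝓞 F) ∣ a - β then h (t • emb (a : F)) else 0) =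
      HH (PP F M m θ e β π') h (emb ν * (t • emb (Algebra.norm F (π' : K)))) := by
  have hN : RingOfIntegers.norm F π ≠ 0 := fun h0 => HeckeOfAux.norm_ne F hπ (by
    rw [← RingOfIntegers.coe_norm, h0]; rfl)
  have hS : NSet F l M B θ v = (fun w : (𝓞 F)ˣ => (w : 𝓞 F) * RingOfIntegers.norm F π) ''
      {w | ∃ u : (𝓞 K)ˣ, nu F K u = w ∧ (M : 𝓞 K) ∣ u * π' - θ} := by
    ext a
    constructor
    · rintro ⟨π₁, a1, a2, rfl⟩
      obtain ⟨u, rfl⟩ := Ideal.span_singleton_eq_span_singleton.1 (h1.trans a1.symm)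
      refine ⟨_, ⟨u, rfl, ?_⟩, ?_⟩
      · convert a2.sub (h2.mul_right (u : 𝓞 K)) using 1
        ring
      · simp only [coe_nu, map_mul, mul_comm]
    · rintro ⟨_, ⟨u, rfl, a2⟩, rfl⟩
      refine ⟨u * π, by rw [Ideal.span_singleton_mul_left_unit u.isUnit, h1], ?_, ?_⟩
      · convert a2.add (h2.mul_right (u : 𝓞 K)) using 1
        ring
      · simp only [coe_nu, map_mul]
  rw [hS, finsum_mem_image fun w _ w' _ hw => Units.ext (mul_right_cancel₀ hN hw)]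
  refine finsum_congr fun w => ?_
  rw [finsum_eq_if]
  have e1 : (m : 𝓞 F) ∣ w * RingOfIntegers.norm F π - β ↔
      (m : 𝓞 F) ∣ w * (e * RingOfIntegers.norm F π') - β := by
    refine dvd_iff_dvd_of_dvd_sub ?_
    convert h4.mul_left (w : 𝓞 F) using 1
    ring
  have e2 : t • emb (((w : 𝓞 F) * RingOfIntegers.norm F π : 𝓞 F) : F) =
      ue w * (emb ν * (t • emb (Algebra.norm F (π' : K)))) := by
    rw [mul_smul_comm, mul_smul_comm, ← PieceAux.emb_mul, ← h3, ue, ← PieceAux.emb_mul]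
    rfl
  simp only [e1, e2, PP, Set.mem_ofPred_eq]
  split_ifs with a b c c d
  · rfl
  · exact absurd ⟨a, b⟩ c
  · exact absurd c.2 b
  · rfl
  · exact absurd d.1 a
  · rfl

theorem PP_congr {M m : ℕ} (hm : m ≠ 0) (θ : 𝓞 K) (e β : 𝓞 F) {x x' : 𝓞 K}
    (h1 : (M : 𝓞 K) ∣ x - x') (h2 : (m : 𝓞 K) ∣ x - x') (w : (𝓞 F)ˣ) :
    PP F M m θ e β x w ↔ PP F M m θ e β x' w := by
  refine and_congr (exists_congr fun u => and_congr_right fun _ => ?_) ?_
  · refine dvd_iff_dvd_of_dvd_sub ?_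
    convert h1.mul_left (u : 𝓞 K) using 1
    ring
  · refine dvd_iff_dvd_of_dvd_sub ?_
    convert (norm_congr F hm h2).mul_left (w * e) using 1
    ring

omit [NumberField F] in
theorem PP_shift {M m : ℕ} (θ : 𝓞 K) (e β : 𝓞 F) (x : 𝓞 K) (u : (𝓞 K)ˣ) (w : (𝓞 F)ˣ) :
    PP F M m θ e β (u * x) w ↔ PP F M m θ e β x (w * nu F K u) := by
  refine and_congr ⟨?_, ?_⟩ ?_
  · rintro ⟨u', rfl, h⟩
    exact ⟨u' * u, map_mul _ _ _, by rwa [Units.val_mul, mul_assoc]⟩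
  · rintro ⟨u', h1, h⟩
    refine ⟨u' * u⁻¹, by rw [map_mul, h1, map_inv, mul_inv_cancel_right], ?_⟩
    rwa [Units.val_mul, mul_assoc, Units.inv_mul_cancel_left]
  · rw [map_mul, Units.val_mul, coe_nu]
    congr! 2
    ring

omit [NumberField F] in
theorem PP_zeta {M m : ℕ} {θ θ' ζ : 𝓞 K} (e β : 𝓞 F) (x : 𝓞 K)
    (h1 : (m : 𝓞 F) ∣ RingOfIntegers.norm F ζ - 1) (h2 : (M : 𝓞 K) ∣ θ' * ζ - θ) {n : ℕ}
    (hn : n ≠ 0) (h3 : (M : 𝓞 K) ∣ ζ ^ n - 1) (w : (𝓞 F)ˣ) :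
    PP F M m θ' e β x w ↔ PP F M m θ e β (x * ζ) w := by
  refine and_congr (exists_congr fun u => and_congr_right fun _ => ⟨fun h => ?_, fun h => ?_⟩) ?_
  · convert (h.mul_right ζ).add h2 using 1
    ring
  · obtain ⟨k, rfl⟩ := Nat.exists_eq_succ_of_ne_zero hn
    convert ((h.sub h2).mul_right (ζ ^ k)).sub (h3.mul_right (u * x - θ')) using 1
    rw [pow_succ]
    ring
  · refine dvd_iff_dvd_of_dvd_sub ?_
    convert h1.mul_left (-(w * e * RingOfIntegers.norm F x)) using 1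
    rw [map_mul]
    ring

theorem finiteIndex_nu {G : Type} [CommGroup G] [Finite G] (ρ : (𝓞 K)ˣ →* G) :
    (ρ.ker.map (nu F K)).FiniteIndex := by
  have : Group.FG (𝓞 F)ˣ := Group.fg_iff_monoid_fg.2 inferInstance
  have h := Subgroup.finiteIndex_range_powMonoidHom_of_fg (𝓞 F)ˣ
    (mul_ne_zero (Module.finrank_pos (R := F) (M := K)).ne' (Nat.card_pos (α := G)).ne')
  refine Subgroup.finiteIndex_of_le (H := (powMonoidHom (Module.finrank F K * Nat.card G)).range) ?_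
  rintro _ ⟨w, rfl⟩
  refine ⟨Units.map (algebraMap (𝓞 F) (𝓞 K)).toMonoidHom w ^ Nat.card G, ?_, ?_⟩
  · change ρ _ = 1
    rw [map_pow, pow_card_eq_one']
  · rw [map_pow, powMonoidHom_apply, pow_mul]
    congr 1
    exact Units.ext (RingOfIntegers.norm_algebraMap F (L := K) (w : 𝓞 F))

theorem lnN_norm {π : 𝓞 K} (hπ : π ≠ 0) :
    lnN (emb (Algebra.norm F (π : K))) = Real.log (Ideal.absNorm (Ideal.span {π})) := by
  rw [← PieceAux.lnN_emb_int hπ, Full.lnN_emb (HeckeOfAux.norm_ne F hπ),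
    Full.lnN_emb (RingOfIntegers.coe_ne_zero_iff.2 hπ), Algebra.norm_norm]

end Pool.Agent.MP_14ad9d_nt.Full.EDKAux

end

section

set_option autoImplicit false

open NumberField Filter Topology

namespace Pool.Agent.MP_14ad9d_nt.Full

namespace EDKAux

open TorusAux

variable (F : Type) [Field F] [NumberField F] {K : Type} [Field K] [NumberField K] [Algebra F K]

/-- reduction of units -/
noncomputable def rho (K : Type) [Field K] (m : ℕ) :
    (𝓞 K)ˣ →* (𝓞 K ⧸ Ideal.span {(m : 𝓞 K)})ˣ :=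
  Units.map (Ideal.Quotient.mk (Ideal.span {(m : 𝓞 K)})).toMonoidHom

theorem term {m : ℕ} (hm : m ≠ 0) {B : Ideal (𝓞 K)} (hB : B ≠ ⊥)
    (hBm : IsCoprime B (Ideal.span {(m : 𝓞 K)})) {R : ℝ} {κ : ℝ → ℂ} (hκ : Continuous κ)
    (h0 : ∀ u, R < |u| → κ u = 0) (χ : (𝓞 K ⧸ Ideal.span {(m : 𝓞 K)})ˣ →* ℂ) (ψ : Chr F)
    (hu : (∀ u, κ u = 0) ∨ ∀ u, χ (rho K m u) * ψ.val (ue (nu F K u)) = 1)
    (z : (𝓞 K ⧸ Ideal.span {(m : 𝓞 K)})ˣ) {n : ℕ} (hn : Odd n) (hz : z ^ n = 1) :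
    ∃ T : ℝ → Pr K → ℂ, Good R T ∧ ∀ s v,
      (∀ (π : 𝓞 K) (x : (𝓞 K ⧸ Ideal.span {(m : 𝓞 K)})ˣ), Ideal.span {π} = v.asIdeal * B →
        Ideal.Quotient.mk _ π = x.val → T s v =
          (1 - χ z) * (κ (lam v - s) * (χ x * ψ.val (emb (Algebra.norm F (π : K)))))) ∧
      ((¬∃ π : 𝓞 K, Ideal.span {π} = v.asIdeal * B) → T s v = 0) := by
  rcases hu with hu | hu
  · exact ⟨fun _ _ => 0, Good.zero R, fun s v => ⟨fun π x _ _ => by simp [hu], fun _ => rfl⟩⟩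
  by_cases h1 : χ z = 1
  · exact ⟨fun _ _ => 0, Good.zero R, fun s v => ⟨fun π x _ _ => by simp [h1], fun _ => rfl⟩⟩
  have h2 : χ z ^ 2 ≠ 1 := by
    intro h
    obtain ⟨k, rfl⟩ := hn
    have := congr_arg χ hz
    rw [map_pow, map_one, pow_succ, pow_mul, h, one_pow, one_mul] at this
    exact h1 this
  let χ' : MulChar (𝓞 K ⧸ Ideal.span {(m : 𝓞 K)}) ℂ := MulChar.ofUnitHom χ.toHomUnits
  have hχ : ∀ x : (𝓞 K ⧸ Ideal.span {(m : 𝓞 K)})ˣ, χ' x = χ x := fun x =>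
    MulChar.ofUnitHom_coe _ x
  obtain ⟨N, a, h, h', p1, p2⟩ := heckeOf F m hm χ' ψ (fun u => by
    rw [← hu u, ← hχ]
    rfl) B hB hBm
  obtain ⟨ζ, hζ⟩ := Ideal.Quotient.mk_surjective z.val
  have hζc : IsCoprime ζ (m : 𝓞 K) := by
    rw [← Ideal.isCoprime_span_singleton_iff, HeckeOfAux.coprime_iff, hζ]
    exact z.isUnit
  refine ⟨fun s v => (1 - χ z) * ∑ i, a i * ((h i).X v.asIdeal * κ (lam v - s)),
    (Good.sum fun i => (Good.hecke (h i) (h' i) ?_ ?_ (p1 i).2.2.2.2 κ hκ h0).smul _).smul _,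
    fun s v => ⟨fun π x hπ hx => ?_, fun hπ => ?_⟩⟩
  · refine Or.inl ⟨ζ, χ z, by rw [(p1 i).1]; exact hζc, h1, fun b => ?_⟩
    rw [(p1 i).2.2.1, (p1 i).2.2.1, map_mul, map_mul, hζ, hχ]
  · refine Or.inl ⟨ζ, χ z ^ 2, by rw [(p1 i).2.1]; exact hζc, h2, fun b => ?_⟩
    rw [(p1 i).2.2.2.1, (p1 i).2.2.2.1, map_mul, map_mul, hζ, hχ, mul_pow]
  · simp only [← mul_assoc (a _), ← Finset.sum_mul]
    rw [(p2 _ v.ne_bot).1 π hπ, hx, hχ]
    ring
  · simp only [← mul_assoc (a _), ← Finset.sum_mul]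
    rw [(p2 _ v.ne_bot).2 hπ, zero_mul, mul_zero]

theorem coprime_of_lt {I : Ideal (𝓞 K)} (hI : I ≠ ⊥) {v : Pr K}
    (h : Real.log (Ideal.absNorm I) < lam v) : IsCoprime v.asIdeal I := by
  rw [Ideal.isCoprime_iff_sup_eq]
  by_contra hc
  have h1 : I ≤ v.asIdeal := le_sup_right.trans (v.isMaximal.eq_of_le hc le_sup_left).ge
  have h2 := Nat.le_of_dvd (Nat.cast_pos.1 (PieceAux.absNorm_pos hI))
    (Ideal.absNorm_dvd_absNorm_of_le h1)
  exact absurd (Real.log_le_log (PieceAux.absNorm_pos v.ne_bot) (Nat.cast_le.2 h2)) (not_le.2 h)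

/-- the abstract form of the equidistribution theorem -/
theorem main {m : ℕ} (hm : m ≠ 0) {B : Ideal (𝓞 K)} (hB : B ≠ ⊥)
    (hBm : IsCoprime B (Ideal.span {(m : 𝓞 K)})) (H : 𝓞 K → ((F →+* ℂ) → ℂ) → ℂ) (R : ℝ)
    (hc : ∀ x, ContinuousOn (H x) (RZ F)) (hx : ∀ x x', (m : 𝓞 K) ∣ x - x' → H x = H x')
    (hU : ∀ x (u : (𝓞 K)ˣ), ∀ y ∈ RZ F, H (u * x) (ue (nu F K u) * y) = H x y)
    (hR : ∀ x, ∀ y ∈ RZ F, R < |lnN y| → H x y = 0) (ζ : 𝓞 K) {n : ℕ} (hn : Odd n)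
    (hζ : (m : 𝓞 K) ∣ ζ ^ n - 1) (D : ℝ → Pr K → ℂ)
    (h1 : ∀ X v π, Ideal.span {π} = v.asIdeal * B → D X v =
      H π (X⁻¹ • emb (Algebra.norm F (π : K))) - H (π * ζ) (X⁻¹ • emb (Algebra.norm F (π : K))))
    (h2 : ∀ X v, (¬∃ π : 𝓞 K, Ideal.span {π} = v.asIdeal * B) → D X v = 0) :
    Tendsto (fun X => ∑' v : Pr K, (wt v : ℂ) * D X v) atTop (𝓝 0) := by
  have hm' : Ideal.span {(m : 𝓞 K)} ≠ ⊥ := HeckeOfAux.span_ne (Nat.cast_ne_zero.2 hm)
  have : Finite (𝓞 K ⧸ Ideal.span {(m : 𝓞 K)}) := Ideal.finiteQuotientOfFreeOfNeBot _ hm'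
  have := finiteIndex_nu F (rho K m)
  choose rep hrep using Ideal.Quotient.mk_surjective (I := Ideal.span {(m : 𝓞 K)})
  have hx' : ∀ x x', Ideal.Quotient.mk (Ideal.span {(m : 𝓞 K)}) x = Ideal.Quotient.mk _ x' →
      H x = H x' := fun x x' h => hx x x' (Ideal.mem_span_singleton.1 (Ideal.Quotient.eq.1 h))
  have hz1 : Ideal.Quotient.mk (Ideal.span {(m : 𝓞 K)}) ζ ^ n = 1 := by
    rw [← map_pow, ← map_one (Ideal.Quotient.mk _), Ideal.Quotient.eq, Ideal.mem_span_singleton]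
    exact hζ
  obtain ⟨z, hz⟩ := IsUnit.of_pow_eq_one hz1 hn.pos.ne'
  have hz2 : z ^ n = 1 := Units.ext (by rw [Units.val_pow_eq_pow_val, hz, hz1, Units.val_one])
  let u : ℝ → ℝ := fun X => Module.finrank ℚ F * Real.log X - Real.log (Ideal.absNorm B)
  have hu : Tendsto u atTop atTop := tendsto_atTop_add_const_right _ _
    (Real.tendsto_log_atTop.const_mul_atTop (Nat.cast_pos.2 Module.finrank_pos))
  have hy : ∀ X : ℝ, 0 < X → ∀ (v : Pr K) (π : 𝓞 K), Ideal.span {π} = v.asIdeal * B →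
      emb (Algebra.norm F (π : K)) ∈ RZ F ∧ X⁻¹ • emb (Algebra.norm F (π : K)) ∈ RZ F ∧
        lnN (X⁻¹ • emb (Algebra.norm F (π : K))) = lam v - u X := by
    intro X hX v π hπ
    have h0 : π ≠ 0 := by
      rintro rfl
      exact mul_ne_zero v.ne_bot hB (by rw [← hπ]; simp)
    have h3 := Full.emb_mem_RZ (HeckeOfAux.norm_ne F h0)
    refine ⟨h3, PieceAux.smul_mem_RZ (inv_pos.2 hX) h3, ?_⟩
    rw [PieceAux.lnN_smul (inv_pos.2 hX) h3.1, lnN_norm F h0, hπ, map_mul, Nat.cast_mul,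
      Real.log_mul (PieceAux.absNorm_pos v.ne_bot).ne' (PieceAux.absNorm_pos hB).ne', Real.log_inv]
    simp only [u, lam]
    ring
  refine final D u hu (R + 1) ?_ fun ε hε => ?_
  · filter_upwards [eventually_gt_atTop 0] with X hX v hv
    by_cases hπ : ∃ π : 𝓞 K, Ideal.span {π} = v.asIdeal * B
    · obtain ⟨π, hπ⟩ := hπ
      obtain ⟨-, a, b⟩ := hy X hX v π hπ
      rw [h1 X v π hπ, hR _ _ a (by rw [b]; linarith), hR _ _ a (by rw [b]; linarith), sub_zero]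
    · exact h2 X v hπ
  obtain ⟨ι, _, κ, χ, ψ, p1, p2, p3⟩ := approx (rho K m) (nu F K) (fun x => H (rep x.val)) R
    (fun x => hc _) (fun x w y hy => by
      rw [← hU (rep x.val) w y hy, hx' (rep _) (w * rep x.val)]
      rw [hrep, map_mul, hrep]
      rfl) (fun x => hR _) (ε / 2) (by positivity)
  choose T hT hT' using fun j => term F hm hB hBm (p1 j).1 (p1 j).2 (χ j) (ψ j) (p2 j) z hn hz2
  refine ⟨fun s v => ∑ j, T j s v, Good.sum hT, ?_⟩
  filter_upwards [eventually_gt_atTop 0, hu.eventually_gt_atTop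
    (Real.log (Ideal.absNorm (Ideal.span {(m : 𝓞 K)})) + (R + 1))] with X hX hX' v hv
  by_cases hπ : ∃ π : 𝓞 K, Ideal.span {π} = v.asIdeal * B
  · obtain ⟨π, hπ⟩ := hπ
    obtain ⟨a, b, c⟩ := hy X hX v π hπ
    have hv' : IsCoprime v.asIdeal (Ideal.span {(m : 𝓞 K)}) :=
      coprime_of_lt hm' (by linarith [(abs_le.1 hv).1])
    obtain ⟨x, hx⟩ := (HeckeOfAux.coprime_iff π _).1 (hπ ▸ hv'.mul_left hBm)
    have q1 := p3 x _ b
    have q2 := p3 (x * z) _ b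
    rw [hx' _ π (by rw [hrep, hx])] at q1
    rw [hx' _ (π * ζ) (by rw [hrep, map_mul, Units.val_mul, hx, hz])] at q2
    have q3 := (norm_sub_le _ _).trans (add_le_add q1 q2)
    rw [add_halves] at q3
    refine le_of_eq_of_le (congr_arg norm ?_) q3
    rw [h1 X v π hπ, sub_sub_sub_comm, ← Finset.sum_sub_distrib]
    congr 1
    refine Finset.sum_congr rfl fun j _ => ?_
    rw [(hT' j _ v).1 π x hπ hx.symm, c, map_mul, val_smul _ a.1 (inv_pos.2 hX)]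
    ring
  · rw [h2 X v hπ, Finset.sum_eq_zero fun j _ => (hT' j _ v).2 hπ, sub_zero, norm_zero]
    exact hε.le

end EDKAux

open Classical EDKAux TorusAux in
/-- norms of primes in two classes that differ by an element of norm one are equidistributed
with respect to each other -/
theorem edk (F : Type) [Field F] [NumberField F] {K : Type} [Field K] [NumberField K]
    [Algebra F K] (l M : ℕ) (hM : M ≠ 0) (B : Ideal (𝓞 K)) (hB : B ≠ ⊥)
    (hBM : IsCoprime B (Ideal.span {(M : 𝓞 K)})) (θ θ' : 𝓞 K)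
    (hη : ∀ m : ℕ, m ≠ 0 → ∃ η₁ η₂ : 𝓞 K, IsCoprime η₁ (m : 𝓞 K) ∧
      IsCoprime η₂ (m : 𝓞 K) ∧ RingOfIntegers.norm F η₁ = RingOfIntegers.norm F η₂ ∧
      (M : 𝓞 K) ∣ θ' * η₂ - θ * η₁ ∧ ∃ n : ℕ, Odd n ∧ (m : 𝓞 K) ∣ η₁ ^ n - η₂ ^ n)
    (m : ℕ) (hm : m ≠ 0) (β : 𝓞 F) (h : ((F →+* ℂ) → ℂ) → ℂ) (hc : ContinuousOn h (RZ F))
    (C : Set ((F →+* ℂ) → ℂ)) (hC : IsCompact C) (hCR : C ⊆ RZ F)
    (hsupp : ∀ y ∈ RZ F, y ∉ C → h y = 0) :
    Tendsto (fun X : ℝ => ∑' v : Pr K, (wt v : ℂ) *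
      ((∑ᶠ a ∈ NSet F l M B θ v, if (m : 𝓞 F) ∣ a - β then h (X⁻¹ • emb (a : F)) else 0) -
        ∑ᶠ a ∈ NSet F l M B θ' v, if (m : 𝓞 F) ∣ a - β then h (X⁻¹ • emb (a : F)) else 0))
      atTop (𝓝 0) := by
  have hm' : M * m ≠ 0 := mul_ne_zero hM hm
  obtain ⟨η₁, η₂, a1, -, a2, a3, n, hn, a4⟩ := hη (M * m) hm'
  obtain ⟨ζ, z1, z2, z3⟩ := exists_zeta F hm' (dvd_mul_right M m) a1 a2 a3 a4
  obtain ⟨B', γ, γ', b1, b2, -, b3, b4, b5, b6, b7⟩ := exists_coprime_rep B hB _ hBM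
    (Ideal.span {((M * m : ℕ) : 𝓞 K)}) (HeckeOfAux.span_ne (Nat.cast_ne_zero.2 hm'))
  have d1 : (M : 𝓞 K) ∣ ((M * m : ℕ) : 𝓞 K) := Nat.cast_dvd_cast (dvd_mul_right M m)
  have d2 : (m : 𝓞 K) ∣ ((M * m : ℕ) : 𝓞 K) := Nat.cast_dvd_cast (dvd_mul_left m M)
  have d3 : (m : 𝓞 F) ∣ ((M * m : ℕ) : 𝓞 F) := Nat.cast_dvd_cast (dvd_mul_left m M)
  obtain ⟨ν, e, hν, hl⟩ := link F (l := l) hm b3 b4 (Ideal.mem_span_singleton.1 b5)
    (Ideal.mem_span_singleton.1 b6) b7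
    (b2.of_isCoprime_of_dvd_right (Ideal.dvd_iff_le.2 (Ideal.span_singleton_le_span_singleton.2 d2)))
  obtain ⟨R, hR⟩ := HH_supp hC hCR hsupp
  have hν' := Full.emb_mem_RZ hν
  refine main F hm' (pow_ne_zero l b1) b2.pow_left
    (fun x y => HH (PP F M m θ e β x) h (emb ν * y)) (R + |lnN (emb ν)|) (fun x => ?_)
    (fun x x' hx => ?_) (fun x u y hy => ?_) (fun x y hy h1 => ?_) ζ hn z3 _
    (fun X v π' hπ' => ?_) (fun X v hπ => ?_)
  · exact (HH_cont _ hc hC hsupp).comp (continuous_const.mul continuous_id).continuousOn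
      fun y hy => mul_mem_RZ hν' hy
  · rw [HH_congr h (PP_congr F hm θ e β (d1.trans hx) (d2.trans hx))]
  · rw [mul_left_comm]
    exact HH_shift h _ (PP_shift F θ e β x u) _
  · refine hR _ _ (mul_mem_RZ hν' hy) ?_
    rw [lnN_mul hν'.1 hy.1]
    have := abs_sub (lnN (emb ν) + lnN y) (lnN (emb ν))
    rw [add_sub_cancel_left] at this
    linarith
  · obtain ⟨π, c1, c2, c3, c4⟩ := (hl _).1 π' hπ'
    have h0 : π ≠ 0 := by
      rintro rfl
      exact mul_ne_zero v.ne_bot (pow_ne_zero l hB) (by rw [← c1]; simp)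
    rw [nset_sum F θ h0 β c1 c2 c3 c4, nset_sum F θ' h0 β c1 c2 c3 c4,
      HH_congr h (PP_zeta F e β π' (d3.trans z1) z2 hn.pos.ne' (d1.trans z3))]
  · have hS : ∀ θ : 𝓞 K, NSet F l M B θ v = ∅ := fun θ =>
      Set.eq_empty_of_forall_notMem fun a ⟨π, c1, _⟩ => hπ ((hl _).2 π c1)
    rw [hS, hS, sub_self]

end Pool.Agent.MP_14ad9d_nt.Full

end
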