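import Pool.Agent.MP_14ad9d_nt.Full.ADefs
import Pool.Agent.Mg.F14ad9d.G33d9a3
import Pool.Agent.MP_14ad9d_nt.Full.Mert
import Pool.Agent.MP_14ad9d_nt.Full.Torus
import Pool.Agent.MP_14ad9d_nt.Full.Euler
import Pool.Agent.Mg.F14ad9d.Gee77e1
import Pool.Agent.MP_14ad9d_nt.Full.DL
import Pool.Agent.Mg.F14ad9d.G10c727

section

set_option autoImplicit false

open NumberField

namespace Pool.Agent.MP_14ad9d_nt.Full

open Polynomial in
/-- a prime congruent to one splits completely in the cyclotomic field -/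
theorem splitP (l : ℕ) [Fact l.Prime] (F : Type) [Field F] [NumberField F]
    [IsCyclotomicExtension {l} ℚ F] (p : ℕ) (hp : p.Prime) (h1 : p ≡ 1 [MOD l]) :
    ∃ φ : 𝓞 F →+* (Fin (l - 1) → ZMod p), Function.Surjective φ := by
  have hl : l.Prime := Fact.out
  have : Fact p.Prime := ⟨hp⟩
  have : NeZero l := ⟨hl.ne_zero⟩
  have hd : l ∣ Fintype.card (ZMod p)ˣ := by
    rw [ZMod.card_units]
    exact (Nat.modEq_iff_dvd' hp.one_le).1 h1.symm
  obtain ⟨x, hx⟩ := exists_prime_orderOf_dvd_card l hd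
  have hx' : IsPrimitiveRoot (x : ZMod p) l :=
    IsPrimitiveRoot.coe_units_iff.2 (hx ▸ IsPrimitiveRoot.orderOf x)
  have hζ := IsCyclotomicExtension.zeta_spec l ℚ F
  let y : Fin (l - 1) → ZMod p := fun i => (x : ZMod p) ^ (i.1 + 1)
  have hlt : ∀ i : Fin (l - 1), i.1 + 1 < l := fun i => by have := i.2; omega
  have hy : Function.Injective y := fun i j h =>
    Fin.ext (Nat.succ_injective (hx'.pow_inj (hlt i) (hlt j) h))
  have hev : ∀ (P : ℤ[X]) (i : Fin (l - 1)),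
      aeval y P i = eval (y i) (P.map (Int.castRingHom (ZMod p))) := by
    intro P i
    rw [eval_map, ← algebraMap_int_eq, ← aeval_def]
    exact (aeval_algHom_apply (Pi.evalAlgHom ℤ (fun _ => ZMod p) i) y P).symm
  have hmin : minpoly ℤ hζ.integralPowerBasis.gen = cyclotomic l ℤ := by
    rw [IsPrimitiveRoot.integralPowerBasis_gen, ← RingOfIntegers.minpoly_coe,
      cyclotomic_eq_minpoly hζ hl.pos]
    rfl
  have h0 : aeval y (minpoly ℤ hζ.integralPowerBasis.gen) = 0 := by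
    funext i
    rw [hev, hmin, map_cyclotomic]
    exact (hx'.pow_of_coprime _
      (Nat.coprime_of_lt_prime (Nat.succ_ne_zero _) (hlt i) hl).symm).isRoot_cyclotomic hl.pos
  refine ⟨(hζ.integralPowerBasis.lift y h0).toRingHom, fun v => ?_⟩
  obtain ⟨P, hP⟩ := map_surjective (Int.castRingHom (ZMod p)) (ZMod.ringHom_surjective _)
    (Lagrange.interpolate Finset.univ y v)
  refine ⟨aeval hζ.integralPowerBasis.gen P, ?_⟩
  change hζ.integralPowerBasis.lift y h0 _ = v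
  rw [PowerBasis.lift_aeval]
  funext i
  rw [hev, hP, Lagrange.eval_interpolate_at_node _ hy.injOn (Finset.mem_univ i)]

end Pool.Agent.MP_14ad9d_nt.Full

end

section

set_option autoImplicit false

open NumberField Filter Topology

namespace Pool.Agent.MP_14ad9d_nt.Full

open Classical in
/-- two equidistributed families of weights on almost primes of the cyclotomic ring contain a
pair of points differing by `r` times an `l`-th power -/
theorem addF (l : ℕ) [Fact l.Prime] (hl : 2 < l) (F : Type) [Field F] [NumberField F]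
    [IsCyclotomicExtension {l} ℚ F] (b : Module.Basis (Fin (l - 1)) ℤ (𝓞 F))
    (r : 𝓞 F) (hr : r ≠ 0) (B : ℕ) (hB : B ≠ 0) (f g : ℝ → (𝓞 F →₀ ℝ)) (C δ : ℝ) (hδ : 0 < δ)
    (hf0 : ∀ X a, 0 ≤ f X a) (hg0 : ∀ X a, 0 ≤ g X a)
    (hsup : ∀ᶠ X : ℝ in atTop, ∀ a, f X a ≤ C * Real.log X ∧ g X a ≤ C * Real.log X)
    (hbox : ∀ᶠ X : ℝ in atTop, ∀ a, (f X a ≠ 0 ∨ g X a ≠ 0) → ‖b.equivFun a‖ ≤ C * X)
    (hprime : ∀ᶠ X : ℝ in atTop, ∀ a, (f X a ≠ 0 ∨ g X a ≠ 0) → ∀ q : Ideal (𝓞 F), q.IsPrime →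
      q ≠ ⊥ → a ∈ q → (B : 𝓞 F) ∈ q ∨ X ≤ Ideal.absNorm q)
    (hmass : ∃ᶠ X : ℝ in atTop, δ * X ^ (l - 1) ≤ (f X).sum fun _ x => x)
    (hequi : ∀ M : ℕ, M ≠ 0 → ∀ β : 𝓞 F, ∀ h : (Fin (l - 1) → ℝ) → ℂ, Continuous h →
      Tendsto (fun X : ℝ =>
        (((f X).sum fun a x => if (M : 𝓞 F) ∣ a - β then
            (x : ℂ) * h (fun i => (b.equivFun a i : ℝ) / X) else 0) -
          ((g X).sum fun a x => if (M : 𝓞 F) ∣ a - β then
            (x : ℂ) * h (fun i => (b.equivFun a i : ℝ) / X) else 0)) / (X : ℂ) ^ (l - 1))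
        atTop (𝓝 0)) (X₀ : ℝ) :
    ∃ X : ℝ, X₀ ≤ X ∧ ∃ a a' t : 𝓞 F, f X a ≠ 0 ∧ g X a' ≠ 0 ∧ t ≠ 0 ∧ (l : 𝓞 F) ∣ t ∧
      a' - a = r * t ^ l := by
  have hp : l.Prime := Fact.out
  have hφ : ∀ p : ℕ, ∃ φ : 𝓞 F →ₙ+* (Fin (l - 1) → ZMod p), p.Prime → p ≡ 1 [MOD l] →
      ∃ ψ : 𝓞 F →+* (Fin (l - 1) → ZMod p), Function.Surjective ψ ∧ ∀ a, φ a = ψ a := by
    intro p
    by_cases h : p.Prime ∧ p ≡ 1 [MOD l]
    · obtain ⟨ψ, hψ⟩ := splitP l F p h.1 h.2
      exact ⟨ψ, fun _ _ => ⟨ψ, hψ, fun _ => rfl⟩⟩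
    · exact ⟨0, fun h1 h2 => absurd ⟨h1, h2⟩ h⟩
  choose φ hφ using hφ
  obtain ⟨r', hr'⟩ := Ideal.mem_span_singleton.1 (Ideal.absNorm_mem (Ideal.span {r}))
  refine AddFAux.addG b (by omega) l hp (by rw [Nat.cast_sub hp.one_le, Nat.cast_one]) φ
    (fun p h1 h2 => ?_) r r' (Ideal.absNorm (Ideal.span {r})) ?_ hr'.symm B hB f g C δ hδ hf0 hg0
    hsup hbox ?_ hmass hequi X₀
  · obtain ⟨ψ, h3, h4⟩ := hφ p h1 h2
    intro y
    obtain ⟨a, ha⟩ := h3 y
    exact ⟨a, (h4 a).trans ha⟩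
  · rw [Ne, Ideal.absNorm_eq_zero_iff, Ideal.span_singleton_eq_bot]
    exact hr
  · filter_upwards [hprime] with X hX a ha p h1 h2 h3 h4 i h5
    obtain ⟨ψ, h6, h7⟩ := hφ p h1 h2
    have : Fact p.Prime := ⟨h1⟩
    set χ : 𝓞 F →+* ZMod p := (Pi.evalRingHom _ i).comp ψ with hχ
    have hs : Function.Surjective χ := ZMod.ringHom_surjective χ
    have hn : Ideal.absNorm (RingHom.ker χ) = p := by
      rw [Ideal.absNorm_apply, Submodule.cardQuot_apply,
        Nat.card_congr (RingHom.quotientKerEquivOfSurjective hs).toEquiv, Nat.card_zmod]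
    have hb : RingHom.ker χ ≠ ⊥ := by
      intro h
      rw [h, Ideal.absNorm_bot] at hn
      exact h1.ne_zero hn.symm
    rw [h7] at h5
    rcases hX a ha (RingHom.ker χ) (RingHom.ker_isPrime χ) hb h5 with h | h
    · rw [RingHom.mem_ker, map_natCast, ZMod.natCast_eq_zero_iff] at h
      exact h3 h
    · rw [hn] at h
      linarith

end Pool.Agent.MP_14ad9d_nt.Full

end

section

set_option autoImplicit false

open NumberField

namespace Pool.Agent.MP_14ad9d_nt.Full.AddKAux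

variable {F K : Type} [Field F] [NumberField F] [Field K] [NumberField K] [Algebra F K]
  {l M : ℕ} {B : Ideal (𝓞 K)} {θ : 𝓞 K} {v : Pr K} {a : 𝓞 F}

theorem nset_norm (ha : a ∈ NSet F l M B θ v) :
    Ideal.absNorm (Ideal.span {a}) = Ideal.absNorm v.asIdeal * Ideal.absNorm B ^ l := by
  obtain ⟨π, h1, -, rfl⟩ := ha
  rw [← map_pow, ← map_mul, ← h1, Ideal.absNorm_span_singleton, Ideal.absNorm_span_singleton]
  congr 1
  have : ((Algebra.norm ℤ (RingOfIntegers.norm F π) : ℤ) : ℚ) = Algebra.norm ℤ π := by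
    rw [Algebra.coe_norm_int, Algebra.coe_norm_int, RingOfIntegers.coe_norm, Algebra.norm_norm]
  exact_mod_cast this

theorem norm_pos {I : Ideal (𝓞 K)} (h : I ≠ ⊥) : (0 : ℝ) < Ideal.absNorm I :=
  Nat.cast_pos.2 (Nat.pos_of_ne_zero fun e => h (Ideal.absNorm_eq_zero_iff.1 e))

theorem nset_ne (hB : B ≠ ⊥) (ha : a ∈ NSet F l M B θ v) : a ≠ 0 := fun e => by
  have := nset_norm ha
  rw [e, Ideal.span_singleton_eq_bot.2 rfl, Ideal.absNorm_bot] at this
  have h1 := norm_pos hB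
  have h2 := norm_pos v.ne_bot
  have : (Ideal.absNorm v.asIdeal : ℝ) * Ideal.absNorm B ^ l = 0 := by exact_mod_cast this.symm
  exact absurd this (by positivity)

omit [NumberField F] in
theorem smul_RZ {z : (F →+* ℂ) → ℂ} (hz : z ∈ RZ F) {t : ℝ} (ht : 0 < t) : t • z ∈ RZ F :=
  ⟨fun φ => by simpa using ⟨ht.ne', hz.1 φ⟩, fun φ => by simp [hz.2 φ]⟩

theorem lnN_smul {z : (F →+* ℂ) → ℂ} (hz : z ∈ RZ F) {t : ℝ} (ht : 0 < t) :
    lnN (t • z) = Module.finrank ℚ F * Real.log t + lnN z := by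
  rw [lnN, lnN, ← Embeddings.card F ℂ, ← nsmul_eq_mul, ← Finset.card_univ, ← Finset.sum_const,
    ← Finset.sum_add_distrib]
  refine Finset.sum_congr rfl fun φ _ => ?_
  rw [Pi.smul_apply, norm_smul, Real.norm_of_nonneg ht.le,
    Real.log_mul ht.ne' (norm_ne_zero_iff.2 (hz.1 φ))]

theorem nset_RZ (hB : B ≠ ⊥) (ha : a ∈ NSet F l M B θ v) {X : ℝ} (hX : 0 < X) :
    X⁻¹ • emb (a : F) ∈ RZ F :=
  smul_RZ (emb_mem_RZ (by simpa using nset_ne hB ha)) (inv_pos.2 hX)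

theorem nset_lnN (hB : B ≠ ⊥) (ha : a ∈ NSet F l M B θ v) {X : ℝ} (hX : 0 < X) :
    lnN (X⁻¹ • emb (a : F)) =
      lam v + l * Real.log (Ideal.absNorm B) - Module.finrank ℚ F * Real.log X := by
  have h0 : (a : F) ≠ 0 := by simpa using nset_ne hB ha
  have h1 := nset_norm ha
  rw [Ideal.absNorm_span_singleton] at h1
  have h2 : |((Algebra.norm ℚ (a : F) : ℚ) : ℝ)| =
      Ideal.absNorm v.asIdeal * (Ideal.absNorm B : ℝ) ^ l := by
    rw [← Algebra.coe_norm_int, Rat.cast_intCast, ← Int.cast_abs, ← Int.natCast_natAbs, h1]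
    push_cast
    rfl
  rw [lnN_smul (emb_mem_RZ h0) (inv_pos.2 hX), lnN_emb h0, h2,
    Real.log_mul (norm_pos v.ne_bot).ne' (pow_pos (norm_pos hB) l).ne', Real.log_pow,
    Real.log_inv, lam]
  ring

theorem continuousOn_lnN : ContinuousOn (lnN (E := F)) (RZ F) :=
  continuousOn_finsetSum _ fun φ _ =>
    ((continuous_apply φ).norm.continuousOn).log fun _ hz => norm_ne_zero_iff.2 (hz.1 φ)

theorem exists_co {d : ℕ} (hd : Module.finrank ℚ F = d) :
    ∃ (b : Module.Basis (Fin d) ℤ (𝓞 F)) (co : ((F →+* ℂ) → ℂ) → Fin d → ℝ), Continuous co ∧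
      ∀ (t : ℝ) (a : 𝓞 F), co (t⁻¹ • emb (a : F)) = fun i => (b.equivFun a i : ℝ) / t := by
  let e : Module.Free.ChooseBasisIndex ℤ (𝓞 F) ≃ Fin d := Fintype.equivFinOfCardEq (by
    rw [← Module.finrank_eq_card_chooseBasisIndex, RingOfIntegers.rank, hd])
  refine ⟨(RingOfIntegers.basis F).reindex e,
    fun y i => ((canonicalEmbedding.latticeBasis F).coord (e.symm i) y).re,
    continuous_pi fun i => Complex.continuous_re.comp
      (LinearMap.continuous_of_finiteDimensional _), fun t a => funext fun i => ?_⟩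
  have h1 : (t⁻¹ : ℝ) • emb (a : F) = ((t⁻¹ : ℝ) : ℂ) • canonicalEmbedding F (a : F) := by
    ext φ
    simp [emb]
  beta_reduce
  rw [h1, map_smul, Module.Basis.coord_apply, canonicalEmbedding.integralBasis_repr_apply,
    RingOfIntegers.coe_eq_algebraMap, integralBasis_repr_apply, smul_eq_mul,
    Complex.re_ofReal_mul, div_eq_inv_mul]
  simp

theorem exists_omega {C : Set ((F →+* ℂ) → ℂ)} (hC : IsCompact C) (hCR : C ⊆ RZ F) :
    ∃ (L : Set ((F →+* ℂ) → ℂ)) (ω : ((F →+* ℂ) → ℂ) → ℝ), IsCompact L ∧ L ⊆ RZ F ∧ C ⊆ L ∧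
      Continuous ω ∧ (∀ y, 0 ≤ ω y ∧ ω y ≤ 1) ∧ (∀ y ∈ C, ω y = 1) ∧
      ∀ y ∈ RZ F, y ∉ L → ω y = 0 := by
  have ho : IsOpen (NZ F) := by
    rw [NZ, Set.ofPred_forall]
    exact isOpen_iInter_of_finite fun φ => isOpen_ne_fun (continuous_apply φ) continuous_const
  obtain ⟨L, cL, h1, h2⟩ := exists_compact_between hC ho fun z hz => (hCR hz).1
  obtain ⟨ω, o1, o0, -, o⟩ := exists_continuous_one_zero_of_isCompact hC
    (isOpen_interior (s := L)).isClosed_compl (Set.disjoint_compl_right_iff_subset.2 h1)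
  let D : Set ((F →+* ℂ) → ℂ) :=
    {z | ∀ φ, z (ComplexEmbedding.conjugate φ) = (starRingEnd ℂ) (z φ)}
  have cD : IsClosed D := by
    simp only [D, Set.ofPred_forall]
    exact isClosed_iInter fun φ => isClosed_eq (continuous_apply _)
      (Complex.continuous_conj.comp (continuous_apply φ))
  exact ⟨L ∩ D, ω, cL.inter_right cD, fun z hz => ⟨h2 hz.1, hz.2⟩,
    fun z hz => ⟨interior_subset (h1 hz), (hCR hz).2⟩, ω.continuous, o, o1,
    fun y hy h => o0 fun c => h ⟨interior_subset c, hy.2⟩⟩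

theorem card_le {p : ℕ} (hp : p.Prime) (s : Finset (Pr K))
    (h : ∀ v ∈ s, Ideal.absNorm v.asIdeal = p) : s.card ≤ Module.finrank ℚ K := by
  have h1 : ∏ v ∈ s, v.asIdeal ∣ Ideal.span {(p : 𝓞 K)} := by
    refine Finset.prod_dvd_of_coprime (fun v _ w _ ne => ?_) fun v hv => ?_
    · exact (Ideal.isCoprime_iff_sup_eq.2 (v.isMaximal.coprime_of_ne w.isMaximal
        fun e => ne (IsDedekindDomain.HeightOneSpectrum.ext e)))
    · rw [Ideal.dvd_span_singleton, ← h v hv]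
      exact Ideal.absNorm_mem _
  have h2 := map_dvd Ideal.absNorm h1
  rw [map_prod, Finset.prod_congr rfl h, Finset.prod_const, Ideal.absNorm_span_natCast,
    RingOfIntegers.rank] at h2
  exact (Nat.pow_dvd_pow_iff_le_right hp.one_lt).1 h2

theorem prime_cases (ha : a ∈ NSet F l M B θ v) (hv : Deg1 v) {q : Ideal (𝓞 F)} (hq : q.IsPrime)
    (h : a ∈ q) :
    ((Ideal.absNorm B : ℕ) : 𝓞 F) ∈ q ∨ Ideal.absNorm v.asIdeal ≤ Ideal.absNorm q := by
  have h1 := (Ideal.span_singleton_le_iff_mem q).2 h (Ideal.absNorm_mem _)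
  rw [nset_norm ha, Nat.cast_mul, Nat.cast_pow] at h1
  rcases hq.mem_or_mem h1 with c | c
  · have h2 := Ideal.absNorm_dvd_absNorm_of_le ((Ideal.span_singleton_le_iff_mem q).2 c)
    rw [Ideal.absNorm_span_natCast] at h2
    obtain ⟨i, -, e⟩ := (Nat.dvd_prime_pow hv).1 h2
    have hi : i ≠ 0 := fun z => hq.ne_top (Ideal.absNorm_eq_one_iff.1 (by rw [e, z, pow_zero]))
    exact Or.inr (e ▸ Nat.le_self_pow hi _)
  · exact Or.inl (hq.mem_of_pow_mem _ c)

end Pool.Agent.MP_14ad9d_nt.Full.AddKAux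

end

section

set_option autoImplicit false

open NumberField Filter Topology

namespace Pool.Agent.MP_14ad9d_nt.Full.AddKAux

/-- the data used to build the weights -/
structure Dat (F K : Type) [Field F] [NumberField F] [Field K] [NumberField K] where
  L : Set ((F →+* ℂ) → ℂ)
  ω : ((F →+* ℂ) → ℂ) → ℝ
  R : ℝ
  A : ℝ → Finset (𝓞 F)
  V : ℝ → Finset (Pr K)
  R1 : 1 ≤ R
  hR : ∀ y ∈ L, |lnN y| ≤ R
  ω01 : ∀ y, 0 ≤ ω y ∧ ω y ≤ 1
  ω0 : ∀ y ∈ RZ F, y ∉ L → ω y = 0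
  hA : ∀ X, 0 < X → ∀ a, a ∈ A X ↔ X⁻¹ • emb (a : F) ∈ L
  hV : ∀ X v, v ∈ V X ↔ lam v ≤ R + Module.finrank ℚ F * Real.log X

variable {F K : Type} [Field F] [NumberField F] [Field K] [NumberField K] [Algebra F K]
  (D : Dat F K) (l M : ℕ) (B : Ideal (𝓞 K)) (θ : 𝓞 K)

open Classical in
/-- the weight function -/
noncomputable def Dat.f (X : ℝ) : 𝓞 F →₀ ℝ :=
  Finsupp.onFinset (D.A X) (fun a => if a ∈ D.A X then D.ω (X⁻¹ • emb (a : F)) *
    ∑ v ∈ D.V X, (if Deg1 v ∧ a ∈ NSet F l M B θ v then lam v else 0) else 0)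
    fun _ h => by
      by_contra c
      exact h (if_neg c)

variable {D l M B θ} {X : ℝ} {a : 𝓞 F} {v : Pr K}

open Classical in
theorem Dat.f_apply : D.f l M B θ X a = if a ∈ D.A X then D.ω (X⁻¹ • emb (a : F)) *
    ∑ v ∈ D.V X, (if Deg1 v ∧ a ∈ NSet F l M B θ v then lam v else 0) else 0 := rfl

open Classical in
theorem Dat.f_sum {N : Type} [AddCommMonoid N] (g : 𝓞 F → ℝ → N) (hg : ∀ a, g a 0 = 0) :
    (D.f l M B θ X).sum g = ∑ a ∈ D.A X, g a (D.ω (X⁻¹ • emb (a : F)) *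
      ∑ v ∈ D.V X, (if Deg1 v ∧ a ∈ NSet F l M B θ v then lam v else 0)) := by
  rw [Dat.f, Finsupp.onFinset_sum _ hg]
  exact Finset.sum_congr rfl fun a ha => by rw [if_pos ha]

theorem Dat.f_nonneg : 0 ≤ D.f l M B θ X a := by
  rw [Dat.f_apply]
  split_ifs
  · refine mul_nonneg (D.ω01 _).1 (Finset.sum_nonneg fun v _ => ?_)
    split_ifs
    exacts [(lam_pos v).le, le_rfl]
  · exact le_rfl

theorem Dat.f_ne (h : D.f l M B θ X a ≠ 0) :
    a ∈ D.A X ∧ ∃ v, Deg1 v ∧ a ∈ NSet F l M B θ v := by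
  rw [Dat.f_apply] at h
  split_ifs at h with c
  · obtain ⟨v, -, hv⟩ := Finset.exists_ne_zero_of_sum_ne_zero (right_ne_zero_of_mul h)
    exact ⟨c, v, by by_contra e; exact hv (if_neg e)⟩
  · exact absurd rfl h

theorem log_nonneg (l : ℕ) (B : Ideal (𝓞 K)) : 0 ≤ (l : ℝ) * Real.log (Ideal.absNorm B) :=
  mul_nonneg l.cast_nonneg (Real.log_natCast_nonneg _)

theorem Dat.mem_V (hB : B ≠ ⊥) (hX : 0 < X) (ha : a ∈ D.A X) (hv : a ∈ NSet F l M B θ v) :
    v ∈ D.V X := by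
  have h1 := (abs_le.1 (D.hR _ ((D.hA X hX a).1 ha))).2
  rw [nset_lnN hB hv hX] at h1
  rw [D.hV]
  linarith [log_nonneg l B]

theorem Dat.large (D : Dat F K) (hd : 2 ≤ Module.finrank ℚ F) (l M : ℕ) (hB : B ≠ ⊥) :
    ∀ᶠ X : ℝ in atTop, ∀ θ a v, a ∈ D.A X → a ∈ NSet F l M B θ v →
      X ≤ Ideal.absNorm v.asIdeal := by
  filter_upwards [eventually_ge_atTop (1 : ℝ),
    Real.tendsto_log_atTop.eventually_ge_atTop (D.R + l * Real.log (Ideal.absNorm B))]
    with X h1 h2 θ a v ha hv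
  have hX : 0 < X := by linarith
  have h3 := (abs_le.1 (D.hR _ ((D.hA X hX a).1 ha))).1
  rw [nset_lnN hB hv hX] at h3
  have h4 : (2 : ℝ) ≤ Module.finrank ℚ F := by exact_mod_cast hd
  refine (Real.log_le_log_iff hX (norm_pos v.ne_bot)).1 ?_
  have h5 := Real.log_nonneg h1
  change _ ≤ lam v
  nlinarith

theorem Dat.f_le (D : Dat F K) (l M : ℕ) (hB : B ≠ ⊥) : ∀ᶠ X : ℝ in atTop, ∀ θ a,
    D.f l M B θ X a ≤ Module.finrank ℚ K * (Module.finrank ℚ F + 1) * Real.log X := by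
  classical
  filter_upwards [Real.tendsto_log_atTop.eventually_ge_atTop D.R] with X h2 θ a
  have h0 : 0 ≤ Real.log X := by linarith [D.R1]
  rw [Dat.f_apply]
  split_ifs
  swap
  · positivity
  rw [← Finset.sum_filter]
  set s := (D.V X).filter fun v => Deg1 v ∧ a ∈ NSet F l M B θ v
  have h3 : s.card ≤ Module.finrank ℚ K := by
    rcases s.eq_empty_or_nonempty with e | ⟨w, hw⟩
    · simp [e]
    · refine card_le (Finset.mem_filter.1 hw).2.1 s fun v hv => ?_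
      have e := (nset_norm (Finset.mem_filter.1 hv).2.2).symm.trans
        (nset_norm (Finset.mem_filter.1 hw).2.2)
      exact Nat.eq_of_mul_eq_mul_right (pow_pos (Nat.cast_pos.1 (norm_pos hB)) l) e
  have h4 := Finset.sum_le_card_nsmul s lam ((Module.finrank ℚ F + 1) * Real.log X)
    fun v hv => by linarith [(D.hV X v).1 (Finset.mem_filter.1 hv).1]
  have h5 : 0 ≤ ∑ v ∈ s, lam v := Finset.sum_nonneg fun v _ => (lam_pos v).le
  rw [nsmul_eq_mul] at h4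
  calc _ ≤ ∑ v ∈ s, lam v := mul_le_of_le_one_left h5 (D.ω01 _).2
    _ ≤ _ := h4
    _ ≤ _ := by
      rw [mul_assoc]
      gcongr

open Classical in
theorem Dat.mass (hB : B ≠ ⊥)
    (hω : ∀ X : ℝ, 0 < X → ∀ v, ∀ a ∈ NSet F l M B θ v, |lnN (X⁻¹ • emb (a : F))| ≤ 1 →
      ∃ a' ∈ NSet F l M B θ v, a' ∈ D.A X ∧ D.ω (X⁻¹ • emb (a' : F)) = 1) {c : ℝ}
    (h : ∃ᶠ u : ℝ in atTop, c ≤ ∑' v : Pr K,
      if ∃ π : 𝓞 K, Ideal.span {π} = v.asIdeal * B ^ l ∧ (M : 𝓞 K) ∣ π - θ then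
        wt v * tent (lam v - u) else 0) :
    ∃ᶠ X : ℝ in atTop, c / (Real.exp 1 * Ideal.absNorm B ^ l) * X ^ Module.finrank ℚ F ≤
      (D.f l M B θ X).sum fun _ x => x := by
  have hd : (0 : ℝ) < Module.finrank ℚ F := Nat.cast_pos.2 Module.finrank_pos
  have hN := norm_pos hB
  have ht : Tendsto (fun u : ℝ => Real.exp ((u + l * Real.log (Ideal.absNorm B)) /
      Module.finrank ℚ F)) atTop atTop :=
    Real.tendsto_exp_atTop.comp ((tendsto_atTop_add_const_right _ _ tendsto_id).atTop_div_const hd)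
  refine ht.frequently (h.mono fun u hu => ?_)
  set X := Real.exp ((u + l * Real.log (Ideal.absNorm B)) / Module.finrank ℚ F) with hX
  have X0 : 0 < X := Real.exp_pos _
  have lX : Module.finrank ℚ F * Real.log X = u + l * Real.log (Ideal.absNorm B) := by
    rw [hX, Real.log_exp, mul_div_cancel₀ _ hd.ne']
  have pX : X ^ Module.finrank ℚ F = Real.exp u * Ideal.absNorm B ^ l := by
    rw [← Real.exp_log (pow_pos X0 _), Real.log_pow, lX, Real.exp_add, ← Real.log_pow,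
      Real.exp_log (pow_pos hN l)]
  have t0 : ∀ x : ℝ, 1 ≤ |x| → tent x = 0 := fun x hx => max_eq_left (by linarith)
  rw [tsum_eq_sum (s := D.V X) fun v hv => by
    rw [D.hV, not_le, lX] at hv
    rw [t0 _ (le_abs.2 (Or.inl (by linarith [D.R1, log_nonneg l B]))), mul_zero,
      ite_self]] at hu
  rw [Dat.f_sum _ fun _ => rfl, pX, show c / (Real.exp 1 * Ideal.absNorm B ^ l) *
    (Real.exp u * Ideal.absNorm B ^ l) = c * Real.exp (u - 1) by
      rw [Real.exp_sub]; field_simp]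
  simp only [Finset.mul_sum]
  rw [Finset.sum_comm]
  refine (mul_le_mul_of_nonneg_right hu (Real.exp_pos _).le).trans ?_
  rw [Finset.sum_mul]
  refine Finset.sum_le_sum fun v _ => ?_
  have nn : ∀ a ∈ D.A X, 0 ≤ D.ω (X⁻¹ • emb (a : F)) *
      if Deg1 v ∧ a ∈ NSet F l M B θ v then lam v else 0 := fun a _ =>
    mul_nonneg (D.ω01 _).1 (by split_ifs; exacts [(lam_pos v).le, le_rfl])
  by_cases c1 : (∃ π : 𝓞 K, Ideal.span {π} = v.asIdeal * B ^ l ∧ (M : 𝓞 K) ∣ π - θ) ∧ Deg1 v ∧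
      |lam v - u| < 1
  · obtain ⟨⟨π, h1, h2⟩, h3, h4⟩ := c1
    have m : RingOfIntegers.norm F π ∈ NSet F l M B θ v := ⟨π, h1, h2, rfl⟩
    obtain ⟨a, a1, a2, a3⟩ := hω X X0 v _ m (by
      rw [nset_lnN hB m X0, lX, add_sub_add_right_eq_sub]
      exact h4.le)
    refine le_trans ?_ (Finset.single_le_sum nn a2)
    rw [if_pos ⟨π, h1, h2⟩, if_pos ⟨h3, a1⟩, a3, one_mul, wt, if_pos h3]
    have h5 : Real.exp (u - 1) ≤ Ideal.absNorm v.asIdeal := by
      rw [← Real.exp_log (norm_pos v.ne_bot)]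
      exact Real.exp_le_exp.2 (by change _ ≤ lam v; linarith [(abs_lt.1 h4).1])
    have h6 : tent (lam v - u) ≤ 1 := max_le zero_le_one (by linarith [abs_nonneg (lam v - u)])
    have h7 : 0 ≤ tent (lam v - u) := le_max_left _ _
    have h8 := lam_pos v
    have h9 := norm_pos v.ne_bot
    calc _ ≤ lam v / Ideal.absNorm v.asIdeal * 1 * Ideal.absNorm v.asIdeal := by gcongr
      _ = _ := by field_simp
  · refine le_trans (le_of_eq ?_) (Finset.sum_nonneg nn)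
    split_ifs with c2
    · by_cases c3 : Deg1 v
      · rw [t0 _ (not_lt.1 fun e => c1 ⟨c2, c3, e⟩), mul_zero, zero_mul]
      · rw [wt, if_neg c3, zero_mul, zero_mul]
    · exact zero_mul _

open Classical in
theorem Dat.equi (hB : B ≠ ⊥) (hX : 0 < X) (P : 𝓞 F → Prop) (g : ((F →+* ℂ) → ℂ) → ℂ) :
    ∃ T : Pr K → ℂ, (∀ v, T v = ∑ᶠ a ∈ NSet F l M B θ v, if P a then
      (D.ω (X⁻¹ • emb (a : F)) * g (X⁻¹ • emb (a : F)) * Real.exp (lnN (X⁻¹ • emb (a : F))) /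
        (Ideal.absNorm B : ℂ) ^ l : ℂ) else 0) ∧ (∀ v ∉ D.V X, T v = 0) ∧
      ((D.f l M B θ X).sum fun a x => if P a then (x : ℂ) * g (X⁻¹ • emb (a : F)) else 0) /
        (X : ℂ) ^ Module.finrank ℚ F = ∑ v ∈ D.V X, wt v * T v := by
  refine ⟨fun v => ∑ a ∈ (D.A X).filter (· ∈ NSet F l M B θ v), if P a then
      (D.ω (X⁻¹ • emb (a : F)) * g (X⁻¹ • emb (a : F)) * Real.exp (lnN (X⁻¹ • emb (a : F))) /
        (Ideal.absNorm B : ℂ) ^ l : ℂ) else 0, fun v => ?_, fun v hv => ?_, ?_⟩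
  · refine (finsum_mem_eq_sum_of_inter_support_eq _ ?_).symm
    ext a
    simp only [Set.mem_inter_iff, Finset.coe_filter, Set.mem_ofPred_eq, and_congr_left_iff,
      iff_and_self]
    intro h1 h2
    by_contra c
    rw [D.hA X hX] at c
    simp [D.ω0 _ (nset_RZ hB h2 hX) c] at h1
  · exact Finset.sum_eq_zero fun a ha =>
      absurd (D.mem_V hB hX (Finset.mem_filter.1 ha).1 (Finset.mem_filter.1 ha).2) hv
  · rw [Dat.f_sum _ fun _ => by simp]
    simp only [Finset.sum_filter, Finset.mul_sum]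
    rw [Finset.sum_comm, Finset.sum_div]
    refine Finset.sum_congr rfl fun a _ => ?_
    by_cases c : P a
    · simp only [if_pos c, Complex.ofReal_sum, Finset.sum_mul, Finset.sum_div]
      refine Finset.sum_congr rfl fun v _ => ?_
      by_cases c1 : a ∈ NSet F l M B θ v
      · by_cases c2 : Deg1 v
        · have hN := norm_pos hB
          have hv := norm_pos v.ne_bot
          have e : Real.exp (lnN (X⁻¹ • emb (a : F))) =
              Ideal.absNorm v.asIdeal * Ideal.absNorm B ^ l / X ^ Module.finrank ℚ F := by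
            rw [nset_lnN hB c1 hX, Real.exp_sub, Real.exp_add, ← Real.log_pow, ← Real.log_pow,
              Real.exp_log (pow_pos hN l), Real.exp_log (pow_pos hX _), lam, Real.exp_log hv]
          have hN' : (Ideal.absNorm B : ℂ) ≠ 0 := by exact_mod_cast hN.ne'
          have hv' : (Ideal.absNorm v.asIdeal : ℂ) ≠ 0 := by exact_mod_cast hv.ne'
          have hX' : (X : ℂ) ≠ 0 := by exact_mod_cast hX.ne'
          rw [if_pos ⟨c2, c1⟩, if_pos c1, wt, if_pos c2, e]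
          push_cast
          field_simp
        · simp [wt, c2]
      · simp [c1]
    · simp [c]

end Pool.Agent.MP_14ad9d_nt.Full.AddKAux

end

section

set_option autoImplicit false

open NumberField

namespace Pool.Agent.MP_14ad9d_nt.Full

namespace AddKAux

open Filter Topology

open Classical in
theorem main (l : ℕ) [Fact l.Prime] (hl : 2 < l) (F : Type) [Field F] [NumberField F]
    [IsCyclotomicExtension {l} ℚ F] {K : Type} [Field K] [NumberField K] [Algebra F K]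
    {M : ℕ} (hM : M ≠ 0) (r : 𝓞 F) (hr : r ≠ 0) {B : Ideal (𝓞 K)} (hB : B ≠ ⊥)
    (hBM : IsCoprime B (Ideal.span {(M : 𝓞 K)})) (θ θ' : 𝓞 K)
    (hη : ∀ m : ℕ, m ≠ 0 → ∃ η₁ η₂ : 𝓞 K, IsCoprime η₁ (m : 𝓞 K) ∧
      IsCoprime η₂ (m : 𝓞 K) ∧ RingOfIntegers.norm F η₁ = RingOfIntegers.norm F η₂ ∧
      (M : 𝓞 K) ∣ θ' * η₂ - θ * η₁ ∧ ∃ n : ℕ, Odd n ∧ (m : 𝓞 K) ∣ η₁ ^ n - η₂ ^ n)
    {c : ℝ} (hc : 0 < c) (hfr : ∃ᶠ u : ℝ in atTop, c ≤ ∑' v : Pr K,
      if ∃ π : 𝓞 K, Ideal.span {π} = v.asIdeal * B ^ l ∧ (M : 𝓞 K) ∣ π - θ then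
        wt v * tent (lam v - u) else 0) (X₀ : ℝ) :
    ∃ (va vb : Pr K) (a a' t : 𝓞 F), Deg1 va ∧ Deg1 vb ∧ X₀ ≤ Ideal.absNorm va.asIdeal ∧
      X₀ ≤ Ideal.absNorm vb.asIdeal ∧ a ∈ NSet F l M B θ va ∧ a' ∈ NSet F l M B θ' vb ∧ t ≠ 0 ∧
      (l : 𝓞 F) ∣ t ∧ a' - a = r * t ^ l := by
  have hp : l.Prime := Fact.out
  have : NeZero l := ⟨hp.ne_zero⟩
  have hd : Module.finrank ℚ F = l - 1 := by
    rw [IsCyclotomicExtension.finrank F (Polynomial.cyclotomic.irreducible_rat hp.pos),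
      Nat.totient_prime hp]
  obtain ⟨b, co, cco, hco⟩ := exists_co hd
  obtain ⟨U, hU, hUN⟩ := units_sub (K := K) F hM
  obtain ⟨C, cC, CR, hC⟩ := cocompact U 1
  obtain ⟨L, ω, cL, LR, CL, cω, ω01, ω1, ω0⟩ := exists_omega cC CR
  obtain ⟨R, hR⟩ := cL.exists_bound_of_continuousOn (continuousOn_lnN.mono LR)
  obtain ⟨C₁, hC₁⟩ := cL.exists_bound_of_continuousOn cco.continuousOn
  have hA : ∀ X : ℝ, ∃ A : Finset (𝓞 F), 0 < X → ∀ a, a ∈ A ↔ X⁻¹ • emb (a : F) ∈ L := fun X =>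
    ⟨(finite_emb_mem (cL.image (continuous_const_smul X))).toFinset, fun hX a => by
      rw [Set.Finite.mem_toFinset, Set.mem_ofPred_eq, Set.image_smul,
        Set.mem_smul_set_iff_inv_smul_mem₀ hX.ne']⟩
  choose A hA using hA
  let D : Dat F K :=
    { L := L, ω := ω, R := max 1 R, A := A
      V := fun X => (finite_lam_le (max 1 R + Module.finrank ℚ F * Real.log X)).toFinset
      R1 := le_max_left _ _
      hR := fun y hy => (hR y hy).trans (le_max_right _ _)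
      ω01 := ω01, ω0 := ω0, hA := hA
      hV := fun X v => Set.Finite.mem_toFinset _ }
  have big := D.large (by omega) l M hB
  have hN := norm_pos hB
  have key : ∀ {X : ℝ} {a : 𝓞 F}, D.f l M B θ X a ≠ 0 ∨ D.f l M B θ' X a ≠ 0 →
      a ∈ D.A X ∧ ∃ θ v, Deg1 v ∧ a ∈ NSet F l M B θ v := fun h =>
    h.elim (fun h => ⟨(Dat.f_ne h).1, _, (Dat.f_ne h).2⟩)
      fun h => ⟨(Dat.f_ne h).1, _, (Dat.f_ne h).2⟩
  obtain ⟨X₁, hX₁⟩ := eventually_atTop.1 big
  obtain ⟨X, hX, a, a', t, h1, h2, h3, h4, h5⟩ := addF l hl F b r hr (Ideal.absNorm B)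
    (Nat.cast_pos.1 hN).ne' (D.f l M B θ) (D.f l M B θ')
    (max (Module.finrank ℚ K * (Module.finrank ℚ F + 1)) C₁)
    (c / (Real.exp 1 * Ideal.absNorm B ^ l)) (by positivity) (fun _ _ => Dat.f_nonneg)
    (fun _ _ => Dat.f_nonneg)
    (by
      filter_upwards [D.f_le l M hB, eventually_ge_atTop (1 : ℝ)] with X h hX a
      have := mul_le_mul_of_nonneg_right
        (le_max_left (Module.finrank ℚ K * (Module.finrank ℚ F + 1) : ℝ) C₁) (Real.log_nonneg hX)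
      exact ⟨(h θ a).trans this, (h θ' a).trans this⟩)
    (by
      filter_upwards [eventually_gt_atTop (0 : ℝ)] with X hX a h
      have h1 := (hC₁ _ ((hA X hX a).1 (key h).1)).trans
        (le_max_right (Module.finrank ℚ K * (Module.finrank ℚ F + 1) : ℝ) C₁)
      rw [hco] at h1
      refine (pi_norm_le_iff_of_nonneg (mul_nonneg ((norm_nonneg _).trans h1) hX.le)).2 fun i => ?_
      have h2 := (norm_le_pi_norm _ i).trans h1
      rwa [norm_div, Real.norm_of_nonneg hX.le, div_le_iff₀ hX, Int.norm_cast_real] at h2)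
    (by
      filter_upwards [big] with X h a ha q hq _ hm
      obtain ⟨h1, θ, v, h2, h3⟩ := key ha
      exact (prime_cases h3 h2 hq hm).imp_right fun e =>
        (h θ a v h1 h3).trans (Nat.cast_le.2 e))
    (by
      rw [← hd]
      refine Dat.mass hB (fun X hX v a ha h => ?_) hfr
      obtain ⟨u, hu, e⟩ := hC _ (nset_RZ hB ha hX) h
      have e' : emb ((u : 𝓞 F) : F) * X⁻¹ • emb (a : F) =
          X⁻¹ • emb (((u : 𝓞 F) * a : 𝓞 F) : F) := by
        ext φ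
        simp [emb]
        ring
      rw [e'] at e
      exact ⟨_, hUN l B θ v u hu a ha, (hA X hX _).2 (CL e), ω1 _ e⟩)
    (fun m hm β h ch => by
      have := edk F l M hM B hB hBM θ θ' hη m hm β
        (fun y => ω y * h (co y) * Real.exp (lnN y) / (Ideal.absNorm B : ℂ) ^ l)
        ((((Complex.continuous_ofReal.comp cω).mul (ch.comp cco)).continuousOn.mul
          (Complex.continuous_ofReal.comp_continuousOn continuousOn_lnN.rexp)).div_const _)
        L cL LR fun y hy e => by simp [ω0 y hy e]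
      refine this.congr' ?_
      filter_upwards [eventually_gt_atTop (0 : ℝ)] with X hX
      obtain ⟨T, t1, t2, t3⟩ := Dat.equi (D := D) (l := l) (M := M) (θ := θ) hB hX
        (fun a => (m : 𝓞 F) ∣ a - β) fun y => h (co y)
      obtain ⟨T', s1, s2, s3⟩ := Dat.equi (D := D) (l := l) (M := M) (θ := θ') hB hX
        (fun a => (m : 𝓞 F) ∣ a - β) fun y => h (co y)
      simp only [hco, hd] at t3 s3
      rw [sub_div]
      refine Eq.trans ?_ (congrArg₂ (· - ·) t3 s3).symm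
      rw [← Finset.sum_sub_distrib, ← tsum_eq_sum (L := SummationFilter.unconditional _)
        fun v hv => by rw [t2 v hv, s2 v hv, sub_self]]
      exact tsum_congr fun v => by rw [t1, s1, ← mul_sub])
    (max X₀ X₁)
  obtain ⟨m1, va, d1, n1⟩ := Dat.f_ne h1
  obtain ⟨m2, vb, d2, n2⟩ := Dat.f_ne h2
  rw [max_le_iff] at hX
  exact ⟨va, vb, a, a', t, d1, d2, hX.1.trans (hX₁ X hX.2 _ _ _ m1 n1),
    hX.1.trans (hX₁ X hX.2 _ _ _ m2 n2), n1, n2, h3, h4, h5⟩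

end AddKAux

/-- the additive theorem: two primes in prescribed classes whose norms differ by `r` times an
`l`-th power -/
theorem addK (l : ℕ) [Fact l.Prime] (hl : 2 < l) (F : Type) [Field F] [NumberField F]
    [IsCyclotomicExtension {l} ℚ F] {K : Type} [Field K] [NumberField K] [Algebra F K]
    [IsGalois F K] (M : ℕ) (hM : M ≠ 0) (r : 𝓞 F) (hr : r ≠ 0) (θ ξ₁ ξ₂ : 𝓞 K)
    (hθ : IsCoprime θ (M : 𝓞 K)) (h₁ : IsCoprime ξ₁ (M : 𝓞 K)) (h₂ : IsCoprime ξ₂ (M : 𝓞 K))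
    (T : Finset (Pr K)) :
    ∃ (va vb : Pr K) (B : Ideal (𝓞 K)) (πa πb ρa ρb : 𝓞 K) (t : 𝓞 F),
      va ∉ T ∧ vb ∉ T ∧ Deg1 va ∧ Deg1 vb ∧ B ≠ ⊥ ∧ IsCoprime B (Ideal.span {(M : 𝓞 K)}) ∧
      ¬B ≤ va.asIdeal ∧ ¬B ≤ vb.asIdeal ∧
      IsCoprime ρa (M : 𝓞 K) ∧ IsCoprime ρb (M : 𝓞 K) ∧
      Ideal.span {πa} = va.asIdeal * B ^ l ∧ Ideal.span {πb} = vb.asIdeal * B ^ l ∧
      (M : 𝓞 K) ∣ πa * algebraMap (𝓞 F) (𝓞 K) (RingOfIntegers.norm F ξ₁) -
        θ * ξ₁ ^ Module.finrank F K * ρa ^ l ∧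
      (M : 𝓞 K) ∣ πb * algebraMap (𝓞 F) (𝓞 K) (RingOfIntegers.norm F ξ₂) -
        θ * ξ₂ ^ Module.finrank F K * ρb ^ l ∧
      t ≠ 0 ∧ (l : 𝓞 F) ∣ t ∧
      RingOfIntegers.norm F πb - RingOfIntegers.norm F πa = r * t ^ l := by
  obtain ⟨θ₀, h0, c0, d0⟩ := AddKAux.exists_theta0 (F := F) hM
    (hθ.mul_left (h₁.pow_left (m := Module.finrank F K))) h₁
  obtain ⟨B, ρ, hB, hBM, cρ, c, hc, hfr⟩ := primeClass l hl M hM θ₀ h0 c0
  obtain ⟨θ', s, cs, ds, hη⟩ := AddKAux.alg (F := F) Fact.out hl hM h₁ h₂ (θ₀ * ρ ^ l)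
  obtain ⟨va, vb, _, _, t, d1, d2, l1, l2, ⟨πa, a1, a2, rfl⟩, ⟨πb, b1, b2, rfl⟩, h3, h4, h5⟩ :=
    AddKAux.main l hl F hM r hr hB hBM _ θ' hη hc hfr
      ((Ideal.absNorm B + ∑ v ∈ T, Ideal.absNorm v.asIdeal + 1 : ℕ) : ℝ)
  have key : ∀ v : Pr K, ((Ideal.absNorm B + ∑ v ∈ T, Ideal.absNorm v.asIdeal + 1 : ℕ) : ℝ) ≤
      Ideal.absNorm v.asIdeal → v ∉ T ∧ ¬B ≤ v.asIdeal := fun v h => by
    rw [Nat.cast_le] at h
    refine ⟨fun hv => ?_, fun hv => ?_⟩
    · have := Finset.single_le_sum (f := fun v : Pr K => Ideal.absNorm v.asIdeal)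
        (fun _ _ => Nat.zero_le _) hv
      omega
    · have := Nat.le_of_dvd (Nat.cast_pos.1 (AddKAux.norm_pos hB))
        (Ideal.absNorm_dvd_absNorm_of_le hv)
      omega
  refine ⟨va, vb, B, πa, πb, ρ, ρ * s, t, (key _ l1).1, (key _ l2).1, d1, d2, hB, hBM,
    (key _ l1).2, (key _ l2).2, cρ, cρ.mul_left cs, a1, b1, ?_, ?_, h3, h4, h5⟩
  · have := (a2.mul_right (algebraMap (𝓞 F) (𝓞 K) (RingOfIntegers.norm F ξ₁))).add
      (d0.mul_right (ρ ^ l))
    convert this using 1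
    ring
  · refine (h₁.pow_left (m := Module.finrank F K)).symm.dvd_of_dvd_mul_left ?_
    have := ((b2.mul_right (ξ₁ ^ Module.finrank F K *
      algebraMap (𝓞 F) (𝓞 K) (RingOfIntegers.norm F ξ₂))).add ds).add
      (d0.mul_right (ρ ^ l * s ^ l * ξ₂ ^ Module.finrank F K))
    convert this using 1
    ring

end Pool.Agent.MP_14ad9d_nt.Full

end
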