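import Pool.Agent.Mg.F14ad9d.Gee44e6
import Pool.Agent.Mg.F14ad9d.G7de358
import Pool.Agent.Mg.F14ad9d.G74a2f3
import Pool.Agent.Mg.F14ad9d.G4887c8
import Pool.Agent.Mg.F14ad9d.Gf22b3a

set_option autoImplicit false

open NumberField IsDedekindDomain

namespace Pool.Agent.MP_14ad9d_nt.Full

open SelMainAux in
/-- a curve whose new Selmer group vanishes and that has a good point -/
theorem selMain {l : ℕ} [Fact l.Prime] (hl : 2 < l) {F K : Type} [Field F] [NumberField F]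
    [Field K] [NumberField K] [Algebra F K] [IsCyclotomicExtension {l} ℚ F] [IsGalois F K]
    [IsGalois ℚ K] (S : Setup l F K) :
    ∃ (a b : 𝓞 F) (A B c : K), A = algebraMap F K (a : F) ∧ B = algebraMap F K (b : F) ∧
      c = (A * B) ^ ((l - 1) / 2) * (B - A) ∧
      IsCoprime a (l : 𝓞 F) ∧ IsCoprime b (l : 𝓞 F) ∧ (l : 𝓞 F) ∣ b - a ∧ a ≠ b ∧
      (∀ y : K, y ≠ 0 → (∃ d : K, ∏ g : K ≃ₐ[F] K, g y = d ^ l) →
        (∀ v : Pr K, Tm l v → (l : ℤ) ∣ ord v c → (l : ℤ) ∣ ord v y) →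
        (∀ v : Pr K, Tm l v → tame l S.z v y c = 0) →
        (∀ v : Pr K, ¬Tm l v → NearAt l S.z ((l + 1) / 2) v y) → ∃ d : K, y = d ^ l) ∧
      Near l S.z (l + 1) (c / 2) ∧
      ∀ (m j : ℤ) (d : K), (A / B) ^ m * c ^ j = d ^ l → (l : ℤ) ∣ m ∧ (l : ℤ) ∣ j := by
  classical
  have hp : l.Prime := Fact.out
  obtain ⟨M, h⟩ := exists_mach hl S
  obtain ⟨D, hD⟩ := exists_dual hl h
  have h2 : (2 : ZMod l) ≠ 0 := fun e => by
    have := Nat.le_of_dvd (by norm_num) ((ZMod.natCast_eq_zero_iff 2 l).1 (by exact_mod_cast e))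
    omega
  obtain ⟨L, hL0, hL⟩ := dual S.card_ne h2 M D
  have he : 2 * (((l - 1) / 2 : ℕ) : ZMod l) = -1 := by
    obtain ⟨n, hn⟩ := hp.odd_of_ne_two (by omega)
    have e1 : (l - 1) / 2 = n := by omega
    have e2 : ((2 * n + 1 : ℕ) : ZMod l) = 0 := by rw [← hn, ZMod.natCast_self]
    rw [e1]
    push_cast at e2
    linear_combination e2
  have c2 : IsCoprime (2 : 𝓞 K) (l : 𝓞 K) := by
    have := (Nat.isCoprime_iff_coprime.2
      ((Nat.coprime_primes Nat.prime_two hp).2 (by omega))).map (Int.castRingHom (𝓞 K))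
    simpa using this
  obtain ⟨S', ϖ, α, τ, p₁, p₃, hϖ, hα, H⟩ := core M (by rw [ZMod.card]; exact S.card_lt)
    S.card_ne h2 S.one_lt L hL (axK hl h) (axR hl h) (w := cls l (2 : K))
    (fun g => by rw [h.1, map_ofNat])
    ((h.2.2.2.2 2 two_ne_zero).2 fun v hv => by
      have := (ord_of_coprime c2 v (not_not.1 hv)).2
      rw [show ((2 : 𝓞 K) : K) = 2 from map_ofNat _ 2] at this
      rw [this]
      exact dvd_zero _) he
  obtain ⟨r, r0, hr⟩ := h.fixed ϖ hϖ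
  obtain ⟨x, x0, rfl⟩ := cls_surj α
  obtain ⟨y, y0, hy, oy⟩ := exists_unit_rep x0 ((h.2.2.2.2 x x0).1 hα)
  set N : ℕ := l ^ 2 * ∏ p ∈ S', Ideal.absNorm p.1.asIdeal with hNd
  have N0 : N ≠ 0 := mul_ne_zero (pow_ne_zero _ hp.ne_zero)
    (Finset.prod_ne_zero_iff.2 fun p _ e => p.1.ne_bot (Ideal.absNorm_eq_zero_iff.1 e))
  have hN : l ^ 2 ∣ N := dvd_mul_right _ _
  have mN : ∀ p ∈ S', (N : 𝓞 K) ∈ p.1.asIdeal := fun p hp' =>
    p.1.asIdeal.mem_of_dvd (Nat.cast_dvd_cast ((Finset.dvd_prod_of_mem _ hp').mul_left _))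
      (Ideal.absNorm_mem _)
  obtain ⟨θ, cθ, pθ, sθ⟩ := exists_theta hl h N0 hN y0 oy τ
  obtain ⟨ξ₁, c₁, q₁, s₁⟩ := exists_theta hl h N0 hN one_ne_zero (fun v _ => ord_one v)
    fun p => if p = p₁ then 1 else 0
  obtain ⟨ξ₂, c₂, q₂, s₂⟩ := exists_theta hl h N0 hN one_ne_zero (fun v _ => ord_one v)
    fun p => if p = p₃ then 1 else 0
  rw [cls_one, sub_zero] at q₁ q₂
  obtain ⟨Tg, hTg⟩ := h.good hl
  obtain ⟨va, vb, B, πa, πb, ρa, ρb, t, aT, bT, da, db, B0, -, -, -, ca, cb, sa, sb, ea, eb, t0,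
    lt, hab⟩ := addK l hl F N N0 r r0 θ ξ₁ ξ₂ cθ c₁ c₂
      (S'.image Subtype.val ∪ (finite_wild (l := l)).toFinset ∪ Tg)
  simp only [Finset.mem_union, not_or, Set.Finite.mem_toFinset, Set.mem_ofPred_eq, not_not,
    Finset.mem_image, not_exists, not_and] at aT bT
  obtain ⟨a0, al, a1, a2⟩ := of_congr hl h hN cθ c₁ ca ea
  obtain ⟨b0, bl, b1, b2⟩ := of_congr hl h hN cθ c₂ cb eb
  have ind : ∀ {π : 𝓞 K} {v : Pr K} (hv : Tm l v), Ideal.span {π} = v.asIdeal * B ^ l →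
      MachineAux.Ind M ⟨v, hv⟩ (cls l (π : K)) := by
    intro π v hv hs q
    obtain ⟨n, hn⟩ := ord_of_span B0 hs q.1
    rw [h.2.1, sub_eq_iff_eq_add.1 hn]
    by_cases e : q = ⟨v, hv⟩
    · simp [e]
    · rw [if_neg e, if_neg fun e' => e (Subtype.ext e')]
      simp
  obtain ⟨A0, eA⟩ := cls_norm h a0
  obtain ⟨B0', eB⟩ := cls_norm h b0
  set A := algebraMap F K (RingOfIntegers.norm F πa : F) with hA
  set Bb := algebraMap F K (RingOfIntegers.norm F πb : F) with hB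
  have r0' : algebraMap F K (r : F) ≠ 0 := by simpa using r0
  have t0' : algebraMap F K (t : F) ≠ 0 := by simpa using t0
  have eBA : Bb - A = algebraMap F K (r : F) * algebraMap F K (t : F) ^ l := by
    have := congrArg (fun z : 𝓞 F => algebraMap F K (z : F)) hab
    simpa [hA, hB] using this
  have BA0 : Bb - A ≠ 0 := eBA ▸ mul_ne_zero r0' (pow_ne_zero _ t0')
  have c0 : (A * Bb) ^ ((l - 1) / 2) * (Bb - A) ≠ 0 :=
    mul_ne_zero (pow_ne_zero _ (mul_ne_zero A0 B0')) BA0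
  obtain ⟨H1, H2, H3⟩ := H (cls l (θ : K)) (cls l (ξ₁ : K)) (cls l (ξ₂ : K)) (cls l (πa : K))
    (cls l (πb : K)) (cls l ((A * Bb) ^ ((l - 1) / 2) * (Bb - A))) ⟨va, aT.1.2⟩ ⟨vb, bT.1.2⟩
    (hy ▸ pθ) q₁ q₂ (fun p hp' => (sθ p (mN p hp')).2) (fun p hp' => by convert s₁ p (mN p hp'))
    (fun p hp' => by convert s₂ p (mN p hp')) ⟨a1, fun p hp' => a2 p (mN p hp')⟩
    ⟨b1, fun p hp' => b2 p (mN p hp')⟩ (hTg _ aT.2 da) (hTg _ bT.2 db)
    (fun e => aT.1.1 _ e rfl) (fun e => bT.1.1 _ e rfl) (ind _ sa) (ind _ sb)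
    (by rw [cls_mul (pow_ne_zero _ (mul_ne_zero A0 B0')) BA0, cls_pow (mul_ne_zero A0 B0'),
      cls_mul A0 B0', eA, eB, eBA, cls_mul r0' (pow_ne_zero _ t0'), cls_ell t0', add_zero, hr])
  refine ⟨_, _, A, Bb, _, rfl, rfl, rfl, al, bl, ?_, fun e => ?_, fun z z0 hz o1 o2 o3 => ?_, ?_,
    fun m j d e => ?_⟩
  · rw [hab]
    exact (lt.trans (dvd_pow_self t hp.ne_zero)).mul_left r
  · rw [e, sub_self] at hab
    exact mul_ne_zero r0 (pow_ne_zero _ t0) hab.symm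
  · refine (cls_eq_zero_iff z0).1 (H1 _ (hL0 _ fun g => ?_) ?_ (fun q hq => ?_) fun q => ?_)
    · rw [h.1, hD _ (by simpa using z0)]
      obtain ⟨γ, γ0, hγ⟩ := o3 (act ((g⁻¹ : K ≃ₐ[F] K) : K ≃+* K) S.v₀)
        (fun e => S.wild ((tm_act _ l _).1 e))
      have e : act (g : K ≃+* K) (act ((g⁻¹ : K ≃ₐ[F] K) : K ≃+* K) S.v₀) = S.v₀ := by
        ext a
        rw [mem_act, mem_act]
        refine iff_of_eq (congrArg (· ∈ S.v₀.asIdeal) ?_)
        ext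
        exact g.apply_symm_apply a
      rw [← val_act (g : K ≃+* K), ← val_act (g : K ≃+* K) _ (1 - S.z), e] at hγ
      refine ⟨g γ, by simpa using γ0, ?_⟩
      simpa [S.map_z] using hγ
    · rw [h.nrm_eq z0]
      exact (cls_eq_zero_iff (Finset.prod_ne_zero_iff.2 fun g _ => by simpa using z0)).2 hz
    · rw [h.2.1, ZMod.intCast_zmod_eq_zero_iff_dvd] at hq ⊢
      exact o1 q.1 q.2 hq
    · rw [h.2.2.1 q _ _ z0 c0]
      exact o2 q.1 q.2
  · rw [← h.2.2.2.1 _ (div_ne_zero c0 two_ne_zero), cls_div c0 two_ne_zero]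
    exact H2
  · have AB0 := div_ne_zero A0 B0'
    have := (cls_eq_zero_iff (l := l)
      (mul_ne_zero (zpow_ne_zero m AB0) (zpow_ne_zero j c0))).2 ⟨d, e⟩
    rw [cls_mul (zpow_ne_zero m AB0) (zpow_ne_zero j c0), cls_zpow' AB0, cls_zpow' c0,
      cls_div A0 B0', eA, eB] at this
    simpa only [ZMod.intCast_zmod_eq_zero_iff_dvd] using H3 _ _ this

end Pool.Agent.MP_14ad9d_nt.Full
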