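import Pool.Agent.Mg.F14ad9d.G4887c8

section

set_option autoImplicit false

open Polynomial

namespace Pool.Agent.MP_14ad9d_nt.Full.PCAux

section Gauss

variable {E : Type} [NormedField E] [IsUltrametricDist E] {r : ℝ} {u : E[X]}

theorem bd_Cle {a : E} (h : ‖a‖ ≤ r) : Bd r (C a) := (bd_C a).mono h

theorem bd_lin (a : E) : Bd (max 1 ‖a‖) (X - C a) :=
  (bd_X.mono (le_max_left _ _)).sub ((bd_C a).mono (le_max_right _ _))

theorem bd_lin1 {a : E} (h : ‖a‖ ≤ 1) : Bd 1 (X - C a) := bd_X.sub (bd_Cle h)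

theorem nsub (x y : E) : ‖x - y‖ ≤ max ‖x‖ ‖y‖ := by
  rw [sub_eq_add_neg, ← norm_neg y]
  exact IsUltrametricDist.norm_add_le_max x (-y)

theorem nsub_eq {x y : E} (h : ‖y‖ < ‖x‖) : ‖x - y‖ = ‖x‖ := by
  rw [sub_eq_add_neg, IsUltrametricDist.norm_add_eq_max_of_norm_ne_norm
    (by rw [norm_neg]; exact h.ne'), norm_neg, max_eq_left h.le]

theorem bd_div_big {a : E} (ha : 1 ≤ ‖a‖) (h : Bd r ((X - C a) * u)) : Bd (r / ‖a‖) u := by
  have hr := h.nonneg
  have ha0 : 0 < ‖a‖ := by linarith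
  intro i
  rw [le_div_iff₀ ha0, mul_comm, ← norm_mul]
  induction i with
  | zero =>
    have := h 0
    simpa using this
  | succ i ih =>
    have h1 := h (i + 1)
    rw [sub_mul, coeff_sub, coeff_X_mul, coeff_C_mul] at h1
    have h2 : ‖u.coeff i‖ ≤ r := by
      rw [norm_mul] at ih
      nlinarith [norm_nonneg (u.coeff i)]
    have e : a * u.coeff (i + 1) = u.coeff i - (u.coeff i - a * u.coeff (i + 1)) := by ring
    rw [e]
    exact (nsub _ _).trans (max_le h2 h1)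

theorem bd_div {a : E} (h : Bd r ((X - C a) * u)) : Bd r u := by
  rcases le_total ‖a‖ 1 with ha | ha
  · exact Bd.of_mul (monic_X_sub_C a) (bd_lin1 ha) h
  · exact (bd_div_big ha h).mono (div_le_self h.nonneg ha)

theorem norm_eval_big [IsAlgClosed E] (hu : u.Monic) (h1 : Bd 1 u) {a : E} (ha : 1 < ‖a‖) :
    ‖u.eval a‖ = ‖a‖ ^ u.natDegree := by
  have hs := IsAlgClosed.splits u
  have key : ∀ R : Multiset E, (∀ x ∈ R, ‖x‖ ≤ 1) →
      ‖(R.map fun x => X - C x).prod.eval a‖ = ‖a‖ ^ Multiset.card R := by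
    intro R
    induction R using Multiset.induction_on with
    | empty => simp
    | cons x R ih =>
      intro h
      rw [Multiset.map_cons, Multiset.prod_cons, eval_mul, norm_mul,
        ih fun y hy => h y (Multiset.mem_cons_of_mem hy), Multiset.card_cons, pow_succ',
        eval_sub, eval_X, eval_C,
        nsub_eq ((h x (Multiset.mem_cons_self _ _)).trans_lt ha)]
  have e := hs.eq_prod_roots_of_monic hu
  rw [hs.natDegree_eq_card_roots, ← key u.roots fun x hx =>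
    root_le_one hu h1 ((mem_roots hu.ne_zero).1 hx), ← e]

theorem norm_eval_sub (h1 : Bd 1 u) {a b : E} (ha : ‖a‖ ≤ 1) (hb : ‖b‖ ≤ 1) :
    ‖u.eval a - u.eval b‖ ≤ ‖a - b‖ := by
  obtain ⟨t, ht⟩ := X_sub_C_dvd_sub_C_eval (p := u) (a := b)
  have h2 : Bd 1 t := by
    refine Bd.of_mul (monic_X_sub_C b) (bd_lin1 hb) ?_
    rw [← ht]
    exact h1.sub (bd_Cle (h1.eval hb))
  have e := congrArg (eval a) ht
  rw [eval_sub, eval_C, eval_mul, eval_sub, eval_X, eval_C] at e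
  rw [e, norm_mul]
  exact mul_le_of_le_one_right (norm_nonneg _) (h2.eval ha)

end Gauss

section Ideals

variable {l : ℕ} [Fact l.Prime] [Fact (2 < l)] {k : Type} [Field k] [CharZero k] {s : kˣ}

theorem span_mul (p q : k[X]) : Ideal.span {(⟨p, 0⟩ : CR l s)} * Ideal.span {⟨q, 0⟩} =
    Ideal.span {⟨p * q, 0⟩} := by
  rw [Ideal.span_singleton_mul_span_singleton]
  congr 2
  ext1 <;> simp

theorem nrm_mul {I J : Ideal (CR l s)} {p q : k[X]}
    (hI : I * I.map (starRingEnd (CR l s)) = Ideal.span {⟨p, 0⟩})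
    (hJ : J * J.map (starRingEnd (CR l s)) = Ideal.span {⟨q, 0⟩}) :
    I * J * (I * J).map (starRingEnd (CR l s)) = Ideal.span {⟨p * q, 0⟩} := by
  rw [Ideal.map_mul, mul_mul_mul_comm, hI, hJ, span_mul]

theorem nrm_mum {u v : k[X]} (h : u ∣ v ^ 2 - FF l s) :
    mum l s u v * (mum l s u v).map (starRingEnd (CR l s)) = Ideal.span {⟨u, 0⟩} := by
  rw [map_star_mum, mum_mul_neg h]

theorem nrm_pt {a b : k} (h : b ^ 2 = a ^ l + (s : k) ^ 2) :
    pt l s a b * (pt l s a b).map (starRingEnd (CR l s)) = Ideal.span {⟨X - C a, 0⟩} :=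
  nrm_mum (pt_dvd h)

theorem nrm_span (f : CR l s) :
    Ideal.span {f} * (Ideal.span {f}).map (starRingEnd (CR l s)) =
      Ideal.span {⟨QuadraticAlgebra.norm f, 0⟩} := by
  rw [Ideal.map_span, Set.image_singleton, Ideal.span_singleton_mul_span_singleton,
    ← QuadraticAlgebra.algebraMap_eq, QuadraticAlgebra.algebraMap_norm_eq_mul_star]
  rfl

theorem span_ne {p : k[X]} (hp : p ≠ 0) : Ideal.span {(⟨p, 0⟩ : CR l s)} ≠ ⊥ := by
  rw [Ne, Ideal.span_singleton_eq_bot]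
  exact fun h => hp (congrArg QuadraticAlgebra.re h)

theorem span_C {c : k} (hc : c ≠ 0) (p : k[X]) :
    Ideal.span {(⟨C c * p, 0⟩ : CR l s)} = Ideal.span {⟨p, 0⟩} := by
  rw [← span_mul, Ideal.span_singleton_eq_top.2, Ideal.top_mul]
  rw [← QuadraticAlgebra.algebraMap_eq]
  exact (isUnit_C.2 (Ne.isUnit hc)).map _

theorem mem_mul_of {M P : Ideal (CR l s)} (hP : P.IsMaximal) (h : ¬M ≤ P) {f : CR l s}
    (hM : f ∈ M) (hf : f ∈ P) : f ∈ M * P := by
  have e : M ⊔ P = ⊤ := hP.out.2 _ (lt_of_le_of_ne le_sup_right fun e => h (e ▸ le_sup_left))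
  rw [Ideal.mul_eq_inf_of_coprime e]
  exact ⟨hM, hf⟩

theorem mum_not_le {u v : k[X]} {a b : k} (h : b ^ 2 = a ^ l + (s : k) ^ 2)
    (ha : u.eval a ≠ 0) : ¬mum l s u v ≤ pt l s a b := by
  intro hle
  have : (⟨u, 0⟩ : CR l s) ∈ pt l s a b := hle (Ideal.subset_span (Set.mem_insert _ _))
  rw [mem_pt h] at this
  exact ha (by simpa [evp] using this)

theorem norm_root {a b : k} (h : b ^ 2 = a ^ l + (s : k) ^ 2) {f : CR l s}
    (hf : f ∈ pt l s a b) : (QuadraticAlgebra.norm f).eval a = 0 := by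
  have : (⟨QuadraticAlgebra.norm f, 0⟩ : CR l s) ∈ pt l s a b := by
    rw [← QuadraticAlgebra.algebraMap_eq, QuadraticAlgebra.algebraMap_norm_eq_mul_star]
    exact Ideal.mul_mem_right _ _ hf
  rw [mem_pt h] at this
  simpa [evp] using this

end Ideals

variable {l : ℕ} [Fact l.Prime] [Fact (2 < l)] {E : Type} [NormedField E] [IsUltrametricDist E]
  [IsAlgClosed E] [CharZero E] {s : Eˣ} (B : Base l s)

theorem l_eq : l = 2 * (l / 2) + 1 := by
  have h2 : 2 < l := Fact.out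
  have := (Fact.out : l.Prime).eq_two_or_odd
  omega

theorem exists_h : ∃ h : E[X], h.Monic ∧ h.natDegree = l / 2 + 1 ∧ Bd 1 h ∧
    FF l s = C B.y₁ ^ 2 + B.u₀ * h := by
  obtain ⟨t, ht⟩ := B.dvd
  have e : FF l s - C B.y₁ ^ 2 = B.u₀ * (-t) := by linear_combination -ht
  have hl := l_eq (l := l)
  have hlt : (C B.y₁ ^ 2 : E[X]).natDegree < (FF l s).natDegree := by
    rw [← C_pow, natDegree_C, FF_natDegree]
    omega
  have hm : (B.u₀ * (-t)).Monic := by
    rw [← e]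
    exact (FF_monic l s).sub_of_left (degree_lt_degree hlt)
  have hm' : (-t).Monic := B.monic.of_mul_monic_left hm
  refine ⟨-t, hm', ?_, ?_, by linear_combination e⟩
  · have := congrArg natDegree e
    rw [natDegree_sub_eq_left_of_natDegree_lt hlt, FF_natDegree, B.monic.natDegree_mul hm',
      B.deg] at this
    omega
  · refine Bd.of_mul B.monic B.bd_u₀ ?_
    rw [← e, ← C_pow]
    exact B.bd_FF.sub (bd_Cle (by rw [norm_pow, B.hy, one_pow]))

/-- the auxiliary function -/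
noncomputable def fn (p : E[X]) (β : E) : CR l s := ⟨p * B.u₀ - C (β * B.y₁), C β⟩

theorem fn_mem (p : E[X]) (β : E) : fn B p β ∈ mum l s B.u₀ (C B.y₁) := by
  rw [mem_mum B.dvd]
  exact ⟨p, by simp only [fn, C_mul]; ring⟩

theorem fn_mem_pt {p : E[X]} {β a b : E} (h : b ^ 2 = a ^ l + (s : E) ^ 2)
    (e : p.eval a * B.u₀.eval a + β * (b - B.y₁) = 0) : fn B p β ∈ pt l s a b := by
  rw [mem_pt h]
  simp only [evp, fn, eval_sub, eval_mul, eval_C]
  linear_combination e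

theorem fn_norm {h : E[X]} (hh : FF l s = C B.y₁ ^ 2 + B.u₀ * h) (p : E[X]) (β : E) :
    QuadraticAlgebra.norm (fn B p β) =
      B.u₀ * (p ^ 2 * B.u₀ - C (2 * β * B.y₁) * p - C (β ^ 2) * h) := by
  rw [norm_eq]
  simp only [fn, C_mul, C_pow, map_ofNat]
  linear_combination (-(C β) ^ 2) * hh

theorem fn_bound {p : E[X]} {β a b : E} (h : B.Pl a b)
    (hf : fn B p β ∈ mum l s B.u₀ (C B.y₁) * pt l s a b) : ‖p.eval a‖ ≤ ‖β‖ := by
  have e := (IsAlgClosed.splits B.u₀).eq_prod_roots_of_monic B.monic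
  obtain ⟨W, hW, hm, -, hp⟩ := B.exists_W ((a, b) ::ₘ B.u₀.roots.map fun x => (x, B.y₁)) (by
    intro q hq
    rcases Multiset.mem_cons.1 hq with rfl | hq
    · exact h
    · obtain ⟨x, hx, rfl⟩ := Multiset.mem_map.1 hq
      simpa using (B.cl_base le_rfl).pl one_pos ((mem_roots B.monic.ne_zero).1 hx))
  simp only [Multiset.map_cons, Multiset.prod_cons, Multiset.map_map, Function.comp_def] at hm hp
  rw [← e] at hm hp
  have e2 := mum_split (l := l) (s := s) B.u₀.roots (v := C B.y₁) (by rw [← e]; exact B.dvd)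
  simp only [eval_C] at e2
  rw [← e] at e2
  rw [← e2] at hp
  rw [mul_comm, hp, mem_mum hm.2.2] at hf
  obtain ⟨t, ht⟩ := hf
  simp only [fn] at ht
  have e3 : B.u₀ * ((X - C a) * t - p) = C β * (W - C B.y₁) := by
    rw [C_mul] at ht
    linear_combination -ht
  have h4 : Bd ‖β‖ ((X - C a) * t - p) := by
    refine Bd.of_mul B.monic B.bd_u₀ ?_
    rw [e3]
    simpa using (bd_C β).mul (hW.sub (bd_Cle B.hy.le))
  simpa using h4.eval h.2.1

theorem core {r : ℝ} (hr : r < 1) {p q u : E[X]} {β c : E} {I : Ideal (CR l s)}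
    (hI : I * I.map (starRingEnd (CR l s)) = Ideal.span {⟨q, 0⟩}) (hq : q ≠ 0)
    (hf : fn B p β ∈ mum l s B.u₀ (C B.y₁) * I) (hc : c ≠ 0)
    (hN : QuadraticAlgebra.norm (fn B p β) = B.u₀ * (C c * (q * u))) (hu : u.Monic)
    (hd : u.natDegree = l / 2) (h : Bd r (u - B.u₀))
    (hno : ∀ a, ‖a‖ ≤ 1 → u.IsRoot a → ‖β‖ < ‖p.eval a‖) : B.Nb r (cl l I) := by
  obtain ⟨J, hJ⟩ := Ideal.dvd_iff_le.2 ((Ideal.span_singleton_le_iff_mem _).2 hf)
  have h0 := nrm_mul (nrm_mum B.dvd) hI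
  have h1 := nrm_span (fn B p β)
  have hne : Ideal.span {(⟨B.u₀ * q, 0⟩ : CR l s)} ≠ ⊥ := span_ne (mul_ne_zero B.monic.ne_zero hq)
  rw [hJ, Ideal.map_mul, mul_mul_mul_comm, h0, hN, show B.u₀ * (C c * (q * u)) =
    C c * (B.u₀ * q * u) by ring, span_C hc, ← span_mul (B.u₀ * q) u] at h1
  have h2 := mul_left_cancel₀ hne h1
  have hJ0 : J ≠ ⊥ := by
    rintro rfl
    exact span_ne hu.ne_zero (by rw [← h2, Ideal.bot_mul])
  have hI0 : I ≠ ⊥ := by
    rintro rfl
    exact span_ne hq (by rw [← hI, Ideal.bot_mul])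
  obtain ⟨v, hv, e⟩ := B.resid hr hu hd h h2 (by
    intro a b hab hle
    have h3 : (⟨u, 0⟩ : CR l s) ∈ pt l s a b := by
      have h6 : J * J.map (starRingEnd (CR l s)) ≤ J := Ideal.mul_le_inf.trans inf_le_left
      rw [h2] at h6
      exact hle (h6 (Ideal.mem_span_singleton_self _))
    rw [mem_pt hab.1] at h3
    refine (hno a hab.2.1 (by simpa [evp] using h3)).not_ge (fn_bound B hab ?_)
    have h4 : fn B p β ∈ mum l s B.u₀ (C B.y₁) * I * J := by
      rw [← hJ]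
      exact Ideal.mem_span_singleton_self _
    have h7 : mum l s B.u₀ (C B.y₁) * I ≤ mum l s B.u₀ (C B.y₁) :=
      Ideal.mul_le_inf.trans inf_le_left
    exact Ideal.mul_mono h7 hle h4)
  refine ⟨u, v, hv, ?_⟩
  have h5 := cl_span (l := l) (fn B p β)
  rw [hJ, cl_mul (mul_ne_zero (mum_ne_bot _ _) hI0) hJ0, cl_mul (mum_ne_bot _ _) hI0] at h5
  rw [eq_inv_of_mul_eq_one_left e, ← eq_inv_of_mul_eq_one_left h5, mul_comm]

end Pool.Agent.MP_14ad9d_nt.Full.PCAux

end

section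

set_option autoImplicit false

open Polynomial Filter Topology

namespace Pool.Agent.MP_14ad9d_nt.Full

variable {l : ℕ} [Fact l.Prime] [Fact (2 < l)] {E : Type} [NormedField E] [IsUltrametricDist E]
  [IsAlgClosed E] [CharZero E] {s : Eˣ} (B : Base l s)

open PCAux

/-- continuity at infinity -/
theorem Base.loc_inf {r : ℝ} (h0 : 0 < r) (hr : r < 1) : ∃ R : ℝ, ∀ a b : E,
    b ^ 2 = a ^ l + (s : E) ^ 2 → R < ‖a‖ → B.Nb r (cl l (pt l s a b)) := by
  refine ⟨(r ^ 2)⁻¹, fun a b hab hR => ?_⟩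
  have hr2 : r ^ 2 < 1 := by nlinarith
  have ha : 1 < ‖a‖ := ((one_lt_inv₀ (by positivity)).2 hr2).trans hR
  have ha0 : 0 < ‖a‖ := by linarith
  obtain ⟨h, hm, hd, hb, hh⟩ := exists_h B
  have hl := l_eq (l := l)
  have hal : 1 < ‖a‖ ^ l := one_lt_pow₀ ha (by omega)
  have hb2 : ‖b‖ ^ 2 = ‖a‖ ^ l := by
    rw [← norm_pow, hab, ← sub_neg_eq_add, nsub_eq, norm_pow]
    rw [norm_neg, norm_pow, norm_pow]
    exact (pow_le_one₀ (norm_nonneg _) B.hs).trans_lt hal
  have hb1 : 1 < ‖b‖ := by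
    by_contra hc
    have := pow_le_one₀ (n := 2) (norm_nonneg b) (not_lt.1 hc)
    linarith
  have hby : ‖b - B.y₁‖ = ‖b‖ := nsub_eq (by rw [B.hy]; exact hb1)
  have hby0 : b - B.y₁ ≠ 0 := by
    rw [← norm_pos_iff, hby]
    linarith
  have hA : ‖B.u₀.eval a‖ = ‖a‖ ^ (l / 2) := by rw [norm_eval_big B.monic B.bd_u₀ ha, B.deg]
  have hA0 : B.u₀.eval a ≠ 0 := by
    rw [← norm_pos_iff, hA]
    positivity
  obtain ⟨β, hβ⟩ : ∃ β : E, β * (b - B.y₁) = -B.u₀.eval a := ⟨_, div_mul_cancel₀ _ hby0⟩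
  have hn : ‖β‖ ^ 2 * ‖a‖ = 1 := by
    have e := congrArg norm hβ
    rw [norm_mul, norm_neg, hby, hA] at e
    have e2 : ‖a‖ ^ l = (‖a‖ ^ (l / 2)) ^ 2 * ‖a‖ := by
      rw [← pow_mul, ← pow_succ, mul_comm, ← hl]
    have e3 : 0 < ‖a‖ ^ l := by positivity
    apply mul_right_cancel₀ e3.ne'
    rw [one_mul]
    nth_rewrite 2 [e2]
    rw [← e, ← hb2]
    ring
  have hβ0 : β ≠ 0 := by
    rintro rfl
    simp at hn
  have hβr : ‖β‖ ≤ r := by
    refine (pow_le_pow_iff_left₀ (norm_nonneg _) h0.le two_ne_zero).1 ?_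
    rw [inv_lt_iff_one_lt_mul₀' (by positivity)] at hR
    nlinarith
  have hβ1 : ‖β‖ ≤ 1 := hβr.trans hr.le
  have hβ2 : ‖β ^ 2‖ ≤ ‖β‖ := by
    rw [norm_pow]
    nlinarith [norm_nonneg β]
  have hc : ‖2 * β * B.y₁‖ = ‖β‖ := by rw [norm_mul, norm_mul, B.norm_two, B.hy, one_mul, mul_one]
  have hfp : fn B 1 β ∈ pt l s a b := fn_mem_pt B hab (by rw [eval_one]; linear_combination hβ)
  have hN := fn_norm B hh 1 β
  have hroot := norm_root hab hfp
  rw [hN, eval_mul] at hroot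
  replace hroot := (mul_eq_zero.1 hroot).resolve_left hA0
  obtain ⟨t, ht⟩ := dvd_iff_isRoot.2 hroot
  have hc0 : -β ^ 2 ≠ 0 := neg_ne_zero.2 (pow_ne_zero _ hβ0)
  obtain ⟨u, rfl⟩ : ∃ u, t = C (-β ^ 2) * u :=
    ⟨C (-β ^ 2)⁻¹ * t, by rw [← mul_assoc, ← C_mul, mul_inv_cancel₀ hc0, C_1, one_mul]⟩
  have hi : C (β ^ 2)⁻¹ * C (β ^ 2) = (1 : E[X]) := by
    rw [← C_mul, inv_mul_cancel₀ (pow_ne_zero _ hβ0), C_1]
  have e1 : (X - C a) * u = h - C (β ^ 2)⁻¹ * (B.u₀ - C (2 * β * B.y₁)) := by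
    rw [C_neg] at ht
    linear_combination C (β ^ 2)⁻¹ * ht + (h - (X - C a) * u) * hi
  have hlt : (C (β ^ 2)⁻¹ * (B.u₀ - C (2 * β * B.y₁))).natDegree < h.natDegree := by
    refine (natDegree_C_mul_le _ _).trans_lt ?_
    rw [natDegree_sub_C, B.deg, hd]
    omega
  have hm1 : ((X - C a) * u).Monic := by
    rw [e1]
    exact hm.sub_of_left (degree_lt_degree hlt)
  have hu : u.Monic := (monic_X_sub_C a).of_mul_monic_left hm1
  have hdu : u.natDegree = l / 2 := by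
    have := congrArg natDegree e1
    rw [natDegree_sub_eq_left_of_natDegree_lt hlt, (monic_X_sub_C a).natDegree_mul hu,
      natDegree_X_sub_C, hd] at this
    omega
  have hia : ‖(β ^ 2)⁻¹‖ = ‖a‖ := by
    rw [norm_inv, norm_pow]
    exact (eq_inv_of_mul_eq_one_right hn).symm
  have hu1 : Bd 1 u := by
    rw [← div_self ha0.ne']
    refine bd_div_big ha.le ?_
    rw [e1]
    refine (hb.mono ha.le).sub ?_
    have := (bd_C (β ^ 2)⁻¹).mul (B.bd_u₀.sub (bd_Cle (hc.trans_le hβ1)))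
    rwa [mul_one, hia] at this
  have hD : Bd ‖β‖ (B.u₀ - C (β ^ 2 * a) * u) := by
    have e2 : B.u₀ - C (β ^ 2 * a) * u =
        C (2 * β * B.y₁) + C (β ^ 2) * h - C (β ^ 2) * (X * u) := by
      rw [C_neg] at ht
      rw [C_mul (a := β ^ 2)]
      linear_combination ht
    rw [e2]
    refine ((bd_Cle hc.le).add ?_).sub ?_
    · simpa using (bd_Cle hβ2).mul hb
    · simpa using (bd_Cle hβ2).mul (bd_X.mul hu1)
  have h1c : ‖1 - β ^ 2 * a‖ ≤ ‖β‖ := by
    have := hD (l / 2)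
    rw [coeff_sub, coeff_C_mul] at this
    nth_rewrite 1 [← B.deg] at this
    rwa [← hdu, B.monic.coeff_natDegree, hu.coeff_natDegree, mul_one] at this
  refine core B hr (nrm_pt hab) (X_sub_C_ne_zero a)
    (mem_mul_of (pt_isMaximal hab) (mum_not_le hab hA0) (fn_mem B 1 β) hfp) hc0
    (by rw [hN, ht]; ring) hu hdu ?_ fun x _ _ => ?_
  · have e3 : u - B.u₀ = C (1 - β ^ 2 * a) * u - (B.u₀ - C (β ^ 2 * a) * u) := by
      rw [C_sub, C_1]
      ring
    rw [e3]
    refine Bd.mono (Bd.sub ?_ hD) hβr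
    simpa using (bd_Cle h1c).mul hu1
  · simpa using hβr.trans_lt hr

theorem PCAux.gen_core {r η : ℝ} (hr : r < 1) {a b a' b' β ν : E}
    (h : b ^ 2 = a ^ l + (s : E) ^ 2) (h' : b' ^ 2 = a' ^ l + (s : E) ^ 2) (hne : a' ≠ a)
    (hA' : B.u₀.eval a' ≠ 0) (h1 : η * max 1 ‖a‖ ≤ r) (h2 : η * max 1 ‖a‖ < ‖B.u₀.eval a‖)
    (ht : ‖a' - a‖ ≤ η) (hβ : ‖β‖ ≤ η) (hν : ‖ν‖ ≤ η)
    (e1 : (a' - a - ν) * B.u₀.eval a' + β * (b' - B.y₁) = 0)
    (e2 : -ν * B.u₀.eval a + β * (-b - B.y₁) = 0) :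
    B.Nb r (cl l (pt l s a' b') / cl l (pt l s a b)) := by
  have hη0 : 0 ≤ η := (norm_nonneg _).trans ht
  have hK : 1 ≤ max 1 ‖a‖ := le_max_left _ _
  have hηK : η ≤ η * max 1 ‖a‖ := le_mul_of_one_le_right hη0 hK
  have hη1 : η < 1 := (hηK.trans h1).trans_lt hr
  have hA : B.u₀.eval a ≠ 0 := by
    rw [← norm_pos_iff]
    exact (hη0.trans hηK).trans_lt h2
  have hn : (-b) ^ 2 = a ^ l + (s : E) ^ 2 := by rw [neg_sq, h]
  obtain ⟨g, hm, hd, hb, hh⟩ := exists_h B
  have hf1 : fn B (X - C (a + ν)) β ∈ pt l s a' b' :=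
    fn_mem_pt B h' (by rw [eval_sub, eval_X, eval_C]; linear_combination e1)
  have hf2 : fn B (X - C (a + ν)) β ∈ pt l s a (-b) :=
    fn_mem_pt B hn (by rw [eval_sub, eval_X, eval_C]; linear_combination e2)
  have hN := fn_norm B hh (X - C (a + ν)) β
  have r1 := norm_root h' hf1
  have r2 := norm_root hn hf2
  rw [hN, eval_mul] at r1 r2
  replace r1 := (mul_eq_zero.1 r1).resolve_left hA'
  replace r2 := (mul_eq_zero.1 r2).resolve_left hA
  obtain ⟨u, hu⟩ := (isCoprime_X_sub_C_of_isUnit_sub (sub_ne_zero.2 hne).isUnit).mul_dvd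
    (dvd_iff_isRoot.2 r1) (dvd_iff_isRoot.2 r2)
  have hm0 : ((X - C (a + ν)) ^ 2 * B.u₀).Monic := ((monic_X_sub_C _).pow 2).mul B.monic
  have hd0 : ((X - C (a + ν)) ^ 2 * B.u₀).natDegree = l / 2 + 2 := by
    rw [((monic_X_sub_C _).pow 2).natDegree_mul B.monic, (monic_X_sub_C _).natDegree_pow,
      natDegree_X_sub_C, B.deg]
    omega
  have hlt : (C (2 * β * B.y₁) * (X - C (a + ν)) + C (β ^ 2) * g).natDegree <
      ((X - C (a + ν)) ^ 2 * B.u₀).natDegree := by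
    refine (natDegree_add_le _ _).trans_lt (max_lt ?_ ?_)
    · refine (natDegree_C_mul_le _ _).trans_lt ?_
      rw [natDegree_X_sub_C, hd0]
      omega
    · refine (natDegree_C_mul_le _ _).trans_lt ?_
      rw [hd, hd0]
      omega
  have hmq : ((X - C a') * (X - C a)).Monic := (monic_X_sub_C _).mul (monic_X_sub_C _)
  rw [sub_sub] at hu
  have hmu : u.Monic := hmq.of_mul_monic_left (by
    rw [← hu]
    exact hm0.sub_of_left (degree_lt_degree hlt))
  have hdu : u.natDegree = l / 2 := by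
    have := congrArg natDegree hu
    rw [natDegree_sub_eq_left_of_natDegree_lt hlt, hd0, hmq.natDegree_mul hmu,
      (monic_X_sub_C _).natDegree_mul (monic_X_sub_C _), natDegree_X_sub_C,
      natDegree_X_sub_C] at this
    omega
  have hc : ‖2 * β * B.y₁‖ ≤ η := by
    rwa [norm_mul, norm_mul, B.norm_two, B.hy, one_mul, mul_one]
  have hsq : ∀ x : E, ‖x‖ ≤ η → ‖x ^ 2‖ ≤ η * max 1 ‖a‖ := fun x hx => by
    rw [norm_pow]
    nlinarith [norm_nonneg x]
  have hbd : Bd (η * max 1 ‖a‖) (u - B.u₀) := by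
    refine bd_div (a := a) (bd_div (a := a') ?_)
    have e3 : (X - C a') * ((X - C a) * (u - B.u₀)) =
        ((C (a' - a) - C ν - C ν) * (X - C a) + C (ν ^ 2)) * B.u₀ -
        (C (2 * β * B.y₁) * (X - C a - C ν) + C (β ^ 2) * g) := by
      rw [C_add] at hu
      rw [C_sub, C_pow (a := ν)]
      linear_combination -hu
    rw [e3]
    refine Bd.sub ?_ (Bd.add ?_ ?_)
    · simpa using (((((bd_Cle ht).sub (bd_Cle hν)).sub (bd_Cle hν)).mul (bd_lin a)).add
        (bd_Cle (hsq ν hν))).mul B.bd_u₀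
    · exact (bd_Cle hc).mul ((bd_lin a).sub (bd_Cle (hν.trans (hη1.le.trans hK))))
    · simpa using (bd_Cle (hsq β hβ)).mul hb
  have hmem : fn B (X - C (a + ν)) β ∈
      mum l s B.u₀ (C B.y₁) * (pt l s a' b' * pt l s a (-b)) := by
    rw [← mul_assoc]
    refine mem_mul_of (pt_isMaximal hn) (fun hle => ?_)
      (mem_mul_of (pt_isMaximal h') (mum_not_le h' hA') (fn_mem B _ β) hf1) hf2
    rcases (pt_isMaximal hn).isPrime.mul_le.1 hle with hle | hle
    · exact mum_not_le hn hA hle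
    · exact mum_not_le hn (by simpa using sub_ne_zero.2 hne.symm) hle
  have key := core B hr (nrm_mul (nrm_pt h') (nrm_pt hn)) hmq.ne_zero hmem one_ne_zero
    (by rw [hN, sub_sub, hu, C_1, one_mul]) hmu hdu (hbd.mono h1) (by
      intro x hx hux
      by_contra hcon
      rw [not_lt, eval_sub, eval_X, eval_C] at hcon
      have h3 : ‖a - x‖ ≤ η := by
        rw [show a - x = -ν - (x - (a + ν)) by ring]
        exact (nsub _ _).trans (max_le (by rwa [norm_neg]) (hcon.trans hβ))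
      have h4 : ‖a‖ ≤ 1 := by
        rw [show a = a - x - -x by ring]
        exact (nsub _ _).trans (max_le (h3.trans hη1.le) (by rwa [norm_neg]))
      have h5 := (norm_eval_sub B.bd_u₀ h4 hx).trans (h3.trans hηK)
      have h6 := hbd.eval hx
      rw [eval_sub, hux.eq_zero, zero_sub] at h6
      refine h2.not_ge ?_
      rw [show B.u₀.eval a = B.u₀.eval a - B.u₀.eval x - -B.u₀.eval x by ring]
      exact (nsub _ _).trans (max_le h5 h6))
  rwa [cl_mul (I := pt l s a' b') (J := pt l s a (-b)) (mum_ne_bot _ _) (mum_ne_bot _ _),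
    cl_pt_neg h, ← div_eq_mul_inv] at key

/-- continuity at a general point -/
theorem Base.loc_gen {r : ℝ} (h0 : 0 < r) (hr : r < 1) {a b : E}
    (h : b ^ 2 = a ^ l + (s : E) ^ 2) (hb : b ≠ 0) (ha : ¬B.u₀.IsRoot a) :
    ∃ δ : ℝ, 0 < δ ∧ ∀ a' b' : E, b' ^ 2 = a' ^ l + (s : E) ^ 2 → ‖a' - a‖ < δ → ‖b' - b‖ < δ →
      B.Nb r (cl l (pt l s a' b') / cl l (pt l s a b)) := by
  have hA : B.u₀.eval a ≠ 0 := ha
  have hA0 : 0 < ‖B.u₀.eval a‖ := norm_pos_iff.2 hA
  have hK : 0 < max 1 ‖a‖ := lt_max_of_lt_left one_pos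
  obtain ⟨η, hη, h1, h2⟩ : ∃ η : ℝ, 0 < η ∧ η * max 1 ‖a‖ ≤ r ∧
      η * max 1 ‖a‖ < ‖B.u₀.eval a‖ := by
    refine ⟨min r (‖B.u₀.eval a‖ / 2) / max 1 ‖a‖, by positivity, ?_, ?_⟩ <;>
      rw [div_mul_cancel₀ _ hK.ne']
    · exact min_le_left _ _
    · exact (min_le_right _ _).trans_lt (half_lt_self hA0)
  let D : E × E → E := fun z =>
    B.u₀.eval a * (z.2 - B.y₁) + B.u₀.eval z.1 * (b + B.y₁)
  have cu : Continuous fun z : E × E => B.u₀.eval z.1 := B.u₀.continuous.comp continuous_fst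
  have cD : Continuous D := by fun_prop
  have hD : D (a, b) ≠ 0 := by
    rw [show D (a, b) = 2 * b * B.u₀.eval a by simp only [D]; ring]
    exact mul_ne_zero (mul_ne_zero two_ne_zero hb) hA
  have small : ∀ c : E, ∀ᶠ z : E × E in 𝓝 (a, b),
      ‖(z.1 - a) * B.u₀.eval z.1 * c / D z‖ < η := fun c => by
    have hc : ContinuousAt (fun z : E × E => ‖(z.1 - a) * B.u₀.eval z.1 * c / D z‖) (a, b) :=
      (ContinuousAt.div (by fun_prop) cD.continuousAt hD).norm
    exact hc.eventually_lt_const (by simpa using hη)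
  have ev : ∀ᶠ z : E × E in 𝓝 (a, b), D z ≠ 0 ∧ B.u₀.eval z.1 ≠ 0 ∧ z.2 + b ≠ 0 ∧
      ‖(z.1 - a) * B.u₀.eval z.1 * (-B.u₀.eval a) / D z‖ < η ∧
      ‖(z.1 - a) * B.u₀.eval z.1 * (b + B.y₁) / D z‖ < η := by
    refine (cD.continuousAt.eventually_ne hD).and ((cu.continuousAt.eventually_ne hA).and
      (Eventually.and ?_ ((small _).and (small _))))
    refine ContinuousAt.eventually_ne (by fun_prop) ?_
    rw [← two_mul]
    exact mul_ne_zero two_ne_zero hb
  obtain ⟨ε, hε, hev⟩ := Metric.eventually_nhds_iff.1 ev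
  refine ⟨min ε η, lt_min hε hη, fun a' b' h' ha' hb' => ?_⟩
  obtain ⟨g1, g2, g3, g4, g5⟩ := hev (y := (a', b')) (by
    rw [Prod.dist_eq, dist_eq_norm, dist_eq_norm]
    exact max_lt (ha'.trans_le (min_le_left _ _)) (hb'.trans_le (min_le_left _ _)))
  by_cases hne : a' = a
  · subst hne
    have : b' = b := by
      have e : (b' - b) * (b' + b) = 0 := by linear_combination h' - h
      exact sub_eq_zero.1 ((mul_eq_zero.1 e).resolve_right g3)
    rw [this, div_self']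
    exact ⟨_, _, B.cl_base h0.le, (one_mul _).symm⟩
  · refine gen_core B hr h h' hne g2 h1 h2 (ha'.le.trans (min_le_right _ _)) g4.le g5.le ?_ ?_
    · simp only [D] at g1 ⊢
      field_simp
      ring
    · simp only [D] at g1 ⊢
      field_simp
      ring

end Pool.Agent.MP_14ad9d_nt.Full

end

section

set_option autoImplicit false

open Polynomial Filter Topology

namespace Pool.Agent.MP_14ad9d_nt.Full

namespace PDAux

/-- a monic polynomial over an algebraically closed field as a product indexed by `Fin` -/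
theorem exists_prod {E : Type} [Field E] [IsAlgClosed E] {p : E[X]} (hp : p.Monic) :
    ∃ c : Fin p.natDegree → E, p = ∏ i, (X - C (c i)) := by
  suffices ∀ (n : ℕ) (p : E[X]), p.Monic → p.natDegree = n →
      ∃ c : Fin n → E, p = ∏ i, (X - C (c i)) from this _ p hp rfl
  intro n
  induction n with
  | zero => exact fun p hp h => ⟨Fin.elim0, by simpa using hp.natDegree_eq_zero.1 h⟩
  | succ n ih =>
    intro p hp h
    obtain ⟨b, hb⟩ := IsAlgClosed.exists_root p (degree_ne_of_natDegree_ne (n := 0) (by omega))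
    obtain ⟨q, rfl⟩ := dvd_iff_isRoot.2 hb
    have hq := (monic_X_sub_C b).of_mul_monic_left hp
    rw [(monic_X_sub_C b).natDegree_mul hq, natDegree_X_sub_C] at h
    obtain ⟨c, hc⟩ := ih q hq (by omega)
    exact ⟨Fin.cons b c, by simp [Fin.prod_univ_succ, ← hc]⟩

theorem exists_pos_le {ι : Type} [Finite ι] {δ : ι → ℝ} (h : ∀ i, 0 < δ i) :
    ∃ η : ℝ, 0 < η ∧ ∀ i, η ≤ δ i := by
  have : Nonempty {x : ℝ // 0 < x} := ⟨⟨1, one_pos⟩⟩
  obtain ⟨η, hη⟩ := Finite.exists_ge fun i => (⟨δ i, h i⟩ : {x : ℝ // 0 < x})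
  exact ⟨η.1, η.2, hη⟩

variable {E : Type} [NormedField E]

theorem exists_bd (p : E[X]) : ∃ M : ℝ, 1 ≤ M ∧ Bd M p := by
  refine ⟨1 + ∑ i ∈ p.support, ‖p.coeff i‖, le_add_of_nonneg_right (by positivity), fun i => ?_⟩
  by_cases hi : i ∈ p.support
  · linarith [Finset.single_le_sum (f := fun i => ‖p.coeff i‖) (fun _ _ => norm_nonneg _) hi]
  · rw [notMem_support_iff.1 hi, norm_zero]
    positivity

theorem root_near [IsAlgClosed E] {f : E[X]} (hf : f.Monic) {a : E} (ha : f.eval a = 0) {η : ℝ}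
    (hη : 0 < η) : ∃ δ : ℝ, 0 < δ ∧ ∀ p : E[X], p.Monic → p.natDegree = f.natDegree →
      Bd δ (p - f) → ∃ b, p.IsRoot b ∧ ‖b - a‖ < η := by
  have hn : f.natDegree ≠ 0 := fun h => by simp [hf.natDegree_eq_zero.1 h] at ha
  have hM : 0 < max ‖a‖ 1 := lt_max_of_lt_right one_pos
  have hε : 0 < (η / max ‖a‖ 1) ^ f.natDegree / (f.natDegree + 1) := by positivity
  refine ⟨_, half_pos hε, fun p hp hd hb => ?_⟩
  obtain ⟨b, h₁, h₂⟩ := exists_roots_norm_sub_lt_of_norm_coeff_sub_lt hε ha hf hp hd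
    (fun i => by simpa using (hb i).trans_lt (half_lt_self hε)) (IsAlgClosed.splits p)
  rw [mul_div_cancel₀ _ (by positivity), Real.pow_rpow_inv_natCast (by positivity) hn,
    div_mul_cancel₀ _ hM.ne', norm_sub_rev] at h₂
  exact ⟨b, isRoot_of_mem_roots h₁, h₂⟩

variable [IsUltrametricDist E]

theorem bd_of_mul {r : ℝ} {b : E} {q : E[X]} (h : Bd r ((X - C b) * q)) : Bd r q := by
  rcases le_total ‖b‖ 1 with hb | hb
  · exact Bd.of_mul (monic_X_sub_C b) (bd_X.sub ((bd_C b).mono hb)) h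
  · have key : ∀ x : E, ‖b * x‖ ≤ r → ‖x‖ ≤ r := fun x hx =>
      (le_mul_of_one_le_left (norm_nonneg x) hb).trans (norm_mul b x ▸ hx)
    intro i
    induction i with
    | zero => exact key _ (by simpa using h 0)
    | succ i ih =>
      refine key _ ?_
      have h₁ := h (i + 1)
      rw [coeff_X_sub_C_mul] at h₁
      have := IsUltrametricDist.norm_add_le_max (q.coeff i)
        (-(q.coeff i - b * q.coeff (i + 1)))
      rw [norm_neg, show q.coeff i + -(q.coeff i - b * q.coeff (i + 1)) = b * q.coeff (i + 1) by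
        ring] at this
      exact this.trans (max_le ih h₁)

theorem div_close (a : E) (f : E[X]) {η : ℝ} (hη : 0 < η) : ∃ δ : ℝ, 0 < δ ∧ ∀ (b : E) (p : E[X]),
    ‖b - a‖ ≤ δ → Bd δ ((X - C b) * p - (X - C a) * f) → Bd η (p - f) := by
  obtain ⟨M, hM, hf⟩ := exists_bd f
  refine ⟨η / M, by positivity, fun b p hb h => bd_of_mul (b := b) ?_⟩
  have h₁ := (h.mono (div_le_self hη.le hM)).add (((bd_C (b - a)).mul hf).mono
    ((le_div_iff₀ (by positivity)).1 hb))
  convert h₁ using 1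
  rw [C_sub]
  ring

variable {l : ℕ} [Fact l.Prime] [Fact (2 < l)] {k : Type} [Field k] [CharZero k] {s : kˣ}

theorem cl_mum_prod {n : ℕ} (c : Fin n → k) {v : k[X]} (h : ∏ i, (X - C (c i)) ∣ v ^ 2 - FF l s) :
    cl l (mum l s (∏ i, (X - C (c i))) v) = ∏ i, cl l (pt l s (c i) (v.eval (c i))) := by
  have := mum_split (l := l) (s := s) (Finset.univ.val.map c) (v := v)
    (by simpa only [Multiset.map_map, Function.comp_def, Finset.prod_map_val] using h)
  simp only [Multiset.map_map, Function.comp_def, Finset.prod_map_val] at this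
  rw [this]
  exact cl_prod _ _ fun i _ => mum_ne_bot _ _

theorem line_rel {n : ℕ} {a : k} {c : Fin n → k} {v : k[X]}
    (h : FF l s - v ^ 2 = (X - C a) * ∏ i, (X - C (c i))) :
    cl l (pt l s a (v.eval a)) = (∏ i, cl l (pt l s (c i) (v.eval (c i))))⁻¹ := by
  have e : ∏ i, (X - C (Fin.cons (α := fun _ => k) a c i)) = -(v ^ 2 - FF l s) := by
    simp [Fin.prod_univ_succ, h]
  have := cl_mum_prod (l := l) (s := s) (Fin.cons a c) (v := v) (by rw [e, neg_dvd])
  rw [e, mum_assoc (Associated.refl _).neg_left, mum_full, cl_span, Fin.prod_univ_succ] at this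
  exact eq_inv_of_mul_eq_one_left (by simpa using this.symm)

omit [CharZero k] in
theorem line_monic {v : k[X]} (hv : v.natDegree ≤ 1) :
    (FF l s - v ^ 2).Monic ∧ (FF l s - v ^ 2).natDegree = l := by
  have h : (v ^ 2).natDegree < (FF l s).natDegree := by
    have : 2 < l := Fact.out
    rw [FF_natDegree, natDegree_pow]
    omega
  exact ⟨(FF_monic l s).sub_of_left (degree_lt_degree h),
    (natDegree_sub_eq_left_of_natDegree_lt h).trans (FF_natDegree l s)⟩

omit [Fact l.Prime] [Fact (2 < l)] [CharZero k] in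
theorem eval_FF (a : k) : (FF l s).eval a = a ^ l + (s : k) ^ 2 := by simp [FF]

omit [Fact (2 < l)] in
/-- a line through a point whose other intersection points avoid the roots of `u` -/
theorem exists_slope {a b : k} (h : b ^ 2 = a ^ l + (s : k) ^ 2) {u : k[X]} (hu : u ≠ 0) :
    ∃ m : k, l * a ^ (l - 1) - 2 * b * m ≠ 0 ∧
      ∀ c, c ≠ a → u.IsRoot c → (b + m * (c - a)) ^ 2 ≠ c ^ l + (s : k) ^ 2 := by
  have hl : l ≠ 0 := (Fact.out : l.Prime).ne_zero
  have f₁ : {m : k | ∃ c ∈ {c | u.IsRoot c} \ {a},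
      (b + m * (c - a)) ^ 2 = c ^ l + (s : k) ^ 2}.Finite := by
    refine (((finite_setOfPred_isRoot hu).subset Set.sdiff_subset).biUnion
      (t := fun c => {m : k | (b + m * (c - a)) ^ 2 = c ^ l + (s : k) ^ 2}) fun c hc => ?_).subset
      fun m ⟨c, hc, hm⟩ => Set.mem_biUnion hc hm
    refine ((finite_setOfPred_isRoot (monic_X_pow_sub_C (c ^ l + (s : k) ^ 2)
      two_ne_zero).ne_zero).preimage (f := fun m => b + m * (c - a)) fun x _ y _ e => ?_).subset
      fun m hm => by simpa [sub_eq_zero] using hm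
    exact mul_right_cancel₀ (sub_ne_zero.2 hc.2) (add_left_cancel e)
  obtain ⟨m, hm⟩ := (f₁.insert (l * a ^ (l - 1) / (2 * b))).exists_notMem
  simp only [Set.mem_insert_iff, not_or] at hm
  refine ⟨m, fun e => ?_, fun c h₁ h₂ e => hm.2 ⟨c, ⟨h₂, h₁⟩, e⟩⟩
  by_cases hb : b = 0
  · have ha : a = 0 := by
      rw [hb, mul_zero, zero_mul, sub_zero, mul_eq_zero] at e
      exact pow_eq_zero_iff'.1 (e.resolve_left (Nat.cast_ne_zero.2 hl)) |>.1
    rw [ha, hb, zero_pow hl, zero_add, zero_pow two_ne_zero] at h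
    exact pow_ne_zero 2 s.ne_zero h.symm
  · exact hm.1 (by field_simp; linear_combination -e)

end PDAux

open PDAux

/-- continuity of roots with multiplicities -/
theorem roots_match {E : Type} [NormedField E] [IsUltrametricDist E] [IsAlgClosed E] (n : ℕ)
    (a : Fin n → E) {ε : ℝ} (hε : 0 < ε) : ∃ δ : ℝ, 0 < δ ∧ ∀ p : E[X], p.Monic → p.natDegree = n →
      Bd δ (p - ∏ i, (X - C (a i))) →
        ∃ a' : Fin n → E, p = ∏ i, (X - C (a' i)) ∧ ∀ i, ‖a' i - a i‖ < ε := by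
  induction n with
  | zero =>
    exact ⟨1, one_pos, fun p hp h _ => ⟨a, by simpa using hp.natDegree_eq_zero.1 h,
      fun i => i.elim0⟩⟩
  | succ n ih =>
    obtain ⟨δ₁, h₁, ih⟩ := ih fun i => a i.succ
    obtain ⟨δ₂, h₂, hd⟩ := div_close (a 0) (∏ i : Fin n, (X - C (a i.succ))) h₁
    obtain ⟨δ₃, h₃, hr⟩ := root_near (monic_prod_X_sub_C a Finset.univ) (a := a 0)
      (by simp [Fin.prod_univ_succ]) (lt_min h₂ hε)
    refine ⟨_, lt_min h₂ h₃, fun p hp hn hb => ?_⟩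
    obtain ⟨b, hb₁, hb₂⟩ := hr p hp (by simp [hn]) (hb.mono (min_le_right _ _))
    obtain ⟨q, rfl⟩ := dvd_iff_isRoot.2 hb₁
    have hq := (monic_X_sub_C b).of_mul_monic_left hp
    rw [(monic_X_sub_C b).natDegree_mul hq, natDegree_X_sub_C] at hn
    rw [Fin.prod_univ_succ] at hb
    obtain ⟨c, hc, hc'⟩ := ih q hq (by omega)
      (hd b q (hb₂.le.trans (min_le_left _ _)) (hb.mono (min_le_left _ _)))
    refine ⟨Fin.cons b c, by simp [Fin.prod_univ_succ, ← hc], Fin.cases ?_ hc'⟩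
    exact hb₂.trans_le (min_le_right _ _)

/-- continuity at every point -/
theorem Base.loc_const {l : ℕ} [Fact l.Prime] [Fact (2 < l)] {E : Type} [NormedField E]
    [IsUltrametricDist E] [IsAlgClosed E] [CharZero E] {s : Eˣ} (B : Base l s) {r : ℝ}
    (h0 : 0 < r) (hr : r < 1) {a b : E} (h : b ^ 2 = a ^ l + (s : E) ^ 2) :
    ∃ δ : ℝ, 0 < δ ∧ ∀ a' b' : E, b' ^ 2 = a' ^ l + (s : E) ^ 2 → ‖a' - a‖ < δ → ‖b' - b‖ < δ →
      B.Nb r (cl l (pt l s a' b') / cl l (pt l s a b)) := by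
  obtain ⟨H, hH⟩ := B.exists_sub h0.le hr
  obtain ⟨m, hm₁, hm₂⟩ := exists_slope h (mul_ne_zero (FF_monic l s).ne_zero B.monic.ne_zero)
  have fac : ∀ a b : E, b ^ 2 = a ^ l + (s : E) ^ 2 → ∃ q : E[X], q.Monic ∧ q.natDegree = l - 1 ∧
      FF l s - (C b + C m * (X - C a)) ^ 2 = (X - C a) * q := fun a b h => by
    obtain ⟨h₁, h₂⟩ := line_monic (l := l) (s := s) (v := C b + C m * (X - C a))
      (by compute_degree)
    obtain ⟨q, hq⟩ := dvd_iff_isRoot.2
      (show (FF l s - (C b + C m * (X - C a)) ^ 2).IsRoot a by simp [eval_FF, h])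
    rw [hq] at h₁ h₂
    have h₃ := (monic_X_sub_C a).of_mul_monic_left h₁
    rw [(monic_X_sub_C a).natDegree_mul h₃, natDegree_X_sub_C] at h₂
    exact ⟨q, h₃, by omega, hq⟩
  have cur : ∀ {n : ℕ} {a : E} {c : Fin n → E} {v : E[X]},
      FF l s - v ^ 2 = (X - C a) * ∏ i, (X - C (c i)) →
      ∀ i, v.eval (c i) ^ 2 = c i ^ l + (s : E) ^ 2 := fun {n a c v} e i => by
    have := congrArg (eval (c i)) e
    rw [eval_mul, eval_prod, Finset.prod_eq_zero (Finset.mem_univ i) (by simp), mul_zero, eval_sub,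
      eval_FF, eval_pow, sub_eq_zero] at this
    exact this.symm
  obtain ⟨q, hq₁, hq₂, hq₃⟩ := fac a b h
  obtain ⟨c, hc⟩ := exists_prod hq₁
  set p : E[X] := C b + C m * (X - C a) with hp
  have hq₄ := hq₃
  rw [hc] at hq₄
  have hne : ∀ i, c i ≠ a := fun i e => by
    have h₁ := congrArg (fun f => (derivative f).eval a) hq₃
    have h₂ : q.eval a = 0 := by
      rw [hc, eval_prod, Finset.prod_eq_zero (Finset.mem_univ i) (by simp [e])]
    refine hm₁ ?_
    simp only [hp, FF, derivative_sub, derivative_add, derivative_X_pow, derivative_C,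
      derivative_sq, derivative_mul, derivative_X] at h₁
    simpa [h₂] using h₁
  have gen : ∀ i, ¬ (FF l s * B.u₀).IsRoot (c i) := fun i e =>
    hm₂ (c i) (hne i) e (by simpa [hp] using cur hq₄ i)
  choose δ hδ hN using fun i => B.loc_gen h0 hr (cur hq₄ i)
    (fun e => gen i (by
      have := cur hq₄ i
      rw [e] at this
      simp [eval_FF, ← this])) fun e => gen i (by simp [e.eq_zero])
  obtain ⟨δ₁, h₁, hle⟩ := exists_pos_le hδ
  obtain ⟨δ₂, h₂, hR⟩ := roots_match _ c (show 0 < δ₁ / (‖m‖ + 1) by positivity)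
  obtain ⟨δ₃, h₃, hD⟩ := div_close a q h₂
  obtain ⟨M, hM, hb⟩ := exists_bd (p + p)
  have ce : Tendsto (fun z : E × E => ‖z.2 - b - m * (z.1 - a)‖) (𝓝 (a, b)) (𝓝 0) :=
    Continuous.tendsto' (by fun_prop) _ _ (by simp)
  obtain ⟨δ₄, h₄, hE⟩ := Metric.eventually_nhds_iff.1
    (ce.eventually_lt_const (lt_min (lt_min one_pos h₁) (show 0 < δ₃ / M by positivity)))
  refine ⟨_, lt_min h₄ h₃, fun a' b' h' ha hb' => ?_⟩
  have he := hE (y := (a', b')) (by
    rw [Prod.dist_eq, dist_eq_norm, dist_eq_norm]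
    exact max_lt (ha.trans_le (min_le_left _ _)) (hb'.trans_le (min_le_left _ _)))
  simp only [lt_min_iff] at he
  set e : E := b' - b - m * (a' - a) with he'
  obtain ⟨q', hq₁', hq₂', hq₃'⟩ := fac a' b' h'
  have hp' : C b' + C m * (X - C a') = p + C e := by
    simp only [hp, he', C_sub, C_mul]
    ring
  have hclose : Bd δ₃ ((X - C a') * q' - (X - C a) * q) := by
    have := (((bd_C e).mul (hb.add ((bd_C e).mono (he.1.1.le.trans hM)))).mono
      ((le_div_iff₀ (by positivity)).1 he.2.le)).neg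
    convert this using 1
    rw [← hq₃', ← hq₃, hp']
    ring
  obtain ⟨c', hc', hcc⟩ := hR q' hq₁' (hq₂'.trans hq₂.symm)
    (hc ▸ hD a' q' (ha.le.trans (min_le_right _ _)) hclose)
  rw [hc'] at hq₃'
  have r₁ := line_rel hq₄
  have r₂ := line_rel hq₃'
  rw [show p.eval a = b by simp [hp]] at r₁
  rw [show eval a' (C b' + C m * (X - C a')) = b' by simp] at r₂
  rw [← hH, r₁, r₂, inv_div_inv, ← inv_mem_iff, inv_div, ← Finset.prod_div_distrib]
  refine H.prod_mem fun i _ => (hH _).2 (hN i _ _ (cur hq₃' i) ?_ ?_)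
  · exact ((hcc i).trans_le (div_le_self h₁.le (by simp))).trans_le (hle i)
  · have e₁ : (C b' + C m * (X - C a')).eval (c' i) - p.eval (c i) = m * (c' i - c i) + e := by
      simp only [hp', hp, eval_add, eval_mul, eval_sub, eval_C, eval_X]
      ring
    have e₂ := (lt_div_iff₀ (by positivity)).1 (hcc i)
    rw [e₁]
    refine ((IsUltrametricDist.norm_add_le_max _ _).trans_lt (max_lt ?_ he.1.2)).trans_le (hle i)
    rw [norm_mul]
    nlinarith [norm_nonneg (c' i - c i)]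

end Pool.Agent.MP_14ad9d_nt.Full

end

section

set_option autoImplicit false

open Polynomial Filter Topology

namespace Pool.Agent.MP_14ad9d_nt.Full

namespace PEAux

/-- if the values of a nonzero polynomial tend to zero, a subsequence tends to a limit -/
theorem subseq_of_eval {E : Type} [NormedField E] [IsAlgClosed E] {p : E[X]} (hp : p ≠ 0)
    {x : ℕ → E} (h : Tendsto (fun i => p.eval (x i)) atTop (𝓝 0)) :
    ∃ (a₀ : E) (φ : ℕ → ℕ), StrictMono φ ∧ Tendsto (fun i => x (φ i)) atTop (𝓝 a₀) := by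
  obtain ⟨c, hc⟩ := PDAux.exists_prod (monic_mul_leadingCoeff_inv hp)
  by_contra hn
  have h₁ : ∀ k, ∃ η : ℝ, 0 < η ∧ ∀ᶠ i in atTop, η ≤ ‖x i - c k‖ := fun k => by
    by_contra hk
    refine hn ⟨c k, MapClusterPt.tendsto_subseq
      (Metric.nhds_basis_ball.mapClusterPt_iff_frequently.2 fun η hη => ?_)⟩
    simpa [dist_eq_norm] using not_eventually.1 fun e => hk ⟨η, hη, e⟩
  choose η h₂ h₃ using h₁
  have h₄ : Tendsto (fun i => ‖p.eval (x i) * p.leadingCoeff⁻¹‖) atTop (𝓝 0) := by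
    simpa using (h.mul_const p.leadingCoeff⁻¹).norm
  obtain ⟨i, h₅, h₆⟩ := ((eventually_all.2 h₃).and
    (h₄.eventually_lt_const (Finset.prod_pos (s := Finset.univ) fun k _ => h₂ k))).exists
  have := congrArg (fun f => ‖f.eval (x i)‖) hc
  simp only [eval_mul, eval_C, eval_prod, eval_sub, eval_X, norm_prod] at this
  exact absurd (this ▸ h₆) (not_lt.2
    (Finset.prod_le_prod (fun k _ => (h₂ k).le) fun k _ => h₅ k))

open Pointwise in
theorem finite_pow {G : Type} [Monoid G] {S : Set G} (h : S.Finite) (n : ℕ) : (S ^ n).Finite := by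
  induction n with
  | zero => exact pow_zero S ▸ Set.finite_one
  | succ n ih => exact pow_succ S n ▸ ih.mul h

end PEAux

open PEAux

/-- bounded sequences of numbers of bounded degree have convergent subsequences -/
theorem seq_cpt {l : ℕ} [Fact l.Prime] {K : Type} [Field K] [NumberField K] (j : K →+* ℂ_[l])
    (n : ℕ) (R : ℝ) (a : ℕ → ℂ_[l]) (hR : ∀ i, ‖a i‖ ≤ R)
    (ha : ∀ i, ∃ p : K[X], p ≠ 0 ∧ p.natDegree ≤ n ∧ (p.map j).IsRoot (a i)) :
    ∃ (a₀ : ℂ_[l]) (φ : ℕ → ℕ), StrictMono φ ∧ Tendsto (fun i => a (φ i)) atTop (𝓝 a₀) := by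
  let β := Module.finBasis ℚ K
  let V : Submodule ℚ_[l] ℂ_[l] := Submodule.span ℚ_[l] (Set.range fun i => j (β i))
  have : FiniteDimensional ℚ_[l] V := FiniteDimensional.span_of_finite _ (Set.finite_range _)
  have : ProperSpace V := FiniteDimensional.proper ℚ_[l] V
  have hV : ∀ x : K, j x ∈ V := fun x => by
    rw [← β.sum_repr x, map_sum]
    refine V.sum_mem fun i _ => ?_
    have : j (β.repr x i • β i) = ((β.repr x i : ℚ) : ℚ_[l]) • j (β i) := by
      rw [Rat.smul_def, map_mul, map_ratCast, Algebra.smul_def, map_ratCast]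
    rw [this]
    exact V.smul_mem _ (Submodule.subset_span ⟨i, rfl⟩)
  obtain ⟨c, hc⟩ := NormedField.exists_one_lt_norm ℚ_[l]
  have h₁ : ∀ i, ∃ w : Fin (n + 1) → V, ‖w‖ < 1 ∧ 1 / ‖c‖ ≤ ‖w‖ ∧
      ∑ k : Fin (n + 1), (w k : ℂ_[l]) * a i ^ (k : ℕ) = 0 := fun i => by
    obtain ⟨p, h₁, h₂, h₃⟩ := ha i
    obtain ⟨d, -, h₄, h₅, -⟩ := rescale_to_shell hc one_pos
      (x := fun k : Fin (n + 1) => (⟨j (p.coeff k), hV _⟩ : V)) fun e => h₁ (by
        have := congrArg Subtype.val (congrFun e ⟨p.natDegree, by omega⟩)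
        simpa using this)
    refine ⟨_, h₄, h₅, ?_⟩
    rw [IsRoot, eval_eq_sum_range' (n := n + 1) (by rw [natDegree_map]; omega),
      Finset.sum_range] at h₃
    simp only [coeff_map] at h₃
    simp only [Pi.smul_apply, Submodule.coe_smul, smul_mul_assoc, ← Finset.smul_sum, h₃, smul_zero]
  choose w h₂ h₃ h₄ using h₁
  obtain ⟨w₀, -, φ, hφ, hw⟩ := (isCompact_closedBall (0 : Fin (n + 1) → V) 1).tendsto_subseq
    (x := w) fun i => by simpa using (h₂ i).le
  have h₅ : w₀ ≠ 0 := fun e => by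
    have := ge_of_tendsto' hw.norm fun i => h₃ (φ i)
    rw [e, norm_zero] at this
    exact absurd this (not_le.2 (by positivity))
  obtain ⟨a₀, ψ, hψ, h⟩ := subseq_of_eval
    (p := ∑ k : Fin (n + 1), C (w₀ k : ℂ_[l]) * X ^ (k : ℕ)) (x := fun i => a (φ i))
    (fun e => h₅ (funext fun k => Subtype.ext (by
      simpa [Fin.val_inj] using congrArg (coeff · k) e))) (by
    have e : ∀ i, (∑ k : Fin (n + 1), C (w₀ k : ℂ_[l]) * X ^ (k : ℕ)).eval (a (φ i)) =
        ∑ k : Fin (n + 1), ((w₀ k : ℂ_[l]) - w (φ i) k) * a (φ i) ^ (k : ℕ) := fun i => by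
      simp [eval_finsetSum, sub_mul, h₄]
    simp only [e]
    rw [← Finset.sum_const_zero (s := (Finset.univ : Finset (Fin (n + 1))))]
    refine tendsto_finsetSum _ fun k _ => ?_
    have t₁ : Tendsto (fun i => (w₀ k : ℂ_[l]) - w (φ i) k) atTop (𝓝 0) := by
      simpa using (tendsto_subtype_rng.1 (tendsto_pi_nhds.1 hw k)).const_sub (w₀ k : ℂ_[l])
    refine t₁.zero_mul_isBoundedUnder_le (isBoundedUnder_of ⟨R ^ (k : ℕ), fun i => ?_⟩)
    simpa using pow_le_pow_left₀ (norm_nonneg _) (hR _) _)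
  exact ⟨a₀, φ ∘ ψ, hφ.comp hψ, h⟩

open Pointwise in
/-- the points near the origin form a subgroup of finite index -/
theorem fin_index {l : ℕ} [Fact l.Prime] [Fact (2 < l)] {K : Type} [Field K] [NumberField K]
    (j : K →+* ℂ_[l]) {s : Kˣ} {s' : ℂ_[l]ˣ} (h : j s = s') (B : Base l s') {r : ℝ} (h0 : 0 < r)
    (hr : r < 1) (H : Subgroup (Jac l s')) (hH : ∀ x, x ∈ H ↔ B.Nb r x) :
    (H.comap (jcf l j h)).FiniteIndex := by
  let T : Set (Jac l s' ⧸ H) := {t | ∃ a b : ℂ_[l], b ^ 2 = a ^ l + (s' : ℂ_[l]) ^ 2 ∧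
    (∃ p : K[X], p ≠ 0 ∧ p.natDegree ≤ l / 2 ∧ (p.map j).IsRoot a) ∧
      QuotientGroup.mk' H (cl l (pt l s' a b)) = t}
  have hT : T.Finite := by
    by_contra hT
    have hT' : (T \ {1}).Infinite := Set.Infinite.sdiff hT (Set.finite_singleton 1)
    choose a b h₁ h₂ h₃ using fun i => (hT'.natEmbedding _ i).2.1
    obtain ⟨R, hR⟩ := B.loc_inf h0 hr
    obtain ⟨a₀, φ, hφ, ha⟩ := seq_cpt j (l / 2) R a (fun i => not_lt.1 fun e =>
      (hT'.natEmbedding _ i).2.2 ((h₃ i).symm.trans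
        ((QuotientGroup.eq_one_iff _).2 ((hH _).2 (hR _ _ (h₁ i) e))))) h₂
    have t₁ : Tendsto (fun i => b (φ i) ^ 2) atTop (𝓝 (a₀ ^ l + (s' : ℂ_[l]) ^ 2)) := by
      simpa only [h₁] using (ha.pow l).add_const ((s' : ℂ_[l]) ^ 2)
    obtain ⟨b₀, ψ, hψ, hb⟩ := subseq_of_eval
      (monic_X_pow_sub_C (a₀ ^ l + (s' : ℂ_[l]) ^ 2) two_ne_zero).ne_zero
      (x := fun i => b (φ i)) (by simpa using tendsto_sub_nhds_zero_iff.2 t₁)
    obtain ⟨δ, hδ, hN⟩ := B.loc_const h0 hr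
      (tendsto_nhds_unique (hb.pow 2) (t₁.comp hψ.tendsto_atTop))
    obtain ⟨N, hN'⟩ := eventually_atTop.1
      (((tendsto_iff_norm_sub_tendsto_zero.1 (ha.comp hψ.tendsto_atTop)).eventually_lt_const
        hδ).and ((tendsto_iff_norm_sub_tendsto_zero.1 hb).eventually_lt_const hδ))
    have key : ∀ i, N ≤ i → (hT'.natEmbedding _ (φ (ψ i))).1 =
        QuotientGroup.mk' H (cl l (pt l s' a₀ b₀)) := fun i hi =>
      (h₃ _).symm.trans (QuotientGroup.eq_iff_div_mem.2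
        ((hH _).2 (hN _ _ (h₁ _) (hN' i hi).1 (hN' i hi).2)))
    have := (hT'.natEmbedding _).injective
      (Subtype.ext ((key N le_rfl).trans (key (N + 1) (Nat.le_succ N)).symm))
    exact absurd this (hφ (hψ (Nat.lt_succ_self N))).ne
  have : Finite ((QuotientGroup.mk' H).comp (jcf l j h)).range := by
    refine (finite_pow (hT.insert 1) (l / 2)).subset ?_
    rintro _ ⟨x, rfl⟩
    obtain ⟨u, v, hm, hd, rfl⟩ := exists_red x
    obtain ⟨hm₁, -, hm₂⟩ := hm.map j h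
    obtain ⟨c, hc⟩ := PDAux.exists_prod hm₁
    refine Set.pow_subset_pow_right (Set.mem_insert _ _)
      ((natDegree_map j).le.trans hd) (Set.mem_pow.2 ⟨fun i => ⟨QuotientGroup.mk' H
        (cl l (pt l s' (c i) ((v.map j).eval (c i)))), Set.mem_insert_of_mem _ ?_⟩, ?_⟩)
    · have hu : (u.map j).IsRoot (c i) := by
        rw [hc, IsRoot, eval_prod]
        exact Finset.prod_eq_zero (Finset.mem_univ i) (by simp)
      refine ⟨_, _, ?_, ⟨u, hm.1.ne_zero, hd, hu⟩, rfl⟩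
      simpa [PDAux.eval_FF, sub_eq_zero] using (hu.dvd hm₂).eq_zero
    · rw [List.prod_ofFn, MonoidHom.comp_apply, jcf_mum, ← map_prod,
        ← PDAux.cl_mum_prod c (hc ▸ hm₂), ← hc]
  have := Subgroup.finiteIndex_ker ((QuotientGroup.mk' H).comp (jcf l j h))
  rwa [← MonoidHom.comap_ker, QuotientGroup.ker_mk'] at this

end Pool.Agent.MP_14ad9d_nt.Full

end
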