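import Pool.Agent.Mg.F14ad9d.G04cbab
import Pool.Agent.Mg.F14ad9d.G67dcc7

section

open Matrix MeasureTheory Set Topology Filter
open scoped ENNReal NNReal CompactlySupported

namespace Pool.Agent.MP_7a4cc0_an

/-- Finitely many representatives. -/
theorem finrep {α : Type*} (L : Subgroup G) (Y : Set V) (hY : ∀ x ∈ Y, Fut x) (φ : G → α)
    (C : ℝ) (hc : ∀ x ∈ Y, ∃ g ∈ L, rho g x 0 ≤ C)
    (hfin : {a | ∃ g ∈ L, (∃ x ∈ Y, rho g x 0 ≤ C) ∧ φ g = a}.Finite) :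
    ∃ C' : ℝ, ∀ x ∈ Y, ∃ g ∈ L, ∃ g' ∈ L, φ g = φ g' ∧ rho (g'⁻¹ * g) x 0 ≤ C' := by
  have hr : ∀ a : α, ∃ r : G, (∃ g ∈ L, φ g = a) → r ∈ L ∧ φ r = a := by
    intro a
    by_cases h : ∃ g ∈ L, φ g = a
    · obtain ⟨g, h1, h2⟩ := h
      exact ⟨g, fun _ => ⟨h1, h2⟩⟩
    · exact ⟨1, fun h' => absurd h' h⟩
  choose r hr using hr
  obtain ⟨D, hD, hb⟩ := exists_norm_rho_le (hfin.image fun a => (r a)⁻¹).isCompact
  refine ⟨D * C, fun x hx => ?_⟩
  obtain ⟨g, hg, h1⟩ := hc x hx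
  obtain ⟨h2, h3⟩ := hr (φ g) ⟨g, hg, rfl⟩
  refine ⟨g, hg, r (φ g), h2, h3.symm, ?_⟩
  rw [rho_mul]
  have h4 := hb _ ⟨φ g, ⟨g, hg, ⟨x, hx, h1⟩, rfl⟩, rfl⟩ (rho g x)
  have h5 := (rho_fut g (hY x hx)).norm_le
  calc _ ≤ ‖rho (r (φ g))⁻¹ (rho g x) 0‖ := le_abs_self _
    _ ≤ ‖rho (r (φ g))⁻¹ (rho g x)‖ := norm_le_pi_norm _ 0
    _ ≤ D * ‖rho g x‖ := h4
    _ ≤ D * C := mul_le_mul_of_nonneg_left (h5.trans h1) hD

/-- The stabiliser of a vector with locally finite orbit is cocompact near its plane. -/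
theorem stab_cocpt (L : Subgroup G) (Y : Set V) (hY : ∀ x ∈ Y, Fut x) (n : V)
    (hn : LocFin (orb L n)) (R C : ℝ) (hR : ∀ x ∈ Y, |lor x n| ≤ R)
    (hc : ∀ x ∈ Y, ∃ g ∈ L, rho g x 0 ≤ C) :
    ∃ C' : ℝ, ∀ x ∈ Y, ∃ g ∈ L, rho g n = n ∧ rho g x 0 ≤ C' := by
  obtain ⟨D, hD⟩ := norm_le_of_lor C |lor n n| R
  obtain ⟨C', hC'⟩ := finrep L Y hY (fun g => rho g n) C hc ((hn D).subset (by
    rintro a ⟨g, hg, ⟨x, hx, h1⟩, rfl⟩
    refine ⟨⟨g, hg, rfl⟩, hD (rho g x) _ (rho_fut g (hY x hx)) h1 ?_ ?_⟩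
    · rw [lor_rho]
    · rw [lor_rho]; exact hR x hx))
  refine ⟨C', fun x hx => ?_⟩
  obtain ⟨g, hg, g', hg', h1, h2⟩ := hC' x hx
  refine ⟨g'⁻¹ * g, L.mul_mem (L.inv_mem hg') hg, ?_, h2⟩
  have h3 : rho g n = rho g' n := h1
  rw [rho_mul, h3, rho_inv_rho]

lemma Piece.unit' {d : V} {Gs : Subgroup G} {B : Set V} {R₀ : ℝ} (h : Piece d Gs B R₀)
    (hd : lor d d = 1) {m : V} (hm : m ∈ B ∪ orb Gs d) : lor m m = 1 := by
  rcases hm with hm | ⟨g, -, rfl⟩
  · exact h.unit m hm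
  · rw [lor_rho, hd]

lemma Piece.sep' {d : V} {Gs : Subgroup G} {B : Set V} {R₀ : ℝ} (h : Piece d Gs B R₀)
    {m m' : V} (hm : m ∈ B ∪ orb Gs d) (hm' : m' ∈ B ∪ orb Gs d) (hne : m ≠ m') :
    lor m m' ≤ -2 := by
  have key : ∀ b ∈ B, ∀ g ∈ Gs, lor b (rho g d) ≤ -2 := fun b hb g hg => by
    rw [lor_rho_right]
    exact h.sepd _ (h.inv _ (Gs.inv_mem hg) b hb)
  rcases hm with hm | ⟨g, hg, rfl⟩ <;> rcases hm' with hm' | ⟨g', hg', rfl⟩
  · exact h.sep m hm m' hm' hne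
  · exact key m hm g' hg'
  · rw [lor_comm]; exact key m' hm' g hg
  · rw [lor_rho_right, ← rho_mul]
    rcases h.door _ (Gs.mul_mem (Gs.inv_mem hg') hg) with h1 | h1
    · refine absurd ?_ hne
      have h2 := congrArg (rho g') h1
      rwa [rho_mul, rho_rho_inv] at h2
    · exact h1.1

lemma Piece.finRep_neg {d : V} {Gs : Subgroup G} {B : Set V} {R₀ : ℝ} (h : Piece d Gs B R₀)
    {m : V} (hm : m ∈ B ∪ orb Gs d) : m = d ∨ lor vo m < 0 := by
  rcases hm with hm | ⟨g, hg, rfl⟩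
  · exact Or.inr (h.neg m hm)
  · exact (h.door g hg).imp id And.right

/-- The closed half-spaces of two distinct walls of a piece are disjoint. -/
lemma Piece.sub {d : V} {Gs : Subgroup G} {B : Set V} {R₀ : ℝ} (h : Piece d Gs B R₀)
    (hd : lor d d = 1) (hdo : lor vo d = 0) {m m' : V} (hm : m ∈ B ∪ orb Gs d)
    (hm' : m' ∈ B ∪ orb Gs d) (hne : m ≠ m') {y : V} (hy : Cone y) (h0 : 0 ≤ lor y m) :
    lor y m' < 0 := by
  have hle : ∀ u ∈ B ∪ orb Gs d, lor vo u ≤ 0 := fun u hu => by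
    rcases h.finRep_neg hu with rfl | h1
    · exact hdo.le
    · exact h1.le
  have h1 := h.sep' hm hm' hne
  have h2 := h.sep' hm' hm hne.symm
  rcases h.finRep_neg hm' with h3 | h3
  · have h4 : lor vo m < 0 := (h.finRep_neg hm).resolve_left fun h5 => hne (h5.trans h3.symm)
    by_contra h5
    exact absurd (lor_sep (h.unit' hd hm) (h.unit' hd hm') (by linarith) fut_vo.cone h4
      (hle _ hm') hy (not_lt.1 h5)) (not_lt.2 h0)
  · exact lor_sep (h.unit' hd hm') (h.unit' hd hm) (by linarith) fut_vo.cone h3 (hle _ hm) hy h0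

lemma Piece.not_mem_orb {d : V} {Gs : Subgroup G} {B : Set V} {R₀ : ℝ} (h : Piece d Gs B R₀)
    (hd : lor d d = 1) {b : V} (hb : b ∈ B) : b ∉ orb Gs d := by
  rintro ⟨g, hg, rfl⟩
  have h1 := h.sepd _ (h.inv _ (Gs.inv_mem hg) _ hb)
  rw [rho_inv_rho, hd] at h1
  norm_num at h1

end Pool.Agent.MP_7a4cc0_an

end

section

open Matrix MeasureTheory Set Topology Filter
open scoped ENNReal NNReal CompactlySupported

namespace Pool.Agent.MP_7a4cc0_an

/-- A far wall has constant sign on a plane. -/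
lemma walls_sign {m m' x y : V} (hm : lor m m = 1) (hm' : lor m' m' = 1) (h : 2 ≤ |lor m m'|)
    (hx : Cone x) (hy : Cone y) (h1 : lor x m = 0) (h2 : lor y m = 0) (h3 : lor x m' < 0) :
    lor y m' < 0 := by
  rcases le_abs.1 h with h | h
  · exact lor_sep (m := -m) hm' (by simpa using hm) (by rw [lor_neg_right, lor_comm]; linarith) hx
      h3 (by simp [h1]) hy (by simp [h2])
  · exact lor_sep hm' hm (by rw [lor_comm]; linarith) hx h3 h1.le hy h2.ge

lemma walls_pt {m : V} (hm : lor m m = 1) : ∃ x, Cone x ∧ lor x m = 0 := by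
  obtain ⟨h1, h2⟩ := proj_timelike fut_vo hm
  exact ⟨_, ⟨by rw [h1]; nlinarith [sq_nonneg (lor vo m)], h2⟩, by simp [hm]⟩

/-- The outermost elements of an oriented family. -/
def wallsM (W₀ : Set V) : Set V :=
  {m | m ∈ W₀ ∧ ∀ m' ∈ W₀, ∀ y, Cone y → lor y m = 0 → lor y m' ≤ 0}

lemma walls_step {W₀ : Set V} (unit : ∀ m ∈ W₀, lor m m = 1)
    (sep : ∀ m ∈ W₀, ∀ m' ∈ W₀, m' = m ∨ m' = -m ∨ 2 ≤ |lor m m'|)
    (ho : ∀ m ∈ W₀, lor vo m ≤ 0) {y m : V} (hy : Fut y) (hm : m ∈ W₀) (hM : m ∉ wallsM W₀)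
    (h : 0 ≤ lor y m) : ∃ m' ∈ W₀, lor y m + 1 ≤ lor y m' := by
  simp only [wallsM, mem_ofPred_eq, hm, true_and, not_forall, not_le] at hM
  obtain ⟨m', hm', x, hx, h1, h2⟩ := hM
  have u1 := unit m hm
  have u2 : lor (-m') (-m') = 1 := by simpa using unit m' hm'
  have h3 : lor x (-m') < 0 := by simpa using h2
  refine ⟨m', hm', ?_⟩
  rcases sep m hm m' hm' with e | e | e
  · rw [e] at h2; linarith
  · rw [e, lor_neg_right] at h2; linarith
  rcases le_abs.1 e with e | e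
  · have := lor_drop (m := -m') hy u2 u1 (by rw [lor_neg_right]; linarith)
      (fun y' hy' h' => lor_sep u2 u1 (by rw [lor_neg_left, lor_comm]; linarith) hx h3 h1.le hy' h')
      h
    simpa using this
  · have := lor_sep (m := -m) u2 (by simpa using u1)
      (by rw [lor_neg_left, lor_neg_right, lor_comm]; linarith) hx h3 (by simp [h1]) fut_vo.cone
      (by simpa using ho m hm)
    rw [lor_neg_right] at this
    linarith [ho m' hm']

lemma walls_first {W₀ : Set V} (unit : ∀ m ∈ W₀, lor m m = 1)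
    (sep : ∀ m ∈ W₀, ∀ m' ∈ W₀, m' = m ∨ m' = -m ∨ 2 ≤ |lor m m'|)
    (ho : ∀ m ∈ W₀, lor vo m ≤ 0) {y m : V} (hy : Fut y) (hm : m ∈ W₀) (h : 0 ≤ lor y m) :
    ∃ m' ∈ wallsM W₀, lor y m ≤ lor y m' := by
  by_contra H
  push Not at H
  have key : ∀ n : ℕ, ∃ m' ∈ W₀, lor y m + n ≤ lor y m' := by
    intro n
    induction n with
    | zero => exact ⟨m, hm, by simp⟩
    | succ n ih =>
      obtain ⟨a, ha, h1⟩ := ih
      have n0 : (0 : ℝ) ≤ n := Nat.cast_nonneg n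
      obtain ⟨b, hb, h2⟩ := walls_step unit sep ho hy ha (fun hM => by linarith [H a hM])
        (by linarith)
      exact ⟨b, hb, by push_cast; linarith⟩
  obtain ⟨n, hn⟩ := exists_nat_gt |lor y vo|
  obtain ⟨a, ha, h1⟩ := key n
  have n0 : (0 : ℝ) ≤ n := Nat.cast_nonneg n
  have := lor_dist (m := -a) hy fut_vo (by simpa using unit a ha) (by rw [lor_neg_right]; linarith)
    (by simpa using ho a ha)
  rw [lor_neg_right, neg_sq, ← sq_abs (lor y vo)] at this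
  nlinarith [abs_nonneg (lor y vo)]

/-- Orientations of `W` pointing away from a point at bounded distance form a finite set. -/
lemma walls_fin {W : Set V} (unit : ∀ m ∈ W, lor m m = 1)
    (sep : ∀ m ∈ W, ∀ m' ∈ W, m' = m ∨ m' = -m ∨ 2 ≤ |lor m m'|) (C : ℝ) :
    {a : Set V | a ⊆ W ∧ (∀ m ∈ W, m ∈ a ∨ -m ∈ a) ∧
      ∃ z, Fut z ∧ z 0 ≤ C ∧ ∀ m ∈ a, lor z m ≤ 0}.Finite := by
  obtain ⟨D, hD⟩ := norm_le_of_lor 1 1 C
  have hF : {m ∈ W | |lor vo m| ≤ C}.Finite := (locFin_of_sep unit sep D).subset fun m hm =>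
    ⟨hm.1, hD vo m fut_vo (by simp [vo]) (by rw [unit m hm.1, abs_one]) hm.2⟩
  refine (hF.finite_subsets.image fun t => t ∪ {m ∈ W | C < |lor vo m| ∧ lor vo m < 0}).subset ?_
  rintro a ⟨h1, h2, z, hz, hC, h3⟩
  have key : ∀ m ∈ a, C < |lor vo m| → lor vo m < 0 := fun m hm h => by
    by_contra H
    have := lor_dist (m := -m) fut_vo hz (by simpa using unit m (h1 hm)) (by simpa using H)
      (by simpa using h3 m hm)
    rw [lor_neg_right, neg_sq, lor_vo_left z, neg_sq, ← sq_abs (lor vo m)] at this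
    nlinarith [hz.2]
  refine ⟨{m ∈ a | |lor vo m| ≤ C}, fun m hm => ⟨h1 hm.1, hm.2⟩, Subset.antisymm ?_ fun m hm => ?_⟩
  · rintro m (hm | ⟨hm, a1, a2⟩)
    · exact hm.1
    refine (h2 m hm).resolve_right fun h => ?_
    have := key _ h (by rwa [lor_neg_right, abs_neg])
    rw [lor_neg_right] at this
    linarith
  · rcases le_or_gt |lor vo m| C with h | h
    exacts [Or.inl ⟨hm, h⟩, Or.inr ⟨h1 hm, h, key m hm h⟩]

/-- The stabiliser of a set of vectors. -/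
def wallsG (L : Subgroup G) (W₀ : Set V) : Subgroup G where
  carrier := {g | g ∈ L ∧ ∀ m, rho g m ∈ W₀ ↔ m ∈ W₀}
  mul_mem' := fun {g h} hg hh => ⟨L.mul_mem hg.1 hh.1, fun m => by rw [rho_mul, hg.2, hh.2]⟩
  one_mem' := ⟨L.one_mem, fun m => by rw [rho_one]⟩
  inv_mem' := fun {g} hg => ⟨L.inv_mem hg.1, fun m => by rw [← hg.2, rho_rho_inv]⟩

/-- The region cut out by a separated invariant family of walls, next to the wall `d`. -/
theorem walls (L : Subgroup G) (W : Set V) (d : V) (hdo : lor vo d = 0) (hdW : d ∈ W)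
    (unit : ∀ m ∈ W, lor m m = 1) (hneg : ∀ m ∈ W, -m ∈ W)
    (inv : ∀ g ∈ L, ∀ m ∈ W, rho g m ∈ W)
    (sep : ∀ m ∈ W, ∀ m' ∈ W, m' = m ∨ m' = -m ∨ 2 ≤ |lor m m'|)
    (cocpt : ∃ C : ℝ, ∀ x, Fut x → ∃ g ∈ L, rho g x 0 ≤ C) :
    ∃ (Gs : Subgroup G) (M : Set V), Gs ≤ L ∧ (∀ g ∈ L, rho g d = d → g ∈ Gs) ∧ M ⊆ W ∧ d ∈ M ∧
      (∀ g ∈ Gs, ∀ m ∈ M, rho g m ∈ M) ∧ (∀ m ∈ M, ∀ m' ∈ M, m ≠ m' → lor m m' ≤ -2) ∧
      (∀ m ∈ M, m ≠ d → lor vo m < 0) ∧
      (∃ C : ℝ, ∀ x, Fut x → (∀ m ∈ M, lor x m ≤ 0) → ∃ g ∈ Gs, rho g x 0 ≤ C) ∧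
      (∀ y : V, lor y y < 0 → 0 < y 0 → ∀ m ∈ W, lor vo m < 0 → 0 ≤ lor y m →
        ∃ m' ∈ M, 0 ≤ lor y m') := by
  obtain ⟨W₀, hW⟩ : ∃ W₀ : Set V, ∀ m, m ∈ W₀ ↔ m ∈ W ∧ (m = d ∨ lor vo m < 0) :=
    ⟨{m | m ∈ W ∧ (m = d ∨ lor vo m < 0)}, fun _ => Iff.rfl⟩
  have sub : ∀ m ∈ W₀, m ∈ W := fun m hm => ((hW m).1 hm).1
  have unit₀ : ∀ m ∈ W₀, lor m m = 1 := fun m hm => unit m (sub m hm)
  have sep₀ : ∀ m ∈ W₀, ∀ m' ∈ W₀, m' = m ∨ m' = -m ∨ 2 ≤ |lor m m'| :=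
    fun m hm m' hm' => sep m (sub m hm) m' (sub m' hm')
  have ho : ∀ m ∈ W₀, lor vo m ≤ 0 := fun m hm => by
    rcases ((hW m).1 hm).2 with e | e
    exacts [(e ▸ hdo).le, e.le]
  have hd := unit d hdW
  have pl : ∀ m ∈ W, lor vo m < 0 → ∀ y, Cone y → lor y d = 0 → lor y m < 0 := by
    intro m hm h y hy hyd
    rcases sep d hdW m hm with e | e | e
    · rw [e] at h; linarith
    · rw [e, lor_neg_right] at h; linarith
    · exact walls_sign hd (unit m hm) e fut_vo.cone hy hdo hyd h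
  have tot : ∀ m ∈ W, m ∈ W₀ ∨ -m ∈ W₀ := fun m hm => by
    rw [hW, hW]
    rcases sep d hdW m hm with e | e | e
    · exact Or.inl ⟨hm, Or.inl e⟩
    · exact Or.inr ⟨hneg m hm, Or.inl (by rw [e, neg_neg])⟩
    rcases (lor_ne_zero_of_far fut_vo.cone (unit m hm) hd (by rw [lor_comm]; linarith)
      hdo).lt_or_gt with h | h
    · exact Or.inl ⟨hm, Or.inr h⟩
    · exact Or.inr ⟨hneg m hm, Or.inr (by simpa using h)⟩
  have fix : ∀ g ∈ L, rho g d = d → ∀ m ∈ W₀, rho g m ∈ W₀ := fun g hg e m hm => by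
    refine (hW _).2 ⟨inv g hg m (sub m hm), ((hW m).1 hm).2.imp (fun h => by rw [h, e]) fun h => ?_⟩
    rw [lor_rho_right]
    exact pl m (sub m hm) h _ (rho_cone _ fut_vo.cone) (by rw [← lor_rho_right, e, hdo])
  refine ⟨wallsG L W₀, wallsM W₀, fun g hg => hg.1, fun g hg e => ⟨hg, fun m => ⟨fun h => ?_,
    fix g hg e m⟩⟩, fun m hm => sub m hm.1, ⟨(hW d).2 ⟨hdW, Or.inl rfl⟩, fun m hm y hy h => ?_⟩,
    fun g hg m hm => ⟨(hg.2 m).2 hm.1, fun m' hm' y hy h => ?_⟩, fun m hm m' hm' hne => ?_,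
    fun m hm hne => ((hW m).1 hm.1).2.resolve_left hne, ?_, fun y hy y0 m hm h1 h2 => ?_⟩
  · simpa using fix g⁻¹ (L.inv_mem hg) (by rw [← e, rho_inv_rho, e]) _ h
  · rcases ((hW m).1 hm).2 with e | e
    exacts [(e ▸ h).le, (pl m (sub m hm) e y hy h).le]
  · rw [← rho_rho_inv g m', lor_rho_right]
    exact hm.2 _ ((hg.2 _).1 (by rwa [rho_rho_inv])) _ (rho_cone _ hy) (by rwa [← lor_rho_right])
  · rcases sep₀ m hm.1 m' hm'.1 with e | e | e
    · exact absurd e.symm hne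
    · have a1 := ho m hm.1
      have a2 := ho m' hm'.1
      have a3 : lor vo m' = -lor vo m := by rw [e, lor_neg_right]
      exact absurd ((((hW m).1 hm.1).2.resolve_right (by linarith)).trans
        (((hW m').1 hm'.1).2.resolve_right (by linarith)).symm) hne
    rcases le_abs.1 e with e' | e'
    · obtain ⟨x, hx, h1⟩ := walls_pt (unit₀ m hm.1)
      obtain ⟨x', hx', h2⟩ := walls_pt (unit₀ m' hm'.1)
      have := lor_sep (m := -m) (unit₀ m' hm'.1) (by simpa using unit₀ m hm.1)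
        (by rw [lor_neg_right, lor_comm]; linarith) hx ((hm.2 m' hm'.1 x hx h1).lt_of_ne
          (lor_ne_zero_of_far hx (unit₀ m' hm'.1) (unit₀ m hm.1) (by rw [lor_comm]; linarith) h1))
        (by simp [h1]) hx' (by simpa using hm'.2 m hm.1 x' hx' h2)
      linarith
    · linarith
  · obtain ⟨C, hC⟩ := cocpt
    obtain ⟨C', H⟩ := finrep L {x | Fut x ∧ ∀ m ∈ W₀, lor x m ≤ 0} (fun x hx => hx.1)
      (fun g => {m | rho g⁻¹ m ∈ W₀}) C (fun x hx => hC x hx.1) ((walls_fin unit sep C).subset (by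
        rintro _ ⟨g, hg, ⟨x, hx, hxC⟩, rfl⟩
        refine ⟨fun m hm => by simpa using inv g hg _ (sub _ hm), fun m hm => ?_, rho g x,
          rho_fut g hx.1, hxC, fun m hm => ?_⟩
        · simpa using tot _ (inv _ (L.inv_mem hg) m hm)
        · rw [lor_rho_left]
          exact hx.2 _ hm))
    refine ⟨C', fun x hx h => ?_⟩
    obtain ⟨g, hg, g', hg', e, h'⟩ := H x ⟨hx, fun m hm => by
      by_contra hc
      obtain ⟨m', a, b⟩ := walls_first unit₀ sep₀ ho hx hm (not_le.1 hc).le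
      exact hc (b.trans (h m' a))⟩
    refine ⟨g'⁻¹ * g, ⟨L.mul_mem (L.inv_mem hg') hg, fun m => ?_⟩, h'⟩
    have := Set.ext_iff.1 e (rho g m)
    rw [rho_mul]
    simpa using this.symm
  · have c0 : 0 < (√(-lor y y))⁻¹ := inv_pos.2 (Real.sqrt_pos.2 (by linarith))
    have h3 : 0 ≤ lor ((√(-lor y y))⁻¹ • y) m := by rw [lor_smul_left]; positivity
    obtain ⟨m', a, b⟩ := walls_first unit₀ sep₀ ho (fut_normalize hy y0)
      ((hW m).2 ⟨hm, Or.inr h1⟩) h3
    refine ⟨m', a, nonneg_of_mul_nonneg_right ?_ c0⟩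
    rw [← lor_smul_left]
    exact h3.trans b

end Pool.Agent.MP_7a4cc0_an

end

section

open Matrix MeasureTheory Set Topology Filter
open scoped ENNReal NNReal CompactlySupported

namespace Pool.Agent.MP_7a4cc0_an

/-- Two pieces glued along a door, indexed by the side. -/
structure MaskitData (ds : Bool → V) (Gs : Bool → Subgroup G) (Bs : Bool → Set V) (R₀ : ℝ) :
    Prop where
  unit : ∀ s, lor (ds s) (ds s) = 1
  base : ∀ s, lor vo (ds s) = 0
  opp : ∀ s, ds (!s) = -ds s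
  pc : ∀ s, Piece (ds s) (Gs s) (Bs s) R₀
  stab : ∀ s g, g ∈ Gs s → rho g (ds s) = ds s → g ∈ Gs (!s)

/-- Reduced words starting with a letter of the given side. -/
inductive MaskitRed (ds : Bool → V) (Gs : Bool → Subgroup G) : Bool → G → Prop
  | base (s : Bool) (g : G) : g ∈ Gs s → rho g (ds s) ≠ ds s → MaskitRed ds Gs s g
  | step (s : Bool) (g h : G) : g ∈ Gs s → rho g (ds s) ≠ ds s → MaskitRed ds Gs (!s) h →
      MaskitRed ds Gs s (g * h)

/-- The open tile of a side. -/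
def MaskitInt (ds : Bool → V) (Gs : Bool → Subgroup G) (s : Bool) : Set V :=
  {y | Cone y ∧ ∀ g ∈ Gs s, lor y (rho g (ds s)) < 0}

/-- The common stabiliser of the door. -/
def MaskitFix (ds : Bool → V) (Gs : Bool → Subgroup G) (g : G) : Prop :=
  ∀ s, g ∈ Gs s ∧ rho g (ds s) = ds s

/-- All black normals. -/
def MaskitB (Gs : Bool → Subgroup G) (Bs : Bool → Set V) : Set V :=
  {b | ∃ h ∈ Gs true ⊔ Gs false, ∃ s, ∃ β ∈ Bs s, rho h β = b}

lemma maskit_bool (s s' : Bool) : s' = s ∨ s' = !s := by cases s <;> cases s' <;> simp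

namespace MaskitData

variable {ds : Bool → V} {Gs : Bool → Subgroup G} {Bs : Bool → Set V} {R₀ : ℝ}

lemma orb_mem {s : Bool} {g : G} (hg : g ∈ Gs s) : rho g (ds s) ∈ Bs s ∪ orb (Gs s) (ds s) :=
  Or.inr ⟨g, hg, rfl⟩

lemma door_mem (s : Bool) : ds s ∈ Bs s ∪ orb (Gs s) (ds s) :=
  Or.inr ⟨1, one_mem _, rho_one _⟩

lemma le_sup (s : Bool) : Gs s ≤ Gs true ⊔ Gs false := by
  cases s
  · exact le_sup_right
  · exact le_sup_left

variable (M : MaskitData ds Gs Bs R₀)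
include M

lemma fix {s : Bool} {g : G} (hg : g ∈ Gs s) (h : rho g (ds s) = ds s) : MaskitFix ds Gs g := by
  intro s'
  rcases maskit_bool s s' with rfl | rfl
  · exact ⟨hg, h⟩
  · exact ⟨M.stab s g hg h, by rw [M.opp, map_neg, h]⟩

lemma sub {s : Bool} {m m' : V} (hm : m ∈ Bs s ∪ orb (Gs s) (ds s))
    (hm' : m' ∈ Bs s ∪ orb (Gs s) (ds s)) (hne : m ≠ m') {y : V} (hy : Cone y)
    (h0 : 0 ≤ lor y m) : lor y m' < 0 :=
  (M.pc s).sub (M.unit s) (M.base s) hm hm' hne hy h0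

lemma ne_orb {s : Bool} {b : V} (hb : b ∈ Bs s) {g : G} (hg : g ∈ Gs s) : b ≠ rho g (ds s) :=
  fun e => (M.pc s).not_mem_orb (M.unit s) hb ⟨g, hg, e.symm⟩

lemma flip {s : Bool} {y : V} (h : lor y (ds (!s)) < 0) : 0 < lor y (ds s) := by
  rw [M.opp, lor_neg_right] at h
  linarith

lemma neg_of_cases {s s2 : Bool} {h : G}
    (H : (s2 = s ∧ h ∈ Gs s) ∨ ∃ g ∈ Gs s, rho g (ds s) ≠ ds s ∧
      ∀ y ∈ MaskitInt ds Gs s2, 0 < lor (rho h y) (rho g (ds s)))
    {y : V} (hy : y ∈ MaskitInt ds Gs s2) : lor (rho h y) (ds s) < 0 := by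
  rcases H with ⟨rfl, hh⟩ | ⟨g, hg, hne, H⟩
  · rw [lor_rho_left]
    exact hy.2 _ (inv_mem hh)
  · exact M.sub (orb_mem hg) (door_mem s) hne (rho_cone h hy.1) (H y hy).le

lemma red_cases {s : Bool} {h : G} (hr : MaskitRed ds Gs s h) (s2 : Bool) :
    (s2 = s ∧ h ∈ Gs s) ∨ ∃ g ∈ Gs s, rho g (ds s) ≠ ds s ∧
      ∀ y ∈ MaskitInt ds Gs s2, 0 < lor (rho h y) (rho g (ds s)) := by
  induction hr with
  | base s g hg hne =>
    rcases maskit_bool s s2 with rfl | rfl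
    · exact Or.inl ⟨rfl, hg⟩
    · refine Or.inr ⟨g, hg, hne, fun y hy => ?_⟩
      rw [lor_rho]
      exact M.flip (by simpa using hy.2 1 (one_mem _))
  | step s g h hg hne _ ih =>
    refine Or.inr ⟨g, hg, hne, fun y hy => ?_⟩
    rw [rho_mul, lor_rho]
    exact M.flip (M.neg_of_cases ih hy)

omit M in
lemma fix_mul_red {δ : G} (hδ : MaskitFix ds Gs δ) {s : Bool} {h : G}
    (hr : MaskitRed ds Gs s h) : MaskitRed ds Gs s (δ * h) := by
  have key : ∀ s g, rho g (ds s) ≠ ds s → rho (δ * g) (ds s) ≠ ds s := fun s g hne e => by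
    refine hne ?_
    have := congrArg (rho δ⁻¹) (e.trans (hδ s).2.symm)
    rwa [rho_mul, rho_inv_rho, rho_inv_rho] at this
  cases hr with
  | base _ _ hg hne => exact .base s _ (mul_mem (hδ s).1 hg) (key s _ hne)
  | step _ g h hg hne hr =>
    rw [← mul_assoc]
    exact .step s _ h (mul_mem (hδ s).1 hg) (key s g hne) hr

lemma mul_nf {s : Bool} {g : G} (hg : g ∈ Gs s) {h : G}
    (H : MaskitFix ds Gs h ∨ ∃ s, MaskitRed ds Gs s h) :
    MaskitFix ds Gs (g * h) ∨ ∃ s, MaskitRed ds Gs s (g * h) := by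
  have one : ∀ g ∈ Gs s, MaskitFix ds Gs g ∨ ∃ s, MaskitRed ds Gs s g := fun g hg => by
    by_cases e : rho g (ds s) = ds s
    · exact Or.inl (M.fix hg e)
    · exact Or.inr ⟨s, .base s g hg e⟩
  have two : ∀ g ∈ Gs s, ∀ h, MaskitRed ds Gs (!s) h → ∃ s, MaskitRed ds Gs s (g * h) :=
    fun g hg h hr => by
    by_cases e : rho g (ds s) = ds s
    · exact ⟨_, fix_mul_red (M.fix hg e) hr⟩
    · exact ⟨s, .step s g h hg e hr⟩
  rcases H with H | ⟨s', H⟩
  · exact one _ (mul_mem hg (H s).1)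
  · rcases maskit_bool s s' with rfl | rfl
    · cases H with
      | base _ _ hg' _ => exact one _ (mul_mem hg hg')
      | step _ g' h' hg' _ hr =>
        rw [← mul_assoc]
        exact Or.inr (two _ (mul_mem hg hg') _ hr)
    · exact Or.inr (two g hg h H)

lemma nf {h : G} (hh : h ∈ Gs true ⊔ Gs false) :
    MaskitFix ds Gs h ∨ ∃ s, MaskitRed ds Gs s h := by
  rw [Subgroup.sup_eq_closure] at hh
  induction hh using Subgroup.closure_induction_left with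
  | one => exact Or.inl fun s => ⟨one_mem _, rho_one _⟩
  | mul_left x hx y _ ih =>
    rcases hx with hx | hx
    · exact M.mul_nf hx ih
    · exact M.mul_nf hx ih
  | inv_mul_cancel x hx y _ ih =>
    rcases hx with hx | hx
    · exact M.mul_nf (inv_mem hx) ih
    · exact M.mul_nf (inv_mem hx) ih

/-- The tile lemma. -/
lemma tile {h : G} (hh : h ∈ Gs true ⊔ Gs false) (s s2 : Bool) : (s2 = s ∧ h ∈ Gs s) ∨
    ∃ g ∈ Gs s, ∀ y ∈ MaskitInt ds Gs s2, 0 < lor (rho h y) (rho g (ds s)) := by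
  rcases M.nf hh with H | ⟨s', H⟩
  · rcases maskit_bool s s2 with rfl | rfl
    · exact Or.inl ⟨rfl, (H _).1⟩
    · refine Or.inr ⟨h, (H s).1, fun y hy => ?_⟩
      rw [lor_rho]
      exact M.flip (by simpa using hy.2 1 (one_mem _))
  · rcases maskit_bool s s' with rfl | rfl
    · rcases M.red_cases H s2 with H | ⟨g, hg, -, H⟩
      · exact Or.inl H
      · exact Or.inr ⟨g, hg, H⟩
    · refine Or.inr ⟨1, one_mem _, fun y hy => ?_⟩
      rw [rho_one]
      exact M.flip (M.neg_of_cases (M.red_cases H s2) hy)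

lemma mem_int {s : Bool} {β y : V} (hβ : β ∈ Bs s) (hy : Cone y) (h0 : 0 ≤ lor y β) :
    y ∈ MaskitInt ds Gs s :=
  ⟨hy, fun _ hg => M.sub (Or.inl hβ) (orb_mem hg) (M.ne_orb hβ hg) hy h0⟩

lemma black_cases {h : G} (hh : h ∈ Gs true ⊔ Gs false) (s : Bool) {s2 : Bool} {β : V}
    (hβ : β ∈ Bs s2) : rho h β ∈ Bs s ∨
      ∃ g ∈ Gs s, ∀ y, Cone y → 0 ≤ lor y (rho h β) → 0 < lor y (rho g (ds s)) := by
  rcases M.tile hh s s2 with ⟨rfl, H⟩ | ⟨g, hg, H⟩
  · exact Or.inl ((M.pc _).inv h H β hβ)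
  · refine Or.inr ⟨g, hg, fun y hy h0 => ?_⟩
    rw [lor_rho_right] at h0
    simpa using H _ (M.mem_int hβ (rho_cone _ hy) h0)

lemma mem_side {s : Bool} {y b : V} (hy : Cone y) (H : ∀ g ∈ Gs s, lor y (rho g (ds s)) ≤ 0)
    (hb : b ∈ MaskitB Gs Bs) (h0 : 0 ≤ lor y b) : b ∈ Bs s := by
  obtain ⟨h, hh, s2, β, hβ, rfl⟩ := hb
  rcases M.black_cases hh s hβ with H1 | ⟨g, hg, H1⟩
  · exact H1
  · exact absurd (H g hg) (H1 y hy h0).not_ge

lemma sep {b b' : V} (hb : b ∈ MaskitB Gs Bs) (hb' : b' ∈ MaskitB Gs Bs) (hne : b ≠ b') :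
    lor b b' ≤ -2 := by
  obtain ⟨h, hh, s, β, hβ, rfl⟩ := hb
  obtain ⟨h', hh', s', β', hβ', rfl⟩ := hb'
  rw [lor_rho_left, ← rho_mul]
  rcases M.black_cases (mul_mem (inv_mem hh) hh') s hβ' with H | ⟨g, hg, H⟩
  · refine (M.pc s).sep _ hβ _ H fun e => hne ?_
    rw [e, rho_mul, rho_rho_inv]
  · exact lor_nest ((M.pc s).unit _ hβ) (by rw [lor_rho]; exact (M.pc s').unit _ hβ')
      (by rw [lor_rho]; exact M.unit s)
      ((M.pc s).sep' (Or.inl hβ) (orb_mem hg) (M.ne_orb hβ hg))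
      (fun y hy h0 => M.sub (orb_mem hg) (Or.inl hβ) (M.ne_orb hβ hg).symm hy h0) H

lemma cover {x : V} (hx : Fut x) : ∃ h ∈ Gs true ⊔ Gs false, ∃ s,
    ∀ g ∈ Gs s, lor (rho h x) (rho g (ds s)) ≤ 0 := by
  let A : Set ℝ := {r | ∃ h ∈ Gs true ⊔ Gs false, |lor (rho h x) (ds true)| = r}
  have A0 : A.Nonempty := ⟨_, 1, one_mem _, rfl⟩
  have Ab : BddBelow A := ⟨0, by rintro _ ⟨h, -, rfl⟩; exact abs_nonneg _⟩
  obtain ⟨_, ⟨h, hh, rfl⟩, hlt⟩ := exists_lt_of_csInf_lt A0 (lt_add_one (sInf A))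
  have ab : ∀ s y, |lor y (ds true)| = |lor y (ds s)| := fun s y => by
    cases s
    · rw [show ds false = ds (!true) from rfl, M.opp, lor_neg_right, abs_neg]
    · rfl
  obtain ⟨s, hs⟩ : ∃ s, lor (rho h x) (ds s) ≤ 0 := by
    rcases le_total (lor (rho h x) (ds true)) 0 with H | H
    · exact ⟨true, H⟩
    · exact ⟨!true, by rw [M.opp, lor_neg_right]; linarith⟩
  refine ⟨h, hh, s, fun g hg => ?_⟩
  by_contra hn
  have hn := not_le.1 hn
  have hne : rho g (ds s) ≠ ds s := fun e => by rw [e] at hn; linarith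
  have h1 := lor_drop (rho_fut h hx) (M.unit s) (by rw [lor_rho]; exact M.unit s)
    (((M.pc s).door g hg).resolve_left hne).1
    (fun y hy h0 => M.sub (orb_mem hg) (door_mem s) hne hy h0) hn.le
  have h2 := csInf_le Ab (⟨g⁻¹ * h, mul_mem (inv_mem (le_sup s hg)) hh, rfl⟩ :
    |lor (rho (g⁻¹ * h) x) (ds true)| ∈ A)
  rw [ab s, rho_mul, ← lor_rho_right, abs_of_pos hn] at h2
  rw [ab s, abs_of_nonpos hs] at hlt
  linarith

lemma disc : DiscreteTopology (Gs true ⊔ Gs false : Subgroup G) := by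
  obtain ⟨U, hU, hU'⟩ := (M.pc true).disc
  have u1 := M.unit true
  have u2 := M.base true
  have u3 : lor (ds true) vo = 0 := by rw [lor_comm, u2]
  have u4 : lor vo vo = -1 := fut_vo.1
  set o : V := (5 / 4 : ℝ) • vo - (3 / 4 : ℝ) • ds true with ho
  have o1 : Fut o := by
    refine ⟨by simp [ho, u1, u2, u3, u4]; norm_num, ?_⟩
    have := lor_vo_left o
    simp only [ho, lor_sub_right, lor_smul_right, u2, u4] at this
    rw [ho]
    linarith
  have o2 : ∀ g ∈ Gs true, lor o (rho g (ds true)) ≤ -1 / 2 := fun g hg => by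
    rcases (M.pc true).door g hg with e | ⟨e1, e2⟩
    · rw [e]; simp [ho, u1, u2]; norm_num
    · set n := rho g (ds true) with hn
      have n1 : lor n n = 1 := by rw [hn, lor_rho, u1]
      have n2 := lor_self_nonneg (u := n + lor vo n • vo - lor n (ds true) • ds true) fut_vo.cone
        (by simp [u2, u4])
      simp only [lor_sub_left, lor_sub_right, lor_add_left, lor_add_right, lor_smul_left,
        lor_smul_right, n1, u1, u2, u3, u4, lor_comm n vo, lor_comm (ds true) n] at n2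
      simp only [ho, lor_sub_left, lor_smul_left, lor_comm (ds true) n]
      by_contra hc
      have hc := not_le.1 hc
      nlinarith
  have c1 : Continuous fun h : G => lor o (rho h o) ^ 2 - 1 :=
    ((continuous_lor.comp (continuous_const.prodMk (continuous_rho_left o))).pow 2).sub
      continuous_const
  have c2 : ∀ᶠ h : G in 𝓝 1, lor o (rho h o) ^ 2 - 1 < 1 / 4 :=
    c1.continuousAt.eventually_lt_const (by simp [o1.1])
  refine discreteTopology_of_isOpen_singleton_one (isOpen_iff_mem_nhds.2 ?_)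
  rintro _ rfl
  have c3 := continuous_subtype_val.continuousAt (x := (1 : (Gs true ⊔ Gs false : Subgroup G)))
    (c2.and hU)
  filter_upwards [c3]
  rintro ⟨h, hh⟩ ⟨a1, a2⟩
  refine Subtype.ext (hU' h ?_ a2)
  rcases M.tile hh true true with H | ⟨g, hg, H⟩
  · exact H.2
  · have b1 := lor_dist o1 (rho_fut h o1) (m := rho g (ds true)) (by rw [lor_rho, u1])
      (by linarith [o2 g hg]) (H o ⟨o1.cone, fun g hg => by linarith [o2 g hg]⟩).le
    nlinarith [o2 g hg]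

theorem geo (hp : lor xp (ds true) = 0) : Geo (Gs true ⊔ Gs false) (MaskitB Gs Bs) R₀ where
  nonneg := (M.pc true).nonneg
  unit := by
    rintro _ ⟨h, -, s, β, hβ, rfl⟩
    rw [lor_rho]
    exact (M.pc s).unit β hβ
  inv := by
    rintro γ hγ _ ⟨h, hh, s, β, hβ, rfl⟩
    exact ⟨γ * h, mul_mem hγ hh, s, β, hβ, rho_mul _ _ _⟩
  sep := fun _ hb _ hb' => M.sep hb hb'
  neg := fun b hb => by
    by_contra hn
    refine hn ((M.pc true).neg b (M.mem_side fut_vo.cone (fun g hg => ?_) hb (not_lt.1 hn)))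
    rcases (M.pc true).door g hg with e | e
    · rw [e, M.base]
    · exact e.2.le
  negp := fun b hb => by
    by_contra hn
    have h1 : b ∈ Bs true := by
      refine M.mem_side cone_xp (fun g hg => ?_) hb (not_le.1 hn).le
      by_cases e : rho g (ds true) = ds true
      · rw [e, hp]
      · exact (M.sub (door_mem true) (orb_mem hg) (Ne.symm e) cone_xp hp.ge).le
    have h2 := M.ne_orb h1 (one_mem _)
    rw [rho_one] at h2
    exact hn (M.sub (door_mem true) (Or.inl h1) h2.symm cone_xp hp.ge).le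
  disc := M.disc
  cocpt := by
    choose C hC using fun s => (M.pc s).cocpt
    refine ⟨max (C true) (C false), fun x hx H => ?_⟩
    obtain ⟨h, hh, s, hs⟩ := M.cover hx
    obtain ⟨g, hg, hg'⟩ := hC s _ (rho_fut h hx) (fun β hβ => by
      rw [lor_rho_left]; exact H _ ⟨_, inv_mem hh, s, β, hβ, rfl⟩) hs
    refine ⟨g * h, mul_mem (le_sup s hg) hh, ?_⟩
    rw [rho_mul]
    refine hg'.trans ?_
    cases s
    · exact le_max_right _ _
    · exact le_max_left _ _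
  porous := fun x hx => by
    obtain ⟨h, hh, s, hs⟩ := M.cover hx
    obtain ⟨β, hβ, hβ'⟩ : ∃ β ∈ Bs s, -R₀ ≤ lor (rho h x) β := by
      by_cases H : ∀ β ∈ Bs s, lor (rho h x) β ≤ 0
      · exact (M.pc s).porous _ (rho_fut h hx) H hs
      · push Not at H
        obtain ⟨β, hβ, hβ'⟩ := H
        exact ⟨β, hβ, by linarith [(M.pc s).nonneg]⟩
    exact ⟨_, ⟨_, inv_mem hh, s, β, hβ, rfl⟩, by rwa [← lor_rho_left]⟩

end MaskitData

/-- Combination of two pieces along the door `d`. -/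
theorem maskit {d : V} (hd : lor d d = 1) (hdo : lor vo d = 0) (hdp : lor xp d = 0)
    {Ga Gb : Subgroup G} {Ba Bb : Set V} {R₀ : ℝ} (ha : Piece d Ga Ba R₀)
    (hb : Piece (-d) Gb Bb R₀) (hab : ∀ g : G, rho g d = d → (g ∈ Ga ↔ g ∈ Gb)) :
    ∃ B : Set V, Geo (Ga ⊔ Gb) B R₀ ∧ ∀ x, Fut x → (∀ b ∈ Ba, lor x b ≤ 0) →
      (∀ g ∈ Ga, lor x (rho g d) ≤ 0) → ∀ b ∈ B, lor x b ≤ 0 := by
  have M : MaskitData (fun s => cond s d (-d)) (fun s => cond s Ga Gb) (fun s => cond s Ba Bb)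
      R₀ := by
    refine ⟨fun s => ?_, fun s => ?_, fun s => ?_, fun s => ?_, fun s g hg h => ?_⟩
    · cases s <;> simp [hd]
    · cases s <;> simp [hdo]
    · cases s <;> simp
    · cases s
      · exact hb
      · exact ha
    · cases s
      · exact (hab g (by simpa using h)).2 hg
      · exact (hab g h).1 hg
  refine ⟨_, M.geo hdp, fun x hx h1 h2 b hb => ?_⟩
  by_contra hn
  exact hn (h1 b (M.mem_side (s := true) hx.cone h2 hb (not_le.1 hn).le))

end Pool.Agent.MP_7a4cc0_an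

end

section

open Matrix MeasureTheory Set Topology Filter
open scoped ENNReal NNReal CompactlySupported

namespace Pool.Agent.MP_7a4cc0_an

/-- The equidistant curve of the axis inside the plane of `H`. -/
noncomputable def nonClosedX (T s : ℝ) : V :=
  √(1 + T ^ 2) • (s • xp + s⁻¹ • xm) - T • ey

lemma nonClosedX_lor (T s : ℝ) (m : V) : lor (nonClosedX T s) m =
    √(1 + T ^ 2) * (s * lor xp m + s⁻¹ * lor xm m) - T * lor ey m := by
  simp only [nonClosedX, lor_sub_left, lor_smul_left, lor_add_left]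

lemma nonClosedX_fut (T : ℝ) {s : ℝ} (hs : 0 < s) : Fut (nonClosedX T s) := by
  have hk : √(1 + T ^ 2) ^ 2 = 1 + T ^ 2 := Real.sq_sqrt (by positivity)
  have hk0 : 0 < √(1 + T ^ 2) := Real.sqrt_pos.2 (by positivity)
  constructor
  · rw [nonClosedX_lor]
    simp only [nonClosedX, lor_sub_right, lor_smul_right, lor_add_right, lor_xp_xp, lor_xm_xm,
      lor_xp_xm, lor_xm_xp, lor_xp_ey, lor_xm_ey, lor_ey_xp, lor_ey_xm, lor_ey_ey]
    have : s * s⁻¹ = 1 := mul_inv_cancel₀ hs.ne'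
    linear_combination (-(s * s⁻¹)) * hk - (1 + T ^ 2) * this
  · simp only [nonClosedX, xp, xm, ey, Pi.sub_apply, Pi.smul_apply, Pi.add_apply, smul_eq_mul,
      Matrix.cons_val_zero, mul_zero, sub_zero]
    positivity

theorem nonclosed {Gs : Subgroup G} {B : Set V} {R₀ : ℝ} (h : Piece (-dd) Gs B R₀)
    (hfix : ∀ g ∈ Gs, rho g ez = ez → rho g dd = dd) : ¬ LocFin (orb Gs ez) := by
  intro hfin
  have hd : lor (-dd) (-dd) = 1 := by simp
  have hdo : lor vo (-dd) = 0 := by simp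
  have hdm : -dd ∈ B ∪ orb Gs (-dd) := Or.inr ⟨1, Gs.one_mem, rho_one _⟩
  obtain ⟨C, hC⟩ := h.cocpt
  obtain ⟨C', hC'⟩ := stab_cocpt Gs
    {x | Fut x ∧ lor x ez = 0 ∧ ∀ m ∈ B ∪ orb Gs (-dd), lor x m ≤ 0} (fun x hx => hx.1) ez hfin 0 C
    (fun x hx => by rw [hx.2.1, abs_zero])
    (fun x hx => hC x hx.1 (fun b hb => hx.2.2 b (Or.inl hb))
      fun g hg => hx.2.2 _ (Or.inr ⟨g, hg, rfl⟩))
  set T : ℝ := 2 * |4 * C' * ‖dd‖| + 1 with hT
  have hT0 : 0 < T := by positivity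
  have hdd : ∀ s, lor (nonClosedX T s) dd = 3 / 5 * T := fun s => by
    rw [nonClosedX_lor, lor_xp_dd, lor_xm_dd, lor_ey_dd]; ring
  have hno : ∀ s, 0 < s → ¬ ∀ m ∈ B ∪ orb Gs (-dd), lor (nonClosedX T s) m ≤ 0 := by
    intro s hs hm
    obtain ⟨g, hg, h1, h2⟩ := hC' (nonClosedX T s) ⟨nonClosedX_fut T hs, by
      rw [nonClosedX_lor, lor_xp_ez, lor_xm_ez, lor_ey_ez]; ring, hm⟩
    have h3 := abs_lor_le (rho g (nonClosedX T s)) (rho g dd)
    rw [lor_rho, hdd, hfix g hg h1] at h3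
    have h4 := (rho_fut g (nonClosedX_fut T hs)).norm_le.trans h2
    have h5 : 4 * ‖rho g (nonClosedX T s)‖ * ‖dd‖ ≤ 4 * C' * ‖dd‖ := by gcongr
    have h6 := le_abs_self (4 * C' * ‖dd‖)
    have h7 := le_abs_self (3 / 5 * T)
    have h8 := abs_nonneg (4 * C' * ‖dd‖)
    linarith
  have h1 := hno 1 one_pos
  push Not at h1
  obtain ⟨m, hm, h1⟩ := h1
  have hne : -dd ≠ m := by
    rintro rfl
    rw [lor_neg_right, hdd] at h1
    linarith
  have hp : lor xp m < 0 := h.sub hd hdo hdm hm hne cone_xp (by simp)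
  have hq : lor xm m < 0 := h.sub hd hdo hdm hm hne cone_xm (by simp)
  have hk : 1 ≤ √(1 + T ^ 2) := Real.one_le_sqrt.2 (by nlinarith)
  set s₀ : ℝ := 1 + |T * lor ey m| / (-lor xp m) with hs₀
  have hs1 : 1 ≤ s₀ := le_add_of_nonneg_right (div_nonneg (abs_nonneg _) (by linarith))
  have h2 : lor (nonClosedX T s₀) m ≤ 0 := by
    rw [nonClosedX_lor]
    have e1 : s₀ * lor xp m = lor xp m - |T * lor ey m| := by
      rw [hs₀]; field_simp [hp.ne]; ring
    have e2 : s₀⁻¹ * lor xm m ≤ 0 :=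
      mul_nonpos_of_nonneg_of_nonpos (inv_nonneg.2 (by linarith)) hq.le
    have e3 := neg_abs_le (T * lor ey m)
    have e4 := abs_nonneg (T * lor ey m)
    have e5 : s₀ * lor xp m + s₀⁻¹ * lor xm m ≤ 0 := by linarith
    nlinarith
  have hcont : ContinuousOn (fun s => lor (nonClosedX T s) m) (Icc 1 s₀) := by
    simp only [nonClosedX_lor]
    refine (continuousOn_const.mul ((continuousOn_id.mul continuousOn_const).add
      ((continuousOn_id.inv₀ fun s hs => ?_).mul continuousOn_const))).sub continuousOn_const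
    exact (one_pos.trans_le hs.1).ne'
  obtain ⟨s, hs, h3⟩ := intermediate_value_Icc' hs1 hcont ⟨h2, h1.le⟩
  have hs0 : 0 < s := one_pos.trans_le hs.1
  have h4 : lor (nonClosedX T s) m = 0 := h3
  refine hno s hs0 fun m' hm' => ?_
  by_cases h5 : m = m'
  · rw [← h5, h4]
  · exact (h.sub hd hdo hm hm' h5 (nonClosedX_fut T hs0).cone h4.ge).le

end Pool.Agent.MP_7a4cc0_an

end
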