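import Pool.Agent.MP_14ad9d_nt.Full.Inst
import Pool.Agent.Mg.F14ad9d.G15facc
import Pool.Agent.MP_14ad9d_nt.Full.InstU1

set_option autoImplicit false

open NumberField IsDedekindDomain

namespace Pool.Agent.MP_14ad9d_nt.Full

variable {l : ℕ} [Fact l.Prime] {F K : Type} [Field F] [NumberField F] [Field K] [NumberField K]
  [Algebra F K] {S : Setup l F K} {M : Mach (ZMod l) (K ≃ₐ[F] K) (Hm l K) (TP l K)}

namespace InstUAux

open FIAux

omit [Fact l.Prime] [NumberField K] in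
theorem cls_uv (x : Additive Kˣ) : cls l (uv x) = ModN.mkQ l x := by
  rw [cls, dif_pos (uv_ne x)]
  exact congrArg _ (uv_inj rfl)

theorem mem_unr (h : Spec S M) {T : Set (TP l K)} {x : K} :
    cls l x ∈ M.Unr T ↔ ∀ p : TP l K, p ∉ T → (l : ℤ) ∣ ord p.1 x := by
  simp only [Mach.Unr, Submodule.mem_iInf, LinearMap.mem_ker, Set.mem_compl_iff, h.2.1,
    ZMod.intCast_zmod_eq_zero_iff_dvd]

theorem ord_root {y : K} {v : Pr K} (h : ord v (y ^ l) = 0) : ord v y = 0 := by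
  rw [ord_pow] at h
  exact (mul_eq_zero.1 h).resolve_left (by exact_mod_cast (Fact.out : l.Prime).ne_zero)

/-- the given tame primes together with the wild primes -/
def TW (T : Finset (TP l K)) : Set (Pr K) := {v | ∀ t : Tm l v, (⟨v, t⟩ : TP l K) ∈ T}

theorem TW_fin (T : Finset (TP l K)) : (TW T).Finite :=
  ((T.finite_toSet.image Subtype.val).union (finite_wild (l := l))).subset fun v hv => by
    by_cases t : Tm l v
    · exact Or.inl ⟨_, hv t, rfl⟩
    · exact Or.inr t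

omit [Fact l.Prime] in
theorem mem_TW {T : Finset (TP l K)} {x : Additive Kˣ} :
    x ∈ SU (TW T) ↔ ∀ p : TP l K, p ∉ T → ord p.1 (uv x) = 0 := by
  refine ⟨fun h p hp => h p.1 fun e => hp (e p.2), fun h v hv => ?_⟩
  simp only [TW, Set.mem_ofPred_eq, not_forall] at hv
  obtain ⟨t, ht⟩ := hv
  exact h ⟨v, t⟩ ht

theorem su_TW (T : Finset (TP l K)) : Module.Finite ℤ (SU (TW T)) ∧
    (TW_fin T).toFinset.card + Units.rank K ≤ Module.finrank ℤ (SU (TW T)) := by
  have := su_rank (TW_fin T).toFinset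
  rwa [Set.Finite.coe_toFinset] at this

theorem ι_root (S : Setup l F K) {x : K} (hx : x ^ l = 1) : S.ι x = x⁻¹ := by
  have : NeZero l := ⟨(Fact.out : l.Prime).ne_zero⟩
  obtain ⟨i, -, rfl⟩ := S.hz.eq_pow_of_pow_eq_one hx
  rw [map_pow, Setup.z, S.ι_ζ, inv_pow]

omit [Fact l.Prime] in
theorem act_ι (S : Setup l F K) (v : Pr K) : act S.ι (act S.ι v) = v := by
  ext a
  rw [mem_act, mem_act]
  congr! 1
  apply RingOfIntegers.coe_injective
  apply S.ι.injective
  apply S.ι.injective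
  exact (congrArg S.ι (S.ι.apply_symm_apply _)).trans ((S.ι.apply_symm_apply _).trans
    (S.ι_ι _).symm)

/-- the units outside `T` fixed by the involution -/
def EP (S : Setup l F K) (T : Finset (TP l K)) : AddSubgroup (Additive Kˣ) where
  carrier := {x | x ∈ SU (TW T) ∧ S.ι (uv x) = uv x}
  add_mem' {x y} hx hy := ⟨add_mem hx.1 hy.1, by rw [uv_add, map_mul, hx.2, hy.2]⟩
  zero_mem' := ⟨zero_mem _, map_one _⟩
  neg_mem' {x} hx := ⟨neg_mem hx.1, by rw [uv_neg, map_inv₀, hx.2]⟩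

omit [Fact l.Prime] in
theorem sA_mem (S : Setup l F K) {T : Finset (TP l K)} (hT : ∀ g : K ≃ₐ[F] K, ∀ p ∈ T, g • p ∈ T)
    (g : K ≃ₐ[F] K) (x : Additive Kˣ) (hx : x ∈ EP S T) : sA g x ∈ EP S T := by
  refine ⟨mem_TW.2 fun p hp => ?_, by rw [uv_sA, S.ι_comm, hx.2]⟩
  have := ord_act (g : K ≃+* K) (g⁻¹ • p).1 (uv x)
  rw [← smul_val, smul_inv_smul] at this
  exact this.trans (mem_TW.1 hx.1 _ fun e => hp (by simpa using hT g _ e))

/-- the action of the group -/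
def τ (S : Setup l F K) {T : Finset (TP l K)} (hT : ∀ g : K ≃ₐ[F] K, ∀ p ∈ T, g • p ∈ T) :
    Representation ℤ (K ≃ₐ[F] K) (EP S T) where
  toFun g := (((sA g).comp (EP S T).subtype).codRestrict _
    fun x => sA_mem S hT g x.1 x.2).toIntLinearMap
  map_one' := rfl
  map_mul' _ _ := rfl

end InstUAux

open InstUAux FIAux

/-- a large set of primes makes unramified classes come from units outside the set -/
theorem exists_gen (h : Spec S M) : ∃ T₀ : Finset (TP l K), ∀ T : Finset (TP l K), T₀ ⊆ T →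
    ∀ x ∈ M.Unr T, ∃ e : K, e ≠ 0 ∧ cls l e = x ∧ ∀ p : TP l K, p ∉ T → ord p.1 e = 0 := by
  obtain ⟨T₀, h0⟩ := exists_corr (E := K) l
  refine ⟨T₀.preimage Subtype.val Subtype.val_injective.injOn, fun T hT x hx => ?_⟩
  obtain ⟨x, x0, rfl⟩ := cls_surj x
  obtain ⟨y, y0, hy⟩ := h0 x x0
  have h1 := pow_ne_zero l y0
  refine ⟨x / y ^ l, div_ne_zero x0 h1, ?_, fun p hp => hy _
    (fun e => hp (hT (Finset.mem_preimage.2 e))) ((mem_unr h).1 hx p hp)⟩
  have := cls_mul (l := l) (div_ne_zero x0 h1) h1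
  rw [div_mul_cancel₀ x h1, (cls_eq_zero_iff h1).2 ⟨y, rfl⟩, add_zero] at this
  exact this.symm

theorem unr_fin (h : Spec S M) (T : Finset (TP l K)) : FinQ (M.Unr T) ⊥ := by
  classical
  obtain ⟨T₀, h0⟩ := exists_gen h
  have := (su_TW (T₀ ∪ T)).1
  refine finQ_of ((ModN.mkQ l).comp (SU (TW (T₀ ∪ T))).subtype) _ fun x hx => ?_
  obtain ⟨e, e0, rfl, he⟩ := h0 (T₀ ∪ T) Finset.subset_union_left x (by
    obtain ⟨x, -, rfl⟩ := cls_surj x
    exact (mem_unr h).2 fun p hp => (mem_unr h).1 hx p fun e =>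
      hp (Finset.mem_union_right _ e))
  exact ⟨⟨mk e e0, mem_TW.2 he⟩, (cls_uv (mk e e0)).symm⟩

theorem unr_dim (hl : 2 < l) (h : Spec S M) (T : Finset (TP l K)) :
    T.card + Fintype.card (K ≃ₐ[F] K) * ((l + 1) / 2) ≤ Module.finrank (ZMod l) (M.Unr T) := by
  classical
  have hp : l.Prime := Fact.out
  obtain ⟨s, hs⟩ := unr_fin h T
  rw [bot_sup_eq] at hs
  have : Module.Finite (ZMod l) (M.Unr T) := Submodule.finiteDimensional_of_le hs
  obtain ⟨k1, k2⟩ := su_TW T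
  have z0 : S.z ≠ 0 := S.hz.ne_zero hp.ne_zero
  have k3 := dim_ge (l := l) ((ModN.mkQ l).comp (SU (TW T)).subtype)
    (fun x hx => by
      obtain ⟨d, hd⟩ := (cls_eq_zero_iff (uv_ne x.1)).1 ((cls_uv x.1).trans hx)
      have d0 : d ≠ 0 := fun e => uv_ne x.1 (by rw [hd, e, zero_pow hp.ne_zero])
      exact ⟨⟨mk d d0, fun v hv => ord_root (l := l) (hd ▸ x.2 v hv)⟩,
        Subtype.ext (uv_inj (hd.trans (uv_nsmul l (mk d d0)).symm))⟩)
    (z := ⟨mk S.z z0, fun v _ => ord_root (l := l) (by rw [uv_mk, S.hz.pow_eq_one, ord_one])⟩)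
    (fun e => S.hz.ne_one hp.one_lt (congrArg (fun x : SU (TW T) => uv x.1) e))
    (Subtype.ext (uv_inj ((uv_nsmul l _).trans S.hz.pow_eq_one))) (M.Unr T) fun x => by
      change ModN.mkQ l x.1 ∈ _
      rw [← cls_uv, mem_unr h]
      exact fun p hp => mem_TW.1 x.2 p hp ▸ dvd_zero _
  have : IsTotallyComplex K := nrRealPlaces_eq_zero_iff.1
    (InfinitePlace.IsPrimitiveRoot.nrRealPlaces_eq_zero_of_two_lt hl S.hz)
  have k4 := rank_complex (E := K)
  rw [S.deg] at k4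
  have wild : ∀ g : K ≃ₐ[F] K, ¬Tm l (ac g S.v₀) := fun g => mt (tm_act _ l _).1 S.wild
  have k5 : T.card + Fintype.card (K ≃ₐ[F] K) ≤ (TW_fin T).toFinset.card := by
    rw [← Finset.card_image_of_injective T Subtype.val_injective, ← Finset.card_univ,
      ← Finset.card_image_of_injective (f := fun g : K ≃ₐ[F] K => ac g S.v₀) Finset.univ
        fun g g' e => inv_mul_eq_one.1 (S.free (g⁻¹ * g') (by
          change ac _ _ = _
          rw [ac_mul, ← show ac g S.v₀ = ac g' S.v₀ from e, ← ac_mul, inv_mul_cancel, ac_one])),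
      ← Finset.card_union_of_disjoint (Finset.disjoint_left.2 fun v h1 h2 => by
        obtain ⟨p, -, rfl⟩ := Finset.mem_image.1 h1
        obtain ⟨g, -, e⟩ := Finset.mem_image.1 h2
        exact wild g (e ▸ p.2))]
    refine Finset.card_le_card fun v hv => (Set.Finite.mem_toFinset _).2 fun t => ?_
    rcases Finset.mem_union.1 hv with h1 | h1
    · obtain ⟨p, hp, rfl⟩ := Finset.mem_image.1 h1
      exact hp
    · obtain ⟨g, -, rfl⟩ := Finset.mem_image.1 h1
      exact absurd t (wild g)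
  obtain ⟨k, hk⟩ := hp.odd_of_ne_two (by omega)
  rw [show l - 1 = 2 * k by omega, mul_left_comm, Nat.mul_right_inj two_ne_zero] at k4
  refine le_trans ?_ k3
  rw [show (l + 1) / 2 = k + 1 by omega, mul_add, ← k4]
  omega

theorem unr_orth (hl : 2 < l) (h : Spec S M) (T : Finset (TP l K))
    (hT : ∀ g : K ≃ₐ[F] K, ∀ p ∈ T, g • p ∈ T)
    (hι : ∀ p q : TP l K, p ∈ T → q.1 = act S.ι p.1 → q ∈ T)
    (hgen : ∀ x ∈ M.Unr T, ∃ e : K, e ≠ 0 ∧ cls l e = x ∧ ∀ p : TP l K, p ∉ T → ord p.1 e = 0)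
    (ι : Hm l K →ₗ[ZMod l] Hm l K) (hιc : ∀ x : K, ι (cls l x) = cls l (S.ι x)) :
    OrthQ M.ρ (M.Unr T ⊓ LinearMap.ker (ι - LinearMap.id)) ⊥ := by
  have hp : l.Prime := Fact.out
  obtain ⟨k, hk⟩ := hp.odd_of_ne_two (by omega)
  have k1 := (su_TW T).1
  have k0 : EP S T ≤ SU (TW T) := fun x hx => hx.1
  have k2 : Module.Finite ℤ (EP S T) := Module.Finite.of_injective
    (AddSubgroup.inclusion k0).toIntLinearMap (AddSubgroup.inclusion_injective k0)
  have k3 := orth_lat l M.ρ S.card_ne (τ S hT)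
    (fun x hx => by
      have h1 : uv x.1 ^ l = 1 := (uv_nsmul l x.1).symm.trans (congrArg (fun y : EP S T => uv y.1) hx)
      have h2 : uv x.1 ^ 2 = 1 := by
        have := (ι_root S h1).symm.trans x.2.2
        rw [sq]
        nth_rewrite 1 [← this]
        exact inv_mul_cancel₀ (uv_ne _)
      have h3 : uv x.1 ^ (2 * k + 1) = 1 := (congrArg (uv x.1 ^ ·) hk).symm.trans h1
      rw [pow_succ, pow_mul, h2, one_pow, one_mul] at h3
      exact Subtype.ext (uv_inj h3))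
    ((ModN.mkQ l).comp (EP S T).subtype)
    (fun g x => ((cls_uv _).symm.trans (h.1 g (uv x.1)).symm).trans (congrArg _ (cls_uv x.1)))
    fun x hx => by
      obtain ⟨d, hd⟩ := (cls_eq_zero_iff (uv_ne x.1)).1 ((cls_uv x.1).trans hx)
      have d0 : d ≠ 0 := fun e => uv_ne x.1 (by rw [hd, e, zero_pow hp.ne_zero])
      obtain ⟨w, hw⟩ : ∃ w, w = S.ι d / d := ⟨_, rfl⟩
      have w1 : w ^ l = 1 := by
        rw [hw, div_pow, ← map_pow, ← hd, x.2.2, div_self (uv_ne _)]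
      have w0 : w ≠ 0 := fun e => by
        rw [e, zero_pow hp.ne_zero] at w1
        exact zero_ne_one w1
      have h1 : (d * w ^ (k + 1)) ^ l = uv x.1 := by
        rw [mul_pow, pow_right_comm, w1, one_pow, mul_one, hd]
      have h2 := mul_ne_zero d0 (pow_ne_zero (k + 1) w0)
      refine ⟨⟨mk _ h2, fun v hv => ord_root (l := l) (h1 ▸ x.2.1 v hv), ?_⟩,
        Subtype.ext (uv_inj (h1.symm.trans (uv_nsmul l (mk _ h2)).symm))⟩
      rw [uv_mk, map_mul, map_pow, ι_root S w1, (div_eq_iff d0).1 hw.symm, inv_pow,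
        mul_inv_eq_iff_eq_mul₀ (pow_ne_zero _ w0), mul_assoc, ← pow_add,
        show k + 1 + (k + 1) = l + 1 by omega, pow_succ, w1, one_mul, mul_comm]
  convert k3 using 1
  refine le_antisymm (fun x hx => ?_) (Submodule.span_le.2 ?_)
  · obtain ⟨e, e0, rfl, he⟩ := hgen x hx.1
    have e1 : S.ι e ≠ 0 := (map_ne_zero _).2 e0
    have h1 : cls l (S.ι e) = cls l e := by
      rw [← hιc]
      exact sub_eq_zero.1 hx.2
    have h2 : (2 : ZMod l) ≠ 0 := fun e =>
      absurd (Nat.le_of_dvd two_pos ((ZMod.natCast_eq_zero_iff 2 l).1 e)) (by omega)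
    have h3 : cls l e = (2 : ZMod l)⁻¹ • cls l (e * S.ι e) := by
      rw [cls_mul e0 e1, h1, ← two_smul (ZMod l), smul_smul, inv_mul_cancel₀ h2, one_smul]
    rw [h3]
    refine Submodule.smul_mem _ _ (Submodule.subset_span
      ⟨⟨mk _ (mul_ne_zero e0 e1), mem_TW.2 fun p hp => ?_, ?_⟩, (cls_uv _).symm⟩)
    · rw [uv_mk, ord_mul _ e0 e1, he p hp, zero_add, ← ord_act S.ι, S.ι_ι]
      exact he ⟨act S.ι p.1, (tm_act _ l _).2 p.2⟩ fun e => hp (hι _ p e (act_ι S _).symm)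
    · rw [uv_mk, map_mul, S.ι_ι, mul_comm]
  · rintro _ ⟨x, rfl⟩
    change ModN.mkQ l x.1 ∈ _
    rw [← cls_uv]
    refine ⟨(mem_unr h).2 fun p hp => mem_TW.1 x.2.1 p hp ▸ dvd_zero _, ?_⟩
    exact sub_eq_zero.2 ((hιc _).trans (congrArg _ x.2.2))

end Pool.Agent.MP_14ad9d_nt.Full
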