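import Pool.Agent.Mg.F14ad9d.Ga685bb
import Pool.Agent.Mg.F14ad9d.G1cc5d0
import Mathlib
import Pool.Agent.Mg.F14ad9d.G04cbab

section

open Matrix MeasureTheory Set Topology Filter
open scoped ENNReal NNReal CompactlySupported

namespace Pool.Agent.MP_7a4cc0_an

/-- The quadratic polynomial attached to a vector. -/
noncomputable def avoidQ (m : V) (t : ℝ) : ℝ := lor m xp * t ^ 2 + lor m ey * t + lor m xm

lemma avoid_Nf_cv (i : ℕ) (t : ℝ) (m : V) : Nf (cv i t) m =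
    |lor m xp| / 2 ^ i + |2 * lor m xp * t + lor m ey| + 2 ^ i * |avoidQ m t| := by
  have h2 : (0 : ℝ) < 2 ^ i := by positivity
  rw [Nf, rho_cv_xp, rho_cv_ey, rho_cv_xm]
  simp only [lor_smul_right, lor_add_right, abs_mul, avoidQ]
  rw [abs_of_pos h2, abs_of_pos (inv_pos.2 h2)]
  congr 2
  · rw [div_eq_inv_mul]
  · congr 1; ring
  · congr 1; ring

lemma avoid_step (i : ℕ) (t : ℝ) (m : V) : Nf (cv i t) m ≤ 2 * Nf (cv (i + 1) t) m := by
  rw [avoid_Nf_cv, avoid_Nf_cv, pow_succ]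
  have h2 : (0 : ℝ) < 2 ^ i := by positivity
  have e : |lor m xp| / 2 ^ i = 2 * (|lor m xp| / (2 ^ i * 2)) := by field_simp
  have h3 := mul_nonneg h2.le (abs_nonneg (avoidQ m t))
  have h4 := abs_nonneg (2 * lor m xp * t + lor m ey)
  rw [e]
  nlinarith

lemma avoid_move (i : ℕ) (t t2 : ℝ) (m : V) (h : |t - t2| ≤ 1 / 2 ^ i) :
    Nf (cv i t) m ≤ 4 * Nf (cv i t2) m := by
  rw [avoid_Nf_cv, avoid_Nf_cv]
  have h2 : (0 : ℝ) < 2 ^ i := by positivity
  set P : ℝ := 2 ^ i with hP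
  set A := lor m xp
  set b := 2 * A * t2 + lor m ey with hb
  set s := t - t2 with hs
  have hs1 : P * |s| ≤ 1 := by
    rw [le_div_iff₀ h2] at h; linarith
  have hs0 := abs_nonneg s
  have hA := abs_nonneg A
  have hb0 := abs_nonneg b
  have e1 : 2 * A * t + lor m ey = b + 2 * A * s := by rw [hb, hs]; ring
  have e2 : avoidQ m t = avoidQ m t2 + b * s + A * s ^ 2 := by
    simp only [avoidQ]; rw [hb, hs]; ring
  have hAs : |A| * |s| ≤ |A| / P := by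
    rw [le_div_iff₀ h2]; nlinarith
  have i1 : |b + 2 * A * s| ≤ |b| + 2 * (|A| / P) := by
    refine (abs_add_le _ _).trans ?_
    rw [abs_mul, abs_mul, abs_two]; nlinarith
  have i2 : P * |avoidQ m t2 + b * s + A * s ^ 2| ≤ P * |avoidQ m t2| + |b| + |A| / P := by
    have a1 : |avoidQ m t2 + b * s + A * s ^ 2| ≤ |avoidQ m t2| + |b| * |s| + |A| * |s| * |s| := by
      refine (abs_add_le _ _).trans ?_
      have := abs_add_le (avoidQ m t2) (b * s)
      rw [abs_mul] at this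
      rw [abs_mul, abs_pow, sq, ← mul_assoc]; linarith
    have a2 : P * (|b| * |s|) ≤ |b| := by nlinarith
    have a3 : P * (|A| * |s| * |s|) ≤ |A| / P := by
      have : P * (|A| * |s| * |s|) = (|A| * |s|) * (P * |s|) := by ring
      rw [this]
      exact (mul_le_of_le_one_right (mul_nonneg hA hs0) hs1).trans hAs
    have a4 := mul_le_mul_of_nonneg_left a1 h2.le
    nlinarith
  rw [e1, e2]
  have h3 := mul_nonneg h2.le (abs_nonneg (avoidQ m t2))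
  have h4 : 0 ≤ |A| / P := by positivity
  linarith

lemma avoid_Nf_one (m : V) : Nf 1 m = |(m 1 - m 0) / 2| + |m 2| + |(-m 0 - m 1) / 2| := by
  simp only [Nf, rho_one, lor, xp, xm, ey]
  simp only [Matrix.cons_val_zero, Matrix.cons_val_one, Matrix.cons_val]
  congr 2
  · congr 1; ring
  · congr 1; ring
  · ring

lemma avoid_norm_le {m : V} (hm : lor m m = 1) {c : ℝ} (h : Nf 1 m ≤ c) : ‖m‖ ≤ 1 + c := by
  rw [avoid_Nf_one] at h
  have a1 := abs_nonneg ((m 1 - m 0) / 2)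
  have a2 := abs_nonneg (m 2)
  have a3 := abs_nonneg ((-m 0 - m 1) / 2)
  have b1 := le_abs_self ((m 1 - m 0) / 2)
  have b2 := neg_abs_le ((m 1 - m 0) / 2)
  have b3 := le_abs_self ((-m 0 - m 1) / 2)
  have b4 := neg_abs_le ((-m 0 - m 1) / 2)
  have hc : 0 ≤ c := by linarith
  have h0 : |m 0| ≤ c := abs_le.2 ⟨by linarith, by linarith⟩
  have h1 : |m 1| ≤ c := abs_le.2 ⟨by linarith, by linarith⟩
  have h2 : |m 2| ≤ c := by linarith
  have h3 : |m 3| ≤ 1 + c := by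
    have e : m 0 ^ 2 ≤ c ^ 2 := by
      rw [← sq_abs]; exact pow_le_pow_left₀ (abs_nonneg _) h0 2
    simp only [lor] at hm
    apply abs_le_of_sq_le_sq _ (by linarith)
    nlinarith [sq_nonneg (m 1), sq_nonneg (m 2)]
  refine (pi_norm_le_iff_of_nonneg (by linarith)).2 fun j => ?_
  rw [Real.norm_eq_abs]
  fin_cases j
  · exact h0.trans (by linarith)
  · exact h1.trans (by linarith)
  · exact h2.trans (by linarith)
  · exact h3

lemma avoid_Nf_pos {m : V} (hm : lor m m = 1) (h1 : m ≠ ez) (h2 : m ≠ -ez) : 0 < Nf 1 m := by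
  by_contra hc
  have hc := not_lt.1 hc
  rw [avoid_Nf_one] at hc
  have a1 := abs_nonneg ((m 1 - m 0) / 2)
  have a2 := abs_nonneg (m 2)
  have a3 := abs_nonneg ((-m 0 - m 1) / 2)
  have e1 : (m 1 - m 0) / 2 = 0 := abs_eq_zero.1 (by linarith)
  have e2 : m 2 = 0 := abs_eq_zero.1 (by linarith)
  have e3 : (-m 0 - m 1) / 2 = 0 := abs_eq_zero.1 (by linarith)
  have f0 : m 0 = 0 := by linarith
  have f1 : m 1 = 0 := by linarith
  simp only [lor, f0, f1, e2] at hm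
  have hm' : m 3 * m 3 = 1 := by linarith
  rcases mul_self_eq_one_iff.1 hm' with h | h
  · apply h1; ext j; fin_cases j <;> simp [ez, f0, f1, e2, h]
  · apply h2; ext j; fin_cases j <;> simp [ez, f0, f1, e2, h]

lemma avoid_cv_zero : cv 0 0 = 1 := by simp [cv]

lemma avoid_theta (S : Set V) (unit : ∀ m ∈ S, lor m m = 1) (hfin : LocFin S)
    (h1 : ez ∉ S) (h2 : -ez ∉ S) : ∃ θ₀ : ℝ, 0 < θ₀ ∧ θ₀ ≤ 1 ∧
      ∀ t ∈ Ico (1 : ℝ) 2, ∀ m ∈ S, θ₀ ≤ Nf (cv 0 t) m := by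
  obtain ⟨η, hη, hη1, hle⟩ : ∃ η : ℝ, 0 < η ∧ η ≤ 16 ∧ ∀ m ∈ S, η ≤ Nf 1 m := by
    have hF := hfin 17
    obtain ⟨η, hη, hle⟩ : ∃ η : ℝ, 0 < η ∧ ∀ m ∈ {m ∈ S | ‖m‖ ≤ 17}, η ≤ Nf 1 m := by
      rcases {m ∈ S | ‖m‖ ≤ 17}.eq_empty_or_nonempty with he | hne
      · exact ⟨1, one_pos, by rw [he]; simp⟩
      · obtain ⟨m0, hm0, hmin⟩ := Set.exists_min_image _ (Nf 1) hF hne
        refine ⟨Nf 1 m0, avoid_Nf_pos (unit m0 hm0.1) ?_ ?_, hmin⟩
        · rintro rfl; exact h1 hm0.1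
        · rintro rfl; exact h2 hm0.1
    refine ⟨min η 16, lt_min hη (by norm_num), min_le_right _ _, fun m hm => ?_⟩
    by_cases hc : Nf 1 m ≤ 16
    · have := avoid_norm_le (unit m hm) hc
      exact (min_le_left _ _).trans (hle m ⟨hm, by linarith⟩)
    · exact (min_le_right _ _).trans (not_le.1 hc).le
  refine ⟨η / 16, by positivity, by linarith, fun t ht m hm => ?_⟩
  have a1 := avoid_move 0 0 1 m (by norm_num)
  have a2 := avoid_move 0 1 t m (by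
    rw [abs_le]; constructor <;> norm_num <;> linarith [ht.1, ht.2])
  rw [show cv 0 (0 : ℝ) = 1 from avoid_cv_zero] at a1
  have := hle m hm
  linarith

lemma avoid_Nf_inv (g : G) (m : V) : Nf 1 (rho g⁻¹ m) = Nf g m := by
  simp only [Nf, rho_one, lor_rho_left, inv_inv]

lemma avoid_count {Γ : Subgroup G} {B : Set V} {R₀ : ℝ} (h : Geo Γ B R₀) (S : Set V)
    (unit : ∀ m ∈ S, lor m m = 1) (inv : ∀ γ ∈ Γ, ∀ m ∈ S, rho γ m ∈ S) (hfin : LocFin S)
    (R : ℝ) : ∃ M₀ : ℕ, ∀ g ∈ KR B R, ∃ T : Finset V, T.card ≤ M₀ ∧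
      ∀ m ∈ S, Nf g m ≤ 8 → m ∈ T := by
  classical
  obtain ⟨K, hK, -, hcov⟩ := h.exists_compact R
  obtain ⟨D, hD, hDle⟩ := exists_norm_rho_le hK
  have hF := hfin (D * 9)
  refine ⟨hF.toFinset.card, fun g hg => ?_⟩
  obtain ⟨γ, hγ, hγg⟩ := hcov g hg
  refine ⟨hF.toFinset.image (rho γ⁻¹), Finset.card_image_le, fun m hm hN => ?_⟩
  refine Finset.mem_image.2 ⟨rho γ m, ?_, rho_inv_rho γ m⟩
  rw [Set.Finite.mem_toFinset]
  refine ⟨inv γ hγ m hm, ?_⟩
  have e : rho γ m = rho (γ * g) (rho g⁻¹ m) := by rw [rho_mul, rho_rho_inv]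
  have hn : ‖rho g⁻¹ m‖ ≤ 1 + 8 :=
    avoid_norm_le (by rw [lor_rho]; exact unit m hm) (by rw [avoid_Nf_inv]; exact hN)
  rw [e]
  exact (hDle _ hγg _).trans (mul_le_mul_of_nonneg_left (by linarith) hD)

lemma avoid_cross (f : ℕ → ℝ) (c : ℝ) (k : ℕ) (h0 : c ≤ f 0) (hk : f k < c) :
    ∃ i < k, c ≤ f i ∧ f (i + 1) < c := by
  induction k with
  | zero => exact absurd hk (not_lt.2 h0)
  | succ k ih =>
    by_cases hc : c ≤ f k
    · exact ⟨k, Nat.lt_succ_self k, hc, hk⟩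
    · obtain ⟨i, hi, h⟩ := ih (not_le.1 hc)
      exact ⟨i, Nat.lt_succ_of_lt hi, h⟩

lemma avoid_sqrt (θ₀ δ : ℝ) (hθ : 0 < θ₀) (hδ : 0 < δ) (i n : ℕ) :
    √(δ ^ 2 / 2 ^ (i + n) / (1 / 2 ^ i * θ₀ / 4)) ≤ 2 * δ * (3 / 4) ^ n / √θ₀ := by
  have hs : 0 < √θ₀ := Real.sqrt_pos.2 hθ
  apply Real.sqrt_le_iff.2
  refine ⟨by positivity, ?_⟩
  have e1 : δ ^ 2 / 2 ^ (i + n) / (1 / 2 ^ i * θ₀ / 4) = 4 * δ ^ 2 / θ₀ * (1 / 2) ^ n := by
    rw [pow_add, _root_.one_div_pow]; field_simp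
  have e2 : (2 * δ * (3 / 4) ^ n / √θ₀) ^ 2 = 4 * δ ^ 2 / θ₀ * (9 / 16) ^ n := by
    rw [div_pow, Real.sq_sqrt hθ.le, mul_pow, mul_pow, ← pow_mul, mul_comm n 2, pow_mul]
    norm_num; ring
  rw [e1, e2]
  exact mul_le_mul_of_nonneg_left (pow_le_pow_left₀ (by norm_num) (by norm_num) n) (by positivity)

/-- The times with a plane at distance about `θ₀` at level `i` and small quadratic value. -/
def avoidA (B S : Set V) (R θ₀ ε : ℝ) (i : ℕ) : Set ℝ :=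
  {t | t ∈ Ico (1 : ℝ) 2 ∧ cv i t ∈ KR B R ∧ ∃ m ∈ S, θ₀ ≤ Nf (cv i t) m ∧
    Nf (cv i t) m ≤ 2 * θ₀ ∧ |avoidQ m t| < ε}

lemma avoid_level {Γ : Subgroup G} {B : Set V} {R₀ : ℝ} (h : Geo Γ B R₀) (S : Set V)
    (R : ℝ) (hR : 0 ≤ R) (M₀ : ℕ) (hM₀ : ∀ g ∈ KR B R, ∃ T : Finset V, T.card ≤ M₀ ∧
      ∀ m ∈ S, Nf g m ≤ 8 → m ∈ T) (θ₀ δ : ℝ) (hθ : 0 < θ₀) (hθ1 : θ₀ ≤ 1) (hδ : 0 < δ)
    (i n : ℕ) :
    volume (avoidA B S R θ₀ (δ ^ 2 / 2 ^ (i + n)) i) ≤
      ENNReal.ofReal (M₀ * (32 * δ * (3 / 4) ^ n / √θ₀)) *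
        volume {t : ℝ | t ∈ Ico (1 : ℝ) 2 ∧ cv i t ∈ KR B (R + 1)} := by
  classical
  have h2 : (0 : ℝ) < 2 ^ i := by positivity
  have hs : 0 < √θ₀ := Real.sqrt_pos.2 hθ
  have hclose : ∀ (j : ℕ) (t t' : ℝ),
      t ∈ Ico (1 + (j : ℝ) / 2 ^ i) (1 + ((j : ℝ) + 1) / 2 ^ i) →
      t' ∈ Ico (1 + (j : ℝ) / 2 ^ i) (1 + ((j : ℝ) + 1) / 2 ^ i) → |t - t'| ≤ 1 / 2 ^ i := by
    intro j t t' ht ht'
    have e : ((j : ℝ) + 1) / 2 ^ i = j / 2 ^ i + 1 / 2 ^ i := add_div _ _ _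
    rw [e] at ht ht'
    rw [abs_le]
    constructor <;> linarith [ht.1, ht.2, ht'.1, ht'.2]
  apply dyadic i
  · exact fun t ht => ht.1
  · intro j _
    rcases (avoidA B S R θ₀ (δ ^ 2 / 2 ^ (i + n)) i ∩
      Ico (1 + (j : ℝ) / 2 ^ i) (1 + ((j : ℝ) + 1) / 2 ^ i)).eq_empty_or_nonempty with he | hne
    · rw [he, measure_empty]; exact zero_le
    obtain ⟨t0, ht0, ht0I⟩ := hne
    obtain ⟨T, hT, hTm⟩ := hM₀ _ ht0.2.1
    set a : ℝ := 1 + (j : ℝ) / 2 ^ i with ha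
    have eI : 1 + ((j : ℝ) + 1) / 2 ^ i = a + 1 / 2 ^ i := by rw [ha, add_div]; ring
    have haI : a ∈ Ico (1 + (j : ℝ) / 2 ^ i) (1 + ((j : ℝ) + 1) / 2 ^ i) := by
      refine ⟨le_rfl, ?_⟩
      rw [eI]
      have : (0 : ℝ) < 1 / 2 ^ i := by positivity
      linarith
    set T' := T.filter (fun m => θ₀ / 4 ≤ Nf (cv i a) m) with hT'
    have hsub : avoidA B S R θ₀ (δ ^ 2 / 2 ^ (i + n)) i ∩
        Ico a (1 + ((j : ℝ) + 1) / 2 ^ i) ⊆ ⋃ m ∈ T', {t : ℝ | t ∈ Ico a (a + 1 / 2 ^ i) ∧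
          |lor m xp * t ^ 2 + lor m ey * t + lor m xm| < δ ^ 2 / 2 ^ (i + n)} := by
      rintro t ⟨⟨-, -, m, hm, b1, b2, b3⟩, htI⟩
      have c1 := avoid_move i t0 t m (hclose j t0 t ht0I htI)
      have c2 := avoid_move i t a m (hclose j t a htI haI)
      refine mem_iUnion₂.2 ⟨m, Finset.mem_filter.2 ⟨hTm m hm (by linarith), by linarith⟩, ?_, b3⟩
      rw [← eI]; exact htI
    refine (measure_mono hsub).trans ((measure_biUnion_finset_le _ _).trans ?_)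
    have hone : ∀ m ∈ T', volume {t : ℝ | t ∈ Ico a (a + 1 / 2 ^ i) ∧
          |lor m xp * t ^ 2 + lor m ey * t + lor m xm| < δ ^ 2 / 2 ^ (i + n)} ≤
        ENNReal.ofReal (32 * δ * (3 / 4) ^ n / √θ₀ * (1 / 2 ^ i)) := by
      intro m hm
      have hm2 := (Finset.mem_filter.1 hm).2
      rw [avoid_Nf_cv] at hm2
      refine (quad_small (lor m xp) (lor m ey) (lor m xm) _ (1 / 2 ^ i * θ₀ / 4) a (1 / 2 ^ i)
        (by positivity) (by positivity) (by positivity) ?_).trans (ENNReal.ofReal_le_ofReal ?_)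
      · have e : |lor m xp| * (1 / 2 ^ i) ^ 2 + |2 * lor m xp * a + lor m ey| * (1 / 2 ^ i) +
            |lor m xp * a ^ 2 + lor m ey * a + lor m xm| = 1 / 2 ^ i *
            (|lor m xp| / 2 ^ i + |2 * lor m xp * a + lor m ey| + 2 ^ i * |avoidQ m a|) := by
          simp only [avoidQ]; field_simp
        rw [e, mul_div_assoc]
        exact mul_le_mul_of_nonneg_left hm2 (by positivity)
      · have := avoid_sqrt θ₀ δ hθ hδ i n
        have h3 : (0 : ℝ) < 1 / 2 ^ i := by positivity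
        calc _ ≤ 16 * (1 / 2 ^ i) * (2 * δ * (3 / 4) ^ n / √θ₀) :=
              mul_le_mul_of_nonneg_left this (by positivity)
          _ = _ := by ring
    refine (Finset.sum_le_card_nsmul _ _ _ hone).trans ?_
    have hc : T'.card ≤ M₀ := (Finset.card_filter_le _ _).trans hT
    rw [nsmul_eq_mul, ← ENNReal.ofReal_mul (by positivity), mul_assoc (M₀ : ℝ),
      ENNReal.ofReal_mul (Nat.cast_nonneg M₀), ENNReal.ofReal_natCast]
    exact mul_le_mul_left (by exact_mod_cast hc) _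
  · rintro j hj ⟨t0, ht0, ht0I⟩ t htI
    have hj' : (j : ℝ) + 1 ≤ 2 ^ i := by exact_mod_cast hj
    have hj0 : (0 : ℝ) ≤ (j : ℝ) / 2 ^ i := by positivity
    have hj1 : ((j : ℝ) + 1) / 2 ^ i ≤ 1 := (div_le_one h2).2 hj'
    refine ⟨⟨by linarith [htI.1], by linarith [htI.2]⟩, ?_⟩
    have e : cv i t = cv i t0 * nz (((t - t0) * 2 ^ i : ℝ) : ℂ) := by
      rw [cv_mul_nz]; congr 1; field_simp; ring
    rw [e]
    refine KR_mono B ?_ (KR_mul_nz h.unit (h.cv_mem_FG i t0) hR ht0.2.1 _)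
    have := hclose j t t0 htI ht0I
    rw [le_div_iff₀ h2] at this
    rw [Complex.norm_real, Real.norm_eq_abs, abs_mul, abs_of_pos h2]
    linarith

lemma avoid_sum (k : ℕ) : ∑ i ∈ Finset.range k, (6 / 7 : ℝ) ^ (k - i) ≤ 6 := by
  induction k with
  | zero => simp
  | succ k ih =>
    have e : ∑ i ∈ Finset.range (k + 1), (6 / 7 : ℝ) ^ (k + 1 - i) =
        6 / 7 * ∑ i ∈ Finset.range k, (6 / 7 : ℝ) ^ (k - i) + 6 / 7 := by
      rw [Finset.sum_range_succ, Finset.mul_sum]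
      congr 1
      · refine Finset.sum_congr rfl fun i hi => ?_
        have := Finset.mem_range.1 hi
        rw [show k + 1 - i = (k - i) + 1 by omega, pow_succ]; ring
      · simp
    rw [e]; linarith

/-- The horocycle pieces spend little of their time in the core near a locally finite family
of planes that does not contain the plane of `H`. -/
theorem avoid {Γ : Subgroup G} {B : Set V} {R₀ : ℝ} (h : Geo Γ B R₀) (S : Set V)
    (unit : ∀ m ∈ S, lor m m = 1) (inv : ∀ γ ∈ Γ, ∀ m ∈ S, rho γ m ∈ S) (hfin : LocFin S)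
    (h1 : ez ∉ S) (h2 : -ez ∉ S) (R : ℝ) (hR : 0 ≤ R) :
    ∃ C : ℝ, 0 ≤ C ∧ ∀ (θ M δ : ℝ) (k : ℕ), 1 ≤ θ → θ ≤ 8 / 7 → 0 ≤ M → 0 < δ →
      (∀ i ≤ k, volume {t : ℝ | t ∈ Ico (1 : ℝ) 2 ∧ cv i t ∈ KR B (R + 1)} ≤
        ENNReal.ofReal (M * θ ^ (k - i))) →
      volume {t : ℝ | t ∈ Ico (1 : ℝ) 2 ∧ cv k t ∈ KR B R ∧ ∃ m ∈ S, Nf (cv k t) m < δ ^ 2} ≤
        ENNReal.ofReal (C * δ * M) := by
  obtain ⟨θ₀, hθ₀, hθ₀1, hlow⟩ := avoid_theta S unit hfin h1 h2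
  obtain ⟨M₀, hM₀⟩ := avoid_count h S unit inv hfin R
  have hs : 0 < √θ₀ := Real.sqrt_pos.2 hθ₀
  refine ⟨(1 + 192 * M₀) / √θ₀, by positivity, fun θ M δ k hθ1 hθ2 hM hδ hyp => ?_⟩
  have hM0 : (0 : ℝ) ≤ M₀ := Nat.cast_nonneg _
  by_cases hc : θ₀ ≤ δ ^ 2
  · have hk := hyp k le_rfl
    rw [Nat.sub_self, pow_zero, mul_one] at hk
    refine (measure_mono ?_).trans (hk.trans (ENNReal.ofReal_le_ofReal ?_))
    · exact fun t ht => ⟨ht.1, KR_mono B (by linarith) ht.2.1⟩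
    · have h3 : √θ₀ ≤ δ := Real.sqrt_le_iff.2 ⟨hδ.le, hc⟩
      have h4 : 1 ≤ (1 + 192 * M₀) / √θ₀ * δ := by
        rw [div_mul_eq_mul_div, le_div_iff₀ hs]; nlinarith
      nlinarith
  have hc := not_le.1 hc
  have hsub : {t : ℝ | t ∈ Ico (1 : ℝ) 2 ∧ cv k t ∈ KR B R ∧ ∃ m ∈ S, Nf (cv k t) m < δ ^ 2} ⊆
      ⋃ i ∈ Finset.range k, avoidA B S R θ₀ (δ ^ 2 / 2 ^ k) i := by
    rintro t ⟨ht, hK, m, hm, hN⟩
    obtain ⟨i, hi, b1, b2⟩ :=
      avoid_cross (fun i => Nf (cv i t) m) θ₀ k (hlow t ht m hm) (hN.trans hc)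
    refine mem_iUnion₂.2 ⟨i, Finset.mem_range.2 hi, ht, ?_, m, hm, b1, ?_, ?_⟩
    · obtain ⟨n, rfl⟩ := Nat.exists_eq_add_of_le hi.le
      rw [← cv_mul_a2 i n t]
      refine KR_mono B ?_ (KR_mul_a2 (h.cv_mem_FG _ t) hK n)
      exact div_le_self hR (one_le_pow₀ (by norm_num))
    · have := avoid_step i t m
      linarith
    · rw [avoid_Nf_cv] at hN
      have a1 : 0 ≤ |lor m xp| / 2 ^ k := by positivity
      have a2 := abs_nonneg (2 * lor m xp * t + lor m ey)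
      rw [lt_div_iff₀ (by positivity)]
      linarith
  refine (measure_mono hsub).trans ((measure_biUnion_finset_le _ _).trans ?_)
  have hone : ∀ i ∈ Finset.range k, volume (avoidA B S R θ₀ (δ ^ 2 / 2 ^ k) i) ≤
      ENNReal.ofReal (M₀ * 32 * δ * M / √θ₀ * (6 / 7) ^ (k - i)) := by
    intro i hi
    have hi' := Finset.mem_range.1 hi
    have hl := avoid_level h S R hR M₀ hM₀ θ₀ δ hθ₀ hθ₀1 hδ i (k - i)
    rw [show i + (k - i) = k by omega] at hl
    refine hl.trans ((mul_le_mul_right (hyp i hi'.le) _).trans ?_)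
    rw [← ENNReal.ofReal_mul (by positivity)]
    refine ENNReal.ofReal_le_ofReal ?_
    have e : M₀ * (32 * δ * (3 / 4) ^ (k - i) / √θ₀) * (M * θ ^ (k - i)) =
        M₀ * 32 * δ * M / √θ₀ * (3 / 4 * θ) ^ (k - i) := by rw [mul_pow]; ring
    rw [e]
    exact mul_le_mul_of_nonneg_left
      (pow_le_pow_left₀ (by linarith) (by linarith) _) (by positivity)
  refine (Finset.sum_le_sum hone).trans ?_
  rw [← ENNReal.ofReal_sum_of_nonneg (fun i _ => by positivity), ← Finset.mul_sum]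
  refine ENNReal.ofReal_le_ofReal ?_
  calc _ ≤ M₀ * 32 * δ * M / √θ₀ * 6 :=
        mul_le_mul_of_nonneg_left (avoid_sum k) (by positivity)
    _ = 192 * M₀ / √θ₀ * δ * M := by ring
    _ ≤ _ := by
        refine mul_le_mul_of_nonneg_right (mul_le_mul_of_nonneg_right ?_ hδ.le) hM
        exact div_le_div_of_nonneg_right (by linarith) hs.le

end Pool.Agent.MP_7a4cc0_an

end

section

open Matrix MeasureTheory Set Topology Filter
open scoped ENNReal NNReal CompactlySupported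

namespace Pool.Agent.MP_7a4cc0_an

theorem erg1_integral_le {Z : Type*} [TopologicalSpace Z] [MeasurableSpace Z] [BorelSpace Z]
    (μ : Measure Z) [IsFiniteMeasure μ] (f : C_c(Z, ℝ)) {U : Set Z} (hU : tsupport f ⊆ U)
    {C : ℝ} (hC : ∀ x, |f x| ≤ C) : |∫ x, f x ∂μ| ≤ C * μ.real U := by
  have h0 : ∀ x, x ∉ tsupport f → f x = 0 := fun x hx => image_eq_zero_of_notMem_tsupport hx
  rw [← setIntegral_eq_integral_of_forall_compl_eq_zero h0]
  rcases isEmpty_or_nonempty Z with hZ | ⟨⟨z⟩⟩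
  · simp [Measure.eq_zero_of_isEmpty μ]
  refine (norm_setIntegral_le_of_norm_le_const (f := fun x => f x) (C := C) (measure_lt_top _ _)
    fun x _ => hC x).trans ?_
  exact mul_le_mul_of_nonneg_left (measureReal_mono hU) ((abs_nonneg _).trans (hC z))

/-- Vague limit of asymptotically invariant measures. -/
theorem erg_limit {Z : Type*} [TopologicalSpace Z] [T2Space Z] [LocallyCompactSpace Z]
    [SecondCountableTopology Z] [MeasurableSpace Z] [BorelSpace Z] {τ ι : Type*}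
    (T : τ → Z ≃ₜ Z) (F : Set Z) (hF : IsClosed F) (O : ι → Set Z) (hO : ∀ i, IsOpen (O i))
    (M : ι → ℝ≥0) (hcov : F ⊆ ⋃ i, O i) (μ : ℕ → Measure Z) [∀ n, IsFiniteMeasure (μ n)]
    (hμF : ∀ n, μ n Fᶜ = 0)
    (hinv : ∀ (t : τ) (f : C_c(Z, ℝ)),
      Tendsto (fun n => ∫ x, f (T t x) ∂μ n - ∫ x, f x ∂μ n) atTop (𝓝 0))
    (hM : ∀ i, ∀ᶠ n in atTop, μ n (O i) ≤ M i) (K : Set Z) (hK : IsCompact K)
    (hμK : ∀ n, 1 ≤ μ n K) :
    ∃ ν : Measure Z, IsLocallyFiniteMeasure ν ∧ ν ≠ 0 ∧ ν Fᶜ = 0 ∧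
      (∀ t E, MeasurableSet E → ν (T t ⁻¹' E) = ν E) ∧ ∀ i, ν (O i) ≤ M i := by
  classical
  have hU : (hyperfilter ℕ : Filter ℕ) ≤ atTop := by
    rw [← Nat.cofinite_eq_atTop]
    exact hyperfilter_le_cofinite
  have hlim : ∀ f : C_c(Z, ℝ), ∃ L : ℝ,
      Tendsto (fun n => ∫ x, f x ∂μ n) (hyperfilter ℕ) (𝓝 L) := by
    intro f
    obtain ⟨s, hs⟩ := (f.hasCompactSupport.isCompact.inter_right hF).elim_finite_subcover O hO
      (inter_subset_right.trans hcov)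
    obtain ⟨C, hC⟩ := f.hasCompactSupport.exists_bound_of_continuous f.continuous
    have hb : ∀ᶠ n in atTop, |∫ x, f x ∂μ n| ≤ |C| * ∑ i ∈ s, (M i : ℝ) := by
      filter_upwards [(eventually_all_finset s).2 fun i _ => hM i] with n hn
      refine (erg1_integral_le (μ n) f (U := (⋃ i ∈ s, O i) ∪ Fᶜ) (C := |C|) (fun x hx => ?_)
        fun x => (hC x).trans (le_abs_self C)).trans
        (mul_le_mul_of_nonneg_left ?_ (abs_nonneg C))
      · by_cases h : x ∈ F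
        · exact Or.inl (hs ⟨hx, h⟩)
        · exact Or.inr h
      · refine (measureReal_union_le _ _).trans ?_
        rw [measureReal_def (μ n) Fᶜ, hμF n, ENNReal.toReal_zero, add_zero]
        refine (measureReal_biUnion_finset_le s O).trans (Finset.sum_le_sum fun i hi => ?_)
        exact ENNReal.toReal_le_coe_of_le_coe (hn i hi)
    obtain ⟨L, -, hL⟩ := (isCompact_Icc (a := -(|C| * ∑ i ∈ s, (M i : ℝ)))
      (b := |C| * ∑ i ∈ s, (M i : ℝ))).ultrafilter_le_nhds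
      ((hyperfilter ℕ).map fun n => ∫ x, f x ∂μ n)
      (le_principal_iff.2 (mem_map.2 (hU (hb.mono fun n hn => abs_le.1 hn))))
    exact ⟨L, hL⟩
  choose L hL using hlim
  let Λ₀ : C_c(Z, ℝ) →ₗ[ℝ] ℝ :=
    { toFun := L
      map_add' := fun f g => by
        refine tendsto_nhds_unique (hL (f + g)) (((hL f).add (hL g)).congr fun n => ?_)
        rw [← integral_add f.integrable g.integrable]
        rfl
      map_smul' := fun c f => by
        refine tendsto_nhds_unique (hL (c • f)) (((hL f).const_mul c).congr fun n => ?_)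
        rw [← integral_const_mul]
        rfl }
  let Λ : C_c(Z, ℝ) →ₚ[ℝ] ℝ := PositiveLinearMap.mk₀ Λ₀ fun f hf =>
    ge_of_tendsto' (hL f) fun n => integral_nonneg hf
  have hΛ : ∀ f, Λ f = L f := fun f => rfl
  have hopen : ∀ (U : Set Z) (c : ℝ≥0), IsOpen U → (∀ᶠ n in atTop, μ n U ≤ c) →
      RealRMK.rieszMeasure Λ U ≤ c := by
    intro U c hUo hc
    rw [hUo.measure_eq_iSup_isCompact]
    refine iSup_le fun K' => iSup_le fun hK'U => iSup_le fun hK' => ?_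
    obtain ⟨f, hf1, hf2, hf3, hf4⟩ :=
      exists_continuousMap_one_of_isCompact_subset_isOpen hK' hUo hK'U
    let g : C_c(Z, ℝ) := ⟨f, hasCompactSupport_def.mpr hf2⟩
    refine (RealRMK.rieszMeasure_le_of_eq_one Λ (f := g) (fun x => (hf4 x).1) hK' hf1).trans ?_
    rw [ENNReal.ofReal_le_coe, hΛ]
    refine le_of_tendsto (hL g) (hU (hc.mono fun n hn => ?_))
    refine (le_abs_self _).trans ((erg1_integral_le (μ n) g hf3 (C := 1) fun x => ?_).trans ?_)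
    · exact abs_le.2 ⟨by linarith [(hf4 x).1, show g x = f x from rfl], (hf4 x).2⟩
    · rw [one_mul]
      exact ENNReal.toReal_le_coe_of_le_coe hn
  refine ⟨RealRMK.rieszMeasure Λ, inferInstance, fun h0 => ?_, ?_, fun t E hE => ?_,
    fun i => hopen _ _ (hO i) (hM i)⟩
  · obtain ⟨f, hf1, hf2, -, hf4⟩ :=
      exists_continuousMap_one_of_isCompact_subset_isOpen hK isOpen_univ (subset_univ K)
    let g : C_c(Z, ℝ) := ⟨f, hasCompactSupport_def.mpr hf2⟩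
    have h1 : 1 ≤ L g := ge_of_tendsto' (hL g) fun n => by
      have h2 : (1 : ℝ) ≤ (μ n).real K := ENNReal.toReal_mono (measure_ne_top _ _) (hμK n)
      refine h2.trans ?_
      rw [← integral_indicator_one hK.measurableSet]
      refine integral_mono ((integrable_const _).indicator hK.measurableSet) g.integrable
        fun x => ?_
      by_cases hx : x ∈ K
      · rw [indicator_of_mem hx]
        exact (hf1 hx).ge
      · rw [indicator_of_notMem hx]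
        exact (hf4 x).1
    have h3 := RealRMK.integral_rieszMeasure Λ g
    rw [h0, integral_zero_measure, hΛ] at h3
    linarith
  · simpa using hopen _ 0 hF.isOpen_compl (Eventually.of_forall fun n => (hμF n).le)
  · haveI := Measure.Regular.map (μ := RealRMK.rieszMeasure Λ) (T t)
    have h1 : (RealRMK.rieszMeasure Λ).map (T t) = RealRMK.rieszMeasure Λ := by
      refine Measure.ext_of_integral_eq_on_compactlySupported fun f => ?_
      let g : C_c(Z, ℝ) := ⟨⟨fun x => f (T t x), by fun_prop⟩,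
        f.hasCompactSupport.comp_homeomorph (T t)⟩
      rw [integral_map (T t).measurable.aemeasurable (map_continuous f).aestronglyMeasurable]
      change ∫ x, g x ∂_ = _
      rw [RealRMK.integral_rieszMeasure, RealRMK.integral_rieszMeasure, hΛ, hΛ, ← sub_eq_zero]
      exact tendsto_nhds_unique ((hL g).sub (hL f)) ((hinv t f).mono_left hU)
    rw [← Measure.map_apply (T t).measurable hE, h1]

end Pool.Agent.MP_7a4cc0_an

end

section

open Matrix MeasureTheory Set Topology Filter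
open scoped ENNReal NNReal CompactlySupported

namespace Pool.Agent.MP_7a4cc0_an

lemma meas1_shift {F : ℝ → ℝ} (hF : Continuous F) {M : ℝ} (hM : ∀ t, |F t| ≤ M) (s : ℝ) :
    |(∫ t in Ico (1 : ℝ) 2, F (t + s)) - ∫ t in Ico (1 : ℝ) 2, F t| ≤ 2 * M * |s| := by
  rw [integral_Ico_eq_integral_Ioc, integral_Ico_eq_integral_Ioc,
    ← intervalIntegral.integral_of_le one_le_two, ← intervalIntegral.integral_of_le one_le_two,
    intervalIntegral.integral_comp_add_right,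
    intervalIntegral.integral_interval_sub_interval_comm' (hF.intervalIntegrable _ _)
      (hF.intervalIntegrable _ _) (hF.intervalIntegrable _ _)]
  have h1 := intervalIntegral.norm_integral_le_of_norm_le_const (a := 2) (b := 2 + s) (f := F)
    (C := M) fun x _ => hM x
  have h2 := intervalIntegral.norm_integral_le_of_norm_le_const (a := 1) (b := 1 + s) (f := F)
    (C := M) fun x _ => hM x
  rw [add_sub_cancel_left, Real.norm_eq_abs] at h1 h2
  refine (abs_sub _ _).trans ?_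
  linarith

/-- The normalised horocycle piece at level `k`. -/
noncomputable def meas1_mu (Γ : Subgroup G) (c : ℝ) (k : ℕ) : Measure (Frame Γ) :=
  ENNReal.ofReal c⁻¹ • Measure.map (fun t => cls Γ (cv k t)) (volume.restrict (Ico (1 : ℝ) 2))

lemma meas1_cont (Γ : Subgroup G) (k : ℕ) : Continuous fun t => cls Γ (cv k t) :=
  (continuous_cls Γ).comp (continuous_cv k)

instance (Γ : Subgroup G) (c : ℝ) (k : ℕ) : IsFiniteMeasure (meas1_mu Γ c k) := by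
  constructor
  rw [meas1_mu, Measure.smul_apply, smul_eq_mul]
  exact ENNReal.mul_lt_top ENNReal.ofReal_lt_top (measure_lt_top _ _)

lemma meas1_apply (Γ : Subgroup G) (c : ℝ) (k : ℕ) {E : Set (Frame Γ)} (hE : MeasurableSet E) :
    meas1_mu Γ c k E =
      ENNReal.ofReal c⁻¹ * volume {t : ℝ | t ∈ Ico (1 : ℝ) 2 ∧ cls Γ (cv k t) ∈ E} := by
  rw [meas1_mu, Measure.smul_apply, smul_eq_mul,
    Measure.map_apply (meas1_cont Γ k).measurable hE,
    Measure.restrict_apply ((meas1_cont Γ k).measurable hE), inter_comm]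
  rfl

lemma meas1_le (Γ : Subgroup G) {c : ℝ} (hc : 0 < c) (k : ℕ) {E : Set (Frame Γ)}
    (hE : MeasurableSet E) {M : ℝ}
    (h : volume {t : ℝ | t ∈ Ico (1 : ℝ) 2 ∧ cls Γ (cv k t) ∈ E} ≤ ENNReal.ofReal (c * M)) :
    meas1_mu Γ c k E ≤ ENNReal.ofReal M := by
  rw [meas1_apply Γ c k hE]
  refine (mul_le_mul_right h _).trans_eq ?_
  rw [← ENNReal.ofReal_mul (inv_pos.2 hc).le, inv_mul_cancel_left₀ hc.ne']

lemma meas1_inv (Γ : Subgroup G) {c : ℝ} (hc : 0 < c) (k : ℕ) (s : ℝ) {f : Frame Γ → ℝ}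
    (hf : Continuous f) {M : ℝ} (hM : ∀ x, |f x| ≤ M) :
    |∫ x, f (rmul (nz s) x) ∂meas1_mu Γ c k - ∫ x, f x ∂meas1_mu Γ c k| ≤
      c⁻¹ * (2 * M * (|s| / 2 ^ k)) := by
  have hm := (meas1_cont Γ k).measurable.aemeasurable (μ := volume.restrict (Ico (1 : ℝ) 2))
  have hf' : Continuous fun x : Frame Γ => f (rmul (nz s) x) := hf.comp (continuous_rmul _)
  rw [meas1_mu, integral_smul_measure, integral_smul_measure,
    integral_map hm hf'.aestronglyMeasurable, integral_map hm hf.aestronglyMeasurable,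
    ENNReal.toReal_ofReal (inv_pos.2 hc).le, smul_eq_mul, smul_eq_mul, ← mul_sub, abs_mul,
    abs_of_pos (inv_pos.2 hc)]
  refine mul_le_mul_of_nonneg_left ?_ (inv_pos.2 hc).le
  simp only [rmul_cls, cv_mul_nz]
  have := meas1_shift (hf.comp (meas1_cont Γ k)) (fun t => hM _) (s / 2 ^ k)
  rwa [abs_div, abs_of_pos (pow_pos (two_pos (α := ℝ)) k)] at this

lemma meas1_vol_le (P : ℝ → Prop) : volume {t : ℝ | t ∈ Ico (1 : ℝ) 2 ∧ P t} ≤ 1 := by
  refine (measure_mono (t := Ico (1 : ℝ) 2) fun t ht => ht.1).trans ?_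
  norm_num

lemma meas1_orb_inv {Γ : Subgroup G} (n : V) : ∀ γ ∈ Γ, ∀ m ∈ orb Γ n, rho γ m ∈ orb Γ n := by
  rintro γ hγ _ ⟨γ', hγ', rfl⟩
  exact ⟨γ * γ', Γ.mul_mem hγ hγ', rho_mul _ _ _⟩

lemma meas1_not_mem {Γ : Subgroup G} (hnc : ¬ LocFin (orb Γ ez)) {n : V}
    (hn : LocFin (orb Γ n)) : ez ∉ orb Γ n ∧ -ez ∉ orb Γ n := by
  refine ⟨fun h => hnc fun C => (hn C).subset ?_, fun h => hnc fun C =>
    ((hn C).image Neg.neg).subset ?_⟩
  · rintro _ ⟨⟨γ, hγ, rfl⟩, hC⟩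
    exact ⟨meas1_orb_inv n γ hγ _ h, hC⟩
  · rintro _ ⟨⟨γ, hγ, rfl⟩, hC⟩
    refine ⟨rho γ (-ez), ⟨meas1_orb_inv n γ hγ _ h, ?_⟩, by simp⟩
    rwa [map_neg, norm_neg]

lemma meas1_near_inv {Γ : Subgroup G} (n : V) (ε : ℝ) :
    ∀ γ ∈ Γ, ∀ g ∈ {g | ∃ m ∈ orb Γ n, Nf g m < ε}, γ * g ∈ {g | ∃ m ∈ orb Γ n, Nf g m < ε} := by
  rintro γ hγ g ⟨m, hm, h⟩
  refine ⟨rho γ m, meas1_orb_inv n γ hγ m hm, ?_⟩
  simpa only [Nf, rho_mul, lor_rho] using h

lemma meas1_near_open (S : Set V) (ε : ℝ) : IsOpen {g | ∃ m ∈ S, Nf g m < ε} := by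
  have : {g | ∃ m ∈ S, Nf g m < ε} = ⋃ m ∈ S, {g | Nf g m < ε} := by
    ext g
    simp
  rw [this]
  refine isOpen_biUnion fun m _ => isOpen_lt ?_ continuous_const
  have hc : ∀ v, Continuous fun g : G => |lor m (rho g v)| := fun v =>
    (continuous_lor.comp (continuous_const.prodMk (continuous_rho_left v))).abs
  exact ((hc _).add (hc _)).add (hc _)

lemma meas1_bound {Γ : Subgroup G} {B : Set V} {R₀ : ℝ} (h : Geo Γ B R₀) {θ' R : ℝ}
    (hθ' : 1 ≤ θ') {j₀ : ℕ} (hj : (R + 2) / 2 ^ j₀ ≤ R) {al : ℕ → ℝ}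
    (hal : ∀ k, volume {t : ℝ | t ∈ Ico (1 : ℝ) 2 ∧ cv k t ∈ KR B R} = ENNReal.ofReal (al k))
    (h0 : 1 ≤ al 0) {n : ℕ} (hn0 : 0 ≤ al n) (hn : ∀ i, i ≤ n → al i ≤ al n * θ' ^ (n - i))
    {i : ℕ} (hi : i ≤ n) : volume {t : ℝ | t ∈ Ico (1 : ℝ) 2 ∧ cv i t ∈ KR B (R + 2)} ≤
      ENNReal.ofReal (al n * θ' ^ (j₀ + (n - i))) := by
  rcases le_or_gt j₀ i with hji | hji
  · obtain ⟨i', rfl⟩ := Nat.exists_eq_add_of_le' hji
    refine (measure_mono (t := {t : ℝ | t ∈ Ico (1 : ℝ) 2 ∧ cv i' t ∈ KR B R})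
      fun t ht => ⟨ht.1, KR_mono B hj ?_⟩).trans ?_
    · rw [← cv_mul_a2 i' j₀]
      exact KR_mul_a2 (h.cv_mem_FG _ _) ht.2 j₀
    · rw [hal, show j₀ + (n - (i' + j₀)) = n - i' by omega]
      exact ENNReal.ofReal_le_ofReal (hn i' (by omega))
  · refine (meas1_vol_le _).trans ?_
    rw [← ENNReal.ofReal_one]
    exact ENNReal.ofReal_le_ofReal (h0.trans ((hn 0 (Nat.zero_le n)).trans
      (mul_le_mul_of_nonneg_left (pow_le_pow_right₀ hθ' (by omega)) hn0)))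

/-- The limit of the normalised horocycle pieces at record times. -/
theorem exists_limit {Γ : Subgroup G} {B : Set V} {R₀ : ℝ} (h : Geo Γ B R₀)
    (hnc : ¬ LocFin (orb Γ ez)) {θ θ' : ℝ} (hθ : 1 ≤ θ) (hθθ : θ < θ') (hθ' : θ' ≤ 8 / 7)
    (hg : Growth B θ) {R : ℝ} (hR : 0 < R) :
    ∃ (ν : Measure (Frame Γ)) (O : Set (Frame Γ)), IsLocallyFiniteMeasure ν ∧ ν ≠ 0 ∧
      ν (cls Γ '' FG B)ᶜ = 0 ∧
      (∀ (t : ℝ) (E : Set (Frame Γ)), MeasurableSet E → ν (rmul (nz t) ⁻¹' E) = ν E) ∧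
      IsOpen O ∧ cls Γ '' KR B R ⊆ O ∧
      (∃ C : ℝ, ∀ j : ℕ, ν (rmul (a2 ^ j) ⁻¹' O) ≤ ENNReal.ofReal (C * θ' ^ j)) ∧
      ∀ n : V, lor n n = 1 → LocFin (orb Γ n) → ∃ C : ℝ, ∀ (j : ℕ) (δ : ℝ), 0 < δ →
        ν (rmul (a2 ^ j) ⁻¹' (O ∩ cls Γ '' {g | ∃ m ∈ orb Γ n, Nf g m < δ ^ 2})) ≤
          ENNReal.ofReal (C * δ * θ' ^ j) := by
  have := t2_frame h.disc
  have hθ1 : 1 ≤ θ' := hθ.trans hθθ.le
  have hθ0 : 0 < θ := one_pos.trans_le hθ
  obtain ⟨O, hO⟩ : ∃ O, O = cls Γ '' interior (KR B (R + 1)) := ⟨_, rfl⟩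
  have O1 : IsOpen O := hO ▸ isOpenMap_cls Γ _ isOpen_interior
  have O2 : cls Γ '' KR B R ⊆ O := hO ▸ image_mono (h.KR_subset_interior hR.le)
  have hK : ∀ {r : ℝ} {g : G}, cls Γ g ∈ cls Γ '' KR B r ↔ g ∈ KR B r :=
    cls_mem_image_iff fun γ hγ g hg => (h.mul_mem_KR hγ).2 hg
  have O3 : ∀ g, cls Γ g ∈ O → g ∈ KR B (R + 1) := fun g hg =>
    hK.1 (image_mono interior_subset (hO ▸ hg))
  obtain ⟨al, hal0⟩ : ∃ al : ℕ → ℝ, al = fun k =>
    (volume {t : ℝ | t ∈ Ico (1 : ℝ) 2 ∧ cv k t ∈ KR B R}).toReal := ⟨_, rfl⟩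
  have hal : ∀ k, volume {t : ℝ | t ∈ Ico (1 : ℝ) 2 ∧ cv k t ∈ KR B R} =
      ENNReal.ofReal (al k) := fun k => by
    rw [hal0, ENNReal.ofReal_toReal ((meas1_vol_le _).trans_lt ENNReal.one_lt_top).ne]
  have al0 : ∀ k, 0 ≤ al k := fun k => by rw [hal0]; exact ENNReal.toReal_nonneg
  have al1 : ∀ k, (θ ^ k)⁻¹ ≤ al k := fun k => by
    rw [← ENNReal.ofReal_le_ofReal_iff (al0 k), ← hal]
    exact (hg k).trans (measure_mono fun t ht => ⟨ht.1, KR_mono B hR.le ht.2⟩)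
  have al2 : ∀ k, 0 < al k := fun k => lt_of_lt_of_le (by positivity) (al1 k)
  obtain ⟨n, hn, hrec⟩ := exists_records al θ θ' hθ0 hθθ al1
  obtain ⟨j₀, hj₀⟩ : ∃ j₀ : ℕ, (R + 2) / 2 ^ j₀ ≤ R := by
    obtain ⟨j, hj⟩ := pow_unbounded_of_one_lt ((R + 2) / R) (one_lt_two (α := ℝ))
    refine ⟨j, ?_⟩
    rw [div_lt_iff₀ hR] at hj
    rw [div_le_iff₀ (by positivity)]
    linarith
  have hb := fun l i (hi : i ≤ n l) => meas1_bound h hθ1 hj₀ hal (by simpa using al1 0)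
    (al0 (n l)) (hrec l) hi
  have hav := fun p : {n : V // lor n n = 1 ∧ LocFin (orb Γ n)} => avoid h (orb Γ p.1)
    (by rintro _ ⟨γ, -, rfl⟩; rw [lor_rho, p.2.1]) (meas1_orb_inv p.1) p.2.2
    (meas1_not_mem hnc p.2.2).1 (meas1_not_mem hnc p.2.2).2 (R + 1) (by linarith)
  choose C hC0 hC using hav
  obtain ⟨K₀, hK₀, hK₁, hK₂⟩ := h.exists_compact R
  have hF : IsClosed (cls Γ '' FG B) :=
    isClosed_image_cls (fun γ hγ g hg => (h.mul_mem_FG hγ).2 hg) (isClosed_FG B)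
  have hO2 : ∀ (m : V) (δ : ℝ), IsOpen (O ∩ cls Γ '' {g | ∃ m' ∈ orb Γ m, Nf g m' < δ ^ 2}) :=
    fun m δ => O1.inter (isOpenMap_cls Γ _ (meas1_near_open _ _))
  have hev : ∀ j : ℕ, ∀ᶠ l in atTop, ∃ k, n l = k + j := fun j =>
    (hn.tendsto_atTop.eventually_ge_atTop j).mono fun l hl => Nat.exists_eq_add_of_le' hl
  obtain ⟨ν, ν1, ν2, ν3, ν4, ν5⟩ := erg_limit (fun t : ℝ => rmulH Γ (nz t)) _ hF
    (Sum.elim (fun j : ℕ => rmul (a2 ^ j) ⁻¹' O)
      fun p : {n : V // lor n n = 1 ∧ LocFin (orb Γ n)} × ℕ × {δ : ℝ // 0 < δ} =>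
        rmul (a2 ^ p.2.1) ⁻¹' (O ∩ cls Γ '' {g | ∃ m ∈ orb Γ p.1.1, Nf g m < p.2.2.1 ^ 2}))
    (by
      rintro (j | p)
      · exact O1.preimage (continuous_rmul _)
      · exact (hO2 _ _).preimage (continuous_rmul _))
    (Sum.elim (fun j => (θ' ^ j₀ * θ' ^ j).toNNReal)
      fun p => (C p.1 * θ' ^ j₀ * p.2.2.1 * θ' ^ p.2.1).toNNReal)
    (by
      rintro _ ⟨g, hg, rfl⟩
      obtain ⟨k, hk⟩ := (h.eventually_mem_KR hg hR).exists
      exact mem_iUnion.2 ⟨Sum.inl k, O2 ⟨_, hk, rfl⟩⟩)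
    (fun l => meas1_mu Γ (al (n l)) (n l))
    (fun l => by
      rw [meas1_apply _ _ _ hF.measurableSet.compl]
      refine mul_eq_zero_of_right _ (measure_mono_null (t := ∅) ?_ measure_empty)
      exact fun t ht => ht.2 ⟨_, h.cv_mem_FG _ _, rfl⟩)
    (fun s f => by
      obtain ⟨M, hM⟩ := f.continuous.bounded_above_of_compact_support f.hasCompactSupport
      have hM0 : 0 ≤ M := (norm_nonneg _).trans (hM (cls Γ 1))
      have ht := ((tendsto_pow_atTop_nhds_zero_of_lt_one (r := θ / 2) (by positivity)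
        (by linarith)).comp hn.tendsto_atTop).const_mul (2 * M * |s|)
      rw [mul_zero] at ht
      refine squeeze_zero_norm (fun l => (meas1_inv Γ (al2 _) _ s f.continuous hM).trans ?_) ht
      have h1 : (al (n l))⁻¹ ≤ θ ^ n l := inv_le_of_inv_le₀ (by positivity) (al1 _)
      calc _ ≤ θ ^ n l * (2 * M * (|s| / 2 ^ n l)) := by gcongr
        _ = _ := by rw [Function.comp, div_pow]; ring)
    (by
      rintro (j | ⟨p, j, δ, hδ⟩)
      · filter_upwards [hev j] with l ⟨k, hk⟩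
        refine meas1_le Γ (al2 _) _ (O1.preimage (continuous_rmul _)).measurableSet ?_
        refine (measure_mono fun t ht => ?_).trans ((hb l k (by omega)).trans_eq ?_)
        · have h1 := ht.2
          rw [hk, mem_preimage, rmul_cls, cv_mul_a2] at h1
          exact ⟨ht.1, KR_mono B (by linarith) (O3 _ h1)⟩
        · rw [show n l - k = j by omega, pow_add]
      · filter_upwards [hev j] with l ⟨k, hk⟩
        refine meas1_le Γ (al2 _) _ ((hO2 _ _).preimage (continuous_rmul _)).measurableSet ?_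
        have h2 := hC p θ' (al (n l) * θ' ^ j₀ * θ' ^ j) δ k hθ1 hθ'
          (by have := al0 (n l); positivity) hδ fun i hi => by
            rw [show R + 1 + 1 = R + 2 by ring]
            refine (hb l i (by omega)).trans_eq ?_
            rw [show n l - i = j + (k - i) by omega, pow_add, pow_add]
            ring_nf
        refine (measure_mono fun t ht => ?_).trans (h2.trans_eq ?_)
        · have h1 := ht.2
          rw [hk, mem_preimage, rmul_cls, cv_mul_a2] at h1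
          exact ⟨ht.1, O3 _ h1.1, (cls_mem_image_iff (meas1_near_inv _ _)).1 h1.2⟩
        · ring_nf)
    (cls Γ '' K₀) (hK₀.image (continuous_cls Γ))
    (fun l => by
      rw [meas1_apply _ _ _ (hK₀.image (continuous_cls Γ)).measurableSet]
      refine le_trans (le_of_eq ?_) (mul_le_mul_right (measure_mono
        (s := {t : ℝ | t ∈ Ico (1 : ℝ) 2 ∧ cv (n l) t ∈ KR B R}) fun t ht => ?_) _)
      · rw [hal, ← ENNReal.ofReal_mul (inv_pos.2 (al2 _)).le, inv_mul_cancel₀ (al2 _).ne',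
          ENNReal.ofReal_one]
      · obtain ⟨γ, hγ, hk⟩ := hK₂ _ ht.2
        exact ⟨ht.1, _, hk, cls_mul hγ _⟩)
  exact ⟨ν, O, ν1, ν2, ν3, ν4, O1, O2, ⟨θ' ^ j₀, fun j => ν5 (Sum.inl j)⟩, fun m h1 h2 =>
    ⟨C ⟨m, h1, h2⟩ * θ' ^ j₀, fun j δ hδ => ν5 (Sum.inr (⟨m, h1, h2⟩, j, ⟨δ, hδ⟩))⟩⟩

end Pool.Agent.MP_7a4cc0_an

end
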