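import Pool.Agent.Mg.F14ad9d.G04cbab
import Pool.Agent.Mg.F14ad9d.G67dcc7
import Pool.Agent.Mg.F14ad9d.G1cc5d0
import Pool.Agent.Mg.F14ad9d.G51f3eb

section

open Matrix MeasureTheory Set Topology Filter
open scoped ENNReal NNReal CompactlySupported

namespace Pool.Agent.MP_7a4cc0_an

/-- the null vector of the column `(a, c)` -/
noncomputable def reptrNv (a c : ℂ) : V :=
  ![(Complex.normSq a + Complex.normSq c) / 2, (Complex.normSq a - Complex.normSq c) / 2,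
    (a * star c).re, (a * star c).im]

lemma reptr_xp (g : SL2) : rhoSL g xp = reptrNv (g.1 0 0) (g.1 1 0) := by
  ext i
  fin_cases i <;>
    simp [rhoSL_apply, unherm, herm, xp, reptrNv, Matrix.mul_apply, Fin.sum_univ_two,
      Complex.normSq_apply] <;> ring

lemma reptr_xm (g : SL2) : rhoSL g xm = reptrNv (g.1 0 1) (g.1 1 1) := by
  ext i
  fin_cases i <;>
    simp [rhoSL_apply, unherm, herm, xm, reptrNv, Matrix.mul_apply, Fin.sum_univ_two,
      Complex.normSq_apply] <;> ring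

lemma reptr_lor (a c a' c' : ℂ) :
    lor (reptrNv a c) (reptrNv a' c') = -Complex.normSq (a * c' - a' * c) / 2 := by
  simp [lor, reptrNv, Complex.normSq_apply]
  ring

lemma reptr_scale (a c t : ℂ) (ht : Complex.normSq t = 1) :
    reptrNv (a * t) (c * t) = reptrNv a c := by
  have h : a * t * star (c * t) = a * star c := by
    have := Complex.mul_conj t
    rw [ht] at this
    simp only [star_mul', Complex.star_def]
    push_cast at this
    linear_combination a * (starRingEnd ℂ) c * this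
  simp only [reptrNv, h, map_mul, ht, mul_one]

lemma reptr_null {u : V} (h : lor u u = 0) (h0 : 0 < u 0) : ∃ a c, u = reptrNv a c := by
  simp only [lor] at h
  have h1 : 0 ≤ u 0 + u 1 := by nlinarith [sq_nonneg (u 2), sq_nonneg (u 3)]
  rcases h1.eq_or_lt with h2 | h2
  · have h3 : u 1 = -u 0 := by linarith
    rw [h3] at h
    have h4 : u 2 = 0 := by nlinarith [sq_nonneg (u 2), sq_nonneg (u 3)]
    have h5 : u 3 = 0 := by nlinarith [sq_nonneg (u 2), sq_nonneg (u 3)]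
    have h6 := Real.mul_self_sqrt (by linarith : 0 ≤ 2 * u 0)
    refine ⟨0, (√(2 * u 0) : ℝ), ?_⟩
    ext i
    fin_cases i <;> simp [reptrNv, h3, h4, h5, -Real.sqrt_mul, h6] <;> ring
  · obtain ⟨s, hs, h6⟩ : ∃ s : ℝ, s ≠ 0 ∧ s * s = u 0 + u 1 :=
      ⟨√(u 0 + u 1), (Real.sqrt_pos.2 h2).ne', Real.mul_self_sqrt h1⟩
    have h7 : u 2 / s * (u 2 / s) + u 3 / s * (u 3 / s) = u 0 - u 1 := by
      field_simp
      rw [show s ^ 2 = s * s by ring, h6]
      linarith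
    refine ⟨s, ⟨u 2 / s, -(u 3 / s)⟩, ?_⟩
    ext i
    fin_cases i <;> simp [reptrNv, Complex.normSq_apply, h6, h7] <;> field_simp

lemma exists_null {u u' : V} (h : lor u u = 0) (h0 : 0 < u 0) (h' : lor u' u' = 0)
    (h0' : 0 < u' 0) (hh : lor u u' = -1 / 2) : ∃ g : G, rho g xp = u ∧ rho g xm = u' := by
  obtain ⟨a, c, rfl⟩ := reptr_null h h0
  obtain ⟨a', c', rfl⟩ := reptr_null h' h0'
  rw [reptr_lor] at hh
  have h1 : Complex.normSq (a * c' - a' * c) = 1 := by linarith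
  have h2 : a * c' - a' * c ≠ 0 := fun e => by simp [e] at h1
  refine ⟨pr ⟨!![a, a' * (a * c' - a' * c)⁻¹; c, c' * (a * c' - a' * c)⁻¹], ?_⟩, ?_, ?_⟩
  · rw [Matrix.det_fin_two_of]
    field_simp
  · rw [rho_pr, reptr_xp]; rfl
  · rw [rho_pr, reptr_xm]
    exact reptr_scale _ _ _ (by rw [map_inv₀, h1, inv_one])

lemma reptr_pair {x m : V} (hx : Fut x) (hm : lor m m = 1) (h : lor x m = 0) :
    ∃ g : G, rho g vo = x ∧ rho g (xp - xm) = m := by
  have h' : lor m x = 0 := by rw [lor_comm, h]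
  have h1 := hx.1
  have a1 : lor ((1 / 2 : ℝ) • (x + m)) ((1 / 2 : ℝ) • (x + m)) = 0 := by simp [h, h', hm, h1]
  have a2 : lor ((1 / 2 : ℝ) • (x - m)) ((1 / 2 : ℝ) • (x - m)) = 0 := by simp [h, h', hm, h1]
  obtain ⟨g, g1, g2⟩ := exists_null a1
    (pos_of_lor_neg hx.cone a1.le (by simp [h, h1])) a2
    (pos_of_lor_neg hx.cone a2.le (by simp [h, h1])) (by simp [h, h', hm, h1]; norm_num)
  refine ⟨g, ?_, ?_⟩
  · rw [vo_eq, map_add, g1, g2]; module
  · rw [map_sub, g1, g2]; module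

lemma exists_pair {x m : V} (hx : Fut x) (hm : lor m m = 1) (h : lor x m = 0) :
    ∃ g : G, rho g vo = x ∧ rho g ez = m := by
  obtain ⟨g, g1, g2⟩ := reptr_pair hx hm h
  obtain ⟨k, k1, k2⟩ := reptr_pair fut_vo lor_ez_ez lor_vo_ez
  refine ⟨g * k⁻¹, ?_, ?_⟩
  · rw [rho_mul, show rho k⁻¹ vo = vo by conv_lhs => rw [← k1, rho_inv_rho], g1]
  · rw [rho_mul, ← k2, rho_inv_rho, g2]

lemma exists_fut {x : V} (hx : Fut x) : ∃ g : G, rho g vo = x := by
  have h1 := hx.1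
  simp only [lor] at h1
  have h2 : 0 < x 0 * x 0 - x 1 * x 1 := by nlinarith [sq_nonneg (x 2), sq_nonneg (x 3)]
  obtain ⟨s, hs, h6⟩ : ∃ s : ℝ, s ≠ 0 ∧ s * s = x 0 * x 0 - x 1 * x 1 :=
    ⟨√_, (Real.sqrt_pos.2 h2).ne', Real.mul_self_sqrt h2.le⟩
  obtain ⟨g, hg, -⟩ := exists_pair (m := ![x 1 / s, x 0 / s, 0, 0]) hx
    (by simp [lor]; field_simp; nlinarith) (by simp [lor]; ring)
  exact ⟨g, hg⟩

lemma reptr_neg (g : SL2) : pr (-g) = pr g := by
  have h : pr (-1) = 1 := (QuotientGroup.eq_one_iff _).2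
    (Subgroup.mem_center_iff.2 fun k => by simp)
  rw [← neg_one_mul, pr_mul, h, one_mul]

lemma reptr_sq (g : SL2) (h : g.1 0 0 + g.1 1 1 + 2 ≠ 0) : ∃ k : SL2, g = k * k := by
  obtain ⟨s, hs⟩ := IsAlgClosed.exists_pow_nat_eq (g.1 0 0 + g.1 1 1 + 2) two_pos
  have s0 : s ≠ 0 := fun e => h (by rw [← hs, e]; simp)
  have hd := g.2
  rw [Matrix.det_fin_two] at hd
  refine ⟨⟨!![(g.1 0 0 + 1) / s, g.1 0 1 / s; g.1 1 0 / s, (g.1 1 1 + 1) / s], ?_⟩, ?_⟩
  · rw [Matrix.det_fin_two_of]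
    field_simp
    linear_combination hd - hs
  · ext i j
    fin_cases i <;> fin_cases j <;>
      simp [Matrix.mul_apply, Fin.sum_univ_two] <;> field_simp
    · linear_combination g.1 0 0 * hs + hd
    · linear_combination g.1 0 1 * hs
    · linear_combination g.1 1 0 * hs
    · linear_combination g.1 1 1 * hs + hd

lemma reptr_det (g : G) : 0 ≤ LinearMap.det (rho g : V →ₗ[ℝ] V) := by
  obtain ⟨g, rfl⟩ := pr_surjective g
  have key : ∀ g : SL2, g.1 0 0 + g.1 1 1 + 2 ≠ 0 →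
      0 ≤ LinearMap.det (rho (pr g) : V →ₗ[ℝ] V) := by
    intro g h
    obtain ⟨k, rfl⟩ := reptr_sq g h
    rw [pr_mul, map_mul, map_mul]
    exact mul_self_nonneg _
  by_cases h : g.1 0 0 + g.1 1 1 + 2 = 0
  · rw [← reptr_neg]
    refine key _ fun e => ?_
    simp only [Matrix.SpecialLinearGroup.coe_neg, Matrix.neg_apply] at e
    have : (4 : ℂ) = 0 := by linear_combination h + e
    norm_num at this
  · exact key g h

lemma reptr_rot {α β : ℝ} (h : α * α + β * β = 1) :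
    ∃ k : G, ∀ v, rho k v = ![v 0, v 1, α * v 2 - β * v 3, β * v 2 + α * v 3] := by
  obtain ⟨a, ha⟩ := IsAlgClosed.exists_pow_nat_eq (⟨α, β⟩ : ℂ) two_pos
  have h1 : a.re * a.re - a.im * a.im = α := by simpa [pow_two] using congrArg Complex.re ha
  have h2 : a.re * a.im + a.im * a.re = β := by simpa [pow_two] using congrArg Complex.im ha
  have h3 : a.re * a.re + a.im * a.im = 1 := by
    have : (a.re * a.re + a.im * a.im) ^ 2 = 1 := by rw [← h, ← h1, ← h2]; ring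
    exact (pow_eq_one_iff_of_nonneg (by nlinarith) two_ne_zero).1 this
  refine ⟨pr ⟨!![a, 0; 0, star a], ?_⟩, fun v => ?_⟩
  · rw [Matrix.det_fin_two_of]
    simp [Complex.ext_iff, h3, mul_comm]
  · rw [rho_pr]
    ext i
    fin_cases i <;>
      simp [rhoSL_apply, unherm, herm, Matrix.mul_apply, Fin.sum_univ_two]
    · linear_combination v 0 * h3
    · linear_combination v 1 * h3
    · linear_combination v 2 * h1 - v 3 * h2
    · linear_combination v 3 * h1 + v 2 * h2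

lemma reptr_fix (S : V →ₗ[ℝ] V) (hS : ∀ v w, lor (S v) (S w) = lor v w) (h1 : S xp = xp)
    (h2 : S xm = xm) (hd : 0 ≤ LinearMap.det S) : ∃ k : G, ∀ v, rho k v = S v := by
  have p : ∀ v, lor (S v) xp = lor v xp := fun v => by conv_lhs => rw [← h1, hS]
  have m : ∀ v, lor (S v) xm = lor v xm := fun v => by conv_lhs => rw [← h2, hS]
  obtain ⟨α, β, hy⟩ : ∃ α β : ℝ, S ey = α • ey + β • ez :=
    ⟨_, _, by simpa [p, m] using eq_decomp (S ey)⟩
  obtain ⟨γ, δ, hz⟩ : ∃ α β : ℝ, S ez = α • ey + β • ez :=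
    ⟨_, _, by simpa [p, m] using eq_decomp (S ez)⟩
  have a1 := hS ey ey
  have a2 := hS ez ez
  have a3 := hS ey ez
  simp [hy, hz] at a1 a2 a3
  have hv : ∀ v, S v = ![v 0, v 1, α * v 2 + γ * v 3, β * v 2 + δ * v 3] := by
    intro v
    have : v = (v 0 + v 1) • xp + (v 0 - v 1) • xm + v 2 • ey + v 3 • ez := by
      ext i
      fin_cases i <;> simp [xp, xm, ey, ez] <;> ring
    conv_lhs => rw [this]
    simp only [map_add, map_smul, h1, h2, hy, hz]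
    ext i
    fin_cases i <;> simp [xp, xm, ey, ez] <;> ring
  have hM : LinearMap.toMatrix' S = !![1, 0, 0, 0; 0, 1, 0, 0; 0, 0, α, γ; 0, 0, β, δ] := by
    ext i j
    rw [LinearMap.toMatrix'_apply, hv]
    fin_cases i <;> fin_cases j <;> simp
  rw [← LinearMap.det_toMatrix', hM] at hd
  simp [Matrix.det_succ_row_zero, Fin.sum_univ_succ] at hd
  have a4 : α * δ - β * γ = 1 := by
    refine (pow_eq_one_iff_of_nonneg (by linarith) two_ne_zero).1 ?_
    linear_combination (γ * γ + δ * δ) * a1 + a2 - (α * γ + β * δ) * a3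
  have a5 : δ = α := by nlinarith [sq_nonneg (α - δ), sq_nonneg (β + γ)]
  have a6 : γ = -β := by nlinarith [sq_nonneg (α - δ), sq_nonneg (β + γ)]
  obtain ⟨k, hk⟩ := reptr_rot a1
  exact ⟨k, fun v => by rw [hk, hv, a5, a6, neg_mul, sub_eq_add_neg]⟩

lemma exists_lift (T : V →ₗ[ℝ] V) (hT : ∀ v w, lor (T v) (T w) = lor v w) (h0 : 0 < T vo 0)
    (hdet : LinearMap.det T = 1) : ∃ g : G, ∀ v, rho g v = T v := by
  have hc : Cone (T vo) := ⟨by rw [hT]; simp, h0⟩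
  have a1 : lor (T xp) (T xp) = 0 := by rw [hT]; simp
  have a2 : lor (T xm) (T xm) = 0 := by rw [hT]; simp
  obtain ⟨g, g1, g2⟩ := exists_null a1
    (pos_of_lor_neg hc a1.le (by rw [hT, vo_eq]; simp; norm_num)) a2
    (pos_of_lor_neg hc a2.le (by rw [hT, vo_eq]; simp; norm_num)) (by rw [hT]; simp)
  obtain ⟨k, hk⟩ := reptr_fix ((rho g⁻¹ : V →ₗ[ℝ] V) ∘ₗ T) (fun v w => by simp [hT])
    (by simp [← g1]) (by simp [← g2])
    (by rw [LinearMap.det_comp, hdet, mul_one]; exact reptr_det _)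
  exact ⟨g * k, fun v => by rw [rho_mul, hk]; simp⟩

lemma mem_H_iff {g : G} : g ∈ H ↔ rho g ez = ez := by
  constructor
  · rintro ⟨g, hg, rfl⟩
    have hd := g.2
    rw [Matrix.det_fin_two] at hd
    have hd' := congrArg Complex.re hd
    have hg' : ∀ i j, (g.1 i j).im = 0 := hg
    simp [hg'] at hd'
    rw [rho_pr]
    ext i
    fin_cases i <;>
      simp [rhoSL_apply, unherm, herm, ez, Matrix.mul_apply, Fin.sum_univ_two, hg']
    linarith
  · obtain ⟨g, rfl⟩ := pr_surjective g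
    intro h
    have h1 := herm_rhoSL g ez
    rw [← rho_pr, h] at h1
    have e : herm ez = !![0, Complex.I; -Complex.I, 0] := by
      ext i j
      fin_cases i <;> fin_cases j <;> simp [herm, ez, Complex.ext_iff]
    rw [e] at h1
    have a := congrFun (congrFun h1 0) 0
    have b := congrFun (congrFun h1 0) 1
    have c := congrFun (congrFun h1 1) 0
    have d := congrFun (congrFun h1 1) 1
    simp [Matrix.mul_apply, Fin.sum_univ_two] at a b c d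
    have hd := g.2
    rw [Matrix.det_fin_two] at hd
    refine ⟨g, fun i j => Complex.conj_eq_iff_im.1 (mul_left_cancel₀ Complex.I_ne_zero ?_), rfl⟩
    fin_cases i <;> fin_cases j <;> simp only [Fin.zero_eta, Fin.mk_one]
    · linear_combination g.1 0 0 * c - g.1 1 0 * a -
        Complex.I * (starRingEnd ℂ) (g.1 0 0) * hd
    · linear_combination g.1 0 1 * c - g.1 1 1 * a -
        Complex.I * (starRingEnd ℂ) (g.1 0 1) * hd
    · linear_combination g.1 0 0 * d - g.1 1 0 * b -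
        Complex.I * (starRingEnd ℂ) (g.1 1 0) * hd
    · linear_combination g.1 0 1 * d - g.1 1 1 * b -
        Complex.I * (starRingEnd ℂ) (g.1 1 1) * hd

lemma eq_nz_of_fix {g : G} (h1 : rho g xp = xp) (h2 : rho g ez = ez) :
    ∃ τ : ℝ, g = nz τ := by
  obtain ⟨g, hg, rfl⟩ := mem_H_iff.2 h2
  have hg' : ∀ i j, (g.1 i j).im = 0 := hg
  rw [rho_pr, reptr_xp] at h1
  have a := congrFun h1 0
  have b := congrFun h1 1
  simp [reptrNv, xp, Complex.normSq_apply, hg'] at a b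
  have c : (g.1 1 0).re = 0 := by nlinarith
  have hd := g.2
  rw [Matrix.det_fin_two] at hd
  have hd' := congrArg Complex.re hd
  simp [hg', c] at hd'
  have a0 : (g.1 0 0).re * (g.1 0 0).re = 1 := by linarith
  rcases mul_self_eq_one_iff.1 a0 with e | e <;> rw [e] at hd'
  · refine ⟨(g.1 0 1).re, congrArg pr ?_⟩
    ext i j
    fin_cases i <;> fin_cases j <;> simp [Complex.ext_iff, hg', c, e]
    linarith
  · refine ⟨-(g.1 0 1).re, (reptr_neg g).symm.trans (congrArg pr ?_)⟩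
    ext i j
    fin_cases i <;> fin_cases j <;> simp [Complex.ext_iff, hg', c, e]
    linarith

end Pool.Agent.MP_7a4cc0_an

end

section

open Matrix MeasureTheory Set Topology Filter
open scoped ENNReal NNReal CompactlySupported

namespace Pool.Agent.MP_7a4cc0_an

/-- Square matrices of size four. -/
abbrev CocptM (α : Type) : Type := Matrix (Fin 4) (Fin 4) α

lemma cocpt_mink (ε : ℝ) (hε : 0 < ε) : ∃ η : ℝ, 0 < η ∧ ∀ g : CocptM ℝ,
    g.det ≠ 0 → |g.det| ≤ η → ∃ a : Fin 4 → ℤ, a ≠ 0 ∧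
      ∀ i, |(g *ᵥ fun j => (a j : ℝ)) i| ≤ ε := by
  classical
  let B := Pi.basisFun ℝ (Fin 4)
  let μ : Measure (Fin 4 → ℝ) := Measure.addHaar
  have hF : μ (ZSpan.fundamentalDomain B) < ⊤ :=
    (ZSpan.fundamentalDomain_isBounded B).measure_lt_top
  set K := μ (ZSpan.fundamentalDomain B) * 2 ^ Module.finrank ℝ (Fin 4 → ℝ) with hK
  have hK' : K ≠ ⊤ := ENNReal.mul_ne_top hF.ne (ENNReal.pow_ne_top (by simp))
  set c := μ (Metric.closedBall 0 ε) with hc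
  have hc0 : c ≠ 0 := (Metric.measure_closedBall_pos μ 0 hε).ne'
  have hc1 : c ≠ ⊤ := measure_closedBall_lt_top.ne
  have hc2 : 0 < c.toReal := ENNReal.toReal_pos hc0 hc1
  have hk : 0 ≤ K.toReal := ENNReal.toReal_nonneg
  refine ⟨c.toReal / (K.toReal + 1), by positivity, fun g hg0 hg => ?_⟩
  let T := Matrix.toLin' g
  have hT : LinearMap.det T = g.det := LinearMap.det_toLin' g
  have hn : 0 < |g.det| := abs_pos.2 hg0
  have hlt : K < μ (T ⁻¹' Metric.closedBall 0 ε) := by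
    rw [Measure.addHaar_preimage_linearMap μ (by rw [hT]; exact hg0), hT, ← hc,
      ← ENNReal.ofReal_toReal hc1, ← ENNReal.ofReal_mul (abs_nonneg _),
      ← ENNReal.ofReal_toReal hK', abs_inv,
      ENNReal.ofReal_lt_ofReal_iff (by positivity), inv_mul_eq_div, lt_div_iff₀ (by positivity)]
    have h2 : |g.det| * (K.toReal + 1) ≤ c.toReal := (le_div_iff₀ (by positivity)).1 hg
    nlinarith
  have : Countable (Submodule.span ℤ (Set.range B)).toAddSubgroup :=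
    inferInstanceAs (Countable (Submodule.span ℤ (Set.range B)))
  obtain ⟨v, hv0, hv⟩ := exists_ne_zero_mem_lattice_of_measure_mul_two_pow_lt_measure
    (ZSpan.isAddFundamentalDomain' B μ) (s := T ⁻¹' Metric.closedBall 0 ε)
    (fun x hx => by simpa using hx) ((convex_closedBall 0 ε).linear_preimage T) hlt
  have hm := (B.mem_span_iff_repr_mem ℤ (v : Fin 4 → ℝ)).1 v.2
  choose z hz using hm
  have hz' : (v : Fin 4 → ℝ) = fun i => (z i : ℝ) := by
    ext i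
    have := hz i
    simp only [B, Pi.basisFun_repr, algebraMap_int_eq, eq_intCast] at this
    exact this.symm
  refine ⟨z, fun h => hv0 (Subtype.ext ?_), fun i => ?_⟩
  · rw [hz', h]
    ext i
    simp
  · have h1 : ‖T v‖ ≤ ε := by simpa using hv
    rw [← hz']
    exact (norm_le_pi_norm (T v) i).trans h1

/-- The real matrix of an integer matrix. -/
def cocptC (A : CocptM ℤ) : CocptM ℝ := A.map fun z => (z : ℝ)

lemma cocptC_mul (A B : CocptM ℤ) : cocptC (A * B) = cocptC A * cocptC B :=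
  Matrix.map_mul (f := Int.castRingHom ℝ)

lemma cocptC_det (A : CocptM ℤ) : (cocptC A).det = (A.det : ℝ) := (Int.cast_det A).symm

lemma cocptC_mulVec (A : CocptM ℤ) (c : Fin 4 → ℤ) :
    (cocptC A *ᵥ fun i => (c i : ℝ)) = fun i => ((A *ᵥ c) i : ℝ) := by
  ext i
  simp [cocptC, mulVec, dotProduct]

lemma cocpt_many : ∃ L : ℝ, ∀ g : CocptM ℝ, g.det ≠ 0 → |g.det| ≤ 11 →
    (∀ a : Fin 4 → ℤ, (∀ i, |(g *ᵥ fun j => (a j : ℝ)) i| ≤ 3 / 8) → a = 0) →
    ∃ A : CocptM ℤ, A.det ≠ 0 ∧ ∀ i j, |(g * cocptC A) i j| ≤ L := by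
  classical
  obtain ⟨η, hη, hm⟩ := cocpt_mink (1 / 8) (by norm_num)
  refine ⟨2 / η + 1, fun g hg0 hg hs => ?_⟩
  let S : Set (Fin 4 → ℝ) := {u | (∀ i, |u i| ≤ 2 / η + 1) ∧
    ∃ a : Fin 4 → ℤ, u = g *ᵥ fun j => (a j : ℝ)}
  have hS : Submodule.span ℝ S = ⊤ := by
    by_contra hne
    obtain ⟨f, hf0, hf⟩ := Submodule.exists_le_ker_of_lt_top _ (lt_top_iff_ne_top.2 hne)
    let φ₀ : Fin 4 → ℝ := fun i => f (Pi.single i 1)
    have hφ₀ : ∀ u, f u = φ₀ ⬝ᵥ u := by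
      intro u
      conv_lhs => rw [pi_eq_sum_univ' u]
      simp only [map_sum, map_smul, smul_eq_mul, φ₀, dotProduct, mul_comm]
    obtain ⟨j, hj⟩ := Finite.exists_max fun i => |φ₀ i|
    have hj0 : φ₀ j ≠ 0 := by
      intro h0
      refine hf0 (LinearMap.ext fun u => ?_)
      have : φ₀ = 0 := funext fun i => abs_nonpos_iff.1 (by simpa [h0] using hj i)
      rw [hφ₀, this]
      simp
    let φ : Fin 4 → ℝ := (φ₀ j)⁻¹ • φ₀
    have hφj : φ j = 1 := by simp [φ, hj0]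
    have hφ : ∀ i, |φ i| ≤ 1 := by
      intro i
      simp only [φ, Pi.smul_apply, smul_eq_mul, abs_mul, abs_inv]
      rw [inv_mul_le_iff₀ (abs_pos.2 hj0), mul_one]
      exact hj i
    let k : CocptM ℝ := updateRow 1 j ((η / 11) • φ)
    have hk : k.det = η / 11 := by
      have := det_updateRow_sum (1 : CocptM ℝ) j ((η / 11) • φ)
      have e : (∑ l, ((η / 11) • φ) l • (1 : CocptM ℝ) l) = (η / 11) • φ := by
        ext i
        simp only [Finset.sum_apply, Pi.smul_apply, one_apply, smul_eq_mul, mul_ite, mul_one,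
          mul_zero, Finset.sum_ite_eq', Finset.mem_univ, if_true]
      rw [e] at this
      rw [this]
      simp [hφj]
    have hη2 : |η / 11| = η / 11 := abs_of_pos (by positivity)
    obtain ⟨a, hv0, hv1⟩ := hm (k * g)
      (by
        rw [det_mul, hk]
        exact mul_ne_zero (by positivity) hg0)
      (by rw [det_mul, hk, abs_mul, hη2]; nlinarith)
    set u := g *ᵥ fun j => (a j : ℝ) with hu
    rw [← mulVec_mulVec, ← hu] at hv1
    have h1 : ∀ i, i ≠ j → |u i| ≤ 1 / 8 := by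
      intro i hi
      have := hv1 i
      rwa [mulVec, show (fun l => k i l) = (1 : CocptM ℝ) i from updateRow_ne hi,
        show (1 : CocptM ℝ) i ⬝ᵥ u = u i from congrFun (one_mulVec u) i] at this
    have h2 : |φ ⬝ᵥ u| ≤ 11 / 8 / η := by
      have := hv1 j
      simp only [k, mulVec, updateRow_self, smul_dotProduct, smul_eq_mul, abs_mul,
        hη2] at this
      rw [le_div_iff₀ hη]
      linarith
    have h3 : |u j| ≤ |φ ⬝ᵥ u| + 3 / 8 := by
      have e : u j = φ ⬝ᵥ u - ∑ i ∈ Finset.univ.erase j, φ i * u i := by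
        rw [dotProduct, ← Finset.add_sum_erase _ _ (Finset.mem_univ j), hφj]
        ring
      have e2 : |∑ i ∈ Finset.univ.erase j, φ i * u i| ≤ 3 / 8 := by
        refine (Finset.abs_sum_le_sum_abs _ _).trans ?_
        refine (Finset.sum_le_card_nsmul _ _ (1 / 8) fun i hi => ?_).trans ?_
        · rw [abs_mul]
          have := mul_le_mul (hφ i) (h1 i (Finset.ne_of_mem_erase hi)) (abs_nonneg _) zero_le_one
          linarith
        · rw [Finset.card_erase_of_mem (Finset.mem_univ j)]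
          norm_num
      rw [e]
      exact (abs_sub _ _).trans (by linarith)
    have hp : 0 < 2 / η := by positivity
    have hp' : 11 / 8 / η ≤ 2 / η := by gcongr; norm_num
    have huS : u ∈ S := by
      refine ⟨fun i => ?_, a, rfl⟩
      by_cases hi : i = j
      · rw [hi]; linarith
      · linarith [h1 i hi]
    have h4 : φ ⬝ᵥ u = 0 := by
      have : f u = 0 := hf (Submodule.subset_span huS)
      rw [hφ₀] at this
      simp [φ, this]
    rw [h4, abs_zero] at h3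
    refine hv0 (hs a fun i => ?_)
    rw [← hu]
    by_cases hi : i = j
    · rw [hi]; linarith
    · linarith [h1 i hi]
  have h3 : Module.finrank ℝ (Submodule.span ℝ S) = 4 := by rw [hS]; simp
  obtain ⟨u, huS, hli⟩ : ∃ u : Fin 4 → Fin 4 → ℝ, (∀ i, u i ∈ S) ∧ LinearIndependent ℝ u := by
    obtain ⟨f, hf1, -, hf2⟩ := Submodule.exists_fun_fin_finrank_span_eq ℝ S
    exact ⟨f ∘ Fin.cast h3.symm, fun i => hf1 _, hf2.comp _ (Fin.cast_injective _)⟩
  choose hu1 a hv using huS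
  have e : ∀ i j, (g * cocptC (Matrix.of fun i j => a j i)) i j = u j i := by
    intro i j
    rw [hv j]
    rfl
  refine ⟨Matrix.of fun i j => a j i, fun h0 => ?_, fun i j => (e i j).symm ▸ hu1 j i⟩
  have h4 : IsUnit (g * cocptC (Matrix.of fun i j => a j i)) := by
    rw [← linearIndependent_cols_iff_isUnit]
    have : (g * cocptC (Matrix.of fun i j => a j i)).col = u := by
      ext j i
      exact e i j
    rw [this]
    exact hli
  rw [isUnit_iff_isUnit_det, det_mul, cocptC_det, h0, Int.cast_zero, mul_zero] at h4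
  exact not_isUnit_zero h4

/-- The matrix of the lattice basis. -/
noncomputable def cocptP (lam : ℕ) : CocptM ℝ :=
  !![√7, 0, 0, 0; 0, 1, 0, 0; 0, 0, 4 / 5, -3 / 5 * √lam; 0, 0, 3 / 5, 4 / 5 * √lam]

/-- The matrix of the form. -/
def cocptQ (lam : ℕ) : CocptM ℤ := diagonal ![-7, 1, 1, lam]

lemma cocpt_lat (lam : ℕ) (c : Fin 4 → ℤ) : lat lam c = cocptP lam *ᵥ fun i => (c i : ℝ) := by
  ext i
  fin_cases i <;>
    simp [lat, cocptP, vo, ex, e2, dd, mulVec, dotProduct, Fin.sum_univ_four] <;> ring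

lemma cocpt_lor (lam : ℕ) (y z : Fin 4 → ℝ) :
    lor (cocptP lam *ᵥ y) (cocptP lam *ᵥ z) = y ⬝ᵥ cocptC (cocptQ lam) *ᵥ z := by
  have h7 := Real.mul_self_sqrt (by norm_num : (0 : ℝ) ≤ 7)
  have hl := Real.mul_self_sqrt (Nat.cast_nonneg lam : (0 : ℝ) ≤ lam)
  simp [lor, cocptP, cocptC, cocptQ, mulVec, dotProduct, Fin.sum_univ_four, diagonal_apply]
  linear_combination (-(y 0 * z 0)) * h7 + (y 3 * z 3) * hl

lemma cocpt_det (lam : ℕ) : (cocptP lam).det = √7 * √lam := by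
  simp [cocptP, Matrix.det_succ_row_zero, Fin.sum_univ_succ, Fin.succAbove]
  ring

lemma cocpt_det_bounds {lam : ℕ} (hlam : lam = 1 ∨ lam = 17) :
    1 ≤ (cocptP lam).det ∧ (cocptP lam).det ≤ 11 := by
  rw [cocpt_det, ← Real.sqrt_mul (by norm_num)]
  rcases hlam with rfl | rfl
  · exact ⟨Real.le_sqrt_of_sq_le (by norm_num), Real.sqrt_le_iff.2 (by norm_num)⟩
  · exact ⟨Real.le_sqrt_of_sq_le (by norm_num), Real.sqrt_le_iff.2 (by norm_num)⟩

/-- The Gram matrix of an integer frame. -/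
def cocptG (lam : ℕ) (A : CocptM ℤ) : CocptM ℤ := Aᵀ * cocptQ lam * A

lemma cocptG_form (lam : ℕ) (A : CocptM ℤ) (y z : Fin 4 → ℝ) :
    lor (cocptP lam *ᵥ (cocptC A *ᵥ y)) (cocptP lam *ᵥ (cocptC A *ᵥ z)) =
      y ⬝ᵥ cocptC (cocptG lam A) *ᵥ z := by
  rw [cocpt_lor, cocptG, cocptC_mul, cocptC_mul, ← mulVec_mulVec, ← mulVec_mulVec,
    show cocptC Aᵀ = (cocptC A)ᵀ from rfl, dotProduct_mulVec y, vecMul_transpose]

lemma cocpt_frame {lam : ℕ} (hlam : lam = 1 ∨ lam = 17) : ∃ (L : ℝ) (N : ℕ), ∀ x, Fut x →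
    ∃ A : CocptM ℤ, A.det ≠ 0 ∧ |A.det| ≤ N ∧ (∀ i j, |cocptG lam A i j| ≤ N) ∧
      ∀ j, |lor x (cocptP lam *ᵥ (cocptC A *ᵥ Pi.single j 1))| ≤ L := by
  obtain ⟨L, hL⟩ := cocpt_many
  obtain ⟨N, hN⟩ := exists_nat_ge (24 * L ^ 4 + 4 * L ^ 2)
  refine ⟨L, N, fun x hx => ?_⟩
  obtain ⟨g, rfl⟩ := exists_fut hx
  obtain ⟨d1, d2⟩ := cocpt_det_bounds hlam
  let M : CocptM ℝ := LinearMap.toMatrix' (rho g⁻¹ : V →ₗ[ℝ] V) * cocptP lam
  have hM : ∀ y, M *ᵥ y = rho g⁻¹ (cocptP lam *ᵥ y) := fun y => by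
    rw [← mulVec_mulVec, LinearMap.toMatrix'_mulVec]
  have hd : |M.det| = (cocptP lam).det := by
    rw [det_mul, abs_mul, LinearMap.det_toMatrix', abs_det_rho, one_mul,
      abs_of_pos (by linarith)]
  obtain ⟨A, hA, hb⟩ := hL M (abs_pos.1 (by linarith)) (by linarith) fun a ha => by
    refine aniso hlam a ?_
    have h1 := abs_lor_le (M *ᵥ fun j => (a j : ℝ)) (M *ᵥ fun j => (a j : ℝ))
    have h2 : ‖M *ᵥ fun j => (a j : ℝ)‖ ≤ 3 / 8 := (pi_norm_le_iff_of_nonneg (by norm_num)).2 ha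
    have h3 : 4 * ‖M *ᵥ fun j => (a j : ℝ)‖ * ‖M *ᵥ fun j => (a j : ℝ)‖ ≤ 4 * (3 / 8) * (3 / 8) := by
      gcongr
    rw [hM, lor_rho, ← cocpt_lat] at h1
    rw [hM, ← cocpt_lat] at h3
    rw [lor_lat] at h1 ⊢
    have h4 : |-7 * a 0 * a 0 + a 1 * a 1 + a 2 * a 2 + lam * a 3 * a 3| < 1 := by
      rw [← Int.cast_lt (R := ℝ), Int.cast_abs, Int.cast_one]
      linarith
    rw [Int.abs_lt_one_iff.1 h4, Int.cast_zero]
  have L0 : 0 ≤ L := (abs_nonneg _).trans (hb 0 0)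
  have hc : ∀ j i, rho g⁻¹ (cocptP lam *ᵥ (cocptC A *ᵥ Pi.single j 1)) i = (M * cocptC A) i j :=
    fun j i => by rw [← hM, mulVec_mulVec, mulVec_single_one]; rfl
  have hn : ∀ j, ‖rho g⁻¹ (cocptP lam *ᵥ (cocptC A *ᵥ Pi.single j 1))‖ ≤ L := fun j =>
    (pi_norm_le_iff_of_nonneg L0).2 fun i => by rw [hc]; exact hb i j
  refine ⟨A, hA, ?_, fun i j => ?_, fun j => ?_⟩
  · have h1 := Matrix.det_le (abv := AbsoluteValue.abs) hb
    simp only [AbsoluteValue.abs_apply, det_mul, abs_mul, hd, cocptC_det, Fintype.card_fin,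
      nsmul_eq_mul] at h1
    rw [← Int.cast_le (R := ℝ), Int.cast_abs, Int.cast_natCast]
    norm_num [Nat.factorial] at h1
    nlinarith [abs_nonneg (A.det : ℝ), sq_nonneg L]
  · have h1 := abs_lor_le (rho g⁻¹ (cocptP lam *ᵥ (cocptC A *ᵥ Pi.single i 1)))
      (rho g⁻¹ (cocptP lam *ᵥ (cocptC A *ᵥ Pi.single j 1)))
    have h2 := mul_le_mul (hn i) (hn j) (norm_nonneg _) L0
    rw [lor_rho, cocptG_form, mulVec_single_one, single_one_dotProduct] at h1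
    rw [← Int.cast_le (R := ℝ), Int.cast_abs, Int.cast_natCast]
    change |(cocptG lam A i j : ℝ)| ≤ _ at h1
    nlinarith [pow_nonneg L0 4]
  · rw [lor_rho_left, lor_vo_left, abs_neg, hc]
    exact hb 0 j

lemma cocpt_int {q : ℕ} {A A' : CocptM ℤ} (h : ∀ i j, q * A.det ∣ A' i j - A i j) :
    ∃ B : CocptM ℤ, (1 + (q : ℤ) • B) * A = A' := by
  choose b hb using h
  refine ⟨Matrix.of b * A.adjugate, ?_⟩
  rw [Matrix.add_mul, Matrix.one_mul, Matrix.smul_mul, Matrix.mul_assoc, adjugate_mul]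
  ext i j
  simp only [Matrix.add_apply, Matrix.mul_smul, Matrix.mul_one, Matrix.smul_apply, of_apply,
    smul_eq_mul]
  linarith [hb i j]

lemma cocpt_surj {M : CocptM ℝ} (h : M.det ≠ 0) (v : Fin 4 → ℝ) : ∃ y, M *ᵥ y = v :=
  ⟨M⁻¹ *ᵥ v, by rw [mulVec_mulVec, mul_nonsing_inv _ h.isUnit, one_mulVec]⟩

lemma cocpt_cong {lam q : ℕ} {g : G} {B : CocptM ℤ}
    (h : ∀ y, rho g (cocptP lam *ᵥ y) = cocptP lam *ᵥ (cocptC (1 + (q : ℤ) • B) *ᵥ y)) :
    Cong lam q g := fun c => by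
  refine ⟨B *ᵥ c, ?_⟩
  rw [cocpt_lat lam c, h, cocptC_mulVec, ← cocpt_lat, ← cocpt_lat, ← lat_nsmul, ← lat_add,
    add_mulVec, one_mulVec, smul_mulVec, natCast_zsmul]

lemma cocpt_move {lam q : ℕ} (hP : (cocptP lam).det ≠ 0) {A A' : CocptM ℤ} (hA : A.det ≠ 0)
    (hd : A'.det = A.det) (hG : cocptG lam A' = cocptG lam A)
    (h : ∀ i j, q * A.det ∣ A' i j - A i j) {a : Fin 4 → ℝ}
    (ha : a ⬝ᵥ cocptC (cocptG lam A) *ᵥ a < 0)
    (hs : 0 < (cocptP lam *ᵥ (cocptC A' *ᵥ a)) 0 ↔ 0 < (cocptP lam *ᵥ (cocptC A *ᵥ a)) 0) :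
    ∃ g ∈ LL lam q, ∀ y, rho g (cocptP lam *ᵥ (cocptC A *ᵥ y)) =
      cocptP lam *ᵥ (cocptC A' *ᵥ y) := by
  obtain ⟨B, hB⟩ := cocpt_int h
  obtain ⟨B', hB'⟩ := cocpt_int (q := q) (A := A') (A' := A) fun i j => by
    rw [hd]; exact dvd_sub_comm.1 (h i j)
  set T := 1 + (q : ℤ) • B
  set T' := 1 + (q : ℤ) • B'
  have hA' : (cocptC A).det ≠ 0 := by rw [cocptC_det]; exact_mod_cast hA
  have dT : T.det = 1 := by
    have := congrArg Matrix.det hB
    rw [det_mul, hd] at this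
    exact mul_right_cancel₀ hA (by rw [this, one_mul])
  let τ : V →ₗ[ℝ] V := Matrix.toLin' (cocptP lam * cocptC T * (cocptP lam)⁻¹)
  have t1 : ∀ y, τ (cocptP lam *ᵥ y) = cocptP lam *ᵥ (cocptC T *ᵥ y) := fun y => by
    rw [Matrix.toLin'_apply, mulVec_mulVec, nonsing_inv_mul_cancel_right _ _ hP.isUnit,
      mulVec_mulVec]
  have t2 : ∀ y, τ (cocptP lam *ᵥ (cocptC A *ᵥ y)) = cocptP lam *ᵥ (cocptC A' *ᵥ y) := fun y => by
    rw [t1, mulVec_mulVec y (cocptC T), ← cocptC_mul, hB]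
  have sj : ∀ v, ∃ y, cocptP lam *ᵥ (cocptC A *ᵥ y) = v := fun v => by
    obtain ⟨y, rfl⟩ := cocpt_surj hP v
    obtain ⟨z, rfl⟩ := cocpt_surj hA' y
    exact ⟨z, rfl⟩
  have t3 : ∀ v w, lor (τ v) (τ w) = lor v w := fun v w => by
    obtain ⟨y, rfl⟩ := sj v
    obtain ⟨z, rfl⟩ := sj w
    rw [t2, t2, cocptG_form, cocptG_form, hG]
  have t4 : ∀ u : V, lor u u < 0 → 0 < u 0 → 0 < τ u 0 → 0 < τ vo 0 := fun u h1 h2 h3 =>
    pos_of_lor_neg (y := τ u) ⟨by rw [t3]; exact h1.le, h3⟩ (by rw [t3]; simp)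
      (by rw [t3, lor_vo_right]; linarith)
  have t5 : 0 < τ vo 0 := by
    rw [← cocptG_form] at ha
    rw [← t2] at hs
    set u := cocptP lam *ᵥ (cocptC A *ᵥ a)
    rcases lt_or_gt_of_ne (timelike_ne ha) with h1 | h1
    · have h2 : τ u 0 ≠ 0 := timelike_ne (by rw [t3]; exact ha)
      have h3 : τ u 0 < 0 := lt_of_le_of_ne (not_lt.1 fun h => absurd (hs.1 h) h1.not_gt) h2
      exact t4 (-u) (by simpa using ha) (by simpa using h1) (by simpa using h3)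
    · exact t4 u ha h1 (hs.2 h1)
  obtain ⟨g, hg⟩ := exists_lift τ t3 t5 (by
    rw [LinearMap.det_toLin', det_mul, det_mul, cocptC_det, dT, det_nonsing_inv,
      Ring.inverse_eq_inv', Int.cast_one, mul_one, mul_inv_cancel₀ hP])
  refine ⟨g, ⟨cocpt_cong (B := B) fun y => by rw [hg, t1], cocpt_cong (B := B') fun y => ?_⟩,
    fun y => by rw [hg, t2]⟩
  obtain ⟨z, rfl⟩ := cocpt_surj (M := cocptC A') (by rwa [cocptC_det, hd, ← cocptC_det]) y
  rw [← t2, ← hg, rho_inv_rho, mulVec_mulVec z (cocptC T'), ← cocptC_mul, hB']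

lemma cocpt_bound {lam : ℕ} (hP : (cocptP lam).det ≠ 0) (L : ℝ) (A : CocptM ℤ) : ∃ C : ℝ,
    A.det ≠ 0 → ∀ y : V, (∀ j, |lor y (cocptP lam *ᵥ (cocptC A *ᵥ Pi.single j 1))| ≤ L) →
      y 0 ≤ C := by
  by_cases hA : A.det = 0
  · exact ⟨0, fun h => absurd hA h⟩
  obtain ⟨w, hw⟩ := cocpt_surj hP vo
  obtain ⟨b, rfl⟩ := cocpt_surj (M := cocptC A) (by rw [cocptC_det]; exact_mod_cast hA) w
  refine ⟨∑ j, |b j| * L, fun _ y hy => ?_⟩
  have e : lor y vo = ∑ j, b j * lor y (cocptP lam *ᵥ (cocptC A *ᵥ Pi.single j 1)) := by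
    rw [← hw]
    conv_lhs => rw [pi_eq_sum_univ' b]
    simp only [Fin.sum_univ_four, mulVec_add, mulVec_smul, lor_add_right, lor_smul_right]
  rw [lor_vo_right] at e
  have h1 := neg_le_abs (∑ j, b j * lor y (cocptP lam *ᵥ (cocptC A *ᵥ Pi.single j 1)))
  have h2 := (Finset.abs_sum_le_sum_abs
    (fun j => b j * lor y (cocptP lam *ᵥ (cocptC A *ᵥ Pi.single j 1))) Finset.univ).trans
    (Finset.sum_le_sum fun j _ => (abs_mul _ _).le.trans
      (mul_le_mul_of_nonneg_left (hy j) (abs_nonneg (b j))))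
  linarith

lemma cocpt_rep {α β : Type} {S : Set α} (t : α → β) (h : (t '' S).Finite) (f : α → ℝ) :
    ∃ C : ℝ, ∀ a ∈ S, ∃ a' ∈ S, t a' = t a ∧ f a' ≤ C := by
  obtain ⟨S', h1, h2, h3⟩ := Set.Finite.exists_subset_finite_image_eq h (Subset.refl _)
  obtain ⟨C, hC⟩ := (h2.image f).bddAbove
  refine ⟨C, fun a ha => ?_⟩
  obtain ⟨a', k1, k2⟩ : t a ∈ t '' S' := by rw [h3]; exact mem_image_of_mem t ha
  exact ⟨a', h1 k1, k2, hC (mem_image_of_mem f k1)⟩

/-- Congruence subgroups of anisotropic forms are cocompact. -/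
theorem cocpt_LL {lam : ℕ} (hlam : lam = 1 ∨ lam = 17) {q : ℕ} (hq : 3 ≤ q) :
    ∃ C : ℝ, ∀ x, Fut x → ∃ g ∈ LL lam q, rho g x 0 ≤ C := by
  obtain ⟨L, N, hN⟩ := cocpt_frame hlam
  have hP : (cocptP lam).det ≠ 0 := by linarith [(cocpt_det_bounds hlam).1]
  choose f hf using cocpt_bound hP L
  have : NeZero (q * N.factorial) := ⟨mul_ne_zero (by omega) N.factorial_ne_zero⟩
  let av : CocptM ℤ → Fin 4 → ℝ := fun Gr => Classical.epsilon fun a => a ⬝ᵥ cocptC Gr *ᵥ a < 0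
  let t : CocptM ℤ → (CocptM ℤ × ℤ) × CocptM (ZMod (q * N.factorial)) × Prop := fun A =>
    ((cocptG lam A, A.det), A.map fun z => (z : ZMod (q * N.factorial)),
      0 < (cocptP lam *ᵥ (cocptC A *ᵥ av (cocptG lam A))) 0)
  let S : Set (CocptM ℤ) := {A | A.det ≠ 0 ∧ |A.det| ≤ N ∧ ∀ i j, |cocptG lam A i j| ≤ N}
  have hI := Set.finite_Icc (-(N : ℤ)) N
  have hF : {Gr : CocptM ℤ | ∀ i j, Gr i j ∈ Icc (-(N : ℤ)) N}.Finite :=
    Set.Finite.pi' (t := fun _ : Fin 4 => {v : Fin 4 → ℤ | ∀ j, v j ∈ Icc (-(N : ℤ)) N})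
      fun _ => Set.Finite.pi' fun _ => hI
  obtain ⟨C, hC⟩ := cocpt_rep (S := S) t (((hF.prod hI).prod Set.finite_univ).subset (by
    rintro _ ⟨A, hA, rfl⟩
    exact ⟨⟨fun i j => abs_le.1 (hA.2.2 i j), abs_le.1 hA.2.1⟩, trivial⟩)) f
  refine ⟨C, fun x hx => ?_⟩
  obtain ⟨A, a1, a2, a3, a4⟩ := hN x hx
  obtain ⟨A', b1, b2, b3⟩ := hC A ⟨a1, a2, a3⟩
  simp only [t, Prod.mk.injEq] at b2
  obtain ⟨⟨c1, c2⟩, c3, c4⟩ := b2
  rw [c1] at c4
  obtain ⟨g, hg, hg'⟩ := cocpt_move (q := q) hP a1 c2 c1 (a := av (cocptG lam A))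
    (fun i j => by
      have h1 : ((A i j : ℤ) : ZMod (q * N.factorial)) = (A' i j : ℤ) :=
        (congrFun (congrFun c3 i) j).symm
      rw [ZMod.intCast_eq_intCast_iff_dvd_sub] at h1
      refine dvd_trans ?_ h1
      push_cast
      refine mul_dvd_mul_left _ (Int.natAbs_dvd.1 (Int.natCast_dvd_natCast.2 ?_))
      exact Nat.dvd_factorial (Int.natAbs_pos.2 a1)
        (by rw [← Int.natCast_natAbs] at a2; exact_mod_cast a2))
    (by
      refine Classical.epsilon_spec (p := fun a => a ⬝ᵥ cocptC (cocptG lam A) *ᵥ a < 0) ?_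
      obtain ⟨w, hw⟩ := cocpt_surj hP vo
      obtain ⟨b, rfl⟩ := cocpt_surj (M := cocptC A) (by rw [cocptC_det]; exact_mod_cast a1) w
      exact ⟨b, by rw [← cocptG_form, hw]; simp⟩) (iff_of_eq c4)
  refine ⟨g, hg, (hf A' b1.1 _ fun j => ?_).trans b3⟩
  rw [← hg', lor_rho]
  exact a4 j

end Pool.Agent.MP_7a4cc0_an

end

section

open Matrix MeasureTheory Set Topology Filter
open scoped ENNReal NNReal CompactlySupported

namespace Pool.Agent.MP_7a4cc0_an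

/-- The orbit of a vector up to sign. -/
def piecePM (Γ : Subgroup G) (n : V) : Set V := {m | ∃ g ∈ Γ, m = rho g n ∨ m = -rho g n}

lemma piecePM_unit {Γ : Subgroup G} {n m : V} (hn : lor n n = 1) (hm : m ∈ piecePM Γ n) :
    lor m m = 1 := by
  obtain ⟨g, -, rfl | rfl⟩ := hm <;> simpa using hn

lemma piecePM_neg {Γ : Subgroup G} {n m : V} (hm : m ∈ piecePM Γ n) : -m ∈ piecePM Γ n := by
  obtain ⟨g, hg, rfl | rfl⟩ := hm
  · exact ⟨g, hg, Or.inr rfl⟩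
  · exact ⟨g, hg, Or.inl (neg_neg _)⟩

lemma piecePM_inv {Γ : Subgroup G} {n m : V} {g : G} (hg : g ∈ Γ) (hm : m ∈ piecePM Γ n) :
    rho g m ∈ piecePM Γ n := by
  obtain ⟨h, hh, rfl | rfl⟩ := hm
  · exact ⟨g * h, Γ.mul_mem hg hh, Or.inl (rho_mul _ _ _).symm⟩
  · exact ⟨g * h, Γ.mul_mem hg hh, Or.inr (by rw [map_neg, rho_mul])⟩

lemma piecePM_mono {Γ Γ' : Subgroup G} (h : Γ ≤ Γ') {n m : V} (hm : m ∈ piecePM Γ n) :
    m ∈ piecePM Γ' n := by
  obtain ⟨g, hg, h'⟩ := hm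
  exact ⟨g, h hg, h'⟩

lemma piecePM_abs {Γ : Subgroup G} {n m : V} (hm : m ∈ piecePM Γ n) (e : V) :
    ∃ g ∈ Γ, |lor m e| = |lor (rho g n) e| := by
  obtain ⟨g, hg, rfl | rfl⟩ := hm
  · exact ⟨g, hg, rfl⟩
  · exact ⟨g, hg, by simp⟩

lemma piece_lor_rho (g h : G) (n n' : V) :
    lor (rho g n) (rho h n') = lor (rho (h⁻¹ * g) n) n' := by
  rw [lor_rho_right, rho_mul]

lemma piecePM_cross {Γ : Subgroup G} {n n' m m' : V} {Q : ℝ}
    (h : ∀ g ∈ Γ, Q ≤ |lor (rho g n) n'|) (hm : m ∈ piecePM Γ n) (hm' : m' ∈ piecePM Γ n') :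
    Q ≤ |lor m m'| := by
  obtain ⟨g, hg, h1⟩ := hm
  obtain ⟨g', hg', h2⟩ := hm'
  have := h _ (Γ.mul_mem (Γ.inv_mem hg') hg)
  rw [← piece_lor_rho] at this
  rcases h1 with rfl | rfl <;> rcases h2 with rfl | rfl <;> simpa using this

lemma piecePM_sep {Γ : Subgroup G} {n m m' : V} {Q : ℝ}
    (h : ∀ g ∈ Γ, rho g n = n ∨ Q ≤ |lor (rho g n) n|) (hm : m ∈ piecePM Γ n)
    (hm' : m' ∈ piecePM Γ n) : m' = m ∨ m' = -m ∨ Q ≤ |lor m m'| := by
  obtain ⟨g, hg, h1⟩ := hm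
  obtain ⟨g', hg', h2⟩ := hm'
  rcases h _ (Γ.mul_mem (Γ.inv_mem hg') hg) with h3 | h3
  · have h4 : rho g n = rho g' n := by
      rw [rho_mul] at h3
      rw [← rho_rho_inv g' (rho g n), h3]
    rcases h1 with rfl | rfl <;> rcases h2 with rfl | rfl <;> simp [h4]
  · rw [← piece_lor_rho] at h3
    refine Or.inr (Or.inr ?_)
    rcases h1 with rfl | rfl <;> rcases h2 with rfl | rfl <;> simpa using h3

lemma piece_abs_le {x v : V} (hx : Fut x) {C : ℝ} (h : x 0 ≤ C) : |lor x v| ≤ 4 * C * ‖v‖ :=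
  (abs_lor_le x v).trans (by gcongr; exact hx.norm_le.trans h)

lemma piece_sqrt_le {s R : ℝ} (h : |s| ≤ R) : √(1 + s ^ 2) ≤ 1 + R := by
  have h0 := abs_nonneg s
  refine Real.sqrt_le_iff.2 ⟨by linarith, ?_⟩
  nlinarith [sq_abs s]

/-- The first wall seen from `x` in the direction of the wall `m`. -/
lemma piece_first {W M : Set V} (unit : ∀ m ∈ W, lor m m = 1) (hMW : M ⊆ W)
    (first : ∀ y : V, lor y y < 0 → 0 < y 0 → ∀ m ∈ W, lor vo m < 0 → 0 ≤ lor y m →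
      ∃ m' ∈ M, 0 ≤ lor y m') {x m : V} (hx : Fut x) (hm : m ∈ W) (ho : lor vo m < 0) :
    ∃ m' ∈ M, -|lor x m| ≤ lor x m' ∧ ∃ y, Cone y ∧ lor y m = 0 ∧ 0 ≤ lor y m' := by
  obtain ⟨h1, h2⟩ := proj_timelike hx (unit m hm)
  have h3 : lor (x - lor x m • m) (x - lor x m • m) < 0 := by
    rw [h1]
    nlinarith [sq_nonneg (lor x m)]
  have h4 : lor (x - lor x m • m) m = 0 := by
    rw [lor_sub_left, lor_smul_left, unit m hm]
    ring
  obtain ⟨m', hm', h5⟩ := first _ h3 h2 m hm ho h4.ge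
  exact ⟨m', hm', lor_proj hx (unit m hm) (unit m' (hMW hm')) h5, _, ⟨h3.le, h2⟩, h4, h5⟩

theorem piece_abstract (L₀ : Subgroup G) {d v : V} (hd : lor d d = 1) (hdo : lor vo d = 0)
    (hv : lor v v = 1) (hvd : lor v d ≤ -2) (hvo : lor vo v < 0)
    (A1 : ∀ g ∈ L₀, rho g v = v ∨ 2 ≤ |lor (rho g v) v|)
    (A2 : ∀ g ∈ L₀, 2 ≤ |lor (rho g v) d|)
    (cc : ∃ C : ℝ, ∀ x, Fut x → ∃ g ∈ L₀, rho g x 0 ≤ C) (lf : LocFin (orb L₀ d)) :
    ∃ R₀ Q₁ : ℝ, ∀ (L : Subgroup G) (Q : ℝ), L ≤ L₀ → Q₁ ≤ Q →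
      (∀ g ∈ L, rho g d = d ∨ Q ≤ |lor (rho g d) d|) →
      (∃ C : ℝ, ∀ x, Fut x → ∃ g ∈ L, rho g x 0 ≤ C) →
      (∃ U ∈ 𝓝 (1 : G), ∀ g ∈ L, g ∈ U → g = 1) →
      ∃ (Gs : Subgroup G) (B F : Set V), Piece d Gs B R₀ ∧ Gs ≤ L ∧
        (∀ g ∈ L, rho g d = d → g ∈ Gs) ∧
        ((∀ m ∈ F, lor m m = 1) ∧ (∀ m ∈ F, ∀ m' ∈ F, m ≠ m' → lor m m' ≤ -Q) ∧
          (∀ m ∈ F, lor m d ≤ -Q) ∧ ∀ y, Cone y → lor y d = 0 → ∀ m ∈ F, lor y m < 0) ∧
        ∀ e : V, lor e e = 1 → lor vo e = 0 → (∀ g ∈ L₀, 1 < |lor (rho g v) e|) →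
          ∀ x, Fut x → lor x e = 0 → lor x d ≤ 0 → (∀ m ∈ F, lor x m ≤ 0) →
          (∀ b ∈ B, lor x b ≤ 0) ∧ ∀ g ∈ Gs, lor x (rho g d) ≤ 0 := by
  obtain ⟨C₀, hC₀⟩ := cc
  obtain ⟨R₁, hR₁⟩ : ∃ R₁, R₁ = 4 * C₀ * ‖v‖ := ⟨_, rfl⟩
  obtain ⟨C₁, hC₁⟩ := stab_cocpt L₀ {x | Fut x ∧ |lor x d| ≤ R₁} (fun x hx => hx.1) d lf R₁ C₀
    (fun x hx => hx.2) fun x hx => hC₀ x hx.1
  obtain ⟨R₃, hR₃⟩ : ∃ R₃, R₃ = 4 * C₁ * ‖v‖ := ⟨_, rfl⟩
  have hco : Cone vo := fut_vo.cone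
  refine ⟨max 0 (max R₁ R₃), max 2 ((1 + R₃) * (1 + R₁) + R₃ * R₁ + 1), ?_⟩
  intro L Q hL hQ A3 ccL hdisc
  have hQ2 : 2 ≤ Q := (le_max_left _ _).trans hQ
  have hQ3 : (1 + R₃) * (1 + R₁) + R₃ * R₁ + 1 ≤ Q := (le_max_right _ _).trans hQ
  have hdd : d ∈ piecePM L d := ⟨1, L.one_mem, Or.inl (rho_one d).symm⟩
  have unit : ∀ m ∈ piecePM L₀ v ∪ piecePM L d, lor m m = 1 := fun m hm =>
    hm.elim (piecePM_unit hv) (piecePM_unit hd)
  obtain ⟨Gs, M, hGs, hstab, hMW, hdM, hinv, hsep, hneg, ⟨C, hC⟩, first⟩ :=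
    walls L (piecePM L₀ v ∪ piecePM L d) d hdo (Or.inr hdd) unit
      (fun m hm => hm.imp piecePM_neg piecePM_neg)
      (fun g hg m hm => hm.imp (piecePM_inv (hL hg)) (piecePM_inv hg))
      (by
        rintro m (hm | hm) m' (hm' | hm')
        · exact piecePM_sep A1 hm hm'
        · exact Or.inr (Or.inr (piecePM_cross A2 hm (piecePM_mono hL hm')))
        · refine Or.inr (Or.inr ?_)
          rw [lor_comm]
          exact piecePM_cross A2 hm' (piecePM_mono hL hm)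
        · exact (piecePM_sep A3 hm hm').imp_right (Or.imp_right hQ2.trans)) ccL
  have hdorb : d ∈ orb Gs d := ⟨1, Gs.one_mem, rho_one d⟩
  have hBd : ∀ b ∈ M \ orb Gs d, b ≠ d := fun b hb h => hb.2 (h ▸ hdorb)
  have hBinv : ∀ g ∈ Gs, ∀ b ∈ M \ orb Gs d, rho g b ∈ M \ orb Gs d := by
    rintro g hg b ⟨hb, hb'⟩
    refine ⟨hinv g hg b hb, ?_⟩
    rintro ⟨h, hh, h1⟩
    exact hb' ⟨g⁻¹ * h, Gs.mul_mem (Gs.inv_mem hg) hh, by rw [rho_mul, h1, rho_inv_rho]⟩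
  have hall : ∀ x, (∀ b ∈ M \ orb Gs d, lor x b ≤ 0) → (∀ g ∈ Gs, lor x (rho g d) ≤ 0) →
      ∀ m ∈ M, lor x m ≤ 0 := by
    intro x h1 h2 m hm
    by_cases h : m ∈ orb Gs d
    · obtain ⟨g, hg, rfl⟩ := h
      exact h2 g hg
    · exact h1 m ⟨hm, h⟩
  have hfar : ∀ m ∈ M, m ∈ piecePM L d → ∀ m' ∈ M, m' ∈ piecePM L d → m ≠ m' →
      lor m m' ≤ -Q := by
    intro m hm h1 m' hm' h2 hne
    have h3 := hsep m hm m' hm' hne
    rcases piecePM_sep A3 h1 h2 with h | h | h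
    · exact (hne h.symm).elim
    · rw [h, lor_neg_right, piecePM_unit hd h1] at h3
      linarith
    · rw [abs_of_nonpos (by linarith)] at h
      linarith
  refine ⟨Gs, M \ orb Gs d, {m | m ∈ M ∧ m ≠ d ∧ m ∈ piecePM L d},
    ⟨le_max_left _ _, fun b hb => unit b (hMW hb.1), hBinv,
      fun b hb b' hb' => hsep b hb.1 b' hb'.1, fun b hb => hsep b hb.1 d hdM (hBd b hb),
      fun b hb => hneg b hb.1 (hBd b hb), fun g hg => ?_, ?_,
      ⟨C, fun x hx h1 h2 => hC x hx (hall x h1 h2)⟩, ?_⟩, hGs, hstab,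
    ⟨fun m hm => unit m (hMW hm.1), fun m hm m' hm' => hfar m hm.1 hm.2.2 m' hm'.1 hm'.2.2,
      fun m hm => hfar m hm.1 hm.2.2 d hdM hdd hm.2.1, fun y hy hyd m hm => ?_⟩, ?_⟩
  · by_cases h : rho g d = d
    · exact Or.inl h
    · exact Or.inr ⟨hsep _ (hinv g hg d hdM) d hdM h, hneg _ (hinv g hg d hdM) h⟩
  · obtain ⟨U, hU, h⟩ := hdisc
    exact ⟨U, hU, fun g hg => h g (hGs hg)⟩
  · intro x hx hxB hxd
    have hxM := hall x hxB hxd
    obtain ⟨g₀, hg₀, h0⟩ := hC₀ x hx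
    have hm₀ : rho g₀⁻¹ v ∈ piecePM L₀ v := ⟨g₀⁻¹, L₀.inv_mem hg₀, Or.inl rfl⟩
    have h1 : |lor x (rho g₀⁻¹ v)| ≤ R₁ := by
      rw [← lor_rho_left, hR₁]
      exact piece_abs_le (rho_fut g₀ hx) h0
    obtain ⟨m₁, hm₁, h2, h3⟩ : ∃ m₁ ∈ piecePM L₀ v, lor vo m₁ < 0 ∧ |lor x m₁| ≤ R₁ := by
      have h2 := lor_ne_zero_of_far hco (piecePM_unit hv hm₀) hd
        (by linarith [A2 _ (L₀.inv_mem hg₀)]) hdo
      rcases lt_or_gt_of_ne h2 with h | h
      · exact ⟨_, hm₀, h, h1⟩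
      · exact ⟨_, piecePM_neg hm₀, by simpa using h, by simpa using h1⟩
    obtain ⟨m₂, hm₂, h4, -⟩ := piece_first unit hMW first hx (Or.inl hm₁) h2
    have hR1 : R₁ ≤ max 0 (max R₁ R₃) := (le_max_left _ _).trans (le_max_right _ _)
    have hR3 : R₃ ≤ max 0 (max R₁ R₃) := (le_max_right _ _).trans (le_max_right _ _)
    by_cases h5 : m₂ ∈ orb Gs d
    swap
    · exact ⟨m₂, ⟨hm₂, h5⟩, by linarith⟩
    obtain ⟨g, hg, rfl⟩ := h5
    have hx₂ : Fut (rho g⁻¹ x) := rho_fut _ hx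
    have h6 : |lor (rho g⁻¹ x) d| ≤ R₁ := by
      rw [← lor_rho_right, abs_of_nonpos (hxd g hg)]
      linarith
    obtain ⟨δ, hδ, hδd, h7⟩ := hC₁ _ ⟨hx₂, h6⟩
    have hm₃ : rho δ⁻¹ v ∈ piecePM L₀ v := ⟨δ⁻¹, L₀.inv_mem hδ, Or.inl rfl⟩
    have h8 : lor (rho δ⁻¹ v) d < -1 := by
      rw [← lor_rho_right, hδd]
      linarith
    have h9 : lor vo (rho δ⁻¹ v) < 0 :=
      lor_sep (piecePM_unit hv hm₃) hd h8 (rho_cone δ⁻¹ hco) (by rwa [lor_rho])
        (by rw [← lor_rho_right, hδd, hdo]) hco hdo.ge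
    have h10 : |lor (rho g⁻¹ x) (rho δ⁻¹ v)| ≤ R₃ := by
      rw [← lor_rho_left, hR₃]
      exact piece_abs_le (rho_fut δ hx₂) h7
    obtain ⟨m₄, hm₄, h11, y, hy, hy1, hy2⟩ := piece_first unit hMW first hx₂ (Or.inl hm₃) h9
    have h12 : lor (rho g⁻¹ x) m₄ ≤ 0 := by
      rw [← lor_rho_right]
      exact hxM _ (hinv g hg _ hm₄)
    have h13 : m₄ ≠ d := by
      rintro rfl
      exact (lor_sep (piecePM_unit hv hm₃) hd h8 hco h9 hdo.le hy hy2).ne hy1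
    have h14 : m₄ ∉ orb Gs d := by
      rintro ⟨h, hh, rfl⟩
      have h15 := (A3 h (hGs hh)).resolve_left h13
      have h16 : |lor (rho g⁻¹ x) (rho h d)| ≤ R₃ := by
        rw [abs_of_nonpos h12]
        linarith
      have h17 := abs_lor_unit_le hx₂ (unit _ (hMW hm₄)) hd
      have h18 := piece_sqrt_le h16
      have h19 := piece_sqrt_le h6
      have hR : 0 ≤ R₃ := (abs_nonneg _).trans h16
      have h20 := mul_le_mul h18 h19 (Real.sqrt_nonneg _) (by linarith)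
      have h21 := mul_le_mul h16 h6 (abs_nonneg _) hR
      linarith
    refine ⟨rho g m₄, hBinv g hg _ ⟨hm₄, h14⟩, ?_⟩
    rw [lor_rho_right]
    linarith
  · exact lor_sep (unit m (hMW hm.1)) hd (by linarith [hsep m hm.1 d hdM hm.2.1]) hco
      (hneg m hm.1 hm.2.1) hdo.le hy hyd.ge
  · intro e he heo hfe x hx hxe hxd hxF
    have hxM : ∀ m ∈ M, lor x m ≤ 0 := by
      intro m hm
      by_cases h : m = d
      · rwa [h]
      rcases hMW hm with h1 | h1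
      · obtain ⟨g, hg, h2⟩ := piecePM_abs h1 e
        have h3 := hfe g hg
        rw [← h2] at h3
        rcases lt_abs.1 h3 with h4 | h4
        · exact (lor_sep (m := -e) (piecePM_unit hv h1) (by simpa using he)
            (by rw [lor_neg_right]; linarith) hco (hneg m hm h) (by simp [heo]) hx.cone
            (by simp [hxe])).le
        · exact (lor_sep (m := e) (piecePM_unit hv h1) he (by linarith) hco (hneg m hm h) heo.le
            hx.cone hxe.ge).le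
      · exact hxF m ⟨hm, h, h1⟩
    exact ⟨fun b hb => hxM b hb.1, fun g hg => hxM _ (hinv g hg d hdM)⟩

theorem exists_piece {lam : ℕ} (hlam : lam = 1 ∨ lam = 17) (c : Fin 4 → ℤ) (ε : ℝ)
    (hε : ε = 1 ∨ ε = -1) (hc : lor (lat lam c) (lat lam c) = 1) (hc0 : 0 < c 0)
    (hc3 : ε * c 3 = -2) :
    ∃ (R₀ : ℝ) (q₁ : ℕ), ∀ q : ℕ, q₁ ≤ q → 51 ∣ q → ∃ (Gs : Subgroup G) (B F : Set V),
      Piece (ε • dd) Gs B R₀ ∧ Gs ≤ LL lam q ∧ (∀ g ∈ LL lam q, rho g dd = dd → g ∈ Gs) ∧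
      (ε = 1 → Fam F ((q : ℝ) - 1)) ∧
      ((∀ g ∈ LL lam 51, 1 < |lor (rho g (lat lam c)) ez|) → ∀ x, Fut x → lor x ez = 0 →
        lor x (ε • dd) ≤ 0 → (∀ m ∈ F, lor x m ≤ 0) →
        (∀ b ∈ B, lor x b ≤ 0) ∧ ∀ g ∈ Gs, lor x (rho g (ε • dd)) ≤ 0) := by
  have hl : 0 < lam := by omega
  have hε1 : |ε| = 1 := by rcases hε with rfl | rfl <;> simp
  have hε2 : ε * ε = 1 := by rcases hε with rfl | rfl <;> simp
  have h3 : |c 3| = 2 := by
    have h : |ε * c 3| = 2 := by rw [hc3]; norm_num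
    rw [abs_mul, hε1, one_mul] at h
    exact_mod_cast h
  have hs : (1 : ℝ) ≤ √lam := Real.one_le_sqrt.2 (by exact_mod_cast hl)
  obtain ⟨R₀, Q₁, h⟩ := piece_abstract (LL lam 51) (d := ε • dd) (v := lat lam c)
    (by rw [lor_smul_left, lor_smul_right, lor_dd_dd, mul_one, hε2])
    (by rw [lor_smul_right, lor_vo_dd, mul_zero]) hc
    (by rw [lor_smul_right, lor_lat_dd, ← mul_assoc, hc3]; linarith)
    (by
      rw [lor_vo_lat, neg_lt_zero]
      have : (0 : ℝ) < c 0 := by exact_mod_cast hc0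
      positivity)
    (fun g hg => (LL_black hlam hc hg).imp_right fun h => le_trans (by norm_num) h)
    (fun g hg => by
      rw [lor_smul_right, abs_mul, hε1, one_mul]
      exact LL_black_door hl (by norm_num) h3 hg)
    (cocpt_LL hlam (by norm_num)) (locFin_orb_dd hl 51 ε)
  refine ⟨R₀, ⌈Q₁⌉₊ + 3, fun q hq hdvd => ?_⟩
  obtain ⟨Gs, B, F, h1, h2, h4, ⟨h5, h6, h7, h8⟩, h9⟩ := h (LL lam q) (q - 1) (LL_mono hdvd)
    (by
      have h1 : ((⌈Q₁⌉₊ + 3 : ℕ) : ℝ) ≤ q := by exact_mod_cast hq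
      push_cast at h1
      linarith [Nat.le_ceil Q₁])
    (fun g hg => (LL_door hlam hg).imp (fun h => by rw [map_smul, h]) fun h => by
      rwa [map_smul, lor_smul_left, lor_smul_right, ← mul_assoc, hε2, one_mul])
    (cocpt_LL hlam (by omega)) (LL_disc hl q)
  refine ⟨Gs, B, F, h1, h2, fun g hg hgd => h4 g hg (by rw [map_smul, hgd]), ?_,
    h9 ez lor_ez_ez lor_vo_ez⟩
  rintro rfl
  rw [one_smul] at h7 h8
  exact ⟨h5, h6, h7, h8 xp cone_xp lor_xp_dd⟩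

end Pool.Agent.MP_7a4cc0_an

end
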