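import Pool.Agent.Mg.F14ad9d.Ga685bb
import Pool.Agent.Mg.F14ad9d.G04cbab
import Pool.Agent.Mg.F14ad9d.Gff7086
import Pool.Agent.Mg.F14ad9d.G89d370
import Pool.Agent.MP_7a4cc0_an.Erg2
import Pool.Agent.Mg.F14ad9d.G0570e4
import Pool.Agent.Mg.F14ad9d.G51f3eb
import Pool.Agent.Mg.F14ad9d.G1cc5d0
import Pool.Agent.Mg.F14ad9d.G67dcc7

section

open Matrix MeasureTheory Set Topology Filter
open scoped ENNReal NNReal CompactlySupported

namespace Pool.Agent.MP_7a4cc0_an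

lemma closed_mem_orbitH {Γ : Subgroup G} (g g' : G) :
    cls Γ g' ∈ orbitH (cls Γ g) ↔ rho g' ez ∈ orb Γ (rho g ez) := by
  constructor
  · rintro ⟨h, hh, e⟩
    obtain ⟨γ, hγ, rfl⟩ := cls_eq_iff.1 (show cls Γ (g * h) = cls Γ g' from e)
    exact ⟨γ, hγ, by rw [rho_mul, rho_mul, mem_H_iff.1 hh]⟩
  · rintro ⟨γ, hγ, e⟩
    refine ⟨(γ * g)⁻¹ * g', mem_H_iff.2 (by rw [rho_mul, ← e, ← rho_mul γ, rho_inv_rho]), ?_⟩
    show cls Γ (g * ((γ * g)⁻¹ * g')) = cls Γ g'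
    rw [show g * ((γ * g)⁻¹ * g') = γ⁻¹ * g' by group, cls_mul (Γ.inv_mem hγ)]

lemma closed_exists_frame {m : V} (hm : lor m m = 1) {C : ℝ} (hC : ‖m‖ ≤ C) :
    ∃ g : G, rho g vo 0 ≤ 1 + C ^ 2 ∧ rho g ez = m := by
  obtain ⟨h1, h2⟩ := proj_timelike fut_vo hm
  have h3 : lor (vo - lor vo m • m) (vo - lor vo m • m) < 0 := by
    rw [h1]; nlinarith [sq_nonneg (lor vo m)]
  obtain ⟨g, hg, hg'⟩ := exists_pair (fut_normalize h3 h2) hm (by simp [hm])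
  refine ⟨g, ?_, hg'⟩
  have h4 : 1 ≤ √(-lor (vo - lor vo m • m) (vo - lor vo m • m)) := by
    rw [h1, neg_neg]
    exact Real.one_le_sqrt.2 (by nlinarith [sq_nonneg (lor vo m)])
  have h5 : (vo - lor vo m • m) 0 = 1 + m 0 ^ 2 := by
    rw [lor_vo_left]
    simp [vo, sq]
  have h6 : |m 0| ≤ C := (norm_le_pi_norm m 0).trans hC
  rw [hg, Pi.smul_apply, smul_eq_mul]
  refine (mul_le_of_le_one_left h2.le (inv_le_one_of_one_le₀ h4)).trans ?_
  rw [h5, ← sq_abs]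
  have := pow_le_pow_left₀ (abs_nonneg _) h6 2
  linarith

lemma closed_continuous_rho (g : G) : Continuous (rho g : V → V) :=
  LinearMap.continuous_of_finiteDimensional (rho g : V →ₗ[ℝ] V)

theorem locFin_of_isClosed {Γ : Subgroup G} (hΓ : (Γ : Set G).Countable) (g : G)
    (h : IsClosed (orbitH (cls Γ g))) : LocFin (orb Γ (rho g ez)) := by
  set S := orb Γ (rho g ez) with hS
  have hA : IsClosed {g' : G | rho g' ez ∈ S} := by
    have := h.preimage (continuous_cls Γ)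
    rwa [show cls Γ ⁻¹' orbitH (cls Γ g) = {g' : G | rho g' ez ∈ S} from
      Set.ext fun g' => closed_mem_orbitH g g'] at this
  have hT : ∀ C : ℝ, IsCompact {m ∈ S | ‖m‖ ≤ C} := by
    intro C
    have h1 := (((isCompact_bdd (1 + C ^ 2)).inter_right hA).image
      (continuous_rho_left ez)).inter_right (isClosed_le continuous_norm (continuous_const (y := C)))
    convert h1 using 1
    ext m
    constructor
    · rintro ⟨hm, hC⟩
      have hm1 : lor m m = 1 := by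
        obtain ⟨γ, -, rfl⟩ := hm
        simp
      obtain ⟨g', h2, rfl⟩ := closed_exists_frame hm1 hC
      exact ⟨⟨g', ⟨h2, hm⟩, rfl⟩, hC⟩
    · rintro ⟨⟨g', ⟨-, h2⟩, rfl⟩, hC⟩
      exact ⟨h2, hC⟩
  have hcl : IsClosed S := by
    refine closure_subset_iff_isClosed.1 fun m hm => ?_
    have h1 : m ∈ closure (Metric.ball (0 : V) (‖m‖ + 1) ∩ S) :=
      Metric.isOpen_ball.inter_closure ⟨by simp, hm⟩
    exact (closure_minimal (t := {x ∈ S | ‖x‖ ≤ ‖m‖ + 1})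
      (fun x hx => ⟨hx.2, (mem_ball_zero_iff.1 hx.1).le⟩) (hT (‖m‖ + 1)).isClosed h1).1
  have hc : S.Countable := (hΓ.image fun γ => rho γ (rho g ez)).mono fun m hm => hm
  obtain ⟨m₀, ⟨γ₀, hγ₀, rfl⟩, U, hU, hm₀, hU'⟩ : ∃ m₀ ∈ S, ∃ U : Set V, IsOpen U ∧ m₀ ∈ U ∧
      ∀ m ∈ S, m ∈ U → m = m₀ := by
    have := hc.to_subtype
    have : CompleteSpace S := hcl.completeSpace_coe
    have : Nonempty S := ⟨⟨rho g ez, 1, Γ.one_mem, rho_one _⟩⟩
    obtain ⟨i, x, hx⟩ := nonempty_interior_of_iUnion_of_closed (f := fun i : S => ({i} : Set S))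
      (fun _ => isClosed_singleton) (Set.iUnion_of_singleton _)
    obtain ⟨W, hW, hW1, hW2⟩ := mem_interior.1 hx
    obtain ⟨U, hU, rfl⟩ := isOpen_induced_iff.1 hW1
    refine ⟨x.1, x.2, U, hU, hW2, fun m hm hmU => ?_⟩
    have h1 : (⟨m, hm⟩ : S) = i := hW (show (⟨m, hm⟩ : S) ∈ Subtype.val ⁻¹' U from hmU)
    have h2 : x = i := hW hW2
    rw [h2, ← h1]
  have key : ∀ m ∈ S, ∃ W ∈ 𝓝 m, ∀ m' ∈ S, m' ∈ W → m' = m := by
    rintro m ⟨γ, hγ, rfl⟩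
    have e : rho (γ₀ * γ⁻¹) (rho γ (rho g ez)) = rho γ₀ (rho g ez) := by
      rw [rho_mul, rho_inv_rho]
    refine ⟨rho (γ₀ * γ⁻¹) ⁻¹' U, (hU.preimage (closed_continuous_rho _)).mem_nhds
      (by rwa [mem_preimage, e]), ?_⟩
    rintro m' ⟨γ', hγ', rfl⟩ hm'
    have h1 := hU' _ ⟨γ₀ * γ⁻¹ * γ', Γ.mul_mem (Γ.mul_mem hγ₀ (Γ.inv_mem hγ)) hγ', rho_mul _ _ _⟩ hm'
    rw [← e] at h1
    simpa using congrArg (rho (γ₀ * γ⁻¹)⁻¹) h1
  choose! W hW hW' using key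
  intro C
  obtain ⟨t, ht, ht'⟩ := (hT C).elim_nhds_subcover W fun x hx => hW x hx.1
  refine t.finite_toSet.subset fun m hm => ?_
  obtain ⟨x, hx, hmx⟩ := mem_iUnion₂.1 (ht' hm)
  rw [hW' x (ht x hx).1 m hm.1 hmx]
  exact hx

lemma closed_lin {a b : ℝ} (h : ∀ T : ℝ, ∃ t : ℝ, T ≤ |t| ∧ |a| * |t| ≤ b) : a = 0 := by
  by_contra ha
  have h0 := abs_pos.2 ha
  obtain ⟨t, h1, h2⟩ := h (b / |a| + 1)
  have h3 := mul_le_mul_of_nonneg_left h1 h0.le
  rw [mul_add, mul_div_cancel₀ _ h0.ne'] at h3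
  linarith

lemma closed_quad {a b c M : ℝ} (h : ∀ T : ℝ, ∃ t : ℝ, T ≤ |t| ∧ |a * t ^ 2 + b * t + c| ≤ M) :
    a = 0 ∧ b = 0 := by
  have ha : a = 0 := by
    refine closed_lin (b := M + |b| + |c|) fun T => ?_
    obtain ⟨t, h1, h2⟩ := h (max T 1)
    have h3 : 1 ≤ |t| := (le_max_right _ _).trans h1
    refine ⟨t, (le_max_left _ _).trans h1, le_of_mul_le_mul_right ?_ (zero_lt_one.trans_le h3)⟩
    have h4 : |a * t ^ 2| ≤ |a * t ^ 2 + b * t + c| + |b * t| + |c| := by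
      have := abs_sub (a * t ^ 2 + b * t + c) c
      have := abs_sub (a * t ^ 2 + b * t) (b * t)
      simp only [add_sub_cancel_right] at *
      linarith
    rw [abs_mul, abs_mul, abs_pow] at h4
    have h5 : 0 ≤ M := (abs_nonneg _).trans h2
    nlinarith [abs_nonneg c, abs_nonneg b]
  refine ⟨ha, closed_lin (b := M + |c|) fun T => ?_⟩
  obtain ⟨t, h1, h2⟩ := h T
  refine ⟨t, h1, ?_⟩
  rw [ha, zero_mul, zero_add] at h2
  have := abs_sub (b * t + c) c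
  rw [add_sub_cancel_right, abs_mul] at this
  linarith

lemma Geo.closed_fix {Γ : Subgroup G} {B : Set V} {R₀ : ℝ} (h : Geo Γ B R₀) {g : G}
    (hg : g ∈ FG B) (hn : LocFin (orb Γ (rho g ez))) {m : V} (hm0 : lor (rho g ez) m = 0)
    (hm : ∀ γ ∈ Γ, rho γ (rho g ez) = rho g ez → rho γ m = m) : m = 0 := by
  obtain ⟨R, hR⟩ := h.recur hg
  obtain ⟨K, hK, -, hK'⟩ := h.exists_compact R
  obtain ⟨D, hD, hD'⟩ := exists_norm_rho_le hK
  choose t ht ht' using fun k : ℕ => hR k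
  choose γ hγ hγ' using fun k : ℕ => hK' _ (ht' k)
  have h1 : ∀ k, rho (γ k) (rho g ez) ∈ {m ∈ orb Γ (rho g ez) | ‖m‖ ≤ D * ‖ez‖} := by
    intro k
    refine ⟨⟨γ k, hγ k, rfl⟩, ?_⟩
    have := hD' _ (hγ' k) ez
    rwa [rho_mul, rho_mul, rho_nz_ez, Complex.ofReal_im, mul_zero, zero_smul, add_zero] at this
  have := (hn (D * ‖ez‖)).to_subtype
  obtain ⟨⟨n₁, hn₁⟩, hI⟩ := Finite.exists_infinite_fiber fun k : ℕ =>
    (⟨_, h1 k⟩ : {m ∈ orb Γ (rho g ez) | ‖m‖ ≤ D * ‖ez‖})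
  have hI' : {k : ℕ | rho (γ k) (rho g ez) = n₁}.Infinite := by
    refine (Set.infinite_coe_iff.1 hI).mono fun k hk => ?_
    exact congrArg Subtype.val hk
  obtain ⟨k₀, hk₀⟩ := hI'.nonempty
  have hσ : ∀ k, rho (γ k) (rho g ez) = n₁ → rho ((γ k₀)⁻¹ * γ k) (rho g ez) = rho g ez := by
    intro k hk
    rw [rho_mul, hk, ← show rho (γ k₀) (rho g ez) = n₁ from hk₀, rho_inv_rho]
  have key : ∀ v : V, (∀ k, rho (γ k) (rho g ez) = n₁ → rho ((γ k₀)⁻¹ * γ k) v = v) →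
      lor xp (rho g⁻¹ v) = 0 ∧ lor ey (rho g⁻¹ v) = 0 := by
    intro v hv
    refine closed_quad (c := lor xp (rho g⁻¹ v) + lor xm (rho g⁻¹ v))
      (M := 4 * (D * ‖vo‖) * ‖rho (γ k₀) v‖) fun T => ?_
    obtain ⟨N, hN⟩ := exists_nat_ge T
    obtain ⟨k, hk, hk'⟩ := hI'.exists_gt N
    refine ⟨t k, hN.trans ((Nat.cast_le.2 hk'.le).trans (ht k)), ?_⟩
    have e1 : rho (γ k) v = rho (γ k₀) v := by
      conv_rhs => rw [← hv k hk, rho_mul, rho_rho_inv]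
    have h2 := abs_lor_le (rho (γ k * (g * nz (t k))) vo) (rho (γ k₀) v)
    have h3 : lor (rho (γ k * (g * nz (t k))) vo) (rho (γ k₀) v) =
        lor xp (rho g⁻¹ v) * t k ^ 2 + lor ey (rho g⁻¹ v) * t k +
          (lor xp (rho g⁻¹ v) + lor xm (rho g⁻¹ v)) := by
      rw [← e1, rho_mul, lor_rho, rho_mul, lor_rho_left, rho_nz_vo]
      simp only [lor_add_left, lor_smul_left, Complex.norm_real, Real.norm_eq_abs, sq_abs,
        Complex.ofReal_re, Complex.ofReal_im]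
      ring
    rw [h3] at h2
    refine h2.trans ?_
    have := hD' _ (hγ' k) vo
    gcongr
  obtain ⟨a1, a2⟩ := key m fun k hk => hm _ (Γ.mul_mem (Γ.inv_mem (hγ k₀)) (hγ k)) (hσ k hk)
  have a3 : lor ez (rho g⁻¹ m) = 0 := by rw [← lor_rho_left, hm0]
  have hw := eq_decomp (rho g⁻¹ m)
  rw [lor_comm _ xp, lor_comm _ ey, lor_comm _ ez, a1, a2, a3] at hw
  simp only [mul_zero, zero_smul, add_zero] at hw
  by_cases hc : -2 * lor (rho g⁻¹ m) xm = 0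
  · rw [hc, zero_smul] at hw
    simpa using congrArg (rho g) hw
  exfalso
  have hx : rho g xp = (-2 * lor (rho g⁻¹ m) xm)⁻¹ • m := by
    have := congrArg (rho g) hw
    rw [rho_rho_inv, map_smul] at this
    exact (eq_inv_smul_iff₀ hc).2 this.symm
  have h4 := (key (rho g vo) fun k hk => ?_).1
  · rw [rho_inv_rho, lor_vo_right] at h4
    simp [xp] at h4
  have hΓ := Γ.mul_mem (Γ.inv_mem (hγ k₀)) (hγ k)
  obtain ⟨τ, hτ⟩ := eq_nz_of_fix (g := g⁻¹ * ((γ k₀)⁻¹ * γ k) * g)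
    (by rw [rho_mul, rho_mul, hx, map_smul, hm _ hΓ (hσ k hk), ← hx, rho_inv_rho])
    (by rw [rho_mul, rho_mul, hσ k hk, rho_inv_rho])
  have e : g * nz τ * g⁻¹ = (γ k₀)⁻¹ * γ k := by rw [← hτ]; group
  have h0 := h.no_parab hg (e ▸ hΓ)
  rw [← e, h0]
  simp

/-- The vectors fixed by a set of elements. -/
def closedFix (s : Set G) : Submodule ℝ V where
  carrier := {m | ∀ γ ∈ s, rho γ m = m}
  add_mem' ha hb γ hγ := by rw [map_add, ha γ hγ, hb γ hγ]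
  zero_mem' γ _ := map_zero _
  smul_mem' c m hm γ hγ := by rw [map_smul, hm γ hγ]

theorem Geo.countable_planes {Γ : Subgroup G} {B : Set V} {R₀ : ℝ} (h : Geo Γ B R₀) :
    {n : V | LocFin (orb Γ n) ∧ ∃ g ∈ FG B, rho g ez = n}.Countable := by
  refine ((Set.countable_ofPred_finite_subset h.countable).biUnion
    (t := fun s _ => {n : V | lor n n = 1 ∧ n ∈ closedFix s ∧
      ∀ m ∈ closedFix s, ∃ c : ℝ, m = c • n}) fun s _ => ?_).mono ?_
  · rcases Set.eq_empty_or_nonempty {n : V | lor n n = 1 ∧ n ∈ closedFix s ∧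
      ∀ m ∈ closedFix s, ∃ c : ℝ, m = c • n} with e | ⟨n₀, h1, -, h2⟩
    · rw [e]; exact Set.countable_empty
    refine (Set.toFinite {n₀, -n₀}).countable.mono ?_
    rintro n ⟨h3, h4, -⟩
    obtain ⟨c, rfl⟩ := h2 n h4
    rw [lor_smul_left, lor_smul_right, h1, mul_one] at h3
    rcases mul_self_eq_one_iff.1 h3 with rfl | rfl <;> simp
  · rintro n ⟨hn, g, hg, rfl⟩
    obtain ⟨_, ⟨s, hs, hs', rfl⟩, hmin⟩ := (wellFounded_lt (α := Submodule ℝ V)).has_min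
      {W | ∃ s : Set G, s.Finite ∧ (∀ γ ∈ s, γ ∈ Γ ∧ rho γ (rho g ez) = rho g ez) ∧
        closedFix s = W} ⟨_, ∅, Set.finite_empty, fun _ h => h.elim, rfl⟩
    refine mem_iUnion₂.2 ⟨s, ⟨hs, fun γ hγ => (hs' γ hγ).1⟩, by simp,
      fun γ hγ => (hs' γ hγ).2, fun m hm => ⟨lor (rho g ez) m, sub_eq_zero.1 ?_⟩⟩
    refine h.closed_fix hg hn (by simp) fun γ hγ hγ' => ?_
    have h1 : closedFix (insert γ s) ≤ closedFix s := fun v hv δ hδ => hv δ (Or.inr hδ)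
    have h2 := h1.eq_or_lt.resolve_right (hmin _ ⟨insert γ s, hs.insert γ, by
      rintro δ (rfl | hδ)
      exacts [⟨hγ, hγ'⟩, hs' δ hδ], rfl⟩)
    rw [← h2] at hm
    rw [map_sub, map_smul, hγ', hm γ (Or.inl rfl)]

end Pool.Agent.MP_7a4cc0_an

end

section

open Matrix MeasureTheory Set Topology Filter
open scoped ENNReal NNReal CompactlySupported

namespace Pool.Agent.MP_7a4cc0_an

lemma meas2_continuous_Nf (m : V) : Continuous fun g : G => Nf g m := by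
  have h (v : V) : Continuous fun g : G => lor m (rho g v) :=
    continuous_lor.comp (continuous_const.prodMk (continuous_rho_left v))
  exact ((h xp).abs.add (h ey).abs).add (h xm).abs

lemma meas2_isOpen (S : Set V) (c : ℝ) : IsOpen {g : G | ∃ m ∈ S, Nf g m < c} := by
  have : {g : G | ∃ m ∈ S, Nf g m < c} = ⋃ m ∈ S, {g : G | Nf g m < c} := by
    ext g; simp
  rw [this]
  exact isOpen_biUnion fun m _ => isOpen_lt (meas2_continuous_Nf m) continuous_const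

lemma meas2_Nf (g : G) (z : ℂ) (j : ℕ) :
    Nf (g * nz z * a2 ^ j) (rho g ez) = |z.im| / 2 ^ j := by
  simp only [Nf, rho_mul, lor_rho, rho_a2_xp, rho_a2_ey, rho_a2_xm, map_smul, rho_nz_xp, rho_nz_ey,
    rho_nz_xm, lor_smul_right, lor_add_right, lor_ez_xp, lor_ez_ey, lor_ez_ez, lor_ez_xm]
  simp only [mul_zero, abs_zero, add_zero, zero_add, mul_one, abs_mul, abs_inv]
  rw [abs_of_pos (by positivity : (0 : ℝ) < 2 ^ j)]; ring

lemma meas2_geom (C r : ℝ) (hr0 : 0 ≤ r) (hr : r < 1) (f : ℕ → ℝ≥0∞)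
    (hf : ∀ j, f j ≤ ENNReal.ofReal (C * r ^ j)) : ∑' j, f j ≠ ∞ := by
  have hs : Summable fun j => max C 0 * r ^ j := (summable_geometric_of_lt_one hr0 hr).mul_left _
  refine ne_top_of_le_ne_top (b := ∑' j, ENNReal.ofReal (max C 0 * r ^ j)) ?_
    (ENNReal.tsum_le_tsum fun j => (hf j).trans (ENNReal.ofReal_le_ofReal ?_))
  · rw [← ENNReal.ofReal_tsum_of_nonneg (fun j => by positivity) hs]
    exact ENNReal.ofReal_ne_top
  · exact mul_le_mul_of_nonneg_right (le_max_left _ _) (by positivity)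

lemma meas2_eventually (c : ℝ) : ∀ᶠ j : ℕ in atTop, c / 2 ^ j < ((7 / 8 : ℝ) ^ j) ^ 2 := by
  have h := tendsto_pow_atTop_atTop_of_one_lt (show (1 : ℝ) < 49 / 32 by norm_num)
  filter_upwards [h.eventually_gt_atTop c] with j hj
  rw [div_lt_iff₀ (by positivity), ← pow_mul, mul_comm j 2, pow_mul, ← mul_pow]
  convert hj using 2; norm_num

theorem exists_measure (R₀ : ℝ) (hR₀ : 0 ≤ R₀) : ∃ θ : ℝ, 1 < θ ∧
    ∀ (Γ : Subgroup G) (B : Set V), Geo Γ B R₀ → ¬ LocFin (orb Γ ez) → Growth B θ →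
      ∃ μ : Measure (Frame Γ), IsLocallyFiniteMeasure μ ∧ μ ≠ 0 ∧ μ (cls Γ '' FG B)ᶜ = 0 ∧
        (∀ (t : ℝ) (E : Set (Frame Γ)), MeasurableSet E → μ (rmul (nz t) ⁻¹' E) = μ E) ∧
        (∀ E : Set (Frame Γ), MeasurableSet E →
          (∀ t : ℝ, rmul (nz t) ⁻¹' E =ᵐ[μ] E) → μ E = 0 ∨ μ Eᶜ = 0) ∧
        (∃ (z : ℂ) (E : Set (Frame Γ)), MeasurableSet E ∧ μ (rmul (nz z) ⁻¹' E) ≠ μ E) ∧
        ∀ (x : Frame Γ) (z : ℂ), IsClosed (orbitH x) → μ (rmul (nz z) '' orbitH x) = 0 := by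
  obtain ⟨R, θn, hR, hθn, hninv⟩ := ninv R₀ hR₀
  obtain ⟨θ₃, h31, h3n, h38⟩ : ∃ θ₃ : ℝ, 1 < θ₃ ∧ θ₃ ≤ θn ∧ θ₃ ≤ 8 / 7 :=
    ⟨min θn (8 / 7), lt_min hθn (by norm_num), min_le_left _ _, min_le_right _ _⟩
  refine ⟨(2 + θ₃) / 3, by linarith, fun Γ B h hnc hg => ?_⟩
  set θ₂ : ℝ := (1 + 2 * θ₃) / 3 with hθ₂
  have h21 : 1 < θ₂ := by rw [hθ₂]; linarith
  have h23 : θ₂ < θ₃ := by rw [hθ₂]; linarith
  have := t2_frame h.disc
  obtain ⟨ν₀, O, hlf, hne, hF0, hinv, hO, hKO, ⟨C₀, hC₀⟩, hpl⟩ :=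
    exists_limit h hnc (θ := (2 + θ₃) / 3) (θ' := θ₂) (by linarith) (by rw [hθ₂]; linarith)
      (by linarith) hg hR
  set P : Set V := {n : V | LocFin (orb Γ n) ∧ ∃ g ∈ FG B, rho g ez = n} with hP
  have : Countable P := h.countable_planes.to_subtype
  have hFinv : ∀ γ ∈ Γ, ∀ g ∈ FG B, γ * g ∈ FG B := fun γ hγ g hg => (h.mul_mem_FG hγ).2 hg
  have hFc : IsClosed (cls Γ '' FG B) := isClosed_image_cls hFinv (isClosed_FG B)
  -- the open sets and the weights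
  let O' : Option P → ℕ → Set (Frame Γ) := fun p j => match p with
    | none => rmul (a2 ^ j) ⁻¹' O
    | some n => rmul (a2 ^ j) ⁻¹'
        (O ∩ cls Γ '' {g | ∃ m ∈ orb Γ n.1, Nf g m < ((7 / 8 : ℝ) ^ j) ^ 2})
  let w : Option P → ℕ → ℝ≥0 := fun p j => match p with
    | none => Real.toNNReal ((θ₃ ^ j)⁻¹)
    | some _ => 1
  have hO' : ∀ p j, IsOpen (O' p j) := by
    rintro (_ | n) j
    · exact hO.preimage (continuous_rmul _)
    · exact (hO.inter (isOpenMap_cls Γ _ (meas2_isOpen _ _))).preimage (continuous_rmul _)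
  have hw : ∀ p j, w p j ≠ 0 := by
    rintro (_ | n) j
    · exact (Real.toNNReal_pos.2 (by positivity)).ne'
    · exact one_ne_zero
  have hrow : ∀ p, ∑' j, (w p j : ℝ≥0∞) * ν₀ (O' p j) ≠ ∞ := by
    rintro (_ | n)
    · refine meas2_geom C₀ (θ₂ / θ₃) (by positivity) ((div_lt_one (by linarith)).2 h23) _
        fun j => ?_
      calc (w none j : ℝ≥0∞) * ν₀ (O' none j)
          ≤ ENNReal.ofReal ((θ₃ ^ j)⁻¹) * ENNReal.ofReal (C₀ * θ₂ ^ j) := by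
            gcongr
            · exact le_rfl
            · exact hC₀ j
        _ = ENNReal.ofReal (C₀ * (θ₂ / θ₃) ^ j) := by
            rw [← ENNReal.ofReal_mul (by positivity), div_pow θ₂ θ₃, div_eq_mul_inv (θ₂ ^ j),
              mul_comm (θ₃ ^ j)⁻¹, mul_assoc]
    · obtain ⟨g, -, hgn⟩ := n.2.2
      obtain ⟨C, hC⟩ := hpl n.1 (by rw [← hgn, lor_rho, lor_ez_ez]) n.2.1
      refine meas2_geom C (7 / 8 * θ₂) (by positivity) (by linarith) _ fun j => ?_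
      have := hC j ((7 / 8 : ℝ) ^ j) (by positivity)
      simp only [w, ENNReal.coe_one, one_mul]
      rw [mul_pow, ← mul_assoc]; exact this
  obtain ⟨δ, hδ, hδs⟩ := ENNReal.exists_pos_tsum_mul_lt_of_countable (ε := 1) one_ne_zero
    (fun p => ∑' j, (w p j : ℝ≥0∞) * ν₀ (O' p j)) hrow
  have hsplit (ν : Measure (Frame Γ)) :
      ∑' i : Option P × ℕ, ((δ i.1 * w i.1 i.2 : ℝ≥0) : ℝ≥0∞) * ν (O' i.1 i.2) =
        ∑' p, (∑' j, (w p j : ℝ≥0∞) * ν (O' p j)) * δ p := by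
    rw [ENNReal.tsum_prod']
    refine tsum_congr fun p => ?_
    rw [← ENNReal.tsum_mul_right]
    refine tsum_congr fun j => ?_
    push_cast; ring
  have hcov : cls Γ '' FG B ⊆ ⋃ i : Option P × ℕ, O' i.1 i.2 := by
    rintro _ ⟨g, hg, rfl⟩
    obtain ⟨j, hj⟩ := (h.eventually_mem_KR hg hR).exists
    exact mem_iUnion.2 ⟨(none, j), hKO ⟨_, hj, rfl⟩⟩
  obtain ⟨ν, hlf', hne', hF', hinv', herg, hsum⟩ :=
    erg_cap (fun t : ℝ => rmulH Γ (nz t)) (cls Γ '' FG B) hFc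
      (fun i : Option P × ℕ => O' i.1 i.2) (fun i => hO' i.1 i.2) (fun i => δ i.1 * w i.1 i.2)
      (fun i => mul_ne_zero (hδ i.1).ne' (hw i.1 i.2)) hcov ν₀ hne hF0 hinv
      (by rw [hsplit]; exact (hδs.trans ENNReal.one_lt_top).ne)
  have hrow' : ∀ p, ∑' j, (w p j : ℝ≥0∞) * ν (O' p j) ≠ ∞ := by
    intro p hp
    rw [hsplit] at hsum
    refine hsum (top_le_iff.1 (le_trans ?_ (ENNReal.le_tsum p)))
    rw [hp, ENNReal.top_mul (by exact_mod_cast (hδ p).ne')]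
  refine ⟨ν, hlf', hne', hF', hinv', herg, ?_, ?_⟩
  · refine hninv Γ B h ν hne' hF' (∑' j, (w none j : ℝ≥0∞) * ν (O' none j)).toReal fun j => ?_
    have h1 : (w none j : ℝ≥0∞) * ν (O' none j) ≤ ∑' j, (w none j : ℝ≥0∞) * ν (O' none j) :=
      ENNReal.le_tsum j
    calc ν (rmul (a2 ^ j) ⁻¹' (cls Γ '' KR B R)) ≤ ν (O' none j) :=
          measure_mono (preimage_mono hKO)
      _ = ((w none j : ℝ≥0∞) * ν (O' none j)) * ENNReal.ofReal (θ₃ ^ j) := by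
          have : (w none j : ℝ≥0∞) * ENNReal.ofReal (θ₃ ^ j) = 1 := by
            change ENNReal.ofReal ((θ₃ ^ j)⁻¹) * ENNReal.ofReal (θ₃ ^ j) = 1
            rw [← ENNReal.ofReal_mul (by positivity), inv_mul_cancel₀ (by positivity),
              ENNReal.ofReal_one]
          rw [mul_right_comm, this, one_mul]
      _ ≤ (∑' j, (w none j : ℝ≥0∞) * ν (O' none j)) * ENNReal.ofReal (θn ^ j) := by
          gcongr
      _ = _ := by
          rw [ENNReal.ofReal_mul ENNReal.toReal_nonneg, ENNReal.ofReal_toReal (hrow' none)]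
  · intro x z hx
    obtain ⟨g, rfl⟩ := cls_surjective Γ x
    have hfin := locFin_of_isClosed h.countable g hx
    have key : ∀ y ∈ rmul (nz z) '' orbitH (cls Γ g) ∩ cls Γ '' FG B,
        ∃ g' ∈ FG B, rho g' ez = rho g ez ∧ y = cls Γ (g' * nz z) := by
      rintro _ ⟨⟨_, ⟨k, hk, rfl⟩, rfl⟩, hy⟩
      have hy' : g * k * nz z ∈ FG B := (cls_mem_image_iff hFinv).1 hy
      exact ⟨g * k, (FG_mul_nz z).1 hy', by rw [rho_mul, mem_H_iff.1 hk], rfl⟩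
    have hnull : ν (rmul (nz z) '' orbitH (cls Γ g) ∩ cls Γ '' FG B) = 0 := by
      rcases (rmul (nz z) '' orbitH (cls Γ g) ∩ cls Γ '' FG B).eq_empty_or_nonempty with
        he | ⟨y, hy⟩
      · rw [he, measure_empty]
      obtain ⟨g₁, hg₁, hn₁, -⟩ := key y hy
      let n : P := ⟨rho g ez, hfin, g₁, hg₁, hn₁⟩
      have hs : ∑' j, ν (O' (some n) j) ≠ ∞ := by simpa [w] using hrow' (some n)
      refine measure_mono_null ?_ (measure_limsup_atTop_eq_zero hs)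
      intro y hy
      obtain ⟨g', hg', hn', rfl⟩ := key y hy
      rw [mem_limsup_iff_frequently_mem]
      refine Eventually.frequently ?_
      filter_upwards [h.eventually_mem_KR ((FG_mul_nz z).2 hg') hR, meas2_eventually |z.im|]
        with j h1 h2
      refine ⟨hKO ⟨_, h1, rfl⟩, g' * nz z * a2 ^ j, ⟨rho g ez, ⟨1, Γ.one_mem, rho_one _⟩, ?_⟩, rfl⟩
      rw [← hn', meas2_Nf]; exact h2
    refine measure_mono_null (t := (rmul (nz z) '' orbitH (cls Γ g) ∩ cls Γ '' FG B) ∪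
      (cls Γ '' FG B)ᶜ) (fun y hy => ?_) (measure_union_null hnull hF')
    by_cases hyF : y ∈ cls Γ '' FG B
    · exact Or.inl ⟨hy, hyF⟩
    · exact Or.inr hyF

end Pool.Agent.MP_7a4cc0_an

end

section

open Matrix MeasureTheory Set Topology Filter
open scoped ENNReal NNReal

namespace Pool.Agent.MP_7a4cc0_an

lemma Piece.mono {d : V} {Gs : Subgroup G} {B : Set V} {R R' : ℝ} (h : Piece d Gs B R)
    (hR : R ≤ R') : Piece d Gs B R' :=
  { h with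
    nonneg := h.nonneg.trans hR
    porous := fun x hx h1 h2 => by
      obtain ⟨b, hb, h3⟩ := h.porous x hx h1 h2
      exact ⟨b, hb, by linarith⟩ }

lemma Fam.mono {F : Set V} {Q Q' : ℝ} (h : Fam F Q) (hQ : Q' ≤ Q) : Fam F Q' :=
  { h with
    sep := fun m hm m' hm' hne => (h.sep m hm m' hm' hne).trans (by linarith)
    sepd := fun m hm => (h.sepd m hm).trans (by linarith) }

/-- The hybrid groups. -/
theorem exists_geo : ∃ R₀ : ℝ, 0 ≤ R₀ ∧ ∀ θ : ℝ, 1 < θ → ∃ (Γ : Subgroup G) (B : Set V),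
    Geo Γ B R₀ ∧ (∀ γ ∈ Γ, IsOfFinOrder γ → γ = 1) ∧ ¬ LocFin (orb Γ ez) ∧ Growth B θ := by
  obtain ⟨Ra, qa, ha⟩ := exists_piece (lam := 1) (Or.inl rfl) ![1, 0, -2, -2] 1 (Or.inl rfl)
    (by rw [lor_lat]; norm_num [Matrix.cons_val_two, Matrix.cons_val_three]) (by simp)
    (by simp)
  obtain ⟨Rb, qb, hb⟩ := exists_piece (lam := 17) (Or.inr rfl) ![4, 3, 6, 2] (-1) (Or.inr rfl)
    (by rw [lor_lat]; norm_num [Matrix.cons_val_two, Matrix.cons_val_three]) (by simp)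
    (by simp)
  refine ⟨max 0 (max Ra Rb), le_max_left _ _, fun θ hθ => ?_⟩
  obtain ⟨Q, hQ⟩ := growth θ hθ
  obtain ⟨N, hN⟩ := exists_nat_ge (Q + 1)
  set q : ℕ := 51 * (qa + qb + N) with hq
  obtain ⟨Ga, Ba, F, hPa, hLa, hSa, hF, hY⟩ := ha q (by omega) ⟨_, rfl⟩
  obtain ⟨Gb, Bb, -, hPb, hLb, hSb, -, -⟩ := hb q (by omega) ⟨_, rfl⟩
  rw [one_smul] at hPa hY
  rw [neg_one_smul] at hPb
  have hPa' := hPa.mono ((le_max_left Ra Rb).trans (le_max_right 0 _))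
  have hPb' := hPb.mono ((le_max_right Ra Rb).trans (le_max_right 0 _))
  obtain ⟨B, hG, hB⟩ := maskit lor_dd_dd lor_vo_dd lor_xp_dd hPa' hPb' fun g hg =>
    ⟨fun h => hSb g (LL_stab (by norm_num) (hLa h) hg) hg,
      fun h => hSa g (LL_stab (by norm_num) (hLb h) hg) hg⟩
  refine ⟨Ga ⊔ Gb, B, hG, fun γ hγ => torsion_free ⟨_, hq⟩ (sup_le_sup hLa hLb hγ), ?_, ?_⟩
  · intro hfin
    refine nonclosed hPb (fun g hg => LL_fix_ez (hLb hg)) fun C => (hfin C).subset ?_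
    rintro m ⟨⟨γ, hγ, rfl⟩, hm⟩
    exact ⟨⟨γ, Subgroup.mem_sup_right hγ, rfl⟩, hm⟩
  · intro k
    have hqN : (N : ℝ) ≤ q := by exact_mod_cast (by omega : N ≤ q)
    refine (hQ F ((hF rfl).mono (by linarith)) k).trans (measure_mono ?_)
    rintro t ⟨ht, hm⟩
    refine ⟨ht, ?_⟩
    have hx : Fut (rho (cv k t) vo) := rho_fut _ fut_vo
    have h1 : lor (rho (cv k t) vo) ez = 0 := by
      rw [← rho_cv_ez k t, lor_rho, lor_vo_ez]
    have h2 : lor (rho (cv k t) vo) dd ≤ 0 := by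
      rw [rho_cv_vo]
      simp only [lor_add_left, lor_smul_left, lor_xp_dd, lor_ey_dd, lor_xm_dd]
      have : (0 : ℝ) < 2 ^ k := by positivity
      nlinarith [ht.1]
    obtain ⟨h3, h4⟩ := hY (fun g hg => LL_black_ez hg) _ hx h1 h2 hm
    exact hB _ hx h3 h4

theorem main :
    ∃ Γ : Subgroup G, RigidAcylindrical Γ ∧
      ∃ μ : Measure (Frame Γ), IsLocallyFiniteMeasure μ ∧ μ ≠ 0 ∧ μ (RFplus Γ)ᶜ = 0 ∧
        (∀ (t : ℝ) (E : Set (Frame Γ)), MeasurableSet E → μ (rmul (nz t) ⁻¹' E) = μ E) ∧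
        (∀ E : Set (Frame Γ), MeasurableSet E →
          (∀ t : ℝ, rmul (nz t) ⁻¹' E =ᵐ[μ] E) → μ E = 0 ∨ μ Eᶜ = 0) ∧
        (∃ (z : ℂ) (E : Set (Frame Γ)), MeasurableSet E ∧ μ (rmul (nz z) ⁻¹' E) ≠ μ E) ∧
        ∀ (x : Frame Γ) (z : ℂ), IsClosed (orbitH x) → μ (rmul (nz z) '' orbitH x) = 0 := by
  obtain ⟨R₀, hR₀, hgeo⟩ := exists_geo
  obtain ⟨θ, hθ, hmeas⟩ := exists_measure R₀ hR₀
  obtain ⟨Γ, B, hG, htor, hnc, hg⟩ := hgeo θ hθ
  obtain ⟨μ, h1, h2, h3, h4⟩ := hmeas Γ B hG hnc hg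
  exact ⟨Γ, hG.rigid htor, μ, h1, h2,
    measure_mono_null (compl_subset_compl.2 hG.FG_subset) h3, h4⟩

end Pool.Agent.MP_7a4cc0_an

end
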