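import Mathlib

section

set_option autoImplicit false

open Polynomial

namespace Pool.Agent.MP_14ad9d_nt.Full

variable (l : ℕ) {k k' : Type} [Field k] [Field k']

/-- the right hand side of the equation of the curve -/
noncomputable def FF (s : kˣ) : k[X] := X ^ l + C ((s : k) ^ 2)

/-- the affine coordinate ring of the curve -/
abbrev CR (s : kˣ) : Type := QuadraticAlgebra k[X] (FF l s) 0

/-- a map of coordinate rings induced by a map of polynomial rings -/
noncomputable def rmap {s : kˣ} {s' : k'ˣ} (f : k[X] →+* k'[X]) (hf : f (FF l s) = FF l s') :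
    CR l s →+* CR l s' where
  toFun z := ⟨f z.re, f z.im⟩
  map_one' := by ext1 <;> simp [QuadraticAlgebra.re_one, QuadraticAlgebra.im_one]
  map_mul' x y := by ext1 <;> simp [hf]
  map_zero' := by ext1 <;> simp
  map_add' x y := by ext1 <;> simp

theorem rmap_re {s : kˣ} {s' : k'ˣ} (f : k[X] →+* k'[X]) (hf : f (FF l s) = FF l s')
    (z : CR l s) : (rmap l f hf z).re = f z.re := rfl

theorem rmap_im {s : kˣ} {s' : k'ˣ} (f : k[X] →+* k'[X]) (hf : f (FF l s) = FF l s')
    (z : CR l s) : (rmap l f hf z).im = f z.im := rfl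

theorem rmap_inj {s : kˣ} {s' : k'ˣ} (f : k[X] →+* k'[X]) (hf : f (FF l s) = FF l s')
    (hi : Function.Injective f) : Function.Injective (rmap l f hf) := fun _ _ h =>
  QuadraticAlgebra.ext (hi (congrArg QuadraticAlgebra.re h)) (hi (congrArg QuadraticAlgebra.im h))

/-- change of the constant field -/
noncomputable def cf {s : kˣ} {s' : k'ˣ} (f : k →+* k') (h : f s = s') : CR l s →+* CR l s' :=
  rmap l (mapRingHom f) (by simp [FF, h])

theorem cf_inj {s : kˣ} {s' : k'ˣ} (f : k →+* k') (h : f s = s') :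
    Function.Injective (cf l f h) :=
  rmap_inj l _ _ (map_injective f f.injective)

/-- the automorphism that multiplies the first coordinate by a root of unity -/
noncomputable def sg (s : kˣ) {ζ : k} (h : IsPrimitiveRoot ζ l) : CR l s →+* CR l s :=
  rmap l (compRingHom (C ζ * X)) (by
    change (FF l s).comp (C ζ * X) = FF l s
    rw [FF, add_comp, C_comp, X_pow_comp, mul_pow, ← C_pow, h.pow_eq_one, C_1, one_mul])

theorem sg_inj [Fact l.Prime] (s : kˣ) {ζ : k} (h : IsPrimitiveRoot ζ l) :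
    Function.Injective (sg l s h) := by
  refine rmap_inj l _ _ ((injective_iff_map_eq_zero _).2 fun p hp => ?_)
  have h0 : ζ ≠ 0 := h.ne_zero (Fact.out : l.Prime).ne_zero
  have h1 : (p.comp (C ζ * X)).comp (C ζ⁻¹ * X) = p := by
    rw [comp_assoc, mul_comp, C_comp, X_comp, ← mul_assoc, ← C_mul, mul_inv_cancel₀ h0, C_1,
      one_mul, comp_X]
  have h2 : p.comp (C ζ * X) = 0 := hp
  rw [← h1, h2, zero_comp]

/-- the value of a function at the point with coordinates `a`, `b` -/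
noncomputable def evp {s : kˣ} (a b : k) (z : CR l s) : k := z.re.eval a + b * z.im.eval a

/-- the ideal generated by `u` and `y - v` -/
noncomputable def mum (s : kˣ) (u v : k[X]) : Ideal (CR l s) := Ideal.span {⟨u, 0⟩, ⟨-v, 1⟩}

/-- the ideal of a point -/
noncomputable def pt (s : kˣ) (a b : k) : Ideal (CR l s) := mum l s (X - C a) (C b)

/-- a pair of Mumford coordinates -/
def IsMum (s : kˣ) (u v : k[X]) : Prop := u.Monic ∧ v.degree < u.degree ∧ u ∣ v ^ 2 - FF l s

end Pool.Agent.MP_14ad9d_nt.Full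

end

section

set_option autoImplicit false
set_option linter.unusedSectionVars false

open Polynomial

namespace Pool.Agent.MP_14ad9d_nt.Full

theorem FF_monic (l : ℕ) [Fact l.Prime] {k : Type} [Field k] (s : kˣ) : (FF l s).Monic :=
  monic_X_pow_add_C _ (Fact.out : l.Prime).ne_zero

theorem FF_natDegree (l : ℕ) [Fact l.Prime] {k : Type} [Field k] (s : kˣ) :
    (FF l s).natDegree = l :=
  natDegree_X_pow_add_C

theorem FF_separable (l : ℕ) [Fact l.Prime] {k : Type} [Field k] [CharZero k] (s : kˣ) :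
    (FF l s).Separable := by
  have h := separable_X_pow_sub_C (n := l) (-(s : k) ^ 2)
    (Nat.cast_ne_zero.2 (Fact.out : l.Prime).ne_zero) (by simp)
  rwa [C_neg, sub_neg_eq_add] at h

namespace JBaseAux

variable {l : ℕ} [Fact l.Prime] [Fact (2 < l)] {k : Type} [Field k] {s : kˣ}

theorem l_odd : l % 2 = 1 :=
  (Fact.out : l.Prime).eq_two_or_odd.resolve_left (Fact.out : 2 < l).ne'

theorem norm_eq (z : CR l s) : QuadraticAlgebra.norm z = z.re ^ 2 - FF l s * z.im ^ 2 := by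
  rw [QuadraticAlgebra.norm_def]
  ring

theorem natDegree_norm {z : CR l s} (h : z.im ≠ 0) : (QuadraticAlgebra.norm z).natDegree =
    max (2 * z.re.natDegree) (2 * z.im.natDegree + l) := by
  have h1 : (z.re ^ 2).natDegree = 2 * z.re.natDegree := natDegree_pow _ _
  have h2 : (FF l s * z.im ^ 2).natDegree = 2 * z.im.natDegree + l := by
    rw [natDegree_mul (FF_monic l s).ne_zero (pow_ne_zero _ h), natDegree_pow, FF_natDegree,
      add_comm]
  have h3 := l_odd (l := l)
  rw [norm_eq]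
  rcases lt_or_gt_of_ne (show 2 * z.re.natDegree ≠ 2 * z.im.natDegree + l by omega) with h4 | h4
  · rw [natDegree_sub_eq_right_of_natDegree_lt (by omega), h2, max_eq_right h4.le]
  · rw [natDegree_sub_eq_left_of_natDegree_lt (by omega), h1, max_eq_left h4.le]

theorem im_eq_zero {z : CR l s} (h : (QuadraticAlgebra.norm z).natDegree < l) : z.im = 0 := by
  by_contra h0
  rw [natDegree_norm h0] at h
  omega

theorem norm_ne_zero {z : CR l s} (h : z ≠ 0) : QuadraticAlgebra.norm z ≠ 0 := fun e => by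
  have h0 : z.im = 0 := im_eq_zero (by rw [e, natDegree_zero]; exact (Fact.out : l.Prime).pos)
  rw [norm_eq, h0] at e
  exact h (QuadraticAlgebra.ext (by simpa using e) h0)

theorem noZeroDiv : NoZeroDivisors (CR l s) := ⟨fun {x y} h => by
  by_contra hc
  rw [not_or] at hc
  refine mul_ne_zero (norm_ne_zero hc.1) (norm_ne_zero hc.2) ?_
  rw [← map_mul, h, QuadraticAlgebra.norm_zero]⟩

theorem gen_mem₁ (u v : k[X]) : (⟨u, 0⟩ : CR l s) ∈ mum l s u v :=
  Ideal.subset_span (Set.mem_insert _ _)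

theorem gen_mem₂ (u v : k[X]) : (⟨-v, 1⟩ : CR l s) ∈ mum l s u v :=
  Ideal.subset_span (Set.mem_insert_of_mem _ rfl)

theorem mum_le {u v : k[X]} {I : Ideal (CR l s)} (h₁ : (⟨u, 0⟩ : CR l s) ∈ I)
    (h₂ : (⟨-v, 1⟩ : CR l s) ∈ I) : mum l s u v ≤ I :=
  Ideal.span_le.2 (Set.insert_subset h₁ (Set.singleton_subset_iff.2 h₂))

theorem mem_mum_of {u v : k[X]} {z : CR l s} (h : u ∣ z.re + v * z.im) : z ∈ mum l s u v := by
  obtain ⟨c, hc⟩ := h
  refine Ideal.mem_span_pair.2 ⟨⟨c, 0⟩, ⟨z.im, 0⟩, QuadraticAlgebra.ext ?_ ?_⟩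
  · simp only [QuadraticAlgebra.re_add, QuadraticAlgebra.re_mul]
    linear_combination -hc
  · simp

theorem mem_mum {u v : k[X]} (h : u ∣ v ^ 2 - FF l s) (z : CR l s) :
    z ∈ mum l s u v ↔ u ∣ z.re + v * z.im := by
  refine ⟨fun hz => ?_, mem_mum_of⟩
  obtain ⟨a, b, rfl⟩ := Ideal.mem_span_pair.1 hz
  obtain ⟨w, hw⟩ := h
  refine ⟨a.re + v * a.im - w * b.im, ?_⟩
  simp only [QuadraticAlgebra.re_add, QuadraticAlgebra.re_mul, QuadraticAlgebra.im_add,
    QuadraticAlgebra.im_mul]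
  linear_combination -b.im * hw

theorem mum_congr {u v v' : k[X]} (h : u ∣ v - v') : mum l s u v = mum l s u v' :=
  le_antisymm
    (mum_le (gen_mem₁ _ _) (mem_mum_of (by simpa [neg_add_eq_sub] using dvd_sub_comm.1 h)))
    (mum_le (gen_mem₁ _ _) (mem_mum_of (by simpa [neg_add_eq_sub] using h)))

theorem mum_assoc {u u' : k[X]} (h : Associated u u') (v : k[X]) :
    mum l s u v = mum l s u' v :=
  le_antisymm (mum_le (mem_mum_of (by simpa using h.symm.dvd)) (gen_mem₂ _ _))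
    (mum_le (mem_mum_of (by simpa using h.dvd)) (gen_mem₂ _ _))

theorem normalise {u v : k[X]} (hu : u ≠ 0) (h : u ∣ v ^ 2 - FF l s) :
    ∃ u' v' : k[X], IsMum l s u' v' ∧ u'.natDegree = u.natDegree ∧
      mum l s u' v' = mum l s u v := by
  classical
  have hm : (normalize u).Monic := monic_normalize hu
  have ha : Associated (normalize u) u := normalize_associated u
  have hd : normalize u ∣ v %ₘ normalize u - v :=
    ⟨-(v /ₘ normalize u), by linear_combination modByMonic_add_div v (normalize u)⟩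
  refine ⟨normalize u, v %ₘ normalize u, ⟨hm, degree_modByMonic_lt v hm, ?_⟩,
    natDegree_eq_of_degree_eq (degree_eq_degree_of_associated ha),
    (mum_congr hd).trans (mum_assoc ha v)⟩
  have e : (v %ₘ normalize u) ^ 2 - FF l s =
      (v %ₘ normalize u - v) * (v %ₘ normalize u + v) + (v ^ 2 - FF l s) := by ring
  rw [e]
  exact dvd_add (hd.mul_right _) (ha.dvd.trans h)

theorem mum_mul_neg [CharZero k] {u v : k[X]} (h : u ∣ v ^ 2 - FF l s) :
    mum l s u v * mum l s u (-v) = Ideal.span {⟨u, 0⟩} := by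
  obtain ⟨w, hw⟩ := h
  refine le_antisymm ?_ ?_
  · rw [mum, mum, Ideal.span_pair_mul_span_pair, Ideal.span_le]
    rintro z (rfl | rfl | rfl | rfl)
    · exact Ideal.mem_span_singleton.2 (dvd_mul_right _ _)
    · exact Ideal.mem_span_singleton.2 (dvd_mul_right _ _)
    · exact Ideal.mem_span_singleton.2 (dvd_mul_left _ _)
    · refine Ideal.mem_span_singleton.2 ⟨⟨-w, 0⟩, QuadraticAlgebra.ext ?_ ?_⟩
      · simp only [QuadraticAlgebra.re_mul]
        linear_combination -hw
      · simp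
  · obtain ⟨a, b, hab⟩ := FF_separable l s
    have hF : FF l s = v ^ 2 - u * w := by linear_combination -hw
    have hD : derivative (FF l s) =
        2 * v * derivative v - (derivative u * w + u * derivative w) := by
      rw [hF, derivative_sub, derivative_mul, pow_two, derivative_mul]
      ring
    have ht : (2 : k[X]) * C (2⁻¹ : k) = 1 := by
      rw [← map_ofNat C 2, ← C_mul, mul_inv_cancel₀ two_ne_zero, C_1]
    rw [hD] at hab
    have m₁ := Ideal.mul_mem_mul (gen_mem₁ (l := l) (s := s) u v) (gen_mem₁ u (-v))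
    have m₂ := Ideal.mul_mem_mul (gen_mem₁ (l := l) (s := s) u v) (gen_mem₂ u (-v))
    have m₃ := Ideal.mul_mem_mul (gen_mem₂ (l := l) (s := s) u v) (gen_mem₁ u (-v))
    have m₄ := Ideal.mul_mem_mul (gen_mem₂ (l := l) (s := s) u v) (gen_mem₂ u (-v))
    rw [Ideal.span_singleton_le_iff_mem]
    convert add_mem (add_mem
      (Ideal.mul_mem_left _ ⟨-(a * w) - b * derivative w, 0⟩ m₁)
      (Ideal.mul_mem_left _ ⟨a * v * C (2⁻¹ : k) + b * derivative v, 0⟩ (sub_mem m₂ m₃)))
      (Ideal.mul_mem_left _ ⟨b * derivative u, 0⟩ m₄) using 1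
    refine QuadraticAlgebra.ext ?_ ?_
    · simp only [QuadraticAlgebra.re_add, QuadraticAlgebra.re_mul, QuadraticAlgebra.re_sub,
        QuadraticAlgebra.im_mul, QuadraticAlgebra.im_sub]
      linear_combination -u * hab - u * a * v ^ 2 * ht + (u * a - b * derivative u) * hF
    · simp

theorem exists_form {I : Ideal (CR l s)} (hI : I ≠ ⊥) :
    ∃ d u v : k[X], d ≠ 0 ∧ IsMum l s u v ∧ I = Ideal.span {⟨d, 0⟩} * mum l s u v := by
  let A : Ideal k[X] := (I.restrictScalars k[X]).map (QuadraticAlgebra.imₗ (FF l s) 0)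
  let N : Ideal k[X] := I.comap (algebraMap k[X] (CR l s))
  obtain ⟨d, hd⟩ : ∃ d, A = Ideal.span {d} := (IsPrincipalIdealRing.principal A).principal
  obtain ⟨n, hn⟩ : ∃ n, N = Ideal.span {n} := (IsPrincipalIdealRing.principal N).principal
  have hA : ∀ z ∈ I, d ∣ z.im := fun z hz =>
    Ideal.mem_span_singleton.1 (hd ▸ (⟨z, hz, rfl⟩ : z.im ∈ A))
  have hN : ∀ p : k[X], (⟨p, 0⟩ : CR l s) ∈ I ↔ n ∣ p := fun p => by
    rw [← Ideal.mem_span_singleton, ← hn]
    rfl
  obtain ⟨z₀, hz₀, e₀⟩ : d ∈ A := hd ▸ Ideal.mem_span_singleton_self d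
  change z₀.im = d at e₀
  have hz₀ : z₀ ∈ I := hz₀
  have hn0 : n ≠ 0 := by
    obtain ⟨z, hz, h0⟩ := Submodule.exists_mem_ne_zero_of_ne_bot hI
    rintro rfl
    refine norm_ne_zero h0 (zero_dvd_iff.1 ((hN _).1 ?_))
    rw [← QuadraticAlgebra.algebraMap_eq, QuadraticAlgebra.algebraMap_norm_eq_mul_star]
    exact I.mul_mem_right _ hz
  obtain ⟨v, hv⟩ : d ∣ -z₀.re :=
    dvd_neg.2 (by simpa using hA _ (I.mul_mem_left ⟨0, 1⟩ hz₀))
  obtain ⟨u, hu⟩ : d ∣ n := by simpa using hA _ (I.mul_mem_left ⟨0, 1⟩ ((hN n).2 dvd_rfl))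
  have hd0 : d ≠ 0 := left_ne_zero_of_mul (hu ▸ hn0)
  have hu0 : u ≠ 0 := right_ne_zero_of_mul (hu ▸ hn0)
  have ez : z₀ = ⟨d, 0⟩ * ⟨-v, 1⟩ := QuadraticAlgebra.ext
    (by simp only [QuadraticAlgebra.re_mul]; linear_combination -hv) (by simp [e₀])
  have hdvd : u ∣ v ^ 2 - FF l s := by
    have h := I.mul_mem_right ⟨-v, -1⟩ hz₀
    have e : z₀ * ⟨-v, -1⟩ = ⟨d * (v ^ 2 - FF l s), 0⟩ := by
      rw [ez]
      refine QuadraticAlgebra.ext ?_ ?_
      · simp only [QuadraticAlgebra.re_mul, QuadraticAlgebra.im_mul]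
        ring
      · simp only [QuadraticAlgebra.re_mul, QuadraticAlgebra.im_mul]
        ring
    rw [e, hN, hu] at h
    exact (mul_dvd_mul_iff_left hd0).1 h
  obtain ⟨u', v', hm, -, e⟩ := normalise hu0 hdvd
  refine ⟨d, u', v', hd0, hm, ?_⟩
  rw [e]
  refine le_antisymm (fun z hz => ?_) ?_
  · obtain ⟨c, hc⟩ := hA z hz
    have h := I.sub_mem hz (I.mul_mem_left ⟨c, 0⟩ hz₀)
    have e₁ : z - ⟨c, 0⟩ * z₀ = ⟨z.re + d * (v * c), 0⟩ := by
      rw [ez]
      refine QuadraticAlgebra.ext ?_ ?_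
      · simp only [QuadraticAlgebra.re_mul, QuadraticAlgebra.im_mul, QuadraticAlgebra.re_sub]
        ring
      · simp only [QuadraticAlgebra.re_mul, QuadraticAlgebra.im_mul, QuadraticAlgebra.im_sub]
        linear_combination hc
    rw [e₁, hN, hu] at h
    obtain ⟨t, ht⟩ := h
    refine Ideal.mem_span_singleton_mul.2 ⟨⟨u * t - v * c, c⟩, mem_mum_of ⟨t, by ring⟩, ?_⟩
    refine QuadraticAlgebra.ext ?_ ?_
    · simp only [QuadraticAlgebra.re_mul]
      linear_combination -ht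
    · simp [hc]
  · refine Ideal.span_singleton_mul_le_iff.2 fun z hz => ?_
    obtain ⟨a, b, hz⟩ := Ideal.mem_span_pair.1 hz
    have e₂ : (⟨d, 0⟩ : CR l s) * ⟨u, 0⟩ = ⟨n, 0⟩ := QuadraticAlgebra.ext (by simp [hu]) (by simp)
    rw [← hz, mul_add, mul_left_comm, e₂, mul_left_comm, ← ez]
    exact I.add_mem (I.mul_mem_left _ ((hN n).2 dvd_rfl)) (I.mul_mem_left _ hz₀)

end JBaseAux

instance domCR (l : ℕ) [Fact l.Prime] [Fact (2 < l)] {k : Type} [Field k] (s : kˣ) :
    IsDomain (CR l s) :=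
  haveI := JBaseAux.noZeroDiv (l := l) (s := s)
  NoZeroDivisors.to_isDomain _

instance dedCR (l : ℕ) [Fact l.Prime] [Fact (2 < l)] {k : Type} [Field k] [CharZero k] (s : kˣ) :
    IsDedekindDomain (CR l s) := by
  refine (isDedekindDomain_iff_mul_inv_cancel (K := FractionRing (CR l s))).2 fun I hI => ?_
  rw [FractionalIdeal.mul_inv_cancel_iff_isUnit]
  have key : ∀ x : FractionRing (CR l s), x ≠ 0 →
      IsUnit (FractionalIdeal.spanSingleton (nonZeroDivisors (CR l s)) x) := fun x hx =>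
    IsUnit.of_mul_eq_one _ (FractionalIdeal.spanSingleton_mul_inv _ hx)
  have key' : ∀ p : k[X], p ≠ 0 → IsUnit ((Ideal.span {(⟨p, 0⟩ : CR l s)} : Ideal (CR l s)) :
      FractionalIdeal (nonZeroDivisors (CR l s)) (FractionRing (CR l s))) := fun p hp => by
    rw [FractionalIdeal.coeIdeal_span_singleton]
    refine key _ ((map_ne_zero_iff _ (IsFractionRing.injective _ _)).2 fun h => hp ?_)
    exact congrArg QuadraticAlgebra.re h
  obtain ⟨a, J, ha, rfl⟩ := FractionalIdeal.exists_eq_spanSingleton_mul I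
  have hJ : J ≠ ⊥ := by
    rintro rfl
    exact hI (by simp)
  obtain ⟨d, u, v, hd, hm, rfl⟩ := JBaseAux.exists_form hJ
  rw [FractionalIdeal.coeIdeal_mul]
  refine (key _ (inv_ne_zero ((map_ne_zero_iff _ (IsFractionRing.injective _ _)).2 ha))).mul
    ((key' d hd).mul ?_)
  have h := key' u hm.1.ne_zero
  rw [← JBaseAux.mum_mul_neg hm.2.2, FractionalIdeal.coeIdeal_mul] at h
  exact isUnit_of_mul_isUnit_left h

end Pool.Agent.MP_14ad9d_nt.Full

end

section

set_option autoImplicit false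

open Polynomial

namespace Pool.Agent.MP_14ad9d_nt.Full

variable (l : ℕ) [Fact l.Prime] [Fact (2 < l)] {k k' : Type} [Field k] [CharZero k] [Field k']
  [CharZero k']

/-- the group of rational points of the Jacobian -/
abbrev Jac (s : kˣ) : Type := ClassGroup (CR l s)

open Classical in
/-- the class of an ideal -/
noncomputable def cl {s : kˣ} (I : Ideal (CR l s)) : Jac l s :=
  if h : I ≠ ⊥ then ClassGroup.mk0 ⟨I, mem_nonZeroDivisors_iff_ne_zero.2 h⟩ else 1

/-- the map of class groups induced by an injective map of coordinate rings -/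
noncomputable def jmap {s : kˣ} {s' : k'ˣ} (φ : CR l s →+* CR l s') (hφ : Function.Injective φ) :
    Jac l s →* Jac l s' :=
  letI := φ.toAlgebra
  haveI : Module.IsTorsionFree (CR l s) (CR l s') :=
    (Module.isTorsionFree_iff_algebraMap_injective).2 hφ
  ClassGroup.extendedHom (CR l s) (CR l s')

theorem jmap_cl {s : kˣ} {s' : k'ˣ} (φ : CR l s →+* CR l s') (hφ : Function.Injective φ)
    (I : Ideal (CR l s)) : jmap l φ hφ (cl l I) = cl l (I.map φ) := by
  by_cases h : I = ⊥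
  · simp [cl, h]
  · have h' : I.map φ ≠ ⊥ := (Ideal.map_eq_bot_iff_of_injective hφ).not.2 h
    letI := φ.toAlgebra
    haveI : Module.IsTorsionFree (CR l s) (CR l s') :=
      (Module.isTorsionFree_iff_algebraMap_injective).2 hφ
    rw [cl, cl, dif_pos h, dif_pos h']
    exact ClassGroup.extendedHom_mk0 _ _ _

/-- change of the constant field -/
noncomputable def jcf {s : kˣ} {s' : k'ˣ} (f : k →+* k') (h : f s = s') : Jac l s →* Jac l s' :=
  jmap l (cf l f h) (cf_inj l f h)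

/-- the complex multiplication -/
noncomputable def jsg (s : kˣ) {ζ : k} (h : IsPrimitiveRoot ζ l) : Jac l s →* Jac l s :=
  jmap l (sg l s h) (sg_inj l s h)

/-- the class of the point of order `l` -/
noncomputable def jT (s : kˣ) : Jac l s := cl l (pt l s 0 (s : k))

/-- the descent map, as a relation: `d` represents the image of `x` -/
def Del (s : kˣ) {ζ : k} (h : IsPrimitiveRoot ζ l) (x : Jac l s) (d : k) : Prop :=
  ∃ (I : Ideal (CR l s)) (m : CR l s) (e : k), cl l I = x ∧ e ≠ 0 ∧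
    ∏ j ∈ Finset.range l, I.map (sg l s h ^ j) = Ideal.span {m} ∧
    evp l 0 (s : k) m ≠ 0 ∧ evp l 0 (-(s : k)) m ≠ 0 ∧
    d * evp l 0 (-(s : k)) m = evp l 0 (s : k) m * e ^ l

end Pool.Agent.MP_14ad9d_nt.Full

end

section

set_option autoImplicit false
set_option linter.unusedSectionVars false

open Polynomial

namespace Pool.Agent.MP_14ad9d_nt.Full

variable {l : ℕ} [Fact l.Prime] [Fact (2 < l)] {k : Type} [Field k] [CharZero k] {s : kˣ}

theorem cl_mul {I J : Ideal (CR l s)} (hI : I ≠ ⊥) (hJ : J ≠ ⊥) :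
    cl l (I * J) = cl l I * cl l J := by
  rw [cl, cl, cl, dif_pos hI, dif_pos hJ, dif_pos (show I * J ≠ ⊥ from mul_ne_zero hI hJ),
    ← map_mul]
  rfl

theorem cl_span (m : CR l s) : cl l (Ideal.span {m}) = 1 := by
  rw [cl]
  split_ifs with h
  · exact (ClassGroup.mk0_eq_one_iff _).2 ⟨m, rfl⟩
  · rfl

theorem cl_top : cl l (⊤ : Ideal (CR l s)) = 1 := by
  rw [← Ideal.span_singleton_one, cl_span]

theorem cl_prod {ι : Type} (T : Finset ι) (I : ι → Ideal (CR l s)) (h : ∀ i ∈ T, I i ≠ ⊥) :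
    cl l (∏ i ∈ T, I i) = ∏ i ∈ T, cl l (I i) := by
  classical
  induction T using Finset.induction_on with
  | empty => simpa using cl_top
  | insert a T ha ih =>
    have h' : ∀ i ∈ T, I i ≠ ⊥ := fun i hi => h i (Finset.mem_insert_of_mem hi)
    rw [Finset.prod_insert ha, Finset.prod_insert ha,
      cl_mul (h a (Finset.mem_insert_self _ _)) (Finset.prod_ne_zero_iff.2 h'), ih h']

theorem cl_mprod (T : Multiset (Ideal (CR l s))) (h : ∀ I ∈ T, I ≠ ⊥) :
    cl l T.prod = (T.map (cl l)).prod := by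
  induction T using Multiset.induction_on with
  | empty => simpa using cl_top
  | cons a T ih =>
    have h' : ∀ I ∈ T, I ≠ ⊥ := fun i hi => h i (Multiset.mem_cons_of_mem hi)
    rw [Multiset.prod_cons, Multiset.map_cons, Multiset.prod_cons,
      cl_mul (h a (Multiset.mem_cons_self _ _)) (Multiset.prod_ne_zero fun h0 => h' _ h0 rfl),
      ih h']

theorem cl_eq_one_iff {I : Ideal (CR l s)} (hI : I ≠ ⊥) :
    cl l I = 1 ↔ ∃ m, I = Ideal.span {m} := by
  rw [cl, dif_pos hI, ClassGroup.mk0_eq_one_iff]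
  exact ⟨fun h => h.principal, fun h => ⟨h⟩⟩

theorem cl_eq_iff {I J : Ideal (CR l s)} (hI : I ≠ ⊥) (hJ : J ≠ ⊥) : cl l I = cl l J ↔
    ∃ a b : CR l s, a ≠ 0 ∧ b ≠ 0 ∧ Ideal.span {a} * I = Ideal.span {b} * J := by
  rw [cl, cl, dif_pos hI, dif_pos hJ, ClassGroup.mk0_eq_mk0_iff]
  simp only [exists_prop]

theorem J1Aux.cl_surj (x : Jac l s) : ∃ I : Ideal (CR l s), I ≠ ⊥ ∧ cl l I = x := by
  obtain ⟨⟨I, hI⟩, rfl⟩ := ClassGroup.mk0_surjective x
  have h : I ≠ ⊥ := mem_nonZeroDivisors_iff_ne_zero.1 hI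
  exact ⟨I, h, by rw [cl, dif_pos h]⟩

/-- every class has a representative prime to a given ideal -/
theorem exists_cl_coprime (x : Jac l s) {N : Ideal (CR l s)} (hN : N ≠ ⊥) :
    ∃ I : Ideal (CR l s), I ≠ ⊥ ∧ cl l I = x ∧ I ⊔ N = ⊤ := by
  by_cases hT : N = ⊤
  · obtain ⟨I, hI, e⟩ := J1Aux.cl_surj x
    exact ⟨I, hI, e, by simp [hT]⟩
  obtain ⟨J, hJ, e⟩ := J1Aux.cl_surj x⁻¹
  obtain ⟨a, ha⟩ := IsDedekindDomain.exists_sup_span_eq (Ideal.mul_le_left (I := J) (J := N))
    (mul_ne_zero hJ hN)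
  obtain ⟨I, hI⟩ : J ∣ Ideal.span {a} := Ideal.dvd_iff_le.2 (ha ▸ le_sup_right)
  have h1 : N ⊔ I = ⊤ := by
    refine mul_left_cancel₀ hJ ?_
    rw [Ideal.mul_sup, ← hI, ha, Ideal.mul_top]
  have h0 : I ≠ ⊥ := by
    rintro rfl
    exact hT (by simpa using h1)
  refine ⟨I, h0, ?_, by rw [sup_comm, h1]⟩
  have h2 := cl_span a
  rw [hI, cl_mul hJ h0, e] at h2
  exact (inv_mul_eq_one.1 h2).symm

theorem unit_const {z : CR l s} (hz : IsUnit z) : ∃ c : k, c ≠ 0 ∧ z = ⟨C c, 0⟩ := by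
  have h := QuadraticAlgebra.isUnit_iff_norm_isUnit.1 hz
  have h0 : z.im = 0 := JBaseAux.im_eq_zero
    (by rw [natDegree_eq_zero_of_isUnit h]; exact (Fact.out : l.Prime).pos)
  rw [JBaseAux.norm_eq, h0] at h
  have h1 : IsUnit z.re := (isUnit_pow_iff two_ne_zero).1 (by simpa using h)
  obtain ⟨c, hc, e⟩ := Polynomial.isUnit_iff.1 h1
  exact ⟨c, hc.ne_zero, QuadraticAlgebra.ext e.symm h0⟩

theorem norm_eq (z : CR l s) : QuadraticAlgebra.norm z = z.re ^ 2 - FF l s * z.im ^ 2 :=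
  JBaseAux.norm_eq z

/-- the degree of the norm -/
theorem natDegree_norm {z : CR l s} (h : z.im ≠ 0) : (QuadraticAlgebra.norm z).natDegree =
    max (2 * z.re.natDegree) (2 * z.im.natDegree + l) :=
  JBaseAux.natDegree_norm h

theorem mum_ne_bot (u v : k[X]) : mum l s u v ≠ ⊥ := fun h => by
  have h1 := JBaseAux.gen_mem₂ (l := l) (s := s) u v
  rw [h, Ideal.mem_bot] at h1
  exact one_ne_zero (congrArg QuadraticAlgebra.im h1)

theorem mum_one (v : k[X]) : mum l s 1 v = ⊤ :=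
  (Ideal.eq_top_iff_one _).2 (JBaseAux.gen_mem₁ 1 v)

theorem mem_mum {u v : k[X]} (h : u ∣ v ^ 2 - FF l s) (z : CR l s) :
    z ∈ mum l s u v ↔ u ∣ z.re + v * z.im :=
  JBaseAux.mem_mum h z

theorem mum_congr {u v v' : k[X]} (h : u ∣ v - v') : mum l s u v = mum l s u v' :=
  JBaseAux.mum_congr h

theorem mum_assoc {u u' : k[X]} (h : Associated u u') (v : k[X]) :
    mum l s u v = mum l s u' v :=
  JBaseAux.mum_assoc h v

theorem map_star_mum (u v : k[X]) :
    (mum l s u v).map (starRingEnd (CR l s)) = mum l s u (-v) := by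
  have e₁ : starRingEnd (CR l s) ⟨u, 0⟩ = ⟨u, 0⟩ := by simp [starRingEnd_apply]
  have e₂ : starRingEnd (CR l s) ⟨-v, 1⟩ = -⟨- -v, 1⟩ := by
    simp [starRingEnd_apply, QuadraticAlgebra.neg_mk]
  rw [mum, mum, Ideal.map_span, Set.image_pair, e₁, e₂, Ideal.span_insert,
    Ideal.span_singleton_neg, ← Ideal.span_insert]

theorem mum_mul_neg {u v : k[X]} (h : u ∣ v ^ 2 - FF l s) :
    mum l s u v * mum l s u (-v) = Ideal.span {⟨u, 0⟩} :=
  JBaseAux.mum_mul_neg h

theorem J1Aux.mk_mul (a b : k[X]) : (⟨a, 0⟩ : CR l s) * ⟨b, 0⟩ = ⟨a * b, 0⟩ :=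
  QuadraticAlgebra.ext (by simp) (by simp)

theorem J1Aux.mul_le (u u' v : k[X]) : mum l s u v * mum l s u' v ≤ mum l s (u * u') v := by
  rw [mum, mum, Ideal.span_pair_mul_span_pair, Ideal.span_le]
  rintro z (h | h | h | h) <;> rw [h]
  · rw [J1Aux.mk_mul]
    exact JBaseAux.gen_mem₁ _ _
  · exact Ideal.mul_mem_left _ _ (JBaseAux.gen_mem₂ _ _)
  · exact Ideal.mul_mem_right _ _ (JBaseAux.gen_mem₂ _ _)
  · exact Ideal.mul_mem_left _ _ (JBaseAux.gen_mem₂ _ _)

theorem mum_mul {u u' v : k[X]} (h : u * u' ∣ v ^ 2 - FF l s) :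
    mum l s u v * mum l s u' v = mum l s (u * u') v := by
  have e : mum l s u v * mum l s u' v * (mum l s u (-v) * mum l s u' (-v)) =
      mum l s (u * u') v * mum l s (u * u') (-v) := by
    rw [mul_mul_mul_comm, mum_mul_neg ((dvd_mul_right _ _).trans h),
      mum_mul_neg ((dvd_mul_left _ _).trans h), mum_mul_neg h,
      Ideal.span_singleton_mul_span_singleton, J1Aux.mk_mul]
  refine mul_right_cancel₀ (mul_ne_zero (mum_ne_bot u (-v)) (mum_ne_bot u' (-v)))
    (le_antisymm (Ideal.mul_mono_left (J1Aux.mul_le u u' v)) ?_)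
  rw [e]
  exact Ideal.mul_mono_right (J1Aux.mul_le u u' (-v))

theorem mum_full (v : k[X]) : mum l s (v ^ 2 - FF l s) v = Ideal.span {⟨-v, 1⟩} := by
  refine le_antisymm (JBaseAux.mum_le ?_ (Ideal.mem_span_singleton_self _))
    ((Ideal.span_singleton_le_iff_mem _).2 (JBaseAux.gen_mem₂ _ _))
  refine Ideal.mem_span_singleton.2 ⟨⟨-v, -1⟩, QuadraticAlgebra.ext ?_ ?_⟩
  · simp only [QuadraticAlgebra.re_mul]
    ring
  · simp

theorem mum_split (R : Multiset k) {v : k[X]} (h : (R.map fun a => X - C a).prod ∣ v ^ 2 - FF l s) :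
    mum l s (R.map fun a => X - C a).prod v = (R.map fun a => pt l s a (v.eval a)).prod := by
  induction R using Multiset.induction_on with
  | empty => simpa using mum_one v
  | cons a R ih =>
    rw [Multiset.map_cons, Multiset.prod_cons] at h ⊢
    rw [Multiset.map_cons, Multiset.prod_cons, ← mum_mul h, ih ((dvd_mul_left _ _).trans h),
      mum_congr X_sub_C_dvd_sub_C_eval, pt]

theorem exists_form {I : Ideal (CR l s)} (hI : I ≠ ⊥) :
    ∃ d u v : k[X], d ≠ 0 ∧ IsMum l s u v ∧ I = Ideal.span {⟨d, 0⟩} * mum l s u v :=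
  JBaseAux.exists_form hI

theorem J1Aux.cl_neg {u v : k[X]} (h : u ∣ v ^ 2 - FF l s) :
    cl l (mum l s u v) * cl l (mum l s u (-v)) = 1 := by
  rw [← cl_mul (mum_ne_bot _ _) (mum_ne_bot _ _), mum_mul_neg h, cl_span]

theorem J1Aux.red (n : ℕ) : ∀ u v : k[X], IsMum l s u v → u.natDegree = n →
    ∃ u' v' : k[X], IsMum l s u' v' ∧ u'.natDegree ≤ l / 2 ∧
      cl l (mum l s u' v') = cl l (mum l s u v) := by
  induction n using Nat.strong_induction_on with
  | _ n ih =>
    intro u v hm hn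
    by_cases hd : u.natDegree ≤ l / 2
    · exact ⟨u, v, hm, hd, rfl⟩
    obtain ⟨w, hw⟩ := hm.2.2
    have hN : QuadraticAlgebra.norm (⟨-v, 1⟩ : CR l s) = u * w := by
      rw [norm_eq, ← hw]
      ring
    have hw0 : w ≠ 0 := right_ne_zero_of_mul (hN ▸ JBaseAux.norm_ne_zero fun h =>
      one_ne_zero (congrArg QuadraticAlgebra.im h))
    have h1 := natDegree_norm (z := (⟨-v, 1⟩ : CR l s)) one_ne_zero
    rw [hN, natDegree_mul hm.1.ne_zero hw0, natDegree_neg, natDegree_one] at h1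
    have h2 : v.natDegree < u.natDegree := by
      rcases eq_or_ne v 0 with rfl | hv
      · rw [natDegree_zero]
        omega
      · exact natDegree_lt_natDegree hv hm.2.1
    have h3 := JBaseAux.l_odd (l := l)
    have hwd : w ∣ (-v) ^ 2 - FF l s := by
      rw [neg_sq, hw]
      exact dvd_mul_left _ _
    obtain ⟨u₁, v₁, hm₁, hd₁, e₁⟩ := JBaseAux.normalise hw0 hwd
    obtain ⟨u', v', hm', hd', e'⟩ := ih u₁.natDegree (by omega) u₁ v₁ hm₁ rfl
    refine ⟨u', v', hm', hd', ?_⟩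
    have h4 : cl l (mum l s u v) * cl l (mum l s w v) = 1 := by
      rw [← cl_mul (mum_ne_bot _ _) (mum_ne_bot _ _), mum_mul (hw ▸ dvd_rfl), ← hw, mum_full,
        cl_span]
    have h5 := J1Aux.cl_neg (l := l) (s := s) (u := w) (v := v) (hw ▸ dvd_mul_left _ _)
    rw [e', e₁, eq_inv_of_mul_eq_one_left h4, eq_inv_of_mul_eq_one_right h5]

/-- every class has a reduced representative -/
theorem exists_red (x : Jac l s) :
    ∃ u v : k[X], IsMum l s u v ∧ u.natDegree ≤ l / 2 ∧ cl l (mum l s u v) = x := by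
  obtain ⟨I, hI, rfl⟩ := J1Aux.cl_surj x
  obtain ⟨d, u, v, -, hm, rfl⟩ := exists_form hI
  rw [cl_mul (left_ne_zero_of_mul hI) (mum_ne_bot _ _), cl_span, one_mul]
  exact J1Aux.red _ u v hm rfl

theorem J1Aux.dvd_of {u v A w : k[X]} {J : Ideal (CR l s)}
    (h : mum l s u v * Ideal.span {⟨w, 0⟩} = Ideal.span {⟨A, 0⟩} * J) : A ∣ w := by
  have h1 := Ideal.mul_mem_mul (JBaseAux.gen_mem₂ (l := l) (s := s) u v)
    (Ideal.mem_span_singleton_self (⟨w, 0⟩ : CR l s))
  rw [h] at h1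
  have h2 : Ideal.span {(⟨A, 0⟩ : CR l s)} * J ≤ Ideal.span {⟨A, 0⟩} := Ideal.mul_le_left
  obtain ⟨c, hc⟩ := Ideal.mem_span_singleton.1 (h2 h1)
  exact ⟨c.im, by simpa using congrArg QuadraticAlgebra.im hc⟩

/-- reduced representatives are unique -/
theorem red_unique {u v u' v' : k[X]} (h : IsMum l s u v) (h' : IsMum l s u' v')
    (hd : u.natDegree ≤ l / 2) (hd' : u'.natDegree ≤ l / 2)
    (e : cl l (mum l s u v) = cl l (mum l s u' v')) : u = u' ∧ v = v' := by
  have h1 : cl l (mum l s u v * mum l s u' (-v')) = 1 := by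
    rw [cl_mul (mum_ne_bot _ _) (mum_ne_bot _ _), e, J1Aux.cl_neg h'.2.2]
  obtain ⟨m, hm⟩ := (cl_eq_one_iff (mul_ne_zero (mum_ne_bot _ _) (mum_ne_bot _ _))).1 h1
  have hm' : mum l s u (-v) * mum l s u' v' = Ideal.span {star m} := by
    have h2 := congrArg (Ideal.map (starRingEnd (CR l s))) hm
    rwa [Ideal.map_mul, map_star_mum, map_star_mum, neg_neg, Ideal.map_span,
      Set.image_singleton] at h2
  have h3 : Ideal.span {algebraMap k[X] (CR l s) (u * u')} =
      Ideal.span {algebraMap k[X] (CR l s) (QuadraticAlgebra.norm m)} := by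
    rw [QuadraticAlgebra.algebraMap_norm_eq_mul_star, ← Ideal.span_singleton_mul_span_singleton,
      ← hm, ← hm', mul_mul_mul_comm, mum_mul_neg h.2.2, mul_comm (mum l s u' (-v')),
      mum_mul_neg h'.2.2, Ideal.span_singleton_mul_span_singleton, J1Aux.mk_mul]
    rfl
  have h4 := Ideal.span_singleton_eq_span_singleton.1 h3
  have h5 : u * u' ∣ QuadraticAlgebra.norm m := QuadraticAlgebra.algebraMap_dvd_iff_dvd.1 h4.dvd
  have h6 : QuadraticAlgebra.norm m ∣ u * u' :=
    QuadraticAlgebra.algebraMap_dvd_iff_dvd.1 h4.symm.dvd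
  have hu := h.1.ne_zero
  have hu' := h'.1.ne_zero
  have h7 : m.im = 0 := by
    refine JBaseAux.im_eq_zero ((natDegree_le_of_dvd h6 (mul_ne_zero hu hu')).trans_lt ?_)
    have := JBaseAux.l_odd (l := l)
    rw [natDegree_mul hu hu']
    omega
  obtain ⟨A, rfl⟩ : ∃ A, m = ⟨A, 0⟩ := ⟨m.re, QuadraticAlgebra.ext rfl h7⟩
  have h8 : mum l s u v * Ideal.span {⟨u', 0⟩} = Ideal.span {⟨A, 0⟩} * mum l s u' v' := by
    rw [← hm, ← mum_mul_neg h'.2.2]
    ring
  have h9 : mum l s u' (-v') * Ideal.span {⟨u, 0⟩} = Ideal.span {⟨A, 0⟩} * mum l s u (-v) := by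
    rw [← hm, ← mum_mul_neg h.2.2]
    ring
  obtain ⟨a', ha'⟩ := J1Aux.dvd_of h8
  obtain ⟨a, ha⟩ := J1Aux.dvd_of h9
  have hA : A ≠ 0 := left_ne_zero_of_mul (ha ▸ hu)
  have h10 : IsUnit (a * a') := by
    refine isUnit_of_dvd_one ((mul_dvd_mul_iff_left (pow_ne_zero 2 hA)).1 ?_)
    rw [norm_eq, ha, ha'] at h5
    convert h5 using 1 <;> ring
  have hAu : Associated A u := ha ▸ associated_mul_unit_right _ _ (isUnit_of_mul_isUnit_left h10)
  have hAu' : Associated A u' :=
    ha' ▸ associated_mul_unit_right _ _ (isUnit_of_mul_isUnit_right h10)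
  obtain rfl : u = u' := eq_of_monic_of_associated h.1 h'.1 (hAu.symm.trans hAu')
  refine ⟨rfl, ?_⟩
  have h11 : Ideal.span {(⟨A, 0⟩ : CR l s)} = Ideal.span {⟨u, 0⟩} :=
    Ideal.span_singleton_eq_span_singleton.2 (hAu.map (algebraMap k[X] (CR l s)))
  rw [h11, mul_comm] at h8
  have h12 : mum l s u v = mum l s u v' := mul_left_cancel₀
    (Ideal.span_singleton_eq_bot.not.2 fun h0 => hu (congrArg QuadraticAlgebra.re h0)) h8
  have h13 := (mem_mum h'.2.2 _).1 (h12 ▸ JBaseAux.gen_mem₂ u v)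
  refine (sub_eq_zero.1 (eq_zero_of_dvd_of_degree_lt (p := u) ?_ ?_)).symm
  · simpa [neg_add_eq_sub] using h13
  · exact (degree_sub_le _ _).trans_lt (max_lt h'.2.1 h.2.1)

end Pool.Agent.MP_14ad9d_nt.Full

end

section

set_option autoImplicit false
set_option linter.unusedSectionVars false

open Polynomial

namespace Pool.Agent.MP_14ad9d_nt.Full

variable {l : ℕ} [Fact l.Prime] [Fact (2 < l)] {k k' k'' : Type} [Field k] [CharZero k]
  [Field k'] [CharZero k'] [Field k''] [CharZero k''] {s : kˣ} {s' : k'ˣ} {s'' : k''ˣ}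

theorem evp_add (a b : k) (z w : CR l s) : evp l a b (z + w) = evp l a b z + evp l a b w := by
  simp only [evp, QuadraticAlgebra.re_add, QuadraticAlgebra.im_add, eval_add]
  ring

theorem evp_mul {a b : k} (h : b ^ 2 = a ^ l + (s : k) ^ 2) (z w : CR l s) :
    evp l a b (z * w) = evp l a b z * evp l a b w := by
  simp only [evp, QuadraticAlgebra.re_mul, QuadraticAlgebra.im_mul, eval_add, eval_mul, FF,
    eval_pow, eval_X, eval_C, eval_zero]
  linear_combination (-(z.im.eval a * w.im.eval a)) * h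

theorem exists_evHom {a b : k} (h : b ^ 2 = a ^ l + (s : k) ^ 2) :
    ∃ φ : CR l s →+* k, ∀ z, φ z = evp l a b z := by
  exact ⟨{ toFun := evp l a b
           map_one' := by simp [evp, QuadraticAlgebra.re_one, QuadraticAlgebra.im_one]
           map_mul' := evp_mul h
           map_zero' := by simp [evp]
           map_add' := evp_add a b }, fun _ => rfl⟩

theorem evp_sg {ζ : k} (hζ : IsPrimitiveRoot ζ l) (a b : k) (z : CR l s) :
    evp l a b (sg l s hζ z) = evp l (ζ * a) b z := by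
  simp [evp, sg, rmap_re, rmap_im, eval_comp]

theorem evp_cf (f : k →+* k') (h : f s = s') (a b : k) (z : CR l s) :
    evp l (f a) (f b) (cf l f h z) = f (evp l a b z) := by
  simp [evp, cf, rmap_re, rmap_im, eval_map, eval₂_at_apply]

theorem pt_dvd {a b : k} (h : b ^ 2 = a ^ l + (s : k) ^ 2) : X - C a ∣ C b ^ 2 - FF l s := by
  rw [dvd_iff_isRoot]
  simp [FF, h]

namespace J1bAux

theorem pt_ne_bot (a b : k) : pt l s a b ≠ ⊥ := mum_ne_bot _ _

theorem pt_mul_neg {a b : k} (h : b ^ 2 = a ^ l + (s : k) ^ 2) :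
    pt l s a b * pt l s a (-b) = Ideal.span {⟨X - C a, 0⟩} := by
  rw [pt, pt, C_neg, mum_mul_neg (pt_dvd h)]

theorem span_mul (p q : k[X]) :
    Ideal.span {(⟨p, 0⟩ : CR l s)} * Ideal.span {⟨q, 0⟩} = Ideal.span {⟨p * q, 0⟩} := by
  rw [Ideal.span_singleton_mul_span_singleton]
  congr 2
  ext1 <;> simp

theorem isUnit_C {c : k} (hc : c ≠ 0) : IsUnit (⟨C c, 0⟩ : CR l s) :=
  IsUnit.of_mul_eq_one ⟨C c⁻¹, 0⟩ (by
    ext1
    · simp [QuadraticAlgebra.re_one, ← C_mul, hc]
    · simp [QuadraticAlgebra.im_one])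

theorem map_FF (f : k →+* k') (h : f s = s') : (FF l s).map f = FF l s' := by
  simp [FF, h]

theorem isMum_one : IsMum l s 1 0 := ⟨monic_one, by simp, one_dvd _⟩

theorem cl_pow {I : Ideal (CR l s)} (hI : I ≠ ⊥) (n : ℕ) : cl l (I ^ n) = cl l I ^ n := by
  induction n with
  | zero => rw [pow_zero, pow_zero, Ideal.one_eq_top, cl_top]
  | succ n ih => rw [pow_succ, pow_succ, cl_mul (pow_ne_zero n hI) hI, ih]

theorem pt_pow {b : k} (hb : b ^ 2 = (s : k) ^ 2) {n : ℕ} (hn : n ≤ l) :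
    pt l s 0 b ^ n = mum l s (X ^ n) (C b) := by
  induction n with
  | zero => rw [pow_zero, pow_zero, mum_one, Ideal.one_eq_top]
  | succ n ih =>
    rw [pow_succ, ih (by omega), pt, C_0, sub_zero, mum_mul, pow_succ]
    rw [← pow_succ, FF, ← C_pow, hb, sub_add_cancel_right, dvd_neg]
    exact pow_dvd_pow X hn

end J1bAux

theorem mem_pt {a b : k} (h : b ^ 2 = a ^ l + (s : k) ^ 2) (z : CR l s) :
    z ∈ pt l s a b ↔ evp l a b z = 0 := by
  rw [pt, mem_mum (pt_dvd h), dvd_iff_isRoot]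
  simp [evp]

theorem pt_isMaximal {a b : k} (h : b ^ 2 = a ^ l + (s : k) ^ 2) : (pt l s a b).IsMaximal := by
  obtain ⟨φ, hφ⟩ := exists_evHom h
  have e : pt l s a b = RingHom.ker φ := by
    ext z
    rw [mem_pt h, RingHom.mem_ker, hφ]
  rw [e]
  exact RingHom.ker_isMaximal_of_surjective φ fun c => ⟨⟨C c, 0⟩, by simp [hφ, evp]⟩

theorem pt_inj {a b a' b' : k} (h : b ^ 2 = a ^ l + (s : k) ^ 2)
    (e : pt l s a b = pt l s a' b') : a = a' ∧ b = b' := by
  have h1 : (⟨X - C a', 0⟩ : CR l s) ∈ pt l s a' b' := Ideal.subset_span (by simp)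
  have h2 : (⟨-C b', 1⟩ : CR l s) ∈ pt l s a' b' := Ideal.subset_span (by simp)
  rw [← e, mem_pt h] at h1 h2
  simp only [evp, eval_sub, eval_X, eval_C, eval_zero, mul_zero, add_zero, eval_neg, eval_one,
    mul_one] at h1 h2
  exact ⟨sub_eq_zero.1 h1, by linear_combination h2⟩

theorem cl_pt_neg {a b : k} (h : b ^ 2 = a ^ l + (s : k) ^ 2) :
    cl l (pt l s a (-b)) = (cl l (pt l s a b))⁻¹ := by
  refine eq_inv_of_mul_eq_one_right ?_
  rw [← cl_mul (J1bAux.pt_ne_bot a b) (J1bAux.pt_ne_bot a (-b)), J1bAux.pt_mul_neg h, cl_span]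

/-- an ideal is prime to the first coordinate if and only if it avoids the two points above zero -/
theorem sup_X_iff (I : Ideal (CR l s)) : I ⊔ Ideal.span {⟨X, 0⟩} = ⊤ ↔
    (∃ z ∈ I, evp l 0 (s : k) z ≠ 0) ∧ ∃ z ∈ I, evp l 0 (-(s : k)) z ≠ 0 := by
  have h1 : (s : k) ^ 2 = 0 ^ l + (s : k) ^ 2 := by
    rw [zero_pow (Fact.out : l.Prime).ne_zero, zero_add]
  have h2 : (-(s : k)) ^ 2 = 0 ^ l + (s : k) ^ 2 := by rw [neg_sq, ← h1]
  have key : ∀ b : k, b ^ 2 = 0 ^ l + (s : k) ^ 2 →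
      (IsCoprime I (pt l s 0 b) ↔ ∃ z ∈ I, evp l 0 b z ≠ 0) := fun b hb => by
    rw [Ideal.isCoprime_iff_sup_eq]
    constructor
    · intro e
      by_contra hc
      push Not at hc
      have : I ≤ pt l s 0 b := fun z hz => (mem_pt hb z).2 (hc z hz)
      rw [sup_eq_right.2 this] at e
      exact (pt_isMaximal hb).ne_top e
    · rintro ⟨z, hz, hz0⟩
      refine (pt_isMaximal hb).out.2 _ (lt_of_le_of_ne le_sup_right fun e => hz0 ?_)
      rw [← mem_pt hb, e]
      exact Ideal.mem_sup_left hz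
  have e := J1bAux.pt_mul_neg h1
  rw [C_0, sub_zero] at e
  rw [← e, ← Ideal.isCoprime_iff_sup_eq, IsCoprime.mul_right_iff, key _ h1, key _ h2]

/-- over an algebraically closed field every ideal is a product of points -/
theorem ideal_eq_prod_pt [IsAlgClosed k] {I : Ideal (CR l s)} (hI : I ≠ ⊥) :
    ∃ R : Multiset (k × k), (∀ p ∈ R, p.2 ^ 2 = p.1 ^ l + (s : k) ^ 2) ∧
      I = (R.map fun p => pt l s p.1 p.2).prod := by
  obtain ⟨d, u, v, hd, hm, rfl⟩ := exists_form hI
  have key : ∀ T : Multiset k, ∃ R : Multiset (k × k), (∀ p ∈ R, p.2 ^ 2 = p.1 ^ l + (s : k) ^ 2) ∧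
      Ideal.span {(⟨(T.map fun a => X - C a).prod, 0⟩ : CR l s)}
        = (R.map fun p => pt l s p.1 p.2).prod := by
    intro T
    induction T using Multiset.induction_on with
    | empty =>
      refine ⟨0, by simp, ?_⟩
      simp only [Multiset.map_zero, Multiset.prod_zero, Ideal.one_eq_top]
      exact Ideal.span_singleton_one
    | cons a T ih =>
      obtain ⟨R, h1, h2⟩ := ih
      obtain ⟨b, hb⟩ := IsAlgClosed.exists_pow_nat_eq (a ^ l + (s : k) ^ 2) two_pos
      refine ⟨(a, b) ::ₘ (a, -b) ::ₘ R, ?_, ?_⟩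
      · intro p hp
        rcases Multiset.mem_cons.1 hp with rfl | hp
        · exact hb
        rcases Multiset.mem_cons.1 hp with rfl | hp
        · rw [neg_sq]; exact hb
        · exact h1 p hp
      · simp only [Multiset.map_cons, Multiset.prod_cons]
        rw [← mul_assoc, J1bAux.pt_mul_neg hb, ← h2, J1bAux.span_mul]
  obtain ⟨R, h1, h2⟩ := key d.roots
  have hu : u = (u.roots.map fun a => X - C a).prod :=
    (IsAlgClosed.splits u).eq_prod_roots_of_monic hm.1
  have h3 := hm.2.2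
  refine ⟨R + u.roots.map fun a => (a, v.eval a), ?_, ?_⟩
  · intro p hp
    rcases Multiset.mem_add.1 hp with hp | hp
    · exact h1 p hp
    · obtain ⟨a, ha, rfl⟩ := Multiset.mem_map.1 hp
      have := (isRoot_of_mem_roots ha).dvd h3
      simp only [IsRoot.def, eval_sub, eval_pow, FF, eval_add, eval_X, eval_C] at this
      exact sub_eq_zero.1 this
  · rw [Multiset.map_add, Multiset.prod_add, ← h2, Multiset.map_map]
    congr 1
    · conv_lhs => rw [(IsAlgClosed.splits d).eq_prod_roots, ← J1bAux.span_mul]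
      rw [Ideal.span_singleton_eq_top.2 (J1bAux.isUnit_C (leadingCoeff_ne_zero.2 hd)),
        Ideal.top_mul]
    · rw [hu] at h3
      conv_lhs => rw [hu]
      exact mum_split _ h3

/-- the norm of a product of points -/
theorem prod_pt_mul_star (R : Multiset (k × k)) (h : ∀ p ∈ R, p.2 ^ 2 = p.1 ^ l + (s : k) ^ 2) :
    (R.map fun p => pt l s p.1 p.2).prod *
      ((R.map fun p => pt l s p.1 p.2).prod).map (starRingEnd (CR l s)) =
      Ideal.span {⟨(R.map fun p => X - C p.1).prod, 0⟩} := by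
  induction R using Multiset.induction_on with
  | empty =>
    simp only [Multiset.map_zero, Multiset.prod_zero, Ideal.one_eq_top, Ideal.map_top,
      Ideal.top_mul]
    exact Ideal.span_singleton_one.symm
  | cons p R ih =>
    simp only [Multiset.map_cons, Multiset.prod_cons]
    rw [Ideal.map_mul, mul_mul_mul_comm, ih fun q hq => h q (Multiset.mem_cons_of_mem hq), pt,
      map_star_mum, mum_mul_neg (pt_dvd (h p (Multiset.mem_cons_self _ _))), J1bAux.span_mul]

theorem map_cf_mum (f : k →+* k') (h : f s = s') (u v : k[X]) :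
    (mum l s u v).map (cf l f h) = mum l s' (u.map f) (v.map f) := by
  rw [mum, mum, Ideal.map_span, Set.image_pair]
  congr 2
  · ext1 <;> simp [cf, rmap_re, rmap_im]
  · congr 1
    ext1 <;> simp [cf, rmap_re, rmap_im]

theorem map_cf_pt (f : k →+* k') (h : f s = s') (a b : k) :
    (pt l s a b).map (cf l f h) = pt l s' (f a) (f b) := by
  simp [pt, map_cf_mum]

theorem IsMum.map (f : k →+* k') (h : f s = s') {u v : k[X]} (hm : IsMum l s u v) :
    IsMum l s' (u.map f) (v.map f) := by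
  refine ⟨hm.1.map f, by rw [degree_map, degree_map]; exact hm.2.1, ?_⟩
  rw [← J1bAux.map_FF f h, ← Polynomial.map_pow, ← Polynomial.map_sub]
  exact Polynomial.map_dvd f hm.2.2

theorem IsMum.of_map (f : k →+* k') (h : f s = s') {u v : k[X]}
    (hm : IsMum l s' (u.map f) (v.map f)) : IsMum l s u v := by
  obtain ⟨h1, h2, h3⟩ := hm
  rw [degree_map, degree_map] at h2
  rw [← J1bAux.map_FF f h, ← Polynomial.map_pow, ← Polynomial.map_sub, map_dvd_map' f] at h3
  exact ⟨monic_map_iff.1 h1, h2, h3⟩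

theorem map_sg_mum {ζ : k} (hζ : IsPrimitiveRoot ζ l) (u v : k[X]) :
    (mum l s u v).map (sg l s hζ) = mum l s (u.comp (C ζ * X)) (v.comp (C ζ * X)) := by
  rw [mum, mum, Ideal.map_span, Set.image_pair]
  congr 2
  · ext1 <;> simp [sg, rmap_re, rmap_im]
  · congr 1
    ext1 <;> simp [sg, rmap_re, rmap_im]

theorem map_sg_pt {ζ : k} (hζ : IsPrimitiveRoot ζ l) (a b : k) :
    (pt l s a b).map (sg l s hζ) = pt l s (ζ⁻¹ * a) b := by
  have h0 : ζ ≠ 0 := hζ.ne_zero (Fact.out : l.Prime).ne_zero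
  rw [pt, map_sg_mum, C_comp, pt]
  refine mum_assoc (Associated.symm ?_) _
  have e : (X - C a).comp (C ζ * X) = (X - C (ζ⁻¹ * a)) * C ζ := by
    rw [sub_comp, X_comp, C_comp, sub_mul, ← C_mul, mul_comm X, mul_right_comm,
      inv_mul_cancel₀ h0, one_mul]
  rw [e]
  exact associated_mul_unit_right _ _ (Polynomial.isUnit_C.2 h0.isUnit)

theorem sg_pow {ζ : k} (hζ : IsPrimitiveRoot ζ l) : sg l s hζ ^ l = 1 := by
  have key : ∀ (n : ℕ) (z : CR l s), (sg l s hζ ^ n) z
      = ⟨z.re.comp (C (ζ ^ n) * X), z.im.comp (C (ζ ^ n) * X)⟩ := by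
    intro n
    induction n with
    | zero => intro z; simp
    | succ n ih =>
      intro z
      have e : (C (ζ ^ n) * X : k[X]).comp (C ζ * X) = C (ζ ^ (n + 1)) * X := by
        rw [mul_comp, C_comp, X_comp, pow_succ, C_mul, mul_assoc]
      rw [pow_succ', RingHom.coe_mul, Function.comp_apply, ih]
      ext1
      · change (z.re.comp _).comp _ = _
        rw [comp_assoc, e]
      · change (z.im.comp _).comp _ = _
        rw [comp_assoc, e]
  refine RingHom.ext fun z => ?_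
  rw [key, hζ.pow_eq_one]
  simp

theorem cf_sg (f : k →+* k') (h : f s = s') {ζ : k} (hζ : IsPrimitiveRoot ζ l) {ζ' : k'}
    (hζ' : IsPrimitiveRoot ζ' l) (e : f ζ = ζ') (z : CR l s) :
    cf l f h (sg l s hζ z) = sg l s' hζ' (cf l f h z) := by
  ext1 <;> simp [cf, sg, rmap_re, rmap_im, map_comp, e]

theorem cf_cf (f : k →+* k') (h : f s = s') (f' : k' →+* k'') (h' : f' s' = s'') (f'' : k →+* k'')
    (h'' : f'' s = s'') (e : ∀ x, f' (f x) = f'' x) (z : CR l s) :
    cf l f' h' (cf l f h z) = cf l f'' h'' z := by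
  have e' : f'.comp f = f'' := RingHom.ext e
  ext1 <;> simp [cf, rmap_re, rmap_im, Polynomial.map_map, e']

theorem jcf_cl (f : k →+* k') (h : f s = s') (I : Ideal (CR l s)) :
    jcf l f h (cl l I) = cl l (I.map (cf l f h)) := jmap_cl l _ _ I

theorem jsg_cl {ζ : k} (hζ : IsPrimitiveRoot ζ l) (I : Ideal (CR l s)) :
    jsg l s hζ (cl l I) = cl l (I.map (sg l s hζ)) := jmap_cl l _ _ I

theorem jcf_mum (f : k →+* k') (h : f s = s') (u v : k[X]) :
    jcf l f h (cl l (mum l s u v)) = cl l (mum l s' (u.map f) (v.map f)) := by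
  rw [jcf_cl, map_cf_mum]

theorem jcf_inj (f : k →+* k') (h : f s = s') : Function.Injective (jcf l f h) := by
  refine (injective_iff_map_eq_one _).2 fun x hx => ?_
  obtain ⟨u, v, hm, hd, rfl⟩ := exists_red x
  rw [jcf_mum, ← cl_top, ← mum_one 0] at hx
  have h1 := (red_unique (hm.map f h) J1bAux.isMum_one (by rwa [natDegree_map]) (by simp) hx).1
  rw [← Polynomial.map_one f] at h1
  rw [map_injective f f.injective h1, mum_one, cl_top]

theorem jcf_jcf (f : k →+* k') (h : f s = s') (f' : k' →+* k'') (h' : f' s' = s'') (f'' : k →+* k'')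
    (h'' : f'' s = s'') (e : ∀ x, f' (f x) = f'' x) (x : Jac l s) :
    jcf l f' h' (jcf l f h x) = jcf l f'' h'' x := by
  obtain ⟨u, v, -, -, rfl⟩ := exists_red x
  have e' : f'.comp f = f'' := RingHom.ext e
  rw [jcf_mum, jcf_mum, jcf_mum, Polynomial.map_map, Polynomial.map_map, e']

theorem jcf_id (f : k →+* k) (h : f s = s) (e : ∀ x, f x = x) (x : Jac l s) :
    jcf l f h x = x := by
  obtain ⟨u, v, -, -, rfl⟩ := exists_red x
  have e' : f = RingHom.id k := RingHom.ext e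
  rw [jcf_mum, e', Polynomial.map_id, Polynomial.map_id]

theorem jcf_jsg (f : k →+* k') (h : f s = s') {ζ : k} (hζ : IsPrimitiveRoot ζ l) {ζ' : k'}
    (hζ' : IsPrimitiveRoot ζ' l) (e : f ζ = ζ') (x : Jac l s) :
    jcf l f h (jsg l s hζ x) = jsg l s' hζ' (jcf l f h x) := by
  obtain ⟨u, v, -, -, rfl⟩ := exists_red x
  rw [jsg_cl, jcf_cl, jcf_cl, jsg_cl, Ideal.map_map, Ideal.map_map]
  congr 2
  exact RingHom.ext (cf_sg f h hζ hζ' e)

theorem jcf_T (f : k →+* k') (h : f s = s') : jcf l f h (jT l s) = jT l s' := by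
  rw [jT, jcf_cl, map_cf_pt, map_zero, h, jT]

theorem jsg_T {ζ : k} (hζ : IsPrimitiveRoot ζ l) : jsg l s hζ (jT l s) = jT l s := by
  rw [jT, jsg_cl, map_sg_pt, mul_zero]

theorem orderOf_jT : orderOf (jT l s) = l := by
  refine orderOf_eq_prime ?_ fun e => ?_
  · have h1 : X ^ l = (C (s : k) ^ 2 - FF l s) * (-1) := by
      rw [FF, C_pow]; ring
    rw [jT, ← J1bAux.cl_pow (J1bAux.pt_ne_bot _ _), J1bAux.pt_pow rfl le_rfl, h1,
      ← mum_assoc (associated_mul_unit_right _ _ isUnit_one.neg), mum_full, cl_span]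
  · have h2 : 2 < l := Fact.out
    have hm : IsMum l s (X - C 0) (C (s : k)) := ⟨monic_X_sub_C 0, by
      rw [degree_X_sub_C]
      exact degree_C_lt, pt_dvd (by rw [zero_pow (by omega), zero_add])⟩
    rw [jT, pt, ← cl_top, ← mum_one 0] at e
    have h1 := (red_unique hm J1bAux.isMum_one (by rw [natDegree_X_sub_C]; omega) (by simp) e).1
    have := congrArg natDegree h1
    rw [natDegree_X_sub_C, natDegree_one] at this
    exact one_ne_zero this

/-- the kernel of the isogeny -/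
theorem ker_phi {ζ : k} (hζ : IsPrimitiveRoot ζ l) {x : Jac l s} (hx : jsg l s hζ x = x) :
    ∃ i : ℕ, x = jT l s ^ i := by
  obtain ⟨u, v, hm, hd, rfl⟩ := exists_red x
  have h2 : 2 < l := Fact.out
  have h0 : ζ ≠ 0 := hζ.ne_zero (by omega)
  have hz : (ζ ^ u.natDegree)⁻¹ ≠ 0 := inv_ne_zero (pow_ne_zero _ h0)
  have dg : ∀ p : k[X], (p.comp (C ζ * X)).degree = p.degree := fun p => by
    unfold Polynomial.degree
    congr 1
    ext n
    simp [comp_C_mul_X_coeff, h0]
  have dg' : (C (ζ ^ u.natDegree)⁻¹ * u.comp (C ζ * X)).degree = u.degree := by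
    rw [degree_C_mul hz, dg]
  have nd := natDegree_eq_of_degree_eq dg'
  have hm' : IsMum l s (C (ζ ^ u.natDegree)⁻¹ * u.comp (C ζ * X)) (v.comp (C ζ * X)) := by
    refine ⟨?_, by rw [dg', dg]; exact hm.2.1, ?_⟩
    · rw [Monic.def, leadingCoeff, nd, coeff_C_mul, comp_C_mul_X_coeff, hm.1.coeff_natDegree,
        one_mul, inv_mul_cancel₀ (pow_ne_zero _ h0)]
    · rw [C_mul_dvd hz]
      have e : (FF l s).comp (C ζ * X) = FF l s := by
        rw [FF, add_comp, C_comp, X_pow_comp, mul_pow, ← C_pow, hζ.pow_eq_one, C_1, one_mul]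
      have := map_dvd (compRingHom (C ζ * X)) hm.2.2
      simpa only [coe_compRingHom_apply, sub_comp, pow_comp, e] using this
  rw [jsg_cl, map_sg_mum, mum_assoc (associated_unit_mul_right _ _
    (Polynomial.isUnit_C.2 hz.isUnit))] at hx
  obtain ⟨e1, e2⟩ := red_unique hm' hm (by rwa [nd]) hd hx
  have hu : u = X ^ u.natDegree := by
    ext i
    rw [coeff_X_pow]
    split_ifs with hi
    · rw [hi, hm.1.coeff_natDegree]
    · rcases lt_or_gt_of_ne hi with hi' | hi'
      · by_contra hc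
        have := congrArg (coeff · i) e1
        simp only [coeff_C_mul, comp_C_mul_X_coeff] at this
        refine hi (hζ.pow_inj (by omega) (by omega) ?_)
        field_simp at this
        exact this
      · exact coeff_eq_zero_of_natDegree_lt hi'
  have hv : v = C (v.coeff 0) := by
    ext i
    rw [coeff_C]
    split_ifs with hi
    · rw [hi]
    · by_cases hi' : i < l
      · by_contra hc
        have := congrArg (coeff · i) e2
        simp only [comp_C_mul_X_coeff] at this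
        refine hi (hζ.pow_inj hi' (by omega) ?_)
        rw [pow_zero]
        exact mul_left_cancel₀ hc (by rw [this, mul_one])
      · refine coeff_eq_zero_of_degree_lt (hm.2.1.trans_le (degree_le_natDegree.trans ?_))
        exact_mod_cast (by omega : u.natDegree ≤ i)
  have h3 := hm.2.2
  generalize u.natDegree = d at hu hd
  generalize v.coeff 0 = b at hv
  subst hu hv
  rcases Nat.eq_zero_or_pos d with rfl | hd0
  · exact ⟨0, by rw [pow_zero, pow_zero, mum_one, cl_top]⟩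
  have hb : b ^ 2 = (s : k) ^ 2 := by
    have := X_dvd_iff.1 ((dvd_pow_self X hd0.ne').trans h3)
    rw [coeff_zero_eq_eval_zero] at this
    simpa [FF, sub_eq_zero, show l ≠ 0 by omega] using this
  rw [← J1bAux.pt_pow hb (by omega), J1bAux.cl_pow (J1bAux.pt_ne_bot _ _)]
  rcases sq_eq_sq_iff_eq_or_eq_neg.1 hb with rfl | rfl
  · exact ⟨d, rfl⟩
  · refine ⟨(l - 1) * d, ?_⟩
    rw [cl_pt_neg (by rw [zero_pow (by omega), zero_add]), pow_mul]
    congr 1
    refine inv_eq_of_mul_eq_one_right ?_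
    change jT l s * _ = 1
    rw [← pow_succ', Nat.sub_add_cancel (by omega)]
    have := pow_orderOf_eq_one (jT l s)
    rwa [orderOf_jT] at this

/-- reduced representatives of invariant classes are invariant -/
theorem fixed_red (f : k →+* k) (h : f s = s) {u v : k[X]} (hm : IsMum l s u v)
    (hd : u.natDegree ≤ l / 2) (e : jcf l f h (cl l (mum l s u v)) = cl l (mum l s u v)) :
    u.map f = u ∧ v.map f = v := by
  rw [jcf_mum] at e
  exact red_unique (hm.map f h) hm (by rwa [natDegree_map]) hd e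

/-- Galois descent -/
theorem descend [Algebra k k'] [IsGalois k k'] (h : algebraMap k k' s = s') (x : Jac l s')
    (hx : ∀ (τ : k' ≃ₐ[k] k') (hτ : (τ : k' →+* k') s' = s'), jcf l (τ : k' →+* k') hτ x = x) :
    ∃ x₀ : Jac l s, jcf l (algebraMap k k') h x₀ = x := by
  obtain ⟨u, v, hm, hd, rfl⟩ := exists_red x
  have key : ∀ p : k'[X], (∀ τ : k' ≃ₐ[k] k', p.map (τ : k' →+* k') = p) →
      ∃ q : k[X], q.map (algebraMap k k') = p := fun p hp => by
    refine (mem_lifts p).1 ((lifts_iff_coeff_lifts p).2 fun n => ?_)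
    refine (InfiniteGalois.mem_range_algebraMap_iff_fixed _).2 fun τ => ?_
    have := congrArg (coeff · n) (hp τ)
    simpa using this
  have h1 : ∀ τ : k' ≃ₐ[k] k', u.map (τ : k' →+* k') = u ∧ v.map (τ : k' →+* k') = v := fun τ => by
    have hτ : (τ : k' →+* k') s' = s' := by
      rw [← h]
      exact τ.commutes _
    exact fixed_red _ hτ hm hd (hx τ hτ)
  obtain ⟨u₀, rfl⟩ := key u fun τ => (h1 τ).1
  obtain ⟨v₀, rfl⟩ := key v fun τ => (h1 τ).2
  exact ⟨cl l (mum l s u₀ v₀), jcf_mum _ h _ _⟩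

end Pool.Agent.MP_14ad9d_nt.Full

end

section

set_option autoImplicit false

open Polynomial

namespace Pool.Agent.MP_14ad9d_nt.Full

/-- all coefficients are bounded by `r` -/
def Bd {E : Type} [NormedField E] (r : ℝ) (p : E[X]) : Prop := ∀ i, ‖p.coeff i‖ ≤ r

/-- the base divisor -/
structure Base (l : ℕ) {E : Type} [NormedField E] (s : Eˣ) where
  u₀ : E[X]
  y₁ : E
  monic : u₀.Monic
  deg : u₀.natDegree = l / 2
  dvd : u₀ ∣ C y₁ ^ 2 - FF l s
  hy : ‖y₁‖ = 1
  hs : ‖(s : E)‖ ≤ 1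
  hl : ‖(l : E)‖ < 1

variable {l : ℕ} {E : Type} [NormedField E] {s : Eˣ}

/-- a point in the residue disc of the base divisor -/
def Base.Pl (B : Base l s) (a b : E) : Prop :=
  b ^ 2 = a ^ l + (s : E) ^ 2 ∧ ‖a‖ ≤ 1 ∧ ‖b - B.y₁‖ < 1

/-- Mumford coordinates close to those of the base divisor -/
def Base.Cl (B : Base l s) (r : ℝ) (u v : E[X]) : Prop :=
  IsMum l s u v ∧ u.natDegree = l / 2 ∧ Bd r (u - B.u₀) ∧ Bd r (v - C B.y₁)

/-- a neighbourhood of the origin of the Jacobian -/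
def Base.Nb [Fact l.Prime] [Fact (2 < l)] [CharZero E] (B : Base l s) (r : ℝ) (x : Jac l s) :
    Prop :=
  ∃ u v, B.Cl r u v ∧ cl l (mum l s u v) = x * cl l (mum l s B.u₀ (C B.y₁))

end Pool.Agent.MP_14ad9d_nt.Full

end
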