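import Pool.Agent.MP_14ad9d_nt.Full.Sym2
import Pool.Agent.MP_14ad9d_nt.Full.DL

section

set_option autoImplicit false
set_option linter.unusedSectionVars false

open NumberField IsDedekindDomain Polynomial

namespace Pool.Agent.MP_14ad9d_nt.Full.SetAux

theorem exists_galois (K₀ : Type) [Field K₀] [NumberField K₀] :
    ∃ (L : Type) (_ : Field L) (_ : NumberField L) (_ : IsGalois ℚ L) (_ : K₀ →+* L),
      1 < Module.finrank ℚ L := by
  let pb := Field.powerBasisOfFiniteOfSeparable ℚ K₀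
  let p : ℚ[X] := minpoly ℚ pb.gen * (X ^ 2 + 1)
  have h1 : minpoly ℚ pb.gen ≠ 0 := minpoly.ne_zero pb.isIntegral_gen
  have h2 : (X ^ 2 + 1 : ℚ[X]) ≠ 0 := by
    have : (X ^ 2 + 1 : ℚ[X]).Monic := by monicity!
    exact this.ne_zero
  have hp : p ≠ 0 := mul_ne_zero h1 h2
  let L := p.SplittingField
  have hN : NumberField L := ⟨⟩
  have hsp : IsSplittingField ℚ L p := IsSplittingField.splittingField p
  have hn : Normal ℚ L := Normal.of_isSplittingField p
  have hG : IsGalois ℚ L := ⟨⟩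
  have hs : (p.map (algebraMap ℚ L)).Splits := SplittingField.splits p
  have hs1 : ((minpoly ℚ pb.gen).map (algebraMap ℚ L)).Splits :=
    hs.of_dvd (Polynomial.map_ne_zero hp) (Polynomial.map_dvd _ (Dvd.intro _ rfl))
  have hs2 : ((X ^ 2 + 1 : ℚ[X]).map (algebraMap ℚ L)).Splits :=
    hs.of_dvd (Polynomial.map_ne_zero hp) (Polynomial.map_dvd _ (Dvd.intro_left _ rfl))
  obtain ⟨y, hy⟩ := hs1.exists_eval_eq_zero (by
    rw [degree_map]; exact (minpoly.degree_pos pb.isIntegral_gen).ne')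
  obtain ⟨i, hi⟩ := hs2.exists_eval_eq_zero (by
    rw [degree_map]
    have : (X ^ 2 + 1 : ℚ[X]).degree = 2 := by compute_degree!
    rw [this]; decide)
  refine ⟨L, inferInstance, hN, hG, (pb.lift y (by rwa [eval_map_algebraMap] at hy)).toRingHom, ?_⟩
  by_contra hc
  have h3 : Module.finrank ℚ L = 1 := by
    have : 0 < Module.finrank ℚ L := Module.finrank_pos
    omega
  obtain ⟨q, hq⟩ := (Algebra.finrank_eq_one_iff_bijective_algebraMap.1 h3).2 i
  rw [← hq, eval_map_algebraMap, aeval_algebraMap_apply, map_eq_zero] at hi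
  simp at hi
  nlinarith [sq_nonneg q]

theorem galois_cyc (l : ℕ) [NeZero l] (L K : Type) [Field L] [NumberField L] [Field K]
    [NumberField K] [Algebra L K] [IsGalois ℚ L] [IsCyclotomicExtension {l} L K] :
    IsGalois ℚ K := by
  obtain ⟨p, hs, hp⟩ := IsGalois.is_separable_splitting_field ℚ L
  have h1 : IsSplittingField L K ((cyclotomic l ℚ).map (algebraMap ℚ L)) := by
    rw [map_cyclotomic]; exact IsCyclotomicExtension.splitting_field_cyclotomic l L K
  have h2 : IsSplittingField ℚ K (p * cyclotomic l ℚ) :=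
    IsSplittingField.mul (K := L) K p (cyclotomic l ℚ) hs.ne_zero (cyclotomic_ne_zero l ℚ)
  have hn : Normal ℚ K := Normal.of_isSplittingField (p * cyclotomic l ℚ)
  exact ⟨⟩

section Act

variable {L K : Type} [Field L] [NumberField L] [Field K] [NumberField K] [Algebra L K]

theorem act_over (g : K ≃+* K) (σ : L ≃+* L)
    (h : ∀ y, g (algebraMap L K y) = algebraMap L K (σ y)) {v : Pr K} {w : Pr L}
    (hv : v.asIdeal.LiesOver w.asIdeal) : (act g v).asIdeal.LiesOver (act σ w).asIdeal := by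
  constructor
  ext a
  rw [mem_act, Ideal.mem_under, mem_act, Ideal.mem_of_liesOver v.asIdeal w.asIdeal]
  have : algebraMap (𝓞 L) (𝓞 K) ((RingOfIntegers.mapRingEquiv σ).symm a) =
      (RingOfIntegers.mapRingEquiv g).symm (algebraMap (𝓞 L) (𝓞 K) a) := by
    rw [RingEquiv.eq_symm_apply]
    apply RingOfIntegers.coe_injective
    change g (algebraMap L K (σ.symm a)) = algebraMap L K a
    rw [h, RingEquiv.apply_symm_apply]
  rw [this]

theorem under_unique {v : Pr K} {w w' : Pr L} (h : v.asIdeal.LiesOver w.asIdeal)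
    (h' : v.asIdeal.LiesOver w'.asIdeal) : w = w' :=
  HeightOneSpectrum.ext (h.over.trans h'.over.symm)

theorem act_mul (g h : K ≃ₐ[L] K) (v : Pr K) :
    act ((g * h : K ≃ₐ[L] K) : K ≃+* K) v = act (g : K ≃+* K) (act (h : K ≃+* K) v) := by
  ext a; exact Iff.rfl

theorem act_one (v : Pr K) : act ((1 : K ≃ₐ[L] K) : K ≃+* K) v = v := by
  ext a; exact Iff.rfl

theorem act_refl (v : Pr K) : act (RingEquiv.refl K) v = v := by
  ext a; exact Iff.rfl

theorem act_inj {v : Pr K} (hv : ∀ g : K ≃ₐ[L] K, act (g : K ≃+* K) v = v → g = 1) :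
    Function.Injective fun g : K ≃ₐ[L] K => act (g : K ≃+* K) v := by
  intro g h e
  have : act ((h⁻¹ * g : K ≃ₐ[L] K) : K ≃+* K) v = v := by
    dsimp only at e
    rw [act_mul, e, ← act_mul, inv_mul_cancel, act_one]
  exact (inv_mul_eq_one.1 (hv _ this)).symm

end Act

theorem abs_efg {l : ℕ} [Fact l.Prime] {K : Type} [Field K] [NumberField K] [IsGalois ℚ K]
    (v : Pr K) (hv : ¬Tm l v) :
    ∃ e f : ℕ, {u : Pr K | ¬Tm l u}.ncard * (e * f) = Module.finrank ℚ K ∧
      ord v (l : K) = e ∧ Ideal.absNorm v.asIdeal = l ^ f := by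
  have hl : l.Prime := Fact.out
  have hp0 : (l : ℤ) ≠ 0 := by exact_mod_cast hl.ne_zero
  have hpz : Prime (l : ℤ) := Nat.prime_iff_prime_int.1 hl
  have key : ∀ u : Pr K, ¬Tm l u ↔ u.asIdeal.LiesOver (Ideal.span {(l : ℤ)}) := fun u => by
    rw [Ideal.liesOver_span_iff u.isPrime.ne_top hpz, Tm, not_not, map_natCast]
  have := v.isPrime
  have hL := (key v).1 hv
  let u : HeightOneSpectrum ℤ := ⟨Ideal.span {(l : ℤ)}, Ideal.isPrime_of_liesOver v.asIdeal _,
    by simpa using hl.ne_zero⟩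
  have := u.isPrime
  have hL' : v.asIdeal.LiesOver u.asIdeal := hL
  refine ⟨v.asIdeal.ramificationIdx ℤ, v.asIdeal.inertiaDeg ℤ, ?_, ?_,
    (Ideal.pow_inertiaDeg l _).symm⟩
  · rw [← IsGaloisGroup.card_eq_finrank Gal(K/ℚ) ℚ K,
      ← Ideal.ncard_primesOver_mul_ramificationIdxIn_mul_inertiaDegIn u.asIdeal (𝓞 K) Gal(K/ℚ),
      Ideal.ramificationIdxIn_eq_ramificationIdx u.asIdeal v.asIdeal Gal(K/ℚ),
      Ideal.inertiaDegIn_eq_inertiaDeg u.asIdeal v.asIdeal Gal(K/ℚ)]
    congr 1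
    rw [← Set.ncard_image_of_injective _ (HeightOneSpectrum.asIdeal_injective (R := 𝓞 K))]
    congr 1
    ext P
    constructor
    · rintro ⟨w, hw, rfl⟩
      exact ⟨w.isPrime, (key w).1 hw⟩
    · rintro ⟨h1, h2⟩
      exact ⟨⟨P, h1, Ideal.ne_bot_of_liesOver_of_ne_bot u.ne_bot P⟩, (key _).2 h2, rfl⟩
  · have e := HeightOneSpectrum.intValuation_liesOver u v (l : ℤ)
    rw [u.intValuation_singleton hp0 rfl, Ideal.ramificationIdx'_eq_ramificationIdx _ _ u.ne_bot,
      map_natCast, ← v.valuation_of_algebraMap (K := K)] at e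
    rw [ord, ← map_natCast (algebraMap (𝓞 K) K) l]
    erw [← e]
    simp

end Pool.Agent.MP_14ad9d_nt.Full.SetAux

end

section

set_option autoImplicit false
set_option linter.unusedSectionVars false

open NumberField IsDedekindDomain Polynomial

namespace Pool.Agent.MP_14ad9d_nt.Full.SetAux

variable {l : ℕ} [Fact l.Prime] {L K : Type} [Field L] [NumberField L] [Field K] [NumberField K]
  [Algebra L K] [IsGalois ℚ L] [IsGalois ℚ K] [IsCyclotomicExtension {l} L K] {z : K}

theorem hom_ext (hz : IsPrimitiveRoot z l) (φ ψ : K →+* K)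
    (h1 : ∀ y, φ (algebraMap L K y) = ψ (algebraMap L K y)) (h2 : φ z = ψ z) (x : K) :
    φ x = ψ x := by
  have : NeZero l := ⟨(Fact.out : l.Prime).ne_zero⟩
  have hx : x ∈ Algebra.adjoin L ({z} : Set K) := by
    rw [IsCyclotomicExtension.adjoin_primitive_root_eq_top hz]; trivial
  induction hx using Algebra.adjoin_induction with
  | mem y hy => rw [Set.mem_singleton_iff.1 hy]; exact h2
  | algebraMap y => exact h1 y
  | add a b _ _ ha hb => rw [map_add, map_add, ha, hb]
  | mul a b _ _ ha hb => rw [map_mul, map_mul, ha, hb]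

theorem finrank_le (hz : IsPrimitiveRoot z l) : Module.finrank L K ≤ l - 1 := by
  have : NeZero l := ⟨(Fact.out : l.Prime).ne_zero⟩
  have : FiniteDimensional L K := Module.Finite.of_restrictScalars_finite ℚ L K
  have : IsGalois L K := IsGalois.tower_top_of_isGalois ℚ L K
  rw [← IsGalois.card_aut_eq_finrank, ← ZMod.card_units l, ← Nat.card_eq_fintype_card]
  exact Nat.card_le_card_of_injective _ (hz.autToPow_injective L)

theorem exists_iota (hz : IsPrimitiveRoot z l) (hd : Module.finrank L K = l - 1) :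
    ∃ ι : K ≃ₐ[L] K, ι z = z⁻¹ := by
  have hl : l.Prime := Fact.out
  have : NeZero l := ⟨hl.ne_zero⟩
  have : FiniteDimensional L K := Module.Finite.of_restrictScalars_finite ℚ L K
  have : IsGalois L K := IsGalois.tower_top_of_isGalois ℚ L K
  have hb : Function.Bijective (hz.autToPow L) := by
    rw [Nat.bijective_iff_injective_and_card]
    refine ⟨hz.autToPow_injective L, ?_⟩
    rw [IsGalois.card_aut_eq_finrank, hd, Nat.card_eq_fintype_card, ZMod.card_units l]
  obtain ⟨ι, hι⟩ := hb.2 (-1)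
  refine ⟨ι, ?_⟩
  rw [← hz.autToPow_spec L ι, hι]
  apply eq_inv_of_mul_eq_one_left
  rw [← pow_succ, hz.pow_eq_one_iff_dvd, ← ZMod.natCast_eq_zero_iff]
  simp

theorem arith {g e f n d l : ℕ} {t : ℤ} (hl : 2 < l) (hn : 0 < n) (h1 : g * (e * f) = n * d)
    (hd0 : 0 < d) (h2 : n ≤ g) (h3 : (e : ℤ) = ((l - 1 : ℕ) : ℤ) * t) (h4 : d ≤ l - 1) :
    g = n ∧ t = 1 ∧ f = 1 ∧ d = l - 1 := by
  have h5 : 0 < g * (e * f) := by rw [h1]; positivity
  have he : 0 < e := Nat.pos_of_mul_pos_right (Nat.pos_of_mul_pos_left h5)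
  have hf : 0 < f := Nat.pos_of_mul_pos_left (Nat.pos_of_mul_pos_left h5)
  obtain ⟨m, hm⟩ : ∃ m, l - 1 = m := ⟨_, rfl⟩
  rw [hm] at h3 h4 ⊢
  have hm0 : 0 < m := by omega
  have ht : 0 < t := by
    have : (0 : ℤ) < m * t := by rw [← h3]; exact_mod_cast he
    exact (mul_pos_iff_of_pos_left (by exact_mod_cast hm0)).1 this
  obtain ⟨s, rfl⟩ := Int.eq_ofNat_of_zero_le ht.le
  have h6 : e = m * s := by exact_mod_cast h3
  have hs : 0 < s := by exact_mod_cast ht
  subst h6
  have a1 : n * m ≤ g * (m * s * f) :=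
    Nat.mul_le_mul h2 (by rw [mul_assoc]; exact Nat.le_mul_of_pos_right _ (by positivity))
  have a2 : d = m := by
    apply le_antisymm h4
    rw [h1] at a1
    exact Nat.le_of_mul_le_mul_left a1 hn
  subst a2
  have a3 : g * (s * f) = n := by
    apply Nat.eq_of_mul_eq_mul_left hd0
    rw [mul_comm d n, ← h1]; ring
  have a4 : g = n := by
    apply le_antisymm _ h2
    rw [← a3]; exact Nat.le_mul_of_pos_right _ (by positivity)
  subst a4
  have a5 : s * f = 1 := Nat.eq_of_mul_eq_mul_left hn (by rw [a3, mul_one])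
  refine ⟨rfl, ?_, Nat.eq_one_of_mul_eq_one_left a5, rfl⟩
  exact_mod_cast Nat.eq_one_of_mul_eq_one_right a5

theorem counts (hl : 2 < l) (hz : IsPrimitiveRoot z l) {w : Pr L} (hw : ¬Tm l w)
    (hfree : ∀ σ : L ≃ₐ[ℚ] L, act (σ : L ≃+* L) w = w → σ = 1) {v : Pr K} (hv : ¬Tm l v) :
    {u : Pr K | ¬Tm l u}.ncard = Module.finrank ℚ L ∧ ord v (1 - z) = 1 ∧
      Ideal.absNorm v.asIdeal = l ∧ Module.finrank L K = l - 1 := by
  have : FiniteDimensional L K := Module.Finite.of_restrictScalars_finite ℚ L K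
  obtain ⟨e, f, h1, h2, h3⟩ := abs_efg v hv
  rw [← Module.finrank_mul_finrank ℚ L K] at h1
  choose ov hov using fun u : Pr L => exists_over (E' := K) u
  have hg : Module.finrank ℚ L ≤ {u : Pr K | ¬Tm l u}.ncard := by
    rw [← IsGalois.card_aut_eq_finrank, ← Nat.card_coe_set_eq]
    have : Finite {u : Pr K | ¬Tm l u} := finite_wild.to_subtype
    refine Nat.card_le_card_of_injective (fun σ : L ≃ₐ[ℚ] L =>
      (⟨ov (act (σ : L ≃+* L) w), by
        rw [Set.mem_setOf_eq, tm_over (hov _), tm_act]; exact hw⟩ : {u : Pr K | ¬Tm l u})) ?_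
    intro σ τ h
    apply act_inj hfree
    have h' : ov (act (σ : L ≃+* L) w) = ov (act (τ : L ≃+* L) w) := congrArg Subtype.val h
    exact under_unique (hov _) (h' ▸ hov _)
  have h4 : (e : ℤ) = ((l - 1 : ℕ) : ℤ) * ord v (1 - z) := by
    rw [← h2, ord, ord, val_ell hz v, WithZero.log_pow, nsmul_eq_mul, mul_neg]
  obtain ⟨a1, a2, a3, a4⟩ := arith hl Module.finrank_pos h1 Module.finrank_pos hg h4
    (finrank_le hz)
  exact ⟨a1, a2, by rw [h3, a3, pow_one], a4⟩

end Pool.Agent.MP_14ad9d_nt.Full.SetAux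

end

section

set_option autoImplicit false
set_option linter.unusedSectionVars false

open NumberField IsDedekindDomain Polynomial
open scoped IntermediateField

namespace Pool.Agent.MP_14ad9d_nt.Full.SetAux

variable {l : ℕ} [Fact l.Prime] {L K : Type} [Field L] [NumberField L] [Field K] [NumberField K]
  [Algebra L K] [IsGalois ℚ L] [IsGalois ℚ K] [IsCyclotomicExtension {l} L K]

theorem exists_res {F : Type} [Field F] [NumberField F] [Algebra F K] (g : K ≃ₐ[F] K) :
    ∃ σ : L ≃ₐ[ℚ] L, ∀ y, g (algebraMap L K y) = algebraMap L K (σ y) :=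
  ⟨(g.restrictScalars ℚ).restrictNormal L, fun y =>
    (AlgEquiv.restrictNormal_commutes (g.restrictScalars ℚ) L y).symm⟩

theorem setup_of {F : Type} [Field F] [NumberField F] [Algebra F K]
    [IsCyclotomicExtension {l} ℚ F] [IsGalois F K] (hl : 2 < l) {w : Pr L} (hw : ¬Tm l w)
    (hfree : ∀ σ : L ≃ₐ[ℚ] L, act (σ : L ≃+* L) w = w → σ = 1)
    (h1 : 1 < Module.finrank ℚ L) (h2 : Module.finrank ℚ L < l) : Nonempty (Setup l F K) := by
  have hlp : l.Prime := Fact.out
  have : NeZero l := ⟨hlp.ne_zero⟩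
  have : FiniteDimensional L K := Module.Finite.of_restrictScalars_finite ℚ L K
  set ζ := IsCyclotomicExtension.zeta l ℚ F with hζd
  have hζ : IsPrimitiveRoot ζ l := IsCyclotomicExtension.zeta_spec l ℚ F
  set z := algebraMap F K ζ with hzd
  have hz : IsPrimitiveRoot z l := hζ.map_of_injective (algebraMap F K).injective
  obtain ⟨v₀, hv₀⟩ := exists_over (E' := K) w
  have hwild : ¬Tm l v₀ := by rw [tm_over hv₀]; exact hw
  obtain ⟨c1, c2, c3, c4⟩ := counts hl hz hw hfree hwild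
  obtain ⟨ι, hι⟩ := exists_iota hz c4
  have hF : Module.finrank ℚ F = l - 1 := by
    rw [IsCyclotomicExtension.finrank (n := l) F (cyclotomic.irreducible_rat hlp.pos),
      Nat.totient_prime hlp]
  have hK : Module.finrank ℚ K = Module.finrank ℚ L * (l - 1) := by
    rw [← Module.finrank_mul_finrank ℚ L K, c4]
  have hcard : Fintype.card (K ≃ₐ[F] K) = Module.finrank ℚ L := by
    rw [← Nat.card_eq_fintype_card, IsGalois.card_aut_eq_finrank]
    have := Module.finrank_mul_finrank ℚ F K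
    rw [hF, hK, mul_comm] at this
    exact Nat.eq_of_mul_eq_mul_right (by omega) this
  have hgz : ∀ g : K ≃ₐ[F] K, g z = z := fun g => g.commutes ζ
  have free : ∀ g : K ≃ₐ[F] K, act (g : K ≃+* K) v₀ = v₀ → g = 1 := by
    intro g hg
    obtain ⟨σ, hσ⟩ := exists_res (L := L) g
    have a1 := act_over (g : K ≃+* K) (σ : L ≃+* L) hσ hv₀
    rw [hg] at a1
    have a2 : σ = 1 := hfree σ (under_unique a1 hv₀)
    subst a2
    ext x
    exact hom_ext (L := L) hz (g : K →+* K) (RingHom.id K) hσ (hgz g) x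
  have trans : ∀ v : Pr K, ¬Tm l v → ∃ g : K ≃ₐ[F] K, act (g : K ≃+* K) v₀ = v := by
    have : Finite {u : Pr K | ¬Tm l u} := finite_wild.to_subtype
    have hb : Function.Bijective (fun g : K ≃ₐ[F] K =>
        (⟨act (g : K ≃+* K) v₀, by rw [Set.mem_setOf_eq, tm_act]; exact hwild⟩ :
          {u : Pr K | ¬Tm l u})) := by
      rw [Nat.bijective_iff_injective_and_card]
      refine ⟨fun g h e => act_inj free (congrArg Subtype.val e), ?_⟩
      rw [Nat.card_coe_set_eq, c1, Nat.card_eq_fintype_card, hcard]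
    intro v hv
    obtain ⟨g, hg⟩ := hb.2 ⟨v, hv⟩
    exact ⟨g, congrArg Subtype.val hg⟩
  have hιL : ∀ y, ι (algebraMap L K y) = algebraMap L K y := ι.commutes
  refine ⟨⟨ζ, hζ, (ι : K ≃+* K), ?_, hι, ?_, ?_, ?_, ?_, v₀, hwild, trans, free, c3, c2, ?_⟩⟩
  · intro x
    refine hom_ext (L := L) hz ((ι : K →+* K).comp (ι : K →+* K)) (RingHom.id K) (fun y => ?_) ?_ x
    · change ι (ι _) = _
      rw [hιL, hιL]; rfl
    · change ι (ι z) = z
      rw [hι, map_inv₀, hι, inv_inv]
  · intro g x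
    obtain ⟨σ, hσ⟩ := exists_res (L := L) g
    refine hom_ext (L := L) hz ((ι : K →+* K).comp (g : K →+* K))
      ((g : K →+* K).comp (ι : K →+* K)) (fun y => ?_) ?_ x
    · change ι (g _) = g (ι _)
      rw [hιL, hσ, hιL]
    · change ι (g z) = g (ι z)
      rw [hgz, hι, map_inv₀, hgz]
  · rw [hcard]; exact h2
  · rw [hcard]; exact h1
  · rw [hcard, hK]
  · have a1 := act_over (ι : K ≃+* K) (RingEquiv.refl L) hιL hv₀
    rw [act_refl] at a1
    obtain ⟨g, hg⟩ := trans (act (ι : K ≃+* K) v₀) (by rw [tm_act]; exact hwild)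
    obtain ⟨σ, hσ⟩ := exists_res (L := L) g
    have a2 := act_over (g : K ≃+* K) (σ : L ≃+* L) hσ hv₀
    rw [hg] at a2
    have a3 : σ = 1 := hfree σ (under_unique a2 a1)
    subst a3
    have a4 : g = 1 := by
      ext x
      exact hom_ext (L := L) hz (g : K →+* K) (RingHom.id K) hσ (hgz g) x
    rw [← hg, a4, act_one]

theorem disjoint {z : K} (hz : IsPrimitiveRoot z l) (hd : Module.finrank L K = l - 1) :
    (ℚ⟮z⟯).LinearDisjoint L := by
  have hlp : l.Prime := Fact.out
  have : NeZero l := ⟨hlp.ne_zero⟩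
  have : IsCyclotomicExtension {l} ℚ ℚ⟮z⟯ := hz.intermediateField_adjoin_isCyclotomicExtension ℚ
  have hζ : IsPrimitiveRoot (IntermediateField.AdjoinSimple.gen ℚ z) l :=
    IsPrimitiveRoot.coe_submonoidClass_iff.1 hz
  have hF : Module.finrank ℚ ℚ⟮z⟯ = l - 1 := by
    rw [IsCyclotomicExtension.finrank (n := l) ℚ⟮z⟯ (cyclotomic.irreducible_rat hlp.pos),
      Nat.totient_prime hlp]
  have e : (hζ.powerBasis ℚ).dim = (hz.powerBasis L).dim := by
    rw [← PowerBasis.finrank, ← PowerBasis.finrank, hF, hd]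
  apply IntermediateField.LinearDisjoint.of_basis_left (hζ.powerBasis ℚ).basis
  have := (hz.powerBasis L).basis.linearIndependent.comp (Fin.cast e) (Fin.cast_injective e)
  have e2 : (ℚ⟮z⟯).val ∘ (hζ.powerBasis ℚ).basis = (hz.powerBasis L).basis ∘ Fin.cast e := by
    funext i
    simp
  exact e2 ▸ this

end Pool.Agent.MP_14ad9d_nt.Full.SetAux

end

section

set_option autoImplicit false

open NumberField IsDedekindDomain
open scoped IntermediateField

namespace Pool.Agent.MP_14ad9d_nt.Full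

theorem SetAux.exists_prime (L : Type) [Field L] [NumberField L] (N : ℕ) :
    ∃ w : Pr L, Deg1 w ∧ N < Ideal.absNorm w.asIdeal ∧
      ∀ σ : L ≃ₐ[ℚ] L, act (σ : L ≃+* L) w = w → σ = 1 := by
  have : Fact (Nat.Prime 3) := ⟨Nat.prime_three⟩
  have h := dl 3 (E := L) (by norm_num) ⊤ top_ne_bot (V := ZMod 3) (fun _ => 0)
    (fun a _ _ => by simp) 0 (Submodule.zero_mem _)
  obtain ⟨T, hT⟩ := free_of_deg1 (E := ℚ) (E' := L)
  have hfin : {w : Pr L | Ideal.absNorm w.asIdeal ≤ N}.Finite :=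
    (Ideal.finite_setOf_absNorm_le (S := 𝓞 L) N).preimage
      (HeightOneSpectrum.asIdeal_injective (R := 𝓞 L)).injOn
  obtain ⟨w, hw, hw'⟩ := h.exists_notMem_finite (T.finite_toSet.union hfin)
  simp only [Set.mem_union, Finset.mem_coe, Set.mem_setOf_eq, not_or, not_le] at hw'
  exact ⟨w, hw.1, hw'.2, hT w hw'.1 hw.1⟩

open SetAux in
/-- every number field fits into the arithmetic setting -/
theorem exists_setup (K₀ : Type) [Field K₀] [NumberField K₀] :
    ∃ (l : ℕ) (_ : Fact l.Prime) (_ : 2 < l) (F K : Type) (_ : Field F) (_ : NumberField F)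
      (_ : Field K) (_ : NumberField K) (_ : Algebra F K) (_ : IsCyclotomicExtension {l} ℚ F)
      (_ : IsGalois F K) (_ : IsGalois ℚ K) (_ : Setup l F K) (f : K₀ →+* K),
      ∀ (n : ℕ) (b : Fin n → F), LinearIndependent ℚ b → ∀ c : Fin n → K₀,
        ∑ i, f (c i) * algebraMap F K (b i) = 0 → ∀ i, c i = 0 := by
  obtain ⟨L, _, _, _, f₀, hn⟩ := exists_galois K₀
  obtain ⟨w, hw1, hw2, hfree⟩ := exists_prime L (Module.finrank ℚ L)
  have hmem := Ideal.absNorm_mem w.asIdeal
  unfold Deg1 at hw1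
  generalize Ideal.absNorm w.asIdeal = l at hw1 hw2 hmem
  have hF : Fact l.Prime := ⟨hw1⟩
  have : NeZero l := ⟨hw1.ne_zero⟩
  have hl : 2 < l := by omega
  have hw : ¬Tm l w := fun h => h hmem
  obtain ⟨K, _, _, _, _⟩ : ∃ (K : Type) (_ : Field K) (_ : NumberField K) (_ : Algebra L K),
      IsCyclotomicExtension {l} L K :=
    ⟨CyclotomicField l L, inferInstance, inferInstance, inferInstance, inferInstance⟩
  have hG : IsGalois ℚ K := galois_cyc l L K
  set z := IsCyclotomicExtension.zeta l L K with hzd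
  have hz : IsPrimitiveRoot z l := IsCyclotomicExtension.zeta_spec l L K
  have hc : IsCyclotomicExtension {l} ℚ ℚ⟮z⟯ := hz.intermediateField_adjoin_isCyclotomicExtension ℚ
  have hG' : IsGalois ℚ⟮z⟯ K := inferInstance
  obtain ⟨S⟩ := setup_of (F := ℚ⟮z⟯) (K := K) hl hw hfree hn hw2
  obtain ⟨v₀, hv₀⟩ := exists_over (E' := K) w
  have hd := (counts hl hz hw hfree (v := v₀) (by rw [tm_over hv₀]; exact hw)).2.2.2
  refine ⟨l, hF, hl, ℚ⟮z⟯, K, inferInstance, inferInstance, inferInstance, inferInstance,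
    inferInstance, hc, hG', hG, S, (algebraMap L K).comp f₀, fun n b hb c hc i => ?_⟩
  have h1 := (disjoint hz hd).linearIndependent_left hb
  have h2 := Fintype.linearIndependent_iff.1 h1 (fun i => f₀ (c i)) (by
    rw [← hc]
    exact Finset.sum_congr rfl fun j _ => Algebra.smul_def _ _) i
  exact (map_eq_zero f₀).1 h2

end Pool.Agent.MP_14ad9d_nt.Full

end
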