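import Pool.Agent.Mg.F14ad9d.G04cbab
import Pool.Agent.Mg.F14ad9d.G67dcc7

section

open Matrix MeasureTheory Set Topology Filter
open scoped ENNReal NNReal CompactlySupported

namespace Pool.Agent.MP_7a4cc0_an

variable {Γ : Subgroup G} {B : Set V} {R₀ : ℝ}

lemma Core_cont (v b : V) : Continuous fun g : G => lor (rho g v) b :=
  continuous_lor.comp ((continuous_rho_left v).prodMk continuous_const)

lemma Core_cont0 (v : V) : Continuous fun g : G => rho g v 0 :=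
  (continuous_apply 0).comp (continuous_rho_left v)

lemma Core_decomp (g : G) {b : V} (hb : lor b b = 1) :
    -4 * (lor (rho g xp) b * lor (rho g xm) b) + lor (rho g ey) b ^ 2 + lor (rho g ez) b ^ 2
      = 1 := by
  have h := lor_decomp (rho g⁻¹ b) (rho g⁻¹ b)
  rw [lor_rho, hb] at h
  simp only [lor_rho_left g, lor_comm _ (rho g⁻¹ b)]
  linarith

lemma Core_val (g : G) (w : ℂ) (b : V) : lor (rho (g * nz w) vo) b =
    (1 + ‖w‖ ^ 2) * lor (rho g xp) b + w.re * lor (rho g ey) b + w.im * lor (rho g ez) b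
      + lor (rho g xm) b := by
  rw [rho_mul, rho_nz_vo]
  simp only [map_add, map_smul, lor_add_left, lor_smul_left]

lemma Core_val0 (g : G) (b : V) : lor (rho g vo) b = lor (rho g xp) b + lor (rho g xm) b := by
  rw [vo_eq, map_add, lor_add_left]

lemma Core_valr (g : G) (t : ℝ) (b : V) : lor (rho (g * nz t) vo) b =
    (1 + t ^ 2) * lor (rho g xp) b + t * lor (rho g ey) b + lor (rho g xm) b := by
  rw [Core_val]
  simp

lemma isClosed_KR (B : Set V) (R : ℝ) : IsClosed (KR B R) := by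
  have : KR B R = ⋂ b ∈ B, {g : G | lor (rho g vo) b ≤ R} := by
    ext g; simp [KR]
  rw [this]
  exact isClosed_biInter fun b _ => isClosed_le (Core_cont vo b) continuous_const

lemma isClosed_FG (B : Set V) : IsClosed (FG B) := by
  have : FG B = ⋂ b ∈ B, {g : G | lor (rho g xp) b ≤ 0} := by
    ext g; simp [FG]
  rw [this]
  exact isClosed_biInter fun b _ => isClosed_le (Core_cont xp b) continuous_const

lemma KR_mono (B : Set V) {R R' : ℝ} (h : R ≤ R') : KR B R ⊆ KR B R' :=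
  fun _ hg b hb => (hg b hb).trans h

lemma Geo.mul_mem_KR (h : Geo Γ B R₀) {γ : G} (hγ : γ ∈ Γ) {g : G} {R : ℝ} :
    γ * g ∈ KR B R ↔ g ∈ KR B R := by
  constructor
  · intro hg b hb
    have := hg _ (h.inv γ hγ b hb)
    rwa [rho_mul, lor_rho] at this
  · intro hg b hb
    rw [rho_mul, lor_rho_left]
    exact hg _ (h.inv γ⁻¹ (Γ.inv_mem hγ) b hb)

lemma Geo.mul_mem_FG (h : Geo Γ B R₀) {γ : G} (hγ : γ ∈ Γ) {g : G} :
    γ * g ∈ FG B ↔ g ∈ FG B := by
  constructor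
  · intro hg b hb
    have := hg _ (h.inv γ hγ b hb)
    rwa [rho_mul, lor_rho] at this
  · intro hg b hb
    rw [rho_mul, lor_rho_left]
    exact hg _ (h.inv γ⁻¹ (Γ.inv_mem hγ) b hb)

lemma FG_mul_nz {g : G} (z : ℂ) : g * nz z ∈ FG B ↔ g ∈ FG B := by
  simp only [FG, mem_ofPred_eq, rho_mul, rho_nz_xp]

lemma FG_mul_a2 {g : G} (k : ℕ) : g * a2 ^ k ∈ FG B ↔ g ∈ FG B := by
  have h2 : (0 : ℝ) < 2 ^ k := by positivity
  simp only [FG, mem_ofPred_eq, rho_mul, rho_a2_xp, map_smul, lor_smul_left]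
  refine forall₂_congr fun b _ => ⟨fun h => ?_, fun h => mul_nonpos_of_nonneg_of_nonpos h2.le h⟩
  by_contra hc
  exact absurd h (not_le.2 (mul_pos h2 (not_le.1 hc)))

lemma Geo.cv_mem_FG (h : Geo Γ B R₀) (k : ℕ) (t : ℝ) : cv k t ∈ FG B := by
  intro b hb
  rw [rho_cv_xp, lor_smul_left]
  exact mul_nonpos_of_nonneg_of_nonpos (by positivity) (h.negp b hb)

lemma KR_mul_a2 {g : G} (hg : g ∈ FG B) {R : ℝ} (h : g ∈ KR B R) (k : ℕ) :
    g * a2 ^ k ∈ KR B (R / 2 ^ k) := by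
  intro b hb
  have h1 := hg b hb
  have h2 := h b hb
  rw [Core_val0] at h2
  rw [Core_val0, rho_mul, rho_mul, rho_a2_xp, rho_a2_xm, map_smul, map_smul, lor_smul_left,
    lor_smul_left]
  have h3 : (1 : ℝ) ≤ 2 ^ k := one_le_pow₀ (by norm_num)
  have h4 : (0 : ℝ) < 2 ^ k := by positivity
  rw [le_div_iff₀ h4]
  have h5 : ((2 : ℝ) ^ k * lor (rho g xp) b + (2 ^ k)⁻¹ * lor (rho g xm) b) * 2 ^ k =
      2 ^ k * 2 ^ k * lor (rho g xp) b + lor (rho g xm) b := by field_simp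
  rw [h5]
  have h6 : (1 : ℝ) ≤ 2 ^ k * 2 ^ k := by nlinarith
  nlinarith

lemma KR_mul_nz (unit : ∀ b ∈ B, lor b b = 1) {g : G} (hg : g ∈ FG B) {R : ℝ} (hR : 0 ≤ R)
    (h : g ∈ KR B R) (w : ℂ) : g * nz w ∈ KR B (R + ‖w‖) := by
  intro b hb
  have h1 := hg b hb
  have h2 := h b hb
  have h3 := Core_decomp g (unit b hb)
  rw [Core_val0] at h2
  rw [Core_val]
  generalize lor (rho g xp) b = A at *
  generalize lor (rho g xm) b = C at *
  generalize lor (rho g ey) b = B1 at *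
  generalize lor (rho g ez) b = B2 at *
  have hw : ‖w‖ ^ 2 = w.re ^ 2 + w.im ^ 2 := by
    rw [Complex.sq_norm, Complex.normSq_apply]; ring
  have hr : 0 ≤ ‖w‖ := norm_nonneg w
  generalize ‖w‖ = r at *
  have hcs : (w.re * B1 + w.im * B2) ^ 2 ≤ r ^ 2 * (1 + 4 * (A * C)) := by
    have : 1 + 4 * (A * C) = B1 ^ 2 + B2 ^ 2 := by linarith
    rw [this, hw]
    nlinarith [sq_nonneg (w.re * B2 - w.im * B1)]
  have hA : r ^ 2 * A ≤ 0 := mul_nonpos_of_nonneg_of_nonpos (sq_nonneg r) h1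
  rcases le_total 0 C with hC | hC
  · have hAC : A * C ≤ 0 := mul_nonpos_of_nonpos_of_nonneg h1 hC
    have : (w.re * B1 + w.im * B2) ^ 2 ≤ r ^ 2 := by nlinarith [sq_nonneg r]
    have := (abs_le.1 (abs_le_of_sq_le_sq' this hr |> abs_le.2)).2
    nlinarith
  · have h0 : 0 ≤ -(r ^ 2 * A) - C := by linarith
    have : (w.re * B1 + w.im * B2) ^ 2 ≤ (r + (-(r ^ 2 * A) - C)) ^ 2 := by
      nlinarith [sq_nonneg (r ^ 2 * A - C), mul_nonneg hr h0]
    have := (abs_le_of_sq_le_sq' this (by linarith)).2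
    nlinarith

lemma Geo.plane (h : Geo Γ B R₀) {b b' : V} (hb : b ∈ B) (hb' : b' ∈ B) (hne : b ≠ b') {y : V}
    (hy : Cone y) (h0 : 0 ≤ lor y b) : lor y b' < 0 :=
  lor_sep (h.unit b' hb') (h.unit b hb) (by linarith [h.sep b' hb' b hb hne.symm]) fut_vo.cone
    (h.neg b' hb') (h.neg b hb).le hy h0

lemma Geo.locFin (h : Geo Γ B R₀) : LocFin B := by
  refine locFin_of_sep h.unit fun m hm m' hm' => ?_
  by_cases hne : m = m'
  · exact Or.inl hne.symm
  · have := h.sep m hm m' hm' hne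
    exact Or.inr (Or.inr (le_abs.2 (Or.inr (by linarith))))

lemma Geo.mem_KR (h : Geo Γ B R₀) (g : G) : g ∈ KR B (rho g vo 0) := by
  intro b hb
  have hy := rho_fut g fut_vo
  have h1 := hy.one_le
  rcases le_total (lor (rho g vo) b) 0 with h0 | h0
  · linarith
  · have := lor_dist (m := -b) hy fut_vo (by simpa using h.unit b hb) (by simpa using h0)
      (by simpa using (h.neg b hb).le)
    rw [lor_neg_right, lor_vo_right] at this
    nlinarith

lemma Geo.finite_near (h : Geo Γ B R₀) (C : ℝ) :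
    {b ∈ B | ∃ x, Fut x ∧ x 0 ≤ C ∧ 0 ≤ lor x b}.Finite := by
  obtain ⟨D, hD⟩ := norm_le_of_lor 1 1 C
  refine (h.locFin D).subset ?_
  rintro b ⟨hb, x, hx, hxC, hxb⟩
  refine ⟨hb, hD vo b fut_vo (by simp [vo]) (by rw [h.unit b hb]; simp) ?_⟩
  have h1 := lor_dist fut_vo hx (h.unit b hb) (h.neg b hb).le hxb
  rw [lor_vo_left x] at h1
  have h2 := hx.one_le
  refine abs_le_of_sq_le_sq ?_ (by linarith)
  nlinarith

lemma Geo.KR_subset_interior (h : Geo Γ B R₀) {R : ℝ} (hR : 0 ≤ R) :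
    KR B R ⊆ interior (KR B (R + 1)) := by
  intro g hg
  rw [mem_interior_iff_mem_nhds]
  have hF := h.finite_near (rho g vo 0 + 1)
  have h1 : ∀ᶠ g' in 𝓝 g, rho g' vo 0 < rho g vo 0 + 1 :=
    (Core_cont0 vo).continuousAt.eventually_lt continuousAt_const (by linarith)
  have h2 : ∀ᶠ g' in 𝓝 g, ∀ b ∈ {b ∈ B | ∃ x, Fut x ∧ x 0 ≤ rho g vo 0 + 1 ∧ 0 ≤ lor x b},
      lor (rho g' vo) b < R + 1 := by
    rw [eventually_all_finite hF]
    intro b hb
    exact (Core_cont vo b).continuousAt.eventually_lt continuousAt_const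
      (by linarith [hg b hb.1])
  filter_upwards [h1, h2] with g' a1 a2 b hb
  rcases le_total 0 (lor (rho g' vo) b) with h0 | h0
  · exact (a2 b ⟨hb, _, rho_fut g' fut_vo, a1.le, h0⟩).le
  · linarith

lemma Geo.subset_KR (h : Geo Γ B R₀) {K : Set G} (hK : IsCompact K) :
    ∃ R : ℝ, 0 ≤ R ∧ K ⊆ KR B R := by
  obtain ⟨R, hR⟩ := hK.bddAbove_image (Core_cont0 vo).continuousOn
  refine ⟨max R 0, le_max_right _ _, fun g hg => ?_⟩
  exact KR_mono B ((hR (mem_image_of_mem _ hg)).trans (le_max_left _ _)) (h.mem_KR g)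

lemma Geo.exists_bdd (h : Geo Γ B R₀) (R : ℝ) : ∃ C : ℝ, ∀ x, Fut x →
    (∀ b ∈ B, lor x b ≤ R) → ∃ γ ∈ Γ, rho γ x 0 ≤ C := by
  obtain ⟨C, hC⟩ := h.cocpt
  refine ⟨max C (2 * C * (1 + R ^ 2)), fun x hx hR => ?_⟩
  by_cases hall : ∀ b ∈ B, lor x b ≤ 0
  · obtain ⟨γ, hγ, h1⟩ := hC x hx hall
    exact ⟨γ, hγ, h1.trans (le_max_left _ _)⟩
  · push Not at hall
    obtain ⟨b, hb, hs⟩ := hall
    have hbb := h.unit b hb
    obtain ⟨p1, p2⟩ := proj_timelike hx hbb
    have hsR := hR b hb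
    have hxx := hx.1
    generalize hsdef : lor x b = s at *
    have hy := fut_normalize (y := x - s • b) (by rw [p1]; nlinarith) p2
    rw [p1, neg_neg] at hy
    have hq : 1 ≤ √(1 + s ^ 2) := Real.one_le_sqrt.2 (by nlinarith)
    have hqi : (√(1 + s ^ 2))⁻¹ ≤ 1 := inv_le_one_of_one_le₀ hq
    have hqp : 0 < (√(1 + s ^ 2))⁻¹ := by positivity
    generalize (√(1 + s ^ 2))⁻¹ = c at *
    have hyb : lor (c • (x - s • b)) b = 0 := by
      simp only [lor_smul_left, lor_sub_left, hsdef, hbb]; ring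
    obtain ⟨γ, hγ, h1⟩ := hC _ hy fun b' hb' => by
      by_cases hne : b = b'
      · rw [← hne]; exact hyb.le
      · exact (h.plane hb hb' hne hy.cone hyb.ge).le
    refine ⟨γ, hγ, le_trans ?_ (le_max_right _ _)⟩
    have h2 := (rho_fut γ hx).zero_le (rho_fut γ hy)
    have h3 := (rho_fut γ hy).one_le
    rw [lor_rho] at h2
    have h4 : -lor x (c • (x - s • b)) = c * (1 + s ^ 2) := by
      simp only [lor_smul_right, lor_sub_right, hsdef, hxx]; ring
    rw [h4] at h2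
    have h5 : c * (1 + s ^ 2) ≤ 1 + R ^ 2 := by nlinarith
    refine h2.trans ?_
    have h6 : 0 ≤ c * (1 + s ^ 2) := by positivity
    exact mul_le_mul (by linarith) h5 h6 (by linarith)

lemma Geo.exists_compact (h : Geo Γ B R₀) (R : ℝ) :
    ∃ K : Set G, IsCompact K ∧ K ⊆ KR B R ∧ ∀ g ∈ KR B R, ∃ γ ∈ Γ, γ * g ∈ K := by
  obtain ⟨C, hC⟩ := h.exists_bdd R
  refine ⟨{g : G | rho g vo 0 ≤ C} ∩ KR B R, (isCompact_bdd C).inter_right (isClosed_KR B R),
    inter_subset_right, fun g hg => ?_⟩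
  obtain ⟨γ, hγ, h1⟩ := hC _ (rho_fut g fut_vo) hg
  exact ⟨γ, hγ, by rwa [mem_ofPred_eq, rho_mul], (h.mul_mem_KR hγ).2 hg⟩

lemma Geo.eventually_mem_KR (h : Geo Γ B R₀) {g : G} (hg : g ∈ FG B) {R : ℝ} (hR : 0 < R) :
    ∀ᶠ k : ℕ in atTop, g * a2 ^ k ∈ KR B R := by
  have h1 : Tendsto (fun k : ℕ => rho g vo 0 / 2 ^ k) atTop (𝓝 0) :=
    tendsto_const_nhds.div_atTop (tendsto_pow_atTop_atTop_of_one_lt (by norm_num))
  filter_upwards [h1.eventually_lt tendsto_const_nhds hR] with k hk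
  exact KR_mono B hk.le (KR_mul_a2 hg (h.mem_KR g) k)

lemma Core_quad {A B C T : ℝ} (hA : A ≤ 0) (h : ∀ t, T ≤ t → 0 < (1 + t ^ 2) * A + t * B + C) :
    A = 0 ∧ 0 ≤ B := by
  have hA0 : A = 0 := by
    by_contra hne
    have hA' : 0 < -A := by
      rcases hA.lt_or_eq with h1 | h1
      · linarith
      · exact absurd h1 hne
    obtain ⟨t, h1, h2, h3⟩ : ∃ t : ℝ, T ≤ t ∧ 1 ≤ t ∧ (|B| + |C|) / -A ≤ t :=
      ⟨max T (max 1 ((|B| + |C|) / -A)), le_max_left _ _,
        (le_max_left _ _).trans (le_max_right _ _), (le_max_right _ _).trans (le_max_right _ _)⟩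
    rw [div_le_iff₀ hA'] at h3
    have h4 := h t h1
    have h5 := le_abs_self B
    have h6 := le_abs_self C
    have h7 := abs_nonneg C
    have h8 : t * B ≤ t * |B| := mul_le_mul_of_nonneg_left h5 (by linarith)
    have h9 : t * (|B| + |C|) ≤ t * (t * -A) := mul_le_mul_of_nonneg_left h3 (by linarith)
    nlinarith
  refine ⟨hA0, ?_⟩
  by_contra hB
  have hB' : 0 < -B := by linarith [not_le.1 hB]
  have h3 : C / -B ≤ max T (C / -B) := le_max_right _ _
  rw [div_le_iff₀ hB'] at h3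
  have h4 := h _ (le_max_left T (C / -B))
  rw [hA0] at h4
  nlinarith

lemma Core_stay (h : Geo Γ B R₀) {g : G} {T : ℝ}
    (hT : ∀ t : ℝ, T ≤ |t| → g * nz t ∉ KR B 0) {b : V} (hb : b ∈ B) {s t : ℝ}
    (hs : ∀ u ∈ uIcc s t, T ≤ |u|) (h0 : 0 < lor (rho (g * nz s) vo) b) :
    0 < lor (rho (g * nz t) vo) b := by
  by_contra hc
  have hcont : Continuous fun u : ℝ => lor (rho (g * nz u) vo) b := by
    simp only [Core_valr]; fun_prop
  have : (0 : ℝ) ∈ uIcc (lor (rho (g * nz s) vo) b) (lor (rho (g * nz t) vo) b) :=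
    mem_uIcc.2 (Or.inr ⟨not_lt.1 hc, h0.le⟩)
  obtain ⟨u, hu, hu0⟩ := intermediate_value_uIcc hcont.continuousOn this
  apply hT u (hs u hu)
  intro b' hb'
  by_cases hne : b = b'
  · rw [← hne]; exact hu0.le
  · exact (h.plane hb hb' hne (rho_fut _ fut_vo).cone hu0.ge).le

/-- Every horocycle based in the limit set comes back to a fixed neighbourhood of the core. -/
lemma Geo.recur (h : Geo Γ B R₀) {g : G} (hg : g ∈ FG B) :
    ∃ R : ℝ, ∀ T : ℝ, ∃ t : ℝ, T ≤ |t| ∧ g * nz t ∈ KR B R := by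
  by_cases h0 : ∀ T : ℝ, ∃ t : ℝ, T ≤ |t| ∧ g * nz t ∈ KR B 0
  · exact ⟨0, h0⟩
  push Not at h0
  obtain ⟨T, hT⟩ := h0
  have hex : ∀ t : ℝ, T ≤ |t| → ∃ b ∈ B, 0 < lor (rho (g * nz t) vo) b := fun t ht => by
    have := hT t ht
    simp only [KR, mem_ofPred_eq] at this
    push Not at this
    exact this
  have hTa := le_abs_self T
  have hT0 := abs_nonneg T
  obtain ⟨b1, hb1, p1⟩ := hex |T| (by rwa [abs_abs])
  obtain ⟨b2, hb2, p2⟩ := hex (-|T|) (by rwa [abs_neg, abs_abs])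
  have q1 := Core_quad (B := lor (rho g ey) b1) (C := lor (rho g xm) b1) (T := |T|)
    (hg b1 hb1) fun t ht => by
      rw [← Core_valr]
      refine Core_stay h hT hb1 (fun u hu => ?_) p1
      rw [uIcc_of_le ht] at hu
      exact hTa.trans (hu.1.trans (le_abs_self u))
  have q2 := Core_quad (B := -lor (rho g ey) b2) (C := lor (rho g xm) b2) (T := |T|)
    (hg b2 hb2) fun t ht => by
      have := Core_stay h hT hb2 (s := -|T|) (t := -t) (fun u hu => by
        rw [uIcc_of_ge (by linarith)] at hu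
        have := neg_le_abs u
        linarith [hu.2]) p2
      rw [Core_valr] at this
      linarith
  have hb12 : b1 = b2 := by
    by_contra hne
    have a1 := abs_lor_null_le (rho_cone g cone_xp) (h.unit b1 hb1) (h.unit b2 hb2) q1.1 q2.1
    have a2 := h.sep b1 hb1 b2 hb2 hne
    linarith [(abs_le.1 a1).1]
  subst hb12
  have hB : lor (rho g ey) b1 = 0 := by linarith [q1.2, q2.2]
  have hval : ∀ t : ℝ, lor (rho (g * nz t) vo) b1 = lor (rho g xm) b1 := fun t => by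
    rw [Core_valr, q1.1, hB]; ring
  rw [hval] at p1
  refine ⟨lor (rho g xm) b1, fun T' => ⟨T', le_abs_self _, fun b' hb' => ?_⟩⟩
  by_cases hne : b1 = b'
  · rw [← hne, hval]
  · have := h.plane hb1 hb' hne (rho_fut (g * nz T') fut_vo).cone (by rw [hval]; exact p1.le)
    linarith

lemma Geo.no_parab (h : Geo Γ B R₀) {g : G} (hg : g ∈ FG B) {τ : ℝ}
    (hτ : g * nz τ * g⁻¹ ∈ Γ) : τ = 0 := by
  obtain ⟨K, hK, -, hKc⟩ := h.exists_compact 1
  have hd := h.disc
  have hU : ∃ U : Set G, IsOpen U ∧ (1 : G) ∈ U ∧ ∀ γ ∈ Γ, γ ∈ U → γ = 1 := by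
    have : IsOpen ({1} : Set Γ) := isOpen_discrete _
    obtain ⟨U, hU, hU1⟩ := isOpen_induced_iff.1 this
    refine ⟨U, hU, ?_, fun γ hγ hγU => ?_⟩
    · have : (1 : Γ) ∈ Subtype.val ⁻¹' U := by rw [hU1]; rfl
      exact this
    · have : (⟨γ, hγ⟩ : Γ) ∈ Subtype.val ⁻¹' U := hγU
      rw [hU1] at this
      exact congrArg Subtype.val this
  obtain ⟨U, hU, hU1, hUΓ⟩ := hU
  have htube : ∀ᶠ z : ℂ in 𝓝 0, ∀ κ ∈ K, κ * nz z * κ⁻¹ ∈ U := by
    refine hK.eventually_forall_of_forall_eventually fun κ _ => ?_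
    have hc : Continuous fun p : ℂ × G => p.2 * nz p.1 * p.2⁻¹ :=
      (continuous_snd.mul (continuous_nz.comp continuous_fst)).mul continuous_snd.inv
    exact hc.continuousAt.preimage_mem_nhds (hU.mem_nhds (by simpa using hU1))
  have h1 : Tendsto (fun k : ℕ => (τ : ℂ) / 2 ^ k) atTop (𝓝 0) := by
    have a : Tendsto (fun k : ℕ => τ / 2 ^ k) atTop (𝓝 0) :=
      tendsto_const_nhds.div_atTop (tendsto_pow_atTop_atTop_of_one_lt (by norm_num))
    have b := (Complex.continuous_ofReal.tendsto 0).comp a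
    simpa [Function.comp_def] using b
  obtain ⟨k, hk1, hk2⟩ := ((h1.eventually htube).and (h.eventually_mem_KR hg one_pos)).exists
  obtain ⟨γ, hγ, hγK⟩ := hKc _ hk2
  have e : γ * (g * a2 ^ k) * nz ((τ : ℂ) / 2 ^ k) * (γ * (g * a2 ^ k))⁻¹ =
      γ * (g * nz τ * g⁻¹) * γ⁻¹ := by
    have := nz_mul_a2 (τ : ℂ) k
    calc γ * (g * a2 ^ k) * nz ((τ : ℂ) / 2 ^ k) * (γ * (g * a2 ^ k))⁻¹
        = γ * g * (a2 ^ k * nz ((τ : ℂ) / 2 ^ k)) * (γ * (g * a2 ^ k))⁻¹ := by
          simp only [mul_assoc]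
      _ = γ * (g * nz τ * g⁻¹) * γ⁻¹ := by rw [← this]; group
  have h2 := hUΓ _ (by rw [e]; exact Γ.mul_mem (Γ.mul_mem hγ hτ) (Γ.inv_mem hγ)) (hk1 _ hγK)
  have h3 : nz ((τ : ℂ) / 2 ^ k) = 1 := by
    have := mul_inv_eq_one.1 h2
    simpa using this
  have h4 := nz_eq_one h3
  simpa using h4

lemma Geo.countable (h : Geo Γ B R₀) : (Γ : Set G).Countable := by
  have hd := h.disc
  have : Countable Γ := TopologicalSpace.separableSpace_iff_countable.1 inferInstance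
  exact Set.countable_coe_iff.1 this


end Pool.Agent.MP_7a4cc0_an

end

section

open Matrix MeasureTheory Set Topology Filter
open scoped ENNReal NNReal CompactlySupported

namespace Pool.Agent.MP_7a4cc0_an

/-- The vector `(1, p)` over a point of the closed ball. -/
def lift (p : E3) : V := ![1, p 0, p 1, p 2]

lemma rigid1_lor (p : E3) (b : V) :
    lor (lift p) b = -b 0 + (p 0 * b 1 + p 1 * b 2 + p 2 * b 3) := by
  simp [lor, lift]; ring

lemma rigid1_norm (p : E3) : ‖p‖ ^ 2 = p 0 ^ 2 + p 1 ^ 2 + p 2 ^ 2 := by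
  rw [EuclideanSpace.real_norm_sq_eq, Fin.sum_univ_three]

lemma lor_lift_self (p : E3) : lor (lift p) (lift p) = ‖p‖ ^ 2 - 1 := by
  rw [rigid1_norm]; simp [lor, lift]; ring
lemma lift_kl {v : V} (h : v 0 ≠ 0) : lift (kl v) = (v 0)⁻¹ • v := by
  ext i; fin_cases i <;> simp [lift, kl, h]
lemma kl_smul_lift (p : E3) {c : ℝ} (hc : c ≠ 0) : kl (c • lift p) = p := by
  ext i; fin_cases i <;> simp [lift, kl, hc]
lemma continuous_lift : Continuous lift := by
  refine continuous_pi fun i => ?_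
  fin_cases i <;> simp [lift] <;> fun_prop

lemma rigid1_dist (p q : E3) : dist p q ^ 2 =
    lor (lift p) (lift p) - 2 * lor (lift p) (lift q) + lor (lift q) (lift q) := by
  rw [dist_eq_norm, rigid1_norm]; simp [lor, lift]; ring

lemma rigid1_cone {p : E3} (h : ‖p‖ = 1) : Cone (lift p) :=
  ⟨by rw [lor_lift_self, h]; norm_num, by simp [lift]⟩

lemma rigid1_line (p e : E3) (t : ℝ) (b : V) : lor (lift (p + t • e)) b =
    lor (lift p) b + t * (e 0 * b 1 + e 1 * b 2 + e 2 * b 3) := by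
  simp only [rigid1_lor, PiLp.add_apply, PiLp.smul_apply, smul_eq_mul]; ring

theorem Geo.limitSet_eq {Γ : Subgroup G} {B : Set V} {R₀ : ℝ} (h : Geo Γ B R₀) :
    limitSet Γ = {p | ‖p‖ = 1 ∧ ∀ b ∈ B, lor (lift p) b ≤ 0} := by
  ext p
  constructor
  · rintro ⟨h1, h2⟩
    refine ⟨by simpa using h2, fun b hb => ?_⟩
    have hc : IsClosed {p : E3 | lor (lift p) b ≤ 0} :=
      isClosed_le (continuous_lor.comp (continuous_lift.prodMk continuous_const)) continuous_const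
    refine closure_minimal ?_ hc h1
    rintro _ ⟨g, hg, rfl⟩
    have hx := (rho_fut (pr g) fut_vo).2
    show lor (lift (pt g)) b ≤ 0
    rw [pt_eq, lift_kl hx.ne', lor_smul_left, lor_rho_left]
    exact mul_nonpos_of_nonneg_of_nonpos (inv_pos.2 hx).le
      (h.neg _ (h.inv _ (Γ.inv_mem hg) b hb)).le
  · rintro ⟨h1, h2⟩
    refine ⟨Metric.mem_closure_iff.2 fun ε hε => ?_, by simpa using h1⟩
    obtain ⟨C, hC⟩ := h.cocpt
    obtain ⟨r, hr2, hrC⟩ : ∃ r : ℝ, 2 ≤ r ∧ 8 * |C| < r * ε ^ 2 := by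
      refine ⟨2 + 8 * |C| / ε ^ 2, le_add_of_nonneg_right (by positivity), ?_⟩
      rw [add_mul, div_mul_cancel₀ _ (by positivity)]
      linarith [pow_pos hε 2]
    have hr : 0 < r := by linarith
    obtain ⟨s, hs⟩ : ∃ s : ℝ, s = (r ^ 2 - 1) / 2 := ⟨_, rfl⟩
    have s0 : r ^ 2 / 4 ≤ s := by rw [hs]; nlinarith
    have s1 : 0 < s := lt_of_lt_of_le (by positivity) s0
    have a0 : lift p 0 = 1 := rfl
    have a1 : lor (lift p) (lift p) = 0 := by rw [lor_lift_self, h1]; norm_num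
    have hx : Fut (r⁻¹ • (vo + s • lift p)) := by
      constructor
      · simp only [lor_smul_left, lor_smul_right, lor_add_left, lor_add_right, lor_vo_vo, a1,
          lor_vo_left (lift p), lor_vo_right (lift p), a0]
        rw [hs]
        field_simp
        ring
      · have : vo 0 = 1 := rfl
        simp only [Pi.smul_apply, Pi.add_apply, smul_eq_mul, this, a0]
        positivity
    obtain ⟨γ, hγ, hle⟩ := hC _ hx fun b hb => by
      rw [lor_smul_left, lor_add_left, lor_smul_left]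
      exact mul_nonpos_of_nonneg_of_nonpos (inv_pos.2 hr).le
        (by nlinarith [h.neg b hb, h2 b hb])
    obtain ⟨g, hg⟩ := pr_surjective γ⁻¹
    refine ⟨pt g, ⟨g, show pr g ∈ Γ from hg ▸ Γ.inv_mem hγ, rfl⟩, ?_⟩
    have hy := rho_fut γ⁻¹ fut_vo
    have b1 : -lor (r⁻¹ • (vo + s • lift p)) (rho γ⁻¹ vo) ≤ C := by
      rwa [← lor_rho_left, lor_vo_right, neg_neg]
    rw [lor_smul_left, lor_add_left, lor_smul_left, lor_vo_left, ← mul_neg,
      inv_mul_le_iff₀ hr] at b1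
    have b2 := lor_cone_nonpos (rigid1_cone h1) hy.cone
    have b3 := rigid1_dist p (pt g)
    rw [pt_eq, hg] at b3 ⊢
    rw [a1, lift_kl hy.2.ne', lor_smul_left, lor_smul_right, lor_smul_right, hy.1] at b3
    have b4 : ((rho γ⁻¹) vo 0)⁻¹ ≤ 1 := inv_le_one_of_one_le₀ hy.one_le
    have b5 := inv_pos.2 hy.2
    have b6 : dist p (kl (rho γ⁻¹ vo)) ^ 2 ≤ -2 * lor (lift p) (rho γ⁻¹ vo) := by
      nlinarith [mul_pos b5 b5]
    refine lt_of_pow_lt_pow_left₀ 2 hε.le ?_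
    by_contra hc
    push Not at hc
    have b7 : s * ε ^ 2 ≤ 2 * (r * |C|) := by
      nlinarith [hy.2, mul_le_mul_of_nonneg_left (le_abs_self C) hr.le]
    nlinarith [mul_le_mul_of_nonneg_right s0 (sq_nonneg ε), mul_lt_mul_of_pos_left hrC hr]

theorem Geo.FG_subset {Γ : Subgroup G} {B : Set V} {R₀ : ℝ} (h : Geo Γ B R₀) :
    cls Γ '' FG B ⊆ RFplus Γ := by
  rintro _ ⟨g, hg, rfl⟩
  obtain ⟨g, rfl⟩ := pr_surjective g
  refine ⟨g, ?_, rfl⟩
  have hy := (rho_cone (pr g) cone_xp).2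
  show plus g ∈ limitSet Γ
  rw [h.limitSet_eq, plus_eq]
  refine ⟨?_, fun b hb => ?_⟩
  · have e := lor_lift_self (kl (rho (pr g) xp))
    rw [lift_kl hy.ne', lor_smul_left, lor_smul_right, lor_rho, lor_xp_xp] at e
    exact (pow_eq_one_iff_of_nonneg (norm_nonneg _) two_ne_zero).1 (by linarith)
  · rw [lift_kl hy.ne', lor_smul_left]
    exact mul_nonpos_of_nonneg_of_nonpos (inv_pos.2 hy).le (hg b hb)

lemma rigid1_chord {y e : E3} (hy : ‖y‖ < 1) (he : e ≠ 0) : ∃ t : ℝ, 0 < t ∧ ‖y + t • e‖ = 1 := by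
  have h0 : 0 < ‖e‖ := norm_pos_iff.2 he
  have hc : Continuous fun t : ℝ => ‖y + t • e‖ := by fun_prop
  have h1 : 1 ≤ ‖y + (2 / ‖e‖) • e‖ := by
    have := norm_sub_norm_le ((2 / ‖e‖) • e) (-y)
    rw [norm_smul, Real.norm_of_nonneg (by positivity), div_mul_cancel₀ _ h0.ne', norm_neg,
      sub_neg_eq_add, add_comm] at this
    linarith
  obtain ⟨t, ht, e1⟩ := intermediate_value_Icc (show (0 : ℝ) ≤ 2 / ‖e‖ by positivity)
    hc.continuousOn (show (1 : ℝ) ∈ _ from ⟨by simpa using hy.le, h1⟩)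
  refine ⟨t, ht.1.lt_of_ne ?_, e1⟩
  rintro rfl
  simp only [zero_smul, add_zero] at e1
  exact hy.ne e1

lemma rigid1_between {K : Set E3} (hK : Convex ℝ K) {p e : E3} {t t' : ℝ} (ht : 0 ≤ t)
    (ht' : 0 ≤ t') (h1 : p + t • e ∈ K) (h2 : p + t' • -e ∈ K) : p ∈ K := by
  rcases ht.eq_or_lt with rfl | h0
  · simpa using h1
  have hs : 0 < t + t' := by linarith
  have := hK h1 h2 (a := t' / (t + t')) (b := t / (t + t')) (by positivity) (by positivity)
    (by field_simp; ring)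
  convert this using 1
  match_scalars <;> field_simp <;> ring

lemma Geo.rigid1_plane {Γ : Subgroup G} {B : Set V} {R₀ : ℝ} (h : Geo Γ B R₀) {b : V}
    (hb : b ∈ B) {y : E3} (hy : ‖y‖ < 1) (h0 : lor (lift y) b = 0) :
    y ∈ convexHull ℝ (limitSet Γ) := by
  obtain ⟨e, he, h1⟩ : ∃ e : E3, e ≠ 0 ∧ e 0 * b 1 + e 1 * b 2 + e 2 * b 3 = 0 := by
    by_cases hb : b 1 = 0
    · refine ⟨!₂[1, 0, 0], fun e => ?_, by simp [hb]⟩
      simpa using congrArg (fun v : E3 => v 0) e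
    · refine ⟨!₂[-b 2, b 1, 0], fun e => hb ?_, by simp; ring⟩
      simpa using congrArg (fun v : E3 => v 1) e
  have key : ∀ z : E3, ‖z‖ = 1 → lor (lift z) b = 0 → z ∈ convexHull ℝ (limitSet Γ) := by
    intro z hz h2
    refine subset_convexHull ℝ _ ?_
    rw [h.limitSet_eq]
    refine ⟨hz, fun b' hb' => ?_⟩
    by_cases hne : b = b'
    · exact hne ▸ h2.le
    · exact (h.plane hb hb' hne (rigid1_cone hz) h2.ge).le
  obtain ⟨t, ht, e1⟩ := rigid1_chord hy he
  obtain ⟨t', ht', e2⟩ := rigid1_chord hy (neg_ne_zero.2 he)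
  refine rigid1_between (convex_convexHull ℝ _) ht.le ht'.le (key _ e1 ?_) (key _ e2 ?_)
  · rw [rigid1_line, h0, h1]; ring
  · rw [rigid1_line, h0]
    simp only [PiLp.neg_apply]
    linear_combination -t' * h1

lemma Geo.rigid1_ray {Γ : Subgroup G} {B : Set V} {R₀ : ℝ} (h : Geo Γ B R₀) {p e : E3}
    (hp : ‖p‖ < 1) (hB : ∀ b ∈ B, lor (lift p) b ≤ 0) (he : e ≠ 0) :
    ∃ t : ℝ, 0 ≤ t ∧ p + t • e ∈ convexHull ℝ (limitSet Γ) := by
  obtain ⟨t, ht, e1⟩ := rigid1_chord hp he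
  by_cases hz : ∀ b ∈ B, lor (lift (p + t • e)) b ≤ 0
  · exact ⟨t, ht.le, subset_convexHull ℝ _ (h.limitSet_eq ▸ ⟨e1, hz⟩)⟩
  push Not at hz
  obtain ⟨b, hb, h1⟩ := hz
  have h2 := hB b hb
  rw [rigid1_line] at h1
  generalize hl : e 0 * b 1 + e 1 * b 2 + e 2 * b 3 = l at h1
  have l0 : 0 < t * l := by linarith
  obtain ⟨θ, hθ⟩ : ∃ θ : ℝ, θ = -lor (lift p) b / (t * l) := ⟨_, rfl⟩
  have θ0 : 0 ≤ θ := hθ ▸ div_nonneg (neg_nonneg.2 h2) l0.le
  have θ1 : θ < 1 := hθ ▸ (div_lt_one l0).2 (by linarith)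
  refine ⟨θ * t, by positivity, h.rigid1_plane hb ?_ ?_⟩
  · have e2 : p + (θ * t) • e = (1 - θ) • p + θ • (p + t • e) := by module
    rw [e2]
    refine (norm_add_le _ _).trans_lt ?_
    rw [norm_smul, norm_smul, e1, Real.norm_of_nonneg θ0, Real.norm_of_nonneg (by linarith)]
    nlinarith
  · rw [rigid1_line, hl, mul_assoc, hθ, div_mul_cancel₀ _ l0.ne', add_neg_cancel]

theorem Geo.hull_eq {Γ : Subgroup G} {B : Set V} {R₀ : ℝ} (h : Geo Γ B R₀) :
    hull Γ = {p | ‖p‖ < 1 ∧ ∀ b ∈ B, lor (lift p) b ≤ 0} := by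
  ext p
  constructor
  · rintro ⟨h1, h2⟩
    refine ⟨by simpa using h2, fun b hb => ?_⟩
    have hc : Convex ℝ {p : E3 | lor (lift p) b ≤ 0} := by
      intro x hx y hy s t hs ht hst
      simp only [mem_ofPred_eq, rigid1_lor, PiLp.add_apply, PiLp.smul_apply, smul_eq_mul] at *
      obtain rfl : t = 1 - s := by linarith
      nlinarith [mul_nonneg hs (neg_nonneg.2 hx), mul_nonneg ht (neg_nonneg.2 hy)]
    refine convexHull_min ?_ hc h1
    rw [h.limitSet_eq]
    exact fun q hq => hq.2 b hb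
  · rintro ⟨h1, h2⟩
    refine ⟨?_, by simpa using h1⟩
    have he : (!₂[1, 0, 0] : E3) ≠ 0 := fun e => by simpa using congrArg (fun v : E3 => v 0) e
    obtain ⟨t, ht, e1⟩ := h.rigid1_ray h1 h2 he
    obtain ⟨t', ht', e2⟩ := h.rigid1_ray h1 h2 (neg_ne_zero.2 he)
    exact rigid1_between (convex_convexHull ℝ _) ht ht' e1 e2

end Pool.Agent.MP_7a4cc0_an

end

section

open Matrix MeasureTheory Set Topology Filter
open scoped ENNReal NNReal CompactlySupported

namespace Pool.Agent.MP_7a4cc0_an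

lemma rigid2_lift_zero : lift 0 = vo := by
  ext i; fin_cases i <;> simp [lift, vo]

lemma rigid2_lift_apply_zero (p : E3) : lift p 0 = 1 := by simp [lift]

lemma rigid2_cone {p : E3} (hp : ‖p‖ < 1) : Cone (lift p) := by
  refine ⟨?_, by rw [rigid2_lift_apply_zero]; exact one_pos⟩
  rw [lor_lift_self]
  nlinarith [norm_nonneg p]

lemma rigid2_cont (b : V) : Continuous fun q : E3 => lor (lift q) b :=
  continuous_lor.comp (continuous_lift.prodMk continuous_const)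

/-- The spatial part of a vector. -/
noncomputable def rigid2N (b : V) : E3 := !₂[b 1, b 2, b 3]

lemma rigid2_inner (b : V) (p : E3) : inner ℝ (rigid2N b) p = lor (lift p) b + b 0 := by
  simp only [rigid2N, lift, lor, EuclideanSpace.inner_eq_star_dotProduct, dotProduct,
    Fin.sum_univ_three]
  simp
  ring

lemma rigid2_normsq (b : V) : ‖rigid2N b‖ ^ 2 = lor b b + b 0 ^ 2 := by
  rw [EuclideanSpace.norm_sq_eq]
  simp only [rigid2N, lor, Fin.sum_univ_three, Real.norm_eq_abs, sq_abs]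
  simp
  ring

/-- A point of the open ball strictly inside all walls is interior to the hull. -/
lemma rigid2_interior {Γ : Subgroup G} {B : Set V} {R₀ : ℝ} (h : Geo Γ B R₀) {p : E3}
    (hp : ‖p‖ < 1) (hb : ∀ b ∈ B, lor (lift p) b < 0) : p ∈ interior (hull Γ) := by
  obtain ⟨r, hpr, hr1⟩ := exists_between hp
  have hr0 : 0 < r := lt_of_le_of_lt (norm_nonneg p) hpr
  have hr2 : 0 < 1 - r ^ 2 := by nlinarith
  set C : ℝ := (√(1 - r ^ 2))⁻¹ with hC
  have hF := h.finite_near C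
  set F := {b ∈ B | ∃ x, Fut x ∧ x 0 ≤ C ∧ 0 ≤ lor x b} with hFdef
  have hopen : IsOpen (Metric.ball (0 : E3) r ∩ ⋂ b ∈ F, {q : E3 | lor (lift q) b < 0}) :=
    Metric.isOpen_ball.inter
      (hF.isOpen_biInter fun b _ => isOpen_lt (rigid2_cont b) continuous_const)
  refine mem_interior.2 ⟨_, ?_, hopen, ?_⟩
  · rintro q ⟨hq, hqF⟩
    have hqr : ‖q‖ < r := by simpa using hq
    have hq1 : ‖q‖ < 1 := hqr.trans hr1
    rw [h.hull_eq]
    refine ⟨hq1, fun b hbB => ?_⟩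
    by_contra hpos
    push Not at hpos
    have hq2 : ‖q‖ ^ 2 < r ^ 2 := by nlinarith [norm_nonneg q]
    have hneg : lor (lift q) (lift q) < 0 := by rw [lor_lift_self]; nlinarith
    have hfut := fut_normalize hneg (by rw [rigid2_lift_apply_zero]; exact one_pos)
    have hs : 0 < √(-lor (lift q) (lift q)) := Real.sqrt_pos.2 (by linarith)
    have hbF : b ∈ F := by
      refine ⟨hbB, _, hfut, ?_, ?_⟩
      · rw [Pi.smul_apply, rigid2_lift_apply_zero, smul_eq_mul, mul_one, hC]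
        apply inv_anti₀ (Real.sqrt_pos.2 hr2)
        apply Real.sqrt_le_sqrt
        rw [lor_lift_self]; linarith
      · rw [lor_smul_left]
        exact mul_nonneg (inv_nonneg.2 hs.le) hpos.le
    have := (mem_iInter₂.1 hqF) b hbF
    simp only [mem_ofPred_eq] at this
    linarith
  · refine ⟨by simpa using hpr, mem_iInter₂.2 fun b hbF => hb b hbF.1⟩

/-- A point on a wall is not interior to the hull. -/
lemma rigid2_not_interior {Γ : Subgroup G} {B : Set V} {R₀ : ℝ} (h : Geo Γ B R₀) {b : V}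
    (hb : b ∈ B) {p : E3} (hp : lor (lift p) b = 0) : p ∉ interior (hull Γ) := by
  intro hint
  have hc : Continuous fun t : ℝ => p + t • rigid2N b := by fun_prop
  have h0 : Tendsto (fun t : ℝ => p + t • rigid2N b) (𝓝 0) (𝓝 p) := by
    have := hc.tendsto 0
    simpa using this
  have hev : ∀ᶠ t : ℝ in 𝓝 0, p + t • rigid2N b ∈ hull Γ :=
    h0.eventually (mem_interior_iff_mem_nhds.1 hint)
  have hev' : ∀ᶠ t : ℝ in 𝓝[>] 0, p + t • rigid2N b ∈ hull Γ :=
    hev.filter_mono nhdsWithin_le_nhds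
  obtain ⟨t, ht, ht0⟩ := (hev'.and self_mem_nhdsWithin).exists
  rw [h.hull_eq] at ht
  have h1 := ht.2 b hb
  have h2 := rigid2_inner b (p + t • rigid2N b)
  have h3 := rigid2_inner b p
  rw [inner_add_right, real_inner_smul_right, real_inner_self_eq_norm_sq, rigid2_normsq,
    h.unit b hb, h3, hp] at h2
  have ht0' : (0 : ℝ) < t := ht0
  have : 0 < t * (1 + b 0 ^ 2) := by positivity
  linarith

theorem Geo.rigid {Γ : Subgroup G} {B : Set V} {R₀ : ℝ} (h : Geo Γ B R₀)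
    (htor : ∀ γ ∈ Γ, IsOfFinOrder γ → γ = 1) : RigidAcylindrical Γ := by
  refine ⟨htor, h.disc, ?_, ?_, ?_⟩
  · obtain ⟨C, hC⟩ := h.cocpt
    refine ⟨_, isCompact_bdd C, fun g hg => ?_⟩
    have hx : Fut (rho (pr g) vo) := rho_fut _ fut_vo
    rw [h.hull_eq, pt_eq] at hg
    obtain ⟨γ, hγ, hle⟩ := hC _ hx fun b hb => by
      have h1 := hg.2 b hb
      rw [lift_kl hx.2.ne', lor_smul_left] at h1
      by_contra hpos
      push Not at hpos
      have := mul_pos (inv_pos.2 hx.2) hpos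
      linarith
    refine ⟨γ, hγ, ?_⟩
    simp only [mem_ofPred_eq]
    rw [rho_mul]
    exact hle
  · refine ⟨0, rigid2_interior h (by simp) fun b hb => ?_⟩
    rw [rigid2_lift_zero]
    exact h.neg b hb
  · rintro p ⟨hp, hpb⟩
    have hp1 : ‖p‖ < 1 := by simpa using hpb
    have hle : ∀ b ∈ B, lor (lift p) b ≤ 0 := fun b hb => by
      have hsub : hull Γ ⊆ {q : E3 | lor (lift q) b ≤ 0} := by
        rw [h.hull_eq]; exact fun q hq => hq.2 b hb
      exact closure_minimal hsub (isClosed_le (rigid2_cont b) continuous_const) hp.1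
    have hex : ∃ b ∈ B, lor (lift p) b = 0 := by
      by_contra hne
      push Not at hne
      exact hp.2 (rigid2_interior h hp1 fun b hb => lt_of_le_of_ne (hle b hb) (hne b hb))
    obtain ⟨b, hb, hb0⟩ := hex
    refine ⟨rigid2N b, b 0, ?_, by rw [rigid2_inner, hb0, zero_add], fun p' hp' hin => ?_⟩
    · intro hn
      have h1 := rigid2_normsq b
      rw [hn, h.unit b hb] at h1
      simp only [norm_zero] at h1
      nlinarith [sq_nonneg (b 0)]
    · have hp'1 : ‖p'‖ < 1 := by simpa using hp'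
      have h0 : lor (lift p') b = 0 := by
        rw [rigid2_inner] at hin; linarith
      refine ⟨subset_closure ?_, rigid2_not_interior h hb h0⟩
      rw [h.hull_eq]
      refine ⟨hp'1, fun b' hb' => ?_⟩
      by_cases hbb : b = b'
      · rw [← hbb, h0]
      · exact (h.plane hb hb' hbb (rigid2_cone hp'1) h0.ge).le

end Pool.Agent.MP_7a4cc0_an

end
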